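import Mathlib

/-!
# Growth of the Hilbert numbers: common definitions

Planar vector fields, closed orbits, limit cycles (exactly as in the problem and in the frozen
statement S05463), the Hilbert numbers, the Lienard numbers, and coefficient arrays.
-/

set_option autoImplicit false

open Set Filter Topology

namespace Pool.Agent.Lib.MP_95e7ec_an

/-- The planar polynomial vector field with components `P`, `Q`. -/
noncomputable def vf (P Q : MvPolynomial (Fin 2) ℝ) (z : ℝ × ℝ) : ℝ × ℝ :=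
  (MvPolynomial.eval ![z.1, z.2] P, MvPolynomial.eval ![z.1, z.2] Q)

/-- `C` is a closed orbit of `v`: the range of a nonconstant periodic solution. -/
def IsClosedOrbit (v : ℝ × ℝ → ℝ × ℝ) (C : Set (ℝ × ℝ)) : Prop :=
  ∃ γ : ℝ → ℝ × ℝ, ∃ T : ℝ, 0 < T ∧ (∀ t : ℝ, HasDerivAt γ (v (γ t)) t) ∧
    (∀ t : ℝ, γ (t + T) = γ t) ∧ (∃ s t : ℝ, γ s ≠ γ t) ∧ C = Set.range γ

/-- A limit cycle is a closed orbit which is isolated among the closed orbits. -/
def IsLimitCycle (v : ℝ × ℝ → ℝ × ℝ) (C : Set (ℝ × ℝ)) : Prop :=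
  IsClosedOrbit v C ∧ ∃ U : Set (ℝ × ℝ), IsOpen U ∧ C ⊆ U ∧
    ∀ C' : Set (ℝ × ℝ), IsClosedOrbit v C' → C' ⊆ U → C' = C

/-- The `n`-th Hilbert number, in `ℕ ∪ {∞}`. -/
noncomputable def hilbertNumber (n : ℕ) : ℕ∞ :=
  ⨆ (P : MvPolynomial (Fin 2) ℝ) (Q : MvPolynomial (Fin 2) ℝ)
    (_ : P.totalDegree ≤ n) (_ : Q.totalDegree ≤ n), {C | IsLimitCycle (vf P Q) C}.encard

/-- The `d`-th Lienard number: the supremum of the number of limit cycles of
`x' = y - F(x)`, `y' = -G(x)` with `F`, `G` polynomials of degree at most `d`. -/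
noncomputable def lienardNumber (d : ℕ) : ℕ∞ :=
  ⨆ (F : Polynomial ℝ) (G : Polynomial ℝ) (_ : F.natDegree ≤ d) (_ : G.natDegree ≤ d),
    {C | IsLimitCycle (fun z : ℝ × ℝ => (z.2 - F.eval z.1, -G.eval z.1)) C}.encard

/-- Coefficient arrays `c a b` (coefficient of `x^a y^b`, `a, b ≤ D`). -/
abbrev Co (D : ℕ) := Fin (D + 1) → Fin (D + 1) → ℝ

/-- Pairs of coefficient arrays, i.e. polynomial vector fields of degree at most `D` in each
variable. This is a finite dimensional normed space. -/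
abbrev Pr (D : ℕ) := Co D × Co D

section pe
variable {D : ℕ} {R : Type*} [CommRing R] [Algebra ℝ R]

/-- Evaluation of a coefficient array at `(x,y)` in a commutative real algebra. -/
def pe (c : Co D) (x y : R) : R :=
  ∑ a : Fin (D + 1), ∑ b : Fin (D + 1), c a b • (x ^ (a : ℕ) * y ^ (b : ℕ))

/-- Partial derivative with respect to the first variable. -/
def pex (c : Co D) (x y : R) : R :=
  ∑ a : Fin (D + 1), ∑ b : Fin (D + 1),
    c a b • (((a : ℕ) : ℝ) • x ^ ((a : ℕ) - 1) * y ^ (b : ℕ))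

/-- Partial derivative with respect to the second variable. -/
def pey (c : Co D) (x y : R) : R :=
  ∑ a : Fin (D + 1), ∑ b : Fin (D + 1),
    c a b • (x ^ (a : ℕ) * (((b : ℕ) : ℝ) • y ^ ((b : ℕ) - 1)))

end pe

/-- The vector field of a pair of coefficient arrays. -/
def vfc {D : ℕ} (μ : Pr D) (z : ℝ × ℝ) : ℝ × ℝ := (pe μ.1 z.1 z.2, pe μ.2 z.1 z.2)

/-- Rotation by a quarter turn (of the vector field): `J (P,Q) = (-Q,P)`. -/
def rot {D : ℕ} (μ : Pr D) : Pr D := (-μ.2, μ.1)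

/-- Paths `[0,1] → ℝ`. -/
abbrev A := C(unitInterval, ℝ)

/-- The primitive `t ↦ ∫_0^t f` on `C([0,1])`, as a bare function. -/
noncomputable def primFun (f : A) (t : unitInterval) : ℝ :=
  ∫ s in (0 : ℝ)..(t : ℝ), Set.IccExtend (zero_le_one' ℝ) f s

theorem primFun_continuous (f : A) : Continuous (primFun f) := by
  have h : Continuous (Set.IccExtend (zero_le_one' ℝ) f) := f.continuous.Icc_extend'
  have h2 : Continuous fun b : ℝ => ∫ s in (0 : ℝ)..b, Set.IccExtend (zero_le_one' ℝ) f s :=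
    intervalIntegral.continuous_primitive (fun a b => h.intervalIntegrable a b) 0
  exact h2.comp continuous_subtype_val

/-- The primitive operator on `C([0,1])`. -/
noncomputable def prim (f : A) : A := ⟨primFun f, primFun_continuous f⟩

/-- `z` is a path with `z' = T • vfc μ z`, `z(0) = x` (in integral form). -/
def Sol {D : ℕ} (μ : Pr D) (T : ℝ) (x : ℝ × ℝ) (z : A × A) : Prop :=
  z.1 = ContinuousMap.const _ x.1 + T • prim (pe μ.1 z.1 z.2) ∧
  z.2 = ContinuousMap.const _ x.2 + T • prim (pe μ.2 z.1 z.2)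

/-- The position of the path `z` at time `t ∈ [0,1]`. -/
def at' (z : A × A) (t : unitInterval) : ℝ × ℝ := (z.1 t, z.2 t)

/-- The path `s ↦ γ (t₀ + T s)`, `s ∈ [0,1]`, of a continuous curve. -/
noncomputable def pathOf (γ : ℝ → ℝ × ℝ) (hγ : Continuous γ) (t₀ T : ℝ) : A × A :=
  (⟨fun s => (γ (t₀ + T * s)).1, by fun_prop⟩, ⟨fun s => (γ (t₀ + T * s)).2, by fun_prop⟩)

/-- The quarter turn of a vector. -/
def nrm (X : ℝ × ℝ) : ℝ × ℝ := (-X.2, X.1)

/-- The scalar product in the plane. -/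
def dot (u v : ℝ × ℝ) : ℝ := u.1 * v.1 + u.2 * v.2

/-- A return map of `vfc μ` along the segment `p + s • nrm X`, `|s| < η`: the orbit of
`p + s • nrm X` is at `p + ρ s • nrm X` after the time `τ s`, and does not meet the (closed)
segment in between. -/
structure RetMap {D : ℕ} (μ : Pr D) (p X : ℝ × ℝ) (η : ℝ) (ρ τ : ℝ → ℝ) (Z : ℝ → A × A) :
    Prop where
  eta_pos : 0 < η
  X_ne : X ≠ 0
  tau_pos : ∀ s ∈ Set.Ioo (-η) η, 0 < τ s
  sol : ∀ s ∈ Set.Ioo (-η) η, Sol μ (τ s) (p + s • nrm X) (Z s)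
  endpt : ∀ s ∈ Set.Ioo (-η) η, at' (Z s) 1 = p + ρ s • nrm X
  cross : ∀ s ∈ Set.Ioo (-η) η, ∀ t : unitInterval, t ≠ 0 → t ≠ 1 → ∀ s' ∈ Set.Icc (-η) η,
    at' (Z s) t ≠ p + s' • nrm X
  trans : ∀ s ∈ Set.Ioo (-η) η, 0 < dot (vfc μ (p + s • nrm X)) X
  mono : StrictMonoOn ρ (Set.Ioo (-η) η)
  cont_rho : ContinuousOn ρ (Set.Ioo (-η) η)
  cont_Z : ContinuousOn Z (Set.Ioo (-η) η)

/-- The coefficient array of a polynomial. -/
noncomputable def arr (D : ℕ) (P : MvPolynomial (Fin 2) ℝ) : Co D :=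
  fun a b => P.coeff (Finsupp.single 0 (a : ℕ) + Finsupp.single 1 (b : ℕ))

end Pool.Agent.Lib.MP_95e7ec_an
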