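import Mathlib
import Pool.Agent.Lib.MP_95e7ec_an.Defs

/-!
# Transport of limit cycles by affine maps and change of time
-/

set_option autoImplicit false

open Set Filter Topology

namespace Pool.Agent.Lib.MP_95e7ec_an

theorem IsClosedOrbit.affine {v w : ℝ × ℝ → ℝ × ℝ} {C : Set (ℝ × ℝ)} (a : ℝ × ℝ)
    (L : (ℝ × ℝ) ≃L[ℝ] (ℝ × ℝ)) (κ : ℝ) (hκ : 0 < κ)
    (hvw : ∀ y, v (a + L y) = κ⁻¹ • L (w y))
    (h : IsClosedOrbit w C) : IsClosedOrbit v ((fun y => a + L y) '' C) := by
  obtain ⟨γ, T, hT, hd, hper, ⟨s, t, hst⟩, rfl⟩ := h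
  refine ⟨fun t => a + L (γ (κ⁻¹ * t)), κ * T, by positivity, ?_, ?_, ?_, ?_⟩
  · intro t
    have h1 : HasDerivAt (fun t => γ (κ⁻¹ * t)) (κ⁻¹ • w (γ (κ⁻¹ * t))) t := by
      have h0 : HasDerivAt (fun t : ℝ => κ⁻¹ * t) κ⁻¹ t := by
        simpa using (hasDerivAt_id t).const_mul κ⁻¹
      exact (hd (κ⁻¹ * t)).scomp t h0
    have h2 : HasDerivAt (fun t => a + L (γ (κ⁻¹ * t))) (L (κ⁻¹ • w (γ (κ⁻¹ * t)))) t :=
      (L.hasFDerivAt.comp_hasDerivAt t h1).const_add a
    rw [hvw]
    rw [map_smul] at h2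
    exact h2
  · intro t
    have : κ⁻¹ * (t + κ * T) = κ⁻¹ * t + T := by field_simp
    simp only [this, hper]
  · refine ⟨κ * s, κ * t, ?_⟩
    have e1 : κ⁻¹ * (κ * s) = s := by field_simp
    have e2 : κ⁻¹ * (κ * t) = t := by field_simp
    simp only [e1, e2]
    intro hc
    exact hst (L.injective (add_left_cancel hc))
  · ext z
    simp only [mem_image, mem_range, exists_exists_eq_and]
    constructor
    · rintro ⟨u, rfl⟩
      refine ⟨κ * u, ?_⟩
      have e1 : κ⁻¹ * (κ * u) = u := by field_simp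
      rw [e1]
    · rintro ⟨u, rfl⟩
      exact ⟨κ⁻¹ * u, rfl⟩

theorem IsLimitCycle.affine {v : ℝ × ℝ → ℝ × ℝ} {C : Set (ℝ × ℝ)} (a : ℝ × ℝ)
    (L : (ℝ × ℝ) ≃L[ℝ] (ℝ × ℝ)) (κ : ℝ) (hκ : 0 < κ)
    (h : IsLimitCycle (fun y => κ • L.symm (v (a + L y))) C) :
    IsLimitCycle v ((fun y => a + L y) '' C) := by
  obtain ⟨hC, U, hU, hCU, hiso⟩ := h
  refine ⟨hC.affine a L κ hκ ?_, ?_⟩
  · intro y
    rw [map_smul, smul_smul, inv_mul_cancel₀ hκ.ne', one_smul, L.apply_symm_apply]
  · refine ⟨(fun x => L.symm (x - a)) ⁻¹' U, hU.preimage (by fun_prop), ?_, ?_⟩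
    · rintro _ ⟨y, hy, rfl⟩
      simp only [mem_preimage, add_sub_cancel_left, L.symm_apply_apply]
      exact hCU hy
    · intro C' hC' hC'U
      have h1 : IsClosedOrbit (fun y => κ • L.symm (v (a + L y)))
          ((fun y => -L.symm a + L.symm y) '' C') := by
        refine hC'.affine (-L.symm a) L.symm κ⁻¹ (by positivity) ?_
        intro y
        have : a + L (-L.symm a + L.symm y) = y := by
          rw [map_add, map_neg, L.apply_symm_apply, L.apply_symm_apply]; abel
        rw [this, inv_inv]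
      have h2 : (fun y => -L.symm a + L.symm y) '' C' ⊆ U := by
        rintro _ ⟨y, hy, rfl⟩
        have h3 := hC'U hy
        simp only [mem_preimage, map_sub] at h3
        have h4 : -L.symm a + L.symm y = L.symm y - L.symm a := by abel
        simpa only [h4] using h3
      have h3 := hiso _ h1 h2
      rw [← h3, image_image]
      ext z
      simp only [mem_image]
      constructor
      · intro hz
        refine ⟨z, hz, ?_⟩
        rw [map_add, map_neg, L.apply_symm_apply, L.apply_symm_apply]; abel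
      · rintro ⟨y, hy, rfl⟩
        have : a + L (-L.symm a + L.symm y) = y := by
          rw [map_add, map_neg, L.apply_symm_apply, L.apply_symm_apply]; abel
        rw [this]; exact hy

end Pool.Agent.Lib.MP_95e7ec_an
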