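import Mathlib
import Pool.Agent.Lib.MP_95e7ec_an.Defs

/-!
# Averaged Hilbert bound: definitions

For a planar vector field `v` and an angle `α` the turned field is `z ↦ e^{iα} v(z)`.
The theorem: for every real polynomial field `v` of degree `n` and every `R > 0`, the integral over
`α ∈ (0,π)` of the total length of all the closed orbits of the turned field which lie in the disc
`|z| < R` is at most `4 π n R`.
-/

set_option autoImplicit false

open Set Filter Topology MeasureTheory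

namespace Pool.Agent.Lib.MP_95e7ec_an

/-- The vector field `v` turned by the angle `α`: `z ↦ e^{iα} v(z)`. -/
noncomputable def turn (α : ℝ) (v : ℝ × ℝ → ℝ × ℝ) (z : ℝ × ℝ) : ℝ × ℝ :=
  (Real.cos α * (v z).1 - Real.sin α * (v z).2, Real.sin α * (v z).1 + Real.cos α * (v z).2)

/-- The Euclidean length of a plane vector. -/
noncomputable def nm (u : ℝ × ℝ) : ℝ := Real.sqrt (u.1 ^ 2 + u.2 ^ 2)

/-- The Euclidean length of the closed orbit `C` of the field `v`: the infimum, over all the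
periodic solutions `γ` of `γ' = v(γ)` with range `C` and over all their periods `T > 0`, of the
integral of the speed `|v(γ(t))|` over `[0,T]`. -/
noncomputable def orbitLength (v : ℝ × ℝ → ℝ × ℝ) (C : Set (ℝ × ℝ)) : ENNReal :=
  ⨅ (γ : ℝ → ℝ × ℝ) (T : ℝ) (_ : 0 < T ∧ (∀ t : ℝ, HasDerivAt γ (v (γ t)) t) ∧
    (∀ t : ℝ, γ (t + T) = γ t) ∧ C = Set.range γ),
    ENNReal.ofReal (∫ t in (0 : ℝ)..T, nm (v (γ t)))

/-- The coefficient array of the turned field. -/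
noncomputable def rotA {D : ℕ} (μ : Pr D) (α : ℝ) : Pr D :=
  Real.cos α • μ + Real.sin α • rot μ

/-- The determinant of two plane vectors. -/
def det2 (u v : ℝ × ℝ) : ℝ := u.1 * v.2 - u.2 * v.1

/-- `|∂_x arg X| + |∂_y arg X|` for the field `X = vfc μ` (the value is `0` at the zeros of `X`):
`(|p q_x - q p_x| + |p q_y - q p_y|) / (p² + q²)`. It is invariant under turning. -/
noncomputable def argGrad {D : ℕ} (μ : Pr D) (z : ℝ × ℝ) : ℝ :=
  (|pe μ.1 z.1 z.2 * pex μ.2 z.1 z.2 - pe μ.2 z.1 z.2 * pex μ.1 z.1 z.2| +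
    |pe μ.1 z.1 z.2 * pey μ.2 z.1 z.2 - pe μ.2 z.1 z.2 * pey μ.1 z.1 z.2|) /
    (pe μ.1 z.1 z.2 ^ 2 + pe μ.2 z.1 z.2 ^ 2)

/-- A local family of closed orbits of the turned fields of `vfc μ`, inside the set `Ω`:
for `s` in the open set `J` the path `Z s` is a closed path, solution of
`z' = τ(s) e^{i a(s)} X(z)`, everything is `C¹` in `s`, `a' , τ', Y` are the derivatives of
`a, τ, Z`, the angle `a(s)` is in `(0,π)`, the map `(s,t) ↦ Z s t` is injective on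
`J × [0,1)` with positive Jacobian. -/
structure Fam {D : ℕ} (μ : Pr D) (Ω : Set (ℝ × ℝ)) where
  J : Set ℝ
  a : ℝ → ℝ
  a' : ℝ → ℝ
  τ : ℝ → ℝ
  τ' : ℝ → ℝ
  Z : ℝ → A × A
  Y : ℝ → A × A
  isOpen_J : IsOpen J
  a_mem : ∀ s ∈ J, a s ∈ Set.Ioo 0 Real.pi
  tau_pos : ∀ s ∈ J, 0 < τ s
  deriv_a : ∀ s ∈ J, HasDerivAt a (a' s) s
  deriv_tau : ∀ s ∈ J, HasDerivAt τ (τ' s) s
  deriv_Z : ∀ s ∈ J, HasDerivAt Z (Y s) s
  cont_a' : ContinuousOn a' J
  cont_Y : ContinuousOn Y J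
  sol : ∀ s ∈ J, Sol (rotA μ (a s)) (τ s) (at' (Z s) 0) (Z s)
  closed : ∀ s ∈ J, at' (Z s) 1 = at' (Z s) 0
  closedY : ∀ s ∈ J, at' (Y s) 1 = at' (Y s) 0
  lin1 : ∀ s ∈ J, (Y s).1 = ContinuousMap.const _ (at' (Y s) 0).1 +
    τ' s • prim (pe (rotA μ (a s)).1 (Z s).1 (Z s).2) +
    τ s • prim (pex (rotA μ (a s)).1 (Z s).1 (Z s).2 * (Y s).1 +
      pey (rotA μ (a s)).1 (Z s).1 (Z s).2 * (Y s).2 +
      a' s • pe (rot (rotA μ (a s))).1 (Z s).1 (Z s).2)
  lin2 : ∀ s ∈ J, (Y s).2 = ContinuousMap.const _ (at' (Y s) 0).2 +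
    τ' s • prim (pe (rotA μ (a s)).2 (Z s).1 (Z s).2) +
    τ s • prim (pex (rotA μ (a s)).2 (Z s).1 (Z s).2 * (Y s).1 +
      pey (rotA μ (a s)).2 (Z s).1 (Z s).2 * (Y s).2 +
      a' s • pe (rot (rotA μ (a s))).2 (Z s).1 (Z s).2)
  jac_pos : ∀ s ∈ J, ∀ t, 0 < det2 (vfc (rotA μ (a s)) (at' (Z s) t)) (at' (Y s) t)
  inj : ∀ s ∈ J, ∀ s' ∈ J, ∀ t t' : unitInterval, t ≠ 1 → t' ≠ 1 →
    at' (Z s) t = at' (Z s') t' → s = s' ∧ t = t'
  sub : ∀ s ∈ J, ∀ t, at' (Z s) t ∈ Ω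

/-- The path `z` as a function of a real parameter (constant outside `[0,1]`). -/
noncomputable def pth (z : A × A) (t : ℝ) : ℝ × ℝ :=
  (Set.IccExtend (zero_le_one' ℝ) z.1 t, Set.IccExtend (zero_le_one' ℝ) z.2 t)

namespace Fam

variable {D : ℕ} {μ : Pr D} {Ω : Set (ℝ × ℝ)}

/-- The closed orbit number `s` of the family. -/
def orb (F : Fam μ Ω) (s : ℝ) : Set (ℝ × ℝ) := Set.range (at' (F.Z s))

/-- The region covered by the orbits with parameter in `E`, up to their starting points. -/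
def img (F : Fam μ Ω) (E : Set ℝ) : Set (ℝ × ℝ) :=
  {z | ∃ s ∈ E, ∃ t : unitInterval, t ≠ 0 ∧ t ≠ 1 ∧ at' (F.Z s) t = z}

/-- The length of the closed orbit number `s`. -/
noncomputable def len (F : Fam μ Ω) (s : ℝ) : ℝ :=
  ∫ t in (0 : ℝ)..1, F.τ s * nm (vfc μ (pth (F.Z s) t))

/-- The absolute value of the Jacobian determinant of `(s,t) ↦ Z s t`. -/
noncomputable def jac (F : Fam μ Ω) (s t : ℝ) : ℝ :=
  F.τ s * det2 (vfc (rotA μ (F.a s)) (pth (F.Z s) t)) (pth (F.Y s) t)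

end Fam

end Pool.Agent.Lib.MP_95e7ec_an
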