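import Mathlib
import Pool.Agent.Lib.MP_95e7ec_an.Defs

/-!
# Paths: elementary facts on solutions of the integral equation
-/

set_option autoImplicit false

open Set Filter Topology

namespace Pool.Agent.Lib.MP_95e7ec_an

theorem pe_apply {D : ℕ} (c : Co D) (f g : A) (t : unitInterval) :
    (pe c f g) t = pe c (f t) (g t) := by
  simp [pe, ContinuousMap.sum_apply]

theorem contDiff_pe {D : ℕ} (c : Co D) : ContDiff ℝ 1 fun z : ℝ × ℝ => pe c z.1 z.2 := by
  unfold pe
  fun_prop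

theorem contDiff_vfc {D : ℕ} (μ : Pr D) : ContDiff ℝ 1 (vfc μ) :=
  (contDiff_pe μ.1).prodMk (contDiff_pe μ.2)

theorem continuous_vfc {D : ℕ} (μ : Pr D) : Continuous (vfc μ) :=
  (contDiff_vfc μ).continuous

theorem prim_apply_path (f : A) (t : unitInterval) :
    prim f t = ∫ s in (0 : ℝ)..(t : ℝ), IccExtend (zero_le_one' ℝ) f s := rfl

theorem ext_hasDerivWithinAt {T c : ℝ} {f g : A}
    (h : g = ContinuousMap.const _ c + T • prim f) (t : unitInterval) :
    HasDerivWithinAt (fun s : ℝ => IccExtend (zero_le_one' ℝ) g s) (T * f t) (Icc 0 1) t := by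
  have hc : Continuous (IccExtend (zero_le_one' ℝ) f) := f.continuous.Icc_extend'
  have h1 : HasDerivAt (fun b : ℝ => ∫ s in (0:ℝ)..b, IccExtend (zero_le_one' ℝ) f s)
      (IccExtend (zero_le_one' ℝ) f t) t :=
    intervalIntegral.integral_hasDerivAt_right (hc.intervalIntegrable _ _)
      hc.stronglyMeasurable.stronglyMeasurableAtFilter hc.continuousAt
  have h2 : HasDerivAt (fun b : ℝ => c + T * ∫ s in (0:ℝ)..b, IccExtend (zero_le_one' ℝ) f s)
      (T * f t) t := by
    have h3 := (h1.const_mul T).const_add c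
    rwa [IccExtend_val] at h3
  refine h2.hasDerivWithinAt.congr (fun s hs => ?_) ?_
  · rw [IccExtend_of_mem _ _ hs, h]; rfl
  · rw [IccExtend_val, h]; rfl

theorem Sol.hasDerivWithinAt {D : ℕ} {μ : Pr D} {T : ℝ} {x : ℝ × ℝ} {z : A × A}
    (h : Sol μ T x z) (t : unitInterval) :
    HasDerivWithinAt (fun s : ℝ => (Set.IccExtend (zero_le_one' ℝ) z.1 s,
      Set.IccExtend (zero_le_one' ℝ) z.2 s)) (T • vfc μ (at' z t)) (Set.Icc 0 1) t := by
  have h1 := ext_hasDerivWithinAt h.1 t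
  have h2 := ext_hasDerivWithinAt h.2 t
  rw [pe_apply] at h1 h2
  exact h1.prodMk h2

theorem Sol.at_zero {D : ℕ} {μ : Pr D} {T : ℝ} {x : ℝ × ℝ} {z : A × A}
    (h : Sol μ T x z) : at' z 0 = x := by
  have h0 : ∀ f : A, prim f 0 = 0 := fun f => by
    rw [prim_apply_path]
    simp
  have h1 : z.1 0 = x.1 := by
    rw [h.1]
    simp [h0]
  have h2 : z.2 0 = x.2 := by
    rw [h.2]
    simp [h0]
  exact Prod.ext h1 h2

theorem continuous_ext (z : A × A) : Continuous (fun s : ℝ => (Set.IccExtend (zero_le_one' ℝ) z.1 s,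
      Set.IccExtend (zero_le_one' ℝ) z.2 s)) :=
  z.1.continuous.Icc_extend'.prodMk z.2.continuous.Icc_extend'

theorem exists_lipschitz {D : ℕ} (μ : Pr D) (R : ℝ) :
    ∃ K, LipschitzOnWith K (vfc μ) (Metric.closedBall 0 R) :=
  LocallyLipschitzOn.exists_lipschitzOnWith_of_compact (isCompact_closedBall 0 R)
    (contDiff_vfc μ).locallyLipschitz.locallyLipschitzOn

theorem Sol.unique {D : ℕ} {μ : Pr D} {T : ℝ} {x : ℝ × ℝ} {z z' : A × A}
    (h : Sol μ T x z) (h' : Sol μ T x z') : z = z' := by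
  set Z : A × A → ℝ → ℝ × ℝ := fun z s => (Set.IccExtend (zero_le_one' ℝ) z.1 s,
      Set.IccExtend (zero_le_one' ℝ) z.2 s) with hZ
  have hval : ∀ (z : A × A) (t : unitInterval), Z z t = at' z t := by
    intro z t
    simp [hZ, at', IccExtend_val]
  -- a common bound
  have hbd : ∀ z : A × A, ∃ R : ℝ, ∀ s : ℝ, Z z s ∈ Metric.closedBall (0 : ℝ × ℝ) R := by
    intro z
    refine ⟨max ‖z.1‖ ‖z.2‖, fun s => ?_⟩
    rw [mem_closedBall_zero_iff]
    refine max_le_max ?_ ?_
    · exact z.1.norm_coe_le_norm _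
    · exact z.2.norm_coe_le_norm _
  obtain ⟨R₁, hR₁⟩ := hbd z
  obtain ⟨R₂, hR₂⟩ := hbd z'
  obtain ⟨K, hK⟩ := exists_lipschitz μ (max R₁ R₂)
  have hK' : LipschitzOnWith (‖T‖₊ * K) (fun y => T • vfc μ y)
      (Metric.closedBall 0 (max R₁ R₂)) := by
    have := (lipschitzWith_smul (α := ℝ) (β := ℝ × ℝ) T).comp_lipschitzOnWith hK
    exact this
  have hder : ∀ {z : A × A}, Sol μ T x z → ∀ t ∈ Ico (0:ℝ) 1,
      HasDerivWithinAt (Z z) (T • vfc μ (Z z t)) (Ici t) t := by
    intro z hz t ht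
    have h1 := hz.hasDerivWithinAt ⟨t, ht.1, ht.2.le⟩
    have h2 : HasDerivWithinAt (Z z) (T • vfc μ (Z z t)) (Icc 0 1) t := by
      have h3 := hval z ⟨t, ht.1, ht.2.le⟩
      simp only at h3
      rw [h3]
      exact h1
    have h4 : HasDerivWithinAt (Z z) (T • vfc μ (Z z t)) (Icc t 1) t :=
      h2.mono (Icc_subset_Icc_left ht.1)
    exact h4.mono_of_mem_nhdsWithin (Icc_mem_nhdsGE ht.2)
  have key : EqOn (Z z) (Z z') (Icc 0 1) := by
    refine ODE_solution_unique_of_mem_Icc_right (v := fun _ y => T • vfc μ y)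
      (s := fun _ => Metric.closedBall 0 (max R₁ R₂)) (fun _ _ => hK')
      (continuous_ext z).continuousOn (hder h) (fun t _ => ?_)
      (continuous_ext z').continuousOn (hder h') (fun t _ => ?_) ?_
    · exact Metric.closedBall_subset_closedBall (le_max_left _ _) (hR₁ t)
    · exact Metric.closedBall_subset_closedBall (le_max_right _ _) (hR₂ t)
    · have e1 := hval z 0
      have e2 := hval z' 0
      rw [h.at_zero] at e1
      rw [h'.at_zero] at e2
      exact e1.trans e2.symm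
  have hat : ∀ t : unitInterval, at' z t = at' z' t := by
    intro t
    rw [← hval z t, ← hval z' t]
    exact key t.2
  refine Prod.ext ?_ ?_
  · ext t
    exact congrArg Prod.fst (hat t)
  · ext t
    exact congrArg Prod.snd (hat t)

theorem eq_const_add_prim {g : ℝ → ℝ} {f w : A} {T : ℝ}
    (hder : ∀ s : unitInterval, HasDerivAt g (T * f s) s) (hw : ∀ s : unitInterval, w s = g s) :
    w = ContinuousMap.const _ (g 0) + T • prim f := by
  ext t
  have hcf : Continuous (IccExtend (zero_le_one' ℝ) f) := f.continuous.Icc_extend'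
  have h1 : ∫ s in (0:ℝ)..t, T * IccExtend (zero_le_one' ℝ) f s = g t - g 0 := by
    refine intervalIntegral.integral_eq_sub_of_hasDerivAt (fun s hs => ?_)
      ((continuous_const.mul hcf).intervalIntegrable _ _)
    rw [uIcc_of_le t.2.1] at hs
    have hs' : s ∈ Icc (0:ℝ) 1 := ⟨hs.1, hs.2.trans t.2.2⟩
    rw [IccExtend_of_mem _ _ hs']
    exact hder ⟨s, hs'⟩
  rw [intervalIntegral.integral_const_mul] at h1
  have h2 : (ContinuousMap.const unitInterval (g 0) + T • prim f) t
      = g 0 + T * ∫ s in (0:ℝ)..(t:ℝ), IccExtend (zero_le_one' ℝ) f s := rfl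
  rw [h2, h1, hw t]
  ring

theorem Sol.of_curve {D : ℕ} (μ : Pr D) {γ : ℝ → ℝ × ℝ}
    (hγ : ∀ t, HasDerivAt γ (vfc μ (γ t)) t) (hc : Continuous γ) (t₀ T : ℝ) :
    Sol μ T (γ t₀) (pathOf γ hc t₀ T) := by
  have hd : ∀ s : ℝ, HasDerivAt (fun s : ℝ => γ (t₀ + T * s)) (T • vfc μ (γ (t₀ + T * s))) s := by
    intro s
    have h1 : HasDerivAt (fun s : ℝ => t₀ + T * s) T s := by
      simpa using ((hasDerivAt_id s).const_mul T).const_add t₀
    exact (hγ (t₀ + T * s)).scomp s h1
  have hd1 : ∀ s : ℝ, HasDerivAt (fun s : ℝ => (γ (t₀ + T * s)).1)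
      (T * pe μ.1 (γ (t₀ + T * s)).1 (γ (t₀ + T * s)).2) s := fun s => (hd s).fst
  have hd2 : ∀ s : ℝ, HasDerivAt (fun s : ℝ => (γ (t₀ + T * s)).2)
      (T * pe μ.2 (γ (t₀ + T * s)).1 (γ (t₀ + T * s)).2) s := fun s => (hd s).snd
  refine ⟨?_, ?_⟩
  · have h3 := eq_const_add_prim (g := fun s => (γ (t₀ + T * s)).1)
      (f := pe μ.1 (pathOf γ hc t₀ T).1 (pathOf γ hc t₀ T).2) (w := (pathOf γ hc t₀ T).1)
      (T := T) (fun s => ?_) (fun s => rfl)
    · simpa using h3
    · rw [pe_apply]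
      exact hd1 s
  · have h3 := eq_const_add_prim (g := fun s => (γ (t₀ + T * s)).2)
      (f := pe μ.2 (pathOf γ hc t₀ T).1 (pathOf γ hc t₀ T).2) (w := (pathOf γ hc t₀ T).2)
      (T := T) (fun s => ?_) (fun s => rfl)
    · simpa using h3
    · rw [pe_apply]
      exact hd2 s

/-- a closed path gives a closed orbit (periodic extension, use `Int.fract`) -/
theorem Sol.exists_curve {D : ℕ} {μ : Pr D} {T : ℝ} {x : ℝ × ℝ} {z : A × A}
    (h : Sol μ T x z) (hT : 0 < T) (hz : at' z 1 = x) :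
    ∃ γ : ℝ → ℝ × ℝ, (∀ t, HasDerivAt γ (vfc μ (γ t)) t) ∧ (∀ t, γ (t + T) = γ t) ∧ γ 0 = x ∧
      (∀ s : unitInterval, γ (T * s) = at' z s) ∧ Set.range γ = Set.range (at' z) := by
  set Z : ℝ → ℝ × ℝ := fun s => (Set.IccExtend (zero_le_one' ℝ) z.1 s,
      Set.IccExtend (zero_le_one' ℝ) z.2 s) with hZ
  have hZc : Continuous Z := continuous_ext z
  have hval : ∀ t : unitInterval, Z t = at' z t := by
    intro t
    simp [hZ, at', IccExtend_val]
  have hZ0 : Z 0 = x := by
    have := hval 0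
    rw [h.at_zero] at this
    simpa using this
  have hZ1 : Z 1 = x := by
    have := hval 1
    rw [hz] at this
    simpa using this
  set G : ℝ → ℝ × ℝ := (fun u => T • vfc μ (Z u)) ∘ Int.fract with hG
  have hvc := continuous_vfc μ
  have hgc : Continuous fun u => T • vfc μ (Z u) := by fun_prop
  have hGc : Continuous G := by
    refine ContinuousOn.comp_fract'' hgc.continuousOn ?_
    simp only [hZ0, hZ1]
  have hGper : ∀ u, G (u + 1) = G u := by
    intro u
    simp [hG, Int.fract_add_one]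
  have hGI : ∀ u ∈ Icc (0:ℝ) 1, G u = T • vfc μ (Z u) := by
    intro u hu
    rcases hu.2.lt_or_eq with h1 | h1
    · simp [hG, Int.fract_eq_self.mpr ⟨hu.1, h1⟩]
    · simp [hG, h1, hZ0, hZ1]
  set W : ℝ → ℝ × ℝ := fun u => x + ∫ s in (0:ℝ)..u, G s with hW
  have hWd : ∀ u, HasDerivAt W (G u) u := by
    intro u
    have h1 : HasDerivAt (fun b : ℝ => ∫ s in (0:ℝ)..b, G s) (G u) u :=
      intervalIntegral.integral_hasDerivAt_right (hGc.intervalIntegrable _ _)
        hGc.stronglyMeasurable.stronglyMeasurableAtFilter hGc.continuousAt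
    exact h1.const_add x
  have hWc : Continuous W := continuous_iff_continuousAt.mpr fun u => (hWd u).continuousAt
  -- on the unit interval
  have hWZ : ∀ u ∈ Icc (0:ℝ) 1, W u = Z u := by
    intro u hu
    have h1 : ∀ s ∈ Ico (0:ℝ) 1, HasDerivWithinAt Z (T • vfc μ (Z s)) (Ici s) s := by
      intro s hs
      have h2 := h.hasDerivWithinAt ⟨s, hs.1, hs.2.le⟩
      rw [← hval] at h2
      exact (h2.mono (Icc_subset_Icc_left hs.1)).mono_of_mem_nhdsWithin (Icc_mem_nhdsGE hs.2)
    have h4 : EqOn (fun u => W u - Z u) (fun _ => 0) (Icc 0 1) := by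
      intro v hv
      have h5 := constant_of_has_deriv_right_zero (f := fun u => W u - Z u) (a := 0) (b := 1)
        (hWc.sub hZc).continuousOn (fun s hs => ?_) v hv
      · simp only
        rw [h5]
        simp [hW, hZ0]
      · have h6 := (hWd s).hasDerivWithinAt.sub (h1 s hs)
        rw [hGI s ⟨hs.1, hs.2.le⟩, sub_self] at h6
        exact h6
    have h7 := h4 hu
    exact sub_eq_zero.mp h7
  have hW1 : W 1 = x := by rw [hWZ 1 ⟨zero_le_one, le_rfl⟩, hZ1]
  have hWper : ∀ u, W (u + 1) = W u := by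
    intro u
    have h1 : ∫ s in (0:ℝ)..(u + 1), G s = (∫ s in (0:ℝ)..1, G s) + ∫ s in (1:ℝ)..(u + 1), G s :=
      (intervalIntegral.integral_add_adjacent_intervals (hGc.intervalIntegrable _ _)
        (hGc.intervalIntegrable _ _)).symm
    have h2 : ∫ s in (1:ℝ)..(u + 1), G s = ∫ s in (0:ℝ)..u, G s := by
      have h3 := intervalIntegral.integral_comp_add_right (a := 0) (b := u) (fun s => G s) 1
      simp only [hGper, zero_add] at h3
      exact h3.symm
    have h4 : x + ∫ s in (0:ℝ)..1, G s = x := hW1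
    have h5 : ∫ s in (0:ℝ)..1, G s = 0 := by
      simpa using h4
    simp only [hW, h1, h2, h5, zero_add]
  have hWfr : ∀ u, W u = W (Int.fract u) := by
    intro u
    have h1 : Function.Periodic W 1 := hWper
    have h2 := h1.sub_int_mul_eq (x := u) ⌊u⌋
    rw [mul_one] at h2
    exact h2.symm
  have hWall : ∀ u, ∃ s : unitInterval, W u = at' z s ∧ G u = T • vfc μ (W u) := by
    intro u
    have hf : Int.fract u ∈ Icc (0:ℝ) 1 := ⟨Int.fract_nonneg u, (Int.fract_lt_one u).le⟩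
    refine ⟨⟨Int.fract u, hf⟩, ?_, ?_⟩
    · rw [← hval, hWfr u]
      exact hWZ _ hf
    · rw [hWfr u, hWZ _ hf]
      rfl
  refine ⟨fun t => W (t / T), ?_, ?_, ?_, ?_, ?_⟩
  · intro t
    have h1 : HasDerivAt (fun t : ℝ => t / T) (1 / T) t := by
      simpa using (hasDerivAt_id t).div_const T
    have h2 := (hWd (t / T)).scomp t h1
    obtain ⟨s, -, hs⟩ := hWall (t / T)
    rw [hs, smul_smul, one_div, inv_mul_cancel₀ hT.ne', one_smul] at h2
    exact h2
  · intro t
    simp only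
    rw [add_div, div_self hT.ne']
    exact hWper _
  · simp [hW]
  · intro s
    simp only
    rw [mul_div_cancel_left₀ _ hT.ne', hWZ _ s.2, hval]
  · ext y
    constructor
    · rintro ⟨t, rfl⟩
      obtain ⟨s, hs, -⟩ := hWall (t / T)
      exact ⟨s, hs.symm⟩
    · rintro ⟨s, rfl⟩
      refine ⟨T * s, ?_⟩
      simp only
      rw [mul_div_cancel_left₀ _ hT.ne', hWZ _ s.2, hval]

end Pool.Agent.Lib.MP_95e7ec_an
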