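import Mathlib
import Pool.Agent.Lib.MP_95e7ec_an.AvgDefs
import Pool.Agent.Lib.MP_95e7ec_an.Paths

/-!
# Algebra of turning a planar vector field
-/

set_option autoImplicit false

open Set Filter Topology MeasureTheory
open scoped ContDiff ENNReal

namespace Pool.Agent.Lib.MP_95e7ec_an

theorem avb_pe_smul {D : ℕ} {R : Type*} [CommRing R] [Algebra ℝ R] (r : ℝ) (c : Co D) (x y : R) :
    pe (r • c) x y = r • pe c x y := by
  unfold pe
  rw [Finset.smul_sum]
  refine Finset.sum_congr rfl fun a _ => ?_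
  rw [Finset.smul_sum]
  refine Finset.sum_congr rfl fun b _ => ?_
  rw [smul_smul]; rfl

theorem avb_pe_add {D : ℕ} {R : Type*} [CommRing R] [Algebra ℝ R] (c c' : Co D) (x y : R) :
    pe (c + c') x y = pe c x y + pe c' x y := by
  unfold pe
  rw [← Finset.sum_add_distrib]
  refine Finset.sum_congr rfl fun a _ => ?_
  rw [← Finset.sum_add_distrib]
  refine Finset.sum_congr rfl fun b _ => ?_
  rw [← add_smul]; rfl

theorem avb_pex_smul {D : ℕ} {R : Type*} [CommRing R] [Algebra ℝ R] (r : ℝ) (c : Co D) (x y : R) :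
    pex (r • c) x y = r • pex c x y := by
  unfold pex
  rw [Finset.smul_sum]
  refine Finset.sum_congr rfl fun a _ => ?_
  rw [Finset.smul_sum]
  refine Finset.sum_congr rfl fun b _ => ?_
  rw [smul_smul]; rfl

theorem avb_pex_add {D : ℕ} {R : Type*} [CommRing R] [Algebra ℝ R] (c c' : Co D) (x y : R) :
    pex (c + c') x y = pex c x y + pex c' x y := by
  unfold pex
  rw [← Finset.sum_add_distrib]
  refine Finset.sum_congr rfl fun a _ => ?_
  rw [← Finset.sum_add_distrib]
  refine Finset.sum_congr rfl fun b _ => ?_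
  rw [← add_smul]; rfl

theorem avb_pey_smul {D : ℕ} {R : Type*} [CommRing R] [Algebra ℝ R] (r : ℝ) (c : Co D) (x y : R) :
    pey (r • c) x y = r • pey c x y := by
  unfold pey
  rw [Finset.smul_sum]
  refine Finset.sum_congr rfl fun a _ => ?_
  rw [Finset.smul_sum]
  refine Finset.sum_congr rfl fun b _ => ?_
  rw [smul_smul]; rfl

theorem avb_pey_add {D : ℕ} {R : Type*} [CommRing R] [Algebra ℝ R] (c c' : Co D) (x y : R) :
    pey (c + c') x y = pey c x y + pey c' x y := by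
  unfold pey
  rw [← Finset.sum_add_distrib]
  refine Finset.sum_congr rfl fun a _ => ?_
  rw [← Finset.sum_add_distrib]
  refine Finset.sum_congr rfl fun b _ => ?_
  rw [← add_smul]; rfl

theorem avb_rotA_fst {D : ℕ} (μ : Pr D) (α : ℝ) :
    (rotA μ α).1 = Real.cos α • μ.1 + (-Real.sin α) • μ.2 := by
  unfold rotA rot
  simp only [Prod.fst_add, Prod.smul_fst, smul_neg, neg_smul]

theorem avb_rotA_snd {D : ℕ} (μ : Pr D) (α : ℝ) :
    (rotA μ α).2 = Real.cos α • μ.2 + Real.sin α • μ.1 := by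
  unfold rotA rot
  simp only [Prod.snd_add, Prod.smul_snd]

theorem vfc_rotA {D : ℕ} (μ : Pr D) (α : ℝ) : vfc (rotA μ α) = turn α (vfc μ) := by
  funext z
  unfold vfc turn
  rw [avb_rotA_fst, avb_rotA_snd]
  simp only [avb_pe_add, avb_pe_smul, smul_eq_mul]
  ext <;> simp only <;> ring

theorem rotA_zero {D : ℕ} (μ : Pr D) : rotA μ 0 = μ := by
  unfold rotA
  simp

theorem avb_rot_rot {D : ℕ} (μ : Pr D) : rot (rot μ) = -μ := by
  unfold rot
  rfl

theorem avb_rot_smul {D : ℕ} (r : ℝ) (μ : Pr D) : rot (r • μ) = r • rot μ := by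
  unfold rot
  simp only [Prod.smul_snd, Prod.smul_fst, Prod.smul_mk, smul_neg]

theorem avb_rot_add {D : ℕ} (μ ν : Pr D) : rot (μ + ν) = rot μ + rot ν := by
  unfold rot
  simp only [Prod.snd_add, Prod.fst_add, Prod.mk_add_mk, neg_add]

theorem rotA_rotA {D : ℕ} (μ : Pr D) (α β : ℝ) : rotA (rotA μ α) β = rotA μ (α + β) := by
  unfold rotA
  rw [avb_rot_add, avb_rot_smul, avb_rot_smul, avb_rot_rot, Real.cos_add, Real.sin_add]
  module

theorem contDiff_rotA {D : ℕ} (μ : Pr D) : ContDiff ℝ ω (rotA μ) := by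
  unfold rotA
  exact (Real.contDiff_cos.smul contDiff_const).add (Real.contDiff_sin.smul contDiff_const)

theorem hasDerivAt_rotA {D : ℕ} (μ : Pr D) (α : ℝ) :
    HasDerivAt (rotA μ) (rot (rotA μ α)) α := by
  have h1 : HasDerivAt (fun α => Real.cos α • μ + Real.sin α • rot μ)
      ((-Real.sin α) • μ + Real.cos α • rot μ) α :=
    ((Real.hasDerivAt_cos α).smul_const μ).add ((Real.hasDerivAt_sin α).smul_const (rot μ))
  have h2 : rot (rotA μ α) = (-Real.sin α) • μ + Real.cos α • rot μ := by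
    unfold rotA
    rw [avb_rot_add, avb_rot_smul, avb_rot_smul, avb_rot_rot]
    module
  rw [h2]
  exact h1

theorem contDiff_turn {v : ℝ × ℝ → ℝ × ℝ} {n : WithTop ℕ∞} (hv : ContDiff ℝ n v) (α : ℝ) :
    ContDiff ℝ n (turn α v) := by
  unfold turn
  have h1 : ContDiff ℝ n (fun z => (v z).1) := hv.fst
  have h2 : ContDiff ℝ n (fun z => (v z).2) := hv.snd
  exact ((contDiff_const.mul h1).sub (contDiff_const.mul h2)).prodMk
    ((contDiff_const.mul h1).add (contDiff_const.mul h2))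

theorem nm_turn (α : ℝ) (v : ℝ × ℝ → ℝ × ℝ) (z : ℝ × ℝ) : nm (turn α v z) = nm (v z) := by
  unfold nm turn
  congr 1
  have h := Real.sin_sq_add_cos_sq α
  simp only
  linear_combination ((v z).1 ^ 2 + (v z).2 ^ 2) * h

theorem nm_pos {u : ℝ × ℝ} (hu : u ≠ 0) : 0 < nm u := by
  unfold nm
  apply Real.sqrt_pos.mpr
  by_contra hcon
  push Not at hcon
  apply hu
  have h1 : u.1 = 0 := by nlinarith [sq_nonneg u.1, sq_nonneg u.2]
  have h2 : u.2 = 0 := by nlinarith [sq_nonneg u.1, sq_nonneg u.2]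
  exact Prod.ext h1 h2

theorem nm_sq (u : ℝ × ℝ) : nm u ^ 2 = u.1 ^ 2 + u.2 ^ 2 := by
  unfold nm
  exact Real.sq_sqrt (by positivity)

theorem continuous_nm : Continuous nm := by
  unfold nm
  fun_prop

theorem turn_eq_zero {α : ℝ} {v : ℝ × ℝ → ℝ × ℝ} {z : ℝ × ℝ} : turn α v z = 0 ↔ v z = 0 := by
  have h := Real.sin_sq_add_cos_sq α
  constructor
  · intro h0
    by_contra hne
    have h1 := nm_pos hne
    rw [← nm_turn α v z, h0] at h1
    simp [nm] at h1
  · intro h0
    unfold turn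
    rw [h0]
    simp

theorem det2_turn (α β : ℝ) (v : ℝ × ℝ → ℝ × ℝ) (z : ℝ × ℝ) :
    det2 (turn α v z) (turn β v z) = Real.sin (β - α) * nm (v z) ^ 2 := by
  rw [nm_sq, Real.sin_sub]
  unfold det2 turn
  simp only
  ring

theorem argGrad_rotA {D : ℕ} (μ : Pr D) (α : ℝ) (z : ℝ × ℝ) :
    argGrad (rotA μ α) z = argGrad μ z := by
  have h := Real.sin_sq_add_cos_sq α
  unfold argGrad
  rw [avb_rotA_fst, avb_rotA_snd]
  simp only [avb_pe_add, avb_pe_smul, avb_pex_add, avb_pex_smul, avb_pey_add, avb_pey_smul,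
    smul_eq_mul]
  congr 1
  · congr 2
    · linear_combination (pe μ.1 z.1 z.2 * pex μ.2 z.1 z.2 - pe μ.2 z.1 z.2 * pex μ.1 z.1 z.2) * h
    · linear_combination (pe μ.1 z.1 z.2 * pey μ.2 z.1 z.2 - pe μ.2 z.1 z.2 * pey μ.1 z.1 z.2) * h
  · linear_combination (pe μ.1 z.1 z.2 ^ 2 + pe μ.2 z.1 z.2 ^ 2) * h

theorem argGrad_nonneg {D : ℕ} (μ : Pr D) (z : ℝ × ℝ) : 0 ≤ argGrad μ z := by
  unfold argGrad
  positivity

theorem avb_continuous_pe {D : ℕ} (c : Co D) : Continuous fun z : ℝ × ℝ => pe c z.1 z.2 := by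
  unfold pe
  fun_prop

theorem avb_continuous_pex {D : ℕ} (c : Co D) : Continuous fun z : ℝ × ℝ => pex c z.1 z.2 := by
  unfold pex
  fun_prop

theorem avb_continuous_pey {D : ℕ} (c : Co D) : Continuous fun z : ℝ × ℝ => pey c z.1 z.2 := by
  unfold pey
  fun_prop

theorem measurable_argGrad {D : ℕ} (μ : Pr D) : Measurable (argGrad μ) := by
  unfold argGrad
  have h1 := (avb_continuous_pe μ.1).measurable
  have h2 := (avb_continuous_pe μ.2).measurable
  have h3 := (avb_continuous_pex μ.1).measurable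
  have h4 := (avb_continuous_pex μ.2).measurable
  have h5 := (avb_continuous_pey μ.1).measurable
  have h6 := (avb_continuous_pey μ.2).measurable
  have abs_meas : ∀ f : ℝ × ℝ → ℝ, Measurable f → Measurable fun z => |f z| :=
    fun f hf => continuous_abs.measurable.comp hf
  exact ((abs_meas _ ((h1.mul h4).sub (h2.mul h3))).add
    (abs_meas _ ((h1.mul h6).sub (h2.mul h5)))).div ((h1.pow_const 2).add (h2.pow_const 2))

theorem continuousAt_argGrad {D : ℕ} (μ : Pr D) {z : ℝ × ℝ} (hz : vfc μ z ≠ 0) :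
    ContinuousAt (argGrad μ) z := by
  unfold argGrad
  have h1 := (avb_continuous_pe μ.1).continuousAt (x := z)
  have h2 := (avb_continuous_pe μ.2).continuousAt (x := z)
  have h3 := (avb_continuous_pex μ.1).continuousAt (x := z)
  have h4 := (avb_continuous_pex μ.2).continuousAt (x := z)
  have h5 := (avb_continuous_pey μ.1).continuousAt (x := z)
  have h6 := (avb_continuous_pey μ.2).continuousAt (x := z)
  have hne : pe μ.1 z.1 z.2 ^ 2 + pe μ.2 z.1 z.2 ^ 2 ≠ 0 := by
    have := nm_pos hz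
    have h7 := nm_sq (vfc μ z)
    have h8 : (vfc μ z).1 ^ 2 + (vfc μ z).2 ^ 2 = pe μ.1 z.1 z.2 ^ 2 + pe μ.2 z.1 z.2 ^ 2 := rfl
    rw [← h8, ← h7]
    positivity
  exact ((((h1.mul h4).sub (h2.mul h3)).abs).add (((h1.mul h6).sub (h2.mul h5)).abs)).div
    ((h1.pow 2).add (h2.pow 2)) hne

end Pool.Agent.Lib.MP_95e7ec_an
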