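import Mathlib
import Pool.Agent.Lib.MP_95e7ec_an.AvgDefs
import Pool.Agent.Lib.MP_95e7ec_an.AvgBasic

/-!
# The area of an annulus and of a neighbourhood of a curve
-/

set_option autoImplicit false

open Set Filter Topology MeasureTheory
open scoped ENNReal

namespace Pool.Agent.Lib.MP_95e7ec_an

private theorem aa_closed (c0 : ℝ × ℝ) (r : ℝ) :
    volume {c : ℝ × ℝ | nm (c - c0) ^ 2 ≤ r} ≤ ENNReal.ofReal (Real.pi * max r 0) := by
  rcases lt_or_ge r 0 with hr | hr
  · have : {c : ℝ × ℝ | nm (c - c0) ^ 2 ≤ r} = ∅ := by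
      rw [Set.eq_empty_iff_forall_notMem]
      intro c hc
      rw [mem_ofPred_eq] at hc
      have := sq_nonneg (nm (c - c0))
      linarith
    rw [this, measure_empty]
    exact zero_le
  · have h1 : Complex.measurableEquivRealProd ⁻¹' {c : ℝ × ℝ | nm (c - c0) ^ 2 ≤ r}
        = Metric.closedBall (Complex.mk c0.1 c0.2) (Real.sqrt r) := by
      ext z
      rw [Set.mem_preimage, mem_ofPred_eq, Metric.mem_closedBall, nm_sq, Complex.dist_eq_re_im,
        Real.sqrt_le_sqrt_iff hr]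
      rfl
    have hm : MeasurableSet {c : ℝ × ℝ | nm (c - c0) ^ 2 ≤ r} :=
      measurableSet_le ((continuous_nm.comp (continuous_id.sub continuous_const)).pow 2).measurable
        measurable_const
    rw [← Complex.volume_preserving_equiv_real_prod.measure_preimage hm.nullMeasurableSet, h1,
      Complex.volume_closedBall, max_eq_left hr, ← ENNReal.ofReal_pow (Real.sqrt_nonneg _),
      Real.sq_sqrt hr, mul_comm, ENNReal.ofReal_mul Real.pi_pos.le]
    refine mul_le_mul_left ?_ _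
    rw [ENNReal.ofReal, Real.toNNReal_of_nonneg Real.pi_pos.le]
    rfl

private theorem aa_open (c0 : ℝ × ℝ) {r : ℝ} (hr : 0 ≤ r) :
    volume {c : ℝ × ℝ | nm (c - c0) ^ 2 < r} = ENNReal.ofReal (Real.pi * r) := by
  have h1 : Complex.measurableEquivRealProd ⁻¹' {c : ℝ × ℝ | nm (c - c0) ^ 2 < r}
      = Metric.ball (Complex.mk c0.1 c0.2) (Real.sqrt r) := by
    ext z
    rw [Set.mem_preimage, mem_ofPred_eq, Metric.mem_ball, nm_sq, Complex.dist_eq_re_im,
      Real.sqrt_lt_sqrt_iff (by positivity)]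
    rfl
  have hm : MeasurableSet {c : ℝ × ℝ | nm (c - c0) ^ 2 < r} :=
    measurableSet_lt ((continuous_nm.comp (continuous_id.sub continuous_const)).pow 2).measurable
      measurable_const
  rw [← Complex.volume_preserving_equiv_real_prod.measure_preimage hm.nullMeasurableSet, h1,
    Complex.volume_ball, ← ENNReal.ofReal_pow (Real.sqrt_nonneg _),
    Real.sq_sqrt hr, mul_comm, ENNReal.ofReal_mul Real.pi_pos.le]
  congr 1
  rw [ENNReal.ofReal, Real.toNNReal_of_nonneg Real.pi_pos.le]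
  rfl

theorem volume_annulus_le (c0 : ℝ × ℝ) (κ : ℝ) {δ : ℝ} (hδ : 0 ≤ δ) :
    volume {c : ℝ × ℝ | |nm (c - c0) ^ 2 - κ| ≤ δ} ≤ ENNReal.ofReal (2 * Real.pi * δ) := by
  have hπ := Real.pi_pos
  rcases le_or_gt κ δ with h | h
  · have h1 : {c : ℝ × ℝ | |nm (c - c0) ^ 2 - κ| ≤ δ} ⊆ {c : ℝ × ℝ | nm (c - c0) ^ 2 ≤ κ + δ} := by
      intro c hc
      rw [mem_ofPred_eq, abs_le] at hc
      rw [mem_ofPred_eq]
      linarith [hc.2]
    refine (measure_mono h1).trans ((aa_closed c0 _).trans (ENNReal.ofReal_le_ofReal ?_))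
    have h2 : max (κ + δ) 0 ≤ 2 * δ := max_le (by linarith) (by linarith)
    nlinarith
  · have h1 : {c : ℝ × ℝ | |nm (c - c0) ^ 2 - κ| ≤ δ} ⊆
        {c : ℝ × ℝ | nm (c - c0) ^ 2 ≤ κ + δ} \ {c : ℝ × ℝ | nm (c - c0) ^ 2 < κ - δ} := by
      intro c hc
      rw [mem_ofPred_eq, abs_le] at hc
      rw [Set.mem_sdiff, mem_ofPred_eq, mem_ofPred_eq]
      constructor
      · linarith [hc.2]
      · intro h2
        linarith [hc.1]
    have hm : MeasurableSet {c : ℝ × ℝ | nm (c - c0) ^ 2 < κ - δ} :=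
      measurableSet_lt ((continuous_nm.comp (continuous_id.sub continuous_const)).pow 2).measurable
        measurable_const
    refine (measure_mono h1).trans ?_
    rw [measure_sdiff (fun c hc => by
      rw [mem_ofPred_eq] at hc ⊢
      linarith) hm.nullMeasurableSet (by
        rw [aa_open c0 (by linarith : 0 ≤ κ - δ)]
        exact ENNReal.ofReal_ne_top), aa_open c0 (by linarith : 0 ≤ κ - δ)]
    refine (tsub_le_tsub_right (aa_closed c0 _) _).trans ?_
    rw [max_eq_left (by linarith), ← ENNReal.ofReal_sub _ (by nlinarith)]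
    exact ENNReal.ofReal_le_ofReal (le_of_eq (by ring))

private theorem aa_fst (u : ℝ × ℝ) : |u.1| ≤ nm u := by
  unfold nm
  exact Real.abs_le_sqrt (by nlinarith [sq_nonneg u.2])

private theorem aa_snd (u : ℝ × ℝ) : |u.2| ≤ nm u := by
  unfold nm
  exact Real.abs_le_sqrt (by nlinarith [sq_nonneg u.1])

/-- the neighbourhood of a Lipschitz curve -/
theorem volume_curve_nhd_le {Y : ℝ → ℝ × ℝ} {L ε : ℝ} (hL : 0 < L) (hε : 0 < ε) (hεL : ε ≤ L)
    (hY : ∀ t ∈ Set.Icc (-1 : ℝ) 1, ∀ t' ∈ Set.Icc (-1 : ℝ) 1, nm (Y t - Y t') ≤ L * |t - t'|) :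
    ∃ S : Set (ℝ × ℝ), MeasurableSet S ∧ volume S ≤ ENNReal.ofReal (48 * L * ε) ∧
      ∀ c : ℝ × ℝ, (∃ t ∈ Set.Icc (-1 : ℝ) 1, nm (Y t + c) ≤ ε) → c ∈ S := by
  set h : ℝ := ε / L with hh
  have hh0 : 0 < h := by positivity
  have hh1 : h ≤ 1 := (div_le_one hL).2 hεL
  set N : ℕ := ⌊2 / h⌋₊ with hN
  set p : ℕ → ℝ := fun i => -1 + i * h with hp
  have hNle : (N : ℝ) ≤ 2 / h := Nat.floor_le (by positivity)
  have hpm : ∀ i ≤ N, p i ∈ Set.Icc (-1 : ℝ) 1 := by
    intro i hi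
    have h1 : (i : ℝ) ≤ 2 / h := le_trans (by exact_mod_cast hi) hNle
    rw [le_div_iff₀ hh0] at h1
    have h2 : (0 : ℝ) ≤ i * h := by positivity
    exact ⟨by rw [hp]; dsimp only; linarith, by rw [hp]; dsimp only; linarith⟩
  set B : ℕ → Set (ℝ × ℝ) := fun i =>
    Set.Icc (-(Y (p i)).1 - 2 * ε) (-(Y (p i)).1 + 2 * ε) ×ˢ
      Set.Icc (-(Y (p i)).2 - 2 * ε) (-(Y (p i)).2 + 2 * ε) with hB
  have hBv : ∀ i, volume (B i) = ENNReal.ofReal (16 * ε ^ 2) := by
    intro i
    rw [hB]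
    dsimp only
    rw [Measure.volume_eq_prod, Measure.prod_prod, Real.volume_Icc, Real.volume_Icc,
      ← ENNReal.ofReal_mul (by linarith)]
    congr 1
    ring
  refine ⟨⋃ i ∈ Finset.range (N + 1), B i, ?_, ?_, ?_⟩
  · exact Finset.measurableSet_biUnion _ fun i _ => measurableSet_Icc.prod measurableSet_Icc
  · refine (measure_biUnion_finset_le _ _).trans ?_
    rw [Finset.sum_congr rfl fun i _ => hBv i, Finset.sum_const, Finset.card_range, nsmul_eq_mul]
    have h1 : ((N + 1 : ℕ) : ℝ≥0∞) = ENNReal.ofReal ((N + 1 : ℕ) : ℝ) :=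
      (ENNReal.ofReal_natCast _).symm
    rw [h1, ← ENNReal.ofReal_mul (by positivity)]
    refine ENNReal.ofReal_le_ofReal ?_
    have h2 : ((N + 1 : ℕ) : ℝ) * h ≤ 3 := by
      push_cast
      rw [le_div_iff₀ hh0] at hNle
      linarith
    have h3 : h * L = ε := by rw [hh]; field_simp
    have h4 : ((N + 1 : ℕ) : ℝ) * (16 * ε ^ 2) = (((N + 1 : ℕ) : ℝ) * h) * (16 * (L * ε)) := by
      have : ε ^ 2 = h * (L * ε) := by
        rw [sq, ← mul_assoc, h3]
      rw [this]
      ring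
    rw [h4]
    have h5 : (0 : ℝ) ≤ 16 * (L * ε) := by positivity
    have h6 := mul_le_mul_of_nonneg_right h2 h5
    linarith
  · rintro c ⟨t, ht, hc⟩
    set i : ℕ := ⌊(t + 1) / h⌋₊ with hi
    have ht0 : 0 ≤ (t + 1) / h := div_nonneg (by linarith [ht.1]) hh0.le
    have h1 : (i : ℝ) ≤ (t + 1) / h := Nat.floor_le ht0
    have h2 : (t + 1) / h < i + 1 := Nat.lt_floor_add_one _
    have hiN : i ≤ N := by
      refine Nat.floor_le_floor ?_
      exact div_le_div_of_nonneg_right (by linarith [ht.2]) hh0.le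
    rw [le_div_iff₀ hh0] at h1
    rw [div_lt_iff₀ hh0] at h2
    have h3 : |p i - t| ≤ h := by
      rw [hp, abs_le]
      dsimp only
      constructor <;> linarith
    have h4 := hY (p i) (hpm i hiN) t ht
    have h5 : L * |p i - t| ≤ ε := by
      have : L * |p i - t| ≤ L * h := mul_le_mul_of_nonneg_left h3 hL.le
      rw [hh] at this
      have h6 : L * (ε / L) = ε := by field_simp
      linarith
    have h7 := (aa_fst (Y (p i) - Y t)).trans (h4.trans h5)
    have h8 := (aa_snd (Y (p i) - Y t)).trans (h4.trans h5)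
    have h9 := (aa_fst (Y t + c)).trans hc
    have h10 := (aa_snd (Y t + c)).trans hc
    simp only [Prod.fst_sub, Prod.snd_sub, Prod.fst_add, Prod.snd_add, abs_le] at h7 h8 h9 h10
    refine Set.mem_biUnion (Finset.mem_coe.2 (Finset.mem_range.2 (Nat.lt_succ_of_le hiN))) ?_
    refine ⟨⟨?_, ?_⟩, ?_, ?_⟩ <;> linarith [h7.1, h7.2, h8.1, h8.2, h9.1, h9.2, h10.1, h10.2]

end Pool.Agent.Lib.MP_95e7ec_an
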