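import Mathlib

/-!
# The area formula (as an inequality) for a `C¹` map of the plane (task SA)
-/

set_option autoImplicit false

open Set Filter Topology MeasureTheory
open scoped ContDiff ENNReal

namespace Pool.Agent.Lib.MP_95e7ec_an

/-- area formula on a set where `f` is injective -/
private theorem area2_inj {S : Set (ℝ × ℝ)} (hS : MeasurableSet S)
    {f : ℝ × ℝ → ℝ × ℝ} {f' : ℝ × ℝ → (ℝ × ℝ) →L[ℝ] (ℝ × ℝ)}
    (hf : ∀ z ∈ S, HasFDerivAt f (f' z) z) (hinj : InjOn f S)
    {ψ : ℝ × ℝ → ℝ≥0∞} (hψ : Measurable ψ) :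
    Measurable (fun c : ℝ × ℝ => ∑' z : ℝ × ℝ, {z : ℝ × ℝ | z ∈ S ∧ f z = c}.indicator ψ z) ∧
    ∫⁻ c, ∑' z : ℝ × ℝ, {z : ℝ × ℝ | z ∈ S ∧ f z = c}.indicator ψ z =
      ∫⁻ z in S, ENNReal.ofReal |(f' z).det| * ψ z := by
  have hcont : ContinuousOn f S := fun s hs => (hf s hs).continuousAt.continuousWithinAt
  have hemb : MeasurableEmbedding (S.domRestrict f) := hcont.measurableEmbedding hS hinj
  have hval : ∀ s ∈ S, ∑' t : ℝ × ℝ, {t : ℝ × ℝ | t ∈ S ∧ f t = f s}.indicator ψ t = ψ s := by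
    intro s hs
    rw [tsum_eq_single s]
    · simp [hs]
    · intro t ht
      apply indicator_of_notMem
      rintro ⟨h1, h2⟩
      exact ht (hinj h1 hs h2)
  have hzero : ∀ c, c ∉ f '' S → ∑' t : ℝ × ℝ, {t : ℝ × ℝ | t ∈ S ∧ f t = c}.indicator ψ t = 0 := by
    intro c hc
    rw [ENNReal.tsum_eq_zero]
    intro t
    apply indicator_of_notMem
    rintro ⟨h1, h2⟩
    exact hc ⟨t, h1, h2⟩
  have hext : (fun c : ℝ × ℝ => ∑' s : ℝ × ℝ, {s : ℝ × ℝ | s ∈ S ∧ f s = c}.indicator ψ s) =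
      Function.extend (S.domRestrict f) (fun s : S => ψ s) (fun _ => 0) := by
    funext c
    by_cases h : c ∈ f '' S
    · obtain ⟨s, hs, rfl⟩ := h
      have h1 := hemb.injective.extend_apply (fun s : S => ψ s) (fun _ => 0) ⟨s, hs⟩
      simp only [Set.domRestrict_apply] at h1
      rw [h1]
      exact hval s hs
    · rw [Function.extend_apply', hzero c h]
      rintro ⟨s, hs⟩
      exact h ⟨s.1, s.2, hs⟩
  constructor
  · rw [hext]
    exact hemb.measurable_extend (hψ.comp measurable_subtype_coe) measurable_const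
  · have himg : MeasurableSet (f '' S) := hS.image_of_continuousOn_injOn hcont hinj
    have h1 : ∫⁻ c, ∑' s : ℝ × ℝ, {s : ℝ × ℝ | s ∈ S ∧ f s = c}.indicator ψ s =
        ∫⁻ c in f '' S, ∑' s : ℝ × ℝ, {s : ℝ × ℝ | s ∈ S ∧ f s = c}.indicator ψ s := by
      rw [← lintegral_indicator himg]
      congr 1
      funext c
      by_cases h : c ∈ f '' S
      · rw [indicator_of_mem h]
      · rw [indicator_of_notMem h, hzero c h]
    rw [h1, lintegral_image_eq_lintegral_abs_det_fderiv_mul volume hS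
      (fun s hs => (hf s hs).hasFDerivWithinAt) hinj]
    refine setLIntegral_congr_fun hS ?_
    intro s hs
    simp only
    rw [hval s hs]

theorem area_two {E : Set (ℝ × ℝ)} (hE : MeasurableSet E) {f : ℝ × ℝ → ℝ × ℝ}
    (hf : ContDiff ℝ 1 f) {ψ : ℝ × ℝ → ℝ≥0∞} (hψ : Measurable ψ) :
    ∃ g : ℝ × ℝ → ℝ≥0∞, Measurable g ∧
      (∀ c, ∑' z : {z : ℝ × ℝ // z ∈ E ∧ f z = c}, ψ z ≤ g c) ∧
      ∫⁻ c, g c ≤ ∫⁻ z in E, ENNReal.ofReal |(fderiv ℝ f z).det| * ψ z := by
  classical
  have hfd : ∀ z, HasFDerivAt f (fderiv ℝ f z) z := fun z =>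
    (hf.differentiable one_ne_zero z).hasFDerivAt
  have hcd : Continuous (fun z => (fderiv ℝ f z).det) :=
    ContinuousLinearMap.continuous_det.comp (hf.continuous_fderiv one_ne_zero)
  -- the open set where the determinant does not vanish
  set U : Set (ℝ × ℝ) := {z | (fderiv ℝ f z).det ≠ 0} with hU
  have hUo : IsOpen U := isOpen_ne_fun hcd continuous_const
  -- the open subsets of `U` on which `f` is injective
  let S : Set (Set (ℝ × ℝ)) := {W | IsOpen W ∧ W ⊆ U ∧ InjOn f W}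
  have hSU : ⋃₀ S = U := by
    apply Subset.antisymm
    · exact sUnion_subset fun W hW => hW.2.1
    · intro z hz
      have hs : HasStrictFDerivAt f (fderiv ℝ f z) z :=
        hf.contDiffAt.hasStrictFDerivAt one_ne_zero
      let e : (ℝ × ℝ) ≃L[ℝ] (ℝ × ℝ) := (fderiv ℝ f z).toContinuousLinearEquivOfDetNeZero hz
      have he : HasStrictFDerivAt f (e : (ℝ × ℝ) →L[ℝ] (ℝ × ℝ)) z := by
        rw [ContinuousLinearMap.coe_toContinuousLinearEquivOfDetNeZero]
        exact hs
      let φ := he.toOpenPartialHomeomorph f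
      have hφ : ∀ w, φ w = f w := fun w => rfl
      refine mem_sUnion.2 ⟨φ.source ∩ U, ⟨φ.open_source.inter hUo, inter_subset_right, ?_⟩,
        he.mem_toOpenPartialHomeomorph_source, hz⟩
      intro x hx y hy hxy
      exact φ.injOn hx.1 hy.1 hxy
  obtain ⟨T, hTc, hTS, hTU⟩ := TopologicalSpace.isOpen_sUnion_countable S (fun W hW => hW.1)
  have hTc' : (insert ∅ T).Countable := hTc.insert ∅
  obtain ⟨W, hW⟩ := hTc'.exists_eq_range ⟨∅, mem_insert _ _⟩
  have hWS : ∀ n, W n ∈ S := by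
    intro n
    have : W n ∈ insert ∅ T := by rw [hW]; exact mem_range_self n
    rcases this with h | h
    · rw [h]
      exact ⟨isOpen_empty, empty_subset _, injOn_empty _⟩
    · exact hTS h
  have hWun : ⋃ n, W n = U := by
    rw [← hSU, ← hTU, ← sUnion_range, ← hW, sUnion_insert, empty_union]
  -- disjoint pieces
  let P : ℕ → Set (ℝ × ℝ) := fun n => E ∩ disjointed W n
  have hPm : ∀ n, MeasurableSet (P n) := fun n =>
    hE.inter (MeasurableSet.disjointed (fun n => (hWS n).1.measurableSet) n)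
  have hPW : ∀ n, P n ⊆ W n := fun n => inter_subset_right.trans (disjointed_subset W n)
  have hPinj : ∀ n, InjOn f (P n) := fun n => (hWS n).2.2.mono (hPW n)
  have hPd : Pairwise (Function.onFun Disjoint P) := by
    intro m n hmn
    exact (disjoint_disjointed W hmn).mono inter_subset_right inter_subset_right
  have hPun : ⋃ n, P n = E ∩ U := by
    rw [← inter_iUnion, iUnion_disjointed, hWun]
  -- the null set
  have hnull : volume (f '' (E \ U)) = 0 := by
    refine addHaar_image_eq_zero_of_det_fderivWithin_eq_zero (f' := fun s => fderiv ℝ f s)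
      volume ?_ ?_
    · intro s _
      exact (hfd s).hasFDerivWithinAt
    · intro s hs
      by_contra h
      exact hs.2 h
  set N : Set (ℝ × ℝ) := toMeasurable volume (f '' (E \ U)) with hN
  have hNm : MeasurableSet N := measurableSet_toMeasurable _ _
  have hN0 : volume N = 0 := by rw [hN, measure_toMeasurable, hnull]
  have hNs : f '' (E \ U) ⊆ N := subset_toMeasurable _ _
  have hmeas : ∀ n, Measurable
      (fun c : ℝ × ℝ => ∑' s : ℝ × ℝ, {s : ℝ × ℝ | s ∈ P n ∧ f s = c}.indicator ψ s) := fun n =>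
    (area2_inj (hPm n) (fun s _ => hfd s) (hPinj n) hψ).1
  have hmN : Measurable (N.indicator (fun _ => (⊤ : ℝ≥0∞))) := measurable_const.indicator hNm
  refine ⟨fun c => (∑' n : ℕ, ∑' s : ℝ × ℝ, {s : ℝ × ℝ | s ∈ P n ∧ f s = c}.indicator ψ s) +
    N.indicator (fun _ => (⊤ : ℝ≥0∞)) c, (Measurable.tsum hmeas).add hmN, ?_, ?_⟩
  · intro c
    by_cases hc : c ∈ N
    · simp only [indicator_of_mem hc, add_top]
      exact le_top
    · refine le_trans ?_ (le_add_right le_rfl)
      rw [ENNReal.tsum_comm]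
      have h1 : ∑' z : {z : ℝ × ℝ // z ∈ E ∧ f z = c}, ψ z =
          ∑' z : ℝ × ℝ, {z : ℝ × ℝ | z ∈ E ∧ f z = c}.indicator ψ z := tsum_subtype _ _
      rw [h1]
      refine ENNReal.tsum_le_tsum fun s => ?_
      by_cases hs : s ∈ E ∧ f s = c
      · have hsU : s ∈ E ∩ U := by
          refine ⟨hs.1, ?_⟩
          by_contra h
          exact hc (hNs ⟨s, ⟨hs.1, h⟩, hs.2⟩)
        rw [← hPun] at hsU
        obtain ⟨n, hn⟩ := mem_iUnion.1 hsU
        rw [indicator_of_mem (show s ∈ {s : ℝ × ℝ | s ∈ E ∧ f s = c} from hs)]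
        refine le_trans ?_ (ENNReal.le_tsum n)
        rw [indicator_of_mem (show s ∈ {s : ℝ × ℝ | s ∈ P n ∧ f s = c} from ⟨hn, hs.2⟩)]
      · rw [indicator_of_notMem (show s ∉ {s : ℝ × ℝ | s ∈ E ∧ f s = c} from hs)]
        exact bot_le
  · rw [lintegral_add_right _ hmN, lintegral_indicator hNm, setLIntegral_const, hN0, mul_zero,
      add_zero, lintegral_tsum (fun n => (hmeas n).aemeasurable)]
    have h1 : ∀ n, ∫⁻ c, ∑' s : ℝ × ℝ, {s : ℝ × ℝ | s ∈ P n ∧ f s = c}.indicator ψ s =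
        ∫⁻ s in P n, ENNReal.ofReal |(fderiv ℝ f s).det| * ψ s := fun n =>
      (area2_inj (hPm n) (fun s _ => hfd s) (hPinj n) hψ).2
    simp_rw [h1]
    rw [← lintegral_iUnion hPm hPd, hPun]
    exact lintegral_mono_set inter_subset_left

end Pool.Agent.Lib.MP_95e7ec_an
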