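import Mathlib
import Pool.Agent.Lib.MP_95e7ec_an.Defs

/-!
# Polynomials versus coefficient arrays
-/

set_option autoImplicit false

open Set Filter Topology

namespace Pool.Agent.Lib.MP_95e7ec_an

/-- the exponent `(a,b)` -/
noncomputable def exps (D : ℕ) (q : Fin (D + 1) × Fin (D + 1)) : Fin 2 →₀ ℕ :=
  Finsupp.single 0 (q.1 : ℕ) + Finsupp.single 1 (q.2 : ℕ)

theorem exps_zero (D : ℕ) (q : Fin (D + 1) × Fin (D + 1)) : exps D q 0 = q.1 := by
  simp [exps]

theorem exps_one (D : ℕ) (q : Fin (D + 1) × Fin (D + 1)) : exps D q 1 = q.2 := by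
  simp [exps]

theorem exps_injective (D : ℕ) : Function.Injective (exps D) := by
  intro q r h
  have h0 := congrArg (fun f : Fin 2 →₀ ℕ => f 0) h
  have h1 := congrArg (fun f : Fin 2 →₀ ℕ => f 1) h
  simp only [exps_zero, exps_one] at h0 h1
  exact Prod.ext (Fin.ext h0) (Fin.ext h1)

theorem eval_eq_pe {D : ℕ} (P : MvPolynomial (Fin 2) ℝ) (hP : P.totalDegree ≤ D) (x y : ℝ) :
    MvPolynomial.eval ![x, y] P = pe (arr D P) x y := by
  classical
  rw [MvPolynomial.eval_eq']
  have hsub : P.support ⊆ Finset.univ.map ⟨exps D, exps_injective D⟩ := by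
    intro d hd
    have hdeg := (MvPolynomial.le_totalDegree hd).trans hP
    have hsum : (d.sum fun _ e => e) = d 0 + d 1 := by
      rw [Finsupp.sum_fintype _ _ (fun _ => rfl)]
      simp [Fin.sum_univ_two]
    rw [hsum] at hdeg
    simp only [Finset.mem_map, Finset.mem_univ, true_and, Function.Embedding.coeFn_mk]
    refine ⟨(⟨d 0, by omega⟩, ⟨d 1, by omega⟩), ?_⟩
    ext i
    fin_cases i
    · exact exps_zero D _
    · exact exps_one D _
  rw [Finset.sum_subset hsub]
  · rw [Finset.sum_map, Fintype.sum_prod_type]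
    unfold pe
    refine Finset.sum_congr rfl fun a _ => Finset.sum_congr rfl fun b _ => ?_
    simp only [Function.Embedding.coeFn_mk, Fin.prod_univ_two, Matrix.cons_val_zero,
      Matrix.cons_val_one, exps_zero, exps_one, smul_eq_mul, arr]
    rfl
  · intro d _ hd
    rw [MvPolynomial.notMem_support_iff] at hd
    rw [hd, zero_mul]

/-- A family of polynomials with continuous coefficients. -/
def ContFam (R : ℝ → MvPolynomial (Fin 2) ℝ) : Prop := ∀ e, Continuous fun ε => (R ε).coeff e

theorem ContFam.const (P : MvPolynomial (Fin 2) ℝ) : ContFam fun _ => P :=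
  fun _ => continuous_const

theorem ContFam.C {f : ℝ → ℝ} (hf : Continuous f) : ContFam fun ε => MvPolynomial.C (f ε) := by
  classical
  intro e
  simp only [MvPolynomial.coeff_C]
  split_ifs
  · exact hf
  · exact continuous_const

theorem ContFam.add {R S : ℝ → MvPolynomial (Fin 2) ℝ} (hR : ContFam R) (hS : ContFam S) :
    ContFam fun ε => R ε + S ε := by
  intro e
  simp only [MvPolynomial.coeff_add]
  exact (hR e).add (hS e)

theorem ContFam.mul {R S : ℝ → MvPolynomial (Fin 2) ℝ} (hR : ContFam R) (hS : ContFam S) :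
    ContFam fun ε => R ε * S ε := by
  classical
  intro e
  simp only [MvPolynomial.coeff_mul]
  exact continuous_finsetSum _ fun x _ => (hR x.1).mul (hS x.2)

theorem ContFam.pow {R : ℝ → MvPolynomial (Fin 2) ℝ} (hR : ContFam R) (k : ℕ) :
    ContFam fun ε => R ε ^ k := by
  induction k with
  | zero => simpa using ContFam.const 1
  | succ k ih => simpa only [pow_succ] using ih.mul hR

theorem ContFam.sum {ι : Type*} (s : Finset ι) {R : ι → ℝ → MvPolynomial (Fin 2) ℝ}
    (hR : ∀ i ∈ s, ContFam (R i)) : ContFam fun ε => ∑ i ∈ s, R i ε := by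
  intro e
  simp only [MvPolynomial.coeff_sum]
  exact continuous_finsetSum _ fun i hi => hR i hi e

theorem ContFam.tendsto_arr {R : ℝ → MvPolynomial (Fin 2) ℝ} (hR : ContFam R) (D : ℕ) :
    Continuous fun ε => arr D (R ε) := by
  refine continuous_pi fun a => continuous_pi fun b => ?_
  exact hR _

end Pool.Agent.Lib.MP_95e7ec_an
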