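import Mathlib
import Pool.Agent.Lib.MP_95e7ec_an.Defs

/-!
# Facts on closed orbits of `C¹` planar vector fields (task U2)
-/

set_option autoImplicit false

open Set Filter Topology

namespace Pool.Agent.Lib.MP_95e7ec_an

theorem vfc_contDiff {D : ℕ} (μ : Pr D) {n : WithTop ℕ∞} : ContDiff ℝ n (vfc μ) := by
  unfold vfc pe
  fun_prop

/-- global uniqueness of integral curves of a `C¹` vector field -/
theorem curve_unique_of_contDiff {v : ℝ × ℝ → ℝ × ℝ} (hv : ContDiff ℝ 1 v)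
    {γ γ' : ℝ → ℝ × ℝ}
    (hγ : ∀ t, HasDerivAt γ (v (γ t)) t) (hγ' : ∀ t, HasDerivAt γ' (v (γ' t)) t)
    (h : γ 0 = γ' 0) : γ = γ' := by
  ext1 t
  have hc : Continuous γ := continuous_iff_continuousAt.2 fun t => (hγ t).continuousAt
  have hc' : Continuous γ' := continuous_iff_continuousAt.2 fun t => (hγ' t).continuousAt
  set N : ℝ := |t| + 1 with hN
  have hNpos : 0 < N := by positivity
  obtain ⟨R, hR⟩ := ((isCompact_Icc.image hc).union
    (isCompact_Icc.image hc')).isBounded.subset_closedBall (0 : ℝ × ℝ)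
    (s := γ '' Icc (-N) N ∪ γ' '' Icc (-N) N)
  obtain ⟨K, hK⟩ := (hv.contDiffOn (s := Metric.closedBall (0 : ℝ × ℝ) R)).exists_lipschitzOnWith
    one_ne_zero (convex_closedBall _ _) (isCompact_closedBall _ _)
  have key := ODE_solution_unique_of_mem_Ioo (v := fun _ => v)
    (s := fun _ => Metric.closedBall (0 : ℝ × ℝ) R) (K := K) (a := -N) (b := N) (t₀ := 0)
    (f := γ) (g := γ') (fun _ _ => hK) ⟨by linarith, hNpos⟩
    (fun s hs => ⟨hγ s, hR (Or.inl ⟨s, Ioo_subset_Icc_self hs, rfl⟩)⟩)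
    (fun s hs => ⟨hγ' s, hR (Or.inr ⟨s, Ioo_subset_Icc_self hs, rfl⟩)⟩) h
  exact key ⟨by rw [hN]; linarith [neg_abs_le t], by rw [hN]; linarith [le_abs_self t]⟩

theorem curve_unique {D : ℕ} {μ : Pr D} {γ γ' : ℝ → ℝ × ℝ}
    (hγ : ∀ t, HasDerivAt γ (vfc μ (γ t)) t) (hγ' : ∀ t, HasDerivAt γ' (vfc μ (γ' t)) t)
    (h : γ 0 = γ' 0) : γ = γ' :=
  curve_unique_of_contDiff (vfc_contDiff μ) hγ hγ' h

theorem hasDerivAt_shift {v : ℝ × ℝ → ℝ × ℝ} {γ : ℝ → ℝ × ℝ}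
    (hγ : ∀ t, HasDerivAt γ (v (γ t)) t) (a : ℝ) :
    ∀ t, HasDerivAt (fun s => γ (s + a)) (v (γ (t + a))) t := by
  intro t
  exact (hγ (t + a)).comp_add_const t a

theorem range_shift (γ : ℝ → ℝ × ℝ) (a : ℝ) : Set.range (fun s => γ (s + a)) = Set.range γ := by
  ext p
  constructor
  · rintro ⟨s, rfl⟩
    exact ⟨s + a, rfl⟩
  · rintro ⟨s, rfl⟩
    exact ⟨s - a, by simp⟩

/-- two closed orbits with a common point coincide -/
theorem IsClosedOrbit.eq_of_mem_of_contDiff {v : ℝ × ℝ → ℝ × ℝ} (hv : ContDiff ℝ 1 v)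
    {C C' : Set (ℝ × ℝ)}
    (h : IsClosedOrbit v C) (h' : IsClosedOrbit v C') {p : ℝ × ℝ} (hp : p ∈ C)
    (hp' : p ∈ C') : C = C' := by
  obtain ⟨γ, T, _, hγ, _, _, rfl⟩ := h
  obtain ⟨γ', T', _, hγ', _, _, rfl⟩ := h'
  obtain ⟨a, ha⟩ := hp
  obtain ⟨b, hb⟩ := hp'
  have := curve_unique_of_contDiff hv (hasDerivAt_shift hγ a) (hasDerivAt_shift hγ' b)
    (by simp [ha, hb])
  rw [← range_shift γ a, ← range_shift γ' b, this]

/-- two closed orbits with a common point coincide -/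
theorem IsClosedOrbit.eq_of_mem {D : ℕ} {μ : Pr D} {C C' : Set (ℝ × ℝ)}
    (h : IsClosedOrbit (vfc μ) C) (h' : IsClosedOrbit (vfc μ) C') {p : ℝ × ℝ} (hp : p ∈ C)
    (hp' : p ∈ C') : C = C' :=
  h.eq_of_mem_of_contDiff (vfc_contDiff μ) h' hp hp'

theorem IsClosedOrbit.ne_zero_of_contDiff {v : ℝ × ℝ → ℝ × ℝ} (hv : ContDiff ℝ 1 v)
    {C : Set (ℝ × ℝ)} (h : IsClosedOrbit v C) {p : ℝ × ℝ} (hp : p ∈ C) : v p ≠ 0 := by
  obtain ⟨γ, T, _, hγ, _, ⟨s, t, hst⟩, rfl⟩ := h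
  obtain ⟨a, ha⟩ := hp
  intro h0
  have hconst : ∀ t : ℝ, HasDerivAt (fun _ : ℝ => p) (v p) t := by
    intro t
    rw [h0]
    exact hasDerivAt_const t p
  have := curve_unique_of_contDiff hv (hasDerivAt_shift hγ a) hconst (by simp [ha])
  apply hst
  have h1 := congrFun this (s - a)
  have h2 := congrFun this (t - a)
  simp only [sub_add_cancel] at h1 h2
  rw [h1, h2]

theorem IsClosedOrbit.ne_zero {D : ℕ} {μ : Pr D} {C : Set (ℝ × ℝ)}
    (h : IsClosedOrbit (vfc μ) C) {p : ℝ × ℝ} (hp : p ∈ C) : vfc μ p ≠ 0 :=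
  h.ne_zero_of_contDiff (vfc_contDiff μ) hp

theorem IsClosedOrbit.isCompact {v : ℝ × ℝ → ℝ × ℝ} {C : Set (ℝ × ℝ)}
    (h : IsClosedOrbit v C) : IsCompact C := by
  obtain ⟨γ, T, hT, hγ, hper, _, rfl⟩ := h
  have hc : Continuous γ := continuous_iff_continuousAt.2 fun t => (hγ t).continuousAt
  have hp : Function.Periodic γ T := hper
  rw [← hp.image_Icc hT 0]
  exact isCompact_Icc.image hc

theorem IsClosedOrbit.nonempty {v : ℝ × ℝ → ℝ × ℝ} {C : Set (ℝ × ℝ)}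
    (h : IsClosedOrbit v C) : C.Nonempty := by
  obtain ⟨γ, T, hT, hγ, hper, _, rfl⟩ := h
  exact ⟨γ 0, 0, rfl⟩

/-- parametrisation of a closed orbit starting at `p` with the first return time `T` -/
theorem IsClosedOrbit.exists_param_of_contDiff {v : ℝ × ℝ → ℝ × ℝ} (hv : ContDiff ℝ 1 v)
    {C : Set (ℝ × ℝ)} (h : IsClosedOrbit v C) {p : ℝ × ℝ} (hp : p ∈ C) :
    ∃ γ : ℝ → ℝ × ℝ, ∃ T : ℝ, 0 < T ∧ (∀ t, HasDerivAt γ (v (γ t)) t) ∧
      (∀ t, γ (t + T) = γ t) ∧ γ 0 = p ∧ C = Set.range γ ∧ (∀ t ∈ Set.Ioo 0 T, γ t ≠ p) := by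
  have hne : v p ≠ 0 := h.ne_zero_of_contDiff hv hp
  obtain ⟨γ₀, T₀, hT₀, hγ₀, hper₀, _, rfl⟩ := h
  obtain ⟨a, ha⟩ := hp
  set γ : ℝ → ℝ × ℝ := fun s => γ₀ (s + a) with hγdef
  have hγ : ∀ t, HasDerivAt γ (v (γ t)) t := hasDerivAt_shift hγ₀ a
  have hc : Continuous γ := continuous_iff_continuousAt.2 fun t => (hγ t).continuousAt
  have h0 : γ 0 = p := by simp [hγdef, ha]
  have hT₀p : γ T₀ = p := by
    have := hper₀ a
    rw [← ha, ← this]
    simp [hγdef, add_comm]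
  -- locally injective
  have hev : ∀ᶠ t in 𝓝[≠] (0 : ℝ), γ t ≠ p := by
    have h1 := (hγ 0).eventually_ne (c := p) (by rw [h0]; exact hne)
    exact h1
  rw [eventually_nhdsWithin_iff, Metric.eventually_nhds_iff] at hev
  obtain ⟨ε, hε, hev⟩ := hev
  set S : Set ℝ := {t | 0 < t ∧ γ t = p} with hS
  have hSge : ∀ t ∈ S, ε ≤ t := by
    rintro t ⟨ht, htp⟩
    by_contra hlt
    push Not at hlt
    exact hev (y := t) (by rw [Real.dist_eq, sub_zero, abs_of_pos ht]; exact hlt)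
      (by simpa using ht.ne') htp
  have hSne : S.Nonempty := ⟨T₀, hT₀, hT₀p⟩
  have hSbdd : BddBelow S := ⟨ε, hSge⟩
  have hSclosed : IsClosed S := by
    have : S = Ici ε ∩ γ ⁻¹' {p} := by
      ext t
      constructor
      · intro ht
        exact ⟨hSge t ht, ht.2⟩
      · rintro ⟨h1, h2⟩
        exact ⟨lt_of_lt_of_le hε h1, h2⟩
    rw [this]
    exact isClosed_Ici.inter (isClosed_singleton.preimage hc)
  have hTmem : sInf S ∈ S := hSclosed.csInf_mem hSne hSbdd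
  refine ⟨γ, sInf S, hTmem.1, hγ, ?_, h0, ?_, ?_⟩
  · intro t
    have := curve_unique_of_contDiff hv (hasDerivAt_shift hγ (sInf S)) hγ
      (by simp [hTmem.2, h0])
    exact congrFun this t
  · exact (range_shift γ₀ a).symm
  · intro t ht htp
    exact absurd (csInf_le hSbdd (show t ∈ S from ⟨ht.1, htp⟩)) (not_le.2 ht.2)

/-- parametrisation of a closed orbit starting at `p` with the first return time `T` -/
theorem IsClosedOrbit.exists_param {D : ℕ} {μ : Pr D} {C : Set (ℝ × ℝ)}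
    (h : IsClosedOrbit (vfc μ) C) {p : ℝ × ℝ} (hp : p ∈ C) :
    ∃ γ : ℝ → ℝ × ℝ, ∃ T : ℝ, 0 < T ∧ (∀ t, HasDerivAt γ (vfc μ (γ t)) t) ∧
      (∀ t, γ (t + T) = γ t) ∧ γ 0 = p ∧ C = Set.range γ ∧ (∀ t ∈ Set.Ioo 0 T, γ t ≠ p) :=
  h.exists_param_of_contDiff (vfc_contDiff μ) hp

end Pool.Agent.Lib.MP_95e7ec_an
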