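import Mathlib
import Pool.Agent.Lib.MP_95e7ec_an.AvgDefs
import Pool.Agent.Lib.MP_95e7ec_an.Orbits

/-!
# Closed orbits of different turned fields are disjoint (task C1)
-/

set_option autoImplicit false

open Set Filter Topology MeasureTheory

namespace Pool.Agent.Lib.MP_95e7ec_an

/-- For two closed curves in the plane the integral over the torus of the pulled back form
`b(x) b(y) dx ∧ dy` under `(s,t) ↦ γ₂(t) - γ₁(s)` vanishes. -/
theorem torus_integral {γ1 γ1' γ2 γ2' : ℝ → ℝ × ℝ} {T1 T2 : ℝ}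
    (h1 : ∀ t, HasDerivAt γ1 (γ1' t) t) (h1c : Continuous γ1') (h1p : γ1 T1 = γ1 0)
    (h2 : ∀ t, HasDerivAt γ2 (γ2' t) t) (h2c : Continuous γ2') (h2p : γ2 T2 = γ2 0)
    {b : ℝ → ℝ} (hb : ContDiff ℝ 1 b) :
    ∫ s in (0 : ℝ)..T1, ∫ t in (0 : ℝ)..T2,
      b ((γ2 t).1 - (γ1 s).1) * b ((γ2 t).2 - (γ1 s).2) * det2 (γ1' s) (γ2' t) = 0 := by
  have hbc : Continuous b := hb.continuous
  have hbd : ∀ x, HasDerivAt b (deriv b x) x := fun x =>
    (hb.differentiable one_ne_zero x).hasDerivAt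
  have hbdc : Continuous (deriv b) := hb.continuous_deriv (le_refl _)
  -- the primitive
  set B : ℝ → ℝ := fun x => ∫ u in (0 : ℝ)..x, b u with hB
  have hBd : ∀ x, HasDerivAt B (b x) x := fun x =>
    intervalIntegral.integral_hasDerivAt_right (hbc.intervalIntegrable _ _)
      (hbc.stronglyMeasurableAtFilter _ _) hbc.continuousAt
  have hBc : Continuous B := continuous_iff_continuousAt.2 fun x => (hBd x).continuousAt
  have hc1 : Continuous γ1 := continuous_iff_continuousAt.2 fun t => (h1 t).continuousAt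
  have hc2 : Continuous γ2 := continuous_iff_continuousAt.2 fun t => (h2 t).continuousAt
  -- components
  have hx1 : ∀ t, HasDerivAt (fun t => (γ1 t).1) (γ1' t).1 t := fun t =>
    (hasFDerivAt_fst (𝕜 := ℝ) (p := γ1 t)).comp_hasDerivAt t (h1 t)
  have hy1 : ∀ t, HasDerivAt (fun t => (γ1 t).2) (γ1' t).2 t := fun t =>
    (hasFDerivAt_snd (𝕜 := ℝ) (p := γ1 t)).comp_hasDerivAt t (h1 t)
  have hx2 : ∀ t, HasDerivAt (fun t => (γ2 t).1) (γ2' t).1 t := fun t =>
    (hasFDerivAt_fst (𝕜 := ℝ) (p := γ2 t)).comp_hasDerivAt t (h2 t)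
  have hy2 : ∀ t, HasDerivAt (fun t => (γ2 t).2) (γ2' t).2 t := fun t =>
    (hasFDerivAt_snd (𝕜 := ℝ) (p := γ2 t)).comp_hasDerivAt t (h2 t)
  set G : ℝ → ℝ → ℝ := fun s t => B ((γ2 t).1 - (γ1 s).1) * b ((γ2 t).2 - (γ1 s).2) with hG
  set Gs : ℝ → ℝ → ℝ := fun s t => -(b ((γ2 t).1 - (γ1 s).1) * (γ1' s).1 *
      b ((γ2 t).2 - (γ1 s).2)) - B ((γ2 t).1 - (γ1 s).1) *
      (deriv b ((γ2 t).2 - (γ1 s).2) * (γ1' s).2) with hGs
  set Gt : ℝ → ℝ → ℝ := fun s t => b ((γ2 t).1 - (γ1 s).1) * (γ2' t).1 *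
      b ((γ2 t).2 - (γ1 s).2) + B ((γ2 t).1 - (γ1 s).1) *
      (deriv b ((γ2 t).2 - (γ1 s).2) * (γ2' t).2) with hGt
  have hGsd : ∀ s t, HasDerivAt (fun s => G s t) (Gs s t) s := by
    intro s t
    have e1 : HasDerivAt (fun s => (γ2 t).1 - (γ1 s).1) (-(γ1' s).1) s := by
      simpa using (hx1 s).const_sub (γ2 t).1
    have e2 : HasDerivAt (fun s => (γ2 t).2 - (γ1 s).2) (-(γ1' s).2) s := by
      simpa using (hy1 s).const_sub (γ2 t).2
    have := ((hBd _).comp s e1).mul ((hbd _).comp s e2)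
    refine this.congr_deriv ?_
    simp only [hGs, Function.comp_apply]
    ring
  have hGtd : ∀ s t, HasDerivAt (fun t => G s t) (Gt s t) t := by
    intro s t
    have e1 : HasDerivAt (fun t => (γ2 t).1 - (γ1 s).1) ((γ2' t).1) t := (hx2 t).sub_const _
    have e2 : HasDerivAt (fun t => (γ2 t).2 - (γ1 s).2) ((γ2' t).2) t := (hy2 t).sub_const _
    have := ((hBd _).comp t e1).mul ((hbd _).comp t e2)
    refine this.congr_deriv ?_
    simp only [hGt, Function.comp_apply]
  have hGsc : Continuous (Function.uncurry Gs) := by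
    simp only [hGs]
    fun_prop
  have hGtc : Continuous (Function.uncurry Gt) := by
    simp only [hGt]
    fun_prop
  have hid : ∀ s t, b ((γ2 t).1 - (γ1 s).1) * b ((γ2 t).2 - (γ1 s).2) * det2 (γ1' s) (γ2' t) =
      -((γ2' t).2 * Gs s t) - (γ1' s).2 * Gt s t := by
    intro s t
    simp only [hGs, hGt, det2]
    ring
  have hIs : ∀ t, ∫ s in (0 : ℝ)..T1, Gs s t = 0 := by
    intro t
    rw [intervalIntegral.integral_eq_sub_of_hasDerivAt (fun s _ => hGsd s t)
      ((hGsc.comp (by fun_prop : Continuous fun s : ℝ => (s, t))).intervalIntegrable _ _)]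
    simp only [hG]
    rw [h1p, sub_self]
  have hIt : ∀ s, ∫ t in (0 : ℝ)..T2, Gt s t = 0 := by
    intro s
    rw [intervalIntegral.integral_eq_sub_of_hasDerivAt (fun t _ => hGtd s t)
      ((hGtc.comp (by fun_prop : Continuous fun t : ℝ => (s, t))).intervalIntegrable _ _)]
    simp only [hG]
    rw [h2p, sub_self]
  simp_rw [hid]
  have hcA : Continuous (Function.uncurry fun s t => (γ2' t).2 * Gs s t) := by
    have : Continuous fun q : ℝ × ℝ => (γ2' q.2).2 * Function.uncurry Gs q := by fun_prop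
    exact this
  have hcB : Continuous (Function.uncurry fun s t => (γ1' s).2 * Gt s t) := by
    have : Continuous fun q : ℝ × ℝ => (γ1' q.1).2 * Function.uncurry Gt q := by fun_prop
    exact this
  have hA1 : ∀ s, IntervalIntegrable (fun t => (γ2' t).2 * Gs s t) volume 0 T2 := fun s =>
    (hcA.comp (by fun_prop : Continuous fun t : ℝ => (s, t))).intervalIntegrable _ _
  have hB1 : ∀ s, IntervalIntegrable (fun t => (γ1' s).2 * Gt s t) volume 0 T2 := fun s =>
    (hcB.comp (by fun_prop : Continuous fun t : ℝ => (s, t))).intervalIntegrable _ _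
  have hstep : ∀ s, ∫ t in (0 : ℝ)..T2, (-((γ2' t).2 * Gs s t) - (γ1' s).2 * Gt s t) =
      -∫ t in (0 : ℝ)..T2, (γ2' t).2 * Gs s t := by
    intro s
    have e1 := intervalIntegral.integral_sub (hA1 s).neg (hB1 s)
    simp only [Pi.neg_apply] at e1
    rw [e1, intervalIntegral.integral_neg, intervalIntegral.integral_const_mul, hIt s]
    ring
  simp_rw [hstep]
  rw [intervalIntegral.integral_neg, intervalIntegral_intervalIntegral_swap]
  · simp_rw [intervalIntegral.integral_const_mul, hIs]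
    simp
  · have : IntegrableOn (Function.uncurry fun s t => (γ2' t).2 * Gs s t)
        (Set.uIcc 0 T1 ×ˢ Set.uIcc 0 T2) :=
      hcA.continuousOn.integrableOn_compact (isCompact_uIcc.prod isCompact_uIcc)
    exact this.mono_set (Set.prod_mono uIoc_subset_uIcc uIoc_subset_uIcc)

theorem contDiff_turn' {v : ℝ × ℝ → ℝ × ℝ} (hv : ContDiff ℝ 1 v) (α : ℝ) :
    ContDiff ℝ 1 (turn α v) := by
  unfold turn
  fun_prop

theorem det2_turn' (α β : ℝ) (v : ℝ × ℝ → ℝ × ℝ) (z : ℝ × ℝ) :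
    det2 (turn α v z) (turn β v z) = Real.sin (β - α) * ((v z).1 ^ 2 + (v z).2 ^ 2) := by
  simp only [det2, turn, Real.sin_sub]
  ring

theorem closedOrbit_disjoint {v : ℝ × ℝ → ℝ × ℝ} (hv : ContDiff ℝ 1 v) {α β : ℝ}
    (h : Real.sin (β - α) ≠ 0) {C C' : Set (ℝ × ℝ)} (hC : IsClosedOrbit (turn α v) C)
    (hC' : IsClosedOrbit (turn β v) C') : Disjoint C C' := by
  rw [Set.disjoint_left]
  intro z hz hz'
  have hvα := contDiff_turn' hv α
  have hvβ := contDiff_turn' hv β
  obtain ⟨γ1, T1, hT1, hγ1, hp1, h10, -, -⟩ := hC.exists_param_of_contDiff hvα hz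
  obtain ⟨γ2, T2, hT2, hγ2, hp2, h20, -, -⟩ := hC'.exists_param_of_contDiff hvβ hz'
  have hvz : v z ≠ 0 := by
    intro h0
    apply hC.ne_zero_of_contDiff hvα hz
    simp [turn, h0]
  have hvz2 : 0 < (v z).1 ^ 2 + (v z).2 ^ 2 := by
    by_contra hcon
    push Not at hcon
    have e1 : (v z).1 = 0 := by nlinarith [sq_nonneg (v z).1, sq_nonneg (v z).2]
    have e2 : (v z).2 = 0 := by nlinarith [sq_nonneg (v z).1, sq_nonneg (v z).2]
    exact hvz (Prod.ext e1 e2)
  have hc1 : Continuous γ1 := continuous_iff_continuousAt.2 fun t => (hγ1 t).continuousAt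
  have hc2 : Continuous γ2 := continuous_iff_continuousAt.2 fun t => (hγ2 t).continuousAt
  have hd1 : Continuous fun s => turn α v (γ1 s) := hvα.continuous.comp hc1
  have hd2 : Continuous fun t => turn β v (γ2 t) := hvβ.continuous.comp hc2
  set σ : ℝ := Real.sin (β - α) with hσ
  set dd : ℝ × ℝ → ℝ := fun q => σ * det2 (turn α v (γ1 q.1)) (turn β v (γ2 q.2)) with hdd
  have hddc : Continuous dd := by
    simp only [hdd, det2]
    fun_prop
  have hmeet : ∀ s t, γ1 s = γ2 t → 0 < dd (s, t) := by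
    intro s t hst
    simp only [hdd]
    rw [← hst, det2_turn', ← hσ, ← mul_assoc]
    have hne : turn α v (γ1 s) ≠ 0 := by
      apply hC.ne_zero_of_contDiff hvα
      obtain ⟨γ0, T0, hT0, hγ0, hper0, -, rfl⟩ := hC
      obtain ⟨a, ha⟩ := hz
      have := curve_unique_of_contDiff hvα (hasDerivAt_shift hγ0 a) hγ1 (by simp [ha, h10])
      rw [← this]
      exact ⟨s + a, rfl⟩
    have hne2 : v (γ1 s) ≠ 0 := by
      intro h0
      apply hne
      simp [turn, h0]
    have hpos : 0 < (v (γ1 s)).1 ^ 2 + (v (γ1 s)).2 ^ 2 := by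
      by_contra hcon
      push Not at hcon
      have e1 : (v (γ1 s)).1 = 0 := by nlinarith [sq_nonneg (v (γ1 s)).1, sq_nonneg (v (γ1 s)).2]
      have e2 : (v (γ1 s)).2 = 0 := by nlinarith [sq_nonneg (v (γ1 s)).1, sq_nonneg (v (γ1 s)).2]
      exact hne2 (Prod.ext e1 e2)
    exact mul_pos (mul_self_pos.2 h) hpos
  -- choice of ε
  obtain ⟨ε, hε, hεP⟩ : ∃ ε > 0, ∀ s ∈ Set.Icc 0 T1, ∀ t ∈ Set.Icc 0 T2,
      ‖γ2 t - γ1 s‖ < ε → 0 < dd (s, t) := by
    set K : Set (ℝ × ℝ) := (Set.Icc 0 T1 ×ˢ Set.Icc 0 T2) ∩ {q | dd q ≤ 0} with hK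
    have hKc : IsCompact K := (isCompact_Icc.prod isCompact_Icc).inter_right
      (isClosed_le hddc continuous_const)
    rcases K.eq_empty_or_nonempty with hemp | hne
    · refine ⟨1, one_pos, fun s hs t ht _ => ?_⟩
      by_contra hcon
      have : (s, t) ∈ K := ⟨⟨hs, ht⟩, not_lt.1 hcon⟩
      rw [hemp] at this
      exact this
    · have hmc : ContinuousOn (fun q : ℝ × ℝ => ‖γ2 q.2 - γ1 q.1‖) K := by
        apply Continuous.continuousOn
        fun_prop
      obtain ⟨q0, hq0, hmin⟩ := hKc.exists_isMinOn hne hmc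
      refine ⟨‖γ2 q0.2 - γ1 q0.1‖, ?_, fun s hs t ht hlt => ?_⟩
      · rw [gt_iff_lt, norm_pos_iff, sub_ne_zero]
        intro heq
        have := hmeet q0.1 q0.2 heq.symm
        exact absurd hq0.2 (not_le.2 this)
      · by_contra hcon
        have hmem : (s, t) ∈ K := ⟨⟨hs, ht⟩, not_lt.1 hcon⟩
        have := hmin hmem
        simp only [Set.mem_ofPred_eq] at this
        exact absurd hlt (not_lt.2 this)
  -- the bump function
  let f : ContDiffBump (0 : ℝ) := ⟨ε / 2, ε, by positivity, by linarith⟩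
  have hb : ContDiff ℝ 1 (f : ℝ → ℝ) := f.contDiff
  have htor := torus_integral (γ1' := fun s => turn α v (γ1 s)) (γ2' := fun t => turn β v (γ2 t))
    hγ1 hd1 (by simpa using hp1 0) hγ2 hd2 (by simpa using hp2 0) hb
  set I : ℝ → ℝ → ℝ := fun s t => f ((γ2 t).1 - (γ1 s).1) * f ((γ2 t).2 - (γ1 s).2) *
    det2 (turn α v (γ1 s)) (turn β v (γ2 t)) with hI
  have hfc : Continuous (f : ℝ → ℝ) := hb.continuous
  have hσI : ∀ s t, σ * I s t = f ((γ2 t).1 - (γ1 s).1) * f ((γ2 t).2 - (γ1 s).2) *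
      dd (s, t) := by
    intro s t
    simp only [hI, hdd]
    ring
  have hnn : ∀ s ∈ Set.Icc 0 T1, ∀ t ∈ Set.Icc 0 T2, 0 ≤ σ * I s t := by
    intro s hs t ht
    rw [hσI]
    by_cases hlt : ‖γ2 t - γ1 s‖ < ε
    · exact mul_nonneg (mul_nonneg f.nonneg f.nonneg) (hεP s hs t ht hlt).le
    · rw [Prod.norm_def, max_lt_iff, not_and_or, not_lt, not_lt] at hlt
      rcases hlt with h1 | h1
      · have : f ((γ2 t).1 - (γ1 s).1) = 0 := f.zero_of_le_dist (by
          rw [dist_zero_right]; exact h1)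
        rw [this]; simp
      · have : f ((γ2 t).2 - (γ1 s).2) = 0 := f.zero_of_le_dist (by
          rw [dist_zero_right]; exact h1)
        rw [this]; simp
  have hIc : Continuous (Function.uncurry fun s t => σ * I s t) := by
    have : Continuous fun q : ℝ × ℝ => f ((γ2 q.2).1 - (γ1 q.1).1) *
        f ((γ2 q.2).2 - (γ1 q.1).2) * dd q := by
      have e1 : Continuous fun q : ℝ × ℝ => f ((γ2 q.2).1 - (γ1 q.1).1) :=
        hfc.comp (by fun_prop)
      have e2 : Continuous fun q : ℝ × ℝ => f ((γ2 q.2).2 - (γ1 q.1).2) :=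
        hfc.comp (by fun_prop)
      exact (e1.mul e2).mul hddc
    convert this using 1
    funext q
    exact hσI q.1 q.2
  have h00 : 0 < σ * I 0 0 := by
    rw [hσI]
    have e1 : γ1 0 = γ2 0 := by rw [h10, h20]
    rw [e1]
    simp only [sub_self]
    have e2 : f (0 : ℝ) = 1 := f.one_of_mem_closedBall (by simp; positivity)
    rw [e2]
    have := hmeet 0 0 e1
    simpa using this
  set k : ℝ → ℝ := fun s => ∫ t in (0 : ℝ)..T2, σ * I s t with hk
  have hkc : Continuous k := by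
    apply intervalIntegral.continuous_parametric_intervalIntegral_of_continuous'
    exact hIc
  have hknn : ∀ s ∈ Set.Icc 0 T1, 0 ≤ k s := fun s hs =>
    intervalIntegral.integral_nonneg hT2.le fun t ht => hnn s hs t ht
  have hk0 : 0 < k 0 := by
    apply intervalIntegral.integral_pos hT2
    · exact (hIc.comp (by fun_prop : Continuous fun t : ℝ => ((0 : ℝ), t))).continuousOn
    · intro t ht
      exact hnn 0 ⟨le_rfl, hT1.le⟩ t (Ioc_subset_Icc_self ht)
    · exact ⟨0, ⟨le_rfl, hT2.le⟩, h00⟩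
  have hpos : 0 < ∫ s in (0 : ℝ)..T1, k s := by
    apply intervalIntegral.integral_pos hT1 hkc.continuousOn
    · intro s hs
      exact hknn s (Ioc_subset_Icc_self hs)
    · exact ⟨0, ⟨le_rfl, hT1.le⟩, hk0⟩
  have hzero : ∫ s in (0 : ℝ)..T1, k s = 0 := by
    simp only [hk]
    simp_rw [intervalIntegral.integral_const_mul]
    rw [show (∫ s in (0 : ℝ)..T1, ∫ t in (0 : ℝ)..T2, I s t) = 0 from htor, mul_zero]
  linarith

end Pool.Agent.Lib.MP_95e7ec_an
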