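import Pool.Agent.Lib.MP_95e7ec_an.Defs

/-!
# Task D2: solutions close to a closed path meet the section only at both ends
-/

set_option autoImplicit false

open Set Filter Topology

namespace Pool.Agent.Lib.MP_95e7ec_an

namespace Cross

theorem pe_apply' {D : ℕ} (c : Co D) (f g : A) (s : unitInterval) :
    (pe c f g : A) s = pe c (f s) (g s) := by
  simp [pe, ContinuousMap.sum_apply]

theorem dot_section (X : ℝ × ℝ) (p : ℝ × ℝ) (s : ℝ) : dot (p + s • nrm X - p) X = 0 := by
  simp only [dot, nrm, Prod.fst_sub, Prod.fst_add, Prod.smul_fst, Prod.snd_sub, Prod.snd_add,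
    Prod.smul_snd, smul_eq_mul]
  ring

/-- the speed of `dot (z - p) X` along a path -/
noncomputable def spd {D : ℕ} (μ : Pr D) (X : ℝ × ℝ) (z : A × A) (s : ℝ) : ℝ :=
  Set.IccExtend (zero_le_one' ℝ) (pe μ.1 z.1 z.2 : A) s * X.1 +
    Set.IccExtend (zero_le_one' ℝ) (pe μ.2 z.1 z.2 : A) s * X.2

theorem spd_continuous {D : ℕ} (μ : Pr D) (X : ℝ × ℝ) (z : A × A) : Continuous (spd μ X z) := by
  have h1 : Continuous (Set.IccExtend (zero_le_one' ℝ) (pe μ.1 z.1 z.2 : A)) :=
    (pe μ.1 z.1 z.2 : A).continuous.Icc_extend'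
  have h2 : Continuous (Set.IccExtend (zero_le_one' ℝ) (pe μ.2 z.1 z.2 : A)) :=
    (pe μ.2 z.1 z.2 : A).continuous.Icc_extend'
  exact (h1.mul continuous_const).add (h2.mul continuous_const)

theorem spd_eq {D : ℕ} (μ : Pr D) (X : ℝ × ℝ) (z : A × A) (s : unitInterval) :
    spd μ X z s = dot (vfc μ (at' z s)) X := by
  simp only [spd, dot, vfc, at']
  rw [Set.IccExtend_of_mem _ _ s.2, Set.IccExtend_of_mem _ _ s.2]
  simp [pe_apply']

theorem dot_path {D : ℕ} {μ : Pr D} {T : ℝ} {x : ℝ × ℝ} {z : A × A} (h : Sol μ T x z)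
    (p X : ℝ × ℝ) (t : unitInterval) :
    dot (at' z t - p) X = dot (x - p) X + T * ∫ s in (0 : ℝ)..t, spd μ X z s := by
  obtain ⟨h1, h2⟩ := h
  have e1 : z.1 t = x.1 + T * primFun (pe μ.1 z.1 z.2) t := by
    conv_lhs => rw [h1]
    simp [prim]
  have e2 : z.2 t = x.2 + T * primFun (pe μ.2 z.1 z.2) t := by
    conv_lhs => rw [h2]
    simp [prim]
  have hc1 : Continuous (Set.IccExtend (zero_le_one' ℝ) (pe μ.1 z.1 z.2 : A)) :=
    (pe μ.1 z.1 z.2 : A).continuous.Icc_extend'
  have hc2 : Continuous (Set.IccExtend (zero_le_one' ℝ) (pe μ.2 z.1 z.2 : A)) :=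
    (pe μ.2 z.1 z.2 : A).continuous.Icc_extend'
  have e3 : ∫ s in (0 : ℝ)..t, spd μ X z s =
      primFun (pe μ.1 z.1 z.2) t * X.1 + primFun (pe μ.2 z.1 z.2) t * X.2 := by
    simp only [spd, primFun]
    have i1 : IntervalIntegrable (fun s => Set.IccExtend (zero_le_one' ℝ)
        (pe μ.1 z.1 z.2 : A) s * X.1) MeasureTheory.volume 0 t :=
      (hc1.mul continuous_const).intervalIntegrable _ _
    have i2 : IntervalIntegrable (fun s => Set.IccExtend (zero_le_one' ℝ)
        (pe μ.2 z.1 z.2 : A) s * X.2) MeasureTheory.volume 0 t :=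
      (hc2.mul continuous_const).intervalIntegrable _ _
    rw [intervalIntegral.integral_add i1 i2, intervalIntegral.integral_mul_const,
      intervalIntegral.integral_mul_const]
  rw [e3]
  simp only [dot, at', Prod.fst_sub, Prod.snd_sub, e1, e2]
  ring

theorem dist_at'_le (z w : A × A) (t : unitInterval) : dist (at' z t) (at' w t) ≤ dist z w := by
  simp only [at', Prod.dist_eq]
  exact max_le_max (ContinuousMap.dist_apply_le_dist t) (ContinuousMap.dist_apply_le_dist t)

theorem continuous_at' (z : A × A) : Continuous (at' z) := by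
  unfold at'
  exact z.1.continuous.prodMk z.2.continuous

theorem continuous_vfc {D : ℕ} : Continuous (fun w : Pr D × (ℝ × ℝ) => vfc w.1 w.2) := by
  unfold vfc pe
  fun_prop

theorem dot_self_pos {X : ℝ × ℝ} (h : X ≠ 0) : 0 < dot X X := by
  unfold dot
  rcases lt_or_eq_of_le (add_nonneg (mul_self_nonneg X.1) (mul_self_nonneg X.2)) with h1 | h1
  · exact h1
  · exfalso
    apply h
    have h2 : X.1 = 0 := by nlinarith [mul_self_nonneg X.1, mul_self_nonneg X.2]
    have h3 : X.2 = 0 := by nlinarith [mul_self_nonneg X.1, mul_self_nonneg X.2]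
    exact Prod.ext h2 h3

end Cross

open Cross in
/-- solutions close to the closed path `z0` meet the section only at both ends -/
theorem crossing {D : ℕ} (μ0 : Pr D) (T0 : ℝ) (hT0 : 0 < T0) (p X : ℝ × ℝ) (z0 : A × A)
    (hX : X = vfc μ0 p) (hX0 : X ≠ 0) (h0 : at' z0 0 = p) (h1 : at' z0 1 = p)
    (hne : ∀ t : unitInterval, t ≠ 0 → t ≠ 1 → at' z0 t ≠ p) :
    ∃ ε > 0, ∀ (μ : Pr D) (T : ℝ) (x : ℝ × ℝ) (z : A × A), dist μ μ0 < ε → dist T T0 < ε →
      dist z z0 < ε → Sol μ T x z → dot (x - p) X = 0 → dot (at' z 1 - p) X = 0 →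
      ∀ t : unitInterval, t ≠ 0 → t ≠ 1 → ∀ s' ∈ Set.Icc (-ε) ε, at' z t ≠ p + s' • nrm X := by
  -- step 1: transversality near `(μ0, p)`
  have hcont : Continuous (fun w : Pr D × (ℝ × ℝ) => dot (vfc w.1 w.2) X) := by
    have hv := continuous_vfc (D := D)
    unfold dot
    exact (hv.fst.mul continuous_const).add (hv.snd.mul continuous_const)
  have hpos0 : 0 < dot (vfc μ0 p) X := by
    rw [← hX]; exact dot_self_pos hX0
  obtain ⟨δ, hδ, hδ1⟩ : ∃ δ > 0, ∀ (μ : Pr D) (q : ℝ × ℝ), dist μ μ0 < δ → dist q p < δ →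
      0 < dot (vfc μ q) X := by
    have h2 := (hcont.tendsto (μ0, p)).eventually (lt_mem_nhds hpos0)
    rw [Metric.eventually_nhds_iff] at h2
    obtain ⟨δ, hδ, h3⟩ := h2
    refine ⟨δ, hδ, fun μ q hμ hq => ?_⟩
    exact h3 (y := (μ, q)) (by rw [Prod.dist_eq]; exact max_lt hμ hq)
  -- step 2: `z0` stays near `p` for `t` near `0` and `1`
  have hz0 := continuous_at' z0
  obtain ⟨a, ha, ha1⟩ : ∃ a > 0, ∀ t : unitInterval, (t : ℝ) < a → dist (at' z0 t) p < δ / 2 := by
    have h2 := (hz0.tendsto 0).eventually (Metric.ball_mem_nhds _ (half_pos hδ))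
    rw [Metric.eventually_nhds_iff] at h2
    obtain ⟨a, ha, h3⟩ := h2
    refine ⟨a, ha, fun t ht => ?_⟩
    have h4 : dist t 0 < a := by
      rw [Subtype.dist_eq, Real.dist_eq]
      simpa [abs_of_nonneg t.2.1] using ht
    have h5 := h3 h4
    rw [h0] at h5
    exact h5
  obtain ⟨b, hb, hb1⟩ : ∃ b > 0, ∀ t : unitInterval, 1 - b < (t : ℝ) →
      dist (at' z0 t) p < δ / 2 := by
    have h2 := (hz0.tendsto 1).eventually (Metric.ball_mem_nhds _ (half_pos hδ))
    rw [Metric.eventually_nhds_iff] at h2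
    obtain ⟨b, hb, h3⟩ := h2
    refine ⟨b, hb, fun t ht => ?_⟩
    have h4 : dist t 1 < b := by
      rw [Subtype.dist_eq, Real.dist_eq, abs_sub_comm, abs_of_nonneg (by simpa using t.2.2)]
      simp only [Set.Icc.coe_one]
      linarith
    have h5 := h3 h4
    rw [h1] at h5
    exact h5
  -- step 3: the middle part stays away from `p`
  obtain ⟨d, hd, hd1⟩ : ∃ d > 0, ∀ t : unitInterval, a ≤ (t : ℝ) → (t : ℝ) ≤ 1 - b →
      d ≤ dist (at' z0 t) p := by
    let K : Set unitInterval := {t | a ≤ (t : ℝ) ∧ (t : ℝ) ≤ 1 - b}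
    have hK : IsCompact K := by
      apply IsClosed.isCompact
      exact (isClosed_le continuous_const continuous_subtype_val).inter
        (isClosed_le continuous_subtype_val continuous_const)
    rcases K.eq_empty_or_nonempty with hemp | hn
    · refine ⟨1, one_pos, fun t h2 h3 => ?_⟩
      exact absurd (show t ∈ K from ⟨h2, h3⟩) (by rw [hemp]; exact Set.notMem_empty _)
    · obtain ⟨t0, ht0, hmin⟩ := hK.exists_isMinOn hn
        ((hz0.dist continuous_const).continuousOn (s := K) (f := fun t => dist (at' z0 t) p))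
      refine ⟨dist (at' z0 t0) p, ?_, fun t h2 h3 => hmin (show t ∈ K from ⟨h2, h3⟩)⟩
      rw [gt_iff_lt, dist_pos]
      apply hne
      · intro h; have := ht0.1; rw [h] at this; simp at this; linarith
      · intro h; have := ht0.2; rw [h] at this; simp at this; linarith
  -- step 4: choice of `ε`
  set N : ℝ := ‖nrm X‖ with hN
  have hN0 : 0 ≤ N := norm_nonneg _
  refine ⟨min (δ / 2) (min (T0 / 2) (d / (2 * (1 + N)))), by positivity, ?_⟩
  intro μ T x z hμ hT hz hsol hx hend t ht0 ht1 s' hs' heq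
  have hεδ : min (δ / 2) (min (T0 / 2) (d / (2 * (1 + N)))) ≤ δ / 2 := min_le_left _ _
  have hεT : min (δ / 2) (min (T0 / 2) (d / (2 * (1 + N)))) ≤ T0 / 2 :=
    (min_le_right _ _).trans (min_le_left _ _)
  have hεd : min (δ / 2) (min (T0 / 2) (d / (2 * (1 + N)))) ≤ d / (2 * (1 + N)) :=
    (min_le_right _ _).trans (min_le_right _ _)
  set ε := min (δ / 2) (min (T0 / 2) (d / (2 * (1 + N)))) with hε
  have hTpos : 0 < T := by
    rw [Real.dist_eq, abs_lt] at hT
    linarith
  have hμδ : dist μ μ0 < δ := by linarith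
  have hclose : ∀ r : unitInterval, dist (at' z r) (at' z0 r) < ε := fun r =>
    (dist_at'_le z z0 r).trans_lt hz
  have hspd : ∀ r : unitInterval, dist (at' z0 r) p < δ / 2 → 0 < spd μ X z r := by
    intro r hr
    rw [spd_eq]
    refine hδ1 μ _ hμδ ?_
    calc dist (at' z r) p ≤ dist (at' z r) (at' z0 r) + dist (at' z0 r) p := dist_triangle _ _ _
      _ < δ := by linarith [hclose r]
  have hl : dot (at' z t - p) X = 0 := by rw [heq]; exact dot_section X p s'
  have ht0' : (0 : ℝ) < t := lt_of_le_of_ne t.2.1 (fun h => ht0 (Subtype.ext h.symm))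
  have ht1' : (t : ℝ) < 1 := lt_of_le_of_ne t.2.2 (fun h => ht1 (Subtype.ext h))
  have hint := fun u v : ℝ => (spd_continuous μ X z).intervalIntegrable u v
    (μ := MeasureTheory.volume)
  rcases lt_or_ge (t : ℝ) a with hta | hta
  · -- `t` close to `0`
    have hI : 0 < ∫ s in (0 : ℝ)..t, spd μ X z s := by
      refine intervalIntegral.intervalIntegral_pos_of_pos_on (hint _ _) ?_ ht0'
      intro s hs
      have h2 := hspd ⟨s, hs.1.le, (hs.2.trans ht1').le⟩ (ha1 _ (hs.2.trans hta))
      exact h2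
    have h2 := dot_path hsol p X t
    rw [hl, hx] at h2
    have := mul_pos hTpos hI
    linarith
  · rcases le_or_gt (t : ℝ) (1 - b) with htb | htb
    · -- middle part
      have h2 := hd1 t hta htb
      have h3 : dist (at' z t) p ≤ ε * N := by
        rw [heq, dist_eq_norm]
        have : p + s' • nrm X - p = s' • nrm X := by abel
        rw [this, norm_smul, Real.norm_eq_abs]
        exact mul_le_mul_of_nonneg_right (abs_le.mpr hs') hN0
      have h4 : d ≤ ε + ε * N := by
        calc d ≤ dist (at' z0 t) p := h2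
          _ ≤ dist (at' z0 t) (at' z t) + dist (at' z t) p := dist_triangle _ _ _
          _ ≤ ε + ε * N := by
            rw [dist_comm (at' z0 t)]
            exact add_le_add (hclose t).le h3
      have h5 : ε * (1 + N) ≤ d / 2 := by
        have h6 : ε * (1 + N) ≤ d / (2 * (1 + N)) * (1 + N) :=
          mul_le_mul_of_nonneg_right hεd (by linarith)
        have h7 : d / (2 * (1 + N)) * (1 + N) = d / 2 := by
          field_simp
        linarith
      linarith
    · -- `t` close to `1`
      have hI : 0 < ∫ s in (t : ℝ)..1, spd μ X z s := by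
        refine intervalIntegral.intervalIntegral_pos_of_pos_on (hint _ _) ?_ ht1'
        intro s hs
        have h2 := hspd ⟨s, (ht0'.trans hs.1).le, hs.2.le⟩ (hb1 _ (htb.trans hs.1))
        exact h2
      have h2 := dot_path hsol p X t
      have h3 := dot_path hsol p X 1
      rw [hl, hx] at h2
      rw [hend, hx] at h3
      have h4 := intervalIntegral.integral_add_adjacent_intervals (hint 0 t) (hint t 1)
      simp only [Set.Icc.coe_one] at h3
      have h5 : (∫ s in (0 : ℝ)..t, spd μ X z s) = 0 := by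
        have : T * ∫ s in (0 : ℝ)..t, spd μ X z s = 0 := by linarith
        exact (mul_eq_zero.mp this).resolve_left hTpos.ne'
      have h6 : (∫ s in (0 : ℝ)..1, spd μ X z s) = 0 := by
        have : T * ∫ s in (0 : ℝ)..1, spd μ X z s = 0 := by linarith
        exact (mul_eq_zero.mp this).resolve_left hTpos.ne'
      linarith

end Pool.Agent.Lib.MP_95e7ec_an
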