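import Mathlib
import Pool.Agent.Lib.MP_95e7ec_an.Defs

/-!
# Liouville-type positivity and the linearised equation for the velocity
-/

set_option autoImplicit false

open Set Filter Topology

namespace Pool.Agent.Lib.MP_95e7ec_an

/-- the real function behind `const c + T • prim f` -/
private noncomputable def pr (c T : ℝ) (f : A) (t : ℝ) : ℝ :=
  c + T * ∫ s in (0 : ℝ)..t, Set.IccExtend (zero_le_one' ℝ) f s

private theorem pr_hasDerivAt (c T : ℝ) (f : A) (t : ℝ) :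
    HasDerivAt (pr c T f) (T * Set.IccExtend (zero_le_one' ℝ) f t) t := by
  have h : Continuous (Set.IccExtend (zero_le_one' ℝ) f) := f.continuous.Icc_extend'
  have h2 : HasDerivAt (fun b : ℝ => ∫ s in (0 : ℝ)..b, Set.IccExtend (zero_le_one' ℝ) f s)
      (Set.IccExtend (zero_le_one' ℝ) f t) t :=
    intervalIntegral.integral_hasDerivAt_right (h.intervalIntegrable 0 t)
      (h.stronglyMeasurableAtFilter _ _) h.continuousAt
  exact (h2.const_mul T).const_add c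

private theorem pr_eq {c T : ℝ} {a f : A} (h : a = ContinuousMap.const _ c + T • prim f)
    (t : unitInterval) : pr c T f (t : ℝ) = a t := by
  rw [h]
  rfl

private theorem ext_eq (f : A) (t : ℝ) (ht : t ∈ Set.Icc (0 : ℝ) 1) :
    Set.IccExtend (zero_le_one' ℝ) f t = f ⟨t, ht⟩ :=
  Set.IccExtend_of_mem _ _ ht

private theorem pr_eq' {c T : ℝ} {a f : A} (h : a = ContinuousMap.const _ c + T • prim f)
    (t : ℝ) (ht : t ∈ Set.Icc (0 : ℝ) 1) : pr c T f t = a ⟨t, ht⟩ := by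
  rw [← pr_eq h ⟨t, ht⟩]

private theorem pr_zero (c T : ℝ) (f : A) : pr c T f 0 = c := by
  simp [pr]

/-- Liouville-type positivity: `D = det(a,b)` satisfies `D' = T (m11+m22) D + T det(a,r)`. -/
theorem det_pos (T : ℝ) (hT : 0 < T) (m11 m12 m21 m22 : A) (a b r : A × A) (a0 b0 : ℝ × ℝ)
    (ha1 : a.1 = ContinuousMap.const _ a0.1 + T • prim (m11 * a.1 + m12 * a.2))
    (ha2 : a.2 = ContinuousMap.const _ a0.2 + T • prim (m21 * a.1 + m22 * a.2))
    (hb1 : b.1 = ContinuousMap.const _ b0.1 + T • prim (m11 * b.1 + m12 * b.2 + r.1))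
    (hb2 : b.2 = ContinuousMap.const _ b0.2 + T • prim (m21 * b.1 + m22 * b.2 + r.2))
    (h0 : 0 ≤ a0.1 * b0.2 - a0.2 * b0.1) (hr : ∀ t, 0 ≤ a.1 t * r.2 t - a.2 t * r.1 t)
    (hor : 0 < a0.1 * b0.2 - a0.2 * b0.1 ∨ ∀ t, 0 < a.1 t * r.2 t - a.2 t * r.1 t) :
    0 < a.1 1 * b.2 1 - a.2 1 * b.1 1 := by
  set a1 := pr a0.1 T (m11 * a.1 + m12 * a.2) with ha1'
  set a2 := pr a0.2 T (m21 * a.1 + m22 * a.2) with ha2'
  set b1 := pr b0.1 T (m11 * b.1 + m12 * b.2 + r.1) with hb1'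
  set b2 := pr b0.2 T (m21 * b.1 + m22 * b.2 + r.2) with hb2'
  set w := pr 0 T (-(m11 + m22)) with hw'
  set E : ℝ → ℝ := fun t => Real.exp (w t) * (a1 t * b2 t - a2 t * b1 t) with hE
  have key : ∀ (t : ℝ) (ht : t ∈ Set.Icc (0 : ℝ) 1), HasDerivAt E
      (Real.exp (w t) * (T * (a.1 ⟨t, ht⟩ * r.2 ⟨t, ht⟩ - a.2 ⟨t, ht⟩ * r.1 ⟨t, ht⟩))) t := by
    intro t ht
    have d1 := pr_hasDerivAt a0.1 T (m11 * a.1 + m12 * a.2) t
    have d2 := pr_hasDerivAt a0.2 T (m21 * a.1 + m22 * a.2) t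
    have d3 := pr_hasDerivAt b0.1 T (m11 * b.1 + m12 * b.2 + r.1) t
    have d4 := pr_hasDerivAt b0.2 T (m21 * b.1 + m22 * b.2 + r.2) t
    have d5 := pr_hasDerivAt 0 T (-(m11 + m22)) t
    rw [ext_eq _ t ht] at d1 d2 d3 d4 d5
    have e1 : a1 t = a.1 ⟨t, ht⟩ := pr_eq' ha1 t ht
    have e2 : a2 t = a.2 ⟨t, ht⟩ := pr_eq' ha2 t ht
    have e3 : b1 t = b.1 ⟨t, ht⟩ := pr_eq' hb1 t ht
    have e4 : b2 t = b.2 ⟨t, ht⟩ := pr_eq' hb2 t ht
    have d := d5.exp.mul ((d1.mul d4).sub (d2.mul d3))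
    refine HasDerivAt.congr_deriv d ?_
    simp only [← ha1', ← ha2', ← hb1', ← hb2', ← hw', ContinuousMap.add_apply,
      ContinuousMap.mul_apply, ContinuousMap.neg_apply, Pi.mul_apply, Pi.sub_apply]
    rw [e1, e2, e3, e4]
    ring
  have hcont : ContinuousOn E (Set.Icc 0 1) := fun t ht =>
    (key t ht).continuousAt.continuousWithinAt
  have hE0 : E 0 = a0.1 * b0.2 - a0.2 * b0.1 := by
    simp [hE, ha1', ha2', hb1', hb2', hw', pr_zero]
  have hE1 : E 1 = Real.exp (w 1) * (a.1 1 * b.2 1 - a.2 1 * b.1 1) := by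
    have h1 : (1 : ℝ) ∈ Set.Icc (0 : ℝ) 1 := ⟨zero_le_one, le_rfl⟩
    have e1 : a1 1 = a.1 ⟨1, h1⟩ := pr_eq' ha1 1 h1
    have e2 : a2 1 = a.2 ⟨1, h1⟩ := pr_eq' ha2 1 h1
    have e3 : b1 1 = b.1 ⟨1, h1⟩ := pr_eq' hb1 1 h1
    have e4 : b2 1 = b.2 ⟨1, h1⟩ := pr_eq' hb2 1 h1
    simp only [hE]
    rw [e1, e2, e3, e4]
    rfl
  have hlt : 0 < E 1 := by
    rcases hor with h | h
    · have hmono : MonotoneOn E (Set.Icc 0 1) := by
        refine monotoneOn_of_deriv_nonneg (convex_Icc 0 1) hcont ?_ ?_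
        · intro t ht
          rw [interior_Icc] at ht
          exact (key t ⟨ht.1.le, ht.2.le⟩).differentiableAt.differentiableWithinAt
        · intro t ht
          rw [interior_Icc] at ht
          rw [(key t ⟨ht.1.le, ht.2.le⟩).deriv]
          have := hr ⟨t, ⟨ht.1.le, ht.2.le⟩⟩
          positivity
      have := hmono ⟨le_rfl, zero_le_one⟩ ⟨zero_le_one, le_rfl⟩ (zero_le_one' ℝ)
      rw [hE0] at this
      exact lt_of_lt_of_le h this
    · have hmono : StrictMonoOn E (Set.Icc 0 1) := by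
        refine strictMonoOn_of_deriv_pos (convex_Icc 0 1) hcont ?_
        intro t ht
        rw [interior_Icc] at ht
        rw [(key t ⟨ht.1.le, ht.2.le⟩).deriv]
        have := h ⟨t, ⟨ht.1.le, ht.2.le⟩⟩
        positivity
      have := hmono ⟨le_rfl, zero_le_one⟩ ⟨zero_le_one, le_rfl⟩ (zero_lt_one' ℝ)
      rw [hE0] at this
      exact lt_of_le_of_lt h0 this
  rw [hE1] at hlt
  exact (pos_iff_pos_of_mul_pos hlt).1 (Real.exp_pos _)

/-- evaluation of a coefficient array at paths is pointwise -/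
theorem pe_apply_dp {D : ℕ} (c : Co D) (f g : A) (t : unitInterval) :
    (pe c f g) t = pe c (f t) (g t) := by
  simp [pe, ContinuousMap.sum_apply]

theorem pex_apply_dp {D : ℕ} (c : Co D) (f g : A) (t : unitInterval) :
    (pex c f g) t = pex c (f t) (g t) := by
  simp [pex, ContinuousMap.sum_apply, mul_assoc]

theorem pey_apply_dp {D : ℕ} (c : Co D) (f g : A) (t : unitInterval) :
    (pey c f g) t = pey c (f t) (g t) := by
  simp [pey, ContinuousMap.sum_apply, mul_left_comm]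

/-- the chain rule for the evaluation of a coefficient array -/
theorem pe_hasDerivAt {D : ℕ} (c : Co D) {u v : ℝ → ℝ} {u' v' : ℝ} {t : ℝ}
    (hu : HasDerivAt u u' t) (hv : HasDerivAt v v' t) :
    HasDerivAt (fun s => pe c (u s) (v s))
      (pex c (u t) (v t) * u' + pey c (u t) (v t) * v') t := by
  have h : HasDerivAt (fun s => pe c (u s) (v s))
      (∑ a : Fin (D + 1), ∑ b : Fin (D + 1), c a b •
        (((a : ℕ) : ℝ) * u t ^ ((a : ℕ) - 1) * u' * v t ^ (b : ℕ) +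
          u t ^ (a : ℕ) * (((b : ℕ) : ℝ) * v t ^ ((b : ℕ) - 1) * v'))) t := by
    unfold pe
    refine HasDerivAt.fun_sum fun a _ => HasDerivAt.fun_sum fun b _ => ?_
    exact ((hu.fun_pow (a : ℕ)).fun_mul (hv.fun_pow (b : ℕ))).fun_const_smul (c a b)
  refine h.congr_deriv ?_
  simp only [pex, pey, Finset.sum_mul, ← Finset.sum_add_distrib, smul_eq_mul]
  refine Finset.sum_congr rfl fun a _ => Finset.sum_congr rfl fun b _ => ?_
  ring

/-- the velocity field along a solution satisfies the linearised equation -/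
theorem velocity_aux {D : ℕ} (c : Co D) {μ : Pr D} {T : ℝ} {x : ℝ × ℝ} {z : A × A}
    (h : Sol μ T x z) :
    pe c z.1 z.2 = ContinuousMap.const _ (pe c x.1 x.2) +
      T • prim (pex c z.1 z.2 * pe μ.1 z.1 z.2 + pey c z.1 z.2 * pe μ.2 z.1 z.2) := by
  obtain ⟨h1, h2⟩ := h
  ext t
  set u := pr x.1 T (pe μ.1 z.1 z.2) with hu'
  set v := pr x.2 T (pe μ.2 z.1 z.2) with hv'
  set G : A := pex c z.1 z.2 * pe μ.1 z.1 z.2 + pey c z.1 z.2 * pe μ.2 z.1 z.2 with hG
  have key : ∀ (s : ℝ) (hs : s ∈ Set.Icc (0 : ℝ) 1), HasDerivAt (fun s => pe c (u s) (v s))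
      (T * Set.IccExtend (zero_le_one' ℝ) G s) s := by
    intro s hs
    have d1 := pr_hasDerivAt x.1 T (pe μ.1 z.1 z.2) s
    have d2 := pr_hasDerivAt x.2 T (pe μ.2 z.1 z.2) s
    have d := pe_hasDerivAt c d1 d2
    have e1 : u s = z.1 ⟨s, hs⟩ := pr_eq' h1 s hs
    have e2 : v s = z.2 ⟨s, hs⟩ := pr_eq' h2 s hs
    refine HasDerivAt.congr_deriv d ?_
    rw [← hu', ← hv', e1, e2, ext_eq _ s hs, ext_eq _ s hs, ext_eq _ s hs, hG,
      ContinuousMap.add_apply, ContinuousMap.mul_apply, ContinuousMap.mul_apply, pex_apply_dp,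
      pey_apply_dp, pe_apply_dp, pe_apply_dp]
    ring
  have hGc : Continuous (Set.IccExtend (zero_le_one' ℝ) G) := G.continuous.Icc_extend'
  have hft : ∫ s in (0 : ℝ)..(t : ℝ), T * Set.IccExtend (zero_le_one' ℝ) G s =
      pe c (u t) (v t) - pe c (u 0) (v 0) := by
    refine intervalIntegral.integral_eq_sub_of_hasDerivAt
      (f := fun s => pe c (u s) (v s)) (fun s hs => ?_)
      ((hGc.const_mul T).intervalIntegrable _ _)
    rw [Set.uIcc_of_le t.2.1] at hs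
    exact key s ⟨hs.1, hs.2.trans t.2.2⟩
  have e1 : u (t : ℝ) = z.1 t := pr_eq h1 t
  have e2 : v (t : ℝ) = z.2 t := pr_eq h2 t
  have e3 : u 0 = x.1 := pr_zero _ _ _
  have e4 : v 0 = x.2 := pr_zero _ _ _
  rw [e1, e2, e3, e4, intervalIntegral.integral_const_mul] at hft
  rw [pe_apply_dp, ContinuousMap.add_apply, ContinuousMap.const_apply, ContinuousMap.smul_apply,
    smul_eq_mul]
  have : (prim G) t = ∫ s in (0 : ℝ)..(t : ℝ), Set.IccExtend (zero_le_one' ℝ) G s := rfl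
  rw [this, hft]
  ring

/-- the velocity field along a solution satisfies the linearised equation -/
theorem Sol.velocity {D : ℕ} {μ : Pr D} {T : ℝ} {x : ℝ × ℝ} {z : A × A} (h : Sol μ T x z) :
    pe μ.1 z.1 z.2 = ContinuousMap.const _ (pe μ.1 x.1 x.2) +
      T • prim (pex μ.1 z.1 z.2 * pe μ.1 z.1 z.2 + pey μ.1 z.1 z.2 * pe μ.2 z.1 z.2) ∧
    pe μ.2 z.1 z.2 = ContinuousMap.const _ (pe μ.2 x.1 x.2) +
      T • prim (pex μ.2 z.1 z.2 * pe μ.1 z.1 z.2 + pey μ.2 z.1 z.2 * pe μ.2 z.1 z.2) :=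
  ⟨velocity_aux μ.1 h, velocity_aux μ.2 h⟩

end Pool.Agent.Lib.MP_95e7ec_an
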