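import Mathlib
import Pool.Agent.Lib.MP_95e7ec_an.Defs

/-!
# Invertibility of linear Volterra operators on `C([0,1])`
-/

set_option autoImplicit false

open Set Filter Topology

namespace Pool.Agent.Lib.MP_95e7ec_an

theorem prim_apply (f : A) (t : unitInterval) :
    prim f t = ∫ s in (0 : ℝ)..(t : ℝ), Set.IccExtend (zero_le_one' ℝ) f s := rfl

theorem prim_add (f g : A) : prim (f + g) = prim f + prim g := by
  ext t
  rw [ContinuousMap.add_apply, prim_apply, prim_apply, prim_apply]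
  rw [← intervalIntegral.integral_add
    (f.continuous.Icc_extend'.intervalIntegrable _ _) (g.continuous.Icc_extend'.intervalIntegrable _ _)]
  rfl

theorem prim_smul (c : ℝ) (f : A) : prim (c • f) = c • prim f := by
  ext t
  rw [ContinuousMap.smul_apply, prim_apply, prim_apply, ← intervalIntegral.integral_smul]
  rfl

/-- the exponential weight -/
noncomputable def wt (l : ℝ) : A := ⟨fun t => Real.exp (l * t), by fun_prop⟩

theorem wt_mul (l : ℝ) : wt (-l) * wt l = 1 := by
  ext t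
  simp only [wt, ContinuousMap.mul_apply, ContinuousMap.coe_mk, ContinuousMap.one_apply,
    ← Real.exp_add]
  rw [show -l * (t : ℝ) + l * t = 0 by ring, Real.exp_zero]

theorem norm_wt_prim_le {l : ℝ} (hl : 0 < l) (g : A) : ‖wt (-l) * prim (wt l * g)‖ ≤ 1 / l * ‖g‖ := by
  rw [ContinuousMap.norm_le _ (by positivity)]
  intro t
  have ht0 : (0 : ℝ) ≤ t := t.2.1
  rw [ContinuousMap.mul_apply, norm_mul, prim_apply]
  have h1 : ‖∫ s in (0 : ℝ)..(t : ℝ), Set.IccExtend (zero_le_one' ℝ) (wt l * g) s‖ ≤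
      ∫ s in (0 : ℝ)..(t : ℝ), Real.exp (l * s) * ‖g‖ := by
    refine intervalIntegral.norm_integral_le_of_norm_le ht0 ?_ ?_
    · refine Filter.Eventually.of_forall fun s hs => ?_
      have hs' : s ∈ Set.Icc (0 : ℝ) 1 := ⟨hs.1.le, hs.2.trans t.2.2⟩
      rw [Set.IccExtend_of_mem _ _ hs', ContinuousMap.mul_apply, norm_mul]
      refine mul_le_mul (le_of_eq ?_) (g.norm_coe_le_norm _) (norm_nonneg _) (Real.exp_pos _).le
      simp [wt, abs_of_pos (Real.exp_pos _)]
    · exact Continuous.intervalIntegrable (by fun_prop) _ _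
  have h2 : ∫ s in (0 : ℝ)..(t : ℝ), Real.exp (l * s) * ‖g‖ =
      (Real.exp (l * t) - 1) / l * ‖g‖ := by
    rw [intervalIntegral.integral_mul_const]
    congr 1
    have h3 : ∀ s ∈ Set.uIcc (0 : ℝ) t, HasDerivAt (fun s : ℝ => Real.exp (l * s) / l)
        (Real.exp (l * s)) s := by
      intro s _
      have h4 : HasDerivAt (fun s : ℝ => l * s) l s := by
        simpa using (hasDerivAt_id s).const_mul l
      have h5 := (h4.exp).div_const l
      rwa [mul_div_assoc, div_self hl.ne', mul_one] at h5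
    rw [intervalIntegral.integral_eq_sub_of_hasDerivAt h3
      (Continuous.intervalIntegrable (by fun_prop) _ _)]
    rw [mul_zero, Real.exp_zero]; ring
  rw [h2] at h1
  have h6 : ‖(wt (-l)) t‖ = Real.exp (-(l * t)) := by
    simp [wt, abs_of_pos (Real.exp_pos _)]
  rw [h6]
  have h7 : Real.exp (-(l * t)) * Real.exp (l * t) = 1 := by
    rw [← Real.exp_add]; simp
  calc Real.exp (-(l * t)) * ‖∫ s in (0 : ℝ)..(t : ℝ), Set.IccExtend (zero_le_one' ℝ) (wt l * g) s‖
      ≤ Real.exp (-(l * t)) * ((Real.exp (l * t) - 1) / l * ‖g‖) :=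
        mul_le_mul_of_nonneg_left h1 (Real.exp_pos _).le
    _ = (1 - Real.exp (-(l * t))) / l * ‖g‖ := by
        rw [show Real.exp (-(l * t)) * ((Real.exp (l * t) - 1) / l * ‖g‖) =
          (Real.exp (-(l * t)) * Real.exp (l * t) - Real.exp (-(l * t))) / l * ‖g‖ by ring, h7]
    _ ≤ 1 / l * ‖g‖ := by
        refine mul_le_mul_of_nonneg_right ?_ (norm_nonneg _)
        exact (div_le_div_iff_of_pos_right hl).2 (by linarith [Real.exp_pos (-(l * t))])

/-- the weighted Volterra operator as a linear map -/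
noncomputable def volL (l T : ℝ) (m11 m12 m21 m22 : A) : (A × A) →ₗ[ℝ] (A × A) where
  toFun h := (T • (wt (-l) * prim (wt l * (m11 * h.1 + m12 * h.2))),
    T • (wt (-l) * prim (wt l * (m21 * h.1 + m22 * h.2))))
  map_add' h k := by
    ext1
    · simp only [Prod.fst_add, Prod.snd_add]
      rw [← smul_add, ← mul_add, ← prim_add]
      congr 4; ring
    · simp only [Prod.fst_add, Prod.snd_add]
      rw [← smul_add, ← mul_add, ← prim_add]
      congr 4; ring
  map_smul' c h := by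
    ext1
    · simp only [Prod.smul_fst, Prod.smul_snd, RingHom.id_apply]
      rw [mul_smul_comm, mul_smul_comm, ← smul_add, mul_smul_comm, prim_smul, mul_smul_comm,
        smul_comm c T]
    · simp only [Prod.smul_fst, Prod.smul_snd, RingHom.id_apply]
      rw [mul_smul_comm, mul_smul_comm, ← smul_add, mul_smul_comm, prim_smul, mul_smul_comm,
        smul_comm c T]

theorem norm_volL_le {l : ℝ} (hl : 0 < l) (T : ℝ) (m11 m12 m21 m22 : A) (h : A × A) :
    ‖volL l T m11 m12 m21 m22 h‖ ≤ |T| * (‖m11‖ + ‖m12‖ + ‖m21‖ + ‖m22‖) / l * ‖h‖ := by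
  have aux : ∀ m m' : A, ‖m‖ + ‖m'‖ ≤ ‖m11‖ + ‖m12‖ + ‖m21‖ + ‖m22‖ →
      ‖T • (wt (-l) * prim (wt l * (m * h.1 + m' * h.2)))‖ ≤
        |T| * (‖m11‖ + ‖m12‖ + ‖m21‖ + ‖m22‖) / l * ‖h‖ := by
    intro m m' hm
    rw [norm_smul, Real.norm_eq_abs]
    have h1 := norm_wt_prim_le hl (m * h.1 + m' * h.2)
    have h2 : ‖m * h.1 + m' * h.2‖ ≤ (‖m‖ + ‖m'‖) * ‖h‖ := by
      calc ‖m * h.1 + m' * h.2‖ ≤ ‖m * h.1‖ + ‖m' * h.2‖ := norm_add_le _ _
        _ ≤ ‖m‖ * ‖h.1‖ + ‖m'‖ * ‖h.2‖ := add_le_add (norm_mul_le _ _) (norm_mul_le _ _)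
        _ ≤ ‖m‖ * ‖h‖ + ‖m'‖ * ‖h‖ := add_le_add
            (mul_le_mul_of_nonneg_left (norm_fst_le h) (norm_nonneg _))
            (mul_le_mul_of_nonneg_left (norm_snd_le h) (norm_nonneg _))
        _ = (‖m‖ + ‖m'‖) * ‖h‖ := by ring
    calc |T| * ‖wt (-l) * prim (wt l * (m * h.1 + m' * h.2))‖
        ≤ |T| * (1 / l * ((‖m11‖ + ‖m12‖ + ‖m21‖ + ‖m22‖) * ‖h‖)) := by
          refine mul_le_mul_of_nonneg_left (h1.trans ?_) (abs_nonneg _)
          refine mul_le_mul_of_nonneg_left (h2.trans ?_) (by positivity)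
          exact mul_le_mul_of_nonneg_right hm (norm_nonneg _)
      _ = |T| * (‖m11‖ + ‖m12‖ + ‖m21‖ + ‖m22‖) / l * ‖h‖ := by ring
  refine max_le ?_ ?_
  · exact aux m11 m12 (by linarith [norm_nonneg m21, norm_nonneg m22])
  · exact aux m21 m22 (by linarith [norm_nonneg m11, norm_nonneg m12])

/-- multiplication by the exponential weight -/
noncomputable def wtE (l : ℝ) : (A × A) ≃L[ℝ] (A × A) where
  toFun h := (wt l * h.1, wt l * h.2)
  invFun h := (wt (-l) * h.1, wt (-l) * h.2)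
  map_add' h k := by simp only [Prod.fst_add, Prod.snd_add, mul_add]; rfl
  map_smul' c h := by
    simp only [Prod.smul_fst, Prod.smul_snd, RingHom.id_apply, mul_smul_comm]; rfl
  left_inv h := by
    simp only
    rw [← mul_assoc, ← mul_assoc, wt_mul, one_mul, one_mul]
  right_inv h := by
    simp only
    rw [← mul_assoc, ← mul_assoc, mul_comm (wt l), wt_mul, one_mul, one_mul]
  continuous_toFun := by fun_prop
  continuous_invFun := by fun_prop

/-- F1. The linear Volterra operator of a linear planar ODE is invertible. -/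
theorem volterra_invertible (T : ℝ) (m11 m12 m21 m22 : A) :
    ∃ L : (A × A) ≃L[ℝ] (A × A), ∀ h : A × A,
      L h = (h.1 - T • prim (m11 * h.1 + m12 * h.2), h.2 - T • prim (m21 * h.1 + m22 * h.2)) := by
  set M : ℝ := |T| * (‖m11‖ + ‖m12‖ + ‖m21‖ + ‖m22‖) with hM
  have hM0 : 0 ≤ M := by positivity
  set l : ℝ := 2 * M + 1 with hl
  have hl0 : 0 < l := by positivity
  set K : (A × A) →L[ℝ] (A × A) := (volL l T m11 m12 m21 m22).mkContinuous (M / l)
    (fun h => norm_volL_le hl0 T m11 m12 m21 m22 h) with hK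
  have hKn : ‖K‖ < 1 := by
    refine (LinearMap.mkContinuous_norm_le _ (by positivity) _).trans_lt ?_
    rw [div_lt_one hl0]; linarith
  obtain ⟨u, hu⟩ := isUnit_one_sub_of_norm_lt_one (R := (A × A) →L[ℝ] (A × A)) (x := K) hKn
  refine ⟨(wtE l).symm.trans ((ContinuousLinearEquiv.unitsEquiv ℝ (A × A) u).trans (wtE l)), ?_⟩
  intro h
  rw [ContinuousLinearEquiv.trans_apply, ContinuousLinearEquiv.trans_apply,
    ContinuousLinearEquiv.unitsEquiv_apply, hu]
  have e1 : ∀ f : A, wt l * (wt (-l) * f) = f := fun f => by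
    rw [← mul_assoc, mul_comm (wt l), wt_mul, one_mul]
  have e2 : ∀ m f : A, wt l * (m * (wt (-l) * f)) = m * f := fun m f => by
    rw [← e1 f, ← mul_assoc, mul_comm (wt l) m, mul_assoc, e1, e1]
  show (wt l * ((wt (-l) * h.1) - T • (wt (-l) * prim (wt l * (m11 * (wt (-l) * h.1) +
      m12 * (wt (-l) * h.2))))), wt l * ((wt (-l) * h.2) - T • (wt (-l) * prim (wt l *
      (m21 * (wt (-l) * h.1) + m22 * (wt (-l) * h.2)))))) = _
  simp only [mul_sub, mul_add, e1, e2, mul_smul_comm]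

end Pool.Agent.Lib.MP_95e7ec_an
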