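import Mathlib
import Pool.Agent.Lib.MP_95e7ec_an.Defs
import Pool.Agent.Lib.MP_95e7ec_an.Volterra

/-!
# The analytic solution map in path space (task F2)
-/

set_option autoImplicit false
open Set Filter Topology
open scoped ContDiff
namespace Pool.Agent.Lib.MP_95e7ec_an

/-- the primitive operator as a continuous linear map -/
noncomputable def flow_primL : A →L[ℝ] A :=
  LinearMap.mkContinuous
    { toFun := prim
      map_add' := by
        intro f g
        ext t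
        change primFun (f + g) t = primFun f t + primFun g t
        unfold primFun
        rw [← intervalIntegral.integral_add]
        · rfl
        · exact (f.continuous.Icc_extend').intervalIntegrable _ _
        · exact (g.continuous.Icc_extend').intervalIntegrable _ _
      map_smul' := by
        intro c f
        ext t
        change primFun (c • f) t = c * primFun f t
        unfold primFun
        rw [← intervalIntegral.integral_const_mul]
        rfl } 1 (by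
      intro f
      rw [one_mul]
      rw [ContinuousMap.norm_le _ (norm_nonneg f)]
      intro t
      change ‖primFun f t‖ ≤ ‖f‖
      unfold primFun
      have h := intervalIntegral.norm_integral_le_of_norm_le_const (a := 0) (b := (t : ℝ))
        (f := Set.IccExtend (zero_le_one' ℝ) f) (C := ‖f‖) (fun x _ => f.norm_coe_le_norm _)
      refine h.trans ?_
      have ht := t.2
      rw [sub_zero, abs_of_nonneg ht.1]
      exact mul_le_of_le_one_right (norm_nonneg f) ht.2)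

@[simp] theorem flow_primL_apply (f : A) : flow_primL f = prim f := rfl

/-- constants as a continuous linear map -/
noncomputable def flow_constL : ℝ →L[ℝ] A := Algebra.linearMap ℝ A |>.mkContinuous 1 (by
  intro r
  rw [one_mul]
  rw [ContinuousMap.norm_le _ (norm_nonneg r)]
  intro t
  rfl)

@[simp] theorem flow_constL_apply (r : ℝ) : flow_constL r = ContinuousMap.const _ r := rfl

variable {D : ℕ}

theorem flow_contDiff_pe : ContDiff ℝ ω (fun q : Co D × A × A => pe q.1 q.2.1 q.2.2) := by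
  unfold pe
  fun_prop

theorem flow_hasFDerivAt_pe (c : Co D) (z : A × A) : ∃ P' : Co D × A × A →L[ℝ] A,
    HasFDerivAt (fun q : Co D × A × A => pe q.1 q.2.1 q.2.2) P' (c, z) ∧
      ∀ (ν : Co D) (h : A × A), P' (ν, h) = pe ν z.1 z.2 + pex c z.1 z.2 * h.1 +
        pey c z.1 z.2 * h.2 := by
  have h1 : HasFDerivAt (fun q : Co D × A × A => q.2.1)
      ((ContinuousLinearMap.fst ℝ A A).comp (ContinuousLinearMap.snd ℝ (Co D) (A × A))) (c, z) :=
    ((ContinuousLinearMap.fst ℝ A A).comp (ContinuousLinearMap.snd ℝ (Co D) (A × A))).hasFDerivAt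
  have h2 : HasFDerivAt (fun q : Co D × A × A => q.2.2)
      ((ContinuousLinearMap.snd ℝ A A).comp (ContinuousLinearMap.snd ℝ (Co D) (A × A))) (c, z) :=
    ((ContinuousLinearMap.snd ℝ A A).comp (ContinuousLinearMap.snd ℝ (Co D) (A × A))).hasFDerivAt
  have h3 : ∀ a b : Fin (D + 1), HasFDerivAt (fun q : Co D × A × A => q.1 a b)
      (((ContinuousLinearMap.proj (R := ℝ) (φ := fun _ : Fin (D + 1) => ℝ) b).comp
        (ContinuousLinearMap.proj (R := ℝ) (φ := fun _ : Fin (D + 1) => Fin (D + 1) → ℝ) a)).comp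
        (ContinuousLinearMap.fst ℝ (Co D) (A × A))) (c, z) := fun a b =>
    (((ContinuousLinearMap.proj (R := ℝ) (φ := fun _ : Fin (D + 1) => ℝ) b).comp
        (ContinuousLinearMap.proj (R := ℝ) (φ := fun _ : Fin (D + 1) => Fin (D + 1) → ℝ) a)).comp
        (ContinuousLinearMap.fst ℝ (Co D) (A × A))).hasFDerivAt
  have h4 := HasFDerivAt.fun_sum (u := Finset.univ) (fun (a : Fin (D + 1)) _ =>
    HasFDerivAt.fun_sum (u := Finset.univ) (fun (b : Fin (D + 1)) _ =>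
      (h3 a b).smul ((h1.pow (a : ℕ)).mul (h2.pow (b : ℕ)))))
  refine ⟨_, h4, ?_⟩
  intro ν h
  simp only [_root_.sum_apply, pe, pex, pey, Finset.sum_mul, ← Finset.sum_add_distrib]
  refine Finset.sum_congr rfl fun a _ => Finset.sum_congr rfl fun b _ => ?_
  simp only [Nat.cast_smul_eq_nsmul, nsmul_eq_mul]
  simp
  simp only [Algebra.smul_def]
  ring

/-- the integral equation -/
noncomputable def flow_G (D : ℕ) (p : ((ℝ × ℝ) × ℝ × Pr D) × (A × A)) : A × A :=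
  (p.2.1 - flow_constL p.1.1.1 - p.1.2.1 • flow_primL (pe p.1.2.2.1 p.2.1 p.2.2),
    p.2.2 - flow_constL p.1.1.2 - p.1.2.1 • flow_primL (pe p.1.2.2.2 p.2.1 p.2.2))

theorem flow_G_eq_zero_iff (p : ((ℝ × ℝ) × ℝ × Pr D) × (A × A)) :
    flow_G D p = 0 ↔ Sol p.1.2.2 p.1.2.1 p.1.1 p.2 := by
  unfold flow_G Sol
  rw [Prod.mk_eq_zero]
  simp only [flow_constL_apply, flow_primL_apply]
  constructor
  · rintro ⟨h1, h2⟩
    exact ⟨by rw [sub_sub, sub_eq_zero] at h1; exact h1,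
      by rw [sub_sub, sub_eq_zero] at h2; exact h2⟩
  · rintro ⟨h1, h2⟩
    exact ⟨by rw [sub_sub, sub_eq_zero]; exact h1, by rw [sub_sub, sub_eq_zero]; exact h2⟩

theorem flow_contDiff_G : ContDiff ℝ ω (flow_G D) := by
  have h1 : ContDiff ℝ ω (fun p : ((ℝ × ℝ) × ℝ × Pr D) × (A × A) =>
      pe p.1.2.2.1 p.2.1 p.2.2) :=
    flow_contDiff_pe.comp (f := fun p : ((ℝ × ℝ) × ℝ × Pr D) × (A × A) =>
      (p.1.2.2.1, p.2.1, p.2.2)) (by fun_prop)
  have h2 : ContDiff ℝ ω (fun p : ((ℝ × ℝ) × ℝ × Pr D) × (A × A) =>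
      pe p.1.2.2.2 p.2.1 p.2.2) :=
    flow_contDiff_pe.comp (f := fun p : ((ℝ × ℝ) × ℝ × Pr D) × (A × A) =>
      (p.1.2.2.2, p.2.1, p.2.2)) (by fun_prop)
  unfold flow_G
  fun_prop

theorem flow_hasFDerivAt_G (μ : Pr D) (T : ℝ) (x : ℝ × ℝ) (z : A × A) :
    ∃ G' : ((ℝ × ℝ) × ℝ × Pr D) × (A × A) →L[ℝ] A × A,
      HasFDerivAt (flow_G D) G' ((x, T, μ), z) ∧
      ∀ (x' : ℝ × ℝ) (T' : ℝ) (ν : Pr D) (h : A × A), G' ((x', T', ν), h) =
        (h.1 - flow_constL x'.1 - T' • flow_primL (pe μ.1 z.1 z.2) -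
            T • flow_primL (pe ν.1 z.1 z.2 + pex μ.1 z.1 z.2 * h.1 + pey μ.1 z.1 z.2 * h.2),
          h.2 - flow_constL x'.2 - T' • flow_primL (pe μ.2 z.1 z.2) -
            T • flow_primL (pe ν.2 z.1 z.2 + pex μ.2 z.1 z.2 * h.1 +
              pey μ.2 z.1 z.2 * h.2)) := by
  obtain ⟨P1, hP1, hP1'⟩ := flow_hasFDerivAt_pe μ.1 z
  obtain ⟨P2, hP2, hP2'⟩ := flow_hasFDerivAt_pe μ.2 z
  let E := ((ℝ × ℝ) × ℝ × Pr D) × (A × A)
  let E1 := (ℝ × ℝ) × ℝ × Pr D
  let pz : E →L[ℝ] A × A := ContinuousLinearMap.snd ℝ E1 (A × A)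
  let pe1 : E →L[ℝ] E1 := ContinuousLinearMap.fst ℝ E1 (A × A)
  let px : E →L[ℝ] ℝ × ℝ := (ContinuousLinearMap.fst ℝ (ℝ × ℝ) (ℝ × Pr D)).comp pe1
  let pT : E →L[ℝ] ℝ := (ContinuousLinearMap.fst ℝ ℝ (Pr D)).comp
    ((ContinuousLinearMap.snd ℝ (ℝ × ℝ) (ℝ × Pr D)).comp pe1)
  let pm : E →L[ℝ] Pr D := (ContinuousLinearMap.snd ℝ ℝ (Pr D)).comp
    ((ContinuousLinearMap.snd ℝ (ℝ × ℝ) (ℝ × Pr D)).comp pe1)
  let l1 : E →L[ℝ] Co D × A × A := ((ContinuousLinearMap.fst ℝ (Co D) (Co D)).comp pm).prod pz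
  let l2 : E →L[ℝ] Co D × A × A := ((ContinuousLinearMap.snd ℝ (Co D) (Co D)).comp pm).prod pz
  let z1 : E →L[ℝ] A := (ContinuousLinearMap.fst ℝ A A).comp pz
  let z2 : E →L[ℝ] A := (ContinuousLinearMap.snd ℝ A A).comp pz
  let x1 : E →L[ℝ] A := flow_constL.comp ((ContinuousLinearMap.fst ℝ ℝ ℝ).comp px)
  let x2 : E →L[ℝ] A := flow_constL.comp ((ContinuousLinearMap.snd ℝ ℝ ℝ).comp px)
  have d1 : HasFDerivAt (fun p : E => flow_primL (pe p.1.2.2.1 p.2.1 p.2.2))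
      (flow_primL.comp (P1.comp l1)) ((x, T, μ), z) := by
    have h := hP1.comp (((x, T, μ), z) : E) (l1.hasFDerivAt (x := (((x, T, μ), z) : E)))
    exact (flow_primL.hasFDerivAt).comp _ h
  have d2 : HasFDerivAt (fun p : E => flow_primL (pe p.1.2.2.2 p.2.1 p.2.2))
      (flow_primL.comp (P2.comp l2)) ((x, T, μ), z) := by
    have h := hP2.comp (((x, T, μ), z) : E) (l2.hasFDerivAt (x := (((x, T, μ), z) : E)))
    exact (flow_primL.hasFDerivAt).comp _ h
  have hT : HasFDerivAt (fun p : E => p.1.2.1) pT ((x, T, μ), z) := pT.hasFDerivAt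
  have g1 := ((z1.hasFDerivAt (x := (((x, T, μ), z) : E))).sub
    (x1.hasFDerivAt (x := (((x, T, μ), z) : E)))).sub (hT.smul d1)
  have g2 := ((z2.hasFDerivAt (x := (((x, T, μ), z) : E))).sub
    (x2.hasFDerivAt (x := (((x, T, μ), z) : E)))).sub (hT.smul d2)
  refine ⟨_, g1.prodMk g2, ?_⟩
  intro x' T' ν h
  have e1 : P1 (l1 (((x', T', ν), h) : E)) = pe ν.1 z.1 z.2 + pex μ.1 z.1 z.2 * h.1 +
      pey μ.1 z.1 z.2 * h.2 := hP1' ν.1 h
  have e2 : P2 (l2 (((x', T', ν), h) : E)) = pe ν.2 z.1 z.2 + pex μ.2 z.1 z.2 * h.1 +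
      pey μ.2 z.1 z.2 * h.2 := hP2' ν.2 h
  rw [← e1, ← e2]
  rw [ContinuousLinearMap.prod_apply, Prod.mk.injEq]
  constructor
  · change h.1 - flow_constL x'.1 - (T • flow_primL (P1 (l1 (((x', T', ν), h) : E))) +
      T' • flow_primL (pe μ.1 z.1 z.2)) = _
    abel
  · change h.2 - flow_constL x'.2 - (T • flow_primL (P2 (l2 (((x', T', ν), h) : E))) +
      T' • flow_primL (pe μ.2 z.1 z.2)) = _
    abel

/-- F2. The solution map of the integral equation near a given solution is analytic. -/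
theorem exists_sol_map {D : ℕ} (μ0 : Pr D) (T0 : ℝ) (x0 : ℝ × ℝ) (z0 : A × A)
    (h : Sol μ0 T0 x0 z0) :
    ∃ (S : (ℝ × ℝ) × ℝ × Pr D → A × A)
      (S' : (ℝ × ℝ) × ℝ × Pr D →L[ℝ] A × A),
      ContDiffAt ℝ ω S (x0, T0, μ0) ∧ HasFDerivAt S S' (x0, T0, μ0) ∧ S (x0, T0, μ0) = z0 ∧
      (∀ᶠ e in 𝓝 (x0, T0, μ0), Sol e.2.2 e.2.1 e.1 (S e)) ∧
      ∀ (x : ℝ × ℝ) (T : ℝ) (ν : Pr D),
        (S' (x, T, ν)).1 = ContinuousMap.const _ x.1 + T • prim (pe μ0.1 z0.1 z0.2) +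
          T0 • prim (pex μ0.1 z0.1 z0.2 * (S' (x, T, ν)).1 + pey μ0.1 z0.1 z0.2 * (S' (x, T, ν)).2
            + pe ν.1 z0.1 z0.2) ∧
        (S' (x, T, ν)).2 = ContinuousMap.const _ x.2 + T • prim (pe μ0.2 z0.1 z0.2) +
          T0 • prim (pex μ0.2 z0.1 z0.2 * (S' (x, T, ν)).1 + pey μ0.2 z0.1 z0.2 * (S' (x, T, ν)).2
            + pe ν.2 z0.1 z0.2) := by
  set u : ((ℝ × ℝ) × ℝ × Pr D) × (A × A) := ((x0, T0, μ0), z0) with hu
  have cdf : ContDiffAt ℝ ω (flow_G D) u := flow_contDiff_G.contDiffAt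
  have pn : (ω : ℕ∞ω) ≠ 0 := by simp
  obtain ⟨G', hG', hG''⟩ := flow_hasFDerivAt_G μ0 T0 x0 z0
  obtain ⟨L, hL⟩ := volterra_invertible T0 (pex μ0.1 z0.1 z0.2) (pey μ0.1 z0.1 z0.2)
    (pex μ0.2 z0.1 z0.2) (pey μ0.2 z0.1 z0.2)
  have hfd : fderiv ℝ (flow_G D) u = G' := hG'.fderiv
  have if₂ : (fderiv ℝ (flow_G D) u ∘L .inr ℝ ((ℝ × ℝ) × ℝ × Pr D) (A × A)).IsInvertible := by
    refine ⟨L, ContinuousLinearMap.ext fun k => ?_⟩
    rw [hfd]
    change L k = G' ((((0 : ℝ × ℝ), (0 : ℝ), (0 : Pr D)), k))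
    have hpe : ∀ z : A × A, pe (0 : Co D) z.1 z.2 = 0 := by
      intro z
      simp [pe]
    rw [hL, hG'']
    simp only [Prod.fst_zero, Prod.snd_zero, map_zero, sub_zero, zero_smul, hpe, zero_add,
      flow_primL_apply]
  have hGu : flow_G D u = 0 := (flow_G_eq_zero_iff u).2 h
  have hself : cdf.implicitFunction pn if₂ (x0, T0, μ0) = z0 :=
    cdf.implicitFunction_apply_self pn if₂
  have hcd : ContDiffAt ℝ ω (cdf.implicitFunction pn if₂) (x0, T0, μ0) :=
    cdf.contDiffAt_implicitFunction pn if₂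
  have hev := cdf.eventually_apply_implicitFunction pn if₂
  refine ⟨cdf.implicitFunction pn if₂, fderiv ℝ (cdf.implicitFunction pn if₂) (x0, T0, μ0),
    hcd, ?_, hself, ?_, ?_⟩
  · exact (hcd.differentiableAt pn).hasFDerivAt
  · filter_upwards [hev] with e he
    rw [hGu] at he
    exact (flow_G_eq_zero_iff (e, cdf.implicitFunction pn if₂ e)).1 he
  · set S := cdf.implicitFunction pn if₂ with hS
    have hSd : HasFDerivAt S (fderiv ℝ S (x0, T0, μ0)) (x0, T0, μ0) :=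
      (hcd.differentiableAt pn).hasFDerivAt
    have hid : HasFDerivAt (fun e : (ℝ × ℝ) × ℝ × Pr D => (e, S e))
        ((ContinuousLinearMap.id ℝ _).prod (fderiv ℝ S (x0, T0, μ0))) (x0, T0, μ0) :=
      (hasFDerivAt_id _).prodMk hSd
    have hG2 : HasFDerivAt (flow_G D) G' ((x0, T0, μ0), S (x0, T0, μ0)) := by
      rw [hself]; exact hG'
    have hcomp := hG2.comp (x0, T0, μ0) hid
    have hzero : HasFDerivAt (flow_G D ∘ fun e : (ℝ × ℝ) × ℝ × Pr D => (e, S e))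
        (0 : (ℝ × ℝ) × ℝ × Pr D →L[ℝ] A × A) (x0, T0, μ0) := by
      refine (hasFDerivAt_const (0 : A × A) _).congr_of_eventuallyEq ?_
      filter_upwards [hev] with e he
      rw [hGu] at he
      exact he
    have huniq := hcomp.unique hzero
    intro x T ν
    have h5 : G' (((x, T, ν), fderiv ℝ S (x0, T0, μ0) (x, T, ν))) = 0 := by
      have := congrArg (fun f => f (x, T, ν)) huniq
      simpa using this
    rw [hG'', Prod.mk_eq_zero] at h5
    obtain ⟨h6, h7⟩ := h5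
    simp only [flow_constL_apply, flow_primL_apply] at h6 h7
    have comm : ∀ a b c : A, a + b + c = b + c + a := fun a b c => by abel
    rw [sub_sub, sub_sub, sub_eq_zero, comm (pe ν.1 z0.1 z0.2), ← add_assoc] at h6
    rw [sub_sub, sub_sub, sub_eq_zero, comm (pe ν.2 z0.1 z0.2), ← add_assoc] at h7
    exact ⟨h6, h7⟩

end Pool.Agent.Lib.MP_95e7ec_an
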