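import Mathlib
import Pool.Agent.Lib.MP_95e7ec_an.Defs
import Pool.Agent.Lib.MP_95e7ec_an.Flow
import Pool.Agent.Lib.MP_95e7ec_an.Paths
import Pool.Agent.Lib.MP_95e7ec_an.Orbits

set_option autoImplicit false

open Set Filter Topology
open scoped ContDiff

namespace Pool.Agent.Lib.MP_95e7ec_an

/-! ### Iteration of a monotone map -/

theorem iterate_tendsto_fixed' {f : ℝ → ℝ} {a b x0 : ℝ}
    (hmono : StrictMonoOn f (Set.Ioo a b)) (hmem : ∀ k : ℕ, f^[k] x0 ∈ Set.Ioo a b)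
    (hcont : ContinuousOn f (Set.Icc a b)) :
    ∃ l ∈ Set.Icc a b, Tendsto (fun k : ℕ => f^[k] x0) atTop (𝓝 l) ∧ f l = l := by
  have key : ∃ l ∈ Set.Icc a b, Tendsto (fun k : ℕ => f^[k] x0) atTop (𝓝 l) := by
    rcases le_total x0 (f x0) with h | h
    · have hmon : Monotone (fun k : ℕ => f^[k] x0) := by
        apply monotone_nat_of_le_succ
        intro k
        induction k with
        | zero => simpa using h
        | succ k ih =>
          have h1 := hmono.monotoneOn (hmem k) (hmem (k + 1)) ih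
          rw [Function.iterate_succ_apply' f k, Function.iterate_succ_apply' f (k + 1)]
          exact h1
      have hbdd : BddAbove (Set.range (fun k : ℕ => f^[k] x0)) :=
        ⟨b, by rintro _ ⟨k, rfl⟩; exact (hmem k).2.le⟩
      refine ⟨_, ?_, tendsto_atTop_ciSup hmon hbdd⟩
      exact isClosed_Icc.mem_of_tendsto (tendsto_atTop_ciSup hmon hbdd)
        (Eventually.of_forall fun k => Set.Ioo_subset_Icc_self (hmem k))
    · have hmon : Antitone (fun k : ℕ => f^[k] x0) := by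
        apply antitone_nat_of_succ_le
        intro k
        induction k with
        | zero => simpa using h
        | succ k ih =>
          have h1 := hmono.monotoneOn (hmem (k + 1)) (hmem k) ih
          rw [Function.iterate_succ_apply' f k, Function.iterate_succ_apply' f (k + 1)]
          exact h1
      have hbdd : BddBelow (Set.range (fun k : ℕ => f^[k] x0)) :=
        ⟨a, by rintro _ ⟨k, rfl⟩; exact (hmem k).1.le⟩
      refine ⟨_, ?_, tendsto_atTop_ciInf hmon hbdd⟩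
      exact isClosed_Icc.mem_of_tendsto (tendsto_atTop_ciInf hmon hbdd)
        (Eventually.of_forall fun k => Set.Ioo_subset_Icc_self (hmem k))
  obtain ⟨l, hl, hlim⟩ := key
  refine ⟨l, hl, hlim, ?_⟩
  have h1 : Tendsto (fun k : ℕ => f^[k + 1] x0) atTop (𝓝 l) := (tendsto_add_atTop_iff_nat 1).2 hlim
  have h2 : Tendsto (fun k : ℕ => f (f^[k] x0)) atTop (𝓝 (f l)) := by
    have h3 : Tendsto (fun k : ℕ => f^[k] x0) atTop (𝓝[Set.Icc a b] l) :=
      tendsto_nhdsWithin_iff.2 ⟨hlim, Eventually.of_forall fun k =>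
        Set.Ioo_subset_Icc_self (hmem k)⟩
    exact (hcont l hl).tendsto.comp h3
  have h4 : (fun k : ℕ => f^[k + 1] x0) = fun k : ℕ => f (f^[k] x0) := by
    funext k; rw [Function.iterate_succ_apply']
  rw [h4] at h1
  exact tendsto_nhds_unique h2 h1

/-! ### Continuous dependence along a global solution -/

theorem continuous_dependence {D : ℕ} {μ : Pr D} {γ : ℝ → ℝ × ℝ}
    (hγ : ∀ t, HasDerivAt γ (vfc μ (γ t)) t) (t0 T : ℝ) (r : ℝ) (hr : 0 < r) :
    ∃ N : Set (ℝ × ℝ), IsOpen N ∧ γ t0 ∈ N ∧ ∀ γ' : ℝ → ℝ × ℝ,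
      (∀ t, HasDerivAt γ' (vfc μ (γ' t)) t) → γ' 0 ∈ N → ∀ s ∈ Set.Icc (0 : ℝ) 1,
        dist (γ' (T * s)) (γ (t0 + T * s)) < r := by
  have hc : Continuous γ := continuous_iff_continuousAt.2 fun t => (hγ t).continuousAt
  have hsol := Sol.of_curve μ hγ hc t0 T
  obtain ⟨S, S', hS, -, hS0, hSev, -⟩ := exists_sol_map μ T (γ t0) _ hsol
  have hScont : ContinuousAt S (γ t0, T, μ) := hS.continuousAt
  have h1 : ∀ᶠ e in 𝓝 (γ t0, T, μ), Sol e.2.2 e.2.1 e.1 (S e) ∧
      dist (S e) (pathOf γ hc t0 T) < r := by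
    refine hSev.and ?_
    have := hScont.eventually (Metric.ball_mem_nhds (S (γ t0, T, μ)) hr)
    rw [hS0] at this
    exact this
  have h2 : ∀ᶠ x in 𝓝 (γ t0), Sol μ T x (S (x, T, μ)) ∧
      dist (S (x, T, μ)) (pathOf γ hc t0 T) < r := by
    have hcont : Continuous fun x : ℝ × ℝ => (x, T, μ) := by fun_prop
    exact hcont.continuousAt.eventually h1
  obtain ⟨N, hN, hNo, hNm⟩ := eventually_nhds_iff.1 h2
  refine ⟨N, hNo, hNm, ?_⟩
  intro γ' hγ' h0 s hs
  have hc' : Continuous γ' := continuous_iff_continuousAt.2 fun t => (hγ' t).continuousAt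
  obtain ⟨h3, h4⟩ := hN _ h0
  have h5 := Sol.of_curve μ hγ' hc' 0 T
  have h6 := h3.unique h5
  rw [h6] at h4
  have h7 : dist (at' (pathOf γ' hc' 0 T) ⟨s, hs⟩) (at' (pathOf γ hc t0 T) ⟨s, hs⟩) < r := by
    rw [Prod.dist_eq] at h4 ⊢
    have h8 := max_lt_iff.1 h4
    exact max_lt (lt_of_le_of_lt (ContinuousMap.dist_apply_le_dist _) h8.1)
      (lt_of_le_of_lt (ContinuousMap.dist_apply_le_dist _) h8.2)
  simpa [at', pathOf] using h7

/-! ### The section -/

theorem nrm_ne_zero {X : ℝ × ℝ} (hX : X ≠ 0) : nrm X ≠ 0 := by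
  intro h
  apply hX
  simp only [nrm, Prod.mk_eq_zero, neg_eq_zero] at h
  exact Prod.ext h.2 h.1

theorem dot_nrm (X : ℝ × ℝ) : dot (nrm X) X = 0 := by
  simp only [dot, nrm]; ring

theorem dot_self_pos {X : ℝ × ℝ} (hX : X ≠ 0) : 0 < dot X X := by
  have h : 0 < X.1 ^ 2 + X.2 ^ 2 := by
    by_contra hcon
    apply hX
    have h1 : X.1 = 0 := by nlinarith [sq_nonneg X.1, sq_nonneg X.2]
    have h2 : X.2 = 0 := by nlinarith [sq_nonneg X.1, sq_nonneg X.2]
    exact Prod.ext h1 h2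
  simp only [dot]; nlinarith

theorem dot_sub (u v w : ℝ × ℝ) : dot (u - v) w = dot u w - dot v w := by
  simp only [dot, Prod.fst_sub, Prod.snd_sub]; ring

theorem dot_add_smul (u v w : ℝ × ℝ) (s : ℝ) : dot (u + s • v) w = dot u w + s * dot v w := by
  simp only [dot, Prod.fst_add, Prod.snd_add, Prod.smul_fst, Prod.smul_snd, smul_eq_mul]; ring

/-- points on the line `dot (z - p) X = 0` are `p + s • nrm X`. -/
theorem eq_add_smul_nrm {X : ℝ × ℝ} (hX : X ≠ 0) (p z : ℝ × ℝ) (h : dot (z - p) X = 0) :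
    z = p + (dot (z - p) (nrm X) / dot X X) • nrm X := by
  have h0 := dot_self_pos hX
  have h1 : dot X X = X.1 ^ 2 + X.2 ^ 2 := by simp only [dot]; ring
  have hne : X.1 ^ 2 + X.2 ^ 2 ≠ 0 := by rw [← h1]; exact h0.ne'
  simp only [dot, Prod.fst_sub, Prod.snd_sub] at h
  rw [h1]
  simp only [dot, nrm, Prod.fst_sub, Prod.snd_sub]
  apply Prod.ext
  · simp only [Prod.fst_add, Prod.smul_fst, smul_eq_mul]
    field_simp
    linear_combination (X.1) * h
  · simp only [Prod.snd_add, Prod.smul_snd, smul_eq_mul]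
    field_simp
    linear_combination (X.2) * h

theorem add_smul_nrm_inj {X : ℝ × ℝ} (hX : X ≠ 0) (p : ℝ × ℝ) {s s' : ℝ}
    (h : p + s • nrm X = p + s' • nrm X) : s = s' := by
  have h1 : (s - s') • nrm X = 0 := by
    rw [sub_smul, sub_eq_zero]; exact add_left_cancel h
  rcases smul_eq_zero.1 h1 with h2 | h2
  · linarith
  · exact absurd h2 (nrm_ne_zero hX)

/-! ### Sign of a function with positive derivative -/

theorem eventually_pos_right {g : ℝ → ℝ} {g' : ℝ} (hg : HasDerivAt g g' 0) (h0 : g 0 = 0)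
    (hg' : 0 < g') : ∀ᶠ u in 𝓝[>] (0 : ℝ), 0 < g u := by
  have h1 := (hasDerivAt_iff_tendsto_slope.1 hg)
  have h2 : ∀ᶠ u in 𝓝[≠] (0 : ℝ), 0 < slope g 0 u := h1.eventually (lt_mem_nhds hg')
  have h3 : ∀ᶠ u in 𝓝[>] (0 : ℝ), 0 < slope g 0 u :=
    h2.filter_mono (nhdsWithin_mono _ fun u hu => ne_of_gt hu)
  filter_upwards [h3, self_mem_nhdsWithin] with u hu hu0
  have hu0' : 0 < u := hu0
  rw [slope_def_field, h0, sub_zero, sub_zero] at hu
  exact (div_pos_iff_of_pos_right hu0').1 hu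

theorem eventually_neg_left {g : ℝ → ℝ} {g' : ℝ} (hg : HasDerivAt g g' 0) (h0 : g 0 = 0)
    (hg' : 0 < g') : ∀ᶠ u in 𝓝[>] (0 : ℝ), g (-u) < 0 := by
  have h1 : HasDerivAt (fun u => -g (-u)) g' 0 := by
    have h2 : HasDerivAt (fun u : ℝ => -u) (-1) 0 := hasDerivAt_neg 0
    have h3 : HasDerivAt g g' (-0) := by simpa using hg
    have h4 := (HasDerivAt.comp (0 : ℝ) h3 h2).fun_neg
    have h5 : g' = -(g' * -1) := by ring
    rw [h5]
    exact h4
  have h5 := eventually_pos_right h1 (by simp [h0]) hg'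
  filter_upwards [h5] with u hu
  linarith

theorem hits_section {D : ℕ} {μ : Pr D} {γ : ℝ → ℝ × ℝ}
    (hγ : ∀ t, HasDerivAt γ (vfc μ (γ t)) t) {τ : ℝ} (hτ : 0 < τ) (hper : ∀ t, γ (t + τ) = γ t)
    {p X : ℝ × ℝ} (hX : X ≠ 0) {s1 : ℝ} (h0 : γ 0 = p + s1 • nrm X)
    (htr : 0 < dot (vfc μ (γ 0)) X) {ε : ℝ} (hε : 0 < ε) (t : ℝ) :
    ∃ N : Set (ℝ × ℝ), IsOpen N ∧ γ t ∈ N ∧ ∀ γ' : ℝ → ℝ × ℝ,
      (∀ t, HasDerivAt γ' (vfc μ (γ' t)) t) → γ' 0 ∈ N →
      ∃ u s : ℝ, |s - s1| < ε ∧ γ' u = p + s • nrm X := by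
  have hc : Continuous γ := continuous_iff_continuousAt.2 fun t => (hγ t).continuousAt
  -- a time `Tq > 1` with `γ (-Tq) = γ t`
  obtain ⟨k, hk⟩ := exists_nat_gt ((t + 1) / τ)
  have hperk : ∀ (k : ℕ) (t : ℝ), γ (t - k * τ) = γ t := by
    intro k
    induction k with
    | zero => intro t; simp
    | succ k ih =>
      intro t
      have h1 := hper (t - (k + 1 : ℕ) * τ)
      have h2 : t - (k + 1 : ℕ) * τ + τ = t - k * τ := by push_cast; ring
      rw [h2, ih t] at h1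
      exact h1.symm
  set Tq : ℝ := k * τ - t with hTq
  have hTq1 : 1 < Tq := by
    have := (div_lt_iff₀ hτ).1 hk
    linarith
  have hq : γ (-Tq) = γ t := by
    have := hperk k t
    rwa [show t - k * τ = -Tq by rw [hTq]; ring] at this
  -- the function `g`
  have hdot : HasDerivAt (fun u => dot (γ u - p) X) (dot (vfc μ (γ 0)) X) 0 := by
    have h1 : HasDerivAt (fun u => (γ u).1) (vfc μ (γ 0)).1 0 := by
      have := (hγ 0).hasFDerivAt.fst.hasDerivAt
      simpa using this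
    have h2 : HasDerivAt (fun u => (γ u).2) (vfc μ (γ 0)).2 0 := by
      have := (hγ 0).hasFDerivAt.snd.hasDerivAt
      simpa using this
    exact ((h1.sub_const p.1).mul_const X.1).add ((h2.sub_const p.2).mul_const X.2)
  have hg0 : dot (γ 0 - p) X = 0 := by
    rw [h0, add_sub_cancel_left]
    have := dot_add_smul 0 (nrm X) X s1
    rw [zero_add] at this
    rw [this, dot_nrm]
    simp [dot]
  -- radius
  have hpos := dot_self_pos hX
  have hcs : ContinuousAt (fun z : ℝ × ℝ => dot (z - p) (nrm X) / dot X X) (γ 0) := by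
    have : Continuous (fun z : ℝ × ℝ => dot (z - p) (nrm X) / dot X X) := by
      unfold dot
      fun_prop
    exact this.continuousAt
  have hval : dot (γ 0 - p) (nrm X) / dot X X = s1 := by
    have h1 := eq_add_smul_nrm hX p (γ 0) hg0
    rw [h0] at h1
    have h2 := add_smul_nrm_inj hX p h1
    rw [h0]; exact h2.symm
  obtain ⟨r, hr, hball⟩ := Metric.continuousAt_iff.1 hcs ε hε
  obtain ⟨δ, hδ, hδb⟩ := Metric.continuousAt_iff.1 hc.continuousAt (r / 2) (half_pos hr)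
  -- choice of ε2
  have hev := ((eventually_pos_right hdot hg0 htr).and (eventually_neg_left hdot hg0 htr)).and
    ((Ioo_mem_nhdsGT (lt_min hδ one_pos) : Set.Ioo (0 : ℝ) (min δ 1) ∈ 𝓝[>] (0 : ℝ)))
  obtain ⟨e2, ⟨he2p, he2n⟩, he20, he2δ⟩ := hev.exists
  have he2δ' : e2 < δ := lt_of_lt_of_le he2δ (min_le_left _ _)
  have he21 : e2 < 1 := lt_of_lt_of_le he2δ (min_le_right _ _)
  have hcd : Continuous (fun z : ℝ × ℝ => dot (z - p) X) := by unfold dot; fun_prop
  obtain ⟨r1, hr1, hr1b⟩ := Metric.eventually_nhds_iff.1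
    (hcd.continuousAt.eventually (lt_mem_nhds he2p))
  obtain ⟨r2, hr2, hr2b⟩ := Metric.eventually_nhds_iff.1
    (hcd.continuousAt.eventually (gt_mem_nhds he2n))
  set r' : ℝ := min (r / 2) (min r1 r2) with hr'
  have hr'pos : 0 < r' := lt_min (half_pos hr) (lt_min hr1 hr2)
  obtain ⟨N, hNo, hNm, hN⟩ := continuous_dependence hγ (-Tq) (Tq + e2) r' hr'pos
  rw [hq] at hNm
  refine ⟨N, hNo, hNm, ?_⟩
  intro γ' hγ' hγ'0
  have hc' : Continuous γ' := continuous_iff_continuousAt.2 fun t => (hγ' t).continuousAt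
  have hTpos : 0 < Tq + e2 := by linarith
  have hclose : ∀ u ∈ Set.Icc (0 : ℝ) (Tq + e2), dist (γ' u) (γ (u - Tq)) < r' := by
    intro u hu
    have h1 := hN γ' hγ' hγ'0 (u / (Tq + e2)) ⟨div_nonneg hu.1 hTpos.le,
      (div_le_one hTpos).2 hu.2⟩
    rw [mul_div_cancel₀ _ hTpos.ne'] at h1
    rwa [show -Tq + u = u - Tq by ring] at h1
  have hle1 : r' ≤ r1 := (min_le_right _ _).trans (min_le_left _ _)
  have hle2 : r' ≤ r2 := (min_le_right _ _).trans (min_le_right _ _)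
  have hfp : 0 < dot (γ' (Tq + e2) - p) X := by
    have h1 := hclose (Tq + e2) ⟨hTpos.le, le_rfl⟩
    rw [show Tq + e2 - Tq = e2 by ring] at h1
    exact hr1b (lt_of_lt_of_le h1 hle1)
  have hfn : dot (γ' (Tq - e2) - p) X < 0 := by
    have h1 := hclose (Tq - e2) ⟨by linarith, by linarith⟩
    rw [show Tq - e2 - Tq = -e2 by ring] at h1
    exact hr2b (lt_of_lt_of_le h1 hle2)
  have hfc : ContinuousOn (fun u => dot (γ' u - p) X) (Set.Icc (Tq - e2) (Tq + e2)) :=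
    (hcd.comp hc').continuousOn
  have hivt := intermediate_value_Icc (by linarith : Tq - e2 ≤ Tq + e2) hfc
  obtain ⟨u, hu, hu0⟩ := hivt (show (0 : ℝ) ∈ Set.Icc _ _ from ⟨hfn.le, hfp.le⟩)
  refine ⟨u, dot (γ' u - p) (nrm X) / dot X X, ?_, eq_add_smul_nrm hX p _ hu0⟩
  have h1 := hclose u ⟨by linarith [hu.1], hu.2⟩
  have h2 : dist (γ (u - Tq)) (γ 0) < r / 2 := by
    apply hδb
    rw [Real.dist_eq, sub_zero, abs_lt]
    constructor
    · linarith [hu.1]
    · linarith [hu.2]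
  have h3 : dist (γ' u) (γ 0) < r := by
    calc dist (γ' u) (γ 0) ≤ dist (γ' u) (γ (u - Tq)) + dist (γ (u - Tq)) (γ 0) :=
          dist_triangle _ _ _
      _ < r / 2 + r / 2 := add_lt_add (lt_of_lt_of_le h1 (min_le_left _ _)) h2
      _ = r := by ring
  have h4 := hball h3
  rw [hval, Real.dist_eq] at h4
  exact h4

/-- A fixed point of the return map gives a closed orbit. -/
theorem RetMap.isClosedOrbit {D : ℕ} {μ : Pr D} {p X : ℝ × ℝ} {η : ℝ} {ρ τ : ℝ → ℝ}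
    {Z : ℝ → A × A} (h : RetMap μ p X η ρ τ Z) {s1 : ℝ} (hs1 : s1 ∈ Set.Ioo (-η) η)
    (hfix : ρ s1 = s1) :
    ∃ γ : ℝ → ℝ × ℝ, (∀ t, HasDerivAt γ (vfc μ (γ t)) t) ∧ (∀ t, γ (t + τ s1) = γ t) ∧
      γ 0 = p + s1 • nrm X ∧ Set.range γ = Set.range (at' (Z s1)) ∧
      IsClosedOrbit (vfc μ) (Set.range (at' (Z s1))) := by
  have hend : at' (Z s1) 1 = p + s1 • nrm X := by rw [h.endpt s1 hs1, hfix]
  obtain ⟨γ, hγ, hper, h0, -, hr⟩ := (h.sol s1 hs1).exists_curve (h.tau_pos s1 hs1) hend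
  refine ⟨γ, hγ, hper, h0, hr, γ, τ s1, h.tau_pos s1 hs1, hγ, hper, ?_, hr.symm⟩
  by_contra hcon
  push Not at hcon
  have hconst : γ = fun _ => γ 0 := funext fun t => hcon t 0
  have hd := hγ 0
  have hd2 : HasDerivAt γ 0 0 := by
    rw [hconst]; exact hasDerivAt_const _ _
  have h3 := hd.unique hd2
  have h4 := h.trans s1 hs1
  rw [← h0, h3] at h4
  simp [dot] at h4

theorem at'_zero_iff {D : ℕ} {μ : Pr D} {p X : ℝ × ℝ} {η : ℝ} {ρ τ : ℝ → ℝ}
    {Z : ℝ → A × A} (h : RetMap μ p X η ρ τ Z) {s1 : ℝ} (hs1 : s1 ∈ Set.Ioo (-η) η)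
    (hfix : ρ s1 = s1) {s' : ℝ} (hs' : s' ∈ Set.Icc (-η) η)
    (hmem : p + s' • nrm X ∈ Set.range (at' (Z s1))) : s' = s1 := by
  obtain ⟨t, ht⟩ := hmem
  by_cases ht0 : t = 0
  · rw [ht0, (h.sol s1 hs1).at_zero] at ht
    exact (add_smul_nrm_inj h.X_ne p ht).symm
  by_cases ht1 : t = 1
  · rw [ht1, h.endpt s1 hs1, hfix] at ht
    exact (add_smul_nrm_inj h.X_ne p ht).symm
  exact absurd ht (h.cross s1 hs1 t ht0 ht1 s' hs')

/-- An isolated fixed point of the return map gives a limit cycle. -/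
theorem RetMap.isLimitCycle {D : ℕ} {μ : Pr D} {p X : ℝ × ℝ} {η : ℝ} {ρ τ : ℝ → ℝ}
    {Z : ℝ → A × A} (h : RetMap μ p X η ρ τ Z) {s1 : ℝ} (hs1 : s1 ∈ Set.Ioo (-η) η)
    (hfix : ρ s1 = s1) (hiso : ∀ᶠ s in 𝓝[≠] s1, ρ s ≠ s) :
    IsLimitCycle (vfc μ) (Set.range (at' (Z s1))) := by
  obtain ⟨γ, hγ, hper, h0, hr, hclosed⟩ := h.isClosedOrbit hs1 hfix
  refine ⟨hclosed, ?_⟩
  have hopen : IsOpen (Set.Ioo (-η) η) := isOpen_Ioo
  -- the choice of ε
  have hρc : ContinuousAt ρ s1 := h.cont_rho.continuousAt (hopen.mem_nhds hs1)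
  have hev1 : ∀ᶠ s in 𝓝 s1, s ∈ Set.Ioo (-η) η := hopen.mem_nhds hs1
  have hev2 : ∀ᶠ s in 𝓝 s1, ρ s ∈ Set.Ioo (-η) η := by
    apply hρc.eventually_mem
    rw [hfix]; exact hopen.mem_nhds hs1
  have hev3 : ∀ᶠ s in 𝓝 s1, s ≠ s1 → ρ s ≠ s := eventually_nhdsWithin_iff.1 hiso
  obtain ⟨e, he, heb⟩ := Metric.eventually_nhds_iff.1 (hev1.and (hev2.and hev3))
  set ε : ℝ := e / 2 with hε
  have hεpos : 0 < ε := half_pos he
  have hJ : ∀ s ∈ Set.Icc (s1 - ε) (s1 + ε), s ∈ Set.Ioo (-η) η ∧ ρ s ∈ Set.Ioo (-η) η ∧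
      (s ≠ s1 → ρ s ≠ s) := by
    intro s hs
    apply heb
    rw [Real.dist_eq, abs_lt]
    constructor
    · linarith [hs.1]
    · linarith [hs.2]
  -- the compact set K
  let K : Set (ℝ × ℝ) := (fun s : ℝ => p + s • nrm X) '' {s | s ∈ Set.Icc (-η) η ∧ ε ≤ |s - s1|}
  have hKclosed : IsClosed K := by
    apply IsCompact.isClosed
    apply IsCompact.image
    · apply IsCompact.of_isClosed_subset (isCompact_Icc : IsCompact (Set.Icc (-η) η))
      · apply IsClosed.inter isClosed_Icc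
        exact isClosed_le continuous_const (by fun_prop : Continuous fun s : ℝ => |s - s1|)
      · intro s hs; exact hs.1
    · exact (by fun_prop : Continuous fun s : ℝ => p + s • nrm X)
  have hC1K : ∀ q ∈ Set.range (at' (Z s1)), q ∉ K := by
    rintro q hq ⟨s', ⟨hs', hs'2⟩, rfl⟩
    have := at'_zero_iff h hs1 hfix hs' hq
    rw [this, sub_self, abs_zero] at hs'2
    linarith
  have htr : 0 < dot (vfc μ (γ 0)) X := by rw [h0]; exact h.trans s1 hs1
  choose N hNo hNm hN using fun t : ℝ => hits_section hγ (h.tau_pos s1 hs1) hper h.X_ne h0 htr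
    hεpos t
  refine ⟨(⋃ t, N t) ∩ Kᶜ, (isOpen_iUnion hNo).inter hKclosed.isOpen_compl, ?_, ?_⟩
  · intro q hq
    refine ⟨?_, hC1K q hq⟩
    rw [← hr] at hq
    obtain ⟨t, rfl⟩ := hq
    exact Set.mem_iUnion.2 ⟨t, hNm t⟩
  intro C' hC' hC'U
  have hC'compact := hC'.isCompact
  -- the closed orbit `C'` meets the section near `s1`
  have hstart : ∃ s0 ∈ Set.Ioo (s1 - ε) (s1 + ε), p + s0 • nrm X ∈ C' := by
    have hne : C'.Nonempty := by
      obtain ⟨g, -, -, -, -, -, rfl⟩ := hC'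
      exact ⟨g 0, 0, rfl⟩
    obtain ⟨x, hx⟩ := hne
    obtain ⟨t, ht⟩ := Set.mem_iUnion.1 (hC'U hx).1
    obtain ⟨g, -, -, hg, -, hg0, hgr, -⟩ := hC'.exists_param hx
    obtain ⟨u, s, hs, hu⟩ := hN t g hg (by rw [hg0]; exact ht)
    refine ⟨s, ?_, ?_⟩
    · rw [abs_lt] at hs
      exact ⟨by linarith [hs.1], by linarith [hs.2]⟩
    · rw [← hu, hgr]; exact Set.mem_range_self u
  -- invariance under the return map
  have hinv : ∀ s ∈ Set.Ioo (s1 - ε) (s1 + ε), p + s • nrm X ∈ C' →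
      ρ s ∈ Set.Ioo (s1 - ε) (s1 + ε) ∧ p + ρ s • nrm X ∈ C' := by
    intro s hs hsC
    obtain ⟨hs1', hs2', -⟩ := hJ s (Set.Ioo_subset_Icc_self hs)
    have hmem : p + ρ s • nrm X ∈ C' := by
      obtain ⟨g, -, -, hg, -, hg0, hgr, -⟩ := hC'.exists_param hsC
      have hgc : Continuous g := continuous_iff_continuousAt.2 fun t => (hg t).continuousAt
      have h5 := Sol.of_curve μ hg hgc 0 (τ s)
      rw [hg0] at h5
      have h6 := (h.sol s hs1').unique h5
      rw [← h.endpt s hs1', h6, hgr]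
      exact ⟨0 + τ s * ((1 : unitInterval) : ℝ), rfl⟩
    refine ⟨?_, hmem⟩
    have hnK := (hC'U hmem).2
    by_contra hcon
    apply hnK
    refine ⟨ρ s, ⟨Set.Ioo_subset_Icc_self hs2', ?_⟩, rfl⟩
    by_contra hlt
    push Not at hlt
    rw [abs_lt] at hlt
    exact hcon ⟨by linarith [hlt.1], by linarith [hlt.2]⟩
  obtain ⟨s0, hs0, hs0C⟩ := hstart
  -- modified map which is well behaved on the whole interval
  have hsub : Set.Ioo (s1 - ε) (s1 + ε) ⊆ Set.Ioo (-η) η := fun s hs =>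
    (hJ s (Set.Ioo_subset_Icc_self hs)).1
  have hsub2 : Set.Icc (s1 - ε) (s1 + ε) ⊆ Set.Ioo (-η) η := fun s hs => (hJ s hs).1
  have hiter : ∀ k : ℕ, ρ^[k] s0 ∈ Set.Ioo (s1 - ε) (s1 + ε) ∧ p + (ρ^[k] s0) • nrm X ∈ C' := by
    intro k
    induction k with
    | zero => exact ⟨hs0, hs0C⟩
    | succ k ih =>
      rw [Function.iterate_succ_apply']
      exact hinv _ ih.1 ih.2
  obtain ⟨l, hl, hlim, hlfix⟩ := iterate_tendsto_fixed' (f := ρ) (h.mono.mono hsub)
    (fun k => (hiter k).1) (h.cont_rho.mono hsub2)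
  have hls1 : l = s1 := by
    by_contra hne
    exact (hJ l hl).2.2 hne hlfix
  have hlimC : p + s1 • nrm X ∈ C' := by
    have h7 : Tendsto (fun k : ℕ => p + (ρ^[k] s0) • nrm X) atTop (𝓝 (p + l • nrm X)) := by
      have : Continuous fun s : ℝ => p + s • nrm X := by fun_prop
      exact this.continuousAt.tendsto.comp hlim
    rw [hls1] at h7
    exact hC'compact.isClosed.mem_of_tendsto h7 (Eventually.of_forall fun k => (hiter k).2)
  have hmem1 : p + s1 • nrm X ∈ Set.range (at' (Z s1)) := by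
    rw [← hr, ← h0]; exact Set.mem_range_self 0
  exact hC'.eq_of_mem hclosed hlimC hmem1

end Pool.Agent.Lib.MP_95e7ec_an
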