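import Mathlib
import Pool.Agent.Lib.MP_95e7ec_an.Defs
import Pool.Agent.Lib.MP_95e7ec_an.IsoZero
import Pool.Agent.Lib.MP_95e7ec_an.DetPos
import Pool.Agent.Lib.MP_95e7ec_an.Cross

set_option autoImplicit false

open Set Filter Topology
open scoped ContDiff

namespace Pool.Agent.Lib.MP_95e7ec_an

/-- Evaluation of a path at time `1`. -/
noncomputable def evL : (A × A) →L[ℝ] ℝ × ℝ :=
  ((ContinuousMap.evalCLM ℝ (1 : unitInterval)).comp (ContinuousLinearMap.fst ℝ A A)).prod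
    ((ContinuousMap.evalCLM ℝ (1 : unitInterval)).comp (ContinuousLinearMap.snd ℝ A A))

theorem evL_apply (z : A × A) : evL z = at' z 1 := by
  simp [evL, at']

theorem dot_nrm_nrm (X : ℝ × ℝ) : dot (nrm X) (nrm X) = dot X X := by
  simp only [dot, nrm]; ring

/-- The linear isomorphism `(T,r) ↦ T • X - r • nrm X`. -/
noncomputable def frameEquiv (X : ℝ × ℝ) (hX : X ≠ 0) : (ℝ × ℝ) ≃L[ℝ] (ℝ × ℝ) :=
  LinearEquiv.toContinuousLinearEquiv
    { toFun := fun v => v.1 • X - v.2 • nrm X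
      map_add' := by intro v w; simp only [Prod.fst_add, Prod.snd_add, add_smul]; abel
      map_smul' := by intro c v; simp only [Prod.smul_fst, Prod.smul_snd, smul_eq_mul, mul_smul,
        RingHom.id_apply, smul_sub]
      invFun := fun w => (dot w X / dot X X, - dot w (nrm X) / dot X X)
      left_inv := by
        intro v
        have h := (dot_self_pos hX).ne'
        have h1 : dot (v.1 • X - v.2 • nrm X) X = v.1 * dot X X := by
          simp only [dot, nrm, Prod.fst_sub, Prod.snd_sub, Prod.smul_fst, Prod.smul_snd,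
            smul_eq_mul]; ring
        have h2 : dot (v.1 • X - v.2 • nrm X) (nrm X) = - v.2 * dot X X := by
          simp only [dot, nrm, Prod.fst_sub, Prod.snd_sub, Prod.smul_fst, Prod.smul_snd,
            smul_eq_mul]; ring
        simp only [h1, h2]
        apply Prod.ext
        · simp only; field_simp
        · simp only; field_simp
      right_inv := by
        intro w
        have h := (dot_self_pos hX).ne'
        have h' : X.1 ^ 2 + X.2 ^ 2 ≠ 0 := by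
          have : dot X X = X.1 ^ 2 + X.2 ^ 2 := by simp only [dot]; ring
          rwa [this] at h
        have h1 : dot X X = X.1 ^ 2 + X.2 ^ 2 := by simp only [dot]; ring
        rw [h1]
        apply Prod.ext
        · simp only [dot, nrm, Prod.fst_sub, Prod.smul_fst, smul_eq_mul]
          field_simp
          ring
        · simp only [dot, nrm, Prod.snd_sub, Prod.smul_snd, smul_eq_mul]
          field_simp
          ring }

theorem frameEquiv_apply (X : ℝ × ℝ) (hX : X ≠ 0) (v : ℝ × ℝ) :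
    frameEquiv X hX v = v.1 • X - v.2 • nrm X := rfl

/-- The velocity does not vanish along a nonconstant solution. -/
theorem vfc_ne_zero_of_curve {D : ℕ} {μ : Pr D} {γ : ℝ → ℝ × ℝ}
    (hγ : ∀ t, HasDerivAt γ (vfc μ (γ t)) t) (h0 : vfc μ (γ 0) ≠ 0) (t : ℝ) :
    vfc μ (γ t) ≠ 0 := by
  intro hz
  apply h0
  have h1 : ∀ s, HasDerivAt (fun s => γ (s + t)) (vfc μ (γ (s + t))) s := fun s => by
    have := HasDerivAt.scomp s (hγ (s + t)) ((hasDerivAt_id s).add_const t)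
    simpa [Function.comp_def] using this
  have h2 : ∀ s : ℝ, HasDerivAt (fun _ : ℝ => γ t) (vfc μ (γ t)) s := fun s => by
    rw [hz]; exact hasDerivAt_const _ _
  have h3 := curve_unique (μ := μ) h1 h2 (by simp)
  have h4 := congrFun h3 (-t)
  simp only [neg_add_cancel] at h4
  rw [h4, hz]

theorem exists_return {D : ℕ} (μ0 : Pr D) (γ : ℝ → ℝ × ℝ) (hc : Continuous γ)
    (hγ : ∀ t, HasDerivAt γ (vfc μ0 (γ t)) t) (T0 : ℝ) (hT0 : 0 < T0) (hper : γ T0 = γ 0)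
    (hfirst : ∀ t ∈ Set.Ioo 0 T0, γ t ≠ γ 0) (p X : ℝ × ℝ) (hp : p = γ 0)
    (hX : X = vfc μ0 p) (hX0 : X ≠ 0) :
    ∃ (ρ τ : ℝ × Pr D → ℝ) (Z : ℝ × Pr D → A × A) (η : ℝ) (N : Set (Pr D)),
      0 < η ∧ IsOpen N ∧ μ0 ∈ N ∧
      AnalyticOnNhd ℝ ρ (Set.Ioo (-η) η ×ˢ N) ∧
      ContinuousOn Z (Set.Ioo (-η) η ×ˢ N) ∧
      ρ (0, μ0) = 0 ∧ τ (0, μ0) = T0 ∧ Z (0, μ0) = pathOf γ hc 0 T0 ∧
      (∀ μ ∈ N, RetMap μ p X η (fun s => ρ (s, μ)) (fun s => τ (s, μ)) (fun s => Z (s, μ))) ∧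
      ∃ κ : ℝ, 0 < κ ∧ HasDerivAt (fun θ : ℝ => ρ (0, μ0 + θ • rot μ0)) κ 0 := by
  set z0 := pathOf γ hc 0 T0 with hz0
  have hsol : Sol μ0 T0 p z0 := by rw [hp]; exact Sol.of_curve μ0 hγ hc 0 T0
  obtain ⟨S, S', hS, hSd, hS0, hSev, hS'⟩ := exists_sol_map μ0 T0 p z0 hsol
  have hz0at : ∀ t : unitInterval, at' z0 t = γ (T0 * t) := by
    intro t; simp [hz0, at', pathOf]
  have hz01 : at' z0 1 = p := by rw [hz0at]; simp [hper, hp]
  have hz00 : at' z0 0 = p := by rw [hz0at]; simp [hp]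
  -- the derivative in the direction of time
  have hdT : evL (S' (0, 1, 0)) = X := by
    have h1 : HasFDerivAt (fun T : ℝ => (p, T, μ0))
        (ContinuousLinearMap.toSpanSingleton ℝ ((0 : ℝ × ℝ), (1 : ℝ), (0 : Pr D))) T0 := by
      have h2 : HasDerivAt (fun T : ℝ => (p, T, μ0)) ((0 : ℝ × ℝ), (1 : ℝ), (0 : Pr D)) T0 :=
        (hasDerivAt_const T0 p).prodMk ((hasDerivAt_id T0).prodMk (hasDerivAt_const T0 μ0))
      exact h2.hasFDerivAt
    have h3 : HasFDerivAt (fun T : ℝ => S (p, T, μ0)) _ T0 := HasFDerivAt.comp T0 hSd h1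
    have h4 := (evL.hasFDerivAt.comp T0 h3).hasDerivAt
    have h5 : HasDerivAt γ X T0 := by
      have := hγ T0
      rwa [hper, ← hp, ← hX] at this
    have h6 : (evL ∘ fun T : ℝ => S (p, T, μ0)) =ᶠ[𝓝 T0] γ := by
      have h7 : Continuous fun T : ℝ => (p, T, μ0) := by fun_prop
      filter_upwards [h7.continuousAt.eventually hSev] with T hT
      have h8 := Sol.of_curve μ0 hγ hc 0 T
      rw [← hp] at h8
      have h9 := Sol.unique hT h8
      simp only [Function.comp_apply]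
      rw [h9, evL_apply]
      simp [at', pathOf]
    have h10 := h4.unique (h5.congr_of_eventuallyEq h6)
    simpa using h10
  -- the implicit equation
  let Ψ : (ℝ × Pr D) × (ℝ × ℝ) → ℝ × ℝ := fun e =>
    evL (S (p + e.1.1 • nrm X, e.2.1, e.1.2)) - p - e.2.2 • nrm X
  let u : (ℝ × Pr D) × (ℝ × ℝ) := ((0, μ0), (T0, 0))
  let inner : (ℝ × Pr D) × (ℝ × ℝ) → (ℝ × ℝ) × ℝ × Pr D := fun e =>
    (p + e.1.1 • nrm X, e.2.1, e.1.2)
  have hinner : ContDiff ℝ ω inner := by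
    unfold inner; fun_prop
  have hinneru : inner u = (p, T0, μ0) := by simp [inner, u]
  have hSu : ContDiffAt ℝ ω S (inner u) := by rw [hinneru]; exact hS
  have hΨ : ContDiffAt ℝ ω Ψ u := by
    have h1 : ContDiffAt ℝ ω (fun e => S (inner e)) u := hSu.comp u hinner.contDiffAt
    have h2 : ContDiffAt ℝ ω (fun e => evL (S (inner e))) u := evL.contDiff.contDiffAt.comp u h1
    have h3 : ContDiffAt ℝ ω (fun e : (ℝ × Pr D) × (ℝ × ℝ) => e.2.2 • nrm X) u := by fun_prop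
    exact (h2.sub contDiffAt_const).sub h3
  have hΨu : Ψ u = 0 := by
    simp only [Ψ, u, zero_smul, add_zero, sub_zero]
    rw [hS0, evL_apply, hz01, sub_self]
  -- derivative of Ψ
  have hΨd : ∀ (s : ℝ) (ν : Pr D) (T r : ℝ), fderiv ℝ Ψ u ((s, ν), (T, r)) =
      evL (S' (s • nrm X, T, ν)) - r • nrm X := by
    intro s ν T r
    have h1 : HasFDerivAt Ψ (fderiv ℝ Ψ u) u := (hΨ.differentiableAt (by simp)).hasFDerivAt
    have hline : HasDerivAt (fun θ : ℝ => u + θ • (((s, ν), (T, r)) : (ℝ × Pr D) × (ℝ × ℝ)))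
        ((s, ν), (T, r)) 0 := by
      have := ((hasDerivAt_id (0 : ℝ)).smul_const
        (((s, ν), (T, r)) : (ℝ × Pr D) × (ℝ × ℝ))).const_add u
      simpa using this
    have h2 : HasFDerivAt Ψ (fderiv ℝ Ψ u)
        (u + (0 : ℝ) • (((s, ν), (T, r)) : (ℝ × Pr D) × (ℝ × ℝ))) := by simpa using h1
    have h3 := h2.comp_hasDerivAt (0 : ℝ) hline
    have hline2 : HasDerivAt (fun θ : ℝ => ((p + (θ * s) • nrm X, T0 + θ * T, μ0 + θ • ν) :
        (ℝ × ℝ) × ℝ × Pr D)) (s • nrm X, T, ν) 0 := by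
      have a1 : HasDerivAt (fun θ : ℝ => p + (θ * s) • nrm X) (s • nrm X) 0 := by
        have := (((hasDerivAt_id (0 : ℝ)).mul_const s).smul_const (nrm X)).const_add p
        simpa using this
      have a2 : HasDerivAt (fun θ : ℝ => T0 + θ * T) T 0 := by
        have := ((hasDerivAt_id (0 : ℝ)).mul_const T).const_add T0
        simpa using this
      have a3 : HasDerivAt (fun θ : ℝ => μ0 + θ • ν) ν 0 := by
        have := ((hasDerivAt_id (0 : ℝ)).smul_const ν).const_add μ0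
        simpa using this
      exact a1.prodMk (a2.prodMk a3)
    have h4 : HasFDerivAt S S' ((p + ((0 : ℝ) * s) • nrm X, T0 + (0 : ℝ) * T, μ0 + (0 : ℝ) • ν) :
        (ℝ × ℝ) × ℝ × Pr D) := by simpa using hSd
    have h5 := (evL.hasFDerivAt.comp_hasDerivAt (0 : ℝ) (h4.comp_hasDerivAt (0 : ℝ) hline2))
    have h6 : HasDerivAt (fun θ : ℝ => (θ * r) • nrm X) (r • nrm X) 0 := by
      have := ((hasDerivAt_id (0 : ℝ)).mul_const r).smul_const (nrm X)
      simpa using this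
    have h7 := (h5.sub_const p).sub h6
    have h8 : (Ψ ∘ fun θ : ℝ => u + θ • (((s, ν), (T, r)) : (ℝ × Pr D) × (ℝ × ℝ))) =
        fun θ : ℝ => evL (S (p + (θ * s) • nrm X, T0 + θ * T, μ0 + θ • ν)) - p -
          (θ * r) • nrm X := by
      funext θ
      simp only [Function.comp_apply, Ψ, u, Prod.fst_add, Prod.snd_add, Prod.smul_fst,
        Prod.smul_snd, smul_eq_mul, zero_add]
    rw [h8] at h3
    exact h3.unique h7
  have hinv : (fderiv ℝ Ψ u ∘L .inr ℝ (ℝ × Pr D) (ℝ × ℝ)).IsInvertible := by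
    refine ⟨frameEquiv X hX0, ?_⟩
    refine ContinuousLinearMap.ext fun v => ?_
    have h1 := hΨd 0 0 v.1 v.2
    have h2 : ((0 : ℝ) • nrm X, v.1, (0 : Pr D)) = v.1 • ((0 : ℝ × ℝ), (1 : ℝ), (0 : Pr D)) := by
      simp
    rw [h2, map_smul, map_smul, hdT] at h1
    have h3 : (fderiv ℝ Ψ u ∘L .inr ℝ (ℝ × Pr D) (ℝ × ℝ)) v =
        fderiv ℝ Ψ u (((0 : ℝ), (0 : Pr D)), (v.1, v.2)) := rfl
    rw [h3, h1]
    rfl
  have hω : (ω : ℕ∞ω) ≠ 0 := by simp
  set ψ : ℝ × Pr D → ℝ × ℝ := hΨ.implicitFunction hω hinv with hψ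
  have hψ0 : ψ (0, μ0) = (T0, 0) := hΨ.implicitFunction_apply_self hω hinv
  have hψev : ∀ᶠ e in 𝓝 ((0 : ℝ), μ0), Ψ (e, ψ e) = 0 := by
    have := hΨ.eventually_apply_implicitFunction hω hinv
    rw [hΨu] at this
    exact this
  have hψc : ContDiffAt ℝ ω ψ (0, μ0) := hΨ.contDiffAt_implicitFunction hω hinv
  -- the data
  let ρ : ℝ × Pr D → ℝ := fun e => (ψ e).2
  let τ : ℝ × Pr D → ℝ := fun e => (ψ e).1
  let Z : ℝ × Pr D → A × A := fun e => S (p + e.1 • nrm X, τ e, e.2)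
  have hρc : ContDiffAt ℝ ω ρ (0, μ0) := contDiffAt_snd.comp _ hψc
  have hτc : ContDiffAt ℝ ω τ (0, μ0) := contDiffAt_fst.comp _ hψc
  have hin : ContDiffAt ℝ ω (fun e : ℝ × Pr D => (p + e.1 • nrm X, τ e, e.2)) (0, μ0) := by
    have h1 : ContDiffAt ℝ ω (fun e : ℝ × Pr D => p + e.1 • nrm X) (0, μ0) := by fun_prop
    exact h1.prodMk (hτc.prodMk contDiffAt_snd)
  have hin0 : (fun e : ℝ × Pr D => (p + e.1 • nrm X, τ e, e.2)) (0, μ0) = (p, T0, μ0) := by
    simp only [zero_smul, add_zero, τ, hψ0]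
  have hZc : ContDiffAt ℝ ω Z (0, μ0) := by
    have h1 : ContDiffAt ℝ ω S ((fun e : ℝ × Pr D => (p + e.1 • nrm X, τ e, e.2)) (0, μ0)) := by
      rw [hin0]; exact hS
    exact ContDiffAt.comp (f := fun e : ℝ × Pr D => (p + e.1 • nrm X, τ e, e.2)) (g := S)
      ((0 : ℝ), μ0) h1 hin
  have hρ0 : ρ (0, μ0) = 0 := by simp only [ρ, hψ0]
  have hτ0 : τ (0, μ0) = T0 := by simp only [τ, hψ0]
  have hZ0 : Z (0, μ0) = z0 := by
    have : Z (0, μ0) = S ((fun e : ℝ × Pr D => (p + e.1 • nrm X, τ e, e.2)) (0, μ0)) := rfl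
    rw [this, hin0, hS0]
  -- the derivative of ρ
  have hψd : HasFDerivAt ψ (fderiv ℝ ψ (0, μ0)) (0, μ0) :=
    (hψc.differentiableAt hω).hasFDerivAt
  have hρd : ∀ (s : ℝ) (ν : Pr D), fderiv ℝ ρ (0, μ0) (s, ν) =
      (fderiv ℝ ψ (0, μ0) (s, ν)).2 := by
    intro s ν
    have h1 : HasFDerivAt ρ ((ContinuousLinearMap.snd ℝ ℝ ℝ).comp (fderiv ℝ ψ (0, μ0))) (0, μ0) :=
      hψd.snd
    rw [h1.fderiv]; rfl
  have hid : ∀ (s : ℝ) (ν : Pr D), evL (S' (s • nrm X, 0, ν)) +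
      (fderiv ℝ ψ (0, μ0) (s, ν)).1 • X = (fderiv ℝ ψ (0, μ0) (s, ν)).2 • nrm X := by
    intro s ν
    have h1 : HasFDerivAt (fun e : ℝ × Pr D => Ψ (e, ψ e))
        ((fderiv ℝ Ψ u).comp ((ContinuousLinearMap.id ℝ (ℝ × Pr D)).prod
          (fderiv ℝ ψ (0, μ0)))) (0, μ0) := by
      have h2 : HasFDerivAt Ψ (fderiv ℝ Ψ u) ((fun e : ℝ × Pr D => (e, ψ e)) (0, μ0)) := by
        simp only [hψ0]
        exact (hΨ.differentiableAt hω).hasFDerivAt
      exact h2.comp (0, μ0) ((hasFDerivAt_id _).prodMk hψd)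
    have h3 : HasFDerivAt (fun e : ℝ × Pr D => Ψ (e, ψ e)) (0 : ℝ × Pr D →L[ℝ] ℝ × ℝ) (0, μ0) :=
      (hasFDerivAt_const (0 : ℝ × ℝ) _).congr_of_eventuallyEq hψev
    have h4 := h1.unique h3
    have h5 := congrArg (fun L : ℝ × Pr D →L[ℝ] ℝ × ℝ => L (s, ν)) h4
    simp only [ContinuousLinearMap.comp_apply, ContinuousLinearMap.prod_apply,
      ContinuousLinearMap.id_apply, _root_.zero_apply] at h5
    set w := fderiv ℝ ψ (0, μ0) (s, ν) with hw
    have h6 := hΨd s ν w.1 w.2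
    rw [show (w.1, w.2) = w from rfl, h5] at h6
    have h7 : (s • nrm X, w.1, ν) = (s • nrm X, (0 : ℝ), ν) +
        w.1 • ((0 : ℝ × ℝ), (1 : ℝ), (0 : Pr D)) := by
      simp
    rw [h7, map_add, map_add, map_smul, map_smul, hdT] at h6
    exact (sub_eq_zero.1 h6.symm)
  -- velocity data
  have hvel := hsol.velocity
  set a : A × A := (pe μ0.1 z0.1 z0.2, pe μ0.2 z0.1 z0.2) with ha
  have hat : ∀ t : unitInterval, (a.1 t, a.2 t) = vfc μ0 (γ (T0 * t)) := by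
    intro t
    rw [← hz0at t]
    simp [a, vfc, at', pe, ContinuousMap.sum_apply]
  have ha1 : a.1 1 = X.1 ∧ a.2 1 = X.2 := by
    have h1 := hat 1
    simp only [Set.Icc.coe_one, mul_one, hper] at h1
    rw [← hp, ← hX] at h1
    exact ⟨congrArg Prod.fst h1, congrArg Prod.snd h1⟩
  have hX1 : pe μ0.1 p.1 p.2 = X.1 := by rw [hX]; rfl
  have hX2 : pe μ0.2 p.1 p.2 = X.2 := by rw [hX]; rfl
  -- positivity of the directional derivatives
  have hpos : ∀ (s : ℝ) (ν : Pr D), 0 ≤ s →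
      (∀ t : unitInterval, 0 ≤ a.1 t * (pe ν.2 z0.1 z0.2 : A) t - a.2 t * (pe ν.1 z0.1 z0.2 : A) t) →
      (0 < s ∨ ∀ t : unitInterval,
        0 < a.1 t * (pe ν.2 z0.1 z0.2 : A) t - a.2 t * (pe ν.1 z0.1 z0.2 : A) t) →
      0 < fderiv ℝ ρ (0, μ0) (s, ν) := by
    intro s ν hs hr hor
    have hXX := dot_self_pos hX0
    obtain ⟨hb1, hb2⟩ := hS' (s • nrm X) 0 ν
    rw [zero_smul, add_zero] at hb1 hb2
    set b := S' (s • nrm X, 0, ν) with hb
    have hdet0 : X.1 * (s • nrm X).2 - X.2 * (s • nrm X).1 = s * dot X X := by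
      simp only [nrm, dot, Prod.smul_fst, Prod.smul_snd, smul_eq_mul]; ring
    have h1 := det_pos T0 hT0 (pex μ0.1 z0.1 z0.2) (pey μ0.1 z0.1 z0.2) (pex μ0.2 z0.1 z0.2)
      (pey μ0.2 z0.1 z0.2) a b (pe ν.1 z0.1 z0.2, pe ν.2 z0.1 z0.2) X (s • nrm X)
      (by rw [← hX1]; exact hvel.1) (by rw [← hX2]; exact hvel.2) hb1 hb2
      (by rw [hdet0]; positivity) hr
      (by
        rcases hor with h | h
        · left; rw [hdet0]; positivity
        · right; exact h)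
    rw [ha1.1, ha1.2] at h1
    have h2 := hid s ν
    rw [← hb, evL_apply] at h2
    rw [hρd]
    set w := fderiv ℝ ψ (0, μ0) (s, ν) with hw
    have h3 := congrArg Prod.fst h2
    have h4 := congrArg Prod.snd h2
    simp only [at', Prod.fst_add, Prod.snd_add, Prod.smul_fst, Prod.smul_snd, smul_eq_mul, nrm]
      at h3 h4
    have h5 : X.1 * b.2 1 - X.2 * b.1 1 = w.2 * dot X X := by
      simp only [dot]
      linear_combination X.1 * h4 - X.2 * h3
    rw [h5] at h1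
    exact (pos_iff_pos_of_mul_pos h1).2 hXX
  have hds : 0 < fderiv ℝ ρ (0, μ0) (1, 0) := by
    apply hpos 1 0 zero_le_one
    · intro t; simp [pe]
    · left; exact one_pos
  have hdrot : 0 < fderiv ℝ ρ (0, μ0) (0, rot μ0) := by
    have key : ∀ t : unitInterval, 0 < a.1 t * (pe (rot μ0).2 z0.1 z0.2 : A) t -
        a.2 t * (pe (rot μ0).1 z0.1 z0.2 : A) t := by
      intro t
      have h1 : (pe (rot μ0).2 z0.1 z0.2 : A) = a.1 := rfl
      have h2 : (pe (rot μ0).1 z0.1 z0.2 : A) = -a.2 := by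
        simp [rot, pe, a, Finset.sum_neg_distrib]
      rw [h1, h2]
      have h3 : vfc μ0 (γ (T0 * t)) ≠ 0 :=
        vfc_ne_zero_of_curve hγ (by rw [← hp, ← hX]; exact hX0) _
      rw [← hat t] at h3
      have h4 := dot_self_pos h3
      simp only [dot] at h4
      simp only [ContinuousMap.neg_apply]
      linarith
    apply hpos 0 (rot μ0) le_rfl (fun t => (key t).le) (Or.inr key)
  -- the neighbourhood
  have hρana : AnalyticAt ℝ ρ (0, μ0) := hρc.analyticAt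
  have hZana : AnalyticAt ℝ Z (0, μ0) := hZc.analyticAt
  obtain ⟨ε, hε, hcross⟩ := crossing μ0 T0 hT0 p X z0 hX hX0 hz00 hz01 (by
    intro t ht0 ht1
    rw [hz0at, hp]
    apply hfirst
    have h1 : (0 : ℝ) < t := lt_of_le_of_ne t.2.1 (fun h => ht0 (Subtype.ext h.symm))
    have h2 : (t : ℝ) < 1 := lt_of_le_of_ne t.2.2 (fun h => ht1 (Subtype.ext h))
    exact ⟨by positivity, by nlinarith⟩)
  have e1 : ∀ᶠ e in 𝓝 ((0 : ℝ), μ0), AnalyticAt ℝ ρ e := hρana.eventually_analyticAt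
  have e2 : ∀ᶠ e in 𝓝 ((0 : ℝ), μ0), AnalyticAt ℝ Z e := hZana.eventually_analyticAt
  have e3 : ∀ᶠ e in 𝓝 ((0 : ℝ), μ0), 0 < τ e := by
    have := hτc.continuousAt.eventually (lt_mem_nhds (show (0 : ℝ) < τ (0, μ0) by rw [hτ0]; exact hT0))
    exact this
  have e4 : ∀ᶠ e in 𝓝 ((0 : ℝ), μ0), Sol e.2 (τ e) (p + e.1 • nrm X) (Z e) := by
    have h1 : Tendsto (fun e : ℝ × Pr D => (p + e.1 • nrm X, τ e, e.2)) (𝓝 (0, μ0))
        (𝓝 (p, T0, μ0)) := by
      have h2 : Tendsto (fun e : ℝ × Pr D => (p + e.1 • nrm X, τ e, e.2)) (𝓝 (0, μ0))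
          (𝓝 ((fun e : ℝ × Pr D => (p + e.1 • nrm X, τ e, e.2)) (0, μ0))) :=
        hin.continuousAt.tendsto
      rw [hin0] at h2
      exact h2
    exact h1.eventually hSev
  have e5 : ∀ᶠ e in 𝓝 ((0 : ℝ), μ0), dist (τ e) T0 < ε := by
    have := hτc.continuousAt.eventually (Metric.ball_mem_nhds (τ (0, μ0)) hε)
    rw [hτ0] at this
    exact this
  have e6 : ∀ᶠ e in 𝓝 ((0 : ℝ), μ0), dist (Z e) z0 < ε := by
    have := hZc.continuousAt.eventually (Metric.ball_mem_nhds (Z (0, μ0)) hε)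
    rw [hZ0] at this
    exact this
  have e7 : ∀ᶠ e in 𝓝 ((0 : ℝ), μ0), dist e.2 μ0 < ε := by
    have h1 : ContinuousAt (fun e : ℝ × Pr D => e.2) (0, μ0) := continuousAt_snd
    exact h1.eventually (Metric.ball_mem_nhds μ0 hε)
  have e8 : ∀ᶠ e in 𝓝 ((0 : ℝ), μ0), 0 < dot (vfc e.2 (p + e.1 • nrm X)) X := by
    have h1 : Continuous (fun e : ℝ × Pr D => dot (vfc e.2 (p + e.1 • nrm X)) X) := by
      unfold dot vfc pe
      fun_prop
    apply h1.continuousAt.eventually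
    apply lt_mem_nhds
    simp only [zero_smul, add_zero]
    rw [← hX]
    exact dot_self_pos hX0
  have e9 : ∀ᶠ e in 𝓝 ((0 : ℝ), μ0), 0 < fderiv ℝ ρ e (1, 0) := by
    have h1 : ContinuousAt (fun e => fderiv ℝ ρ e (1, 0)) (0, μ0) := by
      have h2 : ContinuousAt (fderiv ℝ ρ) (0, μ0) := hρana.fderiv.continuousAt
      exact h2.clm_apply continuousAt_const
    exact h1.eventually (lt_mem_nhds hds)
  have hall := ((((e1.and e2).and (e3.and e4)).and ((e5.and e6).and (e7.and e8))).and (e9.and hψev))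
  rw [nhds_prod_eq] at hall
  obtain ⟨Q1, hQ1, Q2, hQ2, hQ⟩ := Filter.eventually_prod_iff.1 hall
  obtain ⟨δ, hδ, hδQ⟩ := Metric.eventually_nhds_iff.1 hQ1
  obtain ⟨N, hNQ, hNo, hμN⟩ := eventually_nhds_iff.1 hQ2
  set η : ℝ := min (δ / 2) (ε / 2) with hη
  have hηpos : 0 < η := lt_min (half_pos hδ) (half_pos hε)
  have hηε : η < ε := lt_of_le_of_lt (min_le_right _ _) (by linarith)
  have hηδ : η < δ := lt_of_le_of_lt (min_le_left _ _) (by linarith)
  have hgood : ∀ s ∈ Set.Ioo (-η) η, ∀ μ ∈ N, _ := fun s hs μ hμ =>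
    hQ (hδQ (show dist s 0 < δ by
      rw [Real.dist_eq, sub_zero, abs_lt]; exact ⟨by linarith [hs.1], by linarith [hs.2]⟩))
      (hNQ μ hμ)
  refine ⟨ρ, τ, Z, η, N, hηpos, hNo, hμN, ?_, ?_, hρ0, hτ0, hZ0, ?_, ?_⟩
  · rintro ⟨s, μ⟩ ⟨hs, hμ⟩
    exact (hgood s hs μ hμ).1.1.1.1
  · rintro ⟨s, μ⟩ ⟨hs, hμ⟩
    exact (hgood s hs μ hμ).1.1.1.2.continuousAt.continuousWithinAt
  · intro μ hμ
    have hρs : ∀ s ∈ Set.Ioo (-η) η, HasDerivAt (fun s => ρ (s, μ)) (fderiv ℝ ρ (s, μ) (1, 0)) s := by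
      intro s hs
      have h1 : HasFDerivAt ρ (fderiv ℝ ρ (s, μ)) (s, μ) :=
        (hgood s hs μ hμ).1.1.1.1.differentiableAt.hasFDerivAt
      have h2 : HasDerivAt (fun s : ℝ => (s, μ)) ((1 : ℝ), (0 : Pr D)) s :=
        (hasDerivAt_id s).prodMk (hasDerivAt_const s μ)
      exact h1.comp_hasDerivAt s h2
    have hcρ : ContinuousOn (fun s => ρ (s, μ)) (Set.Ioo (-η) η) := fun s hs =>
      (hρs s hs).continuousAt.continuousWithinAt
    have hendpt : ∀ s ∈ Set.Ioo (-η) η, at' (Z (s, μ)) 1 = p + ρ (s, μ) • nrm X := by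
      intro s hs
      have h1 := (hgood s hs μ hμ).2.2
      have h2 : evL (Z (s, μ)) - p - ρ (s, μ) • nrm X = 0 := h1
      rw [evL_apply] at h2
      rw [sub_sub, sub_eq_zero] at h2
      exact h2
    refine ⟨hηpos, hX0, fun s hs => (hgood s hs μ hμ).1.1.2.1, fun s hs =>
      (hgood s hs μ hμ).1.1.2.2, hendpt, ?_, fun s hs => (hgood s hs μ hμ).1.2.2.2, ?_, hcρ, ?_⟩
    · intro s hs t ht0 ht1 s' hs'
      have h1 := (hgood s hs μ hμ).1.2
      have hsol' := (hgood s hs μ hμ).1.1.2.2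
      refine hcross μ (τ (s, μ)) (p + s • nrm X) (Z (s, μ)) h1.2.1 h1.1.1 h1.1.2 hsol' ?_ ?_ t
        ht0 ht1 s' ⟨by linarith [hs'.1], by linarith [hs'.2]⟩
      · exact Cross.dot_section X p s
      · rw [hendpt s hs]; exact Cross.dot_section X p _
    · apply strictMonoOn_of_deriv_pos (convex_Ioo _ _) hcρ
      intro s hs
      rw [interior_Ioo] at hs
      rw [(hρs s hs).deriv]
      exact (hgood s hs μ hμ).2.1
    · intro s hs
      have h1 : ContinuousAt Z (s, μ) := (hgood s hs μ hμ).1.1.1.2.continuousAt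
      have h2 : ContinuousAt (fun s : ℝ => (s, μ)) s := by fun_prop
      exact (ContinuousAt.comp (f := fun s : ℝ => (s, μ)) (g := Z) h1 h2).continuousWithinAt
  · refine ⟨fderiv ℝ ρ (0, μ0) (0, rot μ0), hdrot, ?_⟩
    have h1 : HasFDerivAt ρ (fderiv ℝ ρ (0, μ0)) (0, μ0 + (0 : ℝ) • rot μ0) := by
      rw [zero_smul, add_zero]; exact hρana.differentiableAt.hasFDerivAt
    have h2 : HasDerivAt (fun θ : ℝ => ((0 : ℝ), μ0 + θ • rot μ0)) ((0 : ℝ), rot μ0) 0 := by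
      have h3 : HasDerivAt (fun θ : ℝ => μ0 + θ • rot μ0) (rot μ0) 0 := by
        have := ((hasDerivAt_id (0 : ℝ)).smul_const (rot μ0)).const_add μ0
        simpa using this
      exact (hasDerivAt_const (0 : ℝ) (0 : ℝ)).prodMk h3
    exact h1.comp_hasDerivAt (0 : ℝ) h2

end Pool.Agent.Lib.MP_95e7ec_an
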