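import Mathlib
import Pool.Agent.Lib.MP_95e7ec_an.AvgDefs
import Pool.Agent.Lib.MP_95e7ec_an.Return

/-!
# The implicit function theorem for families of closed orbits of turned fields

Through a closed orbit of a polynomial field there is an analytic family of closed orbits of the
turned fields, parametrised by the position on a transversal segment.
-/

set_option autoImplicit false

open Set Filter Topology MeasureTheory
open scoped ContDiff

namespace Pool.Agent.Lib.MP_95e7ec_an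

private theorem fc_rotA_zero {D : ℕ} (μ : Pr D) : rotA μ 0 = μ := by
  simp [rotA]

private theorem fc_contDiff_rotA {D : ℕ} (μ : Pr D) : ContDiff ℝ ω (rotA μ) := by
  have h1 : ContDiff ℝ ω (fun α : ℝ => Real.cos α • μ) :=
    Real.contDiff_cos.smul contDiff_const
  have h2 : ContDiff ℝ ω (fun α : ℝ => Real.sin α • rot μ) :=
    Real.contDiff_sin.smul contDiff_const
  exact h1.add h2

private theorem fc_hasDerivAt_rotA {D : ℕ} (μ : Pr D) (α : ℝ) :
    HasDerivAt (rotA μ) (rot (rotA μ α)) α := by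
  have h1 : HasDerivAt (fun α : ℝ => Real.cos α • μ) ((-Real.sin α) • μ) α :=
    (Real.hasDerivAt_cos α).smul_const μ
  have h2 : HasDerivAt (fun α : ℝ => Real.sin α • rot μ) (Real.cos α • rot μ) α :=
    (Real.hasDerivAt_sin α).smul_const (rot μ)
  have h3 := h1.add h2
  have h4 : (-Real.sin α) • μ + Real.cos α • rot μ = rot (rotA μ α) := by
    unfold rotA rot
    refine Prod.ext ?_ ?_
    · funext i j
      simp only [Prod.fst_add, Prod.smul_fst, Prod.snd_add, Prod.smul_snd, Pi.add_apply,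
        Pi.smul_apply, Pi.neg_apply, smul_eq_mul]
      ring
    · funext i j
      simp only [Prod.fst_add, Prod.smul_fst, Prod.snd_add, Prod.smul_snd, Pi.add_apply,
        Pi.smul_apply, Pi.neg_apply, smul_eq_mul]
      ring
  rw [h4] at h3
  exact h3

private theorem fc_pe_smul {D : ℕ} {R : Type*} [CommRing R] [Algebra ℝ R] (r : ℝ) (c : Co D)
    (x y : R) : pe (r • c) x y = r • pe c x y := by
  simp only [pe, Pi.smul_apply, smul_eq_mul, mul_smul, Finset.smul_sum]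

/-- The linear isomorphism `(T,r) ↦ T • X + r • W`. -/
private noncomputable def fc_frame (X W : ℝ × ℝ) (h : det2 X W ≠ 0) : (ℝ × ℝ) ≃L[ℝ] (ℝ × ℝ) :=
  LinearEquiv.toContinuousLinearEquiv
    { toFun := fun v => v.1 • X + v.2 • W
      map_add' := by intro v w; simp only [Prod.fst_add, Prod.snd_add, add_smul]; abel
      map_smul' := by intro c v; simp only [Prod.smul_fst, Prod.smul_snd, smul_eq_mul, mul_smul,
        RingHom.id_apply, smul_add]
      invFun := fun w => (det2 w W / det2 X W, det2 X w / det2 X W)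
      left_inv := by
        intro v
        have h1 : det2 (v.1 • X + v.2 • W) W = v.1 * det2 X W := by
          simp only [det2, Prod.fst_add, Prod.snd_add, Prod.smul_fst, Prod.smul_snd,
            smul_eq_mul]; ring
        have h2 : det2 X (v.1 • X + v.2 • W) = v.2 * det2 X W := by
          simp only [det2, Prod.fst_add, Prod.snd_add, Prod.smul_fst, Prod.smul_snd,
            smul_eq_mul]; ring
        simp only [h1, h2]
        apply Prod.ext
        · simp only; field_simp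
        · simp only; field_simp
      right_inv := by
        intro w
        have h' : X.1 * W.2 - X.2 * W.1 ≠ 0 := h
        apply Prod.ext
        · simp only [det2, Prod.fst_add, Prod.smul_fst, smul_eq_mul]
          rw [div_mul_eq_mul_div, div_mul_eq_mul_div, ← add_div, div_eq_iff h']
          ring
        · simp only [det2, Prod.snd_add, Prod.smul_snd, smul_eq_mul]
          rw [div_mul_eq_mul_div, div_mul_eq_mul_div, ← add_div, div_eq_iff h']
          ring }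

private theorem fc_frame_apply (X W : ℝ × ℝ) (h : det2 X W ≠ 0) (v : ℝ × ℝ) :
    fc_frame X W h v = v.1 • X + v.2 • W := rfl

private theorem fc_prim_zero (f : A) : (prim f) 0 = 0 := by
  have : (prim f) 0 = ∫ s in (0 : ℝ)..((0 : unitInterval) : ℝ),
      Set.IccExtend (zero_le_one' ℝ) f s := rfl
  rw [this]
  simp

theorem exists_family_core {D : ℕ} (μ0 : Pr D) (C : Set (ℝ × ℝ))
    (hC : IsClosedOrbit (vfc μ0) C) :
    ∃ (p X : ℝ × ℝ) (η : ℝ) (a a' τ τ' : ℝ → ℝ) (Z Y : ℝ → A × A), 0 < η ∧ X ≠ 0 ∧ a 0 = 0 ∧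
      Set.range (at' (Z 0)) = C ∧
      (∀ s ∈ Set.Ioo (-η) η, 0 < τ s ∧ HasDerivAt a (a' s) s ∧ HasDerivAt τ (τ' s) s ∧
        HasDerivAt Z (Y s) s) ∧
      ContinuousOn a' (Set.Ioo (-η) η) ∧ ContinuousOn Y (Set.Ioo (-η) η) ∧
      (∀ s ∈ Set.Ioo (-η) η, Sol (rotA μ0 (a s)) (τ s) (p + s • nrm X) (Z s) ∧
        at' (Z s) 1 = p + s • nrm X ∧ 0 < dot (vfc (rotA μ0 (a s)) (p + s • nrm X)) X ∧
        ∀ t : unitInterval, t ≠ 0 → t ≠ 1 → ∀ s' ∈ Set.Icc (-η) η,
          at' (Z s) t ≠ p + s' • nrm X) ∧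
      (∀ s ∈ Set.Ioo (-η) η, at' (Y s) 0 = nrm X ∧ at' (Y s) 1 = nrm X ∧
        (Y s).1 = ContinuousMap.const _ (nrm X).1 +
          τ' s • prim (pe (rotA μ0 (a s)).1 (Z s).1 (Z s).2) +
          τ s • prim (pex (rotA μ0 (a s)).1 (Z s).1 (Z s).2 * (Y s).1 +
            pey (rotA μ0 (a s)).1 (Z s).1 (Z s).2 * (Y s).2 +
            a' s • pe (rot (rotA μ0 (a s))).1 (Z s).1 (Z s).2) ∧
        (Y s).2 = ContinuousMap.const _ (nrm X).2 +
          τ' s • prim (pe (rotA μ0 (a s)).2 (Z s).1 (Z s).2) +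
          τ s • prim (pex (rotA μ0 (a s)).2 (Z s).1 (Z s).2 * (Y s).1 +
            pey (rotA μ0 (a s)).2 (Z s).1 (Z s).2 * (Y s).2 +
            a' s • pe (rot (rotA μ0 (a s))).2 (Z s).1 (Z s).2)) := by
  obtain ⟨p, hpC⟩ := hC.nonempty
  have hX0' : vfc μ0 p ≠ 0 := hC.ne_zero hpC
  obtain ⟨γ, T0, hT0, hγ, hper', hγ0, hCr, hfirst'⟩ := hC.exists_param hpC
  have hc : Continuous γ := continuous_iff_continuousAt.2 fun t => (hγ t).continuousAt
  obtain ⟨X, hX⟩ : ∃ X, X = vfc μ0 p := ⟨_, rfl⟩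
  have hX0 : X ≠ 0 := by rw [hX]; exact hX0'
  have hp : p = γ 0 := hγ0.symm
  have hper : γ T0 = γ 0 := by have := hper' 0; rwa [zero_add] at this
  have hfirst : ∀ t ∈ Set.Ioo 0 T0, γ t ≠ γ 0 := by
    intro t ht; rw [← hp]; exact hfirst' t ht
  set z0 := pathOf γ hc 0 T0 with hz0
  have hsol : Sol μ0 T0 p z0 := by rw [hp]; exact Sol.of_curve μ0 hγ hc 0 T0
  obtain ⟨S, S', hS, hSd, hS0, hSev, hS'⟩ := exists_sol_map μ0 T0 p z0 hsol
  have hz0at : ∀ t : unitInterval, at' z0 t = γ (T0 * t) := by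
    intro t; simp [hz0, at', pathOf]
  have hz01 : at' z0 1 = p := by rw [hz0at]; simp [hper, hp]
  have hz00 : at' z0 0 = p := by rw [hz0at]; simp [hp]
  -- the derivative in the direction of time
  have hdT : evL (S' (0, 1, 0)) = X := by
    have h1 : HasFDerivAt (fun T : ℝ => (p, T, μ0))
        (ContinuousLinearMap.toSpanSingleton ℝ ((0 : ℝ × ℝ), (1 : ℝ), (0 : Pr D))) T0 := by
      have h2 : HasDerivAt (fun T : ℝ => (p, T, μ0)) ((0 : ℝ × ℝ), (1 : ℝ), (0 : Pr D)) T0 :=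
        (hasDerivAt_const T0 p).prodMk ((hasDerivAt_id T0).prodMk (hasDerivAt_const T0 μ0))
      exact h2.hasFDerivAt
    have h3 : HasFDerivAt (fun T : ℝ => S (p, T, μ0)) _ T0 := HasFDerivAt.comp T0 hSd h1
    have h4 := (evL.hasFDerivAt.comp T0 h3).hasDerivAt
    have h5 : HasDerivAt γ X T0 := by
      have := hγ T0
      rwa [hper, ← hp, ← hX] at this
    have h6 : (evL ∘ fun T : ℝ => S (p, T, μ0)) =ᶠ[𝓝 T0] γ := by
      have h7 : Continuous fun T : ℝ => (p, T, μ0) := by fun_prop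
      filter_upwards [h7.continuousAt.eventually hSev] with T hT
      have h8 := Sol.of_curve μ0 hγ hc 0 T
      rw [← hp] at h8
      have h9 := Sol.unique hT h8
      simp only [Function.comp_apply]
      rw [h9, evL_apply]
      simp [at', pathOf]
    have h10 := h4.unique (h5.congr_of_eventuallyEq h6)
    simpa using h10
  -- the derivative in the direction of rotation
  obtain ⟨W, hW⟩ : ∃ W, W = evL (S' (0, 0, rot μ0)) := ⟨_, rfl⟩
  have hdet : 0 < det2 X W := by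
    have hvel := hsol.velocity
    set v : A × A := (pe μ0.1 z0.1 z0.2, pe μ0.2 z0.1 z0.2) with hv
    have hat : ∀ t : unitInterval, (v.1 t, v.2 t) = vfc μ0 (γ (T0 * t)) := by
      intro t
      rw [← hz0at t]
      simp [v, vfc, at', pe, ContinuousMap.sum_apply]
    have ha1 : v.1 1 = X.1 ∧ v.2 1 = X.2 := by
      have h1 := hat 1
      simp only [Set.Icc.coe_one, mul_one, hper] at h1
      rw [← hp, ← hX] at h1
      exact ⟨congrArg Prod.fst h1, congrArg Prod.snd h1⟩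
    have hX1 : pe μ0.1 p.1 p.2 = X.1 := by rw [hX]; rfl
    have hX2 : pe μ0.2 p.1 p.2 = X.2 := by rw [hX]; rfl
    have key : ∀ t : unitInterval, 0 < v.1 t * (pe (rot μ0).2 z0.1 z0.2 : A) t -
        v.2 t * (pe (rot μ0).1 z0.1 z0.2 : A) t := by
      intro t
      have h1 : (pe (rot μ0).2 z0.1 z0.2 : A) = v.1 := rfl
      have h2 : (pe (rot μ0).1 z0.1 z0.2 : A) = -v.2 := by
        simp [rot, pe, v, Finset.sum_neg_distrib]
      rw [h1, h2]
      have h3 : vfc μ0 (γ (T0 * t)) ≠ 0 :=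
        vfc_ne_zero_of_curve hγ (by rw [← hp, ← hX]; exact hX0) _
      rw [← hat t] at h3
      have h4 := dot_self_pos h3
      simp only [dot] at h4
      simp only [ContinuousMap.neg_apply]
      linarith
    obtain ⟨hb1, hb2⟩ := hS' 0 0 (rot μ0)
    rw [zero_smul, add_zero] at hb1 hb2
    set b := S' (0, 0, rot μ0) with hb
    have h1 := det_pos T0 hT0 (pex μ0.1 z0.1 z0.2) (pey μ0.1 z0.1 z0.2) (pex μ0.2 z0.1 z0.2)
      (pey μ0.2 z0.1 z0.2) v b (pe (rot μ0).1 z0.1 z0.2, pe (rot μ0).2 z0.1 z0.2) X 0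
      (by rw [← hX1]; exact hvel.1) (by rw [← hX2]; exact hvel.2) hb1 hb2
      (by simp) (fun t => (key t).le) (Or.inr key)
    rw [ha1.1, ha1.2] at h1
    rw [hW, evL_apply]
    exact h1
  -- the implicit equation
  let Ψ : ℝ × (ℝ × ℝ) → ℝ × ℝ := fun e =>
    evL (S (p + e.1 • nrm X, e.2.1, rotA μ0 e.2.2)) - p - e.1 • nrm X
  let u : ℝ × (ℝ × ℝ) := (0, (T0, 0))
  let inner : ℝ × (ℝ × ℝ) → (ℝ × ℝ) × ℝ × Pr D := fun e =>
    (p + e.1 • nrm X, e.2.1, rotA μ0 e.2.2)
  have hinner : ContDiff ℝ ω inner := by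
    have h1 : ContDiff ℝ ω (fun e : ℝ × (ℝ × ℝ) => p + e.1 • nrm X) := by fun_prop
    have h2 : ContDiff ℝ ω (fun e : ℝ × (ℝ × ℝ) => e.2.1) := by fun_prop
    have h3 : ContDiff ℝ ω (fun e : ℝ × (ℝ × ℝ) => rotA μ0 e.2.2) :=
      (fc_contDiff_rotA μ0).comp (by fun_prop)
    exact h1.prodMk (h2.prodMk h3)
  have hinneru : inner u = (p, T0, μ0) := by simp [inner, u, fc_rotA_zero]
  have hSu : ContDiffAt ℝ ω S (inner u) := by rw [hinneru]; exact hS
  have hΨ : ContDiffAt ℝ ω Ψ u := by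
    have h1 : ContDiffAt ℝ ω (fun e => S (inner e)) u := hSu.comp u hinner.contDiffAt
    have h2 : ContDiffAt ℝ ω (fun e => evL (S (inner e))) u := evL.contDiff.contDiffAt.comp u h1
    have h3 : ContDiffAt ℝ ω (fun e : ℝ × (ℝ × ℝ) => e.1 • nrm X) u := by fun_prop
    exact (h2.sub contDiffAt_const).sub h3
  have hΨu : Ψ u = 0 := by
    simp only [Ψ, u, zero_smul, add_zero, sub_zero, fc_rotA_zero]
    rw [hS0, evL_apply, hz01, sub_self]
  -- derivative of Ψ
  have hΨd : ∀ (T r : ℝ), fderiv ℝ Ψ u (0, (T, r)) = T • X + r • W := by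
    intro T r
    have h1 : HasFDerivAt Ψ (fderiv ℝ Ψ u) u := (hΨ.differentiableAt (by simp)).hasFDerivAt
    have hline : HasDerivAt (fun θ : ℝ => u + θ • (((0 : ℝ), (T, r)) : ℝ × (ℝ × ℝ)))
        ((0 : ℝ), (T, r)) 0 := by
      have := ((hasDerivAt_id (0 : ℝ)).smul_const
        (((0 : ℝ), (T, r)) : ℝ × (ℝ × ℝ))).const_add u
      simpa using this
    have h2 : HasFDerivAt Ψ (fderiv ℝ Ψ u)
        (u + (0 : ℝ) • (((0 : ℝ), (T, r)) : ℝ × (ℝ × ℝ))) := by simpa using h1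
    have h3 := h2.comp_hasDerivAt (0 : ℝ) hline
    have hline2 : HasDerivAt (fun θ : ℝ => ((p, T0 + θ * T, rotA μ0 (θ * r)) :
        (ℝ × ℝ) × ℝ × Pr D)) ((0 : ℝ × ℝ), T, r • rot μ0) 0 := by
      have a2 : HasDerivAt (fun θ : ℝ => T0 + θ * T) T 0 := by
        have := ((hasDerivAt_id (0 : ℝ)).mul_const T).const_add T0
        simpa using this
      have a3 : HasDerivAt (fun θ : ℝ => rotA μ0 (θ * r)) (r • rot μ0) 0 := by
        have h5 : HasDerivAt (fun θ : ℝ => θ * r) r 0 := by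
          simpa using (hasDerivAt_id (0 : ℝ)).mul_const r
        have h6 : HasDerivAt (rotA μ0) (rot μ0) ((0 : ℝ) * r) := by
          have := fc_hasDerivAt_rotA μ0 ((0 : ℝ) * r)
          rwa [show rotA μ0 ((0 : ℝ) * r) = μ0 by rw [zero_mul, fc_rotA_zero]] at this
        exact h6.scomp (0 : ℝ) h5
      exact (hasDerivAt_const (0 : ℝ) p).prodMk (a2.prodMk a3)
    have h4 : HasFDerivAt S S' ((p, T0 + (0 : ℝ) * T, rotA μ0 ((0 : ℝ) * r)) :
        (ℝ × ℝ) × ℝ × Pr D) := by simpa [fc_rotA_zero] using hSd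
    have h5 := (evL.hasFDerivAt.comp_hasDerivAt (0 : ℝ) (h4.comp_hasDerivAt (0 : ℝ) hline2))
    have h7 := h5.sub_const p
    have h8 : (Ψ ∘ fun θ : ℝ => u + θ • (((0 : ℝ), (T, r)) : ℝ × (ℝ × ℝ))) =
        fun θ : ℝ => evL (S (p, T0 + θ * T, rotA μ0 (θ * r))) - p := by
      funext θ
      simp only [Function.comp_apply, Ψ, u, Prod.fst_add, Prod.snd_add, Prod.smul_fst,
        Prod.smul_snd, smul_eq_mul, zero_add, mul_zero, zero_smul, add_zero, sub_zero]
    rw [h8] at h3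
    have h9 := h3.unique h7
    rw [h9]
    have h10 : ((0 : ℝ × ℝ), T, r • rot μ0) = T • ((0 : ℝ × ℝ), (1 : ℝ), (0 : Pr D)) +
        r • ((0 : ℝ × ℝ), (0 : ℝ), rot μ0) := by
      simp
    rw [h10, map_add, map_smul, map_smul, map_add, map_smul, map_smul, hdT, hW]
  have hinv : (fderiv ℝ Ψ u ∘L .inr ℝ ℝ (ℝ × ℝ)).IsInvertible := by
    refine ⟨fc_frame X W hdet.ne', ?_⟩
    refine ContinuousLinearMap.ext fun v => ?_
    have h1 := hΨd v.1 v.2
    have h3 : (fderiv ℝ Ψ u ∘L .inr ℝ ℝ (ℝ × ℝ)) v =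
        fderiv ℝ Ψ u ((0 : ℝ), (v.1, v.2)) := rfl
    rw [h3, h1]
    rfl
  have hω : (ω : ℕ∞ω) ≠ 0 := by simp
  set ψ : ℝ → ℝ × ℝ := hΨ.implicitFunction hω hinv with hψ
  have hψ0 : ψ 0 = (T0, 0) := hΨ.implicitFunction_apply_self hω hinv
  have hψev : ∀ᶠ e in 𝓝 (0 : ℝ), Ψ (e, ψ e) = 0 := by
    have := hΨ.eventually_apply_implicitFunction hω hinv
    rw [hΨu] at this
    exact this
  have hψc : ContDiffAt ℝ ω ψ 0 := hΨ.contDiffAt_implicitFunction hω hinv
  -- the data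
  let a : ℝ → ℝ := fun e => (ψ e).2
  let τ : ℝ → ℝ := fun e => (ψ e).1
  let inn : ℝ → (ℝ × ℝ) × ℝ × Pr D := fun e => (p + e • nrm X, τ e, rotA μ0 (a e))
  let Z : ℝ → A × A := fun e => S (inn e)
  have hac : ContDiffAt ℝ ω a 0 := contDiffAt_snd.comp _ hψc
  have hτc : ContDiffAt ℝ ω τ 0 := contDiffAt_fst.comp _ hψc
  have hin : ContDiffAt ℝ ω inn 0 := by
    have h1 : ContDiffAt ℝ ω (fun e : ℝ => p + e • nrm X) 0 := by fun_prop
    have h2 : ContDiffAt ℝ ω (fun e : ℝ => rotA μ0 (a e)) 0 :=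
      (fc_contDiff_rotA μ0).contDiffAt.comp _ hac
    exact h1.prodMk (hτc.prodMk h2)
  have ha0 : a 0 = 0 := by simp only [a, hψ0]
  have hτ0 : τ 0 = T0 := by simp only [τ, hψ0]
  have hin0 : inn 0 = (p, T0, μ0) := by
    simp only [inn, zero_smul, add_zero, hτ0, ha0, fc_rotA_zero]
  have hZc : ContDiffAt ℝ ω Z 0 := by
    have h1 : ContDiffAt ℝ ω S (inn 0) := by rw [hin0]; exact hS
    exact ContDiffAt.comp (0 : ℝ) h1 hin
  have hZ0 : Z 0 = z0 := by
    have : Z 0 = S (inn 0) := rfl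
    rw [this, hin0, hS0]
  have haana : AnalyticAt ℝ a 0 := hac.analyticAt
  have hτana : AnalyticAt ℝ τ 0 := hτc.analyticAt
  have hZana : AnalyticAt ℝ Z 0 := hZc.analyticAt
  obtain ⟨ε, hε, hcross⟩ := crossing μ0 T0 hT0 p X z0 hX hX0 hz00 hz01 (by
    intro t ht0 ht1
    rw [hz0at, hp]
    apply hfirst
    have h1 : (0 : ℝ) < t := lt_of_le_of_ne t.2.1 (fun h => ht0 (Subtype.ext h.symm))
    have h2 : (t : ℝ) < 1 := lt_of_le_of_ne t.2.2 (fun h => ht1 (Subtype.ext h))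
    exact ⟨by positivity, by nlinarith⟩)
  have e1 : ∀ᶠ e in 𝓝 (0 : ℝ), AnalyticAt ℝ a e := haana.eventually_analyticAt
  have e1' : ∀ᶠ e in 𝓝 (0 : ℝ), AnalyticAt ℝ τ e := hτana.eventually_analyticAt
  have e2 : ∀ᶠ e in 𝓝 (0 : ℝ), AnalyticAt ℝ Z e := hZana.eventually_analyticAt
  have e3 : ∀ᶠ e in 𝓝 (0 : ℝ), 0 < τ e :=
    hτc.continuousAt.eventually (lt_mem_nhds (show (0 : ℝ) < τ 0 by rw [hτ0]; exact hT0))
  have e4 : ∀ᶠ e in 𝓝 (0 : ℝ), Sol (rotA μ0 (a e)) (τ e) (p + e • nrm X) (Z e) := by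
    have h2 : Tendsto inn (𝓝 0) (𝓝 (inn 0)) := hin.continuousAt.tendsto
    rw [hin0] at h2
    exact h2.eventually hSev
  have e5 : ∀ᶠ e in 𝓝 (0 : ℝ), dist (τ e) T0 < ε := by
    have := hτc.continuousAt.eventually (Metric.ball_mem_nhds (τ 0) hε)
    rw [hτ0] at this
    exact this
  have e6 : ∀ᶠ e in 𝓝 (0 : ℝ), dist (Z e) z0 < ε := by
    have := hZc.continuousAt.eventually (Metric.ball_mem_nhds (Z 0) hε)
    rw [hZ0] at this
    exact this
  have hrc : ContinuousAt (fun e : ℝ => rotA μ0 (a e)) 0 :=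
    ContinuousAt.comp (f := a) (g := rotA μ0) (fc_contDiff_rotA μ0).continuous.continuousAt
      hac.continuousAt
  have e7 : ∀ᶠ e in 𝓝 (0 : ℝ), dist (rotA μ0 (a e)) μ0 < ε := by
    have h1 := hrc.eventually (Metric.ball_mem_nhds (rotA μ0 (a 0)) hε)
    rw [ha0, fc_rotA_zero] at h1
    exact h1
  have e8 : ∀ᶠ e in 𝓝 (0 : ℝ), 0 < dot (vfc (rotA μ0 (a e)) (p + e • nrm X)) X := by
    have h1 : Continuous (fun e : ℝ × Pr D => dot (vfc e.2 (p + e.1 • nrm X)) X) := by
      unfold dot vfc pe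
      fun_prop
    have h2 : ContinuousAt (fun e : ℝ => ((e, rotA μ0 (a e)) : ℝ × Pr D)) 0 :=
      continuousAt_id.prodMk hrc
    have h3 : ContinuousAt (fun e : ℝ => dot (vfc (rotA μ0 (a e)) (p + e • nrm X)) X) 0 :=
      ContinuousAt.comp (f := fun e : ℝ => ((e, rotA μ0 (a e)) : ℝ × Pr D))
        (g := fun e : ℝ × Pr D => dot (vfc e.2 (p + e.1 • nrm X)) X) h1.continuousAt h2
    apply h3.eventually
    apply lt_mem_nhds
    simp only [zero_smul, add_zero, ha0, fc_rotA_zero]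
    rw [← hX]
    exact dot_self_pos hX0
  have hall := ((((e1.and e1').and e2).and (e3.and e4)).and ((e5.and e6).and (e7.and e8))).and hψev
  obtain ⟨δ, hδ, hδQ⟩ := Metric.eventually_nhds_iff.1 hall
  set η : ℝ := min (δ / 2) (ε / 2) with hη
  have hηpos : 0 < η := lt_min (half_pos hδ) (half_pos hε)
  have hηε : η < ε := lt_of_le_of_lt (min_le_right _ _) (by linarith)
  have hηδ : η < δ := lt_of_le_of_lt (min_le_left _ _) (by linarith)
  have hgood : ∀ s ∈ Set.Ioo (-η) η, _ := fun s hs =>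
    hδQ (show dist s 0 < δ by
      rw [Real.dist_eq, sub_zero, abs_lt]; exact ⟨by linarith [hs.1], by linarith [hs.2]⟩)
  have hderiv : ∀ s ∈ Set.Ioo (-η) η, HasDerivAt a (deriv a s) s ∧ HasDerivAt τ (deriv τ s) s ∧
      HasDerivAt Z (deriv Z s) s := fun s hs =>
    ⟨(hgood s hs).1.1.1.1.1.differentiableAt.hasDerivAt,
      (hgood s hs).1.1.1.1.2.differentiableAt.hasDerivAt,
      (hgood s hs).1.1.1.2.differentiableAt.hasDerivAt⟩
  have hendpt : ∀ s ∈ Set.Ioo (-η) η, at' (Z s) 1 = p + s • nrm X := by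
    intro s hs
    have h1 := (hgood s hs).2
    have h2 : evL (Z s) - p - s • nrm X = 0 := h1
    rw [evL_apply] at h2
    rw [sub_sub, sub_eq_zero] at h2
    exact h2
  have hnh : ∀ s ∈ Set.Ioo (-η) η, Set.Ioo (-η) η ∈ 𝓝 s := fun s hs => Ioo_mem_nhds hs.1 hs.2
  refine ⟨p, X, η, a, deriv a, τ, deriv τ, Z, deriv Z, hηpos, hX0, ha0, ?_, ?_, ?_, ?_, ?_, ?_⟩
  · -- the range
    rw [hZ0, hCr]
    apply Set.eq_of_subset_of_subset
    · rintro _ ⟨t, rfl⟩
      rw [hz0at]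
      exact ⟨_, rfl⟩
    · rintro _ ⟨t, rfl⟩
      have hperi : Function.Periodic γ T0 := hper'
      obtain ⟨t', ht', hte⟩ := hperi.exists_mem_Ico₀ hT0 t
      refine ⟨⟨t' / T0, ⟨div_nonneg ht'.1 hT0.le, (div_le_one hT0).2 ht'.2.le⟩⟩, ?_⟩
      rw [hz0at, hte]
      congr 1
      field_simp
  · intro s hs
    exact ⟨(hgood s hs).1.1.2.1, hderiv s hs⟩
  · intro s hs
    exact (hgood s hs).1.1.1.1.1.deriv.continuousAt.continuousWithinAt
  · intro s hs
    exact (hgood s hs).1.1.1.2.deriv.continuousAt.continuousWithinAt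
  · intro s hs
    refine ⟨(hgood s hs).1.1.2.2, hendpt s hs, (hgood s hs).1.2.2.2, ?_⟩
    intro t ht0 ht1 s' hs'
    have h1 := (hgood s hs).1.2
    have hsol' := (hgood s hs).1.1.2.2
    refine hcross (rotA μ0 (a s)) (τ s) (p + s • nrm X) (Z s) h1.2.1 h1.1.1 h1.1.2 hsol' ?_ ?_ t
      ht0 ht1 s' ⟨by linarith [hs'.1], by linarith [hs'.2]⟩
    · exact Cross.dot_section X p s
    · rw [hendpt s hs]; exact Cross.dot_section X p _
  · intro s hs
    obtain ⟨hda, hdτ, hdZ⟩ := hderiv s hs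
    have hsols := (hgood s hs).1.1.2.2
    obtain ⟨S1, S1', hS1c, hS1d, hS10, hS1ev, hS1'⟩ :=
      exists_sol_map (rotA μ0 (a s)) (τ s) (p + s • nrm X) (Z s) hsols
    -- derivative of the inner map
    have hdin : HasDerivAt inn (nrm X, deriv τ s, deriv a s • rot (rotA μ0 (a s))) s := by
      have b1 : HasDerivAt (fun e : ℝ => p + e • nrm X) (nrm X) s := by
        have := ((hasDerivAt_id s).smul_const (nrm X)).const_add p
        simpa using this
      have b3 : HasDerivAt (fun e : ℝ => rotA μ0 (a e)) (deriv a s • rot (rotA μ0 (a s))) s :=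
        (fc_hasDerivAt_rotA μ0 (a s)).scomp s hda
      exact b1.prodMk (hdτ.prodMk b3)
    have hcin : ContinuousAt inn s := hdin.continuousAt
    have hZeq : Z =ᶠ[𝓝 s] fun e => S1 (inn e) := by
      filter_upwards [hcin.eventually hS1ev, hnh s hs] with e he hes
      exact Sol.unique (hgood e hes).1.1.2.2 he
    have hdZ2 : HasDerivAt (fun e => S1 (inn e))
        (S1' (nrm X, deriv τ s, deriv a s • rot (rotA μ0 (a s)))) s :=
      hS1d.comp_hasDerivAt s hdin
    have hYeq : deriv Z s = S1' (nrm X, deriv τ s, deriv a s • rot (rotA μ0 (a s))) :=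
      hdZ.unique (hdZ2.congr_of_eventuallyEq hZeq)
    obtain ⟨l1, l2⟩ := hS1' (nrm X) (deriv τ s) (deriv a s • rot (rotA μ0 (a s)))
    rw [← hYeq] at l1 l2
    have hsm1 : pe (deriv a s • rot (rotA μ0 (a s))).1 (Z s).1 (Z s).2 =
        deriv a s • pe (rot (rotA μ0 (a s))).1 (Z s).1 (Z s).2 :=
      fc_pe_smul (deriv a s) (rot (rotA μ0 (a s))).1 (Z s).1 (Z s).2
    have hsm2 : pe (deriv a s • rot (rotA μ0 (a s))).2 (Z s).1 (Z s).2 =
        deriv a s • pe (rot (rotA μ0 (a s))).2 (Z s).1 (Z s).2 :=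
      fc_pe_smul (deriv a s) (rot (rotA μ0 (a s))).2 (Z s).1 (Z s).2
    rw [hsm1] at l1
    rw [hsm2] at l2
    refine ⟨?_, ?_, l1, l2⟩
    · unfold at'
      rw [l1, l2]
      refine Prod.ext ?_ ?_
      · simp [fc_prim_zero]
      · simp [fc_prim_zero]
    · have h1 : HasDerivAt (fun e => evL (Z e)) (evL (deriv Z s)) s :=
        evL.hasFDerivAt.comp_hasDerivAt s hdZ
      have h2 : HasDerivAt (fun e : ℝ => p + e • nrm X) (nrm X) s := by
        have := ((hasDerivAt_id s).smul_const (nrm X)).const_add p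
        simpa using this
      have h3 : (fun e => evL (Z e)) =ᶠ[𝓝 s] fun e : ℝ => p + e • nrm X := by
        filter_upwards [hnh s hs] with e hes
        rw [evL_apply]
        exact hendpt e hes
      have h4 := h1.unique (h2.congr_of_eventuallyEq h3)
      rwa [evL_apply] at h4

end Pool.Agent.Lib.MP_95e7ec_an
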