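import Mathlib
import Pool.Agent.Lib.MP_95e7ec_an.AvgDefs
import Pool.Agent.Lib.MP_95e7ec_an.DetPos

/-!
# Positivity of the Jacobian of a family of closed orbits (task C3)

Helper lemmas on the real functions behind paths in integral form have the prefix `jp_`.
-/

set_option autoImplicit false

open Set Filter Topology MeasureTheory

namespace Pool.Agent.Lib.MP_95e7ec_an

theorem jp_hasDerivAt {c τ' τ : ℝ} {f g h : A}
    (hf : f = ContinuousMap.const _ c + τ' • prim g + τ • prim h) {t : ℝ}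
    (ht : t ∈ Set.Ioo (0 : ℝ) 1) :
    HasDerivAt (Set.IccExtend (zero_le_one' ℝ) f)
      (τ' * Set.IccExtend (zero_le_one' ℝ) g t + τ * Set.IccExtend (zero_le_one' ℝ) h t) t := by
  have hp : ∀ g : A, HasDerivAt (fun b : ℝ => ∫ s in (0 : ℝ)..b,
      Set.IccExtend (zero_le_one' ℝ) g s) (Set.IccExtend (zero_le_one' ℝ) g t) t := by
    intro g
    have hg : Continuous (Set.IccExtend (zero_le_one' ℝ) g) := g.continuous.Icc_extend'
    exact intervalIntegral.integral_hasDerivAt_right (hg.intervalIntegrable 0 t)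
      (hg.stronglyMeasurableAtFilter _ _) hg.continuousAt
  have h1 := (((hp g).const_mul τ').add ((hp h).const_mul τ)).const_add c
  refine h1.congr_of_eventuallyEq ?_
  filter_upwards [Icc_mem_nhds ht.1 ht.2] with s hs
  rw [Set.IccExtend_of_mem _ _ hs, hf]
  simp only [ContinuousMap.add_apply, ContinuousMap.const_apply, ContinuousMap.smul_apply,
    smul_eq_mul, Pi.add_apply]
  have : ∀ g : A, (prim g) ⟨s, hs⟩ = ∫ s in (0 : ℝ)..s, Set.IccExtend (zero_le_one' ℝ) g s :=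
    fun _ => rfl
  rw [this, this]
  ring

theorem jp_hasDerivAt' {c τ : ℝ} {f h : A}
    (hf : f = ContinuousMap.const _ c + τ • prim h) {t : ℝ}
    (ht : t ∈ Set.Ioo (0 : ℝ) 1) :
    HasDerivAt (Set.IccExtend (zero_le_one' ℝ) f)
      (τ * Set.IccExtend (zero_le_one' ℝ) h t) t := by
  have := jp_hasDerivAt (c := c) (τ' := 0) (τ := τ) (f := f) (g := 0) (h := h)
    (by rw [hf, zero_smul, add_zero]) ht
  simpa using this

theorem jp_pth_continuous (z : A × A) : Continuous (pth z) :=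
  (z.1.continuous.Icc_extend').prodMk (z.2.continuous.Icc_extend')

theorem jp_pth_proj (z : A × A) (t : ℝ) :
    pth z t = at' z (Set.projIcc 0 1 (zero_le_one' ℝ) t) := rfl

theorem jp_pth_coe (z : A × A) (t : unitInterval) : pth z (t : ℝ) = at' z t := by
  rw [jp_pth_proj, Set.projIcc_val]

theorem jp_pe_ext {D : ℕ} (c : Co D) (z : A × A) (t : ℝ) :
    Set.IccExtend (zero_le_one' ℝ) ⇑(pe c z.1 z.2 : A) t = pe c (pth z t).1 (pth z t).2 :=
  pe_apply_dp c z.1 z.2 _

theorem jp_pe_continuous {D : ℕ} (c : Co D) : Continuous (fun z : ℝ × ℝ => pe c z.1 z.2) := by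
  unfold pe; fun_prop

theorem jp_pex_continuous {D : ℕ} (c : Co D) : Continuous (fun z : ℝ × ℝ => pex c z.1 z.2) := by
  unfold pex; fun_prop

theorem jp_pey_continuous {D : ℕ} (c : Co D) : Continuous (fun z : ℝ × ℝ => pey c z.1 z.2) := by
  unfold pey; fun_prop

/-- the velocity along a solution -/
theorem jp_vel1 {D : ℕ} {μ : Pr D} {τ : ℝ} {x : ℝ × ℝ} {z : A × A} (hz : Sol μ τ x z) {t : ℝ}
    (ht : t ∈ Set.Ioo (0 : ℝ) 1) :
    HasDerivAt (fun s => pe μ.1 (pth z s).1 (pth z s).2)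
      (τ * (pex μ.1 (pth z t).1 (pth z t).2 * pe μ.1 (pth z t).1 (pth z t).2 +
        pey μ.1 (pth z t).1 (pth z t).2 * pe μ.2 (pth z t).1 (pth z t).2)) t := by
  have h := jp_hasDerivAt' hz.velocity.1 ht
  have e1 : Set.IccExtend (zero_le_one' ℝ) ⇑(pe μ.1 z.1 z.2 : A) =
      fun s => pe μ.1 (pth z s).1 (pth z s).2 := funext fun s => jp_pe_ext _ _ _
  rw [e1] at h
  refine h.congr_deriv ?_
  congr 1
  change (pex μ.1 z.1 z.2 * pe μ.1 z.1 z.2 + pey μ.1 z.1 z.2 * pe μ.2 z.1 z.2)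
    (Set.projIcc 0 1 (zero_le_one' ℝ) t) = _
  rw [ContinuousMap.add_apply, ContinuousMap.mul_apply, ContinuousMap.mul_apply, pex_apply_dp,
    pey_apply_dp, pe_apply_dp, pe_apply_dp]
  rfl

theorem jp_vel2 {D : ℕ} {μ : Pr D} {τ : ℝ} {x : ℝ × ℝ} {z : A × A} (hz : Sol μ τ x z) {t : ℝ}
    (ht : t ∈ Set.Ioo (0 : ℝ) 1) :
    HasDerivAt (fun s => pe μ.2 (pth z s).1 (pth z s).2)
      (τ * (pex μ.2 (pth z t).1 (pth z t).2 * pe μ.1 (pth z t).1 (pth z t).2 +
        pey μ.2 (pth z t).1 (pth z t).2 * pe μ.2 (pth z t).1 (pth z t).2)) t := by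
  have h := jp_hasDerivAt' hz.velocity.2 ht
  have e1 : Set.IccExtend (zero_le_one' ℝ) ⇑(pe μ.2 z.1 z.2 : A) =
      fun s => pe μ.2 (pth z s).1 (pth z s).2 := funext fun s => jp_pe_ext _ _ _
  rw [e1] at h
  refine h.congr_deriv ?_
  congr 1
  change (pex μ.2 z.1 z.2 * pe μ.1 z.1 z.2 + pey μ.2 z.1 z.2 * pe μ.2 z.1 z.2)
    (Set.projIcc 0 1 (zero_le_one' ℝ) t) = _
  rw [ContinuousMap.add_apply, ContinuousMap.mul_apply, ContinuousMap.mul_apply, pex_apply_dp,
    pey_apply_dp, pe_apply_dp, pe_apply_dp]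
  rfl

/-- one component of the linearised equation -/
theorem jp_lin {D : ℕ} {c r0 b : Co D} {τ τ' a' y0 : ℝ} {z y : A × A} {w : A}
    (l : w = ContinuousMap.const _ y0 + τ' • prim (pe c z.1 z.2) +
      τ • prim (pex b z.1 z.2 * y.1 + pey b z.1 z.2 * y.2 + a' • pe r0 z.1 z.2)) {t : ℝ}
    (ht : t ∈ Set.Ioo (0 : ℝ) 1) :
    HasDerivAt (Set.IccExtend (zero_le_one' ℝ) w)
      (τ' * pe c (pth z t).1 (pth z t).2 +
        τ * (pex b (pth z t).1 (pth z t).2 * (pth y t).1 +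
          pey b (pth z t).1 (pth z t).2 * (pth y t).2 +
          a' * pe r0 (pth z t).1 (pth z t).2)) t := by
  have h := jp_hasDerivAt l ht
  refine h.congr_deriv ?_
  rw [jp_pe_ext]
  congr 2
  change (pex b z.1 z.2 * y.1 + pey b z.1 z.2 * y.2 + a' • pe r0 z.1 z.2)
    (Set.projIcc 0 1 (zero_le_one' ℝ) t) = _
  rw [ContinuousMap.add_apply, ContinuousMap.add_apply, ContinuousMap.mul_apply,
    ContinuousMap.mul_apply, ContinuousMap.smul_apply, pex_apply_dp,
    pey_apply_dp, pe_apply_dp, smul_eq_mul]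
  rfl

theorem jp_rot1 {D : ℕ} (μ : Pr D) (x y : ℝ) : pe (rot μ).1 x y = -pe μ.2 x y := by
  simp [pe, rot]

theorem jp_rot2 {D : ℕ} (μ : Pr D) (x y : ℝ) : pe (rot μ).2 x y = pe μ.1 x y := rfl

/-- the derivative of the determinant `D = det(V,y)`: `D' = τ (div) D + τ a' |V|²` -/
theorem jp_det {D : ℕ} {μ : Pr D} {τ τ' a' : ℝ} {x y0 : ℝ × ℝ} {z y : A × A}
    (hz : Sol μ τ x z)
    (l1 : y.1 = ContinuousMap.const _ y0.1 + τ' • prim (pe μ.1 z.1 z.2) +
      τ • prim (pex μ.1 z.1 z.2 * y.1 + pey μ.1 z.1 z.2 * y.2 + a' • pe (rot μ).1 z.1 z.2))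
    (l2 : y.2 = ContinuousMap.const _ y0.2 + τ' • prim (pe μ.2 z.1 z.2) +
      τ • prim (pex μ.2 z.1 z.2 * y.1 + pey μ.2 z.1 z.2 * y.2 + a' • pe (rot μ).2 z.1 z.2))
    {t : ℝ} (ht : t ∈ Set.Ioo (0 : ℝ) 1) :
    HasDerivAt (fun s => det2 (vfc μ (pth z s)) (pth y s))
      (τ * (pex μ.1 (pth z t).1 (pth z t).2 + pey μ.2 (pth z t).1 (pth z t).2) *
        det2 (vfc μ (pth z t)) (pth y t) +
        τ * a' * ((vfc μ (pth z t)).1 ^ 2 + (vfc μ (pth z t)).2 ^ 2)) t := by
  have d1 := jp_vel1 hz ht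
  have d2 := jp_vel2 hz ht
  have d3 := jp_lin l1 ht
  have d4 := jp_lin l2 ht
  have d := (d1.mul d4).sub (d2.mul d3)
  refine d.congr_deriv ?_
  simp only [det2, vfc, jp_rot1, jp_rot2]
  simp only [pth]
  ring

/-- The Jacobian is positive: `D = det(V,Y)`, `D(0) = D(1) > 0`, `D' = τ (div) D + τ a' |V|²`. -/
theorem jac_pos_of {D : ℕ} (μ : Pr D) (τ τ' a' : ℝ) (hτ : 0 < τ) (x y0 : ℝ × ℝ) (z y : A × A)
    (hz : Sol μ τ x z) (hz1 : at' z 1 = x) (hy0 : at' y 0 = y0) (hy1 : at' y 1 = y0)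
    (hne : ∀ t, vfc μ (at' z t) ≠ 0) (h0 : 0 < det2 (vfc μ x) y0)
    (l1 : y.1 = ContinuousMap.const _ y0.1 + τ' • prim (pe μ.1 z.1 z.2) +
      τ • prim (pex μ.1 z.1 z.2 * y.1 + pey μ.1 z.1 z.2 * y.2 + a' • pe (rot μ).1 z.1 z.2))
    (l2 : y.2 = ContinuousMap.const _ y0.2 + τ' • prim (pe μ.2 z.1 z.2) +
      τ • prim (pex μ.2 z.1 z.2 * y.1 + pey μ.2 z.1 z.2 * y.2 + a' • pe (rot μ).2 z.1 z.2))
    (t : unitInterval) : 0 < det2 (vfc μ (at' z t)) (at' y t) := by
  have hz0 : at' z 0 = x := by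
    obtain ⟨h1, h2⟩ := hz
    have e : ∀ g : A, (prim g) 0 = 0 := fun g => by
      change ∫ s in (0 : ℝ)..((0 : unitInterval) : ℝ), Set.IccExtend (zero_le_one' ℝ) g s = 0
      simp
    ext
    · change z.1 0 = x.1
      rw [h1]
      simp [e]
    · change z.2 0 = x.2
      rw [h2]
      simp [e]
  set tr : ℝ → ℝ := fun s => τ * (pex μ.1 (pth z s).1 (pth z s).2 +
    pey μ.2 (pth z s).1 (pth z s).2) with htr
  have hpc := jp_pth_continuous z
  have hpyc := jp_pth_continuous y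
  have htrc : Continuous tr := by
    have h1 := (jp_pex_continuous μ.1).comp hpc
    have h2 := (jp_pey_continuous μ.2).comp hpc
    exact continuous_const.mul (h1.add h2)
  have hw : ∀ s, HasDerivAt (fun s => ∫ r in (0 : ℝ)..s, tr r) (tr s) s := fun s =>
    intervalIntegral.integral_hasDerivAt_right (htrc.intervalIntegrable 0 s)
      (htrc.stronglyMeasurableAtFilter _ _) htrc.continuousAt
  set E : ℝ → ℝ := fun s => Real.exp (-∫ r in (0 : ℝ)..s, tr r) *
    det2 (vfc μ (pth z s)) (pth y s) with hE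
  have hEd : ∀ s ∈ Set.Ioo (0 : ℝ) 1, HasDerivAt E (Real.exp (-∫ r in (0 : ℝ)..s, tr r) *
      (τ * a' * ((vfc μ (pth z s)).1 ^ 2 + (vfc μ (pth z s)).2 ^ 2))) s := by
    intro s hs
    have d := ((hw s).neg.exp).mul (jp_det hz l1 l2 hs)
    refine d.congr_deriv ?_
    simp only [htr, Pi.neg_apply]
    ring
  have hEc : ContinuousOn E (Set.Icc 0 1) := by
    apply Continuous.continuousOn
    have h1 : Continuous fun s => ∫ r in (0 : ℝ)..s, tr r :=
      continuous_iff_continuousAt.2 fun s => (hw s).continuousAt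
    have h2 := (jp_pe_continuous μ.1).comp hpc
    have h3 := (jp_pe_continuous μ.2).comp hpc
    exact (Real.continuous_exp.comp h1.neg).mul
      ((h2.mul (continuous_snd.comp hpyc)).sub (h3.mul (continuous_fst.comp hpyc)))
  have hE0 : 0 < E 0 := by
    have e1 : pth z 0 = x := by
      rw [← hz0]; exact jp_pth_coe z 0
    have e2 : pth y 0 = y0 := by
      rw [← hy0]; exact jp_pth_coe y 0
    simp only [hE]
    rw [e1, e2]
    exact mul_pos (Real.exp_pos _) h0
  have hE1 : 0 < E 1 := by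
    have e1 : pth z 1 = x := by
      rw [← hz1]; exact jp_pth_coe z 1
    have e2 : pth y 1 = y0 := by
      rw [← hy1]; exact jp_pth_coe y 1
    simp only [hE]
    rw [e1, e2]
    exact mul_pos (Real.exp_pos _) h0
  have hEt : 0 < E t := by
    rcases le_or_gt 0 a' with ha | ha
    · have hmono : MonotoneOn E (Set.Icc 0 1) := by
        refine monotoneOn_of_deriv_nonneg (convex_Icc 0 1) hEc ?_ ?_
        · intro s hs
          rw [interior_Icc] at hs
          exact (hEd s hs).differentiableAt.differentiableWithinAt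
        · intro s hs
          rw [interior_Icc] at hs
          rw [(hEd s hs).deriv]
          positivity
      exact lt_of_lt_of_le hE0 (hmono ⟨le_rfl, zero_le_one⟩ t.2 t.2.1)
    · have hanti : AntitoneOn E (Set.Icc 0 1) := by
        refine antitoneOn_of_deriv_nonpos (convex_Icc 0 1) hEc ?_ ?_
        · intro s hs
          rw [interior_Icc] at hs
          exact (hEd s hs).differentiableAt.differentiableWithinAt
        · intro s hs
          rw [interior_Icc] at hs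
          rw [(hEd s hs).deriv]
          apply mul_nonpos_of_nonneg_of_nonpos (Real.exp_pos _).le
          apply mul_nonpos_of_nonpos_of_nonneg _ (by positivity)
          nlinarith
      exact lt_of_lt_of_le hE1 (hanti t.2 ⟨zero_le_one, le_rfl⟩ t.2.2)
  simp only [hE] at hEt
  rw [jp_pth_coe, jp_pth_coe] at hEt
  exact (pos_iff_pos_of_mul_pos hEt).1 (Real.exp_pos _)

end Pool.Agent.Lib.MP_95e7ec_an
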