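import Mathlib
import Pool.Agent.Lib.MP_95e7ec_an.Defs
import Pool.Agent.Lib.MP_95e7ec_an.IsoZero
import Pool.Agent.Lib.MP_95e7ec_an.Return

set_option autoImplicit false

open Set Filter Topology
open scoped ContDiff

namespace Pool.Agent.Lib.MP_95e7ec_an

theorem at'_dist_le (z z' : A × A) (t : unitInterval) : dist (at' z t) (at' z' t) ≤ dist z z' := by
  rw [Prod.dist_eq, Prod.dist_eq]
  exact max_le_max (ContinuousMap.dist_apply_le_dist _) (ContinuousMap.dist_apply_le_dist _)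

theorem at'_continuous (z : A × A) : Continuous (at' z) := by
  unfold at'; fun_prop

/-- The set of paths with values in an open set is open. -/
theorem eventually_range_subset {z0 : A × A} {U : Set (ℝ × ℝ)} (hU : IsOpen U)
    (h : Set.range (at' z0) ⊆ U) : ∀ᶠ z in 𝓝 z0, Set.range (at' z) ⊆ U := by
  have hK : IsCompact (Set.range (at' z0)) := isCompact_range (at'_continuous z0)
  obtain ⟨δ, hδ, hsub⟩ := hK.exists_thickening_subset_open hU h
  filter_upwards [Metric.ball_mem_nhds z0 hδ] with z hz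
  rintro _ ⟨t, rfl⟩
  apply hsub
  rw [Metric.mem_thickening_iff]
  exact ⟨at' z0 t, Set.mem_range_self t, lt_of_le_of_lt (at'_dist_le z z0 t) hz⟩

/-- A sign change of `ρ(s) - s` yields a limit cycle. -/
theorem exists_limitCycle_of_sign {D : ℕ} {μ : Pr D} {p X : ℝ × ℝ} {η : ℝ} {ρ τ : ℝ → ℝ}
    {Z : ℝ → A × A} (h : RetMap μ p X η ρ τ Z) (hana : AnalyticOnNhd ℝ ρ (Set.Ioo (-η) η))
    {a b : ℝ} (ha : a ∈ Set.Ioo (-η) η) (hb : b ∈ Set.Ioo (-η) η) (hab : a < b)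
    (hsign : (ρ a - a) * (ρ b - b) < 0) :
    ∃ s1 ∈ Set.Ioo a b, IsLimitCycle (vfc μ) (Set.range (at' (Z s1))) ∧
      p + s1 • nrm X ∈ Set.range (at' (Z s1)) ∧
      ∀ s' ∈ Set.Icc (-η) η, p + s' • nrm X ∈ Set.range (at' (Z s1)) → s' = s1 := by
  have hsub : Set.Icc a b ⊆ Set.Ioo (-η) η := fun s hs => ⟨by linarith [ha.1, hs.1],
    by linarith [hb.2, hs.2]⟩
  have hcont : ContinuousOn (fun s => ρ s - s) (Set.Icc a b) :=
    (h.cont_rho.mono hsub).sub continuousOn_id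
  have hzero : ∃ s1 ∈ Set.Icc a b, ρ s1 - s1 = 0 := by
    rcases mul_neg_iff.1 hsign with ⟨h1, h2⟩ | ⟨h1, h2⟩
    · have := intermediate_value_Icc' hab.le hcont
      obtain ⟨s, hs, hs0⟩ := this (show (0 : ℝ) ∈ Set.Icc _ _ from ⟨h2.le, h1.le⟩)
      exact ⟨s, hs, hs0⟩
    · have := intermediate_value_Icc hab.le hcont
      obtain ⟨s, hs, hs0⟩ := this (show (0 : ℝ) ∈ Set.Icc _ _ from ⟨h1.le, h2.le⟩)
      exact ⟨s, hs, hs0⟩
  obtain ⟨s1, hs1, hs10⟩ := hzero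
  have hne_a : ρ a - a ≠ 0 := by intro h0; rw [h0, zero_mul] at hsign; exact lt_irrefl _ hsign
  have hne_b : ρ b - b ≠ 0 := by intro h0; rw [h0, mul_zero] at hsign; exact lt_irrefl _ hsign
  have hs1' : s1 ∈ Set.Ioo a b := by
    refine ⟨lt_of_le_of_ne hs1.1 ?_, lt_of_le_of_ne hs1.2 ?_⟩
    · rintro rfl; exact hne_a hs10
    · rintro rfl; exact hne_b hs10
  have hfix : ρ s1 = s1 := by linarith
  have hs1η := hsub hs1
  have hiso : ∀ᶠ s in 𝓝[≠] s1, ρ s ≠ s := by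
    by_contra hcon
    have hfreq : ∃ᶠ s in 𝓝[≠] s1, ρ s - s = 0 := by
      rw [Filter.not_eventually] at hcon
      refine hcon.mono fun s hs => ?_
      push Not at hs
      linarith
    have hana2 : AnalyticOnNhd ℝ (fun s => ρ s - s) (Set.Ioo (-η) η) := fun s hs =>
      (hana s hs).sub analyticAt_id
    have := hana2.eqOn_zero_of_preconnected_of_frequently_eq_zero
      (convex_Ioo (-η) η).isPreconnected hs1η hfreq
    exact hne_a (this ha)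
  refine ⟨s1, hs1', h.isLimitCycle hs1η hfix hiso, ?_, fun s' hs' hm =>
    at'_zero_iff h hs1η hfix hs' hm⟩
  exact ⟨0, (h.sol s1 hs1η).at_zero⟩

/-- **Local persistence.** A limit cycle either persists under every small perturbation of the
vector field, or it splits into two persistent limit cycles on one side of the rotated family. -/
theorem local_persist {D : ℕ} (μ0 : Pr D) (C U : Set (ℝ × ℝ)) (hC : IsLimitCycle (vfc μ0) C)
    (hU : IsOpen U) (hCU : C ⊆ U) :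
    (∀ᶠ μ in 𝓝 μ0, ∃ C1, IsLimitCycle (vfc μ) C1 ∧ C1 ⊆ U) ∨
    (∀ᶠ θ in 𝓝[>] (0 : ℝ), ∀ᶠ μ in 𝓝 (μ0 + θ • rot μ0), ∃ C1 C2, C1 ≠ C2 ∧
      IsLimitCycle (vfc μ) C1 ∧ C1 ⊆ U ∧ IsLimitCycle (vfc μ) C2 ∧ C2 ⊆ U) ∨
    (∀ᶠ θ in 𝓝[>] (0 : ℝ), ∀ᶠ μ in 𝓝 (μ0 - θ • rot μ0), ∃ C1 C2, C1 ≠ C2 ∧
      IsLimitCycle (vfc μ) C1 ∧ C1 ⊆ U ∧ IsLimitCycle (vfc μ) C2 ∧ C2 ⊆ U) := by
  obtain ⟨hclosed, U0, hU0, hCU0, hiso0⟩ := hC
  have hne : C.Nonempty := by
    obtain ⟨g, -, -, -, -, -, rfl⟩ := hclosed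
    exact ⟨g 0, 0, rfl⟩
  obtain ⟨p, hp⟩ := hne
  obtain ⟨γ, T0, hT0, hγ, hper, h0, hCr, hfirst⟩ := hclosed.exists_param hp
  have hc : Continuous γ := continuous_iff_continuousAt.2 fun t => (hγ t).continuousAt
  have hX0 : vfc μ0 p ≠ 0 := hclosed.ne_zero hp
  obtain ⟨ρ, τ, Z, η, N, hη, hNo, hμN, hana, hZc, hρ0, -, hZ0, hret, κ, hκ, hκd⟩ :=
    exists_return μ0 γ hc hγ T0 hT0 (by have := hper 0; rwa [zero_add] at this)
      (by rw [h0]; exact hfirst) p (vfc μ0 p) h0.symm rfl hX0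
  set X := vfc μ0 p with hX
  have hopen : IsOpen (Set.Ioo (-η) η ×ˢ N) := isOpen_Ioo.prod hNo
  have h0mem : ((0 : ℝ), μ0) ∈ Set.Ioo (-η) η ×ˢ N := ⟨⟨by linarith, hη⟩, hμN⟩
  have hZrange : Set.range (at' (Z (0, μ0))) ⊆ C := by
    rw [hZ0, hCr]
    rintro _ ⟨t, rfl⟩
    exact ⟨0 + T0 * t, rfl⟩
  have hZcont : ContinuousAt Z (0, μ0) := hZc.continuousAt (hopen.mem_nhds h0mem)
  -- isolated zero at `μ0`
  have hiso : ∀ᶠ s in 𝓝[≠] (0 : ℝ), ρ (s, μ0) ≠ s := by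
    by_contra hcon
    rw [Filter.not_eventually] at hcon
    have hslice : Continuous fun s : ℝ => (s, μ0) := by fun_prop
    have h1 : ∀ᶠ s in 𝓝 (0 : ℝ), Set.range (at' (Z (s, μ0))) ⊆ U0 := by
      have h2 : ∀ᶠ e in 𝓝 ((0 : ℝ), μ0), Set.range (at' (Z e)) ⊆ U0 :=
        hZcont.eventually (eventually_range_subset hU0 (hZrange.trans hCU0))
      exact hslice.continuousAt.eventually h2
    have h3 : ∀ᶠ s in 𝓝 (0 : ℝ), s ∈ Set.Ioo (-η) η :=
      isOpen_Ioo.mem_nhds ⟨by linarith, hη⟩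
    have h4 := (hcon.and_eventually ((h1.and h3).filter_mono nhdsWithin_le_nhds)).and_eventually
      (self_mem_nhdsWithin (a := (0 : ℝ)) (s := {0}ᶜ))
    obtain ⟨s, ⟨hs1, hs2, hs3⟩, hs4⟩ := h4.exists
    push Not at hs1
    obtain ⟨-, -, -, -, -, hcl⟩ := (hret μ0 hμN).isClosedOrbit hs3 hs1
    have h5 := hiso0 _ hcl hs2
    have h6 : p + (0 : ℝ) • nrm X ∈ Set.range (at' (Z (s, μ0))) := by
      rw [h5, zero_smul, add_zero]; exact hp
    have h7 := at'_zero_iff (hret μ0 hμN) hs3 hs1 (s' := 0) ⟨by linarith, hη.le⟩ h6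
    exact hs4 (by rw [Set.mem_singleton_iff]; exact h7.symm)
  -- a product neighbourhood on which the paths stay in `U`
  have hev : ∀ᶠ e in 𝓝 ((0 : ℝ), μ0), Set.range (at' (Z e)) ⊆ U :=
    hZcont.eventually (eventually_range_subset hU (hZrange.trans hCU))
  rw [nhds_prod_eq] at hev
  obtain ⟨S1, hS1, S2, hS2, hS⟩ := Filter.eventually_prod_iff.1 hev
  -- choice of s- < 0 < s+
  have hev0 : ∀ᶠ s in 𝓝 (0 : ℝ), s ∈ Set.Ioo (-η) η ∧ S1 s ∧ (s ≠ 0 → ρ (s, μ0) ≠ s) :=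
    Filter.Eventually.and
      (isOpen_Ioo.mem_nhds (show (0 : ℝ) ∈ Set.Ioo (-η) η from ⟨by linarith, hη⟩))
      (hS1.and (eventually_nhdsWithin_iff.1 hiso))
  obtain ⟨e, he, heb⟩ := Metric.eventually_nhds_iff.1 hev0
  have hgood : ∀ s : ℝ, |s| < e → s ∈ Set.Ioo (-η) η ∧ S1 s ∧ (s ≠ 0 → ρ (s, μ0) ≠ s) := by
    intro s hs; apply heb; rwa [Real.dist_eq, sub_zero]
  set b : ℝ := e / 2 with hb
  have hbpos : 0 < b := half_pos he
  have hb1 := hgood b (by rw [abs_of_pos hbpos]; linarith)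
  have ha1 := hgood (-b) (by rw [abs_neg, abs_of_pos hbpos]; linarith)
  have hsmall : ∀ s ∈ Set.Icc (-b) b, s ∈ Set.Ioo (-η) η ∧ S1 s := fun s hs => by
    have := hgood s (abs_lt.2 ⟨by linarith [hs.1], by linarith [hs.2]⟩)
    exact ⟨this.1, this.2.1⟩
  -- the set of good parameters
  have hN2 : ∀ᶠ μ in 𝓝 μ0, μ ∈ N ∧ S2 μ := Filter.Eventually.and (hNo.mem_nhds hμN) hS2
  obtain ⟨N', hN', hN'o, hμN'⟩ := eventually_nhds_iff.1 hN2
  have hρcont : ∀ s ∈ Set.Ioo (-η) η, ∀ μ ∈ N, ContinuousAt (fun ν => ρ (s, ν)) μ := by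
    intro s hs μ hμ
    have h1 : ContinuousAt ρ (s, μ) := (hana (s, μ) ⟨hs, hμ⟩).continuousAt
    have h2 : ContinuousAt (fun ν : Pr D => (s, ν)) μ := by fun_prop
    exact ContinuousAt.comp (f := fun ν : Pr D => (s, ν)) (g := ρ) h1 h2
  have hana2 : ∀ μ ∈ N, AnalyticOnNhd ℝ (fun s => ρ (s, μ)) (Set.Ioo (-η) η) := by
    intro μ hμ s hs
    have h1 : AnalyticAt ℝ ρ (s, μ) := hana (s, μ) ⟨hs, hμ⟩
    have h2 : AnalyticAt ℝ (fun s : ℝ => (s, μ)) s := analyticAt_id.prod analyticAt_const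
    exact AnalyticAt.fun_comp h1 h2
  -- one limit cycle from a sign change
  have hone : ∀ μ1 ∈ N', ∀ a c : ℝ, a ∈ Set.Icc (-b) b → c ∈ Set.Icc (-b) b → a < c →
      (ρ (a, μ1) - a) * (ρ (c, μ1) - c) < 0 → ∀ᶠ μ in 𝓝 μ1, ∃ s1 ∈ Set.Ioo a c,
        IsLimitCycle (vfc μ) (Set.range (at' (Z (s1, μ)))) ∧
        Set.range (at' (Z (s1, μ))) ⊆ U ∧
        p + s1 • nrm X ∈ Set.range (at' (Z (s1, μ))) ∧
        ∀ s' ∈ Set.Icc (-η) η, p + s' • nrm X ∈ Set.range (at' (Z (s1, μ))) → s' = s1 := by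
    intro μ1 hμ1 a c ha hcc hac hsign
    have hcts : ContinuousAt (fun μ => (ρ (a, μ) - a) * (ρ (c, μ) - c)) μ1 :=
      ((hρcont a (hsmall a ha).1 μ1 (hN' μ1 hμ1).1).sub continuousAt_const).mul
        ((hρcont c (hsmall c hcc).1 μ1 (hN' μ1 hμ1).1).sub continuousAt_const)
    filter_upwards [hcts.eventually (gt_mem_nhds hsign), hN'o.mem_nhds hμ1] with μ hμ hμ2
    have hμN := (hN' μ hμ2).1
    obtain ⟨s1, hs1, hLC, hm, huniq⟩ := exists_limitCycle_of_sign (hret μ hμN) (hana2 μ hμN)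
      (hsmall a ha).1 (hsmall c hcc).1 hac hμ
    refine ⟨s1, hs1, hLC, ?_, hm, huniq⟩
    exact hS (hsmall s1 ⟨by linarith [ha.1, hs1.1], by linarith [hcc.2, hs1.2]⟩).2
      (hN' μ hμ2).2
  have hbb : b ∈ Set.Icc (-b) b := ⟨by linarith, le_rfl⟩
  have hab : -b ∈ Set.Icc (-b) b := ⟨le_rfl, by linarith⟩
  have h0b : (0 : ℝ) ∈ Set.Icc (-b) b := ⟨by linarith, hbpos.le⟩
  -- two limit cycles from two sign changes
  have htwo : ∀ μ1 ∈ N', (ρ (-b, μ1) - -b) * (ρ (0, μ1) - 0) < 0 →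
      (ρ (0, μ1) - 0) * (ρ (b, μ1) - b) < 0 → ∀ᶠ μ in 𝓝 μ1, ∃ C1 C2, C1 ≠ C2 ∧
      IsLimitCycle (vfc μ) C1 ∧ C1 ⊆ U ∧ IsLimitCycle (vfc μ) C2 ∧ C2 ⊆ U := by
    intro μ1 hμ1 hs1 hs2
    filter_upwards [hone μ1 hμ1 (-b) 0 hab h0b (by linarith) hs1,
      hone μ1 hμ1 0 b h0b hbb hbpos hs2] with μ h1 h2
    obtain ⟨s1, hs1, hLC1, hU1, hm1, hq1⟩ := h1
    obtain ⟨s2, hs2, hLC2, hU2, hm2, hq2⟩ := h2
    refine ⟨_, _, ?_, hLC1, hU1, hLC2, hU2⟩
    intro heq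
    rw [← heq] at hm2
    have := hq1 s2 (Set.Ioo_subset_Icc_self (hsmall s2 ⟨by linarith [hs2.1], hs2.2.le⟩).1) hm2
    linarith [hs1.2, hs2.1]
  -- the displacement at `0` along the rotated family
  have hposright : ∀ᶠ θ in 𝓝[>] (0 : ℝ), 0 < ρ (0, μ0 + θ • rot μ0) := by
    have := eventually_pos_right hκd (by simp [hρ0]) hκ
    exact this
  have hnegleft : ∀ᶠ θ in 𝓝[>] (0 : ℝ), ρ (0, μ0 + (-θ) • rot μ0) < 0 := by
    have := eventually_neg_left hκd (by simp [hρ0]) hκ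
    exact this
  have htend : ∀ c : ℝ, Tendsto (fun θ : ℝ => μ0 + (c * θ) • rot μ0) (𝓝[>] (0 : ℝ)) (𝓝 μ0) := by
    intro c
    have h1 : Continuous fun θ : ℝ => μ0 + (c * θ) • rot μ0 := by fun_prop
    have h2 := h1.tendsto 0
    simp only [mul_zero, zero_smul, add_zero] at h2
    exact h2.mono_left nhdsWithin_le_nhds
  have hN'ev : ∀ᶠ μ in 𝓝 μ0, μ ∈ N' := hN'o.mem_nhds hμN'
  have hb0 : ρ (b, μ0) - b ≠ 0 := sub_ne_zero.2 (hb1.2.2 hbpos.ne')
  have ha0 : ρ (-b, μ0) - -b ≠ 0 := sub_ne_zero.2 (ha1.2.2 (by linarith))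
  have hcb : ContinuousAt (fun μ => ρ (b, μ) - b) μ0 :=
    (hρcont b hb1.1 μ0 hμN).sub continuousAt_const
  have hca : ContinuousAt (fun μ => ρ (-b, μ) - -b) μ0 :=
    (hρcont (-b) ha1.1 μ0 hμN).sub continuousAt_const
  rcases lt_or_gt_of_ne hb0 with hbneg | hbpos'
  · rcases lt_or_gt_of_ne ha0 with haneg | hapos'
    · -- both negative: use + θ
      right; left
      have e1 := (htend 1).eventually (hcb.eventually (gt_mem_nhds hbneg))
      have e2 := (htend 1).eventually (hca.eventually (gt_mem_nhds haneg))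
      have e3 := (htend 1).eventually hN'ev
      filter_upwards [e1, e2, e3, hposright] with θ h1 h2 h3 h4
      rw [one_mul] at h1 h2 h3
      exact htwo _ h3 (mul_neg_of_neg_of_pos h2 (by linarith))
        (mul_neg_of_pos_of_neg (by linarith) h1)
    · left
      refine (hone μ0 hμN' (-b) b hab hbb (by linarith)
        (mul_neg_of_pos_of_neg hapos' hbneg)).mono ?_
      rintro μ ⟨s1, -, h1, h2, -⟩
      exact ⟨_, h1, h2⟩
  · rcases lt_or_gt_of_ne ha0 with haneg | hapos'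
    · left
      refine (hone μ0 hμN' (-b) b hab hbb (by linarith)
        (mul_neg_of_neg_of_pos haneg hbpos')).mono ?_
      rintro μ ⟨s1, -, h1, h2, -⟩
      exact ⟨_, h1, h2⟩
    · -- both positive: use - θ
      right; right
      have e1 := (htend (-1)).eventually (hcb.eventually (lt_mem_nhds hbpos'))
      have e2 := (htend (-1)).eventually (hca.eventually (lt_mem_nhds hapos'))
      have e3 := (htend (-1)).eventually hN'ev
      filter_upwards [e1, e2, e3, hnegleft] with θ h1 h2 h3 h4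
      rw [neg_one_mul] at h1 h2 h3
      have h5 := htwo _ h3 (mul_neg_of_pos_of_neg h2 (by linarith))
        (mul_neg_of_neg_of_pos (by linarith) h1)
      rw [neg_smul, ← sub_eq_add_neg] at h5
      exact h5

end Pool.Agent.Lib.MP_95e7ec_an
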