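import Mathlib
import Pool.Agent.Lib.MP_95e7ec_an.AvgBasic
import Pool.Agent.Lib.MP_95e7ec_an.FamCore
import Pool.Agent.Lib.MP_95e7ec_an.JacPos
import Pool.Agent.Lib.MP_95e7ec_an.Duff
import Pool.Agent.Lib.MP_95e7ec_an.Persist
import Pool.Agent.Lib.MP_95e7ec_an.IsoZero
import Pool.Agent.Lib.MP_95e7ec_an.Return

/-!
# Every closed orbit belongs to a local family (task C5)
-/

set_option autoImplicit false

open Set Filter Topology MeasureTheory
open scoped ContDiff ENNReal

namespace Pool.Agent.Lib.MP_95e7ec_an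

/-- if two closed orbits (of possibly different turned fields) meet, they coincide -/
theorem orbit_eq_of_meet {D : ℕ} {μ : Pr D} {α β : ℝ} (hα : α ∈ Set.Ioo 0 Real.pi)
    (hβ : β ∈ Set.Ioo 0 Real.pi)
    {C C' : Set (ℝ × ℝ)} (hC : IsClosedOrbit (vfc (rotA μ α)) C)
    (hC' : IsClosedOrbit (vfc (rotA μ β)) C') {z : ℝ × ℝ} (hz : z ∈ C) (hz' : z ∈ C') :
    α = β ∧ C = C' := by
  have hαβ : α = β := by
    by_contra hne
    have hsin : Real.sin (β - α) ≠ 0 := by
      intro h0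
      have h1 : -Real.pi < β - α := by linarith [hα.2, hβ.1]
      have h2 : β - α < Real.pi := by linarith [hα.1, hβ.2]
      have := (Real.sin_eq_zero_iff_of_lt_of_lt h1 h2).1 h0
      exact hne (by linarith)
    rw [vfc_rotA] at hC hC'
    exact (closedOrbit_disjoint (vfc_contDiff μ) hsin hC hC').le_bot ⟨hz, hz'⟩
  subst hαβ
  exact ⟨rfl, hC.eq_of_mem hC' hz hz'⟩

/-- a path which is a solution, closed, and does not start at a zero, runs on a closed orbit -/
theorem isClosedOrbit_of_path {D : ℕ} {μ : Pr D} {T : ℝ} {x : ℝ × ℝ} {z : A × A}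
    (h : Sol μ T x z) (hT : 0 < T) (hz : at' z 1 = x) (hx : vfc μ x ≠ 0) :
    IsClosedOrbit (vfc μ) (Set.range (at' z)) := by
  obtain ⟨γ, hγ, hper, h0, -, hr⟩ := h.exists_curve hT hz
  refine ⟨γ, T, hT, hγ, hper, ?_, hr.symm⟩
  by_contra hcon
  push Not at hcon
  have hd := hγ 0
  have hconst : γ = fun _ => γ 0 := by
    ext1 t
    exact hcon t 0
  have hd2 : HasDerivAt γ 0 0 := by
    rw [hconst]
    exact hasDerivAt_const _ _
  have := hd.unique hd2
  rw [h0] at this
  exact hx this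

theorem vfc_ne_zero_of_path {D : ℕ} {μ : Pr D} {T : ℝ} {x : ℝ × ℝ} {z : A × A}
    (h : Sol μ T x z) (hT : 0 < T) (hz : at' z 1 = x) (hx : vfc μ x ≠ 0) (t : unitInterval) :
    vfc μ (at' z t) ≠ 0 :=
  (isClosedOrbit_of_path h hT hz hx).ne_zero ⟨t, rfl⟩

theorem exists_fam {D : ℕ} (μ : Pr D) {Ω : Set (ℝ × ℝ)} (hΩ : IsOpen Ω) {α : ℝ}
    (hα : α ∈ Set.Ioo 0 Real.pi) {C : Set (ℝ × ℝ)} (hC : IsClosedOrbit (vfc (rotA μ α)) C)
    (hCΩ : C ⊆ Ω) : ∃ (F : Fam μ Ω) (s : ℝ), s ∈ F.J ∧ F.a s = α ∧ F.orb s = C := by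
  obtain ⟨p, X, η, a, a', τ, τ', Z, Y, hη, hX, ha0, hrange, hd, ha'c, hYc, hsol, hlin⟩ :=
    exists_family_core (rotA μ α) C hC
  have h0mem : (0 : ℝ) ∈ Set.Ioo (-η) η := ⟨by linarith, hη⟩
  have hnX : nrm X ≠ 0 := nrm_ne_zero hX
  -- eventually in Ω
  have hZ0 : ContinuousAt Z 0 := (hd 0 h0mem).2.2.2.continuousAt
  have hev1 : ∀ᶠ s in 𝓝 (0 : ℝ), ∀ t, at' (Z s) t ∈ Ω := by
    have h1 : ∀ᶠ z in 𝓝 (Z 0), Set.range (at' z) ⊆ Ω :=
      eventually_range_subset hΩ (by rw [hrange]; exact hCΩ)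
    filter_upwards [hZ0.eventually h1] with s hs t
    exact hs ⟨t, rfl⟩
  have hac : ContinuousAt a 0 := (hd 0 h0mem).2.1.continuousAt
  have hev2 : ∀ᶠ s in 𝓝 (0 : ℝ), α + a s ∈ Set.Ioo 0 Real.pi := by
    have h1 : ContinuousAt (fun s => α + a s) 0 := continuousAt_const.add hac
    apply h1.eventually
    simp only [ha0, add_zero]
    exact Ioo_mem_nhds hα.1 hα.2
  have hev3 : ∀ᶠ s in 𝓝 (0 : ℝ), s ∈ Set.Ioo (-η) η := Ioo_mem_nhds h0mem.1 h0mem.2
  obtain ⟨e, he, heP⟩ := Metric.eventually_nhds_iff.1 ((hev1.and hev2).and hev3)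
  have hJ : ∀ s ∈ Set.Ioo (-e) e, (∀ t, at' (Z s) t ∈ Ω) ∧ α + a s ∈ Set.Ioo 0 Real.pi ∧
      s ∈ Set.Ioo (-η) η := by
    intro s hs
    have := heP (y := s) (by rw [Real.dist_eq, sub_zero, abs_lt]; exact ⟨hs.1, hs.2⟩)
    exact ⟨this.1.1, this.1.2, this.2⟩
  have hrot : ∀ s, rotA (rotA μ α) (a s) = rotA μ (α + a s) := fun s => rotA_rotA μ α (a s)
  have hsol' : ∀ s ∈ Set.Ioo (-e) e, Sol (rotA μ (α + a s)) (τ s) (p + s • nrm X) (Z s) := by
    intro s hs
    rw [← hrot]
    exact (hsol s (hJ s hs).2.2).1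
  have hZzero : ∀ s ∈ Set.Ioo (-e) e, at' (Z s) 0 = p + s • nrm X := fun s hs =>
    (hsol' s hs).at_zero
  have hZone : ∀ s ∈ Set.Ioo (-e) e, at' (Z s) 1 = p + s • nrm X := fun s hs =>
    (hsol s (hJ s hs).2.2).2.1
  have htr : ∀ s ∈ Set.Ioo (-e) e, 0 < dot (vfc (rotA μ (α + a s)) (p + s • nrm X)) X := by
    intro s hs
    rw [← hrot]
    exact (hsol s (hJ s hs).2.2).2.2.1
  have hne0 : ∀ s ∈ Set.Ioo (-e) e, vfc (rotA μ (α + a s)) (p + s • nrm X) ≠ 0 := by
    intro s hs h0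
    have := htr s hs
    rw [h0] at this
    simp [dot] at this
  have hcross : ∀ s ∈ Set.Ioo (-e) e, ∀ t : unitInterval, t ≠ 0 → t ≠ 1 →
      ∀ s' ∈ Set.Ioo (-e) e, at' (Z s) t ≠ p + s' • nrm X := by
    intro s hs t ht0 ht1 s' hs'
    exact (hsol s (hJ s hs).2.2).2.2.2 t ht0 ht1 s' (Ioo_subset_Icc_self (hJ s' hs').2.2)
  have hτ : ∀ s ∈ Set.Ioo (-e) e, 0 < τ s := fun s hs => (hd s (hJ s hs).2.2).1
  have horb : ∀ s ∈ Set.Ioo (-e) e, IsClosedOrbit (vfc (rotA μ (α + a s)))
      (Set.range (at' (Z s))) := fun s hs =>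
    isClosedOrbit_of_path (hsol' s hs) (hτ s hs) (hZone s hs) (hne0 s hs)
  have hsub : Set.Ioo (-e) e ⊆ Set.Ioo (-η) η := fun s hs => (hJ s hs).2.2
  -- injectivity in `t`
  have hinjt : ∀ s ∈ Set.Ioo (-e) e, ∀ t t' : unitInterval, t' ≠ 1 → t < t' →
      at' (Z s) t ≠ at' (Z s) t' := by
    intro s hs t t' ht'1 htt' heq
    obtain ⟨γ, hγ, hper, h0, hγs, -⟩ := (hsol' s hs).exists_curve (hτ s hs) (hZone s hs)
    have e1 : γ (τ s * t) = γ (τ s * t') := by rw [hγs, hγs, heq]
    have e2 := curve_unique (μ := rotA μ (α + a s)) (hasDerivAt_shift hγ (τ s * t))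
      (hasDerivAt_shift hγ (τ s * t')) (by simpa using e1)
    have e3 := congrFun e2 (-(τ s * t))
    simp only [neg_add_cancel] at e3
    have hlt : (t : ℝ) < t' := htt'
    have ht'lt : (t' : ℝ) < 1 := lt_of_le_of_ne t'.2.2 (fun h => ht'1 (Subtype.ext h))
    set u : unitInterval := ⟨(t' : ℝ) - t, by linarith, by linarith [t.2.1]⟩ with hu
    have e4 : γ (τ s * (u : ℝ)) = at' (Z s) u := hγs u
    have e5 : τ s * (u : ℝ) = -(τ s * t) + τ s * t' := by simp only [hu]; ring
    rw [e5, ← e3, h0] at e4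
    have hu0 : u ≠ 0 := by
      intro h
      have := congrArg Subtype.val h
      simp only [hu, Set.Icc.coe_zero] at this
      linarith
    have hu1 : u ≠ 1 := by
      intro h
      have := congrArg Subtype.val h
      simp only [hu, Set.Icc.coe_one] at this
      linarith [t.2.1]
    exact hcross s hs u hu0 hu1 s hs e4.symm
  let F : Fam μ Ω :=
    { J := Set.Ioo (-e) e
      a := fun s => α + a s
      a' := a'
      τ := τ
      τ' := τ'
      Z := Z
      Y := Y
      isOpen_J := isOpen_Ioo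
      a_mem := fun s hs => (hJ s hs).2.1
      tau_pos := hτ
      deriv_a := fun s hs => (hd s (hsub hs)).2.1.const_add α
      deriv_tau := fun s hs => (hd s (hsub hs)).2.2.1
      deriv_Z := fun s hs => (hd s (hsub hs)).2.2.2
      cont_a' := ha'c.mono hsub
      cont_Y := hYc.mono hsub
      sol := fun s hs => by rw [hZzero s hs]; exact hsol' s hs
      closed := fun s hs => by rw [hZzero s hs, hZone s hs]
      closedY := fun s hs => by rw [(hlin s (hsub hs)).1, (hlin s (hsub hs)).2.1]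
      lin1 := fun s hs => by
        rw [(hlin s (hsub hs)).1, ← hrot]
        exact (hlin s (hsub hs)).2.2.1
      lin2 := fun s hs => by
        rw [(hlin s (hsub hs)).1, ← hrot]
        exact (hlin s (hsub hs)).2.2.2
      jac_pos := fun s hs t => by
        obtain ⟨l0, l1, l2, l3⟩ := hlin s (hsub hs)
        rw [hrot] at l2 l3
        refine jac_pos_of (rotA μ (α + a s)) (τ s) (τ' s) (a' s) (hτ s hs) (p + s • nrm X)
          (nrm X) (Z s) (Y s) (hsol' s hs) (hZone s hs) l0 l1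
          (vfc_ne_zero_of_path (hsol' s hs) (hτ s hs) (hZone s hs) (hne0 s hs)) ?_ l2 l3 t
        have h5 := htr s hs
        have h6 : det2 (vfc (rotA μ (α + a s)) (p + s • nrm X)) (nrm X) =
            dot (vfc (rotA μ (α + a s)) (p + s • nrm X)) X := by
          unfold det2 dot
          have e1 : (nrm X).1 = -X.2 := rfl
          have e2 : (nrm X).2 = X.1 := rfl
          rw [e1, e2]
          ring
        rw [h6]
        exact h5
      inj := fun s hs s' hs' t t' ht ht' heq => by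
        have hm := orbit_eq_of_meet (hJ s hs).2.1 (hJ s' hs').2.1 (horb s hs) (horb s' hs')
          ⟨t, rfl⟩ ⟨t', heq.symm⟩
        have hss : s = s' := by
          have h1 : p + s' • nrm X ∈ Set.range (at' (Z s)) := by
            rw [hm.2, ← hZzero s' hs']
            exact ⟨0, rfl⟩
          obtain ⟨t'', ht''⟩ := h1
          have h2 : p + s • nrm X = p + s' • nrm X := by
            by_cases h0 : t'' = 0
            · rw [h0, hZzero s hs] at ht''
              exact ht''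
            by_cases h1 : t'' = 1
            · rw [h1, hZone s hs] at ht''
              exact ht''
            exact absurd ht'' (hcross s hs t'' h0 h1 s' hs')
          have h3 : (s - s') • nrm X = 0 := by
            rw [sub_smul, sub_eq_zero]
            exact add_left_cancel h2
          rcases smul_eq_zero.1 h3 with h4 | h4
          · exact sub_eq_zero.1 h4
          · exact absurd h4 hnX
        subst hss
        refine ⟨rfl, ?_⟩
        rcases lt_trichotomy t t' with h | h | h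
        · exact absurd heq (hinjt s hs t t' ht' h)
        · exact h
        · exact absurd heq.symm (hinjt s hs t' t ht h)
      sub := fun s hs t => (hJ s hs).1 t }
  refine ⟨F, 0, ⟨by linarith, he⟩, by simp [F, ha0], ?_⟩
  simp only [Fam.orb, F, hrange]

end Pool.Agent.Lib.MP_95e7ec_an
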