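import Mathlib
import Pool.Agent.Lib.MP_95e7ec_an.AvgDefs
import Pool.Agent.Lib.MP_95e7ec_an.Paths

/-!
# The area swept by a local family of closed orbits
-/

set_option autoImplicit false

open Set Filter Topology MeasureTheory
open scoped ContDiff ENNReal

namespace Pool.Agent.Lib.MP_95e7ec_an

section algebra

/-- evaluation of a path, as a continuous linear map -/
private noncomputable def evP (t : ℝ) : A × A →L[ℝ] ℝ × ℝ :=
  (ContinuousMap.evalCLM ℝ (projIcc (0 : ℝ) 1 zero_le_one t)).prodMap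
    (ContinuousMap.evalCLM ℝ (projIcc (0 : ℝ) 1 zero_le_one t))

private theorem evP_apply (t : ℝ) (z : A × A) : evP t z = pth z t := rfl

private theorem pth_coe (z : A × A) (t : unitInterval) : pth z t = at' z t := by
  simp [pth, at', IccExtend_val]

private theorem pth_mem (z : A × A) {t : ℝ} (ht : t ∈ Icc (0 : ℝ) 1) :
    pth z t = at' z ⟨t, ht⟩ := by
  simp [pth, at', IccExtend_of_mem _ _ ht]

private theorem continuous_pth : Continuous fun p : (A × A) × ℝ => pth p.1 p.2 := by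
  have h : Continuous fun p : (A × A) × ℝ => projIcc (0 : ℝ) 1 zero_le_one p.2 :=
    continuous_projIcc.comp continuous_snd
  have h1 : Continuous fun p : (A × A) × ℝ => p.1.1 (projIcc (0 : ℝ) 1 zero_le_one p.2) :=
    (continuous_fst.comp continuous_fst).eval h
  have h2 : Continuous fun p : (A × A) × ℝ => p.1.2 (projIcc (0 : ℝ) 1 zero_le_one p.2) :=
    (continuous_snd.comp continuous_fst).eval h
  exact h1.prodMk h2

private theorem continuous_pe_joint {D : ℕ} :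
    Continuous fun p : Co D × (ℝ × ℝ) => pe p.1 p.2.1 p.2.2 := by
  unfold pe
  fun_prop

private theorem continuous_vfc_joint {D : ℕ} :
    Continuous fun p : Pr D × (ℝ × ℝ) => vfc p.1 p.2 := by
  unfold vfc
  refine Continuous.prodMk ?_ ?_
  · exact continuous_pe_joint.comp
      ((continuous_fst.comp continuous_fst).prodMk continuous_snd)
  · exact continuous_pe_joint.comp
      ((continuous_snd.comp continuous_fst).prodMk continuous_snd)

private theorem continuous_rotA' {D : ℕ} (μ : Pr D) : Continuous (rotA μ) := by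
  unfold rotA
  fun_prop

/-- the linear map `(x,y) ↦ x u + y v` -/
private noncomputable def linUV (u v : ℝ × ℝ) : ℝ × ℝ →L[ℝ] ℝ × ℝ :=
  (ContinuousLinearMap.fst ℝ ℝ ℝ).smulRight u + (ContinuousLinearMap.snd ℝ ℝ ℝ).smulRight v

private theorem linUV_apply (u v q : ℝ × ℝ) : linUV u v q = q.1 • u + q.2 • v := by
  simp [linUV]

private theorem linUV_det (u v : ℝ × ℝ) : (linUV u v).det = det2 u v := by
  rw [ContinuousLinearMap.det, ← LinearMap.det_toMatrix (Module.Basis.finTwoProd ℝ),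
    Matrix.det_fin_two]
  simp [LinearMap.toMatrix_apply, linUV, det2]
  ring

private theorem linUV_surj {u v : ℝ × ℝ} (h : det2 u v ≠ 0) : (linUV u v).range = ⊤ := by
  rw [LinearMap.range_eq_top]
  intro w
  refine ⟨(det2 w v / det2 u v, det2 u w / det2 u v), ?_⟩
  change linUV u v _ = w
  rw [linUV_apply]
  ext
  · simp only [Prod.fst_add, Prod.smul_fst, smul_eq_mul]
    rw [div_mul_eq_mul_div, div_mul_eq_mul_div, ← add_div, div_eq_iff h]
    unfold det2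
    ring
  · simp only [Prod.snd_add, Prod.smul_snd, smul_eq_mul]
    rw [div_mul_eq_mul_div, div_mul_eq_mul_div, ← add_div, div_eq_iff h]
    unfold det2
    ring

end algebra

section
variable {D : ℕ} {μ : Pr D} {Ω : Set (ℝ × ℝ)}

/-- the velocity `τ(s) V` of the map in `t` -/
private noncomputable def vel (F : Fam μ Ω) (s t : ℝ) : ℝ × ℝ :=
  F.τ s • vfc (rotA μ (F.a s)) (pth (F.Z s) t)

private theorem Fam.continuousAt_Z' (F : Fam μ Ω) {s : ℝ} (hs : s ∈ F.J) : ContinuousAt F.Z s :=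
  (F.deriv_Z s hs).continuousAt

private theorem Fam.continuousAt_Y' (F : Fam μ Ω) {s : ℝ} (hs : s ∈ F.J) : ContinuousAt F.Y s :=
  F.cont_Y.continuousAt (F.isOpen_J.mem_nhds hs)

private theorem Fam.continuousAt_map (F : Fam μ Ω) {s : ℝ} (hs : s ∈ F.J) (t : ℝ) :
    ContinuousAt (fun q : ℝ × ℝ => pth (F.Z q.1) q.2) (s, t) := by
  have h1 : ContinuousAt (fun q : ℝ × ℝ => (F.Z q.1, q.2)) (s, t) :=
    ContinuousAt.prodMk (ContinuousAt.comp (f := Prod.fst) (F.continuousAt_Z' hs)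
      continuousAt_fst) continuousAt_snd
  exact ContinuousAt.comp (f := fun q : ℝ × ℝ => (F.Z q.1, q.2)) continuous_pth.continuousAt h1

private theorem Fam.continuousAt_mapY (F : Fam μ Ω) {s : ℝ} (hs : s ∈ F.J) (t : ℝ) :
    ContinuousAt (fun q : ℝ × ℝ => pth (F.Y q.1) q.2) (s, t) := by
  have h1 : ContinuousAt (fun q : ℝ × ℝ => (F.Y q.1, q.2)) (s, t) :=
    ContinuousAt.prodMk (ContinuousAt.comp (f := Prod.fst) (F.continuousAt_Y' hs)
      continuousAt_fst) continuousAt_snd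
  exact ContinuousAt.comp (f := fun q : ℝ × ℝ => (F.Y q.1, q.2)) continuous_pth.continuousAt h1

private theorem Fam.continuousAt_V (F : Fam μ Ω) {s : ℝ} (hs : s ∈ F.J) (t : ℝ) :
    ContinuousAt (fun q : ℝ × ℝ => vfc (rotA μ (F.a q.1)) (pth (F.Z q.1) q.2)) (s, t) := by
  have ha : ContinuousAt (fun q : ℝ × ℝ => F.a q.1) (s, t) :=
    ContinuousAt.comp (f := Prod.fst) (F.deriv_a s hs).continuousAt continuousAt_fst
  have hr : ContinuousAt (fun q : ℝ × ℝ => rotA μ (F.a q.1)) (s, t) :=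
    ContinuousAt.comp (g := rotA μ) (continuous_rotA' μ).continuousAt ha
  have h1 : ContinuousAt (fun q : ℝ × ℝ => (rotA μ (F.a q.1), pth (F.Z q.1) q.2)) (s, t) :=
    hr.prodMk (F.continuousAt_map hs t)
  exact ContinuousAt.comp (f := fun q : ℝ × ℝ => (rotA μ (F.a q.1), pth (F.Z q.1) q.2))
    continuous_vfc_joint.continuousAt h1

private theorem Fam.continuousAt_vel (F : Fam μ Ω) {s : ℝ} (hs : s ∈ F.J) (t : ℝ) :
    ContinuousAt (fun q : ℝ × ℝ => vel F q.1 q.2) (s, t) := by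
  have hτ : ContinuousAt (fun q : ℝ × ℝ => F.τ q.1) (s, t) :=
    ContinuousAt.comp (f := Prod.fst) (F.deriv_tau s hs).continuousAt continuousAt_fst
  exact hτ.smul (F.continuousAt_V hs t)

private theorem Fam.hasDerivAt_s (F : Fam μ Ω) {s : ℝ} (hs : s ∈ F.J) (t : ℝ) :
    HasDerivAt (fun s => pth (F.Z s) t) (pth (F.Y s) t) s :=
  (evP t).hasFDerivAt.comp_hasDerivAt s (F.deriv_Z s hs)

private theorem Fam.hasDerivAt_t (F : Fam μ Ω) {s t : ℝ} (hs : s ∈ F.J)
    (ht : t ∈ Ioo (0 : ℝ) 1) :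
    HasDerivAt (fun t => pth (F.Z s) t) (vel F s t) t := by
  have h := (F.sol s hs).hasDerivWithinAt ⟨t, Ioo_subset_Icc_self ht⟩
  have h1 : HasDerivWithinAt (fun t => pth (F.Z s) t) (vel F s t) (Icc 0 1) t := by
    unfold vel
    rw [pth_mem (F.Z s) (Ioo_subset_Icc_self ht)]
    exact h
  exact h1.hasDerivAt (Icc_mem_nhds ht.1 ht.2)

private theorem Fam.hasStrictFDerivAt' (F : Fam μ Ω) {s t : ℝ} (hs : s ∈ F.J)
    (ht : t ∈ Ioo (0 : ℝ) 1) :
    HasStrictFDerivAt (fun q : ℝ × ℝ => pth (F.Z q.1) q.2)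
      (linUV (pth (F.Y s) t) (vel F s t)) (s, t) := by
  have hnhds : F.J ×ˢ Ioo (0 : ℝ) 1 ∈ 𝓝 (s, t) :=
    prod_mem_nhds (F.isOpen_J.mem_nhds hs) (Ioo_mem_nhds ht.1 ht.2)
  have key := hasStrictFDerivAt_uncurry_coprod (𝕜 := ℝ) (u := (s, t))
    (f := fun s t => pth (F.Z s) t)
    (f₁ := fun s t => ContinuousLinearMap.toSpanSingleton ℝ (pth (F.Y s) t))
    (f₂ := fun s t => ContinuousLinearMap.toSpanSingleton ℝ (vel F s t)) ?_ ?_ ?_ ?_
  · have e : linUV (pth (F.Y s) t) (vel F s t) =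
        (ContinuousLinearMap.toSpanSingleton ℝ (pth (F.Y s) t)).coprod
          (ContinuousLinearMap.toSpanSingleton ℝ (vel F s t)) := by
      ext <;> simp [linUV]
    rw [e]
    exact key
  · filter_upwards [hnhds] with q hq
    exact (F.hasDerivAt_s hq.1 q.2).hasFDerivAt
  · filter_upwards [hnhds] with q hq
    exact (F.hasDerivAt_t hq.1 hq.2).hasFDerivAt
  · have h := F.continuousAt_mapY hs t
    have hc : Continuous fun u : ℝ × ℝ => ContinuousLinearMap.toSpanSingleton ℝ u :=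
      (ContinuousLinearMap.toSpanSingletonCLE (𝕜 := ℝ) (E := ℝ × ℝ)).continuous
    exact ContinuousAt.comp (f := fun q : ℝ × ℝ => pth (F.Y q.1) q.2) hc.continuousAt h
  · have h := F.continuousAt_vel hs t
    have hc : Continuous fun u : ℝ × ℝ => ContinuousLinearMap.toSpanSingleton ℝ u :=
      (ContinuousLinearMap.toSpanSingletonCLE (𝕜 := ℝ) (E := ℝ × ℝ)).continuous
    exact ContinuousAt.comp (f := fun q : ℝ × ℝ => vel F q.1 q.2) hc.continuousAt h

/-- the map `(s,t) ↦ Z s t` is differentiable -/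
theorem Fam.hasFDerivAt (F : Fam μ Ω) {s t : ℝ} (hs : s ∈ F.J) (ht : t ∈ Set.Ioo (0 : ℝ) 1) :
    HasFDerivAt (fun q : ℝ × ℝ => pth (F.Z q.1) q.2)
      ((ContinuousLinearMap.fst ℝ ℝ ℝ).smulRight (pth (F.Y s) t) +
        (ContinuousLinearMap.snd ℝ ℝ ℝ).smulRight
          (F.τ s • vfc (rotA μ (F.a s)) (pth (F.Z s) t))) (s, t) :=
  (F.hasStrictFDerivAt' hs ht).hasFDerivAt

/-- the jacobian is positive -/
private theorem Fam.jac_pos' (F : Fam μ Ω) {s t : ℝ} (hs : s ∈ F.J)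
    (ht : t ∈ Ioo (0 : ℝ) 1) : 0 < F.jac s t := by
  have h := F.jac_pos s hs ⟨t, Ioo_subset_Icc_self ht⟩
  rw [← pth_mem, ← pth_mem] at h
  exact mul_pos (F.tau_pos s hs) h

private theorem Fam.det_eq (F : Fam μ Ω) (s t : ℝ) :
    det2 (pth (F.Y s) t) (vel F s t) = - F.jac s t := by
  unfold det2 vel Fam.jac det2
  simp only [Prod.smul_fst, Prod.smul_snd, smul_eq_mul]
  ring

private theorem Fam.img_eq (F : Fam μ Ω) (E : Set ℝ) :
    F.img E = (fun q : ℝ × ℝ => pth (F.Z q.1) q.2) '' (E ×ˢ Ioo (0 : ℝ) 1) := by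
  ext z
  constructor
  · rintro ⟨s, hs, t, h0, h1, rfl⟩
    refine ⟨(s, t), ⟨hs, ?_, ?_⟩, pth_coe _ _⟩
    · exact lt_of_le_of_ne t.2.1 (fun h => h0 (Subtype.ext h.symm))
    · exact lt_of_le_of_ne t.2.2 (fun h => h1 (Subtype.ext h))
  · rintro ⟨⟨s, t⟩, ⟨hs, ht⟩, rfl⟩
    refine ⟨s, hs, ⟨t, Ioo_subset_Icc_self ht⟩, ?_, ?_, (pth_mem _ _).symm⟩
    · intro h
      exact ht.1.ne' (congrArg Subtype.val h)
    · intro h
      exact ht.2.ne (congrArg Subtype.val h)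

private theorem Fam.injOn' (F : Fam μ Ω) :
    InjOn (fun q : ℝ × ℝ => pth (F.Z q.1) q.2) (F.J ×ˢ Ioo (0 : ℝ) 1) := by
  rintro ⟨s, t⟩ ⟨hs, ht⟩ ⟨s', t'⟩ ⟨hs', ht'⟩ h
  simp only at h hs ht hs' ht'
  rw [pth_mem _ (Ioo_subset_Icc_self ht), pth_mem _ (Ioo_subset_Icc_self ht')] at h
  obtain ⟨h1, h2⟩ := F.inj s hs s' hs' _ _ (fun h => ht.2.ne (congrArg Subtype.val h))
    (fun h => ht'.2.ne (congrArg Subtype.val h)) h
  exact Prod.ext h1 (congrArg Subtype.val h2)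

/-- the set swept by an open set of parameters is open -/
theorem Fam.isOpen_img (F : Fam μ Ω) {J' : Set ℝ} (hJ' : IsOpen J') (hJ : J' ⊆ F.J) :
    IsOpen (F.img J') := by
  rw [F.img_eq, isOpen_iff_mem_nhds]
  rintro _ ⟨⟨s, t⟩, ⟨hs, ht⟩, rfl⟩
  have hnhds : J' ×ˢ Ioo (0 : ℝ) 1 ∈ 𝓝 (s, t) :=
    prod_mem_nhds (hJ'.mem_nhds hs) (Ioo_mem_nhds ht.1 ht.2)
  have hd := F.hasStrictFDerivAt' (hJ hs) ht
  have hdet : det2 (pth (F.Y s) t) (vel F s t) ≠ 0 := by
    rw [F.det_eq]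
    exact neg_ne_zero.2 (F.jac_pos' (hJ hs) ht).ne'
  rw [← hd.map_nhds_eq_of_surj (linUV_surj hdet)]
  exact image_mem_map hnhds

private theorem Fam.continuousOn_map (F : Fam μ Ω) :
    ContinuousOn (fun q : ℝ × ℝ => pth (F.Z q.1) q.2) (F.J ×ˢ Ioo (0 : ℝ) 1) := by
  rintro ⟨s, t⟩ ⟨hs, ht⟩
  exact (F.continuousAt_map hs t).continuousWithinAt

theorem Fam.measurableSet_img (F : Fam μ Ω) {E : Set ℝ} (hE : MeasurableSet E) (hJ : E ⊆ F.J) :
    MeasurableSet (F.img E) := by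
  rw [F.img_eq]
  have hsub : E ×ˢ Ioo (0 : ℝ) 1 ⊆ F.J ×ˢ Ioo (0 : ℝ) 1 := prod_mono_left hJ
  exact (hE.prod measurableSet_Ioo).image_of_continuousOn_injOn (F.continuousOn_map.mono hsub)
    (F.injOn'.mono hsub)

/-- change of variables -/
theorem Fam.lintegral_img (F : Fam μ Ω) {E : Set ℝ} (hE : MeasurableSet E) (hJ : E ⊆ F.J)
    (g : ℝ × ℝ → ℝ≥0∞) (hg : Measurable g) :
    ∫⁻ z in F.img E, g z =
      ∫⁻ s in E, ∫⁻ t in Set.Ioo (0 : ℝ) 1, ENNReal.ofReal (F.jac s t) * g (pth (F.Z s) t) := by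
  have hsub : E ×ˢ Ioo (0 : ℝ) 1 ⊆ F.J ×ˢ Ioo (0 : ℝ) 1 := prod_mono_left hJ
  have hm : MeasurableSet (E ×ˢ Ioo (0 : ℝ) 1) := hE.prod measurableSet_Ioo
  rw [F.img_eq, lintegral_image_eq_lintegral_abs_det_fderiv_mul volume hm
    (f' := fun q => linUV (pth (F.Y q.1) q.2) (vel F q.1 q.2))
    (fun q hq => (F.hasStrictFDerivAt' (hJ hq.1) hq.2).hasFDerivAt.hasFDerivWithinAt)
    (F.injOn'.mono hsub)]
  have h1 : ∫⁻ q in E ×ˢ Ioo (0 : ℝ) 1,
      ENNReal.ofReal |(linUV (pth (F.Y q.1) q.2) (vel F q.1 q.2)).det| *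
        g (pth (F.Z q.1) q.2) =
      ∫⁻ q in E ×ˢ Ioo (0 : ℝ) 1, ENNReal.ofReal (F.jac q.1 q.2) * g (pth (F.Z q.1) q.2) := by
    refine setLIntegral_congr_fun hm ?_
    intro q hq
    simp only
    rw [linUV_det, F.det_eq, abs_neg, abs_of_pos (F.jac_pos' (hJ hq.1) hq.2)]
  rw [h1, Measure.volume_eq_prod, setLIntegral_prod]
  refine AEMeasurable.mul ?_ ?_
  · refine ENNReal.measurable_ofReal.comp_aemeasurable ?_
    refine ContinuousOn.aemeasurable ?_ hm
    rintro ⟨s, t⟩ ⟨hs, ht⟩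
    have hτ : ContinuousAt (fun q : ℝ × ℝ => F.τ q.1) (s, t) :=
      ContinuousAt.comp (f := Prod.fst) (F.deriv_tau s (hJ hs)).continuousAt continuousAt_fst
    have hV := F.continuousAt_V (hJ hs) t
    have hY := F.continuousAt_mapY (hJ hs) t
    have : ContinuousAt (fun q : ℝ × ℝ => F.jac q.1 q.2) (s, t) := by
      unfold Fam.jac det2
      exact hτ.mul ((hV.fst.mul hY.snd).sub (hV.snd.mul hY.fst))
    exact this.continuousWithinAt
  · exact hg.comp_aemeasurable ((F.continuousOn_map.mono hsub).aemeasurable hm)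

end

end Pool.Agent.Lib.MP_95e7ec_an
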