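import Mathlib
import Pool.Agent.Lib.MP_95e7ec_an.AvgDefs
import Pool.Agent.Lib.MP_95e7ec_an.Paths
import Pool.Agent.Lib.MP_95e7ec_an.Orbits

/-!
# The orbits of a family: closed orbits and their lengths (task C6a)
-/

set_option autoImplicit false

open Set Filter Topology MeasureTheory

namespace Pool.Agent.Lib.MP_95e7ec_an

private theorem nm_vfc_rotA {D : ℕ} (μ : Pr D) (α : ℝ) (z : ℝ × ℝ) :
    nm (vfc (rotA μ α) z) = nm (vfc μ z) := by
  have h1 : (vfc (rotA μ α) z).1 = Real.cos α * pe μ.1 z.1 z.2 - Real.sin α * pe μ.2 z.1 z.2 := by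
    simp only [vfc, rotA, rot, pe, Prod.fst_add, Prod.smul_fst, Pi.add_apply, Pi.smul_apply,
      smul_eq_mul, Pi.neg_apply, Finset.mul_sum, ← Finset.sum_sub_distrib]
    refine Finset.sum_congr rfl fun a _ => Finset.sum_congr rfl fun b _ => ?_
    ring
  have h2 : (vfc (rotA μ α) z).2 = Real.sin α * pe μ.1 z.1 z.2 + Real.cos α * pe μ.2 z.1 z.2 := by
    simp only [vfc, rotA, rot, pe, Prod.snd_add, Prod.smul_snd, Pi.add_apply, Pi.smul_apply,
      smul_eq_mul, Finset.mul_sum, ← Finset.sum_add_distrib]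
    refine Finset.sum_congr rfl fun a _ => Finset.sum_congr rfl fun b _ => ?_
    ring
  unfold nm
  rw [h1, h2]
  congr 1
  have h3 := Real.sin_sq_add_cos_sq α
  simp only [vfc]
  linear_combination (pe μ.1 z.1 z.2 ^ 2 + pe μ.2 z.1 z.2 ^ 2) * h3

private theorem continuous_nm' : Continuous nm := by
  unfold nm
  fun_prop

private theorem nm_nonneg' (u : ℝ × ℝ) : 0 ≤ nm u := Real.sqrt_nonneg _

private theorem pth_val (z : A × A) (t : unitInterval) : pth z t = at' z t := by
  simp [pth, at', IccExtend_val]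

variable {D : ℕ} {μ : Pr D} {Ω : Set (ℝ × ℝ)}

/-- every orbit of the family is a closed orbit of the turned field -/
theorem Fam.isClosedOrbit (F : Fam μ Ω) {s : ℝ} (hs : s ∈ F.J) :
    IsClosedOrbit (vfc (rotA μ (F.a s))) (F.orb s) := by
  obtain ⟨γ, h1, h2, h3, h4, h5⟩ := (F.sol s hs).exists_curve (F.tau_pos s hs) (F.closed s hs)
  refine ⟨γ, F.τ s, F.tau_pos s hs, h1, h2, ?_, h5.symm⟩
  have hhalf : (1 / 2 : ℝ) ∈ unitInterval := ⟨by norm_num, by norm_num⟩
  refine ⟨F.τ s * ((0 : unitInterval) : ℝ), F.τ s * ((⟨1 / 2, hhalf⟩ : unitInterval) : ℝ), ?_⟩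
  rw [h4, h4]
  intro h
  have h6 := (F.inj s hs s hs 0 ⟨1 / 2, hhalf⟩ (by simp) (by
    intro h7
    have := congrArg Subtype.val h7
    norm_num at this) h).2
  have := congrArg Subtype.val h6
  norm_num at this

private theorem Fam.integral_eq (F : Fam μ Ω) {s : ℝ} {γ : ℝ → ℝ × ℝ}
    (hT : 0 < F.τ s)
    (h4 : ∀ u : unitInterval, γ (F.τ s * u) = at' (F.Z s) u) :
    ∫ t in (0 : ℝ)..(F.τ s), nm (vfc (rotA μ (F.a s)) (γ t)) = F.len s := by
  have h1 := intervalIntegral.integral_comp_mul_left (a := 0) (b := 1)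
    (fun t => nm (vfc (rotA μ (F.a s)) (γ t))) hT.ne'
  rw [mul_zero, mul_one, smul_eq_mul] at h1
  unfold Fam.len
  rw [intervalIntegral.integral_const_mul]
  have h2 : ∫ x in (0 : ℝ)..1, nm (vfc (rotA μ (F.a s)) (γ (F.τ s * x)))
      = ∫ t in (0 : ℝ)..1, nm (vfc μ (pth (F.Z s) t)) := by
    apply intervalIntegral.integral_congr
    intro t ht
    rw [uIcc_of_le zero_le_one] at ht
    simp only
    rw [nm_vfc_rotA]
    have h5 := h4 ⟨t, ht⟩
    simp only at h5
    rw [h5, ← pth_val]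
  rw [← h2, h1, ← mul_assoc, mul_inv_cancel₀ hT.ne', one_mul]

theorem Fam.orbitLength_le (F : Fam μ Ω) {s : ℝ} (hs : s ∈ F.J) :
    orbitLength (vfc (rotA μ (F.a s))) (F.orb s) ≤ ENNReal.ofReal (F.len s) := by
  obtain ⟨γ, h1, h2, h3, h4, h5⟩ := (F.sol s hs).exists_curve (F.tau_pos s hs) (F.closed s hs)
  rw [← Fam.integral_eq F (F.tau_pos s hs) h4]
  unfold orbitLength
  exact iInf_le_of_le γ (iInf_le_of_le (F.τ s)
    (iInf_le_of_le ⟨F.tau_pos s hs, h1, h2, h5.symm⟩ le_rfl))

/-- the length of the orbits of the family (the infimum is attained at the first period) -/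
theorem Fam.orbitLength_eq (F : Fam μ Ω) {s : ℝ}
    (hs : s ∈ F.J) :
    orbitLength (vfc (rotA μ (F.a s))) (F.orb s) = ENNReal.ofReal (F.len s) := by
  apply le_antisymm (F.orbitLength_le hs)
  obtain ⟨γ, h1, h2, h3, h4, h5⟩ := (F.sol s hs).exists_curve (F.tau_pos s hs) (F.closed s hs)
  rw [← Fam.integral_eq F (F.tau_pos s hs) h4]
  unfold orbitLength
  refine le_iInf fun γ' => le_iInf fun T' => le_iInf fun hh => ?_
  obtain ⟨hT', g1, g2, g3⟩ := hh
  apply ENNReal.ofReal_le_ofReal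
  -- a common point
  have hmem : γ 0 ∈ Set.range γ' := by
    rw [← g3]
    unfold Fam.orb
    rw [← h5]
    exact ⟨0, rfl⟩
  obtain ⟨t0, ht0⟩ := hmem
  have heq : (fun t => γ' (t + t0)) = γ :=
    curve_unique (hasDerivAt_shift g1 t0) h1 (by simpa using ht0)
  have hγT' : ∀ t, γ (t + T') = γ t := by
    intro t
    rw [← heq]
    simp only
    rw [show t + T' + t0 = (t + t0) + T' by ring, g2]
  have hge : F.τ s ≤ T' := by
    by_contra hlt
    push Not at hlt
    have hT := F.tau_pos s hs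
    have hu : T' / F.τ s ∈ unitInterval :=
      ⟨by positivity, by rw [div_le_one hT]; exact hlt.le⟩
    have e1 : γ (F.τ s * ((⟨T' / F.τ s, hu⟩ : unitInterval) : ℝ)) = γ 0 := by
      simp only
      rw [mul_div_cancel₀ _ hT.ne']
      have := hγT' 0
      rwa [zero_add] at this
    have e2 : γ (F.τ s * ((0 : unitInterval) : ℝ)) = γ 0 := by simp
    rw [h4] at e1 e2
    have e3 := (F.inj s hs s hs ⟨T' / F.τ s, hu⟩ 0 (by
      intro h7
      have h8 := congrArg Subtype.val h7
      simp only [Set.Icc.coe_one] at h8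
      rw [div_eq_one_iff_eq hT.ne'] at h8
      linarith) (by simp) (e1.trans e2.symm)).2
    have h8 := congrArg Subtype.val e3
    simp only [Set.Icc.coe_zero] at h8
    rw [div_eq_zero_iff] at h8
    rcases h8 with h8 | h8 <;> linarith
  -- integrals
  have hcγ : Continuous γ := continuous_iff_continuousAt.2 fun t => (h1 t).continuousAt
  have hcγ' : Continuous γ' := continuous_iff_continuousAt.2 fun t => (g1 t).continuousAt
  have hcv := continuous_vfc (rotA μ (F.a s))
  have hf : Continuous fun t => nm (vfc (rotA μ (F.a s)) (γ t)) :=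
    continuous_nm'.comp (hcv.comp hcγ)
  have hf' : Continuous fun t => nm (vfc (rotA μ (F.a s)) (γ' t)) :=
    continuous_nm'.comp (hcv.comp hcγ')
  have i1 : ∫ t in (0 : ℝ)..T', nm (vfc (rotA μ (F.a s)) (γ' t))
      = ∫ t in (0 : ℝ)..T', nm (vfc (rotA μ (F.a s)) (γ t)) := by
    have hper : Function.Periodic (fun t => nm (vfc (rotA μ (F.a s)) (γ' t))) T' := by
      intro t
      simp only
      rw [g2]
    have e1 := hper.intervalIntegral_add_eq 0 t0
    rw [zero_add] at e1
    rw [e1, ← heq]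
    have e2 := intervalIntegral.integral_comp_add_right (a := 0) (b := T')
      (fun t => nm (vfc (rotA μ (F.a s)) (γ' t))) t0
    rw [zero_add, add_comm T' t0] at e2
    exact e2.symm
  rw [i1]
  exact intervalIntegral.integral_mono_interval le_rfl (F.tau_pos s hs).le hge
    (Eventually.of_forall fun t => nm_nonneg' _) (hf.intervalIntegrable _ _)

end Pool.Agent.Lib.MP_95e7ec_an
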