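import Mathlib
import Pool.Agent.Lib.MP_95e7ec_an.AvgDefs
import Pool.Agent.Lib.MP_95e7ec_an.DetPos
import Pool.Agent.Lib.MP_95e7ec_an.JacPos

/-!
# The length inequality for a family of closed orbits (task C4)
-/

set_option autoImplicit false

open Set Filter Topology MeasureTheory

namespace Pool.Agent.Lib.MP_95e7ec_an

/-- the pointwise identity and the bound by the gradient of the argument -/
private theorem len_alg (P Q px py qx qy : ℝ) :
    (px + qy) * (P ^ 2 + Q ^ 2) - (P * (px * P + py * Q) + Q * (qx * P + qy * Q)) =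
      -Q * (P * qx - Q * px) + P * (P * qy - Q * py) := by
  ring

/-- The length inequality. `w = det(V,y)/|V|` satisfies
`w' = τ |V| (w ∂_N arg X + a')`, `w(0) = w(1)`. -/
theorem length_le_of {D : ℕ} (μ : Pr D) (τ τ' a' : ℝ) (hτ : 0 < τ) (x y0 : ℝ × ℝ) (z y : A × A)
    (hz : Sol μ τ x z) (hz1 : at' z 1 = x) (hy0 : at' y 0 = y0) (hy1 : at' y 1 = y0)
    (hne : ∀ t, vfc μ (at' z t) ≠ 0)
    (l1 : y.1 = ContinuousMap.const _ y0.1 + τ' • prim (pe μ.1 z.1 z.2) +
      τ • prim (pex μ.1 z.1 z.2 * y.1 + pey μ.1 z.1 z.2 * y.2 + a' • pe (rot μ).1 z.1 z.2))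
    (l2 : y.2 = ContinuousMap.const _ y0.2 + τ' • prim (pe μ.2 z.1 z.2) +
      τ • prim (pex μ.2 z.1 z.2 * y.1 + pey μ.2 z.1 z.2 * y.2 + a' • pe (rot μ).2 z.1 z.2)) :
    |a'| * ∫ t in (0 : ℝ)..1, τ * nm (vfc μ (pth z t)) ≤
      ∫ t in (0 : ℝ)..1, τ * |det2 (vfc μ (pth z t)) (pth y t)| * argGrad μ (pth z t) := by
  have hz0 : at' z 0 = x := by
    obtain ⟨h1, h2⟩ := hz
    have e : ∀ g : A, (prim g) 0 = 0 := fun g => by
      change ∫ s in (0 : ℝ)..((0 : unitInterval) : ℝ), Set.IccExtend (zero_le_one' ℝ) g s = 0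
      simp
    ext
    · change z.1 0 = x.1
      rw [h1]
      simp [e]
    · change z.2 0 = x.2
      rw [h2]
      simp [e]
  have hpc := jp_pth_continuous z
  have hpyc := jp_pth_continuous y
  -- abbreviations
  set P : ℝ → ℝ := fun t => pe μ.1 (pth z t).1 (pth z t).2 with hP
  set Q : ℝ → ℝ := fun t => pe μ.2 (pth z t).1 (pth z t).2 with hQ
  set px : ℝ → ℝ := fun t => pex μ.1 (pth z t).1 (pth z t).2 with hpx
  set py : ℝ → ℝ := fun t => pey μ.1 (pth z t).1 (pth z t).2 with hpy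
  set qx : ℝ → ℝ := fun t => pex μ.2 (pth z t).1 (pth z t).2 with hqx
  set qy : ℝ → ℝ := fun t => pey μ.2 (pth z t).1 (pth z t).2 with hqy
  set Dt : ℝ → ℝ := fun t => det2 (vfc μ (pth z t)) (pth y t) with hDt
  have cP : Continuous P := (jp_pe_continuous μ.1).comp hpc
  have cQ : Continuous Q := (jp_pe_continuous μ.2).comp hpc
  have cpx : Continuous px := (jp_pex_continuous μ.1).comp hpc
  have cpy : Continuous py := (jp_pey_continuous μ.1).comp hpc
  have cqx : Continuous qx := (jp_pex_continuous μ.2).comp hpc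
  have cqy : Continuous qy := (jp_pey_continuous μ.2).comp hpc
  have cD : Continuous Dt :=
    (cP.mul (continuous_snd.comp hpyc)).sub (cQ.mul (continuous_fst.comp hpyc))
  have hN : ∀ t, 0 < P t ^ 2 + Q t ^ 2 := by
    intro t
    have h := hne (Set.projIcc 0 1 (zero_le_one' ℝ) t)
    rw [← jp_pth_proj] at h
    by_contra hcon
    push Not at hcon
    have h1 : P t = 0 := by nlinarith [sq_nonneg (P t), sq_nonneg (Q t)]
    have h2 : Q t = 0 := by nlinarith [sq_nonneg (P t), sq_nonneg (Q t)]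
    exact h (Prod.ext h1 h2)
  set N : ℝ → ℝ := fun t => Real.sqrt (P t ^ 2 + Q t ^ 2) with hNd
  have hNp : ∀ t, 0 < N t := fun t => Real.sqrt_pos.mpr (hN t)
  have hNs : ∀ t, N t ^ 2 = P t ^ 2 + Q t ^ 2 := fun t => Real.sq_sqrt (hN t).le
  have cN : Continuous N := Real.continuous_sqrt.comp ((cP.pow 2).add (cQ.pow 2))
  have hnm : ∀ t, nm (vfc μ (pth z t)) = N t := fun t => rfl
  set ψ : ℝ → ℝ := fun t => (-Q t * (P t * qx t - Q t * px t) + P t * (P t * qy t - Q t * py t)) /
    N t ^ 3 with hψ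
  have cψ : Continuous ψ := by
    apply Continuous.div _ (cN.pow 3) (fun t => (pow_pos (hNp t) 3).ne')
    fun_prop
  have hArg : ∀ t, argGrad μ (pth z t) =
      (|P t * qx t - Q t * px t| + |P t * qy t - Q t * py t|) / (P t ^ 2 + Q t ^ 2) := fun t => rfl
  have cA : Continuous (fun t => argGrad μ (pth z t)) := by
    have : (fun t => argGrad μ (pth z t)) = fun t =>
        (|P t * qx t - Q t * px t| + |P t * qy t - Q t * py t|) / (P t ^ 2 + Q t ^ 2) :=
      funext hArg
    rw [this]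
    apply Continuous.div _ (by fun_prop) (fun t => (hN t).ne')
    exact (continuous_abs.comp ((cP.mul cqx).sub (cQ.mul cpx))).add
      (continuous_abs.comp ((cP.mul cqy).sub (cQ.mul cpy)))
  have hψA : ∀ t, |ψ t| ≤ argGrad μ (pth z t) := by
    intro t
    have hPN : |P t| ≤ N t := by
      rw [← Real.sqrt_sq_eq_abs]
      apply Real.sqrt_le_sqrt
      nlinarith [sq_nonneg (Q t)]
    have hQN : |Q t| ≤ N t := by
      rw [← Real.sqrt_sq_eq_abs]
      apply Real.sqrt_le_sqrt
      nlinarith [sq_nonneg (P t)]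
    rw [hArg, ← hNs, hψ]
    simp only
    rw [abs_div, abs_of_pos (pow_pos (hNp t) 3), div_le_div_iff₀ (pow_pos (hNp t) 3)
      (pow_pos (hNp t) 2)]
    have h1 : |-Q t * (P t * qx t - Q t * px t) + P t * (P t * qy t - Q t * py t)| ≤
        N t * (|P t * qx t - Q t * px t| + |P t * qy t - Q t * py t|) := by
      refine (abs_add_le _ _).trans ?_
      rw [abs_mul, abs_mul, abs_neg, mul_add]
      exact add_le_add (mul_le_mul_of_nonneg_right hQN (abs_nonneg _))
        (mul_le_mul_of_nonneg_right hPN (abs_nonneg _))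
    calc |-Q t * (P t * qx t - Q t * px t) + P t * (P t * qy t - Q t * py t)| * N t ^ 2
        ≤ N t * (|P t * qx t - Q t * px t| + |P t * qy t - Q t * py t|) * N t ^ 2 :=
          mul_le_mul_of_nonneg_right h1 (by positivity)
      _ = (|P t * qx t - Q t * px t| + |P t * qy t - Q t * py t|) * N t ^ 3 := by ring
  -- the derivative of `w = D / N`
  have hw : ∀ t ∈ Set.Ioo (0 : ℝ) 1, HasDerivAt (fun s => Dt s / N s)
      (τ * (Dt t * ψ t) + a' * (τ * N t)) t := by
    intro t ht
    have d1 : HasDerivAt P (τ * (px t * P t + py t * Q t)) t := jp_vel1 hz ht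
    have d2 : HasDerivAt Q (τ * (qx t * P t + qy t * Q t)) t := jp_vel2 hz ht
    have d3 : HasDerivAt Dt (τ * (px t + qy t) * Dt t + τ * a' * (P t ^ 2 + Q t ^ 2)) t :=
      jp_det hz l1 l2 ht
    have d4 : HasDerivAt N ((2 * P t * (τ * (px t * P t + py t * Q t)) +
        2 * Q t * (τ * (qx t * P t + qy t * Q t))) / (2 * N t)) t := by
      have := ((d1.pow 2).add (d2.pow 2)).sqrt (hN t).ne'
      refine this.congr_deriv ?_
      simp only [Pi.add_apply, Pi.pow_apply, Nat.cast_ofNat, Nat.add_one_sub_one, pow_one]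
      rfl
    refine (d3.div d4 (hNp t).ne').congr_deriv ?_
    have hN0 := (hNp t).ne'
    have hNs' := hNs t
    simp only [hψ]
    rw [← len_alg, ← hNs' ]
    field_simp
    ring
  have hFTC := intervalIntegral.integral_eq_sub_of_hasDerivAt_of_le (zero_le_one' ℝ)
    (f := fun s => Dt s / N s)
    ((cD.div cN (fun t => (hNp t).ne')).continuousOn) hw
    (Continuous.intervalIntegrable (by fun_prop) _ _)
  have h01 : Dt 1 / N 1 = Dt 0 / N 0 := by
    have e1 : pth z 1 = pth z 0 := by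
      have a1 : pth z 1 = at' z 1 := jp_pth_coe z 1
      have a2 : pth z 0 = at' z 0 := jp_pth_coe z 0
      rw [a1, a2, hz0, hz1]
    have e2 : pth y 1 = pth y 0 := by
      have a1 : pth y 1 = at' y 1 := jp_pth_coe y 1
      have a2 : pth y 0 = at' y 0 := jp_pth_coe y 0
      rw [a1, a2, hy0, hy1]
    simp only [hDt, hNd, hP, hQ]
    rw [e1, e2]
  rw [h01, sub_self, intervalIntegral.integral_add (Continuous.intervalIntegrable (by fun_prop) _ _)
    (Continuous.intervalIntegrable (by fun_prop) _ _), intervalIntegral.integral_const_mul a']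
    at hFTC
  have hkey : a' * (∫ t in (0 : ℝ)..1, τ * N t) = -∫ t in (0 : ℝ)..1, τ * (Dt t * ψ t) := by
    linarith
  have hnn : 0 ≤ ∫ t in (0 : ℝ)..1, τ * N t :=
    intervalIntegral.integral_nonneg zero_le_one (fun t _ => by
      have := hNp t
      positivity)
  have hl : |a'| * ∫ t in (0 : ℝ)..1, τ * nm (vfc μ (pth z t)) =
      |∫ t in (0 : ℝ)..1, τ * (Dt t * ψ t)| := by
    have : ∫ t in (0 : ℝ)..1, τ * nm (vfc μ (pth z t)) = ∫ t in (0 : ℝ)..1, τ * N t := rfl
    rw [this, ← abs_neg (∫ t in (0 : ℝ)..1, τ * (Dt t * ψ t)), ← hkey, abs_mul, abs_of_nonneg hnn]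
  rw [hl]
  refine (intervalIntegral.abs_integral_le_integral_abs zero_le_one).trans ?_
  apply intervalIntegral.integral_mono_on zero_le_one
    (Continuous.intervalIntegrable (by fun_prop) _ _)
    (Continuous.intervalIntegrable (((continuous_const.mul (continuous_abs.comp cD))).mul cA) _ _)
  intro t _
  rw [abs_mul, abs_mul, abs_of_pos hτ]
  calc τ * (|Dt t| * |ψ t|) = τ * |Dt t| * |ψ t| := by ring
    _ ≤ τ * |Dt t| * argGrad μ (pth z t) :=
        mul_le_mul_of_nonneg_left (hψA t) (by positivity)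

end Pool.Agent.Lib.MP_95e7ec_an
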