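import Mathlib

set_option autoImplicit false

open Set Filter Topology MeasureTheory
open scoped ContDiff ENNReal

namespace Pool.Agent.Lib.MP_95e7ec_an

/-- one-dimensional area formula on a set where `a` is injective -/
private theorem oneDim_inj {D : Set ℝ} (hD : MeasurableSet D)
    {a a' : ℝ → ℝ} (ha : ∀ s ∈ D, HasDerivAt a (a' s) s) (hinj : InjOn a D)
    {L : ℝ → ℝ≥0∞} (hL : Measurable L) :
    Measurable (fun α : ℝ => ∑' s : ℝ, {s : ℝ | s ∈ D ∧ a s = α}.indicator L s) ∧
    ∫⁻ α, ∑' s : ℝ, {s : ℝ | s ∈ D ∧ a s = α}.indicator L s =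
      ∫⁻ s in D, ENNReal.ofReal |a' s| * L s := by
  have hcont : ContinuousOn a D := fun s hs => (ha s hs).continuousAt.continuousWithinAt
  have hemb : MeasurableEmbedding (D.domRestrict a) := hcont.measurableEmbedding hD hinj
  have hval : ∀ s ∈ D, ∑' t : ℝ, {t : ℝ | t ∈ D ∧ a t = a s}.indicator L t = L s := by
    intro s hs
    rw [tsum_eq_single s]
    · simp [hs]
    · intro t ht
      apply indicator_of_notMem
      rintro ⟨h1, h2⟩
      exact ht (hinj h1 hs h2)
  have hzero : ∀ α, α ∉ a '' D → ∑' t : ℝ, {t : ℝ | t ∈ D ∧ a t = α}.indicator L t = 0 := by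
    intro α hα
    rw [ENNReal.tsum_eq_zero]
    intro t
    apply indicator_of_notMem
    rintro ⟨h1, h2⟩
    exact hα ⟨t, h1, h2⟩
  have hext : (fun α : ℝ => ∑' s : ℝ, {s : ℝ | s ∈ D ∧ a s = α}.indicator L s) =
      Function.extend (D.domRestrict a) (fun s : D => L s) (fun _ => 0) := by
    funext α
    by_cases h : α ∈ a '' D
    · obtain ⟨s, hs, rfl⟩ := h
      have h1 := hemb.injective.extend_apply (fun s : D => L s) (fun _ => 0) ⟨s, hs⟩
      simp only [Set.domRestrict_apply] at h1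
      rw [h1]
      exact hval s hs
    · rw [Function.extend_apply', hzero α h]
      rintro ⟨s, hs⟩
      exact h ⟨s.1, s.2, hs⟩
  constructor
  · rw [hext]
    exact hemb.measurable_extend (hL.comp measurable_subtype_coe) measurable_const
  · have himg : MeasurableSet (a '' D) := hD.image_of_continuousOn_injOn hcont hinj
    have h1 : ∫⁻ α, ∑' s : ℝ, {s : ℝ | s ∈ D ∧ a s = α}.indicator L s =
        ∫⁻ α in a '' D, ∑' s : ℝ, {s : ℝ | s ∈ D ∧ a s = α}.indicator L s := by
      rw [← lintegral_indicator himg]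
      congr 1
      funext α
      by_cases h : α ∈ a '' D
      · rw [indicator_of_mem h]
      · rw [indicator_of_notMem h, hzero α h]
    rw [h1, lintegral_image_eq_lintegral_abs_deriv_mul hD
      (fun s hs => (ha s hs).hasDerivWithinAt) hinj]
    refine setLIntegral_congr_fun hD ?_
    intro s hs
    simp only
    rw [hval s hs]

/-- For a `C¹` function `a` on an open set `J ⊆ ℝ`, a measurable set `E ⊆ J` and a measurable
weight `L`, the function `α ↦ ∑_{s ∈ E, a(s) = α} L(s)` is a.e. equal to a measurable function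
with integral `∫_E |a'| L`. -/
theorem one_dim {J E : Set ℝ} (hJ : IsOpen J) (hE : MeasurableSet E) (hEJ : E ⊆ J)
    {a a' : ℝ → ℝ} (ha : ∀ s ∈ J, HasDerivAt a (a' s) s) (ha' : ContinuousOn a' J)
    {L : ℝ → ℝ≥0∞} (hL : Measurable L) :
    AEMeasurable (fun α : ℝ => ∑' s : {s : ℝ // s ∈ E ∧ a s = α}, L s) volume ∧
    ∫⁻ α, ∑' s : {s : ℝ // s ∈ E ∧ a s = α}, L s = ∫⁻ s in E, ENNReal.ofReal |a' s| * L s := by
  classical
  -- the open set where the derivative does not vanish
  set U : Set ℝ := J ∩ a' ⁻¹' {0}ᶜ with hU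
  have hUo : IsOpen U := ha'.isOpen_inter_preimage hJ isOpen_compl_singleton
  -- rational intervals
  let e : ℕ ≃ ℚ × ℚ := (Denumerable.eqv (ℚ × ℚ)).symm
  let W : ℕ → Set ℝ := fun n =>
    if Ioo ((e n).1 : ℝ) ((e n).2 : ℝ) ⊆ U then Ioo ((e n).1 : ℝ) ((e n).2 : ℝ) else ∅
  have hWU : ∀ n, W n ⊆ U := by
    intro n
    by_cases h : Ioo ((e n).1 : ℝ) ((e n).2 : ℝ) ⊆ U
    · simp only [W, if_pos h]; exact h
    · simp only [W, if_neg h]; exact empty_subset _
  have hWm : ∀ n, MeasurableSet (W n) := by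
    intro n
    by_cases h : Ioo ((e n).1 : ℝ) ((e n).2 : ℝ) ⊆ U
    · simp only [W, if_pos h]; exact measurableSet_Ioo
    · simp only [W, if_neg h]; exact MeasurableSet.empty
  have hWinj : ∀ n, InjOn a (W n) := by
    intro n
    by_cases h : Ioo ((e n).1 : ℝ) ((e n).2 : ℝ) ⊆ U
    · simp only [W, if_pos h]
      have key : ∀ x ∈ Ioo ((e n).1 : ℝ) ((e n).2 : ℝ), ∀ y ∈ Ioo ((e n).1 : ℝ) ((e n).2 : ℝ),
          x < y → a x ≠ a y := by
        intro x hx y hy hxy hax
        have hsub : Icc x y ⊆ U := fun z hz => h ⟨lt_of_lt_of_le hx.1 hz.1, lt_of_le_of_lt hz.2 hy.2⟩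
        obtain ⟨c, hc, hc0⟩ := exists_hasDerivAt_eq_zero hxy
          (fun z hz => (ha z (hsub hz).1).continuousAt.continuousWithinAt) hax
          (fun z hz => ha z (hsub (Ioo_subset_Icc_self hz)).1)
        exact (hsub (Ioo_subset_Icc_self hc)).2 hc0
      intro x hx y hy hxy
      rcases lt_trichotomy x y with h1 | h1 | h1
      · exact absurd hxy (key x hx y hy h1)
      · exact h1
      · exact absurd hxy.symm (key y hy x hx h1)
    · simp only [W, if_neg h]; exact injOn_empty _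
  have hWun : ⋃ n, W n = U := by
    apply Subset.antisymm (iUnion_subset hWU)
    intro x hx
    obtain ⟨l, u, ⟨hlx, hxu⟩, hlu⟩ := mem_nhds_iff_exists_Ioo_subset.1 (hUo.mem_nhds hx)
    obtain ⟨p, hp1, hp2⟩ := exists_rat_btwn hlx
    obtain ⟨q, hq1, hq2⟩ := exists_rat_btwn hxu
    refine mem_iUnion.2 ⟨e.symm (p, q), ?_⟩
    have hsub : Ioo ((e (e.symm (p, q))).1 : ℝ) ((e (e.symm (p, q))).2 : ℝ) ⊆ U := by
      rw [Equiv.apply_symm_apply]
      exact fun z hz => hlu ⟨lt_trans hp1 hz.1, lt_trans hz.2 hq2⟩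
    simp only [W, if_pos hsub]
    rw [Equiv.apply_symm_apply]
    exact ⟨hp2, hq1⟩
  -- disjoint pieces
  let D : ℕ → Set ℝ := fun n => E ∩ disjointed W n
  have hDm : ∀ n, MeasurableSet (D n) := fun n => hE.inter (MeasurableSet.disjointed hWm n)
  have hDW : ∀ n, D n ⊆ W n := fun n => inter_subset_right.trans (disjointed_subset W n)
  have hDinj : ∀ n, InjOn a (D n) := fun n => (hWinj n).mono (hDW n)
  have hDd : Pairwise (Function.onFun Disjoint D) := by
    intro m n hmn
    exact (disjoint_disjointed W hmn).mono inter_subset_right inter_subset_right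
  have hDun : ⋃ n, D n = E ∩ U := by
    rw [← inter_iUnion, iUnion_disjointed, hWun]
  have hDa : ∀ n, ∀ s ∈ D n, HasDerivAt a (a' s) s := fun n s hs => ha s (hEJ hs.1)
  -- the null set
  have hnull : volume (a '' (E \ U)) = 0 := by
    refine addHaar_image_eq_zero_of_det_fderivWithin_eq_zero (f' := fun s =>
      ContinuousLinearMap.toSpanSingleton ℝ (a' s)) volume ?_ ?_
    · intro s hs
      exact (ha s (hEJ hs.1)).hasFDerivAt.hasFDerivWithinAt
    · intro s hs
      rw [ContinuousLinearMap.det_toSpanSingleton]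
      by_contra h
      exact hs.2 ⟨hEJ hs.1, h⟩
  -- rewriting of the sum
  have hae : (fun α : ℝ => ∑' s : {s : ℝ // s ∈ E ∧ a s = α}, L s) =ᵐ[volume]
      fun α : ℝ => ∑' n : ℕ, ∑' s : ℝ, {s : ℝ | s ∈ D n ∧ a s = α}.indicator L s := by
    have h0 : ∀ᵐ α : ℝ, α ∉ a '' (E \ U) := measure_eq_zero_iff_ae_notMem.1 hnull
    filter_upwards [h0] with α hα
    rw [ENNReal.tsum_comm]
    have h1 : ∑' s : {s : ℝ // s ∈ E ∧ a s = α}, L s =
        ∑' s : ℝ, {s : ℝ | s ∈ E ∧ a s = α}.indicator L s := tsum_subtype _ _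
    rw [h1]
    refine tsum_congr fun s => ?_
    by_cases hs : s ∈ E ∧ a s = α
    · have hsU : s ∈ E ∩ U := by
        refine ⟨hs.1, ?_⟩
        by_contra h
        exact hα ⟨s, ⟨hs.1, h⟩, hs.2⟩
      rw [← hDun] at hsU
      obtain ⟨n, hn⟩ := mem_iUnion.1 hsU
      rw [tsum_eq_single n]
      · rw [indicator_of_mem (show s ∈ {s : ℝ | s ∈ E ∧ a s = α} from hs),
          indicator_of_mem (show s ∈ {s : ℝ | s ∈ D n ∧ a s = α} from ⟨hn, hs.2⟩)]
      · intro m hm
        apply indicator_of_notMem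
        rintro ⟨h2, -⟩
        exact (disjoint_left.1 (hDd hm) h2) hn
    · rw [indicator_of_notMem (show s ∉ {s : ℝ | s ∈ E ∧ a s = α} from hs)]
      symm
      rw [ENNReal.tsum_eq_zero]
      intro n
      apply indicator_of_notMem
      rintro ⟨h2, h3⟩
      exact hs ⟨h2.1, h3⟩
  have hmeas : ∀ n, Measurable
      (fun α : ℝ => ∑' s : ℝ, {s : ℝ | s ∈ D n ∧ a s = α}.indicator L s) := fun n =>
    (oneDim_inj (hDm n) (hDa n) (hDinj n) hL).1
  refine ⟨⟨_, Measurable.tsum hmeas, hae⟩, ?_⟩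
  rw [lintegral_congr_ae hae, lintegral_tsum (fun n => (hmeas n).aemeasurable)]
  have h1 : ∀ n, ∫⁻ α, ∑' s : ℝ, {s : ℝ | s ∈ D n ∧ a s = α}.indicator L s =
      ∫⁻ s in D n, ENNReal.ofReal |a' s| * L s := fun n =>
    (oneDim_inj (hDm n) (hDa n) (hDinj n) hL).2
  simp_rw [h1]
  rw [← lintegral_iUnion hDm hDd, hDun]
  have h2 : ∫⁻ s in E \ U, ENNReal.ofReal |a' s| * L s = 0 := by
    rw [setLIntegral_congr_fun (g := fun _ => 0) (hE.diff hUo.measurableSet)]
    · simp
    · intro s hs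
      have : a' s = 0 := by
        by_contra h
        exact hs.2 ⟨hEJ hs.1, h⟩
      simp [this]
  rw [← lintegral_inter_add_sdiff (fun s => ENNReal.ofReal |a' s| * L s) E hUo.measurableSet, h2,
    add_zero]

end Pool.Agent.Lib.MP_95e7ec_an
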