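import Mathlib
import Pool.Agent.Lib.MP_95e7ec_an.AvgBasic
import Pool.Agent.Lib.MP_95e7ec_an.ExistsFam
import Pool.Agent.Lib.MP_95e7ec_an.FamArea
import Pool.Agent.Lib.MP_95e7ec_an.FamGeom1
import Pool.Agent.Lib.MP_95e7ec_an.LenLe
import Pool.Agent.Lib.MP_95e7ec_an.OneDim

/-!
# Averaged Hilbert bound: assembly (task C10)
-/

set_option autoImplicit false

open Set Filter Topology MeasureTheory
open scoped ContDiff ENNReal

namespace Pool.Agent.Lib.MP_95e7ec_an

section
variable {D : ℕ} {μ : Pr D} {Ω : Set (ℝ × ℝ)}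

theorem Fam.tau_cont (F : Fam μ Ω) : ContinuousOn F.τ F.J := fun s hs =>
  (F.deriv_tau s hs).continuousAt.continuousWithinAt

theorem Fam.Z_cont (F : Fam μ Ω) : ContinuousOn F.Z F.J := fun s hs =>
  (F.deriv_Z s hs).continuousAt.continuousWithinAt

theorem pth_coe (z : A × A) (t : unitInterval) : pth z t = at' z t := by
  simp [pth, at']

theorem continuous_pth_uncurry : Continuous fun q : (A × A) × ℝ => pth q.1 q.2 := by
  have h : ∀ t : ℝ, ∀ f : A, Set.IccExtend (zero_le_one' ℝ) f t =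
      f (Set.projIcc 0 1 (zero_le_one' ℝ) t) := fun t f => rfl
  unfold pth
  simp only [h]
  have hp : Continuous fun q : (A × A) × ℝ => Set.projIcc (0 : ℝ) 1 (zero_le_one' ℝ) q.2 :=
    continuous_projIcc.comp continuous_snd
  exact (ContinuousEval.continuous_eval.comp ((continuous_fst.comp continuous_fst).prodMk hp)).prodMk
    (ContinuousEval.continuous_eval.comp ((continuous_snd.comp continuous_fst).prodMk hp))

theorem continuous_pth (z : A × A) : Continuous (pth z) :=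
  continuous_pth_uncurry.comp (continuous_const.prodMk continuous_id)

theorem continuous_vfc_AS (μ : Pr D) : Continuous (vfc μ) := (vfc_contDiff μ (n := 0)).continuous

theorem Fam.len_cont (F : Fam μ Ω) : ContinuousOn F.len F.J := by
  have h1 : Continuous fun z : A × A => ∫ t in (0 : ℝ)..1, nm (vfc μ (pth z t)) := by
    apply intervalIntegral.continuous_parametric_intervalIntegral_of_continuous'
    exact continuous_nm.comp ((continuous_vfc_AS μ).comp continuous_pth_uncurry)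
  have h2 : F.len = fun s => F.τ s * ∫ t in (0 : ℝ)..1, nm (vfc μ (pth (F.Z s) t)) := by
    funext s
    rw [Fam.len, intervalIntegral.integral_const_mul]
  rw [h2]
  exact F.tau_cont.mul (h1.comp_continuousOn F.Z_cont)

/-- measurable extension of the length function -/
noncomputable def Fam.Lm (F : Fam μ Ω) : ℝ → ℝ≥0∞ := F.J.indicator fun s => ENNReal.ofReal (F.len s)

theorem Fam.measurable_Lm (F : Fam μ Ω) : Measurable F.Lm := by
  classical
  have h : ContinuousOn (fun s => ENNReal.ofReal (F.len s)) F.J :=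
    ENNReal.continuous_ofReal.comp_continuousOn F.len_cont
  have := ContinuousOn.measurable_piecewise (f := fun s => ENNReal.ofReal (F.len s))
    (g := fun _ => (0 : ℝ≥0∞)) h continuousOn_const F.isOpen_J.measurableSet
  rw [Fam.Lm]
  convert this using 1
  ext s
  by_cases hs : s ∈ F.J <;> simp [Set.piecewise, hs]

theorem Fam.Lm_of_mem (F : Fam μ Ω) {s : ℝ} (hs : s ∈ F.J) :
    F.Lm s = ENNReal.ofReal (F.len s) := by
  simp [Fam.Lm, hs]

theorem Fam.img_subset (F : Fam μ Ω) {E : Set ℝ} (hE : E ⊆ F.J) : F.img E ⊆ Ω := by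
  rintro z ⟨s, hs, t, _, _, rfl⟩
  exact F.sub s (hE hs) t

theorem Fam.img_mono (F : Fam μ Ω) {E E' : Set ℝ} (h : E ⊆ E') : F.img E ⊆ F.img E' := by
  rintro z ⟨s, hs, t, h0, h1, rfl⟩
  exact ⟨s, h hs, t, h0, h1, rfl⟩

/-- the midpoint of the unit interval -/
noncomputable def half : unitInterval := ⟨1 / 2, by norm_num, by norm_num⟩

theorem half_ne_zero : half ≠ 0 := by
  intro h
  have := congrArg Subtype.val h
  norm_num [half] at this

theorem half_ne_one : half ≠ 1 := by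
  intro h
  have := congrArg Subtype.val h
  norm_num [half] at this

theorem Fam.mid_mem (F : Fam μ Ω) {s : ℝ} (hs : s ∈ F.J) : at' (F.Z s) half ∈ F.img F.J :=
  ⟨s, hs, half, half_ne_zero, half_ne_one, rfl⟩

theorem Fam.mid_mem_orb (F : Fam μ Ω) (s : ℝ) : at' (F.Z s) half ∈ F.orb s := ⟨half, rfl⟩

/-- The parameters of the family `F k` whose orbit does not meet the regions of the previous
families. -/
def newPar (F : ℕ → Fam μ Ω) (k : ℕ) : Set ℝ :=
  {s | s ∈ (F k).J ∧ ∀ j < k, Disjoint ((F k).orb s) ((F j).img (F j).J)}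

theorem newPar_subset (F : ℕ → Fam μ Ω) (k : ℕ) : newPar F k ⊆ (F k).J := fun _ h => h.1

theorem isOpen_meet (F : Fam μ Ω) {U : Set (ℝ × ℝ)} (hU : IsOpen U) :
    IsOpen {s | s ∈ F.J ∧ (F.orb s ∩ U).Nonempty} := by
  rw [isOpen_iff_mem_nhds]
  rintro s ⟨hs, z, ⟨t, rfl⟩, hzU⟩
  have h1 : ContinuousAt F.Z s := (F.deriv_Z s hs).continuousAt
  have h2 : Continuous fun z : A × A => at' z t := by
    unfold at'
    fun_prop
  have h3 : ∀ᶠ s' in 𝓝 s, at' (F.Z s') t ∈ U :=
    (h2.continuousAt.comp h1).eventually (hU.mem_nhds hzU)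
  filter_upwards [F.isOpen_J.mem_nhds hs, h3] with s' hs' hm
  exact ⟨hs', _, ⟨t, rfl⟩, hm⟩

theorem measurableSet_newPar (F : ℕ → Fam μ Ω) (k : ℕ) : MeasurableSet (newPar F k) := by
  have : newPar F k = (F k).J \ ⋃ j ∈ Set.Iio k, {s | s ∈ (F k).J ∧
      ((F k).orb s ∩ (F j).img (F j).J).Nonempty} := by
    ext s
    simp only [newPar, mem_ofPred_eq, Set.mem_sdiff, mem_iUnion, mem_Iio, not_exists, not_and,
      Set.not_nonempty_iff_eq_empty, Set.disjoint_iff_inter_eq_empty]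
    constructor
    · rintro ⟨h1, h2⟩
      exact ⟨h1, fun j hj _ => h2 j hj⟩
    · rintro ⟨h1, h2⟩
      exact ⟨h1, fun j hj => h2 j hj h1⟩
  rw [this]
  apply (F k).isOpen_J.measurableSet.diff
  apply MeasurableSet.biUnion (Set.to_countable _)
  intro j _
  exact (isOpen_meet (F k) ((F j).isOpen_img (F j).isOpen_J subset_rfl)).measurableSet

theorem disjoint_img (F : ℕ → Fam μ Ω) :
    Pairwise fun j k => Disjoint ((F j).img (newPar F j)) ((F k).img (newPar F k)) := by
  have key : ∀ j k, j < k → Disjoint ((F j).img (newPar F j)) ((F k).img (newPar F k)) := by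
    intro j k hjk
    rw [Set.disjoint_left]
    rintro z hz ⟨s, hs, t, _, _, rfl⟩
    exact Set.disjoint_left.1 (hs.2 j hjk) ⟨t, rfl⟩ ((F j).img_mono (newPar_subset F j) hz)
  intro j k hjk
  rcases lt_or_gt_of_ne hjk with h | h
  · exact key j k h
  · exact (key k j h).symm

/-- the area inequality for one family -/
theorem Fam.area_bound (F : Fam μ Ω) {E : Set ℝ} (hE : MeasurableSet E) (hEJ : E ⊆ F.J) :
    ∫⁻ s in E, ENNReal.ofReal |F.a' s| * F.Lm s ≤
      ∫⁻ z in F.img E, ENNReal.ofReal (argGrad μ z) := by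
  rw [F.lintegral_img hE hEJ _ (measurable_argGrad μ).ennreal_ofReal]
  refine setLIntegral_mono' hE fun s hs => ?_
  have hsJ := hEJ hs
  have hne : ∀ t, vfc (rotA μ (F.a s)) (at' (F.Z s) t) ≠ 0 := by
    intro t h0
    have := F.jac_pos s hsJ t
    rw [h0] at this
    simp [det2] at this
  have hneμ : ∀ t, vfc μ (at' (F.Z s) t) ≠ 0 := by
    intro t h0
    apply hne t
    rw [vfc_rotA]
    exact turn_eq_zero.2 h0
  have key := length_le_of (rotA μ (F.a s)) (F.τ s) (F.τ' s) (F.a' s) (F.tau_pos s hsJ)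
    (at' (F.Z s) 0) (at' (F.Y s) 0) (F.Z s) (F.Y s) (F.sol s hsJ) (F.closed s hsJ) rfl
    (F.closedY s hsJ) hne (F.lin1 s hsJ) (F.lin2 s hsJ)
  have hpth : ∀ (t : ℝ) (ht : t ∈ Set.Icc (0 : ℝ) 1) (z : A × A),
      pth z t = at' z ⟨t, ht.1, ht.2⟩ := by
    intro t ht z
    have := pth_coe z ⟨t, ht.1, ht.2⟩
    exact this
  have hjac : ∀ t ∈ Set.Icc (0 : ℝ) 1,
      F.τ s * |det2 (vfc (rotA μ (F.a s)) (pth (F.Z s) t)) (pth (F.Y s) t)| *
        argGrad (rotA μ (F.a s)) (pth (F.Z s) t) = F.jac s t * argGrad μ (pth (F.Z s) t) := by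
    intro t ht
    have hpos := F.jac_pos s hsJ ⟨t, ht.1, ht.2⟩
    rw [argGrad_rotA, Fam.jac]
    rw [hpth t ht, hpth t ht, abs_of_pos hpos]
  have hlen : (∫ t in (0 : ℝ)..1, F.τ s * nm (vfc (rotA μ (F.a s)) (pth (F.Z s) t))) =
      F.len s := by
    rw [Fam.len]
    simp only [vfc_rotA, nm_turn]
  rw [hlen] at key
  rw [F.Lm_of_mem hsJ, ← ENNReal.ofReal_mul (abs_nonneg _)]
  have hcont : ContinuousOn (fun t => F.jac s t * argGrad μ (pth (F.Z s) t)) (Set.Icc 0 1) := by
    apply ContinuousOn.mul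
    · unfold Fam.jac det2
      have h1 := continuous_pth (F.Z s)
      have h2 := continuous_pth (F.Y s)
      have h3 := (continuous_vfc_AS (rotA μ (F.a s))).comp h1
      apply Continuous.continuousOn
      have h31 := continuous_fst.comp h3
      have h32 := continuous_snd.comp h3
      have h21 := continuous_fst.comp h2
      have h22 := continuous_snd.comp h2
      exact continuous_const.mul ((h31.mul h22).sub (h32.mul h21))
    · intro t ht
      have h1 := (continuous_pth (F.Z s)).continuousAt (x := t)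
      have h2 : ContinuousAt (argGrad μ) (pth (F.Z s) t) := by
        apply continuousAt_argGrad
        rw [hpth t ht]
        exact hneμ _
      exact (ContinuousAt.comp (f := pth (F.Z s)) h2 h1).continuousWithinAt
  have hnn : ∀ t ∈ Set.Icc (0 : ℝ) 1, 0 ≤ F.jac s t * argGrad μ (pth (F.Z s) t) := by
    intro t ht
    have hpos := F.jac_pos s hsJ ⟨t, ht.1, ht.2⟩
    apply mul_nonneg _ (argGrad_nonneg _ _)
    rw [Fam.jac, hpth t ht, hpth t ht]
    exact mul_nonneg (F.tau_pos s hsJ).le hpos.le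
  have hI : (∫ t in (0 : ℝ)..1,
      F.τ s * |det2 (vfc (rotA μ (F.a s)) (pth (F.Z s) t)) (pth (F.Y s) t)| *
        argGrad (rotA μ (F.a s)) (pth (F.Z s) t)) =
      ∫ t in Set.Ioo (0 : ℝ) 1, F.jac s t * argGrad μ (pth (F.Z s) t) := by
    rw [intervalIntegral.integral_of_le zero_le_one, integral_Ioc_eq_integral_Ioo]
    apply setIntegral_congr_fun measurableSet_Ioo
    intro t ht
    exact hjac t (Ioo_subset_Icc_self ht)
  rw [hI] at key
  refine (ENNReal.ofReal_le_ofReal key).trans ?_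
  rw [ofReal_integral_eq_lintegral_ofReal]
  · apply le_of_eq
    apply setLIntegral_congr_fun measurableSet_Ioo
    intro t ht
    have ht' := Ioo_subset_Icc_self ht
    have hpos := F.jac_pos s hsJ ⟨t, ht'.1, ht'.2⟩
    simp only
    rw [ENNReal.ofReal_mul]
    rw [Fam.jac, hpth t ht', hpth t ht']
    exact mul_nonneg (F.tau_pos s hsJ).le hpos.le
  · exact (hcont.integrableOn_Icc).mono_set Ioo_subset_Icc_self
  · rw [Filter.EventuallyLE, ae_restrict_iff' measurableSet_Ioo]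
    exact Eventually.of_forall fun t ht => hnn t (Ioo_subset_Icc_self ht)

/-- all closed orbits inside `Ω` of the turned field of angle `α` are covered exactly once -/
theorem cover_bijective (F : ℕ → Fam μ Ω) (hΩ : IsOpen Ω)
    (hF : ∀ G : Fam μ Ω, G.img G.J ⊆ ⋃ k, (F k).img (F k).J) {α : ℝ}
    (hα : α ∈ Set.Ioo 0 Real.pi) :
    Function.Bijective (fun q : Σ k, {s : ℝ // s ∈ newPar F k ∧ (F k).a s = α} =>
      (⟨(F q.1).orb q.2, by
        have h1 := (F q.1).isClosedOrbit (newPar_subset F q.1 q.2.2.1)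
        rw [q.2.2.2, vfc_rotA] at h1
        refine ⟨h1, ?_⟩
        rintro z ⟨t, rfl⟩
        exact (F q.1).sub _ (newPar_subset F q.1 q.2.2.1) t⟩ :
      {C : Set (ℝ × ℝ) // IsClosedOrbit (turn α (vfc μ)) C ∧ C ⊆ Ω})) := by
  constructor
  · rintro ⟨k, s, hs, has⟩ ⟨k', s', hs', has'⟩ heq
    have horb : (F k).orb s = (F k').orb s' := congrArg Subtype.val heq
    have hkk : k = k' := by
      by_contra hne
      rcases lt_or_gt_of_ne hne with h | h
      · have h1 := hs'.2 k h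
        rw [← horb] at h1
        exact Set.disjoint_left.1 h1 ((F k).mid_mem_orb s) ((F k).mid_mem (newPar_subset F k hs))
      · have h1 := hs.2 k' h
        rw [horb] at h1
        exact Set.disjoint_left.1 h1 ((F k').mid_mem_orb s')
          ((F k').mid_mem (newPar_subset F k' hs'))
    subst hkk
    have h0 : at' ((F k).Z s) 0 ∈ (F k).orb s' := by
      rw [← horb]; exact ⟨0, rfl⟩
    obtain ⟨t', ht'⟩ := h0
    have hss : s = s' := by
      by_cases h1 : t' = 1
      · rw [h1, (F k).closed s' hs'.1] at ht'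
        exact ((F k).inj s hs.1 s' hs'.1 0 0 zero_ne_one zero_ne_one ht'.symm).1
      · exact ((F k).inj s hs.1 s' hs'.1 0 t' zero_ne_one h1 ht'.symm).1
    subst hss
    rfl
  · rintro ⟨C, hC, hCΩ⟩
    have hC' : IsClosedOrbit (vfc (rotA μ α)) C := by rw [vfc_rotA]; exact hC
    obtain ⟨G, s0, hs0, hGa, hGC⟩ := exists_fam μ hΩ hα hC' hCΩ
    have hex : ∃ k, (C ∩ (F k).img (F k).J).Nonempty := by
      have h1 := hF G (G.mid_mem hs0)
      obtain ⟨k, hk⟩ := mem_iUnion.1 h1
      exact ⟨k, _, by rw [← hGC]; exact G.mid_mem_orb s0, hk⟩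
    classical
    set k := Nat.find hex with hk
    obtain ⟨z, hzC, s, hsJ, t, ht0, ht1, rfl⟩ := Nat.find_spec hex
    rw [← hk] at hsJ hzC
    have h2 := orbit_eq_of_meet hα ((F k).a_mem s hsJ) hC' ((F k).isClosedOrbit hsJ) hzC ⟨t, rfl⟩
    have hnew : s ∈ newPar F k := by
      refine ⟨hsJ, fun j hj => ?_⟩
      rw [← h2.2]
      have := Nat.find_min hex hj
      rw [Set.not_nonempty_iff_eq_empty] at this
      exact Set.disjoint_iff_inter_eq_empty.2 this
    exact ⟨⟨k, s, hnew, h2.1.symm⟩, Subtype.ext h2.2.symm⟩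

/-- the total length of the closed orbits in `Ω` of the turned field of angle `α` -/
noncomputable def totalLength (v : ℝ × ℝ → ℝ × ℝ) (Ω : Set (ℝ × ℝ)) (α : ℝ) : ℝ≥0∞ :=
  ∑' C : {C : Set (ℝ × ℝ) // IsClosedOrbit (turn α v) C ∧ C ⊆ Ω}, orbitLength (turn α v) C

theorem totalLength_eq (F : ℕ → Fam μ Ω) (hΩ : IsOpen Ω)
    (hF : ∀ G : Fam μ Ω, G.img G.J ⊆ ⋃ k, (F k).img (F k).J) {α : ℝ}
    (hα : α ∈ Set.Ioo 0 Real.pi) :
    totalLength (vfc μ) Ω α =
      ∑' k, ∑' s : {s : ℝ // s ∈ newPar F k ∧ (F k).a s = α}, (F k).Lm s := by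
  rw [totalLength, ← ENNReal.tsum_sigma' (fun q : Σ k, {s : ℝ // s ∈ newPar F k ∧
    (F k).a s = α} => (F q.1).Lm q.2)]
  rw [← (Equiv.ofBijective _ (cover_bijective F hΩ hF hα)).tsum_eq]
  apply tsum_congr
  rintro ⟨k, s, hs, has⟩
  have h1 := (F k).orbitLength_eq hs.1
  rw [has, vfc_rotA] at h1
  rw [(F k).Lm_of_mem hs.1, ← h1]
  rfl

theorem averaged_meas (μ : Pr D) {Ω : Set (ℝ × ℝ)} (hΩ : IsOpen Ω) :
    AEMeasurable (totalLength (vfc μ) Ω) (volume.restrict (Set.Ioo 0 Real.pi)) ∧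
    ∫⁻ α in Set.Ioo 0 Real.pi, totalLength (vfc μ) Ω α ≤
      ∫⁻ z in Ω, ENNReal.ofReal (argGrad μ z) := by
  obtain ⟨T, hT, hTU⟩ := TopologicalSpace.isOpen_iUnion_countable
    (fun G : Fam μ Ω => G.img G.J) (fun G => G.isOpen_img G.isOpen_J subset_rfl)
  rcases T.eq_empty_or_nonempty with hemp | hne
  · -- no closed orbits at all
    have h0 : ∀ α ∈ Set.Ioo 0 Real.pi, totalLength (vfc μ) Ω α = 0 := by
      intro α hα
      have : IsEmpty {C : Set (ℝ × ℝ) // IsClosedOrbit (turn α (vfc μ)) C ∧ C ⊆ Ω} := by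
        refine ⟨fun ⟨C, hC, hCΩ⟩ => ?_⟩
        have hC' : IsClosedOrbit (vfc (rotA μ α)) C := by rw [vfc_rotA]; exact hC
        obtain ⟨G, s0, hs0, hGa, hGC⟩ := exists_fam μ hΩ hα hC' hCΩ
        have h1 : at' (G.Z s0) half ∈ ⋃ G : Fam μ Ω, G.img G.J :=
          mem_iUnion.2 ⟨G, G.mid_mem hs0⟩
        rw [← hTU, hemp] at h1
        simp at h1
      rw [totalLength, tsum_empty]
    constructor
    · have : (fun _ => 0) =ᵐ[volume.restrict (Set.Ioo 0 Real.pi)] totalLength (vfc μ) Ω := by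
        rw [Filter.EventuallyEq, ae_restrict_iff' measurableSet_Ioo]
        exact Eventually.of_forall fun α hα => (h0 α hα).symm
      exact aemeasurable_const.congr this
    · rw [setLIntegral_congr_fun measurableSet_Ioo h0]
      simp
  · obtain ⟨F, hFr⟩ := hT.exists_eq_range hne
    have hF : ∀ G : Fam μ Ω, G.img G.J ⊆ ⋃ k, (F k).img (F k).J := by
      intro G z hz
      have h1 : z ∈ ⋃ G : Fam μ Ω, G.img G.J := mem_iUnion.2 ⟨G, hz⟩
      rw [← hTU, hFr] at h1
      simpa using h1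
    have hone := fun k => one_dim (F k).isOpen_J (measurableSet_newPar F k) (newPar_subset F k)
      (F k).deriv_a (F k).cont_a' (F k).measurable_Lm
    have hmeas : AEMeasurable (fun α => ∑' k, ∑' s : {s : ℝ // s ∈ newPar F k ∧ (F k).a s = α},
        (F k).Lm s) volume := AEMeasurable.tsum fun k => (hone k).1
    constructor
    · have : (fun α => ∑' k, ∑' s : {s : ℝ // s ∈ newPar F k ∧ (F k).a s = α}, (F k).Lm s)
          =ᵐ[volume.restrict (Set.Ioo 0 Real.pi)] totalLength (vfc μ) Ω := by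
        rw [Filter.EventuallyEq, ae_restrict_iff' measurableSet_Ioo]
        exact Eventually.of_forall fun α hα => (totalLength_eq F hΩ hF hα).symm
      exact (hmeas.mono_measure Measure.restrict_le_self).congr this
    · calc ∫⁻ α in Set.Ioo 0 Real.pi, totalLength (vfc μ) Ω α
          = ∫⁻ α in Set.Ioo 0 Real.pi, ∑' k, ∑' s : {s : ℝ // s ∈ newPar F k ∧
            (F k).a s = α}, (F k).Lm s :=
            setLIntegral_congr_fun measurableSet_Ioo fun α hα => totalLength_eq F hΩ hF hα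
        _ ≤ ∫⁻ α, ∑' k, ∑' s : {s : ℝ // s ∈ newPar F k ∧ (F k).a s = α}, (F k).Lm s :=
            setLIntegral_le_lintegral _ _
        _ = ∑' k, ∫⁻ α, ∑' s : {s : ℝ // s ∈ newPar F k ∧ (F k).a s = α}, (F k).Lm s :=
            lintegral_tsum fun k => (hone k).1
        _ = ∑' k, ∫⁻ s in newPar F k, ENNReal.ofReal |(F k).a' s| * (F k).Lm s :=
            tsum_congr fun k => (hone k).2
        _ ≤ ∑' k, ∫⁻ z in (F k).img (newPar F k), ENNReal.ofReal (argGrad μ z) :=
            ENNReal.tsum_le_tsum fun k =>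
              (F k).area_bound (measurableSet_newPar F k) (newPar_subset F k)
        _ = ∫⁻ z in ⋃ k, (F k).img (newPar F k), ENNReal.ofReal (argGrad μ z) :=
            (lintegral_iUnion (fun k => (F k).measurableSet_img (measurableSet_newPar F k)
              (newPar_subset F k)) (disjoint_img F) _).symm
        _ ≤ ∫⁻ z in Ω, ENNReal.ofReal (argGrad μ z) :=
            lintegral_mono_set (iUnion_subset fun k => (F k).img_subset (newPar_subset F k))

/-- the sum of `φ(length)` over the closed orbits in `Ω` of the turned field of angle `α` -/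
noncomputable def orbitSum (φ : ℝ≥0∞ → ℝ≥0∞) (v : ℝ × ℝ → ℝ × ℝ) (Ω : Set (ℝ × ℝ)) (α : ℝ) :
    ℝ≥0∞ :=
  ∑' C : {C : Set (ℝ × ℝ) // IsClosedOrbit (turn α v) C ∧ C ⊆ Ω}, φ (orbitLength (turn α v) C)

theorem orbitSum_eq (φ : ℝ≥0∞ → ℝ≥0∞) (F : ℕ → Fam μ Ω) (hΩ : IsOpen Ω)
    (hF : ∀ G : Fam μ Ω, G.img G.J ⊆ ⋃ k, (F k).img (F k).J) {α : ℝ}
    (hα : α ∈ Set.Ioo 0 Real.pi) :
    orbitSum φ (vfc μ) Ω α =
      ∑' k, ∑' s : {s : ℝ // s ∈ newPar F k ∧ (F k).a s = α}, φ ((F k).Lm s) := by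
  rw [orbitSum, ← ENNReal.tsum_sigma' (fun q : Σ k, {s : ℝ // s ∈ newPar F k ∧
    (F k).a s = α} => φ ((F q.1).Lm q.2))]
  rw [← (Equiv.ofBijective _ (cover_bijective F hΩ hF hα)).tsum_eq]
  apply tsum_congr
  rintro ⟨k, s, hs, has⟩
  have h1 := (F k).orbitLength_eq hs.1
  rw [has, vfc_rotA] at h1
  rw [(F k).Lm_of_mem hs.1, ← h1]
  rfl

theorem orbitSum_aemeasurable (μ : Pr D) {Ω : Set (ℝ × ℝ)} (hΩ : IsOpen Ω)
    {φ : ℝ≥0∞ → ℝ≥0∞} (hφ : Measurable φ) :
    AEMeasurable (orbitSum φ (vfc μ) Ω) (volume.restrict (Set.Ioo 0 Real.pi)) := by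
  obtain ⟨T, hT, hTU⟩ := TopologicalSpace.isOpen_iUnion_countable
    (fun G : Fam μ Ω => G.img G.J) (fun G => G.isOpen_img G.isOpen_J subset_rfl)
  rcases T.eq_empty_or_nonempty with hemp | hne
  · have h0 : ∀ α ∈ Set.Ioo 0 Real.pi, orbitSum φ (vfc μ) Ω α = 0 := by
      intro α hα
      have : IsEmpty {C : Set (ℝ × ℝ) // IsClosedOrbit (turn α (vfc μ)) C ∧ C ⊆ Ω} := by
        refine ⟨fun ⟨C, hC, hCΩ⟩ => ?_⟩
        have hC' : IsClosedOrbit (vfc (rotA μ α)) C := by rw [vfc_rotA]; exact hC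
        obtain ⟨G, s0, hs0, hGa, hGC⟩ := exists_fam μ hΩ hα hC' hCΩ
        have h1 : at' (G.Z s0) half ∈ ⋃ G : Fam μ Ω, G.img G.J :=
          mem_iUnion.2 ⟨G, G.mid_mem hs0⟩
        rw [← hTU, hemp] at h1
        simp at h1
      rw [orbitSum, tsum_empty]
    have : (fun _ => 0) =ᵐ[volume.restrict (Set.Ioo 0 Real.pi)] orbitSum φ (vfc μ) Ω := by
      rw [Filter.EventuallyEq, ae_restrict_iff' measurableSet_Ioo]
      exact Eventually.of_forall fun α hα => (h0 α hα).symm
    exact aemeasurable_const.congr this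
  · obtain ⟨F, hFr⟩ := hT.exists_eq_range hne
    have hF : ∀ G : Fam μ Ω, G.img G.J ⊆ ⋃ k, (F k).img (F k).J := by
      intro G z hz
      have h1 : z ∈ ⋃ G : Fam μ Ω, G.img G.J := mem_iUnion.2 ⟨G, hz⟩
      rw [← hTU, hFr] at h1
      simpa using h1
    have hone := fun k => one_dim (F k).isOpen_J (measurableSet_newPar F k) (newPar_subset F k)
      (F k).deriv_a (F k).cont_a' (hφ.comp (F k).measurable_Lm)
    have hmeas : AEMeasurable (fun α => ∑' k, ∑' s : {s : ℝ // s ∈ newPar F k ∧ (F k).a s = α},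
        φ ((F k).Lm s)) volume := AEMeasurable.tsum fun k => (hone k).1
    have : (fun α => ∑' k, ∑' s : {s : ℝ // s ∈ newPar F k ∧ (F k).a s = α}, φ ((F k).Lm s))
        =ᵐ[volume.restrict (Set.Ioo 0 Real.pi)] orbitSum φ (vfc μ) Ω := by
      rw [Filter.EventuallyEq, ae_restrict_iff' measurableSet_Ioo]
      exact Eventually.of_forall fun α hα => (orbitSum_eq φ F hΩ hF hα).symm
    exact (hmeas.mono_measure Measure.restrict_le_self).congr this

end

end Pool.Agent.Lib.MP_95e7ec_an
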