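import Mathlib

/-!
# The total variation of the argument of a complex polynomial along the real line
-/

set_option autoImplicit false

open Set Filter Topology MeasureTheory
open scoped ContDiff ENNReal

namespace Pool.Agent.Lib.MP_95e7ec_an

/-- the Poisson-like kernel `|Im 1/(x - z)|` -/
noncomputable def ltvK (z : ℂ) (x : ℝ) : ℝ := |z.im| / ((x - z.re) ^ 2 + z.im ^ 2)

theorem ltvK_nonneg (z : ℂ) (x : ℝ) : 0 ≤ ltvK z x := by
  unfold ltvK; positivity

theorem measurable_ltvK (z : ℂ) : Measurable (ltvK z) := by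
  unfold ltvK; fun_prop

theorem lintegral_ltvK (z : ℂ) :
    ∫⁻ x : ℝ, ENNReal.ofReal (ltvK z x) ≤ ENNReal.ofReal Real.pi := by
  by_cases hz : z.im = 0
  · have : ∀ x, ltvK z x = 0 := by
      intro x; unfold ltvK; rw [hz]; simp
    simp [this]
  · have e1 : ltvK z = fun x => (|z.im|)⁻¹ * (fun y : ℝ => (1 + (y / z.im) ^ 2)⁻¹) (x - z.re) := by
      funext x
      unfold ltvK
      have h1 : (x - z.re) ^ 2 + z.im ^ 2 ≠ 0 := by positivity
      have h2 : 1 + ((x - z.re) / z.im) ^ 2 ≠ 0 := by positivity
      have h3 : |z.im| ≠ 0 := abs_ne_zero.mpr hz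
      have h4 : |z.im| * |z.im| = z.im ^ 2 := by rw [← abs_mul, ← sq, abs_of_nonneg (sq_nonneg _)]
      simp only
      rw [inv_mul_eq_div, div_eq_div_iff h1 h3, inv_mul_eq_div, eq_div_iff h2, h4]
      field_simp
      ring
    have hint0 : Integrable (fun y : ℝ => (1 + (y / z.im) ^ 2)⁻¹) := by
      have := (integrable_comp_div_iff (fun y : ℝ => (1 + y ^ 2)⁻¹) hz).mpr
        integrable_inv_one_add_sq
      exact this
    have hint1 : Integrable (fun x : ℝ => (fun y : ℝ => (1 + (y / z.im) ^ 2)⁻¹) (x - z.re)) :=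
      hint0.comp_sub_right z.re
    have hint : Integrable (ltvK z) := by
      rw [e1]; exact hint1.const_mul _
    have hval : ∫ x, ltvK z x = Real.pi := by
      rw [e1, integral_const_mul, integral_sub_right_eq_self (fun y : ℝ => (1 + (y / z.im) ^ 2)⁻¹)]
      have := Measure.integral_comp_div (fun y : ℝ => (1 + y ^ 2)⁻¹) z.im
      rw [this, integral_univ_inv_one_add_sq, smul_eq_mul, ← mul_assoc,
        inv_mul_cancel₀ (abs_ne_zero.mpr hz), one_mul]
    rw [← ofReal_integral_eq_lintegral_ofReal hint (ae_of_all _ (ltvK_nonneg z)), hval]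

theorem lintegral_ltvK_multiset (s : Multiset ℂ) :
    ∫⁻ x : ℝ, ENNReal.ofReal ((s.map fun z => ltvK z x).sum) ≤
      ENNReal.ofReal (Multiset.card s * Real.pi) := by
  induction s using Multiset.induction with
  | empty => simp
  | cons z s ih =>
    have h0 : ∀ x, 0 ≤ (s.map fun z => ltvK z x).sum := by
      intro x
      apply Multiset.sum_nonneg
      intro y hy
      rw [Multiset.mem_map] at hy
      obtain ⟨w, _, rfl⟩ := hy
      exact ltvK_nonneg w x
    have e : ∀ x, ENNReal.ofReal (((z ::ₘ s).map fun z => ltvK z x).sum) =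
        ENNReal.ofReal (ltvK z x) + ENNReal.ofReal ((s.map fun z => ltvK z x).sum) := by
      intro x
      rw [Multiset.map_cons, Multiset.sum_cons, ENNReal.ofReal_add (ltvK_nonneg z x) (h0 x)]
    simp only [e]
    rw [lintegral_add_left (measurable_ltvK z).ennreal_ofReal]
    refine (add_le_add (lintegral_ltvK z) ih).trans ?_
    rw [← ENNReal.ofReal_add Real.pi_pos.le (by positivity)]
    apply ENNReal.ofReal_le_ofReal
    rw [Multiset.card_cons]
    push_cast
    linarith

theorem im_inv_sub (z : ℂ) (x : ℝ) : |(1 / ((x : ℂ) - z)).im| = ltvK z x := by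
  unfold ltvK
  rw [one_div, Complex.inv_im, Complex.normSq_apply, abs_div]
  simp only [Complex.sub_im, Complex.ofReal_im, zero_sub, neg_neg, Complex.sub_re,
    Complex.ofReal_re]
  rw [abs_of_nonneg (show (0 : ℝ) ≤ (x - z.re) * (x - z.re) + (-z.im) * (-z.im) by
    nlinarith [mul_self_nonneg (x - z.re), mul_self_nonneg z.im])]
  congr 1
  ring

theorem abs_im_sum_le (s : Multiset ℂ) (x : ℝ) :
    |((s.map fun z => 1 / ((x : ℂ) - z)).sum).im| ≤ (s.map fun z => ltvK z x).sum := by
  induction s using Multiset.induction with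
  | empty => simp
  | cons z s ih =>
    rw [Multiset.map_cons, Multiset.sum_cons, Multiset.map_cons, Multiset.sum_cons,
      Complex.add_im]
    refine (abs_add_le _ _).trans ?_
    rw [im_inv_sub]
    linarith

theorem lintegral_line {n : ℕ} (p q : Polynomial ℝ) (hp : p.natDegree ≤ n) (hq : q.natDegree ≤ n)
    (h : p ≠ 0 ∨ q ≠ 0) :
    ∫⁻ x : ℝ, ENNReal.ofReal (|p.eval x * q.derivative.eval x - q.eval x * p.derivative.eval x| /
      (p.eval x ^ 2 + q.eval x ^ 2)) ≤ ENNReal.ofReal (n * Real.pi) := by
  set f : Polynomial ℂ := p.map Complex.ofRealHom + Polynomial.C Complex.I *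
    q.map Complex.ofRealHom with hf
  have heval : ∀ x : ℝ, f.eval (x : ℂ) = ((p.eval x : ℝ) : ℂ) + Complex.I * ((q.eval x : ℝ) : ℂ) := by
    intro x
    rw [hf, Polynomial.eval_add, Polynomial.eval_mul, Polynomial.eval_C]
    have h1 : ∀ r : Polynomial ℝ, (r.map Complex.ofRealHom).eval (x : ℂ) = ((r.eval x : ℝ) : ℂ) := by
      intro r
      have := Polynomial.eval_map_apply (p := r) (f := Complex.ofRealHom) x
      simpa using this
    rw [h1, h1]
  have hderiv : ∀ x : ℝ, f.derivative.eval (x : ℂ) =
      ((p.derivative.eval x : ℝ) : ℂ) + Complex.I * ((q.derivative.eval x : ℝ) : ℂ) := by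
    intro x
    rw [hf, Polynomial.derivative_add, Polynomial.derivative_C_mul, Polynomial.derivative_map,
      Polynomial.derivative_map, Polynomial.eval_add, Polynomial.eval_mul, Polynomial.eval_C]
    have h1 : ∀ r : Polynomial ℝ, (r.map Complex.ofRealHom).eval (x : ℂ) = ((r.eval x : ℝ) : ℂ) := by
      intro r
      have := Polynomial.eval_map_apply (p := r) (f := Complex.ofRealHom) x
      simpa using this
    rw [h1, h1]
  have hdeg : f.natDegree ≤ n := by
    rw [hf]
    refine (Polynomial.natDegree_add_le _ _).trans (max_le ?_ ?_)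
    · exact (Polynomial.natDegree_map_le).trans hp
    · exact (Polynomial.natDegree_C_mul_le _ _).trans ((Polynomial.natDegree_map_le).trans hq)
  have hcard : Multiset.card f.roots ≤ n := (Polynomial.card_roots' f).trans hdeg
  refine le_trans (lintegral_mono fun x => ?_)
    ((lintegral_ltvK_multiset f.roots).trans (ENNReal.ofReal_le_ofReal ?_))
  · apply ENNReal.ofReal_le_ofReal
    by_cases hx : f.eval (x : ℂ) = 0
    · have h2 := heval x
      rw [hx] at h2
      have h3 : p.eval x = 0 := by
        have := congrArg Complex.re h2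
        simpa using this.symm
      have h4 : q.eval x = 0 := by
        have := congrArg Complex.im h2
        simpa using this.symm
      rw [h3, h4]
      simp only [zero_mul, sub_zero, abs_zero, zero_div]
      apply Multiset.sum_nonneg
      intro y hy
      rw [Multiset.mem_map] at hy
      obtain ⟨w, _, rfl⟩ := hy
      exact ltvK_nonneg w x
    · have h5 := (IsAlgClosed.splits f).eval_derivative_div_eval_of_ne_zero hx
      have h6 := abs_im_sum_le f.roots x
      rw [← h5] at h6
      refine le_trans (le_of_eq ?_) h6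
      rw [heval, hderiv]
      have hpos : p.eval x ^ 2 + q.eval x ^ 2 ≠ 0 := by
        intro h0
        apply hx
        have h7 : p.eval x = 0 := by nlinarith [sq_nonneg (p.eval x), sq_nonneg (q.eval x)]
        have h8 : q.eval x = 0 := by nlinarith [sq_nonneg (p.eval x), sq_nonneg (q.eval x)]
        rw [heval, h7, h8]; simp
      rw [Complex.div_im, Complex.normSq_apply]
      simp only [Complex.add_im, Complex.ofReal_im, Complex.mul_im, Complex.I_re, zero_mul,
        Complex.I_im, Complex.ofReal_re, one_mul, zero_add, Complex.add_re, Complex.mul_re,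
        mul_zero, sub_zero, add_zero, sub_self, zero_sub]
      rw [← sub_div, abs_div]
      have h9 : p.eval x * p.eval x + q.eval x * q.eval x = p.eval x ^ 2 + q.eval x ^ 2 := by ring
      rw [h9, abs_of_nonneg (show 0 ≤ p.eval x ^ 2 + q.eval x ^ 2 by positivity)]
      congr 2
      ring
  · apply mul_le_mul_of_nonneg_right _ Real.pi_pos.le
    exact_mod_cast hcard

end Pool.Agent.Lib.MP_95e7ec_an
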