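import Mathlib
import Pool.Agent.Lib.MP_95e7ec_an.AvgDefs
import Pool.Agent.Lib.MP_95e7ec_an.AvgBasic
import Pool.Agent.Lib.MP_95e7ec_an.LineTV

/-!
# The integral of `|∂_x arg| + |∂_y arg|` over a square
-/

set_option autoImplicit false

open Set Filter Topology MeasureTheory
open scoped ContDiff ENNReal

namespace Pool.Agent.Lib.MP_95e7ec_an

/-- the restriction of an array to a horizontal line -/
noncomputable def sliceX {n : ℕ} (c : Co n) (y : ℝ) : Polynomial ℝ :=
  ∑ a : Fin (n + 1), ∑ b : Fin (n + 1), Polynomial.C (c a b * y ^ (b : ℕ)) * Polynomial.X ^ (a : ℕ)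

/-- the restriction of an array to a vertical line -/
noncomputable def sliceY {n : ℕ} (c : Co n) (x : ℝ) : Polynomial ℝ :=
  ∑ a : Fin (n + 1), ∑ b : Fin (n + 1), Polynomial.C (c a b * x ^ (a : ℕ)) * Polynomial.X ^ (b : ℕ)

theorem eval_sliceX {n : ℕ} (c : Co n) (x y : ℝ) : (sliceX c y).eval x = pe c x y := by
  simp only [sliceX, pe, Polynomial.eval_finsetSum, Polynomial.eval_mul, Polynomial.eval_C,
    Polynomial.eval_pow, Polynomial.eval_X, smul_eq_mul]
  refine Finset.sum_congr rfl fun a _ => Finset.sum_congr rfl fun b _ => ?_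
  ring

theorem eval_sliceX' {n : ℕ} (c : Co n) (x y : ℝ) :
    (sliceX c y).derivative.eval x = pex c x y := by
  simp only [sliceX, pex, Polynomial.derivative_sum, Polynomial.eval_finsetSum,
    Polynomial.derivative_mul, Polynomial.derivative_C, zero_mul, zero_add,
    Polynomial.derivative_X_pow, Polynomial.eval_mul, Polynomial.eval_C,
    Polynomial.eval_pow, Polynomial.eval_X, smul_eq_mul]
  refine Finset.sum_congr rfl fun a _ => Finset.sum_congr rfl fun b _ => ?_
  ring

theorem eval_sliceY {n : ℕ} (c : Co n) (x y : ℝ) : (sliceY c x).eval y = pe c x y := by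
  simp only [sliceY, pe, Polynomial.eval_finsetSum, Polynomial.eval_mul, Polynomial.eval_C,
    Polynomial.eval_pow, Polynomial.eval_X, smul_eq_mul]
  refine Finset.sum_congr rfl fun a _ => Finset.sum_congr rfl fun b _ => ?_
  ring

theorem eval_sliceY' {n : ℕ} (c : Co n) (x y : ℝ) :
    (sliceY c x).derivative.eval y = pey c x y := by
  simp only [sliceY, pey, Polynomial.derivative_sum, Polynomial.eval_finsetSum,
    Polynomial.derivative_mul, Polynomial.derivative_C, zero_mul, zero_add,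
    Polynomial.derivative_X_pow, Polynomial.eval_mul, Polynomial.eval_C,
    Polynomial.eval_pow, Polynomial.eval_X, smul_eq_mul]
  refine Finset.sum_congr rfl fun a _ => Finset.sum_congr rfl fun b _ => ?_
  ring

theorem natDegree_sliceX {n : ℕ} (c : Co n) (y : ℝ) : (sliceX c y).natDegree ≤ n := by
  apply Polynomial.natDegree_sum_le_of_forall_le
  intro a _
  apply Polynomial.natDegree_sum_le_of_forall_le
  intro b _
  refine (Polynomial.natDegree_C_mul_X_pow_le _ _).trans ?_
  omega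

theorem natDegree_sliceY {n : ℕ} (c : Co n) (x : ℝ) : (sliceY c x).natDegree ≤ n := by
  apply Polynomial.natDegree_sum_le_of_forall_le
  intro a _
  apply Polynomial.natDegree_sum_le_of_forall_le
  intro b _
  refine (Polynomial.natDegree_C_mul_X_pow_le _ _).trans ?_
  omega

/-- the two halves of `argGrad` -/
noncomputable def argX {n : ℕ} (μ : Pr n) (z : ℝ × ℝ) : ℝ :=
  |pe μ.1 z.1 z.2 * pex μ.2 z.1 z.2 - pe μ.2 z.1 z.2 * pex μ.1 z.1 z.2| /
    (pe μ.1 z.1 z.2 ^ 2 + pe μ.2 z.1 z.2 ^ 2)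

noncomputable def argY {n : ℕ} (μ : Pr n) (z : ℝ × ℝ) : ℝ :=
  |pe μ.1 z.1 z.2 * pey μ.2 z.1 z.2 - pe μ.2 z.1 z.2 * pey μ.1 z.1 z.2| /
    (pe μ.1 z.1 z.2 ^ 2 + pe μ.2 z.1 z.2 ^ 2)

theorem argGrad_eq {n : ℕ} (μ : Pr n) (z : ℝ × ℝ) : argGrad μ z = argX μ z + argY μ z := by
  simp only [argGrad, argX, argY, add_div]

theorem argX_nonneg {n : ℕ} (μ : Pr n) (z : ℝ × ℝ) : 0 ≤ argX μ z := by
  unfold argX; positivity

theorem argY_nonneg {n : ℕ} (μ : Pr n) (z : ℝ × ℝ) : 0 ≤ argY μ z := by
  unfold argY; positivity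

theorem measurable_argX {n : ℕ} (μ : Pr n) : Measurable (argX μ) := by
  have h1 : ∀ c : Co n, Continuous fun z : ℝ × ℝ => pe c z.1 z.2 := fun c => by
    unfold pe; fun_prop
  have h2 : ∀ c : Co n, Continuous fun z : ℝ × ℝ => pex c z.1 z.2 := fun c => by
    unfold pex; fun_prop
  unfold argX
  apply Measurable.div
  · exact (((h1 _).mul (h2 _)).sub ((h1 _).mul (h2 _))).abs.measurable
  · exact (((h1 _).pow 2).add ((h1 _).pow 2)).measurable

theorem measurable_argY {n : ℕ} (μ : Pr n) : Measurable (argY μ) := by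
  have h1 : ∀ c : Co n, Continuous fun z : ℝ × ℝ => pe c z.1 z.2 := fun c => by
    unfold pe; fun_prop
  have h2 : ∀ c : Co n, Continuous fun z : ℝ × ℝ => pey c z.1 z.2 := fun c => by
    unfold pey; fun_prop
  unfold argY
  apply Measurable.div
  · exact (((h1 _).mul (h2 _)).sub ((h1 _).mul (h2 _))).abs.measurable
  · exact (((h1 _).pow 2).add ((h1 _).pow 2)).measurable

theorem line_x {n : ℕ} (μ : Pr n) (y : ℝ) :
    ∫⁻ x : ℝ, ENNReal.ofReal (argX μ (x, y)) ≤ ENNReal.ofReal (n * Real.pi) := by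
  by_cases h : sliceX μ.1 y ≠ 0 ∨ sliceX μ.2 y ≠ 0
  · have := lintegral_line (n := n) (sliceX μ.1 y) (sliceX μ.2 y) (natDegree_sliceX _ _)
      (natDegree_sliceX _ _) h
    simpa only [eval_sliceX, eval_sliceX', argX] using this
  · push Not at h
    have h0 : ∀ x, argX μ (x, y) = 0 := by
      intro x
      have e1 : pe μ.1 x y = 0 := by rw [← eval_sliceX, h.1, Polynomial.eval_zero]
      have e2 : pe μ.2 x y = 0 := by rw [← eval_sliceX, h.2, Polynomial.eval_zero]
      simp [argX, e1, e2]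
    simp only [h0, ENNReal.ofReal_zero, lintegral_const, zero_mul]
    simp

theorem line_y {n : ℕ} (μ : Pr n) (x : ℝ) :
    ∫⁻ y : ℝ, ENNReal.ofReal (argY μ (x, y)) ≤ ENNReal.ofReal (n * Real.pi) := by
  by_cases h : sliceY μ.1 x ≠ 0 ∨ sliceY μ.2 x ≠ 0
  · have := lintegral_line (n := n) (sliceY μ.1 x) (sliceY μ.2 x) (natDegree_sliceY _ _)
      (natDegree_sliceY _ _) h
    simpa only [eval_sliceY, eval_sliceY', argY] using this
  · push Not at h
    have h0 : ∀ y, argY μ (x, y) = 0 := by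
      intro y
      have e1 : pe μ.1 x y = 0 := by rw [← eval_sliceY, h.1, Polynomial.eval_zero]
      have e2 : pe μ.2 x y = 0 := by rw [← eval_sliceY, h.2, Polynomial.eval_zero]
      simp [argY, e1, e2]
    simp only [h0, ENNReal.ofReal_zero, lintegral_const, zero_mul]
    simp

/-- the integral of `argGrad` over any set contained in a square of side `2R` -/
theorem lintegral_square {n : ℕ} (μ : Pr n) {Ω : Set (ℝ × ℝ)} {z0 : ℝ × ℝ} {R : ℝ} (hR : 0 ≤ R)
    (hΩ : Ω ⊆ Set.Ioo (z0.1 - R) (z0.1 + R) ×ˢ Set.Ioo (z0.2 - R) (z0.2 + R)) :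
    ∫⁻ z in Ω, ENNReal.ofReal (argGrad μ z) ≤ ENNReal.ofReal (4 * Real.pi * n * R) := by
  have hpi := Real.pi_pos
  have hX : ∫⁻ z in Ω, ENNReal.ofReal (argX μ z) ≤ ENNReal.ofReal (2 * R * (n * Real.pi)) := by
    calc ∫⁻ z in Ω, ENNReal.ofReal (argX μ z)
        ≤ ∫⁻ z in Set.univ ×ˢ Set.Ioo (z0.2 - R) (z0.2 + R), ENNReal.ofReal (argX μ z) :=
          lintegral_mono_set (hΩ.trans (Set.prod_mono (Set.subset_univ _) subset_rfl))
      _ = ∫⁻ y in Set.Ioo (z0.2 - R) (z0.2 + R), ∫⁻ x in Set.univ,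
            ENNReal.ofReal (argX μ (x, y)) := by
          rw [Measure.volume_eq_prod]
          exact setLIntegral_prod_symm _ (measurable_argX μ).ennreal_ofReal.aemeasurable
      _ ≤ ∫⁻ y in Set.Ioo (z0.2 - R) (z0.2 + R), ENNReal.ofReal (n * Real.pi) := by
          apply lintegral_mono
          intro y
          rw [Measure.restrict_univ]
          exact line_x μ y
      _ = ENNReal.ofReal (2 * R * (n * Real.pi)) := by
          rw [setLIntegral_const, Real.volume_Ioo, mul_comm, ← ENNReal.ofReal_mul (by linarith)]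
          congr 1
          ring
  have hY : ∫⁻ z in Ω, ENNReal.ofReal (argY μ z) ≤ ENNReal.ofReal (2 * R * (n * Real.pi)) := by
    calc ∫⁻ z in Ω, ENNReal.ofReal (argY μ z)
        ≤ ∫⁻ z in Set.Ioo (z0.1 - R) (z0.1 + R) ×ˢ Set.univ, ENNReal.ofReal (argY μ z) :=
          lintegral_mono_set (hΩ.trans (Set.prod_mono subset_rfl (Set.subset_univ _)))
      _ = ∫⁻ x in Set.Ioo (z0.1 - R) (z0.1 + R), ∫⁻ y in Set.univ,
            ENNReal.ofReal (argY μ (x, y)) := by
          rw [Measure.volume_eq_prod]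
          exact setLIntegral_prod _ (measurable_argY μ).ennreal_ofReal.aemeasurable
      _ ≤ ∫⁻ x in Set.Ioo (z0.1 - R) (z0.1 + R), ENNReal.ofReal (n * Real.pi) := by
          apply lintegral_mono
          intro x
          rw [Measure.restrict_univ]
          exact line_y μ x
      _ = ENNReal.ofReal (2 * R * (n * Real.pi)) := by
          rw [setLIntegral_const, Real.volume_Ioo, mul_comm, ← ENNReal.ofReal_mul (by linarith)]
          congr 1
          ring
  calc ∫⁻ z in Ω, ENNReal.ofReal (argGrad μ z)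
      = ∫⁻ z in Ω, (ENNReal.ofReal (argX μ z) + ENNReal.ofReal (argY μ z)) := by
        apply lintegral_congr
        intro z
        rw [argGrad_eq, ENNReal.ofReal_add (argX_nonneg _ _) (argY_nonneg _ _)]
    _ = (∫⁻ z in Ω, ENNReal.ofReal (argX μ z)) + ∫⁻ z in Ω, ENNReal.ofReal (argY μ z) :=
        lintegral_add_left (measurable_argX μ).ennreal_ofReal _
    _ ≤ ENNReal.ofReal (2 * R * (n * Real.pi)) + ENNReal.ofReal (2 * R * (n * Real.pi)) :=
        add_le_add hX hY
    _ = ENNReal.ofReal (4 * Real.pi * n * R) := by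
        rw [← ENNReal.ofReal_add (by positivity) (by positivity)]
        congr 1
        ring

end Pool.Agent.Lib.MP_95e7ec_an
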