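import Mathlib
import Pool.Agent.Lib.MP_95e7ec_an.Defs
import Pool.Agent.Lib.MP_95e7ec_an.AvgDefs
import Pool.Agent.Lib.MP_95e7ec_an.Arr
import Pool.Agent.Lib.MP_95e7ec_an.Assemble
import Pool.Agent.Lib.MP_95e7ec_an.SquareTV

/-!
# The averaged length of the closed orbits of a polynomial system

For every real planar polynomial field `X` of degree at most `n` and every disc `D` of radius `R`,
the integral over the angle `α ∈ (0,π)` of the total length of all the closed orbits of the turned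
field `e^{iα} X` which lie in `D` is at most `4 π n R`.
-/

set_option autoImplicit false

open Set Filter Topology MeasureTheory

namespace Pool.Agent.Results.MP_95e7ec_an.AveragedLength

open Pool.Agent.Lib.MP_95e7ec_an

/-- **Averaged length bound.** Let `X = (P,Q)` be a real planar polynomial field of degree at most
`n`, let `D` be the open disc with centre `z0` and radius `R`. For an angle `α` let `ℓ(α)` be the
sum of the Euclidean lengths of all the closed orbits of the turned field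
`e^{iα} X = (cos α P - sin α Q, sin α P + cos α Q)` which are contained in `D`. Then `ℓ` is
measurable on `(0,π)` and its integral over `(0,π)` is at most `4 π n R`. -/
theorem result (n : ℕ) (P Q : MvPolynomial (Fin 2) ℝ) (hP : P.totalDegree ≤ n)
    (hQ : Q.totalDegree ≤ n) (z0 : ℝ × ℝ) (R : ℝ) (hR : 0 < R) :
    AEMeasurable (fun α : ℝ => ∑' C : {C : Set (ℝ × ℝ) // IsClosedOrbit (turn α (vf P Q)) C ∧
        C ⊆ {z : ℝ × ℝ | (z.1 - z0.1) ^ 2 + (z.2 - z0.2) ^ 2 < R ^ 2}},
        orbitLength (turn α (vf P Q)) C) (volume.restrict (Set.Ioo 0 Real.pi)) ∧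
      ∫⁻ α in Set.Ioo 0 Real.pi,
        ∑' C : {C : Set (ℝ × ℝ) // IsClosedOrbit (turn α (vf P Q)) C ∧
          C ⊆ {z : ℝ × ℝ | (z.1 - z0.1) ^ 2 + (z.2 - z0.2) ^ 2 < R ^ 2}},
          orbitLength (turn α (vf P Q)) C ≤ ENNReal.ofReal (4 * Real.pi * n * R) := by
  set Ω : Set (ℝ × ℝ) := {z : ℝ × ℝ | (z.1 - z0.1) ^ 2 + (z.2 - z0.2) ^ 2 < R ^ 2} with hΩdef
  have hΩ : IsOpen Ω := isOpen_lt (by fun_prop) (by fun_prop)
  have hv : vf P Q = vfc (arr n P, arr n Q) := by
    funext z
    unfold vf vfc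
    rw [eval_eq_pe P hP, eval_eq_pe Q hQ]
  have hsq : Ω ⊆ Set.Ioo (z0.1 - R) (z0.1 + R) ×ˢ Set.Ioo (z0.2 - R) (z0.2 + R) := by
    rintro ⟨x, y⟩ hz
    simp only [hΩdef, Set.mem_ofPred_eq] at hz
    have hx : |x - z0.1| < R := abs_lt_of_sq_lt_sq (by nlinarith [sq_nonneg (y - z0.2)]) hR.le
    have hy : |y - z0.2| < R := abs_lt_of_sq_lt_sq (by nlinarith [sq_nonneg (x - z0.1)]) hR.le
    rw [abs_lt] at hx hy
    simp only [Set.mem_prod, Set.mem_Ioo]
    constructor <;> constructor <;> linarith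
  rw [hv]
  obtain ⟨h1, h2⟩ := averaged_meas (arr n P, arr n Q) hΩ
  exact ⟨h1, h2.trans (lintegral_square _ hR.le hsq)⟩

end Pool.Agent.Results.MP_95e7ec_an.AveragedLength
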