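import Mathlib
import Pool.Agent.Lib.MP_95e7ec_an.Assemble

/-!
# General form of the area inequality

If for every local family of closed orbits in `Ω` one has
`|a'(s)| φ(length) ≤ ∫ jac(s,t) g(Z s t) dt`, then the integral over the angle of the sum of
`φ(length)` over the closed orbits in `Ω` is at most `∫_Ω g`.
-/

set_option autoImplicit false

open Set Filter Topology MeasureTheory
open scoped ContDiff ENNReal

namespace Pool.Agent.Lib.MP_95e7ec_an

variable {D : ℕ}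

/-- general form of `averaged_meas` -/
theorem orbitSum_le (μ : Pr D) {Ω : Set (ℝ × ℝ)} (hΩ : IsOpen Ω) {φ : ℝ≥0∞ → ℝ≥0∞}
    (hφ : Measurable φ) {g : ℝ × ℝ → ℝ≥0∞} (hg : Measurable g)
    (H : ∀ F : Fam μ Ω, ∀ s ∈ F.J, ENNReal.ofReal |F.a' s| * φ (ENNReal.ofReal (F.len s)) ≤
      ∫⁻ t in Set.Ioo (0 : ℝ) 1, ENNReal.ofReal (F.jac s t) * g (pth (F.Z s) t)) :
    ∫⁻ α in Set.Ioo 0 Real.pi, orbitSum φ (vfc μ) Ω α ≤ ∫⁻ z in Ω, g z := by
  have hbound : ∀ (F : Fam μ Ω) {E : Set ℝ}, MeasurableSet E → E ⊆ F.J →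
      ∫⁻ s in E, ENNReal.ofReal |F.a' s| * φ (F.Lm s) ≤ ∫⁻ z in F.img E, g z := by
    intro F E hE hEJ
    rw [F.lintegral_img hE hEJ g hg]
    refine setLIntegral_mono' hE fun s hs => ?_
    rw [F.Lm_of_mem (hEJ hs)]
    exact H F s (hEJ hs)
  obtain ⟨T, hT, hTU⟩ := TopologicalSpace.isOpen_iUnion_countable
    (fun G : Fam μ Ω => G.img G.J) (fun G => G.isOpen_img G.isOpen_J subset_rfl)
  rcases T.eq_empty_or_nonempty with hemp | hne
  · have h0 : ∀ α ∈ Set.Ioo 0 Real.pi, orbitSum φ (vfc μ) Ω α = 0 := by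
      intro α hα
      have : IsEmpty {C : Set (ℝ × ℝ) // IsClosedOrbit (turn α (vfc μ)) C ∧ C ⊆ Ω} := by
        refine ⟨fun ⟨C, hC, hCΩ⟩ => ?_⟩
        have hC' : IsClosedOrbit (vfc (rotA μ α)) C := by rw [vfc_rotA]; exact hC
        obtain ⟨G, s0, hs0, hGa, hGC⟩ := exists_fam μ hΩ hα hC' hCΩ
        have h1 : at' (G.Z s0) half ∈ ⋃ G : Fam μ Ω, G.img G.J :=
          mem_iUnion.2 ⟨G, G.mid_mem hs0⟩
        rw [← hTU, hemp] at h1
        simp at h1
      rw [orbitSum, tsum_empty]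
    rw [setLIntegral_congr_fun measurableSet_Ioo h0]
    simp
  · obtain ⟨F, hFr⟩ := hT.exists_eq_range hne
    have hF : ∀ G : Fam μ Ω, G.img G.J ⊆ ⋃ k, (F k).img (F k).J := by
      intro G z hz
      have h1 : z ∈ ⋃ G : Fam μ Ω, G.img G.J := mem_iUnion.2 ⟨G, hz⟩
      rw [← hTU, hFr] at h1
      simpa using h1
    have hone := fun k => one_dim (F k).isOpen_J (measurableSet_newPar F k) (newPar_subset F k)
      (F k).deriv_a (F k).cont_a' (hφ.comp (F k).measurable_Lm)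
    calc ∫⁻ α in Set.Ioo 0 Real.pi, orbitSum φ (vfc μ) Ω α
        = ∫⁻ α in Set.Ioo 0 Real.pi, ∑' k, ∑' s : {s : ℝ // s ∈ newPar F k ∧
          (F k).a s = α}, φ ((F k).Lm s) :=
          setLIntegral_congr_fun measurableSet_Ioo fun α hα => orbitSum_eq φ F hΩ hF hα
      _ ≤ ∫⁻ α, ∑' k, ∑' s : {s : ℝ // s ∈ newPar F k ∧ (F k).a s = α}, φ ((F k).Lm s) :=
          setLIntegral_le_lintegral _ _
      _ = ∑' k, ∫⁻ α, ∑' s : {s : ℝ // s ∈ newPar F k ∧ (F k).a s = α}, φ ((F k).Lm s) :=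
          lintegral_tsum fun k => (hone k).1
      _ = ∑' k, ∫⁻ s in newPar F k, ENNReal.ofReal |(F k).a' s| * φ ((F k).Lm s) :=
          tsum_congr fun k => (hone k).2
      _ ≤ ∑' k, ∫⁻ z in (F k).img (newPar F k), g z :=
          ENNReal.tsum_le_tsum fun k =>
            hbound (F k) (measurableSet_newPar F k) (newPar_subset F k)
      _ = ∫⁻ z in ⋃ k, (F k).img (newPar F k), g z :=
          (lintegral_iUnion (fun k => (F k).measurableSet_img (measurableSet_newPar F k)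
            (newPar_subset F k)) (disjoint_img F) _).symm
      _ ≤ ∫⁻ z in Ω, g z :=
          lintegral_mono_set (iUnion_subset fun k => (F k).img_subset (newPar_subset F k))

end Pool.Agent.Lib.MP_95e7ec_an
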