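import Mathlib
import Pool.Agent.Lib.MP_95e7ec_an.AvgDefs
import Pool.Agent.Lib.MP_95e7ec_an.AvgBasic
import Pool.Agent.Lib.MP_95e7ec_an.DetPos

/-!
# Shifted fields and second derivatives of coefficient arrays

`dX c`, `dY c` are the coefficient arrays of the partial derivatives of the polynomial with array
`c`; `shf μ c` is the array of the field `X + c`; `DBound μ K M₁ M₂` says that on `K` all first
partial derivatives are at most `M₁` and all second ones at most `M₂` in absolute value.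
-/

set_option autoImplicit false

open Set Filter Topology MeasureTheory

namespace Pool.Agent.Lib.MP_95e7ec_an

/-- The coefficient array of the partial derivative in the first variable. -/
noncomputable def dX {D : ℕ} (c : Co D) : Co D := fun a b =>
  if h : (a : ℕ) + 1 < D + 1 then ((a : ℕ) + 1 : ℝ) * c ⟨a + 1, h⟩ b else 0

/-- The coefficient array of the partial derivative in the second variable. -/
noncomputable def dY {D : ℕ} (c : Co D) : Co D := fun a b =>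
  if h : (b : ℕ) + 1 < D + 1 then ((b : ℕ) + 1 : ℝ) * c a ⟨b + 1, h⟩ else 0

/-- The array of the constant polynomial `r`. -/
noncomputable def cst (D : ℕ) (r : ℝ) : Co D := fun a b => if a = 0 ∧ b = 0 then r else 0

/-- The field `X + c`. -/
noncomputable def shf {D : ℕ} (μ : Pr D) (c : ℝ × ℝ) : Pr D :=
  (μ.1 + cst D c.1, μ.2 + cst D c.2)

/-- The trace of the Jacobian matrix. -/
noncomputable def tr2 {D : ℕ} (μ : Pr D) (z : ℝ × ℝ) : ℝ :=
  pex μ.1 z.1 z.2 + pey μ.2 z.1 z.2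

/-- The determinant of the Jacobian matrix. -/
noncomputable def dt2 {D : ℕ} (μ : Pr D) (z : ℝ × ℝ) : ℝ :=
  pex μ.1 z.1 z.2 * pey μ.2 z.1 z.2 - pey μ.1 z.1 z.2 * pex μ.2 z.1 z.2

/-- On `K` the first partial derivatives of both components are at most `M₁`, the second ones at
most `M₂`. -/
structure DBound {D : ℕ} (μ : Pr D) (K : Set (ℝ × ℝ)) (M₁ M₂ : ℝ) : Prop where
  x1 : ∀ z ∈ K, |pex μ.1 z.1 z.2| ≤ M₁
  y1 : ∀ z ∈ K, |pey μ.1 z.1 z.2| ≤ M₁
  x2 : ∀ z ∈ K, |pex μ.2 z.1 z.2| ≤ M₁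
  y2 : ∀ z ∈ K, |pey μ.2 z.1 z.2| ≤ M₁
  xx1 : ∀ z ∈ K, |pex (dX μ.1) z.1 z.2| ≤ M₂
  xy1 : ∀ z ∈ K, |pey (dX μ.1) z.1 z.2| ≤ M₂
  yx1 : ∀ z ∈ K, |pex (dY μ.1) z.1 z.2| ≤ M₂
  yy1 : ∀ z ∈ K, |pey (dY μ.1) z.1 z.2| ≤ M₂
  xx2 : ∀ z ∈ K, |pex (dX μ.2) z.1 z.2| ≤ M₂
  xy2 : ∀ z ∈ K, |pey (dX μ.2) z.1 z.2| ≤ M₂
  yx2 : ∀ z ∈ K, |pex (dY μ.2) z.1 z.2| ≤ M₂
  yy2 : ∀ z ∈ K, |pey (dY μ.2) z.1 z.2| ≤ M₂

variable {D : ℕ}

theorem pe_dX (c : Co D) (x y : ℝ) : pe (dX c) x y = pex c x y := by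
  unfold pe pex dX
  rw [Fin.sum_univ_castSucc]
  conv_rhs => rw [Fin.sum_univ_succ]
  have h1 : ∀ b : Fin (D + 1), (if h : ((Fin.last D : Fin (D + 1)) : ℕ) + 1 < D + 1 then
      (((Fin.last D : Fin (D + 1)) : ℕ) + 1 : ℝ) * c ⟨(Fin.last D : Fin (D + 1)) + 1, h⟩ b
      else 0) = 0 := by
    intro b
    rw [dif_neg (by simp)]
  have h2 : ∀ b : Fin (D + 1), c 0 b • ((((0 : Fin (D + 1)) : ℕ) : ℝ) •
      x ^ (((0 : Fin (D + 1)) : ℕ) - 1) * y ^ (b : ℕ)) = 0 := by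
    intro b
    simp
  simp only [h1, h2, zero_smul, Finset.sum_const_zero, add_zero, zero_add]
  refine Finset.sum_congr rfl fun a _ => Finset.sum_congr rfl fun b _ => ?_
  have h3 : ((Fin.castSucc a : Fin (D + 1)) : ℕ) + 1 < D + 1 := by simp
  rw [dif_pos h3]
  have h4 : (⟨(Fin.castSucc a : Fin (D + 1)) + 1, h3⟩ : Fin (D + 1)) = a.succ := by
    ext
    simp
  rw [h4]
  simp only [Fin.val_castSucc, Fin.val_succ, smul_eq_mul, Nat.add_sub_cancel]
  push_cast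
  ring

theorem pe_dY (c : Co D) (x y : ℝ) : pe (dY c) x y = pey c x y := by
  unfold pe pey dY
  refine Finset.sum_congr rfl fun a _ => ?_
  rw [Fin.sum_univ_castSucc]
  conv_rhs => rw [Fin.sum_univ_succ]
  have h1 : (if h : ((Fin.last D : Fin (D + 1)) : ℕ) + 1 < D + 1 then
      (((Fin.last D : Fin (D + 1)) : ℕ) + 1 : ℝ) * c a ⟨(Fin.last D : Fin (D + 1)) + 1, h⟩
      else 0) = 0 := by
    rw [dif_neg (by simp)]
  have h2 : c a 0 • (x ^ (a : ℕ) * ((((0 : Fin (D + 1)) : ℕ) : ℝ) •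
      y ^ (((0 : Fin (D + 1)) : ℕ) - 1))) = 0 := by
    simp
  rw [h1, h2, zero_smul, add_zero, zero_add]
  refine Finset.sum_congr rfl fun b _ => ?_
  have h3 : ((Fin.castSucc b : Fin (D + 1)) : ℕ) + 1 < D + 1 := by simp
  rw [dif_pos h3]
  have h4 : (⟨(Fin.castSucc b : Fin (D + 1)) + 1, h3⟩ : Fin (D + 1)) = b.succ := by
    ext
    simp
  rw [h4]
  simp only [Fin.val_castSucc, Fin.val_succ, smul_eq_mul, Nat.add_sub_cancel]
  push_cast
  ring

theorem pe_cst (r x y : ℝ) : pe (cst D r) x y = r := by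
  unfold pe cst
  rw [Fin.sum_univ_succ, Fin.sum_univ_succ]
  simp [Fin.succ_ne_zero]

theorem pex_cst (r x y : ℝ) : pex (cst D r) x y = 0 := by
  unfold pex cst
  refine Finset.sum_eq_zero fun a _ => Finset.sum_eq_zero fun b _ => ?_
  by_cases h : a = 0 ∧ b = 0
  · rw [h.1]
    simp
  · simp [h]

theorem pey_cst (r x y : ℝ) : pey (cst D r) x y = 0 := by
  unfold pey cst
  refine Finset.sum_eq_zero fun a _ => Finset.sum_eq_zero fun b _ => ?_
  by_cases h : a = 0 ∧ b = 0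
  · rw [h.2]
    simp
  · simp [h]

theorem dX_add (c c' : Co D) : dX (c + c') = dX c + dX c' := by
  funext a b
  simp only [dX, Pi.add_apply]
  split_ifs
  · ring
  · simp

theorem dY_add (c c' : Co D) : dY (c + c') = dY c + dY c' := by
  funext a b
  simp only [dY, Pi.add_apply]
  split_ifs
  · ring
  · simp

theorem dX_smul (r : ℝ) (c : Co D) : dX (r • c) = r • dX c := by
  funext a b
  simp only [dX, Pi.smul_apply, smul_eq_mul]
  split_ifs
  · ring
  · simp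

theorem dY_smul (r : ℝ) (c : Co D) : dY (r • c) = r • dY c := by
  funext a b
  simp only [dY, Pi.smul_apply, smul_eq_mul]
  split_ifs
  · ring
  · simp

theorem dX_cst (r : ℝ) : dX (cst D r) = 0 := by
  funext a b
  simp only [dX, cst, Pi.zero_apply]
  split_ifs with h h1
  · exact absurd (congrArg Fin.val h1.1) (by simp)
  · simp
  · rfl

theorem dY_cst (r : ℝ) : dY (cst D r) = 0 := by
  funext a b
  simp only [dY, cst, Pi.zero_apply]
  split_ifs with h h1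
  · exact absurd (congrArg Fin.val h1.2) (by simp)
  · simp
  · rfl

theorem vfc_shf (μ : Pr D) (c z : ℝ × ℝ) : vfc (shf μ c) z = vfc μ z + c := by
  unfold vfc shf
  ext
  · simp [avb_pe_add, pe_cst]
  · simp [avb_pe_add, pe_cst]

theorem pex_shf1 (μ : Pr D) (c : ℝ × ℝ) (x y : ℝ) : pex (shf μ c).1 x y = pex μ.1 x y := by
  simp [shf, avb_pex_add, pex_cst]

theorem pex_shf2 (μ : Pr D) (c : ℝ × ℝ) (x y : ℝ) : pex (shf μ c).2 x y = pex μ.2 x y := by
  simp [shf, avb_pex_add, pex_cst]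

theorem pey_shf1 (μ : Pr D) (c : ℝ × ℝ) (x y : ℝ) : pey (shf μ c).1 x y = pey μ.1 x y := by
  simp [shf, avb_pey_add, pey_cst]

theorem pey_shf2 (μ : Pr D) (c : ℝ × ℝ) (x y : ℝ) : pey (shf μ c).2 x y = pey μ.2 x y := by
  simp [shf, avb_pey_add, pey_cst]

theorem dX_shf1 (μ : Pr D) (c : ℝ × ℝ) : dX (shf μ c).1 = dX μ.1 := by
  simp [shf, dX_add, dX_cst]

theorem dX_shf2 (μ : Pr D) (c : ℝ × ℝ) : dX (shf μ c).2 = dX μ.2 := by
  simp [shf, dX_add, dX_cst]

theorem dY_shf1 (μ : Pr D) (c : ℝ × ℝ) : dY (shf μ c).1 = dY μ.1 := by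
  simp [shf, dY_add, dY_cst]

theorem dY_shf2 (μ : Pr D) (c : ℝ × ℝ) : dY (shf μ c).2 = dY μ.2 := by
  simp [shf, dY_add, dY_cst]

theorem dt2_shf (μ : Pr D) (c z : ℝ × ℝ) : dt2 (shf μ c) z = dt2 μ z := by
  simp only [dt2, pex_shf1, pex_shf2, pey_shf1, pey_shf2]

theorem DBound.shf {μ : Pr D} {K : Set (ℝ × ℝ)} {M₁ M₂ : ℝ} (h : DBound μ K M₁ M₂)
    (c : ℝ × ℝ) : DBound (shf μ c) K M₁ M₂ := by
  refine ⟨?_, ?_, ?_, ?_, ?_, ?_, ?_, ?_, ?_, ?_, ?_, ?_⟩
  · simpa only [pex_shf1] using h.x1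
  · simpa only [pey_shf1] using h.y1
  · simpa only [pex_shf2] using h.x2
  · simpa only [pey_shf2] using h.y2
  · simpa only [dX_shf1] using h.xx1
  · simpa only [dX_shf1] using h.xy1
  · simpa only [dY_shf1] using h.yx1
  · simpa only [dY_shf1] using h.yy1
  · simpa only [dX_shf2] using h.xx2
  · simpa only [dX_shf2] using h.xy2
  · simpa only [dY_shf2] using h.yx2
  · simpa only [dY_shf2] using h.yy2

theorem sa_abs_le {a b M α : ℝ} (ha : |a| ≤ M) (hb : |b| ≤ M) :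
    |Real.cos α * a - Real.sin α * b| ≤ 2 * M ∧ |Real.sin α * a + Real.cos α * b| ≤ 2 * M := by
  have h1 := Real.abs_cos_le_one α
  have h2 := Real.abs_sin_le_one α
  have h3 : |Real.cos α * a| ≤ M := by
    rw [abs_mul]
    nlinarith [abs_nonneg a, abs_nonneg (Real.cos α)]
  have h4 : |Real.sin α * b| ≤ M := by
    rw [abs_mul]
    nlinarith [abs_nonneg b, abs_nonneg (Real.sin α)]
  have h5 : |Real.cos α * b| ≤ M := by
    rw [abs_mul]
    nlinarith [abs_nonneg b, abs_nonneg (Real.cos α)]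
  have h6 : |Real.sin α * a| ≤ M := by
    rw [abs_mul]
    nlinarith [abs_nonneg a, abs_nonneg (Real.sin α)]
  constructor
  · exact (abs_sub _ _).trans (by linarith)
  · exact (abs_add_le _ _).trans (by linarith)

theorem rotA_1 (μ : Pr D) (α : ℝ) : (rotA μ α).1 = Real.cos α • μ.1 + (-Real.sin α) • μ.2 := by
  simp [rotA, rot]

theorem rotA_2 (μ : Pr D) (α : ℝ) : (rotA μ α).2 = Real.sin α • μ.1 + Real.cos α • μ.2 := by
  simp [rotA, rot, add_comm]

theorem DBound.rotA {μ : Pr D} {K : Set (ℝ × ℝ)} {M₁ M₂ : ℝ} (h : DBound μ K M₁ M₂)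
    (α : ℝ) : DBound (rotA μ α) K (2 * M₁) (2 * M₂) := by
  refine ⟨?_, ?_, ?_, ?_, ?_, ?_, ?_, ?_, ?_, ?_, ?_, ?_⟩ <;> intro z hz
  · simpa only [rotA_1, avb_pex_add, avb_pex_smul, smul_eq_mul, neg_mul, ← sub_eq_add_neg] using
      (sa_abs_le (α := α) (h.x1 z hz) (h.x2 z hz)).1
  · simpa only [rotA_1, avb_pey_add, avb_pey_smul, smul_eq_mul, neg_mul, ← sub_eq_add_neg] using
      (sa_abs_le (α := α) (h.y1 z hz) (h.y2 z hz)).1
  · simpa only [rotA_2, avb_pex_add, avb_pex_smul, smul_eq_mul] using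
      (sa_abs_le (α := α) (h.x1 z hz) (h.x2 z hz)).2
  · simpa only [rotA_2, avb_pey_add, avb_pey_smul, smul_eq_mul] using
      (sa_abs_le (α := α) (h.y1 z hz) (h.y2 z hz)).2
  · simpa only [rotA_1, dX_add, dX_smul, avb_pex_add, avb_pex_smul, smul_eq_mul, neg_mul,
      ← sub_eq_add_neg] using (sa_abs_le (α := α) (h.xx1 z hz) (h.xx2 z hz)).1
  · simpa only [rotA_1, dX_add, dX_smul, avb_pey_add, avb_pey_smul, smul_eq_mul, neg_mul,
      ← sub_eq_add_neg] using (sa_abs_le (α := α) (h.xy1 z hz) (h.xy2 z hz)).1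
  · simpa only [rotA_1, dY_add, dY_smul, avb_pex_add, avb_pex_smul, smul_eq_mul, neg_mul,
      ← sub_eq_add_neg] using (sa_abs_le (α := α) (h.yx1 z hz) (h.yx2 z hz)).1
  · simpa only [rotA_1, dY_add, dY_smul, avb_pey_add, avb_pey_smul, smul_eq_mul, neg_mul,
      ← sub_eq_add_neg] using (sa_abs_le (α := α) (h.yy1 z hz) (h.yy2 z hz)).1
  · simpa only [rotA_2, dX_add, dX_smul, avb_pex_add, avb_pex_smul, smul_eq_mul] using
      (sa_abs_le (α := α) (h.xx1 z hz) (h.xx2 z hz)).2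
  · simpa only [rotA_2, dX_add, dX_smul, avb_pey_add, avb_pey_smul, smul_eq_mul] using
      (sa_abs_le (α := α) (h.xy1 z hz) (h.xy2 z hz)).2
  · simpa only [rotA_2, dY_add, dY_smul, avb_pex_add, avb_pex_smul, smul_eq_mul] using
      (sa_abs_le (α := α) (h.yx1 z hz) (h.yx2 z hz)).2
  · simpa only [rotA_2, dY_add, dY_smul, avb_pey_add, avb_pey_smul, smul_eq_mul] using
      (sa_abs_le (α := α) (h.yy1 z hz) (h.yy2 z hz)).2

theorem dt2_rotA (μ : Pr D) (α : ℝ) (z : ℝ × ℝ) : dt2 (rotA μ α) z = dt2 μ z := by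
  simp only [dt2, rotA_1, rotA_2, avb_pex_add, avb_pex_smul, avb_pey_add, avb_pey_smul,
    smul_eq_mul]
  have := Real.sin_sq_add_cos_sq α
  linear_combination (pex μ.1 z.1 z.2 * pey μ.2 z.1 z.2 - pey μ.1 z.1 z.2 * pex μ.2 z.1 z.2) * this

/-- derivative of a first partial derivative along a curve -/
theorem pex_hasDerivAt (c : Co D) {u v : ℝ → ℝ} {u' v' : ℝ} {t : ℝ} (hu : HasDerivAt u u' t)
    (hv : HasDerivAt v v' t) : HasDerivAt (fun t => pex c (u t) (v t))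
      (pex (dX c) (u t) (v t) * u' + pey (dX c) (u t) (v t) * v') t := by
  have := pe_hasDerivAt (dX c) hu hv
  simpa only [pe_dX] using this

theorem pey_hasDerivAt (c : Co D) {u v : ℝ → ℝ} {u' v' : ℝ} {t : ℝ} (hu : HasDerivAt u u' t)
    (hv : HasDerivAt v v' t) : HasDerivAt (fun t => pey c (u t) (v t))
      (pex (dY c) (u t) (v t) * u' + pey (dY c) (u t) (v t) * v') t := by
  have := pe_hasDerivAt (dY c) hu hv
  simpa only [pe_dY] using this

end Pool.Agent.Lib.MP_95e7ec_an
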