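import Mathlib
import Pool.Agent.Lib.MP_95e7ec_an.AvgDefs
import Pool.Agent.Lib.MP_95e7ec_an.DetPos
import Pool.Agent.Lib.MP_95e7ec_an.JacPos
import Pool.Agent.Lib.MP_95e7ec_an.ShiftArr

/-!
# The inequality for elliptic closed orbits (task D3)
-/

set_option autoImplicit false

open Set Filter Topology MeasureTheory

namespace Pool.Agent.Lib.MP_95e7ec_an

variable {D : ℕ}

private theorem gi_elliptic {a b c e M x y : ℝ} (ha : |a| ≤ M) (hb : |b| ≤ M)
    (hc : |c| ≤ M) (he : |e| ≤ M) (ht : (a + e) ^ 2 ≤ 2 * (a * e - b * c)) :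
    (a * e - b * c) * (x ^ 2 + y ^ 2) ≤
      4 * M * |x * (c * x + e * y) - y * (a * x + b * y)| := by
  have hM : 0 ≤ M := (abs_nonneg a).trans ha
  rcases eq_or_lt_of_le (by positivity : 0 ≤ x ^ 2 + y ^ 2) with h0 | hr
  · rw [← h0, mul_zero]
    positivity
  set k := x * (c * x + e * y) - y * (a * x + b * y) with hk
  set kb := b * x ^ 2 + (e - a) * x * y - c * y ^ 2 with hkb
  set xh := a * x ^ 2 + (b + c) * x * y + e * y ^ 2 with hxh
  have hid : kb * k = xh * ((a + e) * (x ^ 2 + y ^ 2) - xh) -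
      (a * e - b * c) * (x ^ 2 + y ^ 2) ^ 2 := by
    rw [hk, hkb, hxh]; ring
  have h1 : xh * ((a + e) * (x ^ 2 + y ^ 2) - xh) ≤ (a + e) ^ 2 * (x ^ 2 + y ^ 2) ^ 2 / 4 := by
    nlinarith [sq_nonneg (2 * xh - (a + e) * (x ^ 2 + y ^ 2))]
  have hxy : 2 * (|x| * |y|) ≤ x ^ 2 + y ^ 2 := by
    nlinarith [sq_nonneg (|x| - |y|), sq_abs x, sq_abs y]
  have h2 : |kb| ≤ 2 * M * (x ^ 2 + y ^ 2) := by
    have e1 : |b * x ^ 2| ≤ M * x ^ 2 := by
      rw [abs_mul, abs_of_nonneg (sq_nonneg x)]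
      exact mul_le_mul_of_nonneg_right hb (sq_nonneg x)
    have e2 : |c * y ^ 2| ≤ M * y ^ 2 := by
      rw [abs_mul, abs_of_nonneg (sq_nonneg y)]
      exact mul_le_mul_of_nonneg_right hc (sq_nonneg y)
    have e3 : |(e - a) * x * y| ≤ 2 * M * (|x| * |y|) := by
      rw [abs_mul, abs_mul, mul_assoc]
      refine mul_le_mul_of_nonneg_right ?_ (by positivity)
      exact (abs_sub _ _).trans (by linarith)
    calc |kb| ≤ |b * x ^ 2 + (e - a) * x * y| + |c * y ^ 2| := abs_sub _ _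
      _ ≤ |b * x ^ 2| + |(e - a) * x * y| + |c * y ^ 2| := by
          gcongr
          exact abs_add_le _ _
      _ ≤ M * x ^ 2 + 2 * M * (|x| * |y|) + M * y ^ 2 := by linarith
      _ ≤ 2 * M * (x ^ 2 + y ^ 2) := by nlinarith
  have h3 : -(kb * k) ≤ |kb| * |k| := by
    rw [← abs_mul]
    exact neg_le_abs _
  have h4 : |kb| * |k| ≤ 2 * M * (x ^ 2 + y ^ 2) * |k| :=
    mul_le_mul_of_nonneg_right h2 (abs_nonneg k)
  have h5 : (a * e - b * c) * (x ^ 2 + y ^ 2) * (x ^ 2 + y ^ 2) ≤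
      4 * M * |k| * (x ^ 2 + y ^ 2) := by
    have h6 : (a + e) ^ 2 * (x ^ 2 + y ^ 2) ^ 2 ≤
        2 * (a * e - b * c) * (x ^ 2 + y ^ 2) ^ 2 :=
      mul_le_mul_of_nonneg_right ht (by positivity)
    nlinarith
  exact le_of_mul_le_mul_right h5 hr

/-- the algebraic bounds at a point -/
private theorem gi_point {P Q px py qx qy pxd pyd qxd qyd N M₁ M₂ δ k d dd κ : ℝ}
    (hN : 0 < N) (hNs : N ^ 2 = P ^ 2 + Q ^ 2) (hM1 : 0 < M₁) (hM2 : 0 ≤ M₂)
    (h1 : |px| ≤ M₁) (h2 : |py| ≤ M₁) (h3 : |qx| ≤ M₁) (h4 : |qy| ≤ M₁)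
    (h5 : |pxd| ≤ M₂ * (|P| + |Q|)) (h6 : |pyd| ≤ M₂ * (|P| + |Q|))
    (h7 : |qxd| ≤ M₂ * (|P| + |Q|)) (h8 : |qyd| ≤ M₂ * (|P| + |Q|))
    (hk : k = P * (qx * P + qy * Q) - Q * (px * P + py * Q))
    (hd : d = px * qy - py * qx)
    (hdd : dd = pxd * qy + px * qyd - (pyd * qx + py * qxd))
    (hκ : κ = P * (qxd * P + qyd * Q) - Q * (pxd * P + pyd * Q))
    (hδ : 0 < δ) (hδd : δ ≤ d) (htr : (px + qy) ^ 2 ≤ 2 * d) :
    k ≠ 0 ∧ |dd / k - d * κ / k ^ 2| ≤ 96 * M₁ ^ 2 * M₂ / (δ * N) ∧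
      δ / (2 * M₁) ≤ N ^ 2 * d / |k| := by
  have hd0 : 0 < d := lt_of_lt_of_le hδ hδd
  have hell := gi_elliptic (x := P) (y := Q) h1 h2 h3 h4 (by rw [← hd]; exact htr)
  rw [← hd, ← hk, ← hNs] at hell
  have hkpos : 0 < |k| := by
    by_contra hcon
    have h0 : |k| = 0 := le_antisymm (not_lt.mp hcon) (abs_nonneg k)
    rw [h0, mul_zero] at hell
    have : 0 < d * N ^ 2 := by positivity
    linarith
  have hk0 : k ≠ 0 := abs_pos.mp hkpos
  have hs2 : (|P| + |Q|) ^ 2 ≤ 2 * N ^ 2 := by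
    rw [hNs]
    nlinarith [sq_nonneg (|P| - |Q|), sq_abs P, sq_abs Q]
  set s := |P| + |Q| with hs
  have hs0 : 0 ≤ s := by positivity
  have hs1 : s ≤ 2 * N := by
    nlinarith [sq_nonneg (s - 2 * N)]
  have hPs : |P| ≤ s := by rw [hs]; linarith [abs_nonneg Q]
  have hQs : |Q| ≤ s := by rw [hs]; linarith [abs_nonneg P]
  have hkle : |k| ≤ 2 * M₁ * N ^ 2 := by
    have e1 : |qx * P + qy * Q| ≤ M₁ * s := by
      refine (abs_add_le _ _).trans ?_
      rw [abs_mul, abs_mul, hs]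
      nlinarith [abs_nonneg P, abs_nonneg Q]
    have e2 : |px * P + py * Q| ≤ M₁ * s := by
      refine (abs_add_le _ _).trans ?_
      rw [abs_mul, abs_mul, hs]
      nlinarith [abs_nonneg P, abs_nonneg Q]
    calc |k| ≤ |P * (qx * P + qy * Q)| + |Q * (px * P + py * Q)| := by
          rw [hk]; exact abs_sub _ _
      _ = |P| * |qx * P + qy * Q| + |Q| * |px * P + py * Q| := by rw [abs_mul, abs_mul]
      _ ≤ |P| * (M₁ * s) + |Q| * (M₁ * s) :=
          add_le_add (mul_le_mul_of_nonneg_left e1 (abs_nonneg P))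
            (mul_le_mul_of_nonneg_left e2 (abs_nonneg Q))
      _ = M₁ * s ^ 2 := by rw [hs]; ring
      _ ≤ M₁ * (2 * N ^ 2) := mul_le_mul_of_nonneg_left hs2 hM1.le
      _ = 2 * M₁ * N ^ 2 := by ring
  have hκle : |κ| ≤ 4 * M₂ * N ^ 3 := by
    have e1 : |qxd * P + qyd * Q| ≤ M₂ * s * s := by
      refine (abs_add_le _ _).trans ?_
      rw [abs_mul, abs_mul]
      calc |qxd| * |P| + |qyd| * |Q| ≤ M₂ * s * |P| + M₂ * s * |Q| :=
            add_le_add (mul_le_mul_of_nonneg_right h7 (abs_nonneg P))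
              (mul_le_mul_of_nonneg_right h8 (abs_nonneg Q))
        _ = M₂ * s * s := by rw [hs]; ring
    have e2 : |pxd * P + pyd * Q| ≤ M₂ * s * s := by
      refine (abs_add_le _ _).trans ?_
      rw [abs_mul, abs_mul]
      calc |pxd| * |P| + |pyd| * |Q| ≤ M₂ * s * |P| + M₂ * s * |Q| :=
            add_le_add (mul_le_mul_of_nonneg_right h5 (abs_nonneg P))
              (mul_le_mul_of_nonneg_right h6 (abs_nonneg Q))
        _ = M₂ * s * s := by rw [hs]; ring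
    calc |κ| ≤ |P * (qxd * P + qyd * Q)| + |Q * (pxd * P + pyd * Q)| := by
          rw [hκ]; exact abs_sub _ _
      _ = |P| * |qxd * P + qyd * Q| + |Q| * |pxd * P + pyd * Q| := by rw [abs_mul, abs_mul]
      _ ≤ |P| * (M₂ * s * s) + |Q| * (M₂ * s * s) :=
          add_le_add (mul_le_mul_of_nonneg_left e1 (abs_nonneg P))
            (mul_le_mul_of_nonneg_left e2 (abs_nonneg Q))
      _ = M₂ * (s ^ 2 * s) := by rw [hs]; ring
      _ ≤ M₂ * (2 * N ^ 2 * (2 * N)) := by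
          apply mul_le_mul_of_nonneg_left _ hM2
          exact mul_le_mul hs2 hs1 hs0 (by positivity)
      _ = 4 * M₂ * N ^ 3 := by ring
  have hddle : |dd| ≤ 8 * M₁ * M₂ * N := by
    have e : ∀ u v : ℝ, |u| ≤ M₂ * s → |v| ≤ M₁ → |u * v| ≤ M₂ * s * M₁ := by
      intro u v hu hv
      rw [abs_mul]
      exact mul_le_mul hu hv (abs_nonneg _) (by positivity)
    have e1 := e pxd qy h5 h4
    have e2 := e qyd px h8 h1
    have e3 := e pyd qx h6 h3
    have e4 := e qxd py h7 h2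
    rw [mul_comm qyd px] at e2
    rw [mul_comm qxd py] at e4
    have : |dd| ≤ 4 * (M₂ * s * M₁) := by
      rw [hdd]
      calc |pxd * qy + px * qyd - (pyd * qx + py * qxd)|
          ≤ |pxd * qy + px * qyd| + |pyd * qx + py * qxd| := abs_sub _ _
        _ ≤ (|pxd * qy| + |px * qyd|) + (|pyd * qx| + |py * qxd|) :=
            add_le_add (abs_add_le _ _) (abs_add_le _ _)
        _ ≤ 4 * (M₂ * s * M₁) := by linarith
    refine this.trans ?_
    have : M₂ * s * M₁ ≤ M₂ * (2 * N) * M₁ := by gcongr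
    linarith
  refine ⟨hk0, ?_, ?_⟩
  · -- `|k| ≥ d N² / (4 M₁)`
    have hkge : d * N ^ 2 / (4 * M₁) ≤ |k| := by
      rw [div_le_iff₀ (by positivity)]
      linarith
    have hkg0 : 0 < d * N ^ 2 / (4 * M₁) := by positivity
    have f1 : |dd / k| ≤ 32 * M₁ ^ 2 * M₂ / (d * N) := by
      rw [abs_div]
      calc |dd| / |k| ≤ 8 * M₁ * M₂ * N / (d * N ^ 2 / (4 * M₁)) :=
            div_le_div₀ (by positivity) hddle hkg0 hkge
        _ = 32 * M₁ ^ 2 * M₂ / (d * N) := by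
            field_simp
            ring
    have f2 : |d * κ / k ^ 2| ≤ 64 * M₁ ^ 2 * M₂ / (d * N) := by
      rw [abs_div, abs_mul, abs_of_pos hd0, abs_pow]
      calc d * |κ| / |k| ^ 2 ≤ d * (4 * M₂ * N ^ 3) / (d * N ^ 2 / (4 * M₁)) ^ 2 := by
            apply div_le_div₀ (by positivity)
              (mul_le_mul_of_nonneg_left hκle hd0.le) (by positivity)
            exact pow_le_pow_left₀ hkg0.le hkge 2
        _ = 64 * M₁ ^ 2 * M₂ / (d * N) := by
            field_simp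
            ring
    calc |dd / k - d * κ / k ^ 2| ≤ |dd / k| + |d * κ / k ^ 2| := abs_sub _ _
      _ ≤ 32 * M₁ ^ 2 * M₂ / (d * N) + 64 * M₁ ^ 2 * M₂ / (d * N) := add_le_add f1 f2
      _ = 96 * M₁ ^ 2 * M₂ / (d * N) := by ring
      _ ≤ 96 * M₁ ^ 2 * M₂ / (δ * N) := by
          apply div_le_div_of_nonneg_left (by positivity) (by positivity)
          exact mul_le_mul_of_nonneg_right hδd hN.le
  · rw [div_le_div_iff₀ (by positivity) hkpos]
    calc δ * |k| ≤ d * (2 * M₁ * N ^ 2) := mul_le_mul hδd hkle (abs_nonneg _) hd0.le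
      _ = N ^ 2 * d * (2 * M₁) := by ring

/-- The inequality for elliptic closed orbits. With `k = det(V, B V)`, `d = det B`,
`D = det(V,y)` one has
`(D d / k)' = τ (a' |V|² d / k + D (tr(adj B B') / k - d det(V, B' V) / k²))`. -/
theorem good_le_of (μ : Pr D) (τ τ' a' : ℝ) (hτ : 0 < τ) (x y0 : ℝ × ℝ) (z y : A × A)
    (hz : Sol μ τ x z) (hz1 : at' z 1 = x) (hy0 : at' y 0 = y0) (hy1 : at' y 1 = y0)
    (hne : ∀ t, vfc μ (at' z t) ≠ 0)
    (l1 : y.1 = ContinuousMap.const _ y0.1 + τ' • prim (pe μ.1 z.1 z.2) +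
      τ • prim (pex μ.1 z.1 z.2 * y.1 + pey μ.1 z.1 z.2 * y.2 + a' • pe (rot μ).1 z.1 z.2))
    (l2 : y.2 = ContinuousMap.const _ y0.2 + τ' • prim (pe μ.2 z.1 z.2) +
      τ • prim (pex μ.2 z.1 z.2 * y.1 + pey μ.2 z.1 z.2 * y.2 + a' • pe (rot μ).2 z.1 z.2))
    {K : Set (ℝ × ℝ)} {M₁ M₂ : ℝ} (h : DBound μ K M₁ M₂) (hM1 : 0 < M₁) (hM2 : 0 ≤ M₂)
    (hzK : ∀ t, at' z t ∈ K) {δ : ℝ} (hδ : 0 < δ) (hdt : ∀ t, δ ≤ dt2 μ (at' z t))
    (htr : ∀ t, tr2 μ (at' z t) ^ 2 ≤ 2 * dt2 μ (at' z t)) :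
    |a'| * τ ≤ 192 * M₁ ^ 3 * M₂ / δ ^ 2 *
      ∫ t in (0 : ℝ)..1, τ * |det2 (vfc μ (pth z t)) (pth y t)| / nm (vfc μ (pth z t)) := by
  have hz0 : at' z 0 = x := by
    obtain ⟨h1, h2⟩ := hz
    have e : ∀ g : A, (prim g) 0 = 0 := fun g => by
      change ∫ s in (0 : ℝ)..((0 : unitInterval) : ℝ), Set.IccExtend (zero_le_one' ℝ) g s = 0
      simp
    ext
    · change z.1 0 = x.1
      rw [h1]
      simp [e]
    · change z.2 0 = x.2
      rw [h2]
      simp [e]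
  have hpc := jp_pth_continuous z
  have hpyc := jp_pth_continuous y
  -- abbreviations
  set P : ℝ → ℝ := fun t => pe μ.1 (pth z t).1 (pth z t).2 with hP
  set Q : ℝ → ℝ := fun t => pe μ.2 (pth z t).1 (pth z t).2 with hQ
  set px : ℝ → ℝ := fun t => pex μ.1 (pth z t).1 (pth z t).2 with hpx
  set py : ℝ → ℝ := fun t => pey μ.1 (pth z t).1 (pth z t).2 with hpy
  set qx : ℝ → ℝ := fun t => pex μ.2 (pth z t).1 (pth z t).2 with hqx
  set qy : ℝ → ℝ := fun t => pey μ.2 (pth z t).1 (pth z t).2 with hqy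
  set pxd : ℝ → ℝ := fun t => pex (dX μ.1) (pth z t).1 (pth z t).2 * P t +
    pey (dX μ.1) (pth z t).1 (pth z t).2 * Q t with hpxd
  set pyd : ℝ → ℝ := fun t => pex (dY μ.1) (pth z t).1 (pth z t).2 * P t +
    pey (dY μ.1) (pth z t).1 (pth z t).2 * Q t with hpyd
  set qxd : ℝ → ℝ := fun t => pex (dX μ.2) (pth z t).1 (pth z t).2 * P t +
    pey (dX μ.2) (pth z t).1 (pth z t).2 * Q t with hqxd
  set qyd : ℝ → ℝ := fun t => pex (dY μ.2) (pth z t).1 (pth z t).2 * P t +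
    pey (dY μ.2) (pth z t).1 (pth z t).2 * Q t with hqyd
  set Dt : ℝ → ℝ := fun t => det2 (vfc μ (pth z t)) (pth y t) with hDt
  have cP : Continuous P := (jp_pe_continuous μ.1).comp hpc
  have cQ : Continuous Q := (jp_pe_continuous μ.2).comp hpc
  have cpx : Continuous px := (jp_pex_continuous μ.1).comp hpc
  have cpy : Continuous py := (jp_pey_continuous μ.1).comp hpc
  have cqx : Continuous qx := (jp_pex_continuous μ.2).comp hpc
  have cqy : Continuous qy := (jp_pey_continuous μ.2).comp hpc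
  have cpxd : Continuous pxd := (((jp_pex_continuous (dX μ.1)).comp hpc).mul cP).add
    (((jp_pey_continuous (dX μ.1)).comp hpc).mul cQ)
  have cpyd : Continuous pyd := (((jp_pex_continuous (dY μ.1)).comp hpc).mul cP).add
    (((jp_pey_continuous (dY μ.1)).comp hpc).mul cQ)
  have cqxd : Continuous qxd := (((jp_pex_continuous (dX μ.2)).comp hpc).mul cP).add
    (((jp_pey_continuous (dX μ.2)).comp hpc).mul cQ)
  have cqyd : Continuous qyd := (((jp_pex_continuous (dY μ.2)).comp hpc).mul cP).add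
    (((jp_pey_continuous (dY μ.2)).comp hpc).mul cQ)
  have cD : Continuous Dt :=
    (cP.mul (continuous_snd.comp hpyc)).sub (cQ.mul (continuous_fst.comp hpyc))
  have hN : ∀ t, 0 < P t ^ 2 + Q t ^ 2 := by
    intro t
    have h := hne (Set.projIcc 0 1 (zero_le_one' ℝ) t)
    rw [← jp_pth_proj] at h
    by_contra hcon
    push Not at hcon
    have h1 : P t = 0 := by nlinarith [sq_nonneg (P t), sq_nonneg (Q t)]
    have h2 : Q t = 0 := by nlinarith [sq_nonneg (P t), sq_nonneg (Q t)]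
    exact h (Prod.ext h1 h2)
  set N : ℝ → ℝ := fun t => Real.sqrt (P t ^ 2 + Q t ^ 2) with hNd
  have hNp : ∀ t, 0 < N t := fun t => Real.sqrt_pos.mpr (hN t)
  have hNs : ∀ t, N t ^ 2 = P t ^ 2 + Q t ^ 2 := fun t => Real.sq_sqrt (hN t).le
  have cN : Continuous N := Real.continuous_sqrt.comp ((cP.pow 2).add (cQ.pow 2))
  have hnm : ∀ t, nm (vfc μ (pth z t)) = N t := fun t => rfl
  have hK : ∀ t, pth z t ∈ K := fun t => by rw [jp_pth_proj]; exact hzK _
  set k : ℝ → ℝ := fun t => P t * (qx t * P t + qy t * Q t) - Q t * (px t * P t + py t * Q t)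
    with hk
  set d : ℝ → ℝ := fun t => px t * qy t - py t * qx t with hd
  set dd : ℝ → ℝ := fun t => pxd t * qy t + px t * qyd t - (pyd t * qx t + py t * qxd t) with hdd
  set κ : ℝ → ℝ := fun t => P t * (qxd t * P t + qyd t * Q t) - Q t * (pxd t * P t + pyd t * Q t)
    with hκ
  have ck : Continuous k := by fun_prop
  have cd : Continuous d := by fun_prop
  have cdd : Continuous dd := by fun_prop
  have cκ : Continuous κ := by fun_prop
  have hδd : ∀ t, δ ≤ d t := fun t => by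
    have := hdt (Set.projIcc 0 1 (zero_le_one' ℝ) t)
    rw [← jp_pth_proj] at this
    exact this
  have htrd : ∀ t, (px t + qy t) ^ 2 ≤ 2 * d t := fun t => by
    have := htr (Set.projIcc 0 1 (zero_le_one' ℝ) t)
    rw [← jp_pth_proj] at this
    exact this
  have hd0 : ∀ t, 0 < d t := fun t => lt_of_lt_of_le hδ (hδd t)
  have hbd : ∀ (u v : ℝ) (t : ℝ), |u| ≤ M₂ → |v| ≤ M₂ →
      |u * P t + v * Q t| ≤ M₂ * (|P t| + |Q t|) := by
    intro u v t hu hv
    refine (abs_add_le _ _).trans ?_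
    rw [abs_mul, abs_mul, mul_add]
    exact add_le_add (mul_le_mul_of_nonneg_right hu (abs_nonneg _))
      (mul_le_mul_of_nonneg_right hv (abs_nonneg _))
  have hpt : ∀ t, k t ≠ 0 ∧ |dd t / k t - d t * κ t / k t ^ 2| ≤ 96 * M₁ ^ 2 * M₂ / (δ * N t) ∧
      δ / (2 * M₁) ≤ N t ^ 2 * d t / |k t| := by
    intro t
    exact gi_point (hNp t) (hNs t) hM1 hM2 (h.x1 _ (hK t)) (h.y1 _ (hK t)) (h.x2 _ (hK t))
      (h.y2 _ (hK t)) (hbd _ _ t (h.xx1 _ (hK t)) (h.xy1 _ (hK t)))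
      (hbd _ _ t (h.yx1 _ (hK t)) (h.yy1 _ (hK t))) (hbd _ _ t (h.xx2 _ (hK t)) (h.xy2 _ (hK t)))
      (hbd _ _ t (h.yx2 _ (hK t)) (h.yy2 _ (hK t))) rfl rfl rfl rfl hδ (hδd t) (htrd t)
  have hk0 : ∀ t, k t ≠ 0 := fun t => (hpt t).1
  -- the path has derivative `τ V`
  have hzd1 : ∀ t ∈ Set.Ioo (0 : ℝ) 1, HasDerivAt (fun s => (pth z s).1) (τ * P t) t := by
    intro t ht
    have h := jp_hasDerivAt' hz.1 ht
    rw [jp_pe_ext] at h
    exact h
  have hzd2 : ∀ t ∈ Set.Ioo (0 : ℝ) 1, HasDerivAt (fun s => (pth z s).2) (τ * Q t) t := by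
    intro t ht
    have h := jp_hasDerivAt' hz.2 ht
    rw [jp_pe_ext] at h
    exact h
  set ψ : ℝ → ℝ := fun t => dd t / k t - d t * κ t / k t ^ 2 with hψ
  have cψ : Continuous ψ := (cdd.div ck hk0).sub ((cd.mul cκ).div (ck.pow 2)
    (fun t => pow_ne_zero 2 (hk0 t)))
  set θ : ℝ → ℝ := fun t => N t ^ 2 * d t / k t with hθ
  have cθ : Continuous θ := ((cN.pow 2).mul cd).div ck hk0
  -- the derivative of `Φ = D d / k`
  have hw : ∀ t ∈ Set.Ioo (0 : ℝ) 1, HasDerivAt (fun s => Dt s * d s / k s)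
      (τ * (Dt t * ψ t) + a' * (τ * θ t)) t := by
    intro t ht
    have d1 : HasDerivAt P (τ * (px t * P t + py t * Q t)) t := jp_vel1 hz ht
    have d2 : HasDerivAt Q (τ * (qx t * P t + qy t * Q t)) t := jp_vel2 hz ht
    have d3 : HasDerivAt Dt (τ * (px t + qy t) * Dt t + τ * a' * (P t ^ 2 + Q t ^ 2)) t :=
      jp_det hz l1 l2 ht
    have e1 : HasDerivAt px (τ * pxd t) t :=
      (pex_hasDerivAt μ.1 (hzd1 t ht) (hzd2 t ht)).congr_deriv (by simp only [hpxd]; ring)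
    have e2 : HasDerivAt py (τ * pyd t) t :=
      (pey_hasDerivAt μ.1 (hzd1 t ht) (hzd2 t ht)).congr_deriv (by simp only [hpyd]; ring)
    have e3 : HasDerivAt qx (τ * qxd t) t :=
      (pex_hasDerivAt μ.2 (hzd1 t ht) (hzd2 t ht)).congr_deriv (by simp only [hqxd]; ring)
    have e4 : HasDerivAt qy (τ * qyd t) t :=
      (pey_hasDerivAt μ.2 (hzd1 t ht) (hzd2 t ht)).congr_deriv (by simp only [hqyd]; ring)
    have d5 : HasDerivAt d (τ * dd t) t := by
      refine ((e1.mul e4).sub (e2.mul e3)).congr_deriv ?_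
      simp only [hdd]
      ring
    have d6 : HasDerivAt k (τ * ((px t + qy t) * k t + κ t)) t := by
      refine ((d1.mul ((e3.mul d1).add (e4.mul d2))).sub
        (d2.mul ((e1.mul d1).add (e2.mul d2)))).congr_deriv ?_
      simp only [hk, hκ, Pi.add_apply, Pi.mul_apply]
      ring
    refine ((d3.mul d5).div d6 (hk0 t)).congr_deriv ?_
    have hk0' := hk0 t
    simp only [hψ, hθ, hNs, Pi.mul_apply]
    field_simp
    ring
  have hFTC := intervalIntegral.integral_eq_sub_of_hasDerivAt_of_le (zero_le_one' ℝ)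
    (f := fun s => Dt s * d s / k s)
    (((cD.mul cd).div ck hk0).continuousOn) hw
    (Continuous.intervalIntegrable (by fun_prop) _ _)
  have h01 : Dt 1 * d 1 / k 1 = Dt 0 * d 0 / k 0 := by
    have e1 : pth z 1 = pth z 0 := by
      have a1 : pth z 1 = at' z 1 := jp_pth_coe z 1
      have a2 : pth z 0 = at' z 0 := jp_pth_coe z 0
      rw [a1, a2, hz0, hz1]
    have e2 : pth y 1 = pth y 0 := by
      have a1 : pth y 1 = at' y 1 := jp_pth_coe y 1
      have a2 : pth y 0 = at' y 0 := jp_pth_coe y 0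
      rw [a1, a2, hy0, hy1]
    simp only [hDt, hd, hk, hP, hQ, hpx, hpy, hqx, hqy]
    rw [e1, e2]
  rw [h01, sub_self, intervalIntegral.integral_add (Continuous.intervalIntegrable (by fun_prop) _ _)
    (Continuous.intervalIntegrable (by fun_prop) _ _), intervalIntegral.integral_const_mul a']
    at hFTC
  have hkey : a' * (∫ t in (0 : ℝ)..1, τ * θ t) = -∫ t in (0 : ℝ)..1, τ * (Dt t * ψ t) := by
    linarith
  -- `k` has constant sign on `ℝ`
  have hsgn : (∀ t, 0 < k t) ∨ (∀ t, k t < 0) := by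
    by_contra hcon
    push Not at hcon
    obtain ⟨⟨u, hu⟩, ⟨v, hv⟩⟩ := hcon
    have hmem : (0 : ℝ) ∈ Set.uIcc (k u) (k v) := by
      rw [Set.mem_uIcc]
      exact Or.inl ⟨hu, hv⟩
    obtain ⟨w, _, hw0⟩ := intermediate_value_uIcc (ck.continuousOn) hmem
    exact hk0 w hw0
  have cθa : Continuous (fun t => N t ^ 2 * d t / |k t|) :=
    ((cN.pow 2).mul cd).div (continuous_abs.comp ck) (fun t => abs_ne_zero.mpr (hk0 t))
  have hθabs : |∫ t in (0 : ℝ)..1, τ * θ t| = ∫ t in (0 : ℝ)..1, τ * (N t ^ 2 * d t / |k t|) := by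
    have hnn : 0 ≤ ∫ t in (0 : ℝ)..1, τ * (N t ^ 2 * d t / |k t|) :=
      intervalIntegral.integral_nonneg zero_le_one (fun t _ => by
        have := hNp t
        have := hd0 t
        positivity)
    rcases hsgn with hs | hs
    · have : ∀ t, τ * θ t = τ * (N t ^ 2 * d t / |k t|) := fun t => by
        simp only [hθ]
        rw [abs_of_pos (hs t)]
      simp only [this]
      exact abs_of_nonneg hnn
    · have : ∀ t, τ * θ t = -(τ * (N t ^ 2 * d t / |k t|)) := fun t => by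
        simp only [hθ]
        rw [abs_of_neg (hs t), div_neg]
        ring
      simp only [this]
      rw [intervalIntegral.integral_neg, abs_neg]
      exact abs_of_nonneg hnn
  have hlow : τ * (δ / (2 * M₁)) ≤ ∫ t in (0 : ℝ)..1, τ * (N t ^ 2 * d t / |k t|) := by
    have : ∫ t in (0 : ℝ)..1, τ * (δ / (2 * M₁)) = τ * (δ / (2 * M₁)) := by
      rw [intervalIntegral.integral_const]
      simp
    rw [← this]
    apply intervalIntegral.integral_mono_on zero_le_one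
      (Continuous.intervalIntegrable (by fun_prop) _ _)
      (Continuous.intervalIntegrable (continuous_const.mul cθa) _ _)
    intro t _
    exact mul_le_mul_of_nonneg_left (hpt t).2.2 hτ.le
  have cR : Continuous (fun t => τ * |Dt t| / N t) :=
    ((continuous_const.mul (continuous_abs.comp cD))).div cN (fun t => (hNp t).ne')
  have hup : |∫ t in (0 : ℝ)..1, τ * (Dt t * ψ t)| ≤
      96 * M₁ ^ 2 * M₂ / δ * ∫ t in (0 : ℝ)..1, τ * |Dt t| / N t := by
    refine (intervalIntegral.abs_integral_le_integral_abs zero_le_one).trans ?_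
    rw [← intervalIntegral.integral_const_mul]
    apply intervalIntegral.integral_mono_on zero_le_one
      (Continuous.intervalIntegrable (by fun_prop) _ _)
      (Continuous.intervalIntegrable (continuous_const.mul cR) _ _)
    intro t _
    rw [abs_mul, abs_mul, abs_of_pos hτ]
    have hN0 := (hNp t).ne'
    calc τ * (|Dt t| * |ψ t|) ≤ τ * (|Dt t| * (96 * M₁ ^ 2 * M₂ / (δ * N t))) := by
          apply mul_le_mul_of_nonneg_left _ hτ.le
          exact mul_le_mul_of_nonneg_left (hpt t).2.1 (abs_nonneg _)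
      _ = 96 * M₁ ^ 2 * M₂ / δ * (τ * |Dt t| / N t) := by
          field_simp
  have hgoal : |a'| * (τ * (δ / (2 * M₁))) ≤
      96 * M₁ ^ 2 * M₂ / δ * ∫ t in (0 : ℝ)..1, τ * |Dt t| / N t := by
    calc |a'| * (τ * (δ / (2 * M₁)))
        ≤ |a'| * ∫ t in (0 : ℝ)..1, τ * (N t ^ 2 * d t / |k t|) :=
          mul_le_mul_of_nonneg_left hlow (abs_nonneg _)
      _ = |a' * ∫ t in (0 : ℝ)..1, τ * θ t| := by rw [abs_mul, hθabs]
      _ = |∫ t in (0 : ℝ)..1, τ * (Dt t * ψ t)| := by rw [hkey, abs_neg]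
      _ ≤ _ := hup
  have hint : ∫ t in (0 : ℝ)..1, τ * |det2 (vfc μ (pth z t)) (pth y t)| / nm (vfc μ (pth z t)) =
      ∫ t in (0 : ℝ)..1, τ * |Dt t| / N t := rfl
  rw [hint]
  have hc : 192 * M₁ ^ 3 * M₂ / δ ^ 2 * (∫ t in (0 : ℝ)..1, τ * |Dt t| / N t) =
      (2 * M₁ / δ) * (96 * M₁ ^ 2 * M₂ / δ * ∫ t in (0 : ℝ)..1, τ * |Dt t| / N t) := by
    field_simp
    ring
  rw [hc]
  calc |a'| * τ = (2 * M₁ / δ) * (|a'| * (τ * (δ / (2 * M₁)))) := by
        field_simp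
    _ ≤ _ := mul_le_mul_of_nonneg_left hgoal (by positivity)

end Pool.Agent.Lib.MP_95e7ec_an
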