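import Mathlib
import Pool.Agent.Lib.MP_95e7ec_an.Defs
import Pool.Agent.Lib.MP_95e7ec_an.Orbits

/-!
# A closed orbit of a planar field surrounds a zero (task C11)

The theorem of turning tangents (Hopf's secant argument), with continuous logarithms.
-/

set_option autoImplicit false

open Set Filter Topology

namespace Pool.Agent.Lib.MP_95e7ec_an

/-- continuous logarithm -/
private theorem hull_lift {f : ℝ × ℝ → ℂ} (hf : Continuous f) (h0 : ∀ p, f p ≠ 0) :
    ∃ g : ℝ × ℝ → ℂ, Continuous g ∧ ∀ p, Complex.exp (g p) = f p := by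
  obtain ⟨F, ⟨-, hF⟩, -⟩ := Complex.isCoveringMapOn_exp.existsUnique_continuousMap_lifts
    (⟨f, hf⟩ : C(ℝ × ℝ, ℂ)) (a₀ := (0 : ℝ × ℝ)) (e₀ := Complex.log (f 0))
    (Complex.exp_log (h0 0)) (fun a => h0 a)
  exact ⟨F, F.continuous, fun p => congrFun hF p⟩

/-- continuous logarithms of a constant are constant -/
private theorem hull_const {g : ℝ × ℝ → ℂ} (hg : Continuous g) {c : ℂ}
    (h : ∀ p, Complex.exp (g p) = c) (p q : ℝ × ℝ) : g p = g q := by
  have hc : c ≠ 0 := by
    rw [← h p]; exact Complex.exp_ne_zero _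
  obtain ⟨F, -, hu⟩ := Complex.isCoveringMapOn_exp.existsUnique_continuousMap_lifts
    (⟨fun _ => c, continuous_const⟩ : C(ℝ × ℝ, ℂ)) (a₀ := q) (e₀ := g q)
    (h q) (fun a => hc)
  have h1 := hu ⟨g, hg⟩ ⟨rfl, funext h⟩
  have h2 := hu ⟨fun _ => g q, continuous_const⟩ ⟨rfl, funext fun _ => h q⟩
  have h3 := h1.trans h2.symm
  exact congrArg (fun f : C(ℝ × ℝ, ℂ) => f p) h3

/-- A `C¹` planar field has a zero in the convex hull of each of its closed orbits. -/
theorem exists_zero_in_hull {v : ℝ × ℝ → ℝ × ℝ} (hv : ContDiff ℝ 1 v) {C : Set (ℝ × ℝ)}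
    (hC : IsClosedOrbit v C) : ∃ z ∈ convexHull ℝ C, v z = 0 := by
  by_contra hcon
  push Not at hcon
  obtain ⟨p0, hp0⟩ := hC.nonempty
  obtain ⟨γ, T, hT, hγ, hper, hγ0, hCr, hmin⟩ := hC.exists_param_of_contDiff hv hp0
  have hγc : Continuous γ := continuous_iff_continuousAt.2 fun t => (hγ t).continuousAt
  have hvc : Continuous v := hv.continuous
  have hmem : ∀ t, γ t ∈ C := fun t => by rw [hCr]; exact ⟨t, rfl⟩
  have hK : ∀ z ∈ C, z ∈ convexHull ℝ C := fun z hz => subset_convexHull ℝ C hz
  -- injectivity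
  have hinj : ∀ s r : ℝ, 0 < r → r < T → γ (s + r) ≠ γ s := by
    intro s r hr hrT h
    have h1 := curve_unique_of_contDiff hv (hasDerivAt_shift hγ (s + r)) (hasDerivAt_shift hγ s)
      (by simpa using h)
    have h2 := congrFun h1 (-s)
    simp only [neg_add_cancel, neg_add_cancel_left] at h2
    exact hmin r ⟨hr, hrT⟩ (by rw [h2, hγ0])
  let e : (ℝ × ℝ) ≃L[ℝ] ℂ := Complex.equivRealProdCLM.symm
  have he0 : ∀ z, e z = 0 ↔ z = 0 := fun z => by
    constructor
    · intro h
      exact e.injective (by rw [h, map_zero])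
    · rintro rfl
      exact map_zero e
  -- the secant function
  let D : ℝ → ℝ → ℂ := fun s r => ∫ l in (0 : ℝ)..1, e (v (γ (s + l * r)))
  have hDc : Continuous (fun p : ℝ × ℝ => D p.1 p.2) := by
    apply intervalIntegral.continuous_parametric_intervalIntegral_of_continuous'
    fun_prop
  have hD : ∀ s r : ℝ, (r : ℂ) * D s r = e (γ (s + r)) - e (γ s) := by
    intro s r
    have hder : ∀ l : ℝ, HasDerivAt (fun l : ℝ => e (γ (s + l * r)))
        ((r : ℂ) * e (v (γ (s + l * r)))) l := by
      intro l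
      have h1 : HasDerivAt (fun l : ℝ => s + l * r) r l := by
        simpa using ((hasDerivAt_id l).mul_const r).const_add s
      have h2 := (hγ (s + l * r)).scomp l h1
      have h3 := (e.hasFDerivAt (x := γ (s + l * r))).comp_hasDerivAt l h2
      have h4 : e (r • v (γ (s + l * r))) = (r : ℂ) * e (v (γ (s + l * r))) := by
        rw [map_smul, Complex.real_smul]
      rw [← h4]
      exact h3
    have h5 := intervalIntegral.integral_eq_sub_of_hasDerivAt (a := 0) (b := 1)
      (fun l _ => hder l) (Continuous.intervalIntegrable (by fun_prop) _ _)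
    rw [intervalIntegral.integral_const_mul] at h5
    simpa using h5
  have hD0 : ∀ s, D s 0 = e (v (γ s)) := by
    intro s
    simp [D]
  have hDper : ∀ s r, D (s + T) r = D s r := by
    intro s r
    simp only [D]
    congr 1
    funext l
    rw [show s + T + l * r = s + l * r + T by ring, hper]
  have hDne : ∀ s r, 0 ≤ r → r < T → D s r ≠ 0 := by
    intro s r hr hrT h
    rcases hr.eq_or_lt with h0 | h0
    · rw [← h0, hD0, he0] at h
      exact hcon _ (hK _ (hmem s)) h
    · have h1 := hD s r
      rw [h, mul_zero] at h1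
      exact hinj s r h0 hrT (e.injective (sub_eq_zero.mp h1.symm))
  have hDsym : ∀ s, D s (T / 2) = -D (s + T / 2) (T - T / 2) := by
    intro s
    have h1 := hD s (T / 2)
    have h2 := hD (s + T / 2) (T / 2)
    rw [show s + T / 2 + T / 2 = s + T by ring, hper] at h2
    have h3 : ((T / 2 : ℝ) : ℂ) ≠ 0 := by
      rw [Complex.ofReal_ne_zero]; positivity
    apply mul_left_cancel₀ h3
    rw [show T - T / 2 = T / 2 by ring, mul_neg, h1, h2]
    ring
  let W : ℝ → ℝ → ℂ := fun s r => if r ≤ T / 2 then D s r else -D (s + r) (T - r)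
  have hWc : Continuous (fun p : ℝ × ℝ => W p.1 p.2) := by
    apply Continuous.if_le
    · exact hDc
    · exact (hDc.comp (f := fun p : ℝ × ℝ => (p.1 + p.2, T - p.2)) (by fun_prop)).neg
    · fun_prop
    · fun_prop
    · rintro ⟨s, r⟩ h
      simp only at h
      subst h
      exact hDsym s
  have hWne : ∀ s r, 0 ≤ r → r ≤ T → W s r ≠ 0 := by
    intro s r h0 h1
    simp only [W]
    split_ifs with h
    · exact hDne s r h0 (by linarith)
    · push Not at h
      exact neg_ne_zero.mpr (hDne _ _ (by linarith) (by linarith))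
  have hWsym : ∀ s r, W (s + r) (T - r) = -W s r := by
    intro s r
    simp only [W]
    rcases lt_trichotomy r (T / 2) with h | h | h
    · rw [if_neg (by linarith), if_pos h.le, show s + r + (T - r) = s + T by ring,
        show T - (T - r) = r by ring, hDper]
    · subst h
      rw [if_pos (by linarith), if_pos le_rfl, hDsym s]
      ring
    · rw [if_pos (by linarith), if_neg (by linarith)]
      ring
  let cl : ℝ → ℝ := fun r => max 0 (min r T)
  have hclc : Continuous cl := by fun_prop
  have hcl0 : ∀ r, 0 ≤ cl r := fun r => le_max_left _ _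
  have hclT : ∀ r, cl r ≤ T := fun r => max_le hT.le (min_le_right _ _)
  have hcl : ∀ r, 0 ≤ r → r ≤ T → cl r = r := fun r h0 h1 => by
    simp only [cl]
    rw [min_eq_left h1, max_eq_right h0]
  obtain ⟨G, hGc, hG⟩ := hull_lift (f := fun p : ℝ × ℝ => W p.1 (cl p.2))
    (hWc.comp (f := fun p : ℝ × ℝ => (p.1, cl p.2)) (by fun_prop))
    (fun p => hWne _ _ (hcl0 _) (hclT _))
  -- first constant
  have hg1 := hull_const (g := fun p : ℝ × ℝ => G (p.1 + cl p.2, T - cl p.2) - G (p.1, cl p.2))
    (by fun_prop) (c := -1) (by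
      rintro ⟨s, r⟩
      simp only
      rw [Complex.exp_sub, hG, hG]
      simp only
      rw [hcl (T - cl r) (by linarith [hclT r]) (by linarith [hcl0 r]),
        hcl (cl r) (hcl0 r) (hclT r), hWsym]
      have := hWne s (cl r) (hcl0 r) (hclT r)
      field_simp)
  have hg1c : ∀ p : ℝ × ℝ, Complex.exp (G (p.1 + cl p.2, T - cl p.2) - G (p.1, cl p.2)) = -1 := by
    rintro ⟨s, r⟩
    simp only
    rw [Complex.exp_sub, hG, hG]
    simp only
    rw [hcl (T - cl r) (by linarith [hclT r]) (by linarith [hcl0 r]),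
      hcl (cl r) (hcl0 r) (hclT r), hWsym]
    have := hWne s (cl r) (hcl0 r) (hclT r)
    field_simp
  -- the field along the straight line homotopy to a point
  let h : ℝ × ℝ → ℝ × ℝ := fun p =>
    (1 - max 0 (min p.1 1)) • γ p.2 + (max 0 (min p.1 1)) • p0
  have hhc : Continuous h := by fun_prop
  have hhK : ∀ p, h p ∈ convexHull ℝ C := by
    intro p
    apply convex_convexHull ℝ C (hK _ (hmem _)) (hK _ hp0)
    · have : max 0 (min p.1 1) ≤ 1 := max_le zero_le_one (min_le_right _ _)
      linarith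
    · exact le_max_left _ _
    · ring
  obtain ⟨P, hPc, hP⟩ := hull_lift (f := fun p => e (v (h p))) (by fun_prop)
    (fun p hp => hcon _ (hhK p) ((he0 _).mp hp))
  have hg2 := hull_const (g := fun p : ℝ × ℝ => P (p.1, p.2 + T) - P (p.1, p.2))
    (by fun_prop) (c := 1) (by
      rintro ⟨l, s⟩
      simp only
      rw [Complex.exp_sub, hP, hP]
      have : h (l, s + T) = h (l, s) := by
        simp only [h, hper]
      rw [this]
      exact div_self (fun hp => hcon _ (hhK _) ((he0 _).mp hp)))
  have hg3 := hull_const (g := fun p : ℝ × ℝ => P (1, p.2))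
    (by fun_prop) (c := e (v p0)) (by
      rintro ⟨l, s⟩
      simp only
      rw [hP]
      have : h (1, s) = p0 := by
        simp [h]
      rw [this])
  have hg4 := hull_const (g := fun p : ℝ × ℝ => G (p.2, 0) - P (0, p.2))
    (by fun_prop) (c := 1) (by
      rintro ⟨l, s⟩
      simp only
      rw [Complex.exp_sub, hP, hG]
      have : h (0, s) = γ s := by
        simp [h]
      rw [this, hcl 0 le_rfl hT.le]
      simp only [W]
      rw [if_pos (by positivity), hD0]
      exact div_self (fun hp => hcon _ (hK _ (hmem s)) ((he0 _).mp hp)))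
  have e1 := hg1 (0, 0) (0, T)
  have e1c := hg1c (0, 0)
  have e2 := hg2 (0, 0) (1, 0)
  have e3 := hg3 (0, T) (0, 0)
  have e4 := hg4 (0, T) (0, 0)
  simp only [hcl 0 le_rfl hT.le, hcl T hT.le le_rfl, zero_add, sub_zero, sub_self, add_zero]
    at e1 e1c e2 e3 e4
  have hk : G (0, T) - G (0, 0) = 0 := by
    have : 2 * (G (0, T) - G (0, 0)) = 0 := by
      linear_combination e1 + e4 + e2 + e3
    simpa using this
  rw [hk, Complex.exp_zero] at e1c
  norm_num at e1c

end Pool.Agent.Lib.MP_95e7ec_an
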