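import Mathlib
import Pool.Agent.Lib.MP_95e7ec_an.AvgDefs
import Pool.Agent.Lib.MP_95e7ec_an.Orbits

/-!
# Change of time, and the diameter of a closed orbit
-/

set_option autoImplicit false

open Set Filter Topology MeasureTheory
open scoped ContDiff ENNReal

namespace Pool.Agent.Lib.MP_95e7ec_an

/-- Change of time: a closed orbit of `g • Y`, with `g > 0` along it, is a closed orbit of `Y`. -/
theorem IsClosedOrbit.of_smul {Y : ℝ × ℝ → ℝ × ℝ} {g : ℝ × ℝ → ℝ} (hg : Continuous g)
    {C : Set (ℝ × ℝ)} (hC : IsClosedOrbit (fun z => g z • Y z) C) (hpos : ∀ z ∈ C, 0 < g z) :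
    IsClosedOrbit Y C := by
  obtain ⟨γ, T, hT, hγ, hper, ⟨s0, t0, hst⟩, rfl⟩ := hC
  have hc : Continuous γ := continuous_iff_continuousAt.2 fun t => (hγ t).continuousAt
  have hgc : Continuous fun t => g (γ t) := hg.comp hc
  have hgp : ∀ t, 0 < g (γ t) := fun t => hpos _ ⟨t, rfl⟩
  set θ : ℝ → ℝ := fun t => ∫ u in (0 : ℝ)..t, g (γ u) with hθ
  have hθd : ∀ t, HasDerivAt θ (g (γ t)) t := fun t =>
    intervalIntegral.integral_hasDerivAt_right (hgc.intervalIntegrable _ _)
      (hgc.stronglyMeasurableAtFilter _ _) hgc.continuousAt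
  have hθc : Continuous θ := continuous_iff_continuousAt.2 fun t => (hθd t).continuousAt
  have hmono : StrictMono θ := strictMono_of_hasDerivAt_pos hθd hgp
  have hθ0 : θ 0 = 0 := by simp [hθ]
  set S : ℝ := θ T with hS
  have hSpos : 0 < S := by rw [hS, ← hθ0]; exact hmono hT
  have hadd : ∀ t, θ (t + T) = θ t + S := by
    have h1 : ∀ t, HasDerivAt (fun t => θ (t + T) - θ t) 0 t := by
      intro t
      have e1 := (hθd (t + T)).comp_add_const t T
      have e2 := e1.sub (hθd t)
      rw [hper, sub_self] at e2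
      exact e2
    intro t
    have h2 := is_const_of_deriv_eq_zero (fun t => (h1 t).differentiableAt)
      (fun t => (h1 t).deriv) t 0
    simp only [zero_add, hθ0] at h2
    rw [hS]
    linarith
  have hmulN : ∀ k : ℕ, θ (k * T) = k * S := by
    intro k
    induction k with
    | zero => simp [hθ0]
    | succ k ih =>
      push_cast
      rw [add_mul, one_mul, hadd, ih]
      ring
  have hmulN' : ∀ k : ℕ, θ (-(k * T)) = -(k * S) := by
    intro k
    induction k with
    | zero => simp [hθ0]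
    | succ k ih =>
      have := hadd (-((k + 1 : ℕ) * T))
      push_cast at this ⊢
      rw [show -((↑k + 1) * T) + T = -(k * T) by ring, ih] at this
      linarith
  have hsurj : Function.Surjective θ := by
    apply hθc.surjective
    · rw [tendsto_atTop_atTop_iff_of_monotone hmono.monotone]
      intro b
      obtain ⟨k, hk⟩ := exists_nat_ge (b / S)
      refine ⟨k * T, ?_⟩
      rw [hmulN]
      rwa [div_le_iff₀ hSpos] at hk
    · rw [tendsto_atBot_atBot_iff_of_monotone hmono.monotone]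
      intro b
      obtain ⟨k, hk⟩ := exists_nat_ge (-b / S)
      refine ⟨-(k * T), ?_⟩
      rw [hmulN']
      rw [div_le_iff₀ hSpos] at hk
      linarith
  -- inverse
  let e : ℝ ≃o ℝ := StrictMono.orderIsoOfSurjective θ hmono hsurj
  set σ : ℝ → ℝ := fun u => e.symm u with hσ
  have hσc : Continuous σ := e.symm.continuous
  have hθσ : ∀ u, θ (σ u) = u := fun u => e.apply_symm_apply u
  have hσθ : ∀ t, σ (θ t) = t := fun t => e.symm_apply_apply t
  have hσd : ∀ u, HasDerivAt σ (g (γ (σ u)))⁻¹ u := fun u =>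
    HasDerivAt.of_local_left_inverse hσc.continuousAt (hθd (σ u)) (hgp _).ne'
      (Eventually.of_forall hθσ)
  have hσadd : ∀ u, σ (u + S) = σ u + T := by
    intro u
    apply hmono.injective
    rw [hθσ, hadd, hθσ]
  refine ⟨fun u => γ (σ u), S, hSpos, ?_, ?_, ?_, ?_⟩
  · intro u
    have := HasDerivAt.scomp u (hγ (σ u)) (hσd u)
    have h2 : (g (γ (σ u)))⁻¹ • (g (γ (σ u)) • Y (γ (σ u))) = Y (γ (σ u)) := by
      rw [smul_smul, inv_mul_cancel₀ (hgp _).ne', one_smul]
    rw [h2] at this
    exact this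
  · intro u
    simp only [hσadd, hper]
  · refine ⟨θ s0, θ t0, ?_⟩
    simpa only [hσθ] using hst
  · ext z
    constructor
    · rintro ⟨t, rfl⟩
      exact ⟨θ t, by simp only [hσθ]⟩
    · rintro ⟨u, rfl⟩
      exact ⟨σ u, rfl⟩

/-- The chord estimate: for a unit vector `e` the component of `∫ w` along `e` is at most
`∫ |w|`. -/
theorem dot_le_nm (w e : ℝ × ℝ) (he : e.1 ^ 2 + e.2 ^ 2 = 1) : dot w e ≤ nm w := by
  unfold dot nm
  apply Real.le_sqrt_of_sq_le
  nlinarith [sq_nonneg (w.1 * e.2 - w.2 * e.1)]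

/-- the chord between two points of a curve is at most the length of the arc -/
theorem nm_sub_le {v : ℝ × ℝ → ℝ × ℝ} (hv : Continuous v) {γ : ℝ → ℝ × ℝ}
    (hγ : ∀ t, HasDerivAt γ (v (γ t)) t) {a b : ℝ} (hab : a ≤ b) :
    nm (γ b - γ a) ≤ ∫ t in a..b, nm (v (γ t)) := by
  have hc : Continuous γ := continuous_iff_continuousAt.2 fun t => (hγ t).continuousAt
  have hvc : Continuous fun t => v (γ t) := hv.comp hc
  have hnmc : Continuous fun t => nm (v (γ t)) := by
    unfold nm
    exact Real.continuous_sqrt.comp ((hvc.fst.pow 2).add (hvc.snd.pow 2))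
  set u : ℝ × ℝ := γ b - γ a with hu
  rcases eq_or_ne u 0 with h0 | h0
  · rw [h0]
    have : nm 0 = 0 := by simp [nm]
    rw [this]
    exact intervalIntegral.integral_nonneg hab fun t _ => Real.sqrt_nonneg _
  · have hpos : 0 < u.1 ^ 2 + u.2 ^ 2 := by
      by_contra hcon
      push Not at hcon
      have e1 : u.1 = 0 := by nlinarith [sq_nonneg u.1, sq_nonneg u.2]
      have e2 : u.2 = 0 := by nlinarith [sq_nonneg u.1, sq_nonneg u.2]
      exact h0 (Prod.ext e1 e2)
    have hnpos : 0 < nm u := Real.sqrt_pos.2 hpos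
    have hsq : nm u ^ 2 = u.1 ^ 2 + u.2 ^ 2 := Real.sq_sqrt hpos.le
    set e : ℝ × ℝ := (u.1 / nm u, u.2 / nm u) with he
    have he1 : e.1 ^ 2 + e.2 ^ 2 = 1 := by
      simp only [he]
      field_simp
      linarith
    have hdot : dot u e = nm u := by
      simp only [dot, he]
      field_simp
      linarith
    have hder : ∀ t, HasDerivAt (fun t => dot (γ t) e) (dot (v (γ t)) e) t := by
      intro t
      have h1 : HasDerivAt (fun t => (γ t).1) (v (γ t)).1 t :=
        (hasFDerivAt_fst (𝕜 := ℝ) (p := γ t)).comp_hasDerivAt t (hγ t)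
      have h2 : HasDerivAt (fun t => (γ t).2) (v (γ t)).2 t :=
        (hasFDerivAt_snd (𝕜 := ℝ) (p := γ t)).comp_hasDerivAt t (hγ t)
      exact (h1.mul_const e.1).add (h2.mul_const e.2)
    have hdc : Continuous fun t => dot (v (γ t)) e := by
      unfold dot
      exact (hvc.fst.mul continuous_const).add (hvc.snd.mul continuous_const)
    have hftc := intervalIntegral.integral_eq_sub_of_hasDerivAt (fun t _ => hder t)
      (hdc.intervalIntegrable a b)
    have h3 : dot (γ b) e - dot (γ a) e = dot u e := by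
      simp only [dot, hu, Prod.fst_sub, Prod.snd_sub]
      ring
    rw [← hdot, ← h3, ← hftc]
    exact intervalIntegral.integral_mono_on hab (hdc.intervalIntegrable _ _)
      (hnmc.intervalIntegrable _ _) fun t _ => dot_le_nm _ _ he1

theorem nm_neg (u : ℝ × ℝ) : nm (-u) = nm u := by
  simp [nm]

/-- two points of a closed orbit are at distance at most half the length -/
theorem two_nm_le_orbitLength {v : ℝ × ℝ → ℝ × ℝ} (hv : Continuous v) {C : Set (ℝ × ℝ)}
    {p q : ℝ × ℝ} (hp : p ∈ C) (hq : q ∈ C) :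
    ENNReal.ofReal (2 * nm (p - q)) ≤ orbitLength v C := by
  unfold orbitLength
  refine le_iInf fun γ => le_iInf fun T => le_iInf fun h => ?_
  obtain ⟨hT, hγ, hper, hC⟩ := h
  apply ENNReal.ofReal_le_ofReal
  have hc : Continuous γ := continuous_iff_continuousAt.2 fun t => (hγ t).continuousAt
  have hvc : Continuous fun t => v (γ t) := hv.comp hc
  have hnmc : Continuous fun t => nm (v (γ t)) := by
    unfold nm
    exact Real.continuous_sqrt.comp ((hvc.fst.pow 2).add (hvc.snd.pow 2))
  have hP : Function.Periodic γ T := hper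
  have hP2 : Function.Periodic (fun t => nm (v (γ t))) T := fun t => by simp only [hper]
  rw [hC, ← hP.image_Icc hT 0] at hp hq
  obtain ⟨a, ha, rfl⟩ := hp
  obtain ⟨b, hb, rfl⟩ := hq
  rw [zero_add] at ha hb
  have key : ∀ a ∈ Icc 0 T, ∀ b ∈ Icc 0 T, a ≤ b →
      2 * nm (γ b - γ a) ≤ ∫ t in (0 : ℝ)..T, nm (v (γ t)) := by
    intro a ha b hb hab
    have h1 := nm_sub_le hv hγ hab
    have h2 := nm_sub_le hv hγ (show b ≤ a + T by linarith [hb.2, ha.1])
    rw [hper] at h2
    have h3 : nm (γ a - γ b) = nm (γ b - γ a) := by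
      rw [← nm_neg, neg_sub]
    rw [h3] at h2
    have h4 : (∫ t in a..b, nm (v (γ t))) + ∫ t in b..(a + T), nm (v (γ t)) =
        ∫ t in a..(a + T), nm (v (γ t)) :=
      intervalIntegral.integral_add_adjacent_intervals (hnmc.intervalIntegrable _ _)
        (hnmc.intervalIntegrable _ _)
    have h5 : ∫ t in a..(a + T), nm (v (γ t)) = ∫ t in (0 : ℝ)..T, nm (v (γ t)) := by
      have := hP2.intervalIntegral_add_eq a 0
      rwa [zero_add] at this
    linarith
  rcases le_total a b with hab | hab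
  · have := key a ha b hb hab
    have h3 : nm (γ a - γ b) = nm (γ b - γ a) := by
      rw [← nm_neg, neg_sub]
    rw [h3]
    exact this
  · exact key b hb a ha hab

theorem nm_le_of_mem_hull {C : Set (ℝ × ℝ)} {M : ℝ} {p z : ℝ × ℝ}
    (h : ∀ q ∈ C, nm (p - q) ≤ M) (hM : 0 ≤ M) (hz : z ∈ convexHull ℝ C) : nm (p - z) ≤ M := by
  have hconv : Convex ℝ {q : ℝ × ℝ | nm (p - q) ≤ M} := by
    have hset : {q : ℝ × ℝ | nm (p - q) ≤ M} =
        {q : ℝ × ℝ | (p.1 - q.1) ^ 2 + (p.2 - q.2) ^ 2 ≤ M ^ 2} := by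
      ext q
      simp only [Set.mem_ofPred_eq, nm, Prod.fst_sub, Prod.snd_sub]
      rw [Real.sqrt_le_left hM]
    rw [hset]
    intro x hx y hy a b ha hb hab
    simp only [Set.mem_ofPred_eq, Prod.fst_add, Prod.snd_add, Prod.smul_fst, Prod.smul_snd,
      smul_eq_mul] at hx hy ⊢
    have hb' : b = 1 - a := by linarith
    subst hb'
    have e1 : p.1 - (a * x.1 + (1 - a) * y.1) = a * (p.1 - x.1) + (1 - a) * (p.1 - y.1) := by ring
    have e2 : p.2 - (a * x.2 + (1 - a) * y.2) = a * (p.2 - x.2) + (1 - a) * (p.2 - y.2) := by ring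
    rw [e1, e2]
    nlinarith [mul_nonneg (mul_nonneg ha hb) (add_nonneg
      (sq_nonneg ((p.1 - x.1) - (p.1 - y.1))) (sq_nonneg ((p.2 - x.2) - (p.2 - y.2)))),
      mul_le_mul_of_nonneg_left hx ha, mul_le_mul_of_nonneg_left hy hb]
  exact convexHull_min h hconv hz

end Pool.Agent.Lib.MP_95e7ec_an
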