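import Mathlib
import Pool.Agent.Lib.MP_95e7ec_an.ShiftArr

/-!
# 2x2 matrix inequalities and the variation of the first derivatives (task D1)
-/

set_option autoImplicit false

open Set Filter Topology MeasureTheory

namespace Pool.Agent.Lib.MP_95e7ec_an

variable {D : ℕ}

private theorem qa_mul {p q P Q : ℝ} (hp : |p| ≤ P) (hq : |q| ≤ Q) : |p * q| ≤ P * Q := by
  rw [abs_mul]
  exact mul_le_mul hp hq (abs_nonneg _) ((abs_nonneg _).trans hp)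

private theorem qa_lin {a b x y M : ℝ} (ha : |a| ≤ M) (hb : |b| ≤ M) :
    |a * x + b * y| ≤ M * (|x| + |y|) := by
  have h1 := qa_mul ha (le_refl |x|)
  have h2 := qa_mul hb (le_refl |y|)
  exact (abs_add_le _ _).trans (by linarith)

private theorem qa_add {p q P Q : ℝ} (hp : |p| ≤ P) (hq : |q| ≤ Q) : |p + q| ≤ P + Q :=
  (abs_add_le _ _).trans (add_le_add hp hq)

private theorem qa_sub {p q P Q : ℝ} (hp : |p| ≤ P) (hq : |q| ≤ Q) : |p - q| ≤ P + Q :=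
  (abs_sub _ _).trans (add_le_add hp hq)

private theorem qa_sq (x y : ℝ) : (|x| + |y|) ^ 2 ≤ 2 * (x ^ 2 + y ^ 2) := by
  nlinarith [sq_nonneg (|x| - |y|), sq_abs x, sq_abs y]

/-- elliptic matrices: `|u ∧ B u| ≥ det B / (4 M) |u|²` if the entries are at most `M` and
`tr² ≤ 2 det` -/
theorem elliptic_lower {a b c e M x y : ℝ} (hM : 0 < M) (ha : |a| ≤ M) (hb : |b| ≤ M)
    (hc : |c| ≤ M) (he : |e| ≤ M) (hd : 0 < a * e - b * c)
    (ht : (a + e) ^ 2 ≤ 2 * (a * e - b * c)) :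
    (a * e - b * c) * (x ^ 2 + y ^ 2) ≤
      4 * M * |x * (c * x + e * y) - y * (a * x + b * y)| := by
  rcases eq_or_lt_of_le (show 0 ≤ x ^ 2 + y ^ 2 by positivity) with h0 | h0
  · rw [← h0, mul_zero]
    positivity
  set k := x * (c * x + e * y) - y * (a * x + b * y) with hk
  set kb := x * (b * x + e * y) - y * (a * x + c * y) with hkb
  set xh := a * x ^ 2 + (b + c) * (x * y) + e * y ^ 2 with hxh
  set r := x ^ 2 + y ^ 2 with hr
  have hid : kb * k = xh * ((a + e) * r - xh) - (a * e - b * c) * r ^ 2 := by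
    rw [hkb, hk, hxh, hr]
    ring
  have h1 : xh * ((a + e) * r - xh) ≤ (a + e) ^ 2 / 4 * r ^ 2 := by
    nlinarith [sq_nonneg ((a + e) * r / 2 - xh)]
  have h2 : |kb| ≤ 2 * M * r := by
    have h3 : |kb| ≤ |x| * (M * (|x| + |y|)) + |y| * (M * (|x| + |y|)) :=
      qa_sub (qa_mul le_rfl (qa_lin hb he)) (qa_mul le_rfl (qa_lin ha hc))
    have h4 := qa_sq x y
    nlinarith
  have h3 : -(kb * k) ≤ 2 * M * r * |k| := by
    have h4 : -(kb * k) ≤ |kb| * |k| := by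
      rw [← abs_mul]
      exact neg_le_abs _
    exact h4.trans (mul_le_mul_of_nonneg_right h2 (abs_nonneg _))
  have h5 : r * ((a * e - b * c) * r) ≤ r * (4 * M * |k|) := by
    nlinarith [mul_nonneg (sub_nonneg.2 ht) (sq_nonneg r)]
  exact le_of_mul_le_mul_left h5 h0

/-- the derivative of `d₀ |V|² + |adj(B₀) V|²` along `V' = B V` is `2 d₀ t₀ |V|²` up to an error -/
theorem lyap_one {a b c e a' b' c' e' M η x y : ℝ} (hM : 0 ≤ M) (hη : 0 ≤ η)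
    (ha : |a| ≤ M) (hb : |b| ≤ M) (hc : |c| ≤ M) (he : |e| ≤ M)
    (ha' : |a' - a| ≤ η) (hb' : |b' - b| ≤ η) (hc' : |c' - c| ≤ η) (he' : |e' - e| ≤ η)
    (hxy : 0 < x ^ 2 + y ^ 2)
    (h0 : 2 * ((a * e - b * c) * (x * (a' * x + b' * y) + y * (c' * x + e' * y)) +
      ((e * x - b * y) * (e * (a' * x + b' * y) - b * (c' * x + e' * y)) +
        (-c * x + a * y) * (-c * (a' * x + b' * y) + a * (c' * x + e' * y)))) = 0) :
    |(a * e - b * c) * (a + e)| ≤ 12 * M ^ 2 * η := by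
  set s := |x| + |y| with hs
  have hs2 : s ^ 2 ≤ 2 * (x ^ 2 + y ^ 2) := qa_sq x y
  have hs0 : 0 ≤ s := by positivity
  have hid : (a * e - b * c) * (a + e) * (x ^ 2 + y ^ 2) =
      -((a * e - b * c) * (x * ((a' - a) * x + (b' - b) * y) + y * ((c' - c) * x + (e' - e) * y)) +
      ((e * x + -b * y) * (e * ((a' - a) * x + (b' - b) * y) +
          -b * ((c' - c) * x + (e' - e) * y)) +
        (-c * x + a * y) * (-c * ((a' - a) * x + (b' - b) * y) +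
          a * ((c' - c) * x + (e' - e) * y)))) := by
    linear_combination h0 / 2
  have hb2 : |-b| ≤ M := by rwa [abs_neg]
  have hc2 : |-c| ≤ M := by rwa [abs_neg]
  have l1 : |(a' - a) * x + (b' - b) * y| ≤ η * s := qa_lin ha' hb'
  have l2 : |(c' - c) * x + (e' - e) * y| ≤ η * s := qa_lin hc' he'
  have h1 : |(a * e - b * c) *
      (x * ((a' - a) * x + (b' - b) * y) + y * ((c' - c) * x + (e' - e) * y))| ≤
      (M * M + M * M) * (|x| * (η * s) + |y| * (η * s)) :=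
    qa_mul (qa_sub (qa_mul ha he) (qa_mul hb hc))
      (qa_add (qa_mul le_rfl l1) (qa_mul le_rfl l2))
  have h2 : |(e * x + -b * y) * (e * ((a' - a) * x + (b' - b) * y) +
          -b * ((c' - c) * x + (e' - e) * y))| ≤ (M * s) * (M * (η * s) + M * (η * s)) :=
    qa_mul (qa_lin he hb2) (qa_add (qa_mul he l1) (qa_mul hb2 l2))
  have h3 : |(-c * x + a * y) * (-c * ((a' - a) * x + (b' - b) * y) +
          a * ((c' - c) * x + (e' - e) * y))| ≤ (M * s) * (M * (η * s) + M * (η * s)) :=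
    qa_mul (qa_lin hc2 ha) (qa_add (qa_mul hc2 l1) (qa_mul ha l2))
  have h4 := qa_add h1 (qa_add h2 h3)
  rw [← abs_neg, ← hid, abs_mul, abs_of_pos hxy] at h4
  have h5 : |(a * e - b * c) * (a + e)| * (x ^ 2 + y ^ 2) ≤
      12 * M ^ 2 * η * (x ^ 2 + y ^ 2) := by
    refine h4.trans ?_
    have h6 : (M * M + M * M) * (|x| * (η * s) + |y| * (η * s)) +
        ((M * s) * (M * (η * s) + M * (η * s)) + (M * s) * (M * (η * s) + M * (η * s))) =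
        6 * M ^ 2 * η * s ^ 2 := by
      rw [hs]
      ring
    rw [h6]
    have h7 : 0 ≤ 6 * M ^ 2 * η := by positivity
    nlinarith [mul_le_mul_of_nonneg_left hs2 h7]
  exact le_of_mul_le_mul_right h5 hxy

/-- the derivative of `⟨V, B₀ V⟩` along `V' = B V` is
`|B₀ V|² + t₀ ⟨V, B₀ V⟩ - d₀ |V|²` up to an error -/
theorem lyap_two {a b c e a' b' c' e' M η x y : ℝ} (hM : 0 ≤ M) (hη : 0 ≤ η)
    (ha : |a| ≤ M) (hb : |b| ≤ M) (hc : |c| ≤ M) (he : |e| ≤ M)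
    (ha' : |a' - a| ≤ η) (hb' : |b' - b| ≤ η) (hc' : |c' - c| ≤ η) (he' : |e' - e| ≤ η)
    (hxy : 0 < x ^ 2 + y ^ 2)
    (h0 : (a' * x + b' * y) * (a * x + b * y) + (c' * x + e' * y) * (c * x + e * y) +
      (x * (a * (a' * x + b' * y) + b * (c' * x + e' * y)) +
        y * (c * (a' * x + b' * y) + e * (c' * x + e' * y))) = 0) :
    -(a * e - b * c) ≤ (a + e) ^ 2 / 4 + 8 * M * η := by
  set s := |x| + |y| with hs
  have hs2 : s ^ 2 ≤ 2 * (x ^ 2 + y ^ 2) := qa_sq x y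
  have hs0 : 0 ≤ s := by positivity
  have l1 : |(a' - a) * x + (b' - b) * y| ≤ η * s := qa_lin ha' hb'
  have l2 : |(c' - c) * x + (e' - e) * y| ≤ η * s := qa_lin hc' he'
  have h1 : |((a' - a) * x + (b' - b) * y) * (a * x + b * y) +
      ((c' - c) * x + (e' - e) * y) * (c * x + e * y)| ≤
      (η * s) * (M * s) + (η * s) * (M * s) :=
    qa_add (qa_mul l1 (qa_lin ha hb)) (qa_mul l2 (qa_lin hc he))
  have h2 : |x * (a * ((a' - a) * x + (b' - b) * y) + b * ((c' - c) * x + (e' - e) * y)) +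
      y * (c * ((a' - a) * x + (b' - b) * y) + e * ((c' - c) * x + (e' - e) * y))| ≤
      |x| * (M * (η * s) + M * (η * s)) + |y| * (M * (η * s) + M * (η * s)) :=
    qa_add (qa_mul le_rfl (qa_add (qa_mul ha l1) (qa_mul hb l2)))
      (qa_mul le_rfl (qa_add (qa_mul hc l1) (qa_mul he l2)))
  have h3 := qa_add h1 h2
  have h4 := (neg_abs_le _).trans' (neg_le_neg h3)
  have h6 : (η * s) * (M * s) + (η * s) * (M * s) +
      (|x| * (M * (η * s) + M * (η * s)) + |y| * (M * (η * s) + M * (η * s))) =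
      4 * M * η * s ^ 2 := by
    rw [hs]
    ring
  rw [h6] at h4
  have h7 : 0 ≤ 4 * M * η := by positivity
  have h8 := mul_le_mul_of_nonneg_left hs2 h7
  have h9 : 0 ≤ (a * x + b * y + (a + e) / 2 * x) ^ 2 + (c * x + e * y + (a + e) / 2 * y) ^ 2 := by
    positivity
  have h5 : -(a * e - b * c) * (x ^ 2 + y ^ 2) ≤
      ((a + e) ^ 2 / 4 + 8 * M * η) * (x ^ 2 + y ^ 2) := by
    nlinarith
  exact le_of_mul_le_mul_right h5 hxy

private theorem qa_nm_sq (u : ℝ × ℝ) : nm u ^ 2 = u.1 ^ 2 + u.2 ^ 2 :=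
  Real.sq_sqrt (by positivity)

private theorem qa_nm_nonneg (u : ℝ × ℝ) : 0 ≤ nm u := Real.sqrt_nonneg _

private theorem qa_l1 (u : ℝ × ℝ) : |u.1| + |u.2| ≤ 2 * nm u := by
  refine abs_le_of_sq_le_sq' ?_ (by have := qa_nm_nonneg u; positivity) |>.2
  have h1 := qa_sq u.1 u.2
  have h2 := qa_nm_sq u
  nlinarith [sq_nonneg u.1, sq_nonneg u.2]

private theorem qa_seg_mem {K : Set (ℝ × ℝ)} (hK : Convex ℝ K)
    {z w : ℝ × ℝ} (hz : z ∈ K) (hw : w ∈ K) {t : ℝ} (ht : t ∈ Set.Icc (0 : ℝ) 1) :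
      (w.1 + t * (z.1 - w.1), w.2 + t * (z.2 - w.2)) ∈ K :=
  hK.add_smul_sub_mem hw hz ht

/-- variation of a polynomial with bounded first derivatives on a convex set -/
private theorem qa_seg (c : Co D) {K : Set (ℝ × ℝ)} (hK : Convex ℝ K) {M : ℝ}
    (hx : ∀ z ∈ K, |pex c z.1 z.2| ≤ M) (hy : ∀ z ∈ K, |pey c z.1 z.2| ≤ M)
    {z w : ℝ × ℝ} (hz : z ∈ K) (hw : w ∈ K) :
    |pe c z.1 z.2 - pe c w.1 w.2| ≤ M * (|(z - w).1| + |(z - w).2|) := by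
  obtain ⟨z1, z2⟩ := z
  obtain ⟨w1, w2⟩ := w
  have hx' : ∀ t ∈ Set.Icc (0 : ℝ) 1, |pex c (w1 + t * (z1 - w1)) (w2 + t * (z2 - w2))| ≤ M :=
    fun t ht => hx (w1 + t * (z1 - w1), w2 + t * (z2 - w2)) (qa_seg_mem hK hz hw ht)
  have hy' : ∀ t ∈ Set.Icc (0 : ℝ) 1, |pey c (w1 + t * (z1 - w1)) (w2 + t * (z2 - w2))| ≤ M :=
    fun t ht => hy (w1 + t * (z1 - w1), w2 + t * (z2 - w2)) (qa_seg_mem hK hz hw ht)
  have hd : ∀ t : ℝ, HasDerivAt
      (fun t : ℝ => pe c (w1 + t * (z1 - w1)) (w2 + t * (z2 - w2)))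
      (pex c (w1 + t * (z1 - w1)) (w2 + t * (z2 - w2)) * (z1 - w1) +
        pey c (w1 + t * (z1 - w1)) (w2 + t * (z2 - w2)) * (z2 - w2)) t := by
    intro t
    have hu : HasDerivAt (fun t : ℝ => w1 + t * (z1 - w1)) (z1 - w1) t := by
      simpa using ((hasDerivAt_id t).mul_const (z1 - w1)).const_add w1
    have hv : HasDerivAt (fun t : ℝ => w2 + t * (z2 - w2)) (z2 - w2) t := by
      simpa using ((hasDerivAt_id t).mul_const (z2 - w2)).const_add w2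
    exact pe_hasDerivAt c hu hv
  have h := norm_image_sub_le_of_norm_deriv_le_segment_01'
    (C := M * (|z1 - w1| + |z2 - w2|)) (fun t _ => (hd t).hasDerivWithinAt)
    (fun t ht => qa_lin (hx' t ⟨ht.1, ht.2.le⟩) (hy' t ⟨ht.1, ht.2.le⟩))
  have e1 : w1 + 1 * (z1 - w1) = z1 := by ring
  have e2 : w2 + 1 * (z2 - w2) = z2 := by ring
  have e3 : w1 + 0 * (z1 - w1) = w1 := by ring
  have e4 : w2 + 0 * (z2 - w2) = w2 := by ring
  rw [Real.norm_eq_abs] at h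
  rwa [e1, e2, e3, e4] at h

/-- the variation of a first partial derivative on a convex set -/
theorem DBound.vary {μ : Pr D} {K : Set (ℝ × ℝ)} {M₁ M₂ : ℝ} (h : DBound μ K M₁ M₂)
    (hK : Convex ℝ K) (hM : 0 ≤ M₂) {z w : ℝ × ℝ} (hz : z ∈ K) (hw : w ∈ K) :
    |pex μ.1 z.1 z.2 - pex μ.1 w.1 w.2| ≤ 2 * M₂ * nm (z - w) ∧
    |pey μ.1 z.1 z.2 - pey μ.1 w.1 w.2| ≤ 2 * M₂ * nm (z - w) ∧
    |pex μ.2 z.1 z.2 - pex μ.2 w.1 w.2| ≤ 2 * M₂ * nm (z - w) ∧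
    |pey μ.2 z.1 z.2 - pey μ.2 w.1 w.2| ≤ 2 * M₂ * nm (z - w) := by
  have key : M₂ * (|(z - w).1| + |(z - w).2|) ≤ 2 * M₂ * nm (z - w) := by
    nlinarith [mul_le_mul_of_nonneg_left (qa_l1 (z - w)) hM]
  have h1 := qa_seg (dX μ.1) hK h.xx1 h.xy1 hz hw
  have h2 := qa_seg (dY μ.1) hK h.yx1 h.yy1 hz hw
  have h3 := qa_seg (dX μ.2) hK h.xx2 h.xy2 hz hw
  have h4 := qa_seg (dY μ.2) hK h.yx2 h.yy2 hz hw
  rw [pe_dX, pe_dX] at h1 h3
  rw [pe_dY, pe_dY] at h2 h4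
  exact ⟨h1.trans key, h2.trans key, h3.trans key, h4.trans key⟩

theorem DBound.nm_sub {μ : Pr D} {K : Set (ℝ × ℝ)} {M₁ M₂ : ℝ} (h : DBound μ K M₁ M₂)
    (hK : Convex ℝ K) (hM : 0 ≤ M₁) {z w : ℝ × ℝ} (hz : z ∈ K) (hw : w ∈ K) :
    nm (vfc μ z - vfc μ w) ≤ 2 * M₁ * nm (z - w) := by
  have h1 := qa_seg μ.1 hK h.x1 h.y1 hz hw
  have h2 := qa_seg μ.2 hK h.x2 h.y2 hz hw
  refine abs_le_of_sq_le_sq' ?_ (by have := qa_nm_nonneg (z - w); positivity) |>.2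
  rw [qa_nm_sq]
  have h3 := qa_sq (z - w).1 (z - w).2
  have h4 := qa_nm_sq (z - w)
  have h5 : (vfc μ z - vfc μ w).1 ^ 2 ≤ (M₁ * (|(z - w).1| + |(z - w).2|)) ^ 2 :=
    sq_le_sq' (abs_le.1 h1).1 (abs_le.1 h1).2
  have h6 : (vfc μ z - vfc μ w).2 ^ 2 ≤ (M₁ * (|(z - w).1| + |(z - w).2|)) ^ 2 :=
    sq_le_sq' (abs_le.1 h2).1 (abs_le.1 h2).2
  have h7 : M₁ ^ 2 * (|(z - w).1| + |(z - w).2|) ^ 2 ≤ M₁ ^ 2 * (2 * nm (z - w) ^ 2) :=
    mul_le_mul_of_nonneg_left (by rw [h4]; exact h3) (by positivity)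
  nlinarith

theorem DBound.dt2_sub {μ : Pr D} {K : Set (ℝ × ℝ)} {M₁ M₂ : ℝ} (h : DBound μ K M₁ M₂)
    (hK : Convex ℝ K) (hM1 : 0 ≤ M₁) (hM2 : 0 ≤ M₂) {z w : ℝ × ℝ} (hz : z ∈ K) (hw : w ∈ K) :
    |dt2 μ z - dt2 μ w| ≤ 8 * M₁ * M₂ * nm (z - w) := by
  obtain ⟨h1, h2, h3, h4⟩ := h.vary hK hM2 hz hw
  have hid : dt2 μ z - dt2 μ w =
      (pex μ.1 z.1 z.2 * (pey μ.2 z.1 z.2 - pey μ.2 w.1 w.2) +
        pey μ.2 w.1 w.2 * (pex μ.1 z.1 z.2 - pex μ.1 w.1 w.2)) -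
      (pey μ.1 z.1 z.2 * (pex μ.2 z.1 z.2 - pex μ.2 w.1 w.2) +
        pex μ.2 w.1 w.2 * (pey μ.1 z.1 z.2 - pey μ.1 w.1 w.2)) := by
    unfold dt2
    ring
  rw [hid]
  refine (qa_sub (qa_add (qa_mul (h.x1 z hz) h4) (qa_mul (h.y2 w hw) h1))
    (qa_add (qa_mul (h.y1 z hz) h3) (qa_mul (h.x2 w hw) h2))).trans (le_of_eq ?_)
  ring

end Pool.Agent.Lib.MP_95e7ec_an
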