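import Mathlib
import Pool.Agent.Lib.MP_95e7ec_an.ShiftArr
import Pool.Agent.Lib.MP_95e7ec_an.QuadAlg
import Pool.Agent.Lib.MP_95e7ec_an.Scale
import Pool.Agent.Lib.MP_95e7ec_an.Hull

/-!
# Short closed orbits (task D2)

Two quadratic Lyapunov functions along a short closed orbit show that at each of its points the
determinant of the Jacobian matrix is small, or it is positive and the trace is small.
-/

set_option autoImplicit false

open Set Filter Topology MeasureTheory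
open scoped ContDiff ENNReal

namespace Pool.Agent.Lib.MP_95e7ec_an

variable {D : ℕ}

private theorem smallOrbit_nm_le {ν : Pr D} {C : Set (ℝ × ℝ)} {L : ℝ} (hL : 0 ≤ L)
    (hCL : orbitLength (vfc ν) C ≤ ENNReal.ofReal L) {z w : ℝ × ℝ} (hz : z ∈ C) (hw : w ∈ C) :
    nm (z - w) ≤ L / 2 := by
  have h1 := two_nm_le_orbitLength (vfc_contDiff ν (n := 1)).continuous hz hw
  have h2 := (ENNReal.ofReal_le_ofReal_iff hL).1 (h1.trans hCL)
  linarith

private theorem smallOrbit_deriv_one {p q : ℝ → ℝ} {p' q' t : ℝ} (hp : HasDerivAt p p' t)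
    (hq : HasDerivAt q q' t) (a b c e : ℝ) :
    HasDerivAt (fun t => (a * e - b * c) * (p t ^ 2 + q t ^ 2) +
      ((e * p t - b * q t) ^ 2 + (-c * p t + a * q t) ^ 2))
      (2 * ((a * e - b * c) * (p t * p' + q t * q') +
        ((e * p t - b * q t) * (e * p' - b * q') +
          (-c * p t + a * q t) * (-c * p' + a * q')))) t := by
  have h1 := (((hp.pow 2).add (hq.pow 2)).const_mul (a * e - b * c)).add
    ((((hp.const_mul e).sub (hq.const_mul b)).pow 2).add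
      (((hp.const_mul (-c)).add (hq.const_mul a)).pow 2))
  refine HasDerivAt.congr_deriv h1 ?_
  simp only [Pi.add_apply, Pi.sub_apply]
  push_cast
  ring

private theorem smallOrbit_deriv_two {p q : ℝ → ℝ} {p' q' t : ℝ} (hp : HasDerivAt p p' t)
    (hq : HasDerivAt q q' t) (a b c e : ℝ) :
    HasDerivAt (fun t => p t * (a * p t + b * q t) + q t * (c * p t + e * q t))
      (p' * (a * p t + b * q t) + q' * (c * p t + e * q t) +
        (p t * (a * p' + b * q') + q t * (c * p' + e * q'))) t := by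
  have h1 := (hp.mul ((hp.const_mul a).add (hq.const_mul b))).add
    (hq.mul ((hp.const_mul c).add (hq.const_mul e)))
  refine HasDerivAt.congr_deriv h1 ?_
  simp only [Pi.add_apply]
  ring

private theorem smallOrbit_arith {d t M l : ℝ} (hM : 0 < M) (hl : 0 < l) (hl1 : l ≤ 1)
    (h1 : |d| * |t| ≤ 96 * (M ^ 3 * l ^ 3)) (h2 : -d ≤ t ^ 2 / 4 + 32 * (M ^ 2 * l ^ 3)) :
    |d| < 40 * M ^ 2 * l ∨ (40 * M ^ 2 * l ≤ d ∧ t ^ 2 ≤ 2 * d) := by
  by_cases hcase : |d| < 40 * M ^ 2 * l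
  · exact Or.inl hcase
  · right
    push Not at hcase
    have hl3 : l ^ 3 ≤ l := by
      have h3 : l ^ 2 ≤ 1 := pow_le_one₀ hl.le hl1
      nlinarith
    have hl4 : l ^ 4 ≤ l := by
      have h3 : l ^ 3 ≤ 1 := pow_le_one₀ hl.le hl1
      nlinarith
    have hMl : 0 < M ^ 2 * l := by positivity
    have ht1 : |t| ≤ 12 / 5 * (M * l ^ 2) := by
      by_contra hcon
      push Not at hcon
      have h3 : 40 * M ^ 2 * l * (12 / 5 * (M * l ^ 2)) < |d| * |t| :=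
        lt_of_lt_of_le (mul_lt_mul_of_pos_left hcon (by positivity))
          (mul_le_mul_of_nonneg_right hcase (abs_nonneg t))
      have h4 : 40 * M ^ 2 * l * (12 / 5 * (M * l ^ 2)) = 96 * (M ^ 3 * l ^ 3) := by ring
      linarith
    have ht2 : t ^ 2 ≤ 144 / 25 * (M ^ 2 * l) := by
      have h3 : t ^ 2 ≤ (12 / 5 * (M * l ^ 2)) ^ 2 := by
        rw [← sq_abs t]
        exact pow_le_pow_left₀ (abs_nonneg t) ht1 2
      have h4 : M ^ 2 * l ^ 4 ≤ M ^ 2 * l := mul_le_mul_of_nonneg_left hl4 (by positivity)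
      have h5 : (12 / 5 * (M * l ^ 2)) ^ 2 = 144 / 25 * (M ^ 2 * l ^ 4) := by ring
      linarith
    have h5 : M ^ 2 * l ^ 3 ≤ M ^ 2 * l := mul_le_mul_of_nonneg_left hl3 (by positivity)
    have hdpos : 0 ≤ d := by
      by_contra hcon
      push Not at hcon
      rw [abs_of_neg hcon] at hcase
      linarith
    rw [abs_of_nonneg hdpos] at hcase
    exact ⟨hcase, by linarith⟩

/-- Short closed orbits: at each point the determinant is small, or it is positive and the trace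
is small. -/
theorem small_orbit_alt {μ : Pr D} {K : Set (ℝ × ℝ)} {M₁ M₂ : ℝ} (h : DBound μ K M₁ M₂)
    (hK : Convex ℝ K) (hM1 : 0 < M₁) (hM2 : 0 < M₂) (α : ℝ) {C : Set (ℝ × ℝ)}
    (hC : IsClosedOrbit (vfc (rotA μ α)) C) (hCK : C ⊆ K) {L lam : ℝ} (hL : 0 ≤ L)
    (hCL : orbitLength (vfc (rotA μ α)) C ≤ ENNReal.ofReal L) (hlam : 0 < lam) (hlam1 : lam ≤ 1)
    (hsmall : M₂ * L ≤ lam ^ 3 * M₁) {z : ℝ × ℝ} (hz : z ∈ C) :
    |dt2 μ z| < 40 * M₁ ^ 2 * lam ∨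
      (40 * M₁ ^ 2 * lam ≤ dt2 μ z ∧ tr2 (rotA μ α) z ^ 2 ≤ 2 * dt2 μ z) := by
  set ν : Pr D := rotA μ α with hν
  have hB : DBound ν K (2 * M₁) (2 * M₂) := h.rotA α
  have hne : ∀ w ∈ C, vfc ν w ≠ 0 := fun w hw => hC.ne_zero hw
  have hdist : ∀ w ∈ C, nm (w - z) ≤ L / 2 := fun w hw => smallOrbit_nm_le hL hCL hw hz
  obtain ⟨γ, T, hT, hγ, hper, -, hCr⟩ := hC
  have hmem : ∀ t, γ t ∈ C := fun t => by rw [hCr]; exact ⟨t, rfl⟩
  have hzK := hCK hz
  -- the entries at `z`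
  set a := pex ν.1 z.1 z.2 with ha
  set b := pey ν.1 z.1 z.2 with hb
  set c := pex ν.2 z.1 z.2 with hc
  set e := pey ν.2 z.1 z.2 with he
  have hd : dt2 μ z = a * e - b * c := by
    rw [← dt2_rotA μ α z]
    rfl
  have htr : tr2 ν z = a + e := rfl
  -- the components of the field along the orbit
  have hγ1 : ∀ t, HasDerivAt (fun t => (γ t).1) (pe ν.1 (γ t).1 (γ t).2) t := fun t =>
    (hasFDerivAt_fst (𝕜 := ℝ) (p := γ t)).comp_hasDerivAt t (hγ t)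
  have hγ2 : ∀ t, HasDerivAt (fun t => (γ t).2) (pe ν.2 (γ t).1 (γ t).2) t := fun t =>
    (hasFDerivAt_snd (𝕜 := ℝ) (p := γ t)).comp_hasDerivAt t (hγ t)
  have hp : ∀ t, HasDerivAt (fun t => pe ν.1 (γ t).1 (γ t).2)
      (pex ν.1 (γ t).1 (γ t).2 * pe ν.1 (γ t).1 (γ t).2 +
        pey ν.1 (γ t).1 (γ t).2 * pe ν.2 (γ t).1 (γ t).2) t := fun t =>
    pe_hasDerivAt ν.1 (hγ1 t) (hγ2 t)
  have hq : ∀ t, HasDerivAt (fun t => pe ν.2 (γ t).1 (γ t).2)
      (pex ν.2 (γ t).1 (γ t).2 * pe ν.1 (γ t).1 (γ t).2 +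
        pey ν.2 (γ t).1 (γ t).2 * pe ν.2 (γ t).1 (γ t).2) t := fun t =>
    pe_hasDerivAt ν.2 (hγ1 t) (hγ2 t)
  have hpos : ∀ t, 0 < pe ν.1 (γ t).1 (γ t).2 ^ 2 + pe ν.2 (γ t).1 (γ t).2 ^ 2 := by
    intro t
    have h1 := nm_pos (hne _ (hmem t))
    have h2 := nm_sq (vfc ν (γ t))
    have h3 : 0 < nm (vfc ν (γ t)) ^ 2 := by positivity
    rw [h2] at h3
    exact h3
  have hγT : γ T = γ 0 := by
    have := hper 0
    rwa [zero_add] at this
  have hη : 0 ≤ 2 * M₂ * L := by positivity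
  have hvar : ∀ t, |pex ν.1 (γ t).1 (γ t).2 - a| ≤ 2 * M₂ * L ∧
      |pey ν.1 (γ t).1 (γ t).2 - b| ≤ 2 * M₂ * L ∧
      |pex ν.2 (γ t).1 (γ t).2 - c| ≤ 2 * M₂ * L ∧
      |pey ν.2 (γ t).1 (γ t).2 - e| ≤ 2 * M₂ * L := by
    intro t
    obtain ⟨v1, v2, v3, v4⟩ := hB.vary hK (by positivity) (hCK (hmem t)) hzK
    have h1 : 2 * (2 * M₂) * nm (γ t - z) ≤ 2 * M₂ * L := by
      have := hdist _ (hmem t)
      nlinarith
    exact ⟨v1.trans h1, v2.trans h1, v3.trans h1, v4.trans h1⟩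
  have hM : (0 : ℝ) ≤ 2 * M₁ := by positivity
  -- first Lyapunov function
  have hone : |(a * e - b * c) * (a + e)| ≤ 12 * (2 * M₁) ^ 2 * (2 * M₂ * L) := by
    have hW := fun t => smallOrbit_deriv_one (hp t) (hq t) a b c e
    obtain ⟨t, -, ht⟩ := exists_hasDerivAt_eq_zero hT
      (fun t _ => (hW t).continuousAt.continuousWithinAt) (by simp only [hγT]) (fun t _ => hW t)
    obtain ⟨v1, v2, v3, v4⟩ := hvar t
    exact lyap_one hM hη (hB.x1 z hzK) (hB.y1 z hzK) (hB.x2 z hzK) (hB.y2 z hzK) v1 v2 v3 v4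
      (hpos t) ht
  -- second Lyapunov function
  have htwo : -(a * e - b * c) ≤ (a + e) ^ 2 / 4 + 8 * (2 * M₁) * (2 * M₂ * L) := by
    have hU := fun t => smallOrbit_deriv_two (hp t) (hq t) a b c e
    obtain ⟨t, -, ht⟩ := exists_hasDerivAt_eq_zero hT
      (fun t _ => (hU t).continuousAt.continuousWithinAt) (by simp only [hγT]) (fun t _ => hU t)
    obtain ⟨v1, v2, v3, v4⟩ := hvar t
    exact lyap_two hM hη (hB.x1 z hzK) (hB.y1 z hzK) (hB.x2 z hzK) (hB.y2 z hzK) v1 v2 v3 v4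
      (hpos t) ht
  -- conclusion
  rw [hd, htr]
  have hlam3 : M₁ ^ 2 * (M₂ * L) ≤ M₁ ^ 2 * (lam ^ 3 * M₁) :=
    mul_le_mul_of_nonneg_left hsmall (by positivity)
  have hlam3' : M₁ * (M₂ * L) ≤ M₁ * (lam ^ 3 * M₁) :=
    mul_le_mul_of_nonneg_left hsmall hM1.le
  apply smallOrbit_arith hM1 hlam hlam1
  · rw [← abs_mul]
    refine hone.trans ?_
    have e1 : 12 * (2 * M₁) ^ 2 * (2 * M₂ * L) = 96 * (M₁ ^ 2 * (M₂ * L)) := by ring
    have e2 : 96 * (M₁ ^ 3 * lam ^ 3) = 96 * (M₁ ^ 2 * (lam ^ 3 * M₁)) := by ring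
    rw [e1, e2]
    linarith
  · refine htwo.trans ?_
    have e1 : 8 * (2 * M₁) * (2 * M₂ * L) = 32 * (M₁ * (M₂ * L)) := by ring
    have e2 : 32 * (M₁ ^ 2 * lam ^ 3) = 32 * (M₁ * (lam ^ 3 * M₁)) := by ring
    rw [e1, e2]
    linarith

/-- A short closed orbit is near a zero of the field, the field is small on it and the
determinant varies little. -/
theorem small_orbit_geom {μ : Pr D} {K : Set (ℝ × ℝ)} {M₁ M₂ : ℝ} (h : DBound μ K M₁ M₂)
    (hK : Convex ℝ K) (hM1 : 0 < M₁) (hM2 : 0 < M₂) (α : ℝ) {C : Set (ℝ × ℝ)}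
    (hC : IsClosedOrbit (vfc (rotA μ α)) C) (hCK : C ⊆ K) {L : ℝ} (hL : 0 ≤ L)
    (hCL : orbitLength (vfc (rotA μ α)) C ≤ ENNReal.ofReal L) :
    (∃ p ∈ K, vfc μ p = 0 ∧ ∀ z ∈ C, nm (p - z) ≤ L) ∧ (∀ z ∈ C, nm (vfc μ z) ≤ 2 * M₁ * L) ∧
      ∀ z ∈ C, ∀ w ∈ C, |dt2 μ z - dt2 μ w| ≤ 8 * M₁ * M₂ * L := by
  obtain ⟨p, hp, hp0⟩ := exists_zero_in_hull (vfc_contDiff (rotA μ α)) hC
  have hpK : p ∈ K := convexHull_min hCK hK hp
  have hpμ : vfc μ p = 0 := by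
    rw [vfc_rotA, turn_eq_zero] at hp0
    exact hp0
  have hdist : ∀ z ∈ C, nm (z - p) ≤ L / 2 := fun z hz =>
    nm_le_of_mem_hull (fun q hq => smallOrbit_nm_le hL hCL hz hq) (by positivity) hp
  refine ⟨⟨p, hpK, hpμ, ?_⟩, ?_, ?_⟩
  · intro z hz
    rw [← nm_neg, neg_sub]
    linarith [hdist z hz]
  · intro z hz
    have h1 := h.nm_sub hK hM1.le (hCK hz) hpK
    rw [hpμ, sub_zero] at h1
    have h2 := hdist z hz
    have h3 : 2 * M₁ * nm (z - p) ≤ 2 * M₁ * (L / 2) :=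
      mul_le_mul_of_nonneg_left h2 (by positivity)
    have h4 : 0 ≤ M₁ * L := by positivity
    linarith
  · intro z hz w hw
    have h1 := h.dt2_sub hK hM1.le hM2.le (hCK hz) (hCK hw)
    have h2 := smallOrbit_nm_le hL hCL hz hw
    have h3 : 8 * M₁ * M₂ * nm (z - w) ≤ 8 * M₁ * M₂ * (L / 2) :=
      mul_le_mul_of_nonneg_left h2 (by positivity)
    have h4 : 0 ≤ M₁ * M₂ * L := by positivity
    linarith

end Pool.Agent.Lib.MP_95e7ec_an
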