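import Mathlib
import Pool.Agent.Lib.MP_95e7ec_an.ShiftArr
import Pool.Agent.Lib.MP_95e7ec_an.GenAssemble
import Pool.Agent.Lib.MP_95e7ec_an.Scale
import Pool.Agent.Lib.MP_95e7ec_an.Hull
import Pool.Agent.Lib.MP_95e7ec_an.SmallOrbit
import Pool.Agent.Lib.MP_95e7ec_an.GoodIneq

/-!
# Task D9: the inequality for the short elliptic closed orbits of a family
-/

set_option autoImplicit false

open Set Filter Topology MeasureTheory
open scoped ContDiff ENNReal

namespace Pool.Agent.Lib.MP_95e7ec_an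

variable {D : ℕ}

theorem fam_good {μ : Pr D} {K : Set (ℝ × ℝ)} {M₁ M₂ : ℝ} (h : DBound μ K M₁ M₂)
    (hK : Convex ℝ K) (hM1 : 0 < M₁) (hM2 : 0 < M₂) {lam ell : ℝ} (hlam : 0 < lam)
    (hlam1 : lam ≤ 1) (hell : M₂ * ell = lam ^ 3 * M₁) {Ω : Set (ℝ × ℝ)} (hΩK : Ω ⊆ K)
    (hΩ : ∀ z ∈ Ω, 40 * M₁ ^ 2 * lam < dt2 μ z) (F : Fam μ Ω) {s : ℝ} (hs : s ∈ F.J)
    (hlen : F.len s ≤ ell) :
    ENNReal.ofReal |F.a' s| ≤
      ∫⁻ t in Set.Ioo (0 : ℝ) 1, ENNReal.ofReal (F.jac s t) *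
        (ENNReal.ofReal (4 * M₂ / lam ^ 2) * (ENNReal.ofReal (nm (vfc μ (pth (F.Z s) t))))⁻¹) := by
  have hne : ∀ t, vfc (rotA μ (F.a s)) (at' (F.Z s) t) ≠ 0 := by
    intro t h0
    have := F.jac_pos s hs t
    rw [h0] at this
    simp [det2] at this
  have hneμ : ∀ t, vfc μ (at' (F.Z s) t) ≠ 0 := by
    intro t h0
    apply hne t
    rw [vfc_rotA]
    exact turn_eq_zero.2 h0
  have hpth : ∀ (t : ℝ) (ht : t ∈ Set.Icc (0 : ℝ) 1) (z : A × A),
      pth z t = at' z ⟨t, ht.1, ht.2⟩ := by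
    intro t ht z
    exact pth_coe z ⟨t, ht.1, ht.2⟩
  have hnmpos : ∀ t ∈ Set.Icc (0 : ℝ) 1, 0 < nm (vfc μ (pth (F.Z s) t)) := by
    intro t ht
    rw [hpth t ht]
    exact nm_pos (hneμ _)
  have hnmc : Continuous fun t => nm (vfc μ (pth (F.Z s) t)) :=
    continuous_nm.comp ((continuous_vfc_AS μ).comp (continuous_pth (F.Z s)))
  have hτ := F.tau_pos s hs
  -- the length
  have hlen_eq : F.len s = F.τ s * ∫ t in (0 : ℝ)..1, nm (vfc μ (pth (F.Z s) t)) := by
    rw [Fam.len, intervalIntegral.integral_const_mul]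
  have hLpos : 0 < F.len s := by
    rw [hlen_eq]
    refine mul_pos hτ ?_
    exact intervalIntegral.intervalIntegral_pos_of_pos_on (hnmc.intervalIntegrable _ _)
      (fun t ht => hnmpos t (Ioo_subset_Icc_self ht)) zero_lt_one
  have hC := F.isClosedOrbit hs
  have hCΩ : F.orb s ⊆ Ω := by
    rintro z ⟨t, rfl⟩
    exact F.sub s hs t
  have hCL := (F.orbitLength_eq hs).le
  have hsmall : M₂ * F.len s ≤ lam ^ 3 * M₁ := by
    rw [← hell]
    exact mul_le_mul_of_nonneg_left hlen hM2.le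
  have hgeom := (small_orbit_geom h hK hM1 hM2 (F.a s) hC (hCΩ.trans hΩK) hLpos.le hCL).2.1
  have htau : 1 ≤ 2 * M₁ * F.τ s := by
    have h1 : (∫ t in (0 : ℝ)..1, nm (vfc μ (pth (F.Z s) t))) ≤ 2 * M₁ * F.len s := by
      have h2 := intervalIntegral.integral_mono_on zero_le_one (hnmc.intervalIntegrable _ _)
        (intervalIntegrable_const (c := 2 * M₁ * F.len s)) (μ := volume) (fun t ht => by
          rw [hpth t ht]
          exact hgeom _ ⟨_, rfl⟩)
      simpa using h2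
    have h2 : F.len s ≤ F.τ s * (2 * M₁ * F.len s) := by
      conv_lhs => rw [hlen_eq]
      exact mul_le_mul_of_nonneg_left h1 hτ.le
    have h3 : 0 < F.len s := hLpos
    by_contra hcon
    push Not at hcon
    nlinarith
  have hδ : 0 < 40 * M₁ ^ 2 * lam := by positivity
  have hM1' : 0 < 2 * M₁ := by positivity
  have hM2' : 0 ≤ 2 * M₂ := by positivity
  have key := good_le_of (rotA μ (F.a s)) (F.τ s) (F.τ' s) (F.a' s) hτ
    (at' (F.Z s) 0) (at' (F.Y s) 0) (F.Z s) (F.Y s) (F.sol s hs) (F.closed s hs) rfl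
    (F.closedY s hs) hne (F.lin1 s hs) (F.lin2 s hs) (h.rotA (F.a s)) hM1' hM2'
    (fun t => hΩK (F.sub s hs t)) hδ
    (fun t => by rw [dt2_rotA]; exact (hΩ _ (F.sub s hs t)).le)
    (fun t => by
      rw [dt2_rotA]
      have hz : at' (F.Z s) t ∈ F.orb s := ⟨t, rfl⟩
      rcases small_orbit_alt h hK hM1 hM2 (F.a s) hC (hCΩ.trans hΩK) hLpos.le hCL hlam hlam1
        hsmall hz with h1 | h1
      · have h2 := hΩ _ (F.sub s hs t)
        have h3 := le_abs_self (dt2 μ (at' (F.Z s) t))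
        linarith
      · exact h1.2)
  -- the integrand
  set g : ℝ → ℝ := fun t => F.jac s t / nm (vfc μ (pth (F.Z s) t)) with hg
  have hjac0 : ∀ t ∈ Set.Icc (0 : ℝ) 1, 0 ≤ F.jac s t := by
    intro t ht
    have hpos := F.jac_pos s hs ⟨t, ht.1, ht.2⟩
    rw [Fam.jac, hpth t ht, hpth t ht]
    exact mul_nonneg hτ.le hpos.le
  have hI : (∫ t in (0 : ℝ)..1, F.τ s * |det2 (vfc (rotA μ (F.a s)) (pth (F.Z s) t))
      (pth (F.Y s) t)| / nm (vfc (rotA μ (F.a s)) (pth (F.Z s) t))) =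
      ∫ t in Set.Ioo (0 : ℝ) 1, g t := by
    rw [intervalIntegral.integral_of_le zero_le_one, integral_Ioc_eq_integral_Ioo]
    apply setIntegral_congr_fun measurableSet_Ioo
    intro t ht
    have ht' := Ioo_subset_Icc_self ht
    have hpos := F.jac_pos s hs ⟨t, ht'.1, ht'.2⟩
    simp only [hg]
    rw [Fam.jac]
    rw [hpth t ht', hpth t ht', abs_of_pos hpos, vfc_rotA, nm_turn, ← vfc_rotA]
  rw [hI] at key
  have hcont : ContinuousOn g (Set.Icc 0 1) := by
    apply ContinuousOn.div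
    · unfold Fam.jac det2
      have h1 := continuous_pth (F.Z s)
      have h2 := continuous_pth (F.Y s)
      have h3 := (continuous_vfc_AS (rotA μ (F.a s))).comp h1
      apply Continuous.continuousOn
      have h31 := continuous_fst.comp h3
      have h32 := continuous_snd.comp h3
      have h21 := continuous_fst.comp h2
      have h22 := continuous_snd.comp h2
      exact continuous_const.mul ((h31.mul h22).sub (h32.mul h21))
    · exact hnmc.continuousOn
    · intro t ht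
      exact (hnmpos t ht).ne'
  have hg0 : ∀ t ∈ Set.Icc (0 : ℝ) 1, 0 ≤ g t := fun t ht =>
    div_nonneg (hjac0 t ht) (hnmpos t ht).le
  have hint0 : 0 ≤ ∫ t in Set.Ioo (0 : ℝ) 1, g t :=
    setIntegral_nonneg measurableSet_Ioo fun t ht => hg0 t (Ioo_subset_Icc_self ht)
  have hmain : |F.a' s| ≤ 4 * M₂ / lam ^ 2 * ∫ t in Set.Ioo (0 : ℝ) 1, g t := by
    have hc : 192 * (2 * M₁) ^ 3 * (2 * M₂) / (40 * M₁ ^ 2 * lam) ^ 2 =
        (48 / 25) * (M₂ / lam ^ 2) / M₁ := by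
      field_simp
      ring
    rw [hc] at key
    have h1 : |F.a' s| ≤ |F.a' s| * F.τ s * (2 * M₁) := by
      have := mul_le_mul_of_nonneg_left htau (abs_nonneg (F.a' s))
      linarith
    have h2 := mul_le_mul_of_nonneg_right key hM1'.le
    have h3 : (48 / 25) * (M₂ / lam ^ 2) / M₁ * (∫ t in Set.Ioo (0 : ℝ) 1, g t) * (2 * M₁) =
        (96 / 25) * (M₂ / lam ^ 2 * ∫ t in Set.Ioo (0 : ℝ) 1, g t) := by
      field_simp
      ring
    rw [h3] at h2
    have h4 : 0 ≤ M₂ / lam ^ 2 * ∫ t in Set.Ioo (0 : ℝ) 1, g t := by positivity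
    have h5 : 4 * M₂ / lam ^ 2 * (∫ t in Set.Ioo (0 : ℝ) 1, g t) =
        4 * (M₂ / lam ^ 2 * ∫ t in Set.Ioo (0 : ℝ) 1, g t) := by ring
    rw [h5]
    linarith
  refine (ENNReal.ofReal_le_ofReal hmain).trans ?_
  have hc0 : 0 ≤ 4 * M₂ / lam ^ 2 := by positivity
  rw [ENNReal.ofReal_mul hc0, ofReal_integral_eq_lintegral_ofReal,
    ← lintegral_const_mul' _ _ ENNReal.ofReal_ne_top]
  · apply le_of_eq
    apply setLIntegral_congr_fun measurableSet_Ioo
    intro t ht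
    have ht' := Ioo_subset_Icc_self ht
    simp only [hg]
    rw [ENNReal.ofReal_div_of_pos (hnmpos t ht'), ENNReal.div_eq_inv_mul]
    ring
  · exact (hcont.integrableOn_Icc).mono_set Ioo_subset_Icc_self
  · rw [Filter.EventuallyLE, ae_restrict_iff' measurableSet_Ioo]
    exact Eventually.of_forall fun t ht => hg0 t (Ioo_subset_Icc_self ht)

end Pool.Agent.Lib.MP_95e7ec_an
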