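import Mathlib
import Pool.Agent.Lib.MP_95e7ec_an.AvgDefs
import Pool.Agent.Lib.MP_95e7ec_an.AvgBasic

/-!
# The integral of `1/|z|` over a disc and over a set of given area (task D4)
-/

set_option autoImplicit false

open Set Filter Topology MeasureTheory
open scoped ENNReal

namespace Pool.Agent.Lib.MP_95e7ec_an

private theorem rz_measurable : Measurable fun z : ℝ × ℝ => (ENNReal.ofReal (nm z))⁻¹ :=
  (ENNReal.measurable_ofReal.comp continuous_nm.measurable).inv

private theorem rz_meas_ball (r : ℝ) : MeasurableSet {z : ℝ × ℝ | nm z < r} :=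
  measurableSet_lt continuous_nm.measurable measurable_const

private theorem rz_nm_polar {p : ℝ × ℝ} (hp : 0 < p.1) : nm (polarCoord.symm p) = p.1 := by
  unfold nm
  rw [polarCoord_symm_apply]
  have : (p.1 * Real.cos p.2) ^ 2 + (p.1 * Real.sin p.2) ^ 2 = p.1 ^ 2 := by
    have := Real.sin_sq_add_cos_sq p.2
    linear_combination p.1 ^ 2 * this
  simp only [this]
  exact Real.sqrt_sq hp.le

theorem lintegral_inv_nm_ball {r : ℝ} (hr : 0 ≤ r) :
    ∫⁻ z in {z : ℝ × ℝ | nm z < r}, (ENNReal.ofReal (nm z))⁻¹ ≤ ENNReal.ofReal (2 * Real.pi * r) := by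
  rw [← lintegral_indicator (rz_meas_ball r), ← lintegral_comp_polarCoord_symm]
  have h1 : ∫⁻ p in polarCoord.target, ENNReal.ofReal p.1 •
      ({z : ℝ × ℝ | nm z < r}.indicator (fun z => (ENNReal.ofReal (nm z))⁻¹) (polarCoord.symm p)) ≤
      ∫⁻ p in polarCoord.target, (Set.Ioo 0 r ×ˢ Set.Ioo (-Real.pi) Real.pi).indicator 1 p := by
    refine setLIntegral_mono' polarCoord.open_target.measurableSet fun p hp => ?_
    rw [polarCoord_target] at hp
    obtain ⟨hp1, hp2⟩ := hp
    have hp0 : 0 < p.1 := hp1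
    by_cases h : p.1 < r
    · rw [Set.indicator_of_mem (by rw [Set.mem_ofPred_eq, rz_nm_polar hp0]; exact h),
        Set.indicator_of_mem (by exact ⟨⟨hp0, h⟩, hp2⟩), rz_nm_polar hp0, smul_eq_mul, Pi.one_apply]
      exact ENNReal.mul_inv_le_one _
    · rw [Set.indicator_of_notMem (by rw [Set.mem_ofPred_eq, rz_nm_polar hp0]; exact h), smul_zero]
      exact zero_le
  refine h1.trans ((setLIntegral_le_lintegral _ _).trans ?_)
  rw [lintegral_indicator_one (measurableSet_Ioo.prod measurableSet_Ioo),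
    Measure.volume_eq_prod, Measure.prod_prod, Real.volume_Ioo, Real.volume_Ioo,
    ← ENNReal.ofReal_mul (by linarith)]
  exact ENNReal.ofReal_le_ofReal (le_of_eq (by ring))

theorem lintegral_inv_nm_le {E : Set (ℝ × ℝ)} (hE : MeasurableSet E) {a m : ℝ} (ha : 0 < a)
    (hm : 0 ≤ m) (hEm : volume E ≤ ENNReal.ofReal m) :
    ∫⁻ z in E, (ENNReal.ofReal (nm z))⁻¹ ≤ ENNReal.ofReal (2 * Real.pi * a + m / a) := by
  rw [← lintegral_inter_add_sdiff _ E (rz_meas_ball a), ENNReal.ofReal_add (by positivity)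
    (by positivity)]
  refine add_le_add ?_ ?_
  · exact (lintegral_mono_set Set.inter_subset_right).trans (lintegral_inv_nm_ball ha.le)
  · have h1 : ∫⁻ z in E \ {z : ℝ × ℝ | nm z < a}, (ENNReal.ofReal (nm z))⁻¹ ≤
        ∫⁻ _ in E \ {z : ℝ × ℝ | nm z < a}, (ENNReal.ofReal a)⁻¹ := by
      refine setLIntegral_mono' (hE.diff (rz_meas_ball a)) fun z hz => ?_
      have h2 : a ≤ nm z := not_lt.1 hz.2
      exact ENNReal.inv_le_inv.2 (ENNReal.ofReal_le_ofReal h2)
    refine h1.trans ?_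
    rw [setLIntegral_const, ENNReal.ofReal_div_of_pos ha, mul_comm, div_eq_mul_inv]
    exact mul_le_mul_left ((measure_mono Set.sdiff_subset).trans hEm) _

end Pool.Agent.Lib.MP_95e7ec_an
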