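import Mathlib
import Pool.Agent.Lib.MP_95e7ec_an.ShiftArr
import Pool.Agent.Lib.MP_95e7ec_an.QuadAlg
import Pool.Agent.Lib.MP_95e7ec_an.Riesz

/-!
# Averaging over the translations of the field
-/

set_option autoImplicit false

open Set Filter Topology MeasureTheory
open scoped ContDiff ENNReal

namespace Pool.Agent.Lib.MP_95e7ec_an

variable {D : ℕ}

private theorem sa_continuous_vfc (μ : Pr D) : Continuous (vfc μ) :=
  (avb_continuous_pe μ.1).prodMk (avb_continuous_pe μ.2)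

private theorem sa_measurable_inv : Measurable fun u : ℝ × ℝ => (ENNReal.ofReal (nm u))⁻¹ :=
  (ENNReal.measurable_ofReal.comp continuous_nm.measurable).inv

theorem avg_good (μ : Pr D) {K : Set (ℝ × ℝ)} (hK : MeasurableSet K) {r : ℝ} (hr : 0 ≤ r) :
    ∃ H : ℝ × ℝ → ℝ≥0∞, Measurable H ∧
      (∀ c, ∫⁻ z in {z ∈ K | nm (vfc μ z + c) < r}, (ENNReal.ofReal (nm (vfc μ z + c)))⁻¹ ≤ H c) ∧
      ∫⁻ c, H c ≤ volume K * ENNReal.ofReal (2 * Real.pi * r) := by
  set g : ℝ × ℝ → ℝ≥0∞ := ({u : ℝ × ℝ | nm u < r}).indicator (fun u => (ENNReal.ofReal (nm u))⁻¹)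
    with hg
  have hSm : MeasurableSet {u : ℝ × ℝ | nm u < r} :=
    (isOpen_lt continuous_nm continuous_const).measurableSet
  have hgm : Measurable g := sa_measurable_inv.indicator hSm
  have hF : Measurable fun q : (ℝ × ℝ) × (ℝ × ℝ) => g (vfc μ q.1 + q.2) :=
    hgm.comp (((sa_continuous_vfc μ).comp continuous_fst).add continuous_snd).measurable
  refine ⟨fun c => ∫⁻ z in K, g (vfc μ z + c), ?_, ?_, ?_⟩
  · exact Measurable.lintegral_prod_left' (μ := volume.restrict K) hF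
  · intro c
    have h1 : {z | z ∈ K ∧ nm (vfc μ z + c) < r} = {z | nm (vfc μ z + c) < r} ∩ K := by
      ext z
      simp [and_comm]
    have h2 : MeasurableSet {z | nm (vfc μ z + c) < r} :=
      (isOpen_lt (continuous_nm.comp ((sa_continuous_vfc μ).add continuous_const))
        continuous_const).measurableSet
    rw [h1, ← Measure.restrict_restrict h2, ← lintegral_indicator h2]
    refine lintegral_mono fun z => ?_
    simp only [hg, Set.indicator, Set.mem_ofPred_eq]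
    exact le_refl _
  · rw [lintegral_lintegral_swap (f := fun c z => g (vfc μ z + c))]
    · have h3 : ∀ z : ℝ × ℝ, ∫⁻ c : ℝ × ℝ, g (vfc μ z + c) = ∫⁻ u, g u := by
        intro z
        exact lintegral_add_left_eq_self g (vfc μ z)
      simp only [h3]
      rw [lintegral_const, Measure.restrict_apply MeasurableSet.univ, Set.univ_inter, mul_comm]
      gcongr
      rw [hg, lintegral_indicator hSm]
      exact lintegral_inv_nm_ball hr
    · exact (hF.comp measurable_swap).aemeasurable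

private theorem sa_hasFDerivAt (μ : Pr D) (z : ℝ × ℝ) :
    HasFDerivAt (vfc μ) (fderiv ℝ (vfc μ) z) z := by
  have h : Differentiable ℝ (vfc μ) := by
    unfold vfc pe
    fun_prop
  exact (h z).hasFDerivAt

private theorem sa_fderiv_x (μ : Pr D) (z : ℝ × ℝ) :
    fderiv ℝ (vfc μ) z (1, 0) = (pex μ.1 z.1 z.2, pex μ.2 z.1 z.2) := by
  have h1 : HasDerivAt (fun t : ℝ => (z.1 + t, z.2)) ((1 : ℝ), (0 : ℝ)) 0 := by
    exact ((hasDerivAt_id (0 : ℝ)).const_add z.1).prodMk (hasDerivAt_const (0 : ℝ) z.2)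
  have h2 : HasFDerivAt (vfc μ) (fderiv ℝ (vfc μ) z) ((fun t : ℝ => (z.1 + t, z.2)) 0) := by
    simpa using sa_hasFDerivAt μ z
  have h3 := h2.comp_hasDerivAt (0 : ℝ) h1
  have hx : HasDerivAt (fun t : ℝ => z.1 + t) 1 0 := (hasDerivAt_id (0 : ℝ)).const_add z.1
  have hy : HasDerivAt (fun _ : ℝ => z.2) 0 0 := hasDerivAt_const (0 : ℝ) z.2
  have h4 := (pe_hasDerivAt μ.1 hx hy).prodMk (pe_hasDerivAt μ.2 hx hy)
  have h5 := h3.unique h4
  simpa using h5

private theorem sa_fderiv_y (μ : Pr D) (z : ℝ × ℝ) :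
    fderiv ℝ (vfc μ) z (0, 1) = (pey μ.1 z.1 z.2, pey μ.2 z.1 z.2) := by
  have h1 : HasDerivAt (fun t : ℝ => (z.1, z.2 + t)) ((0 : ℝ), (1 : ℝ)) 0 := by
    exact (hasDerivAt_const (0 : ℝ) z.1).prodMk ((hasDerivAt_id (0 : ℝ)).const_add z.2)
  have h2 : HasFDerivAt (vfc μ) (fderiv ℝ (vfc μ) z) ((fun t : ℝ => (z.1, z.2 + t)) 0) := by
    simpa using sa_hasFDerivAt μ z
  have h3 := h2.comp_hasDerivAt (0 : ℝ) h1
  have hx : HasDerivAt (fun _ : ℝ => z.1) 0 0 := hasDerivAt_const (0 : ℝ) z.1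
  have hy : HasDerivAt (fun t : ℝ => z.2 + t) 1 0 := (hasDerivAt_id (0 : ℝ)).const_add z.2
  have h4 := (pe_hasDerivAt μ.1 hx hy).prodMk (pe_hasDerivAt μ.2 hx hy)
  have h5 := h3.unique h4
  simpa using h5

private theorem sa_det (μ : Pr D) (z : ℝ × ℝ) : (fderiv ℝ (vfc μ) z).det = dt2 μ z := by
  rw [ContinuousLinearMap.det, ← LinearMap.det_toMatrix (Module.Basis.finTwoProd ℝ),
    Matrix.det_fin_two]
  simp only [LinearMap.toMatrix_apply, Module.Basis.finTwoProd_zero, Module.Basis.finTwoProd_one,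
    ContinuousLinearMap.coe_coe, sa_fderiv_x, sa_fderiv_y, Module.Basis.coe_finTwoProd_repr,
    Matrix.cons_val_zero, Matrix.cons_val_one, dt2]

/-- an open set of the plane squared has a measurable continuous image -/
private theorem sa_measurable_image {U : Set ((ℝ × ℝ) × (ℝ × ℝ))} (hU : IsOpen U)
    {f : (ℝ × ℝ) × (ℝ × ℝ) → (ℝ × ℝ) × (ℝ × ℝ)} (hf : Continuous f) :
    MeasurableSet (f '' U) := by
  obtain ⟨F, hF, -, hFU, -⟩ := hU.exists_iUnion_isClosed
  have h1 : IsSigmaCompact U := by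
    rw [← hFU]
    exact isSigmaCompact_iUnion _ fun n =>
      isSigmaCompact_univ.of_isClosed_subset (hF n) (Set.subset_univ _)
  obtain ⟨G, hG, hGU⟩ := h1.image hf
  rw [← hGU]
  exact MeasurableSet.iUnion fun n => (hG n).measurableSet

private theorem sa_vol_ball (z : ℝ × ℝ) {r : ℝ} (hr : 0 ≤ r) :
    volume {p : ℝ × ℝ | nm (p - z) < r} ≤ ENNReal.ofReal (4 * r ^ 2) := by
  have h1 : {p : ℝ × ℝ | nm (p - z) < r} ⊆
      Set.Icc (z.1 - r) (z.1 + r) ×ˢ Set.Icc (z.2 - r) (z.2 + r) := by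
    intro p hp
    have h2 : nm (p - z) < r := hp
    have h3 : |p.1 - z.1| ≤ nm (p - z) := by
      unfold nm
      apply Real.abs_le_sqrt
      have : 0 ≤ (p - z).2 ^ 2 := sq_nonneg _
      simp only [Prod.fst_sub]
      linarith
    have h4 : |p.2 - z.2| ≤ nm (p - z) := by
      unfold nm
      apply Real.abs_le_sqrt
      have : 0 ≤ (p - z).1 ^ 2 := sq_nonneg _
      simp only [Prod.snd_sub]
      linarith
    have h5 := abs_le.mp (h3.trans h2.le)
    have h6 := abs_le.mp (h4.trans h2.le)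
    exact ⟨⟨by linarith [h5.1], by linarith [h5.2]⟩, ⟨by linarith [h6.1], by linarith [h6.2]⟩⟩
  refine (measure_mono h1).trans ?_
  rw [Measure.volume_eq_prod, Measure.prod_prod, Real.volume_Icc, Real.volume_Icc,
    ← ENNReal.ofReal_mul (by linarith)]
  apply ENNReal.ofReal_le_ofReal
  nlinarith

private theorem sa_vol_image {μ : Pr D} {K : Set (ℝ × ℝ)} {M₁ M₂ : ℝ} (h : DBound μ K M₁ M₂)
    (hK : Convex ℝ K) (hKo : IsOpen K) (hM1 : 0 < M₁) (hM2 : 0 < M₂) {lam ell : ℝ}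
    (hlam : 0 < lam) (hlam1 : lam ≤ 1) (hell : M₂ * ell = lam ^ 3 * M₁) {z : ℝ × ℝ} (hz : z ∈ K)
    (hdt : |dt2 μ z| < 50 * M₁ ^ 2 * lam) :
    volume (vfc μ '' {p | p ∈ K ∧ nm (p - z) < 2 * ell}) ≤
      ENNReal.ofReal (1056 * M₁ ^ 2 * lam * ell ^ 2) := by
  have hell0 : 0 < ell := by
    by_contra hcon
    push Not at hcon
    have h1 : M₂ * ell ≤ 0 := mul_nonpos_of_nonneg_of_nonpos hM2.le hcon
    have h2 : 0 < lam ^ 3 * M₁ := by positivity
    linarith
  set B : Set (ℝ × ℝ) := {p | p ∈ K ∧ nm (p - z) < 2 * ell} with hB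
  have hBo : IsOpen B := hKo.inter
    (isOpen_lt (continuous_nm.comp (continuous_id.sub continuous_const)) continuous_const)
  have h1 := addHaar_image_le_lintegral_abs_det_fderiv volume hBo.measurableSet
    (f := vfc μ) (f' := fun p => fderiv ℝ (vfc μ) p)
    (fun p _ => (sa_hasFDerivAt μ p).hasFDerivWithinAt)
  refine h1.trans ?_
  have h2 : ∀ p ∈ B, ENNReal.ofReal |(fderiv ℝ (vfc μ) p).det| ≤
      ENNReal.ofReal (66 * M₁ ^ 2 * lam) := by
    intro p hp
    apply ENNReal.ofReal_le_ofReal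
    rw [sa_det]
    have h3 := h.dt2_sub hK hM1.le hM2.le hp.1 hz
    have h4 : 8 * M₁ * M₂ * nm (p - z) ≤ 8 * M₁ * M₂ * (2 * ell) := by
      apply mul_le_mul_of_nonneg_left hp.2.le (by positivity)
    have h5 : 8 * M₁ * M₂ * (2 * ell) = 16 * M₁ ^ 2 * lam ^ 3 := by
      calc 8 * M₁ * M₂ * (2 * ell) = 16 * M₁ * (M₂ * ell) := by ring
        _ = 16 * M₁ ^ 2 * lam ^ 3 := by rw [hell]; ring
    have h6 : lam ^ 3 ≤ lam := by
      have : lam ^ 2 ≤ 1 := by nlinarith
      nlinarith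
    have h7 : 16 * M₁ ^ 2 * lam ^ 3 ≤ 16 * M₁ ^ 2 * lam :=
      mul_le_mul_of_nonneg_left h6 (by positivity)
    have h8 : |dt2 μ p| ≤ |dt2 μ z| + |dt2 μ p - dt2 μ z| := by
      have := abs_add_le (dt2 μ z) (dt2 μ p - dt2 μ z)
      simpa using this
    linarith
  calc ∫⁻ p in B, ENNReal.ofReal |(fderiv ℝ (vfc μ) p).det|
      ≤ ∫⁻ _ in B, ENNReal.ofReal (66 * M₁ ^ 2 * lam) :=
        setLIntegral_mono measurable_const h2
    _ = ENNReal.ofReal (66 * M₁ ^ 2 * lam) * volume B := by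
        rw [setLIntegral_const]
    _ ≤ ENNReal.ofReal (66 * M₁ ^ 2 * lam) * ENNReal.ofReal (4 * (2 * ell) ^ 2) := by
        gcongr
        exact (measure_mono (fun p hp => hp.2)).trans (sa_vol_ball z (by linarith))
    _ = ENNReal.ofReal (1056 * M₁ ^ 2 * lam * ell ^ 2) := by
        rw [← ENNReal.ofReal_mul (by positivity)]
        congr 1
        ring

private theorem sa_continuous_dt2 (μ : Pr D) : Continuous (dt2 μ) := by
  unfold dt2
  exact ((avb_continuous_pex μ.1).mul (avb_continuous_pey μ.2)).sub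
    ((avb_continuous_pey μ.1).mul (avb_continuous_pex μ.2))

theorem avg_bad {μ : Pr D} {K : Set (ℝ × ℝ)} {M₁ M₂ : ℝ} (h : DBound μ K M₁ M₂)
    (hK : Convex ℝ K) (hKo : IsOpen K) (hM1 : 0 < M₁) (hM2 : 0 < M₂) {lam ell s : ℝ}
    (hlam : 0 < lam) (hlam1 : lam ≤ 1) (hell : M₂ * ell = lam ^ 3 * M₁) (hs : 0 < s) :
    ∃ H : ℝ × ℝ → ℝ≥0∞, Measurable H ∧
      (∀ c, ∫⁻ z in {z ∈ K | |dt2 μ z| < 50 * M₁ ^ 2 * lam ∧
          ∃ p ∈ K, nm (p - z) < 2 * ell ∧ vfc μ p + c = 0},
        (ENNReal.ofReal (nm (vfc μ z + c)))⁻¹ ≤ H c) ∧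
      ∫⁻ c, H c ≤ volume K * ENNReal.ofReal (M₁ * ell * (2 * Real.pi * s + 1060 * lam / s)) := by
  have hell0 : 0 < ell := by
    by_contra hcon
    push Not at hcon
    have h1 : M₂ * ell ≤ 0 := mul_nonpos_of_nonneg_of_nonpos hM2.le hcon
    have h2 : 0 < lam ^ 3 * M₁ := by positivity
    linarith
  set S : Set ((ℝ × ℝ) × (ℝ × ℝ)) :=
    {q | ∃ p ∈ K, nm (p - q.1) < 2 * ell ∧ vfc μ p + q.2 = 0} with hSdef
  have hS : MeasurableSet S := by
    have h1 : S = (fun q : (ℝ × ℝ) × (ℝ × ℝ) => (q.1, -vfc μ q.2)) ''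
        {q | q.2 ∈ K ∧ nm (q.2 - q.1) < 2 * ell} := by
      ext q
      constructor
      · rintro ⟨p, hp, hpz, hc⟩
        refine ⟨(q.1, p), ⟨hp, hpz⟩, ?_⟩
        have h2 : q.2 = -vfc μ p := eq_neg_of_add_eq_zero_right hc
        exact Prod.ext rfl h2.symm
      · rintro ⟨⟨z', p⟩, ⟨hp, hpz⟩, heq⟩
        subst heq
        exact ⟨p, hp, hpz, by simp⟩
    rw [h1]
    refine sa_measurable_image ?_ ?_
    · exact (hKo.preimage continuous_snd).inter
        (isOpen_lt (continuous_nm.comp (continuous_snd.sub continuous_fst)) continuous_const)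
    · exact continuous_fst.prodMk ((sa_continuous_vfc μ).comp continuous_snd).neg
  set K' : Set (ℝ × ℝ) := {z | z ∈ K ∧ |dt2 μ z| < 50 * M₁ ^ 2 * lam} with hK'def
  have hK'o : IsOpen K' := hKo.inter
    (isOpen_lt (sa_continuous_dt2 μ).abs continuous_const)
  set F : (ℝ × ℝ) × (ℝ × ℝ) → ℝ≥0∞ :=
    S.indicator (fun q => (ENNReal.ofReal (nm (vfc μ q.1 + q.2)))⁻¹) with hFdef
  have hF : Measurable F :=
    (sa_measurable_inv.comp (((sa_continuous_vfc μ).comp continuous_fst).add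
      continuous_snd).measurable).indicator hS
  have hSv : ∀ z : ℝ × ℝ, {c | (z, c) ∈ S} =
      -(vfc μ '' {p | p ∈ K ∧ nm (p - z) < 2 * ell}) := by
    intro z
    ext c
    rw [Set.mem_neg]
    constructor
    · rintro ⟨p, hp, hpz, hc⟩
      exact ⟨p, ⟨hp, hpz⟩, eq_neg_of_add_eq_zero_left hc⟩
    · rintro ⟨p, ⟨hp, hpz⟩, hc⟩
      exact ⟨p, hp, hpz, by simp [hc]⟩
  refine ⟨fun c => ∫⁻ z in K', F (z, c), ?_, ?_, ?_⟩
  · exact Measurable.lintegral_prod_left' (μ := volume.restrict K') hF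
  · intro c
    have h1 : {z | z ∈ K ∧ (|dt2 μ z| < 50 * M₁ ^ 2 * lam ∧
        ∃ p ∈ K, nm (p - z) < 2 * ell ∧ vfc μ p + c = 0)} = {z | (z, c) ∈ S} ∩ K' := by
      ext z
      constructor
      · rintro ⟨ha, hb, hc⟩
        exact ⟨hc, ha, hb⟩
      · rintro ⟨hc, ha, hb⟩
        exact ⟨ha, hb, hc⟩
    have h2 : MeasurableSet {z | (z, c) ∈ S} := measurable_prodMk_right hS
    rw [h1, ← Measure.restrict_restrict h2, ← lintegral_indicator h2]
    refine lintegral_mono fun z => ?_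
    exact le_refl _
  · rw [lintegral_lintegral_swap (f := fun c z => F (z, c))]
    · have h3 : ∀ z ∈ K', ∫⁻ c : ℝ × ℝ, F (z, c) ≤
          ENNReal.ofReal (M₁ * ell * (2 * Real.pi * s + 1060 * lam / s)) := by
        intro z hz
        have h4 : ∫⁻ c : ℝ × ℝ, F (z, c) = ∫⁻ u : ℝ × ℝ, F (z, u - vfc μ z) :=
          (lintegral_sub_right_eq_self (fun c => F (z, c)) (vfc μ z)).symm
        have h5 : MeasurableSet {u : ℝ × ℝ | (z, u - vfc μ z) ∈ S} :=
          (measurable_const.prodMk (measurable_id.sub measurable_const)) hS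
        have h6 : ∫⁻ u : ℝ × ℝ, F (z, u - vfc μ z) =
            ∫⁻ u in {u : ℝ × ℝ | (z, u - vfc μ z) ∈ S}, (ENNReal.ofReal (nm u))⁻¹ := by
          rw [← lintegral_indicator h5]
          refine lintegral_congr fun u => ?_
          simp only [hFdef, Set.indicator, Set.mem_ofPred_eq, add_sub_cancel]
        have h7 : volume {u : ℝ × ℝ | (z, u - vfc μ z) ∈ S} ≤
            ENNReal.ofReal (1056 * M₁ ^ 2 * lam * ell ^ 2) := by
          have h8 : {u : ℝ × ℝ | (z, u - vfc μ z) ∈ S} =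
              (fun u => u + (-vfc μ z)) ⁻¹' {c | (z, c) ∈ S} := by
            ext u
            simp [sub_eq_add_neg]
          rw [h8, measure_preimage_add_right, hSv z, Measure.measure_neg]
          exact sa_vol_image h hK hKo hM1 hM2 hlam hlam1 hell hz.1 hz.2
        rw [h4, h6]
        have ha : 0 < M₁ * ell * s := by positivity
        refine (lintegral_inv_nm_le h5 ha (by positivity) h7).trans ?_
        apply ENNReal.ofReal_le_ofReal
        have h9 : 1056 * M₁ ^ 2 * lam * ell ^ 2 / (M₁ * ell * s) =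
            M₁ * ell * (1056 * lam / s) := by
          field_simp
        rw [h9]
        have h10 : M₁ * ell * (1056 * lam / s) ≤ M₁ * ell * (1060 * lam / s) := by
          apply mul_le_mul_of_nonneg_left _ (by positivity)
          gcongr
          norm_num
        have h11 : 2 * Real.pi * (M₁ * ell * s) = M₁ * ell * (2 * Real.pi * s) := by ring
        rw [h11, mul_add]
        linarith
      calc ∫⁻ z in K', ∫⁻ c : ℝ × ℝ, F (z, c)
          ≤ ∫⁻ _ in K', ENNReal.ofReal (M₁ * ell * (2 * Real.pi * s + 1060 * lam / s)) :=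
            setLIntegral_mono' hK'o.measurableSet h3
        _ = ENNReal.ofReal (M₁ * ell * (2 * Real.pi * s + 1060 * lam / s)) * volume K' := by
            rw [setLIntegral_const]
        _ ≤ volume K * ENNReal.ofReal (M₁ * ell * (2 * Real.pi * s + 1060 * lam / s)) := by
            rw [mul_comm]
            gcongr
            exact fun z hz => hz.1
    · exact (hF.comp measurable_swap).aemeasurable

end Pool.Agent.Lib.MP_95e7ec_an
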