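import Mathlib
import Pool.Agent.Lib.MP_95e7ec_an.FamGood
import Pool.Agent.Lib.MP_95e7ec_an.ShiftAvg
import Pool.Agent.Lib.MP_95e7ec_an.QuadAlg
import Pool.Agent.Lib.MP_95e7ec_an.Assemble

/-!
# The mean number of all closed orbits: final assembly
-/

set_option autoImplicit false

open Set Filter Topology MeasureTheory
open scoped ContDiff ENNReal

namespace Pool.Agent.Lib.MP_95e7ec_an

variable {D : ℕ}

theorem ca_orbitLength_lt_top {v : ℝ × ℝ → ℝ × ℝ} {C : Set (ℝ × ℝ)} (hC : IsClosedOrbit v C) :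
    orbitLength v C < ⊤ := by
  obtain ⟨γ, T, hT, hγ, hper, hne, hCr⟩ := hC
  unfold orbitLength
  refine lt_of_le_of_lt (iInf_le_of_le γ (iInf_le_of_le T
    (iInf_le_of_le ⟨hT, hγ, hper, hCr⟩ le_rfl))) ENNReal.ofReal_lt_top

theorem ca_orbitLength_pos {v : ℝ × ℝ → ℝ × ℝ} (hv : Continuous v) {C : Set (ℝ × ℝ)}
    (hC : IsClosedOrbit v C) : 0 < orbitLength v C := by
  obtain ⟨γ, T, hT, hγ, hper, ⟨s, t, hst⟩, hCr⟩ := hC
  have h1 := two_nm_le_orbitLength hv (C := C) (p := γ s) (q := γ t)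
    (by rw [hCr]; exact ⟨s, rfl⟩) (by rw [hCr]; exact ⟨t, rfl⟩)
  refine lt_of_lt_of_le ?_ h1
  rw [ENNReal.ofReal_pos]
  have := nm_pos (sub_ne_zero.2 hst)
  linarith

theorem ca_orbitSum_eq (φ : ℝ≥0∞ → ℝ≥0∞) (v : ℝ × ℝ → ℝ × ℝ) (Ω : Set (ℝ × ℝ)) (α : ℝ) :
    orbitSum φ v Ω α = ∑' C : Set (ℝ × ℝ), Set.indicator {C | IsClosedOrbit (turn α v) C ∧ C ⊆ Ω}
      (fun C => φ (orbitLength (turn α v) C)) C := by
  rw [orbitSum]
  exact tsum_subtype {C : Set (ℝ × ℝ) | IsClosedOrbit (turn α v) C ∧ C ⊆ Ω}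
    (fun C => φ (orbitLength (turn α v) C))

/-- indicator type weights -/
noncomputable def upW (a : ℝ) (L : ℝ≥0∞) : ℝ≥0∞ := if ENNReal.ofReal a < L then 1 else 0

noncomputable def loW (a : ℝ) (L : ℝ≥0∞) : ℝ≥0∞ := if L ≤ ENNReal.ofReal a then 1 else 0

theorem measurable_upW (a : ℝ) : Measurable (upW a) :=
  Measurable.ite measurableSet_Ioi measurable_const measurable_const

theorem measurable_loW (a : ℝ) : Measurable (loW a) :=
  Measurable.ite measurableSet_Iic measurable_const measurable_const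

theorem upW_le {a : ℝ} (ha : 0 < a) (L : ℝ≥0∞) : upW a L ≤ (ENNReal.ofReal a)⁻¹ * L := by
  unfold upW
  split_ifs with h
  · have h0 : ENNReal.ofReal a ≠ 0 := (ENNReal.ofReal_pos.2 ha).ne'
    have h1 : ENNReal.ofReal a ≠ ⊤ := ENNReal.ofReal_ne_top
    rw [← ENNReal.inv_mul_cancel h0 h1]
    gcongr
  · exact zero_le

/-- the region of the bad orbits -/
def OmB (μ : Pr D) (K : Set (ℝ × ℝ)) (c : ℝ × ℝ) (u r : ℝ) : Set (ℝ × ℝ) :=
  {z ∈ K | |dt2 μ z| < u ∧ ∃ p ∈ K, nm (p - z) < r ∧ vfc μ p + c = 0}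

/-- the region of the good orbits -/
def OmG (μ : Pr D) (K : Set (ℝ × ℝ)) (c : ℝ × ℝ) (u r : ℝ) : Set (ℝ × ℝ) :=
  {z ∈ K | u < dt2 μ z ∧ nm (vfc μ z + c) < r}

theorem ca_continuous_dt2 (μ : Pr D) : Continuous (dt2 μ) := by
  unfold dt2
  exact ((avb_continuous_pex μ.1).mul (avb_continuous_pey μ.2)).sub
    ((avb_continuous_pey μ.1).mul (avb_continuous_pex μ.2))

theorem isOpen_OmB (μ : Pr D) {K : Set (ℝ × ℝ)} (hK : IsOpen K) (c : ℝ × ℝ) (u r : ℝ) :
    IsOpen (OmB μ K c u r) := by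
  have : OmB μ K c u r = K ∩ ({z | |dt2 μ z| < u} ∩
      ⋃ p ∈ {p | p ∈ K ∧ vfc μ p + c = 0}, {z | nm (p - z) < r}) := by
    ext z
    simp only [OmB, Set.mem_ofPred_eq, Set.mem_inter_iff, Set.mem_iUnion, exists_prop]
    constructor
    · rintro ⟨h1, h2, p, h3, h4, h5⟩
      exact ⟨h1, h2, p, ⟨h3, h5⟩, h4⟩
    · rintro ⟨h1, h2, p, ⟨h3, h5⟩, h4⟩
      exact ⟨h1, h2, p, h3, h4, h5⟩
  rw [this]
  refine hK.inter (IsOpen.inter ?_ ?_)
  · exact isOpen_lt (ca_continuous_dt2 μ).abs continuous_const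
  · refine isOpen_biUnion fun p _ => isOpen_lt ?_ continuous_const
    exact continuous_nm.comp (continuous_const.sub continuous_id)

theorem isOpen_OmG (μ : Pr D) {K : Set (ℝ × ℝ)} (hK : IsOpen K) (c : ℝ × ℝ) (u r : ℝ) :
    IsOpen (OmG μ K c u r) := by
  have : OmG μ K c u r = K ∩ ({z | u < dt2 μ z} ∩ {z | nm (vfc μ z + c) < r}) := by
    ext z
    simp only [OmG, Set.mem_ofPred_eq, Set.mem_inter_iff]
  rw [this]
  refine hK.inter (IsOpen.inter ?_ ?_)
  · exact isOpen_lt continuous_const (ca_continuous_dt2 μ)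
  · exact isOpen_lt (continuous_nm.comp ((continuous_vfc μ).add continuous_const)) continuous_const

/-- the classification of the closed orbits -/
theorem ca_class {μ : Pr D} {K : Set (ℝ × ℝ)} {M₁ M₂ : ℝ} (h : DBound μ K M₁ M₂)
    (hK : Convex ℝ K) (hM1 : 0 < M₁) (hM2 : 0 < M₂) (c : ℝ × ℝ) {α : ℝ} {C : Set (ℝ × ℝ)}
    (hC : IsClosedOrbit (turn α (vfc (shf μ c))) C) (hCK : C ⊆ K) {lam ell : ℝ}
    (hlam : 0 < lam) (hlam1 : lam ≤ 1) (hell : M₂ * ell = lam ^ 3 * M₁) (hell0 : 0 < ell)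
    (hL : orbitLength (turn α (vfc (shf μ c))) C ≤ ENNReal.ofReal ell) :
    C ⊆ OmB μ K c (50 * M₁ ^ 2 * lam) (2 * ell) ∨
      C ⊆ OmG μ K c (40 * M₁ ^ 2 * lam) (3 * M₁ * ell) := by
  rw [← vfc_rotA] at hC hL
  have hs := h.shf c
  obtain ⟨⟨p, hpK, hp0, hp⟩, h2, h3⟩ := small_orbit_geom hs hK hM1 hM2 α hC hCK hell0.le hL
  have hvs : ∀ z, vfc (shf μ c) z = vfc μ z + c := vfc_shf μ c
  by_cases hb : ∃ z ∈ C, dt2 μ z ≤ 40 * M₁ ^ 2 * lam
  · left
    obtain ⟨z0, hz0, hd0⟩ := hb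
    intro z hz
    refine ⟨hCK hz, ?_, p, hpK, ?_, ?_⟩
    · have h4 := small_orbit_alt hs hK hM1 hM2 α hC hCK hell0.le hL hlam hlam1 hell.le hz0
      rw [dt2_shf] at h4
      have h5 : |dt2 μ z0| ≤ 40 * M₁ ^ 2 * lam := by
        rcases h4 with h4 | h4
        · exact h4.le
        · rw [abs_of_nonneg]
          · exact hd0
          · exact le_trans (by positivity) h4.1
      have h6 := h3 z hz z0 hz0
      rw [dt2_shf, dt2_shf] at h6
      have h7 : 8 * M₁ * M₂ * ell = 8 * M₁ ^ 2 * lam ^ 3 := by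
        have : 8 * M₁ * M₂ * ell = 8 * M₁ * (M₂ * ell) := by ring
        rw [this, hell]
        ring
      rw [h7] at h6
      have h8 : lam ^ 3 ≤ lam := by
        have := pow_le_pow_of_le_one hlam.le hlam1 (show 1 ≤ 3 by norm_num)
        simpa using this
      have h9 : 8 * M₁ ^ 2 * lam ^ 3 ≤ 8 * M₁ ^ 2 * lam :=
        mul_le_mul_of_nonneg_left h8 (by positivity)
      have h10 : |dt2 μ z| ≤ |dt2 μ z0| + |dt2 μ z - dt2 μ z0| := by
        have := abs_add_le (dt2 μ z0) (dt2 μ z - dt2 μ z0)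
        rwa [add_sub_cancel] at this
      have h11 : 0 < M₁ ^ 2 * lam := by positivity
      nlinarith
    · exact lt_of_le_of_lt (hp z hz) (by linarith)
    · rw [← hvs]
      exact hp0
  · right
    push Not at hb
    intro z hz
    refine ⟨hCK hz, hb z hz, ?_⟩
    have := h2 z hz
    rw [hvs] at this
    have h12 : 0 < M₁ * ell := by positivity
    nlinarith

noncomputable def lamk (k : ℕ) : ℝ := (25 / 36) ^ k

noncomputable def ellk (M₁ M₂ : ℝ) (k : ℕ) : ℝ := lamk k ^ 3 * M₁ / M₂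

theorem lamk_pos (k : ℕ) : 0 < lamk k := by
  unfold lamk
  positivity

theorem lamk_le_one (k : ℕ) : lamk k ≤ 1 := pow_le_one₀ (by norm_num) (by norm_num)

theorem ellk_pos {M₁ M₂ : ℝ} (hM1 : 0 < M₁) (hM2 : 0 < M₂) (k : ℕ) : 0 < ellk M₁ M₂ k := by
  unfold ellk
  have := lamk_pos k
  positivity

theorem ellk_spec {M₁ M₂ : ℝ} (hM2 : 0 < M₂) (k : ℕ) :
    M₂ * ellk M₁ M₂ k = lamk k ^ 3 * M₁ := by
  unfold ellk
  field_simp

theorem ellk_succ {M₁ M₂ : ℝ} (k : ℕ) :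
    ellk M₁ M₂ (k + 1) = (25 / 36) ^ 3 * ellk M₁ M₂ k := by
  unfold ellk lamk
  rw [pow_succ]
  ring

theorem exists_scale {M₁ M₂ : ℝ} (hM1 : 0 < M₁) (hM2 : 0 < M₂) {L : ℝ≥0∞} (h0 : 0 < L)
    (h1 : L ≤ ENNReal.ofReal (ellk M₁ M₂ 0)) :
    ∃ k, ENNReal.ofReal (ellk M₁ M₂ (k + 1)) < L ∧ L ≤ ENNReal.ofReal (ellk M₁ M₂ k) := by
  have hLtop : L ≠ ⊤ := ne_top_of_le_ne_top ENNReal.ofReal_ne_top h1
  have hLr : 0 < L.toReal := ENNReal.toReal_pos h0.ne' hLtop
  have htend : Tendsto (fun k => ellk M₁ M₂ k) atTop (𝓝 0) := by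
    have h2 : ∀ k, ellk M₁ M₂ k = ((25 / 36 : ℝ) ^ 3) ^ k * (M₁ / M₂) := by
      intro k
      unfold ellk lamk
      rw [← pow_mul, ← pow_mul, mul_comm k 3]
      ring
    simp only [h2]
    have := (tendsto_pow_atTop_nhds_zero_of_lt_one (r := (25 / 36 : ℝ) ^ 3) (by positivity)
      (by norm_num)).mul_const (M₁ / M₂)
    simpa using this
  have hex : ∃ k, ENNReal.ofReal (ellk M₁ M₂ k) < L := by
    obtain ⟨k, hk⟩ := (htend.eventually (gt_mem_nhds hLr)).exists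
    refine ⟨k, ?_⟩
    rw [ENNReal.ofReal_lt_iff_lt_toReal (ellk_pos hM1 hM2 k).le hLtop]
    exact hk
  classical
  set m := Nat.find hex with hm
  have hm0 : m ≠ 0 := by
    intro h
    have := Nat.find_spec hex
    rw [← hm, h] at this
    exact absurd h1 (not_le.2 this)
  obtain ⟨k, hk⟩ := Nat.exists_eq_succ_of_ne_zero hm0
  refine ⟨k, ?_, ?_⟩
  · have := Nat.find_spec hex
    rwa [← hm, hk] at this
  · have := Nat.find_min hex (m := k) (by omega)
    exact not_lt.1 this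

/-- the number of closed orbits in `K` is at most the sum over the classes -/
theorem ca_sum {μ : Pr D} {K : Set (ℝ × ℝ)} {M₁ M₂ : ℝ} (h : DBound μ K M₁ M₂)
    (hK : Convex ℝ K) (hM1 : 0 < M₁) (hM2 : 0 < M₂) (c : ℝ × ℝ) (α : ℝ) :
    orbitSum (fun _ => 1) (vfc (shf μ c)) K α ≤
      orbitSum (upW (ellk M₁ M₂ 0)) (vfc (shf μ c)) K α +
      ∑' k, (orbitSum (upW (ellk M₁ M₂ (k + 1))) (vfc (shf μ c))
          (OmB μ K c (50 * M₁ ^ 2 * lamk k) (2 * ellk M₁ M₂ k)) α +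
        orbitSum (loW (ellk M₁ M₂ k)) (vfc (shf μ c))
          (OmG μ K c (40 * M₁ ^ 2 * lamk k) (3 * M₁ * ellk M₁ M₂ k)) α) := by
  set v := vfc (shf μ c) with hv
  simp only [ca_orbitSum_eq]
  have hswap : ∑' k, (∑' C : Set (ℝ × ℝ), Set.indicator {C | IsClosedOrbit (turn α v) C ∧
        C ⊆ OmB μ K c (50 * M₁ ^ 2 * lamk k) (2 * ellk M₁ M₂ k)}
        (fun C => upW (ellk M₁ M₂ (k + 1)) (orbitLength (turn α v) C)) C +
      ∑' C : Set (ℝ × ℝ), Set.indicator {C | IsClosedOrbit (turn α v) C ∧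
        C ⊆ OmG μ K c (40 * M₁ ^ 2 * lamk k) (3 * M₁ * ellk M₁ M₂ k)}
        (fun C => loW (ellk M₁ M₂ k) (orbitLength (turn α v) C)) C) =
      ∑' C : Set (ℝ × ℝ), ∑' k, (Set.indicator {C | IsClosedOrbit (turn α v) C ∧
        C ⊆ OmB μ K c (50 * M₁ ^ 2 * lamk k) (2 * ellk M₁ M₂ k)}
        (fun C => upW (ellk M₁ M₂ (k + 1)) (orbitLength (turn α v) C)) C +
      Set.indicator {C | IsClosedOrbit (turn α v) C ∧
        C ⊆ OmG μ K c (40 * M₁ ^ 2 * lamk k) (3 * M₁ * ellk M₁ M₂ k)}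
        (fun C => loW (ellk M₁ M₂ k) (orbitLength (turn α v) C)) C) := by
    rw [ENNReal.tsum_comm]
    exact tsum_congr fun k => ENNReal.tsum_add.symm
  rw [hswap, ← ENNReal.tsum_add]
  refine ENNReal.tsum_le_tsum fun C => ?_
  by_cases hC : IsClosedOrbit (turn α v) C ∧ C ⊆ K
  · have hcont : Continuous (turn α v) := by
      rw [hv, ← vfc_rotA]
      exact continuous_vfc _
    have hpos := ca_orbitLength_pos hcont hC.1
    rw [Set.indicator_of_mem (show C ∈ {C | IsClosedOrbit (turn α v) C ∧ C ⊆ K} from hC),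
      Set.indicator_of_mem (show C ∈ {C | IsClosedOrbit (turn α v) C ∧ C ⊆ K} from hC)]
    by_cases hbig : ENNReal.ofReal (ellk M₁ M₂ 0) < orbitLength (turn α v) C
    · refine le_trans ?_ (le_add_right le_rfl)
      simp [upW, hbig]
    · obtain ⟨k, hk1, hk2⟩ := exists_scale hM1 hM2 hpos (not_lt.1 hbig)
      refine le_trans ?_ (le_add_left (ENNReal.le_tsum k))
      rcases ca_class h hK hM1 hM2 c hC.1 hC.2 (lamk_pos k) (lamk_le_one k) (ellk_spec hM2 k)
        (ellk_pos hM1 hM2 k) hk2 with hcl | hcl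
      · refine le_trans ?_ (le_add_right le_rfl)
        rw [Set.indicator_of_mem (show C ∈ {C | IsClosedOrbit (turn α v) C ∧
          C ⊆ OmB μ K c (50 * M₁ ^ 2 * lamk k) (2 * ellk M₁ M₂ k)} from ⟨hC.1, hcl⟩)]
        simp [upW, hk1]
      · refine le_trans ?_ (le_add_left le_rfl)
        rw [Set.indicator_of_mem (show C ∈ {C | IsClosedOrbit (turn α v) C ∧
          C ⊆ OmG μ K c (40 * M₁ ^ 2 * lamk k) (3 * M₁ * ellk M₁ M₂ k)} from ⟨hC.1, hcl⟩)]
        simp [loW, hk2]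
  · rw [Set.indicator_of_notMem (show C ∉ {C | IsClosedOrbit (turn α v) C ∧ C ⊆ K} from hC)]
    exact zero_le

/-- `argGrad ≤ 3 M₁ / |X|` -/
theorem ca_argGrad_le {μ : Pr D} {K : Set (ℝ × ℝ)} {M₁ M₂ : ℝ} (h : DBound μ K M₁ M₂)
    (hM1 : 0 ≤ M₁) {z : ℝ × ℝ} (hz : z ∈ K) :
    ENNReal.ofReal (argGrad μ z) ≤
      ENNReal.ofReal (3 * M₁) * (ENNReal.ofReal (nm (vfc μ z)))⁻¹ := by
  rcases eq_or_ne (vfc μ z) 0 with h0 | h0
  · have h1 : pe μ.1 z.1 z.2 = 0 := congrArg Prod.fst h0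
    have h2 : pe μ.2 z.1 z.2 = 0 := congrArg Prod.snd h0
    have : argGrad μ z = 0 := by
      unfold argGrad
      simp [h1, h2]
    rw [this]
    simp
  · have hn := nm_pos h0
    rw [← ENNReal.ofReal_inv_of_pos hn, ← ENNReal.ofReal_mul (by positivity)]
    apply ENNReal.ofReal_le_ofReal
    rw [← div_eq_mul_inv, le_div_iff₀ hn]
    have hsq := nm_sq (vfc μ z)
    have e1 : (vfc μ z).1 = pe μ.1 z.1 z.2 := rfl
    have e2 : (vfc μ z).2 = pe μ.2 z.1 z.2 := rfl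
    rw [e1, e2] at hsq
    set p := pe μ.1 z.1 z.2 with hp
    set q := pe μ.2 z.1 z.2 with hq
    set N := nm (vfc μ z) with hN
    unfold argGrad
    rw [← hp, ← hq, ← hsq]
    have b1 := h.x1 z hz
    have b2 := h.y1 z hz
    have b3 := h.x2 z hz
    have b4 := h.y2 z hz
    have key : ∀ u w : ℝ, |u| ≤ M₁ → |w| ≤ M₁ → |p * u - q * w| ≤ M₁ * (|p| + |q|) := by
      intro u w hu hw
      calc |p * u - q * w| ≤ |p * u| + |q * w| := abs_sub _ _
        _ = |p| * |u| + |q| * |w| := by rw [abs_mul, abs_mul]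
        _ ≤ |p| * M₁ + |q| * M₁ := by gcongr
        _ = M₁ * (|p| + |q|) := by ring
    have k1 := key _ _ b3 b1
    have k2 := key _ _ b4 b2
    have hpq : |p| + |q| ≤ 3 / 2 * N := by
      apply abs_le_of_sq_le_sq' _ (by positivity) |>.2
      have : |p| ^ 2 = p ^ 2 := sq_abs p
      have : |q| ^ 2 = q ^ 2 := sq_abs q
      nlinarith [sq_nonneg (|p| - |q|), sq_nonneg p, sq_nonneg q]
    rw [div_mul_eq_mul_div, div_le_iff₀ (by positivity)]
    have k3 : (|p * pex μ.2 z.1 z.2 - q * pex μ.1 z.1 z.2| +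
        |p * pey μ.2 z.1 z.2 - q * pey μ.1 z.1 z.2|) ≤ 3 * M₁ * N := by
      nlinarith
    calc _ ≤ (3 * M₁ * N) * N := by gcongr
      _ = 3 * M₁ * N ^ 2 := by ring

theorem ca_upW_le_total {v : ℝ × ℝ → ℝ × ℝ} {Ω : Set (ℝ × ℝ)} {a : ℝ} (ha : 0 < a) (α : ℝ) :
    orbitSum (upW a) v Ω α ≤ (ENNReal.ofReal a)⁻¹ * totalLength v Ω α := by
  unfold orbitSum totalLength
  rw [← ENNReal.tsum_mul_left]
  exact ENNReal.tsum_le_tsum fun C => upW_le ha _

/-- long orbits in an open set -/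
theorem ca_long (μ : Pr D) {K Ω : Set (ℝ × ℝ)} {M₁ M₂ : ℝ} (h : DBound μ K M₁ M₂)
    (hM1 : 0 ≤ M₁) (hΩ : IsOpen Ω) (hΩK : Ω ⊆ K) {a : ℝ} (ha : 0 < a) (c : ℝ × ℝ) :
    ∫⁻ α in Set.Ioo 0 Real.pi, orbitSum (upW a) (vfc (shf μ c)) Ω α ≤
      (ENNReal.ofReal a)⁻¹ * (ENNReal.ofReal (3 * M₁) *
        ∫⁻ z in Ω, (ENNReal.ofReal (nm (vfc μ z + c)))⁻¹) := by
  obtain ⟨hm, hint⟩ := averaged_meas (shf μ c) hΩ
  calc ∫⁻ α in Set.Ioo 0 Real.pi, orbitSum (upW a) (vfc (shf μ c)) Ω α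
      ≤ ∫⁻ α in Set.Ioo 0 Real.pi, (ENNReal.ofReal a)⁻¹ * totalLength (vfc (shf μ c)) Ω α :=
        lintegral_mono fun α => ca_upW_le_total ha α
    _ = (ENNReal.ofReal a)⁻¹ * ∫⁻ α in Set.Ioo 0 Real.pi, totalLength (vfc (shf μ c)) Ω α :=
        lintegral_const_mul'' _ hm
    _ ≤ (ENNReal.ofReal a)⁻¹ * ∫⁻ z in Ω, ENNReal.ofReal (argGrad (shf μ c) z) := by gcongr
    _ ≤ (ENNReal.ofReal a)⁻¹ * ∫⁻ z in Ω, ENNReal.ofReal (3 * M₁) *
        (ENNReal.ofReal (nm (vfc μ z + c)))⁻¹ := by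
        refine mul_le_mul_right ?_ _
        refine setLIntegral_mono' hΩ.measurableSet fun z hz => ?_
        have := ca_argGrad_le (h.shf c) hM1 (hΩK hz)
        rwa [vfc_shf] at this
    _ = _ := by
        rw [lintegral_const_mul]
        exact ((continuous_nm.comp ((continuous_vfc μ).add
          continuous_const)).measurable.ennreal_ofReal).inv

/-- good orbits -/
theorem ca_good {μ : Pr D} {K : Set (ℝ × ℝ)} {M₁ M₂ : ℝ} (h : DBound μ K M₁ M₂)
    (hK : Convex ℝ K) (hKo : IsOpen K) (hM1 : 0 < M₁) (hM2 : 0 < M₂) (c : ℝ × ℝ) (k : ℕ) :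
    ∫⁻ α in Set.Ioo 0 Real.pi, orbitSum (loW (ellk M₁ M₂ k)) (vfc (shf μ c))
        (OmG μ K c (40 * M₁ ^ 2 * lamk k) (3 * M₁ * ellk M₁ M₂ k)) α ≤
      ENNReal.ofReal (4 * M₂ / lamk k ^ 2) *
        ∫⁻ z in {z ∈ K | nm (vfc μ z + c) < 3 * M₁ * ellk M₁ M₂ k},
          (ENNReal.ofReal (nm (vfc μ z + c)))⁻¹ := by
  have hmeas : Measurable fun z => (ENNReal.ofReal (nm (vfc (shf μ c) z)))⁻¹ :=
    ((continuous_nm.comp (continuous_vfc _)).measurable.ennreal_ofReal).inv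
  refine (orbitSum_le (shf μ c) (isOpen_OmG μ hKo c _ _) (measurable_loW _)
    (g := fun z => ENNReal.ofReal (4 * M₂ / lamk k ^ 2) *
      (ENNReal.ofReal (nm (vfc (shf μ c) z)))⁻¹) (hmeas.const_mul _) ?_).trans ?_
  · intro F s hs
    unfold loW
    split_ifs with hl
    · rw [mul_one]
      refine fam_good (h.shf c) hK hM1 hM2 (lamk_pos k) (lamk_le_one k) (ellk_spec hM2 k)
        (fun z hz => hz.1) ?_ F hs ?_
      · intro z hz
        rw [dt2_shf]
        exact hz.2.1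
      · exact (ENNReal.ofReal_le_ofReal_iff (ellk_pos hM1 hM2 k).le).1 hl
    · rw [mul_zero]
      exact zero_le
  · rw [lintegral_const_mul _ hmeas]
    refine mul_le_mul_right ?_ _
    simp only [vfc_shf]
    refine lintegral_mono_set ?_
    intro z hz
    exact ⟨hz.1, hz.2.2⟩

theorem ca_geom {A q : ℝ} (hA : 0 ≤ A) (hq : 0 ≤ q) (hq1 : q < 1) :
    ∑' k : ℕ, ENNReal.ofReal (A * q ^ k) = ENNReal.ofReal (A / (1 - q)) := by
  rw [← ENNReal.ofReal_tsum_of_nonneg (fun k => by positivity)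
    ((summable_geometric_of_lt_one hq hq1).mul_left A), tsum_mul_left,
    tsum_geometric_of_lt_one hq hq1]
  rfl

theorem count_all {μ : Pr D} {K : Set (ℝ × ℝ)} {M₁ M₂ : ℝ} (h : DBound μ K M₁ M₂)
    (hK : Convex ℝ K) (hKo : IsOpen K) (hM1 : 0 < M₁) (hM2 : 0 < M₂) {ρ : ℝ} (hρ : 0 < ρ)
    (hμρ : ∀ z ∈ K, nm (vfc μ z) ≤ ρ) :
    ∃ H : ℝ × ℝ → ℝ≥0∞, Measurable H ∧
      (∀ c, nm c ≤ ρ → ∫⁻ α in Set.Ioo 0 Real.pi, orbitSum (fun _ => 1) (vfc (shf μ c)) K α ≤ H c) ∧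
      ∫⁻ c, H c ≤ volume K * ENNReal.ofReal (9200 * M₁ ^ 2 + 60 * M₂ * ρ) := by
  have hs : ∀ k : ℕ, (0 : ℝ) < 13 * (5 / 6) ^ k := fun k => by positivity
  obtain ⟨HL, hLm, hL1, hL2⟩ := avg_good μ hKo.measurableSet (r := 3 * ρ) (by positivity)
  choose Hb hbm hb1 hb2 using fun k : ℕ => avg_bad h hK hKo hM1 hM2 (lamk_pos k) (lamk_le_one k)
    (ellk_spec hM2 k) (hs k)
  choose Hg hgm hg1 hg2 using fun k : ℕ => avg_good μ hKo.measurableSet
    (r := 3 * M₁ * ellk M₁ M₂ k) (by have := ellk_pos hM1 hM2 k; positivity)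
  refine ⟨fun c => (ENNReal.ofReal (ellk M₁ M₂ 0))⁻¹ * (ENNReal.ofReal (3 * M₁) * HL c) +
    ∑' k, ((ENNReal.ofReal (ellk M₁ M₂ (k + 1)))⁻¹ * (ENNReal.ofReal (3 * M₁) * Hb k c) +
      ENNReal.ofReal (4 * M₂ / lamk k ^ 2) * Hg k c), ?_, ?_, ?_⟩
  · refine ((hLm.const_mul _).const_mul _).add (Measurable.tsum fun k => ?_)
    exact (((hbm k).const_mul _).const_mul _).add ((hgm k).const_mul _)
  · intro c hc
    have hm1 : ∀ (φ : ℝ≥0∞ → ℝ≥0∞) (Ω : Set (ℝ × ℝ)), Measurable φ → IsOpen Ω →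
        AEMeasurable (orbitSum φ (vfc (shf μ c)) Ω) (volume.restrict (Set.Ioo 0 Real.pi)) :=
      fun φ Ω hφ hΩ => orbitSum_aemeasurable (shf μ c) hΩ hφ
    refine (lintegral_mono fun α => ca_sum h hK hM1 hM2 c α).trans ?_
    rw [lintegral_add_left' (hm1 _ _ (measurable_upW _) hKo)]
    have hAE : ∀ k, AEMeasurable (fun α => orbitSum (upW (ellk M₁ M₂ (k + 1))) (vfc (shf μ c))
          (OmB μ K c (50 * M₁ ^ 2 * lamk k) (2 * ellk M₁ M₂ k)) α +
        orbitSum (loW (ellk M₁ M₂ k)) (vfc (shf μ c))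
          (OmG μ K c (40 * M₁ ^ 2 * lamk k) (3 * M₁ * ellk M₁ M₂ k)) α)
          (volume.restrict (Set.Ioo 0 Real.pi)) := fun k =>
      (hm1 _ _ (measurable_upW _) (isOpen_OmB μ hKo c _ _)).add
        (hm1 _ _ (measurable_loW _) (isOpen_OmG μ hKo c _ _))
    rw [lintegral_tsum hAE]
    refine add_le_add ?_ (ENNReal.tsum_le_tsum fun k => ?_)
    · refine (ca_long μ h hM1.le hKo subset_rfl (ellk_pos hM1 hM2 0) c).trans ?_
      gcongr
      refine le_trans ?_ (hL1 c)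
      refine lintegral_mono_set fun z hz => ⟨hz, ?_⟩
      have h1 := hμρ z hz
      have h2 : nm (vfc μ z + c) ≤ nm (vfc μ z) + nm c := by
        unfold nm
        apply Real.sqrt_le_iff.2
        constructor
        · positivity
        · have e1 := Real.sq_sqrt (show 0 ≤ (vfc μ z).1 ^ 2 + (vfc μ z).2 ^ 2 by positivity)
          have e2 := Real.sq_sqrt (show 0 ≤ c.1 ^ 2 + c.2 ^ 2 by positivity)
          have e3 : (vfc μ z).1 * c.1 + (vfc μ z).2 * c.2 ≤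
              √((vfc μ z).1 ^ 2 + (vfc μ z).2 ^ 2) * √(c.1 ^ 2 + c.2 ^ 2) := by
            rw [← Real.sqrt_mul (by positivity)]
            apply Real.le_sqrt_of_sq_le
            nlinarith [sq_nonneg ((vfc μ z).1 * c.2 - (vfc μ z).2 * c.1)]
          simp only [Prod.fst_add, Prod.snd_add]
          nlinarith
      linarith
    · rw [lintegral_add_left' (hm1 _ _ (measurable_upW _) (isOpen_OmB μ hKo c _ _))]
      refine add_le_add ?_ ?_
      · refine (ca_long μ h hM1.le (isOpen_OmB μ hKo c _ _) (fun z hz => hz.1)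
          (ellk_pos hM1 hM2 (k + 1)) c).trans ?_
        gcongr
        exact hb1 k c
      · refine (ca_good h hK hKo hM1 hM2 c k).trans ?_
        gcongr
        exact hg1 k c
  · have hinv : ∀ a : ℝ, 0 < a → ∀ b : ℝ, 0 ≤ b → (ENNReal.ofReal a)⁻¹ * ENNReal.ofReal b =
        ENNReal.ofReal (b / a) := by
      intro a ha b hb
      rw [← ENNReal.ofReal_inv_of_pos ha, ← ENNReal.ofReal_mul (by positivity), div_eq_mul_inv,
        mul_comm]
    have hpi := Real.pi_lt_d2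
    have hpi0 := Real.pi_pos
    have hK0 : ∀ x : ℝ≥0∞, ∀ a : ℝ, 0 ≤ a → ∀ b : ℝ, 0 ≤ b → ENNReal.ofReal a * (x * ENNReal.ofReal b)
        = x * ENNReal.ofReal (a * b) := by
      intro x a ha b hb
      rw [ENNReal.ofReal_mul ha]
      ring
    have hAE : ∀ k, AEMeasurable (fun c => (ENNReal.ofReal (ellk M₁ M₂ (k + 1)))⁻¹ *
          (ENNReal.ofReal (3 * M₁) * Hb k c) + ENNReal.ofReal (4 * M₂ / lamk k ^ 2) * Hg k c)
          volume := fun k =>
      (((hbm k).const_mul _).const_mul _).aemeasurable.add ((hgm k).const_mul _).aemeasurable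
    rw [lintegral_add_left ((hLm.const_mul _).const_mul _), lintegral_tsum hAE]
    have T1 : ∫⁻ c, (ENNReal.ofReal (ellk M₁ M₂ 0))⁻¹ * (ENNReal.ofReal (3 * M₁) * HL c) ≤
        volume K * ENNReal.ofReal (60 * M₂ * ρ) := by
      rw [lintegral_const_mul _ (hLm.const_mul _), lintegral_const_mul _ hLm]
      have he : ellk M₁ M₂ 0 = M₁ / M₂ := by simp [ellk, lamk]
      calc (ENNReal.ofReal (ellk M₁ M₂ 0))⁻¹ * (ENNReal.ofReal (3 * M₁) * ∫⁻ c, HL c)
          ≤ (ENNReal.ofReal (ellk M₁ M₂ 0))⁻¹ * (ENNReal.ofReal (3 * M₁) *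
            (volume K * ENNReal.ofReal (2 * Real.pi * (3 * ρ)))) := by gcongr
        _ = volume K * ((ENNReal.ofReal (ellk M₁ M₂ 0))⁻¹ *
              ENNReal.ofReal (3 * M₁ * (2 * Real.pi * (3 * ρ)))) := by
            rw [hK0 _ _ (by positivity) _ (by positivity)]
            ring
        _ = volume K * ENNReal.ofReal (3 * M₁ * (2 * Real.pi * (3 * ρ)) / ellk M₁ M₂ 0) := by
            rw [hinv _ (ellk_pos hM1 hM2 0) _ (by positivity)]
        _ ≤ volume K * ENNReal.ofReal (60 * M₂ * ρ) := by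
            gcongr
            rw [he]
            rw [div_div_eq_mul_div, div_le_iff₀ hM1]
            have : 0 < M₁ * M₂ * ρ := by positivity
            nlinarith
    have T2 : ∀ k, ∫⁻ c, ((ENNReal.ofReal (ellk M₁ M₂ (k + 1)))⁻¹ *
          (ENNReal.ofReal (3 * M₁) * Hb k c) +
        ENNReal.ofReal (4 * M₂ / lamk k ^ 2) * Hg k c) ≤
        volume K * (ENNReal.ofReal (1465 * M₁ ^ 2 * (5 / 6) ^ k) +
          ENNReal.ofReal (76 * M₁ ^ 2 * (25 / 36) ^ k)) := by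
      intro k
      have hek := ellk_pos hM1 hM2 k
      have hek1 := ellk_pos hM1 hM2 (k + 1)
      have hlk := lamk_pos k
      have hsp := ellk_spec (M₁ := M₁) hM2 k
      rw [lintegral_add_left (((hbm k).const_mul _).const_mul _), mul_add]
      refine add_le_add ?_ ?_
      · rw [lintegral_const_mul _ ((hbm k).const_mul _), lintegral_const_mul _ (hbm k)]
        have hpos : 0 ≤ M₁ * ellk M₁ M₂ k * (2 * Real.pi * (13 * (5 / 6) ^ k) +
            1060 * lamk k / (13 * (5 / 6) ^ k)) := by positivity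
        calc (ENNReal.ofReal (ellk M₁ M₂ (k + 1)))⁻¹ * (ENNReal.ofReal (3 * M₁) * ∫⁻ c, Hb k c)
            ≤ (ENNReal.ofReal (ellk M₁ M₂ (k + 1)))⁻¹ * (ENNReal.ofReal (3 * M₁) *
              (volume K * ENNReal.ofReal (M₁ * ellk M₁ M₂ k * (2 * Real.pi * (13 * (5 / 6) ^ k) +
                1060 * lamk k / (13 * (5 / 6) ^ k))))) := by
              gcongr
              exact hb2 k
          _ = volume K * ((ENNReal.ofReal (ellk M₁ M₂ (k + 1)))⁻¹ *
                ENNReal.ofReal (3 * M₁ * (M₁ * ellk M₁ M₂ k * (2 * Real.pi * (13 * (5 / 6) ^ k) +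
                1060 * lamk k / (13 * (5 / 6) ^ k))))) := by
              rw [hK0 _ _ (by positivity) _ hpos]
              ring
          _ = volume K * ENNReal.ofReal (3 * M₁ * (M₁ * ellk M₁ M₂ k *
                (2 * Real.pi * (13 * (5 / 6) ^ k) + 1060 * lamk k / (13 * (5 / 6) ^ k))) /
                ellk M₁ M₂ (k + 1)) := by
              rw [hinv _ hek1 _ (by positivity)]
          _ ≤ volume K * ENNReal.ofReal (1465 * M₁ ^ 2 * (5 / 6) ^ k) := by
              gcongr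
              rw [div_le_iff₀ hek1, ellk_succ]
              have hl : lamk k = (5 / 6) ^ k * (5 / 6) ^ k := by
                unfold lamk
                rw [← mul_pow]
                norm_num
              have h5 : (0 : ℝ) < (5 / 6) ^ k := by positivity
              have hq : 1060 * lamk k / (13 * (5 / 6) ^ k) = 1060 / 13 * (5 / 6) ^ k := by
                rw [hl]
                field_simp
              rw [hq]
              have : 0 < M₁ ^ 2 * ellk M₁ M₂ k * (5 / 6) ^ k := by positivity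
              nlinarith
      · rw [lintegral_const_mul _ (hgm k)]
        calc ENNReal.ofReal (4 * M₂ / lamk k ^ 2) * ∫⁻ c, Hg k c
            ≤ ENNReal.ofReal (4 * M₂ / lamk k ^ 2) *
              (volume K * ENNReal.ofReal (2 * Real.pi * (3 * M₁ * ellk M₁ M₂ k))) := by
              gcongr
              exact hg2 k
          _ = volume K * ENNReal.ofReal (4 * M₂ / lamk k ^ 2 *
                (2 * Real.pi * (3 * M₁ * ellk M₁ M₂ k))) := by
              rw [hK0 _ _ (by positivity) _ (by positivity)]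
          _ ≤ volume K * ENNReal.ofReal (76 * M₁ ^ 2 * (25 / 36) ^ k) := by
              refine mul_le_mul_right (ENNReal.ofReal_le_ofReal ?_) _
              have e : 4 * M₂ / lamk k ^ 2 * (2 * Real.pi * (3 * M₁ * ellk M₁ M₂ k)) =
                  24 * Real.pi * M₁ * (M₂ * ellk M₁ M₂ k) / lamk k ^ 2 := by ring
              rw [e, hsp, div_le_iff₀ (by positivity)]
              have hl : (25 / 36 : ℝ) ^ k = lamk k := rfl
              rw [hl]
              have : 0 < M₁ ^ 2 * lamk k ^ 3 := by positivity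
              nlinarith
    refine (add_le_add T1 (ENNReal.tsum_le_tsum T2)).trans ?_
    rw [ENNReal.tsum_mul_left, ENNReal.tsum_add, ca_geom (by positivity) (by norm_num) (by norm_num),
      ca_geom (by positivity) (by norm_num) (by norm_num), ← mul_add,
      ← ENNReal.ofReal_add (by positivity) (by positivity),
      ← ENNReal.ofReal_add (by positivity) (by positivity)]
    refine mul_le_mul_right (ENNReal.ofReal_le_ofReal ?_) _
    have : 0 < M₁ ^ 2 := by positivity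
    have h1 : 1465 * M₁ ^ 2 / (1 - 5 / 6) = 8790 * M₁ ^ 2 := by ring
    have h2 : 76 * M₁ ^ 2 / (1 - 25 / 36) = 2736 / 11 * M₁ ^ 2 := by ring
    rw [h1, h2]
    nlinarith

end Pool.Agent.Lib.MP_95e7ec_an
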