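import Mathlib
import Pool.Agent.Lib.MP_95e7ec_an.AvgDefs
import Pool.Agent.Lib.MP_95e7ec_an.AvgBasic
import Pool.Agent.Lib.MP_95e7ec_an.Orbits
import Pool.Agent.Lib.MP_95e7ec_an.Hull
import Pool.Agent.Lib.MP_95e7ec_an.Scale
import Pool.Agent.Lib.MP_60829e_nt.Bezout

/-!
# The convex hull of a closed orbit of a polynomial field contains one of at most `n²` points
-/

set_option autoImplicit false

open Set Filter Topology MeasureTheory
open scoped ContDiff ENNReal

namespace Pool.Agent.Lib.MP_95e7ec_an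

theorem contDiff_eval (P : MvPolynomial (Fin 2) ℝ) {k : WithTop ℕ∞} :
    ContDiff ℝ k fun z : ℝ × ℝ => MvPolynomial.eval ![z.1, z.2] P := by
  induction P using MvPolynomial.induction_on with
  | C a => simpa using contDiff_const
  | add p q hp hq => simpa using hp.add hq
  | mul_X p i hp =>
    simp only [map_mul, MvPolynomial.eval_X]
    refine hp.mul ?_
    fin_cases i
    · exact contDiff_fst
    · exact contDiff_snd

theorem contDiff_vf (P Q : MvPolynomial (Fin 2) ℝ) {k : WithTop ℕ∞} : ContDiff ℝ k (vf P Q) :=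
  (contDiff_eval P).prodMk (contDiff_eval Q)

theorem turn_smul_field {g : ℝ × ℝ → ℝ} {Y v : ℝ × ℝ → ℝ × ℝ} (h : ∀ z, v z = g z • Y z) (α : ℝ) :
    turn α v = fun z => g z • turn α Y z := by
  funext z
  unfold turn
  rw [h z]
  ext
  · simp only [Prod.smul_fst, Prod.smul_snd, smul_eq_mul]
    ring
  · simp only [Prod.smul_fst, Prod.smul_snd, smul_eq_mul]
    ring

/-- a closed orbit of `g Y` has a zero of `Y` in its convex hull -/
theorem exists_zero_in_hull_of_smul {g : ℝ × ℝ → ℝ} {Y v : ℝ × ℝ → ℝ × ℝ} (hg : Continuous g)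
    (hv : ContDiff ℝ 1 v) (hY : ContDiff ℝ 1 Y) (h : ∀ z, v z = g z • Y z) {C : Set (ℝ × ℝ)}
    (hC : IsClosedOrbit v C) : ∃ z ∈ convexHull ℝ C, Y z = 0 := by
  have hne : ∀ z ∈ C, g z ≠ 0 := by
    intro z hz h0
    apply hC.ne_zero_of_contDiff hv hz
    rw [h z, h0, zero_smul]
  have hconn : IsPreconnected C := by
    obtain ⟨γ, T, hT, hγ, hper, -, rfl⟩ := hC
    exact isPreconnected_range (continuous_iff_continuousAt.2 fun t => (hγ t).continuousAt)
  have hsign : (∀ z ∈ C, 0 < g z) ∨ ∀ z ∈ C, g z < 0 := by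
    by_contra hcon
    push Not at hcon
    obtain ⟨⟨a, ha, hga⟩, b, hb, hgb⟩ := hcon
    obtain ⟨c, hc, hgc⟩ := hconn.intermediate_value ha hb hg.continuousOn ⟨hga, hgb⟩
    exact hne c hc hgc
  rcases hsign with hpos | hneg
  · have hv' : v = fun z => g z • Y z := funext h
    rw [hv'] at hC
    exact exists_zero_in_hull hY (hC.of_smul hg hpos)
  · have hv' : v = fun z => (-g z) • (-Y z) := by
      funext z
      rw [h z, smul_neg, neg_smul, neg_neg]
    rw [hv'] at hC
    obtain ⟨z, hz, h0⟩ := exists_zero_in_hull (v := fun z => -Y z) hY.neg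
      (IsClosedOrbit.of_smul (Y := fun z => -Y z) (g := fun z => -g z) hg.neg hC
        fun z hz => by linarith [hneg z hz])
    exact ⟨z, hz, neg_eq_zero.1 h0⟩

/-- the common zeros of two relatively prime polynomials -/
theorem exists_finset_zeros (P Q : MvPolynomial (Fin 2) ℝ) (h : IsRelPrime P Q) {n : ℕ}
    (hP : P.totalDegree ≤ n) (hQ : Q.totalDegree ≤ n) :
    ∃ Z : Finset (ℝ × ℝ), Z.card ≤ n ^ 2 ∧ ∀ z : ℝ × ℝ, vf P Q z = 0 ↔ z ∈ Z := by
  classical
  set emb : ℝ × ℝ ↪ (Fin 2 → ℝ) := ⟨fun z => ![z.1, z.2], by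
    intro z w hzw
    have h0 := congrFun hzw 0
    have h1 := congrFun hzw 1
    simp only [Matrix.cons_val_zero, Matrix.cons_val_one] at h0 h1
    exact Prod.ext h0 h1⟩ with hemb
  have hbound : ∀ s : Finset (ℝ × ℝ), (∀ z ∈ s, vf P Q z = 0) → s.card ≤ n ^ 2 := by
    intro s hs
    have h1 := MP60829e.bezout P Q h (s.map emb) (by
      intro x hx
      rw [Finset.mem_map] at hx
      obtain ⟨z, hz, rfl⟩ := hx
      have := hs z hz
      exact ⟨congrArg Prod.fst this, congrArg Prod.snd this⟩)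
    rw [Finset.card_map] at h1
    calc s.card ≤ P.totalDegree * Q.totalDegree := h1
      _ ≤ n * n := Nat.mul_le_mul hP hQ
      _ = n ^ 2 := by ring
  have hfin : {z : ℝ × ℝ | vf P Q z = 0}.Finite := by
    by_contra hinf
    obtain ⟨s, hs, hcard⟩ := (Set.Infinite.exists_subset_card_eq hinf (n ^ 2 + 1))
    have := hbound s fun z hz => hs hz
    omega
  refine ⟨hfin.toFinset, hbound _ fun z hz => ?_, fun z => ?_⟩
  · exact (hfin.mem_toFinset.1 hz)
  · exact hfin.mem_toFinset.symm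

/-- For every planar polynomial system of degree at most `n` there are at most `n²` zeros of the
system such that the convex hull of each closed orbit of each turned field contains one of
them. -/
theorem exists_hull_points (P Q : MvPolynomial (Fin 2) ℝ) {n : ℕ}
    (hP : P.totalDegree ≤ n) (hQ : Q.totalDegree ≤ n) (hPQ : P ≠ 0 ∨ Q ≠ 0) :
    ∃ Z : Finset (ℝ × ℝ), Z.card ≤ n ^ 2 ∧ (∀ z ∈ Z, vf P Q z = 0) ∧
      ∀ (α : ℝ) (C : Set (ℝ × ℝ)), IsClosedOrbit (turn α (vf P Q)) C →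
        ∃ z ∈ Z, z ∈ convexHull ℝ C := by
  classical
  let _ : NormalizedGCDMonoid (MvPolynomial (Fin 2) ℝ) :=
    Nonempty.some inferInstance
  obtain ⟨P₁, Q₁, hP₁, hQ₁, hu⟩ := extract_gcd P Q
  set g := gcd P Q with hg
  have hg0 : g ≠ 0 := by
    intro h0
    rw [hg, gcd_eq_zero_iff] at h0
    rcases hPQ with h | h
    · exact h h0.1
    · exact h h0.2
  have hrel : IsRelPrime P₁ Q₁ := gcd_isUnit_iff_isRelPrime.1 hu
  have hdeg : ∀ (A B : MvPolynomial (Fin 2) ℝ), A = g * B → A.totalDegree ≤ n →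
      B.totalDegree ≤ n := by
    intro A B hAB hA
    rcases eq_or_ne B 0 with h0 | h0
    · simp [h0]
    · have := MvPolynomial.totalDegree_mul_of_isDomain hg0 h0
      rw [← hAB] at this
      omega
  obtain ⟨Z, hZ, hZ0⟩ := exists_finset_zeros P₁ Q₁ hrel (hdeg P P₁ hP₁ hP) (hdeg Q Q₁ hQ₁ hQ)
  have hsm : ∀ z, vf P Q z = (MvPolynomial.eval ![z.1, z.2] g) • vf P₁ Q₁ z := by
    intro z
    unfold vf
    conv_lhs => rw [hP₁, hQ₁]
    simp only [map_mul, Prod.smul_mk, smul_eq_mul]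
  refine ⟨Z, hZ, fun z hz => ?_, fun α C hC => ?_⟩
  · rw [hsm, (hZ0 z).2 hz, smul_zero]
  · obtain ⟨z, hz, h0⟩ := exists_zero_in_hull_of_smul
      (g := fun z : ℝ × ℝ => MvPolynomial.eval ![z.1, z.2] g)
      (Y := turn α (vf P₁ Q₁)) (v := turn α (vf P Q)) (contDiff_eval g (k := 0)).continuous
      (contDiff_turn (contDiff_vf P Q) α) (contDiff_turn (contDiff_vf P₁ Q₁) α)
      (fun z => congrFun (turn_smul_field hsm α) z) hC
    exact ⟨z, (hZ0 z).1 (turn_eq_zero.1 h0), hz⟩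

end Pool.Agent.Lib.MP_95e7ec_an
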