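import Mathlib
import Pool.Agent.Lib.MP_95e7ec_an.Defs
import Pool.Agent.Lib.MP_95e7ec_an.AvgDefs
import Pool.Agent.Lib.MP_95e7ec_an.Arr
import Pool.Agent.Lib.MP_95e7ec_an.Assemble
import Pool.Agent.Lib.MP_95e7ec_an.SquareTV
import Pool.Agent.Lib.MP_95e7ec_an.Zeros

/-!
# The averaged number of closed orbits with length in a given interval
-/

set_option autoImplicit false

open Set Filter Topology MeasureTheory
open scoped ContDiff ENNReal

namespace Pool.Agent.Lib.MP_95e7ec_an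

/-- the closed orbits of `v` contained in `Ω` with length in `[a, b]` -/
def lenSet (v : ℝ × ℝ → ℝ × ℝ) (Ω : Set (ℝ × ℝ)) (a b : ℝ≥0∞) : Set (Set (ℝ × ℝ)) :=
  {C | (IsClosedOrbit v C ∧ C ⊆ Ω) ∧ orbitLength v C ∈ Set.Icc a b}

/-- the open disc -/
def disc (z0 : ℝ × ℝ) (ρ : ℝ) : Set (ℝ × ℝ) :=
  {z : ℝ × ℝ | (z.1 - z0.1) ^ 2 + (z.2 - z0.2) ^ 2 < ρ ^ 2}

theorem isOpen_disc (z0 : ℝ × ℝ) (ρ : ℝ) : IsOpen (disc z0 ρ) :=
  isOpen_lt (by fun_prop) (by fun_prop)

theorem disc_subset_square (z0 : ℝ × ℝ) {ρ : ℝ} (hρ : 0 ≤ ρ) :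
    disc z0 ρ ⊆ Set.Ioo (z0.1 - ρ) (z0.1 + ρ) ×ˢ Set.Ioo (z0.2 - ρ) (z0.2 + ρ) := by
  rintro ⟨x, y⟩ hz
  simp only [disc, Set.mem_ofPred_eq] at hz
  have hx : |x - z0.1| < ρ := abs_lt_of_sq_lt_sq (by nlinarith [sq_nonneg (y - z0.2)]) hρ
  have hy : |y - z0.2| < ρ := abs_lt_of_sq_lt_sq (by nlinarith [sq_nonneg (x - z0.1)]) hρ
  rw [abs_lt] at hx hy
  simp only [Set.mem_prod, Set.mem_Ioo]
  constructor <;> constructor <;> linarith

theorem mem_disc_of_nm_lt {z0 z : ℝ × ℝ} {ρ : ℝ} (h : nm (z - z0) < ρ) : z ∈ disc z0 ρ := by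
  have h0 : 0 ≤ nm (z - z0) := Real.sqrt_nonneg _
  have h1 := nm_sq (z - z0)
  simp only [Prod.fst_sub, Prod.snd_sub] at h1
  simp only [disc, Set.mem_ofPred_eq]
  nlinarith

theorem encard_le_sum_of_subset {ι β : Type*} (Z : Finset ι) (S : Set β) (T : ι → Set β)
    (h : S ⊆ ⋃ z ∈ Z, T z) : (S.encard : ℝ≥0∞) ≤ ∑ z ∈ Z, ((T z).encard : ℝ≥0∞) := by
  classical
  have h1 : ∀ Z : Finset ι, ((⋃ z ∈ Z, T z).encard : ℝ≥0∞) ≤ ∑ z ∈ Z, ((T z).encard : ℝ≥0∞) := by
    intro Z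
    induction Z using Finset.induction_on with
    | empty => simp
    | insert a s ha ih =>
      rw [Finset.set_biUnion_insert, Finset.sum_insert ha]
      calc ((T a ∪ ⋃ z ∈ s, T z).encard : ℝ≥0∞)
          ≤ (((T a).encard + (⋃ z ∈ s, T z).encard : ℕ∞) : ℝ≥0∞) :=
            ENat.toENNReal_le.2 (Set.encard_union_le _ _)
        _ = ((T a).encard : ℝ≥0∞) + ((⋃ z ∈ s, T z).encard : ℝ≥0∞) := ENat.toENNReal_add _ _
        _ ≤ _ := add_le_add le_rfl ih
  exact (ENat.toENNReal_le.2 (Set.encard_le_encard h)).trans (h1 Z)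

theorem orbitSum_lenSet (v : ℝ × ℝ → ℝ × ℝ) (Ω : Set (ℝ × ℝ)) (a b : ℝ≥0∞) (α : ℝ) :
    orbitSum ((Set.Icc a b).indicator 1) v Ω α = ((lenSet (turn α v) Ω a b).encard : ℝ≥0∞) := by
  classical
  rw [orbitSum, ← ENNReal.tsum_set_one]
  refine (tsum_subtype {C | IsClosedOrbit (turn α v) C ∧ C ⊆ Ω}
    (fun C => (Set.Icc a b).indicator 1 (orbitLength (turn α v) C))).trans
    (Eq.trans ?_ (tsum_subtype (lenSet (turn α v) Ω a b) (fun _ => (1 : ℝ≥0∞))).symm)
  apply tsum_congr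
  intro C
  unfold lenSet
  by_cases h1 : IsClosedOrbit (turn α v) C ∧ C ⊆ Ω
  · by_cases h2 : orbitLength (turn α v) C ∈ Set.Icc a b
    · rw [Set.indicator_of_mem (show C ∈ {C | IsClosedOrbit (turn α v) C ∧ C ⊆ Ω} from h1),
        Set.indicator_of_mem h2, Set.indicator_of_mem (show C ∈ {C | (IsClosedOrbit (turn α v) C ∧
          C ⊆ Ω) ∧ orbitLength (turn α v) C ∈ Set.Icc a b} from ⟨h1, h2⟩)]
      rfl
    · rw [Set.indicator_of_mem (show C ∈ {C | IsClosedOrbit (turn α v) C ∧ C ⊆ Ω} from h1),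
        Set.indicator_of_notMem h2, Set.indicator_of_notMem (fun h => h2 h.2)]
  · have e1 : C ∉ {C | IsClosedOrbit (turn α v) C ∧ C ⊆ Ω} := h1
    have e2 : C ∉ {C | (IsClosedOrbit (turn α v) C ∧ C ⊆ Ω) ∧
        orbitLength (turn α v) C ∈ Set.Icc a b} := fun h => h1 h.1
    rw [Set.indicator_of_notMem e1, Set.indicator_of_notMem e2]

theorem lenSet_aemeasurable {n : ℕ} (μ : Pr n) {Ω : Set (ℝ × ℝ)} (hΩ : IsOpen Ω) (a b : ℝ≥0∞) :
    AEMeasurable (fun α => ((lenSet (turn α (vfc μ)) Ω a b).encard : ℝ≥0∞))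
      (volume.restrict (Set.Ioo 0 Real.pi)) := by
  have hm : Measurable ((Set.Icc a b).indicator (1 : ℝ≥0∞ → ℝ≥0∞)) :=
    measurable_one.indicator measurableSet_Icc
  have h := orbitSum_aemeasurable μ hΩ hm
  have h2 : (orbitSum ((Set.Icc a b).indicator 1) (vfc μ) Ω) =
      fun α => ((lenSet (turn α (vfc μ)) Ω a b).encard : ℝ≥0∞) := by
    funext α
    exact orbitSum_lenSet _ _ _ _ _
  rw [← h2]
  exact h

/-- the averaged number of closed orbits in a disc, of length at least `ℓ` -/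
theorem local_count {n : ℕ} (μ : Pr n) (z0 : ℝ × ℝ) {ρ ℓ : ℝ} (hρ : 0 ≤ ρ) (hℓ : 0 < ℓ)
    (b : ℝ≥0∞) :
    ∫⁻ α in Set.Ioo 0 Real.pi,
      ((lenSet (turn α (vfc μ)) (disc z0 ρ) (ENNReal.ofReal ℓ) b).encard : ℝ≥0∞) ≤
      ENNReal.ofReal (4 * Real.pi * n * ρ / ℓ) := by
  have hℓ0 : ENNReal.ofReal ℓ ≠ 0 := (ENNReal.ofReal_pos.2 hℓ).ne'
  have h1 : ∀ α, ENNReal.ofReal ℓ *
      ((lenSet (turn α (vfc μ)) (disc z0 ρ) (ENNReal.ofReal ℓ) b).encard : ℝ≥0∞) ≤
      totalLength (vfc μ) (disc z0 ρ) α := by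
    intro α
    rw [← orbitSum_lenSet, orbitSum, totalLength, ← ENNReal.tsum_mul_left]
    apply ENNReal.tsum_le_tsum
    intro C
    by_cases h2 : orbitLength (turn α (vfc μ)) C ∈ Set.Icc (ENNReal.ofReal ℓ) b
    · rw [Set.indicator_of_mem h2]
      simpa using h2.1
    · rw [Set.indicator_of_notMem h2]
      simp
  have h2 : ENNReal.ofReal ℓ * ∫⁻ α in Set.Ioo 0 Real.pi,
      ((lenSet (turn α (vfc μ)) (disc z0 ρ) (ENNReal.ofReal ℓ) b).encard : ℝ≥0∞) ≤
      ENNReal.ofReal (4 * Real.pi * n * ρ) := by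
    rw [← lintegral_const_mul' _ _ ENNReal.ofReal_ne_top]
    exact (lintegral_mono h1).trans ((averaged_meas μ (isOpen_disc z0 ρ)).2.trans
      (lintegral_square μ hρ (disc_subset_square z0 hρ)))
  rw [ENNReal.ofReal_div_of_pos hℓ, ENNReal.le_div_iff_mul_le (Or.inl hℓ0)
    (Or.inl ENNReal.ofReal_ne_top), mul_comm]
  exact h2

theorem vf_eq_vfc {n : ℕ} {P Q : MvPolynomial (Fin 2) ℝ} (hP : P.totalDegree ≤ n)
    (hQ : Q.totalDegree ≤ n) : vf P Q = vfc (arr n P, arr n Q) := by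
  funext z
  unfold vf vfc
  rw [eval_eq_pe P hP, eval_eq_pe Q hQ]

/-- a closed orbit with a point `z` in its convex hull lies in each disc with centre `z` and radius
larger than half of the length -/
theorem subset_disc_of_hull {v : ℝ × ℝ → ℝ × ℝ} (hv : Continuous v) {C : Set (ℝ × ℝ)} {b ρ : ℝ}
    (hb : 0 ≤ b) (hρ : b / 2 < ρ) (hL : orbitLength v C ≤ ENNReal.ofReal b) {z : ℝ × ℝ}
    (hz : z ∈ convexHull ℝ C) : C ⊆ disc z ρ := by
  intro p hp
  apply mem_disc_of_nm_lt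
  refine lt_of_le_of_lt ?_ hρ
  refine nm_le_of_mem_hull (fun q hq => ?_) (by linarith) hz
  have h1 := (two_nm_le_orbitLength hv hp hq).trans hL
  rw [ENNReal.ofReal_le_ofReal_iff hb] at h1
  linarith

/-- the averaged number of closed orbits with length in `[ℓ, b]` -/
theorem count_scale {n : ℕ} (P Q : MvPolynomial (Fin 2) ℝ) (hP : P.totalDegree ≤ n)
    (hQ : Q.totalDegree ≤ n) {ℓ b : ℝ} (hℓ : 0 < ℓ) (hb : 0 ≤ b) :
    ∫⁻ α in Set.Ioo 0 Real.pi, ((lenSet (turn α (vf P Q)) Set.univ (ENNReal.ofReal ℓ)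
      (ENNReal.ofReal b)).encard : ℝ≥0∞) ≤ ENNReal.ofReal (2 * Real.pi * n ^ 3 * b / ℓ) := by
  have hpi := Real.pi_pos
  by_cases h0 : P ≠ 0 ∨ Q ≠ 0
  · obtain ⟨Z, hZ, -, hhull⟩ := exists_hull_points P Q hP hQ h0
    have key : ∀ ρ : ℝ, b / 2 < ρ → ∫⁻ α in Set.Ioo 0 Real.pi,
        ((lenSet (turn α (vf P Q)) Set.univ (ENNReal.ofReal ℓ) (ENNReal.ofReal b)).encard : ℝ≥0∞) ≤
        ENNReal.ofReal (4 * Real.pi * n ^ 3 * ρ / ℓ) := by
      intro ρ hρ
      have hρ0 : 0 ≤ ρ := by linarith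
      calc ∫⁻ α in Set.Ioo 0 Real.pi,
            ((lenSet (turn α (vf P Q)) Set.univ (ENNReal.ofReal ℓ) (ENNReal.ofReal b)).encard :
              ℝ≥0∞)
          ≤ ∫⁻ α in Set.Ioo 0 Real.pi, ∑ z ∈ Z,
            ((lenSet (turn α (vf P Q)) (disc z ρ) (ENNReal.ofReal ℓ)
              (ENNReal.ofReal b)).encard : ℝ≥0∞) := by
            apply lintegral_mono
            intro α
            apply encard_le_sum_of_subset
            rintro C ⟨⟨hC, -⟩, hL⟩
            obtain ⟨z, hzZ, hz⟩ := hhull α C hC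
            refine mem_iUnion₂.2 ⟨z, hzZ, ⟨hC, ?_⟩, hL⟩
            exact subset_disc_of_hull (contDiff_turn (contDiff_vf P Q (k := 0)) α).continuous hb hρ
              hL.2 hz
        _ = ∑ z ∈ Z, ∫⁻ α in Set.Ioo 0 Real.pi,
            ((lenSet (turn α (vf P Q)) (disc z ρ) (ENNReal.ofReal ℓ)
              (ENNReal.ofReal b)).encard : ℝ≥0∞) := by
            apply lintegral_finsetSum'
            intro z _
            rw [vf_eq_vfc hP hQ]
            exact lenSet_aemeasurable _ (isOpen_disc z ρ) _ _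
        _ ≤ ∑ z ∈ Z, ENNReal.ofReal (4 * Real.pi * n * ρ / ℓ) := by
            apply Finset.sum_le_sum
            intro z _
            rw [vf_eq_vfc hP hQ]
            exact local_count _ z hρ0 hℓ _
        _ = Z.card * ENNReal.ofReal (4 * Real.pi * n * ρ / ℓ) := by
            rw [Finset.sum_const, nsmul_eq_mul]
        _ ≤ ENNReal.ofReal (n ^ 2) * ENNReal.ofReal (4 * Real.pi * n * ρ / ℓ) := by
            gcongr
            rw [← ENNReal.ofReal_natCast Z.card]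
            apply ENNReal.ofReal_le_ofReal
            exact_mod_cast hZ
        _ = ENNReal.ofReal (4 * Real.pi * n ^ 3 * ρ / ℓ) := by
            rw [← ENNReal.ofReal_mul (by positivity)]
            congr 1
            ring
    have hlim : Tendsto (fun ρ : ℝ => ENNReal.ofReal (4 * Real.pi * n ^ 3 * ρ / ℓ))
        (𝓝[>] (b / 2)) (𝓝 (ENNReal.ofReal (4 * Real.pi * n ^ 3 * (b / 2) / ℓ))) := by
      apply Tendsto.mono_left _ nhdsWithin_le_nhds
      apply Continuous.tendsto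
      exact ENNReal.continuous_ofReal.comp (by fun_prop)
    have h2 := ge_of_tendsto hlim (eventually_nhdsWithin_of_forall fun ρ hρ => key ρ hρ)
    refine h2.trans (ENNReal.ofReal_le_ofReal (le_of_eq ?_))
    ring
  · push Not at h0
    obtain ⟨rfl, rfl⟩ := h0
    have hem : ∀ α, lenSet (turn α (vf 0 0)) Set.univ (ENNReal.ofReal ℓ) (ENNReal.ofReal b) = ∅ := by
      intro α
      rw [Set.eq_empty_iff_forall_notMem]
      rintro C ⟨⟨hC, -⟩, -⟩
      obtain ⟨p, hp⟩ := hC.nonempty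
      apply hC.ne_zero_of_contDiff (contDiff_turn (contDiff_vf 0 0) α) hp
      rw [turn_eq_zero]
      simp [vf]
    simp [hem]

/-- the averaged number of closed orbits with length in `[r, R]` -/
theorem count_all_scales {n : ℕ} (P Q : MvPolynomial (Fin 2) ℝ) (hP : P.totalDegree ≤ n)
    (hQ : Q.totalDegree ≤ n) {r R : ℝ} (hr : 0 < r) (hR : r ≤ R) :
    ∫⁻ α in Set.Ioo 0 Real.pi, ((lenSet (turn α (vf P Q)) Set.univ (ENNReal.ofReal r)
      (ENNReal.ofReal R)).encard : ℝ≥0∞) ≤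
      ENNReal.ofReal (4 * Real.pi * n ^ 3 * (1 + Real.logb 2 (R / r))) := by
  have hpi := Real.pi_pos
  set K : ℕ := ⌊Real.logb 2 (R / r)⌋₊ with hK
  have hRr : 1 ≤ R / r := (one_le_div hr).2 hR
  have hlog : 0 ≤ Real.logb 2 (R / r) := Real.logb_nonneg (by norm_num) hRr
  have hKle : (K : ℝ) ≤ Real.logb 2 (R / r) := Nat.floor_le hlog
  have hKlt : Real.logb 2 (R / r) < K + 1 := Nat.lt_floor_add_one _
  have hR2 : R ≤ 2 ^ (K + 1) * r := by
    have h1 : R / r < 2 ^ (((K + 1 : ℕ)) : ℝ) := by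
      rw [← Real.logb_lt_iff_lt_rpow (by norm_num) (by positivity)]
      push_cast
      exact hKlt
    rw [Real.rpow_natCast, div_lt_iff₀ hr] at h1
    exact h1.le
  have hsub : ∀ α, lenSet (turn α (vf P Q)) Set.univ (ENNReal.ofReal r) (ENNReal.ofReal R) ⊆
      ⋃ k ∈ Finset.range (K + 1), lenSet (turn α (vf P Q)) Set.univ
        (ENNReal.ofReal (2 ^ k * r)) (ENNReal.ofReal (2 * (2 ^ k * r))) := by
    intro α C hC
    obtain ⟨hC1, hC2, hC3⟩ := hC
    have hC4 : orbitLength (turn α (vf P Q)) C ≤ ENNReal.ofReal (2 ^ (K + 1) * r) :=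
      hC3.trans (ENNReal.ofReal_le_ofReal hR2)
    clear hC3 hR2 hKlt hKle
    generalize K = m at hC4 ⊢
    induction m with
    | zero =>
      refine mem_iUnion₂.2 ⟨0, by simp, hC1, ?_, ?_⟩
      · simpa using hC2
      · simpa using hC4
    | succ m ih =>
      rcases le_total (orbitLength (turn α (vf P Q)) C) (ENNReal.ofReal (2 ^ (m + 1) * r))
        with h | h
      · obtain ⟨k, hk, hk2⟩ := mem_iUnion₂.1 (ih h)
        refine mem_iUnion₂.2 ⟨k, ?_, hk2⟩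
        rw [Finset.mem_range] at hk ⊢
        omega
      · refine mem_iUnion₂.2 ⟨m + 1, by simp, hC1, h, ?_⟩
        refine hC4.trans (ENNReal.ofReal_le_ofReal (le_of_eq ?_))
        ring
  calc ∫⁻ α in Set.Ioo 0 Real.pi, ((lenSet (turn α (vf P Q)) Set.univ (ENNReal.ofReal r)
          (ENNReal.ofReal R)).encard : ℝ≥0∞)
      ≤ ∫⁻ α in Set.Ioo 0 Real.pi, ∑ k ∈ Finset.range (K + 1),
          ((lenSet (turn α (vf P Q)) Set.univ (ENNReal.ofReal (2 ^ k * r))
            (ENNReal.ofReal (2 * (2 ^ k * r)))).encard : ℝ≥0∞) :=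
        lintegral_mono fun α => encard_le_sum_of_subset _ _ _ (hsub α)
    _ = ∑ k ∈ Finset.range (K + 1), ∫⁻ α in Set.Ioo 0 Real.pi,
          ((lenSet (turn α (vf P Q)) Set.univ (ENNReal.ofReal (2 ^ k * r))
            (ENNReal.ofReal (2 * (2 ^ k * r)))).encard : ℝ≥0∞) := by
        apply lintegral_finsetSum'
        intro k _
        rw [vf_eq_vfc hP hQ]
        exact lenSet_aemeasurable _ isOpen_univ _ _
    _ ≤ ∑ k ∈ Finset.range (K + 1), ENNReal.ofReal (4 * Real.pi * n ^ 3) := by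
        apply Finset.sum_le_sum
        intro k _
        have hpos : (0 : ℝ) < 2 ^ k * r := by positivity
        refine (count_scale P Q hP hQ hpos (by positivity)).trans
          (ENNReal.ofReal_le_ofReal (le_of_eq ?_))
        field_simp
        ring
    _ = ENNReal.ofReal ((K + 1 : ℕ) * (4 * Real.pi * n ^ 3)) := by
        rw [Finset.sum_const, Finset.card_range, nsmul_eq_mul,
          ← ENNReal.ofReal_natCast (K + 1), ← ENNReal.ofReal_mul (by positivity)]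
    _ ≤ ENNReal.ofReal (4 * Real.pi * n ^ 3 * (1 + Real.logb 2 (R / r))) := by
        apply ENNReal.ofReal_le_ofReal
        push_cast
        have : (0 : ℝ) ≤ 4 * Real.pi * n ^ 3 := by positivity
        nlinarith

end Pool.Agent.Lib.MP_95e7ec_an
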