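import Mathlib
import Pool.Agent.Lib.MP_95e7ec_an.CountAll
import Pool.Agent.Lib.MP_95e7ec_an.ScaleMain

/-!
# The mean number of closed orbits in the whole plane: definitions
-/

set_option autoImplicit false

open Set Filter Topology MeasureTheory
open scoped ContDiff ENNReal

namespace Pool.Agent.Lib.MP_95e7ec_an

/-- `√(1+|z|²)` -/
noncomputable def sq1 (z : ℝ × ℝ) : ℝ := Real.sqrt (1 + (z.1 ^ 2 + z.2 ^ 2))

/-- the polynomial `(1+x²+y²)^m` -/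
noncomputable def wPoly (m : ℕ) : MvPolynomial (Fin 2) ℝ :=
  (1 + MvPolynomial.X 0 ^ 2 + MvPolynomial.X 1 ^ 2) ^ m

/-- the array of the field `X + c W`, where `W` is the polynomial with array `wt` -/
noncomputable def sw {D : ℕ} (μ : Pr D) (wt : Co D) (c : ℝ × ℝ) : Pr D :=
  (μ.1 + c.1 • wt, μ.2 + c.2 • wt)

/-- the sum of a functional over the closed orbits in `Ω` of the turned field -/
noncomputable def setSum (f : Set (ℝ × ℝ) → ℝ≥0∞) (v : ℝ × ℝ → ℝ × ℝ) (Ω : Set (ℝ × ℝ))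
    (α : ℝ) : ℝ≥0∞ :=
  ∑' C : {C : Set (ℝ × ℝ) // IsClosedOrbit (turn α v) C ∧ C ⊆ Ω}, f C

open scoped Classical in
/-- the indicator of the sets which meet both `|z| ≤ R` and `|z| ≥ 2R` -/
noncomputable def crossInd (R : ℝ) (C : Set (ℝ × ℝ)) : ℝ≥0∞ :=
  if (∃ z ∈ C, nm z ≤ R) ∧ ∃ z ∈ C, 2 * R ≤ nm z then 1 else 0

/-- the cut-off function `(4R² - |z|²)₊² / (16 R⁴)` -/
noncomputable def cutF (R : ℝ) (z : ℝ × ℝ) : ℝ :=
  (max 0 (4 * R ^ 2 - (z.1 ^ 2 + z.2 ^ 2))) ^ 2 / (16 * R ^ 4)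

/-- its partial derivatives -/
noncomputable def cutX (R : ℝ) (z : ℝ × ℝ) : ℝ :=
  -(4 * z.1 * max 0 (4 * R ^ 2 - (z.1 ^ 2 + z.2 ^ 2))) / (16 * R ^ 4)

noncomputable def cutY (R : ℝ) (z : ℝ × ℝ) : ℝ :=
  -(4 * z.2 * max 0 (4 * R ^ 2 - (z.1 ^ 2 + z.2 ^ 2))) / (16 * R ^ 4)

/-- the radius of the cells of the annulus number `k` -/
noncomputable def cellR (n k : ℕ) : ℝ := 2 ^ k / (8 * n)

/-- the centres of the cells -/
noncomputable def cellC (n k : ℕ) (i : ℤ × ℤ) : ℝ × ℝ :=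
  (i.1 * (cellR n k / 2), i.2 * (cellR n k / 2))

open scoped Classical in
/-- the cells of the annulus number `k` -/
noncomputable def cells (n k : ℕ) : Finset (ℤ × ℤ) :=
  (Finset.Icc (-(16 * n : ℤ)) (16 * n) ×ˢ Finset.Icc (-(16 * n : ℤ)) (16 * n)).filter
    fun i => k = 0 ∨ 2 ^ k / 4 ≤ nm (cellC n k i)

/-- bound of the second derivatives on a cell -/
noncomputable def cellM2 (n : ℕ) (ρ : ℝ) (k : ℕ) (i : ℤ × ℤ) : ℝ :=
  768 * n ^ 2 * (ρ * sq1 (cellC n k i) ^ n) / 4 ^ k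

/-- bound of the first derivatives on a cell -/
noncomputable def cellM1 (n : ℕ) (ρ : ℝ) (k : ℕ) (i : ℤ × ℤ) : ℝ :=
  48 * n * (ρ * sq1 (cellC n k i) ^ n) / 2 ^ k

/-- the relative scales -/
noncomputable def tsc (n j : ℕ) : ℝ := lamk j ^ 3 / (16 * n)

/-- the closed orbits in the annulus number `k` with length in `(a, b]` -/
def annSet (v : ℝ × ℝ → ℝ × ℝ) (k : ℕ) (a b : ℝ≥0∞) : Set (Set (ℝ × ℝ)) :=
  {C | IsClosedOrbit v C ∧ C ⊆ disc 0 (2 ^ k) ∧ (k = 0 ∨ ∃ z ∈ C, (2 : ℝ) ^ k / 2 ≤ nm z) ∧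
    a < orbitLength v C ∧ orbitLength v C ≤ b}

end Pool.Agent.Lib.MP_95e7ec_an
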