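import Mathlib
import Pool.Agent.Lib.MP_95e7ec_an.PlaneDefs
import Pool.Agent.Lib.MP_95e7ec_an.ShiftAvg

/-!
# Averaging over the weighted translations of the field, the weight is positive only locally
-/

set_option autoImplicit false

open Set Filter Topology MeasureTheory
open scoped ContDiff ENNReal

namespace Pool.Agent.Lib.MP_95e7ec_an

variable {D : ℕ}

private theorem ak_continuous_vfc (μ : Pr D) : Continuous (vfc μ) :=
  (avb_continuous_pe μ.1).prodMk (avb_continuous_pe μ.2)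

private theorem ak_measurable_inv : Measurable fun u : ℝ × ℝ => (ENNReal.ofReal (nm u))⁻¹ :=
  (ENNReal.measurable_ofReal.comp continuous_nm.measurable).inv

private theorem ak_vfc_sw (μ : Pr D) (wt : Co D) (c z : ℝ × ℝ) :
    vfc (sw μ wt c) z = vfc μ z + pe wt z.1 z.2 • c := by
  unfold vfc sw
  ext
  · simp [avb_pe_add, avb_pe_smul, mul_comm]
  · simp [avb_pe_add, avb_pe_smul, mul_comm]

private theorem ak_pex1 (μ : Pr D) (wt : Co D) (c : ℝ × ℝ) (x y : ℝ) :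
    pex (sw μ wt c).1 x y = pex μ.1 x y + c.1 * pex wt x y := by
  simp [sw, avb_pex_add, avb_pex_smul]

private theorem ak_pey1 (μ : Pr D) (wt : Co D) (c : ℝ × ℝ) (x y : ℝ) :
    pey (sw μ wt c).1 x y = pey μ.1 x y + c.1 * pey wt x y := by
  simp [sw, avb_pey_add, avb_pey_smul]

private theorem ak_pex2 (μ : Pr D) (wt : Co D) (c : ℝ × ℝ) (x y : ℝ) :
    pex (sw μ wt c).2 x y = pex μ.2 x y + c.2 * pex wt x y := by
  simp [sw, avb_pex_add, avb_pex_smul]

private theorem ak_pey2 (μ : Pr D) (wt : Co D) (c : ℝ × ℝ) (x y : ℝ) :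
    pey (sw μ wt c).2 x y = pey μ.2 x y + c.2 * pey wt x y := by
  simp [sw, avb_pey_add, avb_pey_smul]

private theorem ak_continuous_dt2 (μ : Pr D) (wt : Co D) :
    Continuous fun q : (ℝ × ℝ) × (ℝ × ℝ) => dt2 (sw μ wt q.2) q.1 := by
  unfold dt2
  simp only [ak_pex1, ak_pex2, ak_pey1, ak_pey2]
  have h1 := (avb_continuous_pex μ.1).comp (continuous_fst (X := ℝ × ℝ) (Y := ℝ × ℝ))
  have h2 := (avb_continuous_pey μ.1).comp (continuous_fst (X := ℝ × ℝ) (Y := ℝ × ℝ))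
  have h3 := (avb_continuous_pex μ.2).comp (continuous_fst (X := ℝ × ℝ) (Y := ℝ × ℝ))
  have h4 := (avb_continuous_pey μ.2).comp (continuous_fst (X := ℝ × ℝ) (Y := ℝ × ℝ))
  have h5 := (avb_continuous_pex wt).comp (continuous_fst (X := ℝ × ℝ) (Y := ℝ × ℝ))
  have h6 := (avb_continuous_pey wt).comp (continuous_fst (X := ℝ × ℝ) (Y := ℝ × ℝ))
  have k1 : Continuous fun q : (ℝ × ℝ) × (ℝ × ℝ) => q.2.1 := by fun_prop
  have k2 : Continuous fun q : (ℝ × ℝ) × (ℝ × ℝ) => q.2.2 := by fun_prop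
  exact ((h1.add (k1.mul h5)).mul (h4.add (k2.mul h6))).sub
    ((h2.add (k1.mul h6)).mul (h3.add (k2.mul h5)))

/-- the map `p ↦ -X(p)/W(p)` -/
private noncomputable def nYK (μ : Pr D) (wt : Co D) (p : ℝ × ℝ) : ℝ × ℝ :=
  (-(pe μ.1 p.1 p.2) / pe wt p.1 p.2, -(pe μ.2 p.1 p.2) / pe wt p.1 p.2)

private theorem ak_differentiable (μ : Pr D) (wt : Co D) {z : ℝ × ℝ} (hz : 0 < pe wt z.1 z.2) :
    DifferentiableAt ℝ (nYK μ wt) z := by
  have hd : ∀ c : Co D, Differentiable ℝ fun z : ℝ × ℝ => pe c z.1 z.2 := by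
    intro c
    unfold pe
    fun_prop
  have hi : DifferentiableAt ℝ (fun z : ℝ × ℝ => (pe wt z.1 z.2)⁻¹) z :=
    (hd wt z).fun_inv hz.ne'
  unfold nYK
  simp only [div_eq_mul_inv]
  exact ((hd μ.1 z).neg.mul hi).prodMk ((hd μ.2 z).neg.mul hi)

private theorem ak_fderiv_x (μ : Pr D) (wt : Co D) {z : ℝ × ℝ} (hz : 0 < pe wt z.1 z.2) :
    fderiv ℝ (nYK μ wt) z (1, 0) =
      ((-(pex μ.1 z.1 z.2) * pe wt z.1 z.2 - -(pe μ.1 z.1 z.2) * pex wt z.1 z.2) /
        pe wt z.1 z.2 ^ 2,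
      (-(pex μ.2 z.1 z.2) * pe wt z.1 z.2 - -(pe μ.2 z.1 z.2) * pex wt z.1 z.2) /
        pe wt z.1 z.2 ^ 2) := by
  have h1 : HasDerivAt (fun t : ℝ => (z.1 + t, z.2)) ((1 : ℝ), (0 : ℝ)) 0 := by
    exact ((hasDerivAt_id (0 : ℝ)).const_add z.1).prodMk (hasDerivAt_const (0 : ℝ) z.2)
  have h2 : HasFDerivAt (nYK μ wt) (fderiv ℝ (nYK μ wt) z) ((fun t : ℝ => (z.1 + t, z.2)) 0) := by
    simpa using (ak_differentiable μ wt hz).hasFDerivAt
  have h3 := h2.comp_hasDerivAt (0 : ℝ) h1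
  have hx : HasDerivAt (fun t : ℝ => z.1 + t) 1 0 := (hasDerivAt_id (0 : ℝ)).const_add z.1
  have hy : HasDerivAt (fun _ : ℝ => z.2) 0 0 := hasDerivAt_const (0 : ℝ) z.2
  have hne : pe wt (z.1 + 0) z.2 ≠ 0 := by simpa using hz.ne'
  have h4 := ((pe_hasDerivAt μ.1 hx hy).neg.div (pe_hasDerivAt wt hx hy) hne).prodMk
    ((pe_hasDerivAt μ.2 hx hy).neg.div (pe_hasDerivAt wt hx hy) hne)
  have h5 := h3.unique h4
  rw [h5]
  simp

private theorem ak_fderiv_y (μ : Pr D) (wt : Co D) {z : ℝ × ℝ} (hz : 0 < pe wt z.1 z.2) :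
    fderiv ℝ (nYK μ wt) z (0, 1) =
      ((-(pey μ.1 z.1 z.2) * pe wt z.1 z.2 - -(pe μ.1 z.1 z.2) * pey wt z.1 z.2) /
        pe wt z.1 z.2 ^ 2,
      (-(pey μ.2 z.1 z.2) * pe wt z.1 z.2 - -(pe μ.2 z.1 z.2) * pey wt z.1 z.2) /
        pe wt z.1 z.2 ^ 2) := by
  have h1 : HasDerivAt (fun t : ℝ => (z.1, z.2 + t)) ((0 : ℝ), (1 : ℝ)) 0 := by
    exact (hasDerivAt_const (0 : ℝ) z.1).prodMk ((hasDerivAt_id (0 : ℝ)).const_add z.2)
  have h2 : HasFDerivAt (nYK μ wt) (fderiv ℝ (nYK μ wt) z) ((fun t : ℝ => (z.1, z.2 + t)) 0) := by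
    simpa using (ak_differentiable μ wt hz).hasFDerivAt
  have h3 := h2.comp_hasDerivAt (0 : ℝ) h1
  have hx : HasDerivAt (fun _ : ℝ => z.1) 0 0 := hasDerivAt_const (0 : ℝ) z.1
  have hy : HasDerivAt (fun t : ℝ => z.2 + t) 1 0 := (hasDerivAt_id (0 : ℝ)).const_add z.2
  have hne : pe wt z.1 (z.2 + 0) ≠ 0 := by simpa using hz.ne'
  have h4 := ((pe_hasDerivAt μ.1 hx hy).neg.div (pe_hasDerivAt wt hx hy) hne).prodMk
    ((pe_hasDerivAt μ.2 hx hy).neg.div (pe_hasDerivAt wt hx hy) hne)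
  have h5 := h3.unique h4
  rw [h5]
  simp

private theorem ak_det (μ : Pr D) (wt : Co D) {z : ℝ × ℝ} (hz : 0 < pe wt z.1 z.2) :
    (fderiv ℝ (nYK μ wt) z).det =
      dt2 (sw μ wt (nYK μ wt z)) z / pe wt z.1 z.2 ^ 2 := by
  rw [ContinuousLinearMap.det, ← LinearMap.det_toMatrix (Module.Basis.finTwoProd ℝ),
    Matrix.det_fin_two]
  simp only [LinearMap.toMatrix_apply, Module.Basis.finTwoProd_zero, Module.Basis.finTwoProd_one,
    ContinuousLinearMap.coe_coe, ak_fderiv_x μ wt hz, ak_fderiv_y μ wt hz,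
    Module.Basis.coe_finTwoProd_repr,
    Matrix.cons_val_zero, Matrix.cons_val_one, dt2, ak_pex1, ak_pex2, ak_pey1, ak_pey2, nYK]
  have := hz.ne'
  field_simp
  ring

/-- an open set of the plane squared has a measurable continuous image -/
private theorem ak_measurable_image {U : Set ((ℝ × ℝ) × (ℝ × ℝ))} (hU : IsOpen U)
    {f : (ℝ × ℝ) × (ℝ × ℝ) → (ℝ × ℝ) × (ℝ × ℝ)} (hf : ContinuousOn f U) :
    MeasurableSet (f '' U) := by
  obtain ⟨F, hF, hsub, hFU, -⟩ := hU.exists_iUnion_isClosed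
  have h2 : f '' U = ⋃ n, f '' F n := by rw [← hFU, Set.image_iUnion]
  rw [h2]
  refine MeasurableSet.iUnion fun n => ?_
  have h3 : IsSigmaCompact (F n) :=
    isSigmaCompact_univ.of_isClosed_subset (hF n) (Set.subset_univ _)
  obtain ⟨G, hG, hGU⟩ := h3
  have h4 : f '' F n = ⋃ m, f '' G m := by rw [← hGU, Set.image_iUnion]
  rw [h4]
  refine MeasurableSet.iUnion fun m => ?_
  have h5 : G m ⊆ U := (Set.subset_iUnion G m).trans (hGU.le.trans (hsub n))
  exact ((hG m).image_of_continuousOn (hf.mono h5)).measurableSet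

private theorem ak_vol_ball (z : ℝ × ℝ) {r : ℝ} (hr : 0 ≤ r) :
    volume {p : ℝ × ℝ | nm (p - z) < r} ≤ ENNReal.ofReal (4 * r ^ 2) := by
  have h1 : {p : ℝ × ℝ | nm (p - z) < r} ⊆
      Set.Icc (z.1 - r) (z.1 + r) ×ˢ Set.Icc (z.2 - r) (z.2 + r) := by
    intro p hp
    have h2 : nm (p - z) < r := hp
    have h3 : |p.1 - z.1| ≤ nm (p - z) := by
      unfold nm
      apply Real.abs_le_sqrt
      have : 0 ≤ (p - z).2 ^ 2 := sq_nonneg _
      simp only [Prod.fst_sub]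
      linarith
    have h4 : |p.2 - z.2| ≤ nm (p - z) := by
      unfold nm
      apply Real.abs_le_sqrt
      have : 0 ≤ (p - z).1 ^ 2 := sq_nonneg _
      simp only [Prod.snd_sub]
      linarith
    have h5 := abs_le.mp (h3.trans h2.le)
    have h6 := abs_le.mp (h4.trans h2.le)
    exact ⟨⟨by linarith [h5.1], by linarith [h5.2]⟩, ⟨by linarith [h6.1], by linarith [h6.2]⟩⟩
  refine (measure_mono h1).trans ?_
  rw [Measure.volume_eq_prod, Measure.prod_prod, Real.volume_Icc, Real.volume_Icc,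
    ← ENNReal.ofReal_mul (by linarith)]
  apply ENNReal.ofReal_le_ofReal
  nlinarith

/-- the exceptional points around `z` -/
private def TZK (μ : Pr D) (wt : Co D) (K : Set (ℝ × ℝ)) (B ell : ℝ) (z : ℝ × ℝ) : Set (ℝ × ℝ) :=
  {p | p ∈ K ∧ nm (p - z) < 2 * ell ∧ |dt2 (sw μ wt (nYK μ wt p)) p| < B}

private theorem ak_continuousOn_nYK (μ : Pr D) (wt : Co D) {K : Set (ℝ × ℝ)}
    (hpos : ∀ z ∈ K, 0 < pe wt z.1 z.2) : ContinuousOn (nYK μ wt) K := fun z hz =>
  (ak_differentiable μ wt (hpos z hz)).continuousAt.continuousWithinAt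

private theorem ak_continuousOn_dt2 (μ : Pr D) (wt : Co D) {K : Set (ℝ × ℝ)}
    (hpos : ∀ z ∈ K, 0 < pe wt z.1 z.2) :
    ContinuousOn (fun p : ℝ × ℝ => |dt2 (sw μ wt (nYK μ wt p)) p|) K := by
  have h1 : ContinuousOn (fun p : ℝ × ℝ => (p, nYK μ wt p)) K :=
    continuousOn_id.prodMk (ak_continuousOn_nYK μ wt hpos)
  exact ((ak_continuous_dt2 μ wt).comp_continuousOn h1).abs

private theorem ak_vol_image {μ : Pr D} {wt : Co D} {K : Set (ℝ × ℝ)} {B w0 ell : ℝ}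
    (hKo : IsOpen K) (hpos : ∀ z ∈ K, 0 < pe wt z.1 z.2) (hw0 : 0 < w0)
    (hw : ∀ z ∈ K, w0 ≤ pe wt z.1 z.2) (hell0 : 0 < ell) (hB0 : 0 < B) (z : ℝ × ℝ) :
    volume (nYK μ wt '' TZK μ wt K B ell z) ≤ ENNReal.ofReal (16 * B * ell ^ 2 / w0 ^ 2) := by
  have hBo : IsOpen (TZK μ wt K B ell z) := by
    have h1 : TZK μ wt K B ell z = {p : ℝ × ℝ | nm (p - z) < 2 * ell} ∩
        (K ∩ (fun p : ℝ × ℝ => |dt2 (sw μ wt (nYK μ wt p)) p|) ⁻¹' Set.Iio B) := by
      ext p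
      simp only [TZK, Set.mem_ofPred_eq, Set.mem_inter_iff, Set.mem_preimage, Set.mem_Iio]
      tauto
    rw [h1]
    exact (isOpen_lt (continuous_nm.comp (continuous_id.sub continuous_const))
      continuous_const).inter ((ak_continuousOn_dt2 μ wt hpos).isOpen_inter_preimage hKo isOpen_Iio)
  have h1 := addHaar_image_le_lintegral_abs_det_fderiv volume hBo.measurableSet
    (f := nYK μ wt) (f' := fun p => fderiv ℝ (nYK μ wt) p)
    (fun p hp => (ak_differentiable μ wt (hpos p hp.1)).hasFDerivAt.hasFDerivWithinAt)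
  refine h1.trans ?_
  have h2 : ∀ p ∈ TZK μ wt K B ell z, ENNReal.ofReal |(fderiv ℝ (nYK μ wt) p).det| ≤
      ENNReal.ofReal (B / w0 ^ 2) := by
    intro p hp
    apply ENNReal.ofReal_le_ofReal
    rw [ak_det μ wt (hpos p hp.1), abs_div, abs_of_pos (a := pe wt p.1 p.2 ^ 2) (by
      have := hpos p hp.1
      positivity)]
    have h3 := hw p hp.1
    exact div_le_div₀ hB0.le hp.2.2.le (by positivity) (by gcongr)
  calc ∫⁻ p in TZK μ wt K B ell z, ENNReal.ofReal |(fderiv ℝ (nYK μ wt) p).det|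
      ≤ ∫⁻ _ in TZK μ wt K B ell z, ENNReal.ofReal (B / w0 ^ 2) :=
        setLIntegral_mono measurable_const h2
    _ = ENNReal.ofReal (B / w0 ^ 2) * volume (TZK μ wt K B ell z) := by
        rw [setLIntegral_const]
    _ ≤ ENNReal.ofReal (B / w0 ^ 2) * ENNReal.ofReal (4 * (2 * ell) ^ 2) := by
        gcongr
        exact (measure_mono (fun p hp => hp.2.1)).trans (ak_vol_ball z (by linarith))
    _ = ENNReal.ofReal (16 * B * ell ^ 2 / w0 ^ 2) := by
        rw [← ENNReal.ofReal_mul (by positivity)]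
        congr 1
        ring

private theorem ak_nm_smul {w : ℝ} (hw : 0 ≤ w) (u : ℝ × ℝ) : nm (w • u) = w * nm u := by
  unfold nm
  have h1 : (w • u).1 ^ 2 + (w • u).2 ^ 2 = w ^ 2 * (u.1 ^ 2 + u.2 ^ 2) := by
    simp only [Prod.smul_fst, Prod.smul_snd, smul_eq_mul]
    ring
  rw [h1, Real.sqrt_mul (by positivity), Real.sqrt_sq hw]

private theorem ak_vfc_eq (μ : Pr D) (wt : Co D) {z : ℝ × ℝ} (hz : 0 < pe wt z.1 z.2)
    (c : ℝ × ℝ) : vfc μ z + pe wt z.1 z.2 • c = pe wt z.1 z.2 • (c - nYK μ wt z) := by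
  have := hz.ne'
  unfold vfc nYK
  ext
  · simp only [Prod.fst_add, Prod.smul_fst, smul_eq_mul, Prod.fst_sub]
    field_simp
    ring
  · simp only [Prod.snd_add, Prod.smul_snd, smul_eq_mul, Prod.snd_sub]
    field_simp
    ring

theorem avg_bad_wK (μ : Pr D) (wt : Co D) {K : Set (ℝ × ℝ)} {M₁ M₂ w0 ρ : ℝ}
    (h : ∀ c, nm c ≤ ρ → DBound (sw μ wt c) K M₁ M₂) (hK : Convex ℝ K) (hKo : IsOpen K)
    (hM1 : 0 < M₁) (hM2 : 0 < M₂) (hw0 : 0 < w0)
    (hw : ∀ z ∈ K, w0 ≤ pe wt z.1 z.2) {lam ell s : ℝ} (hlam : 0 < lam) (hlam1 : lam ≤ 1)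
    (hell : M₂ * ell = lam ^ 3 * M₁) (hs : 0 < s) :
    ∃ H : ℝ × ℝ → ℝ≥0∞, Measurable H ∧
      (∀ c, nm c ≤ ρ → ∫⁻ z in {z ∈ K | |dt2 (sw μ wt c) z| < 50 * M₁ ^ 2 * lam ∧
          ∃ p ∈ K, nm (p - z) < 2 * ell ∧ vfc (sw μ wt c) p = 0},
        (ENNReal.ofReal (nm (vfc (sw μ wt c) z)))⁻¹ ≤ H c) ∧
      ∫⁻ c, H c ≤ volume K *
        ENNReal.ofReal (M₁ * ell * (2 * Real.pi * s + 1060 * lam / s) / w0 ^ 2) := by
  have hpos : ∀ z ∈ K, 0 < pe wt z.1 z.2 := fun z hz => hw0.trans_le (hw z hz)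
  have hell0 : 0 < ell := by
    by_contra hcon
    push Not at hcon
    have h1 : M₂ * ell ≤ 0 := mul_nonpos_of_nonneg_of_nonpos hM2.le hcon
    have h2 : 0 < lam ^ 3 * M₁ := by positivity
    linarith
  simp only [ak_vfc_sw]
  set S : Set ((ℝ × ℝ) × (ℝ × ℝ)) :=
    {q | ∃ p ∈ TZK μ wt K (66 * M₁ ^ 2 * lam) ell q.1, nYK μ wt p = q.2} with hSdef
  have hB0 : 0 < 66 * M₁ ^ 2 * lam := by positivity
  have hS : MeasurableSet S := by
    have h1 : S = (fun q : (ℝ × ℝ) × (ℝ × ℝ) => (q.1, nYK μ wt q.2)) ''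
        {q | q.2 ∈ TZK μ wt K (66 * M₁ ^ 2 * lam) ell q.1} := by
      ext q
      constructor
      · rintro ⟨p, hp, hc⟩
        exact ⟨(q.1, p), hp, Prod.ext rfl hc⟩
      · rintro ⟨⟨z', p⟩, hp, heq⟩
        subst heq
        exact ⟨p, hp, rfl⟩
    rw [h1]
    have hKo2 : IsOpen {q : (ℝ × ℝ) × (ℝ × ℝ) | q.2 ∈ K} := hKo.preimage continuous_snd
    have hmaps : Set.MapsTo (fun q : (ℝ × ℝ) × (ℝ × ℝ) => q.2)
        {q : (ℝ × ℝ) × (ℝ × ℝ) | q.2 ∈ K} K := fun q hq => hq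
    have hc : ContinuousOn (fun q : (ℝ × ℝ) × (ℝ × ℝ) =>
        |dt2 (sw μ wt (nYK μ wt q.2)) q.2|) {q | q.2 ∈ K} :=
      (ak_continuousOn_dt2 μ wt hpos).comp continuous_snd.continuousOn hmaps
    refine ak_measurable_image ?_ ?_
    · have h2 : {q : (ℝ × ℝ) × (ℝ × ℝ) | q.2 ∈ TZK μ wt K (66 * M₁ ^ 2 * lam) ell q.1} =
          {q : (ℝ × ℝ) × (ℝ × ℝ) | nm (q.2 - q.1) < 2 * ell} ∩ ({q | q.2 ∈ K} ∩
            (fun q : (ℝ × ℝ) × (ℝ × ℝ) => |dt2 (sw μ wt (nYK μ wt q.2)) q.2|) ⁻¹'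
              Set.Iio (66 * M₁ ^ 2 * lam)) := by
        ext q
        simp only [TZK, Set.mem_ofPred_eq, Set.mem_inter_iff, Set.mem_preimage, Set.mem_Iio]
        tauto
      rw [h2]
      exact (isOpen_lt (continuous_nm.comp (continuous_snd.sub continuous_fst))
        continuous_const).inter (hc.isOpen_inter_preimage hKo2 isOpen_Iio)
    · refine continuous_fst.continuousOn.prodMk ?_
      refine (ak_continuousOn_nYK μ wt hpos).comp continuous_snd.continuousOn ?_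
      intro q hq
      exact hq.1
  set F : (ℝ × ℝ) × (ℝ × ℝ) → ℝ≥0∞ :=
    S.indicator (fun q => (ENNReal.ofReal (nm (vfc μ q.1 + pe wt q.1.1 q.1.2 • q.2)))⁻¹)
    with hFdef
  have hF : Measurable F := by
    refine (ak_measurable_inv.comp (Continuous.measurable ?_)).indicator hS
    exact ((ak_continuous_vfc μ).comp continuous_fst).add
      (((avb_continuous_pe wt).comp continuous_fst).smul continuous_snd)
  refine ⟨fun c => ∫⁻ z in K, F (z, c), ?_, ?_, ?_⟩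
  · exact Measurable.lintegral_prod_left' (μ := volume.restrict K) hF
  · intro c hc
    have h1 : {z | z ∈ K ∧ (|dt2 (sw μ wt c) z| < 50 * M₁ ^ 2 * lam ∧
        ∃ p ∈ K, nm (p - z) < 2 * ell ∧ vfc μ p + pe wt p.1 p.2 • c = 0)} ⊆
        {z | (z, c) ∈ S} ∩ K := by
      rintro z ⟨ha, hb, p, hpK, hpz, hp0⟩
      refine ⟨?_, ha⟩
      have hcp : c = nYK μ wt p := by
        rw [ak_vfc_eq μ wt (hpos p hpK)] at hp0
        rcases smul_eq_zero.mp hp0 with h2 | h2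
        · exact absurd h2 (hpos p hpK).ne'
        · exact sub_eq_zero.mp h2
      refine ⟨p, ⟨hpK, hpz, ?_⟩, hcp.symm⟩
      rw [← hcp]
      have h3 := (h c hc).dt2_sub hK hM1.le hM2.le hpK ha
      have h4 : 8 * M₁ * M₂ * nm (p - z) ≤ 8 * M₁ * M₂ * (2 * ell) := by
        apply mul_le_mul_of_nonneg_left hpz.le (by positivity)
      have h5 : 8 * M₁ * M₂ * (2 * ell) = 16 * M₁ ^ 2 * lam ^ 3 := by
        calc 8 * M₁ * M₂ * (2 * ell) = 16 * M₁ * (M₂ * ell) := by ring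
          _ = 16 * M₁ ^ 2 * lam ^ 3 := by rw [hell]; ring
      have h6 : lam ^ 3 ≤ lam := by
        have : lam ^ 2 ≤ 1 := by nlinarith
        nlinarith
      have h7 : 16 * M₁ ^ 2 * lam ^ 3 ≤ 16 * M₁ ^ 2 * lam :=
        mul_le_mul_of_nonneg_left h6 (by positivity)
      have h8 : |dt2 (sw μ wt c) p| ≤
          |dt2 (sw μ wt c) z| + |dt2 (sw μ wt c) p - dt2 (sw μ wt c) z| := by
        have := abs_add_le (dt2 (sw μ wt c) z) (dt2 (sw μ wt c) p - dt2 (sw μ wt c) z)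
        simpa using this
      linarith
    have h2 : MeasurableSet {z | (z, c) ∈ S} := measurable_prodMk_right hS
    refine (lintegral_mono_set h1).trans ?_
    rw [← Measure.restrict_restrict h2, ← lintegral_indicator h2]
    refine lintegral_mono fun z => ?_
    exact le_refl _
  · rw [lintegral_lintegral_swap (f := fun c z => F (z, c))]
    · have h3 : ∀ z ∈ K, ∫⁻ c : ℝ × ℝ, F (z, c) ≤
          ENNReal.ofReal (M₁ * ell * (2 * Real.pi * s + 1060 * lam / s) / w0 ^ 2) := by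
        intro z hz
        have hwz : w0 ≤ pe wt z.1 z.2 := hw z hz
        have h4 : ∫⁻ c : ℝ × ℝ, F (z, c) = ∫⁻ u : ℝ × ℝ, F (z, u + nYK μ wt z) :=
          (lintegral_add_right_eq_self (fun c => F (z, c)) (nYK μ wt z)).symm
        have h5 : MeasurableSet {u : ℝ × ℝ | (z, u + nYK μ wt z) ∈ S} :=
          (measurable_const.prodMk (measurable_id.add measurable_const)) hS
        have h6 : ∫⁻ u : ℝ × ℝ, F (z, u + nYK μ wt z) ≤
            ENNReal.ofReal w0⁻¹ * ∫⁻ u in {u : ℝ × ℝ | (z, u + nYK μ wt z) ∈ S},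
              (ENNReal.ofReal (nm u))⁻¹ := by
          rw [← lintegral_indicator h5, ← lintegral_const_mul _ (ak_measurable_inv.indicator h5)]
          refine lintegral_mono fun u => ?_
          simp only [hFdef, Set.indicator, Set.mem_ofPred_eq]
          split_ifs with h7
          · rw [ak_vfc_eq μ wt (hpos z hz), add_sub_cancel_right,
              ak_nm_smul (hw0.le.trans hwz), ENNReal.ofReal_inv_of_pos hw0,
              ← ENNReal.mul_inv (Or.inl (ENNReal.ofReal_pos.mpr hw0).ne')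
                (Or.inl ENNReal.ofReal_ne_top), ← ENNReal.ofReal_mul hw0.le]
            apply ENNReal.inv_le_inv.mpr
            apply ENNReal.ofReal_le_ofReal
            exact mul_le_mul_of_nonneg_right hwz (Real.sqrt_nonneg _)
          · exact zero_le
        have h7 : volume {u : ℝ × ℝ | (z, u + nYK μ wt z) ∈ S} ≤
            ENNReal.ofReal (16 * (66 * M₁ ^ 2 * lam) * ell ^ 2 / w0 ^ 2) := by
          have h8 : {u : ℝ × ℝ | (z, u + nYK μ wt z) ∈ S} =
              (fun u => u + nYK μ wt z) ⁻¹' {c | (z, c) ∈ S} := rfl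
          rw [h8, measure_preimage_add_right]
          exact ak_vol_image hKo hpos hw0 hw hell0 hB0 z
        have ha : 0 < M₁ * ell * s / w0 := by positivity
        have h9 := lintegral_inv_nm_le h5 ha (by positivity) h7
        rw [h4]
        refine h6.trans ?_
        calc ENNReal.ofReal w0⁻¹ * ∫⁻ u in {u : ℝ × ℝ | (z, u + nYK μ wt z) ∈ S},
              (ENNReal.ofReal (nm u))⁻¹
            ≤ ENNReal.ofReal w0⁻¹ * ENNReal.ofReal (2 * Real.pi * (M₁ * ell * s / w0) +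
                16 * (66 * M₁ ^ 2 * lam) * ell ^ 2 / w0 ^ 2 / (M₁ * ell * s / w0)) := by
              gcongr
          _ ≤ ENNReal.ofReal (M₁ * ell * (2 * Real.pi * s + 1060 * lam / s) / w0 ^ 2) := by
              rw [← ENNReal.ofReal_mul (by positivity)]
              apply ENNReal.ofReal_le_ofReal
              have h10 : w0⁻¹ * (2 * Real.pi * (M₁ * ell * s / w0) +
                  16 * (66 * M₁ ^ 2 * lam) * ell ^ 2 / w0 ^ 2 / (M₁ * ell * s / w0)) =
                  M₁ * ell * (2 * Real.pi * s + 1056 * lam / s) / w0 ^ 2 := by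
                field_simp
                ring
              rw [h10]
              gcongr
              norm_num
      calc ∫⁻ z in K, ∫⁻ c : ℝ × ℝ, F (z, c)
          ≤ ∫⁻ _ in K,
              ENNReal.ofReal (M₁ * ell * (2 * Real.pi * s + 1060 * lam / s) / w0 ^ 2) :=
            setLIntegral_mono' hKo.measurableSet h3
        _ = volume K *
              ENNReal.ofReal (M₁ * ell * (2 * Real.pi * s + 1060 * lam / s) / w0 ^ 2) := by
            rw [setLIntegral_const, mul_comm]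
    · exact (hF.comp measurable_swap).aemeasurable

end Pool.Agent.Lib.MP_95e7ec_an
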