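import Mathlib
import Pool.Agent.Lib.MP_95e7ec_an.Hull
import Pool.Agent.Lib.MP_95e7ec_an.AvgDefs

/-!
# No closed orbits near infinity (task P12)
-/

set_option autoImplicit false

open Set Filter Topology

namespace Pool.Agent.Lib.MP_95e7ec_an

/-- A periodic differentiable function whose derivative is positive at each of its zeros has no
zeros. -/
private theorem noi_no_zero {h h' : ℝ → ℝ} {T : ℝ} (hT : 0 < T)
    (hd : ∀ t, HasDerivAt h (h' t) t) (hper : ∀ t, h (t + T) = h t)
    (hpos : ∀ t, h t = 0 → 0 < h' t) (t0 : ℝ) : h t0 ≠ 0 := by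
  intro h0
  have hc : Continuous h := continuous_iff_continuousAt.2 fun t => (hd t).continuousAt
  have key : ∀ t ∈ Set.Icc t0 (t0 + T), -h t ≤ 0 := by
    intro t ht
    refine image_le_of_deriv_right_lt_deriv_boundary (f := fun t => -h t) (f' := fun t => -h' t)
      (a := t0) (b := t0 + T) (B := fun _ => 0) (B' := fun _ => 0) hc.neg.continuousOn ?_ ?_ ?_ ?_ ht
    · intro x _
      exact (hd x).neg.hasDerivWithinAt
    · simp [h0]
    · intro x
      exact hasDerivAt_const _ _
    · intro x _ hx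
      have := hpos x (by simpa using hx)
      simpa using this
  have hall : ∀ t, 0 ≤ h t := by
    intro t
    have hp : Function.Periodic h T := hper
    obtain ⟨y, hy, hyt⟩ := hp.exists_mem_Ico hT t t0
    rw [hyt]
    have := key y ⟨hy.1, hy.2.le⟩
    linarith
  have hmin : IsLocalMin h t0 := Filter.Eventually.of_forall fun t => by rw [h0]; exact hall t
  have := hmin.hasDerivAt_eq_zero (hd t0)
  have := hpos t0 h0
  linarith

private theorem noi_decomp {e : ℝ × ℝ} (he : nm e = 1) {z : ℝ × ℝ} (hz : det2 e z = 0) :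
    z = (e.1 * z.1 + e.2 * z.2) • e ∧ nm z = |e.1 * z.1 + e.2 * z.2| := by
  have he2 : e.1 ^ 2 + e.2 ^ 2 = 1 := by
    have : nm e ^ 2 = 1 := by rw [he]; norm_num
    rwa [nm, Real.sq_sqrt (by positivity)] at this
  rw [det2] at hz
  refine ⟨?_, ?_⟩
  · ext
    · simp only [Prod.smul_fst, smul_eq_mul]
      linear_combination (-z.1) * he2 - e.2 * hz
    · simp only [Prod.smul_snd, smul_eq_mul]
      linear_combination (-z.2) * he2 + e.1 * hz
  · rw [nm, ← Real.sqrt_sq_eq_abs]
    congr 1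
    linear_combination (-(z.1 ^ 2 + z.2 ^ 2)) * he2 + (e.1 * z.2 - e.2 * z.1) * hz

/-- no closed orbits near infinity, if the field has no zeros there and crosses both ends of a line
through the origin in the same direction -/
theorem no_orbit_near_infinity {v : ℝ × ℝ → ℝ × ℝ} (hv : ContDiff ℝ 1 v) {R : ℝ} (hR : 0 < R)
    (h0 : ∀ z, R < nm z → v z ≠ 0) {e : ℝ × ℝ} (he : nm e = 1)
    (h1 : ∀ r : ℝ, R < r → 0 < det2 e (v (r • e)))
    (h2 : ∀ r : ℝ, R < r → 0 < det2 e (v ((-r) • e)))
    {C : Set (ℝ × ℝ)} (hC : IsClosedOrbit v C) : ¬ C ⊆ {z | R < nm z} := by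
  intro hCR
  obtain ⟨γ, T, hT, hγ, hper, ⟨s0, t0, hne⟩, rfl⟩ := hC
  have hγR : ∀ t, R < nm (γ t) := fun t => hCR ⟨t, rfl⟩
  have hγc : Continuous γ := continuous_iff_continuousAt.2 fun t => (hγ t).continuousAt
  have hγ1 : ∀ t, HasDerivAt (fun t => (γ t).1) (v (γ t)).1 t := fun t =>
    (hasFDerivAt_fst (𝕜 := ℝ) (p := γ t)).comp_hasDerivAt t (hγ t)
  have hγ2 : ∀ t, HasDerivAt (fun t => (γ t).2) (v (γ t)).2 t := fun t =>
    (hasFDerivAt_snd (𝕜 := ℝ) (p := γ t)).comp_hasDerivAt t (hγ t)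
  have he2 : e.1 ^ 2 + e.2 ^ 2 = 1 := by
    have : nm e ^ 2 = 1 := by rw [he]; norm_num
    rwa [nm, Real.sq_sqrt (by positivity)] at this
  -- the determinant has no zeros
  have hnz : ∀ t, det2 e (γ t) ≠ 0 := by
    refine noi_no_zero (h' := fun t => det2 e (v (γ t))) hT ?_ ?_ ?_
    · intro t
      exact ((hγ2 t).const_mul e.1).sub ((hγ1 t).const_mul e.2)
    · intro t; rw [hper]
    · intro t ht
      obtain ⟨hz, hn⟩ := noi_decomp he ht
      set r := e.1 * (γ t).1 + e.2 * (γ t).2
      have hr : R < |r| := by rw [← hn]; exact hγR t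
      rcases lt_abs.1 hr with h | h
      · have := h1 r h
        rwa [← hz] at this
      · have := h2 (-r) h
        rwa [neg_neg, ← hz] at this
  -- constant sign
  have hcd : Continuous fun t => det2 e (γ t) := by
    unfold det2; fun_prop
  obtain ⟨σ, hσ, hσpos⟩ : ∃ σ : ℝ, σ ^ 2 = 1 ∧ ∀ t, 0 < σ * det2 e (γ t) := by
    rcases lt_or_gt_of_ne (hnz 0) with hs | hs
    · refine ⟨-1, by norm_num, fun t => ?_⟩
      by_contra hcon
      have hge : 0 ≤ det2 e (γ t) := by linarith [not_lt.1 hcon]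
      obtain ⟨c, hc⟩ := mem_range_of_exists_le_of_exists_ge hcd ⟨0, hs.le⟩ ⟨t, hge⟩
      exact hnz c hc
    · refine ⟨1, by norm_num, fun t => ?_⟩
      by_contra hcon
      have hge : det2 e (γ t) ≤ 0 := by linarith [not_lt.1 hcon]
      obtain ⟨c, hc⟩ := mem_range_of_exists_le_of_exists_ge hcd ⟨t, hge⟩ ⟨0, hs.le⟩
      exact hnz c hc
  -- the complex coordinate
  let E : (ℝ × ℝ) ≃L[ℝ] ℂ := Complex.equivRealProdCLM.symm
  have hEre : ∀ z : ℝ × ℝ, (E z).re = z.1 := fun z => by simp [E]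
  have hEim : ∀ z : ℝ × ℝ, (E z).im = z.2 := fun z => by simp [E]
  have hE1 : ∀ z : ℂ, (E.symm z).1 = z.re := fun z => by simp [E]
  have hE2 : ∀ z : ℂ, (E.symm z).2 = z.im := fun z => by simp [E]
  have hnmE : ∀ z : ℂ, nm (E.symm z) = ‖z‖ := fun z => by
    rw [nm, hE1, hE2, Complex.norm_eq_sqrt_sq_add_sq]
  let a : ℂ := Complex.I * (σ * E e)
  have hnE : ‖E e‖ = 1 := by rw [← hnmE, E.symm_apply_apply, he]
  have hna : ‖a‖ = 1 := by
    have hσ' : |σ| = 1 := by
      rw [← Real.sqrt_sq_eq_abs, hσ, Real.sqrt_one]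
    simp [a, hnE, hσ']
  have ha : a ≠ 0 := by
    intro h
    rw [h, norm_zero] at hna
    norm_num at hna
  have hγa : ∀ t, 0 < (E (γ t) / a).re := by
    intro t
    have hsq : Complex.normSq a = 1 := by rw [Complex.normSq_eq_norm_sq, hna]; norm_num
    rw [Complex.div_re, hsq]
    have e1 : a.re = -(σ * e.2) := by simp [a, hEre, hEim]
    have e2 : a.im = σ * e.1 := by simp [a, hEre, hEim]
    rw [e1, e2, hEre, hEim]
    have := hσpos t
    rw [det2] at this
    nlinarith
  have hEγ : ∀ t, E (γ t) ≠ 0 := by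
    intro t h
    have := hγa t
    rw [h] at this
    simp at this
  -- the logarithmic field
  let V : ℝ × ℝ → ℝ × ℝ := fun z =>
    E.symm (E (v (E.symm (a * Complex.exp (E z)))) / (a * Complex.exp (E z)))
  have hVc : ContDiff ℝ 1 V := by
    have c1 : ContDiff ℝ 1 fun z : ℝ × ℝ => a * Complex.exp (E z) :=
      contDiff_const.mul (E.contDiff.cexp)
    have c2 : ContDiff ℝ 1 fun z : ℝ × ℝ => E (v (E.symm (a * Complex.exp (E z)))) :=
      E.contDiff.comp (hv.comp (E.symm.contDiff.comp c1))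
    have c3 : ContDiff ℝ 1 fun z : ℝ × ℝ =>
        E (v (E.symm (a * Complex.exp (E z)))) / (a * Complex.exp (E z)) := by
      simp only [div_eq_mul_inv]
      exact c2.mul (c1.inv fun z => mul_ne_zero ha (Complex.exp_ne_zero _))
    exact E.symm.contDiff.comp c3
  let w : ℝ → ℝ × ℝ := fun t => E.symm (Complex.log (E (γ t) / a))
  have hexpw : ∀ t, a * Complex.exp (E (w t)) = E (γ t) := by
    intro t
    simp only [w, E.apply_symm_apply]
    rw [Complex.exp_log (div_ne_zero (hEγ t) ha)]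
    field_simp
  have hw : ∀ t, HasDerivAt w (V (w t)) t := by
    intro t
    have d1 : HasDerivAt (fun t => E (γ t)) (E (v (γ t))) t :=
      (E.hasFDerivAt (x := γ t)).comp_hasDerivAt t (hγ t)
    have d2 : HasDerivAt (fun t => E (γ t) / a) (E (v (γ t)) / a) t := d1.div_const a
    have hs : E (γ t) / a ∈ Complex.slitPlane := Or.inl (hγa t)
    have d3 : HasDerivAt (fun t => Complex.log (E (γ t) / a)) (E (v (γ t)) / a / (E (γ t) / a)) t :=
      d2.clog_real hs
    have d5 : HasFDerivAt (fun z : ℂ => E.symm z) (E.symm : ℂ →L[ℝ] ℝ × ℝ)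
        (Complex.log (E (γ t) / a)) := E.symm.hasFDerivAt
    have d4 := d5.comp_hasDerivAt t d3
    have e1 : V (w t) = E.symm (E (v (γ t)) / a / (E (γ t) / a)) := by
      simp only [V]
      rw [hexpw t, E.symm_apply_apply]
      congr 1
      have := hEγ t
      field_simp
    rw [e1]
    exact d4
  have hwC : IsClosedOrbit V (Set.range w) := by
    refine ⟨w, T, hT, hw, ?_, ⟨s0, t0, ?_⟩, rfl⟩
    · intro t
      simp only [w, hper]
    · intro h
      apply hne
      have h3 := hexpw s0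
      rw [h, hexpw t0] at h3
      exact (E.injective h3).symm
  obtain ⟨z0, hz0, hVz0⟩ := exists_zero_in_hull hVc hwC
  have hsub : convexHull ℝ (Set.range w) ⊆ {z : ℝ × ℝ | Real.log R < z.1} := by
    apply convexHull_min
    · rintro _ ⟨t, rfl⟩
      show Real.log R < (w t).1
      simp only [w, hE1, Complex.log_re]
      apply Real.log_lt_log hR
      rw [norm_div, hna, div_one]
      have : ‖E (γ t)‖ = nm (γ t) := by rw [← hnmE, E.symm_apply_apply]
      rw [this]
      exact hγR t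
    · exact convex_halfSpace_gt (IsLinearMap.mk (fun _ _ => rfl) (fun _ _ => rfl)) _
  have hz1 : Real.log R < z0.1 := hsub hz0
  have hden : a * Complex.exp (E z0) ≠ 0 := mul_ne_zero ha (Complex.exp_ne_zero _)
  have hv0 : v (E.symm (a * Complex.exp (E z0))) = 0 := by
    have h3 : E (v (E.symm (a * Complex.exp (E z0)))) / (a * Complex.exp (E z0)) = 0 := by
      apply E.symm.injective
      rw [map_zero]
      exact hVz0
    rcases div_eq_zero_iff.1 h3 with h | h
    · exact E.injective (by rw [h, map_zero])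
    · exact absurd h hden
  refine h0 _ ?_ hv0
  rw [hnmE, norm_mul, hna, one_mul, Complex.norm_exp, hEre]
  calc R = Real.exp (Real.log R) := (Real.exp_log hR).symm
    _ < Real.exp z0.1 := Real.exp_lt_exp.2 hz1

end Pool.Agent.Lib.MP_95e7ec_an
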