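import Mathlib

/-!
Bernstein's inequality on the line with the weight `sqrt (a ^ 2 + t ^ 2) ^ N` (task P4).
-/

set_option autoImplicit false

open Polynomial Filter Topology

namespace Pool.Agent.Lib.MP_95e7ec_an

theorem natDegree_le_of_growth (p : Polynomial ℝ) {N : ℕ} {a ρ : ℝ}
    (hb : ∀ t : ℝ, |p.eval t| ≤ ρ * Real.sqrt (a ^ 2 + t ^ 2) ^ N) : p.natDegree ≤ N := by
  by_contra hcon
  push Not at hcon
  have hp0 : p ≠ 0 := by
    rintro rfl
    simp at hcon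
  set Q : Polynomial ℝ := C (ρ ^ 2) * (X ^ 2 + C (a ^ 2)) ^ N with hQ
  have hQdeg : Q.natDegree ≤ 2 * N := by
    rw [hQ]
    refine (natDegree_C_mul_le _ _).trans ?_
    refine natDegree_pow_le.trans ?_
    rw [mul_comm]
    refine Nat.mul_le_mul_right _ ?_
    rw [natDegree_X_pow_add_C]
  have hdeg : Q.degree < (p ^ 2).degree := by
    rw [degree_eq_natDegree (pow_ne_zero 2 hp0), natDegree_pow]
    refine lt_of_le_of_lt degree_le_natDegree ?_
    exact_mod_cast (show Q.natDegree < 2 * p.natDegree by omega)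
  have hlim := Polynomial.div_tendsto_zero_of_degree_lt Q (p ^ 2) hdeg
  have h1 : ∀ᶠ t in atTop, (Q.eval t / (p ^ 2).eval t) < 1 :=
    hlim.eventually_lt_const (by norm_num)
  have h2 : ∀ᶠ t in atTop, p.eval t ≠ 0 := by
    have hfin := p.roots.toFinset.finite_toSet
    obtain ⟨b, hb⟩ := hfin.bddAbove
    filter_upwards [eventually_gt_atTop b] with t ht h0
    have : t ∈ (p.roots.toFinset : Set ℝ) := by
      simp [hp0, h0]
    exact absurd (hb this) (not_le.2 ht)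
  obtain ⟨t, ht1, ht2⟩ := (h1.and h2).exists
  have h3 : 0 < (p ^ 2).eval t := by
    rw [eval_pow]; positivity
  rw [div_lt_one h3] at ht1
  have h4 : Q.eval t = (ρ * Real.sqrt (a ^ 2 + t ^ 2) ^ N) ^ 2 := by
    rw [hQ, mul_pow, ← pow_mul, mul_comm N 2, pow_mul, Real.sq_sqrt (by positivity)]
    simp [add_comm]
  rw [h4, eval_pow] at ht1
  have h5 := hb t
  have h6 : (p.eval t) ^ 2 ≤ (ρ * Real.sqrt (a ^ 2 + t ^ 2) ^ N) ^ 2 := by
    rw [← sq_abs]
    exact pow_le_pow_left₀ (abs_nonneg _) h5 2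
  linarith

/-- `(1 - ζ) ^ N * p (i a (1 + ζ) / (1 - ζ))` as a polynomial -/
private noncomputable def bwQ (N : ℕ) (p : Polynomial ℝ) (a : ℝ) (ζ : ℂ) : ℂ :=
  ∑ k ∈ Finset.range (N + 1), (p.coeff k : ℂ) * (Complex.I * a * (1 + ζ)) ^ k *
    (1 - ζ) ^ (N - k)

private theorem bwQ_eq {N : ℕ} {p : Polynomial ℝ} (hp : p.natDegree ≤ N) (a : ℝ) {ζ : ℂ}
    (hζ : ζ ≠ 1) :
    bwQ N p a ζ = (1 - ζ) ^ N *
      (p.map Complex.ofRealHom).eval (Complex.I * a * (1 + ζ) / (1 - ζ)) := by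
  have h1 : (p.map Complex.ofRealHom).natDegree < N + 1 :=
    lt_of_le_of_lt natDegree_map_le (by omega)
  have h0 : (1 - ζ) ≠ 0 := sub_ne_zero.2 hζ.symm
  rw [eval_eq_sum_range' h1, bwQ, Finset.mul_sum]
  refine Finset.sum_congr rfl fun k hk => ?_
  have hk' : k ≤ N := by simpa [Nat.lt_succ_iff] using hk
  rw [coeff_map, Complex.ofRealHom_eq_coe]
  have h2 : (1 - ζ) ^ N = (1 - ζ) ^ (N - k) * (1 - ζ) ^ k := by
    rw [← pow_add]; congr 1; omega
  rw [h2, div_pow]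
  field_simp

private theorem bwQ_cont (N : ℕ) (p : Polynomial ℝ) (a : ℝ) : Differentiable ℂ (bwQ N p a) := by
  unfold bwQ
  fun_prop

private theorem bwQ_circle {N : ℕ} {p : Polynomial ℝ} (hp : p.natDegree ≤ N) {a ρ : ℝ}
    (ha : 0 < a) (hb : ∀ t : ℝ, |p.eval t| ≤ ρ * Real.sqrt (a ^ 2 + t ^ 2) ^ N) {ζ : ℂ}
    (h1 : ‖ζ‖ = 1) (hζ : ζ ≠ 1) : ‖bwQ N p a ζ‖ ≤ ρ * (2 * a) ^ N := by
  have h0 : (1 - ζ) ≠ 0 := sub_ne_zero.2 hζ.symm
  have hζ0 : ζ ≠ 0 := by rintro rfl; simp at h1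
  rw [bwQ_eq hp a hζ]
  set w : ℂ := Complex.I * a * (1 + ζ) / (1 - ζ) with hw
  have hconj : (starRingEnd ℂ) w = w := by
    rw [hw]
    simp only [map_div₀, map_mul, Complex.conj_I, Complex.conj_ofReal, map_add, map_sub, map_one,
      ← Complex.inv_eq_conj h1]
    have h0' : (1 - ζ⁻¹) ≠ 0 := by
      rw [sub_ne_zero]
      intro h
      apply hζ
      rw [← inv_inv ζ, ← h, inv_one]
    rw [div_eq_div_iff h0' h0]
    field_simp
    ring
  obtain ⟨t, ht⟩ := Complex.conj_eq_iff_real.1 hconj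
  have hwI : w + Complex.I * a = 2 * Complex.I * a / (1 - ζ) := by
    rw [hw]; field_simp; ring
  have hn : ‖w + Complex.I * a‖ = 2 * a / ‖1 - ζ‖ := by
    rw [hwI, norm_div, norm_mul, norm_mul]
    simp [abs_of_pos ha]
  have hn2 : ‖w + Complex.I * a‖ = Real.sqrt (a ^ 2 + t ^ 2) := by
    rw [ht, mul_comm, Complex.norm_add_mul_I, add_comm]
  have hev : (p.map Complex.ofRealHom).eval w = ((p.eval t : ℝ) : ℂ) := by
    rw [ht, eval_map, ← Complex.ofRealHom_eq_coe, eval₂_at_apply]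
    rfl
  rw [hev, norm_mul, norm_pow, Complex.norm_real, Real.norm_eq_abs]
  have hpos : 0 < ‖1 - ζ‖ := norm_pos_iff.2 h0
  calc ‖1 - ζ‖ ^ N * |p.eval t| ≤ ‖1 - ζ‖ ^ N * (ρ * Real.sqrt (a ^ 2 + t ^ 2) ^ N) := by
        gcongr; exact hb t
    _ = ρ * (2 * a) ^ N := by
        rw [← hn2, hn, div_pow]
        field_simp

private theorem bwQ_one {N : ℕ} {p : Polynomial ℝ} (hp : p.natDegree ≤ N) {a ρ : ℝ}
    (ha : 0 < a) (hb : ∀ t : ℝ, |p.eval t| ≤ ρ * Real.sqrt (a ^ 2 + t ^ 2) ^ N) :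
    ‖bwQ N p a 1‖ ≤ ρ * (2 * a) ^ N := by
  have hc : Continuous fun θ : ℝ => ‖bwQ N p a (Complex.exp (θ * Complex.I))‖ := by
    have := (bwQ_cont N p a).continuous
    fun_prop
  have h1 : Tendsto (fun θ : ℝ => ‖bwQ N p a (Complex.exp (θ * Complex.I))‖) (𝓝[≠] 0)
      (𝓝 ‖bwQ N p a 1‖) := by
    have := hc.tendsto 0
    simp only [Complex.ofReal_zero, zero_mul, Complex.exp_zero] at this
    exact this.mono_left nhdsWithin_le_nhds
  refine le_of_tendsto h1 ?_
  have h2 : ∀ᶠ θ : ℝ in 𝓝[≠] 0, θ ∈ Set.Ioo (-1 : ℝ) 1 :=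
    nhdsWithin_le_nhds (Ioo_mem_nhds (by norm_num) (by norm_num))
  filter_upwards [h2, self_mem_nhdsWithin] with θ hθ hθ0
  refine bwQ_circle hp ha hb (Complex.norm_exp_ofReal_mul_I θ) ?_
  intro h
  have hsin : Real.sin θ = 0 := by
    have := congrArg Complex.im h
    rwa [Complex.exp_ofReal_mul_I_im, Complex.one_im] at this
  have hpi := Real.pi_gt_three
  rcases lt_or_gt_of_ne (show θ ≠ 0 from hθ0) with h' | h'
  · have := Real.sin_neg_of_neg_of_neg_pi_lt h' (by linarith [hθ.1])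
    linarith
  · have := Real.sin_pos_of_pos_of_lt_pi h' (by linarith [hθ.2])
    linarith

private theorem bwQ_le {N : ℕ} {p : Polynomial ℝ} (hp : p.natDegree ≤ N) {a ρ : ℝ}
    (ha : 0 < a) (hb : ∀ t : ℝ, |p.eval t| ≤ ρ * Real.sqrt (a ^ 2 + t ^ 2) ^ N) {ζ : ℂ}
    (h1 : ‖ζ‖ ≤ 1) : ‖bwQ N p a ζ‖ ≤ ρ * (2 * a) ^ N := by
  refine Complex.norm_le_of_forall_mem_frontier_norm_le (Metric.isBounded_ball (x := (0 : ℂ))
    (r := 1)) (bwQ_cont N p a).diffContOnCl ?_ ?_
  · intro z hz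
    rw [frontier_ball (0 : ℂ) one_ne_zero] at hz
    have hz1 : ‖z‖ = 1 := by simpa using hz
    by_cases h : z = 1
    · rw [h]; exact bwQ_one hp ha hb
    · exact bwQ_circle hp ha hb hz1 h
  · rw [closure_ball (0 : ℂ) one_ne_zero]
    simpa using h1

/-- growth in the upper half plane -/
private theorem bw_upper {N : ℕ} {p : Polynomial ℝ} (hp : p.natDegree ≤ N) {a ρ : ℝ}
    (ha : 0 < a) (hb : ∀ t : ℝ, |p.eval t| ≤ ρ * Real.sqrt (a ^ 2 + t ^ 2) ^ N) {w : ℂ}
    (hw : 0 ≤ w.im) : ‖(p.map Complex.ofRealHom).eval w‖ ≤ ρ * ‖w + Complex.I * a‖ ^ N := by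
  have hne : w + Complex.I * a ≠ 0 := by
    intro h
    have := congrArg Complex.im h
    simp at this
    linarith
  have haC : (a : ℂ) ≠ 0 := by exact_mod_cast ha.ne'
  set ζ : ℂ := (w - Complex.I * a) / (w + Complex.I * a) with hζ
  have hle : ‖ζ‖ ≤ 1 := by
    rw [hζ, norm_div, div_le_one (norm_pos_iff.2 hne)]
    refine le_of_sq_le_sq ?_ (norm_nonneg _)
    rw [Complex.sq_norm, Complex.sq_norm, Complex.normSq_apply, Complex.normSq_apply]
    simp
    nlinarith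
  have h1 : 1 - ζ = 2 * Complex.I * a / (w + Complex.I * a) := by
    rw [hζ]; field_simp; ring
  have h1' : 1 - ζ ≠ 0 := by
    rw [h1]
    exact div_ne_zero (mul_ne_zero (mul_ne_zero two_ne_zero Complex.I_ne_zero) haC) hne
  have h2 : 1 + ζ = 2 * w / (w + Complex.I * a) := by
    rw [hζ]; field_simp; ring
  have h3 : Complex.I * a * (1 + ζ) / (1 - ζ) = w := by
    rw [h1, h2]
    have := Complex.I_ne_zero
    field_simp
  have h4 := bwQ_le hp ha hb hle
  rw [bwQ_eq hp a (fun h => h1' (by rw [h]; ring)), h3, norm_mul, norm_pow, h1] at h4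
  have hpos : 0 < ‖w + Complex.I * a‖ := norm_pos_iff.2 hne
  have h5 : ‖2 * Complex.I * a / (w + Complex.I * a)‖ = 2 * a / ‖w + Complex.I * a‖ := by
    rw [norm_div, norm_mul, norm_mul]; simp [abs_of_pos ha]
  rw [h5, div_pow, div_mul_eq_mul_div, div_le_iff₀ (by positivity)] at h4
  have h6 : (0 : ℝ) < (2 * a) ^ N := by positivity
  have h7 : (2 * a) ^ N * ‖(p.map Complex.ofRealHom).eval w‖ ≤
      (2 * a) ^ N * (ρ * ‖w + Complex.I * a‖ ^ N) := by linarith
  exact le_of_mul_le_mul_left h7 h6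

private theorem bw_growth {N : ℕ} {p : Polynomial ℝ} (hp : p.natDegree ≤ N) {a ρ : ℝ}
    (ha : 0 < a) (hρ : 0 ≤ ρ) (hb : ∀ t : ℝ, |p.eval t| ≤ ρ * Real.sqrt (a ^ 2 + t ^ 2) ^ N)
    (x : ℝ) {r : ℝ} {w : ℂ} (hw : ‖w - x‖ ≤ r) :
    ‖(p.map Complex.ofRealHom).eval w‖ ≤ ρ * (Real.sqrt (a ^ 2 + x ^ 2) + r) ^ N := by
  have hx : ‖(x : ℂ) + Complex.I * a‖ = Real.sqrt (a ^ 2 + x ^ 2) := by
    rw [mul_comm, Complex.norm_add_mul_I, add_comm]
  rcases le_total 0 w.im with h | h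
  · refine (bw_upper hp ha hb h).trans ?_
    gcongr
    calc ‖w + Complex.I * a‖ = ‖((x : ℂ) + Complex.I * a) + (w - x)‖ := by congr 1; ring
      _ ≤ _ := (norm_add_le _ _).trans (by rw [hx]; gcongr)
  · have h' : 0 ≤ ((starRingEnd ℂ) w).im := by simpa using h
    have e : ‖(p.map Complex.ofRealHom).eval w‖ =
        ‖(p.map Complex.ofRealHom).eval ((starRingEnd ℂ) w)‖ := by
      have e1 : (starRingEnd ℂ) ((p.map Complex.ofRealHom).eval w) =
          (p.map Complex.ofRealHom).eval ((starRingEnd ℂ) w) := by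
        have hmap : (p.map Complex.ofRealHom).map (starRingEnd ℂ) = p.map Complex.ofRealHom := by
          rw [Polynomial.map_map]
          congr 1
          ext x
          simp
        conv_rhs => rw [← hmap, Polynomial.eval_map, Polynomial.eval₂_at_apply]
      rw [← e1, Complex.norm_conj]
    rw [e]
    refine (bw_upper hp ha hb h').trans ?_
    gcongr
    have hw' : ‖(starRingEnd ℂ) w - x‖ ≤ r := by
      have : (starRingEnd ℂ) w - x = (starRingEnd ℂ) (w - x) := by simp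
      rw [this, Complex.norm_conj]; exact hw
    calc ‖(starRingEnd ℂ) w + Complex.I * a‖
        = ‖((x : ℂ) + Complex.I * a) + ((starRingEnd ℂ) w - x)‖ := by congr 1; ring
      _ ≤ _ := (norm_add_le _ _).trans (by rw [hx]; gcongr)

theorem bernstein_weight (p : Polynomial ℝ) {N : ℕ} {a ρ : ℝ} (ha : 0 < a)
    (hb : ∀ t : ℝ, |p.eval t| ≤ ρ * Real.sqrt (a ^ 2 + t ^ 2) ^ N) (x : ℝ) :
    |p.derivative.eval x| * Real.sqrt (a ^ 2 + x ^ 2) ≤
      3 * N * ρ * Real.sqrt (a ^ 2 + x ^ 2) ^ N := by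
  have hp := natDegree_le_of_growth p hb
  set S := Real.sqrt (a ^ 2 + x ^ 2) with hS
  have hS0 : 0 < S := Real.sqrt_pos.2 (by positivity)
  have hρ : 0 ≤ ρ := by
    have h1 := (abs_nonneg _).trans (hb x)
    exact nonneg_of_mul_nonneg_left h1 (pow_pos hS0 N)
  rcases Nat.eq_zero_or_pos N with rfl | hN
  · rw [eq_C_of_natDegree_le_zero hp]
    simp
  have hN' : (0 : ℝ) < N := by exact_mod_cast hN
  set f : ℂ → ℂ := fun z => (p.map Complex.ofRealHom).eval z with hf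
  have h1 : ∀ z ∈ Metric.sphere (x : ℂ) (S / N), ‖f z‖ ≤ 3 * ρ * S ^ N := by
    intro z hz
    have hz1 : ‖z - x‖ ≤ S / N := by
      rw [mem_sphere_iff_norm] at hz
      exact hz.le
    refine (bw_growth hp ha hρ hb x hz1).trans ?_
    rw [← hS]
    have h2 : (1 + 1 / (N : ℝ)) ^ N ≤ 3 := by
      have h3 : 1 + 1 / (N : ℝ) ≤ Real.exp (1 / N) := by
        have := Real.add_one_le_exp (1 / (N : ℝ))
        linarith
      calc (1 + 1 / (N : ℝ)) ^ N ≤ Real.exp (1 / N) ^ N := by gcongr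
        _ = Real.exp 1 := by
          rw [← Real.exp_nat_mul]
          congr 1
          field_simp
        _ ≤ 3 := by
          have := Real.exp_one_lt_d9
          linarith
    have e : S + S / N = S * (1 + 1 / N) := by field_simp
    rw [e, mul_pow]
    have := pow_pos hS0 N
    nlinarith [mul_nonneg hρ this.le]
  have h2 := Complex.norm_deriv_le_of_forall_mem_sphere_norm_le (c := (x : ℂ)) (R := S / (N : ℝ))
    (f := f) (by positivity) (by
      refine Differentiable.diffContOnCl ?_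
      simp only [hf]
      exact Polynomial.differentiable _) h1
  have h3 : deriv f x = ((p.derivative.eval x : ℝ) : ℂ) := by
    simp only [hf, Polynomial.deriv]
    rw [derivative_map, eval_map, ← Complex.ofRealHom_eq_coe, eval₂_at_apply]
    rfl
  rw [h3, Complex.norm_real, Real.norm_eq_abs, le_div_iff₀ (by positivity)] at h2
  have h4 : |p.derivative.eval x| * S = (|p.derivative.eval x| * (S / N)) * N := by
    field_simp
  rw [h4]
  calc _ ≤ (3 * ρ * S ^ N) * N := by gcongr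
    _ = _ := by ring

end Pool.Agent.Lib.MP_95e7ec_an
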