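import Mathlib
import Pool.Agent.Lib.MP_95e7ec_an.PlaneDefs
import Pool.Agent.Lib.MP_95e7ec_an.BernWeight

/-!
The top degree part of a polynomial of bounded weighted size (task P13).
-/

set_option autoImplicit false

open Set Filter Topology MeasureTheory
open scoped ContDiff ENNReal

namespace Pool.Agent.Lib.MP_95e7ec_an

/-- values of a homogeneous polynomial on a ray -/
private theorem tp_hom {n : ℕ} {F : MvPolynomial (Fin 2) ℝ} (hF : F.IsHomogeneous n)
    (r x y : ℝ) : MvPolynomial.eval ![r * x, r * y] F = r ^ n * MvPolynomial.eval ![x, y] F := by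
  rw [MvPolynomial.eval_eq', MvPolynomial.eval_eq', Finset.mul_sum]
  refine Finset.sum_congr rfl fun d hd => ?_
  have h1 : d 0 + d 1 = n := by
    have := hF (MvPolynomial.mem_support_iff.1 hd)
    rw [Finsupp.weight_apply, Finsupp.sum_fintype _ _ (by simp)] at this
    simpa using this
  simp only [Fin.prod_univ_two, Matrix.cons_val_zero, Matrix.cons_val_one]
  rw [← h1, pow_add, mul_pow, mul_pow]
  ring

/-- the polynomial `s ^ (2m) * P (z / s)` in `s` -/
private noncomputable def tpQ (m : ℕ) (P : MvPolynomial (Fin 2) ℝ) (z : ℝ × ℝ) : Polynomial ℝ :=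
  ∑ j ∈ Finset.range (2 * m + 1),
    Polynomial.C (MvPolynomial.eval ![z.1, z.2] (MvPolynomial.homogeneousComponent j P)) *
      Polynomial.X ^ (2 * m - j)

private theorem tp_sum {m : ℕ} {P : MvPolynomial (Fin 2) ℝ} (hP : P.totalDegree ≤ 2 * m) :
    ∑ j ∈ Finset.range (2 * m + 1), MvPolynomial.homogeneousComponent j P = P := by
  have h := MvPolynomial.sum_homogeneousComponent P
  conv_rhs => rw [← h]
  symm
  refine Finset.sum_subset (fun j hj => ?_) (fun j _ hj => ?_)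
  · simp only [Finset.mem_range] at hj ⊢
    omega
  · simp only [Finset.mem_range, not_lt] at hj
    exact MvPolynomial.homogeneousComponent_eq_zero _ _ (by omega)

private theorem tpQ_zero (m : ℕ) (P : MvPolynomial (Fin 2) ℝ) (z : ℝ × ℝ) :
    (tpQ m P z).eval 0 =
      MvPolynomial.eval ![z.1, z.2] (MvPolynomial.homogeneousComponent (2 * m) P) := by
  rw [tpQ, Polynomial.eval_finsetSum, Finset.sum_eq_single (2 * m)]
  · simp
  · intro j hj hne
    have h1 : 2 * m - j ≠ 0 := by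
      have := Finset.mem_range.1 hj
      omega
    simp [h1]
  · intro h
    simp at h

private theorem tpQ_eval {m : ℕ} {P : MvPolynomial (Fin 2) ℝ} (hP : P.totalDegree ≤ 2 * m)
    (z : ℝ × ℝ) {s : ℝ} (hs : s ≠ 0) :
    (tpQ m P z).eval s = s ^ (2 * m) * MvPolynomial.eval ![s⁻¹ * z.1, s⁻¹ * z.2] P := by
  conv_rhs => rw [← tp_sum hP, map_sum, Finset.mul_sum]
  rw [tpQ, Polynomial.eval_finsetSum]
  refine Finset.sum_congr rfl fun j hj => ?_
  have hj' : j ≤ 2 * m := by
    have := Finset.mem_range.1 hj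
    omega
  rw [tp_hom (MvPolynomial.homogeneousComponent_isHomogeneous j P)]
  simp only [Polynomial.eval_mul, Polynomial.eval_C, Polynomial.eval_pow, Polynomial.eval_X]
  have h1 : s ^ (2 * m) = s ^ (2 * m - j) * s ^ j := by
    rw [← pow_add]
    congr 1
    omega
  rw [h1, inv_pow]
  field_simp

private theorem tp_bound {m : ℕ} {P : MvPolynomial (Fin 2) ℝ} (hP : P.totalDegree ≤ 2 * m)
    {ρ : ℝ} (hb : ∀ z : ℝ × ℝ, |MvPolynomial.eval ![z.1, z.2] P| ≤ ρ * sq1 z ^ (2 * m))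
    (z : ℝ × ℝ) (s : ℝ) :
    |(tpQ m P z).eval s| ≤ ρ * Real.sqrt (nm z ^ 2 + s ^ 2) ^ (2 * m) := by
  have hcl : IsClosed {s : ℝ | |(tpQ m P z).eval s| ≤
      ρ * Real.sqrt (nm z ^ 2 + s ^ 2) ^ (2 * m)} := by
    refine isClosed_le ?_ ?_
    · exact (Polynomial.continuous _).abs
    · fun_prop
  have hd : Dense ({0}ᶜ : Set ℝ) := dense_compl_singleton 0
  have hsub : ({0}ᶜ : Set ℝ) ⊆ {s : ℝ | |(tpQ m P z).eval s| ≤
      ρ * Real.sqrt (nm z ^ 2 + s ^ 2) ^ (2 * m)} := by
    intro s hs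
    have hs : s ≠ 0 := hs
    rw [mem_ofPred_eq]
    rw [tpQ_eval hP z hs, abs_mul]
    have h1 := hb (s⁻¹ * z.1, s⁻¹ * z.2)
    have h2 : |s| * sq1 (s⁻¹ * z.1, s⁻¹ * z.2) = Real.sqrt (nm z ^ 2 + s ^ 2) := by
      have h3 : nm z ^ 2 = z.1 ^ 2 + z.2 ^ 2 := by
        rw [nm, Real.sq_sqrt (by positivity)]
      rw [sq1, h3, ← Real.sqrt_sq_eq_abs, ← Real.sqrt_mul (by positivity)]
      congr 1
      simp only
      field_simp
      ring
    calc |s ^ (2 * m)| * |MvPolynomial.eval ![s⁻¹ * z.1, s⁻¹ * z.2] P|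
        ≤ |s ^ (2 * m)| * (ρ * sq1 (s⁻¹ * z.1, s⁻¹ * z.2) ^ (2 * m)) := by
          exact mul_le_mul_of_nonneg_left h1 (abs_nonneg _)
      _ = ρ * (|s| * sq1 (s⁻¹ * z.1, s⁻¹ * z.2)) ^ (2 * m) := by
          rw [abs_pow, mul_pow]
          ring
      _ = _ := by rw [h2]
  have := hcl.closure_subset_iff.2 hsub
  rw [hd.closure_eq] at this
  exact this (mem_univ s)

private theorem tp_lip {m : ℕ} {p : Polynomial ℝ} {ρ : ℝ} (hρ : 0 ≤ ρ)
    (hb : ∀ t : ℝ, |p.eval t| ≤ ρ * Real.sqrt (1 ^ 2 + t ^ 2) ^ (2 * m)) (t t' : ℝ) :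
    |p.eval t / (1 + t ^ 2) ^ m - p.eval t' / (1 + t' ^ 2) ^ m| ≤ 12 * m * ρ * |t - t'| := by
  have hpos : ∀ x : ℝ, 0 < (1 + x ^ 2) := fun x => by positivity
  have hsq : ∀ x : ℝ, Real.sqrt (1 ^ 2 + x ^ 2) ^ (2 * m) = (1 + x ^ 2) ^ m := by
    intro x
    rw [pow_mul, Real.sq_sqrt (by positivity), one_pow]
  have hder : ∀ x : ℝ, HasDerivAt (fun x => p.eval x / (1 + x ^ 2) ^ m)
      ((p.derivative.eval x * (1 + x ^ 2) ^ m - p.eval x * (m * (1 + x ^ 2) ^ (m - 1) * (2 * x)))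
        / ((1 + x ^ 2) ^ m) ^ 2) x := by
    intro x
    have h1 : HasDerivAt (fun x : ℝ => (1 + x ^ 2)) (2 * x) x := by
      simpa using (hasDerivAt_pow 2 x).const_add 1
    exact (p.hasDerivAt x).div (h1.pow m) (by positivity)
  have hbd : ∀ x : ℝ, ‖(p.derivative.eval x * (1 + x ^ 2) ^ m -
      p.eval x * (m * (1 + x ^ 2) ^ (m - 1) * (2 * x))) / ((1 + x ^ 2) ^ m) ^ 2‖ ≤
        12 * m * ρ := by
    intro x
    have hw := hpos x
    set w := 1 + x ^ 2 with hwdef
    have h1 : |p.derivative.eval x| ≤ 6 * m * ρ * w ^ m := by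
      have h2 := bernstein_weight p one_pos hb x
      rw [hsq x] at h2
      have h3 : 1 ≤ Real.sqrt (1 ^ 2 + x ^ 2) := by
        rw [Real.one_le_sqrt]
        nlinarith [sq_nonneg x]
      have h4 : |p.derivative.eval x| ≤ |p.derivative.eval x| * Real.sqrt (1 ^ 2 + x ^ 2) :=
        le_mul_of_one_le_right (abs_nonneg _) h3
      push_cast at h2
      linarith
    have h2 : |p.eval x| ≤ ρ * w ^ m := by
      have := hb x
      rwa [hsq x] at this
    rw [Real.norm_eq_abs, abs_div, abs_of_pos (show 0 < (w ^ m) ^ 2 by positivity),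
      div_le_iff₀ (by positivity)]
    have h3 : |p.eval x * (m * w ^ (m - 1) * (2 * x))| ≤ m * ρ * (w ^ m) ^ 2 := by
      rcases Nat.eq_zero_or_pos m with rfl | hm
      · simp
      have h5 : w ^ m = w ^ (m - 1) * w := by
        rw [← pow_succ]
        congr 1
        omega
      have h6 : |2 * x| ≤ w := by
        rw [abs_mul, abs_two, hwdef]
        nlinarith [sq_nonneg (|x| - 1), sq_abs x]
      rw [abs_mul, abs_mul, abs_mul, Nat.abs_cast, abs_of_pos (show 0 < w ^ (m - 1) by positivity)]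
      calc |p.eval x| * (m * w ^ (m - 1) * |2 * x|)
          ≤ (ρ * w ^ m) * (m * w ^ (m - 1) * w) := by gcongr
        _ = m * ρ * (w ^ m) ^ 2 := by
            linear_combination (-(m : ℝ) * ρ * w ^ m) * h5
    calc |p.derivative.eval x * w ^ m - p.eval x * (m * w ^ (m - 1) * (2 * x))|
        ≤ |p.derivative.eval x * w ^ m| + |p.eval x * (m * w ^ (m - 1) * (2 * x))| := abs_sub _ _
      _ ≤ 6 * m * ρ * w ^ m * w ^ m + m * ρ * (w ^ m) ^ 2 := by
          refine add_le_add ?_ h3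
          rw [abs_mul, abs_of_pos (show 0 < w ^ m by positivity)]
          gcongr
      _ ≤ 12 * m * ρ * (w ^ m) ^ 2 := by
          have : 0 ≤ (m : ℝ) * ρ * (w ^ m) ^ 2 := by positivity
          nlinarith
  have := Convex.norm_image_sub_le_of_norm_hasDerivWithin_le (s := univ)
    (f := fun x => p.eval x / (1 + x ^ 2) ^ m) (fun x _ => (hder x).hasDerivWithinAt)
    (fun x _ => hbd x) convex_univ (mem_univ t') (mem_univ t)
  simpa [Real.norm_eq_abs] using this

private theorem tp_row1 (F : MvPolynomial (Fin 2) ℝ) (t : ℝ) :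
    (MvPolynomial.aeval ![1, Polynomial.X] F : Polynomial ℝ).eval t =
      MvPolynomial.eval ![1, t] F := by
  induction F using MvPolynomial.induction_on with
  | C a => simp
  | add p q hp hq => rw [map_add, Polynomial.eval_add, hp, hq, map_add]
  | mul_X p i hp =>
    rw [map_mul, Polynomial.eval_mul, hp, map_mul, MvPolynomial.aeval_X, MvPolynomial.eval_X]
    congr 1
    fin_cases i <;> simp

private theorem tp_row2 (F : MvPolynomial (Fin 2) ℝ) (t : ℝ) :
    (MvPolynomial.aeval ![Polynomial.X, 1] F : Polynomial ℝ).eval t =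
      MvPolynomial.eval ![t, 1] F := by
  induction F using MvPolynomial.induction_on with
  | C a => simp
  | add p q hp hq => rw [map_add, Polynomial.eval_add, hp, hq, map_add]
  | mul_X p i hp =>
    rw [map_mul, Polynomial.eval_mul, hp, map_mul, MvPolynomial.aeval_X, MvPolynomial.eval_X]
    congr 1
    fin_cases i <;> simp

private theorem tp_near {m : ℕ} (hm : 1 ≤ m) {q : Polynomial ℝ} {ρ : ℝ} (hρ : 0 ≤ ρ)
    (hb : ∀ t : ℝ, |q.eval t| ≤ ρ * Real.sqrt (1 ^ 2 + t ^ 2) ^ (2 * m)) {s : ℝ} (hs : 0 ≤ s)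
    (hs1 : s ≤ 1 / (2 * m)) : |q.eval s - q.eval 0| ≤ 12 * m * ρ * s := by
  have hm' : (0 : ℝ) < m := by exact_mod_cast hm
  have hbd : ∀ x ∈ Icc (0 : ℝ) s, ‖q.derivative.eval x‖ ≤ 12 * m * ρ := by
    intro x hx
    have h2 := bernstein_weight q one_pos hb x
    have hsq : Real.sqrt (1 ^ 2 + x ^ 2) ^ (2 * m) = (1 + x ^ 2) ^ m := by
      rw [pow_mul, Real.sq_sqrt (by positivity), one_pow]
    rw [hsq] at h2
    have h3 : 1 ≤ Real.sqrt (1 ^ 2 + x ^ 2) := by
      rw [Real.one_le_sqrt]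
      nlinarith [sq_nonneg x]
    have h4 : |q.derivative.eval x| ≤ |q.derivative.eval x| * Real.sqrt (1 ^ 2 + x ^ 2) :=
      le_mul_of_one_le_right (abs_nonneg _) h3
    have h5 : (1 + x ^ 2) ^ m ≤ 2 := by
      have hx1 : x ≤ 1 / (2 * m) := hx.2.trans hs1
      have h6 : x ^ 2 ≤ 1 / (4 * m) := by
        calc x ^ 2 ≤ (1 / (2 * (m : ℝ))) ^ 2 := by
              have := hx.1
              gcongr
          _ = 1 / (4 * (m : ℝ)) * (1 / (m : ℝ)) := by
              field_simp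
              norm_num
          _ ≤ 1 / (4 * (m : ℝ)) * 1 := by
              gcongr
              rw [div_le_one hm']
              exact_mod_cast hm
          _ = 1 / (4 * (m : ℝ)) := mul_one _
      calc (1 + x ^ 2) ^ m ≤ Real.exp (1 / (4 * m)) ^ m := by
            gcongr
            have := Real.add_one_le_exp (1 / (4 * (m : ℝ)))
            linarith
        _ = Real.exp (1 / 4) := by
            rw [← Real.exp_nat_mul]
            congr 1
            field_simp
        _ ≤ Real.exp (Real.log 2) := by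
            rw [Real.exp_le_exp]
            have := Real.log_two_gt_d9
            linarith
        _ = 2 := Real.exp_log two_pos
    rw [Real.norm_eq_abs]
    push_cast at h2
    have h7 : 3 * (2 * (m : ℝ)) * ρ * (1 + x ^ 2) ^ m ≤ 3 * (2 * m) * ρ * 2 := by gcongr
    linarith
  have := Convex.norm_image_sub_le_of_norm_hasDerivWithin_le (s := Icc (0 : ℝ) s)
    (f := fun x => q.eval x) (f' := fun x => q.derivative.eval x)
    (fun x _ => (q.hasDerivAt x).hasDerivWithinAt)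
    hbd (convex_Icc 0 s) (left_mem_Icc.2 hs) (right_mem_Icc.2 hs)
  simpa [Real.norm_eq_abs, abs_of_nonneg hs] using this

theorem top_part {m : ℕ} (hm : 1 ≤ m) (P : MvPolynomial (Fin 2) ℝ) (hP : P.totalDegree ≤ 2 * m)
    {ρ : ℝ} (hρ : 0 ≤ ρ)
    (hb : ∀ z : ℝ × ℝ, |MvPolynomial.eval ![z.1, z.2] P| ≤ ρ * sq1 z ^ (2 * m)) :
    ∃ T : ℝ × ℝ → ℝ, Continuous T ∧ (∀ z, |T z| ≤ ρ * nm z ^ (2 * m)) ∧
      (∀ (r : ℝ) (z : ℝ × ℝ), T (r • z) = r ^ (2 * m) * T z) ∧
      (∀ e : ℝ × ℝ, nm e = 1 → ∀ r : ℝ, 2 * m ≤ r →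
        |MvPolynomial.eval ![r * e.1, r * e.2] P - r ^ (2 * m) * T e| * r ≤
          12 * m * ρ * r ^ (2 * m)) ∧
      (∀ t t' : ℝ, |T (1, t) / (1 + t ^ 2) ^ m - T (1, t') / (1 + t' ^ 2) ^ m| ≤
        12 * m * ρ * |t - t'|) ∧
      ∀ t t' : ℝ, |T (t, 1) / (1 + t ^ 2) ^ m - T (t', 1) / (1 + t' ^ 2) ^ m| ≤
        12 * m * ρ * |t - t'| := by
  have hm' : (0 : ℝ) < m := by exact_mod_cast hm
  set T : ℝ × ℝ → ℝ := fun z =>
    MvPolynomial.eval ![z.1, z.2] (MvPolynomial.homogeneousComponent (2 * m) P) with hT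
  have hTb : ∀ z, |T z| ≤ ρ * nm z ^ (2 * m) := by
    intro z
    have h1 := tp_bound hP hb z 0
    rw [tpQ_zero] at h1
    have h2 : Real.sqrt (nm z ^ 2 + 0 ^ 2) = nm z := by
      rw [zero_pow two_ne_zero, add_zero, Real.sqrt_sq]
      exact Real.sqrt_nonneg _
    rwa [h2] at h1
  refine ⟨T, ?_, hTb, ?_, ?_, ?_, ?_⟩
  · refine (MvPolynomial.continuous_eval _).comp ?_
    refine continuous_pi fun i => ?_
    fin_cases i
    · exact continuous_fst
    · exact continuous_snd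
  · intro r z
    exact tp_hom (MvPolynomial.homogeneousComponent_isHomogeneous _ _) r z.1 z.2
  · intro e he r hr
    have hr0 : 0 < r := lt_of_lt_of_le (by positivity) hr
    have h1 : ∀ t : ℝ, |(tpQ m P e).eval t| ≤ ρ * Real.sqrt (1 ^ 2 + t ^ 2) ^ (2 * m) := by
      intro t
      have := tp_bound hP hb e t
      rwa [he] at this
    have h2 := tp_near hm hρ h1 (s := r⁻¹) (by positivity) (by
      rw [one_div]
      gcongr)
    rw [tpQ_zero, tpQ_eval hP e (inv_ne_zero hr0.ne'), inv_inv] at h2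
    have h3 : MvPolynomial.eval ![r * e.1, r * e.2] P - r ^ (2 * m) * T e =
        r ^ (2 * m) * (r⁻¹ ^ (2 * m) * MvPolynomial.eval ![r * e.1, r * e.2] P -
          MvPolynomial.eval ![e.1, e.2] (MvPolynomial.homogeneousComponent (2 * m) P)) := by
      rw [hT, mul_sub, ← mul_assoc, ← mul_pow, mul_inv_cancel₀ hr0.ne', one_pow, one_mul]
    rw [h3, abs_mul, abs_of_pos (show 0 < r ^ (2 * m) by positivity)]
    calc r ^ (2 * m) * |r⁻¹ ^ (2 * m) * MvPolynomial.eval ![r * e.1, r * e.2] P -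
          MvPolynomial.eval ![e.1, e.2] (MvPolynomial.homogeneousComponent (2 * m) P)| * r
        ≤ r ^ (2 * m) * (12 * m * ρ * r⁻¹) * r := by gcongr
      _ = 12 * m * ρ * r ^ (2 * m) := by
          field_simp
  · have h1 : ∀ t : ℝ, |(MvPolynomial.aeval ![1, Polynomial.X]
        (MvPolynomial.homogeneousComponent (2 * m) P) : Polynomial ℝ).eval t| ≤
          ρ * Real.sqrt (1 ^ 2 + t ^ 2) ^ (2 * m) := by
      intro t
      rw [tp_row1]
      exact hTb (1, t)
    intro t t'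
    have := tp_lip hρ h1 t t'
    rw [tp_row1, tp_row1] at this
    exact this
  · have h1 : ∀ t : ℝ, |(MvPolynomial.aeval ![Polynomial.X, 1]
        (MvPolynomial.homogeneousComponent (2 * m) P) : Polynomial ℝ).eval t| ≤
          ρ * Real.sqrt (1 ^ 2 + t ^ 2) ^ (2 * m) := by
      intro t
      rw [tp_row2, add_comm]
      exact hTb (t, 1)
    intro t t'
    have := tp_lip hρ h1 t t'
    rw [tp_row2, tp_row2] at this
    exact this

end Pool.Agent.Lib.MP_95e7ec_an
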