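import Mathlib
import Pool.Agent.Lib.MP_95e7ec_an.PlaneDefs

/-!
# Elementary facts on the weighted shift, the weight polynomial and `√(1+|z|²)`
-/

set_option autoImplicit false

open Set Filter Topology MeasureTheory
open scoped ContDiff ENNReal

namespace Pool.Agent.Lib.MP_95e7ec_an

variable {D : ℕ}

theorem vfc_sw (μ : Pr D) (wt : Co D) (c z : ℝ × ℝ) :
    vfc (sw μ wt c) z = vfc μ z + pe wt z.1 z.2 • c := by
  ext
  · simp only [vfc, sw, avb_pe_add, avb_pe_smul, Prod.fst_add, Prod.smul_fst, smul_eq_mul]; ring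
  · simp only [vfc, sw, avb_pe_add, avb_pe_smul, Prod.snd_add, Prod.smul_snd, smul_eq_mul]; ring

theorem pex_sw1 (μ : Pr D) (wt : Co D) (c : ℝ × ℝ) (x y : ℝ) :
    pex (sw μ wt c).1 x y = pex μ.1 x y + c.1 * pex wt x y := by
  simp only [sw, avb_pex_add, avb_pex_smul, smul_eq_mul]

theorem pey_sw1 (μ : Pr D) (wt : Co D) (c : ℝ × ℝ) (x y : ℝ) :
    pey (sw μ wt c).1 x y = pey μ.1 x y + c.1 * pey wt x y := by
  simp only [sw, avb_pey_add, avb_pey_smul, smul_eq_mul]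

theorem pex_sw2 (μ : Pr D) (wt : Co D) (c : ℝ × ℝ) (x y : ℝ) :
    pex (sw μ wt c).2 x y = pex μ.2 x y + c.2 * pex wt x y := by
  simp only [sw, avb_pex_add, avb_pex_smul, smul_eq_mul]

theorem pey_sw2 (μ : Pr D) (wt : Co D) (c : ℝ × ℝ) (x y : ℝ) :
    pey (sw μ wt c).2 x y = pey μ.2 x y + c.2 * pey wt x y := by
  simp only [sw, avb_pey_add, avb_pey_smul, smul_eq_mul]

theorem continuous_dt2_sw (μ : Pr D) (wt : Co D) :
    Continuous fun q : (ℝ × ℝ) × (ℝ × ℝ) => dt2 (sw μ wt q.2) q.1 := by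
  unfold dt2
  simp only [pex_sw1, pey_sw1, pex_sw2, pey_sw2]
  have h1 : ∀ c : Co D, Continuous fun q : (ℝ × ℝ) × (ℝ × ℝ) => pex c q.1.1 q.1.2 := fun c =>
    (avb_continuous_pex c).comp continuous_fst
  have h2 : ∀ c : Co D, Continuous fun q : (ℝ × ℝ) × (ℝ × ℝ) => pey c q.1.1 q.1.2 := fun c =>
    (avb_continuous_pey c).comp continuous_fst
  have h3 : Continuous fun q : (ℝ × ℝ) × (ℝ × ℝ) => q.2.1 := continuous_fst.comp continuous_snd
  have h4 : Continuous fun q : (ℝ × ℝ) × (ℝ × ℝ) => q.2.2 := continuous_snd.comp continuous_snd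
  have a1 := h1 μ.1
  have a2 := h1 μ.2
  have a3 := h1 wt
  have b1 := h2 μ.1
  have b2 := h2 μ.2
  have b3 := h2 wt
  fun_prop

theorem sq1_pos (z : ℝ × ℝ) : 0 < sq1 z := by
  unfold sq1
  exact Real.sqrt_pos.2 (by positivity)

theorem one_le_sq1 (z : ℝ × ℝ) : 1 ≤ sq1 z := by
  unfold sq1
  exact Real.one_le_sqrt.2 (by nlinarith [sq_nonneg z.1, sq_nonneg z.2])

theorem sq1_sq (z : ℝ × ℝ) : sq1 z ^ 2 = 1 + (z.1 ^ 2 + z.2 ^ 2) := by
  unfold sq1
  exact Real.sq_sqrt (by positivity)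

theorem nm_le_sq1 (z : ℝ × ℝ) : nm z ≤ sq1 z := by
  unfold sq1 nm
  exact Real.sqrt_le_sqrt (by linarith)

theorem sq1_sub_le (z w : ℝ × ℝ) : |sq1 z - sq1 w| ≤ nm (z - w) := by
  have key : ∀ a b : ℝ × ℝ, sq1 a ≤ sq1 b + nm (a - b) := by
    intro a b
    have h1 := sq1_sq a
    have h2 := sq1_sq b
    have h3 := nm_sq (a - b)
    have h4 : (0 : ℝ) ≤ nm (a - b) := Real.sqrt_nonneg _
    have h5 := sq1_pos b
    have h6 := sq1_pos a
    simp only [Prod.fst_sub, Prod.snd_sub] at h3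
    have hcs : b.1 * (a.1 - b.1) + b.2 * (a.2 - b.2) ≤ sq1 b * nm (a - b) := by
      refine le_of_abs_le (abs_le_of_sq_le_sq ?_ (by positivity))
      rw [mul_pow, h2, h3]
      nlinarith [sq_nonneg (b.1 * (a.2 - b.2) - b.2 * (a.1 - b.1)), sq_nonneg (a.1 - b.1),
        sq_nonneg (a.2 - b.2)]
    refine le_of_abs_le (abs_le_of_sq_le_sq ?_ (by positivity))
    rw [h1, add_sq, h2, h3]
    nlinarith
  rw [abs_sub_le_iff]
  constructor
  · have := key z w; linarith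
  · have := key w z
    have h7 : nm (w - z) = nm (z - w) := by
      unfold nm
      congr 1
      simp only [Prod.fst_sub, Prod.snd_sub]; ring
    linarith

theorem eval_wPoly (m : ℕ) (x y : ℝ) :
    MvPolynomial.eval ![x, y] (wPoly m) = (1 + (x ^ 2 + y ^ 2)) ^ m := by
  unfold wPoly
  simp only [map_pow, map_add, map_one, MvPolynomial.eval_X, Matrix.cons_val_zero,
    Matrix.cons_val_one]
  ring

theorem totalDegree_wPoly (m : ℕ) : (wPoly m).totalDegree ≤ 2 * m := by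
  unfold wPoly
  refine (MvPolynomial.totalDegree_pow _ _).trans ?_
  rw [mul_comm]
  refine Nat.mul_le_mul_right _ ?_
  have hX : ∀ i : Fin 2, (MvPolynomial.X i ^ 2 : MvPolynomial (Fin 2) ℝ).totalDegree ≤ 2 := by
    intro i
    refine (MvPolynomial.totalDegree_pow _ _).trans ?_
    rw [MvPolynomial.totalDegree_X]
  refine (MvPolynomial.totalDegree_add _ _).trans (max_le ?_ (hX 1))
  refine (MvPolynomial.totalDegree_add _ _).trans (max_le ?_ (hX 0))
  rw [MvPolynomial.totalDegree_one]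
  exact Nat.zero_le _

theorem pe_wPoly (m : ℕ) (z : ℝ × ℝ) :
    pe (arr (2 * m) (wPoly m)) z.1 z.2 = sq1 z ^ (2 * m) := by
  rw [← eval_eq_pe _ (totalDegree_wPoly m), eval_wPoly, pow_mul, sq1_sq]

theorem totalDegree_add_wPoly {m : ℕ} {P : MvPolynomial (Fin 2) ℝ} (hP : P.totalDegree ≤ 2 * m)
    (r : ℝ) : (P + MvPolynomial.C r * wPoly m).totalDegree ≤ 2 * m := by
  refine (MvPolynomial.totalDegree_add _ _).trans (max_le hP ?_)
  refine (MvPolynomial.totalDegree_mul _ _).trans ?_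
  rw [MvPolynomial.totalDegree_C, zero_add]
  exact totalDegree_wPoly m

theorem vfc_sw_arr {m : ℕ} {P Q : MvPolynomial (Fin 2) ℝ} (hP : P.totalDegree ≤ 2 * m)
    (hQ : Q.totalDegree ≤ 2 * m) (c : ℝ × ℝ) :
    vfc (sw (arr (2 * m) P, arr (2 * m) Q) (arr (2 * m) (wPoly m)) c) =
      vf (P + MvPolynomial.C c.1 * wPoly m) (Q + MvPolynomial.C c.2 * wPoly m) := by
  funext z
  rw [vfc_sw]
  simp only [vf, vfc, map_add, map_mul, MvPolynomial.eval_C]
  rw [eval_eq_pe _ hP, eval_eq_pe _ hQ, eval_eq_pe _ (totalDegree_wPoly m)]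
  ext
  · simp only [Prod.fst_add, Prod.smul_fst, smul_eq_mul]; ring
  · simp only [Prod.snd_add, Prod.smul_snd, smul_eq_mul]; ring

end Pool.Agent.Lib.MP_95e7ec_an
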