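import Mathlib
import Pool.Agent.Lib.MP_95e7ec_an.PlaneDefs
import Pool.Agent.Lib.MP_95e7ec_an.TopPart
import Pool.Agent.Lib.MP_95e7ec_an.NoOrbitInf
import Pool.Agent.Lib.MP_95e7ec_an.AnnulusArea
import Pool.Agent.Lib.MP_95e7ec_an.WeightArr

/-!
# The bad sets of shifts: closed orbits near infinity
-/

set_option autoImplicit false

open Set Filter Topology MeasureTheory
open scoped ContDiff ENNReal

namespace Pool.Agent.Lib.MP_95e7ec_an


/-- `|u| ≤ 3K/2`, if both components are at most `K` in absolute value -/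
private theorem bs_nm_le {u : ℝ × ℝ} {K : ℝ} (h1 : |u.1| ≤ K) (h2 : |u.2| ≤ K) :
    nm u ≤ 3 / 2 * K := by
  have hK : 0 ≤ K := (abs_nonneg _).trans h1
  unfold nm
  rw [Real.sqrt_le_left (by positivity)]
  have e1 : u.1 ^ 2 ≤ K ^ 2 := sq_le_sq' (by linarith [(abs_le.1 h1).1]) (abs_le.1 h1).2
  have e2 : u.2 ^ 2 ≤ K ^ 2 := sq_le_sq' (by linarith [(abs_le.1 h2).1]) (abs_le.1 h2).2
  nlinarith

private theorem bs_lin_le {a b x y K : ℝ} (hab : a ^ 2 + b ^ 2 = 1) (h1 : |x| ≤ K)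
    (h2 : |y| ≤ K) : |a * x + b * y| ≤ 3 / 2 * K := by
  have hK : 0 ≤ K := (abs_nonneg _).trans h1
  apply abs_le_of_sq_le_sq _ (by positivity)
  have e1 : x ^ 2 ≤ K ^ 2 := sq_le_sq' (by linarith [(abs_le.1 h1).1]) (abs_le.1 h1).2
  have e2 : y ^ 2 ≤ K ^ 2 := sq_le_sq' (by linarith [(abs_le.1 h2).1]) (abs_le.1 h2).2
  have e3 : (a * x + b * y) ^ 2 ≤ (a ^ 2 + b ^ 2) * (x ^ 2 + y ^ 2) := by
    nlinarith [sq_nonneg (a * y - b * x)]
  rw [hab] at e3
  nlinarith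

private theorem bs_comp_le (u : ℝ × ℝ) : |u.1| ≤ nm u ∧ |u.2| ≤ nm u := by
  have h := nm_sq u
  have h0 : (0 : ℝ) ≤ nm u := Real.sqrt_nonneg _
  constructor
  · apply abs_le_of_sq_le_sq _ h0
    nlinarith [sq_nonneg u.2]
  · apply abs_le_of_sq_le_sq _ h0
    nlinarith [sq_nonneg u.1]

private theorem bs_pow (r : ℝ) (k m : ℕ) (hkm : k ≤ m) (hm : 1 ≤ m) (hr : 2 * m ≤ r) :
    (1 + r ^ 2) ^ k * r ^ 2 ≤ r ^ (2 * k) * (r ^ 2 + 2 * k) := by
  have hm' : (1 : ℝ) ≤ m := by exact_mod_cast hm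
  induction k with
  | zero => simp
  | succ k ih =>
    have ih := ih (by omega)
    have hk : ((k : ℝ) + 1) ≤ m := by exact_mod_cast hkm
    have hk0 : (0 : ℝ) ≤ k := Nat.cast_nonneg _
    have h2 : 2 * (k : ℝ) ≤ r ^ 2 := by nlinarith
    have h3 : (0 : ℝ) ≤ r ^ (2 * k) := by rw [pow_mul]; positivity
    have h4 : (1 + r ^ 2) * (r ^ 2 + 2 * k) ≤ r ^ 2 * (r ^ 2 + 2 * (k + 1)) := by nlinarith
    calc (1 + r ^ 2) ^ (k + 1) * r ^ 2 = (1 + r ^ 2) * ((1 + r ^ 2) ^ k * r ^ 2) := by ring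
      _ ≤ (1 + r ^ 2) * (r ^ (2 * k) * (r ^ 2 + 2 * k)) :=
        mul_le_mul_of_nonneg_left ih (by positivity)
      _ = r ^ (2 * k) * ((1 + r ^ 2) * (r ^ 2 + 2 * k)) := by ring
      _ ≤ r ^ (2 * k) * (r ^ 2 * (r ^ 2 + 2 * (k + 1))) := mul_le_mul_of_nonneg_left h4 h3
      _ = r ^ (2 * (k + 1)) * (r ^ 2 + 2 * ((k + 1 : ℕ) : ℝ)) := by push_cast; ring

private theorem bs_pow_le {r : ℝ} {m : ℕ} (hm : 1 ≤ m) (hr : 2 * m ≤ r) :
    |(1 + r ^ 2) ^ m - r ^ (2 * m)| * r ≤ r ^ (2 * m) := by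
  have hm' : (1 : ℝ) ≤ m := by exact_mod_cast hm
  have h := bs_pow r m m le_rfl hm hr
  have hr0 : 0 < r := by linarith
  have h1 : r ^ (2 * m) ≤ (1 + r ^ 2) ^ m := by
    rw [pow_mul]
    exact pow_le_pow_left₀ (by positivity) (by linarith) m
  rw [abs_of_nonneg (by linarith)]
  have h3 : (0 : ℝ) ≤ r ^ (2 * m) := by positivity
  have h4 : ((1 + r ^ 2) ^ m - r ^ (2 * m)) * r * r ≤ r ^ (2 * m) * r := by nlinarith
  exact le_of_mul_le_mul_right h4 hr0

/-- the error of the top part, one component -/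
private theorem bs_err {m : ℕ} (hm : 1 ≤ m) (P : MvPolynomial (Fin 2) ℝ) {ρ : ℝ} (hρ : 0 ≤ ρ)
    {T : ℝ × ℝ → ℝ}
    (hT : ∀ e : ℝ × ℝ, nm e = 1 → ∀ r : ℝ, 2 * m ≤ r →
        |MvPolynomial.eval ![r * e.1, r * e.2] P - r ^ (2 * m) * T e| * r ≤
          12 * m * ρ * r ^ (2 * m)) {c : ℝ} (hc : |c| ≤ ρ) {e : ℝ × ℝ} (he : nm e = 1) {r : ℝ}
    (hr : 2 * m ≤ r) :
    |MvPolynomial.eval ![r * e.1, r * e.2] (P + MvPolynomial.C c * wPoly m) -
      r ^ (2 * m) * (T e + c)| ≤ 13 * m * ρ / r * r ^ (2 * m) := by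
  have hm' : (1 : ℝ) ≤ m := by exact_mod_cast hm
  have hr0 : 0 < r := by linarith
  have h1 := hT e he r hr
  have h2 := bs_pow_le hm hr
  have he2 : e.1 ^ 2 + e.2 ^ 2 = 1 := by rw [← nm_sq, he]; norm_num
  have e1 : MvPolynomial.eval ![r * e.1, r * e.2] (P + MvPolynomial.C c * wPoly m) -
      r ^ (2 * m) * (T e + c) =
      (MvPolynomial.eval ![r * e.1, r * e.2] P - r ^ (2 * m) * T e) +
        c * ((1 + r ^ 2) ^ m - r ^ (2 * m)) := by
    rw [map_add, map_mul, MvPolynomial.eval_C, eval_wPoly]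
    have : (r * e.1) ^ 2 + (r * e.2) ^ 2 = r ^ 2 := by
      calc (r * e.1) ^ 2 + (r * e.2) ^ 2 = r ^ 2 * (e.1 ^ 2 + e.2 ^ 2) := by ring
        _ = r ^ 2 := by rw [he2, mul_one]
    rw [this]
    ring
  rw [e1]
  have h3 : (0 : ℝ) ≤ r ^ (2 * m) := by positivity
  have h4 : |c * ((1 + r ^ 2) ^ m - r ^ (2 * m))| * r ≤ ρ * r ^ (2 * m) := by
    rw [abs_mul, mul_assoc]
    exact mul_le_mul hc h2 (by positivity) hρ
  have h5 : |(MvPolynomial.eval ![r * e.1, r * e.2] P - r ^ (2 * m) * T e) +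
        c * ((1 + r ^ 2) ^ m - r ^ (2 * m))| * r ≤ 13 * m * ρ * r ^ (2 * m) := by
    have := abs_add_le (MvPolynomial.eval ![r * e.1, r * e.2] P - r ^ (2 * m) * T e)
      (c * ((1 + r ^ 2) ^ m - r ^ (2 * m)))
    have h6 : ρ * r ^ (2 * m) ≤ m * (ρ * r ^ (2 * m)) := by
      have : 0 ≤ ρ * r ^ (2 * m) := by positivity
      nlinarith
    calc _ ≤ (|MvPolynomial.eval ![r * e.1, r * e.2] P - r ^ (2 * m) * T e| +
        |c * ((1 + r ^ 2) ^ m - r ^ (2 * m))|) * r := mul_le_mul_of_nonneg_right this hr0.le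
      _ ≤ 12 * m * ρ * r ^ (2 * m) + ρ * r ^ (2 * m) := by rw [add_mul]; exact add_le_add h1 h4
      _ ≤ 13 * m * ρ * r ^ (2 * m) := by linarith
  rw [div_mul_eq_mul_div, le_div_iff₀ hr0]
  exact h5

/-- the direction in which the turned field crosses a line -/
private theorem bs_dir {f g : ℝ × ℝ} {ρ ε : ℝ} (hf : |f.1| ≤ 2 * ρ ∧ |f.2| ≤ 2 * ρ)
    (hg : |g.1| ≤ 2 * ρ ∧ |g.2| ≤ 2 * ρ) (hε : 0 < ε)
    (h : 6 * ρ * ε < |f.1 * g.1 + f.2 * g.2|) (α : ℝ) :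
    ε < |Real.sin α * f.1 + Real.cos α * f.2| ∨ ε < |Real.cos α * g.1 - Real.sin α * g.2| := by
  by_contra hcon
  push Not at hcon
  obtain ⟨h1, h2⟩ := hcon
  have hsc := Real.sin_sq_add_cos_sq α
  have e1 : f.1 * g.1 + f.2 * g.2 =
      (Real.sin α * f.1 + Real.cos α * f.2) * (Real.sin α * g.1 + Real.cos α * g.2) +
      (Real.cos α * f.1 - Real.sin α * f.2) * (Real.cos α * g.1 - Real.sin α * g.2) := by
    linear_combination (-(f.1 * g.1) - f.2 * g.2) * hsc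
  have h3 : |Real.sin α * g.1 + Real.cos α * g.2| ≤ 3 / 2 * (2 * ρ) := bs_lin_le hsc hg.1 hg.2
  have h4 : |Real.cos α * f.1 + (-Real.sin α) * f.2| ≤ 3 / 2 * (2 * ρ) :=
    bs_lin_le (by linarith) hf.1 hf.2
  rw [e1] at h
  have h5 := abs_add_le ((Real.sin α * f.1 + Real.cos α * f.2) *
    (Real.sin α * g.1 + Real.cos α * g.2))
    ((Real.cos α * f.1 - Real.sin α * f.2) * (Real.cos α * g.1 - Real.sin α * g.2))
  rw [abs_mul, abs_mul] at h5
  have h6 : |Real.sin α * f.1 + Real.cos α * f.2| * |Real.sin α * g.1 + Real.cos α * g.2| ≤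
      ε * (3 / 2 * (2 * ρ)) := mul_le_mul h1 h3 (abs_nonneg _) hε.le
  have h7 : |Real.cos α * f.1 - Real.sin α * f.2| * |Real.cos α * g.1 - Real.sin α * g.2| ≤
      (3 / 2 * (2 * ρ)) * ε := by
    refine mul_le_mul ?_ h2 (abs_nonneg _) ((abs_nonneg _).trans h3)
    have : Real.cos α * f.1 - Real.sin α * f.2 = Real.cos α * f.1 + (-Real.sin α) * f.2 := by ring
    rw [this]
    exact h4
  linarith

private theorem bs_small {m : ℕ} (hm : 1 ≤ m) {ρ : ℝ} {k : ℕ} (hk : (2 : ℝ) ^ k < 2 * m) :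
    ∃ S : Set (ℝ × ℝ), MeasurableSet S ∧
      volume S ≤ ENNReal.ofReal (60000 * m ^ 2 * ρ ^ 2 / 2 ^ k) ∧
      ∀ c : ℝ × ℝ, nm c ≤ ρ → c ∉ S → False := by
  have hm' : (1 : ℝ) ≤ m := by exact_mod_cast hm
  refine ⟨{c | |nm (c - 0) ^ 2 - 0| ≤ ρ ^ 2}, ?_, ?_, ?_⟩
  · apply IsClosed.measurableSet
    apply isClosed_le _ continuous_const
    have := continuous_nm
    fun_prop
  · refine (volume_annulus_le 0 0 (sq_nonneg ρ)).trans (ENNReal.ofReal_le_ofReal ?_)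
    rw [le_div_iff₀ (by positivity)]
    have hpi := Real.pi_lt_d2
    have h1 : 2 * Real.pi * 2 ^ k ≤ 60000 * m ^ 2 := by
      have : (0 : ℝ) < 2 ^ k := by positivity
      nlinarith [Real.pi_pos]
    nlinarith [sq_nonneg ρ]
  · intro c hc hcS
    apply hcS
    show |nm (c - 0) ^ 2 - 0| ≤ ρ ^ 2
    have h0 : (0 : ℝ) ≤ nm c := Real.sqrt_nonneg _
    rw [sub_zero, sub_zero, abs_of_nonneg (sq_nonneg _)]
    exact pow_le_pow_left₀ h0 hc 2

/-- a point of the unit circle lies on one of the two parametrised curves -/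
private theorem bs_unit {e : ℝ × ℝ} (he : e.1 ^ 2 + e.2 ^ 2 = 1) :
    (∃ t ∈ Set.Icc (-1 : ℝ) 1, ∃ s : ℝ, e = s • ((1, t) : ℝ × ℝ) ∧ s ^ 2 * (1 + t ^ 2) = 1) ∨
    (∃ t ∈ Set.Icc (-1 : ℝ) 1, ∃ s : ℝ, e = s • ((t, 1) : ℝ × ℝ) ∧ s ^ 2 * (1 + t ^ 2) = 1) := by
  rcases le_total |e.2| |e.1| with h | h
  · left
    have h1 : e.1 ≠ 0 := by
      intro h0
      rw [h0, abs_zero] at h
      have : e.2 = 0 := abs_eq_zero.1 (le_antisymm h (abs_nonneg _))
      rw [h0, this] at he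
      norm_num at he
    refine ⟨e.2 / e.1, ?_, e.1, ?_, ?_⟩
    · rw [Set.mem_Icc, ← abs_le, abs_div]
      exact div_le_one_of_le₀ h (abs_nonneg _)
    · ext
      · simp
      · simp [mul_div_cancel₀ _ h1]
    · field_simp
      linarith
  · right
    have h1 : e.2 ≠ 0 := by
      intro h0
      rw [h0, abs_zero] at h
      have : e.1 = 0 := abs_eq_zero.1 (le_antisymm h (abs_nonneg _))
      rw [h0, this] at he
      norm_num at he
    refine ⟨e.1 / e.2, ?_, e.2, ?_, ?_⟩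
    · rw [Set.mem_Icc, ← abs_le, abs_div]
      exact div_le_one_of_le₀ h (abs_nonneg _)
    · ext
      · simp [mul_div_cancel₀ _ h1]
      · simp
    · field_simp
      linarith

private theorem bs_hom {m : ℕ} {T : ℝ × ℝ → ℝ}
    (hT : ∀ (r : ℝ) (z : ℝ × ℝ), T (r • z) = r ^ (2 * m) * T z) {s t : ℝ} {w : ℝ × ℝ}
    (hs : s ^ 2 * (1 + t ^ 2) = 1) : T (s • w) = T w / (1 + t ^ 2) ^ m := by
  rw [hT, pow_mul]
  have h1 : (0 : ℝ) < (1 + t ^ 2) ^ m := by positivity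
  rw [eq_div_iff h1.ne']
  calc (s ^ 2) ^ m * T w * (1 + t ^ 2) ^ m = (s ^ 2 * (1 + t ^ 2)) ^ m * T w := by
        rw [mul_pow]; ring
    _ = T w := by rw [hs, one_pow, one_mul]

private theorem bs_large {m : ℕ} (hm : 1 ≤ m) (P Q : MvPolynomial (Fin 2) ℝ)
    (hP : P.totalDegree ≤ 2 * m) (hQ : Q.totalDegree ≤ 2 * m) {ρ : ℝ} (hρ : 0 < ρ)
    (hb : ∀ z : ℝ × ℝ, nm (vf P Q z) ≤ ρ * sq1 z ^ (2 * m)) {k : ℕ} (hk : 2 * m ≤ (2 : ℝ) ^ k) :
    ∃ S : Set (ℝ × ℝ), MeasurableSet S ∧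
      volume S ≤ ENNReal.ofReal (60000 * m ^ 2 * ρ ^ 2 / 2 ^ k) ∧
      ∀ c : ℝ × ℝ, nm c ≤ ρ → c ∉ S → ∀ (α : ℝ) (C : Set (ℝ × ℝ)),
        IsClosedOrbit (turn α (vf (P + MvPolynomial.C c.1 * wPoly m)
          (Q + MvPolynomial.C c.2 * wPoly m))) C → ¬ C ⊆ {z | (2 : ℝ) ^ k < nm z} := by
  have hm' : (1 : ℝ) ≤ m := by exact_mod_cast hm
  obtain ⟨T, hTc, hTb, hTh, hTe, hTl, hTl'⟩ := top_part hm P hP hρ.le
    fun z => (bs_comp_le (vf P Q z)).1.trans (hb z)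
  obtain ⟨U, hUc, hUb, hUh, hUe, hUl, hUl'⟩ := top_part hm Q hQ hρ.le
    fun z => (bs_comp_le (vf P Q z)).2.trans (hb z)
  set R : ℝ := 2 ^ k with hR
  have hR0 : 0 < R := by positivity
  have hR1 : 1 ≤ R := by linarith
  set ε : ℝ := 24 * m * ρ / R with hε
  have hε0 : 0 < ε := by positivity
  have hεL : ε ≤ 24 * m * ρ := by
    rw [hε, div_le_iff₀ hR0]
    have : 0 < 24 * m * ρ := by positivity
    nlinarith
  -- the two curves
  obtain ⟨S₁, hS₁, hV₁, hC₁⟩ := volume_curve_nhd_le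
    (Y := fun t => (T (1, t) / (1 + t ^ 2) ^ m, U (1, t) / (1 + t ^ 2) ^ m))
    (L := 24 * m * ρ) (ε := ε) (by positivity) hε0 hεL (fun t _ t' _ => by
      have := bs_nm_le (u := ((T (1, t) / (1 + t ^ 2) ^ m, U (1, t) / (1 + t ^ 2) ^ m) : ℝ × ℝ) -
        (T (1, t') / (1 + t' ^ 2) ^ m, U (1, t') / (1 + t' ^ 2) ^ m)) (hTl t t') (hUl t t')
      refine this.trans ?_
      have h0 : 0 ≤ m * ρ * |t - t'| := by positivity
      nlinarith)
  obtain ⟨S₂, hS₂, hV₂, hC₂⟩ := volume_curve_nhd_le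
    (Y := fun t => (T (t, 1) / (1 + t ^ 2) ^ m, U (t, 1) / (1 + t ^ 2) ^ m))
    (L := 24 * m * ρ) (ε := ε) (by positivity) hε0 hεL (fun t _ t' _ => by
      have := bs_nm_le (u := ((T (t, 1) / (1 + t ^ 2) ^ m, U (t, 1) / (1 + t ^ 2) ^ m) : ℝ × ℝ) -
        (T (t', 1) / (1 + t' ^ 2) ^ m, U (t', 1) / (1 + t' ^ 2) ^ m)) (hTl' t t') (hUl' t t')
      refine this.trans ?_
      have h0 : 0 ≤ m * ρ * |t - t'| := by positivity
      nlinarith)
  -- the annulus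
  set c₀ : ℝ × ℝ := (-(T (1, 0) + T (0, 1)) / 2, -(U (1, 0) + U (0, 1)) / 2) with hc₀
  set κ : ℝ := ((T (1, 0) - T (0, 1)) ^ 2 + (U (1, 0) - U (0, 1)) ^ 2) / 4 with hκ
  set S₃ : Set (ℝ × ℝ) := {c | |nm (c - c₀) ^ 2 - κ| ≤ 6 * ρ * ε} with hS₃
  have hmS₃ : MeasurableSet S₃ := by
    apply IsClosed.measurableSet
    apply isClosed_le _ continuous_const
    have := continuous_nm
    fun_prop
  have hV₃ : volume S₃ ≤ ENNReal.ofReal (2 * Real.pi * (6 * ρ * ε)) :=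
    volume_annulus_le c₀ κ (by positivity)
  have hid : ∀ c : ℝ × ℝ, nm (c - c₀) ^ 2 - κ =
      (T (1, 0) + c.1) * (T (0, 1) + c.1) + (U (1, 0) + c.2) * (U (0, 1) + c.2) := by
    intro c
    rw [nm_sq, hc₀, hκ]
    simp only [Prod.fst_sub, Prod.snd_sub]
    ring
  refine ⟨S₁ ∪ S₂ ∪ S₃, (hS₁.union hS₂).union hmS₃, ?_, ?_⟩
  · calc volume (S₁ ∪ S₂ ∪ S₃) ≤ volume S₁ + volume S₂ + volume S₃ :=
        (measure_union_le _ _).trans (add_le_add_left (measure_union_le _ _) _)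
      _ ≤ ENNReal.ofReal (48 * (24 * m * ρ) * ε) + ENNReal.ofReal (48 * (24 * m * ρ) * ε) +
          ENNReal.ofReal (2 * Real.pi * (6 * ρ * ε)) := add_le_add (add_le_add hV₁ hV₂) hV₃
      _ = ENNReal.ofReal (48 * (24 * m * ρ) * ε + 48 * (24 * m * ρ) * ε +
          2 * Real.pi * (6 * ρ * ε)) := by
        rw [ENNReal.ofReal_add (by positivity) (by positivity),
          ENNReal.ofReal_add (by positivity) (by positivity)]
      _ ≤ ENNReal.ofReal (60000 * m ^ 2 * ρ ^ 2 / R) := by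
        apply ENNReal.ofReal_le_ofReal
        rw [hε]
        have hpi := Real.pi_lt_d2
        have e1 : 48 * (24 * m * ρ) * (24 * m * ρ / R) + 48 * (24 * m * ρ) * (24 * m * ρ / R) +
            2 * Real.pi * (6 * ρ * (24 * m * ρ / R)) =
            (55296 * m ^ 2 * ρ ^ 2 + 288 * Real.pi * m * ρ ^ 2) / R := by
          field_simp
          ring
        rw [e1]
        apply div_le_div_of_nonneg_right _ hR0.le
        have h1 : 0 ≤ m * ρ ^ 2 := by positivity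
        have h2 : m * ρ ^ 2 ≤ m ^ 2 * ρ ^ 2 := by nlinarith [sq_nonneg ρ]
        nlinarith
  · intro c hc hcS α C hC
    simp only [Set.mem_union, not_or] at hcS
    obtain ⟨⟨hc1, hc2⟩, hc3⟩ := hcS
    have hcc := bs_comp_le c
    have hcρ1 : |c.1| ≤ ρ := hcc.1.trans hc
    have hcρ2 : |c.2| ≤ ρ := hcc.2.trans hc
    -- on the unit circle, `|T(e) + c| > ε`
    have hunit : ∀ e : ℝ × ℝ, nm e = 1 → ε < nm ((T e + c.1, U e + c.2) : ℝ × ℝ) := by
      intro e he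
      have he2 : e.1 ^ 2 + e.2 ^ 2 = 1 := by rw [← nm_sq, he]; norm_num
      by_contra hcon
      push Not at hcon
      rcases bs_unit he2 with ⟨t, ht, s, rfl, hs⟩ | ⟨t, ht, s, rfl, hs⟩
      · apply hc1
        refine hC₁ c ⟨t, ht, ?_⟩
        rw [bs_hom hTh hs, bs_hom hUh hs] at hcon
        exact hcon
      · apply hc2
        refine hC₂ c ⟨t, ht, ?_⟩
        rw [bs_hom hTh hs, bs_hom hUh hs] at hcon
        exact hcon
    -- the field far away
    set X := vf (P + MvPolynomial.C c.1 * wPoly m) (Q + MvPolynomial.C c.2 * wPoly m) with hX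
    have herr : ∀ e : ℝ × ℝ, nm e = 1 → ∀ r : ℝ, R < r →
        |(X (r • e)).1 - r ^ (2 * m) * (T e + c.1)| ≤ 13 * m * ρ / r * r ^ (2 * m) ∧
        |(X (r • e)).2 - r ^ (2 * m) * (U e + c.2)| ≤ 13 * m * ρ / r * r ^ (2 * m) := by
      intro e he r hr
      exact ⟨bs_err hm P hρ.le hTe hcρ1 he (hk.trans hr.le),
        bs_err hm Q hρ.le hUe hcρ2 he (hk.trans hr.le)⟩
    have hsm : ∀ r : ℝ, R < r → 3 / 2 * (13 * m * ρ / r) < ε := by
      intro r hr
      have hr0 : 0 < r := hR0.trans hr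
      rw [hε, ← mul_div_assoc, div_lt_div_iff₀ hr0 hR0]
      have : 0 < m * ρ := by positivity
      nlinarith
    -- no zeros
    have h0 : ∀ z, R < nm z → turn α X z ≠ 0 := by
      intro z hz hz0
      rw [turn_eq_zero] at hz0
      set r := nm z with hr
      have hr0 : 0 < r := hR0.trans hz
      have he : nm ((1 / r) • z) = 1 := by
        have h1 := nm_sq ((1 / r) • z)
        simp only [Prod.smul_fst, Prod.smul_snd, smul_eq_mul] at h1
        have h2 := nm_sq z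
        rw [← hr] at h2
        have h3 : nm ((1 / r) • z) ^ 2 = 1 := by
          rw [h1]
          field_simp
          linarith
        have h4 : (0 : ℝ) ≤ nm ((1 / r) • z) := Real.sqrt_nonneg _
        nlinarith
      have hz' : z = r • ((1 / r) • z) := by
        rw [smul_smul, mul_one_div_cancel hr0.ne', one_smul]
      obtain ⟨e1, e2⟩ := herr _ he r hz
      rw [← hz', hz0] at e1 e2
      set e := (1 / r) • z with hedef
      simp only [Prod.fst_zero, Prod.snd_zero, zero_sub, abs_neg, abs_mul] at e1 e2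
      have hp : (0 : ℝ) < r ^ (2 * m) := by positivity
      rw [abs_of_pos hp] at e1 e2
      have e1' : |T e + c.1| ≤ 13 * m * ρ / r := by
        rw [mul_comm] at e1; exact le_of_mul_le_mul_right e1 hp
      have e2' : |U e + c.2| ≤ 13 * m * ρ / r := by
        rw [mul_comm] at e2; exact le_of_mul_le_mul_right e2 hp
      have h5 := bs_nm_le (u := (T e + c.1, U e + c.2)) e1' e2'
      have h6 := hunit e he
      have h7 := hsm r hz
      linarith
    -- the linear functional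
    have hlin : ∀ e : ℝ × ℝ, nm e = 1 → ∀ (a b : ℝ), a ^ 2 + b ^ 2 = 1 →
        ε ≤ a * (T e + c.1) + b * (U e + c.2) → ∀ r : ℝ, R < r →
        0 < a * (X (r • e)).1 + b * (X (r • e)).2 := by
      intro e he a b hab hl r hr
      obtain ⟨e1, e2⟩ := herr e he r hr
      have hr0 : 0 < r := hR0.trans hr
      have hp : (0 : ℝ) < r ^ (2 * m) := by positivity
      have h1 := (abs_le.1 (bs_lin_le hab e1 e2)).1
      have h2 := hsm r hr
      have h3 : 3 / 2 * (13 * m * ρ / r * r ^ (2 * m)) < ε * r ^ (2 * m) := by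
        have := mul_lt_mul_of_pos_right h2 hp
        linarith
      have h4 : ε * r ^ (2 * m) ≤ (a * (T e + c.1) + b * (U e + c.2)) * r ^ (2 * m) :=
        mul_le_mul_of_nonneg_right hl hp.le
      nlinarith
    have hsc := Real.sin_sq_add_cos_sq α
    have hTneg : ∀ e : ℝ × ℝ, T (-e) = T e := by
      intro e
      have := hTh (-1) e
      rw [neg_one_smul, pow_mul] at this
      rw [this]; norm_num
    have hUneg : ∀ e : ℝ × ℝ, U (-e) = U e := by
      intro e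
      have := hUh (-1) e
      rw [neg_one_smul, pow_mul] at this
      rw [this]; norm_num
    -- the conclusion, from a direction
    have hfin : ∀ e : ℝ × ℝ, nm e = 1 →
        ε ≤ (e.1 * Real.sin α - e.2 * Real.cos α) * (T e + c.1) +
          (e.1 * Real.cos α + e.2 * Real.sin α) * (U e + c.2) →
        ¬ C ⊆ {z | R < nm z} := by
      intro e he hl
      have he2 : e.1 ^ 2 + e.2 ^ 2 = 1 := by rw [← nm_sq, he]; norm_num
      have hab : (e.1 * Real.sin α - e.2 * Real.cos α) ^ 2 +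
          (e.1 * Real.cos α + e.2 * Real.sin α) ^ 2 = 1 := by
        linear_combination (e.1 ^ 2 + e.2 ^ 2) * hsc + he2
      have hdet : ∀ z : ℝ × ℝ, det2 e (turn α X z) =
          (e.1 * Real.sin α - e.2 * Real.cos α) * (X z).1 +
          (e.1 * Real.cos α + e.2 * Real.sin α) * (X z).2 := by
        intro z
        unfold det2 turn
        simp only
        ring
      refine no_orbit_near_infinity (contDiff_turn (contDiff_vf _ _) α) hR0 h0 he ?_ ?_ hC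
      · intro r hr
        rw [hdet]
        exact hlin e he _ _ hab hl r hr
      · intro r hr
        rw [hdet, neg_smul, ← smul_neg]
        have he' : nm (-e) = 1 := by rw [nm_neg, he]
        refine hlin (-e) he' _ _ hab ?_ r hr
        rw [hTneg, hUneg]
        exact hl
    -- choice of the direction
    have hT1 : |T (1, 0)| ≤ ρ := by simpa [nm] using hTb (1, 0)
    have hT2 : |T (0, 1)| ≤ ρ := by simpa [nm] using hTb (0, 1)
    have hU1 : |U (1, 0)| ≤ ρ := by simpa [nm] using hUb (1, 0)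
    have hU2 : |U (0, 1)| ≤ ρ := by simpa [nm] using hUb (0, 1)
    have hadd : ∀ x y : ℝ, |x| ≤ ρ → |y| ≤ ρ → |x + y| ≤ 2 * ρ := by
      intro x y hx hy
      linarith [abs_add_le x y]
    have hc3' : 6 * ρ * ε < |(T (1, 0) + c.1) * (T (0, 1) + c.1) +
        (U (1, 0) + c.2) * (U (0, 1) + c.2)| := by
      rw [← hid c]
      by_contra hcon
      push Not at hcon
      exact hc3 hcon
    rcases bs_dir (f := (T (1, 0) + c.1, U (1, 0) + c.2)) (g := (T (0, 1) + c.1, U (0, 1) + c.2))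
      ⟨hadd _ _ hT1 hcρ1, hadd _ _ hU1 hcρ2⟩ ⟨hadd _ _ hT2 hcρ1, hadd _ _ hU2 hcρ2⟩ hε0 hc3' α
      with h | h
    · rcases lt_abs.1 h with h | h
      · apply hfin (1, 0) (by simp [nm])
        simp only
        linarith
      · apply hfin (-(1, 0)) (by rw [nm_neg]; simp [nm])
        rw [hTneg, hUneg]
        simp only [Prod.fst_neg, Prod.snd_neg]
        simp only at h
        linarith
    · rcases lt_abs.1 h with h | h
      · apply hfin (-(0, 1)) (by rw [nm_neg]; simp [nm])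
        rw [hTneg, hUneg]
        simp only [Prod.fst_neg, Prod.snd_neg]
        simp only at h
        linarith
      · apply hfin (0, 1) (by simp [nm])
        simp only
        simp only at h
        linarith

theorem bad_sets : ∃ C0 : ℝ, 0 < C0 ∧ ∀ (m : ℕ), 1 ≤ m → ∀ P Q : MvPolynomial (Fin 2) ℝ,
    P.totalDegree ≤ 2 * m → Q.totalDegree ≤ 2 * m → ∀ ρ : ℝ, 0 < ρ →
    (∀ z : ℝ × ℝ, nm (vf P Q z) ≤ ρ * sq1 z ^ (2 * m)) →
    ∃ S : ℕ → Set (ℝ × ℝ), (∀ k, MeasurableSet (S k)) ∧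
      (∀ k, volume (S k) ≤ ENNReal.ofReal (C0 * m ^ 2 * ρ ^ 2 / 2 ^ k)) ∧
      ∀ (k : ℕ) (c : ℝ × ℝ), nm c ≤ ρ → c ∉ S k → ∀ (α : ℝ) (C : Set (ℝ × ℝ)),
        IsClosedOrbit (turn α (vf (P + MvPolynomial.C c.1 * wPoly m)
          (Q + MvPolynomial.C c.2 * wPoly m))) C → ¬ C ⊆ {z | (2 : ℝ) ^ k < nm z} := by
  refine ⟨60000, by norm_num, fun m hm P Q hP hQ ρ hρ hb => ?_⟩
  have key : ∀ k : ℕ, ∃ S : Set (ℝ × ℝ), MeasurableSet S ∧
      volume S ≤ ENNReal.ofReal (60000 * m ^ 2 * ρ ^ 2 / 2 ^ k) ∧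
      ∀ c : ℝ × ℝ, nm c ≤ ρ → c ∉ S → ∀ (α : ℝ) (C : Set (ℝ × ℝ)),
        IsClosedOrbit (turn α (vf (P + MvPolynomial.C c.1 * wPoly m)
          (Q + MvPolynomial.C c.2 * wPoly m))) C → ¬ C ⊆ {z | (2 : ℝ) ^ k < nm z} := by
    intro k
    rcases lt_or_ge ((2 : ℝ) ^ k) (2 * m) with h | h
    · obtain ⟨S, h1, h2, h3⟩ := bs_small (ρ := ρ) hm h
      exact ⟨S, h1, h2, fun c hc hcS => (h3 c hc hcS).elim⟩
    · exact bs_large hm P Q hP hQ hρ hb h
  choose S h1 h2 h3 using key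
  exact ⟨S, h1, h2, h3⟩

end Pool.Agent.Lib.MP_95e7ec_an
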