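import Mathlib
import Pool.Agent.Lib.MP_95e7ec_an.PlaneDefs

/-!
# Kostlan random planar polynomial vector fields: definitions
-/

set_option autoImplicit false

open Set Filter Topology MeasureTheory ProbabilityTheory
open scoped ContDiff ENNReal

namespace Pool.Agent.Lib.MP_95e7ec_an

/-- the exponents `(i,j)` of the monomials `x^i y^j` of degree at most `n` -/
abbrev KIdx (n : ℕ) := {p : Fin (n + 1) × Fin (n + 1) // (p.1 : ℕ) + (p.2 : ℕ) ≤ n}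

/-- the Kostlan weight `√(n! / (i! j! (n-i-j)!))` -/
noncomputable def kw (n : ℕ) (p : KIdx n) : ℝ :=
  Real.sqrt ((n.factorial : ℝ) / ((p.1.1 : ℕ).factorial * (p.1.2 : ℕ).factorial *
    (n - (p.1.1 : ℕ) - (p.1.2 : ℕ)).factorial))

/-- the sample space: two coefficients for each monomial of degree at most `n` -/
abbrev KSp (n : ℕ) := KIdx n → ℝ × ℝ

/-- the standard Gaussian measure on the sample space: all coefficients are independent standard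
normal random variables -/
noncomputable def kMeas (n : ℕ) : Measure (KSp n) :=
  Measure.pi fun _ => (gaussianReal 0 1).prod (gaussianReal 0 1)

/-- the polynomial `∑ √(n!/(i!j!(n-i-j)!)) b_ij x^i y^j` -/
noncomputable def kPoly (n : ℕ) (b : KIdx n → ℝ) : MvPolynomial (Fin 2) ℝ :=
  ∑ p : KIdx n, MvPolynomial.C (kw n p * b p) *
    (MvPolynomial.X 0 ^ (p.1.1 : ℕ) * MvPolynomial.X 1 ^ (p.1.2 : ℕ))

/-- the Kostlan random vector field of degree `n` -/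
noncomputable def kVF (n : ℕ) (a : KSp n) : ℝ × ℝ → ℝ × ℝ :=
  vf (kPoly n fun p => (a p).1) (kPoly n fun p => (a p).2)

/-- its coefficient array -/
noncomputable def kArr (n : ℕ) (a : KSp n) : Pr n :=
  (arr n (kPoly n fun p => (a p).1), arr n (kPoly n fun p => (a p).2))

/-- the random vector `∑ v_p a_p` -/
def klin {n : ℕ} (v : KIdx n → ℝ) (a : KSp n) : ℝ × ℝ := ∑ p, v p • a p

/-- the coefficients `a + v t` -/
def kshift {n : ℕ} (v : KIdx n → ℝ) (a : KSp n) (t : ℝ × ℝ) : KSp n := fun p => a p + v p • t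

/-- the coefficients turned by the angle `α` -/
noncomputable def krot {n : ℕ} (α : ℝ) (a : KSp n) : KSp n := fun p =>
  (Real.cos α * (a p).1 - Real.sin α * (a p).2, Real.sin α * (a p).1 + Real.cos α * (a p).2)

/-- the (unit) direction of the reproducing kernel at `z0` -/
noncomputable def kdir (n : ℕ) (z0 : ℝ × ℝ) (p : KIdx n) : ℝ :=
  kw n p * (z0.1 ^ (p.1.1 : ℕ) * z0.2 ^ (p.1.2 : ℕ)) / sq1 z0 ^ n

/-- the weight `exp(|ξ₁|+|ξ₂|)`, `ξ = ∑ v_p a_p` -/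
noncomputable def kexp {n : ℕ} (v : KIdx n → ℝ) (a : KSp n) : ℝ :=
  Real.exp (|(klin v a).1| + |(klin v a).2|)

/-- complex values of the polynomial with coefficients `b` -/
noncomputable def kev (n : ℕ) (b : KIdx n → ℝ) (ζ : ℂ × ℂ) : ℂ :=
  ∑ p : KIdx n, ((kw n p * b p : ℝ) : ℂ) * (ζ.1 ^ (p.1.1 : ℕ) * ζ.2 ^ (p.1.2 : ℕ))

/-- the normalised kernel `(1 + z0·ζ)^n / |(1,z0)|^n` -/
noncomputable def kker (n : ℕ) (z0 : ℝ × ℝ) (ζ : ℂ × ℂ) : ℂ :=
  (1 + (z0.1 : ℂ) * ζ.1 + (z0.2 : ℂ) * ζ.2) ^ n / ((sq1 z0 : ℝ) : ℂ) ^ n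

/-- the mean of `f` over the torus `|ζ₁ - z₁| = |ζ₂ - z₂| = ρ` -/
noncomputable def tmean (f : ℂ × ℂ → ℝ) (z0 : ℝ × ℝ) (ρ : ℝ) : ℝ :=
  (4 * Real.pi ^ 2)⁻¹ * ∫ θ in (0 : ℝ)..2 * Real.pi, ∫ φ in (0 : ℝ)..2 * Real.pi,
    f (circleMap (z0.1 : ℂ) ρ θ, circleMap (z0.2 : ℂ) ρ φ)

/-- the mean over the torus of `|X₁/W| + |X₂/W|`, `W` the kernel at `z0` -/
noncomputable def kA (n : ℕ) (z0 : ℝ × ℝ) (ρ : ℝ) (a : KSp n) : ℝ :=
  tmean (fun ζ => ‖kev n (fun p => (a p).1) ζ / kker n z0 ζ‖ +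
    ‖kev n (fun p => (a p).2) ζ / kker n z0 ζ‖) z0 ρ

/-- the number of closed orbits of `v` in `U` which are not contained in any of the sets `V i`,
`i ∈ s` -/
noncomputable def cntO {ι : Type*} (v : ℝ × ℝ → ℝ × ℝ) (U : Set (ℝ × ℝ)) (s : Finset ι)
    (V : ι → Set (ℝ × ℝ)) : ℝ≥0∞ :=
  ((({C | IsClosedOrbit v C ∧ C ⊆ U ∧ ∀ i ∈ s, ¬ C ⊆ V i} : Set (Set (ℝ × ℝ))).encard : ℕ∞) :
    ℝ≥0∞)

/-- the number of cells per unit -/
def kq (n : ℕ) : ℕ := 4 * (Nat.sqrt n + 1)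

/-- all the cells of the annuli `0, …, K`, as a finite set of pairs (annulus, cell) -/
noncomputable def kcells (n K : ℕ) : Finset (Σ _ : ℕ, ℤ × ℤ) :=
  (Finset.range (K + 1)).sigma fun k => cells (kq n) k

/-- the cell -/
noncomputable def kcell (n : ℕ) (x : Σ _ : ℕ, ℤ × ℤ) : Set (ℝ × ℝ) :=
  disc (cellC (kq n) x.1 x.2) (cellR (kq n) x.1)

end Pool.Agent.Lib.MP_95e7ec_an
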