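import Mathlib
import Pool.Agent.Lib.MP_95e7ec_an.KosDefs

/-!
# Kostlan random planar polynomial vector fields, sharp count: definitions

The chart `(u,w) ↦ (z0 + w e) / (1 - u)` around a point `z0`, `e` the unit vector orthogonal to `z0`;
far from the origin the field `X / W` is almost constant in the radial direction.
-/

set_option autoImplicit false

open Set Filter Topology MeasureTheory ProbabilityTheory
open scoped ContDiff ENNReal

namespace Pool.Agent.Lib.MP_95e7ec_an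

/-- complex values of the homogenised polynomial -/
noncomputable def hev (n : ℕ) (b : KIdx n → ℝ) (x0 x1 x2 : ℂ) : ℂ :=
  ∑ p : KIdx n, ((kw n p * b p : ℝ) : ℂ) *
    (x0 ^ (n - (p.1.1 : ℕ) - (p.1.2 : ℕ)) * (x1 ^ (p.1.1 : ℕ) * x2 ^ (p.1.2 : ℕ)))

/-- the unit vector orthogonal to `z0` -/
noncomputable def eth (z0 : ℝ × ℝ) : ℝ × ℝ := (-z0.2 / nm z0, z0.1 / nm z0)

/-- the kernel `W` at `z0` in the chart: `((|(1,z0)|² - u) / |(1,z0)|)^n` -/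
noncomputable def kGd (n : ℕ) (z0 : ℝ × ℝ) (u : ℂ) : ℂ :=
  ((((sq1 z0 : ℝ) : ℂ) ^ 2 - u) / ((sq1 z0 : ℝ) : ℂ)) ^ n

/-- `X / W` in the chart `(u,w) ↦ (z0 + w e) / (1 - u)` -/
noncomputable def kG (n : ℕ) (z0 : ℝ × ℝ) (b : KIdx n → ℝ) (ζ : ℂ × ℂ) : ℂ :=
  hev n b (1 - ζ.1) ((z0.1 : ℂ) + ζ.2 * ((eth z0).1 : ℂ)) ((z0.2 : ℂ) + ζ.2 * ((eth z0).2 : ℂ)) /
    kGd n z0 ζ.1

/-- the radius `|(1,z0)| / (4 √n)` -/
noncomputable def krho (n : ℕ) (z0 : ℝ × ℝ) : ℝ := sq1 z0 / (4 * Real.sqrt n)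

/-- the torus mean of `|X₁/W| + |X₂/W|` in the chart -/
noncomputable def kB (n : ℕ) (z0 : ℝ × ℝ) (a : KSp n) : ℝ :=
  tmean (fun ζ => ‖kG n z0 (fun p => (a p).1) ζ‖ + ‖kG n z0 (fun p => (a p).2) ζ‖) 0 (krho n z0)

/-- the kernel `W` at `z0` -/
noncomputable def kW (n : ℕ) (z0 z : ℝ × ℝ) : ℝ :=
  (1 + z0.1 * z.1 + z0.2 * z.2) ^ n / sq1 z0 ^ n

/-- the field `X / W` -/
noncomputable def kY (n : ℕ) (z0 : ℝ × ℝ) (a : KSp n) (z : ℝ × ℝ) : ℝ × ℝ :=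
  (kW n z0 z)⁻¹ • kVF n a z

/-- the number of large cells per unit, in the annulus number `k` -/
def qk (n k : ℕ) : ℕ := if k < 24 then kq n else Nat.sqrt n / 2 ^ (8 * (k / 24)) + 1

/-- the event that `X / W` is small somewhere in the cell around `z0` -/
def kAct (n k : ℕ) (z0 : ℝ × ℝ) : Set (KSp n) :=
  {a | ∃ p, nm (p - z0) ≤ cellR (kq n) k / 2 ∧
    nm (kY n z0 a p) < 30000 * (1 + kB n z0 a) / 2 ^ (16 * (k / 24))}

/-- the exceptional translations -/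
def kE (n k : ℕ) (z0 : ℝ × ℝ) (a : KSp n) : Set (ℝ × ℝ) :=
  {t | nm t ≤ 1 ∧ ∃ p, nm (p - z0) ≤ cellR (kq n) k / 2 ∧
    nm (kY n z0 a p + t) < 150000 * (1 + kB n z0 a) / 2 ^ (16 * (k / 24))}

/-- the number of the closed orbits of `v` which meet both `|z - c| ≤ R` and `|z - c| ≥ 2R` -/
noncomputable def crossN (v : ℝ × ℝ → ℝ × ℝ) (c : ℝ × ℝ) (R : ℝ) : ℝ≥0∞ :=
  ((({C | IsClosedOrbit v C ∧ (∃ z ∈ C, nm (z - c) ≤ R) ∧ ∃ z ∈ C, 2 * R ≤ nm (z - c)} :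
    Set (Set (ℝ × ℝ))).encard : ℕ∞) : ℝ≥0∞)

/-- the cells of the annulus number `k` (`q` per unit) and the smaller disc: a closed orbit is in
none of these sets iff it is in no cell and not in the smaller disc -/
noncomputable def lvS (q k : ℕ) : Finset (Option (ℤ × ℤ)) := Finset.insertNone (cells q k)

/-- see `lvS` -/
noncomputable def lvV (q k : ℕ) : Option (ℤ × ℤ) → Set (ℝ × ℝ)
  | none => if k = 0 then ∅ else disc 0 (2 ^ (k - 1))
  | some i => disc (cellC q k i) (cellR q k)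

end Pool.Agent.Lib.MP_95e7ec_an
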