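import Mathlib
import Pool.Agent.Lib.MP_95e7ec_an.KpDefs

/-!
# Kostlan random fields of odd degree near infinity: definitions

Logarithmic polar coordinates `(s,θ)`, solutions on the cylinder, the shift of the coefficients in
the direction of the field `z |z|^(n-1)`.
-/

set_option autoImplicit false

open Set Filter Topology MeasureTheory ProbabilityTheory
open scoped ContDiff ENNReal

namespace Pool.Agent.Lib.MP_95e7ec_an

/-- the point with the logarithmic polar coordinates `(s,θ)` -/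
noncomputable def cyl (p : ℝ × ℝ) : ℝ × ℝ :=
  (Real.exp p.1 * Real.cos p.2, Real.exp p.1 * Real.sin p.2)

/-- `σ` solves `σ' = F(σ)` and is closed on the cylinder after the time `T`, with winding number
`k` -/
def CylSol (F : ℝ × ℝ → ℝ × ℝ) (σ : ℝ → ℝ × ℝ) (T : ℝ) (k : ℤ) : Prop :=
  0 < T ∧ (∀ t, HasDerivAt σ (F (σ t)) t) ∧
    (∀ t, σ (t + T) = σ t + ((0 : ℝ), 2 * Real.pi * (k : ℝ))) ∧ ∃ s t, σ s ≠ σ t

/-- `F` is the field `v` in the logarithmic polar coordinates, up to a positive factor -/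
def CylField (v F : ℝ × ℝ → ℝ × ℝ) (g : ℝ → ℝ) : Prop :=
  Continuous g ∧ (∀ s, 0 < g s) ∧ ∀ p : ℝ × ℝ, v (cyl p) =
    (g p.1 * Real.exp p.1) • ((F p).1 * Real.cos p.2 - (F p).2 * Real.sin p.2,
      (F p).1 * Real.sin p.2 + (F p).2 * Real.cos p.2)

/-- the closed orbits in `|z| > e^s1`, not in `|z| > e^(s1+1)`, with positive winding number -/
def posOrb (F : ℝ × ℝ → ℝ × ℝ) (s1 : ℝ) : Set (Set (ℝ × ℝ)) :=
  {C | ∃ (σ : ℝ → ℝ × ℝ) (T : ℝ) (k : ℤ), 0 < k ∧ CylSol F σ T k ∧ (∀ t, s1 < (σ t).1) ∧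
    (∃ t, (σ t).1 ≤ s1 + 1) ∧ C = Set.range fun t => cyl (σ t)}

/-- complex multiplication -/
def cmul (t z : ℝ × ℝ) : ℝ × ℝ := (t.1 * z.1 - t.2 * z.2, t.2 * z.1 + t.1 * z.2)

/-- shift of the coefficients by `t u` (complex multiplication by `t`) -/
def kshift2 {n : ℕ} (u : KSp n) (a : KSp n) (t : ℝ × ℝ) : KSp n := fun p => a p + cmul t (u p)

/-- the weight `exp(|⟨u,a⟩| + |⟨iu,a⟩|)` -/
noncomputable def kexp2 {n : ℕ} (u a : KSp n) : ℝ :=
  Real.exp (|∑ p, ((u p).1 * (a p).1 + (u p).2 * (a p).2)| +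
    |∑ p, ((u p).1 * (a p).2 - (u p).2 * (a p).1)|)

/-- the size of the coefficients -/
noncomputable def kS {n : ℕ} (a : KSp n) : ℝ := 1 + ∑ p, (|(a p).1| + |(a p).2|)

/-- real values of the homogenised polynomial -/
noncomputable def hevR (n : ℕ) (b : KIdx n → ℝ) (x0 x1 x2 : ℝ) : ℝ :=
  ∑ p : KIdx n, kw n p * b p *
    (x0 ^ (n - (p.1.1 : ℕ) - (p.1.2 : ℕ)) * (x1 ^ (p.1.1 : ℕ) * x2 ^ (p.1.2 : ℕ)))

/-- the radial and the angular components of `ν u^n X((cos θ, sin θ)/u)` -/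
noncomputable def psiF (n : ℕ) (ν : ℝ) (a : KSp n) (u θ : ℝ) : ℝ × ℝ :=
  (ν * (hevR n (fun p => (a p).1) u (Real.cos θ) (Real.sin θ) * Real.cos θ +
      hevR n (fun p => (a p).2) u (Real.cos θ) (Real.sin θ) * Real.sin θ),
    ν * (hevR n (fun p => (a p).2) u (Real.cos θ) (Real.sin θ) * Real.cos θ -
      hevR n (fun p => (a p).1) u (Real.cos θ) (Real.sin θ) * Real.sin θ))

/-- the field on the cylinder -/
noncomputable def cF (n : ℕ) (ν : ℝ) (a : KSp n) (t p : ℝ × ℝ) : ℝ × ℝ :=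
  psiF n ν a (Real.exp (-p.1)) p.2 + t

/-- the direction of the field `z |z|^(2m)` in the space of coefficients, `n = 2m+1` -/
def OddDir (m : ℕ) (u : KSp (2 * m + 1)) (ν : ℝ) : Prop :=
  0 < ν ∧ ν ≤ 2 * (m + 1) ∧ ∑ p, ((u p).1 ^ 2 + (u p).2 ^ 2) = 1 ∧
    ∀ (a : KSp (2 * m + 1)) (t z : ℝ × ℝ), kVF (2 * m + 1) (kshift2 u a t) z =
      kVF (2 * m + 1) a z + (ν⁻¹ * (z.1 ^ 2 + z.2 ^ 2) ^ m) • cmul t z

/-- the number 32 (not reducible, so that the sets `cells nlq k` are never evaluated) -/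
@[irreducible] def nlq : ℕ := 32

theorem nlq_eq : nlq = 32 := by
  unfold nlq
  rfl

/-- see `NL` -/
noncomputable def nlS (j : ℕ) : Finset (Option (ℤ × ℤ)) := Finset.insertNone (cells nlq (j + 1))

/-- see `NL` -/
noncomputable def nlV (j : ℕ) : Option (ℤ × ℤ) → Set (ℝ × ℝ)
  | none => {z | (2 : ℝ) ^ (j + 1) < nm z}
  | some i => disc (cellC nlq (j + 1) i) (cellR nlq (j + 1))

/-- the number of the closed orbits in `|z| > 2^j` which are not in `|z| > 2^(j+1)` and in no cell -/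
noncomputable def NL (v : ℝ × ℝ → ℝ × ℝ) (j : ℕ) : ℝ≥0∞ :=
  cntO v {z | (2 : ℝ) ^ j < nm z} (nlS j) (nlV j)

end Pool.Agent.Lib.MP_95e7ec_an
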