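import Mathlib
import Pool.Agent.Lib.MP_95e7ec_an.Defs

/-!
# Robust realisation of limit cycles (finite counting)

`robust_of` deduces the robust realisation of finitely many limit cycles from the local
persistence statement (Task E2) and from the disjointness and compactness of closed orbits.
-/

set_option autoImplicit false

open Set Filter Topology

namespace Pool.Agent.Lib.MP_95e7ec_an

theorem IsClosedOrbit.nonempty' {v : ℝ × ℝ → ℝ × ℝ} {C : Set (ℝ × ℝ)}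
    (h : IsClosedOrbit v C) : C.Nonempty := by
  obtain ⟨γ, T, -, -, -, -, rfl⟩ := h
  exact ⟨γ 0, mem_range_self 0⟩

/-- `m` limit cycles of `vfc μ` inside `U`. -/
def HasCycles {D : ℕ} (μ : Pr D) (U : Set (ℝ × ℝ)) (m : ℕ) : Prop :=
  ∃ S : Finset (Set (ℝ × ℝ)), m ≤ S.card ∧ ∀ C' ∈ S, IsLimitCycle (vfc μ) C' ∧ C' ⊆ U

theorem HasCycles.zero {D : ℕ} (μ : Pr D) (U : Set (ℝ × ℝ)) : HasCycles μ U 0 :=
  ⟨∅, by simp, by simp⟩

/-- the local type of a limit cycle gives two numbers with sum at least two -/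
theorem exists_counts {D : ℕ} (μ0 : Pr D) (U : Set (ℝ × ℝ))
    (h : (∀ᶠ μ in 𝓝 μ0, ∃ C1, IsLimitCycle (vfc μ) C1 ∧ C1 ⊆ U) ∨
      (∀ᶠ θ in 𝓝[>] (0 : ℝ), ∀ᶠ μ in 𝓝 (μ0 + θ • rot μ0), ∃ C1 C2, C1 ≠ C2 ∧
        IsLimitCycle (vfc μ) C1 ∧ C1 ⊆ U ∧ IsLimitCycle (vfc μ) C2 ∧ C2 ⊆ U) ∨
      (∀ᶠ θ in 𝓝[>] (0 : ℝ), ∀ᶠ μ in 𝓝 (μ0 - θ • rot μ0), ∃ C1 C2, C1 ≠ C2 ∧
        IsLimitCycle (vfc μ) C1 ∧ C1 ⊆ U ∧ IsLimitCycle (vfc μ) C2 ∧ C2 ⊆ U)) :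
    ∃ m1 m2 : ℕ, 2 ≤ m1 + m2 ∧
      (∀ᶠ θ in 𝓝[>] (0 : ℝ), ∀ᶠ μ in 𝓝 (μ0 + ((1 : ℝ) * θ) • rot μ0), HasCycles μ U m1) ∧
      (∀ᶠ θ in 𝓝[>] (0 : ℝ), ∀ᶠ μ in 𝓝 (μ0 + ((-1 : ℝ) * θ) • rot μ0), HasCycles μ U m2) := by
  classical
  have two : ∀ μ : Pr D, (∃ C1 C2, C1 ≠ C2 ∧
        IsLimitCycle (vfc μ) C1 ∧ C1 ⊆ U ∧ IsLimitCycle (vfc μ) C2 ∧ C2 ⊆ U) →
        HasCycles μ U 2 := by
    rintro μ ⟨C1, C2, hne, h1, h1', h2, h2'⟩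
    refine ⟨{C1, C2}, (Finset.card_pair hne).ge, fun C' hC' => ?_⟩
    rcases Finset.mem_insert.1 hC' with rfl | hC'
    · exact ⟨h1, h1'⟩
    · rw [Finset.mem_singleton.1 hC']; exact ⟨h2, h2'⟩
  rcases h with h | h | h
  · have key : ∀ ε : ℝ, ∀ᶠ θ in 𝓝[>] (0 : ℝ), ∀ᶠ μ in 𝓝 (μ0 + (ε * θ) • rot μ0),
        HasCycles μ U 1 := by
      intro ε
      have h1 : ∀ᶠ ν in 𝓝 μ0, ∀ᶠ μ in 𝓝 ν, ∃ C1, IsLimitCycle (vfc μ) C1 ∧ C1 ⊆ U :=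
        eventually_eventually_nhds.2 h
      have hc : Tendsto (fun θ : ℝ => μ0 + (ε * θ) • rot μ0) (𝓝[>] 0) (𝓝 μ0) := by
        have : Continuous (fun θ : ℝ => μ0 + (ε * θ) • rot μ0) := by fun_prop
        have h2 := this.tendsto 0
        simp only [mul_zero, zero_smul, add_zero] at h2
        exact h2.mono_left nhdsWithin_le_nhds
      filter_upwards [hc.eventually h1] with θ hθ
      filter_upwards [hθ] with μ hμ
      obtain ⟨C1, h2, h3⟩ := hμ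
      exact ⟨{C1}, by simp, fun C' hC' => by
        rw [Finset.mem_singleton.1 hC']; exact ⟨h2, h3⟩⟩
    exact ⟨1, 1, le_rfl, key 1, key (-1)⟩
  · refine ⟨2, 0, le_rfl, ?_, ?_⟩
    · filter_upwards [h] with θ hθ
      rw [one_mul]
      filter_upwards [hθ] with μ hμ
      exact two μ hμ
    · exact Eventually.of_forall fun θ => Eventually.of_forall fun μ => HasCycles.zero μ U
  · refine ⟨0, 2, le_rfl, ?_, ?_⟩
    · exact Eventually.of_forall fun θ => Eventually.of_forall fun μ => HasCycles.zero μ U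
    · filter_upwards [h] with θ hθ
      rw [neg_one_mul, neg_smul, ← sub_eq_add_neg]
      filter_upwards [hθ] with μ hμ
      exact two μ hμ

/-- finitely many disjoint compact sets have disjoint bounded open neighbourhoods -/
theorem exists_neighbourhoods (F : Finset (Set (ℝ × ℝ)))
    (hcomp : ∀ C ∈ F, IsCompact C) (hdisj : ∀ C ∈ F, ∀ C' ∈ F, C ≠ C' → Disjoint C C') :
    ∃ (δ R : ℝ), 0 < δ ∧ (∀ C ∈ F, ∀ C' ∈ F, C ≠ C' →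
      Disjoint (Metric.thickening δ C) (Metric.thickening δ C')) ∧
      ∀ C ∈ F, Metric.thickening δ C ⊆ Metric.ball 0 R := by
  classical
  have h1 : ∀ C ∈ F, ∀ C' ∈ F, ∀ᶠ δ in 𝓝[>] (0 : ℝ), C ≠ C' →
      Disjoint (Metric.thickening δ C) (Metric.thickening δ C') := by
    intro C hC C' hC'
    by_cases hne : C = C'
    · exact Eventually.of_forall fun δ h => absurd hne h
    obtain ⟨δ, hδ, hd⟩ := (hdisj C hC C' hC' hne).exists_thickenings (hcomp C hC)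
      (hcomp C' hC').isClosed
    filter_upwards [Ioo_mem_nhdsGT hδ] with δ' hδ' _
    exact hd.mono (Metric.thickening_mono hδ'.2.le _) (Metric.thickening_mono hδ'.2.le _)
  have h2 : ∀ᶠ δ in 𝓝[>] (0 : ℝ), ∀ C ∈ F, ∀ C' ∈ F, C ≠ C' →
      Disjoint (Metric.thickening δ C) (Metric.thickening δ C') := by
    rw [Filter.eventually_all_finset]
    intro C hC
    rw [Filter.eventually_all_finset]
    intro C' hC'
    exact h1 C hC C' hC'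
  obtain ⟨δ, hδ, hδ0⟩ := (h2.and self_mem_nhdsWithin).exists
  have hb : Bornology.IsBounded (⋃ C ∈ F, Metric.thickening δ C) := by
    refine (Bornology.isBounded_biUnion_finset F).2 fun C hC => ?_
    exact (hcomp C hC).isBounded.thickening
  obtain ⟨R, hR⟩ := hb.subset_ball 0
  exact ⟨δ, R, hδ0, hδ, fun C hC => (subset_biUnion_of_mem (u := fun C => Metric.thickening δ C)
    (Finset.mem_coe.2 hC)).trans hR⟩

theorem robust_of {D : ℕ} (μ0 : Pr D) (F : Finset (Set (ℝ × ℝ)))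
    (hF : ∀ C ∈ F, IsLimitCycle (vfc μ0) C)
    (hcomp : ∀ C ∈ F, IsCompact C)
    (hdisj : ∀ C ∈ F, ∀ C' ∈ F, C ≠ C' → Disjoint C C')
    (hlp : ∀ (C U : Set (ℝ × ℝ)), IsLimitCycle (vfc μ0) C → IsOpen U → C ⊆ U →
      (∀ᶠ μ in 𝓝 μ0, ∃ C1, IsLimitCycle (vfc μ) C1 ∧ C1 ⊆ U) ∨
      (∀ᶠ θ in 𝓝[>] (0 : ℝ), ∀ᶠ μ in 𝓝 (μ0 + θ • rot μ0), ∃ C1 C2, C1 ≠ C2 ∧
        IsLimitCycle (vfc μ) C1 ∧ C1 ⊆ U ∧ IsLimitCycle (vfc μ) C2 ∧ C2 ⊆ U) ∨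
      (∀ᶠ θ in 𝓝[>] (0 : ℝ), ∀ᶠ μ in 𝓝 (μ0 - θ • rot μ0), ∃ C1 C2, C1 ≠ C2 ∧
        IsLimitCycle (vfc μ) C1 ∧ C1 ⊆ U ∧ IsLimitCycle (vfc μ) C2 ∧ C2 ⊆ U)) :
    ∃ (ε : ℝ) (R : ℝ), (ε = 1 ∨ ε = -1) ∧
      ∀ᶠ θ in 𝓝[>] (0 : ℝ), ∀ᶠ μ in 𝓝 (μ0 + (ε * θ) • rot μ0),
        ∃ F' : Finset (Set (ℝ × ℝ)), F.card ≤ F'.card ∧
          ∀ C ∈ F', IsLimitCycle (vfc μ) C ∧ C ⊆ Metric.ball 0 R := by
  classical
  obtain ⟨δ, R, hδ, hthick, hball⟩ := exists_neighbourhoods F hcomp hdisj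
  have hex : ∀ C ∈ F, ∃ m1 m2 : ℕ, 2 ≤ m1 + m2 ∧
      (∀ᶠ θ in 𝓝[>] (0 : ℝ), ∀ᶠ μ in 𝓝 (μ0 + ((1 : ℝ) * θ) • rot μ0),
        HasCycles μ (Metric.thickening δ C) m1) ∧
      (∀ᶠ θ in 𝓝[>] (0 : ℝ), ∀ᶠ μ in 𝓝 (μ0 + ((-1 : ℝ) * θ) • rot μ0),
        HasCycles μ (Metric.thickening δ C) m2) := fun C hC =>
    exists_counts μ0 _ (hlp C _ (hF C hC) Metric.isOpen_thickening
      (Metric.self_subset_thickening hδ C))
  choose! m1 m2 hm h1 h2 using hex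
  have hsum : F.card ≤ ∑ C ∈ F, m1 C ∨ F.card ≤ ∑ C ∈ F, m2 C := by
    by_contra hcon
    push Not at hcon
    have h3 : ∑ C ∈ F, 2 ≤ ∑ C ∈ F, (m1 C + m2 C) := Finset.sum_le_sum hm
    rw [Finset.sum_add_distrib, Finset.sum_const, smul_eq_mul] at h3
    omega
  -- assembling
  have key : ∀ (ε : ℝ) (m : Set (ℝ × ℝ) → ℕ), F.card ≤ ∑ C ∈ F, m C →
      (∀ C ∈ F, ∀ᶠ θ in 𝓝[>] (0 : ℝ), ∀ᶠ μ in 𝓝 (μ0 + (ε * θ) • rot μ0),
        HasCycles μ (Metric.thickening δ C) (m C)) →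
      ∀ᶠ θ in 𝓝[>] (0 : ℝ), ∀ᶠ μ in 𝓝 (μ0 + (ε * θ) • rot μ0),
        ∃ F' : Finset (Set (ℝ × ℝ)), F.card ≤ F'.card ∧
          ∀ C ∈ F', IsLimitCycle (vfc μ) C ∧ C ⊆ Metric.ball 0 R := by
    intro ε m hcard hall
    have h3 := (Filter.eventually_all_finset F).2 hall
    filter_upwards [h3] with θ hθ
    have h4 := (Filter.eventually_all_finset F).2 hθ
    filter_upwards [h4] with μ hμ
    choose! S hS1 hS2 using hμ
    refine ⟨F.biUnion S, ?_, ?_⟩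
    · rw [Finset.card_biUnion]
      · exact hcard.trans (Finset.sum_le_sum hS1)
      · intro C hC C' hC' hne
        change Disjoint (S C) (S C')
        rw [Finset.disjoint_left]
        intro B hB hB'
        obtain ⟨x, hx⟩ := (hS2 C hC B hB).1.1.nonempty'
        exact (Set.disjoint_left.1 (hthick C hC C' hC' hne)) ((hS2 C hC B hB).2 hx)
          ((hS2 C' hC' B hB').2 hx)
    · intro B hB
      obtain ⟨C, hC, hB⟩ := Finset.mem_biUnion.1 hB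
      exact ⟨(hS2 C hC B hB).1, (hS2 C hC B hB).2.trans (hball C hC)⟩
  rcases hsum with h | h
  · exact ⟨1, R, Or.inl rfl, key 1 m1 h h1⟩
  · exact ⟨-1, R, Or.inr rfl, key (-1) m2 h h2⟩

end Pool.Agent.Lib.MP_95e7ec_an
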