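import Mathlib
import Pool.Agent.Lib.MP_95e7ec_an.Defs
import Pool.Agent.Lib.MP_95e7ec_an.Persist
import Pool.Agent.Lib.MP_95e7ec_an.Robust

/-!
# Robust realisation of finitely many limit cycles
-/

set_option autoImplicit false

open Set Filter Topology

namespace Pool.Agent.Lib.MP_95e7ec_an

theorem robust {D : ℕ} (μ0 : Pr D) (F : Finset (Set (ℝ × ℝ)))
    (hF : ∀ C ∈ F, IsLimitCycle (vfc μ0) C) :
    ∃ (ε : ℝ) (R : ℝ), (ε = 1 ∨ ε = -1) ∧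
      ∀ᶠ θ in 𝓝[>] (0 : ℝ), ∀ᶠ μ in 𝓝 (μ0 + (ε * θ) • rot μ0),
        ∃ F' : Finset (Set (ℝ × ℝ)), F.card ≤ F'.card ∧
          ∀ C ∈ F', IsLimitCycle (vfc μ) C ∧ C ⊆ Metric.ball 0 R := by
  refine robust_of μ0 F hF (fun C hC => (hF C hC).1.isCompact) ?_
    (fun C U hC hU hCU => local_persist μ0 C U hC hU hCU)
  intro C hC C' hC' hne
  rw [Set.disjoint_left]
  intro p hp hp'
  exact hne ((hF C hC).1.eq_of_mem (hF C' hC').1 hp hp')

end Pool.Agent.Lib.MP_95e7ec_an
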