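import Mathlib
import Pool.Agent.Lib.MP_95e7ec_an.Defs
import Pool.Agent.Lib.MP_95e7ec_an.Arr
import Pool.Agent.Lib.MP_95e7ec_an.Affine
import Pool.Agent.Lib.MP_95e7ec_an.Realise

/-!
# Gluing limit cycles at fat points

If the polynomials of degree at most `N` can have arbitrary jets of orders `d i` at the points
`a i`, then systems of degrees `d i` with finitely many limit cycles can be glued, in small
neighbourhoods of the points `a i`, to one system of degree `N`.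
-/

set_option autoImplicit false

open Set Filter Topology MvPolynomial

namespace Pool.Agent.Lib.MP_95e7ec_an

/-- Translation: `(tr a F)(z) = F (a + z)`. -/
noncomputable def tr (a : ℝ × ℝ) : MvPolynomial (Fin 2) ℝ →ₐ[ℝ] MvPolynomial (Fin 2) ℝ :=
  aeval fun c => X c + C (![a.1, a.2] c)

/-- The polynomials of degree at most `N` can have arbitrary `d i`-jets at the points `a i`. -/
def JetsFree (N : ℕ) {ι : Type*} (d : ι → ℕ) (a : ι → ℝ × ℝ) : Prop :=
  ∀ c : ι → (Fin 2 →₀ ℕ) → ℝ, ∃ F : MvPolynomial (Fin 2) ℝ, F.totalDegree ≤ N ∧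
    ∀ i, ∀ β : Fin 2 →₀ ℕ, β 0 + β 1 ≤ d i → (tr (a i) F).coeff β = c i β

theorem eval_tr (a : ℝ × ℝ) (F : MvPolynomial (Fin 2) ℝ) (z : ℝ × ℝ) :
    MvPolynomial.eval ![z.1, z.2] (tr a F) = MvPolynomial.eval ![a.1 + z.1, a.2 + z.2] F := by
  have h : (MvPolynomial.eval ![z.1, z.2]).comp (tr a).toRingHom =
      MvPolynomial.eval ![a.1 + z.1, a.2 + z.2] := by
    apply MvPolynomial.ringHom_ext
    · intro r
      simp [tr]
    · intro c
      fin_cases c <;> simp [tr, add_comm]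
  rw [← h]
  rfl

theorem totalDegree_tr_le (a : ℝ × ℝ) (F : MvPolynomial (Fin 2) ℝ) :
    (tr a F).totalDegree ≤ F.totalDegree := by
  have h0 : tr a F = ∑ v ∈ F.support, tr a (monomial v (coeff v F)) := by
    conv_lhs => rw [F.as_sum]
    rw [map_sum]
  rw [h0]
  refine (totalDegree_finsetSum _ _).trans (Finset.sup_le ?_)
  intro v hv
  have h1 : tr a (monomial v (coeff v F)) = C (coeff v F) *
      ((X 0 + C a.1) ^ (v 0) * (X 1 + C a.2) ^ (v 1)) := by
    rw [tr, aeval_monomial, Finsupp.prod_fintype _ _ (by intro i; simp)]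
    simp [Fin.prod_univ_two, algebraMap_eq]
  rw [h1]
  have hX : ∀ (c : Fin 2) (r : ℝ), (X c + C r : MvPolynomial (Fin 2) ℝ).totalDegree ≤ 1 := by
    intro c r
    refine (totalDegree_add _ _).trans ?_
    rw [totalDegree_C]
    simp [totalDegree_X]
  have h2 := le_totalDegree hv
  have h3 : (v.sum fun _ e => e) = v 0 + v 1 := by
    rw [Finsupp.sum_fintype _ _ (fun _ => rfl)]
    simp [Fin.sum_univ_two]
  rw [h3] at h2
  refine le_trans ?_ h2
  refine (totalDegree_mul _ _).trans ?_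
  rw [totalDegree_C, zero_add]
  refine (totalDegree_mul _ _).trans ?_
  gcongr
  · refine (totalDegree_pow _ _).trans ?_
    exact (Nat.mul_le_mul_left _ (hX 0 a.1)).trans (by rw [mul_one])
  · refine (totalDegree_pow _ _).trans ?_
    exact (Nat.mul_le_mul_left _ (hX 1 a.2)).trans (by rw [mul_one])

theorem JetsFree.exists_basis {N : ℕ} {ι : Type*} {d : ι → ℕ} {a : ι → ℝ × ℝ}
    (h : JetsFree N d a) :
    ∃ E : ι → (Fin 2 →₀ ℕ) → MvPolynomial (Fin 2) ℝ, (∀ i α, (E i α).totalDegree ≤ N) ∧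
      (∀ i α, ∀ β : Fin 2 →₀ ℕ, β 0 + β 1 ≤ d i → α = β → (tr (a i) (E i α)).coeff β = 1) ∧
      ∀ i α j, ∀ β : Fin 2 →₀ ℕ, β 0 + β 1 ≤ d j → ¬ (i = j ∧ α = β) →
        (tr (a j) (E i α)).coeff β = 0 := by
  classical
  have h1 : ∀ (i : ι) (α : Fin 2 →₀ ℕ), ∃ F : MvPolynomial (Fin 2) ℝ, F.totalDegree ≤ N ∧
      ∀ j, ∀ β : Fin 2 →₀ ℕ, β 0 + β 1 ≤ d j →
        (tr (a j) F).coeff β = if i = j ∧ α = β then 1 else 0 :=
    fun i α => h fun j β => if i = j ∧ α = β then 1 else 0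
  choose E hE1 hE2 using h1
  refine ⟨E, hE1, ?_, ?_⟩
  · intro i α β hβ hαβ
    rw [hE2 i α i β hβ, if_pos ⟨rfl, hαβ⟩]
  · intro i α j β hβ hne
    rw [hE2 i α j β hβ, if_neg hne]

section fam
variable {ι : Type*} [Fintype ι]

/-- The interpolating family: its `d j`-jet at `a j` is `δ ^ (d j) P_j (z / δ)`. -/
noncomputable def fam (d : ι → ℕ) (E : ι → (Fin 2 →₀ ℕ) → MvPolynomial (Fin 2) ℝ)
    (P : ι → MvPolynomial (Fin 2) ℝ) (δ : ℝ) : MvPolynomial (Fin 2) ℝ :=
  ∑ i, ∑ α ∈ (P i).support, C (coeff α (P i) * δ ^ (d i - (α 0 + α 1))) * E i α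

theorem fam_totalDegree {N : ℕ} (d : ι → ℕ) (E : ι → (Fin 2 →₀ ℕ) → MvPolynomial (Fin 2) ℝ)
    (hE : ∀ i α, (E i α).totalDegree ≤ N) (P : ι → MvPolynomial (Fin 2) ℝ) (δ : ℝ) :
    (fam d E P δ).totalDegree ≤ N := by
  unfold fam
  refine (totalDegree_finsetSum _ _).trans (Finset.sup_le fun i _ => ?_)
  refine (totalDegree_finsetSum _ _).trans (Finset.sup_le fun α _ => ?_)
  refine (totalDegree_mul _ _).trans ?_
  rw [totalDegree_C, zero_add]
  exact hE i α

theorem tr_fam (a : ℝ × ℝ) (d : ι → ℕ) (E : ι → (Fin 2 →₀ ℕ) → MvPolynomial (Fin 2) ℝ)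
    (P : ι → MvPolynomial (Fin 2) ℝ) (δ : ℝ) :
    tr a (fam d E P δ) =
      ∑ i, ∑ α ∈ (P i).support, C (coeff α (P i) * δ ^ (d i - (α 0 + α 1))) * tr a (E i α) := by
  unfold fam
  rw [map_sum]
  refine Finset.sum_congr rfl fun i _ => ?_
  rw [map_sum]
  refine Finset.sum_congr rfl fun α _ => ?_
  rw [map_mul]
  congr 1
  rw [← algebraMap_eq, AlgHom.commutes]

theorem contFam_tr_fam (a : ℝ × ℝ) (d : ι → ℕ)
    (E : ι → (Fin 2 →₀ ℕ) → MvPolynomial (Fin 2) ℝ) (P : ι → MvPolynomial (Fin 2) ℝ) :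
    ContFam fun δ => tr a (fam d E P δ) := by
  have h : (fun δ => tr a (fam d E P δ)) = fun δ => ∑ i, ∑ α ∈ (P i).support,
      C (coeff α (P i) * δ ^ (d i - (α 0 + α 1))) * tr a (E i α) := by
    funext δ
    exact tr_fam a d E P δ
  rw [h]
  refine ContFam.sum _ fun i _ => ContFam.sum _ fun α _ => ContFam.mul (ContFam.C ?_) (ContFam.const _)
  fun_prop

theorem coeff_tr_fam {a : ι → ℝ × ℝ} (d : ι → ℕ)
    (E : ι → (Fin 2 →₀ ℕ) → MvPolynomial (Fin 2) ℝ)
    (hE1 : ∀ i α, ∀ β : Fin 2 →₀ ℕ, β 0 + β 1 ≤ d i → α = β →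
      (tr (a i) (E i α)).coeff β = 1)
    (hE2 : ∀ i α j, ∀ β : Fin 2 →₀ ℕ, β 0 + β 1 ≤ d j → ¬ (i = j ∧ α = β) →
        (tr (a j) (E i α)).coeff β = 0)
    (P : ι → MvPolynomial (Fin 2) ℝ) (δ : ℝ) (j : ι) (β : Fin 2 →₀ ℕ) (hβ : β 0 + β 1 ≤ d j) :
    (tr (a j) (fam d E P δ)).coeff β = coeff β (P j) * δ ^ (d j - (β 0 + β 1)) := by
  classical
  rw [tr_fam, coeff_sum, Finset.sum_eq_single j]
  · rw [coeff_sum]
    by_cases hs : β ∈ (P j).support
    · rw [Finset.sum_eq_single β]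
      · rw [coeff_C_mul, hE1 j β β hβ rfl, mul_one]
      · intro α _ hα
        rw [coeff_C_mul, hE2 j α j β hβ (fun h => hα h.2), mul_zero]
      · intro h
        exact absurd hs h
    · rw [notMem_support_iff] at hs
      rw [hs, zero_mul]
      refine Finset.sum_eq_zero fun α hα => ?_
      rw [coeff_C_mul, hE2 j α j β hβ, mul_zero]
      rintro ⟨-, rfl⟩
      rw [mem_support_iff] at hα
      exact hα hs
  · intro i _ hij
    rw [coeff_sum]
    refine Finset.sum_eq_zero fun α _ => ?_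
    rw [coeff_C_mul, hE2 i α j β hβ (fun h => hij h.1), mul_zero]
  · intro h
    exact absurd (Finset.mem_univ j) h

end fam

/-- The rescaled array of coefficients. -/
noncomputable def sc (N dj : ℕ) (Pj F : MvPolynomial (Fin 2) ℝ) (δ : ℝ) : Co N := fun x y =>
  if (x : ℕ) + (y : ℕ) ≤ dj then
    Pj.coeff (Finsupp.single 0 (x : ℕ) + Finsupp.single 1 (y : ℕ))
  else δ ^ ((x : ℕ) + (y : ℕ) - dj) *
    F.coeff (Finsupp.single 0 (x : ℕ) + Finsupp.single 1 (y : ℕ))

theorem sc_zero {N dj : ℕ} {Pj F : MvPolynomial (Fin 2) ℝ} (hP : Pj.totalDegree ≤ dj) :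
    sc N dj Pj F 0 = arr N Pj := by
  funext x y
  unfold sc arr
  split_ifs with h
  · rfl
  · rw [zero_pow (by omega), zero_mul]
    symm
    apply coeff_eq_zero_of_totalDegree_lt
    refine lt_of_le_of_lt hP ?_
    rw [← Finsupp.degree_apply, Finsupp.degree_eq_sum, Fin.sum_univ_two]
    simp
    omega

theorem sc_continuous {N dj : ℕ} {Pj : MvPolynomial (Fin 2) ℝ}
    {F : ℝ → MvPolynomial (Fin 2) ℝ} (hF : ContFam F) :
    Continuous fun δ => sc N dj Pj (F δ) δ := by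
  refine continuous_pi fun x => continuous_pi fun y => ?_
  unfold sc
  split_ifs with h
  · exact continuous_const
  · exact (continuous_id.pow _).mul (hF _)

theorem eval_sc {N dj : ℕ} {Pj F : MvPolynomial (Fin 2) ℝ} (δ : ℝ) (hF : F.totalDegree ≤ N)
    (hc : ∀ β : Fin 2 →₀ ℕ, β 0 + β 1 ≤ dj →
      F.coeff β = coeff β Pj * δ ^ (dj - (β 0 + β 1))) (u v : ℝ) :
    MvPolynomial.eval ![δ * u, δ * v] F = δ ^ dj * pe (sc N dj Pj F δ) u v := by
  rw [eval_eq_pe F hF]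
  unfold pe
  rw [Finset.mul_sum]
  refine Finset.sum_congr rfl fun x _ => ?_
  rw [Finset.mul_sum]
  refine Finset.sum_congr rfl fun y _ => ?_
  simp only [smul_eq_mul, arr, sc]
  split_ifs with h
  · rw [hc _ (by simpa using h)]
    have h1 : (Finsupp.single 0 (x : ℕ) + Finsupp.single 1 (y : ℕ) : Fin 2 →₀ ℕ) 0 = x := by simp
    have h2 : (Finsupp.single 0 (x : ℕ) + Finsupp.single 1 (y : ℕ) : Fin 2 →₀ ℕ) 1 = y := by simp
    rw [h1, h2]
    have h3 : δ ^ dj = δ ^ (dj - ((x : ℕ) + (y : ℕ))) * (δ ^ (x : ℕ) * δ ^ (y : ℕ)) := by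
      rw [← pow_add, ← pow_add]
      congr 1
      omega
    rw [h3, mul_pow, mul_pow]
    ring
  · have h3 : δ ^ (x : ℕ) * δ ^ (y : ℕ) = δ ^ dj * δ ^ ((x : ℕ) + (y : ℕ) - dj) := by
      rw [← pow_add, ← pow_add]
      congr 1
      omega
    rw [mul_pow, mul_pow]
    linear_combination (coeff (Finsupp.single 0 (x : ℕ) + Finsupp.single 1 (y : ℕ)) F *
      u ^ (x : ℕ) * v ^ (y : ℕ)) * h3

theorem JetsFree.le {N : ℕ} {ι : Type*} {d : ι → ℕ} {a : ι → ℝ × ℝ}
    (h : JetsFree N d a) (i : ι) : d i ≤ N := by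
  obtain ⟨F, hF, hF2⟩ := h fun _ _ => 1
  have h1 := hF2 i (Finsupp.single 0 (d i)) (by simp)
  by_contra hcon
  push Not at hcon
  have h2 : (tr (a i) F).coeff (Finsupp.single 0 (d i)) = 0 := by
    apply coeff_eq_zero_of_totalDegree_lt
    refine lt_of_le_of_lt ((totalDegree_tr_le _ _).trans hF) ?_
    rw [← Finsupp.degree_apply, Finsupp.degree_eq_sum, Fin.sum_univ_two]
    simpa using hcon
  rw [h2] at h1
  exact zero_ne_one h1

theorem JetsFree.injective {N : ℕ} {ι : Type*} {d : ι → ℕ} {a : ι → ℝ × ℝ}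
    (h : JetsFree N d a) : Function.Injective a := by
  classical
  intro i j hij
  by_contra hne
  obtain ⟨F, hF, hF2⟩ := h fun k _ => if k = i then 1 else 0
  have h1 := hF2 i 0 (by simp)
  have h2 := hF2 j 0 (by simp)
  rw [← hij, h1, if_pos rfl, if_neg (fun e => hne e.symm)] at h2
  exact one_ne_zero h2

theorem vf_eq_vfc {N : ℕ} {P Q : MvPolynomial (Fin 2) ℝ} (hP : P.totalDegree ≤ N)
    (hQ : Q.totalDegree ≤ N) : vf P Q = vfc (arr N P, arr N Q) := by
  funext z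
  unfold vf vfc
  rw [eval_eq_pe P hP, eval_eq_pe Q hQ]

theorem glue {N : ℕ} {ι : Type*} [Fintype ι] {d : ι → ℕ} {a : ι → ℝ × ℝ}
    (hfree : JetsFree N d a) (P Q : ι → MvPolynomial (Fin 2) ℝ)
    (hP : ∀ i, (P i).totalDegree ≤ d i) (hQ : ∀ i, (Q i).totalDegree ≤ d i)
    (F : ι → Finset (Set (ℝ × ℝ))) (hF : ∀ i, ∀ C ∈ F i, IsLimitCycle (vf (P i) (Q i)) C) :
    ∃ P' Q' : MvPolynomial (Fin 2) ℝ, P'.totalDegree ≤ N ∧ Q'.totalDegree ≤ N ∧
      ∃ G : Finset (Set (ℝ × ℝ)), ∑ i, (F i).card ≤ G.card ∧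
        ∀ C ∈ G, IsLimitCycle (vf P' Q') C := by
  classical
  -- robust systems
  have h1 : ∀ i, ∃ (κ R : ℝ), ∀ᶠ μ in 𝓝 ((arr N (P i), arr N (Q i)) + κ • rot (arr N (P i), arr N (Q i))),
      ∃ F' : Finset (Set (ℝ × ℝ)), (F i).card ≤ F'.card ∧
          ∀ C ∈ F', IsLimitCycle (vfc μ) C ∧ C ⊆ Metric.ball 0 R := by
    intro i
    have h2 : ∀ C ∈ F i, IsLimitCycle (vfc (arr N (P i), arr N (Q i))) C := by
      rw [← vf_eq_vfc ((hP i).trans (hfree.le i)) ((hQ i).trans (hfree.le i))]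
      exact hF i
    obtain ⟨ε, R, -, h3⟩ := robust (arr N (P i), arr N (Q i)) (F i) h2
    obtain ⟨θ, hθ⟩ := h3.exists
    exact ⟨ε * θ, R, hθ⟩
  choose κ R h1 using h1
  set P1 : ι → MvPolynomial (Fin 2) ℝ := fun i => P i - C (κ i) * Q i with hP1
  set Q1 : ι → MvPolynomial (Fin 2) ℝ := fun i => Q i + C (κ i) * P i with hQ1
  have hC : ∀ (r : ℝ) (S : MvPolynomial (Fin 2) ℝ) (k : ℕ), S.totalDegree ≤ k →
      (C r * S).totalDegree ≤ k := by
    intro r S k hS
    refine (totalDegree_mul _ _).trans ?_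
    rw [totalDegree_C, zero_add]
    exact hS
  have hP1d : ∀ i, (P1 i).totalDegree ≤ d i := by
    intro i
    refine (totalDegree_sub _ _).trans ?_
    exact max_le (hP i) (hC _ _ _ (hQ i))
  have hQ1d : ∀ i, (Q1 i).totalDegree ≤ d i := by
    intro i
    refine (totalDegree_add _ _).trans ?_
    exact max_le (hQ i) (hC _ _ _ (hP i))
  have harr : ∀ i, (arr N (P1 i), arr N (Q1 i)) =
      (arr N (P i), arr N (Q i)) + κ i • rot (arr N (P i), arr N (Q i)) := by
    intro i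
    refine Prod.ext ?_ ?_
    · funext x y
      simp [arr, rot, hP1, coeff_C_mul, sub_eq_add_neg]
    · funext x y
      simp [arr, rot, hQ1, coeff_C_mul]
  obtain ⟨E, hE0, hE1, hE2⟩ := hfree.exists_basis
  -- the rescaled fields
  set μ : ι → ℝ → Pr N := fun j δ =>
    (sc N (d j) (P1 j) (tr (a j) (fam d E P1 δ)) δ,
      sc N (d j) (Q1 j) (tr (a j) (fam d E Q1 δ)) δ) with hμ
  have hμc : ∀ j, Continuous (μ j) := fun j =>
    (sc_continuous (contFam_tr_fam (a j) d E P1)).prodMk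
      (sc_continuous (contFam_tr_fam (a j) d E Q1))
  have hμ0 : ∀ j, μ j 0 =
      (arr N (P j), arr N (Q j)) + κ j • rot (arr N (P j), arr N (Q j)) := by
    intro j
    rw [← harr j]
    simp only [hμ, sc_zero (hP1d j), sc_zero (hQ1d j)]
  have hev : ∀ j, ∀ᶠ δ in 𝓝[>] (0 : ℝ), ∃ F' : Finset (Set (ℝ × ℝ)), (F j).card ≤ F'.card ∧
      ∀ C ∈ F', IsLimitCycle (vfc (μ j δ)) C ∧ C ⊆ Metric.ball 0 (R j) := by
    intro j
    have h2 : Tendsto (μ j) (𝓝[>] (0 : ℝ)) (𝓝 (μ j 0)) :=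
      ((hμc j).tendsto 0).mono_left nhdsWithin_le_nhds
    rw [hμ0 j] at h2
    exact h2.eventually (h1 j)
  have hdis : ∀ i j, i ≠ j → ∀ᶠ δ in 𝓝[>] (0 : ℝ),
      Disjoint (Metric.ball (a i) (δ * R i)) (Metric.ball (a j) (δ * R j)) := by
    intro i j hij
    have h2 : Tendsto (fun δ : ℝ => δ * R i + δ * R j) (𝓝[>] (0 : ℝ)) (𝓝 0) := by
      have h3 : Continuous fun δ : ℝ => δ * R i + δ * R j := by fun_prop
      have h4 := (h3.tendsto 0).mono_left (nhdsWithin_le_nhds (s := Set.Ioi (0 : ℝ)))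
      simpa using h4
    have h3 : 0 < dist (a i) (a j) := dist_pos.2 fun h => hij (hfree.injective h)
    filter_upwards [h2.eventually (gt_mem_nhds h3)] with δ hδ
    exact Metric.ball_disjoint_ball hδ.le
  have hall : ∀ᶠ δ in 𝓝[>] (0 : ℝ), 0 < δ ∧
      (∀ j, ∃ F' : Finset (Set (ℝ × ℝ)), (F j).card ≤ F'.card ∧
        ∀ C ∈ F', IsLimitCycle (vfc (μ j δ)) C ∧ C ⊆ Metric.ball 0 (R j)) ∧
      ∀ i j, i ≠ j → Disjoint (Metric.ball (a i) (δ * R i)) (Metric.ball (a j) (δ * R j)) := by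
    refine (eventually_mem_nhdsWithin).and ((Filter.eventually_all.2 hev).and ?_)
    refine Filter.eventually_all.2 fun i => Filter.eventually_all.2 fun j => ?_
    by_cases hij : i = j
    · exact Filter.Eventually.of_forall fun δ h => absurd hij h
    · filter_upwards [hdis i j hij] with δ hδ _
      exact hδ
  obtain ⟨δ, hδ0, hcyc, hdisj⟩ := hall.exists
  choose F' hF'1 hF'2 using hcyc
  have hδne : δ ≠ 0 := hδ0.ne'
  refine ⟨fam d E P1 δ, fam d E Q1 δ, fam_totalDegree d E hE0 P1 δ,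
    fam_totalDegree d E hE0 Q1 δ, ?_⟩
  set im : ι → Set (ℝ × ℝ) → Set (ℝ × ℝ) := fun j C => (fun y => a j + δ • y) '' C with him
  have himinj : ∀ j, Function.Injective (im j) := by
    intro j
    apply Set.image_injective.2
    intro y y' hyy
    have h2 : δ • y = δ • y' := add_left_cancel hyy
    exact smul_right_injective (ℝ × ℝ) hδne h2
  -- the key scaling identity
  have hscale : ∀ j (y : ℝ × ℝ), vf (fam d E P1 δ) (fam d E Q1 δ) (a j + δ • y) =
      δ ^ (d j) • vfc (μ j δ) y := by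
    intro j y
    have hdegP : (tr (a j) (fam d E P1 δ)).totalDegree ≤ N :=
      (totalDegree_tr_le _ _).trans (fam_totalDegree d E hE0 P1 δ)
    have hdegQ : (tr (a j) (fam d E Q1 δ)).totalDegree ≤ N :=
      (totalDegree_tr_le _ _).trans (fam_totalDegree d E hE0 Q1 δ)
    have e1 := eval_sc (N := N) (dj := d j) (Pj := P1 j) δ hdegP
      (fun β hβ => coeff_tr_fam d E hE1 hE2 P1 δ j β hβ) y.1 y.2
    have e2 := eval_sc (N := N) (dj := d j) (Pj := Q1 j) δ hdegQ
      (fun β hβ => coeff_tr_fam d E hE1 hE2 Q1 δ j β hβ) y.1 y.2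
    have t1 := eval_tr (a j) (fam d E P1 δ) (δ * y.1, δ * y.2)
    have t2 := eval_tr (a j) (fam d E Q1 δ) (δ * y.1, δ * y.2)
    simp only at t1 t2
    rw [t1] at e1
    rw [t2] at e2
    unfold vf vfc
    refine Prod.ext ?_ ?_
    · simp only [Prod.fst_add, Prod.snd_add, Prod.smul_fst, Prod.smul_snd, smul_eq_mul, hμ]
      exact e1
    · simp only [Prod.fst_add, Prod.snd_add, Prod.smul_fst, Prod.smul_snd, smul_eq_mul, hμ]
      exact e2
  have hlim : ∀ j, ∀ C ∈ F' j, IsLimitCycle (vf (fam d E P1 δ) (fam d E Q1 δ)) (im j C) := by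
    intro j C hC'
    set L : (ℝ × ℝ) ≃L[ℝ] (ℝ × ℝ) :=
      (LinearEquiv.smulOfNeZero ℝ (ℝ × ℝ) δ hδne).toContinuousLinearEquiv with hL
    have hLapp : ∀ y, L y = δ • y := fun y => rfl
    have hLsymm : ∀ y, L.symm y = δ⁻¹ • y := by
      intro y
      rw [ContinuousLinearEquiv.symm_apply_eq, hLapp, smul_smul, mul_inv_cancel₀ hδne, one_smul]
    have h3 := IsLimitCycle.affine (v := vf (fam d E P1 δ) (fam d E Q1 δ)) (C := C) (a j) L
      (δ * (δ ^ (d j))⁻¹) (by positivity) ?_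
    · have h4 : (fun y => a j + L y) '' C = im j C := by
        simp only [hLapp, him]
      rw [h4] at h3
      exact h3
    · have h5 : (fun y => (δ * (δ ^ (d j))⁻¹) • L.symm (vf (fam d E P1 δ) (fam d E Q1 δ) (a j + L y)))
          = vfc (μ j δ) := by
        funext y
        rw [hLsymm, hLapp, hscale, smul_smul, smul_smul]
        have h6 : δ * (δ ^ d j)⁻¹ * δ⁻¹ * δ ^ d j = 1 := by
          field_simp
        rw [h6, one_smul]
      rw [h5]
      exact (hF'2 j C hC').1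
  have hball : ∀ j, ∀ C ∈ F' j, im j C ⊆ Metric.ball (a j) (δ * R j) := by
    intro j C hC' z hz
    obtain ⟨y, hy, rfl⟩ := hz
    have h3 := (hF'2 j C hC').2 hy
    rw [mem_ball_zero_iff] at h3
    rw [mem_ball_iff_norm, add_sub_cancel_left, norm_smul, Real.norm_of_nonneg hδ0.le]
    exact mul_lt_mul_of_pos_left h3 hδ0
  refine ⟨Finset.univ.biUnion fun j => (F' j).image (im j), ?_, ?_⟩
  · rw [Finset.card_biUnion]
    · refine Finset.sum_le_sum fun j _ => ?_
      rw [Finset.card_image_of_injective _ (himinj j)]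
      exact hF'1 j
    · intro i _ j _ hij
      rw [Function.onFun, Finset.disjoint_left]
      intro S hS1 hS2
      rw [Finset.mem_image] at hS1 hS2
      obtain ⟨C1, hC1, rfl⟩ := hS1
      obtain ⟨C2, hC2, hC3⟩ := hS2
      obtain ⟨z, hz⟩ := (hlim i C1 hC1).1.nonempty'
      have h3 := hball i C1 hC1 hz
      have h4 := hball j C2 hC2 (hC3 ▸ hz)
      exact Set.disjoint_left.1 (hdisj i j hij) h3 h4
  · intro S hS
    rw [Finset.mem_biUnion] at hS
    obtain ⟨j, -, hS⟩ := hS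
    rw [Finset.mem_image] at hS
    obtain ⟨C1, hC1, rfl⟩ := hS
    exact hlim j C1 hC1

theorem exists_system {n k : ℕ} (h : (k : ℕ∞) ≤ hilbertNumber n) :
    ∃ P Q : MvPolynomial (Fin 2) ℝ, P.totalDegree ≤ n ∧ Q.totalDegree ≤ n ∧
      ∃ F : Finset (Set (ℝ × ℝ)), k ≤ F.card ∧ ∀ C ∈ F, IsLimitCycle (vf P Q) C := by
  rcases Nat.eq_zero_or_pos k with rfl | hk
  · exact ⟨0, 0, by simp, by simp, ∅, by simp, by simp⟩
  · obtain ⟨j, rfl⟩ : ∃ j, k = j + 1 := ⟨k - 1, by omega⟩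
    have h1 : (j : ℕ∞) < hilbertNumber n := by
      refine lt_of_lt_of_le ?_ h
      exact_mod_cast Nat.lt_succ_self j
    unfold hilbertNumber at h1
    simp only [lt_iSup_iff] at h1
    obtain ⟨P, Q, hP, hQ, h2⟩ := h1
    have h3 : ((j + 1 : ℕ) : ℕ∞) ≤ {C | IsLimitCycle (vf P Q) C}.encard := by
      have := Order.add_one_le_of_lt h2
      exact_mod_cast this
    obtain ⟨t, ht, ht2⟩ := Set.exists_subset_encard_eq h3
    have hfin : t.Finite := Set.finite_of_encard_eq_coe ht2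
    refine ⟨P, Q, hP, hQ, hfin.toFinset, ?_, ?_⟩
    · have h4 : (hfin.toFinset.card : ℕ∞) = ((j + 1 : ℕ) : ℕ∞) := by
        rw [← hfin.encard_eq_coe_toFinset_card, ht2]
      have h5 : hfin.toFinset.card = j + 1 := by exact_mod_cast h4
      exact h5.ge
    · intro C hC
      exact ht (hfin.mem_toFinset.1 hC)

theorem le_hilbertNumber {N : ℕ} {P Q : MvPolynomial (Fin 2) ℝ} (hP : P.totalDegree ≤ N)
    (hQ : Q.totalDegree ≤ N) (G : Finset (Set (ℝ × ℝ)))
    (hG : ∀ C ∈ G, IsLimitCycle (vf P Q) C) : (G.card : ℕ∞) ≤ hilbertNumber N := by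
  have h1 : (G.card : ℕ∞) ≤ {C | IsLimitCycle (vf P Q) C}.encard := by
    rw [← Set.encard_coe_eq_coe_finsetCard]
    exact Set.encard_le_encard hG
  refine h1.trans ?_
  unfold hilbertNumber
  refine le_iSup_of_le P (le_iSup_of_le Q (le_iSup_of_le hP (le_iSup_of_le hQ le_rfl)))

theorem enat_sum_le {ι : Type*} [Fintype ι] {f : ι → ℕ∞} {x : ℕ∞}
    (h : ∀ k : ι → ℕ, (∀ i, (k i : ℕ∞) ≤ f i) → ((∑ i, k i : ℕ) : ℕ∞) ≤ x) :
    ∑ i, f i ≤ x := by
  classical
  by_cases htop : ∃ i, f i = ⊤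
  · obtain ⟨i, hi⟩ := htop
    have hx : x = ⊤ := by
      rw [ENat.eq_top_iff_forall_ge]
      intro m
      have h1 := h (fun j => if j = i then m else 0) (by
        intro j
        by_cases hj : j = i
        · rw [hj, hi]
          exact le_top
        · simp [hj])
      simpa using h1
    rw [hx]
    exact le_top
  · push Not at htop
    have h1 : ∀ i, ∃ k : ℕ, f i = k := fun i => by
      obtain ⟨k, hk⟩ := ENat.ne_top_iff_exists.1 (htop i)
      exact ⟨k, hk.symm⟩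
    choose k hk using h1
    have h2 := h k (fun i => (hk i).ge)
    simp only [hk]
    exact_mod_cast h2

/-- If the polynomials of degree at most `N` can have arbitrary `d i`-jets at suitable points,
then the `N`-th Hilbert number is at least the sum of the Hilbert numbers of the `d i`. -/
theorem sum_hilbertNumber_le {N : ℕ} {ι : Type*} [Fintype ι] {d : ι → ℕ} {a : ι → ℝ × ℝ}
    (hfree : JetsFree N d a) : ∑ i, hilbertNumber (d i) ≤ hilbertNumber N := by
  refine enat_sum_le fun k hk => ?_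
  choose P Q hP hQ F hF1 hF2 using fun i => exists_system (hk i)
  obtain ⟨P', Q', hP', hQ', G, hG1, hG2⟩ := glue hfree P Q hP hQ F hF2
  refine le_trans ?_ (le_hilbertNumber hP' hQ' G hG2)
  have h1 : ∑ i, k i ≤ G.card := (Finset.sum_le_sum fun i _ => hF1 i).trans hG1
  exact_mod_cast h1

end Pool.Agent.Lib.MP_95e7ec_an
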