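import Mathlib
import Pool.Agent.Lib.MP_95e7ec_an.PlaneDefs
import Pool.Agent.Lib.MP_95e7ec_an.SquareTV
import Pool.Agent.Lib.MP_95e7ec_an.Assemble

/-!
# The cut-off function (task P3a)
-/

set_option autoImplicit false

open Set Filter Topology MeasureTheory
open scoped ContDiff ENNReal

namespace Pool.Agent.Lib.MP_95e7ec_an

variable {D : ℕ}

theorem cutF_nonneg (R : ℝ) (z : ℝ × ℝ) : 0 ≤ cutF R z := by
  unfold cutF
  positivity

theorem continuous_cutX (R : ℝ) : Continuous (cutX R) := by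
  unfold cutX
  fun_prop

theorem continuous_cutY (R : ℝ) : Continuous (cutY R) := by
  unfold cutY
  fun_prop

private theorem co_continuous_cutF (R : ℝ) : Continuous (cutF R) := by
  unfold cutF
  fun_prop

/-- derivative of `t ↦ (t₊)^(k+2)` -/
private theorem co_pos_pow (k : ℕ) (t : ℝ) :
    HasDerivAt (fun t : ℝ => (max 0 t) ^ (k + 2)) ((k + 2) * (max 0 t) ^ (k + 1)) t := by
  rcases lt_trichotomy t 0 with h | h | h
  · have h1 : (fun t : ℝ => (max 0 t) ^ (k + 2)) =ᶠ[𝓝 t] fun _ => 0 := by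
      filter_upwards [gt_mem_nhds h] with s hs
      rw [max_eq_left hs.le]
      simp
    rw [max_eq_left h.le]
    have h2 := (hasDerivAt_const t (0 : ℝ)).congr_of_eventuallyEq h1
    simpa using h2
  · subst h
    rw [hasDerivAt_iff_isLittleO_nhds_zero]
    have h1 : (fun h : ℝ => (max 0 (0 + h)) ^ (k + 2) - (max 0 (0 : ℝ)) ^ (k + 2) -
        h • ((k + 2) * (max 0 (0 : ℝ)) ^ (k + 1))) = fun h => (max 0 h) ^ (k + 2) := by
      funext h; simp
    rw [h1]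
    have h2 : (fun h : ℝ => (max 0 h) ^ (k + 2)) =O[𝓝 0] fun h : ℝ => h ^ (k + 2) := by
      refine Asymptotics.isBigO_of_le _ fun h => ?_
      rw [norm_pow, norm_pow]
      apply pow_le_pow_left₀ (norm_nonneg _)
      rw [Real.norm_eq_abs, Real.norm_eq_abs]
      rcases le_total 0 h with h' | h'
      · rw [max_eq_right h']
      · rw [max_eq_left h', abs_zero]; exact abs_nonneg _
    exact h2.trans_isLittleO (Asymptotics.isLittleO_pow_id (by omega))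
  · have h1 : (fun t : ℝ => (max 0 t) ^ (k + 2)) =ᶠ[𝓝 t] fun t => t ^ (k + 2) := by
      filter_upwards [lt_mem_nhds h] with s hs
      rw [max_eq_right hs.le]
    rw [max_eq_right h.le]
    have h2 := (hasDerivAt_pow (k + 2) t).congr_of_eventuallyEq h1
    have h3 : k + 2 - 1 = k + 1 := by omega
    rw [h3] at h2
    push_cast at h2
    exact h2

private theorem co_inner (R : ℝ) (z : ℝ × ℝ) :
    HasFDerivAt (fun z : ℝ × ℝ => 4 * R ^ 2 - (z.1 ^ 2 + z.2 ^ 2))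
      (-((2 * z.1) • ContinuousLinearMap.fst ℝ ℝ ℝ + (2 * z.2) • ContinuousLinearMap.snd ℝ ℝ ℝ))
      z := by
  have h1 : HasFDerivAt (fun z : ℝ × ℝ => z.1 ^ 2) ((2 * z.1) • ContinuousLinearMap.fst ℝ ℝ ℝ)
      z := by
    have h := (hasDerivAt_pow 2 z.1).comp_hasFDerivAt z (hasFDerivAt_fst (𝕜 := ℝ) (p := z))
    refine h.congr_fderiv ?_
    simp
  have h2 : HasFDerivAt (fun z : ℝ × ℝ => z.2 ^ 2) ((2 * z.2) • ContinuousLinearMap.snd ℝ ℝ ℝ)
      z := by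
    have h := (hasDerivAt_pow 2 z.2).comp_hasFDerivAt z (hasFDerivAt_snd (𝕜 := ℝ) (p := z))
    refine h.congr_fderiv ?_
    simp
  exact (h1.add h2).const_sub (4 * R ^ 2)

set_option linter.unusedVariables false in
theorem cutF_hasFDerivAt {R : ℝ} (hR : 0 < R) (z : ℝ × ℝ) :
    HasFDerivAt (cutF R) (cutX R z • ContinuousLinearMap.fst ℝ ℝ ℝ +
      cutY R z • ContinuousLinearMap.snd ℝ ℝ ℝ) z := by
  have h1 := (co_pos_pow 0 (4 * R ^ 2 - (z.1 ^ 2 + z.2 ^ 2))).comp_hasFDerivAt z (co_inner R z)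
  have h2 := h1.const_mul (1 / (16 * R ^ 4))
  have h3 : cutF R = fun z : ℝ × ℝ => 1 / (16 * R ^ 4) *
      ((fun t : ℝ => (max 0 t) ^ (0 + 2)) ∘ fun z : ℝ × ℝ => 4 * R ^ 2 - (z.1 ^ 2 + z.2 ^ 2)) z := by
    funext z
    simp only [cutF, Function.comp]
    ring
  rw [h3]
  refine h2.congr_fderiv (ContinuousLinearMap.ext fun w => ?_)
  show 1 / (16 * R ^ 4) * ((((0 : ℕ) : ℝ) + 2) *
      max 0 (4 * R ^ 2 - (z.1 ^ 2 + z.2 ^ 2)) ^ (0 + 1) * (-((2 * z.1) * w.1 + (2 * z.2) * w.2))) =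
    cutX R z * w.1 + cutY R z * w.2
  rw [cutX, cutY]
  push_cast
  ring

private theorem co_outside {R : ℝ} {z : ℝ × ℝ} (hz : z ∉ disc 0 (2 * R)) :
    max 0 (4 * R ^ 2 - (z.1 ^ 2 + z.2 ^ 2)) = 0 := by
  simp only [disc, Set.mem_ofPred_eq, not_lt, Prod.fst_zero, Prod.snd_zero, sub_zero] at hz
  exact max_eq_left (by nlinarith)

private theorem co_max_le (R : ℝ) (z : ℝ × ℝ) :
    max 0 (4 * R ^ 2 - (z.1 ^ 2 + z.2 ^ 2)) ≤ 4 * R ^ 2 :=
  max_le (by positivity) (by nlinarith [sq_nonneg z.1, sq_nonneg z.2])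

private theorem co_cutF_le {R : ℝ} (hR : 0 < R) (z : ℝ × ℝ) : cutF R z ≤ 1 := by
  rw [cutF, div_le_one (by positivity)]
  have h1 := co_max_le R z
  have h0 : 0 ≤ max 0 (4 * R ^ 2 - (z.1 ^ 2 + z.2 ^ 2)) := le_max_left _ _
  calc (max 0 (4 * R ^ 2 - (z.1 ^ 2 + z.2 ^ 2))) ^ 2 ≤ (4 * R ^ 2) ^ 2 :=
        pow_le_pow_left₀ h0 h1 2
    _ = 16 * R ^ 4 := by ring

private theorem co_grad_le {R : ℝ} (hR : 0 < R) {z : ℝ × ℝ} (hz : z ∈ disc 0 (2 * R)) :
    |cutX R z| + |cutY R z| ≤ 3 / R := by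
  simp only [disc, Set.mem_ofPred_eq, Prod.fst_zero, Prod.snd_zero, sub_zero] at hz
  have h0 : 0 ≤ max 0 (4 * R ^ 2 - (z.1 ^ 2 + z.2 ^ 2)) := le_max_left _ _
  have h1 := co_max_le R z
  have e1 : |cutX R z| = 4 * |z.1| * max 0 (4 * R ^ 2 - (z.1 ^ 2 + z.2 ^ 2)) / (16 * R ^ 4) := by
    rw [cutX, abs_div, abs_neg, abs_mul, abs_mul, abs_of_nonneg h0,
      abs_of_pos (by positivity : (0 : ℝ) < 16 * R ^ 4)]
    norm_num
  have e2 : |cutY R z| = 4 * |z.2| * max 0 (4 * R ^ 2 - (z.1 ^ 2 + z.2 ^ 2)) / (16 * R ^ 4) := by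
    rw [cutY, abs_div, abs_neg, abs_mul, abs_mul, abs_of_nonneg h0,
      abs_of_pos (by positivity : (0 : ℝ) < 16 * R ^ 4)]
    norm_num
  have hs : |z.1| + |z.2| ≤ 3 * R := by
    apply abs_le_of_sq_le_sq' _ (by positivity) |>.2
    nlinarith [sq_abs z.1, sq_abs z.2, sq_nonneg (|z.1| - |z.2|)]
  rw [e1, e2, ← add_div, div_le_div_iff₀ (by positivity) hR]
  have h2 : 4 * |z.1| * max 0 (4 * R ^ 2 - (z.1 ^ 2 + z.2 ^ 2)) +
      4 * |z.2| * max 0 (4 * R ^ 2 - (z.1 ^ 2 + z.2 ^ 2)) ≤ 4 * (3 * R) * (4 * R ^ 2) := by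
    calc _ = 4 * (|z.1| + |z.2|) * max 0 (4 * R ^ 2 - (z.1 ^ 2 + z.2 ^ 2)) := by ring
      _ ≤ 4 * (3 * R) * (4 * R ^ 2) := by gcongr
  calc _ ≤ 4 * (3 * R) * (4 * R ^ 2) * R := by gcongr
    _ = 3 * (16 * R ^ 4) := by ring

/-- the area integral of the cut-off expression -/
theorem cut_integral {n : ℕ} (μ : Pr n) {R : ℝ} (hR : 0 < R) :
    ∫⁻ z, ENNReal.ofReal (cutF R z * argGrad μ z + |cutX R z| + |cutY R z|) ≤
      ENNReal.ofReal ((8 * Real.pi * n + 48) * R) := by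
  have hm : MeasurableSet (disc 0 (2 * R)) := (isOpen_disc _ _).measurableSet
  have h1 : ∀ z : ℝ × ℝ, ENNReal.ofReal (cutF R z * argGrad μ z + |cutX R z| + |cutY R z|) ≤
      (disc 0 (2 * R)).indicator
        (fun z => ENNReal.ofReal (argGrad μ z) + ENNReal.ofReal (3 / R)) z := by
    intro z
    by_cases hz : z ∈ disc 0 (2 * R)
    · rw [Set.indicator_of_mem hz, ← ENNReal.ofReal_add (argGrad_nonneg μ z) (by positivity)]
      apply ENNReal.ofReal_le_ofReal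
      have h2 : cutF R z * argGrad μ z ≤ 1 * argGrad μ z :=
        mul_le_mul_of_nonneg_right (co_cutF_le hR z) (argGrad_nonneg μ z)
      have h3 := co_grad_le hR hz
      linarith
    · rw [Set.indicator_of_notMem hz]
      have h2 := co_outside hz
      have e0 : cutF R z = 0 := by rw [cutF, h2]; simp
      have e1 : cutX R z = 0 := by rw [cutX, h2]; simp
      have e2 : cutY R z = 0 := by rw [cutY, h2]; simp
      rw [e0, e1, e2]
      simp
  have hsq := disc_subset_square 0 (by positivity : (0 : ℝ) ≤ 2 * R)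
  calc ∫⁻ z, ENNReal.ofReal (cutF R z * argGrad μ z + |cutX R z| + |cutY R z|)
      ≤ ∫⁻ z, (disc 0 (2 * R)).indicator
        (fun z => ENNReal.ofReal (argGrad μ z) + ENNReal.ofReal (3 / R)) z := lintegral_mono h1
    _ = ∫⁻ z in disc 0 (2 * R), (ENNReal.ofReal (argGrad μ z) + ENNReal.ofReal (3 / R)) :=
        lintegral_indicator hm _
    _ = (∫⁻ z in disc 0 (2 * R), ENNReal.ofReal (argGrad μ z)) +
          ∫⁻ _ in disc 0 (2 * R), ENNReal.ofReal (3 / R) :=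
        lintegral_add_right _ measurable_const
    _ ≤ ENNReal.ofReal (4 * Real.pi * n * (2 * R)) + ENNReal.ofReal (3 / R * (16 * R ^ 2)) := by
        apply add_le_add
        · exact lintegral_square μ (by positivity) hsq
        · rw [setLIntegral_const, ENNReal.ofReal_mul (by positivity : (0 : ℝ) ≤ 3 / R)]
          apply mul_le_mul' le_rfl
          refine (measure_mono hsq).trans ?_
          rw [Measure.volume_eq_prod, Measure.prod_prod, Real.volume_Ioo, Real.volume_Ioo,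
            ← ENNReal.ofReal_mul (by simp; positivity)]
          apply ENNReal.ofReal_le_ofReal
          simp only [Prod.fst_zero, Prod.snd_zero]
          nlinarith
    _ = ENNReal.ofReal ((8 * Real.pi * n + 48) * R) := by
        rw [← ENNReal.ofReal_add (by positivity) (by positivity)]
        congr 1
        field_simp
        ring

/-- the primitive -/
private noncomputable def coG (R : ℝ) (z : ℝ × ℝ) : ℝ :=
  -((max 0 (4 * R ^ 2 - (z.1 ^ 2 + z.2 ^ 2))) ^ 3) / (192 * R ^ 5)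

private theorem coG_hasFDerivAt {R : ℝ} (z : ℝ × ℝ) :
    HasFDerivAt (coG R)
      ((z.1 * (max 0 (4 * R ^ 2 - (z.1 ^ 2 + z.2 ^ 2))) ^ 2 / (32 * R ^ 5)) •
        ContinuousLinearMap.fst ℝ ℝ ℝ +
      (z.2 * (max 0 (4 * R ^ 2 - (z.1 ^ 2 + z.2 ^ 2))) ^ 2 / (32 * R ^ 5)) •
        ContinuousLinearMap.snd ℝ ℝ ℝ) z := by
  have h1 := (co_pos_pow 1 (4 * R ^ 2 - (z.1 ^ 2 + z.2 ^ 2))).comp_hasFDerivAt z (co_inner R z)
  have h2 := h1.const_mul (-(1 / (192 * R ^ 5)))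
  have h3 : coG R = fun z : ℝ × ℝ => -(1 / (192 * R ^ 5)) *
      ((fun t : ℝ => (max 0 t) ^ (1 + 2)) ∘ fun z : ℝ × ℝ => 4 * R ^ 2 - (z.1 ^ 2 + z.2 ^ 2)) z := by
    funext z
    simp only [coG, Function.comp]
    ring
  rw [h3]
  refine h2.congr_fderiv (ContinuousLinearMap.ext fun w => ?_)
  show -(1 / (192 * R ^ 5)) * ((((1 : ℕ) : ℝ) + 2) *
      max 0 (4 * R ^ 2 - (z.1 ^ 2 + z.2 ^ 2)) ^ (1 + 1) * (-((2 * z.1) * w.1 + (2 * z.2) * w.2))) =
    z.1 * (max 0 (4 * R ^ 2 - (z.1 ^ 2 + z.2 ^ 2))) ^ 2 / (32 * R ^ 5) * w.1 +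
      z.2 * (max 0 (4 * R ^ 2 - (z.1 ^ 2 + z.2 ^ 2))) ^ 2 / (32 * R ^ 5) * w.2
  push_cast
  ring

/-- the derivative of the primitive in a direction is at most `cutF` times the length -/
private theorem coG_le {R : ℝ} (hR : 0 < R) (z u : ℝ × ℝ) :
    |z.1 * (max 0 (4 * R ^ 2 - (z.1 ^ 2 + z.2 ^ 2))) ^ 2 / (32 * R ^ 5) * u.1 +
      z.2 * (max 0 (4 * R ^ 2 - (z.1 ^ 2 + z.2 ^ 2))) ^ 2 / (32 * R ^ 5) * u.2| ≤
      cutF R z * nm u := by
  by_cases hz : z ∈ disc 0 (2 * R)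
  · simp only [disc, Set.mem_ofPred_eq, Prod.fst_zero, Prod.snd_zero, sub_zero] at hz
    set m := max 0 (4 * R ^ 2 - (z.1 ^ 2 + z.2 ^ 2)) with hm
    have e1 : z.1 * m ^ 2 / (32 * R ^ 5) * u.1 + z.2 * m ^ 2 / (32 * R ^ 5) * u.2 =
        m ^ 2 / (32 * R ^ 5) * (z.1 * u.1 + z.2 * u.2) := by ring
    rw [e1, abs_mul, abs_of_nonneg (by positivity : 0 ≤ m ^ 2 / (32 * R ^ 5))]
    have hcs : |z.1 * u.1 + z.2 * u.2| ≤ 2 * R * nm u := by
      have hn : 0 ≤ nm u := Real.sqrt_nonneg _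
      apply abs_le_of_sq_le_sq _ (by positivity)
      have h4 := nm_sq u
      have h5 : (2 * R * nm u) ^ 2 = (2 * R) ^ 2 * (u.1 ^ 2 + u.2 ^ 2) := by
        rw [mul_pow, h4]
      rw [h5]
      nlinarith [sq_nonneg (z.1 * u.2 - z.2 * u.1), sq_nonneg u.1, sq_nonneg u.2]
    calc m ^ 2 / (32 * R ^ 5) * |z.1 * u.1 + z.2 * u.2|
        ≤ m ^ 2 / (32 * R ^ 5) * (2 * R * nm u) := by gcongr
      _ = cutF R z * nm u := by
          rw [cutF, ← hm]
          field_simp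
          ring
  · have h2 := co_outside hz
    rw [cutF, h2]
    simp

/-- a closed orbit of a family which meets `|z| ≤ R` and `|z| ≥ 2R` has a large weighted length -/
theorem cut_length {μ : Pr D} {Ω : Set (ℝ × ℝ)} (F : Fam μ Ω) {s : ℝ} (hs : s ∈ F.J) {R : ℝ}
    (hR : 0 < R) (h1 : ∃ z ∈ F.orb s, nm z ≤ R) (h2 : ∃ z ∈ F.orb s, 2 * R ≤ nm z) :
    7 / 50 * R ≤ ∫ t in (0 : ℝ)..1,
      F.τ s * (cutF R (pth (F.Z s) t) * nm (vfc μ (pth (F.Z s) t))) := by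
  obtain ⟨z1, ⟨t1, ht1⟩, hz1⟩ := h1
  obtain ⟨z2, ⟨t2, ht2⟩, hz2⟩ := h2
  set p : ℝ → ℝ × ℝ := pth (F.Z s) with hp
  have hpc : Continuous p := continuous_pth _
  have hτ := F.tau_pos s hs
  -- the derivative of the path
  have hpd : ∀ t ∈ Set.Ioo (0 : ℝ) 1,
      HasDerivAt p (F.τ s • vfc (rotA μ (F.a s)) (p t)) t := by
    intro t ht
    have h := (F.sol s hs).hasDerivWithinAt ⟨t, ht.1.le, ht.2.le⟩
    have h' : HasDerivWithinAt p (F.τ s • vfc (rotA μ (F.a s)) (p t)) (Set.Icc 0 1) t := by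
      have e1 : at' (F.Z s) ⟨t, ht.1.le, ht.2.le⟩ = p t := (pth_coe (F.Z s) ⟨t, ht.1.le, ht.2.le⟩).symm
      rw [e1] at h
      exact h
    exact h'.hasDerivAt (Icc_mem_nhds ht.1 ht.2)
  have hGd : ∀ t ∈ Set.Ioo (0 : ℝ) 1, HasDerivAt (fun t => coG R (p t))
      (((p t).1 * (max 0 (4 * R ^ 2 - ((p t).1 ^ 2 + (p t).2 ^ 2))) ^ 2 / (32 * R ^ 5)) *
        (F.τ s • vfc (rotA μ (F.a s)) (p t)).1 +
      ((p t).2 * (max 0 (4 * R ^ 2 - ((p t).1 ^ 2 + (p t).2 ^ 2))) ^ 2 / (32 * R ^ 5)) *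
        (F.τ s • vfc (rotA μ (F.a s)) (p t)).2) t := by
    intro t ht
    have h := (coG_hasFDerivAt (R := R) (p t)).comp_hasDerivAt t (hpd t ht)
    exact h
  have hGc : Continuous fun t => coG R (p t) := by
    have : Continuous (coG R) := by unfold coG; fun_prop
    exact this.comp hpc
  let g : ℝ → ℝ := fun t => ((p t).1 * (max 0 (4 * R ^ 2 - ((p t).1 ^ 2 + (p t).2 ^ 2))) ^ 2 /
        (32 * R ^ 5)) * (F.τ s • vfc (rotA μ (F.a s)) (p t)).1 +
      ((p t).2 * (max 0 (4 * R ^ 2 - ((p t).1 ^ 2 + (p t).2 ^ 2))) ^ 2 / (32 * R ^ 5)) *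
        (F.τ s • vfc (rotA μ (F.a s)) (p t)).2
  have hgc : Continuous g := by
    have h3 : Continuous fun t => vfc (rotA μ (F.a s)) (p t) := (continuous_vfc _).comp hpc
    have h4 : Continuous fun t => (p t).1 := continuous_fst.comp hpc
    have h5 : Continuous fun t => (p t).2 := continuous_snd.comp hpc
    have h6 : ∀ V : ℝ → ℝ × ℝ, Continuous V → Continuous fun t =>
        ((p t).1 * (max 0 (4 * R ^ 2 - ((p t).1 ^ 2 + (p t).2 ^ 2))) ^ 2 /
          (32 * R ^ 5)) * (F.τ s • V t).1 +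
        ((p t).2 * (max 0 (4 * R ^ 2 - ((p t).1 ^ 2 + (p t).2 ^ 2))) ^ 2 / (32 * R ^ 5)) *
          (F.τ s • V t).2 := by
      intro V hV
      fun_prop
    exact h6 _ h3
  let f : ℝ → ℝ := fun t => F.τ s * (cutF R (p t) * nm (vfc μ (p t)))
  have hfc : Continuous f := by
    have h3 : Continuous fun t => nm (vfc μ (p t)) := continuous_nm.comp ((continuous_vfc _).comp hpc)
    have h4 : Continuous fun t => cutF R (p t) := (co_continuous_cutF R).comp hpc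
    simp only [f]
    fun_prop
  have hf0 : ∀ t, 0 ≤ f t := fun t =>
    mul_nonneg hτ.le (mul_nonneg (cutF_nonneg _ _) (Real.sqrt_nonneg _))
  have hgf : ∀ t, |g t| ≤ f t := by
    intro t
    have h := coG_le hR (p t) (F.τ s • vfc (rotA μ (F.a s)) (p t))
    refine h.trans (le_of_eq ?_)
    have e1 : nm (F.τ s • vfc (rotA μ (F.a s)) (p t)) = F.τ s * nm (vfc μ (p t)) := by
      have e2 : nm (vfc (rotA μ (F.a s)) (p t)) = nm (vfc μ (p t)) := by
        rw [vfc_rotA, nm_turn]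
      rw [← e2, nm, nm]
      simp only [Prod.smul_fst, Prod.smul_snd, smul_eq_mul]
      rw [show (F.τ s * (vfc (rotA μ (F.a s)) (p t)).1) ^ 2 +
          (F.τ s * (vfc (rotA μ (F.a s)) (p t)).2) ^ 2 =
          F.τ s ^ 2 * ((vfc (rotA μ (F.a s)) (p t)).1 ^ 2 +
            (vfc (rotA μ (F.a s)) (p t)).2 ^ 2) by ring,
        Real.sqrt_mul (by positivity), Real.sqrt_sq hτ.le]
    rw [e1]
    simp only [f]
    ring
  -- the estimate on a subinterval
  have key : ∀ a b : ℝ, 0 ≤ a → a ≤ b → b ≤ 1 →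
      |coG R (p b) - coG R (p a)| ≤ ∫ t in (0 : ℝ)..1, f t := by
    intro a b ha hab hb
    have h3 : ∫ t in a..b, g t = coG R (p b) - coG R (p a) := by
      apply intervalIntegral.integral_eq_sub_of_hasDerivAt_of_le hab hGc.continuousOn
      · intro t ht
        exact hGd t ⟨lt_of_le_of_lt ha ht.1, lt_of_lt_of_le ht.2 hb⟩
      · exact hgc.intervalIntegrable _ _
    rw [← h3]
    calc |∫ t in a..b, g t| ≤ ∫ t in a..b, |g t| :=
          intervalIntegral.abs_integral_le_integral_abs hab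
      _ ≤ ∫ t in a..b, f t :=
          intervalIntegral.integral_mono_on hab (hgc.abs.intervalIntegrable _ _)
            (hfc.intervalIntegrable _ _) (fun t _ => hgf t)
      _ ≤ ∫ t in (0 : ℝ)..1, f t := by
          apply intervalIntegral.integral_mono_interval ha hab hb
          · exact Filter.Eventually.of_forall fun t => hf0 t
          · exact hfc.intervalIntegrable _ _
  have hG1 : coG R z1 ≤ -(27 / 192 * R) := by
    have h3 : z1.1 ^ 2 + z1.2 ^ 2 ≤ R ^ 2 := by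
      rw [← nm_sq]
      exact pow_le_pow_left₀ (Real.sqrt_nonneg _) hz1 2
    have h4 : 3 * R ^ 2 ≤ max 0 (4 * R ^ 2 - (z1.1 ^ 2 + z1.2 ^ 2)) :=
      le_max_of_le_right (by linarith)
    have h5 : (3 * R ^ 2) ^ 3 ≤ (max 0 (4 * R ^ 2 - (z1.1 ^ 2 + z1.2 ^ 2))) ^ 3 :=
      pow_le_pow_left₀ (by positivity) h4 3
    rw [coG, neg_div, neg_le_neg_iff, le_div_iff₀ (by positivity)]
    calc 27 / 192 * R * (192 * R ^ 5) = (3 * R ^ 2) ^ 3 := by ring
      _ ≤ _ := h5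
  have hG2 : coG R z2 = 0 := by
    have h3 : (2 * R) ^ 2 ≤ z2.1 ^ 2 + z2.2 ^ 2 := by
      rw [← nm_sq]
      exact pow_le_pow_left₀ (by positivity) hz2 2
    have h4 : max 0 (4 * R ^ 2 - (z2.1 ^ 2 + z2.2 ^ 2)) = 0 := max_eq_left (by nlinarith)
    rw [coG, h4]
    simp
  have e1 : p t1 = z1 := by rw [hp, pth_coe]; exact ht1
  have e2 : p t2 = z2 := by rw [hp, pth_coe]; exact ht2
  have hfin : |coG R z2 - coG R z1| ≤ ∫ t in (0 : ℝ)..1, f t := by
    rcases le_total (t1 : ℝ) t2 with h | h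
    · have := key t1 t2 t1.2.1 h t2.2.2
      rwa [e1, e2] at this
    · have := key t2 t1 t2.2.1 h t1.2.2
      rw [e1, e2] at this
      rwa [abs_sub_comm]
  rw [hG2] at hfin
  have h6 : 0 - coG R z1 ≤ |0 - coG R z1| := le_abs_self _
  have h7 : ∫ t in (0 : ℝ)..1, f t = ∫ t in (0 : ℝ)..1,
      F.τ s * (cutF R (p t) * nm (vfc μ (p t))) := rfl
  rw [← h7]
  linarith

end Pool.Agent.Lib.MP_95e7ec_an
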