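import Mathlib
import Pool.Agent.Lib.MP_95e7ec_an.PlaneDefs
import Pool.Agent.Lib.MP_95e7ec_an.GenAssemble
import Pool.Agent.Lib.MP_95e7ec_an.Persist

/-!
# The area inequality for a functional of the closed orbits
-/

set_option autoImplicit false

open Set Filter Topology MeasureTheory
open scoped ContDiff ENNReal

namespace Pool.Agent.Lib.MP_95e7ec_an

variable {D : ℕ}

/-- all closed orbits, numbered by the families -/
private theorem ss_eq {μ : Pr D} {Ω : Set (ℝ × ℝ)} {f : Set (ℝ × ℝ) → ℝ≥0∞} (F : ℕ → Fam μ Ω)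
    (L : ℕ → ℝ → ℝ≥0∞) (hL : ∀ k, ∀ s ∈ (F k).J, f ((F k).orb s) = L k s) (hΩ : IsOpen Ω)
    (hF : ∀ G : Fam μ Ω, G.img G.J ⊆ ⋃ k, (F k).img (F k).J) {α : ℝ}
    (hα : α ∈ Set.Ioo 0 Real.pi) :
    setSum f (vfc μ) Ω α =
      ∑' k, ∑' s : {s : ℝ // s ∈ newPar F k ∧ (F k).a s = α}, L k s := by
  rw [setSum, ← ENNReal.tsum_sigma' (fun q : Σ k, {s : ℝ // s ∈ newPar F k ∧
    (F k).a s = α} => L q.1 q.2)]
  rw [← (Equiv.ofBijective _ (cover_bijective F hΩ hF hα)).tsum_eq]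
  apply tsum_congr
  rintro ⟨k, s, hs, has⟩
  exact hL k s hs.1

theorem setSum_le (μ : Pr D) {Ω : Set (ℝ × ℝ)} (hΩ : IsOpen Ω) {f : Set (ℝ × ℝ) → ℝ≥0∞}
    (hf : ∀ F : Fam μ Ω, ∃ L : ℝ → ℝ≥0∞, Measurable L ∧ ∀ s ∈ F.J, f (F.orb s) = L s)
    {g : ℝ × ℝ → ℝ≥0∞} (hg : Measurable g)
    (H : ∀ F : Fam μ Ω, ∀ s ∈ F.J, ENNReal.ofReal |F.a' s| * f (F.orb s) ≤
      ∫⁻ t in Set.Ioo (0 : ℝ) 1, ENNReal.ofReal (F.jac s t) * g (pth (F.Z s) t)) :
    ∫⁻ α in Set.Ioo 0 Real.pi, setSum f (vfc μ) Ω α ≤ ∫⁻ z in Ω, g z := by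
  choose L hLm hLf using hf
  have hbound : ∀ (F : Fam μ Ω) {E : Set ℝ}, MeasurableSet E → E ⊆ F.J →
      ∫⁻ s in E, ENNReal.ofReal |F.a' s| * L F s ≤ ∫⁻ z in F.img E, g z := by
    intro F E hE hEJ
    rw [F.lintegral_img hE hEJ g hg]
    refine setLIntegral_mono' hE fun s hs => ?_
    rw [← hLf F s (hEJ hs)]
    exact H F s (hEJ hs)
  obtain ⟨T, hT, hTU⟩ := TopologicalSpace.isOpen_iUnion_countable
    (fun G : Fam μ Ω => G.img G.J) (fun G => G.isOpen_img G.isOpen_J subset_rfl)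
  rcases T.eq_empty_or_nonempty with hemp | hne
  · have h0 : ∀ α ∈ Set.Ioo 0 Real.pi, setSum f (vfc μ) Ω α = 0 := by
      intro α hα
      have : IsEmpty {C : Set (ℝ × ℝ) // IsClosedOrbit (turn α (vfc μ)) C ∧ C ⊆ Ω} := by
        refine ⟨fun ⟨C, hC, hCΩ⟩ => ?_⟩
        have hC' : IsClosedOrbit (vfc (rotA μ α)) C := by rw [vfc_rotA]; exact hC
        obtain ⟨G, s0, hs0, hGa, hGC⟩ := exists_fam μ hΩ hα hC' hCΩ
        have h1 : at' (G.Z s0) half ∈ ⋃ G : Fam μ Ω, G.img G.J :=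
          mem_iUnion.2 ⟨G, G.mid_mem hs0⟩
        rw [← hTU, hemp] at h1
        simp at h1
      rw [setSum, tsum_empty]
    rw [setLIntegral_congr_fun measurableSet_Ioo h0]
    simp
  · obtain ⟨F, hFr⟩ := hT.exists_eq_range hne
    have hF : ∀ G : Fam μ Ω, G.img G.J ⊆ ⋃ k, (F k).img (F k).J := by
      intro G z hz
      have h1 : z ∈ ⋃ G : Fam μ Ω, G.img G.J := mem_iUnion.2 ⟨G, hz⟩
      rw [← hTU, hFr] at h1
      simpa using h1
    have hone := fun k => one_dim (F k).isOpen_J (measurableSet_newPar F k) (newPar_subset F k)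
      (F k).deriv_a (F k).cont_a' (hLm (F k))
    calc ∫⁻ α in Set.Ioo 0 Real.pi, setSum f (vfc μ) Ω α
        = ∫⁻ α in Set.Ioo 0 Real.pi, ∑' k, ∑' s : {s : ℝ // s ∈ newPar F k ∧
          (F k).a s = α}, L (F k) s :=
          setLIntegral_congr_fun measurableSet_Ioo fun α hα =>
            ss_eq F (fun k => L (F k)) (fun k => hLf (F k)) hΩ hF hα
      _ ≤ ∫⁻ α, ∑' k, ∑' s : {s : ℝ // s ∈ newPar F k ∧ (F k).a s = α}, L (F k) s :=
          setLIntegral_le_lintegral _ _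
      _ = ∑' k, ∫⁻ α, ∑' s : {s : ℝ // s ∈ newPar F k ∧ (F k).a s = α}, L (F k) s :=
          lintegral_tsum fun k => (hone k).1
      _ = ∑' k, ∫⁻ s in newPar F k, ENNReal.ofReal |(F k).a' s| * L (F k) s :=
          tsum_congr fun k => (hone k).2
      _ ≤ ∑' k, ∫⁻ z in (F k).img (newPar F k), g z :=
          ENNReal.tsum_le_tsum fun k =>
            hbound (F k) (measurableSet_newPar F k) (newPar_subset F k)
      _ = ∫⁻ z in ⋃ k, (F k).img (newPar F k), g z :=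
          (lintegral_iUnion (fun k => (F k).measurableSet_img (measurableSet_newPar F k)
            (newPar_subset F k)) (disjoint_img F) _).symm
      _ ≤ ∫⁻ z in Ω, g z :=
          lintegral_mono_set (iUnion_subset fun k => (F k).img_subset (newPar_subset F k))

/-- the orbits contained in an open set -/
private theorem ss_open {μ : Pr D} {Ω : Set (ℝ × ℝ)} (F : Fam μ Ω) {U : Set (ℝ × ℝ)}
    (hU : IsOpen U) : IsOpen {s | s ∈ F.J ∧ F.orb s ⊆ U} := by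
  rw [isOpen_iff_mem_nhds]
  rintro s ⟨hs, hsub⟩
  have h1 : ContinuousAt F.Z s := (F.deriv_Z s hs).continuousAt
  filter_upwards [F.isOpen_J.mem_nhds hs, h1.eventually (eventually_range_subset hU hsub)]
    with s' hs' hm
  exact ⟨hs', hm⟩

/-- the crossing functional is measurable along the families -/
theorem crossInd_measurable {μ : Pr D} (R : ℝ) (F : Fam μ Set.univ) :
    ∃ L : ℝ → ℝ≥0∞, Measurable L ∧ ∀ s ∈ F.J, crossInd R (F.orb s) = L s := by
  classical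
  set U1 : Set (ℝ × ℝ) := {z | R < nm z} with hU1
  set U2 : Set (ℝ × ℝ) := {z | nm z < 2 * R} with hU2
  have hU1o : IsOpen U1 := isOpen_lt continuous_const continuous_nm
  have hU2o : IsOpen U2 := isOpen_lt continuous_nm continuous_const
  set S : Set ℝ := (F.J \ {s | s ∈ F.J ∧ F.orb s ⊆ U1}) \ {s | s ∈ F.J ∧ F.orb s ⊆ U2} with hS
  have hSm : MeasurableSet S :=
    (F.isOpen_J.measurableSet.diff (ss_open F hU1o).measurableSet).diff
      (ss_open F hU2o).measurableSet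
  refine ⟨S.indicator fun _ => 1, measurable_const.indicator hSm, fun s hs => ?_⟩
  have h1 : ¬ F.orb s ⊆ U1 ↔ ∃ z ∈ F.orb s, nm z ≤ R := by
    rw [Set.not_subset]
    refine exists_congr fun z => and_congr_right fun _ => ?_
    rw [hU1, mem_ofPred_eq, not_lt]
  have h2 : ¬ F.orb s ⊆ U2 ↔ ∃ z ∈ F.orb s, 2 * R ≤ nm z := by
    rw [Set.not_subset]
    refine exists_congr fun z => and_congr_right fun _ => ?_
    rw [hU2, mem_ofPred_eq, not_lt]
  have h3 : s ∈ S ↔ (∃ z ∈ F.orb s, nm z ≤ R) ∧ ∃ z ∈ F.orb s, 2 * R ≤ nm z := by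
    rw [← h1, ← h2]
    simp only [hS, Set.mem_sdiff, mem_ofPred_eq, not_and]
    constructor
    · rintro ⟨⟨_, h4⟩, h5⟩
      exact ⟨h4 hs, h5 hs⟩
    · rintro ⟨h4, h5⟩
      exact ⟨⟨hs, fun _ => h4⟩, fun _ => h5⟩
  unfold crossInd
  by_cases h : s ∈ S
  · rw [if_pos (h3.1 h), Set.indicator_of_mem h]
  · rw [if_neg (fun h4 => h (h3.2 h4)), Set.indicator_of_notMem h]

end Pool.Agent.Lib.MP_95e7ec_an
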