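import Mathlib
import Pool.Agent.Lib.MP_95e7ec_an.PlaneDefs
import Pool.Agent.Lib.MP_95e7ec_an.LenLe

/-!
# The weighted length inequality (task P2)
-/

set_option autoImplicit false

open Set Filter Topology MeasureTheory
open scoped ContDiff ENNReal

namespace Pool.Agent.Lib.MP_95e7ec_an

variable {D : ℕ}

/-- the pointwise identity and the bound by the gradient of the argument -/
private theorem wl_alg (P Q px py qx qy : ℝ) :
    (px + qy) * (P ^ 2 + Q ^ 2) - (P * (px * P + py * Q) + Q * (qx * P + qy * Q)) =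
      -Q * (P * qx - Q * px) + P * (P * qy - Q * py) := by
  ring

private theorem wl_pos1 {μ : Pr D} {τ : ℝ} {x : ℝ × ℝ} {z : A × A} (hz : Sol μ τ x z) {t : ℝ}
    (ht : t ∈ Set.Ioo (0 : ℝ) 1) :
    HasDerivAt (fun s => (pth z s).1) (τ * pe μ.1 (pth z t).1 (pth z t).2) t := by
  have h := jp_hasDerivAt' hz.1 ht
  rw [jp_pe_ext] at h
  exact h

private theorem wl_pos2 {μ : Pr D} {τ : ℝ} {x : ℝ × ℝ} {z : A × A} (hz : Sol μ τ x z) {t : ℝ}
    (ht : t ∈ Set.Ioo (0 : ℝ) 1) :
    HasDerivAt (fun s => (pth z s).2) (τ * pe μ.2 (pth z t).1 (pth z t).2) t := by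
  have h := jp_hasDerivAt' hz.2 ht
  rw [jp_pe_ext] at h
  exact h

theorem weight_len_le_of (μ : Pr D) (τ τ' a' : ℝ) (hτ : 0 < τ) (x y0 : ℝ × ℝ) (z y : A × A)
    (hz : Sol μ τ x z) (hz1 : at' z 1 = x) (hy0 : at' y 0 = y0) (hy1 : at' y 1 = y0)
    (hne : ∀ t, vfc μ (at' z t) ≠ 0)
    (l1 : y.1 = ContinuousMap.const _ y0.1 + τ' • prim (pe μ.1 z.1 z.2) +
      τ • prim (pex μ.1 z.1 z.2 * y.1 + pey μ.1 z.1 z.2 * y.2 + a' • pe (rot μ).1 z.1 z.2))
    (l2 : y.2 = ContinuousMap.const _ y0.2 + τ' • prim (pe μ.2 z.1 z.2) +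
      τ • prim (pex μ.2 z.1 z.2 * y.1 + pey μ.2 z.1 z.2 * y.2 + a' • pe (rot μ).2 z.1 z.2))
    {u u1 u2 : ℝ × ℝ → ℝ} (hu : ∀ p, 0 ≤ u p) (hu1 : Continuous u1) (hu2 : Continuous u2)
    (hud : ∀ p, HasFDerivAt u (u1 p • ContinuousLinearMap.fst ℝ ℝ ℝ +
      u2 p • ContinuousLinearMap.snd ℝ ℝ ℝ) p) :
    |a'| * ∫ t in (0 : ℝ)..1, τ * (u (pth z t) * nm (vfc μ (pth z t))) ≤
      ∫ t in (0 : ℝ)..1, τ * |det2 (vfc μ (pth z t)) (pth y t)| *
        (u (pth z t) * argGrad μ (pth z t) + |u1 (pth z t)| + |u2 (pth z t)|) := by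
  have hz0 : at' z 0 = x := by
    obtain ⟨h1, h2⟩ := hz
    have e : ∀ g : A, (prim g) 0 = 0 := fun g => by
      change ∫ s in (0 : ℝ)..((0 : unitInterval) : ℝ), Set.IccExtend (zero_le_one' ℝ) g s = 0
      simp
    ext
    · change z.1 0 = x.1
      rw [h1]
      simp [e]
    · change z.2 0 = x.2
      rw [h2]
      simp [e]
  have hpc := jp_pth_continuous z
  have hpyc := jp_pth_continuous y
  have huc : Continuous u := continuous_iff_continuousAt.2 fun p => (hud p).continuousAt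
  -- abbreviations
  set P : ℝ → ℝ := fun t => pe μ.1 (pth z t).1 (pth z t).2 with hP
  set Q : ℝ → ℝ := fun t => pe μ.2 (pth z t).1 (pth z t).2 with hQ
  set px : ℝ → ℝ := fun t => pex μ.1 (pth z t).1 (pth z t).2 with hpx
  set py : ℝ → ℝ := fun t => pey μ.1 (pth z t).1 (pth z t).2 with hpy
  set qx : ℝ → ℝ := fun t => pex μ.2 (pth z t).1 (pth z t).2 with hqx
  set qy : ℝ → ℝ := fun t => pey μ.2 (pth z t).1 (pth z t).2 with hqy
  set Dt : ℝ → ℝ := fun t => det2 (vfc μ (pth z t)) (pth y t) with hDt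
  set U : ℝ → ℝ := fun t => u (pth z t) with hUd
  set U1 : ℝ → ℝ := fun t => u1 (pth z t) with hU1d
  set U2 : ℝ → ℝ := fun t => u2 (pth z t) with hU2d
  have cU : Continuous U := huc.comp hpc
  have cU1 : Continuous U1 := hu1.comp hpc
  have cU2 : Continuous U2 := hu2.comp hpc
  have cP : Continuous P := (jp_pe_continuous μ.1).comp hpc
  have cQ : Continuous Q := (jp_pe_continuous μ.2).comp hpc
  have cpx : Continuous px := (jp_pex_continuous μ.1).comp hpc
  have cpy : Continuous py := (jp_pey_continuous μ.1).comp hpc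
  have cqx : Continuous qx := (jp_pex_continuous μ.2).comp hpc
  have cqy : Continuous qy := (jp_pey_continuous μ.2).comp hpc
  have cD : Continuous Dt :=
    (cP.mul (continuous_snd.comp hpyc)).sub (cQ.mul (continuous_fst.comp hpyc))
  have hN : ∀ t, 0 < P t ^ 2 + Q t ^ 2 := by
    intro t
    have h := hne (Set.projIcc 0 1 (zero_le_one' ℝ) t)
    rw [← jp_pth_proj] at h
    by_contra hcon
    push Not at hcon
    have h1 : P t = 0 := by nlinarith [sq_nonneg (P t), sq_nonneg (Q t)]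
    have h2 : Q t = 0 := by nlinarith [sq_nonneg (P t), sq_nonneg (Q t)]
    exact h (Prod.ext h1 h2)
  set N : ℝ → ℝ := fun t => Real.sqrt (P t ^ 2 + Q t ^ 2) with hNd
  have hNp : ∀ t, 0 < N t := fun t => Real.sqrt_pos.mpr (hN t)
  have hNs : ∀ t, N t ^ 2 = P t ^ 2 + Q t ^ 2 := fun t => Real.sq_sqrt (hN t).le
  have cN : Continuous N := Real.continuous_sqrt.comp ((cP.pow 2).add (cQ.pow 2))
  have hnm : ∀ t, nm (vfc μ (pth z t)) = N t := fun t => rfl
  set ψ : ℝ → ℝ := fun t => (-Q t * (P t * qx t - Q t * px t) + P t * (P t * qy t - Q t * py t)) /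
    N t ^ 3 with hψ
  have cψ : Continuous ψ := by
    apply Continuous.div _ (cN.pow 3) (fun t => (pow_pos (hNp t) 3).ne')
    fun_prop
  have hArg : ∀ t, argGrad μ (pth z t) =
      (|P t * qx t - Q t * px t| + |P t * qy t - Q t * py t|) / (P t ^ 2 + Q t ^ 2) := fun t => rfl
  have cA : Continuous (fun t => argGrad μ (pth z t)) := by
    have : (fun t => argGrad μ (pth z t)) = fun t =>
        (|P t * qx t - Q t * px t| + |P t * qy t - Q t * py t|) / (P t ^ 2 + Q t ^ 2) :=
      funext hArg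
    rw [this]
    apply Continuous.div _ (by fun_prop) (fun t => (hN t).ne')
    exact (continuous_abs.comp ((cP.mul cqx).sub (cQ.mul cpx))).add
      (continuous_abs.comp ((cP.mul cqy).sub (cQ.mul cpy)))
  have hPN : ∀ t, |P t| ≤ N t := by
    intro t
    rw [← Real.sqrt_sq_eq_abs]
    apply Real.sqrt_le_sqrt
    nlinarith [sq_nonneg (Q t)]
  have hQN : ∀ t, |Q t| ≤ N t := by
    intro t
    rw [← Real.sqrt_sq_eq_abs]
    apply Real.sqrt_le_sqrt
    nlinarith [sq_nonneg (P t)]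
  have hψA : ∀ t, |ψ t| ≤ argGrad μ (pth z t) := by
    intro t
    rw [hArg, ← hNs, hψ]
    simp only
    rw [abs_div, abs_of_pos (pow_pos (hNp t) 3), div_le_div_iff₀ (pow_pos (hNp t) 3)
      (pow_pos (hNp t) 2)]
    have h1 : |-Q t * (P t * qx t - Q t * px t) + P t * (P t * qy t - Q t * py t)| ≤
        N t * (|P t * qx t - Q t * px t| + |P t * qy t - Q t * py t|) := by
      refine (abs_add_le _ _).trans ?_
      rw [abs_mul, abs_mul, abs_neg, mul_add]
      exact add_le_add (mul_le_mul_of_nonneg_right (hQN t) (abs_nonneg _))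
        (mul_le_mul_of_nonneg_right (hPN t) (abs_nonneg _))
    calc |-Q t * (P t * qx t - Q t * px t) + P t * (P t * qy t - Q t * py t)| * N t ^ 2
        ≤ N t * (|P t * qx t - Q t * px t| + |P t * qy t - Q t * py t|) * N t ^ 2 :=
          mul_le_mul_of_nonneg_right h1 (by positivity)
      _ = (|P t * qx t - Q t * px t| + |P t * qy t - Q t * py t|) * N t ^ 3 := by ring
  -- the derivative of `w = u D / N`
  have hw : ∀ t ∈ Set.Ioo (0 : ℝ) 1, HasDerivAt (fun s => U s * (Dt s / N s))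
      (τ * (U t * (Dt t * ψ t) + (U1 t * P t + U2 t * Q t) * (Dt t / N t)) +
        a' * (τ * (U t * N t))) t := by
    intro t ht
    have d1 : HasDerivAt P (τ * (px t * P t + py t * Q t)) t := jp_vel1 hz ht
    have d2 : HasDerivAt Q (τ * (qx t * P t + qy t * Q t)) t := jp_vel2 hz ht
    have d3 : HasDerivAt Dt (τ * (px t + qy t) * Dt t + τ * a' * (P t ^ 2 + Q t ^ 2)) t :=
      jp_det hz l1 l2 ht
    have d4 : HasDerivAt N ((2 * P t * (τ * (px t * P t + py t * Q t)) +
        2 * Q t * (τ * (qx t * P t + qy t * Q t))) / (2 * N t)) t := by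
      have := ((d1.pow 2).add (d2.pow 2)).sqrt (hN t).ne'
      refine this.congr_deriv ?_
      simp only [Pi.add_apply, Pi.pow_apply, Nat.cast_ofNat, Nat.add_one_sub_one, pow_one]
      rfl
    have d5 : HasDerivAt (fun s => Dt s / N s) (τ * (Dt t * ψ t) + a' * (τ * N t)) t := by
      refine (d3.div d4 (hNp t).ne').congr_deriv ?_
      have hN0 := (hNp t).ne'
      have hNs' := hNs t
      simp only [hψ]
      rw [← wl_alg, ← hNs' ]
      field_simp
      ring
    have d6 : HasDerivAt U (τ * (U1 t * P t + U2 t * Q t)) t := by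
      have e1 : HasDerivAt (fun s => pth z s) (τ * P t, τ * Q t) t :=
        (wl_pos1 hz ht).prodMk (wl_pos2 hz ht)
      have e2 := (hud (pth z t)).comp_hasDerivAt t e1
      refine e2.congr_deriv ?_
      simp only [ContinuousLinearMap.add_apply, ContinuousLinearMap.smul_apply,
        ContinuousLinearMap.coe_fst', ContinuousLinearMap.coe_snd', smul_eq_mul]
      simp only [hU1d, hU2d]
      ring
    refine (d6.mul d5).congr_deriv ?_
    ring
  have hFTC := intervalIntegral.integral_eq_sub_of_hasDerivAt_of_le (zero_le_one' ℝ)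
    (f := fun s => U s * (Dt s / N s))
    ((cU.mul (cD.div cN (fun t => (hNp t).ne'))).continuousOn) hw
    (Continuous.intervalIntegrable (by
      have cDN : Continuous fun t => Dt t / N t := cD.div cN (fun t => (hNp t).ne')
      fun_prop) _ _)
  have cDN : Continuous fun t => Dt t / N t := cD.div cN (fun t => (hNp t).ne')
  have h01 : U 1 * (Dt 1 / N 1) = U 0 * (Dt 0 / N 0) := by
    have e1 : pth z 1 = pth z 0 := by
      have a1 : pth z 1 = at' z 1 := jp_pth_coe z 1
      have a2 : pth z 0 = at' z 0 := jp_pth_coe z 0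
      rw [a1, a2, hz0, hz1]
    have e2 : pth y 1 = pth y 0 := by
      have a1 : pth y 1 = at' y 1 := jp_pth_coe y 1
      have a2 : pth y 0 = at' y 0 := jp_pth_coe y 0
      rw [a1, a2, hy0, hy1]
    simp only [hDt, hNd, hP, hQ, hUd]
    rw [e1, e2]
  rw [h01, sub_self, intervalIntegral.integral_add (Continuous.intervalIntegrable (by fun_prop) _ _)
    (Continuous.intervalIntegrable (by fun_prop) _ _), intervalIntegral.integral_const_mul a']
    at hFTC
  have hkey : a' * (∫ t in (0 : ℝ)..1, τ * (U t * N t)) =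
      -∫ t in (0 : ℝ)..1, τ * (U t * (Dt t * ψ t) + (U1 t * P t + U2 t * Q t) * (Dt t / N t)) := by
    linarith
  have hU0 : ∀ t, 0 ≤ U t := fun t => hu _
  have hnn : 0 ≤ ∫ t in (0 : ℝ)..1, τ * (U t * N t) :=
    intervalIntegral.integral_nonneg zero_le_one (fun t _ => by
      have := hNp t
      have := hU0 t
      positivity)
  have hl : |a'| * ∫ t in (0 : ℝ)..1, τ * (u (pth z t) * nm (vfc μ (pth z t))) =
      |∫ t in (0 : ℝ)..1, τ * (U t * (Dt t * ψ t) +
        (U1 t * P t + U2 t * Q t) * (Dt t / N t))| := by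
    have : ∫ t in (0 : ℝ)..1, τ * (u (pth z t) * nm (vfc μ (pth z t))) =
      ∫ t in (0 : ℝ)..1, τ * (U t * N t) := rfl
    rw [this, ← abs_neg (∫ t in (0 : ℝ)..1, τ * (U t * (Dt t * ψ t) +
        (U1 t * P t + U2 t * Q t) * (Dt t / N t))), ← hkey, abs_mul, abs_of_nonneg hnn]
  rw [hl]
  refine (intervalIntegral.abs_integral_le_integral_abs zero_le_one).trans ?_
  apply intervalIntegral.integral_mono_on zero_le_one
    (Continuous.intervalIntegrable (by fun_prop) _ _)
    (Continuous.intervalIntegrable (((continuous_const.mul (continuous_abs.comp cD))).mul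
      (((cU.mul cA).add (continuous_abs.comp cU1)).add (continuous_abs.comp cU2))) _ _)
  intro t _
  rw [abs_mul, abs_of_pos hτ]
  have hsec : |(U1 t * P t + U2 t * Q t) * (Dt t / N t)| ≤ |Dt t| * (|U1 t| + |U2 t|) := by
    rw [abs_mul, abs_div, abs_of_pos (hNp t), mul_div_assoc', div_le_iff₀ (hNp t)]
    have h1 : |U1 t * P t + U2 t * Q t| ≤ (|U1 t| + |U2 t|) * N t := by
      refine (abs_add_le _ _).trans ?_
      rw [abs_mul, abs_mul, add_mul]
      exact add_le_add (mul_le_mul_of_nonneg_left (hPN t) (abs_nonneg _))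
        (mul_le_mul_of_nonneg_left (hQN t) (abs_nonneg _))
    calc |U1 t * P t + U2 t * Q t| * |Dt t| ≤ (|U1 t| + |U2 t|) * N t * |Dt t| :=
          mul_le_mul_of_nonneg_right h1 (abs_nonneg _)
      _ = |Dt t| * (|U1 t| + |U2 t|) * N t := by ring
  have hfir : |U t * (Dt t * ψ t)| ≤ |Dt t| * (U t * argGrad μ (pth z t)) := by
    rw [abs_mul, abs_mul, abs_of_nonneg (hU0 t)]
    calc U t * (|Dt t| * |ψ t|) ≤ U t * (|Dt t| * argGrad μ (pth z t)) :=
          mul_le_mul_of_nonneg_left (mul_le_mul_of_nonneg_left (hψA t) (abs_nonneg _)) (hU0 t)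
      _ = |Dt t| * (U t * argGrad μ (pth z t)) := by ring
  calc τ * |U t * (Dt t * ψ t) + (U1 t * P t + U2 t * Q t) * (Dt t / N t)|
      ≤ τ * (|Dt t| * (U t * argGrad μ (pth z t)) + |Dt t| * (|U1 t| + |U2 t|)) :=
        mul_le_mul_of_nonneg_left ((abs_add_le _ _).trans (add_le_add hfir hsec)) hτ.le
    _ = τ * |Dt t| * (U t * argGrad μ (pth z t) + |U1 t| + |U2 t|) := by ring

theorem Fam.weight_le {μ : Pr D} {Ω : Set (ℝ × ℝ)} (F : Fam μ Ω) {s : ℝ} (hs : s ∈ F.J)
    {u u1 u2 : ℝ × ℝ → ℝ} (hu : ∀ p, 0 ≤ u p) (hu1 : Continuous u1) (hu2 : Continuous u2)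
    (hud : ∀ p, HasFDerivAt u (u1 p • ContinuousLinearMap.fst ℝ ℝ ℝ +
      u2 p • ContinuousLinearMap.snd ℝ ℝ ℝ) p) :
    ENNReal.ofReal |F.a' s| * ENNReal.ofReal (∫ t in (0 : ℝ)..1,
        F.τ s * (u (pth (F.Z s) t) * nm (vfc μ (pth (F.Z s) t)))) ≤
      ∫⁻ t in Set.Ioo (0 : ℝ) 1, ENNReal.ofReal (F.jac s t) *
        ENNReal.ofReal (u (pth (F.Z s) t) * argGrad μ (pth (F.Z s) t) +
          |u1 (pth (F.Z s) t)| + |u2 (pth (F.Z s) t)|) := by
  have hne : ∀ t, vfc (rotA μ (F.a s)) (at' (F.Z s) t) ≠ 0 := by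
    intro t h0
    have := F.jac_pos s hs t
    rw [h0] at this
    simp [det2] at this
  have hneμ : ∀ t, vfc μ (at' (F.Z s) t) ≠ 0 := by
    intro t h0
    apply hne t
    rw [vfc_rotA]
    exact turn_eq_zero.2 h0
  have huc : Continuous u := continuous_iff_continuousAt.2 fun p => (hud p).continuousAt
  have key := weight_len_le_of (rotA μ (F.a s)) (F.τ s) (F.τ' s) (F.a' s) (F.tau_pos s hs)
    (at' (F.Z s) 0) (at' (F.Y s) 0) (F.Z s) (F.Y s) (F.sol s hs) (F.closed s hs) rfl
    (F.closedY s hs) hne (F.lin1 s hs) (F.lin2 s hs) hu hu1 hu2 hud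
  have hpth : ∀ (t : ℝ) (ht : t ∈ Set.Icc (0 : ℝ) 1) (z : A × A),
      pth z t = at' z ⟨t, ht.1, ht.2⟩ := by
    intro t ht z
    exact pth_coe z ⟨t, ht.1, ht.2⟩
  set g : ℝ → ℝ := fun t => u (pth (F.Z s) t) * argGrad μ (pth (F.Z s) t) +
          |u1 (pth (F.Z s) t)| + |u2 (pth (F.Z s) t)| with hg
  have hlen : (∫ t in (0 : ℝ)..1, F.τ s * (u (pth (F.Z s) t) *
      nm (vfc (rotA μ (F.a s)) (pth (F.Z s) t)))) =
      ∫ t in (0 : ℝ)..1, F.τ s * (u (pth (F.Z s) t) * nm (vfc μ (pth (F.Z s) t))) := by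
    simp only [vfc_rotA, nm_turn]
  rw [hlen] at key
  rw [← ENNReal.ofReal_mul (abs_nonneg _)]
  have hjac0 : ∀ t ∈ Set.Icc (0 : ℝ) 1, 0 ≤ F.jac s t := by
    intro t ht
    have hpos := F.jac_pos s hs ⟨t, ht.1, ht.2⟩
    rw [Fam.jac, hpth t ht, hpth t ht]
    exact mul_nonneg (F.tau_pos s hs).le hpos.le
  have hg0 : ∀ t, 0 ≤ g t := fun t =>
    add_nonneg (add_nonneg (mul_nonneg (hu _) (argGrad_nonneg _ _)) (abs_nonneg _)) (abs_nonneg _)
  have hcont : ContinuousOn (fun t => F.jac s t * g t) (Set.Icc 0 1) := by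
    apply ContinuousOn.mul
    · unfold Fam.jac det2
      have h1 := continuous_pth (F.Z s)
      have h2 := continuous_pth (F.Y s)
      have h3 := (continuous_vfc_AS (rotA μ (F.a s))).comp h1
      apply Continuous.continuousOn
      have h31 := continuous_fst.comp h3
      have h32 := continuous_snd.comp h3
      have h21 := continuous_fst.comp h2
      have h22 := continuous_snd.comp h2
      exact continuous_const.mul ((h31.mul h22).sub (h32.mul h21))
    · have h1 := continuous_pth (F.Z s)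
      refine ((((huc.comp h1).continuousOn).mul ?_).add
        (continuous_abs.comp (hu1.comp h1)).continuousOn).add
        (continuous_abs.comp (hu2.comp h1)).continuousOn
      intro t ht
      have h2 : ContinuousAt (argGrad μ) (pth (F.Z s) t) := by
        apply continuousAt_argGrad
        rw [hpth t ht]
        exact hneμ _
      exact (ContinuousAt.comp (f := pth (F.Z s)) h2 h1.continuousAt).continuousWithinAt
  have hI : (∫ t in (0 : ℝ)..1,
      F.τ s * |det2 (vfc (rotA μ (F.a s)) (pth (F.Z s) t)) (pth (F.Y s) t)| *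
        (u (pth (F.Z s) t) * argGrad (rotA μ (F.a s)) (pth (F.Z s) t) +
          |u1 (pth (F.Z s) t)| + |u2 (pth (F.Z s) t)|)) =
      ∫ t in Set.Ioo (0 : ℝ) 1, F.jac s t * g t := by
    rw [intervalIntegral.integral_of_le zero_le_one, integral_Ioc_eq_integral_Ioo]
    apply setIntegral_congr_fun measurableSet_Ioo
    intro t ht
    have ht' := Ioo_subset_Icc_self ht
    have hpos := F.jac_pos s hs ⟨t, ht'.1, ht'.2⟩
    simp only [hg]
    rw [argGrad_rotA, Fam.jac]
    rw [hpth t ht', hpth t ht', abs_of_pos hpos]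
  rw [hI] at key
  refine (ENNReal.ofReal_le_ofReal key).trans ?_
  rw [ofReal_integral_eq_lintegral_ofReal]
  · apply le_of_eq
    apply setLIntegral_congr_fun measurableSet_Ioo
    intro t ht
    simp only
    rw [ENNReal.ofReal_mul (hjac0 t (Ioo_subset_Icc_self ht))]
  · exact (hcont.integrableOn_Icc).mono_set Ioo_subset_Icc_self
  · rw [Filter.EventuallyLE, ae_restrict_iff' measurableSet_Ioo]
    exact Eventually.of_forall fun t ht =>
      mul_nonneg (hjac0 t (Ioo_subset_Icc_self ht)) (hg0 t)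

end Pool.Agent.Lib.MP_95e7ec_an
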