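import Mathlib
import Pool.Agent.Lib.MP_95e7ec_an.SetSum
import Pool.Agent.Lib.MP_95e7ec_an.WeightLen
import Pool.Agent.Lib.MP_95e7ec_an.CutOff
import Pool.Agent.Lib.MP_95e7ec_an.SquareTV

/-!
# The mean number of the closed orbits which cross an annulus
-/

set_option autoImplicit false

open Set Filter Topology MeasureTheory
open scoped ContDiff ENNReal

namespace Pool.Agent.Lib.MP_95e7ec_an

theorem crossing_count {n : ℕ} (hn : 1 ≤ n) (μ : Pr n) {R : ℝ} (hR : 0 < R) :
    ∫⁻ α in Set.Ioo 0 Real.pi, setSum (crossInd R) (vfc μ) Set.univ α ≤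
      ENNReal.ofReal (600 * n) := by
  have hpi := Real.pi_lt_d4
  have hpi0 := Real.pi_pos
  have hn1 : (1 : ℝ) ≤ n := by exact_mod_cast hn
  have hA : (0 : ℝ) < 7 / 50 * R := by positivity
  have hA0 : ENNReal.ofReal (7 / 50 * R) ≠ 0 := (ENNReal.ofReal_pos.2 hA).ne'
  have hAt : ENNReal.ofReal (7 / 50 * R) ≠ ⊤ := ENNReal.ofReal_ne_top
  have hm : Measurable fun z => ENNReal.ofReal (cutF R z * argGrad μ z + |cutX R z| + |cutY R z|) := by
    have h1 : Measurable (cutF R) := by
      unfold cutF
      fun_prop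
    have h2 : Measurable (argGrad μ) := by
      have : argGrad μ = fun z => argX μ z + argY μ z := funext fun z => argGrad_eq μ z
      rw [this]
      exact (measurable_argX μ).add (measurable_argY μ)
    have h3 := (continuous_cutX R).measurable
    have h4 := (continuous_cutY R).measurable
    exact (((h1.mul h2).add h3.abs).add h4.abs).ennreal_ofReal
  refine (setSum_le μ isOpen_univ (fun F => crossInd_measurable R F)
    (g := fun z => (ENNReal.ofReal (7 / 50 * R))⁻¹ *
      ENNReal.ofReal (cutF R z * argGrad μ z + |cutX R z| + |cutY R z|)) (hm.const_mul _)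
      ?_).trans ?_
  · intro F s hs
    unfold crossInd
    split_ifs with hc
    · rw [mul_one]
      have h1 := cut_length F hs hR hc.1 hc.2
      have h2 := F.weight_le hs (cutF_nonneg R) (continuous_cutX R) (continuous_cutY R)
        (cutF_hasFDerivAt hR)
      set I := ∫ t in (0 : ℝ)..1, F.τ s * (cutF R (pth (F.Z s) t) * nm (vfc μ (pth (F.Z s) t)))
        with hI
      have h3 : ENNReal.ofReal |F.a' s| ≤ (ENNReal.ofReal (7 / 50 * R))⁻¹ *
          (ENNReal.ofReal |F.a' s| * ENNReal.ofReal I) := by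
        calc ENNReal.ofReal |F.a' s| = (ENNReal.ofReal (7 / 50 * R))⁻¹ *
              (ENNReal.ofReal |F.a' s| * ENNReal.ofReal (7 / 50 * R)) := by
              rw [mul_comm (ENNReal.ofReal |F.a' s|), ← mul_assoc,
                ENNReal.inv_mul_cancel hA0 hAt, one_mul]
          _ ≤ _ := by gcongr
      refine h3.trans ?_
      have h4 : ∫⁻ t in Set.Ioo (0 : ℝ) 1, ENNReal.ofReal (F.jac s t) *
          ((ENNReal.ofReal (7 / 50 * R))⁻¹ * ENNReal.ofReal (cutF R (pth (F.Z s) t) *
            argGrad μ (pth (F.Z s) t) + |cutX R (pth (F.Z s) t)| + |cutY R (pth (F.Z s) t)|)) =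
          (ENNReal.ofReal (7 / 50 * R))⁻¹ * ∫⁻ t in Set.Ioo (0 : ℝ) 1,
            ENNReal.ofReal (F.jac s t) * ENNReal.ofReal (cutF R (pth (F.Z s) t) *
            argGrad μ (pth (F.Z s) t) + |cutX R (pth (F.Z s) t)| + |cutY R (pth (F.Z s) t)|) := by
        rw [← lintegral_const_mul' _ _ (ENNReal.inv_ne_top.2 hA0)]
        refine lintegral_congr fun t => ?_
        ring
      rw [h4]
      gcongr
    · rw [mul_zero]
      exact zero_le
  · rw [setLIntegral_univ, lintegral_const_mul _ hm]
    calc (ENNReal.ofReal (7 / 50 * R))⁻¹ * ∫⁻ z, ENNReal.ofReal (cutF R z * argGrad μ z +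
          |cutX R z| + |cutY R z|)
        ≤ (ENNReal.ofReal (7 / 50 * R))⁻¹ * ENNReal.ofReal ((8 * Real.pi * n + 48) * R) := by
          gcongr
          exact cut_integral μ hR
      _ = ENNReal.ofReal ((8 * Real.pi * n + 48) * R / (7 / 50 * R)) := by
          rw [← ENNReal.ofReal_inv_of_pos hA, ← ENNReal.ofReal_mul (by positivity)]
          congr 1
          exact (div_eq_inv_mul _ _).symm
      _ ≤ ENNReal.ofReal (600 * n) := by
          apply ENNReal.ofReal_le_ofReal
          rw [div_le_iff₀ hA]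
          have h5 : (8 * Real.pi * n + 48) ≤ 84 * n := by nlinarith
          calc (8 * Real.pi * n + 48) * R ≤ 84 * n * R := by gcongr
            _ = 600 * n * (7 / 50 * R) := by ring

end Pool.Agent.Lib.MP_95e7ec_an
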