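import Mathlib
import Pool.Agent.Lib.MP_95e7ec_an.Crossing
import Pool.Agent.Lib.MP_95e7ec_an.KpDefs

/-!
# The mean number of the closed orbits which cross an annulus around any point
-/

set_option autoImplicit false

open Set Filter Topology MeasureTheory
open scoped ContDiff ENNReal

namespace Pool.Agent.Lib.MP_95e7ec_an

variable {D : ℕ}

private theorem kc_continuous_cutF (R : ℝ) : Continuous (cutF R) := by
  unfold cutF
  fun_prop

/-- derivative of `t ↦ (t₊)^(k+2)` -/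
private theorem kc_pos_pow (k : ℕ) (t : ℝ) :
    HasDerivAt (fun t : ℝ => (max 0 t) ^ (k + 2)) ((k + 2) * (max 0 t) ^ (k + 1)) t := by
  rcases lt_trichotomy t 0 with h | h | h
  · have h1 : (fun t : ℝ => (max 0 t) ^ (k + 2)) =ᶠ[𝓝 t] fun _ => 0 := by
      filter_upwards [gt_mem_nhds h] with s hs
      rw [max_eq_left hs.le]
      simp
    rw [max_eq_left h.le]
    have h2 := (hasDerivAt_const t (0 : ℝ)).congr_of_eventuallyEq h1
    simpa using h2
  · subst h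
    rw [hasDerivAt_iff_isLittleO_nhds_zero]
    have h1 : (fun h : ℝ => (max 0 (0 + h)) ^ (k + 2) - (max 0 (0 : ℝ)) ^ (k + 2) -
        h • ((k + 2) * (max 0 (0 : ℝ)) ^ (k + 1))) = fun h => (max 0 h) ^ (k + 2) := by
      funext h; simp
    rw [h1]
    have h2 : (fun h : ℝ => (max 0 h) ^ (k + 2)) =O[𝓝 0] fun h : ℝ => h ^ (k + 2) := by
      refine Asymptotics.isBigO_of_le _ fun h => ?_
      rw [norm_pow, norm_pow]
      apply pow_le_pow_left₀ (norm_nonneg _)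
      rw [Real.norm_eq_abs, Real.norm_eq_abs]
      rcases le_total 0 h with h' | h'
      · rw [max_eq_right h']
      · rw [max_eq_left h', abs_zero]; exact abs_nonneg _
    exact h2.trans_isLittleO (Asymptotics.isLittleO_pow_id (by omega))
  · have h1 : (fun t : ℝ => (max 0 t) ^ (k + 2)) =ᶠ[𝓝 t] fun t => t ^ (k + 2) := by
      filter_upwards [lt_mem_nhds h] with s hs
      rw [max_eq_right hs.le]
    rw [max_eq_right h.le]
    have h2 := (hasDerivAt_pow (k + 2) t).congr_of_eventuallyEq h1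
    have h3 : k + 2 - 1 = k + 1 := by omega
    rw [h3] at h2
    push_cast at h2
    exact h2

private theorem kc_inner (R : ℝ) (z : ℝ × ℝ) :
    HasFDerivAt (fun z : ℝ × ℝ => 4 * R ^ 2 - (z.1 ^ 2 + z.2 ^ 2))
      (-((2 * z.1) • ContinuousLinearMap.fst ℝ ℝ ℝ + (2 * z.2) • ContinuousLinearMap.snd ℝ ℝ ℝ))
      z := by
  have h1 : HasFDerivAt (fun z : ℝ × ℝ => z.1 ^ 2) ((2 * z.1) • ContinuousLinearMap.fst ℝ ℝ ℝ)
      z := by
    have h := (hasDerivAt_pow 2 z.1).comp_hasFDerivAt z (hasFDerivAt_fst (𝕜 := ℝ) (p := z))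
    refine h.congr_fderiv ?_
    simp
  have h2 : HasFDerivAt (fun z : ℝ × ℝ => z.2 ^ 2) ((2 * z.2) • ContinuousLinearMap.snd ℝ ℝ ℝ)
      z := by
    have h := (hasDerivAt_pow 2 z.2).comp_hasFDerivAt z (hasFDerivAt_snd (𝕜 := ℝ) (p := z))
    refine h.congr_fderiv ?_
    simp
  exact (h1.add h2).const_sub (4 * R ^ 2)

private theorem kc_outside {R : ℝ} {z : ℝ × ℝ} (hz : z ∉ disc 0 (2 * R)) :
    max 0 (4 * R ^ 2 - (z.1 ^ 2 + z.2 ^ 2)) = 0 := by
  simp only [disc, Set.mem_ofPred_eq, not_lt, Prod.fst_zero, Prod.snd_zero, sub_zero] at hz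
  exact max_eq_left (by nlinarith)

private theorem kc_max_le (R : ℝ) (z : ℝ × ℝ) :
    max 0 (4 * R ^ 2 - (z.1 ^ 2 + z.2 ^ 2)) ≤ 4 * R ^ 2 :=
  max_le (by positivity) (by nlinarith [sq_nonneg z.1, sq_nonneg z.2])

private theorem kc_cutF_le {R : ℝ} (hR : 0 < R) (z : ℝ × ℝ) : cutF R z ≤ 1 := by
  rw [cutF, div_le_one (by positivity)]
  have h1 := kc_max_le R z
  have h0 : 0 ≤ max 0 (4 * R ^ 2 - (z.1 ^ 2 + z.2 ^ 2)) := le_max_left _ _
  calc (max 0 (4 * R ^ 2 - (z.1 ^ 2 + z.2 ^ 2))) ^ 2 ≤ (4 * R ^ 2) ^ 2 :=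
        pow_le_pow_left₀ h0 h1 2
    _ = 16 * R ^ 4 := by ring

private theorem kc_grad_le {R : ℝ} (hR : 0 < R) {z : ℝ × ℝ} (hz : z ∈ disc 0 (2 * R)) :
    |cutX R z| + |cutY R z| ≤ 3 / R := by
  simp only [disc, Set.mem_ofPred_eq, Prod.fst_zero, Prod.snd_zero, sub_zero] at hz
  have h0 : 0 ≤ max 0 (4 * R ^ 2 - (z.1 ^ 2 + z.2 ^ 2)) := le_max_left _ _
  have h1 := kc_max_le R z
  have e1 : |cutX R z| = 4 * |z.1| * max 0 (4 * R ^ 2 - (z.1 ^ 2 + z.2 ^ 2)) / (16 * R ^ 4) := by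
    rw [cutX, abs_div, abs_neg, abs_mul, abs_mul, abs_of_nonneg h0,
      abs_of_pos (by positivity : (0 : ℝ) < 16 * R ^ 4)]
    norm_num
  have e2 : |cutY R z| = 4 * |z.2| * max 0 (4 * R ^ 2 - (z.1 ^ 2 + z.2 ^ 2)) / (16 * R ^ 4) := by
    rw [cutY, abs_div, abs_neg, abs_mul, abs_mul, abs_of_nonneg h0,
      abs_of_pos (by positivity : (0 : ℝ) < 16 * R ^ 4)]
    norm_num
  have hs : |z.1| + |z.2| ≤ 3 * R := by
    apply abs_le_of_sq_le_sq' _ (by positivity) |>.2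
    nlinarith [sq_abs z.1, sq_abs z.2, sq_nonneg (|z.1| - |z.2|)]
  rw [e1, e2, ← add_div, div_le_div_iff₀ (by positivity) hR]
  have h2 : 4 * |z.1| * max 0 (4 * R ^ 2 - (z.1 ^ 2 + z.2 ^ 2)) +
      4 * |z.2| * max 0 (4 * R ^ 2 - (z.1 ^ 2 + z.2 ^ 2)) ≤ 4 * (3 * R) * (4 * R ^ 2) := by
    calc _ = 4 * (|z.1| + |z.2|) * max 0 (4 * R ^ 2 - (z.1 ^ 2 + z.2 ^ 2)) := by ring
      _ ≤ 4 * (3 * R) * (4 * R ^ 2) := by gcongr
  calc _ ≤ 4 * (3 * R) * (4 * R ^ 2) * R := by gcongr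
    _ = 3 * (16 * R ^ 4) := by ring

/-- the primitive -/
private noncomputable def kcG (R : ℝ) (z : ℝ × ℝ) : ℝ :=
  -((max 0 (4 * R ^ 2 - (z.1 ^ 2 + z.2 ^ 2))) ^ 3) / (192 * R ^ 5)

private theorem kcG_hasFDerivAt {R : ℝ} (z : ℝ × ℝ) :
    HasFDerivAt (kcG R)
      ((z.1 * (max 0 (4 * R ^ 2 - (z.1 ^ 2 + z.2 ^ 2))) ^ 2 / (32 * R ^ 5)) •
        ContinuousLinearMap.fst ℝ ℝ ℝ +
      (z.2 * (max 0 (4 * R ^ 2 - (z.1 ^ 2 + z.2 ^ 2))) ^ 2 / (32 * R ^ 5)) •
        ContinuousLinearMap.snd ℝ ℝ ℝ) z := by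
  have h1 := (kc_pos_pow 1 (4 * R ^ 2 - (z.1 ^ 2 + z.2 ^ 2))).comp_hasFDerivAt z (kc_inner R z)
  have h2 := h1.const_mul (-(1 / (192 * R ^ 5)))
  have h3 : kcG R = fun z : ℝ × ℝ => -(1 / (192 * R ^ 5)) *
      ((fun t : ℝ => (max 0 t) ^ (1 + 2)) ∘ fun z : ℝ × ℝ => 4 * R ^ 2 - (z.1 ^ 2 + z.2 ^ 2)) z := by
    funext z
    simp only [kcG, Function.comp]
    ring
  rw [h3]
  refine h2.congr_fderiv (ContinuousLinearMap.ext fun w => ?_)
  show -(1 / (192 * R ^ 5)) * ((((1 : ℕ) : ℝ) + 2) *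
      max 0 (4 * R ^ 2 - (z.1 ^ 2 + z.2 ^ 2)) ^ (1 + 1) * (-((2 * z.1) * w.1 + (2 * z.2) * w.2))) =
    z.1 * (max 0 (4 * R ^ 2 - (z.1 ^ 2 + z.2 ^ 2))) ^ 2 / (32 * R ^ 5) * w.1 +
      z.2 * (max 0 (4 * R ^ 2 - (z.1 ^ 2 + z.2 ^ 2))) ^ 2 / (32 * R ^ 5) * w.2
  push_cast
  ring

/-- the derivative of the primitive in a direction is at most `cutF` times the length -/
private theorem kcG_le {R : ℝ} (hR : 0 < R) (z u : ℝ × ℝ) :
    |z.1 * (max 0 (4 * R ^ 2 - (z.1 ^ 2 + z.2 ^ 2))) ^ 2 / (32 * R ^ 5) * u.1 +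
      z.2 * (max 0 (4 * R ^ 2 - (z.1 ^ 2 + z.2 ^ 2))) ^ 2 / (32 * R ^ 5) * u.2| ≤
      cutF R z * nm u := by
  by_cases hz : z ∈ disc 0 (2 * R)
  · simp only [disc, Set.mem_ofPred_eq, Prod.fst_zero, Prod.snd_zero, sub_zero] at hz
    set m := max 0 (4 * R ^ 2 - (z.1 ^ 2 + z.2 ^ 2)) with hm
    have e1 : z.1 * m ^ 2 / (32 * R ^ 5) * u.1 + z.2 * m ^ 2 / (32 * R ^ 5) * u.2 =
        m ^ 2 / (32 * R ^ 5) * (z.1 * u.1 + z.2 * u.2) := by ring
    rw [e1, abs_mul, abs_of_nonneg (by positivity : 0 ≤ m ^ 2 / (32 * R ^ 5))]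
    have hcs : |z.1 * u.1 + z.2 * u.2| ≤ 2 * R * nm u := by
      have hn : 0 ≤ nm u := Real.sqrt_nonneg _
      apply abs_le_of_sq_le_sq _ (by positivity)
      have h4 := nm_sq u
      have h5 : (2 * R * nm u) ^ 2 = (2 * R) ^ 2 * (u.1 ^ 2 + u.2 ^ 2) := by
        rw [mul_pow, h4]
      rw [h5]
      nlinarith [sq_nonneg (z.1 * u.2 - z.2 * u.1), sq_nonneg u.1, sq_nonneg u.2]
    calc m ^ 2 / (32 * R ^ 5) * |z.1 * u.1 + z.2 * u.2|
        ≤ m ^ 2 / (32 * R ^ 5) * (2 * R * nm u) := by gcongr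
      _ = cutF R z * nm u := by
          rw [cutF, ← hm]
          field_simp
          ring
  · have h2 := kc_outside hz
    rw [cutF, h2]
    simp


/-- the cut-off function with centre `c` -/
private theorem kc_hasFDerivAt {R : ℝ} (hR : 0 < R) (c z : ℝ × ℝ) :
    HasFDerivAt (fun z => cutF R (z - c)) (cutX R (z - c) • ContinuousLinearMap.fst ℝ ℝ ℝ +
      cutY R (z - c) • ContinuousLinearMap.snd ℝ ℝ ℝ) z := by
  have h1 : HasFDerivAt (fun z : ℝ × ℝ => z - c) (ContinuousLinearMap.id ℝ (ℝ × ℝ)) z :=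
    (hasFDerivAt_id z).sub_const c
  have h2 := (cutF_hasFDerivAt hR (z - c)).comp z h1
  rw [ContinuousLinearMap.comp_id] at h2
  exact h2

/-- a closed orbit of a family which meets `|z| ≤ R` and `|z| ≥ 2R` has a large weighted length -/
private theorem kc_length {μ : Pr D} {Ω : Set (ℝ × ℝ)} (F : Fam μ Ω) {s : ℝ} (hs : s ∈ F.J)
    (c : ℝ × ℝ) {R : ℝ} (hR : 0 < R) (h1 : ∃ z ∈ F.orb s, nm (z - c) ≤ R)
    (h2 : ∃ z ∈ F.orb s, 2 * R ≤ nm (z - c)) :
    7 / 50 * R ≤ ∫ t in (0 : ℝ)..1,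
      F.τ s * (cutF R (pth (F.Z s) t - c) * nm (vfc μ (pth (F.Z s) t))) := by
  obtain ⟨z1, ⟨t1, ht1⟩, hz1⟩ := h1
  obtain ⟨z2, ⟨t2, ht2⟩, hz2⟩ := h2
  set p : ℝ → ℝ × ℝ := pth (F.Z s) with hp
  have hpc : Continuous p := continuous_pth _
  have hτ := F.tau_pos s hs
  -- the derivative of the path
  have hpd : ∀ t ∈ Set.Ioo (0 : ℝ) 1,
      HasDerivAt p (F.τ s • vfc (rotA μ (F.a s)) (p t)) t := by
    intro t ht
    have h := (F.sol s hs).hasDerivWithinAt ⟨t, ht.1.le, ht.2.le⟩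
    have h' : HasDerivWithinAt p (F.τ s • vfc (rotA μ (F.a s)) (p t)) (Set.Icc 0 1) t := by
      have e1 : at' (F.Z s) ⟨t, ht.1.le, ht.2.le⟩ = p t := (pth_coe (F.Z s) ⟨t, ht.1.le, ht.2.le⟩).symm
      rw [e1] at h
      exact h
    exact h'.hasDerivAt (Icc_mem_nhds ht.1 ht.2)
  set q : ℝ → ℝ × ℝ := fun t => p t - c with hq
  have hqc : Continuous q := hpc.sub continuous_const
  have hGd : ∀ t ∈ Set.Ioo (0 : ℝ) 1, HasDerivAt (fun t => kcG R (q t))
      (((q t).1 * (max 0 (4 * R ^ 2 - ((q t).1 ^ 2 + (q t).2 ^ 2))) ^ 2 / (32 * R ^ 5)) *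
        (F.τ s • vfc (rotA μ (F.a s)) (p t)).1 +
      ((q t).2 * (max 0 (4 * R ^ 2 - ((q t).1 ^ 2 + (q t).2 ^ 2))) ^ 2 / (32 * R ^ 5)) *
        (F.τ s • vfc (rotA μ (F.a s)) (p t)).2) t := by
    intro t ht
    have h := (kcG_hasFDerivAt (R := R) (q t)).comp_hasDerivAt t ((hpd t ht).sub_const c)
    exact h
  have hGc : Continuous fun t => kcG R (q t) := by
    have : Continuous (kcG R) := by unfold kcG; fun_prop
    exact this.comp hqc
  let g : ℝ → ℝ := fun t => ((q t).1 * (max 0 (4 * R ^ 2 - ((q t).1 ^ 2 + (q t).2 ^ 2))) ^ 2 /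
        (32 * R ^ 5)) * (F.τ s • vfc (rotA μ (F.a s)) (p t)).1 +
      ((q t).2 * (max 0 (4 * R ^ 2 - ((q t).1 ^ 2 + (q t).2 ^ 2))) ^ 2 / (32 * R ^ 5)) *
        (F.τ s • vfc (rotA μ (F.a s)) (p t)).2
  have hgc : Continuous g := by
    have h3 : Continuous fun t => vfc (rotA μ (F.a s)) (p t) := (continuous_vfc _).comp hpc
    have h4 : Continuous fun t => (q t).1 := continuous_fst.comp hqc
    have h5 : Continuous fun t => (q t).2 := continuous_snd.comp hqc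
    have h6 : ∀ V : ℝ → ℝ × ℝ, Continuous V → Continuous fun t =>
        ((q t).1 * (max 0 (4 * R ^ 2 - ((q t).1 ^ 2 + (q t).2 ^ 2))) ^ 2 /
          (32 * R ^ 5)) * (F.τ s • V t).1 +
        ((q t).2 * (max 0 (4 * R ^ 2 - ((q t).1 ^ 2 + (q t).2 ^ 2))) ^ 2 / (32 * R ^ 5)) *
          (F.τ s • V t).2 := by
      intro V hV
      fun_prop
    exact h6 _ h3
  let f : ℝ → ℝ := fun t => F.τ s * (cutF R (q t) * nm (vfc μ (p t)))
  have hfc : Continuous f := by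
    have h3 : Continuous fun t => nm (vfc μ (p t)) := continuous_nm.comp ((continuous_vfc _).comp hpc)
    have h4 : Continuous fun t => cutF R (q t) := (kc_continuous_cutF R).comp hqc
    simp only [f]
    fun_prop
  have hf0 : ∀ t, 0 ≤ f t := fun t =>
    mul_nonneg hτ.le (mul_nonneg (cutF_nonneg _ _) (Real.sqrt_nonneg _))
  have hgf : ∀ t, |g t| ≤ f t := by
    intro t
    have h := kcG_le hR (q t) (F.τ s • vfc (rotA μ (F.a s)) (p t))
    refine h.trans (le_of_eq ?_)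
    have e1 : nm (F.τ s • vfc (rotA μ (F.a s)) (p t)) = F.τ s * nm (vfc μ (p t)) := by
      have e2 : nm (vfc (rotA μ (F.a s)) (p t)) = nm (vfc μ (p t)) := by
        rw [vfc_rotA, nm_turn]
      rw [← e2, nm, nm]
      simp only [Prod.smul_fst, Prod.smul_snd, smul_eq_mul]
      rw [show (F.τ s * (vfc (rotA μ (F.a s)) (p t)).1) ^ 2 +
          (F.τ s * (vfc (rotA μ (F.a s)) (p t)).2) ^ 2 =
          F.τ s ^ 2 * ((vfc (rotA μ (F.a s)) (p t)).1 ^ 2 +
            (vfc (rotA μ (F.a s)) (p t)).2 ^ 2) by ring,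
        Real.sqrt_mul (by positivity), Real.sqrt_sq hτ.le]
    rw [e1]
    simp only [f]
    ring
  -- the estimate on a subinterval
  have key : ∀ a b : ℝ, 0 ≤ a → a ≤ b → b ≤ 1 →
      |kcG R (q b) - kcG R (q a)| ≤ ∫ t in (0 : ℝ)..1, f t := by
    intro a b ha hab hb
    have h3 : ∫ t in a..b, g t = kcG R (q b) - kcG R (q a) := by
      apply intervalIntegral.integral_eq_sub_of_hasDerivAt_of_le hab hGc.continuousOn
      · intro t ht
        exact hGd t ⟨lt_of_le_of_lt ha ht.1, lt_of_lt_of_le ht.2 hb⟩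
      · exact hgc.intervalIntegrable _ _
    rw [← h3]
    calc |∫ t in a..b, g t| ≤ ∫ t in a..b, |g t| :=
          intervalIntegral.abs_integral_le_integral_abs hab
      _ ≤ ∫ t in a..b, f t :=
          intervalIntegral.integral_mono_on hab (hgc.abs.intervalIntegrable _ _)
            (hfc.intervalIntegrable _ _) (fun t _ => hgf t)
      _ ≤ ∫ t in (0 : ℝ)..1, f t := by
          apply intervalIntegral.integral_mono_interval ha hab hb
          · exact Filter.Eventually.of_forall fun t => hf0 t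
          · exact hfc.intervalIntegrable _ _
  have hG1 : kcG R (z1 - c) ≤ -(27 / 192 * R) := by
    have h3 : (z1 - c).1 ^ 2 + (z1 - c).2 ^ 2 ≤ R ^ 2 := by
      rw [← nm_sq]
      exact pow_le_pow_left₀ (Real.sqrt_nonneg _) hz1 2
    have h4 : 3 * R ^ 2 ≤ max 0 (4 * R ^ 2 - ((z1 - c).1 ^ 2 + (z1 - c).2 ^ 2)) :=
      le_max_of_le_right (by linarith)
    have h5 : (3 * R ^ 2) ^ 3 ≤ (max 0 (4 * R ^ 2 - ((z1 - c).1 ^ 2 + (z1 - c).2 ^ 2))) ^ 3 :=
      pow_le_pow_left₀ (by positivity) h4 3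
    rw [kcG, neg_div, neg_le_neg_iff, le_div_iff₀ (by positivity)]
    calc 27 / 192 * R * (192 * R ^ 5) = (3 * R ^ 2) ^ 3 := by ring
      _ ≤ _ := h5
  have hG2 : kcG R (z2 - c) = 0 := by
    have h3 : (2 * R) ^ 2 ≤ (z2 - c).1 ^ 2 + (z2 - c).2 ^ 2 := by
      rw [← nm_sq]
      exact pow_le_pow_left₀ (by positivity) hz2 2
    have h4 : max 0 (4 * R ^ 2 - ((z2 - c).1 ^ 2 + (z2 - c).2 ^ 2)) = 0 := max_eq_left (by nlinarith)
    rw [kcG, h4]
    simp
  have e1 : q t1 = z1 - c := by simp only [hq]; rw [hp, pth_coe]; exact congrArg (· - c) ht1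
  have e2 : q t2 = z2 - c := by simp only [hq]; rw [hp, pth_coe]; exact congrArg (· - c) ht2
  have hfin : |kcG R (z2 - c) - kcG R (z1 - c)| ≤ ∫ t in (0 : ℝ)..1, f t := by
    rcases le_total (t1 : ℝ) t2 with h | h
    · have := key t1 t2 t1.2.1 h t2.2.2
      rwa [e1, e2] at this
    · have := key t2 t1 t2.2.1 h t1.2.2
      rw [e1, e2] at this
      rwa [abs_sub_comm]
  rw [hG2] at hfin
  have h6 : 0 - kcG R (z1 - c) ≤ |0 - kcG R (z1 - c)| := le_abs_self _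
  have h7 : ∫ t in (0 : ℝ)..1, f t = ∫ t in (0 : ℝ)..1,
      F.τ s * (cutF R (q t) * nm (vfc μ (p t))) := rfl
  rw [← h7]
  linarith

open scoped Classical in
/-- the indicator of the sets which meet both `|z - c| ≤ R` and `|z - c| ≥ 2R` -/
private noncomputable def kcInd (c : ℝ × ℝ) (R : ℝ) (C : Set (ℝ × ℝ)) : ℝ≥0∞ :=
  if (∃ z ∈ C, nm (z - c) ≤ R) ∧ ∃ z ∈ C, 2 * R ≤ nm (z - c) then 1 else 0

private theorem kc_open {μ : Pr D} {Ω : Set (ℝ × ℝ)} (F : Fam μ Ω) {U : Set (ℝ × ℝ)}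
    (hU : IsOpen U) : IsOpen {s | s ∈ F.J ∧ F.orb s ⊆ U} := by
  rw [isOpen_iff_mem_nhds]
  rintro s ⟨hs, hsub⟩
  have h1 : ContinuousAt F.Z s := (F.deriv_Z s hs).continuousAt
  filter_upwards [F.isOpen_J.mem_nhds hs, h1.eventually (eventually_range_subset hU hsub)]
    with s' hs' hm
  exact ⟨hs', hm⟩

private theorem kcInd_measurable {μ : Pr D} (c : ℝ × ℝ) (R : ℝ) (F : Fam μ Set.univ) :
    ∃ L : ℝ → ℝ≥0∞, Measurable L ∧ ∀ s ∈ F.J, kcInd c R (F.orb s) = L s := by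
  classical
  set U1 : Set (ℝ × ℝ) := {z | R < nm (z - c)} with hU1
  set U2 : Set (ℝ × ℝ) := {z | nm (z - c) < 2 * R} with hU2
  have hcn : Continuous fun z : ℝ × ℝ => nm (z - c) :=
    continuous_nm.comp (continuous_id.sub continuous_const)
  have hU1o : IsOpen U1 := isOpen_lt continuous_const hcn
  have hU2o : IsOpen U2 := isOpen_lt hcn continuous_const
  set S : Set ℝ := (F.J \ {s | s ∈ F.J ∧ F.orb s ⊆ U1}) \ {s | s ∈ F.J ∧ F.orb s ⊆ U2} with hS
  have hSm : MeasurableSet S :=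
    (F.isOpen_J.measurableSet.diff (kc_open F hU1o).measurableSet).diff
      (kc_open F hU2o).measurableSet
  refine ⟨S.indicator fun _ => 1, measurable_const.indicator hSm, fun s hs => ?_⟩
  have h1 : ¬ F.orb s ⊆ U1 ↔ ∃ z ∈ F.orb s, nm (z - c) ≤ R := by
    rw [Set.not_subset]
    refine exists_congr fun z => and_congr_right fun _ => ?_
    rw [hU1, mem_ofPred_eq, not_lt]
  have h2 : ¬ F.orb s ⊆ U2 ↔ ∃ z ∈ F.orb s, 2 * R ≤ nm (z - c) := by
    rw [Set.not_subset]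
    refine exists_congr fun z => and_congr_right fun _ => ?_
    rw [hU2, mem_ofPred_eq, not_lt]
  have h3 : s ∈ S ↔ (∃ z ∈ F.orb s, nm (z - c) ≤ R) ∧ ∃ z ∈ F.orb s, 2 * R ≤ nm (z - c) := by
    rw [← h1, ← h2]
    simp only [hS, Set.mem_sdiff, mem_ofPred_eq, not_and]
    constructor
    · rintro ⟨⟨_, h4⟩, h5⟩
      exact ⟨h4 hs, h5 hs⟩
    · rintro ⟨h4, h5⟩
      exact ⟨⟨hs, fun _ => h4⟩, fun _ => h5⟩
  unfold kcInd
  by_cases h : s ∈ S
  · rw [if_pos (h3.1 h), Set.indicator_of_mem h]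
  · rw [if_neg (fun h4 => h (h3.2 h4)), Set.indicator_of_notMem h]

private theorem kc_crossN (v : ℝ × ℝ → ℝ × ℝ) (c : ℝ × ℝ) (R α : ℝ) :
    crossN (turn α v) c R = setSum (kcInd c R) v Set.univ α := by
  classical
  unfold crossN setSum
  set S : Set (Set (ℝ × ℝ)) := {C | IsClosedOrbit (turn α v) C ∧ (∃ z ∈ C, nm (z - c) ≤ R) ∧
    ∃ z ∈ C, 2 * R ≤ nm (z - c)} with hS
  set T : Set (Set (ℝ × ℝ)) := {C | IsClosedOrbit (turn α v) C ∧ C ⊆ univ} with hT
  have h1 : ((S.encard : ℕ∞) : ℝ≥0∞) = ∑' C, S.indicator (fun _ => (1 : ℝ≥0∞)) C := by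
    rw [← tsum_subtype, ENNReal.tsum_set_one]
  have h2 : ∑' C : T, kcInd c R C = ∑' C, T.indicator (kcInd c R) C := tsum_subtype T _
  have h3 : ∑' C : {C : Set (ℝ × ℝ) // IsClosedOrbit (turn α v) C ∧ C ⊆ univ}, kcInd c R C =
      ∑' C, T.indicator (kcInd c R) C := h2
  rw [h1, h3]
  refine tsum_congr fun C => ?_
  unfold kcInd
  by_cases hC : IsClosedOrbit (turn α v) C
  · have hCT : C ∈ T := ⟨hC, subset_univ _⟩
    rw [Set.indicator_of_mem hCT]
    by_cases hc : (∃ z ∈ C, nm (z - c) ≤ R) ∧ ∃ z ∈ C, 2 * R ≤ nm (z - c)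
    · have hCS : C ∈ S := ⟨hC, hc⟩
      rw [Set.indicator_of_mem hCS, if_pos hc]
    · have hCS : C ∉ S := fun h => hc h.2
      rw [Set.indicator_of_notMem hCS, if_neg hc]
  · have hCT : C ∉ T := fun h => hC h.1
    have hCS : C ∉ S := fun h => hC h.1
    rw [Set.indicator_of_notMem hCT, Set.indicator_of_notMem hCS]

private theorem kc_integral (μ : Pr D) (c : ℝ × ℝ) {R : ℝ} (hR : 0 < R) :
    ∫⁻ z, ENNReal.ofReal (cutF R (z - c) * argGrad μ z + |cutX R (z - c)| + |cutY R (z - c)|) ≤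
      ∫⁻ z in disc c (2 * R), (ENNReal.ofReal (argGrad μ z) + ENNReal.ofReal (3 / R)) := by
  have hm : MeasurableSet (disc c (2 * R)) := (isOpen_disc _ _).measurableSet
  rw [← lintegral_indicator hm]
  refine lintegral_mono fun z => ?_
  have hmem : z ∈ disc c (2 * R) ↔ z - c ∈ disc 0 (2 * R) := by
    simp only [disc, Set.mem_ofPred_eq, Prod.fst_zero, Prod.snd_zero, sub_zero, Prod.fst_sub,
      Prod.snd_sub]
  by_cases hz : z ∈ disc c (2 * R)
  · rw [Set.indicator_of_mem hz, ← ENNReal.ofReal_add (argGrad_nonneg μ z) (by positivity)]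
    apply ENNReal.ofReal_le_ofReal
    have h2 : cutF R (z - c) * argGrad μ z ≤ 1 * argGrad μ z :=
      mul_le_mul_of_nonneg_right (kc_cutF_le hR (z - c)) (argGrad_nonneg μ z)
    have h3 := kc_grad_le hR (hmem.1 hz)
    linarith
  · rw [Set.indicator_of_notMem hz]
    have h2 := kc_outside (fun h => hz (hmem.2 h))
    have e0 : cutF R (z - c) = 0 := by rw [cutF, h2]; simp
    have e1 : cutX R (z - c) = 0 := by rw [cutX, h2]; simp
    have e2 : cutY R (z - c) = 0 := by rw [cutY, h2]; simp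
    rw [e0, e1, e2]
    simp

theorem crossing_at (μ : Pr D) (c : ℝ × ℝ) {R : ℝ} (hR : 0 < R) :
    ∫⁻ α in Set.Ioo 0 Real.pi, crossN (turn α (vfc μ)) c R ≤
      (ENNReal.ofReal (7 / 50 * R))⁻¹ *
        ∫⁻ z in disc c (2 * R), (ENNReal.ofReal (argGrad μ z) + ENNReal.ofReal (3 / R)) := by
  have hA : (0 : ℝ) < 7 / 50 * R := by positivity
  have hA0 : ENNReal.ofReal (7 / 50 * R) ≠ 0 := (ENNReal.ofReal_pos.2 hA).ne'
  have hAt : ENNReal.ofReal (7 / 50 * R) ≠ ⊤ := ENNReal.ofReal_ne_top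
  have hm : Measurable fun z => ENNReal.ofReal (cutF R (z - c) * argGrad μ z +
      |cutX R (z - c)| + |cutY R (z - c)|) := by
    have h1 : Measurable fun z : ℝ × ℝ => cutF R (z - c) :=
      ((kc_continuous_cutF R).comp (continuous_id.sub continuous_const)).measurable
    have h2 : Measurable (argGrad μ) := by
      have : argGrad μ = fun z => argX μ z + argY μ z := funext fun z => argGrad_eq μ z
      rw [this]
      exact (measurable_argX μ).add (measurable_argY μ)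
    have h3 : Measurable fun z : ℝ × ℝ => cutX R (z - c) :=
      ((continuous_cutX R).comp (continuous_id.sub continuous_const)).measurable
    have h4 : Measurable fun z : ℝ × ℝ => cutY R (z - c) :=
      ((continuous_cutY R).comp (continuous_id.sub continuous_const)).measurable
    exact (((h1.mul h2).add h3.abs).add h4.abs).ennreal_ofReal
  simp only [kc_crossN]
  refine (setSum_le μ isOpen_univ (fun F => kcInd_measurable c R F)
    (g := fun z => (ENNReal.ofReal (7 / 50 * R))⁻¹ *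
      ENNReal.ofReal (cutF R (z - c) * argGrad μ z + |cutX R (z - c)| + |cutY R (z - c)|))
      (hm.const_mul _) ?_).trans ?_
  · intro F s hs
    unfold kcInd
    split_ifs with hc
    · rw [mul_one]
      have h1 := kc_length F hs c hR hc.1 hc.2
      have h2 := F.weight_le hs (u := fun z => cutF R (z - c)) (fun z => cutF_nonneg R (z - c))
        (u1 := fun z => cutX R (z - c)) (u2 := fun z => cutY R (z - c))
        ((continuous_cutX R).comp (continuous_id.sub continuous_const))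
        ((continuous_cutY R).comp (continuous_id.sub continuous_const))
        (kc_hasFDerivAt hR c)
      set I := ∫ t in (0 : ℝ)..1, F.τ s * (cutF R (pth (F.Z s) t - c) *
        nm (vfc μ (pth (F.Z s) t))) with hI
      have h3 : ENNReal.ofReal |F.a' s| ≤ (ENNReal.ofReal (7 / 50 * R))⁻¹ *
          (ENNReal.ofReal |F.a' s| * ENNReal.ofReal I) := by
        calc ENNReal.ofReal |F.a' s| = (ENNReal.ofReal (7 / 50 * R))⁻¹ *
              (ENNReal.ofReal |F.a' s| * ENNReal.ofReal (7 / 50 * R)) := by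
              rw [mul_comm (ENNReal.ofReal |F.a' s|), ← mul_assoc,
                ENNReal.inv_mul_cancel hA0 hAt, one_mul]
          _ ≤ _ := by gcongr
      refine h3.trans ?_
      have h4 : ∫⁻ t in Set.Ioo (0 : ℝ) 1, ENNReal.ofReal (F.jac s t) *
          ((ENNReal.ofReal (7 / 50 * R))⁻¹ * ENNReal.ofReal (cutF R (pth (F.Z s) t - c) *
            argGrad μ (pth (F.Z s) t) + |cutX R (pth (F.Z s) t - c)| +
              |cutY R (pth (F.Z s) t - c)|)) =
          (ENNReal.ofReal (7 / 50 * R))⁻¹ * ∫⁻ t in Set.Ioo (0 : ℝ) 1,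
            ENNReal.ofReal (F.jac s t) * ENNReal.ofReal (cutF R (pth (F.Z s) t - c) *
            argGrad μ (pth (F.Z s) t) + |cutX R (pth (F.Z s) t - c)| +
              |cutY R (pth (F.Z s) t - c)|) := by
        rw [← lintegral_const_mul' _ _ (ENNReal.inv_ne_top.2 hA0)]
        refine lintegral_congr fun t => ?_
        ring
      rw [h4]
      gcongr
    · rw [mul_zero]
      exact zero_le
  · rw [setLIntegral_univ, lintegral_const_mul _ hm]
    exact mul_le_mul' le_rfl (kc_integral μ c hR)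

end Pool.Agent.Lib.MP_95e7ec_an
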