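import Mathlib
import Pool.Agent.Lib.MP_95e7ec_an.KqDefs
import Pool.Agent.Lib.MP_95e7ec_an.Hull

/-!
# Winding numbers of closed solutions on the cylinder (task Q5, helper78)
-/

set_option autoImplicit false

open Set Filter Topology MeasureTheory ProbabilityTheory
open scoped ContDiff ENNReal

namespace Pool.Agent.Lib.MP_95e7ec_an

theorem cyl_no_zero {F : ℝ × ℝ → ℝ × ℝ} (hF : ContDiff ℝ 1 F) {s1 : ℝ}
    (hne : ∀ p : ℝ × ℝ, s1 < p.1 → F p ≠ 0) {σ : ℝ → ℝ × ℝ} {T : ℝ} (h : CylSol F σ T 0)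
    (hs : ∀ t, s1 < (σ t).1) : False := by
  obtain ⟨hT, hd, hper, hnc⟩ := h
  have hC : IsClosedOrbit F (Set.range σ) := by
    refine ⟨σ, T, hT, hd, fun t => ?_, hnc, rfl⟩
    rw [hper t]
    simp
  obtain ⟨z, hz, hz0⟩ := exists_zero_in_hull hF hC
  have hconv : Convex ℝ {p : ℝ × ℝ | s1 < p.1} := by
    intro p hp p' hp' a b ha hb hab
    simp only [Set.mem_ofPred_eq, Prod.fst_add, Prod.smul_fst, smul_eq_mul] at hp hp' ⊢
    rcases eq_or_lt_of_le ha with ha0 | ha0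
    · have hb1 : b = 1 := by linarith
      rw [← ha0, hb1]
      linarith
    · have h1 : a * s1 < a * p.1 := mul_lt_mul_of_pos_left hp ha0
      have h2 : b * s1 ≤ b * p'.1 := mul_le_mul_of_nonneg_left hp'.le hb
      have h3 : a * s1 + b * s1 = s1 := by rw [← add_mul, hab, one_mul]
      linarith
  have hsub : Set.range σ ⊆ {p : ℝ × ℝ | s1 < p.1} := by
    rintro _ ⟨t, rfl⟩
    exact hs t
  exact hne z (convexHull_min hsub hconv hz) hz0

private theorem kqw_bar {θ θ' : ℝ → ℝ} (hd : ∀ t, HasDerivAt θ (θ' t) t) {c : ℝ} (h0 : θ 0 ≤ c)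
    (hb : ∀ t, θ t = c → θ' t < 0) {t : ℝ} (ht : 0 ≤ t) : θ t ≤ c := by
  refine image_le_of_deriv_right_lt_deriv_boundary (f := θ) (f' := θ') (a := 0) (b := t)
    (B := fun _ => c) (B' := fun _ => 0)
    (fun x _ => (hd x).continuousAt.continuousWithinAt) (fun x _ => (hd x).hasDerivWithinAt)
    h0 (fun x => hasDerivAt_const x c) (fun x _ hx => hb x hx) ⟨ht, le_rfl⟩

private theorem kqw_iter {σ : ℝ → ℝ × ℝ} {T : ℝ} {k : ℤ}
    (h : ∀ t, σ (t + T) = σ t + ((0 : ℝ), 2 * Real.pi * (k : ℝ))) (n : ℕ) :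
    (σ (n * T)).2 = (σ 0).2 + n * (2 * Real.pi * (k : ℝ)) := by
  induction n with
  | zero => simp
  | succ n ih =>
    have h1 : ((n + 1 : ℕ) : ℝ) * T = n * T + T := by push_cast; ring
    rw [h1, h, Prod.snd_add, ih]
    push_cast
    ring

private theorem kqw_per {F : ℝ × ℝ → ℝ × ℝ}
    (hper : ∀ p : ℝ × ℝ, F (p + (0, 2 * Real.pi)) = F p) (n : ℕ) (s θ : ℝ) :
    F (s, θ + n * (2 * Real.pi)) = F (s, θ) := by
  induction n with
  | zero => simp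
  | succ n ih =>
    rw [← ih, ← hper (s, θ + n * (2 * Real.pi))]
    congr 1
    ext
    · simp
    · simp only [Prod.mk_add_mk]
      push_cast
      ring

theorem cyl_wind_le {F : ℝ × ℝ → ℝ × ℝ} (hper : ∀ p : ℝ × ℝ, F (p + (0, 2 * Real.pi)) = F p)
    {s1 θ1 : ℝ} (h1 : ∀ s, s1 < s → (F (s, θ1)).2 < 0) {σ : ℝ → ℝ × ℝ} {T : ℝ} {k : ℤ}
    (h : CylSol F σ T k) (hs : ∀ t, s1 < (σ t).1) : k ≤ 0 := by
  obtain ⟨hT, hd, hp, -⟩ := h
  by_contra hk
  push Not at hk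
  have hpi := Real.pi_pos
  obtain ⟨i, hi⟩ := exists_nat_ge (((σ 0).2 - θ1) / (2 * Real.pi))
  rw [div_le_iff₀ (by positivity)] at hi
  have hd2 : ∀ t, HasDerivAt (fun t => (σ t).2) (F (σ t)).2 t := fun t => (hd t).snd
  have hb : ∀ t, (σ t).2 = θ1 + i * (2 * Real.pi) → (F (σ t)).2 < 0 := by
    intro t ht
    have e : σ t = ((σ t).1, θ1 + i * (2 * Real.pi)) := by rw [← ht]
    rw [e, kqw_per hper]
    exact h1 _ (hs t)
  obtain ⟨n, hn⟩ := exists_nat_gt ((θ1 + i * (2 * Real.pi) - (σ 0).2) / (2 * Real.pi))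
  rw [div_lt_iff₀ (by positivity)] at hn
  have hb2 := kqw_bar hd2 (c := θ1 + i * (2 * Real.pi)) (by linarith) hb
    (t := n * T) (by positivity)
  rw [kqw_iter hp] at hb2
  have hk1 : (1 : ℝ) ≤ k := by exact_mod_cast hk
  have hn0 : (0 : ℝ) ≤ n := Nat.cast_nonneg n
  have : (n : ℝ) * (2 * Real.pi) ≤ n * (2 * Real.pi * k) := by
    apply mul_le_mul_of_nonneg_left _ hn0
    nlinarith
  linarith

theorem cyl_wind_ge {F : ℝ × ℝ → ℝ × ℝ} (hper : ∀ p : ℝ × ℝ, F (p + (0, 2 * Real.pi)) = F p)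
    {s1 θ1 : ℝ} (h1 : ∀ s, s1 < s → 0 < (F (s, θ1)).2) {σ : ℝ → ℝ × ℝ} {T : ℝ} {k : ℤ}
    (h : CylSol F σ T k) (hs : ∀ t, s1 < (σ t).1) : 0 ≤ k := by
  obtain ⟨hT, hd, hp, -⟩ := h
  by_contra hk
  push Not at hk
  have hpi := Real.pi_pos
  obtain ⟨i, hi⟩ := exists_nat_ge ((θ1 - (σ 0).2) / (2 * Real.pi))
  rw [div_le_iff₀ (by positivity)] at hi
  have hd1 : ∀ t, HasDerivAt (fun t => (σ t).2) (F (σ t)).2 t := fun t => (hd t).snd
  have hd2 : ∀ t, HasDerivAt (fun t => -(σ t).2) (-(F (σ t)).2) t := fun t => (hd1 t).neg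
  have hb : ∀ t, -(σ t).2 = -θ1 + i * (2 * Real.pi) → -(F (σ t)).2 < 0 := by
    intro t ht
    have e : σ t = ((σ t).1, (θ1 - i * (2 * Real.pi))) := by
      ext
      · rfl
      · simp only
        linarith
    have e2 : F (σ t) = F ((σ t).1, θ1) := by
      have h2 := kqw_per hper i (σ t).1 (θ1 - i * (2 * Real.pi))
      rw [sub_add_cancel] at h2
      rw [h2, ← e]
    rw [e2]
    have := h1 _ (hs t)
    linarith
  obtain ⟨n, hn⟩ := exists_nat_gt ((-θ1 + i * (2 * Real.pi) + (σ 0).2) / (2 * Real.pi))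
  rw [div_lt_iff₀ (by positivity)] at hn
  have hb2 := kqw_bar hd2 (c := -θ1 + i * (2 * Real.pi)) (by linarith) hb
    (t := n * T) (by positivity)
  rw [kqw_iter hp] at hb2
  have hk1 : (k : ℝ) ≤ -1 := by exact_mod_cast (by omega : k ≤ -1)
  have hn0 : (0 : ℝ) ≤ n := Nat.cast_nonneg n
  have : (n : ℝ) * (2 * Real.pi * k) ≤ n * (-(2 * Real.pi)) := by
    apply mul_le_mul_of_nonneg_left _ hn0
    nlinarith
  linarith

end Pool.Agent.Lib.MP_95e7ec_an
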