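import Mathlib
import Pool.Agent.Lib.MP_95e7ec_an.KqDefs

/-!
# Lifting of a closed orbit to the cylinder (task Q4)
-/

set_option autoImplicit false

open Set Filter Topology MeasureTheory
open scoped ContDiff ENNReal

namespace Pool.Agent.Lib.MP_95e7ec_an

theorem CylField.turn {v F : ℝ × ℝ → ℝ × ℝ} {g : ℝ → ℝ} (h : CylField v F g) (α : ℝ) :
    CylField (Pool.Agent.Lib.MP_95e7ec_an.turn α v) (Pool.Agent.Lib.MP_95e7ec_an.turn α F) g := by
  obtain ⟨h1, h2, h3⟩ := h
  refine ⟨h1, h2, fun p => ?_⟩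
  unfold Pool.Agent.Lib.MP_95e7ec_an.turn
  rw [h3 p]
  ext
  · simp only [Prod.smul_fst, Prod.smul_snd, smul_eq_mul]; ring
  · simp only [Prod.smul_fst, Prod.smul_snd, smul_eq_mul]; ring

/-- change of time -/
private theorem kql_time {G : ℝ → ℝ} (hG : Continuous G) (hpos : ∀ t, 0 < G t) {T : ℝ}
    (hT : 0 < T) (hper : ∀ t, G (t + T) = G t) :
    ∃ (σ : ℝ → ℝ) (S : ℝ), 0 < S ∧ (∀ u, HasDerivAt σ (G (σ u))⁻¹ u) ∧
      (∀ u, σ (u + S) = σ u + T) ∧ Function.Surjective σ := by
  set θ : ℝ → ℝ := fun t => ∫ u in (0 : ℝ)..t, G u with hθ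
  have hθd : ∀ t, HasDerivAt θ (G t) t := fun t =>
    intervalIntegral.integral_hasDerivAt_right (hG.intervalIntegrable _ _)
      (hG.stronglyMeasurableAtFilter _ _) hG.continuousAt
  have hθc : Continuous θ := continuous_iff_continuousAt.2 fun t => (hθd t).continuousAt
  have hmono : StrictMono θ := strictMono_of_hasDerivAt_pos hθd hpos
  have hθ0 : θ 0 = 0 := by simp [hθ]
  set S : ℝ := θ T with hS
  have hSpos : 0 < S := by rw [hS, ← hθ0]; exact hmono hT
  have hadd : ∀ t, θ (t + T) = θ t + S := by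
    have h1 : ∀ t, HasDerivAt (fun t => θ (t + T) - θ t) 0 t := by
      intro t
      have e1 := (hθd (t + T)).comp_add_const t T
      have e2 := e1.sub (hθd t)
      rw [hper, sub_self] at e2
      exact e2
    intro t
    have h2 := is_const_of_deriv_eq_zero (fun t => (h1 t).differentiableAt)
      (fun t => (h1 t).deriv) t 0
    simp only [zero_add, hθ0] at h2
    rw [hS]
    linarith
  have hmulN : ∀ k : ℕ, θ (k * T) = k * S := by
    intro k
    induction k with
    | zero => simp [hθ0]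
    | succ k ih =>
      push_cast
      rw [add_mul, one_mul, hadd, ih]
      ring
  have hmulN' : ∀ k : ℕ, θ (-(k * T)) = -(k * S) := by
    intro k
    induction k with
    | zero => simp [hθ0]
    | succ k ih =>
      have := hadd (-((k + 1 : ℕ) * T))
      push_cast at this ⊢
      rw [show -((↑k + 1) * T) + T = -(k * T) by ring, ih] at this
      linarith
  have hsurj : Function.Surjective θ := by
    apply hθc.surjective
    · rw [tendsto_atTop_atTop_iff_of_monotone hmono.monotone]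
      intro b
      obtain ⟨k, hk⟩ := exists_nat_ge (b / S)
      refine ⟨k * T, ?_⟩
      rw [hmulN]
      rwa [div_le_iff₀ hSpos] at hk
    · rw [tendsto_atBot_atBot_iff_of_monotone hmono.monotone]
      intro b
      obtain ⟨k, hk⟩ := exists_nat_ge (-b / S)
      refine ⟨-(k * T), ?_⟩
      rw [hmulN']
      rw [div_le_iff₀ hSpos] at hk
      linarith
  let e : ℝ ≃o ℝ := StrictMono.orderIsoOfSurjective θ hmono hsurj
  set σ : ℝ → ℝ := fun u => e.symm u with hσ
  have hσc : Continuous σ := e.symm.continuous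
  have hθσ : ∀ u, θ (σ u) = u := fun u => e.apply_symm_apply u
  have hσθ : ∀ t, σ (θ t) = t := fun t => e.symm_apply_apply t
  refine ⟨σ, S, hSpos, fun u => ?_, fun u => ?_, fun t => ⟨θ t, hσθ t⟩⟩
  · exact HasDerivAt.of_local_left_inverse hσc.continuousAt (hθd (σ u)) (hpos _).ne'
      (Eventually.of_forall hθσ)
  · apply hmono.injective
    rw [hθσ, hadd, hθσ]

theorem cyl_lift {v F : ℝ × ℝ → ℝ × ℝ} {g : ℝ → ℝ} (h : CylField v F g) (hv : Continuous v)
    (hF : Continuous F) {C : Set (ℝ × ℝ)} (hC : IsClosedOrbit v C) (h0 : (0 : ℝ × ℝ) ∉ C) :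
    ∃ (σ : ℝ → ℝ × ℝ) (T : ℝ) (k : ℤ), CylSol F σ T k ∧ C = Set.range fun t => cyl (σ t) := by
  obtain ⟨hg, hgpos, hvF⟩ := h
  obtain ⟨γ, T, hT, hγ, hper, ⟨s0, t0, hst⟩, rfl⟩ := hC
  have hc : Continuous γ := continuous_iff_continuousAt.2 fun t => (hγ t).continuousAt
  have hvc : Continuous fun t => v (γ t) := hv.comp hc
  have hγ1 : ∀ t, HasDerivAt (fun t => (γ t).1) (v (γ t)).1 t := fun t => (hγ t).fst
  have hγ2 : ∀ t, HasDerivAt (fun t => (γ t).2) (v (γ t)).2 t := fun t => (hγ t).snd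
  -- the squared norm
  set R : ℝ → ℝ := fun t => (γ t).1 ^ 2 + (γ t).2 ^ 2 with hR
  have hRpos : ∀ t, 0 < R t := by
    intro t
    have hne : γ t ≠ 0 := fun hcon => h0 ⟨t, hcon⟩
    by_contra hcon
    have h1 : (γ t).1 ^ 2 + (γ t).2 ^ 2 ≤ 0 := not_lt.1 hcon
    have e1 : (γ t).1 = 0 := by nlinarith [sq_nonneg (γ t).1, sq_nonneg (γ t).2]
    have e2 : (γ t).2 = 0 := by nlinarith [sq_nonneg (γ t).1, sq_nonneg (γ t).2]
    exact hne (Prod.ext e1 e2)
  have hRd : ∀ t, HasDerivAt R (2 * ((γ t).1 * (v (γ t)).1 + (γ t).2 * (v (γ t)).2)) t := by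
    intro t
    refine (((hγ1 t).pow 2).add ((hγ2 t).pow 2)).congr_deriv ?_
    push_cast
    ring
  have hRc : Continuous R := continuous_iff_continuousAt.2 fun t => (hRd t).continuousAt
  -- the logarithm of the norm
  set s : ℝ → ℝ := fun t => Real.log (R t) / 2 with hs
  set s' : ℝ → ℝ := fun t => ((γ t).1 * (v (γ t)).1 + (γ t).2 * (v (γ t)).2) / R t with hs'
  have hsd : ∀ t, HasDerivAt s (s' t) t := by
    intro t
    refine (((hRd t).log (hRpos t).ne').div_const 2).congr_deriv ?_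
    simp only [hs']
    ring
  have hexp : ∀ t, Real.exp (s t) ^ 2 = R t := by
    intro t
    rw [← Real.exp_nat_mul]
    simp only [hs]
    push_cast
    rw [mul_div_cancel₀ _ (two_ne_zero), Real.exp_log (hRpos t)]
  have hEpos : ∀ t, 0 < Real.exp (s t) := fun t => Real.exp_pos _
  -- the angle
  set w : ℝ → ℝ := fun t => ((γ t).1 * (v (γ t)).2 - (γ t).2 * (v (γ t)).1) / R t with hw
  have hwc : Continuous w := by
    have h1 : Continuous fun t => (γ t).1 := continuous_fst.comp hc
    have h2 : Continuous fun t => (γ t).2 := continuous_snd.comp hc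
    have h3 : Continuous fun t => (v (γ t)).1 := continuous_fst.comp hvc
    have h4 : Continuous fun t => (v (γ t)).2 := continuous_snd.comp hvc
    exact ((h1.mul h4).sub (h2.mul h3)).div hRc fun t => (hRpos t).ne'
  obtain ⟨θ0, hθ01, hθ02⟩ : ∃ θ0 : ℝ, (γ 0).1 = Real.exp (s 0) * Real.cos θ0 ∧
      (γ 0).2 = Real.exp (s 0) * Real.sin θ0 := by
    set z : ℂ := ⟨(γ 0).1, (γ 0).2⟩ with hz
    have hzn : ‖z‖ = Real.exp (s 0) := by
      have h1 : ‖z‖ ^ 2 = Real.exp (s 0) ^ 2 := by
        rw [hexp 0, Complex.sq_norm, Complex.normSq_mk]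
        simp only [hR]
        ring
      exact (pow_left_inj₀ (norm_nonneg z) (hEpos 0).le two_ne_zero).1 h1
    refine ⟨Complex.arg z, ?_, ?_⟩
    · rw [← hzn, Complex.norm_mul_cos_arg]
    · rw [← hzn, Complex.norm_mul_sin_arg]
  set θ : ℝ → ℝ := fun t => θ0 + ∫ u in (0 : ℝ)..t, w u with hθ
  have hθd : ∀ t, HasDerivAt θ (w t) t := fun t =>
    (intervalIntegral.integral_hasDerivAt_right (hwc.intervalIntegrable _ _)
      (hwc.stronglyMeasurableAtFilter _ _) hwc.continuousAt).const_add θ0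
  have hθ0 : θ 0 = θ0 := by simp [hθ]
  -- decomposition of the velocity
  have hv1 : ∀ t, (v (γ t)).1 = s' t * (γ t).1 - w t * (γ t).2 := by
    intro t
    have := (hRpos t).ne'
    simp only [hs', hw]
    rw [div_mul_eq_mul_div, div_mul_eq_mul_div, ← sub_div, eq_div_iff this]
    simp only [hR]
    ring
  have hv2 : ∀ t, (v (γ t)).2 = s' t * (γ t).2 + w t * (γ t).1 := by
    intro t
    have := (hRpos t).ne'
    simp only [hs', hw]
    rw [div_mul_eq_mul_div, div_mul_eq_mul_div, ← add_div, eq_div_iff this]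
    simp only [hR]
    ring
  have hcosd : ∀ t, HasDerivAt (fun t => Real.cos (θ t)) (-Real.sin (θ t) * w t) t := fun t =>
    (hθd t).cos
  have hsind : ∀ t, HasDerivAt (fun t => Real.sin (θ t)) (Real.cos (θ t) * w t) t := fun t =>
    (hθd t).sin
  have hEd : ∀ t, HasDerivAt (fun t => Real.exp (-s t)) (Real.exp (-s t) * -s' t) t := fun t =>
    (hsd t).neg.exp
  have ha : ∀ t, ((γ t).1 * Real.cos (θ t) + (γ t).2 * Real.sin (θ t)) * Real.exp (-s t) = 1 := by
    have hd : ∀ t, HasDerivAt (fun t => ((γ t).1 * Real.cos (θ t) + (γ t).2 * Real.sin (θ t)) *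
        Real.exp (-s t)) 0 t := by
      intro t
      refine ((((hγ1 t).mul (hcosd t)).add ((hγ2 t).mul (hsind t))).mul (hEd t)).congr_deriv ?_
      rw [hv1 t, hv2 t]
      simp only [Pi.add_apply, Pi.mul_apply]
      ring
    intro t
    have h2 := is_const_of_deriv_eq_zero (fun t => (hd t).differentiableAt)
      (fun t => (hd t).deriv) t 0
    rw [h2, hθ0, hθ01, hθ02]
    have h3 : Real.exp (s 0) * Real.exp (-s 0) = 1 := by
      rw [← Real.exp_add, add_neg_cancel, Real.exp_zero]
    have h4 := Real.sin_sq_add_cos_sq θ0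
    calc (Real.exp (s 0) * Real.cos θ0 * Real.cos θ0 + Real.exp (s 0) * Real.sin θ0 *
          Real.sin θ0) * Real.exp (-s 0)
        = (Real.sin θ0 ^ 2 + Real.cos θ0 ^ 2) * (Real.exp (s 0) * Real.exp (-s 0)) := by ring
      _ = 1 := by rw [h3, h4, one_mul]
  have hb : ∀ t, ((γ t).2 * Real.cos (θ t) - (γ t).1 * Real.sin (θ t)) * Real.exp (-s t) = 0 := by
    have hd : ∀ t, HasDerivAt (fun t => ((γ t).2 * Real.cos (θ t) - (γ t).1 * Real.sin (θ t)) *
        Real.exp (-s t)) 0 t := by
      intro t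
      refine ((((hγ2 t).mul (hcosd t)).sub ((hγ1 t).mul (hsind t))).mul (hEd t)).congr_deriv ?_
      rw [hv1 t, hv2 t]
      simp only [Pi.sub_apply, Pi.mul_apply]
      ring
    intro t
    have h2 := is_const_of_deriv_eq_zero (fun t => (hd t).differentiableAt)
      (fun t => (hd t).deriv) t 0
    rw [h2, hθ0, hθ01, hθ02]
    ring
  have hcyl : ∀ t, cyl (s t, θ t) = γ t := by
    intro t
    have h1 := ha t
    have h2 := hb t
    have hE3 : Real.exp (-s t) * Real.exp (s t) = 1 := by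
      rw [← Real.exp_add, neg_add_cancel, Real.exp_zero]
    have h4 := Real.sin_sq_add_cos_sq (θ t)
    have h5 : (γ t).1 * Real.cos (θ t) + (γ t).2 * Real.sin (θ t) = Real.exp (s t) := by
      calc (γ t).1 * Real.cos (θ t) + (γ t).2 * Real.sin (θ t)
          = ((γ t).1 * Real.cos (θ t) + (γ t).2 * Real.sin (θ t)) * 1 := by ring
        _ = ((γ t).1 * Real.cos (θ t) + (γ t).2 * Real.sin (θ t)) * Real.exp (-s t) *
              Real.exp (s t) := by rw [mul_assoc, hE3]
        _ = Real.exp (s t) := by rw [h1, one_mul]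
    have h6 : (γ t).2 * Real.cos (θ t) - (γ t).1 * Real.sin (θ t) = 0 :=
      (mul_eq_zero.1 h2).resolve_right (Real.exp_pos _).ne'
    unfold cyl
    ext
    · calc Real.exp (s t) * Real.cos (θ t)
          = ((γ t).1 * Real.cos (θ t) + (γ t).2 * Real.sin (θ t)) * Real.cos (θ t) -
            ((γ t).2 * Real.cos (θ t) - (γ t).1 * Real.sin (θ t)) * Real.sin (θ t) := by
              rw [h5, h6]; ring
        _ = (γ t).1 * (Real.sin (θ t) ^ 2 + Real.cos (θ t) ^ 2) := by ring
        _ = (γ t).1 := by rw [h4, mul_one]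
    · calc Real.exp (s t) * Real.sin (θ t)
          = ((γ t).1 * Real.cos (θ t) + (γ t).2 * Real.sin (θ t)) * Real.sin (θ t) +
            ((γ t).2 * Real.cos (θ t) - (γ t).1 * Real.sin (θ t)) * Real.cos (θ t) := by
              rw [h5, h6]; ring
        _ = (γ t).2 * (Real.sin (θ t) ^ 2 + Real.cos (θ t) ^ 2) := by ring
        _ = (γ t).2 := by rw [h4, mul_one]
  -- the equation on the cylinder
  set G : ℝ → ℝ := fun t => g (s t) with hGdef
  have hs'F : ∀ t, s' t = G t * (F (s t, θ t)).1 := by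
    intro t
    have h1 := hvF (s t, θ t)
    rw [hcyl t] at h1
    have e1 := congrArg Prod.fst h1
    have e2 := congrArg Prod.snd h1
    simp only [Prod.smul_fst, Prod.smul_snd, smul_eq_mul] at e1 e2
    have e3 := congrArg Prod.fst (hcyl t)
    have e4 := congrArg Prod.snd (hcyl t)
    simp only [cyl] at e3 e4
    have h4 := Real.sin_sq_add_cos_sq (θ t)
    simp only [hs']
    rw [div_eq_iff (hRpos t).ne', ← hexp t, e1, e2, ← e3, ← e4]
    simp only [hGdef]
    linear_combination (g (s t) * (F (s t, θ t)).1 * Real.exp (s t) ^ 2) * h4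
  have hwF : ∀ t, w t = G t * (F (s t, θ t)).2 := by
    intro t
    have h1 := hvF (s t, θ t)
    rw [hcyl t] at h1
    have e1 := congrArg Prod.fst h1
    have e2 := congrArg Prod.snd h1
    simp only [Prod.smul_fst, Prod.smul_snd, smul_eq_mul] at e1 e2
    have e3 := congrArg Prod.fst (hcyl t)
    have e4 := congrArg Prod.snd (hcyl t)
    simp only [cyl] at e3 e4
    have h4 := Real.sin_sq_add_cos_sq (θ t)
    simp only [hw]
    rw [div_eq_iff (hRpos t).ne', ← hexp t, e1, e2, ← e3, ← e4]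
    simp only [hGdef]
    linear_combination (g (s t) * (F (s t, θ t)).2 * Real.exp (s t) ^ 2) * h4
  have hscont : Continuous s := continuous_iff_continuousAt.2 fun t => (hsd t).continuousAt
  have hGc : Continuous G := hg.comp hscont
  have hsper : ∀ t, s (t + T) = s t := by
    intro t
    simp only [hs, hR, hper]
  have hGper : ∀ t, G (t + T) = G t := fun t => by simp only [hGdef, hsper]
  have hwper : ∀ t, w (t + T) = w t := fun t => by simp only [hw, hR, hper]
  -- the winding number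
  have hθT : ∀ t, θ (t + T) - θ t = θ T - θ 0 := by
    have h1 : ∀ t, HasDerivAt (fun t => θ (t + T) - θ t) 0 t := by
      intro t
      have e1 := (hθd (t + T)).comp_add_const t T
      have e2 := e1.sub (hθd t)
      rw [hwper, sub_self] at e2
      exact e2
    intro t
    have h2 := is_const_of_deriv_eq_zero (fun t => (h1 t).differentiableAt)
      (fun t => (h1 t).deriv) t 0
    simpa using h2
  obtain ⟨k, hk⟩ : ∃ k : ℤ, (k : ℝ) * (2 * Real.pi) = θ T - θ 0 := by
    rw [← Real.cos_eq_one_iff, Real.cos_sub]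
    have e1 := hcyl T
    have e2 := hcyl 0
    have e3 : γ T = γ 0 := by have := hper 0; rwa [zero_add] at this
    have e4 : s T = s 0 := by have := hsper 0; rwa [zero_add] at this
    rw [e3, ← e2, e4] at e1
    have e5 := congrArg Prod.fst e1
    have e6 := congrArg Prod.snd e1
    simp only [cyl] at e5 e6
    have e7 := mul_left_cancel₀ (hEpos 0).ne' e5
    have e8 := mul_left_cancel₀ (hEpos 0).ne' e6
    rw [e7, e8]
    nlinarith [Real.sin_sq_add_cos_sq (θ 0)]
  obtain ⟨τ, S, hS, hτd, hτS, hτsurj⟩ := kql_time hGc (fun t => hgpos _) hT hGper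
  refine ⟨fun u => (s (τ u), θ (τ u)), S, k, ⟨hS, fun u => ?_, fun u => ?_, ?_⟩, ?_⟩
  · have e1 : HasDerivAt (fun t => (s t, θ t)) (s' (τ u), w (τ u)) (τ u) :=
      (hsd (τ u)).prodMk (hθd (τ u))
    have e2 := HasDerivAt.scomp u e1 (hτd u)
    refine e2.congr_deriv ?_
    have hG0 : G (τ u) ≠ 0 := (hgpos _).ne'
    rw [hs'F, hwF]
    ext
    · simp only [Prod.smul_fst, smul_eq_mul]
      rw [← mul_assoc, inv_mul_cancel₀ hG0, one_mul]
    · simp only [Prod.smul_snd, smul_eq_mul]
      rw [← mul_assoc, inv_mul_cancel₀ hG0, one_mul]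
  · have e1 := hθT (τ u)
    ext
    · simp only [hτS, hsper, Prod.fst_add, add_zero]
    · simp only [hτS, Prod.snd_add]
      linarith
  · obtain ⟨u1, hu1⟩ := hτsurj s0
    obtain ⟨u2, hu2⟩ := hτsurj t0
    refine ⟨u1, u2, fun hcon => hst ?_⟩
    have e1 := congrArg cyl hcon
    simp only [hu1, hu2, hcyl] at e1
    exact e1
  · ext z
    constructor
    · rintro ⟨t, rfl⟩
      obtain ⟨u, hu⟩ := hτsurj t
      exact ⟨u, by simp only [hu, hcyl]⟩
    · rintro ⟨u, rfl⟩
      exact ⟨τ u, by simp only [hcyl]⟩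

end Pool.Agent.Lib.MP_95e7ec_an
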