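import Mathlib
import Pool.Agent.Lib.MP_95e7ec_an.KosDefs
import Pool.Agent.Lib.MP_95e7ec_an.Flow
import Pool.Agent.Lib.MP_95e7ec_an.Paths
import Pool.Agent.Lib.MP_95e7ec_an.Orbits

/-!
# Measurability of the number of closed orbits
-/

set_option autoImplicit false

open Set Filter Topology MeasureTheory ProbabilityTheory
open scoped ContDiff ENNReal

namespace Pool.Agent.Lib.MP_95e7ec_an

variable {D : ℕ}

theorem cm_isCompact_lip (R L : ℝ) :
    IsCompact {f : A | (∀ t, |f t| ≤ R) ∧ ∀ s t, |f s - f t| ≤ L * dist s t} := by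
  refine ArzelaAscoli.isCompact_of_equicontinuous _ ?_ ?_
  · have himg : (ContinuousMap.toFun '' {f : A | (∀ t, |f t| ≤ R) ∧
        ∀ s t, |f s - f t| ≤ L * dist s t}) =
        {g : unitInterval → ℝ | (∀ t, |g t| ≤ R) ∧ ∀ s t, |g s - g t| ≤ L * dist s t} := by
      ext g
      constructor
      · rintro ⟨f, hf, rfl⟩
        exact hf
      · rintro ⟨h1, h2⟩
        have hc : Continuous g := by
          have : LipschitzWith (Real.toNNReal L) g := by
            refine LipschitzWith.of_dist_le_mul fun s t => ?_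
            rw [Real.dist_eq]
            refine (h2 s t).trans ?_
            exact mul_le_mul_of_nonneg_right (Real.le_coe_toNNReal L) dist_nonneg
          exact this.continuous
        exact ⟨⟨g, hc⟩, ⟨h1, h2⟩, rfl⟩
    rw [himg]
    refine IsCompact.of_isClosed_subset (isCompact_univ_pi fun _ : unitInterval =>
      isCompact_Icc (a := -R) (b := R)) ?_ ?_
    · have : {g : unitInterval → ℝ | (∀ t, |g t| ≤ R) ∧ ∀ s t, |g s - g t| ≤ L * dist s t} =
          (⋂ t, {g : unitInterval → ℝ | |g t| ≤ R}) ∩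
            ⋂ s, ⋂ t, {g : unitInterval → ℝ | |g s - g t| ≤ L * dist s t} := by
        ext g
        simp only [mem_ofPred_eq, mem_inter_iff, mem_iInter]
      rw [this]
      refine IsClosed.inter (isClosed_iInter fun t => ?_)
        (isClosed_iInter fun s => isClosed_iInter fun t => ?_)
      · exact isClosed_le (by fun_prop) continuous_const
      · exact isClosed_le (by fun_prop) continuous_const
    · intro g hg t _
      exact abs_le.1 (hg.1 t)
  · refine Metric.equicontinuous_of_continuity_modulus (fun x => |L| * x) ?_ _ ?_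
    · have : Tendsto (fun x : ℝ => |L| * x) (𝓝 0) (𝓝 (|L| * 0)) := by
        exact (continuous_const.mul continuous_id).tendsto 0
      simpa using this
    · intro s t f
      rw [Real.dist_eq]
      refine (f.2.2 s t).trans ?_
      exact mul_le_mul_of_nonneg_right (le_abs_self L) dist_nonneg

theorem cm_continuous_at' : Continuous fun q : (A × A) × unitInterval => at' q.1 q.2 := by
  unfold at'
  exact ((continuous_eval (F := C(unitInterval, ℝ))).comp
    ((continuous_fst.comp continuous_fst).prodMk continuous_snd)).prodMk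
    ((continuous_eval (F := C(unitInterval, ℝ))).comp
      ((continuous_snd.comp continuous_fst).prodMk continuous_snd))

theorem cm_continuous_vfc : Continuous fun q : Pr D × (ℝ × ℝ) => vfc q.1 q.2 := by
  unfold vfc pe
  fun_prop

theorem cm_isClosed_sol : IsClosed {q : Pr D × (ℝ × (A × A)) |
    Sol q.1 q.2.1 (at' q.2.2 0) q.2.2} := by
  have h1 : Continuous fun q : Pr D × (ℝ × (A × A)) =>
      flow_G D ((at' q.2.2 0, q.2.1, q.1), q.2.2) := by
    refine flow_contDiff_G.continuous.comp ?_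
    have h2 : Continuous fun q : Pr D × (ℝ × (A × A)) => at' q.2.2 0 :=
      cm_continuous_at'.comp ((continuous_snd.comp continuous_snd).prodMk continuous_const)
    fun_prop
  have h3 : {q : Pr D × (ℝ × (A × A)) | Sol q.1 q.2.1 (at' q.2.2 0) q.2.2} =
      (fun q : Pr D × (ℝ × (A × A)) => flow_G D ((at' q.2.2 0, q.2.1, q.1), q.2.2)) ⁻¹' {0} := by
    ext q
    simp only [mem_ofPred_eq, mem_preimage, mem_singleton_iff]
    exact (flow_G_eq_zero_iff ((at' q.2.2 0, q.2.1, q.1), q.2.2)).symm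
  rw [h3]
  exact isClosed_singleton.preimage h1

theorem cm_sol_lip {μ : Pr D} {T : ℝ} {x : ℝ × ℝ} {z : A × A} (h : Sol μ T x z) {B L : ℝ}
    (hB : ∀ t, ‖vfc μ (at' z t)‖ ≤ B) (hT : |T| ≤ L) (s t : unitInterval) :
    ‖at' z s - at' z t‖ ≤ L * B * dist s t := by
  set Z : ℝ → ℝ × ℝ := fun s => (Set.IccExtend (zero_le_one' ℝ) z.1 s,
      Set.IccExtend (zero_le_one' ℝ) z.2 s) with hZ
  have hval : ∀ t : unitInterval, Z t = at' z t := by
    intro t
    simp [hZ, at', IccExtend_val]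
  have hB0 : 0 ≤ B := (norm_nonneg _).trans (hB 0)
  have h1 := Convex.norm_image_sub_le_of_norm_hasDerivWithin_le (f := Z) (s := Icc (0:ℝ) 1)
    (f' := fun t => T • vfc μ (Z t)) (C := L * B) (x := t) (y := s) (fun u hu => ?_)
    (fun u hu => ?_) (convex_Icc _ _) t.2 s.2
  · rw [hval, hval] at h1
    have h2 : dist s t = ‖(s : ℝ) - t‖ := by
      rw [Subtype.dist_eq, dist_eq_norm]
    rw [h2]
    exact h1
  · have h2 := h.hasDerivWithinAt ⟨u, hu⟩
    have h3 := hval ⟨u, hu⟩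
    simp only at h3
    rw [h3]
    exact h2
  · have h3 := hval ⟨u, hu⟩
    simp only at h3
    rw [h3, norm_smul]
    exact mul_le_mul hT (hB _) (norm_nonneg _) ((abs_nonneg T).trans hT)

/-- the compact sets which exhaust `U` -/
def cmK (U : Set (ℝ × ℝ)) (m : ℕ) : Set (ℝ × ℝ) :=
  {z | ‖z‖ ≤ m ∧ ∀ y ∈ Uᶜ, 1 / ((m : ℝ) + 1) ≤ dist z y}

theorem cmK_isCompact (U : Set (ℝ × ℝ)) (m : ℕ) : IsCompact (cmK U m) := by
  refine IsCompact.of_isClosed_subset (isCompact_closedBall (0 : ℝ × ℝ) m) ?_ ?_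
  · have : cmK U m = {z | ‖z‖ ≤ m} ∩ ⋂ y ∈ Uᶜ, {z | 1 / ((m : ℝ) + 1) ≤ dist z y} := by
      ext z
      simp [cmK]
    rw [this]
    refine IsClosed.inter (isClosed_le (by fun_prop) continuous_const)
      (isClosed_biInter fun y _ => ?_)
    exact isClosed_le continuous_const (by fun_prop)
  · intro z hz
    rw [mem_closedBall_zero_iff]
    exact hz.1

theorem cmK_subset (U : Set (ℝ × ℝ)) (m : ℕ) : cmK U m ⊆ U := by
  intro z hz
  by_contra h
  have h1 := hz.2 z h
  rw [dist_self] at h1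
  have : (0:ℝ) < 1 / ((m : ℝ) + 1) := by positivity
  linarith

theorem cmK_eventually {U C : Set (ℝ × ℝ)} (hU : IsOpen U) (hC : IsCompact C) (h : C ⊆ U) :
    ∀ᶠ m : ℕ in atTop, C ⊆ cmK U m := by
  obtain ⟨δ, hδ, hδ'⟩ := hC.exists_thickening_subset_open hU h
  obtain ⟨R, hR⟩ := hC.isBounded.exists_norm_le
  have h1 : ∀ᶠ m : ℕ in atTop, 1 / ((m : ℝ) + 1) < δ :=
    tendsto_one_div_add_atTop_nhds_zero_nat.eventually_lt_const hδ
  have h2 : ∀ᶠ m : ℕ in atTop, R ≤ m := tendsto_natCast_atTop_atTop.eventually_ge_atTop R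
  filter_upwards [h1, h2] with m hm1 hm2 z hz
  refine ⟨(hR z hz).trans hm2, fun y hy => ?_⟩
  by_contra hlt
  push Not at hlt
  refine hy (hδ' ?_)
  rw [Metric.mem_thickening_iff]
  exact ⟨z, hz, by rw [dist_comm]; exact hlt.trans hm1⟩

/-- `μ` with `k` closed orbits, with quantitative bounds -/
def cmS (D k : ℕ) {ι : Type*} (U : Set (ℝ × ℝ)) (s : Finset ι) (V : ι → Set (ℝ × ℝ)) (m : ℕ) :
    Set (Pr D × (Fin k → ℝ × (A × A))) :=
  {q | ‖q.1‖ ≤ m ∧ (∀ i, (1 / ((m : ℝ) + 1) ≤ (q.2 i).1 ∧ (q.2 i).1 ≤ (m : ℝ) + 1) ∧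
      Sol q.1 (q.2 i).1 (at' (q.2 i).2 0) (q.2 i).2 ∧
      at' (q.2 i).2 1 = at' (q.2 i).2 0 ∧ (∀ t, at' (q.2 i).2 t ∈ cmK U m) ∧
      1 / ((m : ℝ) + 1) ≤ ‖vfc q.1 (at' (q.2 i).2 0)‖ ∧
      ∀ j ∈ s, ∃ t, at' (q.2 i).2 t ∈ (V j)ᶜ) ∧
    ∀ i i', i ≠ i' → ∀ t, 1 / ((m : ℝ) + 1) ≤ dist (at' (q.2 i).2 t) (at' (q.2 i').2 0)}

theorem cmS_isClosed (D k : ℕ) {ι : Type*} (U : Set (ℝ × ℝ)) (s : Finset ι)
    {V : ι → Set (ℝ × ℝ)} (hV : ∀ i ∈ s, IsOpen (V i)) (m : ℕ) : IsClosed (cmS D k U s V m) := by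
  have hat : ∀ (i : Fin k) (t : unitInterval),
      Continuous fun q : Pr D × (Fin k → ℝ × (A × A)) => at' (q.2 i).2 t := fun i t =>
    cm_continuous_at'.comp (f := fun q : Pr D × (Fin k → ℝ × (A × A)) => ((q.2 i).2, t))
      (by fun_prop)
  have hpi : ∀ i : Fin k, Continuous fun q : Pr D × (Fin k → ℝ × (A × A)) =>
      (q.1, ((q.2 i).1, (q.2 i).2)) := fun i => by fun_prop
  have hset : cmS D k U s V m = {q | ‖q.1‖ ≤ m} ∩ ((⋂ i : Fin k,
      (({q | 1 / ((m : ℝ) + 1) ≤ (q.2 i).1} ∩ {q | (q.2 i).1 ≤ (m : ℝ) + 1}) ∩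
      ({q | Sol q.1 (q.2 i).1 (at' (q.2 i).2 0) (q.2 i).2} ∩
      ({q | at' (q.2 i).2 1 = at' (q.2 i).2 0} ∩ ((⋂ t, {q | at' (q.2 i).2 t ∈ cmK U m}) ∩
      ({q | 1 / ((m : ℝ) + 1) ≤ ‖vfc q.1 (at' (q.2 i).2 0)‖} ∩
      ⋂ j ∈ s, {q | ∃ t, at' (q.2 i).2 t ∈ (V j)ᶜ})))))) ∩
    ⋂ i : Fin k, ⋂ i' : Fin k, ⋂ (_ : i ≠ i'), ⋂ t,
      {q | 1 / ((m : ℝ) + 1) ≤ dist (at' (q.2 i).2 t) (at' (q.2 i').2 0)}) := by
    ext q
    simp only [cmS, mem_inter_iff, mem_ofPred_eq, mem_iInter]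
  rw [hset]
  refine IsClosed.inter (isClosed_le (by fun_prop) continuous_const) (IsClosed.inter
    (isClosed_iInter fun i => IsClosed.inter (IsClosed.inter ?_ ?_) (IsClosed.inter ?_
      (IsClosed.inter ?_ (IsClosed.inter ?_ (IsClosed.inter ?_ ?_))))) ?_)
  · exact isClosed_le continuous_const (by fun_prop)
  · exact isClosed_le (by fun_prop) continuous_const
  · exact cm_isClosed_sol.preimage (hpi i)
  · exact isClosed_eq (hat i 1) (hat i 0)
  · exact isClosed_iInter fun t => (cmK_isCompact U m).isClosed.preimage (hat i t)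
  · refine isClosed_le continuous_const ?_
    exact (cm_continuous_vfc.comp (continuous_fst.prodMk (hat i 0))).norm
  · refine isClosed_biInter fun j hj => ?_
    have h1 : IsClosed {q : (Pr D × (Fin k → ℝ × (A × A))) × unitInterval |
        at' (q.1.2 i).2 q.2 ∈ (V j)ᶜ} := by
      refine ((hV j hj).isClosed_compl).preimage ?_
      exact cm_continuous_at'.comp
        (f := fun q : (Pr D × (Fin k → ℝ × (A × A))) × unitInterval => ((q.1.2 i).2, q.2))
        (by fun_prop)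
    have h2 := isClosedMap_fst_of_compactSpace (X := Pr D × (Fin k → ℝ × (A × A)))
      (Y := unitInterval) _ h1
    have h3 : {q : Pr D × (Fin k → ℝ × (A × A)) | ∃ t, at' (q.2 i).2 t ∈ (V j)ᶜ} =
        Prod.fst '' {q : (Pr D × (Fin k → ℝ × (A × A))) × unitInterval |
          at' (q.1.2 i).2 q.2 ∈ (V j)ᶜ} := by
      ext q
      constructor
      · rintro ⟨t, ht⟩
        exact ⟨(q, t), ht, rfl⟩
      · rintro ⟨⟨q', t⟩, ht, rfl⟩
        exact ⟨t, ht⟩
    rw [h3]
    exact h2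
  · refine isClosed_iInter fun i => isClosed_iInter fun i' => isClosed_iInter fun _ =>
      isClosed_iInter fun t => ?_
    exact isClosed_le continuous_const ((hat i t).dist (hat i' 0))

theorem cmS_isCompact (D k : ℕ) {ι : Type*} (U : Set (ℝ × ℝ)) (s : Finset ι)
    {V : ι → Set (ℝ × ℝ)} (hV : ∀ i ∈ s, IsOpen (V i)) (m : ℕ) : IsCompact (cmS D k U s V m) := by
  -- bound of the fields
  obtain ⟨B, hB⟩ := ((isCompact_closedBall (0 : Pr D) m).prod
    (cmK_isCompact U m)).exists_bound_of_continuousOn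
    (f := fun q : Pr D × (ℝ × ℝ) => vfc q.1 q.2) cm_continuous_vfc.continuousOn
  set F : Set A := {f : A | (∀ t, |f t| ≤ m) ∧
    ∀ s t, |f s - f t| ≤ ((m + 1 : ℝ) * B) * dist s t} with hF
  have hFc : IsCompact F := cm_isCompact_lip _ _
  refine IsCompact.of_isClosed_subset ((isCompact_closedBall (0 : Pr D) m).prod
    (isCompact_univ_pi fun _ : Fin k => (isCompact_Icc (a := 1 / ((m : ℝ) + 1))
      (b := (m : ℝ) + 1)).prod (hFc.prod hFc))) (cmS_isClosed D k U s hV m) ?_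
  rintro q ⟨h1, h2, -⟩
  refine ⟨by rw [mem_closedBall_zero_iff]; exact h1, fun i _ => ?_⟩
  obtain ⟨⟨h3, h4⟩, h5, -, h6, -⟩ := h2 i
  have hbd : ∀ t, ‖vfc q.1 (at' (q.2 i).2 t)‖ ≤ B := fun t =>
    hB (q.1, at' (q.2 i).2 t) ⟨by rw [mem_closedBall_zero_iff]; exact h1, h6 t⟩
  have hT : |(q.2 i).1| ≤ (m : ℝ) + 1 := by
    rw [abs_of_nonneg ((by positivity : (0:ℝ) ≤ 1 / ((m : ℝ) + 1)).trans h3)]
    exact h4
  have hlip := fun s t => cm_sol_lip h5 hbd hT s t
  refine ⟨⟨h3, h4⟩, ⟨fun t => ?_, fun s t => ?_⟩, ⟨fun t => ?_, fun s t => ?_⟩⟩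
  · exact (norm_fst_le (at' (q.2 i).2 t)).trans (h6 t).1
  · exact (norm_fst_le (at' (q.2 i).2 s - at' (q.2 i).2 t)).trans (hlip s t)
  · exact (norm_snd_le (at' (q.2 i).2 t)).trans (h6 t).1
  · exact (norm_snd_le (at' (q.2 i).2 s - at' (q.2 i).2 t)).trans (hlip s t)

theorem cm_superlevel {ι : Type*} {U : Set (ℝ × ℝ)} (hU : IsOpen U) (s : Finset ι)
    {V : ι → Set (ℝ × ℝ)} (k : ℕ) :
    {μ : Pr D | (k : ℕ∞) ≤ ({C | IsClosedOrbit (vfc μ) C ∧ C ⊆ U ∧ ∀ i ∈ s, ¬ C ⊆ V i} :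
      Set (Set (ℝ × ℝ))).encard} = ⋃ m : ℕ, Prod.fst '' cmS D k U s V m := by
  ext μ
  rw [mem_iUnion]
  constructor
  · intro h
    obtain ⟨t, ht, htk⟩ := Set.exists_subset_encard_eq h
    have htf : t.Finite := Set.finite_of_encard_eq_coe htk
    have hcard : Nat.card t = k := by
      have h1 := htf.cast_ncard_eq
      rw [htk] at h1
      have h2 : t.ncard = k := by exact_mod_cast h1
      rw [← h2]
      exact Nat.card_coe_set_eq t
    have : Finite t := htf
    let e : t ≃ Fin k := Finite.equivFinOfCardEq hcard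
    set C : Fin k → Set (ℝ × ℝ) := fun i => (e.symm i : Set (ℝ × ℝ)) with hCdef
    have hC : ∀ i, IsClosedOrbit (vfc μ) (C i) ∧ C i ⊆ U ∧ ∀ j ∈ s, ¬ C i ⊆ V j :=
      fun i => ht (e.symm i).2
    have hCinj : Function.Injective C := fun i i' hii =>
      e.symm.injective (Subtype.ext hii)
    have hne : ∀ i, (C i).Nonempty := fun i => (hC i).1.nonempty
    choose p hp using hne
    choose γ T hT hγ hper h0 hrange _ using fun i => (hC i).1.exists_param (hp i)
    have hc : ∀ i, Continuous (γ i) := fun i =>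
      continuous_iff_continuousAt.2 fun t => (hγ i t).continuousAt
    set z : Fin k → A × A := fun i => pathOf (γ i) (hc i) 0 (T i) with hz
    have hzat : ∀ i (t : unitInterval), at' (z i) t = γ i (0 + T i * t) := fun i t => rfl
    have hz0 : ∀ i, at' (z i) 0 = p i := by
      intro i
      rw [hzat]
      simp [h0]
    have hz1 : ∀ i, at' (z i) 1 = p i := by
      intro i
      rw [hzat]
      have := hper i 0
      simp only [zero_add] at this ⊢
      simp [this, h0]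
    have hmem : ∀ i t, at' (z i) t ∈ C i := by
      intro i t
      rw [hzat, hrange i]
      exact mem_range_self _
    have hsol : ∀ i, Sol μ (T i) (at' (z i) 0) (z i) := by
      intro i
      have := Sol.of_curve μ (hγ i) (hc i) 0 (T i)
      rw [hz0, ← h0 i]
      exact this
    have hsurj : ∀ i, ∀ y ∈ C i, ∃ t, at' (z i) t = y := by
      intro i y hy
      rw [hrange i] at hy
      obtain ⟨a, rfl⟩ := hy
      have hpp : Function.Periodic (γ i) (T i) := hper i
      obtain ⟨b, hb, hab⟩ := hpp.exists_mem_Ico₀ (hT i) a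
      refine ⟨⟨b / T i, div_nonneg hb.1 (hT i).le, (div_le_one (hT i)).2 hb.2.le⟩, ?_⟩
      rw [hzat]
      simp only [zero_add]
      rw [mul_div_cancel₀ _ (hT i).ne']
      exact hab.symm
    -- choice of m
    have e1 : ∀ᶠ m : ℕ in atTop, ‖μ‖ ≤ m := tendsto_natCast_atTop_atTop.eventually_ge_atTop _
    have e2 : ∀ᶠ m : ℕ in atTop, ∀ i, 1 / ((m : ℝ) + 1) ≤ T i := eventually_all.2 fun i =>
      (tendsto_one_div_add_atTop_nhds_zero_nat.eventually_lt_const (hT i)).mono fun _ h => h.le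
    have e3 : ∀ᶠ m : ℕ in atTop, ∀ i, T i ≤ m + 1 := eventually_all.2 fun i =>
      (tendsto_natCast_atTop_atTop.eventually_ge_atTop (T i)).mono fun m h => h.trans (by simp)
    have e4 : ∀ᶠ m : ℕ in atTop, ∀ i, C i ⊆ cmK U m := eventually_all.2 fun i =>
      cmK_eventually hU (hC i).1.isCompact (hC i).2.1
    have e5 : ∀ᶠ m : ℕ in atTop, ∀ i, 1 / ((m : ℝ) + 1) ≤ ‖vfc μ (p i)‖ :=
      eventually_all.2 fun i =>
      (tendsto_one_div_add_atTop_nhds_zero_nat.eventually_lt_const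
        (norm_pos_iff.2 ((hC i).1.ne_zero (hp i)))).mono fun _ h => h.le
    have e6 : ∀ᶠ m : ℕ in atTop, ∀ i i', i ≠ i' → ∀ t,
        1 / ((m : ℝ) + 1) ≤ dist (at' (z i) t) (p i') := by
      refine eventually_all.2 fun i => eventually_all.2 fun i' => ?_
      by_cases hii : i = i'
      · exact Eventually.of_forall fun m h => absurd hii h
      · have hnot : p i' ∉ C i := fun hmem' =>
          hii (hCinj ((hC i).1.eq_of_mem (hC i').1 hmem' (hp i')))
        have hpos : 0 < Metric.infDist (p i') (C i) :=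
          ((hC i).1.isCompact.isClosed.notMem_iff_infDist_pos ⟨p i, hp i⟩).1 hnot
        refine (tendsto_one_div_add_atTop_nhds_zero_nat.eventually_lt_const hpos).mono
          fun m hm _ t => ?_
        rw [dist_comm]
        exact hm.le.trans (Metric.infDist_le_dist_of_mem (hmem i t))
    obtain ⟨m, g1, g2, g3, g4, g5, g6⟩ := (e1.and (e2.and (e3.and (e4.and (e5.and e6))))).exists
    refine ⟨m, (μ, fun i => (T i, z i)), ⟨g1, fun i => ⟨⟨g2 i, g3 i⟩, hsol i, ?_, ?_, ?_, ?_⟩,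
      fun i i' hii t => ?_⟩, rfl⟩
    · exact (hz1 i).trans (hz0 i).symm
    · exact fun t => g4 i (hmem i t)
    · simp only [hz0]
      exact g5 i
    · intro j hj
      obtain ⟨y, hy, hyV⟩ := Set.not_subset.1 ((hC i).2.2 j hj)
      obtain ⟨t, ht⟩ := hsurj i y hy
      exact ⟨t, by simp only [ht]; exact hyV⟩
    · simp only [hz0]
      exact g6 i i' hii t
  · rintro ⟨m, ⟨μ', q⟩, ⟨-, h2, h3⟩, rfl⟩
    simp only at h2 h3 ⊢
    have hmpos : (0:ℝ) < 1 / ((m : ℝ) + 1) := by positivity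
    choose γ hγ hper h0 hγz hrange using fun i => Sol.exists_curve (h2 i).2.1
      (hmpos.trans_le (h2 i).1.1) (h2 i).2.2.1
    set C : Fin k → Set (ℝ × ℝ) := fun i => range (at' (q i).2) with hC
    have hmem : ∀ i, C i ∈ ({C | IsClosedOrbit (vfc μ') C ∧ C ⊆ U ∧ ∀ i ∈ s, ¬ C ⊆ V i} :
      Set (Set (ℝ × ℝ))) := by
      intro i
      refine ⟨⟨γ i, (q i).1, hmpos.trans_le (h2 i).1.1, hγ i, hper i, ?_, (hrange i).symm⟩, ?_, ?_⟩
      · by_contra hcon
        push Not at hcon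
        have hconst : γ i = fun _ => γ i 0 := funext fun t => hcon t 0
        have hd := hγ i 0
        rw [hconst] at hd
        have hz := hd.unique (hasDerivAt_const (0:ℝ) (γ i 0))
        simp only [h0] at hz
        have h5 := (h2 i).2.2.2.2.1
        rw [hz, norm_zero] at h5
        linarith
      · rintro _ ⟨t, rfl⟩
        exact cmK_subset U m ((h2 i).2.2.2.1 t)
      · intro j hj hsub
        obtain ⟨t, ht⟩ := (h2 i).2.2.2.2.2 j hj
        exact ht (hsub ⟨t, rfl⟩)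
    have hinj : Function.Injective C := by
      intro i i' hii
      by_contra hne
      have h4 : at' (q i').2 0 ∈ C i := by
        rw [hii]
        exact ⟨0, rfl⟩
      obtain ⟨t, ht⟩ := h4
      have h5 := h3 i i' hne t
      rw [ht, dist_self] at h5
      linarith
    have h6 : (range C).encard = k := by
      rw [← Set.image_univ, hinj.encard_image, Set.encard_univ]
      simp
    rw [← h6]
    refine Set.encard_le_encard ?_
    rintro _ ⟨i, rfl⟩
    exact hmem i

theorem measurableSet_cm_superlevel {ι : Type*} {U : Set (ℝ × ℝ)} (hU : IsOpen U) (s : Finset ι)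
    {V : ι → Set (ℝ × ℝ)} (hV : ∀ i ∈ s, IsOpen (V i)) (k : ℕ) :
    MeasurableSet {μ : Pr D | (k : ℕ∞) ≤ ({C | IsClosedOrbit (vfc μ) C ∧ C ⊆ U ∧
      ∀ i ∈ s, ¬ C ⊆ V i} : Set (Set (ℝ × ℝ))).encard} := by
  rw [cm_superlevel hU s k]
  refine MeasurableSet.iUnion fun m => ?_
  exact ((cmS_isCompact D k U s hV m).image continuous_fst).isClosed.measurableSet

/-- the number of closed orbits in `U` which are not contained in one of finitely many open sets
is a measurable function of the coefficients -/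
theorem measurable_cntO {ι : Type*} {U : Set (ℝ × ℝ)} (hU : IsOpen U) (s : Finset ι)
    {V : ι → Set (ℝ × ℝ)} (hV : ∀ i ∈ s, IsOpen (V i)) :
    Measurable fun μ : Pr D => cntO (vfc μ) U s V := by
  refine measurable_of_Ioi fun a => ?_
  have h1 : (fun μ : Pr D => cntO (vfc μ) U s V) ⁻¹' Ioi a =
      ⋃ k : ℕ, ⋃ (_ : a < k), {μ : Pr D | (k : ℕ∞) ≤ ({C | IsClosedOrbit (vfc μ) C ∧ C ⊆ U ∧
        ∀ i ∈ s, ¬ C ⊆ V i} : Set (Set (ℝ × ℝ))).encard} := by
    ext μ
    simp only [mem_preimage, mem_Ioi, mem_iUnion, mem_ofPred_eq, exists_prop, cntO]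
    set x : ℕ∞ := ({C | IsClosedOrbit (vfc μ) C ∧ C ⊆ U ∧ ∀ i ∈ s, ¬ C ⊆ V i} :
      Set (Set (ℝ × ℝ))).encard with hx
    constructor
    · intro h
      by_cases hxt : x = ⊤
      · rw [hxt] at h ⊢
        obtain ⟨k, hk⟩ := ENNReal.exists_nat_gt (r := a) (by
          intro ha
          rw [ha] at h
          simp at h)
        exact ⟨k, hk, le_top⟩
      · obtain ⟨n, hn⟩ := ENat.ne_top_iff_exists.1 hxt
        rw [← hn] at h ⊢
        exact ⟨n, by simpa using h, le_rfl⟩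
    · rintro ⟨k, hk, hkx⟩
      refine hk.trans_le ?_
      have h2 : ((k : ℕ∞) : ℝ≥0∞) ≤ (x : ℝ≥0∞) := ENat.toENNReal_le.2 hkx
      simpa using h2
  rw [h1]
  exact MeasurableSet.iUnion fun k => MeasurableSet.iUnion fun _ =>
    measurableSet_cm_superlevel hU s hV k

end Pool.Agent.Lib.MP_95e7ec_an
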