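import Mathlib

/-!
Bernstein's inequality at the midpoint of an interval, up to a constant (task D7).
-/

open Polynomial

namespace Pool.Agent.Lib.MP_95e7ec_an

/-- `w ^ n * q ((w + 1 / w) / 2)` as a polynomial in `w` -/
private noncomputable def bernH (n : ℕ) (q : Polynomial ℝ) (w : ℂ) : ℂ :=
  ∑ k ∈ Finset.range (n + 1), (q.coeff k : ℂ) * ((w ^ 2 + 1) / 2) ^ k * w ^ (n - k)

private theorem bernH_eq {n : ℕ} {q : Polynomial ℝ} (hq : q.natDegree ≤ n) {w : ℂ} (hw : w ≠ 0) :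
    bernH n q w = w ^ n * (q.map Complex.ofRealHom).eval ((w + w⁻¹) / 2) := by
  have h1 : (q.map Complex.ofRealHom).natDegree < n + 1 :=
    lt_of_le_of_lt natDegree_map_le (by omega)
  rw [eval_eq_sum_range' h1, bernH, Finset.mul_sum]
  refine Finset.sum_congr rfl fun k hk => ?_
  have hk' : k ≤ n := by simpa [Nat.lt_succ_iff] using hk
  rw [coeff_map, Complex.ofRealHom_eq_coe]
  have h2 : w ^ n = w ^ (n - k) * w ^ k := by rw [← pow_add]; congr 1; omega
  have h3 : ((w ^ 2 + 1) / 2) ^ k = w ^ k * ((w + w⁻¹) / 2) ^ k := by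
    rw [← mul_pow]
    congr 1
    field_simp
  rw [h2, h3]
  ring

private theorem bernH_le {n : ℕ} {q : Polynomial ℝ} (hq : q.natDegree ≤ n) {m : ℝ}
    (hm : ∀ t ∈ Set.Icc (-1 : ℝ) 1, |q.eval t| ≤ m) {w : ℂ} (hw : ‖w‖ ≤ 1) :
    ‖bernH n q w‖ ≤ m := by
  have hd : DiffContOnCl ℂ (bernH n q) (Metric.ball 0 1) := by
    refine Differentiable.diffContOnCl ?_
    unfold bernH
    fun_prop
  refine Complex.norm_le_of_forall_mem_frontier_norm_le Metric.isBounded_ball hd ?_ ?_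
  · intro z hz
    rw [frontier_ball (0 : ℂ) one_ne_zero] at hz
    have hz1 : ‖z‖ = 1 := by simpa using hz
    have hz0 : z ≠ 0 := by
      rintro rfl
      simp at hz1
    rw [bernH_eq hq hz0, norm_mul, norm_pow, hz1, one_pow, one_mul]
    have h1 : (z + z⁻¹) / 2 = ((z.re : ℝ) : ℂ) := by
      rw [Complex.inv_eq_conj hz1, Complex.add_conj]
      push_cast
      ring
    have h2 : (q.map Complex.ofRealHom).eval ((z.re : ℝ) : ℂ) = ((q.eval z.re : ℝ) : ℂ) := by
      rw [eval_map, ← Complex.ofRealHom_eq_coe, eval₂_at_apply]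
      rfl
    rw [h1, h2, Complex.norm_real]
    refine hm _ ?_
    have := Complex.abs_re_le_norm z
    rw [hz1, abs_le] at this
    exact this
  · rw [closure_ball (0 : ℂ) one_ne_zero]
    simpa using hw

/-- growth near the midpoint -/
private theorem bern_growth {n : ℕ} {q : Polynomial ℝ} (hq : q.natDegree ≤ n) {m : ℝ}
    (hm : ∀ t ∈ Set.Icc (-1 : ℝ) 1, |q.eval t| ≤ m) (z : ℂ) :
    ‖(q.map Complex.ofRealHom).eval z‖ ≤ (1 + 2 * ‖z‖) ^ n * m := by
  have hm0 : 0 ≤ m := (abs_nonneg _).trans (hm 0 (by simp))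
  -- a root of `w ^ 2 - 2 z w + 1` of modulus at most one
  obtain ⟨w, hw0, hw1, hwz⟩ : ∃ w : ℂ, w ≠ 0 ∧ ‖w‖ ≤ 1 ∧ w + w⁻¹ = 2 * z := by
    obtain ⟨s, hs⟩ := IsAlgClosed.exists_pow_nat_eq (z ^ 2 - 1) (n := 2) (by norm_num)
    have h1 : (z + s) * (z - s) = 1 := by
      linear_combination -hs
    have h2 : z + s ≠ 0 := left_ne_zero_of_mul_eq_one h1
    have h3 : z - s ≠ 0 := right_ne_zero_of_mul_eq_one h1
    have h4 : (z + s)⁻¹ = z - s := inv_eq_of_mul_eq_one_right h1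
    have h5 : (z - s)⁻¹ = z + s := inv_eq_of_mul_eq_one_left h1
    rcases le_total ‖z + s‖ 1 with h | h
    · exact ⟨z + s, h2, h, by rw [h4]; ring⟩
    · refine ⟨z - s, h3, ?_, by rw [h5]; ring⟩
      rw [← h4, norm_inv]
      exact inv_le_one_of_one_le₀ h
  have h1 : z = (w + w⁻¹) / 2 := by rw [hwz]; ring
  have h2 := bernH_le hq hm hw1
  rw [bernH_eq hq hw0, ← h1, norm_mul, norm_pow] at h2
  have hw : 0 < ‖w‖ := norm_pos_iff.2 hw0
  have h3 : ‖w‖⁻¹ ≤ 1 + 2 * ‖z‖ := by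
    rw [← norm_inv]
    by_contra h
    push Not at h
    have h4 : w⁻¹ * w⁻¹ = 2 * z * w⁻¹ - 1 := by
      have : w * w⁻¹ = 1 := mul_inv_cancel₀ hw0
      linear_combination w⁻¹ * hwz - this
    have h5 : ‖w⁻¹‖ * ‖w⁻¹‖ ≤ 2 * ‖z‖ * ‖w⁻¹‖ + 1 := by
      rw [← norm_mul, h4]
      refine (norm_sub_le _ _).trans ?_
      simp
    have h6 := norm_nonneg z
    nlinarith [mul_pos (show 0 < ‖w⁻¹‖ - 1 - 2 * ‖z‖ by linarith) (show 0 < ‖w⁻¹‖ by linarith)]
  have h4 : ‖(q.map Complex.ofRealHom).eval z‖ ≤ (‖w‖⁻¹) ^ n * m := by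
    have h5 : (‖w‖⁻¹) ^ n * (‖w‖ ^ n * ‖(q.map Complex.ofRealHom).eval z‖)
        ≤ (‖w‖⁻¹) ^ n * m := by gcongr
    rw [← mul_assoc, ← mul_pow, inv_mul_cancel₀ hw.ne', one_pow, one_mul] at h5
    exact h5
  refine h4.trans ?_
  gcongr

private theorem bern_unit {n : ℕ} {q : Polynomial ℝ} (hq : q.natDegree ≤ n) {m : ℝ}
    (hm : ∀ t ∈ Set.Icc (-1 : ℝ) 1, |q.eval t| ≤ m) :
    |q.derivative.eval 0| ≤ 9 * n * m := by
  have hm0 : 0 ≤ m := (abs_nonneg _).trans (hm 0 (by simp))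
  rcases Nat.eq_zero_or_pos n with rfl | hn
  · rw [eq_C_of_natDegree_le_zero hq]
    simp
  have hn' : (0 : ℝ) < n := by exact_mod_cast hn
  set f : ℂ → ℂ := fun z => (q.map Complex.ofRealHom).eval z with hf
  have h1 : ∀ z ∈ Metric.sphere (0 : ℂ) (1 / n), ‖f z‖ ≤ 9 * m := by
    intro z hz
    have hz1 : ‖z‖ = 1 / n := by simpa using hz
    refine (bern_growth hq hm z).trans ?_
    rw [hz1]
    have h2 : (1 + 2 * (1 / (n : ℝ))) ^ n ≤ 9 := by
      have h3 : 1 + 2 * (1 / (n : ℝ)) ≤ Real.exp (2 * (1 / n)) := by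
        have := Real.add_one_le_exp (2 * (1 / (n : ℝ)))
        linarith
      calc (1 + 2 * (1 / (n : ℝ))) ^ n ≤ Real.exp (2 * (1 / n)) ^ n := by gcongr
        _ = Real.exp 2 := by
          rw [← Real.exp_nat_mul]
          congr 1
          field_simp
        _ = Real.exp 1 ^ 2 := by
          rw [← Real.exp_nat_mul]
          norm_num
        _ ≤ 3 ^ 2 := by
          have := Real.exp_one_lt_d9
          gcongr
          linarith
        _ = 9 := by norm_num
    gcongr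
  have h2 := Complex.norm_deriv_le_of_forall_mem_sphere_norm_le (c := 0) (R := 1 / (n : ℝ))
    (f := f) (by positivity) (by
      refine Differentiable.diffContOnCl ?_
      simp only [hf]
      exact Polynomial.differentiable _) h1
  have h3 : deriv f 0 = ((q.derivative.eval 0 : ℝ) : ℂ) := by
    simp only [hf, Polynomial.deriv]
    rw [derivative_map, eval_map]
    have : (0 : ℂ) = Complex.ofRealHom 0 := by simp
    rw [this, eval₂_at_apply]
    rfl
  rw [h3, Complex.norm_real, Real.norm_eq_abs] at h2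
  refine h2.trans (le_of_eq ?_)
  field_simp

theorem bernstein_mid {n : ℕ} (p : Polynomial ℝ) (hp : p.natDegree ≤ n) {x l m : ℝ} (hl : 0 < l)
    (hm : ∀ t ∈ Set.Icc (x - l) (x + l), |p.eval t| ≤ m) :
    |p.derivative.eval x| ≤ 9 * n * m / l := by
  set q : Polynomial ℝ := p.comp (C x + C l * X) with hq
  have hlin : (C x + C l * X : Polynomial ℝ).natDegree ≤ 1 := by
    rw [add_comm]
    exact natDegree_linear_le
  have hqn : q.natDegree ≤ n := by
    rw [hq]
    refine natDegree_comp_le.trans ?_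
    calc p.natDegree * _ ≤ n * 1 := Nat.mul_le_mul hp hlin
      _ = n := mul_one n
  have h1 : ∀ t ∈ Set.Icc (-1 : ℝ) 1, |q.eval t| ≤ m := by
    intro t ht
    rw [hq, eval_comp]
    refine hm _ ?_
    simp only [eval_add, eval_mul, eval_C, eval_X, Set.mem_Icc]
    constructor <;> nlinarith [ht.1, ht.2]
  have h2 := bern_unit hqn h1
  have h3 : q.derivative.eval 0 = l * p.derivative.eval x := by
    rw [hq, derivative_comp]
    simp
  rw [h3, abs_mul, abs_of_pos hl] at h2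
  rw [le_div_iff₀ hl]
  linarith

end Pool.Agent.Lib.MP_95e7ec_an
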