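import Mathlib
import Pool.Agent.Lib.MP_95e7ec_an.KosDefs

/-!
# Cauchy estimates on a bidisc in terms of the mean over the torus
-/

set_option autoImplicit false

open Set Filter Topology MeasureTheory Metric
open scoped ContDiff ENNReal

namespace Pool.Agent.Lib.MP_95e7ec_an

/-- one variable: the value is at most four times the mean of the absolute value -/
private theorem c2_mean {g : ℂ → ℂ} {c : ℂ} {r : ℝ} (hr : 0 < r)
    (hg : DifferentiableOn ℂ g (closedBall c (2 * r))) {w : ℂ} (hw : ‖w - c‖ ≤ 3 * r / 2) :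
    ‖g w‖ ≤ 4 * ((2 * Real.pi)⁻¹ *
      ∫ θ in (0 : ℝ)..2 * Real.pi, ‖g (circleMap c (2 * r) θ)‖) := by
  have hpi := Real.pi_pos
  have hwb : w ∈ ball c (2 * r) := by
    rw [mem_ball_iff_norm]; linarith
  have h := hg.circleIntegral_sub_inv_smul hwb
  have h2 : ‖(2 * Real.pi * Complex.I : ℂ) • g w‖ = 2 * Real.pi * ‖g w‖ := by
    rw [norm_smul]
    simp [abs_of_pos hpi]
  have hcm : ∀ θ, circleMap c (2 * r) θ ∈ closedBall c (2 * r) := fun θ =>
    sphere_subset_closedBall (circleMap_mem_sphere c (by linarith) θ)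
  have hgc : Continuous fun θ : ℝ => g (circleMap c (2 * r) θ) :=
    hg.continuousOn.comp_continuous (continuous_circleMap c _) hcm
  have h3 : ‖∮ z in C(c, 2 * r), (z - w)⁻¹ • g z‖ ≤
      ∫ θ in (0 : ℝ)..2 * Real.pi, 4 * ‖g (circleMap c (2 * r) θ)‖ := by
    rw [circleIntegral]
    refine (intervalIntegral.norm_integral_le_integral_norm (by positivity)).trans ?_
    have hne : ∀ θ, circleMap c (2 * r) θ - w ≠ 0 := by
      intro θ h0
      have h1 : circleMap c (2 * r) θ ∈ sphere c (2 * r) :=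
        circleMap_mem_sphere c (by linarith) θ
      rw [sub_eq_zero.1 h0, mem_sphere_iff_norm] at h1
      linarith
    refine intervalIntegral.integral_mono_on (by positivity) ?_ ?_ ?_
    · refine Continuous.intervalIntegrable ?_ _ _
      simp only [deriv_circleMap]
      have e1 : Continuous fun θ : ℝ => circleMap 0 (2 * r) θ * Complex.I :=
        (continuous_circleMap 0 _).mul continuous_const
      have e2 : Continuous fun θ : ℝ => (circleMap c (2 * r) θ - w)⁻¹ :=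
        ((continuous_circleMap c _).sub continuous_const).inv₀ hne
      exact (e1.smul (e2.smul hgc)).norm
    · exact (continuous_const.mul hgc.norm).intervalIntegrable _ _
    · intro θ _
      rw [norm_smul, norm_smul, ← mul_assoc]
      refine mul_le_mul_of_nonneg_right ?_ (norm_nonneg _)
      have h4 : ‖deriv (circleMap c (2 * r)) θ‖ = 2 * r := by
        rw [deriv_circleMap]
        simp [abs_of_pos hr]
      have h5 : r / 2 ≤ ‖circleMap c (2 * r) θ - w‖ := by
        have h1 : ‖circleMap c (2 * r) θ - c‖ = 2 * r := by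
          have := circleMap_mem_sphere c (show 0 ≤ 2 * r by linarith) θ
          rwa [mem_sphere_iff_norm] at this
        have h6 : ‖circleMap c (2 * r) θ - c‖ ≤ ‖circleMap c (2 * r) θ - w‖ + ‖w - c‖ := by
          have := norm_add_le (circleMap c (2 * r) θ - w) (w - c)
          simpa using this
        linarith
      rw [h4, norm_inv]
      rw [← div_eq_mul_inv, div_le_iff₀ (by linarith)]
      linarith
  rw [h, h2] at h3
  rw [intervalIntegral.integral_const_mul] at h3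
  rw [← mul_assoc, mul_comm (4 : ℝ), mul_assoc, ← div_eq_inv_mul, le_div_iff₀ (by positivity)]
  linarith

/-- two variables -/
private theorem c2_mean2 {F : ℂ × ℂ → ℂ} {z0 : ℝ × ℝ} {r : ℝ} (hr : 0 < r)
    {O : Set (ℂ × ℂ)} (hF : DifferentiableOn ℂ F O)
    (hsub : ∀ ζ : ℂ × ℂ, ‖ζ.1 - z0.1‖ ≤ 2 * r → ‖ζ.2 - z0.2‖ ≤ 2 * r → ζ ∈ O)
    {w : ℂ × ℂ} (h1 : ‖w.1 - z0.1‖ ≤ 3 * r / 2) (h2 : ‖w.2 - z0.2‖ ≤ 3 * r / 2) :
    ‖F w‖ ≤ 16 * tmean (fun ζ => ‖F ζ‖) z0 (2 * r) := by
  have hpi := Real.pi_pos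
  have hcm : ∀ (c : ℂ) θ, ‖circleMap c (2 * r) θ - c‖ ≤ 2 * r := by
    intro c θ
    have := circleMap_mem_sphere c (show 0 ≤ 2 * r by linarith) θ
    rw [mem_sphere_iff_norm] at this
    exact this.le
  -- slices
  have s1 : ∀ v : ℂ, ‖v - z0.2‖ ≤ 2 * r →
      DifferentiableOn ℂ (fun ζ => F (ζ, v)) (closedBall (z0.1 : ℂ) (2 * r)) := by
    intro v hv
    refine hF.comp (f := fun ζ : ℂ => (ζ, v)) (by fun_prop) fun ζ hζ => hsub _ ?_ hv
    exact mem_closedBall_iff_norm.1 hζ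
  have s2 : ∀ v : ℂ, ‖v - z0.1‖ ≤ 2 * r →
      DifferentiableOn ℂ (fun ζ => F (v, ζ)) (closedBall (z0.2 : ℂ) (2 * r)) := by
    intro v hv
    refine hF.comp (f := fun ζ : ℂ => (v, ζ)) (by fun_prop) fun ζ hζ => hsub _ hv ?_
    exact mem_closedBall_iff_norm.1 hζ
  have a1 := c2_mean hr (s1 w.2 (by linarith)) h1
  have a2 : ∀ θ : ℝ, ‖F (circleMap (z0.1 : ℂ) (2 * r) θ, w.2)‖ ≤ 4 * ((2 * Real.pi)⁻¹ *
      ∫ φ in (0 : ℝ)..2 * Real.pi,
        ‖F (circleMap (z0.1 : ℂ) (2 * r) θ, circleMap (z0.2 : ℂ) (2 * r) φ)‖) := fun θ =>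
    c2_mean hr (s2 _ (hcm _ θ)) h2
  have hcc : Continuous (Function.uncurry fun θ φ : ℝ =>
      ‖F (circleMap (z0.1 : ℂ) (2 * r) θ, circleMap (z0.2 : ℂ) (2 * r) φ)‖) := by
    refine Continuous.norm ?_
    refine hF.continuousOn.comp_continuous (f := fun p : ℝ × ℝ =>
      (circleMap (z0.1 : ℂ) (2 * r) p.1, circleMap (z0.2 : ℂ) (2 * r) p.2)) (by fun_prop) ?_
    intro p
    exact hsub _ (hcm _ _) (hcm _ _)
  have hc1 : Continuous fun θ : ℝ => ∫ φ in (0 : ℝ)..2 * Real.pi,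
        ‖F (circleMap (z0.1 : ℂ) (2 * r) θ, circleMap (z0.2 : ℂ) (2 * r) φ)‖ :=
    intervalIntegral.continuous_parametric_intervalIntegral_of_continuous' hcc 0 (2 * Real.pi)
  have hc2 : Continuous fun θ : ℝ => ‖F (circleMap (z0.1 : ℂ) (2 * r) θ, w.2)‖ := by
    refine Continuous.norm ?_
    refine hF.continuousOn.comp_continuous (f := fun θ : ℝ =>
      (circleMap (z0.1 : ℂ) (2 * r) θ, w.2)) (by fun_prop) ?_
    intro θ
    exact hsub _ (hcm _ _) (by show ‖w.2 - z0.2‖ ≤ 2 * r; linarith)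
  have a3 : ∫ θ in (0 : ℝ)..2 * Real.pi, ‖F (circleMap (z0.1 : ℂ) (2 * r) θ, w.2)‖ ≤
      ∫ θ in (0 : ℝ)..2 * Real.pi, (4 * ((2 * Real.pi)⁻¹ *
      ∫ φ in (0 : ℝ)..2 * Real.pi,
        ‖F (circleMap (z0.1 : ℂ) (2 * r) θ, circleMap (z0.2 : ℂ) (2 * r) φ)‖)) :=
    intervalIntegral.integral_mono_on (by positivity) (hc2.intervalIntegrable _ _)
      ((continuous_const.mul (continuous_const.mul hc1)).intervalIntegrable _ _)
      fun θ _ => a2 θ
  rw [intervalIntegral.integral_const_mul, intervalIntegral.integral_const_mul] at a3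
  have a4 : ‖F w‖ ≤ 4 * ((2 * Real.pi)⁻¹ * (4 * ((2 * Real.pi)⁻¹ *
      ∫ θ in (0 : ℝ)..2 * Real.pi, ∫ φ in (0 : ℝ)..2 * Real.pi,
        ‖F (circleMap (z0.1 : ℂ) (2 * r) θ, circleMap (z0.2 : ℂ) (2 * r) φ)‖))) := by
    refine a1.trans ?_
    refine mul_le_mul_of_nonneg_left ?_ (by norm_num)
    exact mul_le_mul_of_nonneg_left a3 (by positivity)
  refine a4.trans (le_of_eq ?_)
  unfold tmean
  rw [show (4 * Real.pi ^ 2)⁻¹ = (2 * Real.pi)⁻¹ * (2 * Real.pi)⁻¹ by
    rw [← mul_inv]; congr 1; ring]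
  ring

/-- uniform estimate of the difference quotient -/
private theorem c2_quot {G : ℂ → ℂ} {c : ℂ} {s M : ℝ} (hs : 0 < s)
    (hG : DifferentiableOn ℂ G (ball c s)) (hM : ∀ z ∈ ball c s, ‖G z‖ ≤ M) {k : ℂ}
    (hk0 : k ≠ 0) (hk : ‖k‖ < s / 4) :
    ‖(G (c + k) - G c) / k - deriv G c‖ ≤ 16 * M / s ^ 2 * ‖k‖ := by
  have hG' : DifferentiableOn ℂ (deriv G) (ball c s) := hG.deriv isOpen_ball
  have b1 : ∀ z ∈ ball c (3 * s / 4), ‖deriv G z‖ ≤ M / (s / 4) := by
    intro z hz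
    rw [mem_ball_iff_norm] at hz
    have hsub : ∀ x ∈ ball z (s / 4), x ∈ ball c s := by
      intro x hx
      rw [mem_ball_iff_norm] at hx ⊢
      have := norm_add_le (x - z) (z - c)
      rw [sub_add_sub_cancel] at this
      linarith
    have hsub' : ∀ x ∈ closedBall z (s / 4), x ∈ ball c s := by
      intro x hx
      rw [mem_closedBall_iff_norm] at hx
      rw [mem_ball_iff_norm]
      have := norm_add_le (x - z) (z - c)
      rw [sub_add_sub_cancel] at this
      linarith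
    refine Complex.norm_deriv_le_of_forall_mem_sphere_norm_le (by linarith) ?_ ?_
    · exact (hG.mono hsub').diffContOnCl_ball subset_rfl
    · intro x hx
      exact hM x (hsub' x (sphere_subset_closedBall hx))
  have b2 : ∀ z ∈ ball c (s / 2), ‖deriv (deriv G) z‖ ≤ M / (s / 4) / (s / 4) := by
    intro z hz
    rw [mem_ball_iff_norm] at hz
    have hsub' : ∀ x ∈ closedBall z (s / 4), x ∈ ball c (3 * s / 4) := by
      intro x hx
      rw [mem_closedBall_iff_norm] at hx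
      rw [mem_ball_iff_norm]
      have := norm_add_le (x - z) (z - c)
      rw [sub_add_sub_cancel] at this
      linarith
    refine Complex.norm_deriv_le_of_forall_mem_sphere_norm_le (by linarith) ?_ ?_
    · refine (hG'.mono fun x hx => ?_).diffContOnCl_ball subset_rfl
      exact ball_subset_ball (by linarith) (hsub' x hx)
    · intro x hx
      exact b1 x (hsub' x (sphere_subset_closedBall hx))
  set C := M / (s / 4) / (s / 4) with hC
  have hcs : c ∈ ball c (s / 2) := mem_ball_self (by linarith)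
  have b3 : ∀ x ∈ ball c (s / 2), ‖deriv G x - deriv G c‖ ≤ C * ‖x - c‖ := by
    intro x hx
    refine (convex_ball c (s / 2)).norm_image_sub_le_of_norm_deriv_le
      (f := deriv G) (fun y hy => ?_) b2 hcs hx
    exact (hG' y (ball_subset_ball (by linarith) hy)).differentiableAt
      (isOpen_ball.mem_nhds (ball_subset_ball (by linarith) hy))
  have hM0 : 0 ≤ M := (norm_nonneg _).trans (hM c (mem_ball_self hs))
  have hC0 : 0 ≤ C := by positivity
  -- the function `G x - x G'(c)` on the closed ball of radius `|k|`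
  have hkb : ∀ x ∈ closedBall c ‖k‖, x ∈ ball c (s / 2) := by
    intro x hx
    rw [mem_closedBall_iff_norm] at hx
    rw [mem_ball_iff_norm]; linarith
  have hdG : ∀ x ∈ ball c (s / 2), HasDerivAt G (deriv G x) x := by
    intro x hx
    exact ((hG x (ball_subset_ball (by linarith) hx)).differentiableAt
      (isOpen_ball.mem_nhds (ball_subset_ball (by linarith) hx))).hasDerivAt
  have b4 : ‖(G (c + k) - (c + k) * deriv G c) - (G c - c * deriv G c)‖ ≤
      C * ‖k‖ * ‖(c + k) - c‖ := by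
    refine (convex_closedBall c ‖k‖).norm_image_sub_le_of_norm_hasDerivWithin_le
      (f := fun x => G x - x * deriv G c) (f' := fun x => deriv G x - 1 * deriv G c)
      (fun x hx => ?_) (fun x hx => ?_) (mem_closedBall_self (norm_nonneg _)) ?_
    · exact (((hdG x (hkb x hx)).sub ((hasDerivAt_id x).mul_const _))).hasDerivWithinAt
    · rw [one_mul]
      refine (b3 x (hkb x hx)).trans ?_
      rw [mem_closedBall_iff_norm] at hx
      exact mul_le_mul_of_nonneg_left hx hC0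
    · rw [mem_closedBall_iff_norm]; simp
  have hkn : 0 < ‖k‖ := norm_pos_iff.2 hk0
  have e1 : (G (c + k) - G c) / k - deriv G c =
      ((G (c + k) - (c + k) * deriv G c) - (G c - c * deriv G c)) / k := by
    field_simp
    ring
  rw [e1, norm_div, div_le_iff₀ hkn]
  refine b4.trans (le_of_eq ?_)
  rw [add_sub_cancel_left, hC]
  field_simp
  ring

/-- the partial derivative in the first variable is differentiable in the second variable -/
private theorem c2_cross {F : ℂ × ℂ → ℂ} {c : ℂ} {U : Set ℂ} {s M : ℝ} (hs : 0 < s)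
    (hU : IsOpen U)
    (h1 : ∀ v ∈ U, DifferentiableOn ℂ (fun ζ => F (ζ, v)) (ball c s))
    (h2 : ∀ u ∈ ball c s, DifferentiableOn ℂ (fun ζ => F (u, ζ)) U)
    (hM : ∀ u ∈ ball c s, ∀ v ∈ U, ‖F (u, v)‖ ≤ M) :
    DifferentiableOn ℂ (fun v => deriv (fun ζ => F (ζ, v)) c) U := by
  have key : TendstoLocallyUniformlyOn (fun (k : ℂ) (v : ℂ) => (F (c + k, v) - F (c, v)) / k)
      (fun v => deriv (fun ζ => F (ζ, v)) c) (𝓝[≠] (0 : ℂ)) U := by
    refine TendstoUniformlyOn.tendstoLocallyUniformlyOn ?_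
    rw [Metric.tendstoUniformlyOn_iff]
    intro ε hε
    set B := 16 * |M| / s ^ 2 + 1 with hB
    have hBpos : 0 < B := by positivity
    have hd : 0 < min (s / 4) (ε / B) := lt_min (by linarith) (by positivity)
    have hmem : ∀ᶠ k : ℂ in 𝓝[≠] (0 : ℂ), ‖k‖ < min (s / 4) (ε / B) ∧ k ≠ 0 := by
      refine Filter.Eventually.and ?_ self_mem_nhdsWithin
      refine nhdsWithin_le_nhds ?_
      filter_upwards [ball_mem_nhds (0 : ℂ) hd] with k hk
      simpa using hk
    filter_upwards [hmem] with k hk v hv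
    have h3 := c2_quot hs (h1 v hv) (fun z hz => (hM z hz v hv).trans (le_abs_self M)) hk.2
      (hk.1.trans_le (min_le_left _ _))
    rw [dist_comm, dist_eq_norm]
    refine h3.trans_lt ?_
    have hkn : ‖k‖ < ε / B := hk.1.trans_le (min_le_right _ _)
    rw [lt_div_iff₀ hBpos] at hkn
    have hk0 : 0 < ‖k‖ := norm_pos_iff.2 hk.2
    nlinarith
  refine key.differentiableOn ?_ hU
  have hmem : ∀ᶠ k : ℂ in 𝓝[≠] (0 : ℂ), ‖k‖ < s := by
    refine nhdsWithin_le_nhds ?_
    filter_upwards [ball_mem_nhds (0 : ℂ) hs] with k hk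
    simpa using hk
  filter_upwards [hmem] with k hk
  refine DifferentiableOn.div_const (DifferentiableOn.sub (h2 _ ?_) (h2 _ ?_)) _
  · rw [mem_ball_iff_norm]; simpa using hk
  · exact mem_ball_self hs

/-- the derivatives and their estimates -/
private theorem c2_main {F : ℂ × ℂ → ℂ} {c₁ c₂ : ℂ} {r M : ℝ} (hr : 0 < r)
    (h1 : ∀ v ∈ ball c₂ (2 * r), DifferentiableOn ℂ (fun ζ => F (ζ, v)) (ball c₁ (2 * r)))
    (h2 : ∀ u ∈ ball c₁ (2 * r), DifferentiableOn ℂ (fun ζ => F (u, ζ)) (ball c₂ (2 * r)))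
    (hM : ∀ u ∈ closedBall c₁ (3 * r / 2), ∀ v ∈ closedBall c₂ (3 * r / 2), ‖F (u, v)‖ ≤ M) :
    ∃ D D1 D2 : ℂ → ℂ → ℂ, ∀ u ∈ ball c₁ r, ∀ v ∈ ball c₂ r,
      HasDerivAt (fun ζ => F (ζ, v)) (D u v) u ∧ HasDerivAt (fun ζ => D ζ v) (D1 u v) u ∧
      HasDerivAt (fun ζ => D u ζ) (D2 u v) v ∧ ‖D u v‖ ≤ 4 * M / r ∧
      ‖D1 u v‖ ≤ 16 * M / r ^ 2 ∧ ‖D2 u v‖ ≤ 16 * M / r ^ 2 := by
  -- the first derivative
  set D : ℂ → ℂ → ℂ := fun u v => deriv (fun ζ => F (ζ, v)) u with hD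
  have tri : ∀ x z c : ℂ, ‖x - c‖ ≤ ‖x - z‖ + ‖z - c‖ := by
    intro x z c
    have := norm_add_le (x - z) (z - c)
    rwa [sub_add_sub_cancel] at this
  have bD : ∀ u ∈ closedBall c₁ (5 * r / 4), ∀ v ∈ closedBall c₂ (3 * r / 2),
      ‖D u v‖ ≤ 4 * M / r := by
    intro u hu v hv
    rw [mem_closedBall_iff_norm] at hu
    have hv' : v ∈ ball c₂ (2 * r) := closedBall_subset_ball (by linarith) hv
    have hsub : ∀ x ∈ closedBall u (r / 4), x ∈ closedBall c₁ (3 * r / 2) := by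
      intro x hx
      rw [mem_closedBall_iff_norm] at hx ⊢
      have := tri x u c₁
      linarith
    have := Complex.norm_deriv_le_of_forall_mem_sphere_norm_le (c := u) (R := r / 4) (C := M)
      (f := fun ζ => F (ζ, v)) (by linarith)
      (((h1 v hv').mono fun x hx => closedBall_subset_ball (by linarith)
        (hsub x hx)).diffContOnCl_ball subset_rfl)
      (fun x hx => hM x (hsub x (sphere_subset_closedBall hx)) v hv)
    refine this.trans (le_of_eq ?_)
    field_simp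
  have dD1 : ∀ v ∈ ball c₂ (2 * r), DifferentiableOn ℂ (fun ζ => D ζ v) (ball c₁ (2 * r)) := by
    intro v hv
    exact (h1 v hv).deriv isOpen_ball
  have dD2 : ∀ u ∈ ball c₁ (5 * r / 4),
      DifferentiableOn ℂ (fun ζ => D u ζ) (ball c₂ (3 * r / 2)) := by
    intro u hu
    rw [mem_ball_iff_norm] at hu
    have hsub : ∀ x ∈ ball u (r / 4), x ∈ closedBall c₁ (3 * r / 2) := by
      intro x hx
      rw [mem_ball_iff_norm] at hx
      rw [mem_closedBall_iff_norm]
      have := tri x u c₁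
      linarith
    refine c2_cross (s := r / 4) (M := M) (by linarith) isOpen_ball ?_ ?_ ?_
    · intro v hv
      exact (h1 v (ball_subset_ball (by linarith) hv)).mono fun x hx =>
        closedBall_subset_ball (by linarith) (hsub x hx)
    · intro x hx
      exact (h2 x (closedBall_subset_ball (by linarith) (hsub x hx))).mono
        (ball_subset_ball (by linarith))
    · intro x hx v hv
      exact hM x (hsub x hx) v (ball_subset_closedBall hv)
  refine ⟨D, fun u v => deriv (fun ζ => D ζ v) u, fun u v => deriv (fun ζ => D u ζ) v,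
    fun u hu v hv => ⟨?_, ?_, ?_, ?_, ?_, ?_⟩⟩
  · have hv' : v ∈ ball c₂ (2 * r) := ball_subset_ball (by linarith) hv
    have hu' : u ∈ ball c₁ (2 * r) := ball_subset_ball (by linarith) hu
    exact ((h1 v hv' u hu').differentiableAt (isOpen_ball.mem_nhds hu')).hasDerivAt
  · have hv' : v ∈ ball c₂ (2 * r) := ball_subset_ball (by linarith) hv
    have hu' : u ∈ ball c₁ (2 * r) := ball_subset_ball (by linarith) hu
    exact ((dD1 v hv' u hu').differentiableAt (isOpen_ball.mem_nhds hu')).hasDerivAt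
  · have hv' : v ∈ ball c₂ (3 * r / 2) := ball_subset_ball (by linarith) hv
    have hu' : u ∈ ball c₁ (5 * r / 4) := ball_subset_ball (by linarith) hu
    exact ((dD2 u hu' v hv').differentiableAt (isOpen_ball.mem_nhds hv')).hasDerivAt
  · exact bD u (ball_subset_closedBall (ball_subset_ball (by linarith) hu)) v
      (ball_subset_closedBall (ball_subset_ball (by linarith) hv))
  · have hv' : v ∈ ball c₂ (2 * r) := ball_subset_ball (by linarith) hv
    have hsub : ∀ x ∈ closedBall u (r / 4), x ∈ closedBall c₁ (5 * r / 4) := by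
      intro x hx
      rw [mem_ball_iff_norm] at hu
      rw [mem_closedBall_iff_norm] at hx ⊢
      have := tri x u c₁
      linarith
    have := Complex.norm_deriv_le_of_forall_mem_sphere_norm_le (c := u) (R := r / 4)
      (C := 4 * M / r) (f := fun ζ => D ζ v) (by linarith)
      (((dD1 v hv').mono fun x hx => closedBall_subset_ball (by linarith)
        (hsub x hx)).diffContOnCl_ball subset_rfl)
      (fun x hx => bD x (hsub x (sphere_subset_closedBall hx)) v
        (ball_subset_closedBall (ball_subset_ball (by linarith) hv)))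
    refine this.trans (le_of_eq ?_)
    field_simp
    ring
  · have hu' : u ∈ ball c₁ (5 * r / 4) := ball_subset_ball (by linarith) hu
    have hsub : ∀ x ∈ closedBall v (r / 4), x ∈ closedBall c₂ (5 * r / 4) := by
      intro x hx
      rw [mem_ball_iff_norm] at hv
      rw [mem_closedBall_iff_norm] at hx ⊢
      have := tri x v c₂
      linarith
    have := Complex.norm_deriv_le_of_forall_mem_sphere_norm_le (c := v) (R := r / 4)
      (C := 4 * M / r) (f := fun ζ => D u ζ) (by linarith)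
      (((dD2 u hu').mono fun x hx => closedBall_subset_ball (by linarith)
        (hsub x hx)).diffContOnCl_ball subset_rfl)
      (fun x hx => bD u (ball_subset_closedBall hu') x
        (closedBall_subset_closedBall (by linarith) (hsub x (sphere_subset_closedBall hx))))
    refine this.trans (le_of_eq ?_)
    field_simp
    ring

theorem cauchy_twoC {F : ℂ × ℂ → ℂ} {z0 : ℝ × ℝ} {r : ℝ} (hr : 0 < r)
    {O : Set (ℂ × ℂ)} (hO : IsOpen O) (hF : DifferentiableOn ℂ F O)
    (hsub : ∀ ζ : ℂ × ℂ, ‖ζ.1 - z0.1‖ ≤ 2 * r → ‖ζ.2 - z0.2‖ ≤ 2 * r → ζ ∈ O)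
    (hreal : ∀ x y : ℝ, ((x : ℂ), (y : ℂ)) ∈ O → (F (x, y)).im = 0) :
    ∃ f f1 f2 f11 f12 f21 f22 : ℝ × ℝ → ℝ, ∀ z : ℝ × ℝ, |z.1 - z0.1| < r → |z.2 - z0.2| < r →
      ((f z : ℝ) : ℂ) = F ((z.1 : ℂ), (z.2 : ℂ)) ∧
      HasDerivAt (fun x => f (x, z.2)) (f1 z) z.1 ∧ HasDerivAt (fun y => f (z.1, y)) (f2 z) z.2 ∧
      HasDerivAt (fun x => f1 (x, z.2)) (f11 z) z.1 ∧ HasDerivAt (fun y => f1 (z.1, y)) (f12 z) z.2 ∧
      HasDerivAt (fun x => f2 (x, z.2)) (f21 z) z.1 ∧ HasDerivAt (fun y => f2 (z.1, y)) (f22 z) z.2 ∧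
      |f z| ≤ 16 * tmean (fun ζ => ‖F ζ‖) z0 (2 * r) ∧
      |f1 z| ≤ 64 * tmean (fun ζ => ‖F ζ‖) z0 (2 * r) / r ∧
      |f2 z| ≤ 64 * tmean (fun ζ => ‖F ζ‖) z0 (2 * r) / r ∧
      |f11 z| ≤ 256 * tmean (fun ζ => ‖F ζ‖) z0 (2 * r) / r ^ 2 ∧
      |f12 z| ≤ 256 * tmean (fun ζ => ‖F ζ‖) z0 (2 * r) / r ^ 2 ∧
      |f21 z| ≤ 256 * tmean (fun ζ => ‖F ζ‖) z0 (2 * r) / r ^ 2 ∧
      |f22 z| ≤ 256 * tmean (fun ζ => ‖F ζ‖) z0 (2 * r) / r ^ 2 := by
  set T := tmean (fun ζ => ‖F ζ‖) z0 (2 * r) with hT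
  have hM : ∀ u ∈ closedBall (z0.1 : ℂ) (3 * r / 2), ∀ v ∈ closedBall (z0.2 : ℂ) (3 * r / 2),
      ‖F (u, v)‖ ≤ 16 * T := by
    intro u hu v hv
    exact c2_mean2 hr hF hsub (w := (u, v)) (mem_closedBall_iff_norm.1 hu)
      (mem_closedBall_iff_norm.1 hv)
  have h1 : ∀ v ∈ ball (z0.2 : ℂ) (2 * r),
      DifferentiableOn ℂ (fun ζ => F (ζ, v)) (ball (z0.1 : ℂ) (2 * r)) := by
    intro v hv
    refine hF.comp (f := fun ζ : ℂ => (ζ, v)) (by fun_prop) fun ζ hζ => hsub _ ?_ ?_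
    · exact (mem_ball_iff_norm.1 hζ).le
    · exact (mem_ball_iff_norm.1 hv).le
  have h2 : ∀ u ∈ ball (z0.1 : ℂ) (2 * r),
      DifferentiableOn ℂ (fun ζ => F (u, ζ)) (ball (z0.2 : ℂ) (2 * r)) := by
    intro v hv
    refine hF.comp (f := fun ζ : ℂ => (v, ζ)) (by fun_prop) fun ζ hζ => hsub _ ?_ ?_
    · exact (mem_ball_iff_norm.1 hv).le
    · exact (mem_ball_iff_norm.1 hζ).le
  obtain ⟨A, A1, A2, hA⟩ := c2_main hr h1 h2 hM
  obtain ⟨B, B1, B2, hB⟩ := c2_main (F := fun p => F (p.2, p.1)) hr h2 h1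
    (fun u hu v hv => hM v hv u hu)
  refine ⟨fun z => (F (z.1, z.2)).re, fun z => (A z.1 z.2).re, fun z => (B z.2 z.1).re,
    fun z => (A1 z.1 z.2).re, fun z => (A2 z.1 z.2).re, fun z => (B2 z.2 z.1).re,
    fun z => (B1 z.2 z.1).re, fun z hz1 hz2 => ?_⟩
  have m1 : (z.1 : ℂ) ∈ ball (z0.1 : ℂ) r := by
    rw [mem_ball_iff_norm, ← Complex.ofReal_sub, Complex.norm_real]; exact hz1
  have m2 : (z.2 : ℂ) ∈ ball (z0.2 : ℂ) r := by
    rw [mem_ball_iff_norm, ← Complex.ofReal_sub, Complex.norm_real]; exact hz2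
  obtain ⟨a1, a2, a3, a4, a5, a6⟩ := hA _ m1 _ m2
  obtain ⟨b1, b2, b3, b4, b5, b6⟩ := hB _ m2 _ m1
  have e1 : 4 * (16 * T) / r = 64 * T / r := by ring
  have e2 : 16 * (16 * T) / r ^ 2 = 256 * T / r ^ 2 := by ring
  rw [e1] at a4 b4
  rw [e2] at a5 a6 b5 b6
  have hF0 := hM _ (ball_subset_closedBall (ball_subset_ball (by linarith) m1)) _
    (ball_subset_closedBall (ball_subset_ball (by linarith) m2))
  refine ⟨?_, a1.real_of_complex, b1.real_of_complex, a2.real_of_complex, a3.real_of_complex,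
    b3.real_of_complex, b2.real_of_complex, (Complex.abs_re_le_norm _).trans hF0,
    (Complex.abs_re_le_norm _).trans a4, (Complex.abs_re_le_norm _).trans b4,
    (Complex.abs_re_le_norm _).trans a5, (Complex.abs_re_le_norm _).trans a6,
    (Complex.abs_re_le_norm _).trans b6, (Complex.abs_re_le_norm _).trans b5⟩
  have hz : ((z.1 : ℂ), (z.2 : ℂ)) ∈ O := by
    refine hsub _ ?_ ?_
    · have := mem_ball_iff_norm.1 m1
      show ‖(z.1 : ℂ) - z0.1‖ ≤ 2 * r
      linarith
    · have := mem_ball_iff_norm.1 m2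
      show ‖(z.2 : ℂ) - z0.2‖ ≤ 2 * r
      linarith
  apply Complex.ext
  · simp
  · rw [hreal _ _ hz]; simp

end Pool.Agent.Lib.MP_95e7ec_an
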