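import Mathlib
import Pool.Agent.Lib.MP_95e7ec_an.PlaneDefs
import Pool.Agent.Lib.MP_95e7ec_an.BernWeight
import Pool.Agent.Lib.MP_95e7ec_an.SquareTV
import Pool.Agent.Lib.MP_95e7ec_an.ShiftArr

/-!
Weighted Bernstein inequalities for polynomials in two variables (task P5).
-/

set_option autoImplicit false

open Set Filter Topology MeasureTheory
open scoped ContDiff ENNReal

namespace Pool.Agent.Lib.MP_95e7ec_an

variable {D : ℕ}

private lemma pw_sqX (x y : ℝ) : Real.sqrt (Real.sqrt (1 + y ^ 2) ^ 2 + x ^ 2) = sq1 (x, y) := by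
  rw [Real.sq_sqrt (by positivity), sq1]
  congr 1
  ring

private lemma pw_sqY (x y : ℝ) : Real.sqrt (Real.sqrt (1 + x ^ 2) ^ 2 + y ^ 2) = sq1 (x, y) := by
  rw [Real.sq_sqrt (by positivity), sq1]
  congr 1
  ring

private lemma pw_pos (z : ℝ × ℝ) : 0 < sq1 z := Real.sqrt_pos.2 (by positivity)

theorem weight_first {N : ℕ} (c : Co D) {ρ : ℝ}
    (hb : ∀ z : ℝ × ℝ, |pe c z.1 z.2| ≤ ρ * sq1 z ^ N) (z : ℝ × ℝ) :
    |pex c z.1 z.2| * sq1 z ≤ 3 * N * ρ * sq1 z ^ N ∧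
      |pey c z.1 z.2| * sq1 z ≤ 3 * N * ρ * sq1 z ^ N := by
  obtain ⟨x, y⟩ := z
  constructor
  · have h := bernstein_weight (sliceX c y) (N := N) (a := Real.sqrt (1 + y ^ 2)) (ρ := ρ)
      (Real.sqrt_pos.2 (by positivity)) (fun t => by
        rw [eval_sliceX, pw_sqX]; exact hb (t, y)) x
    rwa [eval_sliceX', pw_sqX] at h
  · have h := bernstein_weight (sliceY c x) (N := N) (a := Real.sqrt (1 + x ^ 2)) (ρ := ρ)
      (Real.sqrt_pos.2 (by positivity)) (fun t => by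
        rw [eval_sliceY, pw_sqY]; exact hb (x, t)) y
    rwa [eval_sliceY', pw_sqY] at h

private lemma pw_second_aux {N : ℕ} (d : Co D) {ρ : ℝ} (hρ : 0 ≤ ρ)
    (hb : ∀ z : ℝ × ℝ, |pe d z.1 z.2| * sq1 z ≤ 3 * N * ρ * sq1 z ^ N) (z : ℝ × ℝ) :
    |pex d z.1 z.2| * sq1 z ^ 2 ≤ 9 * N ^ 2 * ρ * sq1 z ^ N ∧
    |pey d z.1 z.2| * sq1 z ^ 2 ≤ 9 * N ^ 2 * ρ * sq1 z ^ N := by
  have hz := pw_pos z
  rcases Nat.eq_zero_or_pos N with rfl | hN
  · have h := weight_first (N := 0) d (ρ := 0) (fun w => by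
      have h1 := hb w
      have h2 := pw_pos w
      simp only [Nat.cast_zero, mul_zero, zero_mul] at h1 ⊢
      nlinarith [abs_nonneg (pe d w.1 w.2)]) z
    simp only [Nat.cast_zero, mul_zero, zero_mul, ne_eq, OfNat.ofNat_ne_zero, not_false_eq_true,
      zero_pow] at h ⊢
    constructor
    · nlinarith [h.1]
    · nlinarith [h.2]
  · obtain ⟨M, rfl⟩ : ∃ M, N = M + 1 := ⟨N - 1, by omega⟩
    have h := weight_first (N := M) d (ρ := 3 * ((M + 1 : ℕ) : ℝ) * ρ) (fun w => by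
      have h1 := hb w
      have h2 := pw_pos w
      rw [pow_succ, ← mul_assoc] at h1
      exact le_of_mul_le_mul_right h1 h2) z
    have hM : (0 : ℝ) ≤ (M : ℝ) := Nat.cast_nonneg _
    have hfin : 3 * (M : ℝ) * (3 * ((M + 1 : ℕ) : ℝ) * ρ) * sq1 z ^ M * sq1 z ≤
        9 * ((M + 1 : ℕ) : ℝ) ^ 2 * ρ * sq1 z ^ (M + 1) := by
      rw [pow_succ (sq1 z) M]
      have hp : 0 ≤ ρ * (sq1 z ^ M * sq1 z) := by positivity
      have hq : 0 ≤ (9 * ((M : ℝ) + 1)) * (ρ * (sq1 z ^ M * sq1 z)) := by positivity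
      push_cast
      nlinarith
    constructor
    · rw [pow_two, ← mul_assoc]
      exact (mul_le_mul_of_nonneg_right h.1 hz.le).trans hfin
    · rw [pow_two, ← mul_assoc]
      exact (mul_le_mul_of_nonneg_right h.2 hz.le).trans hfin

theorem weight_second {N : ℕ} (c : Co D) {ρ : ℝ} (hρ : 0 ≤ ρ)
    (hb : ∀ z : ℝ × ℝ, |pe c z.1 z.2| ≤ ρ * sq1 z ^ N) (z : ℝ × ℝ) :
    |pex (dX c) z.1 z.2| * sq1 z ^ 2 ≤ 9 * N ^ 2 * ρ * sq1 z ^ N ∧
    |pey (dX c) z.1 z.2| * sq1 z ^ 2 ≤ 9 * N ^ 2 * ρ * sq1 z ^ N ∧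
    |pex (dY c) z.1 z.2| * sq1 z ^ 2 ≤ 9 * N ^ 2 * ρ * sq1 z ^ N ∧
    |pey (dY c) z.1 z.2| * sq1 z ^ 2 ≤ 9 * N ^ 2 * ρ * sq1 z ^ N := by
  have h1 := pw_second_aux (N := N) (dX c) hρ (fun w => by
    rw [pe_dX]; exact (weight_first c hb w).1) z
  have h2 := pw_second_aux (N := N) (dY c) hρ (fun w => by
    rw [pe_dY]; exact (weight_first c hb w).2) z
  exact ⟨h1.1, h1.2, h2.1, h2.2⟩

end Pool.Agent.Lib.MP_95e7ec_an
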