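import Mathlib
import Pool.Agent.Lib.MP_95e7ec_an.PolyWeight
import Pool.Agent.Lib.MP_95e7ec_an.WeightArr

/-!
# Bounds of the derivatives on the cells
-/

set_option autoImplicit false

open Set Filter Topology MeasureTheory
open scoped ContDiff ENNReal

namespace Pool.Agent.Lib.MP_95e7ec_an

private theorem cb_pow_le {x : ℝ} {n l : ℕ} (hn : 1 ≤ n) (hl : l ≤ n) (hx : 0 ≤ x)
    (hx1 : x ≤ 1 + 1 / (2 * n)) : x ^ l ≤ 2 := by
  have hn' : (1 : ℝ) ≤ n := by exact_mod_cast hn
  have h1 : x ≤ Real.exp (1 / (2 * n)) := by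
    have := Real.add_one_le_exp (1 / (2 * (n : ℝ)))
    linarith
  have h2 : x ^ l ≤ Real.exp (1 / 2) := by
    calc x ^ l ≤ Real.exp (1 / (2 * n)) ^ l := pow_le_pow_left₀ hx h1 l
      _ ≤ Real.exp (1 / (2 * n)) ^ n :=
          pow_le_pow_right₀ (Real.one_le_exp (by positivity)) hl
      _ = Real.exp (1 / 2) := by
          rw [← Real.exp_nat_mul]
          congr 1
          field_simp
  have h3 : Real.exp (1 / 2) ^ 2 = Real.exp 1 := by
    rw [← Real.exp_nat_mul]
    norm_num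
  have h4 := Real.exp_one_lt_d9
  have h5 := Real.exp_pos (1 / 2)
  nlinarith

theorem cell_bound {m : ℕ} (hm : 1 ≤ m) (P Q : MvPolynomial (Fin 2) ℝ)
    (hP : P.totalDegree ≤ 2 * m) (hQ : Q.totalDegree ≤ 2 * m) {ρ : ℝ} (hρ : 0 < ρ)
    (hb : ∀ z : ℝ × ℝ, nm (vf P Q z) ≤ ρ * sq1 z ^ (2 * m)) (k : ℕ) {i : ℤ × ℤ}
    (hi : i ∈ cells (2 * m) k) :
    (∀ c : ℝ × ℝ, nm c ≤ ρ →
      DBound (sw (arr (2 * m) P, arr (2 * m) Q) (arr (2 * m) (wPoly m)) c)
        (disc (cellC (2 * m) k i) (cellR (2 * m) k))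
        (cellM1 (2 * m) ρ k i) (cellM2 (2 * m) ρ k i)) ∧
    ∀ z ∈ disc (cellC (2 * m) k i) (cellR (2 * m) k),
      sq1 (cellC (2 * m) k i) ^ (2 * m) / 2 ≤ pe (arr (2 * m) (wPoly m)) z.1 z.2 := by
  have hn2 : 2 ≤ 2 * m := by omega
  unfold cellM1 cellM2
  generalize hz0 : cellC (2 * m) k i = z0
  have hk : (2 : ℝ) ^ k ≤ 4 * sq1 z0 := by
    unfold cells at hi
    rw [Finset.mem_filter] at hi
    rcases hi.2 with h | h
    · subst h
      have := one_le_sq1 z0
      simp only [pow_zero]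
      linarith
    · rw [hz0] at h
      have := nm_le_sq1 z0
      linarith
  set s0 := sq1 z0 with hs0
  have hs0p : 0 < s0 := sq1_pos z0
  have h2k : (0 : ℝ) < 2 ^ k := by positivity
  -- the values of `sq1` on the cell
  have hcell : ∀ z ∈ disc z0 (cellR (2 * m) k),
      sq1 z ≤ s0 * (1 + 1 / (2 * ((2 * m : ℕ) : ℝ))) ∧
      s0 * (1 - 1 / (2 * ((2 * m : ℕ) : ℝ))) ≤ sq1 z := by
    intro z hz
    have h1 : nm (z - z0) < cellR (2 * m) k := by
      unfold disc at hz
      rw [Set.mem_ofPred_eq] at hz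
      have h2 := nm_sq (z - z0)
      simp only [Prod.fst_sub, Prod.snd_sub] at h2
      rw [← h2] at hz
      exact lt_of_pow_lt_pow_left₀ 2 (by unfold cellR; positivity) hz
    have h2 : cellR (2 * m) k ≤ s0 * (1 / (2 * ((2 * m : ℕ) : ℝ))) := by
      unfold cellR
      have hm' : (0 : ℝ) < ((2 * m : ℕ) : ℝ) := by exact_mod_cast (by omega)
      rw [mul_one_div, div_le_div_iff₀ (by positivity) (by positivity)]
      nlinarith
    have h3 := abs_le.1 (sq1_sub_le z z0)
    constructor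
    · nlinarith [h3.2]
    · nlinarith [h3.1]
  set n := 2 * m with hn
  have hn1 : 1 ≤ n := by omega
  have hn' : (2 : ℝ) ≤ n := by exact_mod_cast hn2
  have hup : ∀ z ∈ disc z0 (cellR n k), ∀ l ≤ n, sq1 z ^ l ≤ 2 * s0 ^ l := by
    intro z hz l hl
    have h1 := (hcell z hz).1
    have h2 : sq1 z / s0 ≤ 1 + 1 / (2 * n) := by
      rw [div_le_iff₀ hs0p]
      linarith
    have h3 := cb_pow_le hn1 hl (div_nonneg (sq1_pos z).le hs0p.le) h2
    rw [div_pow, div_le_iff₀ (by positivity)] at h3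
    exact h3
  constructor
  · intro c hc
    -- the arrays
    have hcomp : ∀ z : ℝ × ℝ, nm (vfc (sw (arr n P, arr n Q) (arr n (wPoly m)) c) z) ≤
        2 * ρ * sq1 z ^ n := by
      intro z
      rw [vfc_sw, pe_wPoly, ← vf_eq_vfc hP hQ]
      have h1 := hb z
      have h2 : nm (vf P Q z + sq1 z ^ n • c) ≤ nm (vf P Q z) + sq1 z ^ n * nm c := by
        have a0 : 0 ≤ nm (vf P Q z) := Real.sqrt_nonneg _
        have a1 : 0 ≤ nm c := Real.sqrt_nonneg _
        have a2 := nm_sq (vf P Q z)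
        have a3 := nm_sq c
        have a4 := nm_sq (vf P Q z + sq1 z ^ n • c)
        have a5 : 0 < sq1 z ^ n := pow_pos (sq1_pos z) n
        simp only [Prod.fst_add, Prod.snd_add, Prod.smul_fst, Prod.smul_snd, smul_eq_mul] at a4
        have a6 : (vf P Q z).1 * c.1 + (vf P Q z).2 * c.2 ≤ nm (vf P Q z) * nm c := by
          apply le_trans (le_abs_self _)
          apply abs_le_of_sq_le_sq _ (mul_nonneg a0 a1)
          rw [mul_pow, a2, a3]
          nlinarith [sq_nonneg ((vf P Q z).1 * c.2 - (vf P Q z).2 * c.1)]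
        apply le_of_sq_le_sq _ (by positivity)
        have a7 := mul_le_mul_of_nonneg_left a6 a5.le
        have a8 : ((vf P Q z).1 + sq1 z ^ n * c.1) ^ 2 + ((vf P Q z).2 + sq1 z ^ n * c.2) ^ 2 =
            nm (vf P Q z) ^ 2 + (sq1 z ^ n) ^ 2 * nm c ^ 2 +
              2 * (sq1 z ^ n * ((vf P Q z).1 * c.1 + (vf P Q z).2 * c.2)) := by
          rw [a2, a3]
          ring
        rw [a4, a8]
        calc _ ≤ nm (vf P Q z) ^ 2 + (sq1 z ^ n) ^ 2 * nm c ^ 2 +
              2 * (sq1 z ^ n * (nm (vf P Q z) * nm c)) := by linarith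
          _ = _ := by ring
      have h3 : sq1 z ^ n * nm c ≤ sq1 z ^ n * ρ :=
        mul_le_mul_of_nonneg_left hc (pow_pos (sq1_pos z) n).le
      linarith
    have hc1 : ∀ z : ℝ × ℝ, |pe (sw (arr n P, arr n Q) (arr n (wPoly m)) c).1 z.1 z.2| ≤
        2 * ρ * sq1 z ^ n := by
      intro z
      refine le_trans ?_ (hcomp z)
      have h1 := nm_sq (vfc (sw (arr n P, arr n Q) (arr n (wPoly m)) c) z)
      have h2 : 0 ≤ nm (vfc (sw (arr n P, arr n Q) (arr n (wPoly m)) c) z) := Real.sqrt_nonneg _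
      apply abs_le_of_sq_le_sq _ h2
      rw [h1]
      exact le_add_of_nonneg_right (sq_nonneg _)
    have hc2 : ∀ z : ℝ × ℝ, |pe (sw (arr n P, arr n Q) (arr n (wPoly m)) c).2 z.1 z.2| ≤
        2 * ρ * sq1 z ^ n := by
      intro z
      refine le_trans ?_ (hcomp z)
      have h1 := nm_sq (vfc (sw (arr n P, arr n Q) (arr n (wPoly m)) c) z)
      have h2 : 0 ≤ nm (vfc (sw (arr n P, arr n Q) (arr n (wPoly m)) c) z) := Real.sqrt_nonneg _
      apply abs_le_of_sq_le_sq _ h2
      rw [h1]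
      exact le_add_of_nonneg_left (sq_nonneg _)
    have key1 : ∀ z ∈ disc z0 (cellR n k), ∀ x : ℝ, |x| * sq1 z ≤ 3 * n * (2 * ρ) * sq1 z ^ n →
        |x| ≤ 48 * n * (ρ * s0 ^ n) / 2 ^ k := by
      intro z hz x hx
      have h1 : sq1 z ^ n = sq1 z ^ (n - 1) * sq1 z := by
        rw [← pow_succ]
        congr 1
        omega
      rw [h1, ← mul_assoc] at hx
      have h2 := le_of_mul_le_mul_right hx (sq1_pos z)
      have h3 := hup z hz (n - 1) (by omega)
      have h4 : s0 ^ n = s0 ^ (n - 1) * s0 := by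
        rw [← pow_succ]
        congr 1
        omega
      rw [le_div_iff₀ h2k, h4]
      have h5 : 0 < s0 ^ (n - 1) := by positivity
      calc |x| * 2 ^ k ≤ (3 * n * (2 * ρ) * (2 * s0 ^ (n - 1))) * (4 * s0) := by
            apply mul_le_mul (h2.trans _) hk h2k.le (by positivity)
            exact mul_le_mul_of_nonneg_left h3 (by positivity)
        _ = 48 * n * (ρ * (s0 ^ (n - 1) * s0)) := by ring
    have key2 : ∀ z ∈ disc z0 (cellR n k), ∀ x : ℝ,
        |x| * sq1 z ^ 2 ≤ 9 * n ^ 2 * (2 * ρ) * sq1 z ^ n →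
        |x| ≤ 768 * n ^ 2 * (ρ * s0 ^ n) / 4 ^ k := by
      intro z hz x hx
      have h1 : sq1 z ^ n = sq1 z ^ (n - 2) * sq1 z ^ 2 := by
        rw [← pow_add]
        congr 1
        omega
      rw [h1, ← mul_assoc] at hx
      have h2 := le_of_mul_le_mul_right hx (pow_pos (sq1_pos z) 2)
      have h3 := hup z hz (n - 2) (by omega)
      have h4 : s0 ^ n = s0 ^ (n - 2) * s0 ^ 2 := by
        rw [← pow_add]
        congr 1
        omega
      have h6 : (4 : ℝ) ^ k = (2 ^ k) ^ 2 := by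
        rw [← pow_mul, mul_comm k 2, pow_mul]
        norm_num
      rw [le_div_iff₀ (by positivity), h4, h6]
      have h5 : 0 < s0 ^ (n - 2) := by positivity
      have h7 : ((2 : ℝ) ^ k) ^ 2 ≤ 16 * s0 ^ 2 := by nlinarith
      calc |x| * (2 ^ k) ^ 2 ≤ (9 * n ^ 2 * (2 * ρ) * (2 * s0 ^ (n - 2))) * (16 * s0 ^ 2) := by
            apply mul_le_mul (h2.trans _) h7 (by positivity) (by positivity)
            exact mul_le_mul_of_nonneg_left h3 (by positivity)
        _ = 576 * (n ^ 2 * (ρ * (s0 ^ (n - 2) * s0 ^ 2))) := by ring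
        _ ≤ 768 * (n ^ 2 * (ρ * (s0 ^ (n - 2) * s0 ^ 2))) := by
            apply mul_le_mul_of_nonneg_right (by norm_num)
            positivity
        _ = 768 * n ^ 2 * (ρ * (s0 ^ (n - 2) * s0 ^ 2)) := by ring
    have hρ2 : (0 : ℝ) ≤ 2 * ρ := by positivity
    exact
      { x1 := fun z hz => key1 z hz _ (weight_first _ hc1 z).1
        y1 := fun z hz => key1 z hz _ (weight_first _ hc1 z).2
        x2 := fun z hz => key1 z hz _ (weight_first _ hc2 z).1
        y2 := fun z hz => key1 z hz _ (weight_first _ hc2 z).2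
        xx1 := fun z hz => key2 z hz _ (weight_second _ hρ2 hc1 z).1
        xy1 := fun z hz => key2 z hz _ (weight_second _ hρ2 hc1 z).2.1
        yx1 := fun z hz => key2 z hz _ (weight_second _ hρ2 hc1 z).2.2.1
        yy1 := fun z hz => key2 z hz _ (weight_second _ hρ2 hc1 z).2.2.2
        xx2 := fun z hz => key2 z hz _ (weight_second _ hρ2 hc2 z).1
        xy2 := fun z hz => key2 z hz _ (weight_second _ hρ2 hc2 z).2.1
        yx2 := fun z hz => key2 z hz _ (weight_second _ hρ2 hc2 z).2.2.1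
        yy2 := fun z hz => key2 z hz _ (weight_second _ hρ2 hc2 z).2.2.2 }
  · intro z hz
    rw [pe_wPoly]
    have h1 := (hcell z hz).2
    have h2 : (1 : ℝ) / 2 ≤ (1 - 1 / (2 * n)) ^ n := by
      have h3 : (-2 : ℝ) ≤ -(1 / (2 * n)) := by
        have : (1 : ℝ) / (2 * n) ≤ 1 := by
          rw [div_le_one (by positivity)]
          linarith
        linarith
      have h4 := one_add_mul_le_pow h3 n
      have h5 : (1 : ℝ) + n * -(1 / (2 * n)) = 1 / 2 := by
        field_simp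
        ring
      rw [h5] at h4
      exact h4
    have h6 : 0 ≤ (1 : ℝ) - 1 / (2 * n) := by
      have : (1 : ℝ) / (2 * n) ≤ 1 := by
        rw [div_le_one (by positivity)]
        linarith
      linarith
    calc s0 ^ n / 2 = s0 ^ n * (1 / 2) := by ring
      _ ≤ s0 ^ n * (1 - 1 / (2 * n)) ^ n := mul_le_mul_of_nonneg_left h2 (by positivity)
      _ = (s0 * (1 - 1 / (2 * n))) ^ n := by rw [mul_pow]
      _ ≤ sq1 z ^ n := pow_le_pow_left₀ (mul_nonneg hs0p.le h6) h1 n

end Pool.Agent.Lib.MP_95e7ec_an
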