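import Pool.Agent.Lib.MP_95e7ec_an.PlaneDefs

/-!
# The cells of an annulus
-/

set_option autoImplicit false

open Set Filter Topology MeasureTheory
open scoped ContDiff ENNReal

namespace Pool.Agent.Lib.MP_95e7ec_an

private theorem cells_nm_nonneg (u : ℝ × ℝ) : 0 ≤ nm u := Real.sqrt_nonneg _

private theorem cells_nm_add (u v : ℝ × ℝ) : nm (u + v) ≤ nm u + nm v := by
  have hu := nm_sq u
  have hv := nm_sq v
  have hu0 := cells_nm_nonneg u
  have hv0 := cells_nm_nonneg v
  have hsum : nm (u + v) ^ 2 = (u.1 + v.1) ^ 2 + (u.2 + v.2) ^ 2 := by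
    rw [nm_sq]; rfl
  have hcs : u.1 * v.1 + u.2 * v.2 ≤ nm u * nm v := by
    apply le_of_sq_le_sq' _ (mul_nonneg hu0 hv0)
    rw [mul_pow, hu, hv]
    nlinarith [sq_nonneg (u.1 * v.2 - u.2 * v.1)]
  apply le_of_sq_le_sq' _ (add_nonneg hu0 hv0)
  rw [hsum]
  nlinarith
where
  le_of_sq_le_sq' {a b : ℝ} (h : a ^ 2 ≤ b ^ 2) (hb : 0 ≤ b) : a ≤ b := by
    nlinarith [sq_nonneg (a - b), sq_nonneg (a + b)]

private theorem cells_nm_lt {u : ℝ × ℝ} {r : ℝ} (hr : 0 ≤ r) (h1 : |u.1| ≤ r / 2)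
    (h2 : |u.2| ≤ r / 2) : nm u ≤ 3 / 4 * r := by
  have hsq := nm_sq u
  have h0 := cells_nm_nonneg u
  have e1 : u.1 ^ 2 ≤ (r / 2) ^ 2 := by
    rw [← sq_abs u.1]; exact pow_le_pow_left₀ (abs_nonneg _) h1 2
  have e2 : u.2 ^ 2 ≤ (r / 2) ^ 2 := by
    rw [← sq_abs u.2]; exact pow_le_pow_left₀ (abs_nonneg _) h2 2
  nlinarith

theorem card_cells {n : ℕ} (hn : 1 ≤ n) (k : ℕ) : ((cells n k).card : ℝ) ≤ 1089 * n ^ 2 := by
  classical
  have h1 : (cells n k).card ≤
      (Finset.Icc (-(16 * n : ℤ)) (16 * n) ×ˢ Finset.Icc (-(16 * n : ℤ)) (16 * n)).card := by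
    unfold cells
    exact Finset.card_filter_le _ _
  have h2 : (Finset.Icc (-(16 * n : ℤ)) (16 * n)).card = 32 * n + 1 := by
    rw [Int.card_Icc]
    omega
  rw [Finset.card_product, h2] at h1
  have hn' : (1 : ℝ) ≤ n := by exact_mod_cast hn
  have h3 : ((cells n k).card : ℝ) ≤ (32 * n + 1) * (32 * n + 1) := by exact_mod_cast h1
  nlinarith

theorem exists_cell {n : ℕ} (hn : 1 ≤ n) (k : ℕ) {C : Set (ℝ × ℝ)} (hne : C.Nonempty)
    (hd : ∀ z ∈ C, ∀ w ∈ C, nm (z - w) ≤ 2 ^ k / (32 * n)) (hC : C ⊆ disc 0 (2 ^ k))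
    (hk : k = 0 ∨ ∃ z ∈ C, (2 : ℝ) ^ k / 2 ≤ nm z) :
    ∃ i ∈ cells n k, C ⊆ disc (cellC n k i) (cellR n k) := by
  classical
  have hn' : (1 : ℝ) ≤ n := by exact_mod_cast hn
  have h2k : (0 : ℝ) < 2 ^ k := by positivity
  obtain ⟨z, hz, hzk⟩ : ∃ z ∈ C, k = 0 ∨ (2 : ℝ) ^ k / 2 ≤ nm z := by
    rcases hk with h | ⟨z, hz, h⟩
    · obtain ⟨z, hz⟩ := hne
      exact ⟨z, hz, Or.inl h⟩
    · exact ⟨z, hz, Or.inr h⟩
  set h : ℝ := cellR n k / 2 with hh
  have hval : h = 2 ^ k / (16 * n) := by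
    rw [hh]; unfold cellR; field_simp; ring
  have hpos : 0 < h := by rw [hval]; positivity
  have hh16 : h * (16 * n) = 2 ^ k := by rw [hval]; field_simp
  have hdisc := hC hz
  simp only [disc, Set.mem_ofPred_eq, Prod.fst_zero, Prod.snd_zero, sub_zero] at hdisc
  have hx : |z.1| < 2 ^ k := abs_lt_of_sq_lt_sq (by nlinarith [sq_nonneg z.2]) h2k.le
  have hy : |z.2| < 2 ^ k := abs_lt_of_sq_lt_sq (by nlinarith [sq_nonneg z.1]) h2k.le
  -- rounding
  have hround : ∀ x : ℝ, |x| < 2 ^ k →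
      |x - round (x / h) * h| ≤ h / 2 ∧ round (x / h) ∈ Finset.Icc (-(16 * n : ℤ)) (16 * n) := by
    intro x hx
    have hr := abs_sub_round (x / h)
    have hd1 : x = x / h * h := by field_simp
    constructor
    · have : x - round (x / h) * h = (x / h - round (x / h)) * h := by
        rw [sub_mul]; rw [← hd1]
      rw [this, abs_mul, abs_of_pos hpos]
      nlinarith
    · have hlt : |x / h| < 16 * n := by
        rw [abs_div, abs_of_pos hpos, div_lt_iff₀ hpos]
        nlinarith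
      rw [abs_lt] at hlt
      rw [abs_le] at hr
      rw [Finset.mem_Icc]
      constructor
      · have : (-(16 * n : ℝ)) - 1 < round (x / h) := by linarith
        have h3 : (-(16 * n : ℤ)) - 1 < round (x / h) := by exact_mod_cast this
        omega
      · have : (round (x / h) : ℝ) < 16 * n + 1 := by linarith
        have h3 : round (x / h) < (16 * n : ℤ) + 1 := by exact_mod_cast this
        omega
  obtain ⟨hx1, hx2⟩ := hround z.1 hx
  obtain ⟨hy1, hy2⟩ := hround z.2 hy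
  set i : ℤ × ℤ := (round (z.1 / h), round (z.2 / h)) with hi
  have hcell : cellC n k i = (round (z.1 / h) * h, round (z.2 / h) * h) := by
    simp only [cellC, hi, ← hh]
  have hdist : nm (z - cellC n k i) ≤ 3 / 4 * h := by
    apply cells_nm_lt hpos.le
    · rw [hcell]; exact hx1
    · rw [hcell]; exact hy1
  refine ⟨i, ?_, ?_⟩
  · unfold cells
    rw [Finset.mem_filter, Finset.mem_product]
    refine ⟨⟨hx2, hy2⟩, ?_⟩
    rcases hzk with h0 | h0
    · exact Or.inl h0
    · right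
      have htri := cells_nm_add (z - cellC n k i) (cellC n k i)
      rw [sub_add_cancel] at htri
      have hh1 : h ≤ 2 ^ k / 16 := by
        rw [hval]
        apply div_le_div_of_nonneg_left h2k.le (by norm_num)
        nlinarith
      linarith
  · intro w hw
    have h1 := hd w hw z hz
    have htri := cells_nm_add (w - z) (z - cellC n k i)
    rw [sub_add_sub_cancel] at htri
    have h32 : (2 : ℝ) ^ k / (32 * n) = h / 2 := by rw [hval]; field_simp; ring
    have hlt : nm (w - cellC n k i) < cellR n k := by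
      have : cellR n k = 2 * h := by rw [hh]; ring
      rw [this]
      rw [h32] at h1
      linarith
    simp only [disc, Set.mem_ofPred_eq]
    have hsq := nm_sq (w - cellC n k i)
    simp only [Prod.fst_sub, Prod.snd_sub] at hsq
    rw [← hsq]
    exact pow_lt_pow_left₀ hlt (cells_nm_nonneg _) (by norm_num)

end Pool.Agent.Lib.MP_95e7ec_an
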