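import Mathlib
import Pool.Agent.Lib.MP_95e7ec_an.ShiftArr
import Pool.Agent.Lib.MP_95e7ec_an.SquareTV
import Pool.Agent.Lib.MP_95e7ec_an.Arr
import Pool.Agent.Lib.MP_95e7ec_an.BernMid

/-!
The derivative bounds of a polynomial vector field bounded on a disc (task D8).
-/

set_option autoImplicit false

open Set

namespace Pool.Agent.Lib.MP_95e7ec_an

private theorem pb_disc {a b t r l s : ℝ} (hr : 0 ≤ r) (hab : a ^ 2 + b ^ 2 ≤ r ^ 2)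
    (ht : |t| ≤ l) (hs : r + l ≤ s) : (a + t) ^ 2 + b ^ 2 ≤ s ^ 2 := by
  have hl : 0 ≤ l := (abs_nonneg t).trans ht
  have h1 : |a| ≤ r := by
    refine abs_le_of_sq_le_sq ?_ hr
    nlinarith [sq_nonneg b]
  have h2 : a * t ≤ r * l := by
    refine (le_abs_self _).trans ?_
    rw [abs_mul]
    exact mul_le_mul h1 ht (abs_nonneg _) hr
  have h3 : t ^ 2 ≤ l ^ 2 := by
    rw [← sq_abs t]
    gcongr
  nlinarith

private theorem pb_first {n : ℕ} (c : Co n) {z0 : ℝ × ℝ} {r l s m : ℝ} (hr : 0 ≤ r) (hl : 0 < l)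
    (hs : r + l ≤ s)
    (hm : ∀ z : ℝ × ℝ, (z.1 - z0.1) ^ 2 + (z.2 - z0.2) ^ 2 ≤ s ^ 2 → |pe c z.1 z.2| ≤ m)
    {z : ℝ × ℝ} (hz : (z.1 - z0.1) ^ 2 + (z.2 - z0.2) ^ 2 ≤ r ^ 2) :
    |pex c z.1 z.2| ≤ 9 * n * m / l ∧ |pey c z.1 z.2| ≤ 9 * n * m / l := by
  constructor
  · rw [← eval_sliceX']
    refine bernstein_mid _ (natDegree_sliceX c z.2) hl fun t ht => ?_
    rw [eval_sliceX]
    refine hm (t, z.2) ?_
    have h1 : |t - z.1| ≤ l := by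
      rw [abs_le]
      constructor <;> linarith [ht.1, ht.2]
    have h2 := pb_disc hr hz h1 hs
    have h3 : z.1 - z0.1 + (t - z.1) = t - z0.1 := by ring
    rwa [h3] at h2
  · rw [← eval_sliceY']
    refine bernstein_mid _ (natDegree_sliceY c z.1) hl fun t ht => ?_
    rw [eval_sliceY]
    refine hm (z.1, t) ?_
    have h1 : |t - z.2| ≤ l := by
      rw [abs_le]
      constructor <;> linarith [ht.1, ht.2]
    have h2 := pb_disc hr (show (z.2 - z0.2) ^ 2 + (z.1 - z0.1) ^ 2 ≤ r ^ 2 by linarith) h1 hs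
    have h3 : z.2 - z0.2 + (t - z.2) = t - z0.2 := by ring
    rw [h3] at h2
    simp only
    linarith

private theorem pb_all {n : ℕ} (c : Co n) {z0 : ℝ × ℝ} {R ρ : ℝ} (hR : 0 < R)
    (hm : ∀ z : ℝ × ℝ, (z.1 - z0.1) ^ 2 + (z.2 - z0.2) ^ 2 ≤ (2 * R) ^ 2 → |pe c z.1 z.2| ≤ ρ)
    {z : ℝ × ℝ} (hz : (z.1 - z0.1) ^ 2 + (z.2 - z0.2) ^ 2 < R ^ 2) :
    (|pex c z.1 z.2| ≤ 9 * n * ρ / R ∧ |pey c z.1 z.2| ≤ 9 * n * ρ / R) ∧
    (|pex (dX c) z.1 z.2| ≤ 324 * n ^ 2 * ρ / R ^ 2 ∧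
      |pey (dX c) z.1 z.2| ≤ 324 * n ^ 2 * ρ / R ^ 2) ∧
    (|pex (dY c) z.1 z.2| ≤ 324 * n ^ 2 * ρ / R ^ 2 ∧
      |pey (dY c) z.1 z.2| ≤ 324 * n ^ 2 * ρ / R ^ 2) := by
  have h1 : ∀ z : ℝ × ℝ, (z.1 - z0.1) ^ 2 + (z.2 - z0.2) ^ 2 ≤ (3 / 2 * R) ^ 2 →
      |pex c z.1 z.2| ≤ 9 * n * ρ / (R / 2) ∧ |pey c z.1 z.2| ≤ 9 * n * ρ / (R / 2) :=
    fun z hz => pb_first c (by positivity) (by positivity) (by linarith) hm hz
  have h2 : (9 * n * (9 * n * ρ / (R / 2)) / (R / 2) : ℝ) = 324 * n ^ 2 * ρ / R ^ 2 := by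
    field_simp
    ring
  rw [← h2]
  refine ⟨pb_first c hR.le hR (by linarith) hm hz.le, ?_, ?_⟩
  · exact pb_first (dX c) hR.le (half_pos hR) (by linarith : R + R / 2 ≤ 3 / 2 * R)
      (fun z hz => by rw [pe_dX]; exact (h1 z hz).1) hz.le
  · exact pb_first (dY c) hR.le (half_pos hR) (by linarith : R + R / 2 ≤ 3 / 2 * R)
      (fun z hz => by rw [pe_dY]; exact (h1 z hz).2) hz.le

/-- the derivative bounds of a polynomial field bounded by `ρ` on the disc of radius `2R` -/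
theorem dbound_of_poly {n : ℕ} (P Q : MvPolynomial (Fin 2) ℝ) (hP : P.totalDegree ≤ n)
    (hQ : Q.totalDegree ≤ n) (z0 : ℝ × ℝ) {R ρ : ℝ} (hR : 0 < R) (hρ : 0 ≤ ρ)
    (hb : ∀ z : ℝ × ℝ, (z.1 - z0.1) ^ 2 + (z.2 - z0.2) ^ 2 ≤ (2 * R) ^ 2 → nm (vf P Q z) ≤ ρ) :
    DBound (arr n P, arr n Q) {z | (z.1 - z0.1) ^ 2 + (z.2 - z0.2) ^ 2 < R ^ 2}
      (9 * n * ρ / R) (324 * n ^ 2 * ρ / R ^ 2) := by
  have h1 : ∀ z : ℝ × ℝ, (z.1 - z0.1) ^ 2 + (z.2 - z0.2) ^ 2 ≤ (2 * R) ^ 2 →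
      |pe (arr n P) z.1 z.2| ≤ ρ := by
    intro z hz
    refine le_trans ?_ (hb z hz)
    rw [← eval_eq_pe P hP]
    refine Real.abs_le_sqrt ?_
    simp only [vf]
    nlinarith [sq_nonneg (MvPolynomial.eval ![z.1, z.2] Q)]
  have h2 : ∀ z : ℝ × ℝ, (z.1 - z0.1) ^ 2 + (z.2 - z0.2) ^ 2 ≤ (2 * R) ^ 2 →
      |pe (arr n Q) z.1 z.2| ≤ ρ := by
    intro z hz
    refine le_trans ?_ (hb z hz)
    rw [← eval_eq_pe Q hQ]
    refine Real.abs_le_sqrt ?_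
    simp only [vf]
    nlinarith [sq_nonneg (MvPolynomial.eval ![z.1, z.2] P)]
  exact
    { x1 := fun z hz => (pb_all _ hR h1 hz).1.1
      y1 := fun z hz => (pb_all _ hR h1 hz).1.2
      x2 := fun z hz => (pb_all _ hR h2 hz).1.1
      y2 := fun z hz => (pb_all _ hR h2 hz).1.2
      xx1 := fun z hz => (pb_all _ hR h1 hz).2.1.1
      xy1 := fun z hz => (pb_all _ hR h1 hz).2.1.2
      yx1 := fun z hz => (pb_all _ hR h1 hz).2.2.1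
      yy1 := fun z hz => (pb_all _ hR h1 hz).2.2.2
      xx2 := fun z hz => (pb_all _ hR h2 hz).2.1.1
      xy2 := fun z hz => (pb_all _ hR h2 hz).2.1.2
      yx2 := fun z hz => (pb_all _ hR h2 hz).2.2.1
      yy2 := fun z hz => (pb_all _ hR h2 hz).2.2.2 }

end Pool.Agent.Lib.MP_95e7ec_an
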