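import Mathlib
import Pool.Agent.Lib.MP_95e7ec_an.CountAll
import Pool.Agent.Lib.MP_95e7ec_an.ScaleMain
import Pool.Agent.Lib.MP_95e7ec_an.PolyBound

/-!
# The mean number of all closed orbits in a disc, both bounds
-/

set_option autoImplicit false

open Set Filter Topology MeasureTheory
open scoped ContDiff ENNReal

namespace Pool.Agent.Lib.MP_95e7ec_an

variable {D : ℕ}

theorem orbitSum_mono {φ ψ : ℝ≥0∞ → ℝ≥0∞} (h : ∀ L, φ L ≤ ψ L) {v : ℝ × ℝ → ℝ × ℝ}
    {Ω Ω' : Set (ℝ × ℝ)} (hΩ : Ω ⊆ Ω') (α : ℝ) :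
    orbitSum φ v Ω α ≤ orbitSum ψ v Ω' α := by
  simp only [ca_orbitSum_eq]
  refine ENNReal.tsum_le_tsum fun C => ?_
  by_cases hC : IsClosedOrbit (turn α v) C ∧ C ⊆ Ω
  · rw [Set.indicator_of_mem (show C ∈ {C | IsClosedOrbit (turn α v) C ∧ C ⊆ Ω} from hC),
      Set.indicator_of_mem (show C ∈ {C | IsClosedOrbit (turn α v) C ∧ C ⊆ Ω'} from
        ⟨hC.1, hC.2.trans hΩ⟩)]
    exact h _
  · rw [Set.indicator_of_notMem (show C ∉ {C | IsClosedOrbit (turn α v) C ∧ C ⊆ Ω} from hC)]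
    exact zero_le

/-- the weight of the lengths between `ellk (k+1)` and `ellk k` -/
noncomputable def midW (M₁ M₂ : ℝ) (k : ℕ) (L : ℝ≥0∞) : ℝ≥0∞ :=
  if ENNReal.ofReal (ellk M₁ M₂ (k + 1)) < L ∧ L ≤ ENNReal.ofReal (ellk M₁ M₂ k) then 1 else 0

theorem measurable_midW (M₁ M₂ : ℝ) (k : ℕ) : Measurable (midW M₁ M₂ k) :=
  Measurable.ite (measurableSet_Ioi.inter measurableSet_Iic) measurable_const measurable_const

/-- the number of closed orbits in `K` is at most the sum over the scales -/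
theorem ca_sum2 (μ : Pr D) (K : Set (ℝ × ℝ)) {M₁ M₂ : ℝ} (hM1 : 0 < M₁) (hM2 : 0 < M₂) (α : ℝ) :
    orbitSum (fun _ => 1) (vfc μ) K α ≤ orbitSum (upW (ellk M₁ M₂ 0)) (vfc μ) K α +
      ∑' k, orbitSum (midW M₁ M₂ k) (vfc μ) K α := by
  set v := vfc μ with hv
  simp only [ca_orbitSum_eq]
  rw [ENNReal.tsum_comm, ← ENNReal.tsum_add]
  refine ENNReal.tsum_le_tsum fun C => ?_
  by_cases hC : IsClosedOrbit (turn α v) C ∧ C ⊆ K
  · have hmem : C ∈ {C | IsClosedOrbit (turn α v) C ∧ C ⊆ K} := hC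
    have hcont : Continuous (turn α v) := by
      rw [hv, ← vfc_rotA]
      exact continuous_vfc _
    have hpos := ca_orbitLength_pos hcont hC.1
    simp only [Set.indicator_of_mem hmem]
    by_cases hbig : ENNReal.ofReal (ellk M₁ M₂ 0) < orbitLength (turn α v) C
    · refine le_trans ?_ (le_add_right le_rfl)
      simp [upW, hbig]
    · obtain ⟨k, hk1, hk2⟩ := exists_scale hM1 hM2 hpos (not_lt.1 hbig)
      refine le_trans ?_ (le_add_left (ENNReal.le_tsum k))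
      simp [midW, hk1, hk2]
  · rw [Set.indicator_of_notMem (show C ∉ {C | IsClosedOrbit (turn α v) C ∧ C ⊆ K} from hC)]
    exact zero_le

/-- the two classes of a scale -/
theorem ca_mid {μ : Pr D} {K : Set (ℝ × ℝ)} {M₁ M₂ : ℝ} (h : DBound μ K M₁ M₂)
    (hK : Convex ℝ K) (hM1 : 0 < M₁) (hM2 : 0 < M₂) (c : ℝ × ℝ) (α : ℝ) (k : ℕ) :
    orbitSum (midW M₁ M₂ k) (vfc (shf μ c)) K α ≤
      orbitSum (upW (ellk M₁ M₂ (k + 1))) (vfc (shf μ c))
          (OmB μ K c (50 * M₁ ^ 2 * lamk k) (2 * ellk M₁ M₂ k)) α +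
        orbitSum (loW (ellk M₁ M₂ k)) (vfc (shf μ c))
          (OmG μ K c (40 * M₁ ^ 2 * lamk k) (3 * M₁ * ellk M₁ M₂ k)) α := by
  set v := vfc (shf μ c) with hv
  simp only [ca_orbitSum_eq]
  rw [← ENNReal.tsum_add]
  refine ENNReal.tsum_le_tsum fun C => ?_
  by_cases hC : IsClosedOrbit (turn α v) C ∧ C ⊆ K
  · have hmem : C ∈ {C | IsClosedOrbit (turn α v) C ∧ C ⊆ K} := hC
    rw [Set.indicator_of_mem hmem]
    by_cases hL : ENNReal.ofReal (ellk M₁ M₂ (k + 1)) < orbitLength (turn α v) C ∧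
        orbitLength (turn α v) C ≤ ENNReal.ofReal (ellk M₁ M₂ k)
    · rcases ca_class h hK hM1 hM2 c hC.1 hC.2 (lamk_pos k) (lamk_le_one k) (ellk_spec hM2 k)
        (ellk_pos hM1 hM2 k) hL.2 with hcl | hcl
      · refine le_trans ?_ (le_add_right le_rfl)
        rw [Set.indicator_of_mem (show C ∈ {C | IsClosedOrbit (turn α v) C ∧
          C ⊆ OmB μ K c (50 * M₁ ^ 2 * lamk k) (2 * ellk M₁ M₂ k)} from ⟨hC.1, hcl⟩)]
        simp [midW, upW, hL.1, hL.2]
      · refine le_trans ?_ (le_add_left le_rfl)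
        rw [Set.indicator_of_mem (show C ∈ {C | IsClosedOrbit (turn α v) C ∧
          C ⊆ OmG μ K c (40 * M₁ ^ 2 * lamk k) (3 * M₁ * ellk M₁ M₂ k)} from ⟨hC.1, hcl⟩)]
        simp [midW, loW, hL.1, hL.2]
    · simp [midW, hL]
  · rw [Set.indicator_of_notMem (show C ∉ {C | IsClosedOrbit (turn α v) C ∧ C ⊆ K} from hC)]
    exact zero_le

/-- the mean over the translations of the number of closed orbits of one scale -/
theorem mid_class {μ : Pr D} {K : Set (ℝ × ℝ)} {M₁ M₂ : ℝ} (h : DBound μ K M₁ M₂)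
    (hK : Convex ℝ K) (hKo : IsOpen K) (hM1 : 0 < M₁) (hM2 : 0 < M₂) (k : ℕ) :
    ∃ H : ℝ × ℝ → ℝ≥0∞, Measurable H ∧
      (∀ c, ∫⁻ α in Set.Ioo 0 Real.pi, orbitSum (midW M₁ M₂ k) (vfc (shf μ c)) K α ≤ H c) ∧
      ∫⁻ c, H c ≤ volume K * ENNReal.ofReal (1541 * M₁ ^ 2 * (5 / 6) ^ k) := by
  have hs : (0 : ℝ) < 13 * (5 / 6) ^ k := by positivity
  obtain ⟨Hb, hbm, hb1, hb2⟩ := avg_bad h hK hKo hM1 hM2 (lamk_pos k) (lamk_le_one k)
    (ellk_spec hM2 k) hs
  obtain ⟨Hg, hgm, hg1, hg2⟩ := avg_good μ hKo.measurableSet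
    (r := 3 * M₁ * ellk M₁ M₂ k) (by have := ellk_pos hM1 hM2 k; positivity)
  refine ⟨fun c => (ENNReal.ofReal (ellk M₁ M₂ (k + 1)))⁻¹ * (ENNReal.ofReal (3 * M₁) * Hb c) +
      ENNReal.ofReal (4 * M₂ / lamk k ^ 2) * Hg c, ?_, ?_, ?_⟩
  · exact ((hbm.const_mul _).const_mul _).add (hgm.const_mul _)
  · intro c
    have hm1 : ∀ (φ : ℝ≥0∞ → ℝ≥0∞) (Ω : Set (ℝ × ℝ)), Measurable φ → IsOpen Ω →
        AEMeasurable (orbitSum φ (vfc (shf μ c)) Ω) (volume.restrict (Set.Ioo 0 Real.pi)) :=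
      fun φ Ω hφ hΩ => orbitSum_aemeasurable (shf μ c) hΩ hφ
    refine (lintegral_mono fun α => ca_mid h hK hM1 hM2 c α k).trans ?_
    rw [lintegral_add_left' (hm1 _ _ (measurable_upW _) (isOpen_OmB μ hKo c _ _))]
    refine add_le_add ?_ ?_
    · refine (ca_long μ h hM1.le (isOpen_OmB μ hKo c _ _) (fun z hz => hz.1)
        (ellk_pos hM1 hM2 (k + 1)) c).trans ?_
      gcongr
      exact hb1 c
    · refine (ca_good h hK hKo hM1 hM2 c k).trans ?_
      gcongr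
      exact hg1 c
  · have hinv : ∀ a : ℝ, 0 < a → ∀ b : ℝ, 0 ≤ b → (ENNReal.ofReal a)⁻¹ * ENNReal.ofReal b =
        ENNReal.ofReal (b / a) := by
      intro a ha b hb
      rw [← ENNReal.ofReal_inv_of_pos ha, ← ENNReal.ofReal_mul (by positivity), div_eq_mul_inv,
        mul_comm]
    have hpi := Real.pi_lt_d2
    have hpi0 := Real.pi_pos
    have hK0 : ∀ x : ℝ≥0∞, ∀ a : ℝ, 0 ≤ a → ∀ b : ℝ, 0 ≤ b → ENNReal.ofReal a * (x * ENNReal.ofReal b)
        = x * ENNReal.ofReal (a * b) := by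
      intro x a ha b hb
      rw [ENNReal.ofReal_mul ha]
      ring
    have hek := ellk_pos hM1 hM2 k
    have hek1 := ellk_pos hM1 hM2 (k + 1)
    have hlk := lamk_pos k
    have hsp := ellk_spec (M₁ := M₁) hM2 k
    rw [lintegral_add_left ((hbm.const_mul _).const_mul _)]
    have B1 : ∫⁻ c, (ENNReal.ofReal (ellk M₁ M₂ (k + 1)))⁻¹ * (ENNReal.ofReal (3 * M₁) * Hb c) ≤
        volume K * ENNReal.ofReal (1465 * M₁ ^ 2 * (5 / 6) ^ k) := by
      rw [lintegral_const_mul _ (hbm.const_mul _), lintegral_const_mul _ hbm]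
      have hpos : 0 ≤ M₁ * ellk M₁ M₂ k * (2 * Real.pi * (13 * (5 / 6) ^ k) +
          1060 * lamk k / (13 * (5 / 6) ^ k)) := by positivity
      calc (ENNReal.ofReal (ellk M₁ M₂ (k + 1)))⁻¹ * (ENNReal.ofReal (3 * M₁) * ∫⁻ c, Hb c)
          ≤ (ENNReal.ofReal (ellk M₁ M₂ (k + 1)))⁻¹ * (ENNReal.ofReal (3 * M₁) *
            (volume K * ENNReal.ofReal (M₁ * ellk M₁ M₂ k * (2 * Real.pi * (13 * (5 / 6) ^ k) +
              1060 * lamk k / (13 * (5 / 6) ^ k))))) := by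
            gcongr
        _ = volume K * ((ENNReal.ofReal (ellk M₁ M₂ (k + 1)))⁻¹ *
              ENNReal.ofReal (3 * M₁ * (M₁ * ellk M₁ M₂ k * (2 * Real.pi * (13 * (5 / 6) ^ k) +
              1060 * lamk k / (13 * (5 / 6) ^ k))))) := by
            rw [hK0 _ _ (by positivity) _ hpos]
            ring
        _ = volume K * ENNReal.ofReal (3 * M₁ * (M₁ * ellk M₁ M₂ k *
              (2 * Real.pi * (13 * (5 / 6) ^ k) + 1060 * lamk k / (13 * (5 / 6) ^ k))) /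
              ellk M₁ M₂ (k + 1)) := by
            rw [hinv _ hek1 _ (by positivity)]
        _ ≤ volume K * ENNReal.ofReal (1465 * M₁ ^ 2 * (5 / 6) ^ k) := by
            gcongr
            rw [div_le_iff₀ hek1, ellk_succ]
            have hl : lamk k = (5 / 6) ^ k * (5 / 6) ^ k := by
              unfold lamk
              rw [← mul_pow]
              norm_num
            have h5 : (0 : ℝ) < (5 / 6) ^ k := by positivity
            have hq : 1060 * lamk k / (13 * (5 / 6) ^ k) = 1060 / 13 * (5 / 6) ^ k := by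
              rw [hl]
              field_simp
            rw [hq]
            have : 0 < M₁ ^ 2 * ellk M₁ M₂ k * (5 / 6) ^ k := by positivity
            nlinarith
    have B2 : ∫⁻ c, ENNReal.ofReal (4 * M₂ / lamk k ^ 2) * Hg c ≤
        volume K * ENNReal.ofReal (76 * M₁ ^ 2 * (25 / 36) ^ k) := by
      rw [lintegral_const_mul _ hgm]
      calc ENNReal.ofReal (4 * M₂ / lamk k ^ 2) * ∫⁻ c, Hg c
          ≤ ENNReal.ofReal (4 * M₂ / lamk k ^ 2) *
            (volume K * ENNReal.ofReal (2 * Real.pi * (3 * M₁ * ellk M₁ M₂ k))) := by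
            gcongr
        _ = volume K * ENNReal.ofReal (4 * M₂ / lamk k ^ 2 *
              (2 * Real.pi * (3 * M₁ * ellk M₁ M₂ k))) := by
            rw [hK0 _ _ (by positivity) _ (by positivity)]
        _ ≤ volume K * ENNReal.ofReal (76 * M₁ ^ 2 * (25 / 36) ^ k) := by
            refine mul_le_mul_right (ENNReal.ofReal_le_ofReal ?_) _
            have e : 4 * M₂ / lamk k ^ 2 * (2 * Real.pi * (3 * M₁ * ellk M₁ M₂ k)) =
                24 * Real.pi * M₁ * (M₂ * ellk M₁ M₂ k) / lamk k ^ 2 := by ring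
            rw [e, hsp, div_le_iff₀ (by positivity)]
            have hl : (25 / 36 : ℝ) ^ k = lamk k := rfl
            rw [hl]
            have : 0 < M₁ ^ 2 * lamk k ^ 3 := by positivity
            nlinarith
    refine (add_le_add B1 B2).trans ?_
    rw [← mul_add, ← ENNReal.ofReal_add (by positivity) (by positivity)]
    refine mul_le_mul_right (ENNReal.ofReal_le_ofReal ?_) _
    have h1 : (25 / 36 : ℝ) ^ k ≤ (5 / 6) ^ k := pow_le_pow_left₀ (by norm_num) (by norm_num) k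
    have h2 : 76 * M₁ ^ 2 * (25 / 36) ^ k ≤ 76 * M₁ ^ 2 * (5 / 6) ^ k := by gcongr
    linarith

theorem arr_add_C {n : ℕ} (P : MvPolynomial (Fin 2) ℝ) (hP : P.totalDegree ≤ n) (r : ℝ) :
    (P + MvPolynomial.C r).totalDegree ≤ n := by
  refine (MvPolynomial.totalDegree_add _ _).trans (max_le hP ?_)
  simp

theorem vfc_shf_arr {n : ℕ} {P Q : MvPolynomial (Fin 2) ℝ} (hP : P.totalDegree ≤ n)
    (hQ : Q.totalDegree ≤ n) (c : ℝ × ℝ) :
    vfc (shf (arr n P, arr n Q) c) = vf (P + MvPolynomial.C c.1) (Q + MvPolynomial.C c.2) := by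
  funext z
  rw [vfc_shf, ← vf_eq_vfc hP hQ]
  ext <;> simp [vf]

/-- the number of all the closed orbits in a set -/
theorem orbitSum_one (v : ℝ × ℝ → ℝ × ℝ) (Ω : Set (ℝ × ℝ)) (α : ℝ) :
    orbitSum (fun _ => 1) v Ω α =
      (({C : Set (ℝ × ℝ) | IsClosedOrbit (turn α v) C ∧ C ⊆ Ω}.encard : ℕ∞) : ℝ≥0∞) := by
  rw [orbitSum, ← ENNReal.tsum_set_one]
  rfl

theorem volume_disc_le (z0 : ℝ × ℝ) {R : ℝ} (hR : 0 ≤ R) :
    volume (disc z0 R) ≤ ENNReal.ofReal (4 * R ^ 2) := by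
  refine (measure_mono (disc_subset_square z0 hR)).trans ?_
  rw [Measure.volume_eq_prod, Measure.prod_prod, Real.volume_Ioo, Real.volume_Ioo,
    ← ENNReal.ofReal_mul (by linarith)]
  apply ENNReal.ofReal_le_ofReal
  ring_nf
  rfl

theorem volume_nm_le {σ : ℝ} (hσ : 0 ≤ σ) :
    volume {c : ℝ × ℝ | nm c ≤ σ} ≤ ENNReal.ofReal (4 * σ ^ 2) := by
  have h1 : {c : ℝ × ℝ | nm c ≤ σ} ⊆ Set.Icc (-σ) σ ×ˢ Set.Icc (-σ) σ := by
    rintro ⟨x, y⟩ h
    simp only [Set.mem_ofPred_eq, nm] at h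
    have h2 : x ^ 2 + y ^ 2 ≤ σ ^ 2 := (Real.sqrt_le_left hσ).1 h
    have hx : |x| ≤ σ := abs_le_of_sq_le_sq (by nlinarith [sq_nonneg y]) hσ
    have hy : |y| ≤ σ := abs_le_of_sq_le_sq (by nlinarith [sq_nonneg x]) hσ
    exact ⟨abs_le.1 hx, abs_le.1 hy⟩
  refine (measure_mono h1).trans ?_
  rw [Measure.volume_eq_prod, Measure.prod_prod, Real.volume_Icc,
    ← ENNReal.ofReal_mul (by linarith)]
  apply ENNReal.ofReal_le_ofReal
  ring_nf
  rfl

/-- the weight `upW` in terms of a length interval -/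
theorem orbitSum_upW_le (v : ℝ × ℝ → ℝ × ℝ) (Ω : Set (ℝ × ℝ)) (a α : ℝ) :
    orbitSum (upW a) v Ω α ≤ ((lenSet (turn α v) Ω (ENNReal.ofReal a) ⊤).encard : ℝ≥0∞) := by
  rw [← orbitSum_lenSet]
  refine orbitSum_mono (fun L => ?_) subset_rfl α
  unfold upW
  split_ifs with h
  · rw [Set.indicator_of_mem (show L ∈ Set.Icc (ENNReal.ofReal a) ⊤ from ⟨h.le, le_top⟩)]
    rfl
  · exact zero_le

theorem orbitSum_midW_le (v : ℝ × ℝ → ℝ × ℝ) (Ω : Set (ℝ × ℝ)) (M₁ M₂ : ℝ) (k : ℕ) (α : ℝ) :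
    orbitSum (midW M₁ M₂ k) v Ω α ≤ ((lenSet (turn α v) Set.univ
      (ENNReal.ofReal (ellk M₁ M₂ (k + 1))) (ENNReal.ofReal (ellk M₁ M₂ k))).encard : ℝ≥0∞) := by
  rw [← orbitSum_lenSet]
  refine orbitSum_mono (fun L => ?_) (Set.subset_univ _) α
  unfold midW
  split_ifs with h
  · rw [Set.indicator_of_mem (show L ∈ Set.Icc (ENNReal.ofReal (ellk M₁ M₂ (k + 1)))
      (ENNReal.ofReal (ellk M₁ M₂ k)) from ⟨h.1.le, h.2⟩)]
    rfl
  · exact zero_le

theorem convex_disc (z0 : ℝ × ℝ) (R : ℝ) : Convex ℝ (disc z0 R) := by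
  intro z hz w hw a b ha hb hab
  simp only [disc, Set.mem_ofPred_eq, Prod.fst_add, Prod.smul_fst, smul_eq_mul, Prod.snd_add,
    Prod.smul_snd] at hz hw ⊢
  have e1 : a * z.1 + b * w.1 - z0.1 = a * (z.1 - z0.1) + b * (w.1 - z0.1) := by
    have : b = 1 - a := by linarith
    subst this
    ring
  have e2 : a * z.2 + b * w.2 - z0.2 = a * (z.2 - z0.2) + b * (w.2 - z0.2) := by
    have : b = 1 - a := by linarith
    subst this
    ring
  rw [e1, e2]
  set p := z.1 - z0.1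
  set q := z.2 - z0.2
  set r := w.1 - z0.1
  set s := w.2 - z0.2
  have hb' : b = 1 - a := by linarith
  subst hb'
  have h1 : (a * p + (1 - a) * r) ^ 2 + (a * q + (1 - a) * s) ^ 2 =
      a * (p ^ 2 + q ^ 2) + (1 - a) * (r ^ 2 + s ^ 2) -
        a * (1 - a) * ((p - r) ^ 2 + (q - s) ^ 2) := by ring
  rw [h1]
  have h2 : 0 ≤ a * (1 - a) * ((p - r) ^ 2 + (q - s) ^ 2) := by positivity
  rcases eq_or_lt_of_le ha with rfl | ha'
  · simpa using hw
  · have h3 : a * (p ^ 2 + q ^ 2) < a * R ^ 2 := mul_lt_mul_of_pos_left hz ha'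
    have h4 : (1 - a) * (r ^ 2 + s ^ 2) ≤ (1 - a) * R ^ 2 := mul_le_mul_of_nonneg_left hw.le hb
    nlinarith

/-- the number of scales -/
theorem exists_k0 {x : ℝ} (hx : 1 ≤ x) :
    ∃ k : ℕ, 6649 * x ^ 2 * (5 / 6) ^ k ≤ 1 ∧ (k : ℝ) ≤ 53 + 8 * Real.logb 2 x := by
  have hx0 : 0 < x := by linarith
  have hlog : 0 ≤ Real.logb 2 x := Real.logb_nonneg (by norm_num) hx
  set m : ℕ := ⌈8 * Real.logb 2 x⌉₊ with hm
  have hm1 : 8 * Real.logb 2 x ≤ m := Nat.le_ceil _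
  have hm2 : (m : ℝ) < 8 * Real.logb 2 x + 1 := Nat.ceil_lt_add_one (by positivity)
  refine ⟨52 + m, ?_, ?_⟩
  · have h1 : (5 / 6 : ℝ) ^ 52 * 8192 ≤ 1 := by norm_num
    have h2 : (5 / 6 : ℝ) ^ m * x ^ 2 ≤ 1 := by
      have h3 : Real.logb 2 x ≤ m / 8 := by linarith
      have h4 : x ≤ (2 : ℝ) ^ ((m : ℝ) / 8) := by
        rwa [← Real.logb_le_iff_le_rpow (by norm_num) hx0]
      have h5 : x ^ 2 ≤ (2 : ℝ) ^ ((m : ℝ) / 4) := by
        calc x ^ 2 ≤ ((2 : ℝ) ^ ((m : ℝ) / 8)) ^ 2 := by gcongr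
          _ = (2 : ℝ) ^ ((m : ℝ) / 4) := by
            rw [← Real.rpow_natCast, ← Real.rpow_mul (by norm_num)]
            congr 1
            push_cast
            ring
      have h6 : (2 : ℝ) ^ ((m : ℝ) / 4) ≤ (6 / 5 : ℝ) ^ m := by
        have h7 : (2 : ℝ) ^ ((1 : ℝ) / 4) ≤ 6 / 5 := by
          have h8 : (2 : ℝ) ≤ (6 / 5 : ℝ) ^ (4 : ℕ) := by norm_num
          calc (2 : ℝ) ^ ((1 : ℝ) / 4) ≤ ((6 / 5 : ℝ) ^ (4 : ℕ)) ^ ((1 : ℝ) / 4) := by gcongr
            _ = 6 / 5 := by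
              rw [← Real.rpow_natCast, ← Real.rpow_mul (by norm_num)]
              norm_num
        calc (2 : ℝ) ^ ((m : ℝ) / 4) = ((2 : ℝ) ^ ((1 : ℝ) / 4)) ^ m := by
              rw [← Real.rpow_natCast, ← Real.rpow_mul (by norm_num)]
              congr 1
              ring
          _ ≤ (6 / 5 : ℝ) ^ m := by gcongr
      calc (5 / 6 : ℝ) ^ m * x ^ 2 ≤ (5 / 6 : ℝ) ^ m * (6 / 5 : ℝ) ^ m := by
            gcongr
            exact h5.trans h6
        _ = 1 := by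
          rw [← mul_pow]
          norm_num
    have h9 : (0 : ℝ) ≤ (5 / 6 : ℝ) ^ 52 := by positivity
    have h10 : (0 : ℝ) ≤ (5 / 6 : ℝ) ^ m * x ^ 2 := by positivity
    rw [pow_add]
    calc 6649 * x ^ 2 * ((5 / 6) ^ 52 * (5 / 6) ^ m) =
        ((5 / 6 : ℝ) ^ 52 * 6649) * ((5 / 6 : ℝ) ^ m * x ^ 2) := by ring
      _ ≤ 1 * 1 := by
        apply mul_le_mul _ h2 h10 zero_le_one
        linarith
      _ = 1 := one_mul 1
  · push_cast
    linarith

/-- both bounds -/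
theorem count_two {n : ℕ} (hn : 1 ≤ n) (P Q : MvPolynomial (Fin 2) ℝ) (hP : P.totalDegree ≤ n)
    (hQ : Q.totalDegree ≤ n) (z0 : ℝ × ℝ) {R ρ : ℝ} (hR : 0 < R) (hρ : 0 < ρ)
    (hb : ∀ z : ℝ × ℝ, (z.1 - z0.1) ^ 2 + (z.2 - z0.2) ^ 2 ≤ (2 * R) ^ 2 → nm (vf P Q z) ≤ ρ) :
    ∃ H : ℝ × ℝ → ℝ≥0∞, Measurable H ∧
      (∀ c : ℝ × ℝ, ∫⁻ α in Set.Ioo 0 Real.pi, orbitSum (fun _ => 1)
        (vf (P + MvPolynomial.C c.1) (Q + MvPolynomial.C c.2)) (disc z0 R) α ≤ H c) ∧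
      ∀ σ : ℝ, 0 < σ → σ ≤ ρ →
        ∫⁻ c in {c : ℝ × ℝ | nm c ≤ σ}, H c ≤ ENNReal.ofReal (3100000 * n ^ 2 * ρ ^ 2) ∧
        ∫⁻ c in {c : ℝ × ℝ | nm c ≤ σ}, H c ≤
          ENNReal.ofReal (6300 * n ^ 3 * σ ^ 2 * (1 + Real.logb 2 (ρ / σ))) := by
  have hn1 : (1 : ℝ) ≤ n := by exact_mod_cast hn
  have hn0 : (0 : ℝ) < n := by linarith
  have hpi := Real.pi_lt_d4
  have hpi0 := Real.pi_pos
  set M₁ : ℝ := 9 * n * ρ / R with hM1d
  set M₂ : ℝ := 324 * n ^ 2 * ρ / R ^ 2 with hM2d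
  have hM1 : 0 < M₁ := by positivity
  have hM2 : 0 < M₂ := by positivity
  set μ : Pr n := (arr n P, arr n Q) with hμ
  set K := disc z0 R with hK
  have hKo : IsOpen K := isOpen_disc z0 R
  have hKc : Convex ℝ K := convex_disc z0 R
  have hD : DBound μ K M₁ M₂ := dbound_of_poly P Q hP hQ z0 hR hρ.le hb
  choose Hk hkm hk1 hk2 using fun k : ℕ => mid_class hD hKc hKo hM1 hM2 k
  have hvf : ∀ c : ℝ × ℝ, vf (P + MvPolynomial.C c.1) (Q + MvPolynomial.C c.2) =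
      vfc (shf μ c) := fun c => (vfc_shf_arr hP hQ c).symm
  -- the bound for one scale, for each translation
  have hk3 : ∀ (k : ℕ) (c : ℝ × ℝ), ∫⁻ α in Set.Ioo 0 Real.pi,
      orbitSum (midW M₁ M₂ k) (vfc (shf μ c)) K α ≤ ENNReal.ofReal (188 / 10 * n ^ 3) := by
    intro k c
    refine (lintegral_mono fun α => orbitSum_midW_le (vfc (shf μ c)) K M₁ M₂ k α).trans ?_
    rw [← hvf c]
    refine (count_scale _ _ (arr_add_C P hP c.1) (arr_add_C Q hQ c.2)
      (ellk_pos hM1 hM2 (k + 1)) (ellk_pos hM1 hM2 k).le).trans ?_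
    apply ENNReal.ofReal_le_ofReal
    have hek := ellk_pos hM1 hM2 k
    rw [ellk_succ, div_le_iff₀ (by positivity)]
    have : 0 < n ^ 3 * ellk M₁ M₂ k := by positivity
    nlinarith
  have hL : ∀ c : ℝ × ℝ, ∫⁻ α in Set.Ioo 0 Real.pi,
      orbitSum (upW (ellk M₁ M₂ 0)) (vfc (shf μ c)) K α ≤
        ENNReal.ofReal (144 * Real.pi * n ^ 2) := by
    intro c
    refine (lintegral_mono fun α => orbitSum_upW_le (vfc (shf μ c)) K (ellk M₁ M₂ 0) α).trans ?_
    refine (local_count (shf μ c) z0 hR.le (ellk_pos hM1 hM2 0) ⊤).trans ?_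
    apply ENNReal.ofReal_le_ofReal
    rw [div_le_iff₀ (ellk_pos hM1 hM2 0)]
    have : ellk M₁ M₂ 0 = R / (36 * n) := by
      simp only [ellk, lamk, hM1d, hM2d]
      field_simp
      ring
    rw [this]
    apply le_of_eq
    field_simp
    ring
  have hm1 : ∀ (c : ℝ × ℝ) (φ : ℝ≥0∞ → ℝ≥0∞), Measurable φ →
      AEMeasurable (orbitSum φ (vfc (shf μ c)) K) (volume.restrict (Set.Ioo 0 Real.pi)) :=
    fun c φ hφ => orbitSum_aemeasurable (shf μ c) hKo hφ
  set G : ℕ → ℝ × ℝ → ℝ≥0∞ := fun k c => min (Hk k c) (ENNReal.ofReal (188 / 10 * n ^ 3)) with hG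
  have hGm : ∀ k, Measurable (G k) := fun k => (hkm k).min measurable_const
  refine ⟨fun c => ENNReal.ofReal (144 * Real.pi * n ^ 2) + ∑' k, G k c,
    measurable_const.add (Measurable.tsum hGm), ?_, ?_⟩
  · intro c
    rw [hvf c]
    refine (lintegral_mono fun α => ca_sum2 (shf μ c) K hM1 hM2 α).trans ?_
    rw [lintegral_add_left' (hm1 c _ (measurable_upW _)),
      lintegral_tsum fun k => hm1 c _ (measurable_midW M₁ M₂ k)]
    exact add_le_add (hL c) (ENNReal.tsum_le_tsum fun k => le_min (hk1 k c) (hk3 k c))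
  · intro σ hσ hσρ
    set S : Set (ℝ × ℝ) := {c : ℝ × ℝ | nm c ≤ σ} with hS
    have hSv : volume S ≤ ENNReal.ofReal (4 * σ ^ 2) := volume_nm_le hσ.le
    have hKv : volume K ≤ ENNReal.ofReal (4 * R ^ 2) := volume_disc_le z0 hR.le
    have hlog : 0 ≤ Real.logb 2 (ρ / σ) :=
      Real.logb_nonneg (by norm_num) ((one_le_div hσ).2 hσρ)
    -- the integral of one scale
    have I1 : ∀ k, ∫⁻ c in S, G k c ≤ ENNReal.ofReal (500000 * n ^ 2 * ρ ^ 2 * (5 / 6) ^ k) := by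
      intro k
      calc ∫⁻ c in S, G k c ≤ ∫⁻ c, Hk k c :=
            (setLIntegral_le_lintegral _ _).trans (lintegral_mono fun c => min_le_left _ _)
        _ ≤ volume K * ENNReal.ofReal (1541 * M₁ ^ 2 * (5 / 6) ^ k) := hk2 k
        _ ≤ ENNReal.ofReal (4 * R ^ 2) * ENNReal.ofReal (1541 * M₁ ^ 2 * (5 / 6) ^ k) := by
            gcongr
        _ = ENNReal.ofReal (4 * R ^ 2 * (1541 * M₁ ^ 2 * (5 / 6) ^ k)) :=
            (ENNReal.ofReal_mul (by positivity)).symm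
        _ ≤ ENNReal.ofReal (500000 * n ^ 2 * ρ ^ 2 * (5 / 6) ^ k) := by
            apply ENNReal.ofReal_le_ofReal
            have e : 4 * R ^ 2 * (1541 * M₁ ^ 2 * (5 / 6) ^ k) =
                499284 * (n ^ 2 * ρ ^ 2 * (5 / 6) ^ k) := by
              rw [hM1d]
              field_simp
              ring
            rw [e]
            have : 0 ≤ n ^ 2 * ρ ^ 2 * (5 / 6 : ℝ) ^ k := by positivity
            nlinarith
    have I2 : ∀ k, ∫⁻ c in S, G k c ≤ ENNReal.ofReal (752 / 10 * n ^ 3 * σ ^ 2) := by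
      intro k
      calc ∫⁻ c in S, G k c ≤ ∫⁻ _ in S, ENNReal.ofReal (188 / 10 * n ^ 3) :=
            lintegral_mono fun c => min_le_right _ _
        _ = ENNReal.ofReal (188 / 10 * n ^ 3) * volume S := setLIntegral_const _ _
        _ ≤ ENNReal.ofReal (188 / 10 * n ^ 3) * ENNReal.ofReal (4 * σ ^ 2) := by gcongr
        _ = ENNReal.ofReal (752 / 10 * n ^ 3 * σ ^ 2) := by
            rw [← ENNReal.ofReal_mul (by positivity)]
            congr 1
            ring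
    have I0 : ∫⁻ _ in S, ENNReal.ofReal (144 * Real.pi * n ^ 2) ≤
        ENNReal.ofReal (1814 * n ^ 2 * σ ^ 2) := by
      rw [setLIntegral_const]
      calc ENNReal.ofReal (144 * Real.pi * n ^ 2) * volume S
          ≤ ENNReal.ofReal (144 * Real.pi * n ^ 2) * ENNReal.ofReal (4 * σ ^ 2) := by gcongr
        _ = ENNReal.ofReal (144 * Real.pi * n ^ 2 * (4 * σ ^ 2)) :=
            (ENNReal.ofReal_mul (by positivity)).symm
        _ ≤ ENNReal.ofReal (1814 * n ^ 2 * σ ^ 2) := by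
            apply ENNReal.ofReal_le_ofReal
            have : 0 < n ^ 2 * σ ^ 2 := by positivity
            nlinarith
    have Itot : ∫⁻ c in S, (ENNReal.ofReal (144 * Real.pi * n ^ 2) + ∑' k, G k c) ≤
        ENNReal.ofReal (1814 * n ^ 2 * σ ^ 2) + ∑' k, ∫⁻ c in S, G k c := by
      rw [lintegral_add_left measurable_const, lintegral_tsum fun k => (hGm k).aemeasurable]
      exact add_le_add I0 le_rfl
    refine ⟨Itot.trans ?_, Itot.trans ?_⟩
    · calc ENNReal.ofReal (1814 * n ^ 2 * σ ^ 2) + ∑' k, ∫⁻ c in S, G k c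
          ≤ ENNReal.ofReal (1814 * n ^ 2 * σ ^ 2) +
            ∑' k : ℕ, ENNReal.ofReal (500000 * n ^ 2 * ρ ^ 2 * (5 / 6) ^ k) := by
            gcongr with k
            exact I1 k
        _ = ENNReal.ofReal (1814 * n ^ 2 * σ ^ 2 + 500000 * n ^ 2 * ρ ^ 2 / (1 - 5 / 6)) := by
            rw [ca_geom (by positivity) (by norm_num) (by norm_num),
              ← ENNReal.ofReal_add (by positivity) (by positivity)]
        _ ≤ ENNReal.ofReal (3100000 * n ^ 2 * ρ ^ 2) := by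
            apply ENNReal.ofReal_le_ofReal
            have h1 : σ ^ 2 ≤ ρ ^ 2 := by gcongr
            have h2 : n ^ 2 * σ ^ 2 ≤ n ^ 2 * ρ ^ 2 := by gcongr
            have h3 : 0 < n ^ 2 * ρ ^ 2 := by positivity
            have e : 500000 * n ^ 2 * ρ ^ 2 / (1 - 5 / 6) = 3000000 * (n ^ 2 * ρ ^ 2) := by ring
            rw [e]
            nlinarith
    · set E : ℝ := 752 / 10 * n ^ 3 * σ ^ 2 with hE
      have hE0 : 0 < E := by positivity
      obtain ⟨k0, hk0, hk0'⟩ := exists_k0 (x := ρ / σ) ((one_le_div hσ).2 hσρ)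
      have hB : 500000 * n ^ 2 * ρ ^ 2 * (5 / 6) ^ k0 ≤ E := by
        have h1 : 6649 * ρ ^ 2 * (5 / 6) ^ k0 ≤ σ ^ 2 := by
          have h2 := mul_le_mul_of_nonneg_left hk0 (sq_nonneg σ)
          have e : σ ^ 2 * (6649 * (ρ / σ) ^ 2 * (5 / 6) ^ k0) = 6649 * ρ ^ 2 * (5 / 6) ^ k0 := by
            field_simp
          rw [e] at h2
          linarith
        have h3 : n ^ 2 * (6649 * ρ ^ 2 * (5 / 6) ^ k0) ≤ n ^ 2 * σ ^ 2 := by gcongr
        have h4 : n ^ 2 * σ ^ 2 ≤ n ^ 3 * σ ^ 2 := by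
          have := pow_le_pow_right₀ hn1 (show 2 ≤ 3 by norm_num)
          gcongr
        have h5 : 0 ≤ n ^ 2 * (ρ ^ 2 * (5 / 6 : ℝ) ^ k0) := by positivity
        rw [hE]
        nlinarith
      have hsplit : ∑' k, ∫⁻ c in S, G k c ≤ ENNReal.ofReal ((k0 + 6) * E) := by
        rw [← Summable.sum_add_tsum_nat_add' (k := k0) (f := fun k => ∫⁻ c in S, G k c) ENNReal.summable]
        calc (∑ k ∈ Finset.range k0, ∫⁻ c in S, G k c) + ∑' k, ∫⁻ c in S, G (k + k0) c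
            ≤ (∑ k ∈ Finset.range k0, ENNReal.ofReal E) +
              ∑' k : ℕ, ENNReal.ofReal (E * (5 / 6) ^ k) := by
              refine add_le_add (Finset.sum_le_sum fun k _ => I2 k)
                (ENNReal.tsum_le_tsum fun k => (I1 (k + k0)).trans ?_)
              apply ENNReal.ofReal_le_ofReal
              rw [pow_add]
              have h6 : (0 : ℝ) ≤ (5 / 6) ^ k := by positivity
              calc 500000 * (n : ℝ) ^ 2 * ρ ^ 2 * ((5 / 6) ^ k * (5 / 6) ^ k0) =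
                  (500000 * n ^ 2 * ρ ^ 2 * (5 / 6) ^ k0) * (5 / 6) ^ k := by ring
                _ ≤ E * (5 / 6) ^ k := by gcongr
          _ = ENNReal.ofReal ((k0 + 6) * E) := by
              rw [Finset.sum_const, Finset.card_range, nsmul_eq_mul,
                ca_geom hE0.le (by norm_num) (by norm_num), ← ENNReal.ofReal_natCast k0,
                ← ENNReal.ofReal_mul (by positivity),
                ← ENNReal.ofReal_add (by positivity) (by positivity)]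
              congr 1
              ring
      calc ENNReal.ofReal (1814 * n ^ 2 * σ ^ 2) + ∑' k, ∫⁻ c in S, G k c
          ≤ ENNReal.ofReal (1814 * n ^ 2 * σ ^ 2) + ENNReal.ofReal ((k0 + 6) * E) := by gcongr
        _ = ENNReal.ofReal (1814 * n ^ 2 * σ ^ 2 + (k0 + 6) * E) :=
            (ENNReal.ofReal_add (by positivity) (by positivity)).symm
        _ ≤ ENNReal.ofReal (6300 * n ^ 3 * σ ^ 2 * (1 + Real.logb 2 (ρ / σ))) := by
            apply ENNReal.ofReal_le_ofReal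
            have h4 : n ^ 2 * σ ^ 2 ≤ n ^ 3 * σ ^ 2 := by
              have := pow_le_pow_right₀ hn1 (show 2 ≤ 3 by norm_num)
              gcongr
            have h5 : ((k0 : ℝ) + 6) * E ≤ (59 + 8 * Real.logb 2 (ρ / σ)) * E :=
              mul_le_mul_of_nonneg_right (by linarith) hE0.le
            have h7 : 0 < n ^ 3 * σ ^ 2 := by positivity
            have h8 : 0 ≤ n ^ 3 * σ ^ 2 * Real.logb 2 (ρ / σ) := by positivity
            have h9 : (59 + 8 * Real.logb 2 (ρ / σ)) * E = 59 * (752 / 10) * (n ^ 3 * σ ^ 2) +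
                8 * (752 / 10) * (n ^ 3 * σ ^ 2 * Real.logb 2 (ρ / σ)) := by
              rw [hE]
              ring
            rw [h9] at h5
            nlinarith

end Pool.Agent.Lib.MP_95e7ec_an
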