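import Mathlib
import Pool.Agent.Lib.MP_95e7ec_an.AvgDefs

/-!
# Definitions for the smoothed bound: first order expansion of a planar polynomial field
-/

set_option autoImplicit false

namespace Pool.Agent.Lib.MP_95e7ec_an

/-- the first component of the remainder of the first order expansion of the field at `z0` -/
def rem1 {D : ℕ} (μ : Pr D) (z0 z : ℝ × ℝ) : ℝ :=
  (vfc μ z).1 - (vfc μ z0).1 - (pex μ.1 z0.1 z0.2 * (z.1 - z0.1) + pey μ.1 z0.1 z0.2 * (z.2 - z0.2))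

/-- the second component of the remainder of the first order expansion of the field at `z0` -/
def rem2 {D : ℕ} (μ : Pr D) (z0 z : ℝ × ℝ) : ℝ :=
  (vfc μ z).2 - (vfc μ z0).2 - (pex μ.2 z0.1 z0.2 * (z.1 - z0.1) + pey μ.2 z0.1 z0.2 * (z.2 - z0.2))

/-- the square of the (Frobenius) distance of the derivatives of the field at `z` and `z0` -/
def drem {D : ℕ} (μ : Pr D) (z0 z : ℝ × ℝ) : ℝ :=
  (pex μ.1 z.1 z.2 - pex μ.1 z0.1 z0.2) ^ 2 + (pey μ.1 z.1 z.2 - pey μ.1 z0.1 z0.2) ^ 2 +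
  (pex μ.2 z.1 z.2 - pex μ.2 z0.1 z0.2) ^ 2 + (pey μ.2 z.1 z.2 - pey μ.2 z0.1 z0.2) ^ 2

/-- the square of the Frobenius norm of the derivative of the field at `z` -/
def fro {D : ℕ} (μ : Pr D) (z : ℝ × ℝ) : ℝ :=
  pex μ.1 z.1 z.2 ^ 2 + pey μ.1 z.1 z.2 ^ 2 + pex μ.2 z.1 z.2 ^ 2 + pey μ.2 z.1 z.2 ^ 2

/-- the determinant of the derivative of the field at `z` -/
def jdet {D : ℕ} (μ : Pr D) (z : ℝ × ℝ) : ℝ :=
  pex μ.1 z.1 z.2 * pey μ.2 z.1 z.2 - pey μ.1 z.1 z.2 * pex μ.2 z.1 z.2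

/-- the trace of the derivative of the field at `z` -/
def jtr {D : ℕ} (μ : Pr D) (z : ℝ × ℝ) : ℝ :=
  pex μ.1 z.1 z.2 + pey μ.2 z.1 z.2

end Pool.Agent.Lib.MP_95e7ec_an
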