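import Mathlib
import Pool.Agent.Lib.MP_95e7ec_an.ScaleMain
import Pool.Agent.Lib.MP_95e7ec_an.SmDefs

/-!
# Explicit bounds for the first order expansion of a polynomial field in the unit disc
-/

set_option autoImplicit false

open Set Filter Topology MeasureTheory
open scoped ContDiff ENNReal

namespace Pool.Agent.Lib.MP_95e7ec_an

namespace CoefB

theorem sum_bound {n : ℕ} (hn : 1 ≤ n) {H B : ℝ} (hH : 0 ≤ H) (hB : 0 ≤ B) (c : Co n)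
    (hc : ∀ a b, |c a b| ≤ H) (f : Fin (n + 1) → Fin (n + 1) → ℝ) (hf : ∀ a b, |f a b| ≤ B) :
    |∑ a : Fin (n + 1), ∑ b : Fin (n + 1), c a b • f a b| ≤ 4 * n ^ 2 * (H * B) := by
  have h1 : |∑ a : Fin (n + 1), ∑ b : Fin (n + 1), c a b • f a b| ≤
      ∑ a : Fin (n + 1), ∑ b : Fin (n + 1), H * B := by
    refine (Finset.abs_sum_le_sum_abs _ _).trans (Finset.sum_le_sum fun a _ => ?_)
    refine (Finset.abs_sum_le_sum_abs _ _).trans (Finset.sum_le_sum fun b _ => ?_)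
    rw [smul_eq_mul, abs_mul]
    exact mul_le_mul (hc a b) (hf a b) (abs_nonneg _) hH
  refine h1.trans ?_
  rw [Finset.sum_const, Finset.sum_const, Finset.card_univ, Fintype.card_fin, nsmul_eq_mul,
    nsmul_eq_mul, ← mul_assoc]
  refine mul_le_mul_of_nonneg_right ?_ (mul_nonneg hH hB)
  have h2 : (1 : ℝ) ≤ n := by exact_mod_cast hn
  push_cast
  nlinarith

section mono
variable {x x0 : ℝ}

theorem pow_abs_le (hx : |x| ≤ 1) (a : ℕ) : |x ^ a| ≤ 1 := by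
  rw [abs_pow]; exact pow_le_one₀ (abs_nonneg _) hx

theorem pow_sub_le (hx : |x| ≤ 1) (hx0 : |x0| ≤ 1) (a : ℕ) : |x ^ a - x0 ^ a| ≤ a * |x - x0| := by
  induction a with
  | zero => simp
  | succ a ih =>
    have h1 : x ^ (a + 1) - x0 ^ (a + 1) = x * (x ^ a - x0 ^ a) + x0 ^ a * (x - x0) := by ring
    rw [h1]
    refine (abs_add_le _ _).trans ?_
    rw [abs_mul, abs_mul]
    have h2 : |x| * |x ^ a - x0 ^ a| ≤ 1 * (a * |x - x0|) :=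
      mul_le_mul hx ih (abs_nonneg _) zero_le_one
    have h3 : |x0 ^ a| * |x - x0| ≤ 1 * |x - x0| :=
      mul_le_mul_of_nonneg_right (pow_abs_le hx0 a) (abs_nonneg _)
    push_cast
    linarith

theorem pow_rem_le (hx : |x| ≤ 1) (hx0 : |x0| ≤ 1) (a : ℕ) :
    |x ^ a - x0 ^ a - a * x0 ^ (a - 1) * (x - x0)| ≤ a ^ 2 / 2 * |x - x0| ^ 2 := by
  induction a with
  | zero => simp
  | succ a ih =>
    have h1 : x ^ (a + 1) - x0 ^ (a + 1) - ((a + 1 : ℕ) : ℝ) * x0 ^ (a + 1 - 1) * (x - x0) =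
        x * (x ^ a - x0 ^ a - a * x0 ^ (a - 1) * (x - x0)) +
          a * x0 ^ (a - 1) * (x - x0) ^ 2 := by
      rw [Nat.add_sub_cancel]
      rcases Nat.eq_zero_or_pos a with rfl | ha
      · simp
      · obtain ⟨b, rfl⟩ : ∃ b, a = b + 1 := ⟨a - 1, by omega⟩
        rw [Nat.add_sub_cancel]
        push_cast
        ring
    rw [h1]
    refine (abs_add_le _ _).trans ?_
    rw [abs_mul, abs_mul, abs_mul, abs_pow (x - x0) 2, Nat.abs_cast]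
    have h2 : |x| * |x ^ a - x0 ^ a - a * x0 ^ (a - 1) * (x - x0)| ≤
        1 * (a ^ 2 / 2 * |x - x0| ^ 2) := mul_le_mul hx ih (abs_nonneg _) zero_le_one
    have h3 : (a : ℝ) * |x0 ^ (a - 1)| * |x - x0| ^ 2 ≤ a * 1 * |x - x0| ^ 2 := by
      refine mul_le_mul_of_nonneg_right ?_ (by positivity)
      exact mul_le_mul_of_nonneg_left (pow_abs_le hx0 _) (Nat.cast_nonneg _)
    have h4 : (0 : ℝ) ≤ |x - x0| ^ 2 := by positivity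
    push_cast
    nlinarith

end mono

section two
variable {x y x0 y0 : ℝ} {n a b : ℕ}

/-- remainder of the first order expansion of a monomial -/
theorem mono_rem (hx : |x| ≤ 1) (hx0 : |x0| ≤ 1) (hy : |y| ≤ 1) (hy0 : |y0| ≤ 1) (ha : a ≤ n)
    (hb : b ≤ n) :
    |x ^ a * y ^ b - x0 ^ a * y0 ^ b - (((a : ℝ) • x0 ^ (a - 1) * y0 ^ b) * (x - x0) +
      (x0 ^ a * ((b : ℝ) • y0 ^ (b - 1))) * (y - y0))| ≤
      n ^ 2 * (|x - x0| ^ 2 + |y - y0| ^ 2) := by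
  have h1 : x ^ a * y ^ b - x0 ^ a * y0 ^ b - (((a : ℝ) • x0 ^ (a - 1) * y0 ^ b) * (x - x0) +
      (x0 ^ a * ((b : ℝ) • y0 ^ (b - 1))) * (y - y0)) =
      (x ^ a - x0 ^ a) * (y ^ b - y0 ^ b) +
      ((x ^ a - x0 ^ a - a * x0 ^ (a - 1) * (x - x0)) * y0 ^ b +
       x0 ^ a * (y ^ b - y0 ^ b - b * y0 ^ (b - 1) * (y - y0))) := by
    simp only [smul_eq_mul]; ring
  rw [h1]
  refine (abs_add_le _ _).trans ?_
  refine (add_le_add_right (abs_add_le _ _) _).trans ?_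
  rw [abs_mul, abs_mul, abs_mul]
  have e1 := pow_sub_le hx hx0 a
  have e2 := pow_sub_le hy hy0 b
  have e3 := pow_rem_le hx hx0 a
  have e4 := pow_rem_le hy hy0 b
  have f1 : |x ^ a - x0 ^ a| * |y ^ b - y0 ^ b| ≤ (a * |x - x0|) * (b * |y - y0|) :=
    mul_le_mul e1 e2 (abs_nonneg _) (by positivity)
  have f2 : |x ^ a - x0 ^ a - a * x0 ^ (a - 1) * (x - x0)| * |y0 ^ b| ≤
      (a ^ 2 / 2 * |x - x0| ^ 2) * 1 := mul_le_mul e3 (pow_abs_le hy0 b) (abs_nonneg _) (by positivity)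
  have f3 : |x0 ^ a| * |y ^ b - y0 ^ b - b * y0 ^ (b - 1) * (y - y0)| ≤
      1 * (b ^ 2 / 2 * |y - y0| ^ 2) := mul_le_mul (pow_abs_le hx0 a) e4 (abs_nonneg _) zero_le_one
  have ga : (a : ℝ) ≤ n := by exact_mod_cast ha
  have gb : (b : ℝ) ≤ n := by exact_mod_cast hb
  have s0 := abs_nonneg (x - x0)
  have t0 := abs_nonneg (y - y0)
  have ga0 : (0 : ℝ) ≤ a := Nat.cast_nonneg _
  have gb0 : (0 : ℝ) ≤ b := Nat.cast_nonneg _
  have k1 : (a * |x - x0| + b * |y - y0|) ≤ n * |x - x0| + n * |y - y0| :=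
    add_le_add (mul_le_mul_of_nonneg_right ga s0) (mul_le_mul_of_nonneg_right gb t0)
  have k2 : (a * |x - x0| + b * |y - y0|) ^ 2 ≤ (n * |x - x0| + n * |y - y0|) ^ 2 :=
    pow_le_pow_left₀ (by positivity) k1 2
  have k3 : (n * |x - x0| + n * |y - y0|) ^ 2 ≤ 2 * ((n : ℝ) ^ 2 * (|x - x0| ^ 2 + |y - y0| ^ 2)) := by
    nlinarith [sq_nonneg ((n : ℝ) * |x - x0| - n * |y - y0|)]
  nlinarith

theorem mono_dx (hx : |x| ≤ 1) (hx0 : |x0| ≤ 1) (hy : |y| ≤ 1) (hy0 : |y0| ≤ 1) (ha : a ≤ n)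
    (hb : b ≤ n) :
    |(a : ℝ) • x ^ (a - 1) * y ^ b - (a : ℝ) • x0 ^ (a - 1) * y0 ^ b| ≤
      n ^ 2 * (|x - x0| + |y - y0|) := by
  have h1 : (a : ℝ) • x ^ (a - 1) * y ^ b - (a : ℝ) • x0 ^ (a - 1) * y0 ^ b =
      a * ((x ^ (a - 1) - x0 ^ (a - 1)) * y ^ b + x0 ^ (a - 1) * (y ^ b - y0 ^ b)) := by
    simp only [smul_eq_mul]; ring
  rw [h1, abs_mul, Nat.abs_cast]
  have e1 := pow_sub_le hx hx0 (a - 1)
  have e2 := pow_sub_le hy hy0 b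
  have s0 := abs_nonneg (x - x0)
  have t0 := abs_nonneg (y - y0)
  have ga : (a : ℝ) ≤ n := by exact_mod_cast ha
  have ga1 : ((a - 1 : ℕ) : ℝ) ≤ n := by exact_mod_cast (Nat.sub_le a 1).trans ha
  have gb : (b : ℝ) ≤ n := by exact_mod_cast hb
  have f1 : |(x ^ (a - 1) - x0 ^ (a - 1)) * y ^ b + x0 ^ (a - 1) * (y ^ b - y0 ^ b)| ≤
      n * |x - x0| + n * |y - y0| := by
    refine (abs_add_le _ _).trans ?_
    rw [abs_mul, abs_mul]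
    have f2 : |x ^ (a - 1) - x0 ^ (a - 1)| * |y ^ b| ≤ (n * |x - x0|) * 1 :=
      mul_le_mul (e1.trans (mul_le_mul_of_nonneg_right ga1 s0)) (pow_abs_le hy b) (abs_nonneg _)
        (by positivity)
    have f3 : |x0 ^ (a - 1)| * |y ^ b - y0 ^ b| ≤ 1 * (n * |y - y0|) :=
      mul_le_mul (pow_abs_le hx0 _) (e2.trans (mul_le_mul_of_nonneg_right gb t0)) (abs_nonneg _)
        zero_le_one
    linarith
  calc (a : ℝ) * _ ≤ n * (n * |x - x0| + n * |y - y0|) :=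
        mul_le_mul ga f1 (abs_nonneg _) (Nat.cast_nonneg _)
    _ = _ := by ring

theorem mono_dy (hx : |x| ≤ 1) (hx0 : |x0| ≤ 1) (hy : |y| ≤ 1) (hy0 : |y0| ≤ 1) (ha : a ≤ n)
    (hb : b ≤ n) :
    |x ^ a * ((b : ℝ) • y ^ (b - 1)) - x0 ^ a * ((b : ℝ) • y0 ^ (b - 1))| ≤
      n ^ 2 * (|x - x0| + |y - y0|) := by
  have h := mono_dx (x := y) (x0 := y0) (y := x) (y0 := x0) hy hy0 hx hx0 hb ha
  rw [mul_comm (x ^ a), mul_comm (x0 ^ a), add_comm (|x - x0|)]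
  exact h

theorem mono_dx0 (hx : |x| ≤ 1) (hy : |y| ≤ 1) (ha : a ≤ n) :
    |(a : ℝ) • x ^ (a - 1) * y ^ b| ≤ n := by
  rw [smul_eq_mul, abs_mul, abs_mul, Nat.abs_cast]
  have ga : (a : ℝ) ≤ n := by exact_mod_cast ha
  have h1 : (a : ℝ) * |x ^ (a - 1)| ≤ n * 1 :=
    mul_le_mul ga (pow_abs_le hx _) (abs_nonneg _) (Nat.cast_nonneg _)
  have h2 : (a : ℝ) * |x ^ (a - 1)| * |y ^ b| ≤ (n * 1) * 1 :=
    mul_le_mul h1 (pow_abs_le hy b) (abs_nonneg _) (by positivity)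
  linarith

theorem mono_dy0 (hx : |x| ≤ 1) (hy : |y| ≤ 1) (hb : b ≤ n) :
    |x ^ a * ((b : ℝ) • y ^ (b - 1))| ≤ n := by
  rw [mul_comm]; exact mono_dx0 hy hx hb

end two

section arrays
variable {n : ℕ} {c : Co n} {H : ℝ} {x y x0 y0 : ℝ}

theorem pex_bound (hn : 1 ≤ n) (hH : 0 ≤ H) (hc : ∀ a b, |c a b| ≤ H) (hx : |x| ≤ 1)
    (hy : |y| ≤ 1) : |pex c x y| ≤ 4 * n ^ 2 * (H * n) :=
  sum_bound hn hH (Nat.cast_nonneg _) c hc _ fun a _ => mono_dx0 hx hy (Nat.lt_succ_iff.1 a.2)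

theorem pey_bound (hn : 1 ≤ n) (hH : 0 ≤ H) (hc : ∀ a b, |c a b| ≤ H) (hx : |x| ≤ 1)
    (hy : |y| ≤ 1) : |pey c x y| ≤ 4 * n ^ 2 * (H * n) :=
  sum_bound hn hH (Nat.cast_nonneg _) c hc _ fun _ b => mono_dy0 hx hy (Nat.lt_succ_iff.1 b.2)

theorem pex_diff (hn : 1 ≤ n) (hH : 0 ≤ H) (hc : ∀ a b, |c a b| ≤ H) (hx : |x| ≤ 1)
    (hy : |y| ≤ 1) (hx0 : |x0| ≤ 1) (hy0 : |y0| ≤ 1) :
    |pex c x y - pex c x0 y0| ≤ 4 * n ^ 2 * (H * (n ^ 2 * (|x - x0| + |y - y0|))) := by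
  have h1 : pex c x y - pex c x0 y0 = ∑ a : Fin (n + 1), ∑ b : Fin (n + 1), c a b •
      ((((a : ℕ) : ℝ) • x ^ ((a : ℕ) - 1) * y ^ (b : ℕ)) -
        (((a : ℕ) : ℝ) • x0 ^ ((a : ℕ) - 1) * y0 ^ (b : ℕ))) := by
    simp only [pex, ← Finset.sum_sub_distrib, smul_sub]
  rw [h1]
  exact sum_bound hn hH (by positivity) c hc _ fun a b =>
    mono_dx hx hx0 hy hy0 (Nat.lt_succ_iff.1 a.2) (Nat.lt_succ_iff.1 b.2)

theorem pey_diff (hn : 1 ≤ n) (hH : 0 ≤ H) (hc : ∀ a b, |c a b| ≤ H) (hx : |x| ≤ 1)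
    (hy : |y| ≤ 1) (hx0 : |x0| ≤ 1) (hy0 : |y0| ≤ 1) :
    |pey c x y - pey c x0 y0| ≤ 4 * n ^ 2 * (H * (n ^ 2 * (|x - x0| + |y - y0|))) := by
  have h1 : pey c x y - pey c x0 y0 = ∑ a : Fin (n + 1), ∑ b : Fin (n + 1), c a b •
      ((x ^ (a : ℕ) * (((b : ℕ) : ℝ) • y ^ ((b : ℕ) - 1))) -
        (x0 ^ (a : ℕ) * (((b : ℕ) : ℝ) • y0 ^ ((b : ℕ) - 1)))) := by
    simp only [pey, ← Finset.sum_sub_distrib, smul_sub]
  rw [h1]
  exact sum_bound hn hH (by positivity) c hc _ fun a b =>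
    mono_dy hx hx0 hy hy0 (Nat.lt_succ_iff.1 a.2) (Nat.lt_succ_iff.1 b.2)

theorem pe_rem (hn : 1 ≤ n) (hH : 0 ≤ H) (hc : ∀ a b, |c a b| ≤ H) (hx : |x| ≤ 1)
    (hy : |y| ≤ 1) (hx0 : |x0| ≤ 1) (hy0 : |y0| ≤ 1) :
    |pe c x y - pe c x0 y0 - (pex c x0 y0 * (x - x0) + pey c x0 y0 * (y - y0))| ≤
      4 * n ^ 2 * (H * (n ^ 2 * (|x - x0| ^ 2 + |y - y0| ^ 2))) := by
  have h1 : pe c x y - pe c x0 y0 - (pex c x0 y0 * (x - x0) + pey c x0 y0 * (y - y0)) =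
      ∑ a : Fin (n + 1), ∑ b : Fin (n + 1), c a b •
      (x ^ (a : ℕ) * y ^ (b : ℕ) - x0 ^ (a : ℕ) * y0 ^ (b : ℕ) -
        (((((a : ℕ) : ℝ) • x0 ^ ((a : ℕ) - 1) * y0 ^ (b : ℕ))) * (x - x0) +
        ((x0 ^ (a : ℕ) * (((b : ℕ) : ℝ) • y0 ^ ((b : ℕ) - 1)))) * (y - y0))) := by
    simp only [pe, pex, pey, ← Finset.sum_sub_distrib, smul_sub, smul_add, Finset.sum_mul,
      ← Finset.sum_add_distrib, smul_mul_assoc]
  rw [h1]
  exact sum_bound hn hH (by positivity) c hc _ fun a b =>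
    mono_rem hx hx0 hy hy0 (Nat.lt_succ_iff.1 a.2) (Nat.lt_succ_iff.1 b.2)

end arrays

theorem abs_le_of_mem_disc {z : ℝ × ℝ} (hz : z ∈ disc 0 1) : |z.1| ≤ 1 ∧ |z.2| ≤ 1 := by
  have h : (z.1 - 0) ^ 2 + (z.2 - 0) ^ 2 < (1 : ℝ) ^ 2 := hz
  constructor
  · exact abs_le_one_iff_mul_self_le_one.2 (by nlinarith [sq_nonneg z.2])
  · exact abs_le_one_iff_mul_self_le_one.2 (by nlinarith [sq_nonneg z.1])

end CoefB

open CoefB in
theorem coef_bounds {n : ℕ} (hn : 1 ≤ n) (P Q : MvPolynomial (Fin 2) ℝ) {H : ℝ} (hH : 1 ≤ H)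
    (hP : ∀ m, |P.coeff m| ≤ H) (hQ : ∀ m, |Q.coeff m| ≤ H) {z0 : ℝ × ℝ} (hz0 : z0 ∈ disc 0 1) :
    fro (arr n P, arr n Q) z0 ≤ (8 * H * n ^ 4) ^ 2 ∧
    ∀ z ∈ disc 0 1,
      rem1 (arr n P, arr n Q) z0 z ^ 2 + rem2 (arr n P, arr n Q) z0 z ^ 2 ≤
        4 * (8 * H * n ^ 4) ^ 2 * nm (z - z0) ^ 4 ∧
      drem (arr n P, arr n Q) z0 z ≤ 4 * (8 * H * n ^ 4) ^ 2 * nm (z - z0) ^ 2 := by
  have hH0 : 0 ≤ H := by linarith
  have hcP : ∀ a b, |arr n P a b| ≤ H := fun a b => hP _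
  have hcQ : ∀ a b, |arr n Q a b| ≤ H := fun a b => hQ _
  obtain ⟨hx0, hy0⟩ := abs_le_of_mem_disc hz0
  have hn1 : (1 : ℝ) ≤ n := by exact_mod_cast hn
  have hn3 : (n : ℝ) ^ 3 ≤ n ^ 4 := pow_le_pow_right₀ hn1 (by norm_num)
  have key : ∀ {u B : ℝ}, |u| ≤ B → u ^ 2 ≤ B ^ 2 := fun {u B} h => by
    rw [← sq_abs]; exact pow_le_pow_left₀ (abs_nonneg _) h 2
  constructor
  · have e : ∀ {u : ℝ}, |u| ≤ 4 * n ^ 2 * (H * n) → u ^ 2 ≤ (4 * H * n ^ 4) ^ 2 := by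
      intro u h
      refine key (h.trans ?_)
      have : 4 * (n : ℝ) ^ 2 * (H * n) = 4 * H * n ^ 3 := by ring
      rw [this]
      exact mul_le_mul_of_nonneg_left hn3 (by positivity)
    have h1 := e (pex_bound hn hH0 hcP hx0 hy0)
    have h2 := e (pey_bound hn hH0 hcP hx0 hy0)
    have h3 := e (pex_bound hn hH0 hcQ hx0 hy0)
    have h4 := e (pey_bound hn hH0 hcQ hx0 hy0)
    have h5 : (8 * H * (n : ℝ) ^ 4) ^ 2 = 4 * (4 * H * n ^ 4) ^ 2 := by ring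
    rw [h5]
    simp only [fro]
    linarith
  · intro z hz
    obtain ⟨hx, hy⟩ := abs_le_of_mem_disc hz
    have hnm : nm (z - z0) ^ 2 = |z.1 - z0.1| ^ 2 + |z.2 - z0.2| ^ 2 := by
      rw [nm, Real.sq_sqrt (by positivity), sq_abs, sq_abs]; rfl
    have hnm4 : nm (z - z0) ^ 4 = (|z.1 - z0.1| ^ 2 + |z.2 - z0.2| ^ 2) ^ 2 := by
      rw [← hnm]; ring
    constructor
    · have h1 := key (pe_rem hn hH0 hcP hx hy hx0 hy0)
      have h2 := key (pe_rem hn hH0 hcQ hx hy hx0 hy0)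
      have h3 : (4 * (n : ℝ) ^ 2 * (H * (n ^ 2 * (|z.1 - z0.1| ^ 2 + |z.2 - z0.2| ^ 2)))) ^ 2 =
          (8 * H * n ^ 4) ^ 2 / 4 * nm (z - z0) ^ 4 := by rw [hnm4]; ring
      rw [h3] at h1 h2
      have h4 : 0 ≤ (8 * H * (n : ℝ) ^ 4) ^ 2 * nm (z - z0) ^ 4 := by positivity
      simp only [rem1, rem2, vfc]
      nlinarith
    · have h0 : ∀ {u : ℝ},
          |u| ≤ 4 * n ^ 2 * (H * (n ^ 2 * (|z.1 - z0.1| + |z.2 - z0.2|))) →
          u ^ 2 ≤ (8 * H * n ^ 4) ^ 2 / 2 * nm (z - z0) ^ 2 := by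
        intro u h
        refine (key h).trans ?_
        rw [hnm]
        have h5 : (4 * (n : ℝ) ^ 2 * (H * (n ^ 2 * (|z.1 - z0.1| + |z.2 - z0.2|)))) ^ 2 =
            (8 * H * n ^ 4) ^ 2 / 4 * (|z.1 - z0.1| + |z.2 - z0.2|) ^ 2 := by ring
        rw [h5]
        have h6 : (|z.1 - z0.1| + |z.2 - z0.2|) ^ 2 ≤
            2 * (|z.1 - z0.1| ^ 2 + |z.2 - z0.2| ^ 2) := by
          nlinarith [sq_nonneg (|z.1 - z0.1| - |z.2 - z0.2|)]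
        have h7 := mul_le_mul_of_nonneg_left h6
          (show 0 ≤ (8 * H * (n : ℝ) ^ 4) ^ 2 / 4 by positivity)
        linarith
      have h1 := h0 (pex_diff hn hH0 hcP hx hy hx0 hy0)
      have h2 := h0 (pey_diff hn hH0 hcP hx hy hx0 hy0)
      have h3 := h0 (pex_diff hn hH0 hcQ hx hy hx0 hy0)
      have h4 := h0 (pey_diff hn hH0 hcQ hx hy hx0 hy0)
      have h5 : 0 ≤ (8 * H * (n : ℝ) ^ 4) ^ 2 * nm (z - z0) ^ 2 := by positivity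
      simp only [drem]
      linarith

end Pool.Agent.Lib.MP_95e7ec_an
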