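import Mathlib
import Pool.Agent.Lib.MP_95e7ec_an.AvgWeightK
import Pool.Agent.Lib.MP_95e7ec_an.ClassAvg

/-!
# The mean over the weighted translations of the number of all closed orbits in a convex set
-/

set_option autoImplicit false

open Set Filter Topology MeasureTheory
open scoped ContDiff ENNReal

namespace Pool.Agent.Lib.MP_95e7ec_an

variable {D : ℕ}

/-- the mean of the number of closed orbits of one scale, the weight is positive only locally -/
private theorem cw_class_avg (μ : Pr D) (wt : Co D) {K : Set (ℝ × ℝ)} {M₁ M₂ w0 ρ : ℝ}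
    (h : ∀ c, nm c ≤ ρ → DBound (sw μ wt c) K M₁ M₂) (hK : Convex ℝ K) (hKo : IsOpen K)
    (hM1 : 0 < M₁) (hM2 : 0 < M₂) (hw0 : 0 < w0)
    (hw : ∀ z ∈ K, w0 ≤ pe wt z.1 z.2) (j : ℕ) :
    ∃ H : ℝ × ℝ → ℝ≥0∞, Measurable H ∧
      (∀ c, nm c ≤ ρ → ∫⁻ α in Set.Ioo 0 Real.pi,
        orbitSum (midW M₁ M₂ j) (vfc (sw μ wt c)) K α ≤ H c) ∧
      ∫⁻ c, H c ≤ volume K * ENNReal.ofReal (1541 * M₁ ^ 2 * (5 / 6) ^ j / w0 ^ 2) := by
  have hs : (0 : ℝ) < 13 * (5 / 6) ^ j := by positivity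
  obtain ⟨Hb, hbm, hb1, hb2⟩ := avg_bad_wK μ wt h hK hKo hM1 hM2 hw0 hw (lamk_pos j)
    (lamk_le_one j) (ellk_spec hM2 j) hs
  obtain ⟨Hg, hgm, hg1, hg2⟩ := avg_good_w μ wt hKo.measurableSet hw0 hw
    (r := 3 * M₁ * ellk M₁ M₂ j) (by have := ellk_pos hM1 hM2 j; positivity)
  refine ⟨fun c => (ENNReal.ofReal (ellk M₁ M₂ (j + 1)))⁻¹ * (ENNReal.ofReal (3 * M₁) * Hb c) +
      ENNReal.ofReal (4 * M₂ / lamk j ^ 2) * Hg c, ?_, ?_, ?_⟩
  · exact ((hbm.const_mul _).const_mul _).add (hgm.const_mul _)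
  · intro c hc
    refine (class_one (h c hc) hK hKo hM1 hM2 j).trans ?_
    refine add_le_add ?_ ?_
    · gcongr
      exact hb1 c hc
    · gcongr
      exact hg1 c
  · have hinv : ∀ a : ℝ, 0 < a → ∀ b : ℝ, 0 ≤ b → (ENNReal.ofReal a)⁻¹ * ENNReal.ofReal b =
        ENNReal.ofReal (b / a) := by
      intro a ha b hb
      rw [← ENNReal.ofReal_inv_of_pos ha, ← ENNReal.ofReal_mul (by positivity), div_eq_mul_inv,
        mul_comm]
    have hpi := Real.pi_lt_d2
    have hpi0 := Real.pi_pos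
    have hK0 : ∀ x : ℝ≥0∞, ∀ a : ℝ, 0 ≤ a → ∀ b : ℝ, 0 ≤ b → ENNReal.ofReal a * (x * ENNReal.ofReal b)
        = x * ENNReal.ofReal (a * b) := by
      intro x a ha b hb
      rw [ENNReal.ofReal_mul ha]
      ring
    have hek := ellk_pos hM1 hM2 j
    have hek1 := ellk_pos hM1 hM2 (j + 1)
    have hlk := lamk_pos j
    have hsp := ellk_spec (M₁ := M₁) hM2 j
    rw [lintegral_add_left ((hbm.const_mul _).const_mul _)]
    have B1 : ∫⁻ c, (ENNReal.ofReal (ellk M₁ M₂ (j + 1)))⁻¹ * (ENNReal.ofReal (3 * M₁) * Hb c) ≤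
        volume K * ENNReal.ofReal (1465 * M₁ ^ 2 * (5 / 6) ^ j / w0 ^ 2) := by
      rw [lintegral_const_mul _ (hbm.const_mul _), lintegral_const_mul _ hbm]
      have hpos : 0 ≤ M₁ * ellk M₁ M₂ j * (2 * Real.pi * (13 * (5 / 6) ^ j) +
          1060 * lamk j / (13 * (5 / 6) ^ j)) / w0 ^ 2 := by positivity
      calc (ENNReal.ofReal (ellk M₁ M₂ (j + 1)))⁻¹ * (ENNReal.ofReal (3 * M₁) * ∫⁻ c, Hb c)
          ≤ (ENNReal.ofReal (ellk M₁ M₂ (j + 1)))⁻¹ * (ENNReal.ofReal (3 * M₁) *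
            (volume K * ENNReal.ofReal (M₁ * ellk M₁ M₂ j * (2 * Real.pi * (13 * (5 / 6) ^ j) +
              1060 * lamk j / (13 * (5 / 6) ^ j)) / w0 ^ 2))) := by
            gcongr
        _ = volume K * ((ENNReal.ofReal (ellk M₁ M₂ (j + 1)))⁻¹ *
              ENNReal.ofReal (3 * M₁ * (M₁ * ellk M₁ M₂ j * (2 * Real.pi * (13 * (5 / 6) ^ j) +
              1060 * lamk j / (13 * (5 / 6) ^ j)) / w0 ^ 2))) := by
            rw [hK0 _ _ (by positivity) _ hpos]
            ring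
        _ = volume K * ENNReal.ofReal (3 * M₁ * (M₁ * ellk M₁ M₂ j *
              (2 * Real.pi * (13 * (5 / 6) ^ j) + 1060 * lamk j / (13 * (5 / 6) ^ j)) / w0 ^ 2) /
              ellk M₁ M₂ (j + 1)) := by
            rw [hinv _ hek1 _ (by positivity)]
        _ ≤ volume K * ENNReal.ofReal (1465 * M₁ ^ 2 * (5 / 6) ^ j / w0 ^ 2) := by
            refine mul_le_mul_right (ENNReal.ofReal_le_ofReal ?_) _
            rw [div_le_iff₀ hek1, ellk_succ]
            have hl : lamk j = (5 / 6) ^ j * (5 / 6) ^ j := by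
              unfold lamk
              rw [← mul_pow]
              norm_num
            have h5 : (0 : ℝ) < (5 / 6) ^ j := by positivity
            have hq : 1060 * lamk j / (13 * (5 / 6) ^ j) = 1060 / 13 * (5 / 6) ^ j := by
              rw [hl]
              field_simp
            rw [hq]
            have h6 : 0 < M₁ ^ 2 * ellk M₁ M₂ j * (5 / 6) ^ j / w0 ^ 2 := by positivity
            have e1 : 3 * M₁ * (M₁ * ellk M₁ M₂ j * (2 * Real.pi * (13 * (5 / 6) ^ j) +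
                1060 / 13 * (5 / 6) ^ j) / w0 ^ 2) =
                (78 * Real.pi + 3180 / 13) * (M₁ ^ 2 * ellk M₁ M₂ j * (5 / 6) ^ j / w0 ^ 2) := by
              ring
            have e2 : 1465 * M₁ ^ 2 * (5 / 6) ^ j / w0 ^ 2 * ((25 / 36) ^ 3 * ellk M₁ M₂ j) =
                1465 * (25 / 36) ^ 3 * (M₁ ^ 2 * ellk M₁ M₂ j * (5 / 6) ^ j / w0 ^ 2) := by
              ring
            rw [e1, e2]
            nlinarith
    have B2 : ∫⁻ c, ENNReal.ofReal (4 * M₂ / lamk j ^ 2) * Hg c ≤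
        volume K * ENNReal.ofReal (76 * M₁ ^ 2 * (25 / 36) ^ j / w0 ^ 2) := by
      rw [lintegral_const_mul _ hgm]
      calc ENNReal.ofReal (4 * M₂ / lamk j ^ 2) * ∫⁻ c, Hg c
          ≤ ENNReal.ofReal (4 * M₂ / lamk j ^ 2) *
            (volume K * ENNReal.ofReal (2 * Real.pi * (3 * M₁ * ellk M₁ M₂ j) / w0 ^ 2)) := by
            gcongr
        _ = volume K * ENNReal.ofReal (4 * M₂ / lamk j ^ 2 *
              (2 * Real.pi * (3 * M₁ * ellk M₁ M₂ j) / w0 ^ 2)) := by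
            rw [hK0 _ _ (by positivity) _ (by positivity)]
        _ ≤ volume K * ENNReal.ofReal (76 * M₁ ^ 2 * (25 / 36) ^ j / w0 ^ 2) := by
            refine mul_le_mul_right (ENNReal.ofReal_le_ofReal ?_) _
            have e : 4 * M₂ / lamk j ^ 2 * (2 * Real.pi * (3 * M₁ * ellk M₁ M₂ j) / w0 ^ 2) =
                24 * Real.pi * M₁ * (M₂ * ellk M₁ M₂ j) / lamk j ^ 2 / w0 ^ 2 := by ring
            rw [e, hsp]
            gcongr
            rw [div_le_iff₀ (by positivity)]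
            have hl : (25 / 36 : ℝ) ^ j = lamk j := rfl
            rw [hl]
            have : 0 < M₁ ^ 2 * lamk j ^ 3 := by positivity
            nlinarith
    refine (add_le_add B1 B2).trans ?_
    rw [← mul_add, ← ENNReal.ofReal_add (by positivity) (by positivity)]
    refine mul_le_mul_right (ENNReal.ofReal_le_ofReal ?_) _
    rw [← add_div]
    gcongr
    have h1 : (25 / 36 : ℝ) ^ j ≤ (5 / 6) ^ j := pow_le_pow_left₀ (by norm_num) (by norm_num) j
    have h2 : 76 * M₁ ^ 2 * (25 / 36) ^ j ≤ 76 * M₁ ^ 2 * (5 / 6) ^ j := by gcongr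
    linarith

theorem count_all_wK (μ : Pr D) (wt : Co D) {K : Set (ℝ × ℝ)} {M₁ M₂ w0 ρ B : ℝ}
    (h : ∀ c, nm c ≤ ρ → DBound (sw μ wt c) K M₁ M₂) (hK : Convex ℝ K) (hKo : IsOpen K)
    (hM1 : 0 < M₁) (hM2 : 0 < M₂) (hw0 : 0 < w0) (hw : ∀ z ∈ K, w0 ≤ pe wt z.1 z.2)
    (hB0 : 0 ≤ B) (hB : ∀ c, nm c ≤ ρ → ∀ z ∈ K, nm (vfc (sw μ wt c) z) < B) :
    ∃ H : ℝ × ℝ → ℝ≥0∞, Measurable H ∧
      (∀ c, nm c ≤ ρ → ∫⁻ α in Set.Ioo 0 Real.pi,
        orbitSum (fun _ => 1) (vfc (sw μ wt c)) K α ≤ H c) ∧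
      ∫⁻ c, H c ≤ volume K * ENNReal.ofReal ((9300 * M₁ ^ 2 + 20 * M₂ * B) / w0 ^ 2) := by
  obtain ⟨HL, hLm, hL1, hL2⟩ := avg_good_w μ wt hKo.measurableSet hw0 hw hB0
  choose Hm hmm hm1 hm2 using fun j : ℕ => cw_class_avg μ wt h hK hKo hM1 hM2 hw0 hw j
  have he0 := ellk_pos hM1 hM2 0
  refine ⟨fun c => (ENNReal.ofReal (ellk M₁ M₂ 0))⁻¹ * (ENNReal.ofReal (3 * M₁) * HL c) +
    ∑' j, Hm j c, ?_, ?_, ?_⟩
  · exact ((hLm.const_mul _).const_mul _).add (Measurable.tsum fun j => hmm j)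
  · intro c hc
    set ν : Pr D := sw μ wt c with hν
    have hms : ∀ (φ : ℝ≥0∞ → ℝ≥0∞) (Ω : Set (ℝ × ℝ)), Measurable φ → IsOpen Ω →
        AEMeasurable (orbitSum φ (vfc ν) Ω) (volume.restrict (Set.Ioo 0 Real.pi)) :=
      fun φ Ω hφ hΩ => orbitSum_aemeasurable ν hΩ hφ
    refine (lintegral_mono fun α => ca_sum2 ν K hM1 hM2 α).trans ?_
    rw [lintegral_add_left' (hms _ _ (measurable_upW _) hKo),
      lintegral_tsum fun j => hms _ _ (measurable_midW M₁ M₂ j) hKo]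
    refine add_le_add ?_ (ENNReal.tsum_le_tsum fun j => hm1 j c hc)
    have hlong := ca_long ν (h c hc) hM1.le hKo subset_rfl he0 0
    have e0 : ∀ z, vfc ν z + (0 : ℝ × ℝ) = vfc ν z := fun z => add_zero _
    have hsh : vfc (shf ν 0) = vfc ν := by rw [shf_zero]
    simp only [hsh, e0] at hlong
    refine hlong.trans ?_
    gcongr
    refine le_trans ?_ (hL1 c)
    exact lintegral_mono_set fun z hz => ⟨hz, hB c hc z hz⟩
  · have hpi := Real.pi_lt_d2
    have hpi0 := Real.pi_pos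
    rw [lintegral_add_left ((hLm.const_mul _).const_mul _),
      lintegral_tsum fun j => (hmm j).aemeasurable]
    have T1 : ∫⁻ c, (ENNReal.ofReal (ellk M₁ M₂ 0))⁻¹ * (ENNReal.ofReal (3 * M₁) * HL c) ≤
        volume K * ENNReal.ofReal (20 * M₂ * B / w0 ^ 2) := by
      rw [lintegral_const_mul _ (hLm.const_mul _), lintegral_const_mul _ hLm]
      have he : ellk M₁ M₂ 0 = M₁ / M₂ := by simp [ellk, lamk]
      calc (ENNReal.ofReal (ellk M₁ M₂ 0))⁻¹ * (ENNReal.ofReal (3 * M₁) * ∫⁻ c, HL c)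
          ≤ (ENNReal.ofReal (ellk M₁ M₂ 0))⁻¹ * (ENNReal.ofReal (3 * M₁) *
            (volume K * ENNReal.ofReal (2 * Real.pi * B / w0 ^ 2))) := by gcongr
        _ = volume K * (ENNReal.ofReal (ellk M₁ M₂ 0)⁻¹ *
              (ENNReal.ofReal (3 * M₁) * ENNReal.ofReal (2 * Real.pi * B / w0 ^ 2))) := by
            rw [← ENNReal.ofReal_inv_of_pos he0]
            ring
        _ = volume K * ENNReal.ofReal ((ellk M₁ M₂ 0)⁻¹ * (3 * M₁ *
              (2 * Real.pi * B / w0 ^ 2))) := by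
            rw [← ENNReal.ofReal_mul (by positivity), ← ENNReal.ofReal_mul (by positivity)]
        _ ≤ volume K * ENNReal.ofReal (20 * M₂ * B / w0 ^ 2) := by
            refine mul_le_mul_right (ENNReal.ofReal_le_ofReal ?_) _
            rw [he]
            have e : (M₁ / M₂)⁻¹ * (3 * M₁ * (2 * Real.pi * B / w0 ^ 2)) =
                6 * Real.pi * (M₂ * B / w0 ^ 2) := by
              field_simp
              ring
            have e2 : 20 * M₂ * B / w0 ^ 2 = 20 * (M₂ * B / w0 ^ 2) := by ring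
            rw [e, e2]
            have : 0 ≤ M₂ * B / w0 ^ 2 := by positivity
            nlinarith
    have T2 : ∑' j, ∫⁻ c, Hm j c ≤ volume K * ENNReal.ofReal (9300 * M₁ ^ 2 / w0 ^ 2) := by
      calc ∑' j, ∫⁻ c, Hm j c
          ≤ ∑' j : ℕ, volume K * ENNReal.ofReal (1541 * M₁ ^ 2 / w0 ^ 2 * (5 / 6) ^ j) := by
            refine ENNReal.tsum_le_tsum fun j => (hm2 j).trans (le_of_eq ?_)
            congr 2
            ring
        _ = volume K * ENNReal.ofReal (1541 * M₁ ^ 2 / w0 ^ 2 / (1 - 5 / 6)) := by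
            rw [ENNReal.tsum_mul_left, ca_geom (by positivity) (by norm_num) (by norm_num)]
        _ ≤ volume K * ENNReal.ofReal (9300 * M₁ ^ 2 / w0 ^ 2) := by
            refine mul_le_mul_right (ENNReal.ofReal_le_ofReal ?_) _
            have e : 1541 * M₁ ^ 2 / w0 ^ 2 / (1 - 5 / 6) = 9246 * (M₁ ^ 2 / w0 ^ 2) := by ring
            have e2 : 9300 * M₁ ^ 2 / w0 ^ 2 = 9300 * (M₁ ^ 2 / w0 ^ 2) := by ring
            rw [e, e2]
            have : 0 ≤ M₁ ^ 2 / w0 ^ 2 := by positivity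
            nlinarith
    refine (add_le_add T1 T2).trans (le_of_eq ?_)
    rw [← mul_add, ← ENNReal.ofReal_add (by positivity) (by positivity)]
    congr 2
    ring

end Pool.Agent.Lib.MP_95e7ec_an
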