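import Mathlib
import Pool.Agent.Lib.MP_95e7ec_an.AvgBasic
import Pool.Agent.Lib.MP_95e7ec_an.Arr
import Pool.Agent.Lib.MP_95e7ec_an.LineTV

/-!
# The integral of `argGrad` over a disc
-/

set_option autoImplicit false

open Set Filter Topology MeasureTheory
open scoped ENNReal

namespace Pool.Agent.Lib.MP_95e7ec_an

/-- the slice `x ↦ pe c x y` as a polynomial -/
noncomputable def dtvX {n : ℕ} (c : Co n) (y : ℝ) : Polynomial ℝ :=
  ∑ a : Fin (n + 1), ∑ b : Fin (n + 1), Polynomial.C (c a b * y ^ (b : ℕ)) * Polynomial.X ^ (a : ℕ)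

/-- the slice `y ↦ pe c x y` as a polynomial -/
noncomputable def dtvY {n : ℕ} (c : Co n) (x : ℝ) : Polynomial ℝ :=
  ∑ a : Fin (n + 1), ∑ b : Fin (n + 1), Polynomial.C (c a b * x ^ (a : ℕ)) * Polynomial.X ^ (b : ℕ)

theorem dtvX_natDegree {n : ℕ} (c : Co n) (y : ℝ) : (dtvX c y).natDegree ≤ n := by
  unfold dtvX
  refine Polynomial.natDegree_sum_le_of_forall_le _ _ fun a _ => ?_
  refine Polynomial.natDegree_sum_le_of_forall_le _ _ fun b _ => ?_
  exact (Polynomial.natDegree_C_mul_X_pow_le _ _).trans (by omega)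

theorem dtvY_natDegree {n : ℕ} (c : Co n) (x : ℝ) : (dtvY c x).natDegree ≤ n := by
  unfold dtvY
  refine Polynomial.natDegree_sum_le_of_forall_le _ _ fun a _ => ?_
  refine Polynomial.natDegree_sum_le_of_forall_le _ _ fun b _ => ?_
  exact (Polynomial.natDegree_C_mul_X_pow_le _ _).trans (by omega)

theorem dtvX_eval {n : ℕ} (c : Co n) (x y : ℝ) : (dtvX c y).eval x = pe c x y := by
  unfold dtvX pe
  simp only [Polynomial.eval_finsetSum, Polynomial.eval_mul, Polynomial.eval_C,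
    Polynomial.eval_pow, Polynomial.eval_X, smul_eq_mul]
  refine Finset.sum_congr rfl fun a _ => Finset.sum_congr rfl fun b _ => ?_
  ring

theorem dtvY_eval {n : ℕ} (c : Co n) (x y : ℝ) : (dtvY c x).eval y = pe c x y := by
  unfold dtvY pe
  simp only [Polynomial.eval_finsetSum, Polynomial.eval_mul, Polynomial.eval_C,
    Polynomial.eval_pow, Polynomial.eval_X, smul_eq_mul]
  refine Finset.sum_congr rfl fun a _ => Finset.sum_congr rfl fun b _ => ?_
  ring

theorem dtvX_deriv {n : ℕ} (c : Co n) (x y : ℝ) :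
    (Polynomial.derivative (dtvX c y)).eval x = pex c x y := by
  unfold dtvX pex
  simp only [Polynomial.derivative_sum, Polynomial.derivative_C_mul_X_pow,
    Polynomial.eval_finsetSum, Polynomial.eval_mul, Polynomial.eval_C,
    Polynomial.eval_pow, Polynomial.eval_X, smul_eq_mul]
  refine Finset.sum_congr rfl fun a _ => Finset.sum_congr rfl fun b _ => ?_
  ring

theorem dtvY_deriv {n : ℕ} (c : Co n) (x y : ℝ) :
    (Polynomial.derivative (dtvY c x)).eval y = pey c x y := by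
  unfold dtvY pey
  simp only [Polynomial.derivative_sum, Polynomial.derivative_C_mul_X_pow,
    Polynomial.eval_finsetSum, Polynomial.eval_mul, Polynomial.eval_C,
    Polynomial.eval_pow, Polynomial.eval_X, smul_eq_mul]
  refine Finset.sum_congr rfl fun a _ => Finset.sum_congr rfl fun b _ => ?_
  ring

/-- the `x` part of `argGrad` -/
noncomputable def dtvGx {n : ℕ} (μ : Pr n) (z : ℝ × ℝ) : ℝ :=
  |pe μ.1 z.1 z.2 * pex μ.2 z.1 z.2 - pe μ.2 z.1 z.2 * pex μ.1 z.1 z.2| /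
    (pe μ.1 z.1 z.2 ^ 2 + pe μ.2 z.1 z.2 ^ 2)

/-- the `y` part of `argGrad` -/
noncomputable def dtvGy {n : ℕ} (μ : Pr n) (z : ℝ × ℝ) : ℝ :=
  |pe μ.1 z.1 z.2 * pey μ.2 z.1 z.2 - pe μ.2 z.1 z.2 * pey μ.1 z.1 z.2| /
    (pe μ.1 z.1 z.2 ^ 2 + pe μ.2 z.1 z.2 ^ 2)

theorem dtvGx_nonneg {n : ℕ} (μ : Pr n) (z : ℝ × ℝ) : 0 ≤ dtvGx μ z := by
  unfold dtvGx; positivity

theorem dtvGy_nonneg {n : ℕ} (μ : Pr n) (z : ℝ × ℝ) : 0 ≤ dtvGy μ z := by
  unfold dtvGy; positivity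

theorem measurable_dtvGx {n : ℕ} (μ : Pr n) : Measurable (dtvGx μ) := by
  have h1 := (avb_continuous_pe μ.1).measurable
  have h2 := (avb_continuous_pe μ.2).measurable
  have h3 := (avb_continuous_pex μ.1).measurable
  have h4 := (avb_continuous_pex μ.2).measurable
  unfold dtvGx
  exact ((h1.mul h4).sub (h2.mul h3)).abs.div ((h1.pow_const 2).add (h2.pow_const 2))

theorem measurable_dtvGy {n : ℕ} (μ : Pr n) : Measurable (dtvGy μ) := by
  have h1 := (avb_continuous_pe μ.1).measurable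
  have h2 := (avb_continuous_pe μ.2).measurable
  have h3 := (avb_continuous_pey μ.1).measurable
  have h4 := (avb_continuous_pey μ.2).measurable
  unfold dtvGy
  exact ((h1.mul h4).sub (h2.mul h3)).abs.div ((h1.pow_const 2).add (h2.pow_const 2))

theorem argGrad_eq_dtv {n : ℕ} (μ : Pr n) (z : ℝ × ℝ) : argGrad μ z = dtvGx μ z + dtvGy μ z := by
  unfold argGrad dtvGx dtvGy
  rw [add_div]

theorem lintegral_dtvGx_slice {n : ℕ} (μ : Pr n) (y : ℝ) :
    ∫⁻ x : ℝ, ENNReal.ofReal (dtvGx μ (x, y)) ≤ ENNReal.ofReal (n * Real.pi) := by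
  have e : ∀ x : ℝ, dtvGx μ (x, y) = |(dtvX μ.1 y).eval x *
      (Polynomial.derivative (dtvX μ.2 y)).eval x - (dtvX μ.2 y).eval x *
      (Polynomial.derivative (dtvX μ.1 y)).eval x| /
      ((dtvX μ.1 y).eval x ^ 2 + (dtvX μ.2 y).eval x ^ 2) := by
    intro x
    rw [dtvX_eval, dtvX_eval, dtvX_deriv, dtvX_deriv]
    rfl
  by_cases h : dtvX μ.1 y ≠ 0 ∨ dtvX μ.2 y ≠ 0
  · simp only [e]
    exact lintegral_line _ _ (dtvX_natDegree _ _) (dtvX_natDegree _ _) h
  · push Not at h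
    have : ∀ x : ℝ, ENNReal.ofReal (dtvGx μ (x, y)) = 0 := by
      intro x
      rw [e, h.1, h.2]
      simp
    simp [this]

theorem lintegral_dtvGy_slice {n : ℕ} (μ : Pr n) (x : ℝ) :
    ∫⁻ y : ℝ, ENNReal.ofReal (dtvGy μ (x, y)) ≤ ENNReal.ofReal (n * Real.pi) := by
  have e : ∀ y : ℝ, dtvGy μ (x, y) = |(dtvY μ.1 x).eval y *
      (Polynomial.derivative (dtvY μ.2 x)).eval y - (dtvY μ.2 x).eval y *
      (Polynomial.derivative (dtvY μ.1 x)).eval y| /
      ((dtvY μ.1 x).eval y ^ 2 + (dtvY μ.2 x).eval y ^ 2) := by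
    intro y
    rw [dtvY_eval, dtvY_eval, dtvY_deriv, dtvY_deriv]
    rfl
  by_cases h : dtvY μ.1 x ≠ 0 ∨ dtvY μ.2 x ≠ 0
  · simp only [e]
    exact lintegral_line _ _ (dtvY_natDegree _ _) (dtvY_natDegree _ _) h
  · push Not at h
    have : ∀ y : ℝ, ENNReal.ofReal (dtvGy μ (x, y)) = 0 := by
      intro y
      rw [e, h.1, h.2]
      simp
    simp [this]

theorem lintegral_disc_dtv {n : ℕ} (μ : Pr n) {R : ℝ} (hR : 0 < R) :
    ∫⁻ z in {z : ℝ × ℝ | z.1 ^ 2 + z.2 ^ 2 < R ^ 2}, ENNReal.ofReal (argGrad μ z)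
      ≤ ENNReal.ofReal (4 * Real.pi * n * R) := by
  have hmx : Measurable fun z : ℝ × ℝ => ENNReal.ofReal (dtvGx μ z) :=
    ENNReal.measurable_ofReal.comp (measurable_dtvGx μ)
  have hmy : Measurable fun z : ℝ × ℝ => ENNReal.ofReal (dtvGy μ z) :=
    ENNReal.measurable_ofReal.comp (measurable_dtvGy μ)
  have hconst : ENNReal.ofReal (n * Real.pi) * volume (Ioo (-R) R) =
      ENNReal.ofReal (2 * Real.pi * n * R) := by
    rw [Real.volume_Ioo, ← ENNReal.ofReal_mul (by positivity)]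
    congr 1
    ring
  have hx : ∫⁻ z in {z : ℝ × ℝ | z.1 ^ 2 + z.2 ^ 2 < R ^ 2}, ENNReal.ofReal (dtvGx μ z) ≤
      ENNReal.ofReal (2 * Real.pi * n * R) := by
    have hsub : {z : ℝ × ℝ | z.1 ^ 2 + z.2 ^ 2 < R ^ 2} ⊆ (univ : Set ℝ) ×ˢ Ioo (-R) R := by
      intro z hz
      have hz' : z.1 ^ 2 + z.2 ^ 2 < R ^ 2 := hz
      refine ⟨mem_univ _, ?_⟩
      have : |z.2| < R := by
        apply abs_lt_of_sq_lt_sq _ hR.le
        nlinarith [sq_nonneg z.1]
      exact abs_lt.1 this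
    refine (lintegral_mono_set hsub).trans ?_
    rw [Measure.volume_eq_prod, ← Measure.prod_restrict, lintegral_prod_symm' _ hmx,
      Measure.restrict_univ, ← hconst, ← setLIntegral_const]
    exact lintegral_mono fun y => lintegral_dtvGx_slice μ y
  have hy : ∫⁻ z in {z : ℝ × ℝ | z.1 ^ 2 + z.2 ^ 2 < R ^ 2}, ENNReal.ofReal (dtvGy μ z) ≤
      ENNReal.ofReal (2 * Real.pi * n * R) := by
    have hsub : {z : ℝ × ℝ | z.1 ^ 2 + z.2 ^ 2 < R ^ 2} ⊆ Ioo (-R) R ×ˢ (univ : Set ℝ) := by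
      intro z hz
      have hz' : z.1 ^ 2 + z.2 ^ 2 < R ^ 2 := hz
      refine ⟨?_, mem_univ _⟩
      have : |z.1| < R := by
        apply abs_lt_of_sq_lt_sq _ hR.le
        nlinarith [sq_nonneg z.2]
      exact abs_lt.1 this
    refine (lintegral_mono_set hsub).trans ?_
    rw [Measure.volume_eq_prod, ← Measure.prod_restrict, lintegral_prod _ hmy.aemeasurable,
      Measure.restrict_univ, ← hconst, ← setLIntegral_const]
    exact lintegral_mono fun x => lintegral_dtvGy_slice μ x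
  have hsplit : ∀ z, ENNReal.ofReal (argGrad μ z) =
      ENNReal.ofReal (dtvGx μ z) + ENNReal.ofReal (dtvGy μ z) := by
    intro z
    rw [argGrad_eq_dtv, ENNReal.ofReal_add (dtvGx_nonneg μ z) (dtvGy_nonneg μ z)]
  simp only [hsplit]
  rw [lintegral_add_left hmx]
  refine (add_le_add hx hy).trans ?_
  rw [← ENNReal.ofReal_add (by positivity) (by positivity)]
  apply ENNReal.ofReal_le_ofReal
  linarith

theorem lintegral_disc {n : ℕ} (P Q : MvPolynomial (Fin 2) ℝ) (hP : P.totalDegree ≤ n)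
    (hQ : Q.totalDegree ≤ n) {R : ℝ} (hR : 0 < R) :
    ∫⁻ z in {z : ℝ × ℝ | z.1 ^ 2 + z.2 ^ 2 < R ^ 2}, ENNReal.ofReal (argGrad (arr n P, arr n Q) z)
      ≤ ENNReal.ofReal (4 * Real.pi * n * R) := by
  have _ := hP
  have _ := hQ
  exact lintegral_disc_dtv _ hR

end Pool.Agent.Lib.MP_95e7ec_an
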