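import Mathlib
import Pool.Agent.Lib.MP_95e7ec_an.Defs
import Pool.Agent.Lib.MP_95e7ec_an.Realise
import Pool.Agent.Lib.MP_95e7ec_an.Affine
import Pool.Agent.Lib.MP_95e7ec_an.Arr

/-!
# Robust realisation for polynomials, suprema, and normal forms of the leading coefficient
-/

set_option autoImplicit false

open Set Filter Topology

namespace Pool.Agent.Lib.MP_95e7ec_an

/-- at least `N` limit cycles of `vfc μ` in the ball of radius `R` -/
def Has {D : ℕ} (μ : Pr D) (R : ℝ) (N : ℕ) : Prop :=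
  ∃ F' : Finset (Set (ℝ × ℝ)), N ≤ F'.card ∧
    ∀ C ∈ F', IsLimitCycle (vfc μ) C ∧ C ⊆ Metric.ball 0 R

theorem vf_eq_vfc {D : ℕ} {P Q : MvPolynomial (Fin 2) ℝ} (hP : P.totalDegree ≤ D)
    (hQ : Q.totalDegree ≤ D) : vf P Q = vfc (arr D P, arr D Q) := by
  funext z
  simp only [vf, vfc, eval_eq_pe P hP, eval_eq_pe Q hQ]

theorem arr_add {D : ℕ} (P Q : MvPolynomial (Fin 2) ℝ) : arr D (P + Q) = arr D P + arr D Q := by
  funext a b; simp [arr]

theorem arr_sub {D : ℕ} (P Q : MvPolynomial (Fin 2) ℝ) : arr D (P - Q) = arr D P - arr D Q := by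
  funext a b; simp [arr]

theorem arr_C_mul {D : ℕ} (c : ℝ) (Q : MvPolynomial (Fin 2) ℝ) :
    arr D (MvPolynomial.C c * Q) = c • arr D Q := by
  funext a b; simp [arr, MvPolynomial.coeff_C_mul]

theorem robust_poly {D : ℕ} {P Q : MvPolynomial (Fin 2) ℝ} (hP : P.totalDegree ≤ D)
    (hQ : Q.totalDegree ≤ D) (F : Finset (Set (ℝ × ℝ)))
    (hF : ∀ C ∈ F, IsLimitCycle (vf P Q) C) :
    ∃ (s R : ℝ), ∀ᶠ θ in 𝓝[>] (0 : ℝ),
      ∀ᶠ μ in 𝓝 ((arr D (P - MvPolynomial.C (s * θ) * Q),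
        arr D (Q + MvPolynomial.C (s * θ) * P)) : Pr D), Has μ R F.card := by
  rw [vf_eq_vfc hP hQ] at hF
  obtain ⟨s, R, -, h⟩ := robust _ F hF
  refine ⟨s, R, ?_⟩
  filter_upwards [h] with θ hθ
  have h1 : ((arr D (P - MvPolynomial.C (s * θ) * Q),
        arr D (Q + MvPolynomial.C (s * θ) * P)) : Pr D) =
      (arr D P, arr D Q) + (s * θ) • rot (arr D P, arr D Q) := by
    rw [arr_sub, arr_add, arr_C_mul, arr_C_mul]
    simp only [rot, Prod.smul_mk, Prod.mk_add_mk, smul_neg]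
    rw [sub_eq_add_neg]
  rw [h1]
  exact hθ

theorem exists_finset_of_le_encard {S : Set (Set (ℝ × ℝ))} {N : ℕ} (h : (N : ℕ∞) ≤ S.encard) :
    ∃ F : Finset (Set (ℝ × ℝ)), F.card = N ∧ ∀ C ∈ F, C ∈ S := by
  obtain ⟨t, hts, ht⟩ := Set.exists_subset_encard_eq h
  have hfin : t.Finite := Set.finite_of_encard_eq_coe ht
  refine ⟨hfin.toFinset, ?_, fun C hC => hts (hfin.mem_toFinset.1 hC)⟩
  have h1 := hfin.encard_eq_coe_toFinset_card
  rw [h1] at ht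
  exact_mod_cast ht

theorem exists_of_le_hilbert {n N : ℕ} (h : (N : ℕ∞) ≤ hilbertNumber n) :
    ∃ P Q : MvPolynomial (Fin 2) ℝ, P.totalDegree ≤ n ∧ Q.totalDegree ≤ n ∧
      ∃ F : Finset (Set (ℝ × ℝ)), F.card = N ∧ ∀ C ∈ F, IsLimitCycle (vf P Q) C := by
  rcases Nat.eq_zero_or_pos N with rfl | hN
  · exact ⟨0, 0, by simp, by simp, ∅, rfl, by simp⟩
  obtain ⟨k, rfl⟩ : ∃ k, N = k + 1 := ⟨N - 1, by omega⟩
  have h1 : (k : ℕ∞) < hilbertNumber n :=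
    lt_of_lt_of_le (by exact_mod_cast Nat.lt_succ_self k) h
  unfold hilbertNumber at h1
  simp only [lt_iSup_iff] at h1
  obtain ⟨P, Q, hP, hQ, h2⟩ := h1
  have h3 : ((k + 1 : ℕ) : ℕ∞) ≤ {C | IsLimitCycle (vf P Q) C}.encard := by
    push_cast
    exact Order.add_one_le_of_lt h2
  obtain ⟨F, hF, hF'⟩ := exists_finset_of_le_encard h3
  exact ⟨P, Q, hP, hQ, F, hF, hF'⟩

theorem le_hilbert {n : ℕ} {P Q : MvPolynomial (Fin 2) ℝ} (hP : P.totalDegree ≤ n)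
    (hQ : Q.totalDegree ≤ n) (F : Finset (Set (ℝ × ℝ)))
    (hF : ∀ C ∈ F, IsLimitCycle (vf P Q) C) : (F.card : ℕ∞) ≤ hilbertNumber n := by
  have h1 : (F.card : ℕ∞) ≤ {C | IsLimitCycle (vf P Q) C}.encard := by
    rw [← Set.encard_coe_eq_coe_finsetCard]
    exact Set.encard_le_encard fun C hC => hF C hC
  refine h1.trans ?_
  unfold hilbertNumber
  exact le_iSup_of_le P (le_iSup_of_le Q (le_iSup_of_le hP (le_iSup_of_le hQ le_rfl)))

end Pool.Agent.Lib.MP_95e7ec_an
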