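import Mathlib
import Pool.Agent.Lib.MP_95e7ec_an.Glue1

/-!
# Normal form of the leading coefficient
-/

set_option autoImplicit false

open Set Filter Topology

namespace Pool.Agent.Lib.MP_95e7ec_an

section degrees
variable {P Q : MvPolynomial (Fin 2) ℝ} {n a b : ℕ}

theorem deg_add (hP : P.totalDegree ≤ n) (hQ : Q.totalDegree ≤ n) : (P + Q).totalDegree ≤ n :=
  (MvPolynomial.totalDegree_add _ _).trans (max_le hP hQ)

theorem deg_sub (hP : P.totalDegree ≤ n) (hQ : Q.totalDegree ≤ n) : (P - Q).totalDegree ≤ n :=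
  (MvPolynomial.totalDegree_sub _ _).trans (max_le hP hQ)

theorem deg_mul (hP : P.totalDegree ≤ a) (hQ : Q.totalDegree ≤ b) (h : a + b ≤ n) :
    (P * Q).totalDegree ≤ n :=
  (MvPolynomial.totalDegree_mul _ _).trans ((Nat.add_le_add hP hQ).trans h)

theorem deg_C_mul (c : ℝ) (hP : P.totalDegree ≤ n) : (MvPolynomial.C c * P).totalDegree ≤ n :=
  deg_mul (a := 0) (by simp) hP (by simp)

theorem deg_pow (hP : P.totalDegree ≤ 1) (k : ℕ) : (P ^ k).totalDegree ≤ k :=
  (MvPolynomial.totalDegree_pow _ _).trans (by nlinarith)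

theorem deg_C (c : ℝ) : (MvPolynomial.C c : MvPolynomial (Fin 2) ℝ).totalDegree ≤ n := by simp

theorem deg_X (i : Fin 2) : (MvPolynomial.X i : MvPolynomial (Fin 2) ℝ).totalDegree ≤ 1 := by
  simp

end degrees

/-- composition with the linear map `(x,y) ↦ (x + β y, γ y)` -/
noncomputable def lin (P : MvPolynomial (Fin 2) ℝ) (β γ : ℝ) : MvPolynomial (Fin 2) ℝ :=
  ∑ d ∈ P.support, MvPolynomial.C (P.coeff d) *
    ((MvPolynomial.X 0 + MvPolynomial.C β * MvPolynomial.X 1) ^ (d 0) *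
      (MvPolynomial.C γ * MvPolynomial.X 1) ^ (d 1))

theorem eval_lin (P : MvPolynomial (Fin 2) ℝ) (β γ x y : ℝ) :
    MvPolynomial.eval ![x, y] (lin P β γ) = MvPolynomial.eval ![x + β * y, γ * y] P := by
  rw [MvPolynomial.eval_eq' ![x + β * y, γ * y] P, lin, map_sum]
  refine Finset.sum_congr rfl fun d _ => ?_
  simp [Fin.prod_univ_two]

theorem deg_lin {P : MvPolynomial (Fin 2) ℝ} {n : ℕ} (hP : P.totalDegree ≤ n) (β γ : ℝ) :
    (lin P β γ).totalDegree ≤ n := by
  refine MvPolynomial.totalDegree_finsetSum_le fun d hd => deg_C_mul _ ?_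
  have h1 := (MvPolynomial.le_totalDegree hd).trans hP
  have hsum : (d.sum fun _ e => e) = d 0 + d 1 := by
    rw [Finsupp.sum_fintype _ _ (fun _ => rfl)]
    simp [Fin.sum_univ_two]
  rw [hsum] at h1
  exact deg_mul (deg_pow (deg_add (deg_X 0) (deg_C_mul _ (deg_X 1))) _)
    (deg_pow (deg_C_mul _ (deg_X 1)) _) h1

/-- the coefficient of `x ^ n` -/
noncomputable def lead (n : ℕ) (P : MvPolynomial (Fin 2) ℝ) : ℝ :=
  P.coeff (Finsupp.single 0 n)

theorem lead_add (n : ℕ) (P Q : MvPolynomial (Fin 2) ℝ) : lead n (P + Q) = lead n P + lead n Q := by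
  simp [lead]

theorem lead_sub (n : ℕ) (P Q : MvPolynomial (Fin 2) ℝ) : lead n (P - Q) = lead n P - lead n Q := by
  simp [lead]

theorem lead_C_mul (n : ℕ) (c : ℝ) (P : MvPolynomial (Fin 2) ℝ) :
    lead n (MvPolynomial.C c * P) = c * lead n P := by
  simp [lead, MvPolynomial.coeff_C_mul]

theorem lead_X_pow (n : ℕ) : lead n (MvPolynomial.X 0 ^ n) = 1 := by
  simp [lead, MvPolynomial.coeff_X_pow]

theorem eval_x_zero {P : MvPolynomial (Fin 2) ℝ} {n : ℕ} (hP : P.totalDegree ≤ n) (x : ℝ) :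
    MvPolynomial.eval ![x, 0] P =
      (∑ a : Fin (n + 1), Polynomial.C (P.coeff (Finsupp.single 0 (a : ℕ))) *
        Polynomial.X ^ (a : ℕ)).eval x := by
  rw [eval_eq_pe P hP, pe, Polynomial.eval_finsetSum]
  refine Finset.sum_congr rfl fun a _ => ?_
  rw [Finset.sum_eq_single 0]
  · simp [arr]
  · intro b _ hb
    have : (b : ℕ) ≠ 0 := fun h => hb (Fin.ext h)
    simp [this]
  · simp

theorem lead_lin {P : MvPolynomial (Fin 2) ℝ} {n : ℕ} (hP : P.totalDegree ≤ n) (β γ : ℝ) :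
    lead n (lin P β γ) = lead n P := by
  have h1 : (∑ a : Fin (n + 1), Polynomial.C ((lin P β γ).coeff (Finsupp.single 0 (a : ℕ))) *
        Polynomial.X ^ (a : ℕ)) = ∑ a : Fin (n + 1), Polynomial.C (P.coeff
          (Finsupp.single 0 (a : ℕ))) * Polynomial.X ^ (a : ℕ) := by
    apply Polynomial.funext
    intro x
    rw [← eval_x_zero hP, ← eval_x_zero (deg_lin hP β γ), eval_lin]
    simp
  have h2 := congrArg (fun p : Polynomial ℝ => p.coeff n) h1
  simp only [Polynomial.finsetSum_coeff, Polynomial.coeff_C_mul, Polynomial.coeff_X_pow] at h2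
  rw [Finset.sum_eq_single (Fin.last n), Finset.sum_eq_single (Fin.last n)] at h2
  · simpa [lead] using h2
  · intro a _ ha
    have : ¬ n = (a : ℕ) := fun h => ha (Fin.ext h.symm)
    simp [this]
  · simp
  · intro a _ ha
    have : ¬ n = (a : ℕ) := fun h => ha (Fin.ext h.symm)
    simp [this]
  · simp

/-- transport of a finite set of limit cycles -/
theorem transport {v w : ℝ × ℝ → ℝ × ℝ} (F : Finset (Set (ℝ × ℝ)))
    (hF : ∀ C ∈ F, IsLimitCycle w C) (a : ℝ × ℝ) (L : (ℝ × ℝ) ≃L[ℝ] (ℝ × ℝ)) (κ : ℝ) (hκ : 0 < κ)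
    (h : w = fun y => κ • L.symm (v (a + L y))) :
    ∃ F' : Finset (Set (ℝ × ℝ)), F'.card = F.card ∧
      ∀ C' ∈ F', IsLimitCycle v C' ∧ ∃ C ∈ F, C' = (fun y => a + L y) '' C := by
  classical
  have hinj : Function.Injective fun y => a + L y := fun x y hxy =>
    L.injective (add_left_cancel hxy)
  refine ⟨F.image (fun C => (fun y => a + L y) '' C),
    Finset.card_image_of_injective _ hinj.image_injective, fun C' hC' => ?_⟩
  obtain ⟨C, hC, rfl⟩ := Finset.mem_image.1 hC'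
  refine ⟨IsLimitCycle.affine a L κ hκ ?_, C, hC, rfl⟩
  rw [← h]
  exact hF C hC

/-- the linear map `(x,y) ↦ (x + β y, γ y)` -/
noncomputable def shear (β γ : ℝ) (hγ : γ ≠ 0) : (ℝ × ℝ) ≃L[ℝ] (ℝ × ℝ) :=
  LinearEquiv.toContinuousLinearEquiv
    { toFun := fun v => (v.1 + β * v.2, γ * v.2)
      map_add' := by
        intro v w
        simp only [Prod.fst_add, Prod.snd_add, Prod.mk_add_mk, Prod.mk.injEq]
        constructor <;> ring
      map_smul' := by
        intro c v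
        simp only [Prod.smul_fst, Prod.smul_snd, smul_eq_mul, RingHom.id_apply, Prod.smul_mk,
          Prod.mk.injEq]
        constructor <;> ring
      invFun := fun v => (v.1 - β * (γ⁻¹ * v.2), γ⁻¹ * v.2)
      left_inv := by
        intro v
        apply Prod.ext
        · simp only; field_simp; ring
        · simp only; field_simp
      right_inv := by
        intro v
        apply Prod.ext
        · simp only; ring
        · simp only; field_simp }

theorem shear_apply (β γ : ℝ) (hγ : γ ≠ 0) (v : ℝ × ℝ) :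
    shear β γ hγ v = (v.1 + β * v.2, γ * v.2) := rfl

theorem shear_symm_apply (β γ : ℝ) (hγ : γ ≠ 0) (v : ℝ × ℝ) :
    (shear β γ hγ).symm v = (v.1 - β * (γ⁻¹ * v.2), γ⁻¹ * v.2) := rfl

theorem tendsto_arr_add {D : ℕ} (P Q R S : MvPolynomial (Fin 2) ℝ) :
    Continuous fun e : ℝ × ℝ => ((arr D (P + MvPolynomial.C e.1 * R),
      arr D (Q + MvPolynomial.C e.2 * S)) : Pr D) := by
  have h : ∀ (P R : MvPolynomial (Fin 2) ℝ), Continuous fun η : ℝ =>
      (arr D (P + MvPolynomial.C η * R) : Co D) := fun P R => by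
    simp only [arr_add, arr_C_mul]
    fun_prop
  exact ((h P R).comp continuous_fst).prodMk ((h Q S).comp continuous_snd)

theorem exists_norm {n D N : ℕ} (hnD : n ≤ D) (h : (N : ℕ∞) ≤ hilbertNumber n) (p q : ℝ)
    (hq : q ≠ 0) (ε : ℝ) (hε : 0 < ε) :
    ∃ P Q : MvPolynomial (Fin 2) ℝ, P.totalDegree ≤ n ∧ Q.totalDegree ≤ n ∧
      |lead n P - p| < ε ∧ |lead n Q - q| < ε ∧
      ∃ R : ℝ, ∀ᶠ μ in 𝓝 ((arr D P, arr D Q) : Pr D), Has μ R N := by
  obtain ⟨P, Q, hP, hQ, F, hFc, hF⟩ := exists_of_le_hilbert h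
  obtain ⟨s, R, hR⟩ := robust_poly hP hQ F hF
  obtain ⟨θ, hθ⟩ := hR.exists
  set P' := P - MvPolynomial.C (s * θ) * Q with hP'
  set Q' := Q + MvPolynomial.C (s * θ) * P with hQ'
  have hPd : P'.totalDegree ≤ n := deg_sub hP (deg_C_mul _ hQ)
  have hQd : Q'.totalDegree ≤ n := deg_add hQ (deg_C_mul _ hP)
  -- perturb the leading coefficient
  have hη : ∀ᶠ η in 𝓝[>] (0 : ℝ), Has (((arr n P', arr n (Q' + MvPolynomial.C η *
      MvPolynomial.X 0 ^ n)) : Pr n)) R F.card := by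
    have h1 : Continuous fun η : ℝ => ((arr n P', arr n (Q' + MvPolynomial.C η *
      MvPolynomial.X 0 ^ n)) : Pr n) := by
      simp only [arr_add, arr_C_mul]
      fun_prop
    have h2 := h1.tendsto 0
    simp only [map_zero, zero_mul, add_zero] at h2
    exact (h2.mono_left nhdsWithin_le_nhds).eventually hθ
  have hη2 : ∀ᶠ η in 𝓝[>] (0 : ℝ), η ≠ - lead n Q' := by
    rcases le_or_gt (- lead n Q') 0 with hc | hc
    · filter_upwards [self_mem_nhdsWithin] with η hη
      exact (lt_of_le_of_lt hc hη).ne'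
    · exact (eventually_ne_nhds hc.ne).filter_mono nhdsWithin_le_nhds
  obtain ⟨η, hη, hη2⟩ := (hη.and hη2).exists
  set Q2 := Q' + MvPolynomial.C η * MvPolynomial.X 0 ^ n with hQ2
  have hQ2d : Q2.totalDegree ≤ n := deg_add hQd (deg_C_mul _ (deg_pow (deg_X 0) _))
  have hb : lead n Q2 ≠ 0 := by
    rw [hQ2, lead_add, lead_C_mul, lead_X_pow, mul_one]
    intro h0
    exact hη2 (by linarith)
  obtain ⟨F2, hF2c, hF2⟩ := hη
  rw [← vf_eq_vfc hPd hQ2d] at hF2
  -- conjugate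
  set b := lead n Q2 with hbdef
  set a := lead n P' with hadef
  set γ := b / q with hγdef
  set β := (a - p) / q with hβdef
  have hγ : γ ≠ 0 := div_ne_zero hb hq
  set P3 := lin P' β γ - MvPolynomial.C (β * γ⁻¹) * lin Q2 β γ with hP3
  set Q3 := MvPolynomial.C γ⁻¹ * lin Q2 β γ with hQ3
  have hP3d : P3.totalDegree ≤ n := deg_sub (deg_lin hPd β γ) (deg_C_mul _ (deg_lin hQ2d β γ))
  have hQ3d : Q3.totalDegree ≤ n := deg_C_mul _ (deg_lin hQ2d β γ)
  have hP3l : lead n P3 = p := by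
    rw [hP3, lead_sub, lead_C_mul, lead_lin hPd, lead_lin hQ2d, ← hadef, ← hbdef, hγdef, hβdef]
    field_simp
    ring
  have hQ3l : lead n Q3 = q := by
    rw [hQ3, lead_C_mul, lead_lin hQ2d, ← hbdef, hγdef]
    field_simp
  obtain ⟨F3, hF3c, hF3⟩ := transport (v := vf P3 Q3) (w := vf P' Q2) F2
    (fun C hC => (hF2 C hC).1) 0 (shear β γ hγ).symm 1 one_pos (by
      funext y
      rw [one_smul, zero_add, ContinuousLinearEquiv.symm_symm, shear_symm_apply, shear_apply]
      simp only [vf, hP3, hQ3, map_sub, map_mul, eval_lin, MvPolynomial.eval_C]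
      have e1 : y.1 - β * (γ⁻¹ * y.2) + β * (γ⁻¹ * y.2) = y.1 := by ring
      have e2 : γ * (γ⁻¹ * y.2) = y.2 := by field_simp
      rw [e1, e2]
      apply Prod.ext
      · simp only; ring
      · simp only; field_simp)
  -- robust again
  obtain ⟨s2, R2, hR2⟩ := robust_poly (hP3d.trans hnD) (hQ3d.trans hnD) F3
    (fun C hC => (hF3 C hC).1)
  have hN : N ≤ F3.card := by rw [hF3c, ← hFc]; exact hF2c
  have hc1 : Tendsto (fun θ : ℝ => |p - s2 * θ * q - p|) (𝓝[>] 0) (𝓝 0) := by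
    have : Continuous (fun θ : ℝ => |p - s2 * θ * q - p|) := by fun_prop
    have h2 := this.tendsto 0
    simp only [mul_zero, zero_mul, sub_zero, sub_self, abs_zero] at h2
    exact h2.mono_left nhdsWithin_le_nhds
  have hc2 : Tendsto (fun θ : ℝ => |q + s2 * θ * p - q|) (𝓝[>] 0) (𝓝 0) := by
    have : Continuous (fun θ : ℝ => |q + s2 * θ * p - q|) := by fun_prop
    have h2 := this.tendsto 0
    simp only [mul_zero, zero_mul, add_zero, sub_self, abs_zero] at h2
    exact h2.mono_left nhdsWithin_le_nhds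
  obtain ⟨θ2, ⟨hθ2, h3⟩, h4⟩ := ((hR2.and (hc1.eventually (gt_mem_nhds hε))).and
    (hc2.eventually (gt_mem_nhds hε))).exists
  refine ⟨P3 - MvPolynomial.C (s2 * θ2) * Q3, Q3 + MvPolynomial.C (s2 * θ2) * P3,
    deg_sub hP3d (deg_C_mul _ hQ3d), deg_add hQ3d (deg_C_mul _ hP3d), ?_, ?_, R2, ?_⟩
  · rw [lead_sub, lead_C_mul, hP3l, hQ3l]; exact h3
  · rw [lead_add, hQ3l, lead_C_mul, hP3l]; exact h4
  · filter_upwards [hθ2] with μ hμ
    obtain ⟨F4, hF4c, hF4⟩ := hμ
    exact ⟨F4, hN.trans hF4c, hF4⟩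

end Pool.Agent.Lib.MP_95e7ec_an
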