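import Mathlib
import Pool.Agent.Lib.MP_95e7ec_an.Glue2

/-!
# Gluing at infinity
-/

set_option autoImplicit false

open Set Filter Topology

namespace Pool.Agent.Lib.MP_95e7ec_an

open MvPolynomial in
/-- the exponents `(i,j)` with `j < m`, `i + j ≤ n + m` -/
def TT (n m : ℕ) : Finset (ℕ × ℕ) :=
  ((Finset.range (n + m + 1)) ×ˢ (Finset.range m)).filter fun q => q.1 + q.2 ≤ n + m

theorem mem_TT {n m : ℕ} {q : ℕ × ℕ} : q ∈ TT n m ↔ q.2 < m ∧ q.1 + q.2 ≤ n + m := by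
  simp only [TT, Finset.mem_filter, Finset.mem_product, Finset.mem_range]
  constructor
  · rintro ⟨⟨-, h⟩, h'⟩; exact ⟨h, h'⟩
  · rintro ⟨h, h'⟩; exact ⟨⟨by omega, h⟩, h'⟩

open MvPolynomial in
/-- the polynomial `∑ g_{ij} x^i y^j + a y^m` -/
noncomputable def TP (n m : ℕ) (g : ℕ × ℕ → ℝ) (a : ℝ) : MvPolynomial (Fin 2) ℝ :=
  ∑ q ∈ TT n m, C (g q) * (X 0 ^ q.1 * X 1 ^ q.2) + C a * X 1 ^ m

/-- the exponent of `ε` -/
def EE (n m : ℕ) (q : ℕ × ℕ) : ℕ := (n + 1) * (q.1 + (n + 1 - q.1) - n) + m - (q.1 + q.2)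

theorem EE_pos {n m : ℕ} {q : ℕ × ℕ} (hq : q ∈ TT n m) : EE n m q ≠ 0 := by
  rw [mem_TT] at hq
  unfold EE
  have h1 : 1 ≤ q.1 + (n + 1 - q.1) - n := by omega
  have h2 : (n + 1) * 1 ≤ (n + 1) * (q.1 + (n + 1 - q.1) - n) := Nat.mul_le_mul_left _ h1
  omega

theorem EE_add {n m : ℕ} {q : ℕ × ℕ} (hq : q ∈ TT n m) :
    EE n m q + (q.1 + q.2) = (n + 1) * (q.1 + (n + 1 - q.1) - n) + m := by
  rw [mem_TT] at hq
  unfold EE
  have h1 : 1 ≤ q.1 + (n + 1 - q.1) - n := by omega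
  have h2 : (n + 1) * 1 ≤ (n + 1) * (q.1 + (n + 1 - q.1) - n) := Nat.mul_le_mul_left _ h1
  omega

open MvPolynomial in
/-- the global family -/
noncomputable def Wf (n m : ℕ) (P : MvPolynomial (Fin 2) ℝ) (g : ℕ × ℕ → ℝ) (ε : ℝ) :
    MvPolynomial (Fin 2) ℝ :=
  (1 - C (ε ^ (n + 1)) * X 0) ^ m * P + ∑ q ∈ TT n m, C (g q * ε ^ EE n m q) *
    (X 1 ^ q.1 * X 0 ^ (n + 1 - q.1) * (C (ε ^ (n + 1)) * X 0 - 1) ^ q.2)

open MvPolynomial in
/-- the rescaled family -/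
noncomputable def Lf (n m : ℕ) (P : MvPolynomial (Fin 2) ℝ) (g : ℕ × ℕ → ℝ) (ε : ℝ) :
    MvPolynomial (Fin 2) ℝ :=
  (-X 1) ^ m * (∑ a : Fin (n + 1), ∑ b : Fin (n + 1),
    C (arr n P a b * (ε ^ (n + 1)) ^ (n - a - b)) *
      ((1 + C ε * X 1) ^ (a : ℕ) * (C ε * X 0) ^ (b : ℕ))) +
  ∑ q ∈ TT n m, C (g q) * (X 0 ^ q.1 * (1 + C ε * X 1) ^ (n + 1 - q.1) * X 1 ^ q.2)

theorem deg_Wf {n m : ℕ} {P : MvPolynomial (Fin 2) ℝ} (hP : P.totalDegree ≤ n)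
    (g : ℕ × ℕ → ℝ) (ε : ℝ) : (Wf n m P g ε).totalDegree ≤ n + m := by
  have h1 : (1 : MvPolynomial (Fin 2) ℝ).totalDegree ≤ 1 := by simp
  refine deg_add (deg_mul (deg_pow (deg_sub h1 (deg_C_mul _ (deg_X 0))) m) hP (by omega)) ?_
  refine MvPolynomial.totalDegree_finsetSum_le fun q hq => deg_C_mul _ ?_
  rw [mem_TT] at hq
  refine deg_mul (deg_mul (deg_pow (deg_X 1) _) (deg_pow (deg_X 0) _) le_rfl)
    (deg_pow (deg_sub (deg_C_mul _ (deg_X 0)) h1) _) ?_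
  omega

theorem deg_Lf {n m : ℕ} (P : MvPolynomial (Fin 2) ℝ)
    (g : ℕ × ℕ → ℝ) (ε : ℝ) : (Lf n m P g ε).totalDegree ≤ 2 * n + m := by
  have h1 : (1 : MvPolynomial (Fin 2) ℝ).totalDegree ≤ 1 := by simp
  have h2 : (1 + MvPolynomial.C ε * MvPolynomial.X 1 : MvPolynomial (Fin 2) ℝ).totalDegree ≤ 1 :=
    deg_add h1 (deg_C_mul _ (deg_X 1))
  refine deg_add (deg_mul (a := m) (b := 2 * n) (deg_pow ?_ m) ?_ (by omega)) ?_
  · rw [MvPolynomial.totalDegree_neg]; exact deg_X 1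
  · refine MvPolynomial.totalDegree_finsetSum_le fun a _ =>
      MvPolynomial.totalDegree_finsetSum_le fun b _ => deg_C_mul _ ?_
    refine deg_mul (deg_pow h2 _) (deg_pow (deg_C_mul _ (deg_X 0)) _) ?_
    have := a.2; have := b.2; omega
  · refine MvPolynomial.totalDegree_finsetSum_le fun q hq => deg_C_mul _ ?_
    rw [mem_TT] at hq
    refine deg_mul (deg_mul (deg_pow (deg_X 0) _) (deg_pow h2 _) le_rfl)
      (deg_pow (deg_X 1) _) ?_
    omega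

theorem Wf_zero (n m : ℕ) (P : MvPolynomial (Fin 2) ℝ) (g : ℕ × ℕ → ℝ) : Wf n m P g 0 = P := by
  unfold Wf
  rw [Finset.sum_eq_zero]
  · simp
  · intro q hq
    simp [EE_pos hq]

theorem Lf_zero (n m : ℕ) (P : MvPolynomial (Fin 2) ℝ) (g : ℕ × ℕ → ℝ) :
    Lf n m P g 0 = TP n m g ((-1) ^ m * lead n P) := by
  unfold Lf TP
  rw [add_comm]
  congr 1
  · refine Finset.sum_congr rfl fun q _ => ?_
    simp
  · rw [Finset.sum_eq_single (Fin.last n), Finset.sum_eq_single 0]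
    · simp only [arr, lead, Fin.val_last, Fin.val_zero, Nat.sub_self, Finsupp.single_zero,
        add_zero, pow_zero, mul_one, map_zero, zero_mul, one_pow, map_mul, map_pow, map_neg,
        map_one]
      rw [neg_pow]
      ring
    · intro b _ hb
      have : (b : ℕ) ≠ 0 := fun h => hb (Fin.ext h)
      simp [this]
    · simp
    · intro a _ ha
      refine Finset.sum_eq_zero fun b _ => ?_
      by_cases hb : (b : ℕ) = 0
      · have h1 : n - (a : ℕ) - b ≠ 0 := by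
          have h2 : (a : ℕ) ≠ n := fun h => ha (Fin.ext h)
          have := a.2
          omega
        simp [h1]
      · simp [hb]
    · simp

theorem arr_eq_zero {n : ℕ} {P : MvPolynomial (Fin 2) ℝ} (hP : P.totalDegree ≤ n)
    {a b : Fin (n + 1)} (h : n < (a : ℕ) + b) : arr n P a b = 0 := by
  by_contra hne
  have h1 : Finsupp.single 0 (a : ℕ) + Finsupp.single 1 (b : ℕ) ∈ P.support :=
    MvPolynomial.mem_support_iff.2 hne
  have h2 := (MvPolynomial.le_totalDegree h1).trans hP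
  have hsum : ((Finsupp.single (0 : Fin 2) (a : ℕ) + Finsupp.single 1 (b : ℕ)).sum
      fun _ e => e) = (a : ℕ) + (b : ℕ) := by
    rw [Finsupp.sum_fintype _ _ (fun _ => rfl)]
    simp [Fin.sum_univ_two]
  rw [hsum] at h2
  omega

theorem scaling_identity {n m : ℕ} {P : MvPolynomial (Fin 2) ℝ} (hP : P.totalDegree ≤ n)
    (g : ℕ × ℕ → ℝ) {ε : ℝ} (hε : ε ≠ 0) (x y : ℝ) :
    ε ^ m * MvPolynomial.eval ![x, y] (Lf n m P g ε) = (ε ^ (n + 1)) ^ n *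
      MvPolynomial.eval ![(ε ^ (n + 1))⁻¹ * (1 + ε * y), (ε ^ (n + 1))⁻¹ * (ε * x)]
        (Wf n m P g ε) := by
  have hδ : ε ^ (n + 1) ≠ 0 := pow_ne_zero _ hε
  unfold Lf Wf
  simp only [map_add, map_mul, map_pow, map_neg, map_sub, map_one, map_sum, MvPolynomial.eval_C,
    MvPolynomial.eval_X, Matrix.cons_val_zero, Matrix.cons_val_one, eval_eq_pe P hP]
  set δ := ε ^ (n + 1) with hδdef
  have e1 : δ * (δ⁻¹ * (1 + ε * y)) = 1 + ε * y := by field_simp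
  rw [e1, mul_add, mul_add]
  congr 1
  · have e2 : (1 - (1 + ε * y)) ^ m = ε ^ m * (-y) ^ m := by rw [← mul_pow]; congr 1; ring
    rw [e2]
    have e3 : (∑ a : Fin (n + 1), ∑ b : Fin (n + 1), arr n P a b * δ ^ (n - (a : ℕ) - b) *
        ((1 + ε * y) ^ (a : ℕ) * (ε * x) ^ (b : ℕ))) =
        δ ^ n * pe (arr n P) (δ⁻¹ * (1 + ε * y)) (δ⁻¹ * (ε * x)) := by
      rw [pe, Finset.mul_sum]
      refine Finset.sum_congr rfl fun a _ => ?_
      rw [Finset.mul_sum]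
      refine Finset.sum_congr rfl fun b _ => ?_
      rcases le_or_gt ((a : ℕ) + b) n with h | h
      · have h1 : δ ^ n = δ ^ (n - (a : ℕ) - b) * (δ ^ (a : ℕ) * δ ^ (b : ℕ)) := by
          rw [← pow_add, ← pow_add]
          congr 1
          omega
        rw [h1]
        simp only [mul_pow, inv_pow, smul_eq_mul]
        field_simp
      · rw [arr_eq_zero hP h]; simp
    rw [e3]
    ring
  · rw [Finset.mul_sum, Finset.mul_sum]
    refine Finset.sum_congr rfl fun q hq => ?_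
    have h1 : ε ^ EE n m q * (ε ^ q.1 * ε ^ q.2) =
        δ ^ (q.1 + (n + 1 - q.1) - n) * ε ^ m := by
      rw [← pow_add, ← pow_add, EE_add hq, pow_add, hδdef, ← pow_mul]
    have h2 : δ ^ (q.1 + (n + 1 - q.1) - n) * δ ^ n = δ ^ q.1 * δ ^ (n + 1 - q.1) := by
      rw [← pow_add, ← pow_add]
      congr 1
      omega
    have e4 : (1 + ε * y - 1) ^ q.2 = ε ^ q.2 * y ^ q.2 := by rw [← mul_pow]; congr 1; ring
    rw [e4, mul_pow, mul_pow, mul_pow, inv_pow, inv_pow]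
    have h3 : δ ^ q.1 ≠ 0 := pow_ne_zero _ hδ
    have h4 : δ ^ (n + 1 - q.1) ≠ 0 := pow_ne_zero _ hδ
    have h5 : δ ^ n * (g q * ε ^ EE n m q * ((δ ^ q.1)⁻¹ * (ε ^ q.1 * x ^ q.1) *
        ((δ ^ (n + 1 - q.1))⁻¹ * (1 + ε * y) ^ (n + 1 - q.1)) * (ε ^ q.2 * y ^ q.2))) =
        (δ ^ n * (ε ^ EE n m q * (ε ^ q.1 * ε ^ q.2)) * ((δ ^ q.1)⁻¹ * (δ ^ (n + 1 - q.1))⁻¹)) *
        (g q * (x ^ q.1 * (1 + ε * y) ^ (n + 1 - q.1) * y ^ q.2)) := by ring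
    rw [h5, h1]
    have h6 : δ ^ n * (δ ^ (q.1 + (n + 1 - q.1) - n) * ε ^ m) * ((δ ^ q.1)⁻¹ *
        (δ ^ (n + 1 - q.1))⁻¹) = ε ^ m := by
      have h7 : δ ^ n * (δ ^ (q.1 + (n + 1 - q.1) - n) * ε ^ m) =
          (δ ^ (q.1 + (n + 1 - q.1) - n) * δ ^ n) * ε ^ m := by ring
      rw [h7, h2]
      field_simp
    rw [h6]

end Pool.Agent.Lib.MP_95e7ec_an
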