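import Mathlib
import Pool.Agent.Lib.MP_95e7ec_an.Glue3

/-!
# The gluing theorem
-/

set_option autoImplicit false

open Set Filter Topology

namespace Pool.Agent.Lib.MP_95e7ec_an

theorem ContFam.neg {R : ℝ → MvPolynomial (Fin 2) ℝ} (hR : ContFam R) :
    ContFam fun ε => - R ε := by
  intro e
  simp only [MvPolynomial.coeff_neg]
  exact (hR e).neg

theorem ContFam.sub {R S : ℝ → MvPolynomial (Fin 2) ℝ} (hR : ContFam R) (hS : ContFam S) :
    ContFam fun ε => R ε - S ε := by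
  intro e
  simp only [MvPolynomial.coeff_sub]
  exact (hR e).sub (hS e)

theorem contFam_Wf (n m : ℕ) (P : MvPolynomial (Fin 2) ℝ) (g : ℕ × ℕ → ℝ) :
    ContFam (Wf n m P g) := by
  unfold Wf
  refine ContFam.add (ContFam.mul (ContFam.pow (ContFam.sub (ContFam.const _)
    (ContFam.mul (ContFam.C (by fun_prop)) (ContFam.const _))) _) (ContFam.const _)) ?_
  refine ContFam.sum _ fun q _ => ContFam.mul (ContFam.C (by fun_prop)) ?_
  exact ContFam.mul (ContFam.const _) (ContFam.pow (ContFam.sub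
    (ContFam.mul (ContFam.C (by fun_prop)) (ContFam.const _)) (ContFam.const _)) _)

theorem contFam_Lf (n m : ℕ) (P : MvPolynomial (Fin 2) ℝ) (g : ℕ × ℕ → ℝ) :
    ContFam (Lf n m P g) := by
  have h1 : ContFam fun ε => (1 + MvPolynomial.C ε * MvPolynomial.X 1 :
      MvPolynomial (Fin 2) ℝ) :=
    ContFam.add (ContFam.const _) (ContFam.mul (ContFam.C continuous_id) (ContFam.const _))
  unfold Lf
  refine ContFam.add (ContFam.mul (ContFam.const _) ?_) ?_
  · refine ContFam.sum _ fun a _ => ContFam.sum _ fun b _ => ContFam.mul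
      (ContFam.C (by fun_prop)) (ContFam.mul (ContFam.pow h1 _) (ContFam.pow ?_ _))
    exact ContFam.mul (ContFam.C continuous_id) (ContFam.const _)
  · refine ContFam.sum _ fun q _ => ContFam.mul (ContFam.C continuous_const) ?_
    exact ContFam.mul (ContFam.mul (ContFam.const _) (ContFam.pow h1 _)) (ContFam.const _)

/-- the linear map `(x,y) ↦ (c y, c x)` -/
noncomputable def swapL (c : ℝ) (hc : c ≠ 0) : (ℝ × ℝ) ≃L[ℝ] (ℝ × ℝ) :=
  LinearEquiv.toContinuousLinearEquiv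
    { toFun := fun v => (c * v.2, c * v.1)
      map_add' := by
        intro v w
        simp only [Prod.fst_add, Prod.snd_add, Prod.mk_add_mk, Prod.mk.injEq]
        constructor <;> ring
      map_smul' := by
        intro e v
        simp only [Prod.smul_fst, Prod.smul_snd, smul_eq_mul, RingHom.id_apply, Prod.smul_mk,
          Prod.mk.injEq]
        constructor <;> ring
      invFun := fun v => (c⁻¹ * v.2, c⁻¹ * v.1)
      left_inv := by
        intro v
        apply Prod.ext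
        · simp only; field_simp
        · simp only; field_simp
      right_inv := by
        intro v
        apply Prod.ext
        · simp only; field_simp
        · simp only; field_simp }

theorem swapL_apply (c : ℝ) (hc : c ≠ 0) (v : ℝ × ℝ) : swapL c hc v = (c * v.2, c * v.1) := rfl

theorem swapL_symm_apply (c : ℝ) (hc : c ≠ 0) (v : ℝ × ℝ) :
    (swapL c hc).symm v = (c⁻¹ * v.2, c⁻¹ * v.1) := rfl

theorem glue {n m N1 N2 : ℕ} {P Q : MvPolynomial (Fin 2) ℝ} (hP : P.totalDegree ≤ n)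
    (hQ : Q.totalDegree ≤ n) (g1 g2 : ℕ × ℕ → ℝ) (R1 R2 : ℝ)
    (h1 : ∀ᶠ μ in 𝓝 ((arr (n + m) P, arr (n + m) Q) : Pr (n + m)), Has μ R1 N1)
    (h2 : ∀ᶠ μ in 𝓝 ((arr (2 * n + m) (TP n m g1 ((-1) ^ m * lead n Q)),
      arr (2 * n + m) (TP n m g2 ((-1) ^ m * lead n P))) : Pr (2 * n + m)), Has μ R2 N2) :
    ((N1 + N2 : ℕ) : ℕ∞) ≤ hilbertNumber (n + m) := by
  classical
  have ev1 : ∀ᶠ ε in 𝓝[>] (0 : ℝ), Has ((arr (n + m) (Wf n m P g2 ε),
      arr (n + m) (Wf n m Q g1 ε)) : Pr (n + m)) R1 N1 := by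
    have hc : Continuous fun ε : ℝ => ((arr (n + m) (Wf n m P g2 ε),
        arr (n + m) (Wf n m Q g1 ε)) : Pr (n + m)) :=
      ((contFam_Wf n m P g2).tendsto_arr _).prodMk ((contFam_Wf n m Q g1).tendsto_arr _)
    have ht := hc.tendsto 0
    simp only [Wf_zero] at ht
    exact (ht.mono_left nhdsWithin_le_nhds).eventually h1
  have ev2 : ∀ᶠ ε in 𝓝[>] (0 : ℝ), Has ((arr (2 * n + m) (Lf n m Q g1 ε),
      arr (2 * n + m) (Lf n m P g2 ε)) : Pr (2 * n + m)) R2 N2 := by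
    have hc : Continuous fun ε : ℝ => ((arr (2 * n + m) (Lf n m Q g1 ε),
        arr (2 * n + m) (Lf n m P g2 ε)) : Pr (2 * n + m)) :=
      ((contFam_Lf n m Q g1).tendsto_arr _).prodMk ((contFam_Lf n m P g2).tendsto_arr _)
    have ht := hc.tendsto 0
    simp only [Lf_zero] at ht
    exact (ht.mono_left nhdsWithin_le_nhds).eventually h2
  have ev3 : ∀ᶠ ε in 𝓝[>] (0 : ℝ), ε ^ (n + 1) * |R1| + ε * |R2| < 1 := by
    have hc : Continuous fun ε : ℝ => ε ^ (n + 1) * |R1| + ε * |R2| := by fun_prop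
    have ht := hc.tendsto 0
    simp only [ne_eq, Nat.add_eq_zero_iff, one_ne_zero, and_false, not_false_eq_true, zero_pow,
      zero_mul, add_zero] at ht
    exact (ht.mono_left nhdsWithin_le_nhds).eventually (gt_mem_nhds one_pos)
  have ev4 : ∀ᶠ ε in 𝓝[>] (0 : ℝ), 0 < ε := self_mem_nhdsWithin
  obtain ⟨ε, ⟨⟨hε1, hε2⟩, hε3⟩, hε⟩ := (((ev1.and ev2).and ev3).and ev4).exists
  obtain ⟨F1, hF1c, hF1⟩ := hε1
  obtain ⟨F2, hF2c, hF2⟩ := hε2
  set W1 := Wf n m P g2 ε with hW1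
  set W2 := Wf n m Q g1 ε with hW2
  have hW1d : W1.totalDegree ≤ n + m := deg_Wf hP _ _
  have hW2d : W2.totalDegree ≤ n + m := deg_Wf hQ _ _
  rw [← vf_eq_vfc hW1d hW2d] at hF1
  rw [← vf_eq_vfc (deg_Lf _ _ _) (deg_Lf _ _ _)] at hF2
  have hεn := hε.ne'
  set δ := ε ^ (n + 1) with hδdef
  have hδ : 0 < δ := pow_pos hε _
  have hc : δ⁻¹ * ε ≠ 0 := by positivity
  obtain ⟨F3, hF3c, hF3⟩ := transport (v := vf W1 W2)
    (w := vf (Lf n m Q g1 ε) (Lf n m P g2 ε)) F2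
    (fun C hC => (hF2 C hC).1) (δ⁻¹, 0) (swapL (δ⁻¹ * ε) hc) (δ⁻¹ * ε * (δ ^ n / ε ^ m))
    (by positivity) (by
      funext z
      rw [swapL_apply, swapL_symm_apply]
      have e0 : ((δ⁻¹, 0) : ℝ × ℝ) + (δ⁻¹ * ε * z.2, δ⁻¹ * ε * z.1) =
          (δ⁻¹ * (1 + ε * z.2), δ⁻¹ * (ε * z.1)) := by
        apply Prod.ext
        · simp only [Prod.fst_add]; ring
        · simp only [Prod.snd_add]; ring
      rw [e0]
      have hs : ∀ (P : MvPolynomial (Fin 2) ℝ) (hP : P.totalDegree ≤ n) (g : ℕ × ℕ → ℝ),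
          MvPolynomial.eval ![z.1, z.2] (Lf n m P g ε) = (δ⁻¹ * ε * (δ ^ n / ε ^ m)) *
            ((δ⁻¹ * ε)⁻¹ * MvPolynomial.eval ![δ⁻¹ * (1 + ε * z.2), δ⁻¹ * (ε * z.1)]
              (Wf n m P g ε)) := by
        intro P hP g
        have h3 := scaling_identity (m := m) hP g hεn z.1 z.2
        rw [← hδdef] at h3
        have hεm : ε ^ m ≠ 0 := pow_ne_zero _ hεn
        have h4 : MvPolynomial.eval ![z.1, z.2] (Lf n m P g ε) =
            (ε ^ m)⁻¹ * (ε ^ m * MvPolynomial.eval ![z.1, z.2] (Lf n m P g ε)) := by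
          field_simp
        rw [h4, h3]
        field_simp
      simp only [vf, hs Q hQ g1, hs P hP g2, Prod.smul_mk, smul_eq_mul, hW1, hW2])
  have hdisj : Disjoint F1 F3 := by
    rw [Finset.disjoint_left]
    intro C hC1 hC3
    obtain ⟨-, hb1⟩ := hF1 C hC1
    obtain ⟨hlc, C2, hC2, rfl⟩ := hF3 C hC3
    obtain ⟨-, hb2⟩ := hF2 C2 hC2
    obtain ⟨z, hz⟩ := hlc.1.nonempty
    have hz1 := hb1 hz
    obtain ⟨w, hw, rfl⟩ := hz
    have hw2 := hb2 hw
    simp only [Metric.mem_ball, dist_zero_right] at hz1 hw2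
    rw [swapL_apply] at hz1
    have h3 : |δ⁻¹ + δ⁻¹ * ε * w.2| < R1 := by
      have := (norm_fst_le ((δ⁻¹, 0) + (δ⁻¹ * ε * w.2, δ⁻¹ * ε * w.1) : ℝ × ℝ)).trans_lt hz1
      simpa using this
    have h4 : |w.2| < R2 := (norm_snd_le w).trans_lt hw2
    have h5 : |ε * w.2| ≤ ε * |R2| := by
      rw [abs_mul, abs_of_pos hε]
      exact mul_le_mul_of_nonneg_left (h4.le.trans (le_abs_self _)) hε.le
    have h6 : δ⁻¹ + δ⁻¹ * ε * w.2 < |R1| := (le_abs_self _).trans_lt (h3.trans_le (le_abs_self _))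
    have h7 : δ * (δ⁻¹ + δ⁻¹ * ε * w.2) < δ * |R1| := mul_lt_mul_of_pos_left h6 hδ
    have h8 : δ * (δ⁻¹ + δ⁻¹ * ε * w.2) = 1 + ε * w.2 := by field_simp
    have h9 := neg_le_of_abs_le h5
    linarith
  have hcard : N1 + N2 ≤ (F1 ∪ F3).card := by
    rw [Finset.card_union_of_disjoint hdisj, hF3c]
    exact Nat.add_le_add hF1c hF2c
  have hfin := le_hilbert hW1d hW2d (F1 ∪ F3) (by
    intro C hC
    rcases Finset.mem_union.1 hC with h | h
    · exact (hF1 C h).1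
    · exact (hF3 C h).1)
  exact le_trans (by exact_mod_cast hcard) hfin

end Pool.Agent.Lib.MP_95e7ec_an
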