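import Mathlib
import Pool.Agent.Lib.MP_95e7ec_an.Glue4

/-!
# Fat points: Taylor shifts and orders of vanishing
-/

set_option autoImplicit false

open Set Filter Topology

namespace Pool.Agent.Lib.MP_95e7ec_an

open MvPolynomial in
/-- The Taylor shift: `(shiftP p P)(h) = P(p + h)`. -/
noncomputable def shiftP (p : ℝ × ℝ) : MvPolynomial (Fin 2) ℝ →ₐ[ℝ] MvPolynomial (Fin 2) ℝ :=
  aeval ![X 0 + C p.1, X 1 + C p.2]

theorem eval_shiftP (p : ℝ × ℝ) (P : MvPolynomial (Fin 2) ℝ) (x y : ℝ) :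
    MvPolynomial.eval ![x, y] (shiftP p P) = MvPolynomial.eval ![p.1 + x, p.2 + y] P := by
  have h : (MvPolynomial.eval ![x, y]).comp (shiftP p).toRingHom =
      MvPolynomial.eval ![p.1 + x, p.2 + y] := by
    apply MvPolynomial.ringHom_ext
    · intro r; simp [shiftP]
    · intro i
      fin_cases i
      · simp [shiftP, add_comm]
      · simp [shiftP, add_comm]
  exact congrArg (fun f => f P) h

/-- `P` vanishes to order at least `r` at the origin: all coefficients of degree `< r` are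
zero. -/
def Ord (r : ℕ) (P : MvPolynomial (Fin 2) ℝ) : Prop :=
  P ∈ MvPolynomial.idealOfVars (Fin 2) ℝ ^ r

theorem ord_iff {r : ℕ} {P : MvPolynomial (Fin 2) ℝ} :
    Ord r P ↔ ∀ e : Fin 2 →₀ ℕ, e 0 + e 1 < r → P.coeff e = 0 := by
  unfold Ord
  rw [MvPolynomial.mem_pow_idealOfVars_iff']
  simp only [Finsupp.degree_eq_sum, Fin.sum_univ_two]

theorem Ord.add {r : ℕ} {P Q : MvPolynomial (Fin 2) ℝ} (hP : Ord r P) (hQ : Ord r Q) :
    Ord r (P + Q) := Ideal.add_mem _ hP hQ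

theorem Ord.sub {r : ℕ} {P Q : MvPolynomial (Fin 2) ℝ} (hP : Ord r P) (hQ : Ord r Q) :
    Ord r (P - Q) := Ideal.sub_mem _ hP hQ

theorem Ord.mul {r s : ℕ} {P Q : MvPolynomial (Fin 2) ℝ} (hP : Ord r P) (hQ : Ord s Q) :
    Ord (r + s) (P * Q) := by
  unfold Ord at *
  rw [pow_add]
  exact Ideal.mul_mem_mul hP hQ

theorem Ord.mono {r s : ℕ} {P : MvPolynomial (Fin 2) ℝ} (hP : Ord r P) (h : s ≤ r) : Ord s P :=
  Ideal.pow_le_pow_right h hP

theorem ord_zero (P : MvPolynomial (Fin 2) ℝ) : Ord 0 P := by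
  unfold Ord; simp

/-- The leading term of `P` at `p` is a nonzero multiple of the monomial `x^i y^j`. -/
def Lead (p : ℝ × ℝ) (i j : ℕ) (P : MvPolynomial (Fin 2) ℝ) : Prop :=
  ∃ c : ℝ, c ≠ 0 ∧ Ord (i + j + 1)
    (shiftP p P - MvPolynomial.C c * (MvPolynomial.X 0 ^ i * MvPolynomial.X 1 ^ j))

end Pool.Agent.Lib.MP_95e7ec_an
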