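import Mathlib
import Pool.Agent.Lib.MP_95e7ec_an.FatGlue
import Pool.Agent.Lib.MP_6b2d39_ag.LowerBound

/-!
# Independent conditions over the complex numbers give free real jets
-/

set_option autoImplicit false

open MvPolynomial

namespace Pool.Agent.Lib.MP_95e7ec_an

open Pool.Agent.Lib.MP_6b2d39_ag

/-- real part of the coefficients -/
noncomputable def reP (f : MvPolynomial (Fin 2) ℂ) : MvPolynomial (Fin 2) ℝ :=
  ∑ v ∈ f.support, monomial v (coeff v f).re

/-- imaginary part of the coefficients -/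
noncomputable def imP (f : MvPolynomial (Fin 2) ℂ) : MvPolynomial (Fin 2) ℝ :=
  ∑ v ∈ f.support, monomial v (coeff v f).im

theorem coeff_reP (f : MvPolynomial (Fin 2) ℂ) (v : Fin 2 →₀ ℕ) :
    coeff v (reP f) = (coeff v f).re := by
  classical
  unfold reP
  rw [coeff_sum]
  by_cases hv : v ∈ f.support
  · rw [Finset.sum_eq_single v]
    · simp
    · intro w _ hw
      rw [coeff_monomial, if_neg hw]
    · intro h
      exact absurd hv h
  · rw [Finset.sum_eq_zero]
    · rw [notMem_support_iff] at hv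
      rw [hv, Complex.zero_re]
    · intro w hw
      rw [coeff_monomial, if_neg]
      rintro rfl
      exact hv hw

theorem coeff_imP (f : MvPolynomial (Fin 2) ℂ) (v : Fin 2 →₀ ℕ) :
    coeff v (imP f) = (coeff v f).im := by
  classical
  unfold imP
  rw [coeff_sum]
  by_cases hv : v ∈ f.support
  · rw [Finset.sum_eq_single v]
    · simp
    · intro w _ hw
      rw [coeff_monomial, if_neg hw]
    · intro h
      exact absurd hv h
  · rw [Finset.sum_eq_zero]
    · rw [notMem_support_iff] at hv
      rw [hv, Complex.zero_im]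
    · intro w hw
      rw [coeff_monomial, if_neg]
      rintro rfl
      exact hv hw

theorem reP_add_imP (f : MvPolynomial (Fin 2) ℂ) :
    f = map Complex.ofRealHom (reP f) + C Complex.I * map Complex.ofRealHom (imP f) := by
  ext v
  rw [coeff_add, coeff_C_mul, coeff_map, coeff_map, coeff_reP, coeff_imP]
  simp only [Complex.ofRealHom_eq_coe]
  rw [mul_comm, Complex.re_add_im]

theorem trans_map (a : ℝ × ℝ) (G : MvPolynomial (Fin 2) ℝ) :
    Pool.Agent.Lib.MP_6b2d39_ag.trans ![(a.1 : ℂ), (a.2 : ℂ)] (map Complex.ofRealHom G) =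
      map Complex.ofRealHom (tr a G) := by
  have h : (Pool.Agent.Lib.MP_6b2d39_ag.trans ![(a.1 : ℂ), (a.2 : ℂ)]).toRingHom.comp
      (map Complex.ofRealHom) = (map Complex.ofRealHom).comp (tr a).toRingHom := by
    apply ringHom_ext
    · intro r
      simp [Pool.Agent.Lib.MP_6b2d39_ag.trans, tr]
    · intro c
      fin_cases c <;> simp [Pool.Agent.Lib.MP_6b2d39_ag.trans, tr]
  exact congrArg (fun φ => φ G) h

theorem coeff_trans_re (a : ℝ × ℝ) (f : MvPolynomial (Fin 2) ℂ) (v : Fin 2 →₀ ℕ) :
    (coeff v (Pool.Agent.Lib.MP_6b2d39_ag.trans ![(a.1 : ℂ), (a.2 : ℂ)] f)).re =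
      coeff v (tr a (reP f)) := by
  conv_lhs => rw [reP_add_imP f]
  have hC : Pool.Agent.Lib.MP_6b2d39_ag.trans ![(a.1 : ℂ), (a.2 : ℂ)] (C Complex.I) =
      C Complex.I := by
    rw [← algebraMap_eq, AlgHom.commutes]
  rw [map_add, map_mul, hC, trans_map, trans_map, coeff_add, coeff_C_mul, coeff_map, coeff_map]
  simp

/-- If the conditions imposed over `ℂ` by fat points at real points are independent, then real
polynomials can have arbitrary jets there. -/
theorem jetsFree_of_finrank {N h : ℕ} (d : Fin h → ℕ) (a : Fin h → ℝ × ℝ)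
    (hfin : (Module.finrank ℂ (fatSystem N (fun i => d i + 1)
      (fun i => ![((a i).1 : ℂ), ((a i).2 : ℂ)])) : ℤ) =
        ((N + 2).choose 2 : ℤ) - ∑ i, ((d i + 2).choose 2 : ℤ)) : JetsFree N d a := by
  set m : Fin h → ℕ := fun i => d i + 1 with hm
  set p : Fin h → Fin 2 → ℂ := fun i => ![((a i).1 : ℂ), ((a i).2 : ℂ)] with hp
  set V := restrictTotalDegree (Fin 2) ℂ N with hV
  let T : V →ₗ[ℂ] (∀ i, JetIdx (m i) → ℂ) :=
    LinearMap.pi fun i => ((jet (m i)).comp
      (Pool.Agent.Lib.MP_6b2d39_ag.trans (p i)).toLinearMap).comp V.subtype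
  have hT : LinearMap.ker T = (fatSystem N m p).comap V.subtype := by
    ext f
    rw [LinearMap.mem_ker, Submodule.mem_comap, mem_fatSystem_iff]
    constructor
    · intro h
      exact ⟨f.2, fun i => congrFun h i⟩
    · intro h
      funext i
      exact h.2 i
  have h1 := LinearMap.finrank_range_add_finrank_ker T
  have h2 : Module.finrank ℂ (LinearMap.ker T) = Module.finrank ℂ (fatSystem N m p) := by
    rw [hT]
    exact (Submodule.comapSubtypeEquivOfLe (fatSystem_le m p)).finrank_eq
  have h3 : Module.finrank ℂ (∀ i, JetIdx (m i) → ℂ) = ∑ i, (d i + 2).choose 2 := by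
    rw [Module.finrank_pi_fintype]
    refine Finset.sum_congr rfl fun i _ => ?_
    rw [Module.finrank_fintype_fun_eq_card, card_jetIdx]
  have h4 : Module.finrank ℂ V = (N + 2).choose 2 := finrank_restrictTotalDegree N
  have h5 : LinearMap.range T = ⊤ := by
    apply Submodule.eq_top_of_finrank_eq
    rw [h3]
    have h6 : (Module.finrank ℂ (LinearMap.ker T) : ℤ) =
        ((N + 2).choose 2 : ℤ) - ((∑ i, (d i + 2).choose 2 : ℕ) : ℤ) := by
      rw [h2, hfin]
      push_cast
      ring
    omega
  intro c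
  obtain ⟨f, hf⟩ : (fun i (z : JetIdx (m i)) => ((c i (jetMon z) : ℝ) : ℂ)) ∈ LinearMap.range T := by
    rw [h5]
    exact Submodule.mem_top
  refine ⟨reP (f : MvPolynomial (Fin 2) ℂ), ?_, ?_⟩
  · have hdeg : (f : MvPolynomial (Fin 2) ℂ).totalDegree ≤ N := by
      have := f.2
      rwa [mem_restrictTotalDegree] at this
    refine le_trans ?_ hdeg
    refine Finset.sup_mono fun v hv => ?_
    rw [mem_support_iff, coeff_reP] at hv
    rw [mem_support_iff]
    intro h0
    exact hv (by rw [h0, Complex.zero_re])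
  · intro i β hβ
    obtain ⟨z, rfl⟩ : ∃ z : JetIdx (m i), jetMon z = β :=
      exists_jetMon (by rw [degree_fin_two]; simp only [hm]; omega)
    have h7 : coeff (jetMon z) (Pool.Agent.Lib.MP_6b2d39_ag.trans (p i)
        (f : MvPolynomial (Fin 2) ℂ)) = ((c i (jetMon z) : ℝ) : ℂ) :=
      congrFun (congrFun hf i) z
    rw [← coeff_trans_re (a i) (f : MvPolynomial (Fin 2) ℂ), h7, Complex.ofReal_re]

end Pool.Agent.Lib.MP_95e7ec_an
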