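import Mathlib
import Pool.Agent.Lib.MP_95e7ec_an.FatDefs

/-!
# Linear algebra of triangular systems and calculus of leading terms
-/

set_option autoImplicit false

open Set Filter Topology

namespace Pool.Agent.Lib.MP_95e7ec_an

/-- triangular systems are solvable (induction on the rank `r`, from the top) -/
theorem triangular {E : Type*} [AddCommGroup E] [Module ℝ E] {I : Type*} [Fintype I]
    [DecidableEq I] (J : I → E →ₗ[ℝ] ℝ) (r : I → ℕ) (Φ : I → E) (h1 : ∀ i, J i (Φ i) ≠ 0)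
    (h2 : ∀ i j, j ≠ i → r j ≤ r i → J j (Φ i) = 0) (w : I → ℝ) : ∃ x : E, ∀ i, J i x = w i := by
  have key : ∀ R : ℕ, ∃ x : E, ∀ i, r i < R → J i x = w i := by
    intro R
    induction R with
    | zero => exact ⟨0, fun i hi => absurd hi (Nat.not_lt_zero _)⟩
    | succ R ih =>
      obtain ⟨x, hx⟩ := ih
      refine ⟨x + ∑ i ∈ Finset.univ.filter (fun i => r i = R),
        ((w i - J i x) / J i (Φ i)) • Φ i, ?_⟩
      intro j hj
      rw [map_add, map_sum]
      rcases Nat.lt_or_ge (r j) R with h | h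
      · rw [hx j h, Finset.sum_eq_zero, add_zero]
        intro i hi
        rw [Finset.mem_filter] at hi
        rw [map_smul, h2 i j (by rintro rfl; omega) (by omega), smul_zero]
      · have hjR : r j = R := by omega
        rw [Finset.sum_eq_single j]
        · rw [map_smul, smul_eq_mul, div_mul_cancel₀ _ (h1 j)]
          ring
        · intro i hi hij
          rw [Finset.mem_filter] at hi
          rw [map_smul, h2 i j hij.symm (by omega), smul_zero]
        · intro hj'
          exact absurd (Finset.mem_filter.2 ⟨Finset.mem_univ j, hjR⟩) hj'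
  obtain ⟨x, hx⟩ := key (Finset.univ.sup r + 1)
  exact ⟨x, fun i => hx i (Nat.lt_succ_of_le (Finset.le_sup (Finset.mem_univ i)))⟩

open MvPolynomial in
theorem ord_X (i : Fin 2) : Ord 1 (X i : MvPolynomial (Fin 2) ℝ) := by
  unfold Ord
  rw [pow_one]
  exact Ideal.subset_span ⟨i, rfl⟩

theorem Ord.pow {r : ℕ} {P : MvPolynomial (Fin 2) ℝ} (hP : Ord r P) (n : ℕ) :
    Ord (n * r) (P ^ n) := by
  induction n with
  | zero => rw [zero_mul]; exact ord_zero _
  | succ n ih =>
    rw [pow_succ, add_mul, one_mul]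
    exact ih.mul hP

open MvPolynomial in
theorem ord_monomial (i j : ℕ) : Ord (i + j) (X 0 ^ i * X 1 ^ j : MvPolynomial (Fin 2) ℝ) := by
  have h := ((ord_X 0).pow i).mul ((ord_X 1).pow j)
  rwa [mul_one, mul_one] at h

theorem Ord.mul_left {r : ℕ} {P : MvPolynomial (Fin 2) ℝ} (Q : MvPolynomial (Fin 2) ℝ)
    (hP : Ord r P) : Ord r (Q * P) := Ideal.mul_mem_left _ _ hP

theorem Ord.mul_right {r : ℕ} {P : MvPolynomial (Fin 2) ℝ} (Q : MvPolynomial (Fin 2) ℝ)
    (hP : Ord r P) : Ord r (P * Q) := Ideal.mul_mem_right _ _ hP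

theorem Ord.zero {r : ℕ} : Ord r 0 := Ideal.zero_mem _

theorem Lead.mul {p : ℝ × ℝ} {i j i' j' : ℕ} {P Q : MvPolynomial (Fin 2) ℝ}
    (hP : Lead p i j P) (hQ : Lead p i' j' Q) : Lead p (i + i') (j + j') (P * Q) := by
  obtain ⟨c, hc, h1⟩ := hP
  obtain ⟨c', hc', h2⟩ := hQ
  refine ⟨c * c', mul_ne_zero hc hc', ?_⟩
  set A := shiftP p P - MvPolynomial.C c * (MvPolynomial.X 0 ^ i * MvPolynomial.X 1 ^ j) with hA
  set B := shiftP p Q - MvPolynomial.C c' * (MvPolynomial.X 0 ^ i' * MvPolynomial.X 1 ^ j')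
    with hB
  have h3 : shiftP p (P * Q) - MvPolynomial.C (c * c') *
      (MvPolynomial.X 0 ^ (i + i') * MvPolynomial.X 1 ^ (j + j')) =
      A * B + (MvPolynomial.C c * ((MvPolynomial.X 0 ^ i * MvPolynomial.X 1 ^ j) * B) +
        MvPolynomial.C c' * ((MvPolynomial.X 0 ^ i' * MvPolynomial.X 1 ^ j') * A)) := by
    rw [map_mul, hA, hB, MvPolynomial.C_mul, pow_add, pow_add]
    ring
  rw [h3]
  refine Ord.add ?_ (Ord.add ?_ ?_)
  · exact (h1.mul h2).mono (by omega)
  · exact (((ord_monomial i j).mul h2).mul_left _).mono (by omega)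
  · exact (((ord_monomial i' j').mul h1).mul_left _).mono (by omega)

theorem lead_one (p : ℝ × ℝ) : Lead p 0 0 1 := by
  refine ⟨1, one_ne_zero, ?_⟩
  simp only [map_one, pow_zero, mul_one, sub_self]
  exact Ord.zero

theorem Lead.pow {p : ℝ × ℝ} {i j : ℕ} {P : MvPolynomial (Fin 2) ℝ}
    (hP : Lead p i j P) (n : ℕ) : Lead p (n * i) (n * j) (P ^ n) := by
  induction n with
  | zero => rw [zero_mul, zero_mul, pow_zero]; exact lead_one p
  | succ n ih =>
    rw [pow_succ, add_mul, add_mul, one_mul, one_mul]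
    exact ih.mul hP

theorem Lead.ord {p : ℝ × ℝ} {i j : ℕ} {P : MvPolynomial (Fin 2) ℝ}
    (hP : Lead p i j P) : Ord (i + j) (shiftP p P) := by
  obtain ⟨c, _, h1⟩ := hP
  have h2 := Ord.add (h1.mono (Nat.le_succ _)) ((ord_monomial i j).mul_left (MvPolynomial.C c))
  rwa [sub_add_cancel] at h2

/-- the coefficients of degree at most `i + j` of the shift -/
theorem Lead.coeff {p : ℝ × ℝ} {i j : ℕ} {P : MvPolynomial (Fin 2) ℝ} (hP : Lead p i j P) :
    (shiftP p P).coeff (Finsupp.single 0 i + Finsupp.single 1 j) ≠ 0 ∧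
    ∀ i' j' : ℕ, i' + j' ≤ i + j → (i', j') ≠ (i, j) →
      (shiftP p P).coeff (Finsupp.single 0 i' + Finsupp.single 1 j') = 0 := by
  obtain ⟨c, hc, h1⟩ := hP
  have hmon : (MvPolynomial.C c * (MvPolynomial.X 0 ^ i * MvPolynomial.X 1 ^ j) :
      MvPolynomial (Fin 2) ℝ) =
      MvPolynomial.monomial (Finsupp.single 0 i + Finsupp.single 1 j) c := by
    rw [MvPolynomial.X_pow_eq_monomial, MvPolynomial.X_pow_eq_monomial,
      MvPolynomial.monomial_mul, MvPolynomial.C_mul_monomial]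
    simp
  rw [hmon, ord_iff] at h1
  have hval : ∀ i' j' : ℕ, (Finsupp.single 0 i' + Finsupp.single 1 j' : Fin 2 →₀ ℕ) 0 = i' ∧
      (Finsupp.single 0 i' + Finsupp.single 1 j' : Fin 2 →₀ ℕ) 1 = j' := by
    intro i' j'
    constructor <;> simp
  have h2 : ∀ i' j' : ℕ, i' + j' ≤ i + j →
      (shiftP p P).coeff (Finsupp.single 0 i' + Finsupp.single 1 j') =
      (MvPolynomial.monomial (Finsupp.single 0 i + Finsupp.single 1 j) c :
        MvPolynomial (Fin 2) ℝ).coeff (Finsupp.single 0 i' + Finsupp.single 1 j') := by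
    intro i' j' h
    have h3 := h1 (Finsupp.single 0 i' + Finsupp.single 1 j')
      (by rw [(hval i' j').1, (hval i' j').2]; omega)
    rw [MvPolynomial.coeff_sub] at h3
    exact sub_eq_zero.1 h3
  constructor
  · rw [h2 i j le_rfl, MvPolynomial.coeff_monomial, if_pos rfl]
    exact hc
  · intro i' j' h hne
    rw [h2 i' j' h, MvPolynomial.coeff_monomial, if_neg]
    intro heq
    apply hne
    have h4 := DFunLike.congr_fun heq 0
    have h5 := DFunLike.congr_fun heq 1
    rw [(hval i j).1, (hval i' j').1] at h4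
    rw [(hval i j).2, (hval i' j').2] at h5
    rw [h4, h5]

theorem lead_of_eval_ne_zero {p : ℝ × ℝ} {P : MvPolynomial (Fin 2) ℝ}
    (h : MvPolynomial.eval ![p.1, p.2] P ≠ 0) : Lead p 0 0 P := by
  refine ⟨_, h, ?_⟩
  rw [ord_iff]
  intro e he
  have he0 : e = 0 := by
    ext i
    fin_cases i
    · simp; omega
    · simp; omega
  rw [he0, pow_zero, pow_zero, mul_one, mul_one, MvPolynomial.coeff_sub,
    MvPolynomial.coeff_zero_C]
  have h1 : (shiftP p P).coeff 0 = MvPolynomial.eval ![0, 0] (shiftP p P) := by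
    rw [← MvPolynomial.constantCoeff_eq]
    have : (![0, 0] : Fin 2 → ℝ) = 0 := by
      ext i
      fin_cases i <;> simp
    rw [this]
    have h2 := MvPolynomial.eval_zero (R := ℝ) (σ := Fin 2)
    rw [h2]
  rw [h1, eval_shiftP, add_zero, add_zero, sub_self]

/-- `x - c` at a point with first coordinate `c` -/
theorem lead_X0 (p : ℝ × ℝ) : Lead p 1 0 (MvPolynomial.X 0 - MvPolynomial.C p.1) := by
  refine ⟨1, one_ne_zero, ?_⟩
  have : shiftP p (MvPolynomial.X 0 - MvPolynomial.C p.1) -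
      MvPolynomial.C 1 * (MvPolynomial.X 0 ^ 1 * MvPolynomial.X 1 ^ 0) = 0 := by
    simp [shiftP]
  rw [this]
  exact Ord.zero

/-- `y` at a point with second coordinate `0` -/
theorem lead_X1 (c : ℝ) : Lead (c, 0) 0 1 (MvPolynomial.X 1) := by
  refine ⟨1, one_ne_zero, ?_⟩
  have : shiftP (c, 0) (MvPolynomial.X 1) -
      MvPolynomial.C 1 * (MvPolynomial.X 0 ^ 0 * MvPolynomial.X 1 ^ 1) = 0 := by
    simp [shiftP]
  rw [this]
  exact Ord.zero

/-- `y - f(x)` at a point `(c, f c)` with `f' c = 0` -/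
theorem lead_curve (f : Polynomial ℝ) (c : ℝ) (h : f.derivative.eval c = 0) :
    Lead (c, f.eval c) 0 1
      (MvPolynomial.X 1 - Polynomial.aeval (MvPolynomial.X 0 : MvPolynomial (Fin 2) ℝ) f) := by
  refine ⟨1, one_ne_zero, ?_⟩
  obtain ⟨g, hg⟩ : (Polynomial.X - Polynomial.C c) ^ 2 ∣ f - Polynomial.C (f.eval c) := by
    rw [Polynomial.X_sub_C_pow_dvd_iff, Polynomial.X_pow_dvd_iff, ← Polynomial.taylor_apply]
    intro d hd
    interval_cases d
    · rw [Polynomial.taylor_coeff_zero]; simp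
    · rw [Polynomial.taylor_coeff_one]; simp [h]
  have hf : f = Polynomial.C (f.eval c) + (Polynomial.X - Polynomial.C c) ^ 2 * g := by
    rw [← hg]; ring
  have h1 : shiftP (c, f.eval c) (Polynomial.aeval (MvPolynomial.X 0) f) =
      MvPolynomial.C (f.eval c) + MvPolynomial.X 0 ^ 2 *
        shiftP (c, f.eval c) (Polynomial.aeval (MvPolynomial.X 0) g) := by
    conv_lhs => rw [hf]
    rw [map_add, map_mul, map_pow, map_sub, Polynomial.aeval_C, Polynomial.aeval_X,
      Polynomial.aeval_C, map_add, map_mul, map_pow, map_sub]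
    simp [shiftP, MvPolynomial.algebraMap_eq]
  have h2 : shiftP (c, f.eval c)
      (MvPolynomial.X 1 - Polynomial.aeval (MvPolynomial.X 0 : MvPolynomial (Fin 2) ℝ) f) -
      MvPolynomial.C 1 * (MvPolynomial.X 0 ^ 0 * MvPolynomial.X 1 ^ 1) =
      (-shiftP (c, f.eval c) (Polynomial.aeval (MvPolynomial.X 0) g)) *
        MvPolynomial.X 0 ^ 2 := by
    rw [map_sub, h1]
    have h3 : shiftP (c, f.eval c) (MvPolynomial.X 1) =
        MvPolynomial.X 1 + MvPolynomial.C (f.eval c) := by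
      simp [shiftP]
    rw [h3, MvPolynomial.C_1]
    ring
  rw [h2]
  have h3 := (ord_X 0).pow 2
  rw [mul_one] at h3
  exact h3.mul_left _

end Pool.Agent.Lib.MP_95e7ec_an
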