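import Mathlib
import Pool.Agent.Lib.MP_95e7ec_an.FatLead

/-!
# Explicit Hermite interpolation at fat points
-/

set_option autoImplicit false

open Set Filter Topology

namespace Pool.Agent.Lib.MP_95e7ec_an

/-- the multiplicities -/
def dd (m : ℕ) {k : ℕ} (i : Fin (k + 1) ⊕ Fin k) : ℕ :=
  Sum.elim (fun _ => m - 1) (fun _ => m - 2) i

section lin

open MvPolynomial

theorem ord_one_of_eval {p : ℝ × ℝ} {P : MvPolynomial (Fin 2) ℝ}
    (h : eval ![p.1, p.2] P = 0) : Ord 1 (shiftP p P) := by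
  rw [ord_iff]
  intro e he
  have he0 : e = 0 := by
    ext i
    fin_cases i
    · simp; omega
    · simp; omega
  have h1 : (shiftP p P).coeff 0 = eval ![0, 0] (shiftP p P) := by
    rw [← constantCoeff_eq]
    have : (![0, 0] : Fin 2 → ℝ) = 0 := by
      ext i
      fin_cases i <;> simp
    rw [this]
    have h2 := MvPolynomial.eval_zero (R := ℝ) (σ := Fin 2)
    rw [h2]
  rw [he0, h1, eval_shiftP, add_zero, add_zero, h]

/-- products of linear factors in `x` -/
noncomputable def linP {A : Type*} (s : Finset A) (x : A → ℝ) : MvPolynomial (Fin 2) ℝ :=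
  ∏ a ∈ s, (X 0 - C (x a))

variable {A : Type*}

theorem linP_totalDegree (s : Finset A) (x : A → ℝ) : (linP s x).totalDegree ≤ s.card := by
  unfold linP
  refine (totalDegree_finsetProd _ _).trans ?_
  rw [Finset.card_eq_sum_ones]
  refine Finset.sum_le_sum fun a _ => ?_
  exact (totalDegree_sub_C_le _ _).trans (by rw [totalDegree_X])

theorem linP_degreeOf (s : Finset A) (x : A → ℝ) : (linP s x).degreeOf 1 ≤ 0 := by
  unfold linP
  refine (degreeOf_prod_le _ _ _).trans ?_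
  rw [nonpos_iff_eq_zero, Finset.sum_eq_zero_iff]
  intro a _
  rw [← nonpos_iff_eq_zero]
  refine (degreeOf_sub_le _ _ _).trans ?_
  rw [degreeOf_C, degreeOf_X]
  simp

theorem linP_eval (s : Finset A) (x : A → ℝ) (p : ℝ × ℝ) :
    eval ![p.1, p.2] (linP s x) = ∏ a ∈ s, (p.1 - x a) := by
  unfold linP
  rw [map_prod]
  simp

theorem linP_lead_zero {s : Finset A} {x : A → ℝ} {p : ℝ × ℝ} (h : ∀ a ∈ s, p.1 ≠ x a) :
    Lead p 0 0 (linP s x) := by
  apply lead_of_eval_ne_zero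
  rw [linP_eval, Finset.prod_ne_zero_iff]
  intro a ha
  exact sub_ne_zero.2 (h a ha)

theorem linP_lead_one [DecidableEq A] {s : Finset A} {x : A → ℝ} {p : ℝ × ℝ} {a : A} (ha : a ∈ s)
    (h : p.1 = x a) (hne : ∀ b ∈ s, b ≠ a → p.1 ≠ x b) : Lead p 1 0 (linP s x) := by
  have h1 : linP s x = (X 0 - C p.1) * linP (s.erase a) x := by
    unfold linP
    rw [h, Finset.mul_prod_erase s (fun a => (X 0 - C (x a) : MvPolynomial (Fin 2) ℝ)) ha]
  rw [h1]
  have h2 := (lead_X0 p).mul (linP_lead_zero (s := s.erase a) (x := x) (p := p) (by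
    intro b hb
    rw [Finset.mem_erase] at hb
    exact hne b hb.2 hb.1))
  simpa using h2

theorem linP_ord {s : Finset A} {x : A → ℝ} {p : ℝ × ℝ} {a : A} (ha : a ∈ s)
    (h : p.1 = x a) : Ord 1 (shiftP p (linP s x)) := by
  apply ord_one_of_eval
  rw [linP_eval]
  exact Finset.prod_eq_zero ha (by rw [h, sub_self])

/-- the curve `y = f(x)` -/
noncomputable def crv (f : Polynomial ℝ) : MvPolynomial (Fin 2) ℝ :=
  X 1 - Polynomial.aeval (X 0 : MvPolynomial (Fin 2) ℝ) f

theorem aeval_prod_lin (s : Finset A) (x : A → ℝ) :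
    Polynomial.aeval (X 0 : MvPolynomial (Fin 2) ℝ)
      (∏ a ∈ s, (Polynomial.X - Polynomial.C (x a))) = linP s x := by
  unfold linP
  rw [map_prod]
  refine Finset.prod_congr rfl fun a _ => ?_
  rw [map_sub, Polynomial.aeval_X, Polynomial.aeval_C, algebraMap_eq]

theorem crv_totalDegree (s : Finset A) (x : A → ℝ) (hs : s.Nonempty) :
    (crv (∏ a ∈ s, (Polynomial.X - Polynomial.C (x a)))).totalDegree ≤ s.card := by
  unfold crv
  rw [aeval_prod_lin]
  refine (totalDegree_sub _ _).trans (max_le ?_ (linP_totalDegree s x))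
  rw [totalDegree_X]
  exact hs.card_pos

theorem crv_degreeOf (s : Finset A) (x : A → ℝ) :
    (crv (∏ a ∈ s, (Polynomial.X - Polynomial.C (x a)))).degreeOf 1 ≤ 1 := by
  unfold crv
  rw [aeval_prod_lin]
  refine (degreeOf_sub_le _ _ _).trans (max_le ?_ ((linP_degreeOf s x).trans zero_le_one))
  rw [degreeOf_X]
  simp

theorem crv_ord {s : Finset A} {x : A → ℝ} {a : A} (ha : a ∈ s) :
    Ord 1 (shiftP (x a, 0) (crv (∏ a ∈ s, (Polynomial.X - Polynomial.C (x a))))) := by
  apply ord_one_of_eval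
  unfold crv
  rw [aeval_prod_lin, map_sub, linP_eval]
  rw [Finset.prod_eq_zero ha (by simp)]
  simp

/-- the interpolation space -/
noncomputable def trap (D m : ℕ) : Submodule ℝ (MvPolynomial (Fin 2) ℝ) where
  carrier := {P | P.totalDegree ≤ D ∧ P.degreeOf 1 ≤ m}
  add_mem' {P Q} hP hQ := ⟨(totalDegree_add _ _).trans (max_le hP.1 hQ.1),
    (degreeOf_add_le _ _ _).trans (max_le hP.2 hQ.2)⟩
  zero_mem' := by simp
  smul_mem' c P hP := by
    refine ⟨(totalDegree_smul_le _ _).trans hP.1, ?_⟩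
    rw [smul_eq_C_mul]
    exact (degreeOf_C_mul_le _ _ _).trans hP.2

theorem mem_trap {D m : ℕ} {P : MvPolynomial (Fin 2) ℝ} :
    P ∈ trap D m ↔ P.totalDegree ≤ D ∧ P.degreeOf 1 ≤ m := Iff.rfl

end lin

section interp

open MvPolynomial

variable {A B : Type} [Fintype A] [Fintype B] [DecidableEq A] [DecidableEq B]

/-- the points -/
noncomputable def ptI (x : A → ℝ) (ξ : B → ℝ) (f : Polynomial ℝ) (i : A ⊕ B) : ℝ × ℝ :=
  Sum.elim (fun a => (x a, 0)) (fun b => (ξ b, f.eval (ξ b))) i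

/-- the polynomials of the triangular system -/
noncomputable def phI (m : ℕ) (x : A → ℝ) (ξ : B → ℝ) (f : Polynomial ℝ) (i : A ⊕ B)
    (α β : ℕ) : MvPolynomial (Fin 2) ℝ :=
  Sum.elim (fun a => X 1 ^ β * (linP Finset.univ x ^ α * linP (Finset.univ.erase a) x))
    (fun b => X 1 ^ (m - 1 - β) * (crv f ^ β * (linP Finset.univ x *
      (linP Finset.univ ξ ^ α * linP (Finset.univ.erase b) ξ)))) i

/-- the orders of the jets -/
def ddI (A B : Type) (m : ℕ) (i : A ⊕ B) : ℕ := Sum.elim (fun _ => m - 1) (fun _ => m - 2) i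

/-- the indices of the triangular system -/
abbrev IxI (A B : Type) (m : ℕ) : Type :=
  {q : (A ⊕ B) × (Fin m × Fin m) // (q.2.1 : ℕ) + q.2.2 ≤ ddI A B m q.1}

theorem phI_lead {m : ℕ} {x : A → ℝ} {ξ : B → ℝ} (hx : Function.Injective x)
    (hξ : Function.Injective ξ) (hne : ∀ a b, ξ b ≠ x a) {f : Polynomial ℝ}
    (hf : f = ∏ a, (Polynomial.X - Polynomial.C (x a)))
    (hcrit : ∀ b, f.derivative.eval (ξ b) = 0) (i : A ⊕ B) (α β : ℕ) :
    Lead (ptI x ξ f i) α β (phI m x ξ f i α β) := by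
  rcases i with a | b
  · have h1 := (lead_X1 (x a)).pow β
    have h2 := (linP_lead_one (s := Finset.univ) (x := x) (p := (x a, 0)) (Finset.mem_univ a) rfl
      (fun b _ hb h => hb (hx h.symm))).pow α
    have h3 := linP_lead_zero (s := Finset.univ.erase a) (x := x) (p := (x a, 0))
      (fun b hb h => (Finset.mem_erase.1 hb).1 (hx h.symm))
    have h4 := h1.mul (h2.mul h3)
    simpa [phI, ptI] using h4
  · have hy : f.eval (ξ b) ≠ 0 := by
      rw [hf, Polynomial.eval_prod, Finset.prod_ne_zero_iff]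
      intro a _
      rw [Polynomial.eval_sub, Polynomial.eval_X, Polynomial.eval_C]
      exact sub_ne_zero.2 (hne a b)
    have h1 := (lead_of_eval_ne_zero (p := (ξ b, f.eval (ξ b))) (P := X 1)
      (by simpa using hy)).pow (m - 1 - β)
    have h2 := (lead_curve f (ξ b) (hcrit b)).pow β
    have h3 := linP_lead_zero (s := Finset.univ) (x := x) (p := (ξ b, f.eval (ξ b)))
      (fun a _ => hne a b)
    have h4 := (linP_lead_one (s := Finset.univ) (x := ξ) (p := (ξ b, f.eval (ξ b)))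
      (Finset.mem_univ b) rfl (fun b' _ hb h => hb (hξ h.symm))).pow α
    have h5 := linP_lead_zero (s := Finset.univ.erase b) (x := ξ) (p := (ξ b, f.eval (ξ b)))
      (fun b' hb h => (Finset.mem_erase.1 hb).1 (hξ h.symm))
    have h6 := h1.mul (h2.mul (h3.mul (h4.mul h5)))
    simpa [phI, ptI, crv] using h6

theorem phI_ord_inl {m : ℕ} {x : A → ℝ} {ξ : B → ℝ} {f : Polynomial ℝ} {a a' : A}
    (h : a' ≠ a) (α β : ℕ) :
    Ord (α + β + 1) (shiftP (ptI x ξ f (Sum.inl a')) (phI m x ξ f (Sum.inl a) α β)) := by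
  have h1 := ((lead_X1 (x a')).ord).pow β
  have h2 := (linP_ord (s := Finset.univ) (x := x) (p := (x a', 0)) (Finset.mem_univ a')
    rfl).pow α
  have h3 := linP_ord (s := Finset.univ.erase a) (x := x) (p := (x a', 0))
    (Finset.mem_erase.2 ⟨h, Finset.mem_univ a'⟩) rfl
  have h4 := h1.mul (h2.mul h3)
  have h5 : shiftP (ptI x ξ f (Sum.inl a')) (phI m x ξ f (Sum.inl a) α β) =
      shiftP (x a', 0) (X 1) ^ β * (shiftP (x a', 0) (linP Finset.univ x) ^ α *
        shiftP (x a', 0) (linP (Finset.univ.erase a) x)) := by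
    simp only [phI, ptI, Sum.elim_inl, map_mul, map_pow]
  rw [h5]
  exact h4.mono (by omega)

theorem phI_ord_inr {m : ℕ} {x : A → ℝ} {ξ : B → ℝ} {f : Polynomial ℝ} {b b' : B}
    (hcrit : ∀ b, f.derivative.eval (ξ b) = 0) (h : b' ≠ b) (α β : ℕ) :
    Ord (α + β + 1) (shiftP (ptI x ξ f (Sum.inr b')) (phI m x ξ f (Sum.inr b) α β)) := by
  have h2 := ((lead_curve f (ξ b') (hcrit b')).ord).pow β
  have h4 := (linP_ord (s := Finset.univ) (x := ξ) (p := (ξ b', f.eval (ξ b')))
      (Finset.mem_univ b') rfl).pow α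
  have h5 := linP_ord (s := Finset.univ.erase b) (x := ξ) (p := (ξ b', f.eval (ξ b')))
      (Finset.mem_erase.2 ⟨h, Finset.mem_univ b'⟩) rfl
  have h6 : shiftP (ptI x ξ f (Sum.inr b')) (phI m x ξ f (Sum.inr b) α β) =
      (shiftP (ξ b', f.eval (ξ b')) (X 1) ^ (m - 1 - β) *
        shiftP (ξ b', f.eval (ξ b')) (linP Finset.univ x)) *
      (shiftP (ξ b', f.eval (ξ b')) (crv f) ^ β *
      (shiftP (ξ b', f.eval (ξ b')) (linP Finset.univ ξ) ^ α *
        shiftP (ξ b', f.eval (ξ b')) (linP (Finset.univ.erase b) ξ))) := by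
    simp only [phI, ptI, Sum.elim_inr, map_mul, map_pow]
    ring
  rw [h6]
  exact ((h2.mul (h4.mul h5)).mul_left _).mono (by omega)

theorem phI_ord_cross {m : ℕ} {x : A → ℝ} {ξ : B → ℝ} {f : Polynomial ℝ}
    (hf : f = ∏ a, (Polynomial.X - Polynomial.C (x a))) (a : A) (b : B) (α β : ℕ)
    (hβ : β ≤ m - 1) :
    Ord (m - 1 + 1) (shiftP (ptI x ξ f (Sum.inl a)) (phI m x ξ f (Sum.inr b) α β)) := by
  have h1 := ((lead_X1 (x a)).ord).pow (m - 1 - β)
  have h2 := (crv_ord (s := Finset.univ) (x := x) (Finset.mem_univ a)).pow β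
  rw [← hf] at h2
  have h3 := linP_ord (s := Finset.univ) (x := x) (p := (x a, 0)) (Finset.mem_univ a) rfl
  have h6 : shiftP (ptI x ξ f (Sum.inl a)) (phI m x ξ f (Sum.inr b) α β) =
      (shiftP (x a, 0) (linP Finset.univ ξ) ^ α *
        shiftP (x a, 0) (linP (Finset.univ.erase b) ξ)) *
      (shiftP (x a, 0) (X 1) ^ (m - 1 - β) * (shiftP (x a, 0) (crv f) ^ β *
        shiftP (x a, 0) (linP Finset.univ x))) := by
    simp only [phI, ptI, Sum.elim_inr, Sum.elim_inl, map_mul, map_pow]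
    ring
  rw [h6]
  exact ((h1.mul (h2.mul h3)).mul_left _).mono (by omega)

theorem pow_totalDegree {P : MvPolynomial (Fin 2) ℝ} {d : ℕ} (h : P.totalDegree ≤ d) (n : ℕ) :
    (P ^ n).totalDegree ≤ n * d :=
  (totalDegree_pow _ _).trans (Nat.mul_le_mul_left n h)

theorem pow_degreeOf {P : MvPolynomial (Fin 2) ℝ} {d : ℕ} (h : P.degreeOf 1 ≤ d) (n : ℕ) :
    (P ^ n).degreeOf 1 ≤ n * d :=
  (degreeOf_pow_le _ _ _).trans (Nat.mul_le_mul_left n h)

theorem mul_totalDegree {P Q : MvPolynomial (Fin 2) ℝ} {d e : ℕ} (h : P.totalDegree ≤ d)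
    (h' : Q.totalDegree ≤ e) : (P * Q).totalDegree ≤ d + e :=
  (totalDegree_mul _ _).trans (Nat.add_le_add h h')

theorem mul_degreeOf {P Q : MvPolynomial (Fin 2) ℝ} {d e : ℕ} (h : P.degreeOf 1 ≤ d)
    (h' : Q.degreeOf 1 ≤ e) : (P * Q).degreeOf 1 ≤ d + e :=
  (degreeOf_mul_le _ _ _).trans (Nat.add_le_add h h')

theorem phI_mem {m k : ℕ} (hm : 2 ≤ m) (hA : Fintype.card A = k + 1) (hB : Fintype.card B = k)
    {x : A → ℝ} {ξ : B → ℝ} {f : Polynomial ℝ}
    (hf : f = ∏ a, (Polynomial.X - Polynomial.C (x a))) (i : A ⊕ B) (α β : ℕ)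
    (h : α + β ≤ ddI A B m i) : phI m x ξ f i α β ∈ trap ((k + 1) * m - 1) (m - 1) := by
  have hX : (X 1 : MvPolynomial (Fin 2) ℝ).totalDegree ≤ 1 := by rw [totalDegree_X]
  have hX' : (X 1 : MvPolynomial (Fin 2) ℝ).degreeOf 1 ≤ 1 := by rw [degreeOf_X]; simp
  have hl := linP_totalDegree (Finset.univ : Finset A) x
  have hl' := linP_degreeOf (Finset.univ : Finset A) x
  rw [Finset.card_univ, hA] at hl
  rw [mem_trap]
  rcases i with a | b
  · simp only [ddI, Sum.elim_inl] at h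
    simp only [phI, Sum.elim_inl]
    have he := linP_totalDegree ((Finset.univ : Finset A).erase a) x
    have he' := linP_degreeOf ((Finset.univ : Finset A).erase a) x
    rw [Finset.card_erase_of_mem (Finset.mem_univ a), Finset.card_univ, hA] at he
    constructor
    · refine (mul_totalDegree (pow_totalDegree hX β)
        (mul_totalDegree (pow_totalDegree hl α) he)).trans ?_
      obtain ⟨n, rfl⟩ : ∃ n, m = n + 1 := ⟨m - 1, by omega⟩
      have h1 : (k + 1) * (n + 1) - 1 = (k + 1) * n + k := by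
        rw [mul_add, mul_one]; omega
      rw [h1]
      have h2 : β + α ≤ n := by omega
      simp only [Nat.add_sub_cancel]
      nlinarith [Nat.mul_le_mul_left (k + 1) h2, Nat.zero_le (k * β)]
    · refine (mul_degreeOf (pow_degreeOf hX' β)
        (mul_degreeOf (pow_degreeOf hl' α) he')).trans ?_
      omega
  · simp only [ddI, Sum.elim_inr] at h
    simp only [phI, Sum.elim_inr]
    have hk : 1 ≤ k := by
      rw [← hB]
      exact Fintype.card_pos_iff.2 ⟨b⟩
    have hAne : (Finset.univ : Finset A).Nonempty := by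
      rw [← Finset.card_pos, Finset.card_univ, hA]
      omega
    have hm2 := linP_totalDegree (Finset.univ : Finset B) ξ
    have hm2' := linP_degreeOf (Finset.univ : Finset B) ξ
    rw [Finset.card_univ, hB] at hm2
    have he := linP_totalDegree ((Finset.univ : Finset B).erase b) ξ
    have he' := linP_degreeOf ((Finset.univ : Finset B).erase b) ξ
    rw [Finset.card_erase_of_mem (Finset.mem_univ b), Finset.card_univ, hB] at he
    have hc := crv_totalDegree (Finset.univ : Finset A) x hAne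
    have hc' := crv_degreeOf (Finset.univ : Finset A) x
    rw [Finset.card_univ, hA, ← hf] at hc
    rw [← hf] at hc'
    constructor
    · refine (mul_totalDegree (pow_totalDegree hX (m - 1 - β))
        (mul_totalDegree (pow_totalDegree hc β) (mul_totalDegree hl
          (mul_totalDegree (pow_totalDegree hm2 α) he)))).trans ?_
      obtain ⟨n, rfl⟩ : ∃ n, m = n + 2 := ⟨m - 2, by omega⟩
      obtain ⟨j, rfl⟩ : ∃ j, k = j + 1 := ⟨k - 1, by omega⟩
      obtain ⟨r, hr⟩ : ∃ r, n = α + β + r := ⟨n - (α + β), by omega⟩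
      have h1 : n + 2 - 1 - β = α + r + 1 := by omega
      have h2 : (j + 1 + 1) * (n + 2) - 1 = (j + 1 + 1) * n + 2 * j + 3 := by
        have : (j + 1 + 1) * (n + 2) = (j + 1 + 1) * n + 2 * j + 3 + 1 := by ring
        omega
      rw [h1, h2, hr]
      simp only [Nat.add_sub_cancel]
      nlinarith [Nat.zero_le (j * r), Nat.zero_le r]
    · refine (mul_degreeOf (pow_degreeOf hX' (m - 1 - β))
        (mul_degreeOf (pow_degreeOf hc' β) (mul_degreeOf hl'
          (mul_degreeOf (pow_degreeOf hm2' α) he')))).trans ?_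
      omega

/-- Hermite interpolation -/
theorem interp {m k : ℕ} (hm : 2 ≤ m) (hA : Fintype.card A = k + 1) (hB : Fintype.card B = k)
    {x : A → ℝ} {ξ : B → ℝ} (hx : Function.Injective x)
    (hξ : Function.Injective ξ) (hne : ∀ a b, ξ b ≠ x a) {f : Polynomial ℝ}
    (hf : f = ∏ a, (Polynomial.X - Polynomial.C (x a)))
    (hcrit : ∀ b, f.derivative.eval (ξ b) = 0) (w : IxI A B m → ℝ) :
    ∃ P ∈ trap ((k + 1) * m - 1) (m - 1), ∀ q : IxI A B m,
      (shiftP (ptI x ξ f q.1.1) P).coeff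
        (Finsupp.single 0 (q.1.2.1 : ℕ) + Finsupp.single 1 (q.1.2.2 : ℕ)) = w q := by
  let J : IxI A B m → trap ((k + 1) * m - 1) (m - 1) →ₗ[ℝ] ℝ := fun q =>
    (lcoeff ℝ (Finsupp.single 0 (q.1.2.1 : ℕ) + Finsupp.single 1 (q.1.2.2 : ℕ))) ∘ₗ
      (shiftP (ptI x ξ f q.1.1)).toLinearMap ∘ₗ (trap ((k + 1) * m - 1) (m - 1)).subtype
  let r : IxI A B m → ℕ := fun q => Sum.elim (fun _ => 0) (fun _ => m) q.1.1 +
    ((q.1.2.1 : ℕ) + (q.1.2.2 : ℕ))
  let Φ : IxI A B m → trap ((k + 1) * m - 1) (m - 1) := fun q =>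
    ⟨phI m x ξ f q.1.1 q.1.2.1 q.1.2.2, phI_mem hm hA hB hf _ _ _ q.2⟩
  have hJ : ∀ (q : IxI A B m) (P : trap ((k + 1) * m - 1) (m - 1)), J q P =
      (shiftP (ptI x ξ f q.1.1) P).coeff
        (Finsupp.single 0 (q.1.2.1 : ℕ) + Finsupp.single 1 (q.1.2.2 : ℕ)) := by
    intro q P
    rfl
  suffices h : (∀ q, J q (Φ q) ≠ 0) ∧ ∀ i j, j ≠ i → r j ≤ r i → J j (Φ i) = 0 by
    obtain ⟨P, hP⟩ := triangular J r Φ h.1 h.2 w
    exact ⟨P, P.2, fun q => by rw [← hJ]; exact hP q⟩
  constructor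
  · intro q
    rw [hJ]
    exact (phI_lead hx hξ hne hf hcrit _ _ _).coeff.1
  · intro i j hji hr
    rw [hJ]
    obtain ⟨⟨i, α, β⟩, hi⟩ := i
    obtain ⟨⟨j, α', β'⟩, hj⟩ := j
    simp only [r] at hr
    simp only [Φ]
    simp only [ddI] at hi hj
    have hord : ∀ {p : ℝ × ℝ} {Q : MvPolynomial (Fin 2) ℝ} {n : ℕ}, Ord n (shiftP p Q) →
        (α' : ℕ) + (β' : ℕ) < n → (shiftP p Q).coeff
        (Finsupp.single 0 (α' : ℕ) + Finsupp.single 1 (β' : ℕ)) = 0 := by
      intro p Q n hn hlt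
      rw [ord_iff] at hn
      apply hn
      simpa using hlt
    by_cases hij : j = i
    · subst hij
      apply (phI_lead hx hξ hne hf hcrit j α β).coeff.2
      · rcases j with a | b
        · simp only [Sum.elim_inl] at hr
          omega
        · simp only [Sum.elim_inr] at hr
          omega
      · intro h
        apply hji
        rw [Prod.mk.injEq] at h
        have h1 : α' = α := Fin.ext h.1
        have h2 : β' = β := Fin.ext h.2
        subst h1 h2
        rfl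
    · rcases i with a | b <;> rcases j with a' | b'
      · simp only [Sum.elim_inl] at hr
        refine hord (phI_ord_inl (fun h => hij (by rw [h])) _ _) (by omega)
      · simp only [Sum.elim_inl, Sum.elim_inr] at hr hi
        omega
      · simp only [Sum.elim_inl, Sum.elim_inr] at hr hi hj
        exact hord (phI_ord_cross hf _ _ _ _ (by omega)) (by omega)
      · simp only [Sum.elim_inr] at hr
        refine hord (phI_ord_inr hcrit (fun h => hij (by rw [h])) _ _) (by omega)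

/-- Rolle points of `∏ (x - l)` -/
theorem exists_rolle (k : ℕ) : ∃ ξ : Fin k → ℝ, ∀ b : Fin k, (b : ℝ) < ξ b ∧ ξ b < (b : ℝ) + 1 ∧
    (∏ a : Fin (k + 1), (Polynomial.X - Polynomial.C ((a : ℕ) : ℝ))).derivative.eval (ξ b)
      = 0 := by
  have key : ∀ b : Fin k, ∃ c : ℝ, (b : ℝ) < c ∧ c < (b : ℝ) + 1 ∧
      (∏ a : Fin (k + 1), (Polynomial.X - Polynomial.C ((a : ℕ) : ℝ))).derivative.eval c
        = 0 := by
    intro b
    set f : Polynomial ℝ := ∏ a : Fin (k + 1), (Polynomial.X - Polynomial.C ((a : ℕ) : ℝ))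
      with hf
    have hz : ∀ n : ℕ, n < k + 1 → f.eval (n : ℝ) = 0 := by
      intro n hn
      rw [hf, Polynomial.eval_prod]
      refine Finset.prod_eq_zero (Finset.mem_univ (⟨n, hn⟩ : Fin (k + 1))) ?_
      simp
    obtain ⟨c, hc, hc'⟩ := exists_deriv_eq_zero (f := fun t => f.eval t) (a := (b : ℝ))
      (b := (b : ℝ) + 1) (by linarith) f.continuous.continuousOn (by
        have h1 := hz b (by omega)
        have h2 := hz (b + 1) (by omega)
        push_cast at h2
        simp only [h1, h2])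
    refine ⟨c, hc.1, hc.2, ?_⟩
    rw [Polynomial.deriv] at hc'
    exact hc'
  choose ξ hξ using key
  exact ⟨ξ, hξ⟩

end interp

/-- Hermite interpolation in the trapezoid `i + j ≤ (k+1) m - 1`, `j < m`. -/
theorem exists_dual (m k : ℕ) (hm : 2 ≤ m) :
    ∃ p : Fin (k + 1) ⊕ Fin k → ℝ × ℝ, Function.Injective p ∧
      ∃ Ψ : Fin (k + 1) ⊕ Fin k → ℕ × ℕ → MvPolynomial (Fin 2) ℝ,
        ∀ i (γ : ℕ × ℕ), γ.1 + γ.2 ≤ dd m i →
          (Ψ i γ).totalDegree ≤ (k + 1) * m - 1 ∧ (Ψ i γ).degreeOf 1 < m ∧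
          Ord (dd m i + 1)
            (shiftP (p i) (Ψ i γ) - MvPolynomial.X 0 ^ γ.1 * MvPolynomial.X 1 ^ γ.2) ∧
          ∀ j, j ≠ i → Ord (dd m j + 1) (shiftP (p j) (Ψ i γ)) := by
  obtain ⟨ξ, hξ⟩ := exists_rolle k
  set f : Polynomial ℝ := ∏ a : Fin (k + 1), (Polynomial.X - Polynomial.C ((a : ℕ) : ℝ))
    with hf
  have hx : Function.Injective (fun a : Fin (k + 1) => ((a : ℕ) : ℝ)) := by
    intro a b h
    have h' : ((a : ℕ) : ℝ) = ((b : ℕ) : ℝ) := h
    exact Fin.ext (by exact_mod_cast h')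
  have hξi : Function.Injective ξ := by
    intro b b' h
    have h1 := hξ b
    have h2 := hξ b'
    rw [h] at h1
    have h3 : (b : ℝ) < (b' : ℝ) + 1 := by linarith
    have h4 : (b' : ℝ) < (b : ℝ) + 1 := by linarith
    have h5 : (b : ℕ) < (b' : ℕ) + 1 := by exact_mod_cast h3
    have h6 : (b' : ℕ) < (b : ℕ) + 1 := by exact_mod_cast h4
    exact Fin.ext (by omega)
  have hne : ∀ (a : Fin (k + 1)) (b : Fin k), ξ b ≠ ((a : ℕ) : ℝ) := by
    intro a b h
    have h1 := hξ b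
    rw [h] at h1
    have h3 : (b : ℕ) < (a : ℕ) := by exact_mod_cast h1.1
    have h4 : (a : ℕ) < (b : ℕ) + 1 := by exact_mod_cast h1.2.1
    omega
  have hdd : ∀ i : Fin (k + 1) ⊕ Fin k, dd m i ≤ m - 1 := by
    rintro (i | i)
    · exact le_rfl
    · show m - 2 ≤ m - 1
      omega
  have key : ∀ i (γ : ℕ × ℕ), ∃ P : MvPolynomial (Fin 2) ℝ, γ.1 + γ.2 ≤ dd m i →
      P.totalDegree ≤ (k + 1) * m - 1 ∧ P.degreeOf 1 < m ∧
      Ord (dd m i + 1) (shiftP (ptI (fun a : Fin (k + 1) => ((a : ℕ) : ℝ)) ξ f i) P -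
        MvPolynomial.X 0 ^ γ.1 * MvPolynomial.X 1 ^ γ.2) ∧
      ∀ j, j ≠ i → Ord (dd m j + 1)
        (shiftP (ptI (fun a : Fin (k + 1) => ((a : ℕ) : ℝ)) ξ f j) P) := by
    intro i γ
    by_cases h : γ.1 + γ.2 ≤ dd m i
    swap
    · exact ⟨0, fun h' => absurd h' h⟩
    have hi := hdd i
    classical
    let q0 : IxI (Fin (k + 1)) (Fin k) m :=
      ⟨(i, (⟨γ.1, by omega⟩, ⟨γ.2, by omega⟩)), h⟩
    obtain ⟨P, hPm, hP⟩ := interp hm (Fintype.card_fin _) (Fintype.card_fin _) hx hξi hne hf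
      (fun b => (hξ b).2.2) (fun q => if q = q0 then 1 else 0)
    rw [mem_trap] at hPm
    have hcoef : ∀ (j : Fin (k + 1) ⊕ Fin k) (e : Fin 2 →₀ ℕ) (he : e 0 + e 1 < dd m j + 1),
        (shiftP (ptI (fun a : Fin (k + 1) => ((a : ℕ) : ℝ)) ξ f j) P).coeff e =
          if (j = i ∧ e 0 = γ.1 ∧ e 1 = γ.2) then 1 else 0 := by
      intro j e he
      have hj := hdd j
      have h1 := hP ⟨(j, (⟨e 0, by omega⟩, ⟨e 1, by omega⟩)), Nat.lt_succ_iff.1 he⟩
      have h2 : (Finsupp.single 0 (e 0) + Finsupp.single 1 (e 1) : Fin 2 →₀ ℕ) = e := by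
        ext t
        fin_cases t <;> simp
      simp only [h2] at h1
      rw [h1]
      refine if_congr ?_ rfl rfl
      rw [Subtype.ext_iff]
      simp only [q0, Prod.mk.injEq, Fin.mk.injEq]
    refine ⟨P, fun _ => ⟨hPm.1, lt_of_le_of_lt hPm.2 (by omega), ?_, ?_⟩⟩
    · rw [ord_iff]
      intro e he
      rw [MvPolynomial.coeff_sub, hcoef i e he, MvPolynomial.X_pow_eq_monomial,
        MvPolynomial.X_pow_eq_monomial, MvPolynomial.monomial_mul, MvPolynomial.coeff_monomial,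
        mul_one, sub_eq_zero]
      refine if_congr ?_ rfl rfl
      constructor
      · rintro ⟨_, h1, h2⟩
        rw [← h1, ← h2]
        ext t
        fin_cases t <;> simp
      · intro h1
        refine ⟨rfl, ?_, ?_⟩
        · rw [← h1]; simp
        · rw [← h1]; simp
    · intro j hj
      rw [ord_iff]
      intro e he
      rw [hcoef j e he, if_neg]
      exact fun h => hj h.1
  choose Ψ hΨ using key
  refine ⟨ptI (fun a : Fin (k + 1) => ((a : ℕ) : ℝ)) ξ f, ?_, Ψ, hΨ⟩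
  rintro (a | b) (a' | b') h
  · simp only [ptI, Sum.elim_inl, Prod.mk.injEq, and_true] at h
    rw [hx h]
  · simp only [ptI, Sum.elim_inl, Sum.elim_inr, Prod.mk.injEq] at h
    exact absurd h.1.symm (hne _ _)
  · simp only [ptI, Sum.elim_inl, Sum.elim_inr, Prod.mk.injEq] at h
    exact absurd h.1 (hne _ _)
  · simp only [ptI, Sum.elim_inr, Prod.mk.injEq] at h
    rw [hξi h.1]

end Pool.Agent.Lib.MP_95e7ec_an
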