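import Mathlib

/-!
# Asymptotics of the recursion `H (2 n + 6) ≥ 4 H n + 4 n² + 16 n - 6` (task E13)
-/

set_option autoImplicit false

namespace Pool.Agent.Lib.MP_95e7ec_an

theorem foldAsymp_iter (H : ℕ → ℕ∞)
    (hrec : ∀ n : ℕ, 1 ≤ n → 4 * H n + ((4 * n ^ 2 + 16 * n - 6 : ℕ) : ℕ∞) ≤ H (2 * n + 6))
    (a : ℕ) (ha : 7 ≤ a) (k : ℕ) :
    ENNReal.ofReal (4 ^ k * (k * (a : ℝ) ^ 2 - 16 * a) + 16 * a * 2 ^ k) ≤
      ((H (2 ^ k * a - 6) : ℕ∞) : ENNReal) := by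
  induction k with
  | zero =>
    have : (4 : ℝ) ^ 0 * (((0 : ℕ) : ℝ) * (a : ℝ) ^ 2 - 16 * a) + 16 * a * 2 ^ 0 = 0 := by
      push_cast; ring
    rw [this, ENNReal.ofReal_zero]
    exact zero_le
  | succ k ih =>
    have hk : 7 ≤ 2 ^ k * a := le_trans ha (Nat.le_mul_of_pos_left a (by positivity))
    have h1 := hrec (2 ^ k * a - 6) (by omega)
    have h2 : 2 * (2 ^ k * a - 6) + 6 = 2 ^ (k + 1) * a - 6 := by
      rw [pow_succ]
      have : 2 ^ k * 2 * a = 2 * (2 ^ k * a) := by ring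
      rw [this]
      omega
    rw [h2] at h1
    have h3 := ENat.toENNReal_le.2 h1
    refine le_trans ?_ h3
    rw [ENat.toENNReal_add, ENat.toENNReal_mul]
    have h4 : ((4 : ℕ∞) : ENNReal) = 4 := by norm_cast
    rw [h4, ENat.toENNReal_coe]
    refine le_trans ?_ (add_le_add_left (mul_le_mul_right ih 4) _)
    set n : ℕ := 2 ^ k * a - 6 with hn
    have hnr : (n : ℝ) = 2 ^ k * a - 6 := by
      rw [hn, Nat.cast_sub (by omega)]
      push_cast; ring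
    have hc : ((4 * n ^ 2 + 16 * n - 6 : ℕ) : ℝ) = 4 * (n : ℝ) ^ 2 + 16 * n - 6 := by
      rw [Nat.cast_sub (by nlinarith [show 1 ≤ n by omega])]
      push_cast; ring
    have hc' : ((4 * n ^ 2 + 16 * n - 6 : ℕ) : ENNReal) =
        ENNReal.ofReal (4 * (n : ℝ) ^ 2 + 16 * n - 6) := by
      rw [← hc, ENNReal.ofReal_natCast]
    rw [hc']
    have h4' : (4 : ENNReal) = ENNReal.ofReal 4 := by norm_num
    rw [h4', ← ENNReal.ofReal_mul (by norm_num)]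
    refine le_trans (ENNReal.ofReal_le_ofReal ?_) ENNReal.ofReal_add_le
    rw [hnr]
    push_cast
    have e4 : (4 : ℝ) ^ (k + 1) = 4 * (2 ^ k) ^ 2 := by
      rw [pow_succ, ← pow_mul, mul_comm k 2, pow_mul]; norm_num; ring
    have e4' : (4 : ℝ) ^ k = (2 ^ k) ^ 2 := by
      rw [← pow_mul, mul_comm k 2, pow_mul]; norm_num
    have e2 : (2 : ℝ) ^ (k + 1) = 2 * 2 ^ k := by rw [pow_succ]; ring
    rw [e4, e4', e2]
    nlinarith

theorem asymp_of_recursion (H : ℕ → ℕ∞) (hmono : Monotone H)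
    (hrec : ∀ n : ℕ, 1 ≤ n → 4 * H n + ((4 * n ^ 2 + 16 * n - 6 : ℕ) : ℕ∞) ≤ H (2 * n + 6))
    (ε : ℝ) (hε : 0 < ε) : ∃ n0 : ℕ, ∀ n : ℕ, n0 ≤ n →
      ENNReal.ofReal ((1 - ε) * n ^ 2 * Real.logb 2 n) ≤ ((H n : ℕ∞) : ENNReal) := by
  rcases le_or_gt 1 ε with h1 | h1
  · refine ⟨1, fun n hn => ?_⟩
    rw [ENNReal.ofReal_of_nonpos]
    · exact zero_le
    · have : 0 ≤ Real.logb 2 n := Real.logb_nonneg (by norm_num) (by exact_mod_cast hn)
      have h2 : (0 : ℝ) ≤ (n : ℝ) ^ 2 := by positivity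
      nlinarith [mul_nonneg h2 this]
  obtain ⟨A, hA⟩ := exists_nat_ge (6 / ε + 16)
  have hA16 : (16 : ℝ) ≤ A := by
    have : 0 < 6 / ε := by positivity
    linarith
  have hAε : 6 ≤ ε * A := by
    have h2 : 6 / ε ≤ A := by linarith
    rw [div_le_iff₀ hε] at h2
    linarith
  have hA16' : 16 ≤ A := by exact_mod_cast hA16
  obtain ⟨K, hK⟩ := exists_nat_ge ((4 * A + 2) / ε)
  refine ⟨2 ^ K * A, fun n hn => ?_⟩
  set m : ℕ := n + 6 with hm
  set k : ℕ := Nat.log 2 (m / A) with hk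
  set a : ℕ := m / 2 ^ k with haa
  have hApos : 0 < A := by omega
  have hmA : 2 ^ K ≤ m / A := by
    rw [Nat.le_div_iff_mul_le hApos]
    omega
  have hKk : K ≤ k := by
    rw [hk]
    exact Nat.le_log_of_pow_le (by norm_num) hmA
  have h2k : 2 ^ k ≤ m / A := by
    rw [hk]
    apply Nat.pow_log_le_self
    have : 0 < 2 ^ K := by positivity
    omega
  have h2k' : m / A < 2 ^ (k + 1) := by
    rw [hk]
    exact Nat.lt_pow_succ_log_self (by norm_num) _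
  have hpk : 0 < 2 ^ k := by positivity
  have hAa : A ≤ a := by
    rw [haa, Nat.le_div_iff_mul_le hpk]
    rw [Nat.le_div_iff_mul_le hApos] at h2k
    linarith [mul_comm A (2 ^ k)]
  have ha2A : a < 2 * A := by
    rw [haa, Nat.div_lt_iff_lt_mul hpk]
    rw [Nat.div_lt_iff_lt_mul hApos] at h2k'
    calc m < 2 ^ (k + 1) * A := h2k'
      _ = 2 * A * 2 ^ k := by ring
  have ham : 2 ^ k * a ≤ m := Nat.mul_div_le m (2 ^ k)
  have hma : m < 2 ^ k * (a + 1) := by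
    rw [haa]
    exact Nat.lt_mul_div_succ m hpk
  have hiter := foldAsymp_iter H hrec a (by omega) k
  have hmn : H (2 ^ k * a - 6) ≤ H n := hmono (by omega)
  refine le_trans ?_ (le_trans hiter (ENat.toENNReal_le.2 hmn))
  apply ENNReal.ofReal_le_ofReal
  have hn1 : (1 : ℝ) ≤ n := by
    have h3 : 1 ≤ 2 ^ K * A := Nat.mul_pos (by positivity) hApos
    exact_mod_cast le_trans h3 hn
  have hnlt : (n : ℝ) ≤ 2 ^ k * (a + 1) := by
    have : n ≤ 2 ^ k * (a + 1) := by omega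
    exact_mod_cast this
  have haR : (A : ℝ) ≤ a := by exact_mod_cast hAa
  have ha2R : (a : ℝ) + 1 ≤ 2 * A := by exact_mod_cast ha2A
  have hlog : Real.logb 2 n ≤ k + 2 * A := by
    have h3 : Real.logb 2 n ≤ Real.logb 2 (2 ^ k * (a + 1)) :=
      Real.logb_le_logb_of_le (by norm_num) (by linarith) hnlt
    have h4 : Real.logb 2 (2 ^ k * ((a : ℝ) + 1)) = k + Real.logb 2 (a + 1) := by
      rw [Real.logb_mul (by positivity) (by positivity), Real.logb_pow, Real.logb_self_eq_one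
        (by norm_num)]
      ring
    have h5 : Real.logb 2 ((a : ℝ) + 1) ≤ a + 1 := by
      rw [Real.logb_le_iff_le_rpow (by norm_num) (by positivity)]
      have h6 : (a + 1 : ℕ) < 2 ^ (a + 1) := Nat.lt_two_pow_self
      have h7 : ((a : ℝ) + 1) ≤ 2 ^ (a + 1) := by exact_mod_cast h6.le
      calc ((a : ℝ) + 1) ≤ 2 ^ (a + 1) := h7
        _ = (2 : ℝ) ^ (((a + 1 : ℕ) : ℝ)) := by rw [Real.rpow_natCast]
        _ = (2 : ℝ) ^ ((a : ℝ) + 1) := by push_cast; rfl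
    linarith
  have hlog0 : 0 ≤ Real.logb 2 n := Real.logb_nonneg (by norm_num) hn1
  have hKr : (4 * A + 2) ≤ ε * k := by
    have h3 : (4 * (A : ℝ) + 2) / ε ≤ k := hK.trans (by exact_mod_cast hKk)
    rw [div_le_iff₀ hε] at h3
    linarith
  have hk0 : (0 : ℝ) ≤ k := by positivity
  have hsq : (n : ℝ) ^ 2 ≤ 4 ^ k * (a + 1) ^ 2 := by
    have e4' : (4 : ℝ) ^ k = (2 ^ k) ^ 2 := by
      rw [← pow_mul, mul_comm k 2, pow_mul]; norm_num
    rw [e4', ← mul_pow]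
    exact pow_le_pow_left₀ (by positivity) hnlt 2
  have ha0 : (16 : ℝ) ≤ a := by linarith
  have hstep : (1 - ε) * (a + 1) ^ 2 ≤ (1 - ε / 2) * (a : ℝ) ^ 2 := by
    have h3 : 6 ≤ ε * a := le_trans hAε (by nlinarith)
    nlinarith
  have hkey : (1 - ε) * ((a : ℝ) + 1) ^ 2 * (k + 2 * A) ≤ k * (a : ℝ) ^ 2 - 16 * a := by
    have h3 : (1 - ε) * ((a : ℝ) + 1) ^ 2 * (k + 2 * A) ≤
        (1 - ε / 2) * (a : ℝ) ^ 2 * (k + 2 * A) :=
      mul_le_mul_of_nonneg_right hstep (by positivity)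
    have h4 : (1 - ε / 2) * (k + 2 * A) ≤ k - 1 := by nlinarith
    have h5 : (1 - ε / 2) * (a : ℝ) ^ 2 * (k + 2 * A) ≤ (a : ℝ) ^ 2 * (k - 1) := by
      have : (a : ℝ) ^ 2 * ((1 - ε / 2) * (k + 2 * A)) ≤ (a : ℝ) ^ 2 * (k - 1) :=
        mul_le_mul_of_nonneg_left h4 (by positivity)
      linarith
    nlinarith
  have hfin : (1 - ε) * (n : ℝ) ^ 2 * Real.logb 2 n ≤
      4 ^ k * ((1 - ε) * ((a : ℝ) + 1) ^ 2 * (k + 2 * A)) := by
    have h3 : (1 - ε) * (n : ℝ) ^ 2 ≤ (1 - ε) * (4 ^ k * (a + 1) ^ 2) :=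
      mul_le_mul_of_nonneg_left hsq (by linarith)
    calc (1 - ε) * (n : ℝ) ^ 2 * Real.logb 2 n
        ≤ (1 - ε) * (4 ^ k * (a + 1) ^ 2) * (k + 2 * A) := by
          apply mul_le_mul h3 hlog hlog0
          have : 0 ≤ 1 - ε := by linarith
          positivity
      _ = 4 ^ k * ((1 - ε) * ((a : ℝ) + 1) ^ 2 * (k + 2 * A)) := by ring
  have hpos : (0 : ℝ) ≤ 16 * a * 2 ^ k := by positivity
  have h4k : (0 : ℝ) < 4 ^ k := by positivity
  have := mul_le_mul_of_nonneg_left hkey h4k.le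
  linarith

end Pool.Agent.Lib.MP_95e7ec_an
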