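import Mathlib
import Pool.Agent.Lib.MP_95e7ec_an.FatDefs

/-!
# Folding a planar polynomial system: definitions
-/

set_option autoImplicit false

open Set Filter Topology

namespace Pool.Agent.Lib.MP_95e7ec_an

/-! ### Classes of polynomial vector fields given by rows of exponents -/

/-- All exponents `(i,j)` of `P` satisfy `j < L` and `i ≤ N j`. -/
def InRow (L : ℕ) (N : ℕ → ℕ) (P : MvPolynomial (Fin 2) ℝ) : Prop :=
  ∀ d ∈ P.support, d 1 < L ∧ d 0 ≤ N (d 1)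

/-- The supremum of the number of limit cycles of the systems with both components in the class
`InRow L N`. -/
noncomputable def rowNumber (L : ℕ) (N : ℕ → ℕ) : ℕ∞ :=
  ⨆ (P : MvPolynomial (Fin 2) ℝ) (Q : MvPolynomial (Fin 2) ℝ)
    (_ : InRow L N P) (_ : InRow L N Q), {C | IsLimitCycle (vf P Q) C}.encard

/-! ### Arrays near the linear centre `(-y, x)` -/

/-- The array of the monomial `x^α y^β`. -/
def monoArr (D α β : ℕ) : Co D := fun a b => if (a : ℕ) = α ∧ (b : ℕ) = β then 1 else 0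

/-- The linear centre `(-y, x)`. -/
def linArr (D : ℕ) : Pr D := (-monoArr D 0 1, monoArr D 1 0)

/-- The rescaled field `r⁻¹ μ(r ·)` (for fields vanishing at the origin). -/
def scArr {D : ℕ} (r : ℝ) (μ : Pr D) : Pr D :=
  (fun a b => μ.1 a b * r ^ ((a : ℕ) + (b : ℕ) - 1), fun a b => μ.2 a b * r ^ ((a : ℕ) + (b : ℕ) - 1))

/-- The field vanishes at the origin. -/
def NoConst {D : ℕ} (μ : Pr D) : Prop := μ.1 0 0 = 0 ∧ μ.2 0 0 = 0

/-- The field is reversible with respect to `y ↦ -y`: its first component is odd and its second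
component is even in `y`. -/
def RevArr {D : ℕ} (μ : Pr D) : Prop :=
  (∀ a b : Fin (D + 1), Even (b : ℕ) → μ.1 a b = 0) ∧
    (∀ a b : Fin (D + 1), Odd (b : ℕ) → μ.2 a b = 0)

/-- The local theory of the fields near the linear centre `(-y, x)`: `disp μ` is the displacement
of the first return map on the positive `x`-axis at the point `(1,0)` (the orbit of `(1,0)` returns
to `(1 - disp μ, 0)`). -/
structure CentreChart (D : ℕ) where
  nbhd : Set (Pr D)
  disp : Pr D → ℝ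
  isOpen : IsOpen nbhd
  mem : linArr D ∈ nbhd
  analytic : AnalyticOnNhd ℝ disp nbhd
  rev : ∀ μ ∈ nbhd, RevArr μ → disp μ = 0
  cycles : ∀ (m : ℝ → Pr D) (a1 a2 : ℝ), 0 < a1 → a1 < a2 →
    (∀ a ∈ Set.Icc a1 a2, m a ∈ nbhd) → (∀ a ∈ Set.Icc a1 a2, AnalyticAt ℝ m a) →
    (∀ a r : ℝ, 0 < a → 0 < r → m (r * a) = scArr r (m a)) → (∀ a, NoConst (m a)) →
    disp (m a1) * disp (m a2) < 0 →
    ∃ a ∈ Set.Ioo a1 a2, ∃ C : Set (ℝ × ℝ), IsLimitCycle (vfc (m a)) C ∧
      ((1 : ℝ), (0 : ℝ)) ∈ C ∧ (∀ X : ℝ, 0 < X → (X, (0 : ℝ)) ∈ C → X = 1) ∧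
      C ⊆ Metric.ball 0 2
  deriv_odd : ∀ j : ℕ, 2 * j + 1 ≤ D →
    fderiv ℝ disp (linArr D) ((0, monoArr D 0 (2 * j + 1)) : Pr D) ≠ 0
  deriv_even : ∀ (L k : ℕ) (κ : ℝ), 1 ≤ L → 1 ≤ k → 2 * L + 2 * k - 1 ≤ D →
    linArr D + κ • ((0, monoArr D 0 (2 * L)) : Pr D) ∈ nbhd →
    fderiv ℝ disp (linArr D + κ • ((0, monoArr D 0 (2 * L)) : Pr D))
        ((monoArr D 0 (2 * k), 0) : Pr D) =
      κ * (2 * L / (2 * k + 1)) *
        fderiv ℝ disp (linArr D + κ • ((0, monoArr D 0 (2 * L)) : Pr D))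
          ((0, monoArr D 0 (2 * L + 2 * k - 1)) : Pr D)

/-! ### Fields with centres on the axis `y = 0` -/

/-- `b(x) = ∏_{i<ν} (x - i)` -/
noncomputable def bb (ν : ℕ) : Polynomial ℝ :=
  ∏ i ∈ Finset.range ν, (Polynomial.X - Polynomial.C (i : ℝ))

/-- The value `b'(i)`. -/
noncomputable def bd (ν i : ℕ) : ℝ := (bb ν).derivative.eval (i : ℝ)

/-- `(P,Q)` is reversible with respect to `y ↦ -y` and has the first row
`(-c e² b'(x) y, c b(x))`. -/
structure Adm (ν : ℕ) (e c : ℝ) (P Q : MvPolynomial (Fin 2) ℝ) : Prop where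
  odd : ∀ d ∈ P.support, Odd (d 1)
  even : ∀ d ∈ Q.support, Even (d 1)
  rowP : ∀ i : ℕ, P.coeff (Finsupp.single 0 i + Finsupp.single 1 1) =
    -(c * e ^ 2) * (bb ν).derivative.coeff i
  rowQ : ∀ i : ℕ, Q.coeff (Finsupp.single 0 i) = c * (bb ν).coeff i

/-- The array of `a⁻¹ P(x₀ + e a x, a y)` (for `P(x₀,0) = 0`). -/
noncomputable def cArr (D : ℕ) (x0 e a : ℝ) (P : MvPolynomial (Fin 2) ℝ) : Co D :=
  fun α β => (shiftP (x0, 0) P).coeff (Finsupp.single 0 (α : ℕ) + Finsupp.single 1 (β : ℕ)) *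
    e ^ (α : ℕ) * a ^ ((α : ℕ) + (β : ℕ) - 1)

/-- The array of the field `(P,Q)` in the chart `(x,y) ↦ (x₀ + e a x, a y)`, with the time divided
by `w`. -/
noncomputable def centreArr (D : ℕ) (x0 e w a : ℝ) (P Q : MvPolynomial (Fin 2) ℝ) : Pr D :=
  ((w * e)⁻¹ • cArr D x0 e a P, w⁻¹ • cArr D x0 e a Q)

/-- The same, at the centre `(i,0)` of an admissible field. -/
noncomputable def cen (D ν : ℕ) (e c : ℝ) (i : ℕ) (a : ℝ) (P Q : MvPolynomial (Fin 2) ℝ) : Pr D :=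
  centreArr D i e (c * e * bd ν i) a P Q

/-! ### The perturbations -/

/-- The number of rows `k < L` whose Lagrange basis contains the point `i`. -/
def rows (L : ℕ) (N : ℕ → ℕ) (i : ℕ) : ℕ :=
  ((Finset.range L).filter fun k => i ≤ N (k - 1)).card

/-- Indices: a centre `i < N 0` and a number `j < 2 * rows L N i - 1`. -/
abbrev Idx (L : ℕ) (N : ℕ → ℕ) : Type := Σ i : Fin (N 0), Fin (2 * rows L N (i : ℕ) - 1)

/-- The Lagrange polynomial of the point `i` among the points `i' < min (N 0) (N (k-1) + 1)`. -/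
noncomputable def lagr (N : ℕ → ℕ) (k i : ℕ) : Polynomial ℝ :=
  ∏ i' ∈ (Finset.range (min (N 0) (N (k - 1) + 1))).erase i,
    (Polynomial.C (((i : ℝ) - (i' : ℝ))⁻¹) * (Polynomial.X - Polynomial.C (i' : ℝ)))

/-- The polynomial `f(x) y^β`. -/
noncomputable def xv (f : Polynomial ℝ) (β : ℕ) : MvPolynomial (Fin 2) ℝ :=
  Polynomial.aeval (MvPolynomial.X 0 : MvPolynomial (Fin 2) ℝ) f * MvPolynomial.X 1 ^ β

/-- First component of the perturbations: zero for `j < rows`, and `lagr y^{2k}` for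
`j = rows + k - 1`, `k ≥ 1`. -/
noncomputable def pertP (L : ℕ) (N : ℕ → ℕ) (s : Idx L N) : MvPolynomial (Fin 2) ℝ :=
  if (s.2 : ℕ) < rows L N s.1 then 0
  else xv (lagr N ((s.2 : ℕ) + 1 - rows L N s.1) s.1) (2 * ((s.2 : ℕ) + 1 - rows L N s.1))

/-- Second component of the perturbations: `lagr y^{2j+1}` for `j < rows`, and zero otherwise. -/
noncomputable def pertQ (L : ℕ) (N : ℕ → ℕ) (s : Idx L N) : MvPolynomial (Fin 2) ℝ :=
  if (s.2 : ℕ) < rows L N s.1 then xv (lagr N (s.2 : ℕ) s.1) (2 * (s.2 : ℕ) + 1) else 0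

/-- The relative amplitudes. -/
noncomputable def amp (L l : ℕ) : ℝ := ((l : ℝ) + 1) / (2 * L)

/-- The matrix of the first order displacements of the perturbations `s` at the centre `r.1` with
the amplitude `α * amp L r.2`. -/
noncomputable def MM {D : ℕ} (Ch : CentreChart D) (L : ℕ) (N : ℕ → ℕ) (e c α : ℝ)
    (P Q : MvPolynomial (Fin 2) ℝ) : Matrix (Idx L N) (Idx L N) ℝ := fun r s =>
  fderiv ℝ Ch.disp (cen D (N 0) e c r.1 (α * amp L r.2) P Q)
    (cen D (N 0) e c r.1 (α * amp L r.2) (pertP L N s) (pertQ L N s))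

/-- First component of the model field: `-e² b'(x) y`. -/
noncomputable def exP (N : ℕ → ℕ) (e : ℝ) : MvPolynomial (Fin 2) ℝ :=
  MvPolynomial.C (-e ^ 2) * xv (bb (N 0)).derivative 1

/-- Second component of the model field: `b(x) + e κ y^{2L}`. -/
noncomputable def exQ (L : ℕ) (N : ℕ → ℕ) (e κ : ℝ) : MvPolynomial (Fin 2) ℝ :=
  xv (bb (N 0)) 0 + MvPolynomial.C (e * κ) * MvPolynomial.X 1 ^ (2 * L)

end Pool.Agent.Lib.MP_95e7ec_an
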