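import Mathlib
import Pool.Agent.Lib.MP_95e7ec_an.FoldDefs
import Pool.Agent.Lib.MP_95e7ec_an.Glue1

/-!
# Folding a planar polynomial system: coefficient arrays in the charts at the centres
-/

set_option autoImplicit false

open Set Filter Topology

namespace Pool.Agent.Lib.MP_95e7ec_an

/-! ### Rows of a polynomial -/

theorem foldCen_exp_inj {n m α β : ℕ} :
    ((Finsupp.single 0 n + Finsupp.single 1 m : Fin 2 →₀ ℕ) =
      Finsupp.single 0 α + Finsupp.single 1 β) ↔ n = α ∧ m = β := by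
  constructor
  · intro h
    have h0 := congrArg (fun f : Fin 2 →₀ ℕ => f 0) h
    have h1 := congrArg (fun f : Fin 2 →₀ ℕ => f 1) h
    simp at h0 h1
    exact ⟨h0, h1⟩
  · rintro ⟨rfl, rfl⟩
    rfl

theorem foldCen_exp_eq (d : Fin 2 →₀ ℕ) :
    Finsupp.single 0 (d 0) + Finsupp.single 1 (d 1) = d := by
  ext i
  fin_cases i <;> simp

/-- The coefficients of `f(x) y^m`. -/
theorem foldCen_coeff_xv (f : Polynomial ℝ) (m α β : ℕ) :
    (xv f m).coeff (Finsupp.single 0 α + Finsupp.single 1 β) =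
      if m = β then f.coeff α else 0 := by
  classical
  unfold xv
  induction f using Polynomial.induction_on' with
  | add p q hp hq =>
    rw [map_add, add_mul, MvPolynomial.coeff_add, hp, hq]
    split_ifs
    · rw [Polynomial.coeff_add]
    · rw [add_zero]
  | monomial n a =>
    have h1 : Polynomial.aeval (MvPolynomial.X 0 : MvPolynomial (Fin 2) ℝ)
        (Polynomial.monomial n a) * MvPolynomial.X 1 ^ m =
        MvPolynomial.monomial (Finsupp.single 0 n + Finsupp.single 1 m) a := by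
      rw [Polynomial.aeval_monomial, MvPolynomial.algebraMap_eq, mul_assoc,
        MvPolynomial.X_pow_eq_monomial, MvPolynomial.X_pow_eq_monomial,
        MvPolynomial.monomial_mul, MvPolynomial.C_mul_monomial, mul_one, mul_one]
    rw [h1, MvPolynomial.coeff_monomial, Polynomial.coeff_monomial]
    by_cases hm : m = β
    · by_cases hn : n = α
      · subst hm hn
        simp
      · have h2 : ¬((Finsupp.single 0 n + Finsupp.single 1 m : Fin 2 →₀ ℕ) =
            Finsupp.single 0 α + Finsupp.single 1 β) := fun h => hn (foldCen_exp_inj.1 h).1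
        rw [if_neg h2, if_pos hm, if_neg hn]
    · have h2 : ¬((Finsupp.single 0 n + Finsupp.single 1 m : Fin 2 →₀ ℕ) =
            Finsupp.single 0 α + Finsupp.single 1 β) := fun h => hm (foldCen_exp_inj.1 h).2
      rw [if_neg h2, if_neg hm]

/-- The row `β` of `P`, as a polynomial in `x`. -/
noncomputable def foldCenRow (P : MvPolynomial (Fin 2) ℝ) (β : ℕ) : Polynomial ℝ :=
  ∑ d ∈ P.support, if d 1 = β then Polynomial.monomial (d 0) (P.coeff d) else 0

theorem foldCenRow_coeff (P : MvPolynomial (Fin 2) ℝ) (β i : ℕ) :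
    (foldCenRow P β).coeff i = P.coeff (Finsupp.single 0 i + Finsupp.single 1 β) := by
  classical
  unfold foldCenRow
  rw [Polynomial.finsetSum_coeff,
    Finset.sum_eq_single (Finsupp.single 0 i + Finsupp.single 1 β : Fin 2 →₀ ℕ)]
  · simp
  · intro d _ hde
    split_ifs with h
    · rw [Polynomial.coeff_monomial, if_neg]
      intro h0
      apply hde
      rw [← h, ← h0, foldCen_exp_eq]
    · simp
  · intro h
    rw [MvPolynomial.notMem_support_iff] at h
    simp [h]

theorem foldCen_shift_coeff (x0 : ℝ) (P : MvPolynomial (Fin 2) ℝ) (α β : ℕ) :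
    (shiftP (x0, 0) P).coeff (Finsupp.single 0 α + Finsupp.single 1 β) =
      (Polynomial.taylor x0 (foldCenRow P β)).coeff α := by
  classical
  have h0 : shiftP (x0, 0) P =
      ∑ d ∈ P.support, shiftP (x0, 0) (MvPolynomial.monomial d (P.coeff d)) := by
    conv_lhs => rw [← MvPolynomial.support_sum_monomial_coeff P]
    rw [map_sum]
  rw [h0, MvPolynomial.coeff_sum]
  unfold foldCenRow
  rw [map_sum, Polynomial.finsetSum_coeff]
  apply Finset.sum_congr rfl
  intro d _
  have h1 : shiftP (x0, 0) (MvPolynomial.monomial d (P.coeff d)) =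
      xv (Polynomial.taylor x0 (Polynomial.monomial (d 0) (P.coeff d))) (d 1) := by
    rw [Polynomial.taylor_monomial]
    unfold xv shiftP
    rw [map_mul, Polynomial.aeval_C, map_pow, map_add, Polynomial.aeval_X, Polynomial.aeval_C,
      MvPolynomial.aeval_monomial, Finsupp.prod_fintype _ _ (fun i => pow_zero _),
      Fin.prod_univ_two]
    simp [MvPolynomial.algebraMap_eq, mul_assoc]
  rw [h1, foldCen_coeff_xv]
  split_ifs
  · rfl
  · simp

theorem foldCen_eval_row (P : MvPolynomial (Fin 2) ℝ) (x : ℝ) :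
    MvPolynomial.eval ![x, 0] P = (foldCenRow P 0).eval x := by
  classical
  unfold foldCenRow
  rw [MvPolynomial.eval_eq', Polynomial.eval_finsetSum]
  apply Finset.sum_congr rfl
  intro d _
  rw [Fin.prod_univ_two]
  simp only [Matrix.cons_val_zero, Matrix.cons_val_one]
  by_cases h : d 1 = 0
  · simp [h]
  · simp [h]

theorem foldCen_degree (x0 : ℝ) (P : MvPolynomial (Fin 2) ℝ) :
    (shiftP (x0, 0) P).totalDegree ≤ P.totalDegree := by
  classical
  unfold MvPolynomial.totalDegree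
  apply Finset.sup_le
  intro d hd
  rw [MvPolynomial.mem_support_iff, ← foldCen_exp_eq d, foldCen_shift_coeff] at hd
  have h1 : d 0 ≤ (foldCenRow P (d 1)).natDegree := by
    have := Polynomial.le_natDegree_of_ne_zero hd
    rwa [Polynomial.natDegree_taylor] at this
  have h2 : foldCenRow P (d 1) ≠ 0 := by
    intro h
    rw [h] at hd
    simp at hd
  have h3 : (foldCenRow P (d 1)).coeff (foldCenRow P (d 1)).natDegree ≠ 0 := by
    rw [Polynomial.coeff_natDegree]
    exact Polynomial.leadingCoeff_ne_zero.2 h2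
  rw [foldCenRow_coeff] at h3
  have h4 := Finset.le_sup (f := fun s : Fin 2 →₀ ℕ => s.sum fun _ e => e)
    (MvPolynomial.mem_support_iff.2 h3)
  refine le_trans ?_ h4
  rw [Finsupp.sum_fintype _ _ (fun _ => rfl), Finsupp.sum_fintype _ _ (fun _ => rfl)]
  simp [Fin.sum_univ_two]
  omega

theorem foldCen_coeff_zero {x0 : ℝ} {P : MvPolynomial (Fin 2) ℝ}
    (h : MvPolynomial.eval ![x0, 0] P = 0) :
    (shiftP (x0, 0) P).coeff (Finsupp.single 0 0 + Finsupp.single 1 0) = 0 := by
  rw [foldCen_shift_coeff, Polynomial.taylor_coeff_zero, ← foldCen_eval_row, h]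

/-! ### The arrays -/

theorem cArr_add (D : ℕ) (x0 e a : ℝ) (P P' : MvPolynomial (Fin 2) ℝ) :
    cArr D x0 e a (P + P') = cArr D x0 e a P + cArr D x0 e a P' := by
  funext α β
  simp only [cArr, map_add, MvPolynomial.coeff_add, Pi.add_apply]
  ring

theorem cArr_C_mul (D : ℕ) (x0 e a r : ℝ) (P : MvPolynomial (Fin 2) ℝ) :
    cArr D x0 e a (MvPolynomial.C r * P) = r • cArr D x0 e a P := by
  funext α β
  have h : shiftP (x0, 0) (MvPolynomial.C r) = MvPolynomial.C r :=
    (shiftP (x0, 0)).commutes r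
  simp only [cArr, map_mul, h, MvPolynomial.coeff_C_mul, Pi.smul_apply, smul_eq_mul]
  ring

theorem cen_add (D ν : ℕ) (e c : ℝ) (i : ℕ) (a : ℝ) (P Q P' Q' : MvPolynomial (Fin 2) ℝ) :
    cen D ν e c i a (P + P') (Q + Q') = cen D ν e c i a P Q + cen D ν e c i a P' Q' := by
  simp only [cen, centreArr, cArr_add, smul_add, Prod.mk_add_mk]

theorem cen_C_mul (D ν : ℕ) (e c : ℝ) (i : ℕ) (a r : ℝ) (P Q : MvPolynomial (Fin 2) ℝ) :
    cen D ν e c i a (MvPolynomial.C r * P) (MvPolynomial.C r * Q) = r • cen D ν e c i a P Q := by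
  simp only [cen, centreArr, cArr_C_mul, Prod.smul_mk]
  rw [smul_comm r, smul_comm r]

theorem foldCen_pe {D : ℕ} {x0 e a : ℝ} (ha : a ≠ 0) {P : MvPolynomial (Fin 2) ℝ}
    (hP : P.totalDegree ≤ D) (hP0 : MvPolynomial.eval ![x0, 0] P = 0) (x y : ℝ) :
    pe (cArr D x0 e a P) x y = a⁻¹ * MvPolynomial.eval ![x0 + e * a * x, a * y] P := by
  have h1 := eval_eq_pe (D := D) (shiftP (x0, 0) P) ((foldCen_degree x0 P).trans hP)
    (e * a * x) (a * y)
  rw [eval_shiftP] at h1
  simp only [zero_add] at h1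
  rw [h1]
  unfold pe
  rw [Finset.mul_sum]
  refine Finset.sum_congr rfl fun α _ => ?_
  rw [Finset.mul_sum]
  refine Finset.sum_congr rfl fun β _ => ?_
  simp only [cArr, arr, smul_eq_mul]
  by_cases h : (α : ℕ) + (β : ℕ) = 0
  · have h2 : (α : ℕ) = 0 := by omega
    have h3 : (β : ℕ) = 0 := by omega
    rw [h2, h3, foldCen_coeff_zero hP0]
    simp
  · obtain ⟨k, hk⟩ : ∃ k, (α : ℕ) + (β : ℕ) = k + 1 := ⟨_, (Nat.succ_pred_eq_of_ne_zero h).symm⟩
    have h2 : a ^ (α : ℕ) * a ^ (β : ℕ) = a * a ^ k := by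
      rw [← pow_add, hk, pow_succ, mul_comm]
    have h3 : (α : ℕ) + (β : ℕ) - 1 = k := by omega
    rw [h3, mul_pow, mul_pow, mul_pow]
    have h4 : a⁻¹ * a = 1 := inv_mul_cancel₀ ha
    calc _ = MvPolynomial.coeff (Finsupp.single 0 (α : ℕ) + Finsupp.single 1 (β : ℕ))
          (shiftP (x0, 0) P) * e ^ (α : ℕ) * x ^ (α : ℕ) * y ^ (β : ℕ) * a ^ k := by ring
      _ = MvPolynomial.coeff (Finsupp.single 0 (α : ℕ) + Finsupp.single 1 (β : ℕ))
          (shiftP (x0, 0) P) * e ^ (α : ℕ) * x ^ (α : ℕ) * y ^ (β : ℕ) * ((a⁻¹ * a) * a ^ k) := by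
          rw [h4, one_mul]
      _ = MvPolynomial.coeff (Finsupp.single 0 (α : ℕ) + Finsupp.single 1 (β : ℕ))
          (shiftP (x0, 0) P) * e ^ (α : ℕ) * x ^ (α : ℕ) * y ^ (β : ℕ) *
            (a⁻¹ * (a ^ (α : ℕ) * a ^ (β : ℕ))) := by rw [h2]; ring
      _ = _ := by ring

theorem vfc_cen {D ν : ℕ} {e c : ℝ} (i : ℕ) {a : ℝ} (he : e ≠ 0) (hc : c ≠ 0)
    (hb : bd ν i ≠ 0) (ha : a ≠ 0) {P Q : MvPolynomial (Fin 2) ℝ} (hP : P.totalDegree ≤ D)
    (hQ : Q.totalDegree ≤ D) (hP0 : MvPolynomial.eval ![(i : ℝ), 0] P = 0)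
    (hQ0 : MvPolynomial.eval ![(i : ℝ), 0] Q = 0) (z : ℝ × ℝ) :
    vfc (cen D ν e c i a P Q) z =
      ((c * e * bd ν i * e * a)⁻¹ * MvPolynomial.eval ![i + e * a * z.1, a * z.2] P,
        (c * e * bd ν i * a)⁻¹ * MvPolynomial.eval ![i + e * a * z.1, a * z.2] Q) := by
  have hsm : ∀ (r : ℝ) (f : Co D) (x y : ℝ), pe (r • f) x y = r * pe f x y := by
    intro r f x y
    unfold pe
    rw [Finset.mul_sum]
    refine Finset.sum_congr rfl fun α _ => ?_
    rw [Finset.mul_sum]
    refine Finset.sum_congr rfl fun β _ => ?_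
    simp only [Pi.smul_apply, smul_eq_mul]
    ring
  unfold vfc cen centreArr
  simp only [hsm, foldCen_pe ha hP hP0, foldCen_pe ha hQ hQ0]
  ext
  · simp only [mul_inv]
    ring
  · simp only [mul_inv]
    ring

theorem cen_mul (D ν : ℕ) (e c : ℝ) (i : ℕ) (r a : ℝ) (P Q : MvPolynomial (Fin 2) ℝ) :
    cen D ν e c i (r * a) P Q = scArr r (cen D ν e c i a P Q) := by
  unfold cen centreArr scArr
  refine Prod.ext ?_ ?_
  · funext α β
    simp only [cArr, Pi.smul_apply, smul_eq_mul, mul_pow]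
    ring
  · funext α β
    simp only [cArr, Pi.smul_apply, smul_eq_mul, mul_pow]
    ring

theorem cen_noConst (D ν : ℕ) (e c : ℝ) (i : ℕ) (a : ℝ) {P Q : MvPolynomial (Fin 2) ℝ}
    (hP0 : MvPolynomial.eval ![(i : ℝ), 0] P = 0) (hQ0 : MvPolynomial.eval ![(i : ℝ), 0] Q = 0) :
    NoConst (cen D ν e c i a P Q) := by
  have h1 := foldCen_coeff_zero hP0
  have h2 := foldCen_coeff_zero hQ0
  constructor
  · simp only [cen, centreArr, Pi.smul_apply, cArr, Fin.val_zero, h1, zero_mul, smul_zero]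
  · simp only [cen, centreArr, Pi.smul_apply, cArr, Fin.val_zero, h2, zero_mul, smul_zero]

theorem bd_ne_zero {ν i : ℕ} (hi : i < ν) : bd ν i ≠ 0 := by
  have hmem : i ∈ Finset.range ν := Finset.mem_range.2 hi
  have h1 : bb ν = (Polynomial.X - Polynomial.C (i : ℝ)) *
      ∏ i' ∈ (Finset.range ν).erase i, (Polynomial.X - Polynomial.C (i' : ℝ)) := by
    unfold bb
    exact (Finset.mul_prod_erase (Finset.range ν)
      (fun i' : ℕ => Polynomial.X - Polynomial.C (i' : ℝ)) hmem).symm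
  unfold bd
  rw [h1, Polynomial.derivative_mul, Polynomial.eval_add, Polynomial.eval_mul, Polynomial.eval_mul]
  simp only [Polynomial.derivative_sub, Polynomial.derivative_X, Polynomial.derivative_C, sub_zero,
    Polynomial.eval_one, one_mul, Polynomial.eval_sub, Polynomial.eval_X, Polynomial.eval_C,
    sub_self, zero_mul, add_zero, Polynomial.eval_prod]
  apply Finset.prod_ne_zero_iff.2
  intro i' hi'
  rw [sub_ne_zero]
  exact_mod_cast (Finset.ne_of_mem_erase hi').symm

theorem foldCen_bb_eval {ν i : ℕ} (hi : i < ν) : (bb ν).eval (i : ℝ) = 0 := by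
  unfold bb
  rw [Polynomial.eval_prod]
  apply Finset.prod_eq_zero (Finset.mem_range.2 hi)
  simp

theorem foldCen_row_even {P : MvPolynomial (Fin 2) ℝ} (h : ∀ d ∈ P.support, Odd (d 1)) {β : ℕ}
    (hβ : Even β) : foldCenRow P β = 0 := by
  ext i
  rw [foldCenRow_coeff, Polynomial.coeff_zero]
  by_contra hne
  have := h _ (MvPolynomial.mem_support_iff.2 hne)
  simp only [Finsupp.add_apply, Finsupp.single_eq_same] at this
  rw [Finsupp.single_eq_of_ne (by decide), zero_add] at this
  exact (Nat.not_odd_iff_even.2 hβ) this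

theorem foldCen_row_odd {P : MvPolynomial (Fin 2) ℝ} (h : ∀ d ∈ P.support, Even (d 1)) {β : ℕ}
    (hβ : Odd β) : foldCenRow P β = 0 := by
  ext i
  rw [foldCenRow_coeff, Polynomial.coeff_zero]
  by_contra hne
  have := h _ (MvPolynomial.mem_support_iff.2 hne)
  simp only [Finsupp.add_apply, Finsupp.single_eq_same] at this
  rw [Finsupp.single_eq_of_ne (by decide), zero_add] at this
  exact (Nat.not_even_iff_odd.2 hβ) this

theorem Adm.eval_P {ν : ℕ} {e c : ℝ} {P Q : MvPolynomial (Fin 2) ℝ} (h : Adm ν e c P Q) (x : ℝ) :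
    MvPolynomial.eval ![x, 0] P = 0 := by
  rw [foldCen_eval_row, foldCen_row_even h.odd Even.zero, Polynomial.eval_zero]

theorem foldCen_rowQ {ν : ℕ} {e c : ℝ} {P Q : MvPolynomial (Fin 2) ℝ} (h : Adm ν e c P Q) :
    foldCenRow Q 0 = Polynomial.C c * bb ν := by
  ext i
  rw [foldCenRow_coeff, Finsupp.single_zero, add_zero, h.rowQ, Polynomial.coeff_C_mul]

theorem foldCen_rowP {ν : ℕ} {e c : ℝ} {P Q : MvPolynomial (Fin 2) ℝ} (h : Adm ν e c P Q) :
    foldCenRow P 1 = Polynomial.C (-(c * e ^ 2)) * (bb ν).derivative := by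
  ext i
  rw [foldCenRow_coeff, h.rowP, Polynomial.coeff_C_mul]

theorem Adm.eval_Q {ν : ℕ} {e c : ℝ} {P Q : MvPolynomial (Fin 2) ℝ} (h : Adm ν e c P Q) (x : ℝ) :
    MvPolynomial.eval ![x, 0] Q = c * (bb ν).eval x := by
  rw [foldCen_eval_row, foldCen_rowQ h, Polynomial.eval_mul, Polynomial.eval_C]

theorem Adm.cen_rev {ν : ℕ} {e c : ℝ} {P Q : MvPolynomial (Fin 2) ℝ} (h : Adm ν e c P Q)
    (D i : ℕ) (a : ℝ) : RevArr (cen D ν e c i a P Q) := by
  constructor
  · intro α β hβ
    simp only [cen, centreArr, Pi.smul_apply, cArr, foldCen_shift_coeff,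
      foldCen_row_even h.odd hβ, map_zero, Polynomial.coeff_zero, zero_mul, smul_zero]
  · intro α β hβ
    simp only [cen, centreArr, Pi.smul_apply, cArr, foldCen_shift_coeff,
      foldCen_row_odd h.even hβ, map_zero, Polynomial.coeff_zero, zero_mul, smul_zero]

theorem Adm.cen_zero {ν : ℕ} {e c : ℝ} {P Q : MvPolynomial (Fin 2) ℝ} (h : Adm ν e c P Q)
    (he : e ≠ 0) (hc : c ≠ 0) {i : ℕ} (hi : i < ν) {D : ℕ} (hD : 1 ≤ D) :
    cen D ν e c i 0 P Q = linArr D := by
  have hb := bd_ne_zero hi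
  refine Prod.ext ?_ ?_
  · funext α β
    simp only [cen, centreArr, Pi.smul_apply, cArr, foldCen_shift_coeff, linArr, Pi.neg_apply,
      monoArr, smul_eq_mul]
    by_cases hβ : (β : ℕ) = 1
    · by_cases hα : (α : ℕ) = 0
      · rw [hα, hβ, foldCen_rowP h, Polynomial.taylor_coeff_zero, Polynomial.eval_mul,
          Polynomial.eval_C]
        have h1 : (bb ν).derivative.eval (i : ℝ) = bd ν i := rfl
        rw [h1]
        simp
        field_simp
      · have h2 : (α : ℕ) + (β : ℕ) - 1 ≠ 0 := by omega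
        rw [zero_pow h2, if_neg (fun hh => hα hh.1)]
        simp
    · rw [if_neg (fun hh => hβ hh.2)]
      by_cases h2 : (α : ℕ) + (β : ℕ) - 1 = 0
      · have h3 : (β : ℕ) = 0 := by omega
        rw [h3, foldCen_row_even h.odd Even.zero]
        simp
      · rw [zero_pow h2]
        simp
  · funext α β
    simp only [cen, centreArr, Pi.smul_apply, cArr, foldCen_shift_coeff, linArr,
      monoArr, smul_eq_mul]
    by_cases hα : (α : ℕ) = 1
    · by_cases hβ : (β : ℕ) = 0
      · rw [hα, hβ, foldCen_rowQ h, Polynomial.taylor_coeff_one]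
        have h1 : (bb ν).derivative.eval (i : ℝ) = bd ν i := rfl
        rw [Polynomial.derivative_C_mul, Polynomial.eval_mul, Polynomial.eval_C, h1]
        simp
        field_simp
      · have h2 : (α : ℕ) + (β : ℕ) - 1 ≠ 0 := by omega
        rw [zero_pow h2, if_neg (fun hh => hβ hh.2)]
        simp
    · rw [if_neg (fun hh => hα hh.1)]
      by_cases h2 : (α : ℕ) + (β : ℕ) - 1 = 0
      · have h3 : (α : ℕ) = 0 := by omega
        by_cases h4 : (β : ℕ) = 0
        · rw [h3, h4, foldCen_rowQ h, Polynomial.taylor_coeff_zero, Polynomial.eval_mul,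
            foldCen_bb_eval hi]
          simp
        · have h5 : (β : ℕ) = 1 := by omega
          rw [h5, foldCen_row_odd h.even odd_one]
          simp
      · rw [zero_pow h2]
        simp

theorem analytic_cen (D ν : ℕ) (e c : ℝ) (i : ℕ) (P Q : MvPolynomial (Fin 2) ℝ) (a : ℝ) :
    AnalyticAt ℝ (fun a => cen D ν e c i a P Q) a := by
  have h : ∀ (w : ℝ) (R : MvPolynomial (Fin 2) ℝ),
      AnalyticAt ℝ (fun a => w • cArr D i e a R) a := by
    intro w R
    refine AnalyticAt.pi fun α => AnalyticAt.pi fun β => ?_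
    simp only [Pi.smul_apply, cArr, smul_eq_mul]
    exact analyticAt_const.mul (analyticAt_const.mul (analyticAt_id.pow _))
  exact (h _ P).prod (h _ Q)

end Pool.Agent.Lib.MP_95e7ec_an
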