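import Mathlib
import Pool.Agent.Lib.MP_95e7ec_an.FoldDefs

/-!
# Evaluation of monomial arrays
-/

set_option autoImplicit false

open Set Filter Topology

namespace Pool.Agent.Lib.MP_95e7ec_an

section mono
variable {D : ℕ} {R : Type*} [CommRing R] [Algebra ℝ R]

theorem pe_monoArr {α β : ℕ} (hα : α ≤ D) (hβ : β ≤ D) (x y : R) :
    pe (monoArr D α β) x y = x ^ α * y ^ β := by
  unfold pe monoArr
  rw [Finset.sum_eq_single (⟨α, by omega⟩ : Fin (D + 1)),
    Finset.sum_eq_single (⟨β, by omega⟩ : Fin (D + 1))]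
  · simp
  · intro b _ hb
    have : (b : ℕ) ≠ β := fun h => hb (Fin.ext h)
    simp [this]
  · simp
  · intro a _ ha
    have : (a : ℕ) ≠ α := fun h => ha (Fin.ext h)
    simp [this]
  · simp

theorem pex_monoArr {α β : ℕ} (hα : α ≤ D) (hβ : β ≤ D) (x y : R) :
    pex (monoArr D α β) x y = (α : ℝ) • (x ^ (α - 1) * y ^ β) := by
  unfold pex monoArr
  rw [Finset.sum_eq_single (⟨α, by omega⟩ : Fin (D + 1)),
    Finset.sum_eq_single (⟨β, by omega⟩ : Fin (D + 1))]
  · simp
  · intro b _ hb
    have : (b : ℕ) ≠ β := fun h => hb (Fin.ext h)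
    simp [this]
  · simp
  · intro a _ ha
    have : (a : ℕ) ≠ α := fun h => ha (Fin.ext h)
    simp [this]
  · simp

theorem pey_monoArr {α β : ℕ} (hα : α ≤ D) (hβ : β ≤ D) (x y : R) :
    pey (monoArr D α β) x y = (β : ℝ) • (x ^ α * y ^ (β - 1)) := by
  unfold pey monoArr
  rw [Finset.sum_eq_single (⟨α, by omega⟩ : Fin (D + 1)),
    Finset.sum_eq_single (⟨β, by omega⟩ : Fin (D + 1))]
  · simp
  · intro b _ hb
    have : (b : ℕ) ≠ β := fun h => hb (Fin.ext h)
    simp [this]
  · simp
  · intro a _ ha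
    have : (a : ℕ) ≠ α := fun h => ha (Fin.ext h)
    simp [this]
  · simp

theorem pe_add_arr (c c' : Co D) (x y : R) : pe (c + c') x y = pe c x y + pe c' x y := by
  simp only [pe, Pi.add_apply, add_smul, Finset.sum_add_distrib]

theorem pe_smul_arr (r : ℝ) (c : Co D) (x y : R) : pe (r • c) x y = r • pe c x y := by
  simp only [pe, Pi.smul_apply, smul_eq_mul, mul_smul, Finset.smul_sum]

theorem pe_neg_arr (c : Co D) (x y : R) : pe (-c) x y = -pe c x y := by
  simp only [pe, Pi.neg_apply, neg_smul, Finset.sum_neg_distrib]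

theorem pe_zero_arr (x y : R) : pe (0 : Co D) x y = 0 := by
  simp [pe]

theorem pex_add_arr (c c' : Co D) (x y : R) : pex (c + c') x y = pex c x y + pex c' x y := by
  simp only [pex, Pi.add_apply, add_smul, Finset.sum_add_distrib]

theorem pex_smul_arr (r : ℝ) (c : Co D) (x y : R) : pex (r • c) x y = r • pex c x y := by
  simp only [pex, Pi.smul_apply, smul_eq_mul, Finset.smul_sum, mul_smul]

theorem pex_neg_arr (c : Co D) (x y : R) : pex (-c) x y = -pex c x y := by
  simp only [pex, Pi.neg_apply, neg_smul, Finset.sum_neg_distrib]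

theorem pex_zero_arr (x y : R) : pex (0 : Co D) x y = 0 := by
  simp [pex]

theorem pey_add_arr (c c' : Co D) (x y : R) : pey (c + c') x y = pey c x y + pey c' x y := by
  simp only [pey, Pi.add_apply, add_smul, Finset.sum_add_distrib]

theorem pey_smul_arr (r : ℝ) (c : Co D) (x y : R) : pey (r • c) x y = r • pey c x y := by
  simp only [pey, Pi.smul_apply, smul_eq_mul, Finset.smul_sum, mul_smul]

theorem pey_neg_arr (c : Co D) (x y : R) : pey (-c) x y = -pey c x y := by
  simp only [pey, Pi.neg_apply, neg_smul, Finset.sum_neg_distrib]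

theorem pey_zero_arr (x y : R) : pey (0 : Co D) x y = 0 := by
  simp [pey]

end mono

end Pool.Agent.Lib.MP_95e7ec_an
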