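import Mathlib
import Pool.Agent.Lib.MP_95e7ec_an.FoldMono
import Pool.Agent.Lib.MP_95e7ec_an.Volterra
import Pool.Agent.Lib.MP_95e7ec_an.Paths
import Pool.Agent.Lib.MP_95e7ec_an.DetPos

/-!
# The perturbation `(y^{2k}, -κ(2L/(2k+1)) y^{2L+2k-1})` has no first order effect
-/

set_option autoImplicit false

open Set Filter Topology

namespace Pool.Agent.Lib.MP_95e7ec_an

/-- the primitive as a function on the line -/
noncomputable def rprim (f : A) (t : ℝ) : ℝ := ∫ s in (0 : ℝ)..t, Set.IccExtend (zero_le_one' ℝ) f s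

theorem rprim_hasDerivAt (f : A) (t : unitInterval) : HasDerivAt (rprim f) (f t) t := by
  have h : Continuous (Set.IccExtend (zero_le_one' ℝ) f) := f.continuous.Icc_extend'
  have h2 : HasDerivAt (fun b : ℝ => ∫ s in (0 : ℝ)..b, Set.IccExtend (zero_le_one' ℝ) f s)
      (Set.IccExtend (zero_le_one' ℝ) f t) t :=
    intervalIntegral.integral_hasDerivAt_right (h.intervalIntegrable 0 t)
      (h.stronglyMeasurableAtFilter _ _) h.continuousAt
  rw [IccExtend_val] at h2
  exact h2

theorem rprim_coe (f : A) (t : unitInterval) : rprim f t = prim f t := rfl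

theorem rprim_zero (f : A) : rprim f 0 = 0 := by simp [rprim]

/-- The perturbation `(y^{2k}, -κ(2L/(2k+1)) y^{2L+2k-1})` of `(-y, x + κ y^{2L})` has no
first order effect. -/
theorem even_identity {D L k : ℕ} {κ : ℝ} (hL : 1 ≤ L) (hk : 1 ≤ k)
    (hD : 2 * L + 2 * k - 1 ≤ D) {μ ν : Pr D}
    (hμ : μ = linArr D + κ • ((0, monoArr D 0 (2 * L)) : Pr D))
    (hν : ν = (monoArr D 0 (2 * k), -(κ * (2 * L / (2 * k + 1))) • monoArr D 0 (2 * L + 2 * k - 1)))
    {T T' : ℝ} {z b : A × A} (hz : Sol μ T (1, 0) z) (hend : at' z 1 = (1, 0))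
    (h1 : b.1 = T' • prim (pe μ.1 z.1 z.2) + T •
      prim (pex μ.1 z.1 z.2 * b.1 + pey μ.1 z.1 z.2 * b.2 + pe ν.1 z.1 z.2))
    (h2 : b.2 = T' • prim (pe μ.2 z.1 z.2) + T •
      prim (pex μ.2 z.1 z.2 * b.1 + pey μ.2 z.1 z.2 * b.2 + pe ν.2 z.1 z.2)) :
    b.1 1 = 0 := by
  obtain ⟨p, rfl⟩ : ∃ p, k = p + 1 := ⟨k - 1, by omega⟩
  obtain ⟨q, rfl⟩ : ∃ q, L = q + 1 := ⟨L - 1, by omega⟩
  have e1 : 2 * (p + 1) - 1 = 2 * p + 1 := by omega
  have e2 : 2 * (q + 1) - 1 = 2 * q + 1 := by omega
  have e3 : 2 * (q + 1) + 2 * (p + 1) - 1 = 2 * q + 2 * p + 3 := by omega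
  -- evaluation of the arrays
  have m1 : ∀ x y : A, pe μ.1 x y = -y := by
    intro x y
    rw [hμ]
    simp only [linArr, Prod.fst_add, Prod.smul_fst, smul_zero, add_zero, pe_neg_arr]
    rw [pe_monoArr (by omega) (by omega)]
    simp
  have m2 : ∀ x y : A, pe μ.2 x y = x + κ • y ^ (2 * q + 2) := by
    intro x y
    rw [hμ]
    simp only [linArr, Prod.snd_add, Prod.smul_snd, pe_add_arr, pe_smul_arr]
    rw [pe_monoArr (by omega) (by omega), pe_monoArr (by omega) (by omega)]
    simp [mul_add]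
  have m3 : ∀ x y : A, pex μ.1 x y = 0 := by
    intro x y
    rw [hμ]
    simp only [linArr, Prod.fst_add, Prod.smul_fst, smul_zero, add_zero, pex_neg_arr]
    rw [pex_monoArr (by omega) (by omega)]
    simp
  have m4 : ∀ x y : A, pey μ.1 x y = -1 := by
    intro x y
    rw [hμ]
    simp only [linArr, Prod.fst_add, Prod.smul_fst, smul_zero, add_zero, pey_neg_arr]
    rw [pey_monoArr (by omega) (by omega)]
    simp
  have m5 : ∀ x y : A, pex μ.2 x y = 1 := by
    intro x y
    rw [hμ]
    simp only [linArr, Prod.snd_add, Prod.smul_snd, pex_add_arr, pex_smul_arr]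
    rw [pex_monoArr (by omega) (by omega), pex_monoArr (by omega) (by omega)]
    simp
  have m6 : ∀ x y : A, pey μ.2 x y = (κ * (2 * q + 2)) • y ^ (2 * q + 1) := by
    intro x y
    rw [hμ]
    simp only [linArr, Prod.snd_add, Prod.smul_snd, pey_add_arr, pey_smul_arr]
    rw [pey_monoArr (by omega) (by omega), pey_monoArr (by omega) (by omega)]
    rw [e2, smul_smul]
    push_cast
    simp [mul_add]
  have m7 : ∀ x y : A, pe ν.1 x y = y ^ (2 * p + 2) := by
    intro x y
    rw [hν]
    simp only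
    rw [pe_monoArr (by omega) (by omega)]
    simp [mul_add]
  have m8 : ∀ x y : A, pe ν.2 x y =
      (-(κ * ((2 * q + 2) / (2 * p + 3)))) • y ^ (2 * q + 2 * p + 3) := by
    intro x y
    rw [hν]
    simp only [pe_smul_arr]
    rw [pe_monoArr (by omega) (by omega), e3]
    push_cast
    rw [pow_zero, one_mul]
    congr 2
    ring
  simp only [m1, m2, m3, m4, m5, m6, m7, m8, zero_mul, zero_add, one_mul, neg_mul] at h1 h2
  obtain ⟨hz1, hz2⟩ := hz
  rw [m1] at hz1
  rw [m2] at hz2
  simp only at hz1 hz2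
  set x := z.1 with hx
  set y := z.2 with hy
  -- real functions
  set g : A := T • prim (((2 * p + 2) / (2 * p + 3) : ℝ) • y ^ (2 * p + 1)) with hg
  set u : A := ⟨fun t => (t : ℝ), continuous_subtype_val⟩ with hu
  set S2 : A := x + κ • y ^ (2 * q + 2) with hS2
  set m : A := (κ * (2 * q + 2)) • y ^ (2 * q + 1) with hm
  set d1 : A := b.1 + g * (-y) - T' • (u * (-y)) with hd1
  set d2 : A := b.2 - ((1 / (2 * p + 3) : ℝ)) • y ^ (2 * p + 2) + g * S2 - T' • (u * S2) with hd2
  let X : ℝ → ℝ := fun t => 1 + T * rprim (-y) t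
  let Y : ℝ → ℝ := fun t => 0 + T * rprim S2 t
  let B1 : ℝ → ℝ := fun t => T' * rprim (-y) t + T * rprim (-b.2 + y ^ (2 * p + 2)) t
  let B2 : ℝ → ℝ := fun t => T' * rprim S2 t + T * rprim (b.1 + m * b.2 +
    (-(κ * ((2 * q + 2) / (2 * p + 3)))) • y ^ (2 * q + 2 * p + 3)) t
  let G : ℝ → ℝ := fun t => T * rprim (((2 * p + 2) / (2 * p + 3) : ℝ) • y ^ (2 * p + 1)) t
  have vX : ∀ t : unitInterval, X t = x t := by
    intro t
    rw [hz1]; rfl
  have vY : ∀ t : unitInterval, Y t = y t := by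
    intro t
    conv_rhs => rw [hz2]
    rfl
  have vB1 : ∀ t : unitInterval, B1 t = b.1 t := by
    intro t
    conv_rhs => rw [h1]
    rfl
  have vB2 : ∀ t : unitInterval, B2 t = b.2 t := by
    intro t
    conv_rhs => rw [h2]
    rfl
  have vG : ∀ t : unitInterval, G t = g t := fun t => rfl
  have dX : ∀ t : unitInterval, HasDerivAt X (T * (-y t)) t := fun t => by
    have := ((rprim_hasDerivAt (-y) t).const_mul T).const_add 1
    exact this
  have dY : ∀ t : unitInterval, HasDerivAt Y (T * (x t + κ * y t ^ (2 * q + 2))) t := fun t => by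
    have := ((rprim_hasDerivAt S2 t).const_mul T).const_add 0
    refine HasDerivAt.congr_deriv this ?_
    simp [hS2]
  have dB1 : ∀ t : unitInterval, HasDerivAt B1 (T' * (-y t) + T * (-b.2 t + y t ^ (2 * p + 2))) t :=
    fun t => by
      have := ((rprim_hasDerivAt (-y) t).const_mul T').add
        ((rprim_hasDerivAt (-b.2 + y ^ (2 * p + 2)) t).const_mul T)
      refine HasDerivAt.congr_deriv this ?_
      simp
  have dB2 : ∀ t : unitInterval, HasDerivAt B2 (T' * (x t + κ * y t ^ (2 * q + 2)) +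
      T * (b.1 t + (κ * (2 * q + 2)) * y t ^ (2 * q + 1) * b.2 t +
        (-(κ * ((2 * q + 2) / (2 * p + 3)))) * y t ^ (2 * q + 2 * p + 3))) t :=
    fun t => by
      have := ((rprim_hasDerivAt S2 t).const_mul T').add
        ((rprim_hasDerivAt (b.1 + m * b.2 +
          (-(κ * ((2 * q + 2) / (2 * p + 3)))) • y ^ (2 * q + 2 * p + 3)) t).const_mul T)
      refine HasDerivAt.congr_deriv this ?_
      simp only [hS2, hm, ContinuousMap.add_apply, ContinuousMap.mul_apply,
        ContinuousMap.smul_apply, ContinuousMap.pow_apply, smul_eq_mul]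
  have dG : ∀ t : unitInterval, HasDerivAt G (T * ((2 * p + 2) / (2 * p + 3) *
      y t ^ (2 * p + 1))) t := fun t => by
    have := (rprim_hasDerivAt (((2 * p + 2) / (2 * p + 3) : ℝ) • y ^ (2 * p + 1)) t).const_mul T
    refine HasDerivAt.congr_deriv this ?_
    simp only [ContinuousMap.smul_apply, ContinuousMap.pow_apply, smul_eq_mul]
  -- the linear equation for `d`
  have hp3 : (2 * (p : ℝ) + 3) ≠ 0 := by positivity
  have E1 : d1 = ContinuousMap.const _ (0 : ℝ) + T • prim (0 * d1 + (-1) * d2) := by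
    have key := eq_const_add_prim (g := fun t => B1 t + G t * (-Y t) - T' * (t * (-Y t)))
      (f := 0 * d1 + (-1) * d2) (w := d1) (T := T) ?_ ?_
    · have h0 : B1 0 + G 0 * (-Y 0) - T' * (0 * (-Y 0)) = 0 := by
        simp [B1, G, Y, rprim_zero]
      rw [h0] at key
      exact key
    · intro t
      have h := ((dB1 t).add ((dG t).mul (dY t).neg)).sub
        (((hasDerivAt_id (t : ℝ)).mul (dY t).neg).const_mul T')
      refine HasDerivAt.congr_deriv h ?_
      simp only [hd2, ContinuousMap.add_apply, ContinuousMap.mul_apply, ContinuousMap.sub_apply,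
        ContinuousMap.smul_apply, ContinuousMap.pow_apply, ContinuousMap.neg_apply,
        ContinuousMap.zero_apply, ContinuousMap.one_apply, smul_eq_mul, id_eq, vY, vG, hS2,
        ContinuousMap.coe_mk, hu, Pi.neg_apply]
      field_simp
      ring
    · intro t
      simp only [hd1, ContinuousMap.add_apply, ContinuousMap.mul_apply, ContinuousMap.sub_apply,
        ContinuousMap.smul_apply, ContinuousMap.neg_apply, smul_eq_mul, vB1, vG, vY, hu,
        ContinuousMap.coe_mk]
  have E2 : d2 = ContinuousMap.const _ (0 : ℝ) + T • prim (1 * d1 + m * d2) := by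
    have key := eq_const_add_prim (g := fun t => B2 t - (1 / (2 * p + 3)) * Y t ^ (2 * p + 2) +
        G t * (X t + κ * Y t ^ (2 * q + 2)) - T' * (t * (X t + κ * Y t ^ (2 * q + 2))))
      (f := 1 * d1 + m * d2) (w := d2) (T := T) ?_ ?_
    · have h0 : B2 0 - (1 / (2 * p + 3)) * Y 0 ^ (2 * p + 2) +
        G 0 * (X 0 + κ * Y 0 ^ (2 * q + 2)) - T' * (0 * (X 0 + κ * Y 0 ^ (2 * q + 2))) = 0 := by
        simp [B2, G, Y, X, rprim_zero]
      rw [h0] at key
      exact key
    · intro t
      have hS : HasDerivAt (fun t => X t + κ * Y t ^ (2 * q + 2))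
          (T * (-y t) + κ * ((2 * q + 2 : ℕ) * Y t ^ (2 * q + 2 - 1) *
            (T * (x t + κ * y t ^ (2 * q + 2))))) t :=
        (dX t).add (((dY t).pow (2 * q + 2)).const_mul κ)
      have h := (((dB2 t).sub (((dY t).pow (2 * p + 2)).const_mul (1 / (2 * (p : ℝ) + 3)))).add
        ((dG t).mul hS)).sub (((hasDerivAt_id (t : ℝ)).mul hS).const_mul T')
      refine HasDerivAt.congr_deriv h ?_
      simp only [hd1, hd2, hm, ContinuousMap.add_apply, ContinuousMap.mul_apply,
        ContinuousMap.sub_apply,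
        ContinuousMap.smul_apply, ContinuousMap.pow_apply, ContinuousMap.neg_apply,
        ContinuousMap.one_apply, smul_eq_mul, id_eq, vY, vG, vX, hS2,
        ContinuousMap.coe_mk, hu]
      have a1 : 2 * q + 2 - 1 = 2 * q + 1 := by omega
      have a2 : 2 * p + 2 - 1 = 2 * p + 1 := by omega
      rw [a1, a2]
      push_cast
      have a3 : y t ^ (2 * q + 2 * p + 3) = y t ^ (2 * q + 1) * y t ^ (2 * p + 2) := by
        rw [← pow_add]; congr 1; ring
      have a4 : y t ^ (2 * p + 2) = y t ^ (2 * p + 1) * y t := by rw [← pow_succ]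
      have a5 : y t ^ (2 * q + 2) = y t ^ (2 * q + 1) * y t := by rw [← pow_succ]
      rw [a3, a4, a5]
      field_simp
      ring
    · intro t
      simp only [hd2, ContinuousMap.add_apply, ContinuousMap.mul_apply, ContinuousMap.sub_apply,
        ContinuousMap.smul_apply, ContinuousMap.pow_apply, smul_eq_mul, vB2, vG, vX, vY, hu, hS2,
        ContinuousMap.coe_mk]
  obtain ⟨Lv, hLv⟩ := volterra_invertible T 0 (-1) 1 m
  have hzero : Lv (d1, d2) = 0 := by
    rw [hLv]
    have hc : (ContinuousMap.const unitInterval (0 : ℝ)) = 0 := rfl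
    rw [hc, zero_add] at E1 E2
    simp only
    rw [← E1, ← E2, sub_self, sub_self]
    rfl
  have hd0 : (d1, d2) = (0 : A × A) := by
    have := Lv.injective (hzero.trans (map_zero Lv).symm)
    exact this
  have hd10 : d1 = 0 := congrArg Prod.fst hd0
  have hy1 : y 1 = 0 := congrArg Prod.snd hend
  have h3 : d1 1 = 0 := by rw [hd10]; rfl
  simp only [hd1, ContinuousMap.add_apply, ContinuousMap.mul_apply, ContinuousMap.sub_apply,
    ContinuousMap.smul_apply, ContinuousMap.neg_apply, hy1, neg_zero, mul_zero, smul_zero,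
    add_zero, sub_zero] at h3
  exact h3

end Pool.Agent.Lib.MP_95e7ec_an
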