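import Mathlib
import Pool.Agent.Lib.MP_95e7ec_an.FoldMono
import Pool.Agent.Lib.MP_95e7ec_an.FoldEven
import Pool.Agent.Lib.MP_95e7ec_an.Paths

/-!
# The first order displacement of the odd perturbations at the linear centre
-/

set_option autoImplicit false

open Set Filter Topology

namespace Pool.Agent.Lib.MP_95e7ec_an

theorem odd_identity {D j : ℕ} (hj : 2 * j + 1 ≤ D) {z b : A × A} {T' F : ℝ}
    (hz1 : ∀ t : unitInterval, z.1 t = Real.cos (2 * Real.pi * t))
    (hz2 : ∀ t : unitInterval, z.2 t = Real.sin (2 * Real.pi * t))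
    (h1 : b.1 = T' • prim (pe (linArr D).1 z.1 z.2) + (2 * Real.pi) •
      prim (pex (linArr D).1 z.1 z.2 * b.1 + pey (linArr D).1 z.1 z.2 * b.2 +
        pe (0 : Co D) z.1 z.2))
    (h2 : b.2 = T' • prim (pe (linArr D).2 z.1 z.2) + (2 * Real.pi) •
      prim (pex (linArr D).2 z.1 z.2 * b.1 + pey (linArr D).2 z.1 z.2 * b.2 +
        pe (monoArr D 0 (2 * j + 1)) z.1 z.2))
    (hend : b.1 1 = -F) : F ≠ 0 := by
  have m1 : ∀ x y : A, pe (linArr D).1 x y = -y := by
    intro x y
    simp only [linArr, pe_neg_arr]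
    rw [pe_monoArr (by omega) (by omega)]
    simp
  have m2 : ∀ x y : A, pe (linArr D).2 x y = x := by
    intro x y
    simp only [linArr]
    rw [pe_monoArr (by omega) (by omega)]
    simp
  have m3 : ∀ x y : A, pex (linArr D).1 x y = 0 := by
    intro x y
    simp only [linArr, pex_neg_arr]
    rw [pex_monoArr (by omega) (by omega)]
    simp
  have m4 : ∀ x y : A, pey (linArr D).1 x y = -1 := by
    intro x y
    simp only [linArr, pey_neg_arr]
    rw [pey_monoArr (by omega) (by omega)]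
    simp
  have m5 : ∀ x y : A, pex (linArr D).2 x y = 1 := by
    intro x y
    simp only [linArr]
    rw [pex_monoArr (by omega) (by omega)]
    simp
  have m6 : ∀ x y : A, pey (linArr D).2 x y = 0 := by
    intro x y
    simp only [linArr]
    rw [pey_monoArr (by omega) (by omega)]
    simp
  have m7 : ∀ x y : A, pe (monoArr D 0 (2 * j + 1)) x y = y ^ (2 * j + 1) := by
    intro x y
    rw [pe_monoArr (by omega) (by omega)]
    simp
  simp only [m1, m2, m3, m4, m5, m6, m7, pe_zero_arr, zero_mul, zero_add, add_zero, one_mul,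
    neg_mul] at h1 h2
  set w : ℝ := 2 * Real.pi with hw
  have hwpos : 0 < w := by positivity
  let B1 : ℝ → ℝ := fun t => T' * rprim (-z.2) t + w * rprim (-b.2) t
  let B2 : ℝ → ℝ := fun t => T' * rprim z.1 t + w * rprim (b.1 + z.2 ^ (2 * j + 1)) t
  have vB1 : ∀ t : unitInterval, B1 t = b.1 t := by
    intro t
    conv_rhs => rw [h1]
    rfl
  have vB2 : ∀ t : unitInterval, B2 t = b.2 t := by
    intro t
    conv_rhs => rw [h2]
    rfl
  have dB1 : ∀ t : unitInterval, HasDerivAt B1 (T' * (-z.2 t) + w * (-b.2 t)) t := fun t =>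
    ((rprim_hasDerivAt (-z.2) t).const_mul T').add ((rprim_hasDerivAt (-b.2) t).const_mul w)
  have dB2 : ∀ t : unitInterval, HasDerivAt B2 (T' * z.1 t +
      w * (b.1 t + z.2 t ^ (2 * j + 1))) t := fun t =>
    ((rprim_hasDerivAt z.1 t).const_mul T').add
      ((rprim_hasDerivAt (b.1 + z.2 ^ (2 * j + 1)) t).const_mul w)
  let E : ℝ → ℝ := fun t => Real.cos (w * t) * B1 t + Real.sin (w * t) * B2 t
  have dE : ∀ t ∈ Set.Icc (0 : ℝ) 1, HasDerivAt E (w * Real.sin (w * t) ^ (2 * j + 2)) t := by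
    intro t ht
    have hl : HasDerivAt (fun t : ℝ => w * t) w t := by
      simpa using (hasDerivAt_id t).const_mul w
    have h := (hl.cos.mul (dB1 ⟨t, ht⟩)).add (hl.sin.mul (dB2 ⟨t, ht⟩))
    refine HasDerivAt.congr_deriv h ?_
    simp only [vB1 ⟨t, ht⟩, vB2 ⟨t, ht⟩, hz1 ⟨t, ht⟩, hz2 ⟨t, ht⟩]
    ring
  have hcont : ContinuousOn E (Set.Icc 0 1) := fun t ht =>
    (dE t ht).continuousAt.continuousWithinAt
  have hE0 : E 0 = 0 := by simp [E, B1, rprim_zero]
  have hE1 : E 1 = -F := by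
    have h3 : B1 1 = b.1 1 := vB1 1
    simp only [E, mul_one, h3, hend, hw, Real.cos_two_pi, Real.sin_two_pi, one_mul, zero_mul,
      add_zero]
  have hmono : MonotoneOn E (Set.Icc 0 1) := by
    refine monotoneOn_of_deriv_nonneg (convex_Icc 0 1) hcont ?_ ?_
    · intro t ht
      rw [interior_Icc] at ht
      exact (dE t ⟨ht.1.le, ht.2.le⟩).differentiableAt.differentiableWithinAt
    · intro t ht
      rw [interior_Icc] at ht
      rw [(dE t ⟨ht.1.le, ht.2.le⟩).deriv]
      have h4 : 0 ≤ Real.sin (w * t) ^ (2 * j + 2) := by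
        have : 2 * j + 2 = 2 * (j + 1) := by ring
        rw [this, pow_mul]
        positivity
      positivity
  have hstrict : StrictMonoOn E (Set.Icc 0 (1 / 2)) := by
    refine strictMonoOn_of_deriv_pos (convex_Icc 0 (1 / 2))
      (hcont.mono (Set.Icc_subset_Icc_right (by norm_num))) ?_
    intro t ht
    rw [interior_Icc] at ht
    rw [(dE t ⟨ht.1.le, by linarith [ht.2]⟩).deriv]
    have h5 : 0 < Real.sin (w * t) := by
      apply Real.sin_pos_of_pos_of_lt_pi
      · exact mul_pos hwpos ht.1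
      · rw [hw]
        nlinarith [Real.pi_pos, ht.2]
    positivity
  have h6 : E 0 < E (1 / 2) := hstrict ⟨le_rfl, by norm_num⟩ ⟨by norm_num, le_rfl⟩ (by norm_num)
  have h7 : E (1 / 2) ≤ E 1 := hmono ⟨by norm_num, by norm_num⟩ ⟨zero_le_one, le_rfl⟩
    (by norm_num)
  rw [hE0] at h6
  rw [hE1] at h7
  intro hF
  rw [hF] at h7
  linarith

end Pool.Agent.Lib.MP_95e7ec_an
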