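import Mathlib
import Pool.Agent.Lib.MP_95e7ec_an.Paths
import Pool.Agent.Lib.MP_95e7ec_an.IsoZero
import Pool.Agent.Lib.MP_95e7ec_an.FoldDefs

/-!
# Uniqueness of the first return, reversibility and scaling of return maps
-/

set_option autoImplicit false

open Set Filter Topology

namespace Pool.Agent.Lib.MP_95e7ec_an

/-! ### Reparametrisation of primitives -/

/-- The map `s ↦ t * s` of the unit interval. -/
def mulPath (t : unitInterval) : C(unitInterval, unitInterval) := ⟨fun s => t * s, by fun_prop⟩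

/-- The map `s ↦ 1 - s` of the unit interval. -/
def symPath : C(unitInterval, unitInterval) := ⟨unitInterval.symm, by fun_prop⟩

theorem prim_comp_mul (f : A) (t s : unitInterval) :
    prim f (t * s) = t * prim (f.comp (mulPath t)) s := by
  rw [prim_apply_path, prim_apply_path]
  have h1 := intervalIntegral.mul_integral_comp_mul_left (a := (0 : ℝ)) (b := (s : ℝ))
    (f := IccExtend (zero_le_one' ℝ) f) (t : ℝ)
  rw [mul_zero] at h1
  have h2 : ((t * s : unitInterval) : ℝ) = (t : ℝ) * s := rfl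
  rw [h2, ← h1]
  congr 1
  refine intervalIntegral.integral_congr fun u hu => ?_
  rw [uIcc_of_le s.2.1] at hu
  have hu1 : u ∈ Icc (0 : ℝ) 1 := ⟨hu.1, hu.2.trans s.2.2⟩
  have hu2 : (t : ℝ) * u ∈ Icc (0 : ℝ) 1 :=
    ⟨mul_nonneg t.2.1 hu1.1, mul_le_one₀ t.2.2 hu1.1 hu1.2⟩
  rw [IccExtend_of_mem _ _ hu1, IccExtend_of_mem _ _ hu2]
  rfl

theorem prim_comp_symm (f : A) (s : unitInterval) :
    prim f (unitInterval.symm s) = prim f 1 - prim (f.comp symPath) s := by
  rw [prim_apply_path, prim_apply_path, prim_apply_path]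
  have hc : Continuous (IccExtend (zero_le_one' ℝ) f) := f.continuous.Icc_extend'
  have h1 := intervalIntegral.integral_comp_sub_left (a := (0 : ℝ)) (b := (s : ℝ))
    (IccExtend (zero_le_one' ℝ) f) 1
  rw [sub_zero] at h1
  have h2 : ∫ u in (0 : ℝ)..(s : ℝ), IccExtend (zero_le_one' ℝ) (f.comp symPath) u =
      ∫ u in (0 : ℝ)..(s : ℝ), IccExtend (zero_le_one' ℝ) f (1 - u) := by
    refine intervalIntegral.integral_congr fun u hu => ?_
    rw [uIcc_of_le s.2.1] at hu
    have hu1 : u ∈ Icc (0 : ℝ) 1 := ⟨hu.1, hu.2.trans s.2.2⟩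
    have hu2 : (1 : ℝ) - u ∈ Icc (0 : ℝ) 1 := ⟨by linarith [hu1.2], by linarith [hu1.1]⟩
    rw [IccExtend_of_mem _ _ hu1, IccExtend_of_mem _ _ hu2]
    rfl
  rw [h2, h1]
  have h3 : ((unitInterval.symm s : unitInterval) : ℝ) = 1 - s := rfl
  have h4 : ((1 : unitInterval) : ℝ) = 1 := rfl
  rw [h3, h4]
  have h5 := intervalIntegral.integral_add_adjacent_intervals
    (hc.intervalIntegrable (μ := MeasureTheory.volume) 0 (1 - (s : ℝ)))
    (hc.intervalIntegrable (μ := MeasureTheory.volume) (1 - (s : ℝ)) 1)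
  linarith

theorem prim_smul_path (r : ℝ) (f : A) : prim (r • f) = r • prim f := by
  ext s
  rw [ContinuousMap.smul_apply, prim_apply_path, prim_apply_path, smul_eq_mul,
    ← intervalIntegral.integral_const_mul]
  refine intervalIntegral.integral_congr fun u hu => ?_
  rw [uIcc_of_le s.2.1] at hu
  have hu1 : u ∈ Icc (0 : ℝ) 1 := ⟨hu.1, hu.2.trans s.2.2⟩
  rw [IccExtend_of_mem _ _ hu1, IccExtend_of_mem _ _ hu1]
  rfl

theorem prim_neg_path (f : A) : prim (-f) = -prim f := by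
  have h := prim_smul_path (-1) f
  simpa using h

theorem pe_comp {D : ℕ} (c : Co D) (f g : A) (m : C(unitInterval, unitInterval)) :
    pe c (f.comp m) (g.comp m) = (pe c f g).comp m := by
  ext t
  rw [pe_apply, ContinuousMap.comp_apply, ContinuousMap.comp_apply, ContinuousMap.comp_apply,
    pe_apply]

/-- The restriction of a solution to `[0, t]`. -/
theorem Sol.restrict {D : ℕ} {μ : Pr D} {T : ℝ} {x : ℝ × ℝ} {z : A × A} (h : Sol μ T x z)
    (t : unitInterval) : Sol μ (T * t) x (z.1.comp (mulPath t), z.2.comp (mulPath t)) := by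
  constructor
  · ext s
    have h1 : z.1 (t * s) = x.1 + T * prim (pe μ.1 z.1 z.2) (t * s) := by
      conv_lhs => rw [h.1]
      rfl
    rw [prim_comp_mul, ← pe_comp] at h1
    simp only [ContinuousMap.add_apply, ContinuousMap.smul_apply, ContinuousMap.const_apply,
      smul_eq_mul]
    have h2 : (z.1.comp (mulPath t)) s = z.1 (t * s) := rfl
    rw [h2, h1]
    ring
  · ext s
    have h1 : z.2 (t * s) = x.2 + T * prim (pe μ.2 z.1 z.2) (t * s) := by
      conv_lhs => rw [h.2]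
      rfl
    rw [prim_comp_mul, ← pe_comp] at h1
    simp only [ContinuousMap.add_apply, ContinuousMap.smul_apply, ContinuousMap.const_apply,
      smul_eq_mul]
    have h2 : (z.2.comp (mulPath t)) s = z.2 (t * s) := rfl
    rw [h2, h1]
    ring

/-- Two solutions of the same system with the same initial point agree at equal times. -/
theorem Sol.at_eq {D : ℕ} {μ : Pr D} {T T' : ℝ} (hT : 0 < T) (hT' : 0 < T') {x : ℝ × ℝ}
    {z z' : A × A} (h : Sol μ T x z) (h' : Sol μ T' x z') (t t' : unitInterval)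
    (heq : T * t = T' * t') : at' z t = at' z' t' := by
  have h1 := h.restrict t
  have h2 := h'.restrict t'
  rw [← heq] at h2
  have h3 := h1.unique h2
  have h4 : z.1 (t * 1) = z'.1 (t' * 1) := congrArg (fun w : A × A => w.1 1) h3
  have h5 : z.2 (t * 1) = z'.2 (t' * 1) := congrArg (fun w : A × A => w.2 1) h3
  rw [mul_one, mul_one] at h4 h5
  exact Prod.ext h4 h5

/-- Uniqueness of the first return. -/
theorem RetMap.uniq {D : ℕ} {μ : Pr D} {p X : ℝ × ℝ} {η : ℝ} {ρ τ : ℝ → ℝ} {Z : ℝ → A × A}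
    (h : RetMap μ p X η ρ τ Z) {s : ℝ} (hs : s ∈ Set.Ioo (-η) η) {T : ℝ} (hT : 0 < T)
    {z : A × A} (hz : Sol μ T (p + s • nrm X) z) {s' : ℝ} (hs' : s' ∈ Set.Icc (-η) η)
    (hend : at' z 1 = p + s' • nrm X)
    (hcross : ∀ t : unitInterval, t ≠ 0 → t ≠ 1 → at' z t ≠ p + ρ s • nrm X) : s' = ρ s := by
  have hτ := h.tau_pos s hs
  rcases lt_trichotomy T (τ s) with hlt | heq | hgt
  · exfalso
    have h0 : 0 < T / τ s := div_pos hT hτ
    have h1 : T / τ s < 1 := (div_lt_one hτ).2 hlt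
    set t : unitInterval := ⟨T / τ s, h0.le, h1.le⟩ with ht
    have htv : (t : ℝ) = T / τ s := rfl
    have hkey : at' (Z s) t = at' z 1 := by
      refine Sol.at_eq hτ hT (h.sol s hs) hz t 1 ?_
      rw [htv, mul_div_cancel₀ _ hτ.ne']
      simp
    refine h.cross s hs t ?_ ?_ s' hs' (hkey.trans hend)
    · intro hc
      have := congrArg (fun u : unitInterval => (u : ℝ)) hc
      simp only [htv, Set.Icc.coe_zero] at this
      linarith
    · intro hc
      have := congrArg (fun u : unitInterval => (u : ℝ)) hc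
      simp only [htv, Set.Icc.coe_one] at this
      linarith
  · have hkey : at' (Z s) 1 = at' z 1 :=
      Sol.at_eq hτ hT (h.sol s hs) hz 1 1 (by rw [heq])
    rw [hend, h.endpt s hs] at hkey
    exact (add_smul_nrm_inj h.X_ne p hkey).symm
  · exfalso
    have h0 : 0 < τ s / T := div_pos hτ hT
    have h1 : τ s / T < 1 := (div_lt_one hT).2 hgt
    set t : unitInterval := ⟨τ s / T, h0.le, h1.le⟩ with ht
    have htv : (t : ℝ) = τ s / T := rfl
    have hkey : at' z t = at' (Z s) 1 := by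
      refine Sol.at_eq hT hτ hz (h.sol s hs) t 1 ?_
      rw [htv, mul_div_cancel₀ _ hT.ne']
      simp
    refine hcross t ?_ ?_ (hkey.trans (h.endpt s hs))
    · intro hc
      have := congrArg (fun u : unitInterval => (u : ℝ)) hc
      simp only [htv, Set.Icc.coe_zero] at this
      linarith
    · intro hc
      have := congrArg (fun u : unitInterval => (u : ℝ)) hc
      simp only [htv, Set.Icc.coe_one] at this
      linarith

/-! ### Reversible fields -/

theorem pe_neg_odd {D : ℕ} {c : Co D} (hc : ∀ a b : Fin (D + 1), Even (b : ℕ) → c a b = 0)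
    (x y : ℝ) : pe c x (-y) = -pe c x y := by
  unfold pe
  rw [← Finset.sum_neg_distrib]
  refine Finset.sum_congr rfl fun a _ => ?_
  rw [← Finset.sum_neg_distrib]
  refine Finset.sum_congr rfl fun b _ => ?_
  rcases Nat.even_or_odd (b : ℕ) with hb | hb
  · rw [hc a b hb]; simp
  · rw [hb.neg_pow]
    simp only [smul_eq_mul]
    ring

theorem pe_neg_even {D : ℕ} {c : Co D} (hc : ∀ a b : Fin (D + 1), Odd (b : ℕ) → c a b = 0)
    (x y : ℝ) : pe c x (-y) = pe c x y := by
  unfold pe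
  refine Finset.sum_congr rfl fun a _ => ?_
  refine Finset.sum_congr rfl fun b _ => ?_
  rcases Nat.even_or_odd (b : ℕ) with hb | hb
  · rw [hb.neg_pow]
  · rw [hc a b hb]; simp

/-- The reversed path of a solution of a reversible field. -/
theorem Sol.reverse {D : ℕ} {μ : Pr D} (hμ : RevArr μ) {T : ℝ} {x : ℝ × ℝ} {z : A × A}
    (h : Sol μ T x z) :
    Sol μ T ((at' z 1).1, -(at' z 1).2) (z.1.comp symPath, -(z.2.comp symPath)) := by
  have hpe1 : pe μ.1 (z.1.comp symPath) (-(z.2.comp symPath)) =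
      -(pe μ.1 z.1 z.2).comp symPath := by
    ext t
    rw [pe_apply, ContinuousMap.neg_apply, pe_neg_odd hμ.1, ContinuousMap.neg_apply,
      ContinuousMap.comp_apply, ContinuousMap.comp_apply, ContinuousMap.comp_apply, pe_apply]
  have hpe2 : pe μ.2 (z.1.comp symPath) (-(z.2.comp symPath)) =
      (pe μ.2 z.1 z.2).comp symPath := by
    ext t
    rw [pe_apply, ContinuousMap.neg_apply, pe_neg_even hμ.2,
      ContinuousMap.comp_apply, ContinuousMap.comp_apply, ContinuousMap.comp_apply, pe_apply]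
  constructor
  · simp only
    rw [hpe1, prim_neg_path]
    ext s
    have h1 : z.1 (unitInterval.symm s) = x.1 + T * prim (pe μ.1 z.1 z.2) (unitInterval.symm s) := by
      conv_lhs => rw [h.1]
      rfl
    have h2 : z.1 1 = x.1 + T * prim (pe μ.1 z.1 z.2) 1 := by
      conv_lhs => rw [h.1]
      rfl
    rw [prim_comp_symm] at h1
    have h3 : (z.1.comp symPath) s = z.1 (unitInterval.symm s) := rfl
    rw [h3, h1]
    simp only [ContinuousMap.add_apply, ContinuousMap.smul_apply, ContinuousMap.const_apply,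
      ContinuousMap.neg_apply, smul_eq_mul, at']
    rw [h2]
    ring
  · simp only
    rw [hpe2]
    ext s
    have h1 : z.2 (unitInterval.symm s) = x.2 + T * prim (pe μ.2 z.1 z.2) (unitInterval.symm s) := by
      conv_lhs => rw [h.2]
      rfl
    have h2 : z.2 1 = x.2 + T * prim (pe μ.2 z.1 z.2) 1 := by
      conv_lhs => rw [h.2]
      rfl
    rw [prim_comp_symm] at h1
    have h3 : (-(z.2.comp symPath)) s = -z.2 (unitInterval.symm s) := rfl
    rw [h3, h1]
    simp only [ContinuousMap.add_apply, ContinuousMap.smul_apply, ContinuousMap.const_apply,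
      smul_eq_mul, at']
    rw [h2]
    ring

theorem one_add_smul_nrm (s : ℝ) :
    ((1 : ℝ), (0 : ℝ)) + s • nrm ((0 : ℝ), (1 : ℝ)) = (1 - s, 0) := by
  simp only [nrm]
  ext
  · simp only [Prod.fst_add, Prod.smul_fst, smul_eq_mul]; ring
  · simp only [Prod.snd_add, Prod.smul_snd, smul_eq_mul]; ring

/-- For a reversible field the return map fixes the point `(1,0)`. -/
theorem RetMap.reversible {D : ℕ} {μ : Pr D} (hμ : RevArr μ) {η : ℝ} {ρ τ : ℝ → ℝ}
    {Z : ℝ → A × A} (h : RetMap μ (1, 0) (0, 1) η ρ τ Z) (h0 : ρ 0 ∈ Set.Ioo (-η) η)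
    (h1 : ρ (ρ 0) ∈ Set.Icc (-η) η) : ρ 0 = 0 := by
  have hη := h.eta_pos
  have hz0 : (0 : ℝ) ∈ Set.Ioo (-η) η := ⟨by linarith, hη⟩
  have hsol := h.sol 0 hz0
  have hend := h.endpt 0 hz0
  have hrev := hsol.reverse hμ
  have hstart : ((at' (Z 0) 1).1, -(at' (Z 0) 1).2) =
      ((1 : ℝ), (0 : ℝ)) + ρ 0 • nrm ((0 : ℝ), (1 : ℝ)) := by
    rw [hend, one_add_smul_nrm]
    simp
  rw [hstart] at hrev
  have hzz := hsol.at_zero
  rw [one_add_smul_nrm] at hzz
  have hkey : (0 : ℝ) = ρ (ρ 0) := by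
    refine h.uniq h0 (h.tau_pos 0 hz0) hrev ⟨by linarith, hη.le⟩ ?_ ?_
    · rw [one_add_smul_nrm]
      have e1 : (Z 0).1 0 = 1 - 0 := congrArg Prod.fst hzz
      have e2 : (Z 0).2 0 = 0 := congrArg Prod.snd hzz
      have e3 : at' ((Z 0).1.comp symPath, -((Z 0).2.comp symPath)) 1 =
          ((Z 0).1 (unitInterval.symm 1), -(Z 0).2 (unitInterval.symm 1)) := rfl
      rw [e3, unitInterval.symm_one, e1, e2, neg_zero]
    · intro t ht0 ht1 hc
      rw [one_add_smul_nrm] at hc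
      have e3 : at' ((Z 0).1.comp symPath, -((Z 0).2.comp symPath)) t =
          ((Z 0).1 (unitInterval.symm t), -(Z 0).2 (unitInterval.symm t)) := rfl
      rw [e3] at hc
      have e1 : (Z 0).1 (unitInterval.symm t) = 1 - ρ (ρ 0) := congrArg Prod.fst hc
      have e2 : -(Z 0).2 (unitInterval.symm t) = 0 := congrArg Prod.snd hc
      refine h.cross 0 hz0 (unitInterval.symm t) ?_ ?_ (ρ (ρ 0)) h1 ?_
      · intro h2
        apply ht1
        have := congrArg unitInterval.symm h2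
        rwa [unitInterval.symm_symm, unitInterval.symm_zero] at this
      · intro h2
        apply ht0
        have := congrArg unitInterval.symm h2
        rwa [unitInterval.symm_symm, unitInterval.symm_one] at this
      · rw [one_add_smul_nrm]
        exact Prod.ext e1 (neg_eq_zero.1 e2)
  rcases lt_trichotomy (ρ 0) 0 with hlt | heq | hgt
  · have := h.mono h0 hz0 hlt
    linarith
  · exact heq
  · have := h.mono hz0 h0 hgt
    linarith

/-! ### Scaling -/

theorem pe_scale {D : ℕ} {r : ℝ} (hr : r ≠ 0) {c : Co D} (hc : c 0 0 = 0) (x y : ℝ) :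
    pe (fun a b => c a b * r ^ ((a : ℕ) + (b : ℕ) - 1) : Co D) (r⁻¹ * x) (r⁻¹ * y) =
      r⁻¹ * pe c x y := by
  unfold pe
  rw [Finset.mul_sum]
  refine Finset.sum_congr rfl fun a _ => ?_
  rw [Finset.mul_sum]
  refine Finset.sum_congr rfl fun b _ => ?_
  simp only [smul_eq_mul]
  rcases Nat.eq_zero_or_pos ((a : ℕ) + (b : ℕ)) with h | h
  · have ha : a = 0 := Fin.ext (by rw [Fin.val_zero]; omega)
    have hb : b = 0 := Fin.ext (by rw [Fin.val_zero]; omega)
    rw [ha, hb, hc]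
    simp
  · obtain ⟨n, hn⟩ : ∃ n, (a : ℕ) + (b : ℕ) = n + 1 := ⟨(a : ℕ) + (b : ℕ) - 1, by omega⟩
    have h1 : r ^ ((a : ℕ) + (b : ℕ) - 1) * ((r⁻¹) ^ (a : ℕ) * (r⁻¹) ^ (b : ℕ)) = r⁻¹ := by
      rw [← pow_add, hn, Nat.add_sub_cancel, pow_succ, inv_pow, ← mul_assoc,
        mul_inv_cancel₀ (pow_ne_zero n hr), one_mul]
    rw [mul_pow, mul_pow]
    linear_combination (c a b * x ^ (a : ℕ) * y ^ (b : ℕ)) * h1

/-- Scaling of solutions. -/
theorem Sol.scale {D : ℕ} {μ : Pr D} (hμ : NoConst μ) {r : ℝ} (hr : r ≠ 0) {T : ℝ} {x : ℝ × ℝ}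
    {z : A × A} (h : Sol μ T x z) : Sol (scArr r μ) T (r⁻¹ • x) (r⁻¹ • z) := by
  have hpe1 : pe (scArr r μ).1 (r⁻¹ • z).1 (r⁻¹ • z).2 = r⁻¹ • pe μ.1 z.1 z.2 := by
    ext t
    rw [pe_apply, ContinuousMap.smul_apply, pe_apply, smul_eq_mul]
    exact pe_scale hr hμ.1 _ _
  have hpe2 : pe (scArr r μ).2 (r⁻¹ • z).1 (r⁻¹ • z).2 = r⁻¹ • pe μ.2 z.1 z.2 := by
    ext t
    rw [pe_apply, ContinuousMap.smul_apply, pe_apply, smul_eq_mul]
    exact pe_scale hr hμ.2 _ _
  constructor
  · rw [hpe1, prim_smul_path]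
    ext s
    have h1 : z.1 s = x.1 + T * prim (pe μ.1 z.1 z.2) s := by
      conv_lhs => rw [h.1]
      rfl
    have h3 : (r⁻¹ • z).1 s = r⁻¹ * z.1 s := rfl
    rw [h3, h1]
    simp only [ContinuousMap.add_apply, ContinuousMap.smul_apply, ContinuousMap.const_apply,
      smul_eq_mul, Prod.smul_fst]
    ring
  · rw [hpe2, prim_smul_path]
    ext s
    have h1 : z.2 s = x.2 + T * prim (pe μ.2 z.1 z.2) s := by
      conv_lhs => rw [h.2]
      rfl
    have h3 : (r⁻¹ • z).2 s = r⁻¹ * z.2 s := rfl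
    rw [h3, h1]
    simp only [ContinuousMap.add_apply, ContinuousMap.smul_apply, ContinuousMap.const_apply,
      smul_eq_mul, Prod.smul_snd]
    ring

/-- The scaling relation of the return maps. -/
theorem RetMap.scale {D : ℕ} {μ : Pr D} (hμ : NoConst μ) {s η : ℝ} {ρ τ ρ' τ' : ℝ → ℝ}
    {Z Z' : ℝ → A × A} (h : RetMap μ (1, 0) (0, 1) η ρ τ Z)
    (h' : RetMap (scArr (1 - s) μ) (1, 0) (0, 1) η ρ' τ' Z')
    (hs : s ∈ Set.Ioo (-η) η) (hs1 : s < 1) (hρ : 1 - (1 - ρ s) / (1 - s) ∈ Set.Icc (-η) η)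
    (hρ' : 1 - (1 - s) * (1 - ρ' 0) ∈ Set.Icc (-η) η) :
    1 - ρ s = (1 - s) * (1 - ρ' 0) := by
  have hη := h.eta_pos
  have hz0 : (0 : ℝ) ∈ Set.Ioo (-η) η := ⟨by linarith, hη⟩
  have hr : 0 < 1 - s := by linarith
  have hsol := h.sol s hs
  have hend := h.endpt s hs
  rw [one_add_smul_nrm] at hsol hend
  have hsc := hsol.scale hμ hr.ne'
  have hstart : (1 - s)⁻¹ • ((1 - s : ℝ), (0 : ℝ)) =
      ((1 : ℝ), (0 : ℝ)) + (0 : ℝ) • nrm ((0 : ℝ), (1 : ℝ)) := by
    rw [one_add_smul_nrm]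
    ext
    · simp only [Prod.smul_fst, smul_eq_mul]
      rw [inv_mul_cancel₀ hr.ne']; ring
    · simp
  rw [hstart] at hsc
  have e1 : (Z s).1 1 = 1 - ρ s := congrArg Prod.fst hend
  have e2 : (Z s).2 1 = 0 := congrArg Prod.snd hend
  have hkey : 1 - (1 - ρ s) / (1 - s) = ρ' 0 := by
    refine h'.uniq hz0 (h.tau_pos s hs) hsc hρ ?_ ?_
    · rw [one_add_smul_nrm]
      have e3 : at' ((1 - s)⁻¹ • Z s) 1 = ((1 - s)⁻¹ * (Z s).1 1, (1 - s)⁻¹ * (Z s).2 1) := rfl
      rw [e3, e1, e2, mul_zero]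
      refine Prod.ext ?_ rfl
      simp only
      ring
    · intro t ht0 ht1 hc
      rw [one_add_smul_nrm] at hc
      have e3 : at' ((1 - s)⁻¹ • Z s) t = ((1 - s)⁻¹ * (Z s).1 t, (1 - s)⁻¹ * (Z s).2 t) := rfl
      rw [e3] at hc
      have f1 : (1 - s)⁻¹ * (Z s).1 t = 1 - ρ' 0 := congrArg Prod.fst hc
      have f2 : (1 - s)⁻¹ * (Z s).2 t = 0 := congrArg Prod.snd hc
      refine h.cross s hs t ht0 ht1 _ hρ' ?_
      rw [one_add_smul_nrm]
      refine Prod.ext ?_ ?_
      · have : (Z s).1 t = (1 - s) * (1 - ρ' 0) := by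
          rw [← f1, mul_inv_cancel_left₀ hr.ne']
        simp only [at']
        rw [this]; ring
      · rcases mul_eq_zero.1 f2 with g | g
        · exact absurd g (inv_ne_zero hr.ne')
        · exact g
  rw [← hkey]
  field_simp
  ring

end Pool.Agent.Lib.MP_95e7ec_an
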