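import Mathlib
import Pool.Agent.Lib.MP_95e7ec_an.Flow
import Pool.Agent.Lib.MP_95e7ec_an.Paths
import Pool.Agent.Lib.MP_95e7ec_an.Return

/-!
# Theorem (E), task E1: the variation of a family of paths
-/

set_option autoImplicit false

open Set Filter Topology

namespace Pool.Agent.Lib.MP_95e7ec_an

/-- The derivative of a family of paths in the direction `ν` of the field. -/
theorem Sol.variation {D : ℕ} {N : Set (Pr D)} (hN : IsOpen N) {μ : Pr D} (hμ : μ ∈ N)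
    (τ : Pr D → ℝ) (Z : Pr D → A × A) (x : ℝ × ℝ) (hτ : DifferentiableAt ℝ τ μ)
    (hZ : DifferentiableAt ℝ Z μ) (hsol : ∀ ν ∈ N, Sol ν (τ ν) x (Z ν)) (ν : Pr D) :
    (fderiv ℝ Z μ ν).1 = fderiv ℝ τ μ ν • prim (pe μ.1 (Z μ).1 (Z μ).2) +
      τ μ • prim (pex μ.1 (Z μ).1 (Z μ).2 * (fderiv ℝ Z μ ν).1 +
        pey μ.1 (Z μ).1 (Z μ).2 * (fderiv ℝ Z μ ν).2 + pe ν.1 (Z μ).1 (Z μ).2) ∧
    (fderiv ℝ Z μ ν).2 = fderiv ℝ τ μ ν • prim (pe μ.2 (Z μ).1 (Z μ).2) +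
      τ μ • prim (pex μ.2 (Z μ).1 (Z μ).2 * (fderiv ℝ Z μ ν).1 +
        pey μ.2 (Z μ).1 (Z μ).2 * (fderiv ℝ Z μ ν).2 + pe ν.2 (Z μ).1 (Z μ).2) := by
  obtain ⟨G', hG, hG'⟩ := flow_hasFDerivAt_G μ (τ μ) x (Z μ)
  have hF : HasFDerivAt (fun ν : Pr D => (((x, τ ν, ν), Z ν) : ((ℝ × ℝ) × ℝ × Pr D) × (A × A)))
      (((0 : Pr D →L[ℝ] ℝ × ℝ).prod ((fderiv ℝ τ μ).prod (ContinuousLinearMap.id ℝ (Pr D)))).prod
        (fderiv ℝ Z μ)) μ :=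
    ((hasFDerivAt_const x μ).prodMk (hτ.hasFDerivAt.prodMk (hasFDerivAt_id μ))).prodMk
      hZ.hasFDerivAt
  have hcomp := HasFDerivAt.comp μ (g := flow_G D) hG hF
  have hzero : HasFDerivAt (fun ν : Pr D => flow_G D ((x, τ ν, ν), Z ν))
      (0 : Pr D →L[ℝ] A × A) μ := by
    refine (hasFDerivAt_const (0 : A × A) μ).congr_of_eventuallyEq ?_
    filter_upwards [hN.mem_nhds hμ] with ν' hν'
    exact (flow_G_eq_zero_iff _).2 (hsol ν' hν')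
  have heq := hcomp.unique hzero
  have h0 : G' (((0 : ℝ × ℝ), fderiv ℝ τ μ ν, ν), fderiv ℝ Z μ ν) = 0 := by
    have := congrArg (fun L : Pr D →L[ℝ] A × A => L ν) heq
    simpa using this
  rw [hG' 0 (fderiv ℝ τ μ ν) ν (fderiv ℝ Z μ ν), Prod.mk_eq_zero] at h0
  obtain ⟨h1, h2⟩ := h0
  have hc1 : flow_constL ((0 : ℝ × ℝ)).1 = 0 := by simp [flow_constL]
  have hc2 : flow_constL ((0 : ℝ × ℝ)).2 = 0 := by simp [flow_constL]
  rw [hc1, sub_zero, flow_primL_apply, flow_primL_apply, sub_sub, sub_eq_zero] at h1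
  rw [hc2, sub_zero, flow_primL_apply, flow_primL_apply, sub_sub, sub_eq_zero] at h2
  refine ⟨?_, ?_⟩
  · rw [h1]
    congr 3
    rw [← h1]
    ring
  · rw [h2]
    congr 3
    rw [← h2]
    ring

end Pool.Agent.Lib.MP_95e7ec_an
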