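import Mathlib
import Pool.Agent.Lib.MP_95e7ec_an.FoldDefs
import Pool.Agent.Lib.MP_95e7ec_an.FoldVar
import Pool.Agent.Lib.MP_95e7ec_an.FoldUniq
import Pool.Agent.Lib.MP_95e7ec_an.FoldOdd
import Pool.Agent.Lib.MP_95e7ec_an.FoldEven
import Pool.Agent.Lib.MP_95e7ec_an.FoldReturn
import Pool.Agent.Lib.MP_95e7ec_an.Persist

/-!
# The local theory of the fields near the linear centre
-/

set_option autoImplicit false

open Set Filter Topology
open scoped ContDiff

namespace Pool.Agent.Lib.MP_95e7ec_an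

theorem foldChart_pe_monoArr {D α β : ℕ} {R : Type*} [CommRing R] [Algebra ℝ R] (hα : α ≤ D)
    (hβ : β ≤ D) (x y : R) : pe (monoArr D α β) x y = x ^ α * y ^ β := by
  unfold pe monoArr
  rw [Finset.sum_eq_single (⟨α, Nat.lt_succ_of_le hα⟩ : Fin (D + 1))]
  · rw [Finset.sum_eq_single (⟨β, Nat.lt_succ_of_le hβ⟩ : Fin (D + 1))]
    · simp
    · intro b _ hb
      have : (b : ℕ) ≠ β := fun h => hb (Fin.ext h)
      simp [this]
    · intro h; exact absurd (Finset.mem_univ _) h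
  · intro a _ ha
    have : (a : ℕ) ≠ α := fun h => ha (Fin.ext h)
    simp [this]
  · intro h; exact absurd (Finset.mem_univ _) h

theorem foldChart_vfc_linArr {D : ℕ} (hD : 1 ≤ D) (z : ℝ × ℝ) :
    vfc (linArr D) z = (-z.2, z.1) := by
  unfold vfc linArr
  have h1 : pe (-monoArr D 0 1) z.1 z.2 = -pe (monoArr D 0 1) z.1 z.2 := by
    simp [pe, Finset.sum_neg_distrib]
  rw [h1, foldChart_pe_monoArr (Nat.zero_le _) hD, foldChart_pe_monoArr hD (Nat.zero_le _)]
  simp

/-- The unit circle. -/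
noncomputable def foldCircle (t : ℝ) : ℝ × ℝ := (Real.cos t, Real.sin t)

theorem foldCircle_continuous : Continuous foldCircle := by
  unfold foldCircle; fun_prop

theorem foldCircle_hasDerivAt {D : ℕ} (hD : 1 ≤ D) (t : ℝ) :
    HasDerivAt foldCircle (vfc (linArr D) (foldCircle t)) t := by
  rw [foldChart_vfc_linArr hD]
  exact (Real.hasDerivAt_cos t).prodMk (Real.hasDerivAt_sin t)

theorem foldChart_revArr {D : ℕ} (L : ℕ) (κ : ℝ) :
    RevArr (linArr D + κ • ((0, monoArr D 0 (2 * L)) : Pr D)) := by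
  constructor
  · intro a b hb
    have h1 : (b : ℕ) ≠ 1 := by rintro h; rw [h] at hb; exact absurd hb (by decide)
    simp [linArr, monoArr, h1]
  · intro a b hb
    have h1 : (b : ℕ) ≠ 0 := by rintro h; rw [h] at hb; exact absurd hb (by decide)
    have h2 : (b : ℕ) ≠ 2 * L := by
      rintro h; rw [h] at hb; exact absurd hb (Nat.not_odd_iff_even.2 (even_two_mul L))
    simp [linArr, monoArr, h1, h2]

/-- The open set containing the unit circle. -/
def foldTube (η : ℝ) : Set (ℝ × ℝ) :=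
  Metric.ball 0 2 ∩ {z : ℝ × ℝ | z.2 = 0 ∧ 0 ≤ z.1 ∧ η ≤ |z.1 - 1|}ᶜ

theorem foldTube_isOpen (η : ℝ) : IsOpen (foldTube η) := by
  have h1 : Continuous fun z : ℝ × ℝ => |z.1 - 1| := by fun_prop
  have h2 : IsClosed {z : ℝ × ℝ | z.2 = 0 ∧ 0 ≤ z.1 ∧ η ≤ |z.1 - 1|} :=
    (isClosed_eq continuous_snd continuous_const).inter
      ((isClosed_le continuous_const continuous_fst).inter (isClosed_le continuous_const h1))
  exact Metric.isOpen_ball.inter h2.isOpen_compl

theorem foldTube_circle {η : ℝ} (hη : 0 < η) (t : ℝ) : foldCircle t ∈ foldTube η := by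
  refine ⟨?_, ?_⟩
  · rw [mem_ball_zero_iff, foldCircle, Prod.norm_def, Real.norm_eq_abs, Real.norm_eq_abs]
    exact max_lt ((Real.abs_cos_le_one t).trans_lt (by norm_num))
      ((Real.abs_sin_le_one t).trans_lt (by norm_num))
  · rintro ⟨h1, h2, h3⟩
    simp only [foldCircle] at h1 h2 h3
    have h4 := Real.sin_sq_add_cos_sq t
    rw [h1] at h4
    have h5 : Real.cos t = 1 := by nlinarith
    rw [h5] at h3
    simp at h3
    linarith

theorem foldChart_nrm (s : ℝ) : ((1 : ℝ), (0 : ℝ)) + s • nrm ((0 : ℝ), (1 : ℝ)) = (1 - s, 0) := by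
  simp only [nrm]
  ext
  · simp; ring
  · simp

theorem exists_centreChart {D : ℕ} (hD : 1 ≤ D) : Nonempty (CentreChart D) := by
  have hX : ((0 : ℝ), (1 : ℝ)) = vfc (linArr D) ((1 : ℝ), (0 : ℝ)) := by
    rw [foldChart_vfc_linArr hD]; simp
  obtain ⟨ρ, τ, Z, η, N, hη, hNo, hμN, hρa, hτa, hZa, hρ0, hτ0, hZ0, hret⟩ :=
    exists_return' (linArr D) foldCircle foldCircle_continuous (foldCircle_hasDerivAt hD)
      (2 * Real.pi) (by positivity) (by simp [foldCircle]) (by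
        intro t ht h
        have h1 : Real.cos t = 1 := by
          have := congrArg Prod.fst h
          simpa [foldCircle] using this
        have h2 := (Real.cos_eq_one_iff_of_lt_of_lt (by linarith [ht.1, Real.pi_pos]) ht.2).1 h1
        linarith [ht.1])
      (1, 0) (0, 1) (by simp [foldCircle]) hX (by simp)
  set μ0 : Pr D := linArr D with hμ0
  have hη0 : (0 : ℝ) ∈ Set.Ioo (-η) η := ⟨by linarith, hη⟩
  have hopen : IsOpen (Set.Ioo (-η) η ×ˢ N) := isOpen_Ioo.prod hNo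
  -- slices at `0`
  have hslice : ∀ μ : Pr D, AnalyticAt ℝ (fun μ : Pr D => ((0 : ℝ), μ)) μ := fun μ =>
    analyticAt_const.prod analyticAt_id
  have hdisp : AnalyticOnNhd ℝ (fun μ => ρ (0, μ)) N := fun μ hμ =>
    AnalyticAt.fun_comp (g := ρ) (f := fun μ : Pr D => ((0 : ℝ), μ)) (hρa (0, μ) ⟨hη0, hμ⟩)
      (hslice μ)
  have htau : AnalyticOnNhd ℝ (fun μ => τ (0, μ)) N := fun μ hμ =>
    AnalyticAt.fun_comp (g := τ) (f := fun μ : Pr D => ((0 : ℝ), μ)) (hτa (0, μ) ⟨hη0, hμ⟩)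
      (hslice μ)
  have hZs : AnalyticOnNhd ℝ (fun μ => Z (0, μ)) N := fun μ hμ =>
    AnalyticAt.fun_comp (g := Z) (f := fun μ : Pr D => ((0 : ℝ), μ)) (hZa (0, μ) ⟨hη0, hμ⟩)
      (hslice μ)
  -- the conditions
  have c1 : ∀ᶠ μ in 𝓝 μ0, μ ∈ N := hNo.mem_nhds hμN
  have c2 : ∀ᶠ μ in 𝓝 μ0, ρ (0, μ) ∈ Set.Ioo (-η) η := by
    have h1 := (hdisp μ0 hμN).continuousAt
    have h2 : ρ (0, μ0) ∈ Set.Ioo (-η) η := by rw [hρ0]; exact hη0
    exact h1.eventually (isOpen_Ioo.mem_nhds h2)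
  have c3 : ∀ᶠ μ in 𝓝 μ0, ρ (ρ (0, μ), μ) ∈ Set.Ioo (-η) η := by
    have h1 := (hdisp μ0 hμN).continuousAt
    have h2 : ContinuousAt (fun μ : Pr D => (ρ (0, μ), μ)) μ0 := h1.prodMk continuousAt_id
    have h3 : ContinuousAt ρ ((fun μ : Pr D => (ρ (0, μ), μ)) μ0) := by
      simp only [hρ0]
      exact (hρa (0, μ0) ⟨hη0, hμN⟩).continuousAt
    have h4 : ContinuousAt (fun μ : Pr D => ρ (ρ (0, μ), μ)) μ0 :=
      ContinuousAt.comp (f := fun μ : Pr D => (ρ (0, μ), μ)) (g := ρ) h3 h2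
    have h5 : ρ (ρ (0, μ0), μ0) ∈ Set.Ioo (-η) η := by rw [hρ0, hρ0]; exact hη0
    exact h4.eventually (isOpen_Ioo.mem_nhds h5)
  have c4 : ∀ᶠ μ in 𝓝 μ0, Set.range (at' (Z (0, μ))) ⊆ foldTube η := by
    have h1 := (hZs μ0 hμN).continuousAt
    have h2 : Set.range (at' (Z (0, μ0))) ⊆ foldTube η := by
      rw [hZ0]
      rintro _ ⟨t, rfl⟩
      exact foldTube_circle hη _
    exact h1.eventually (eventually_range_subset (foldTube_isOpen η) h2)
  obtain ⟨V, hV, hVo, hμV⟩ := eventually_nhds_iff.1 (c1.and (c2.and (c3.and c4)))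
  have hVN : V ⊆ N := fun μ hμ => (hV μ hμ).1
  -- the end point
  have hend : ∀ μ ∈ N, at' (Z (0, μ)) 1 = (1 - ρ (0, μ), 0) := by
    intro μ hμ
    rw [(hret μ hμ).endpt 0 hη0, foldChart_nrm]
  have hsol : ∀ μ ∈ N, Sol μ (τ (0, μ)) (1, 0) (Z (0, μ)) := by
    intro μ hμ
    have h1 := (hret μ hμ).sol 0 hη0
    rwa [foldChart_nrm, sub_zero] at h1
  -- the derivative of the end point
  have hend' : ∀ μ ∈ N, ∀ ν : Pr D, (fderiv ℝ (fun μ => Z (0, μ)) μ ν).1 1 =
      -fderiv ℝ (fun μ => ρ (0, μ)) μ ν := by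
    intro μ hμ ν
    let ev : A × A →L[ℝ] ℝ :=
      (ContinuousMap.evalCLM ℝ (1 : unitInterval)).comp (ContinuousLinearMap.fst ℝ A A)
    have h1 : HasFDerivAt (fun μ => Z (0, μ)) (fderiv ℝ (fun μ => Z (0, μ)) μ) μ :=
      (hZs μ hμ).differentiableAt.hasFDerivAt
    have h2 : HasFDerivAt (fun μ => ρ (0, μ)) (fderiv ℝ (fun μ => ρ (0, μ)) μ) μ :=
      (hdisp μ hμ).differentiableAt.hasFDerivAt
    have h3 := ev.hasFDerivAt.comp μ h1
    have h4 : (ev ∘ fun μ => Z (0, μ)) =ᶠ[𝓝 μ] fun μ => 1 - ρ (0, μ) := by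
      filter_upwards [hNo.mem_nhds hμ] with μ' hμ'
      exact congrArg Prod.fst (hend μ' hμ')
    have h5 : HasFDerivAt (fun μ => 1 - ρ (0, μ)) (-(fderiv ℝ (fun μ => ρ (0, μ)) μ)) μ :=
      h2.const_sub 1
    have h6 := h3.unique (h5.congr_of_eventuallyEq h4)
    have h7 := congrArg (fun l : Pr D →L[ℝ] ℝ => l ν) h6
    exact h7
  refine ⟨{
    nbhd := V
    disp := fun μ => ρ (0, μ)
    isOpen := hVo
    mem := hμV
    analytic := hdisp.mono hVN
    rev := ?_
    cycles := ?_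
    deriv_odd := ?_
    deriv_even := ?_ }⟩
  · -- rev
    intro μ hμ hrev
    obtain ⟨h1, h2, h3, -⟩ := hV μ hμ
    exact (hret μ h1).reversible hrev h2 (Set.Ioo_subset_Icc_self h3)
  · -- cycles
    intro m a1 a2 ha1 ha12 hm hma hscale hnc hsign
    set g : ℝ → ℝ := fun a => ρ (0, m a) with hg
    have hga : AnalyticOnNhd ℝ g (Set.Icc a1 a2) := fun a ha =>
      AnalyticAt.fun_comp (g := fun μ => ρ (0, μ)) (f := m) (hdisp (m a) (hVN (hm a ha)))
        (hma a ha)
    have hgc : ContinuousOn g (Set.Icc a1 a2) := hga.continuousOn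
    have hzero : ∃ a ∈ Set.Icc a1 a2, g a = 0 := by
      rcases mul_neg_iff.1 hsign with ⟨h1, h2⟩ | ⟨h1, h2⟩
      · obtain ⟨s, hs, hs0⟩ := intermediate_value_Icc' ha12.le hgc
          (show (0 : ℝ) ∈ Set.Icc _ _ from ⟨h2.le, h1.le⟩)
        exact ⟨s, hs, hs0⟩
      · obtain ⟨s, hs, hs0⟩ := intermediate_value_Icc ha12.le hgc
          (show (0 : ℝ) ∈ Set.Icc _ _ from ⟨h1.le, h2.le⟩)
        exact ⟨s, hs, hs0⟩
    obtain ⟨a, ha, ha0⟩ := hzero
    have hne1 : g a1 ≠ 0 := by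
      intro h0
      have : g a1 * g a2 < 0 := hsign
      rw [h0, zero_mul] at this; exact lt_irrefl _ this
    have hne2 : g a2 ≠ 0 := by
      intro h0
      have : g a1 * g a2 < 0 := hsign
      rw [h0, mul_zero] at this; exact lt_irrefl _ this
    have haI : a ∈ Set.Ioo a1 a2 := by
      refine ⟨lt_of_le_of_ne ha.1 ?_, lt_of_le_of_ne ha.2 ?_⟩
      · rintro rfl; exact hne1 ha0
      · rintro rfl; exact hne2 ha0
    have hapos : 0 < a := lt_trans ha1 haI.1
    have hiso : ∀ᶠ x in 𝓝[≠] a, g x ≠ 0 := by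
      by_contra hcon
      have hfreq : ∃ᶠ x in 𝓝[≠] a, g x = 0 := by
        rw [Filter.not_eventually] at hcon
        refine hcon.mono fun s hs => ?_
        push Not at hs
        exact hs
      have := hga.eqOn_zero_of_preconnected_of_frequently_eq_zero
        isPreconnected_Icc ha hfreq
      exact hne1 (this (Set.left_mem_Icc.2 ha12.le))
    set μ : Pr D := m a with hμdef
    have hμV' : μ ∈ V := hm a ha
    obtain ⟨hμN', hμ2, hμ3, hμ4⟩ := hV μ hμV'
    have hR := hret μ hμN'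
    have hfix : ρ (0, μ) = 0 := ha0
    -- the map `s ↦ (1 - s) a`
    have hlin : Continuous fun s : ℝ => (1 - s) * a := by fun_prop
    have htend : Tendsto (fun s : ℝ => (1 - s) * a) (𝓝 0) (𝓝 a) := by
      have := hlin.tendsto 0
      simpa using this
    have htend' : Tendsto (fun s : ℝ => (1 - s) * a) (𝓝[≠] 0) (𝓝[≠] a) := by
      refine tendsto_nhdsWithin_iff.2 ⟨htend.mono_left nhdsWithin_le_nhds, ?_⟩
      filter_upwards [self_mem_nhdsWithin] with s hs
      have hs' : s ≠ 0 := hs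
      intro h
      have h1 : (1 - s) * a = a := h
      have h2 : s * a = 0 := by linarith
      rcases mul_eq_zero.1 h2 with h3 | h3
      · exact hs' h3
      · exact hapos.ne' h3
    have hgat : ContinuousAt g a := (hga a ha).continuousAt
    have e1 : ∀ᶠ s in 𝓝[≠] (0 : ℝ), g ((1 - s) * a) ≠ 0 := htend'.eventually hiso
    have e2 : ∀ᶠ s in 𝓝 (0 : ℝ), (1 - s) * a ∈ Set.Icc a1 a2 :=
      htend.eventually (Icc_mem_nhds haI.1 haI.2)
    have e3 : ∀ᶠ s in 𝓝 (0 : ℝ), s ∈ Set.Ioo (-η) η := isOpen_Ioo.mem_nhds hη0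
    have e4 : ∀ᶠ s in 𝓝 (0 : ℝ), s < 1 := gt_mem_nhds one_pos
    have hρs : ContinuousAt (fun s : ℝ => ρ (s, μ)) 0 :=
      hR.cont_rho.continuousAt (isOpen_Ioo.mem_nhds hη0)
    have e5 : ∀ᶠ s in 𝓝 (0 : ℝ), 1 - (1 - ρ (s, μ)) / (1 - s) ∈ Set.Icc (-η) η := by
      have h1 : ContinuousAt (fun s : ℝ => 1 - (1 - ρ (s, μ)) / (1 - s)) 0 := by
        refine continuousAt_const.sub ((continuousAt_const.sub hρs).div (by fun_prop) (by simp))
      refine h1.eventually (Icc_mem_nhds ?_ ?_)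
      · simp only [hfix]; simp; linarith
      · simp only [hfix]; simp; linarith
    have hgs : Tendsto (fun s : ℝ => g ((1 - s) * a)) (𝓝 0) (𝓝 0) := by
      have h1 := hgat.tendsto.comp htend
      rw [ha0] at h1
      exact h1
    have e6 : ∀ᶠ s in 𝓝 (0 : ℝ), 1 - (1 - s) * (1 - g ((1 - s) * a)) ∈ Set.Icc (-η) η := by
      have h0 : Tendsto (fun s : ℝ => 1 - s) (𝓝 0) (𝓝 (1 - 0)) := by
        exact (continuous_const.sub continuous_id).tendsto (0 : ℝ)
      have h1 : Tendsto (fun s : ℝ => 1 - (1 - s) * (1 - g ((1 - s) * a))) (𝓝 0)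
          (𝓝 (1 - (1 - 0) * (1 - 0))) :=
        tendsto_const_nhds.sub (h0.mul (tendsto_const_nhds.sub hgs))
      refine h1.eventually (Icc_mem_nhds ?_ ?_)
      · norm_num; linarith
      · norm_num; linarith
    have hiso' : ∀ᶠ s in 𝓝[≠] (0 : ℝ), ρ (s, μ) ≠ s := by
      filter_upwards [e1, e2.filter_mono nhdsWithin_le_nhds, e3.filter_mono nhdsWithin_le_nhds,
        e4.filter_mono nhdsWithin_le_nhds, e5.filter_mono nhdsWithin_le_nhds,
        e6.filter_mono nhdsWithin_le_nhds] with s h1 h2 h3 h4 h5 h6 heq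
      have hsc : m ((1 - s) * a) = scArr (1 - s) μ := hscale a (1 - s) hapos (by linarith)
      have hR' := hret (m ((1 - s) * a)) (hVN (hm _ h2))
      rw [hsc] at hR'
      have h7 : g ((1 - s) * a) = ρ (0, scArr (1 - s) μ) := by simp only [hg]; rw [hsc]
      rw [h7] at h6 h1
      have h8 := RetMap.scale (hnc a) hR hR' h3 h4 h5 h6
      rw [heq] at h8
      apply h1
      have h9 : (1 - s) * ρ (0, scArr (1 - s) μ) = 0 := by linarith
      rcases mul_eq_zero.1 h9 with h10 | h10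
      · linarith
      · exact h10
    have hLC := hR.isLimitCycle hη0 hfix hiso'
    refine ⟨a, haI, _, hLC, ?_, ?_, ?_⟩
    · exact ⟨0, (hsol μ hμN').at_zero⟩
    · intro X hX0 hXm
      have h1 := hμ4 hXm
      have h2 : |X - 1| < η := by
        by_contra hcon
        push Not at hcon
        exact h1.2 ⟨rfl, hX0.le, hcon⟩
      have h3 : ((1 : ℝ), (0 : ℝ)) + (1 - X) • nrm ((0 : ℝ), (1 : ℝ)) = (X, 0) := by
        rw [foldChart_nrm]; simp
      rw [← h3] at hXm
      have h4 : (1 - X) ∈ Set.Icc (-η) η := by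
        rw [abs_lt] at h2
        exact ⟨by linarith [h2.2], by linarith [h2.1]⟩
      have h5 := at'_zero_iff hR hη0 hfix h4 hXm
      linarith
    · exact hμ4.trans (Set.inter_subset_left)
  · -- deriv_odd
    intro j hj
    have hvar := Sol.variation hNo hμN (fun μ => τ (0, μ)) (fun μ => Z (0, μ)) (1, 0)
      (htau μ0 hμN).differentiableAt (hZs μ0 hμN).differentiableAt hsol
      ((0, monoArr D 0 (2 * j + 1)) : Pr D)
    simp only [hτ0] at hvar
    refine odd_identity hj ?_ ?_ hvar.1 hvar.2 (hend' μ0 hμN _)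
    · intro t
      rw [hZ0]
      simp [pathOf, foldCircle]
    · intro t
      rw [hZ0]
      simp [pathOf, foldCircle]
  · -- deriv_even
    intro L k κ hL hk hLk hμ
    set μ : Pr D := linArr D + κ • ((0, monoArr D 0 (2 * L)) : Pr D) with hμdef
    obtain ⟨hμN', hμ2, hμ3, hμ4⟩ := hV μ hμ
    have hrev : ρ (0, μ) = 0 :=
      (hret μ hμN').reversible (foldChart_revArr L κ) hμ2 (Set.Ioo_subset_Icc_self hμ3)
    set ν : Pr D := (monoArr D 0 (2 * k),
      -(κ * (2 * L / (2 * k + 1))) • monoArr D 0 (2 * L + 2 * k - 1)) with hνdef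
    have hvar := Sol.variation hNo hμN' (fun μ => τ (0, μ)) (fun μ => Z (0, μ)) (1, 0)
      (htau μ hμN').differentiableAt (hZs μ hμN').differentiableAt hsol ν
    have h1 := even_identity hL hk hLk hμdef hνdef (hsol μ hμN')
      (by rw [hend μ hμN', hrev, sub_zero]) hvar.1 hvar.2
    rw [hend' μ hμN' ν] at h1
    have h2 : ν = ((monoArr D 0 (2 * k), 0) : Pr D) +
        (-(κ * (2 * L / (2 * k + 1)))) • ((0, monoArr D 0 (2 * L + 2 * k - 1)) : Pr D) := by
      rw [hνdef]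
      ext <;> simp
    rw [h2, map_add, map_smul, smul_eq_mul] at h1
    linarith

end Pool.Agent.Lib.MP_95e7ec_an
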