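import Mathlib
import Pool.Agent.Lib.MP_95e7ec_an.Affine

/-!
# Transport of limit cycles by a diagonal affine chart and a change of time of either sign
-/

set_option autoImplicit false

open Set Filter Topology

namespace Pool.Agent.Lib.MP_95e7ec_an

theorem IsClosedOrbit.neg {v : ℝ × ℝ → ℝ × ℝ} {C : Set (ℝ × ℝ)} (h : IsClosedOrbit v C) :
    IsClosedOrbit (fun z => -v z) C := by
  obtain ⟨γ, T, hT, hd, hper, ⟨s, t, hst⟩, rfl⟩ := h
  refine ⟨fun t => γ (-t), T, hT, ?_, ?_, ⟨-s, -t, by simpa using hst⟩, ?_⟩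
  · intro t
    have h0 : HasDerivAt (fun t : ℝ => -t) (-1) t := hasDerivAt_neg t
    have h1 := (hd (-t)).scomp t h0
    simpa [Function.comp_def] using h1
  · intro t
    have h1 := hper (-(t + T))
    rw [show -(t + T) + T = -t by ring] at h1
    exact h1.symm
  · ext z
    constructor
    · rintro ⟨u, rfl⟩
      exact ⟨-u, by simp⟩
    · rintro ⟨u, rfl⟩
      exact ⟨-u, rfl⟩

theorem IsLimitCycle.neg {v : ℝ × ℝ → ℝ × ℝ} {C : Set (ℝ × ℝ)} (h : IsLimitCycle v C) :
    IsLimitCycle (fun z => -v z) C := by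
  obtain ⟨hC, U, hU, hCU, hiso⟩ := h
  refine ⟨hC.neg, U, hU, hCU, fun C' hC' hC'U => hiso C' ?_ hC'U⟩
  have h1 := hC'.neg
  simpa only [neg_neg] using h1

/-- the diagonal linear map -/
noncomputable def diagE (p q : ℝ) (hp : p ≠ 0) (hq : q ≠ 0) : (ℝ × ℝ) ≃L[ℝ] (ℝ × ℝ) :=
  LinearEquiv.toContinuousLinearEquiv
    { toFun := fun v => (p * v.1, q * v.2)
      map_add' := by intro v w; simp only [Prod.fst_add, Prod.snd_add, mul_add, Prod.mk_add_mk]
      map_smul' := by
        intro c v
        simp only [Prod.smul_fst, Prod.smul_snd, smul_eq_mul, RingHom.id_apply, Prod.smul_mk]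
        exact Prod.ext (by simp only; ring) (by simp only; ring)
      invFun := fun w => (p⁻¹ * w.1, q⁻¹ * w.2)
      left_inv := by
        intro v
        exact Prod.ext (by simp only; field_simp) (by simp only; field_simp)
      right_inv := by
        intro v
        exact Prod.ext (by simp only; field_simp) (by simp only; field_simp) }

theorem diagE_apply (p q : ℝ) (hp : p ≠ 0) (hq : q ≠ 0) (v : ℝ × ℝ) :
    diagE p q hp hq v = (p * v.1, q * v.2) := rfl

theorem diagE_symm_apply (p q : ℝ) (hp : p ≠ 0) (hq : q ≠ 0) (v : ℝ × ℝ) :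
    (diagE p q hp hq).symm v = (p⁻¹ * v.1, q⁻¹ * v.2) := rfl

/-- Transport of limit cycles by a diagonal affine chart and an arbitrary change of time. -/
theorem IsLimitCycle.chart {v w : ℝ × ℝ → ℝ × ℝ} {C : Set (ℝ × ℝ)} (x0 y0 p q κ : ℝ)
    (hp : p ≠ 0) (hq : q ≠ 0) (hκ : κ ≠ 0)
    (hw : ∀ z, w z = (κ * (v (x0 + p * z.1, y0 + q * z.2)).1 / p,
      κ * (v (x0 + p * z.1, y0 + q * z.2)).2 / q))
    (h : IsLimitCycle w C) :
    IsLimitCycle v ((fun z : ℝ × ℝ => (x0 + p * z.1, y0 + q * z.2)) '' C) := by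
  have himg : (fun z : ℝ × ℝ => (x0 + p * z.1, y0 + q * z.2)) =
      fun y => (x0, y0) + diagE p q hp hq y := by
    funext y
    simp [diagE_apply]
  have hw' : w = fun y => κ • (diagE p q hp hq).symm (v ((x0, y0) + diagE p q hp hq y)) := by
    funext y
    rw [hw y]
    have e1 : ((x0, y0) : ℝ × ℝ) + diagE p q hp hq y = (x0 + p * y.1, y0 + q * y.2) := by
      simp [diagE_apply]
    rw [e1, diagE_symm_apply]
    simp only [Prod.smul_mk, smul_eq_mul]
    exact Prod.ext (by simp only; field_simp) (by simp only; field_simp)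
  rw [himg]
  rcases lt_or_gt_of_ne hκ with hneg | hpos
  · have h1 : IsLimitCycle (fun y => (-κ) • (diagE p q hp hq).symm
        ((fun z => -v z) ((x0, y0) + diagE p q hp hq y))) C := by
      have e2 : (fun y => (-κ) • (diagE p q hp hq).symm
        ((fun z => -v z) ((x0, y0) + diagE p q hp hq y))) = w := by
        rw [hw']
        funext y
        simp only [map_neg, smul_neg, neg_smul, neg_neg]
      rw [e2]; exact h
    have h2 := IsLimitCycle.affine (v := fun z => -v z) (x0, y0) (diagE p q hp hq) (-κ)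
      (by linarith) h1
    have h3 := h2.neg
    simpa only [neg_neg] using h3
  · rw [hw'] at h
    exact IsLimitCycle.affine (x0, y0) (diagE p q hp hq) κ hpos h

end Pool.Agent.Lib.MP_95e7ec_an
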