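import Mathlib
import Pool.Agent.Lib.MP_95e7ec_an.FoldDefs
import Pool.Agent.Lib.MP_95e7ec_an.FoldCen
import Pool.Agent.Lib.MP_95e7ec_an.FoldChartMap

/-!
# Limit cycles bifurcating from the centres (task E7)
-/

set_option autoImplicit false

open Set Filter Topology

namespace Pool.Agent.Lib.MP_95e7ec_an

/-- a function with positive derivative at a zero is positive on the right of it -/
private theorem foldCycles_pos {g : ℝ → ℝ} {g' : ℝ} (hg : HasDerivAt g g' 0) (h0 : g 0 = 0)
    (hpos : 0 < g') : ∀ᶠ lam in 𝓝[>] (0 : ℝ), 0 < g lam := by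
  have h1 := hasDerivAt_iff_tendsto_slope.1 hg
  have h2 : ∀ᶠ lam in 𝓝[≠] (0 : ℝ), 0 < slope g 0 lam := h1.eventually (lt_mem_nhds hpos)
  have h3 : ∀ᶠ lam in 𝓝[>] (0 : ℝ), 0 < slope g 0 lam :=
    h2.filter_mono (nhdsWithin_mono _ fun x hx => ne_of_gt hx)
  filter_upwards [h3, self_mem_nhdsWithin] with lam hl hlam
  have hlam' : (0 : ℝ) < lam := hlam
  rw [slope_def_field, h0, sub_zero, sub_zero] at hl
  exact (div_pos_iff_of_pos_right hlam').1 hl

private theorem foldCycles_bb {ν i : ℕ} (hi : i < ν) : (bb ν).eval (i : ℝ) = 0 := by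
  unfold bb
  rw [Polynomial.eval_prod]
  exact Finset.prod_eq_zero (Finset.mem_range.2 hi) (by simp)

theorem centre_cycles {D ν : ℕ} (Ch : CentreChart D) {e c : ℝ} (he : 0 < e) (hc : 0 < c)
    {P Q p q : MvPolynomial (Fin 2) ℝ} (hA : Adm ν e c P Q) (hP : P.totalDegree ≤ D)
    (hQ : Q.totalDegree ≤ D) (hp : p.totalDegree ≤ D) (hq : q.totalDegree ≤ D)
    (hp0 : ∀ x : ℝ, MvPolynomial.eval ![x, 0] p = 0)
    (hq0 : ∀ x : ℝ, MvPolynomial.eval ![x, 0] q = 0) {i : ℕ} (hi : i < ν) {J : ℕ} {α : ℝ}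
    (a : ℕ → ℝ) (ha0 : 0 < a 0) (ha : StrictMono a) (haJ : a J ≤ α)
    (hnb : ∀ r ∈ Set.Ioc 0 α, cen D ν e c i r P Q ∈ Ch.nbhd)
    (hsgn : ∀ l ≤ J, 0 < (-1) ^ l *
      fderiv ℝ Ch.disp (cen D ν e c i (a l) P Q) (cen D ν e c i (a l) p q)) :
    ∀ᶠ lam in 𝓝[>] (0 : ℝ), ∃ F : Finset (Set (ℝ × ℝ)), J ≤ F.card ∧ ∀ C ∈ F,
      IsLimitCycle (vf (P + MvPolynomial.C lam * p) (Q + MvPolynomial.C lam * q)) C ∧
        ∀ z ∈ C, |z.1 - i| < 2 * e * α ∧ |z.2| < 2 * α := by
  have hpos : ∀ l, 0 < a l := fun l => lt_of_lt_of_le ha0 (ha.monotone (Nat.zero_le l))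
  have hle : ∀ l ≤ J, a l ≤ α := fun l hl => (ha.monotone hl).trans haJ
  -- the family
  set m : ℝ → ℝ → Pr D := fun lam r =>
    cen D ν e c i r (P + MvPolynomial.C lam * p) (Q + MvPolynomial.C lam * q) with hm
  have hmeq : ∀ lam r, m lam r = cen D ν e c i r P Q + lam • cen D ν e c i r p q := by
    intro lam r
    simp only [hm]
    rw [cen_add, cen_C_mul]
  -- (1) the family stays in the neighbourhood
  have hcontPQ : Continuous fun r => cen D ν e c i r P Q :=
    continuous_iff_continuousAt.2 fun r => (analytic_cen D ν e c i P Q r).continuousAt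
  have hcontpq : Continuous fun r => cen D ν e c i r p q :=
    continuous_iff_continuousAt.2 fun r => (analytic_cen D ν e c i p q r).continuousAt
  have h1 : ∀ᶠ lam in 𝓝 (0 : ℝ), ∀ r ∈ Set.Icc (a 0) (a J), m lam r ∈ Ch.nbhd := by
    refine isCompact_Icc.eventually_forall_of_forall_eventually
      (P := fun lam r => m lam r ∈ Ch.nbhd) ?_
    intro r hr
    have hr' : r ∈ Set.Ioc 0 α := ⟨lt_of_lt_of_le ha0 hr.1, hr.2.trans haJ⟩
    have hcont : Continuous fun z : ℝ × ℝ => m z.1 z.2 := by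
      have : (fun z : ℝ × ℝ => m z.1 z.2) = fun z : ℝ × ℝ =>
          cen D ν e c i z.2 P Q + z.1 • cen D ν e c i z.2 p q := by
        funext z; exact hmeq _ _
      rw [this]
      exact (hcontPQ.comp continuous_snd).add (continuous_fst.smul (hcontpq.comp continuous_snd))
    have hmem : m (0 : ℝ) r ∈ Ch.nbhd := by
      rw [hmeq, zero_smul, add_zero]
      exact hnb r hr'
    exact hcont.continuousAt.eventually_mem (Ch.isOpen.mem_nhds hmem)
  -- (2) the signs
  have h2 : ∀ l ≤ J, ∀ᶠ lam in 𝓝[>] (0 : ℝ), 0 < (-1) ^ l * Ch.disp (m lam (a l)) := by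
    intro l hl
    have hmem : cen D ν e c i (a l) P Q ∈ Ch.nbhd := hnb _ ⟨hpos l, hle l hl⟩
    have hd : HasFDerivAt Ch.disp (fderiv ℝ Ch.disp (cen D ν e c i (a l) P Q))
        (cen D ν e c i (a l) P Q) :=
      (Ch.analytic _ hmem).differentiableAt.hasFDerivAt
    have hline : HasDerivAt (fun lam : ℝ => m lam (a l)) (cen D ν e c i (a l) p q) 0 := by
      have : (fun lam : ℝ => m lam (a l)) = fun lam : ℝ =>
          cen D ν e c i (a l) P Q + lam • cen D ν e c i (a l) p q := by
        funext lam; exact hmeq _ _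
      rw [this]
      have h3 := ((hasDerivAt_id (0 : ℝ)).smul_const (cen D ν e c i (a l) p q)).const_add
        (cen D ν e c i (a l) P Q)
      simpa using h3
    have hm0 : m 0 (a l) = cen D ν e c i (a l) P Q := by
      rw [hmeq, zero_smul, add_zero]
    have hd' : HasFDerivAt Ch.disp (fderiv ℝ Ch.disp (cen D ν e c i (a l) P Q)) (m 0 (a l)) := by
      rw [hm0]; exact hd
    have hcomp : HasDerivAt (fun lam : ℝ => (-1 : ℝ) ^ l * Ch.disp (m lam (a l)))
        ((-1) ^ l * fderiv ℝ Ch.disp (cen D ν e c i (a l) P Q) (cen D ν e c i (a l) p q)) 0 :=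
      (hd'.comp_hasDerivAt (0 : ℝ) hline).const_mul _
    refine foldCycles_pos hcomp ?_ (hsgn l hl)
    try dsimp only
    rw [hm0, Ch.rev _ hmem (hA.cen_rev D i (a l)), mul_zero]
  have h2' : ∀ᶠ lam in 𝓝[>] (0 : ℝ), ∀ l ≤ J, 0 < (-1) ^ l * Ch.disp (m lam (a l)) := by
    have : ∀ᶠ lam in 𝓝[>] (0 : ℝ), ∀ l ∈ Finset.range (J + 1),
        0 < (-1) ^ l * Ch.disp (m lam (a l)) := by
      rw [Filter.eventually_all_finset]
      intro l hl
      exact h2 l (by have := Finset.mem_range.1 hl; omega)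
    filter_upwards [this] with lam h l hl
    exact h l (Finset.mem_range.2 (by omega))
  filter_upwards [h1.filter_mono nhdsWithin_le_nhds, h2'] with lam hlam1 hlam2
  -- conditions at the centre
  have hP0 : MvPolynomial.eval ![(i : ℝ), 0] (P + MvPolynomial.C lam * p) = 0 := by
    rw [map_add, map_mul, hA.eval_P, hp0]; simp
  have hQ0 : MvPolynomial.eval ![(i : ℝ), 0] (Q + MvPolynomial.C lam * q) = 0 := by
    rw [map_add, map_mul, hA.eval_Q, hq0, foldCycles_bb hi]; simp
  have hPd : (P + MvPolynomial.C lam * p).totalDegree ≤ D := by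
    refine (MvPolynomial.totalDegree_add _ _).trans (max_le hP ?_)
    refine (MvPolynomial.totalDegree_mul _ _).trans ?_
    rw [MvPolynomial.totalDegree_C]
    omega
  have hQd : (Q + MvPolynomial.C lam * q).totalDegree ≤ D := by
    refine (MvPolynomial.totalDegree_add _ _).trans (max_le hQ ?_)
    refine (MvPolynomial.totalDegree_mul _ _).trans ?_
    rw [MvPolynomial.totalDegree_C]
    omega
  have hbd := bd_ne_zero hi
  -- (3) the limit cycles
  have h3 : ∀ l : ℕ, l < J → ∃ r ∈ Set.Ioo (a l) (a (l + 1)), ∃ C : Set (ℝ × ℝ),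
      IsLimitCycle (vfc (m lam r)) C ∧ ((1 : ℝ), (0 : ℝ)) ∈ C ∧
      (∀ X : ℝ, 0 < X → (X, (0 : ℝ)) ∈ C → X = 1) ∧ C ⊆ Metric.ball 0 2 := by
    intro l hl
    refine Ch.cycles (m lam) (a l) (a (l + 1)) (hpos l) (ha (by omega)) ?_ ?_ ?_ ?_ ?_
    · intro r hr
      exact hlam1 r ⟨(ha.monotone (Nat.zero_le l)).trans hr.1,
        hr.2.trans (ha.monotone (by omega))⟩
    · intro r _
      exact analytic_cen D ν e c i _ _ r
    · intro r s _ _
      exact cen_mul D ν e c i s r _ _
    · intro r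
      exact cen_noConst D ν e c i r hP0 hQ0
    · have e1 := hlam2 l hl.le
      have e2 := hlam2 (l + 1) hl
      have e3 := mul_pos e1 e2
      have e4 : ((-1 : ℝ) ^ l * Ch.disp (m lam (a l))) *
          ((-1) ^ (l + 1) * Ch.disp (m lam (a (l + 1)))) =
          -(Ch.disp (m lam (a l)) * Ch.disp (m lam (a (l + 1)))) := by
        rw [pow_succ]
        have e5 : ((-1 : ℝ) ^ l) * ((-1) ^ l) = 1 := by
          rw [← pow_add, ← two_mul, pow_mul]; norm_num
        linear_combination (-(Ch.disp (m lam (a l)) * Ch.disp (m lam (a (l + 1))))) * e5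
      rw [e4] at e3
      linarith
  choose! r hr C hC hC1 hCX hCb using h3
  set φ : ℕ → ℝ × ℝ → ℝ × ℝ := fun l z => (i + e * r l * z.1, 0 + r l * z.2) with hφ
  have hrpos : ∀ l < J, 0 < r l := fun l hl => (hpos l).trans (hr l hl).1
  have hrα : ∀ l < J, r l < α := fun l hl =>
    lt_of_lt_of_le (hr l hl).2 (hle (l + 1) hl)
  -- (4) transport
  have h4 : ∀ l < J, IsLimitCycle (vf (P + MvPolynomial.C lam * p) (Q + MvPolynomial.C lam * q))
      (φ l '' C l) := by
    intro l hl
    have hr0 : r l ≠ 0 := (hrpos l hl).ne'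
    refine IsLimitCycle.chart (w := vfc (m lam (r l))) (i : ℝ) 0 (e * r l) (r l) (c * e * bd ν i)⁻¹
      (mul_ne_zero he.ne' hr0) hr0
      (inv_ne_zero (mul_ne_zero (mul_ne_zero hc.ne' he.ne') hbd)) ?_ (hC l hl)
    intro z
    simp only [hm]
    rw [vfc_cen i he.ne' hc.ne' hbd hr0 hPd hQd hP0 hQ0]
    simp only [vf, zero_add]
    refine Prod.ext ?_ ?_
    · simp only
      field_simp
    · simp only
      field_simp
  -- (5) they are distinct
  have h5 : ∀ l < J, ∀ x : ℝ, (i : ℝ) < x → ((x, (0 : ℝ)) ∈ φ l '' C l ↔ x = i + e * r l) := by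
    intro l hl x hx
    have hr0 := hrpos l hl
    constructor
    · rintro ⟨z, hz, hzx⟩
      simp only [hφ, Prod.mk.injEq, zero_add] at hzx
      obtain ⟨hz1, hz2⟩ := hzx
      have hz20 : z.2 = 0 := by
        rcases mul_eq_zero.1 hz2 with h | h
        · exact absurd h hr0.ne'
        · exact h
      have hz10 : 0 < z.1 := by
        have h6 : 0 < e * r l * z.1 := by linarith
        exact (mul_pos_iff_of_pos_left (mul_pos he hr0)).1 h6
      have h7 : z = (z.1, (0 : ℝ)) := Prod.ext rfl hz20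
      rw [h7] at hz
      have h8 := hCX l hl z.1 hz10 hz
      rw [h8] at hz1
      linarith
    · intro h
      refine ⟨(1, 0), hC1 l hl, ?_⟩
      simp only [hφ]
      rw [h]
      simp
  have hinj : Set.InjOn (fun l => φ l '' C l) (Finset.range J : Set ℕ) := by
    intro l hl l' hl' heq
    simp only [Finset.coe_range, Set.mem_Iio] at hl hl'
    have hx : (i : ℝ) < i + e * r l := by
      have := mul_pos he (hrpos l hl)
      linarith
    have h6 : ((i : ℝ) + e * r l, (0 : ℝ)) ∈ φ l '' C l := (h5 l hl _ hx).2 rfl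
    simp only at heq
    rw [heq, h5 l' hl' _ hx] at h6
    have h7 : r l = r l' := by
      have : e * r l = e * r l' := by linarith
      exact mul_left_cancel₀ he.ne' this
    have h8 := hr l hl
    have h9 := hr l' hl'
    rw [h7] at h8
    rcases lt_trichotomy l l' with h | h | h
    · have : a (l + 1) ≤ a l' := ha.monotone (by omega)
      have := h8.2
      have := h9.1
      linarith
    · exact h
    · have : a (l' + 1) ≤ a l := ha.monotone (by omega)
      have := h8.1
      have := h9.2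
      linarith
  classical
  refine ⟨(Finset.range J).image fun l => φ l '' C l, ?_, ?_⟩
  · rw [Finset.card_image_of_injOn hinj, Finset.card_range]
  · intro E hE
    obtain ⟨l, hl, rfl⟩ := Finset.mem_image.1 hE
    rw [Finset.mem_range] at hl
    refine ⟨h4 l hl, ?_⟩
    rintro _ ⟨z, hz, rfl⟩
    have h6 := hCb l hl hz
    rw [Metric.mem_ball, dist_zero_right] at h6
    have h7 : |z.1| < 2 := lt_of_le_of_lt (norm_fst_le z) h6
    have h8 : |z.2| < 2 := lt_of_le_of_lt (norm_snd_le z) h6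
    have hr0 := hrpos l hl
    have hrl := hrα l hl
    have hα : 0 < α := hr0.trans hrl
    simp only [hφ]
    constructor
    · have : (i : ℝ) + e * r l * z.1 - i = e * r l * z.1 := by ring
      rw [this, abs_mul, abs_of_pos (mul_pos he hr0)]
      have h9 : e * r l < e * α := mul_lt_mul_of_pos_left hrl he
      have h10 : 0 < e * α := mul_pos he hα
      nlinarith [mul_le_mul_of_nonneg_left h7.le (mul_pos he hr0).le]
    · rw [zero_add, abs_mul, abs_of_pos hr0]
      nlinarith [mul_le_mul_of_nonneg_left h8.le hr0.le]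

end Pool.Agent.Lib.MP_95e7ec_an
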