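import Mathlib
import Pool.Agent.Lib.MP_95e7ec_an.FoldDefs

/-!
# Folding a planar polynomial system: further definitions
-/

set_option autoImplicit false

open Set Filter Topology

namespace Pool.Agent.Lib.MP_95e7ec_an

/-- The limit as `e → 0` of the arrays of the model field: `(-y, x + (κ a^{2L-1} / b'(i)) y^{2L})`. -/
noncomputable def limArr (D L : ℕ) (N : ℕ → ℕ) (κ : ℝ) (i : ℕ) (a : ℝ) : Pr D :=
  linArr D + (κ * a ^ (2 * L - 1) / bd (N 0) i) • ((0, monoArr D 0 (2 * L)) : Pr D)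

/-- The scaling factor of the column `s` of the matrix `MM`. -/
noncomputable def colScale (L : ℕ) (N : ℕ → ℕ) (e : ℝ) (s : Idx L N) : ℝ :=
  if (s.2 : ℕ) < rows L N s.1 then e else e ^ 2

/-- The limit as `e → 0` of the matrix `MM` of the model field with the columns multiplied by
`colScale`. -/
noncomputable def LM {D : ℕ} (Ch : CentreChart D) (L : ℕ) (N : ℕ → ℕ) (κ : ℝ) :
    Matrix (Idx L N) (Idx L N) ℝ := fun r s =>
  if (s.2 : ℕ) < rows L N s.1 then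
    (lagr N (s.2 : ℕ) s.1).eval ((r.1 : ℕ) : ℝ) * amp L r.2 ^ (2 * (s.2 : ℕ)) / bd (N 0) r.1 *
      fderiv ℝ Ch.disp (limArr D L N κ r.1 (amp L r.2)) ((0, monoArr D 0 (2 * (s.2 : ℕ) + 1)) : Pr D)
  else
    (lagr N ((s.2 : ℕ) + 1 - rows L N s.1) s.1).eval ((r.1 : ℕ) : ℝ) *
        amp L r.2 ^ (2 * ((s.2 : ℕ) + 1 - rows L N s.1) - 1) / bd (N 0) r.1 *
      fderiv ℝ Ch.disp (limArr D L N κ r.1 (amp L r.2))
        ((monoArr D 0 (2 * ((s.2 : ℕ) + 1 - rows L N s.1)), 0) : Pr D)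

/-- `A(x/ε, (y²-1)/(2ε))` -/
noncomputable def zoomP (ε : ℝ) (A : MvPolynomial (Fin 2) ℝ) : MvPolynomial (Fin 2) ℝ :=
  MvPolynomial.aeval ![MvPolynomial.C ε⁻¹ * MvPolynomial.X 0,
    MvPolynomial.C (2 * ε)⁻¹ * (MvPolynomial.X 1 ^ 2 - 1)] A

/-- First component of the folded field: `ε y³ A(x/ε, (y²-1)/(2ε)) - ε² e² b'(x) y`. -/
noncomputable def foldP (ν : ℕ) (e ε : ℝ) (A : MvPolynomial (Fin 2) ℝ) : MvPolynomial (Fin 2) ℝ :=
  MvPolynomial.C ε * MvPolynomial.X 1 ^ 3 * zoomP ε A -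
    MvPolynomial.C (ε ^ 2 * e ^ 2) * xv (bb ν).derivative 1

/-- Second component of the folded field: `ε y² B(x/ε, (y²-1)/(2ε)) + ε² b(x)`. -/
noncomputable def foldQ (ν : ℕ) (ε : ℝ) (B : MvPolynomial (Fin 2) ℝ) : MvPolynomial (Fin 2) ℝ :=
  MvPolynomial.C ε * MvPolynomial.X 1 ^ 2 * zoomP ε B + MvPolynomial.C (ε ^ 2) * xv (bb ν) 0

/-- `A(x, y + ε y²/2)` -/
noncomputable def zoomF (ε : ℝ) (A : MvPolynomial (Fin 2) ℝ) : MvPolynomial (Fin 2) ℝ :=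
  MvPolynomial.aeval ![(MvPolynomial.X 0 : MvPolynomial (Fin 2) ℝ),
    MvPolynomial.X 1 + MvPolynomial.C (ε / 2) * MvPolynomial.X 1 ^ 2] A

/-- The first component of the folded field in the chart `(ε x, 1 + ε y)`, divided by `ε`. -/
noncomputable def famP (ν : ℕ) (e ε : ℝ) (A : MvPolynomial (Fin 2) ℝ) : MvPolynomial (Fin 2) ℝ :=
  (1 + MvPolynomial.C ε * MvPolynomial.X 1) ^ 3 * zoomF ε A -
    MvPolynomial.C (ε * e ^ 2) * (1 + MvPolynomial.C ε * MvPolynomial.X 1) *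
      Polynomial.aeval (MvPolynomial.C ε * MvPolynomial.X 0 : MvPolynomial (Fin 2) ℝ)
        (bb ν).derivative

/-- The second component of the folded field in the chart `(ε x, 1 + ε y)`, divided by `ε`. -/
noncomputable def famQ (ν : ℕ) (ε : ℝ) (B : MvPolynomial (Fin 2) ℝ) : MvPolynomial (Fin 2) ℝ :=
  (1 + MvPolynomial.C ε * MvPolynomial.X 1) ^ 2 * zoomF ε B +
    MvPolynomial.C ε *
      Polynomial.aeval (MvPolynomial.C ε * MvPolynomial.X 0 : MvPolynomial (Fin 2) ℝ) (bb ν)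

end Pool.Agent.Lib.MP_95e7ec_an
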