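import Mathlib

/-!
# Generalised Vandermonde determinants at positive nodes (task E8a)
-/

set_option autoImplicit false

namespace Pool.Agent.Lib.MP_95e7ec_an

open Polynomial in
/-- The number of sign variations is less than the number of terms. -/
theorem foldVand_signVariations (P : Polynomial ℝ) (hP : P ≠ 0) :
    P.signVariations + 1 ≤ P.support.card := by
  generalize hn : P.support.card = n
  induction n using Nat.strong_induction_on generalizing P with
  | _ n ih =>
    by_cases h0 : P.eraseLead = 0
    · have h1 : P.signVariations ≤ P.eraseLead.signVariations + 1 :=
        P.signVariations_le_eraseLead_succ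
      have h2 : P = monomial P.natDegree P.leadingCoeff := by
        have := P.eraseLead_add_monomial_natDegree_leadingCoeff
        rw [h0, zero_add] at this
        exact this.symm
      have h3 : P.signVariations = 0 := by
        rw [h2]; exact signVariations_monomial _ _
      have h4 : 0 < P.support.card := Finset.card_pos.2 (nonempty_support_iff.2 hP)
      omega
    · have h1 : P.signVariations ≤ P.eraseLead.signVariations + 1 :=
        P.signVariations_le_eraseLead_succ
      have h4 : P.eraseLead.support.card < P.support.card := eraseLead_support_card_lt hP
      have h5 := ih _ (hn ▸ h4) P.eraseLead h0 rfl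
      omega

/-- Generalised Vandermonde determinants at positive nodes do not vanish. -/
theorem det_genVandermonde_ne_zero {m : ℕ} (x : Fin m → ℝ) (hx : ∀ l, 0 < x l)
    (hinj : Function.Injective x) (E : Fin m → ℕ) (hE : Function.Injective E) :
    (Matrix.of fun l j : Fin m => x l ^ E j).det ≠ 0 := by
  intro hdet
  obtain ⟨v, hv, hmv⟩ := Matrix.exists_mulVec_eq_zero_iff.2 hdet
  let P : Polynomial ℝ := ∑ j, Polynomial.monomial (E j) (v j)
  have hcoeff : ∀ j, P.coeff (E j) = v j := by
    intro j
    simp only [P, Polynomial.finsetSum_coeff, Polynomial.coeff_monomial]
    rw [Finset.sum_eq_single j]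
    · simp
    · intro b _ hb
      rw [if_neg]
      exact fun h => hb (hE h)
    · intro h; exact absurd (Finset.mem_univ j) h
  have hP : P ≠ 0 := by
    intro h
    apply hv
    funext j
    rw [← hcoeff j, h]
    simp
  have heval : ∀ l, P.eval (x l) = 0 := by
    intro l
    have := congrFun hmv l
    simp only [Matrix.mulVec, dotProduct, Matrix.of_apply, Pi.zero_apply] at this
    simp only [P, Polynomial.eval_finsetSum, Polynomial.eval_monomial]
    rw [← this]
    exact Finset.sum_congr rfl fun j _ => mul_comm _ _
  have hsupp : P.support.card ≤ m := by
    have h1 : P.support ⊆ Finset.univ.image E := by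
      intro n hn
      rw [Polynomial.mem_support_iff] at hn
      by_contra hcon
      apply hn
      simp only [P, Polynomial.finsetSum_coeff, Polynomial.coeff_monomial]
      apply Finset.sum_eq_zero
      intro j _
      rw [if_neg]
      intro h
      exact hcon (Finset.mem_image.2 ⟨j, Finset.mem_univ j, h⟩)
    calc P.support.card ≤ (Finset.univ.image E).card := Finset.card_le_card h1
      _ ≤ (Finset.univ : Finset (Fin m)).card := Finset.card_image_le
      _ = m := by simp
  have hroots : m ≤ P.roots.countP (0 < ·) := by
    have h1 : (Finset.univ.image x).val ≤ P.roots := by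
      rw [Finset.val_le_iff_val_subset]
      intro a ha
      simp only [Finset.mem_val, Finset.mem_image, Finset.mem_univ, true_and] at ha
      obtain ⟨l, rfl⟩ := ha
      exact (Polynomial.mem_roots hP).2 (heval l)
    have h2 : (Finset.univ.image x).val.countP (0 < ·) ≤ P.roots.countP (0 < ·) :=
      Multiset.countP_le_of_le _ h1
    have h3 : (Finset.univ.image x).val.countP (0 < ·) = m := by
      rw [Multiset.countP_eq_card.2]
      · rw [Finset.card_val, Finset.card_image_of_injective _ hinj]
        simp
      · intro a ha
        simp only [Finset.mem_val, Finset.mem_image, Finset.mem_univ, true_and] at ha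
        obtain ⟨l, rfl⟩ := ha
        exact hx l
    omega
  have h1 := P.roots_countP_pos_le_signVariations
  have h2 := foldVand_signVariations P hP
  omega

end Pool.Agent.Lib.MP_95e7ec_an
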