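import Mathlib
import Pool.Agent.Lib.MP_95e7ec_an.FoldDefs2
import Pool.Agent.Lib.MP_95e7ec_an.FoldVand

/-!
# Folding a planar polynomial system: the limit matrix is invertible
-/

set_option autoImplicit false

open Set Filter Topology

namespace Pool.Agent.Lib.MP_95e7ec_an

/-- For antitone `N`, the rows counted by `rows` form an initial segment. -/
theorem foldDet_mem_rows {L : ℕ} {N : ℕ → ℕ} (hN : Antitone N) {i k : ℕ}
    (hk : k < rows L N i) : k < L ∧ i ≤ N (k - 1) := by
  by_contra hcon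
  have hsub : ((Finset.range L).filter fun k => i ≤ N (k - 1)) ⊆ Finset.range k := by
    intro k' hk'
    rw [Finset.mem_filter, Finset.mem_range] at hk'
    rw [Finset.mem_range]
    by_contra hle
    push Not at hle
    exact hcon ⟨lt_of_le_of_lt hle hk'.1, hk'.2.trans (hN (by omega))⟩
  have h1 := Finset.card_le_card hsub
  rw [Finset.card_range] at h1
  unfold rows at hk
  omega

theorem foldDet_rows_le (L : ℕ) (N : ℕ → ℕ) (i : ℕ) : rows L N i ≤ L := by
  unfold rows
  exact (Finset.card_filter_le _ _).trans (by rw [Finset.card_range])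

theorem foldDet_lagr_self (N : ℕ → ℕ) (k i : ℕ) : (lagr N k i).eval (i : ℝ) = 1 := by
  unfold lagr
  rw [Polynomial.eval_prod]
  apply Finset.prod_eq_one
  intro i' hi'
  have hne : (i : ℝ) - i' ≠ 0 := by
    rw [sub_ne_zero]
    exact_mod_cast (Finset.ne_of_mem_erase hi').symm
  rw [Polynomial.eval_mul, Polynomial.eval_C, Polynomial.eval_sub, Polynomial.eval_X,
    Polynomial.eval_C]
  exact inv_mul_cancel₀ hne

theorem foldDet_lagr_zero {N : ℕ → ℕ} {k i r : ℕ} (hr : r < i) (h0 : r < N 0)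
    (hk : i ≤ N (k - 1)) : (lagr N k i).eval (r : ℝ) = 0 := by
  unfold lagr
  rw [Polynomial.eval_prod]
  apply Finset.prod_eq_zero (i := r)
  · rw [Finset.mem_erase, Finset.mem_range]
    omega
  · simp

theorem foldDet_bd_ne_zero {ν i : ℕ} (hi : i < ν) : bd ν i ≠ 0 := by
  have hmem : i ∈ Finset.range ν := Finset.mem_range.2 hi
  have h1 : bb ν = (Polynomial.X - Polynomial.C (i : ℝ)) *
      ∏ i' ∈ (Finset.range ν).erase i, (Polynomial.X - Polynomial.C (i' : ℝ)) := by
    exact (Finset.mul_prod_erase (Finset.range ν)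
      (fun i' : ℕ => Polynomial.X - Polynomial.C (i' : ℝ)) hmem).symm
  unfold bd
  rw [h1, Polynomial.derivative_mul, Polynomial.eval_add, Polynomial.eval_mul, Polynomial.eval_mul]
  simp only [Polynomial.derivative_sub, Polynomial.derivative_X, Polynomial.derivative_C, sub_zero,
    Polynomial.eval_one, one_mul, Polynomial.eval_sub, Polynomial.eval_X, Polynomial.eval_C,
    sub_self, zero_mul, add_zero, Polynomial.eval_prod]
  apply Finset.prod_ne_zero_iff.2
  intro i' hi'
  rw [sub_ne_zero]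
  exact_mod_cast (Finset.ne_of_mem_erase hi').symm

theorem foldDet_amp_pos {L : ℕ} (hL : 1 ≤ L) (l : ℕ) : 0 < amp L l := by
  have : (0 : ℝ) < L := by exact_mod_cast hL
  unfold amp
  positivity

theorem foldDet_amp_le {L : ℕ} (hL : 1 ≤ L) {l : ℕ} (hl : l + 1 ≤ 2 * L) : amp L l ≤ 1 := by
  have h0 : (0 : ℝ) < L := by exact_mod_cast hL
  have h1 : (l : ℝ) + 1 ≤ 2 * L := by exact_mod_cast hl
  unfold amp
  rw [div_le_one (by positivity)]
  exact h1

theorem foldDet_amp_inj {L : ℕ} (hL : 1 ≤ L) {l l' : ℕ} (h : amp L l = amp L l') : l = l' := by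
  have h0 : (0 : ℝ) < L := by exact_mod_cast hL
  unfold amp at h
  rw [div_left_inj' (by positivity)] at h
  exact_mod_cast add_right_cancel h

/-- the exponents of the generalised Vandermonde block -/
def foldDetE (L R j : ℕ) : ℕ := if j < R then j else L + j - R

/-- the constant factors of the columns -/
noncomputable def foldDetG (L R : ℕ) (b : ℝ) (j : ℕ) : ℝ :=
  if j < R then b⁻¹ else (2 * L / (2 * ((j + 1 - R : ℕ) : ℝ) + 1)) / b ^ 2

/-- the block of the centre `i`, divided by the factors `κ` of the columns -/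
noncomputable def foldDetB {D : ℕ} (Ch : CentreChart D) (L : ℕ) (N : ℕ → ℕ) (i : ℕ) (κ : ℝ) :
    Matrix (Fin (2 * rows L N i - 1)) (Fin (2 * rows L N i - 1)) ℝ := fun l j =>
  foldDetG L (rows L N i) (bd (N 0) i) j * ((amp L l) ^ 2) ^ foldDetE L (rows L N i) j *
    fderiv ℝ Ch.disp (limArr D L N κ i (amp L l))
      ((0, monoArr D 0 (2 * foldDetE L (rows L N i) j + 1)) : Pr D)

theorem foldDet_limArr_zero (D L : ℕ) (N : ℕ → ℕ) (i : ℕ) (a : ℝ) :
    limArr D L N 0 i a = linArr D := by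
  unfold limArr
  rw [zero_mul, zero_div, zero_smul, add_zero]

theorem foldDet_continuousAt {D : ℕ} (Ch : CentreChart D) (L : ℕ) (N : ℕ → ℕ) (i : ℕ) :
    ContinuousAt (fun κ => foldDetB Ch L N i κ) 0 := by
  apply continuousAt_pi.2
  intro l
  apply continuousAt_pi.2
  intro j
  have h1 : ContinuousAt (fderiv ℝ Ch.disp) (linArr D) :=
    (Ch.analytic.fderiv (linArr D) Ch.mem).continuousAt
  have h2 : Continuous fun κ : ℝ => limArr D L N κ i (amp L l) := by
    unfold limArr
    fun_prop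
  have h3 : ContinuousAt (fun κ : ℝ => fderiv ℝ Ch.disp (limArr D L N κ i (amp L l))) 0 := by
    refine ContinuousAt.comp (g := fderiv ℝ Ch.disp) ?_ h2.continuousAt
    rw [foldDet_limArr_zero]
    exact h1
  unfold foldDetB
  exact continuousAt_const.mul (h3.clm_apply continuousAt_const)

theorem foldDet_zero {D L : ℕ} {N : ℕ → ℕ} (Ch : CentreChart D) (hL : 1 ≤ L)
    (hD : N 0 + 4 * L ≤ D) {i : ℕ} (hi : i < N 0) : (foldDetB Ch L N i 0).det ≠ 0 := by
  set R := rows L N i with hR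
  have hRL : R ≤ L := foldDet_rows_le L N i
  have hb : bd (N 0) i ≠ 0 := foldDet_bd_ne_zero hi
  have h0 : (0 : ℝ) < L := by exact_mod_cast hL
  have hE : ∀ j : Fin (2 * R - 1), 2 * foldDetE L R j + 1 ≤ D := by
    intro j
    have := j.2
    unfold foldDetE
    split_ifs <;> omega
  have hEinj : Function.Injective fun j : Fin (2 * R - 1) => foldDetE L R j := by
    intro j j' h
    have h1 := j.2
    have h2 := j'.2
    apply Fin.ext
    simp only [foldDetE] at h
    split_ifs at h <;> omega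
  have hV := det_genVandermonde_ne_zero (fun l : Fin (2 * R - 1) => (amp L l) ^ 2)
    (fun l => pow_pos (foldDet_amp_pos hL l) 2)
    (fun l l' h => Fin.ext (foldDet_amp_inj hL ((pow_left_inj₀ (foldDet_amp_pos hL l).le
      (foldDet_amp_pos hL l').le two_ne_zero).1 h)))
    (fun j => foldDetE L R j) hEinj
  have heq : foldDetB Ch L N i 0 = Matrix.of fun l j : Fin (2 * R - 1) =>
      (foldDetG L R (bd (N 0) i) j * fderiv ℝ Ch.disp (linArr D)
        ((0, monoArr D 0 (2 * foldDetE L R j + 1)) : Pr D)) *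
      (Matrix.of fun l j : Fin (2 * R - 1) => ((amp L l) ^ 2) ^ foldDetE L R j) l j := by
    ext l j
    simp only [foldDetB, foldDet_limArr_zero, Matrix.of_apply]
    ring
  rw [heq, Matrix.det_mul_row]
  refine mul_ne_zero (Finset.prod_ne_zero_iff.2 fun j _ => mul_ne_zero ?_ ?_) hV
  · unfold foldDetG
    split_ifs
    · exact inv_ne_zero hb
    · positivity
  · exact Ch.deriv_odd _ (hE j)

/-- the block of the centre `i` -/
theorem foldDet_block {D L : ℕ} {N : ℕ → ℕ} (Ch : CentreChart D) (hL : 1 ≤ L)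
    (hD : N 0 + 4 * L ≤ D) (κ : ℝ) (i : Fin (N 0)) (l j : Fin (2 * rows L N i - 1))
    (h : limArr D L N κ i (amp L l) ∈ Ch.nbhd) :
    LM Ch L N κ ⟨i, l⟩ ⟨i, j⟩ =
      (if (j : ℕ) < rows L N i then 1 else κ) * foldDetB Ch L N i κ l j := by
  have hRL : rows L N i ≤ L := foldDet_rows_le L N i
  have hj := j.2
  have hb : bd (N 0) i ≠ 0 := foldDet_bd_ne_zero i.2
  unfold LM foldDetB foldDetG foldDetE
  by_cases hjR : (j : ℕ) < rows L N i
  · simp only [hjR, if_true]
    rw [foldDet_lagr_self, ← pow_mul]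
    ring
  · simp only [hjR, if_false]
    rw [foldDet_lagr_self]
    obtain ⟨k, hk⟩ : ∃ k, k = (j : ℕ) + 1 - rows L N i := ⟨_, rfl⟩
    rw [← hk]
    have hk1 : 1 ≤ k := by omega
    have hexp : L + (j : ℕ) - rows L N i = L + k - 1 := by omega
    rw [hexp]
    have h2 : 2 * (L + k - 1) + 1 = 2 * L + 2 * k - 1 := by omega
    rw [h2]
    have hev := Ch.deriv_even L k (κ * amp L l ^ (2 * L - 1) / bd (N 0) i) hL hk1 (by omega) h
    have hlim : limArr D L N κ i (amp L l) = linArr D +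
      (κ * amp L l ^ (2 * L - 1) / bd (N 0) i) • ((0, monoArr D 0 (2 * L)) : Pr D) := rfl
    rw [← hlim] at hev
    rw [hev]
    have hpow : ((amp L l) ^ 2) ^ (L + k - 1) = amp L l ^ (2 * k - 1) * amp L l ^ (2 * L - 1) := by
      rw [← pow_mul, ← pow_add]
      congr 1
      omega
    rw [hpow]
    have h3 : (2 : ℝ) * k + 1 ≠ 0 := by positivity
    field_simp

theorem eventually_LM_det {D L : ℕ} {N : ℕ → ℕ} (Ch : CentreChart D) (hL : 1 ≤ L)
    (hN : Antitone N) (hD : N 0 + 4 * L ≤ D) :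
    ∀ᶠ κ in 𝓝[>] (0 : ℝ), (∀ i < N 0, ∀ a ∈ Set.Icc (0 : ℝ) 1, limArr D L N κ i a ∈ Ch.nbhd) ∧
      (LM Ch L N κ).det ≠ 0 := by
  have hA : ∀ᶠ κ in 𝓝 (0 : ℝ), ∀ i : Fin (N 0), ∀ a ∈ Set.Icc (0 : ℝ) 1,
      limArr D L N κ i a ∈ Ch.nbhd := by
    rw [eventually_all]
    intro i
    have hcont : Continuous fun c : ℝ => linArr D + c • ((0, monoArr D 0 (2 * L)) : Pr D) := by
      fun_prop
    have hev : ∀ᶠ c in 𝓝 (0 : ℝ), linArr D + c • ((0, monoArr D 0 (2 * L)) : Pr D) ∈ Ch.nbhd := by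
      apply hcont.continuousAt.eventually_mem
      apply Ch.isOpen.mem_nhds
      rw [zero_smul, add_zero]
      exact Ch.mem
    obtain ⟨δ, hδ, hball⟩ := Metric.eventually_nhds_iff.1 hev
    have hsmall : ∀ᶠ κ in 𝓝 (0 : ℝ), |κ| / |bd (N 0) i| < δ := by
      have hc : Continuous fun κ : ℝ => |κ| / |bd (N 0) i| := by fun_prop
      apply hc.continuousAt.eventually_lt_const
      simpa using hδ
    filter_upwards [hsmall] with κ hκ a ha
    apply hball
    rw [dist_zero_right, Real.norm_eq_abs, abs_div, abs_mul]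
    refine lt_of_le_of_lt ?_ hκ
    apply div_le_div_of_nonneg_right _ (abs_nonneg _)
    have h1 : |a ^ (2 * L - 1)| ≤ 1 := by
      rw [abs_of_nonneg (pow_nonneg ha.1 _)]
      exact pow_le_one₀ ha.1 ha.2
    calc |κ| * |a ^ (2 * L - 1)| ≤ |κ| * 1 := mul_le_mul_of_nonneg_left h1 (abs_nonneg _)
      _ = |κ| := mul_one _
  have hG : ∀ᶠ κ in 𝓝 (0 : ℝ), ∀ i : Fin (N 0), (foldDetB Ch L N i κ).det ≠ 0 := by
    rw [eventually_all]
    intro i
    have h1 : ContinuousAt (fun κ => (foldDetB Ch L N i κ).det) 0 :=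
      ContinuousAt.comp (g := Matrix.det) (Continuous.matrix_det continuous_id).continuousAt
        (foldDet_continuousAt Ch L N i)
    exact h1.eventually_ne (foldDet_zero Ch hL hD i.2)
  filter_upwards [nhdsWithin_le_nhds hA, nhdsWithin_le_nhds hG, self_mem_nhdsWithin]
    with κ hκA hκG hκ0
  refine ⟨fun i hi a ha => hκA ⟨i, hi⟩ a ha, ?_⟩
  have hκ : κ ≠ 0 := ne_of_gt hκ0
  intro hdet
  obtain ⟨v, hv0, hv⟩ := Matrix.exists_mulVec_eq_zero_iff.2 hdet
  obtain ⟨s₀, hs₀⟩ := Function.ne_iff.1 hv0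
  classical
  -- the smallest centre with a nonzero entry
  obtain ⟨i, ⟨j₀, hj₀⟩, hmin⟩ : ∃ i : Fin (N 0), (∃ j, v ⟨i, j⟩ ≠ 0) ∧
      ∀ i' < i, ∀ j, v ⟨i', j⟩ = 0 := by
    have hne : (Finset.univ.filter fun i : Fin (N 0) => ∃ j, v ⟨i, j⟩ ≠ 0).Nonempty :=
      ⟨s₀.1, Finset.mem_filter.2 ⟨Finset.mem_univ _, s₀.2, hs₀⟩⟩
    obtain ⟨i, hi, hmin⟩ := Finset.exists_min_image _ (fun i => i) hne
    refine ⟨i, (Finset.mem_filter.1 hi).2, fun i' hi' j => ?_⟩
    by_contra hj
    exact absurd (hmin i' (Finset.mem_filter.2 ⟨Finset.mem_univ _, j, hj⟩)) (not_le.2 hi')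
  have hmem : ∀ l : Fin (2 * rows L N i - 1), limArr D L N κ i (amp L l) ∈ Ch.nbhd := by
    intro l
    have hl := l.2
    have hRL : rows L N i ≤ L := foldDet_rows_le L N i
    exact hκA i _ ⟨(foldDet_amp_pos hL l).le, foldDet_amp_le hL (by omega)⟩
  have hker : (Matrix.of fun l j : Fin (2 * rows L N i - 1) =>
      (if (j : ℕ) < rows L N i then 1 else κ) * foldDetB Ch L N i κ l j).mulVec
        (fun j => v ⟨i, j⟩) = 0 := by
    funext l
    have h1 := congrFun hv ⟨i, l⟩
    simp only [Matrix.mulVec, dotProduct, Pi.zero_apply, Matrix.of_apply] at h1 ⊢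
    rw [← h1, Fintype.sum_sigma, Finset.sum_eq_single i]
    · apply Finset.sum_congr rfl
      intro j _
      rw [foldDet_block Ch hL hD κ i l j (hmem l)]
    · intro i' _ hne
      apply Finset.sum_eq_zero
      intro j _
      rcases lt_or_gt_of_ne hne with hlt | hgt
      · rw [hmin i' hlt j, mul_zero]
      · have hlt : (i : ℕ) < (i' : ℕ) := hgt
        have hz : LM Ch L N κ ⟨i, l⟩ ⟨i', j⟩ = 0 := by
          unfold LM
          have hj := j.2
          dsimp only
          split_ifs with hjR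
          · rw [foldDet_lagr_zero hlt i.2 (foldDet_mem_rows hN hjR).2]
            simp
          · rw [foldDet_lagr_zero hlt i.2 (foldDet_mem_rows (L := L) hN (by omega)).2]
            simp
        rw [hz, zero_mul]
    · intro h
      exact absurd (Finset.mem_univ _) h
  have hdet0 := Matrix.exists_mulVec_eq_zero_iff.1 ⟨_, fun h => hj₀ (congrFun h j₀), hker⟩
  rw [Matrix.det_mul_row] at hdet0
  rcases mul_eq_zero.1 hdet0 with h | h
  · obtain ⟨j, _, hj⟩ := Finset.prod_eq_zero_iff.1 h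
    split_ifs at hj
    · exact one_ne_zero hj
    · exact hκ hj
  · exact hκG i h

end Pool.Agent.Lib.MP_95e7ec_an
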