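import Mathlib
import Pool.Agent.Lib.MP_95e7ec_an.FoldDefs2
import Pool.Agent.Lib.MP_95e7ec_an.FoldCen

/-!
# Folding a planar polynomial system: the limit `e → 0` of the model field
-/

set_option autoImplicit false

open Set Filter Topology

namespace Pool.Agent.Lib.MP_95e7ec_an

theorem foldLim_row_xv (f : Polynomial ℝ) (m β : ℕ) :
    foldCenRow (xv f m) β = if m = β then f else 0 := by
  ext α
  rw [foldCenRow_coeff, foldCen_coeff_xv]
  split_ifs <;> simp

theorem foldLim_cArr_xv (D : ℕ) (x0 e a : ℝ) (f : Polynomial ℝ) (m : ℕ) (α β : Fin (D + 1)) :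
    cArr D x0 e a (xv f m) α β = if m = (β : ℕ) then
      (Polynomial.taylor x0 f).coeff α * e ^ (α : ℕ) * a ^ ((α : ℕ) + (β : ℕ) - 1) else 0 := by
  unfold cArr
  rw [foldCen_shift_coeff, foldLim_row_xv]
  split_ifs <;> simp

/-- The arrays of the model field, extended to `e = 0`. -/
noncomputable def foldLimG (D L : ℕ) (N : ℕ → ℕ) (κ : ℝ) (i : ℕ) (p : ℝ × ℝ) : Pr D :=
  (fun α β => if (β : ℕ) = 1 then
      -(bd (N 0) i)⁻¹ * ((Polynomial.taylor (i : ℝ) (bb (N 0)).derivative).coeff α *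
        (p.1 * p.2) ^ (α : ℕ)) else 0,
    fun α β => (if (β : ℕ) = 0 then
      (bd (N 0) i)⁻¹ * ((Polynomial.taylor (i : ℝ) (bb (N 0))).coeff α *
        (p.1 * p.2) ^ ((α : ℕ) - 1)) else 0) +
      if (α : ℕ) = 0 ∧ (β : ℕ) = 2 * L then κ * p.2 ^ (2 * L - 1) / bd (N 0) i else 0)

theorem foldLimG_continuous (D L : ℕ) (N : ℕ → ℕ) (κ : ℝ) (i : ℕ) :
    Continuous (foldLimG D L N κ i) := by
  unfold foldLimG
  refine Continuous.prodMk ?_ ?_
  · refine continuous_pi fun α => continuous_pi fun β => ?_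
    split_ifs
    · fun_prop
    · exact continuous_const
  · refine continuous_pi fun α => continuous_pi fun β => ?_
    refine Continuous.add ?_ ?_
    · split_ifs
      · fun_prop
      · exact continuous_const
    · split_ifs
      · fun_prop
      · exact continuous_const

theorem foldLim_cen {D L : ℕ} {N : ℕ → ℕ} (hL : 1 ≤ L) {κ e : ℝ} (he : e ≠ 0) {i : ℕ}
    (hi : i < N 0) (a : ℝ) :
    cen D (N 0) e 1 i a (exP N e) (exQ L N e κ) = foldLimG D L N κ i (e, a) := by
  have hb := bd_ne_zero hi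
  refine Prod.ext ?_ ?_
  · funext α β
    simp only [cen, centreArr, exP, cArr_C_mul, Pi.smul_apply, smul_eq_mul, foldLim_cArr_xv,
      foldLimG]
    by_cases hβ : (β : ℕ) = 1
    · rw [hβ, if_pos rfl, if_pos rfl, Nat.add_sub_cancel, mul_pow]
      field_simp
    · rw [if_neg (Ne.symm hβ), if_neg hβ, mul_zero, mul_zero]
  · funext α β
    have hX : (MvPolynomial.X 1 ^ (2 * L) : MvPolynomial (Fin 2) ℝ) = xv 1 (2 * L) := by
      unfold xv
      rw [map_one, one_mul]
    simp only [cen, centreArr, exQ, hX, cArr_add, cArr_C_mul, Pi.smul_apply, Pi.add_apply,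
      smul_eq_mul, foldLim_cArr_xv, foldLimG, Polynomial.taylor_one]
    by_cases hβ : (β : ℕ) = 0
    · have h2 : ¬(2 * L = (β : ℕ)) := by omega
      have h3 : ¬((α : ℕ) = 0 ∧ (β : ℕ) = 2 * L) := by omega
      rw [if_pos hβ.symm, if_pos hβ, if_neg h2, if_neg h3, hβ]
      rcases Nat.eq_zero_or_pos (α : ℕ) with hα | hα
      · rw [hα, Polynomial.taylor_coeff_zero, foldCen_bb_eval hi]
        simp
      · obtain ⟨k, hk⟩ : ∃ k, (α : ℕ) = k + 1 := ⟨(α : ℕ) - 1, by omega⟩
        rw [hk, Nat.add_sub_cancel, Nat.add_zero, Nat.add_sub_cancel, mul_pow, pow_succ]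
        field_simp
        ring
    · rw [if_neg (Ne.symm hβ), if_neg hβ, zero_add, zero_add]
      by_cases h2 : (β : ℕ) = 2 * L
      · rw [if_pos h2.symm, h2]
        by_cases hα : (α : ℕ) = 0
        · rw [hα, if_pos ⟨rfl, rfl⟩, zero_add, pow_zero, Polynomial.coeff_C_zero]
          field_simp
        · rw [if_neg (fun hh => hα hh.1), Polynomial.coeff_C, if_neg hα]
          ring
      · rw [if_neg (Ne.symm h2), if_neg (fun hh => h2 hh.2), mul_zero, mul_zero]

theorem foldLimG_zero {D L : ℕ} {N : ℕ → ℕ} (hL : 1 ≤ L) (κ : ℝ) {i : ℕ}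
    (hi : i < N 0) (a : ℝ) :
    foldLimG D L N κ i (0, a) = limArr D L N κ i a := by
  have hb := bd_ne_zero hi
  have hd : (bb (N 0)).derivative.eval (i : ℝ) = bd (N 0) i := rfl
  refine Prod.ext ?_ ?_
  · funext α β
    simp only [foldLimG, limArr, linArr, zero_mul, Prod.fst_add, Prod.smul_fst, smul_zero,
      Pi.add_apply, Pi.neg_apply, monoArr, Pi.zero_apply, add_zero]
    by_cases hβ : (β : ℕ) = 1
    · by_cases hα : (α : ℕ) = 0
      · rw [hα, hβ, Polynomial.taylor_coeff_zero, hd]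
        simp
        field_simp
      · rw [zero_pow hα, if_pos hβ, if_neg (fun hh => hα hh.1)]
        simp
    · rw [if_neg hβ, if_neg (fun hh => hβ hh.2), neg_zero]
  · funext α β
    simp only [foldLimG, limArr, linArr, zero_mul, Prod.snd_add, Prod.smul_snd,
      Pi.add_apply, Pi.smul_apply, smul_eq_mul, monoArr]
    congr 1
    · by_cases hβ : (β : ℕ) = 0
      · rcases Nat.eq_zero_or_pos (α : ℕ) with hα | hα
        · rw [hα, Polynomial.taylor_coeff_zero, foldCen_bb_eval hi]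
          simp
        · by_cases hα1 : (α : ℕ) = 1
          · rw [hα1, hβ, Polynomial.taylor_coeff_one, hd]
            simp
            field_simp
          · have h2 : (α : ℕ) - 1 ≠ 0 := by omega
            rw [if_pos hβ, zero_pow h2, if_neg (fun hh => hα1 hh.1)]
            simp
      · rw [if_neg hβ, if_neg (fun hh => hβ hh.2)]
    · split_ifs
      · ring
      · ring

theorem foldLim_amp_mem {L : ℕ} {N : ℕ → ℕ} (hL : 1 ≤ L) {i : ℕ}
    (l : Fin (2 * rows L N i - 1)) : amp L l ∈ Set.Icc (0 : ℝ) 1 := by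
  have hl := l.2
  have hR : rows L N i ≤ L := by
    unfold rows
    exact (Finset.card_filter_le _ _).trans (by rw [Finset.card_range])
  have h0 : (0 : ℝ) < L := by exact_mod_cast hL
  have h1 : ((l : ℕ) : ℝ) + 1 ≤ 2 * L := by
    have : (l : ℕ) + 1 ≤ 2 * L := by omega
    exact_mod_cast this
  unfold amp
  constructor
  · positivity
  · rw [div_le_one (by positivity)]
    exact h1

theorem eventually_cen_mem {D L : ℕ} {N : ℕ → ℕ} (Ch : CentreChart D) (hL : 1 ≤ L)
    (hD : N 0 + 4 * L ≤ D) {κ : ℝ}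
    (h : ∀ i < N 0, ∀ a ∈ Set.Icc (0 : ℝ) 1, limArr D L N κ i a ∈ Ch.nbhd) :
    ∀ᶠ e in 𝓝[>] (0 : ℝ), ∀ i < N 0, ∀ a ∈ Set.Icc (0 : ℝ) 1,
      cen D (N 0) e 1 i a (exP N e) (exQ L N e κ) ∈ Ch.nbhd := by
  have h1 : ∀ᶠ e in 𝓝 (0 : ℝ), ∀ i : Fin (N 0), ∀ a ∈ Set.Icc (0 : ℝ) 1,
      foldLimG D L N κ i (e, a) ∈ Ch.nbhd := by
    rw [eventually_all]
    intro i
    refine isCompact_Icc.eventually_forall_of_forall_eventually
      (P := fun e a => foldLimG D L N κ i (e, a) ∈ Ch.nbhd) ?_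
    intro a ha
    apply (foldLimG_continuous D L N κ i).continuousAt.eventually_mem
    apply Ch.isOpen.mem_nhds
    rw [foldLimG_zero hL κ i.2 a]
    exact h i i.2 a ha
  filter_upwards [nhdsWithin_le_nhds h1, self_mem_nhdsWithin] with e he he0 i hi a ha
  rw [foldLim_cen hL (ne_of_gt he0) hi]
  exact he ⟨i, hi⟩ a ha

theorem tendsto_MM {D L : ℕ} {N : ℕ → ℕ} (Ch : CentreChart D) (hL : 1 ≤ L)
    (hD : N 0 + 4 * L ≤ D) {κ : ℝ}
    (h : ∀ i < N 0, ∀ a ∈ Set.Icc (0 : ℝ) 1, limArr D L N κ i a ∈ Ch.nbhd) (r s : Idx L N) :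
    Tendsto (fun e : ℝ => colScale L N e s *
      MM Ch L N e 1 1 (exP N e) (exQ L N e κ) r s) (𝓝[>] 0) (𝓝 (LM Ch L N κ r s)) := by
  have hb := bd_ne_zero r.1.2
  set a : ℝ := amp L r.2 with ha
  have hmem := h r.1 r.1.2 a (foldLim_amp_mem hL r.2)
  -- continuity of the derivative
  have h1 : ContinuousAt (fun e : ℝ => fderiv ℝ Ch.disp (foldLimG D L N κ r.1 (e, a))) 0 := by
    refine ContinuousAt.comp (g := fderiv ℝ Ch.disp) (f := fun e : ℝ => foldLimG D L N κ r.1 (e, a))
      ?_ ?_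
    · rw [foldLimG_zero hL κ r.1.2 a]
      exact (Ch.analytic.fderiv _ hmem).continuousAt
    · exact ((foldLimG_continuous D L N κ r.1).comp (by fun_prop)).continuousAt
  -- the general statement
  have key : ∀ (H : ℝ → Pr D), Continuous H →
      (∀ e : ℝ, e ≠ 0 → colScale L N e s • cen D (N 0) e 1 r.1 a (pertP L N s) (pertQ L N s) =
        H e) →
      fderiv ℝ Ch.disp (limArr D L N κ r.1 a) (H 0) = LM Ch L N κ r s →
      Tendsto (fun e : ℝ => colScale L N e s *
        MM Ch L N e 1 1 (exP N e) (exQ L N e κ) r s) (𝓝[>] 0) (𝓝 (LM Ch L N κ r s)) := by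
    intro H hH hHe hlim
    have h2 : ContinuousAt (fun e : ℝ =>
        fderiv ℝ Ch.disp (foldLimG D L N κ r.1 (e, a)) (H e)) 0 := h1.clm_apply hH.continuousAt
    have h3 := h2.tendsto
    rw [foldLimG_zero hL κ r.1.2 a, hlim] at h3
    refine (h3.mono_left nhdsWithin_le_nhds).congr' ?_
    filter_upwards [self_mem_nhdsWithin] with e he
    have he0 : e ≠ 0 := ne_of_gt he
    unfold MM
    rw [one_mul, ← ha, foldLim_cen hL he0 r.1.2, ← hHe e he0, map_smul, smul_eq_mul]
  by_cases hs : (s.2 : ℕ) < rows L N s.1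
  · have hP : pertP L N s = 0 := if_pos hs
    have hQ : pertQ L N s = xv (lagr N (s.2 : ℕ) s.1) (2 * (s.2 : ℕ) + 1) := if_pos hs
    have hcol : ∀ e, colScale L N e s = e := fun e => if_pos hs
    refine key (fun e => (0, fun α β => if 2 * (s.2 : ℕ) + 1 = (β : ℕ) then
      (bd (N 0) r.1)⁻¹ * ((Polynomial.taylor ((r.1 : ℕ) : ℝ) (lagr N (s.2 : ℕ) s.1)).coeff α *
        (e * a) ^ (α : ℕ) * a ^ (2 * (s.2 : ℕ))) else 0)) ?_ ?_ ?_
    · refine Continuous.prodMk continuous_const ?_
      refine continuous_pi fun α => continuous_pi fun β => ?_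
      split_ifs
      · fun_prop
      · exact continuous_const
    · intro e he
      rw [hP, hQ, hcol]
      refine Prod.ext ?_ ?_
      · funext α β
        simp [cen, centreArr, cArr]
      · funext α β
        simp only [cen, centreArr, Prod.smul_snd, Pi.smul_apply, smul_eq_mul, foldLim_cArr_xv]
        split_ifs with hβ
        · have h4 : (α : ℕ) + (β : ℕ) - 1 = (α : ℕ) + 2 * (s.2 : ℕ) := by omega
          rw [h4, pow_add, mul_pow]
          field_simp
        · ring
    · unfold LM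
      rw [if_pos hs, ← ha]
      have h5 : ((0, fun α β => if 2 * (s.2 : ℕ) + 1 = (β : ℕ) then
          (bd (N 0) r.1)⁻¹ * ((Polynomial.taylor ((r.1 : ℕ) : ℝ) (lagr N (s.2 : ℕ) s.1)).coeff α *
          (0 * a) ^ (α : ℕ) * a ^ (2 * (s.2 : ℕ))) else 0) : Pr D) =
          ((lagr N (s.2 : ℕ) s.1).eval ((r.1 : ℕ) : ℝ) * a ^ (2 * (s.2 : ℕ)) / bd (N 0) r.1) •
            ((0, monoArr D 0 (2 * (s.2 : ℕ) + 1)) : Pr D) := by
        refine Prod.ext ?_ ?_
        · simp
        · funext α β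
          simp only [Prod.smul_snd, Pi.smul_apply, smul_eq_mul, monoArr, zero_mul]
          by_cases hβ : (β : ℕ) = 2 * (s.2 : ℕ) + 1
          · rw [if_pos hβ.symm]
            by_cases hα : (α : ℕ) = 0
            · rw [if_pos ⟨hα, hβ⟩, hα, Polynomial.taylor_coeff_zero, pow_zero]
              ring
            · rw [if_neg (fun hh => hα hh.1), zero_pow hα]
              ring
          · rw [if_neg (Ne.symm hβ), if_neg (fun hh => hβ hh.2), mul_zero]
      rw [h5, map_smul, smul_eq_mul]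
  · obtain ⟨k, hk⟩ : ∃ k, k = (s.2 : ℕ) + 1 - rows L N s.1 := ⟨_, rfl⟩
    have hk1 : 1 ≤ k := by omega
    have hP : pertP L N s = xv (lagr N k s.1) (2 * k) := by
      rw [hk]
      exact if_neg hs
    have hQ : pertQ L N s = 0 := if_neg hs
    have hcol : ∀ e, colScale L N e s = e ^ 2 := fun e => if_neg hs
    refine key (fun e => (fun α β => if 2 * k = (β : ℕ) then
      (bd (N 0) r.1)⁻¹ * ((Polynomial.taylor ((r.1 : ℕ) : ℝ) (lagr N k s.1)).coeff α *
        (e * a) ^ (α : ℕ) * a ^ (2 * k - 1)) else 0, 0)) ?_ ?_ ?_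
    · refine Continuous.prodMk ?_ continuous_const
      refine continuous_pi fun α => continuous_pi fun β => ?_
      split_ifs
      · fun_prop
      · exact continuous_const
    · intro e he
      rw [hP, hQ, hcol]
      refine Prod.ext ?_ ?_
      · funext α β
        simp only [cen, centreArr, Prod.smul_fst, Pi.smul_apply, smul_eq_mul, foldLim_cArr_xv]
        split_ifs with hβ
        · have h4 : (α : ℕ) + (β : ℕ) - 1 = (α : ℕ) + (2 * k - 1) := by omega
          rw [h4, pow_add, mul_pow]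
          field_simp
        · ring
      · funext α β
        simp [cen, centreArr, cArr]
    · unfold LM
      rw [if_neg hs, ← ha, ← hk]
      have h5 : ((fun α β => if 2 * k = (β : ℕ) then
          (bd (N 0) r.1)⁻¹ * ((Polynomial.taylor ((r.1 : ℕ) : ℝ) (lagr N k s.1)).coeff α *
          (0 * a) ^ (α : ℕ) * a ^ (2 * k - 1)) else 0, 0) : Pr D) =
          ((lagr N k s.1).eval ((r.1 : ℕ) : ℝ) * a ^ (2 * k - 1) / bd (N 0) r.1) •
            ((monoArr D 0 (2 * k), 0) : Pr D) := by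
        refine Prod.ext ?_ ?_
        · funext α β
          simp only [Prod.smul_fst, Pi.smul_apply, smul_eq_mul, monoArr, zero_mul]
          by_cases hβ : (β : ℕ) = 2 * k
          · rw [if_pos hβ.symm]
            by_cases hα : (α : ℕ) = 0
            · rw [if_pos ⟨hα, hβ⟩, hα, Polynomial.taylor_coeff_zero, pow_zero]
              ring
            · rw [if_neg (fun hh => hα hh.1), zero_pow hα]
              ring
          · rw [if_neg (Ne.symm hβ), if_neg (fun hh => hβ hh.2), mul_zero]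
        · simp
      rw [h5, map_smul, smul_eq_mul]

end Pool.Agent.Lib.MP_95e7ec_an
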