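import Mathlib
import Pool.Agent.Lib.MP_95e7ec_an.FoldLim
import Pool.Agent.Lib.MP_95e7ec_an.FoldDet

/-!
# Existence of a model field with a non-degenerate matrix
-/

set_option autoImplicit false

open Set Filter Topology

namespace Pool.Agent.Lib.MP_95e7ec_an

theorem exists_example {D L : ℕ} {N : ℕ → ℕ} (Ch : CentreChart D) (hL : 1 ≤ L)
    (hN : Antitone N) (hD : N 0 + 4 * L ≤ D) :
    ∃ e κ : ℝ, 0 < e ∧ e ≤ 1 ∧ (∀ i < N 0, ∀ a ∈ Set.Icc (0 : ℝ) 1,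
        cen D (N 0) e 1 i a (exP N e) (exQ L N e κ) ∈ Ch.nbhd) ∧
      (MM Ch L N e 1 1 (exP N e) (exQ L N e κ)).det ≠ 0 := by
  obtain ⟨κ, hκmem, hκdet⟩ := (eventually_LM_det Ch hL hN hD).exists
  have h1 := eventually_cen_mem Ch hL hD hκmem
  have h2 : Tendsto (fun e : ℝ => (Matrix.of fun r s : Idx L N => colScale L N e s *
      MM Ch L N e 1 1 (exP N e) (exQ L N e κ) r s).det) (𝓝[>] 0) (𝓝 (LM Ch L N κ).det) := by
    have hc : Continuous (fun M : Matrix (Idx L N) (Idx L N) ℝ => M.det) := by fun_prop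
    refine (hc.tendsto (LM Ch L N κ)).comp ?_
    refine tendsto_pi_nhds.2 fun r => tendsto_pi_nhds.2 fun s => ?_
    exact tendsto_MM Ch hL hD hκmem r s
  have h3 := h2.eventually_ne hκdet
  have h4 : ∀ᶠ e in 𝓝[>] (0 : ℝ), e ∈ Set.Ioc (0 : ℝ) 1 :=
    Ioc_mem_nhdsGT one_pos
  obtain ⟨e, ⟨he1, he3⟩, he4⟩ := ((h1.and h3).and h4).exists
  refine ⟨e, κ, he4.1, he4.2, he1, ?_⟩
  intro h0
  apply he3
  have h5 : (Matrix.of fun r s : Idx L N => colScale L N e s *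
      MM Ch L N e 1 1 (exP N e) (exQ L N e κ) r s) =
      Matrix.of fun r s : Idx L N => colScale L N e s *
        (MM Ch L N e 1 1 (exP N e) (exQ L N e κ)) r s := rfl
  rw [h5, Matrix.det_mul_row, h0, mul_zero]

end Pool.Agent.Lib.MP_95e7ec_an
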