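import Mathlib
import Pool.Agent.Lib.MP_95e7ec_an.Defs

/-!
# The numbers `K(N,m)`
-/

set_option autoImplicit false

namespace Pool.Agent.Lib.MP_95e7ec_an

/-- The vector field `x' = ∑_{j<m} f_j(x) y^j + a y^m`, `y' = ∑_{j<m} g_j(x) y^j + b y^m`. -/
noncomputable def trapField (m : ℕ) (f g : ℕ → Polynomial ℝ) (a b : ℝ) (z : ℝ × ℝ) : ℝ × ℝ :=
  (∑ j ∈ Finset.range m, (f j).eval z.1 * z.2 ^ j + a * z.2 ^ m,
   ∑ j ∈ Finset.range m, (g j).eval z.1 * z.2 ^ j + b * z.2 ^ m)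

/-- `K(N,m)`: the supremum of the number of limit cycles of the vector fields
`x' = ∑_{j<m} f_j(x) y^j + a y^m`, `y' = ∑_{j<m} g_j(x) y^j + b y^m` with `f_j`, `g_j` polynomials
of degree at most `N - j`. -/
noncomputable def trapNumber (N m : ℕ) : ℕ∞ :=
  ⨆ (f : ℕ → Polynomial ℝ) (g : ℕ → Polynomial ℝ) (a : ℝ) (b : ℝ)
    (_ : ∀ j, (f j).natDegree ≤ N - j) (_ : ∀ j, (g j).natDegree ≤ N - j),
    {C | IsLimitCycle (trapField m f g a b) C}.encard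

end Pool.Agent.Lib.MP_95e7ec_an
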