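import Mathlib
import Pool.Agent.Lib.MP_95e7ec_an.Glue4
import Pool.Agent.Lib.MP_95e7ec_an.TrapDefs

/-!
# The growth inequality
-/

set_option autoImplicit false

open Set Filter Topology

namespace Pool.Agent.Lib.MP_95e7ec_an

theorem eval_TP (n m : ℕ) (f : ℕ → Polynomial ℝ) (hf : ∀ j, (f j).natDegree ≤ n + m - j)
    (a x y : ℝ) :
    MvPolynomial.eval ![x, y] (TP n m (fun q => (f q.2).coeff q.1) a) =
      ∑ j ∈ Finset.range m, (f j).eval x * y ^ j + a * y ^ m := by
  unfold TP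
  simp only [map_add, map_mul, map_pow, map_sum, MvPolynomial.eval_C,
    MvPolynomial.eval_X, Matrix.cons_val_zero, Matrix.cons_val_one]
  congr 1
  rw [TT, Finset.sum_filter, Finset.sum_product, Finset.sum_comm]
  refine Finset.sum_congr rfl fun j hj => ?_
  rw [Finset.mem_range] at hj
  have h1 : (f j).natDegree < n + m + 1 := lt_of_le_of_lt (hf j) (by omega)
  rw [Polynomial.eval_eq_sum_range' h1, Finset.sum_mul]
  refine Finset.sum_congr rfl fun i _ => ?_
  split_ifs with h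
  · ring
  · have h2 : (f j).coeff i = 0 := Polynomial.coeff_eq_zero_of_natDegree_lt
      (lt_of_le_of_lt (hf j) (by omega))
    rw [h2]; ring

theorem trapField_eq (n m : ℕ) (f g : ℕ → Polynomial ℝ) (hf : ∀ j, (f j).natDegree ≤ n + m - j)
    (hg : ∀ j, (g j).natDegree ≤ n + m - j) (a b : ℝ) :
    trapField m f g a b = vf (TP n m (fun q => (f q.2).coeff q.1) a)
      (TP n m (fun q => (g q.2).coeff q.1) b) := by
  funext z
  simp only [trapField, vf, eval_TP n m f hf, eval_TP n m g hg]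

theorem deg_TP (n m : ℕ) (g : ℕ × ℕ → ℝ) (a : ℝ) : (TP n m g a).totalDegree ≤ n + m := by
  refine deg_add (MvPolynomial.totalDegree_finsetSum_le fun q hq => deg_C_mul _ ?_)
    (deg_C_mul _ ((deg_pow (deg_X 1) m).trans (by omega)))
  rw [mem_TT] at hq
  exact deg_mul (deg_pow (deg_X 0) _) (deg_pow (deg_X 1) _) hq.2

theorem TP_add_C_mul (n m : ℕ) (g g' : ℕ × ℕ → ℝ) (a a' c : ℝ) :
    TP n m g a + MvPolynomial.C c * TP n m g' a' =
      TP n m (fun q => g q + c * g' q) (a + c * a') := by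
  unfold TP
  simp only [map_add, map_mul, add_mul, Finset.sum_add_distrib, mul_add, Finset.mul_sum]
  have h : ∀ x y z w : MvPolynomial (Fin 2) ℝ, x + y + (z + w) = x + z + (y + w) := by
    intros; ring
  rw [h]
  congr 1
  · congr 1
    exact Finset.sum_congr rfl fun q _ => by ring
  · ring

theorem exists_of_le_trap {N m k : ℕ} (h : (k : ℕ∞) ≤ trapNumber N m) :
    ∃ (f g : ℕ → Polynomial ℝ) (a b : ℝ), (∀ j, (f j).natDegree ≤ N - j) ∧
      (∀ j, (g j).natDegree ≤ N - j) ∧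
      ∃ F : Finset (Set (ℝ × ℝ)), F.card = k ∧
        ∀ C ∈ F, IsLimitCycle (trapField m f g a b) C := by
  rcases Nat.eq_zero_or_pos k with rfl | hN
  · exact ⟨fun _ => 0, fun _ => 0, 0, 0, by simp, by simp, ∅, rfl, by simp⟩
  obtain ⟨k, rfl⟩ : ∃ k', k = k' + 1 := ⟨k - 1, by omega⟩
  have h1 : (k : ℕ∞) < trapNumber N m :=
    lt_of_lt_of_le (by exact_mod_cast Nat.lt_succ_self k) h
  unfold trapNumber at h1
  simp only [lt_iSup_iff] at h1
  obtain ⟨f, g, a, b, hf, hg, h2⟩ := h1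
  have h3 : ((k + 1 : ℕ) : ℕ∞) ≤ {C | IsLimitCycle (trapField m f g a b) C}.encard := by
    push_cast
    exact Order.add_one_le_of_lt h2
  obtain ⟨F, hF, hF'⟩ := exists_finset_of_le_encard h3
  exact ⟨f, g, a, b, hf, hg, F, hF, hF'⟩

theorem glue_trap {n m N1 N2 : ℕ} (h1 : (N1 : ℕ∞) ≤ hilbertNumber n)
    (h2 : (N2 : ℕ∞) ≤ trapNumber (n + m) m) :
    ((N1 + N2 : ℕ) : ℕ∞) ≤ hilbertNumber (n + m) := by
  obtain ⟨f, g, a, b, hf, hg, F, hFc, hF⟩ := exists_of_le_trap h2
  rw [trapField_eq n m f g hf hg] at hF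
  set D := 2 * n + m with hD
  have hDle : n + m ≤ D := by omega
  obtain ⟨s, R2, hR⟩ := robust_poly (D := D) ((deg_TP n m _ a).trans hDle)
    ((deg_TP n m _ b).trans hDle) F hF
  obtain ⟨θ, hθ⟩ := hR.exists
  rw [sub_eq_add_neg, ← neg_mul, ← map_neg, TP_add_C_mul, TP_add_C_mul] at hθ
  set g1 : ℕ × ℕ → ℝ := fun q => (f q.2).coeff q.1 + -(s * θ) * (g q.2).coeff q.1 with hg1
  set g2 : ℕ × ℕ → ℝ := fun q => (g q.2).coeff q.1 + s * θ * (f q.2).coeff q.1 with hg2
  set a' := a + -(s * θ) * b with ha'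
  set b' := b + s * θ * a with hb'
  -- a neighbourhood in the last coefficients
  have hcont : Continuous fun e : ℝ × ℝ =>
      ((arr D (TP n m g1 e.1), arr D (TP n m g2 e.2)) : Pr D) := by
    have hh : ∀ g : ℕ × ℕ → ℝ, Continuous fun c : ℝ => (arr D (TP n m g c) : Co D) := by
      intro g
      have h3 : ContFam fun c => TP n m g c := by
        unfold TP
        exact ContFam.add (ContFam.const _) (ContFam.mul (ContFam.C continuous_id)
          (ContFam.const _))
      exact h3.tendsto_arr D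
    exact ((hh g1).comp continuous_fst).prodMk ((hh g2).comp continuous_snd)
  have hnb : ∀ᶠ e in 𝓝 ((a', b') : ℝ × ℝ),
      ∀ᶠ μ in 𝓝 ((arr D (TP n m g1 e.1), arr D (TP n m g2 e.2)) : Pr D), Has μ R2 F.card :=
    (hcont.tendsto (a', b')).eventually (eventually_eventually_nhds.2 hθ)
  obtain ⟨ε0, hε0, hball⟩ := Metric.eventually_nhds_iff.1 hnb
  obtain ⟨a3, ha3, ha30⟩ : ∃ a3 : ℝ, |a3 - a'| < ε0 / 2 ∧ a3 ≠ 0 := by
    rcases le_or_gt 0 a' with h | h
    · exact ⟨a' + ε0 / 4, by rw [add_sub_cancel_left, abs_of_pos (by linarith)]; linarith,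
        by positivity⟩
    · exact ⟨a', by rw [sub_self, abs_zero]; linarith, h.ne⟩
  have hsq : ((-1 : ℝ) ^ m) * ((-1 : ℝ) ^ m) = 1 := by rw [← mul_pow]; simp
  have habs : |((-1 : ℝ) ^ m)| = 1 := by rw [abs_pow]; simp
  have hne : ((-1 : ℝ) ^ m) ≠ 0 := pow_ne_zero _ (by norm_num)
  obtain ⟨P, Q, hP, hQ, hPl, hQl, R1, hR1⟩ := exists_norm (D := n + m) (by omega) h1
    ((-1) ^ m * b') ((-1) ^ m * a3) (mul_ne_zero hne ha30) (ε0 / 2) (by linarith)
  have hsc : ∀ u v : ℝ, |(-1 : ℝ) ^ m * u - v| = |u - (-1) ^ m * v| := by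
    intro u v
    have : (-1 : ℝ) ^ m * u - v = (-1) ^ m * (u - (-1) ^ m * v) := by
      rw [mul_sub, ← mul_assoc, hsq, one_mul]
    rw [this, abs_mul, habs, one_mul]
  have hN := hball (y := ((-1) ^ m * lead n Q, (-1) ^ m * lead n P)) (by
    rw [Prod.dist_eq, max_lt_iff]
    simp only [Real.dist_eq]
    constructor
    · have h3 : |(-1 : ℝ) ^ m * lead n Q - a3| < ε0 / 2 := by rw [hsc]; exact hQl
      have h4 := abs_add_le ((-1 : ℝ) ^ m * lead n Q - a3) (a3 - a')
      have h5 : (-1 : ℝ) ^ m * lead n Q - a3 + (a3 - a') = (-1 : ℝ) ^ m * lead n Q - a' := by ring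
      rw [h5] at h4
      linarith
    · rw [hsc]; linarith)
  have := glue (m := m) hP hQ g1 g2 R1 R2 hR1 hN
  rw [hFc] at this
  exact this

/-- The growth inequality for the Hilbert numbers. -/
theorem hilbert_add_trap_le (n m : ℕ) :
    hilbertNumber n + trapNumber (n + m) m ≤ hilbertNumber (n + m) := by
  rcases eq_or_ne (hilbertNumber (n + m)) ⊤ with htop | htop
  · rw [htop]; exact le_top
  have hH : hilbertNumber n ≠ ⊤ := by
    intro h
    apply htop
    rw [ENat.eq_top_iff_forall_ge]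
    intro k
    have := glue_trap (n := n) (m := m) (N1 := k) (N2 := 0) (by rw [h]; exact le_top) (by simp)
    simpa using this
  have hK : trapNumber (n + m) m ≠ ⊤ := by
    intro h
    apply htop
    rw [ENat.eq_top_iff_forall_ge]
    intro k
    have := glue_trap (n := n) (m := m) (N1 := 0) (N2 := k) (by simp) (by rw [h]; exact le_top)
    simpa using this
  obtain ⟨k1, hk1⟩ := ENat.ne_top_iff_exists.1 hH
  obtain ⟨k2, hk2⟩ := ENat.ne_top_iff_exists.1 hK
  rw [← hk1, ← hk2]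
  have := glue_trap (n := n) (m := m) (N1 := k1) (N2 := k2) hk1.le hk2.le
  exact_mod_cast this

end Pool.Agent.Lib.MP_95e7ec_an
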