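import Mathlib
import Pool.Agent.Lib.MP_95e7ec_an.FoldDefs2
import Pool.Agent.Lib.MP_95e7ec_an.Glue5

/-!
# The folded family (task E10b)
-/

set_option autoImplicit false

open Set Filter Topology

namespace Pool.Agent.Lib.MP_95e7ec_an

/-! ### Supports -/

/-- All exponents `(i,j)` of `P` satisfy `p i j`. -/
def FfSupp (p : ℕ → ℕ → Prop) (P : MvPolynomial (Fin 2) ℝ) : Prop :=
  ∀ d ∈ P.support, p (d 0) (d 1)

theorem FfSupp.add {p : ℕ → ℕ → Prop} {P Q : MvPolynomial (Fin 2) ℝ} (hP : FfSupp p P)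
    (hQ : FfSupp p Q) : FfSupp p (P + Q) := by
  classical
  intro d hd
  rcases Finset.mem_union.1 (MvPolynomial.support_add hd) with h | h
  · exact hP d h
  · exact hQ d h

theorem FfSupp.neg {p : ℕ → ℕ → Prop} {P : MvPolynomial (Fin 2) ℝ} (hP : FfSupp p P) :
    FfSupp p (-P) := by
  intro d hd
  rw [MvPolynomial.support_neg] at hd
  exact hP d hd

theorem FfSupp.sub {p : ℕ → ℕ → Prop} {P Q : MvPolynomial (Fin 2) ℝ} (hP : FfSupp p P)
    (hQ : FfSupp p Q) : FfSupp p (P - Q) := by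
  rw [sub_eq_add_neg]; exact hP.add hQ.neg

theorem FfSupp.zero (p : ℕ → ℕ → Prop) : FfSupp p 0 := by
  intro d hd; simp at hd

theorem FfSupp.sum {ι : Type*} {p : ℕ → ℕ → Prop} (S : Finset ι)
    {P : ι → MvPolynomial (Fin 2) ℝ} (hP : ∀ i ∈ S, FfSupp p (P i)) :
    FfSupp p (∑ i ∈ S, P i) := by
  classical
  induction S using Finset.induction_on with
  | empty => simpa using FfSupp.zero p
  | insert a s ha ih =>
    rw [Finset.sum_insert ha]
    exact (hP a (Finset.mem_insert_self a s)).add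
      (ih fun i hi => hP i (Finset.mem_insert_of_mem hi))

theorem FfSupp.mono {p : ℕ → ℕ → Prop} {i j : ℕ} (h : p i j) (c : ℝ) :
    FfSupp p (MvPolynomial.C c * MvPolynomial.X 0 ^ i * MvPolynomial.X 1 ^ j) := by
  classical
  intro d hd
  have h1 : (MvPolynomial.C c * MvPolynomial.X 0 ^ i * MvPolynomial.X 1 ^ j :
      MvPolynomial (Fin 2) ℝ) =
      MvPolynomial.monomial (Finsupp.single 0 i + Finsupp.single 1 j) c := by
    rw [MvPolynomial.X_pow_eq_monomial, MvPolynomial.X_pow_eq_monomial, MvPolynomial.C_mul_monomial,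
      MvPolynomial.monomial_mul]
    simp
  rw [h1] at hd
  have h2 := MvPolynomial.support_monomial_subset hd
  rw [Finset.mem_singleton] at h2
  subst h2
  simpa using h

theorem FfSupp.xv {p : ℕ → ℕ → Prop} {f : Polynomial ℝ} {j : ℕ}
    (h : ∀ i ≤ f.natDegree, p i j) (c : ℝ) : FfSupp p (MvPolynomial.C c * xv f j) := by
  unfold Pool.Agent.Lib.MP_95e7ec_an.xv
  rw [Polynomial.aeval_eq_sum_range, Finset.sum_mul, Finset.mul_sum]
  apply FfSupp.sum
  intro i hi
  rw [Finset.mem_range] at hi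
  have := FfSupp.mono (h i (by omega)) (c * f.coeff i)
  convert this using 1
  rw [MvPolynomial.smul_eq_C_mul, map_mul]
  ring

/-- The expansion of `C c * y^m * A(x/ε, (y²-1)/(2ε))`. -/
theorem ffZoomP_eq (c ε : ℝ) (m : ℕ) (A : MvPolynomial (Fin 2) ℝ) :
    MvPolynomial.C c * MvPolynomial.X 1 ^ m * zoomP ε A =
      ∑ d ∈ A.support, ∑ k ∈ Finset.range (d 1 + 1),
        MvPolynomial.C (c * A.coeff d * ε⁻¹ ^ (d 0) * (2 * ε)⁻¹ ^ (d 1) *
          ((-1) ^ (d 1 - k) * ((d 1).choose k : ℝ))) *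
          MvPolynomial.X 0 ^ (d 0) * MvPolynomial.X 1 ^ (2 * k + m) := by
  unfold zoomP
  rw [MvPolynomial.aeval_def, MvPolynomial.eval₂_eq', Finset.mul_sum]
  refine Finset.sum_congr rfl fun d _ => ?_
  simp only [Fin.prod_univ_two, Matrix.cons_val_zero, Matrix.cons_val_one]
  rw [mul_pow, mul_pow, sub_eq_add_neg, add_pow, Finset.mul_sum, Finset.mul_sum, Finset.mul_sum,
    Finset.mul_sum]
  refine Finset.sum_congr rfl fun k _ => ?_
  have h1 : (algebraMap ℝ (MvPolynomial (Fin 2) ℝ)) (A.coeff d) = MvPolynomial.C (A.coeff d) := rfl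
  have h2 : ((d 1).choose k : MvPolynomial (Fin 2) ℝ) = MvPolynomial.C ((d 1).choose k : ℝ) := by
    simp
  have h3 : (-1 : MvPolynomial (Fin 2) ℝ) = MvPolynomial.C (-1) := by simp
  rw [h1, h2, h3]
  simp only [map_mul, map_pow]
  rw [pow_add, pow_mul]
  ring

theorem FfSupp.zoomP {p : ℕ → ℕ → Prop} {m : ℕ} {A : MvPolynomial (Fin 2) ℝ}
    (h : ∀ d ∈ A.support, ∀ k ≤ d 1, p (d 0) (2 * k + m)) (c ε : ℝ) :
    FfSupp p (MvPolynomial.C c * MvPolynomial.X 1 ^ m * zoomP ε A) := by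
  rw [ffZoomP_eq]
  refine FfSupp.sum _ fun d hd => FfSupp.sum _ fun k hk => ?_
  rw [Finset.mem_range] at hk
  exact FfSupp.mono (h d hd k (by omega)) _

theorem FfSupp.coeff_eq_zero {p : ℕ → ℕ → Prop} {P : MvPolynomial (Fin 2) ℝ} (hP : FfSupp p P)
    {d : Fin 2 →₀ ℕ} (h : ¬ p (d 0) (d 1)) : P.coeff d = 0 := by
  by_contra hc
  exact h (hP d (MvPolynomial.mem_support_iff.2 hc))

theorem ff_bb_natDegree (ν : ℕ) : (bb ν).natDegree ≤ ν := by
  induction ν with
  | zero => simp [bb]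
  | succ n ih =>
    have h1 : bb (n + 1) = bb n * (Polynomial.X - Polynomial.C (n : ℝ)) := by
      unfold bb
      rw [Finset.prod_range_succ]
    rw [h1]
    have h2 := Polynomial.natDegree_mul_le (p := bb n) (q := Polynomial.X - Polynomial.C (n : ℝ))
    rw [Polynomial.natDegree_X_sub_C] at h2
    omega

theorem ff_bbd_natDegree (ν : ℕ) : (bb ν).derivative.natDegree ≤ ν :=
  (Polynomial.natDegree_derivative_le _).trans ((Nat.sub_le _ _).trans (ff_bb_natDegree ν))

theorem ff_coeff_xv (f : Polynomial ℝ) (c : ℝ) (i j : ℕ) :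
    (MvPolynomial.C c * xv f j).coeff (Finsupp.single 0 i + Finsupp.single 1 j) =
      c * f.coeff i := by
  classical
  unfold xv
  rw [MvPolynomial.coeff_C_mul]
  congr 1
  rw [Polynomial.aeval_eq_sum_range, Finset.sum_mul, MvPolynomial.coeff_sum]
  have h1 : ∀ k ∈ Finset.range (f.natDegree + 1),
      (f.coeff k • (MvPolynomial.X 0 : MvPolynomial (Fin 2) ℝ) ^ k * MvPolynomial.X 1 ^ j).coeff
        (Finsupp.single 0 i + Finsupp.single 1 j) = if k = i then f.coeff k else 0 := by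
    intro k _
    rw [MvPolynomial.smul_eq_C_mul, MvPolynomial.X_pow_eq_monomial, MvPolynomial.X_pow_eq_monomial,
      MvPolynomial.C_mul_monomial, MvPolynomial.monomial_mul, MvPolynomial.coeff_monomial]
    have : ((Finsupp.single 0 k + Finsupp.single 1 j : Fin 2 →₀ ℕ) =
        Finsupp.single 0 i + Finsupp.single 1 j) ↔ k = i := by
      constructor
      · intro h
        have := DFunLike.congr_fun h 0
        simpa using this
      · intro h; rw [h]
    simp only [this, mul_one]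
  rw [Finset.sum_congr rfl h1, Finset.sum_ite_eq']
  split_ifs with h
  · rfl
  · rw [Finset.mem_range, not_lt] at h
    exact (Polynomial.coeff_eq_zero_of_natDegree_lt (by omega)).symm

theorem foldP_inRow {L : ℕ} {N : ℕ → ℕ} (hL : 1 ≤ L) (hN : Antitone N)
    {A : MvPolynomial (Fin 2) ℝ} (hA : InRow L N A) (e ε : ℝ) :
    InRow (2 * L + 2) (fun j => N (j / 2 - 1)) (foldP (N 0) e ε A) := by
  change FfSupp (fun i j => j < 2 * L + 2 ∧ i ≤ N (j / 2 - 1)) _
  unfold foldP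
  refine FfSupp.sub (FfSupp.zoomP (fun d hd k hk => ?_) _ _) (FfSupp.xv (fun i hi => ?_) _)
  · obtain ⟨h1, h2⟩ := hA d hd
    refine ⟨by omega, h2.trans (hN ?_)⟩
    omega
  · exact ⟨by omega, by simpa using hi.trans (ff_bbd_natDegree _)⟩

theorem foldQ_inRow {L : ℕ} {N : ℕ → ℕ} (hL : 1 ≤ L) (hN : Antitone N)
    {B : MvPolynomial (Fin 2) ℝ} (hB : InRow L N B) (ε : ℝ) :
    InRow (2 * L + 2) (fun j => N (j / 2 - 1)) (foldQ (N 0) ε B) := by
  change FfSupp (fun i j => j < 2 * L + 2 ∧ i ≤ N (j / 2 - 1)) _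
  unfold foldQ
  refine FfSupp.add (FfSupp.zoomP (fun d hd k hk => ?_) _ _) (FfSupp.xv (fun i hi => ?_) _)
  · obtain ⟨h1, h2⟩ := hB d hd
    refine ⟨by omega, h2.trans (hN ?_)⟩
    omega
  · exact ⟨by omega, by simpa using hi.trans (ff_bb_natDegree _)⟩

theorem fold_adm (ν : ℕ) (e ε : ℝ) (A B : MvPolynomial (Fin 2) ℝ) :
    Adm ν e (ε ^ 2) (foldP ν e ε A) (foldQ ν ε B) where
  odd := by
    change FfSupp (fun _ j => Odd j) _
    unfold foldP
    refine FfSupp.sub (FfSupp.zoomP (fun d hd k hk => ?_) _ _) (FfSupp.xv (fun i hi => ?_) _)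
    · exact ⟨k + 1, by ring⟩
    · exact odd_one
  even := by
    change FfSupp (fun _ j => Even j) _
    unfold foldQ
    refine FfSupp.add (FfSupp.zoomP (fun d hd k hk => ?_) _ _) (FfSupp.xv (fun i hi => ?_) _)
    · exact ⟨k + 1, by ring⟩
    · exact Even.zero
  rowP := by
    intro i
    have h1 : FfSupp (fun _ j => 3 ≤ j)
        (MvPolynomial.C ε * MvPolynomial.X 1 ^ 3 * zoomP ε A) :=
      FfSupp.zoomP (fun d hd k hk => by omega) _ _
    unfold foldP
    rw [MvPolynomial.coeff_sub, h1.coeff_eq_zero (by simp), ff_coeff_xv]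
    ring
  rowQ := by
    intro i
    have h1 : FfSupp (fun _ j => 2 ≤ j)
        (MvPolynomial.C ε * MvPolynomial.X 1 ^ 2 * zoomP ε B) :=
      FfSupp.zoomP (fun d hd k hk => by omega) _ _
    unfold foldQ
    have h2 : (Finsupp.single 0 i : Fin 2 →₀ ℕ) = Finsupp.single 0 i + Finsupp.single 1 0 := by
      simp
    rw [MvPolynomial.coeff_add, h1.coeff_eq_zero (by simp), h2, ff_coeff_xv]
    ring

/-! ### The family -/

theorem ffZoomF_eq (ε : ℝ) (A : MvPolynomial (Fin 2) ℝ) :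
    zoomF ε A = ∑ d ∈ A.support, MvPolynomial.C (A.coeff d) *
      (MvPolynomial.X 0 ^ (d 0) *
        (MvPolynomial.X 1 + MvPolynomial.C (ε / 2) * MvPolynomial.X 1 ^ 2) ^ (d 1)) := by
  unfold zoomF
  rw [MvPolynomial.aeval_def, MvPolynomial.eval₂_eq']
  refine Finset.sum_congr rfl fun d _ => ?_
  simp only [Fin.prod_univ_two, Matrix.cons_val_zero, Matrix.cons_val_one]
  rfl

theorem contFam_zoomF (A : MvPolynomial (Fin 2) ℝ) : ContFam fun ε => zoomF ε A := by
  simp only [ffZoomF_eq]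
  refine ContFam.sum _ fun d _ => ContFam.mul (ContFam.const _) (ContFam.mul (ContFam.const _)
    (ContFam.pow (ContFam.add (ContFam.const _) (ContFam.mul (ContFam.C (by fun_prop))
      (ContFam.const _))) _))

theorem contFam_ffaeval (f : Polynomial ℝ) : ContFam fun ε =>
    Polynomial.aeval (MvPolynomial.C ε * MvPolynomial.X 0 : MvPolynomial (Fin 2) ℝ) f := by
  simp only [Polynomial.aeval_eq_sum_range, MvPolynomial.smul_eq_C_mul]
  exact ContFam.sum _ fun i _ => ContFam.mul (ContFam.const _)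
    (ContFam.pow (ContFam.mul (ContFam.C continuous_id) (ContFam.const _)) _)

theorem contFam_famP (ν : ℕ) (e : ℝ) (A : MvPolynomial (Fin 2) ℝ) :
    ContFam fun ε => famP ν e ε A := by
  unfold famP
  refine ContFam.sub (ContFam.mul (ContFam.pow (ContFam.add (ContFam.const _) (ContFam.mul
    (ContFam.C continuous_id) (ContFam.const _))) _) (contFam_zoomF A)) (ContFam.mul (ContFam.mul
    (ContFam.C (by fun_prop)) (ContFam.add (ContFam.const _) (ContFam.mul
    (ContFam.C continuous_id) (ContFam.const _)))) (contFam_ffaeval _))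

theorem contFam_famQ (ν : ℕ) (B : MvPolynomial (Fin 2) ℝ) : ContFam fun ε => famQ ν ε B := by
  unfold famQ
  refine ContFam.add (ContFam.mul (ContFam.pow (ContFam.add (ContFam.const _) (ContFam.mul
    (ContFam.C continuous_id) (ContFam.const _))) _) (contFam_zoomF B)) (ContFam.mul
    (ContFam.C continuous_id) (contFam_ffaeval _))

theorem ff_zoomF_zero (A : MvPolynomial (Fin 2) ℝ) : zoomF 0 A = A := by
  unfold zoomF
  have h : (![(MvPolynomial.X 0 : MvPolynomial (Fin 2) ℝ),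
      MvPolynomial.X 1 + MvPolynomial.C ((0 : ℝ) / 2) * MvPolynomial.X 1 ^ 2]) =
      MvPolynomial.X := by
    funext i
    fin_cases i
    · simp
    · simp
  rw [h, MvPolynomial.aeval_X_left_apply]

theorem famP_zero (ν : ℕ) (e : ℝ) (A : MvPolynomial (Fin 2) ℝ) : famP ν e 0 A = A := by
  unfold famP
  rw [ff_zoomF_zero]
  simp

theorem famQ_zero (ν : ℕ) (B : MvPolynomial (Fin 2) ℝ) : famQ ν 0 B = B := by
  unfold famQ
  rw [ff_zoomF_zero]
  simp

theorem ff_eval_zoomP {ε s : ℝ} (hε : ε ≠ 0) (hs : s * s = 1)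
    (A : MvPolynomial (Fin 2) ℝ) (x y : ℝ) :
    MvPolynomial.eval ![ε * x, s * (1 + ε * y)] (zoomP ε A) =
      MvPolynomial.eval ![x, y] (zoomF ε A) := by
  rw [ffZoomF_eq]
  unfold zoomP
  rw [MvPolynomial.aeval_def, MvPolynomial.eval₂_eq', map_sum, map_sum]
  refine Finset.sum_congr rfl fun d _ => ?_
  simp only [Fin.prod_univ_two, Matrix.cons_val_zero, Matrix.cons_val_one, map_mul, map_pow,
    map_sub, map_add, map_one, MvPolynomial.eval_C, MvPolynomial.eval_X]
  have h1 : (MvPolynomial.eval ![ε * x, s * (1 + ε * y)])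
      ((algebraMap ℝ (MvPolynomial (Fin 2) ℝ)) (A.coeff d)) = A.coeff d := by
    change (MvPolynomial.eval ![ε * x, s * (1 + ε * y)]) (MvPolynomial.C (A.coeff d)) = _
    rw [MvPolynomial.eval_C]
  have h2 : ε⁻¹ * (ε * x) = x := by field_simp
  have h3 : (2 * ε)⁻¹ * ((s * (1 + ε * y)) ^ 2 - 1) = y + ε / 2 * y ^ 2 := by
    have : (s * (1 + ε * y)) ^ 2 = (1 + ε * y) ^ 2 := by
      rw [mul_pow, pow_two s, hs, one_mul]
    rw [this]
    field_simp
    ring
  rw [h1, h2, h3]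

theorem ff_eval_aeval (f : Polynomial ℝ) (v : Fin 2 → ℝ) (P : MvPolynomial (Fin 2) ℝ) :
    MvPolynomial.eval v (Polynomial.aeval P f) = f.eval (MvPolynomial.eval v P) := by
  rw [Polynomial.aeval_eq_sum_range, Polynomial.eval_eq_sum_range, map_sum]
  refine Finset.sum_congr rfl fun i _ => ?_
  rw [MvPolynomial.smul_eval, map_pow]

theorem eval_foldP (ν : ℕ) (e : ℝ) {ε s : ℝ} (hε : ε ≠ 0) (hs : s * s = 1)
    (A : MvPolynomial (Fin 2) ℝ) (x y : ℝ) :
    MvPolynomial.eval ![ε * x, s * (1 + ε * y)] (foldP ν e ε A) =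
      s * ε * MvPolynomial.eval ![x, y] (famP ν e ε A) := by
  unfold foldP famP xv
  rw [map_sub, map_sub, map_mul, map_mul, map_mul (MvPolynomial.eval ![x, y]),
    ff_eval_zoomP hε hs]
  simp only [map_mul, map_pow, map_add, map_one, MvPolynomial.eval_C, MvPolynomial.eval_X,
    ff_eval_aeval, Matrix.cons_val_zero, Matrix.cons_val_one]
  have h3 : s ^ 3 = s := by
    calc s ^ 3 = s * s * s := by ring
      _ = s := by rw [hs, one_mul]
  rw [mul_pow, h3]
  ring

theorem eval_foldQ (ν : ℕ) {ε s : ℝ} (hε : ε ≠ 0) (hs : s * s = 1)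
    (B : MvPolynomial (Fin 2) ℝ) (x y : ℝ) :
    MvPolynomial.eval ![ε * x, s * (1 + ε * y)] (foldQ ν ε B) =
      ε * MvPolynomial.eval ![x, y] (famQ ν ε B) := by
  unfold foldQ famQ xv
  rw [map_add, map_add, map_mul, map_mul, map_mul (MvPolynomial.eval ![x, y]),
    ff_eval_zoomP hε hs]
  simp only [map_mul, map_pow, map_add, map_one, MvPolynomial.eval_C, MvPolynomial.eval_X,
    ff_eval_aeval, Matrix.cons_val_zero, Matrix.cons_val_one]
  rw [mul_pow, pow_two s, hs]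
  ring

/-! ### Degrees -/

theorem ff_degree_X (i : Fin 2) : (MvPolynomial.X i : MvPolynomial (Fin 2) ℝ).totalDegree ≤ 1 :=
  (MvPolynomial.totalDegree_X i).le

theorem ff_degree_mul {P Q : MvPolynomial (Fin 2) ℝ} {a b : ℕ} (hP : P.totalDegree ≤ a)
    (hQ : Q.totalDegree ≤ b) : (P * Q).totalDegree ≤ a + b :=
  (MvPolynomial.totalDegree_mul _ _).trans (add_le_add hP hQ)

theorem ff_degree_pow {P : MvPolynomial (Fin 2) ℝ} {a : ℕ} (hP : P.totalDegree ≤ a) (k : ℕ) :
    (P ^ k).totalDegree ≤ k * a :=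
  (MvPolynomial.totalDegree_pow _ _).trans (Nat.mul_le_mul le_rfl hP)

theorem ff_degree_add {P Q : MvPolynomial (Fin 2) ℝ} {a : ℕ} (hP : P.totalDegree ≤ a)
    (hQ : Q.totalDegree ≤ a) : (P + Q).totalDegree ≤ a :=
  (MvPolynomial.totalDegree_add _ _).trans (max_le hP hQ)

theorem ff_degree_C (c : ℝ) (a : ℕ) :
    (MvPolynomial.C c : MvPolynomial (Fin 2) ℝ).totalDegree ≤ a := by
  rw [MvPolynomial.totalDegree_C]; exact zero_le

theorem ff_degree_one (a : ℕ) : (1 : MvPolynomial (Fin 2) ℝ).totalDegree ≤ a := by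
  rw [MvPolynomial.totalDegree_one]; exact zero_le

theorem ff_degree_sum {ι : Type*} (S : Finset ι) {P : ι → MvPolynomial (Fin 2) ℝ} {a : ℕ}
    (hP : ∀ i ∈ S, (P i).totalDegree ≤ a) : (∑ i ∈ S, P i).totalDegree ≤ a :=
  MvPolynomial.totalDegree_finsetSum_le hP

theorem ff_degree_zoomF {L : ℕ} {N : ℕ → ℕ} (hL : 1 ≤ L) (hN : Antitone N)
    {A : MvPolynomial (Fin 2) ℝ} (hA : InRow L N A) (ε : ℝ) :
    (zoomF ε A).totalDegree ≤ N 0 + (2 * L - 2) := by
  rw [ffZoomF_eq]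
  refine ff_degree_sum _ fun d hd => ?_
  obtain ⟨h1, h2⟩ := hA d hd
  have h3 : d 0 ≤ N 0 := h2.trans (hN (Nat.zero_le _))
  have h4 : (MvPolynomial.C (A.coeff d) * (MvPolynomial.X 0 ^ (d 0) *
      (MvPolynomial.X 1 + MvPolynomial.C (ε / 2) * MvPolynomial.X 1 ^ 2) ^ (d 1)) :
        MvPolynomial (Fin 2) ℝ).totalDegree ≤ 0 + (d 0 * 1 + d 1 * 2) := by
    refine ff_degree_mul (ff_degree_C _ _) (ff_degree_mul (ff_degree_pow (ff_degree_X 0) _)
      (ff_degree_pow (ff_degree_add ((ff_degree_X 1).trans (by norm_num)) ?_) _))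
    exact ff_degree_mul (a := 0) (ff_degree_C _ _) (ff_degree_pow (ff_degree_X 1) 2)
  omega

theorem ff_degree_lin (ε : ℝ) :
    (1 + MvPolynomial.C ε * MvPolynomial.X 1 : MvPolynomial (Fin 2) ℝ).totalDegree ≤ 1 :=
  ff_degree_add (ff_degree_one _) (ff_degree_mul (a := 0) (ff_degree_C _ _) (ff_degree_X 1))

theorem ff_degree_aeval (f : Polynomial ℝ) (ε : ℝ) {a : ℕ} (hf : f.natDegree ≤ a) :
    (Polynomial.aeval (MvPolynomial.C ε * MvPolynomial.X 0 : MvPolynomial (Fin 2) ℝ)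
      f).totalDegree ≤ a := by
  rw [Polynomial.aeval_eq_sum_range]
  refine ff_degree_sum _ fun i hi => ?_
  rw [Finset.mem_range] at hi
  rw [MvPolynomial.smul_eq_C_mul]
  have : (MvPolynomial.C (f.coeff i) * (MvPolynomial.C ε * MvPolynomial.X 0) ^ i :
      MvPolynomial (Fin 2) ℝ).totalDegree ≤ 0 + i * (0 + 1) :=
    ff_degree_mul (ff_degree_C _ _) (ff_degree_pow (ff_degree_mul (ff_degree_C _ _)
      (ff_degree_X 0)) i)
  omega

theorem famP_degree {D L : ℕ} {N : ℕ → ℕ} (hL : 1 ≤ L) (hN : Antitone N)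
    (hD : N 0 + 4 * L ≤ D) {A : MvPolynomial (Fin 2) ℝ} (hA : InRow L N A) (e ε : ℝ) :
    (famP (N 0) e ε A).totalDegree ≤ D := by
  unfold famP
  refine (MvPolynomial.totalDegree_sub _ _).trans (max_le ?_ ?_)
  · have := ff_degree_mul (ff_degree_pow (ff_degree_lin ε) 3) (ff_degree_zoomF hL hN hA ε)
    omega
  · have := ff_degree_mul (ff_degree_mul (ff_degree_C (ε * e ^ 2) 0) (ff_degree_lin ε))
      (ff_degree_aeval (bb (N 0)).derivative ε (ff_bbd_natDegree (N 0)))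
    omega

theorem famQ_degree {D L : ℕ} {N : ℕ → ℕ} (hL : 1 ≤ L) (hN : Antitone N)
    (hD : N 0 + 4 * L ≤ D) {B : MvPolynomial (Fin 2) ℝ} (hB : InRow L N B) (ε : ℝ) :
    (famQ (N 0) ε B).totalDegree ≤ D := by
  unfold famQ
  refine ff_degree_add ?_ ?_
  · have := ff_degree_mul (ff_degree_pow (ff_degree_lin ε) 2) (ff_degree_zoomF hL hN hB ε)
    omega
  · have := ff_degree_mul (ff_degree_C ε 0)
      (ff_degree_aeval (bb (N 0)) ε (ff_bb_natDegree (N 0)))
    omega

end Pool.Agent.Lib.MP_95e7ec_an
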