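import Mathlib
import Pool.Agent.Lib.MP_95e7ec_an.FoldDefs2
import Pool.Agent.Lib.MP_95e7ec_an.Glue1

/-!
# Elementary lemmas on rows of exponents (task E11a of theorem (E))
-/

set_option autoImplicit false

open Set Filter Topology

namespace Pool.Agent.Lib.MP_95e7ec_an

/-! ### auxiliary lemmas -/

theorem FoldRow.coeff_xv (f : Polynomial ℝ) (β : ℕ) (d : Fin 2 →₀ ℕ) :
    (xv f β).coeff d = if d 1 = β then f.coeff (d 0) else 0 := by
  unfold xv
  induction f using Polynomial.induction_on' with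
  | add p q hp hq =>
    rw [map_add, add_mul, MvPolynomial.coeff_add, hp, hq, Polynomial.coeff_add]
    split_ifs <;> simp
  | monomial n a =>
    have h1 : Polynomial.aeval (MvPolynomial.X 0 : MvPolynomial (Fin 2) ℝ)
        (Polynomial.monomial n a) * MvPolynomial.X 1 ^ β =
        MvPolynomial.monomial (Finsupp.single 0 n + Finsupp.single 1 β) a := by
      rw [Polynomial.aeval_monomial, MvPolynomial.algebraMap_eq, MvPolynomial.X_pow_eq_monomial,
        MvPolynomial.X_pow_eq_monomial, MvPolynomial.C_mul_monomial, MvPolynomial.monomial_mul,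
        mul_one, mul_one]
    rw [h1, MvPolynomial.coeff_monomial, Polynomial.coeff_monomial]
    by_cases hb : d 1 = β
    · rw [if_pos hb]
      by_cases hn : n = d 0
      · rw [if_pos hn, if_pos]
        ext i
        fin_cases i
        · simp [hn]
        · simp [hb]
      · rw [if_neg hn, if_neg]
        intro h
        apply hn
        have := congrArg (fun f => f 0) h
        simpa using this
    · rw [if_neg hb, if_neg]
      intro h
      apply hb
      have := congrArg (fun f => f 1) h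
      simpa using this.symm

theorem FoldRow.mem_xv {f : Polynomial ℝ} {β : ℕ} {d : Fin 2 →₀ ℕ} (h : d ∈ (xv f β).support) :
    d 1 = β ∧ d 0 ≤ f.natDegree := by
  rw [MvPolynomial.mem_support_iff, FoldRow.coeff_xv] at h
  by_cases hb : d 1 = β
  · rw [if_pos hb] at h
    exact ⟨hb, Polynomial.le_natDegree_of_ne_zero h⟩
  · rw [if_neg hb] at h
    exact absurd rfl h

theorem FoldRow.inRow_xv {L : ℕ} {N : ℕ → ℕ} {f : Polynomial ℝ} {β : ℕ} (hβ : β < L)
    (hf : f.natDegree ≤ N β) : InRow L N (xv f β) := by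
  intro d hd
  obtain ⟨h1, h2⟩ := FoldRow.mem_xv hd
  rw [h1]
  exact ⟨hβ, h2.trans hf⟩

theorem FoldRow.inRow_zero {L : ℕ} {N : ℕ → ℕ} : InRow L N (0 : MvPolynomial (Fin 2) ℝ) := by
  intro d hd
  rw [MvPolynomial.support_zero] at hd
  exact absurd hd (Finset.notMem_empty _)

theorem FoldRow.eval_xv (f : Polynomial ℝ) (β : ℕ) (x y : ℝ) :
    MvPolynomial.eval ![x, y] (xv f β) = f.eval x * y ^ β := by
  unfold xv
  rw [map_mul, map_pow, MvPolynomial.eval_X]
  congr 1
  induction f using Polynomial.induction_on' with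
  | add p q hp hq => rw [map_add, map_add, hp, hq, Polynomial.eval_add]
  | monomial n a =>
    rw [Polynomial.aeval_monomial, MvPolynomial.algebraMap_eq, map_mul, map_pow,
      MvPolynomial.eval_C, MvPolynomial.eval_X, Polynomial.eval_monomial]
    rfl

theorem FoldRow.lt_rows {L : ℕ} {N : ℕ → ℕ} (hN : Antitone N) {i k : ℕ} (h : k < rows L N i) :
    k < L ∧ i ≤ N (k - 1) := by
  by_contra hcon
  have hsub : (Finset.range L).filter (fun k => i ≤ N (k - 1)) ⊆ Finset.range k := by
    intro k' hk'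
    rw [Finset.mem_filter, Finset.mem_range] at hk'
    rw [Finset.mem_range]
    by_contra hlt
    apply hcon
    refine ⟨by omega, hk'.2.trans (hN (by omega))⟩
  have h1 := Finset.card_le_card hsub
  rw [Finset.card_range] at h1
  unfold rows at h
  omega

theorem FoldRow.natDegree_lagr {L : ℕ} {N : ℕ → ℕ} (hN : Antitone N) {i k : ℕ} (hi : i < N 0)
    (h : k < rows L N i) : (lagr N k i).natDegree ≤ N (k - 1) := by
  obtain ⟨-, h2⟩ := FoldRow.lt_rows hN h
  unfold lagr
  refine (Polynomial.natDegree_prod_le _ _).trans ?_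
  have h3 : ∀ i' ∈ (Finset.range (min (N 0) (N (k - 1) + 1))).erase i,
      (Polynomial.C (((i : ℝ) - (i' : ℝ))⁻¹) *
        (Polynomial.X - Polynomial.C (i' : ℝ))).natDegree ≤ 1 := by
    intro i' _
    refine (Polynomial.natDegree_C_mul_le _ _).trans ?_
    rw [Polynomial.natDegree_X_sub_C]
  refine (Finset.sum_le_sum h3).trans ?_
  rw [Finset.sum_const, smul_eq_mul, mul_one, Finset.card_erase_of_mem, Finset.card_range]
  · have := min_le_right (N 0) (N (k - 1) + 1)
    omega
  · rw [Finset.mem_range, lt_min_iff]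
    omega

theorem FoldRow.natDegree_bb (ν : ℕ) : (bb ν).natDegree ≤ ν := by
  unfold bb
  refine (Polynomial.natDegree_prod_le _ _).trans ?_
  have h3 : ∀ i ∈ Finset.range ν,
      (Polynomial.X - Polynomial.C (i : ℝ)).natDegree ≤ 1 := by
    intro i _
    rw [Polynomial.natDegree_X_sub_C]
  refine (Finset.sum_le_sum h3).trans ?_
  simp

/-! ### the statements -/

theorem InRow.add {L : ℕ} {N : ℕ → ℕ} {P Q : MvPolynomial (Fin 2) ℝ} (hP : InRow L N P)
    (hQ : InRow L N Q) : InRow L N (P + Q) := by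
  intro d hd
  have h := MvPolynomial.support_add hd
  rw [Finset.mem_union] at h
  rcases h with h | h
  · exact hP d h
  · exact hQ d h

theorem InRow.C_mul {L : ℕ} {N : ℕ → ℕ} {P : MvPolynomial (Fin 2) ℝ} (hP : InRow L N P)
    (c : ℝ) : InRow L N (MvPolynomial.C c * P) := by
  intro d hd
  apply hP d
  rw [MvPolynomial.mem_support_iff] at hd ⊢
  rw [MvPolynomial.coeff_C_mul] at hd
  exact right_ne_zero_of_mul hd

theorem InRow.sum {ι : Type*} {L : ℕ} {N : ℕ → ℕ} (S : Finset ι)
    {P : ι → MvPolynomial (Fin 2) ℝ} (hP : ∀ i ∈ S, InRow L N (P i)) :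
    InRow L N (∑ i ∈ S, P i) := by
  classical
  induction S using Finset.induction_on with
  | empty => rw [Finset.sum_empty]; exact FoldRow.inRow_zero
  | insert a s ha ih =>
    rw [Finset.sum_insert ha]
    exact (hP a (Finset.mem_insert_self a s)).add
      (ih (fun i hi => hP i (Finset.mem_insert_of_mem hi)))

theorem InRow.degree_le {L : ℕ} {N : ℕ → ℕ} (hN : Antitone N) {P : MvPolynomial (Fin 2) ℝ}
    (hP : InRow L N P) : P.totalDegree ≤ N 0 + L := by
  unfold MvPolynomial.totalDegree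
  apply Finset.sup_le
  intro d hd
  obtain ⟨h1, h2⟩ := hP d hd
  have h3 := hN (Nat.zero_le (d 1))
  rw [Finsupp.sum_fintype _ _ (fun _ => rfl), Fin.sum_univ_two]
  omega

theorem pertP_inRow {L : ℕ} {N : ℕ → ℕ} (hN : Antitone N) (s : Idx L N) :
    InRow (2 * L + 2) (fun j => N (j / 2 - 1)) (pertP L N s) := by
  unfold pertP
  split_ifs with h
  · exact FoldRow.inRow_zero
  · have h1 := s.2.2
    have h2 : (s.2 : ℕ) + 1 - rows L N s.1 < rows L N s.1 := by omega
    have h3 := FoldRow.lt_rows hN h2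
    apply FoldRow.inRow_xv
    · omega
    · change _ ≤ N (2 * ((s.2 : ℕ) + 1 - rows L N s.1) / 2 - 1)
      rw [Nat.mul_div_cancel_left _ (by norm_num)]
      exact FoldRow.natDegree_lagr hN s.1.2 h2

theorem pertQ_inRow {L : ℕ} {N : ℕ → ℕ} (hN : Antitone N) (s : Idx L N) :
    InRow (2 * L + 2) (fun j => N (j / 2 - 1)) (pertQ L N s) := by
  unfold pertQ
  split_ifs with h
  · have h3 := FoldRow.lt_rows hN h
    apply FoldRow.inRow_xv
    · omega
    · change _ ≤ N ((2 * (s.2 : ℕ) + 1) / 2 - 1)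
      have h4 : (2 * (s.2 : ℕ) + 1) / 2 = (s.2 : ℕ) := by omega
      rw [h4]
      exact FoldRow.natDegree_lagr hN s.1.2 h
  · exact FoldRow.inRow_zero

theorem eval_pertP {L : ℕ} {N : ℕ → ℕ} (s : Idx L N) (x : ℝ) :
    MvPolynomial.eval ![x, 0] (pertP L N s) = 0 := by
  unfold pertP
  split_ifs with h
  · exact map_zero _
  · rw [FoldRow.eval_xv, zero_pow (by omega), mul_zero]

theorem eval_pertQ {L : ℕ} {N : ℕ → ℕ} (s : Idx L N) (x : ℝ) :
    MvPolynomial.eval ![x, 0] (pertQ L N s) = 0 := by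
  unfold pertQ
  split_ifs with h
  · rw [FoldRow.eval_xv, zero_pow (by omega), mul_zero]
  · exact map_zero _

theorem exP_inRow {L : ℕ} {N : ℕ → ℕ} (hL : 1 ≤ L) (e : ℝ) :
    InRow (2 * L + 2) (fun j => N (j / 2 - 1)) (exP N e) := by
  unfold exP
  apply InRow.C_mul
  apply FoldRow.inRow_xv
  · omega
  · change _ ≤ N (1 / 2 - 1)
    refine (Polynomial.natDegree_derivative_le _).trans ?_
    have := FoldRow.natDegree_bb (N 0)
    norm_num
    omega

theorem FoldRow.inRow_pow {L : ℕ} {N : ℕ → ℕ} :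
    InRow (2 * L + 2) (fun j => N (j / 2 - 1))
      (MvPolynomial.X 1 ^ (2 * L) : MvPolynomial (Fin 2) ℝ) := by
  have h : (MvPolynomial.X 1 ^ (2 * L) : MvPolynomial (Fin 2) ℝ) = xv 1 (2 * L) := by
    unfold xv
    rw [map_one, one_mul]
  rw [h]
  apply FoldRow.inRow_xv
  · omega
  · rw [Polynomial.natDegree_one]
    exact Nat.zero_le _

theorem exQ_inRow {L : ℕ} {N : ℕ → ℕ} (hL : 1 ≤ L) (e κ : ℝ) :
    InRow (2 * L + 2) (fun j => N (j / 2 - 1)) (exQ L N e κ) := by
  unfold exQ
  apply InRow.add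
  · apply FoldRow.inRow_xv
    · omega
    · exact FoldRow.natDegree_bb (N 0)
  · exact InRow.C_mul FoldRow.inRow_pow _

theorem ex_adm {L : ℕ} {N : ℕ → ℕ} (hL : 1 ≤ L) (e κ : ℝ) :
    Adm (N 0) e 1 (exP N e) (exQ L N e κ) := by
  have hpow : (MvPolynomial.X 1 ^ (2 * L) : MvPolynomial (Fin 2) ℝ) = xv 1 (2 * L) := by
    unfold xv
    rw [map_one, one_mul]
  refine ⟨?_, ?_, ?_, ?_⟩
  · intro d hd
    unfold exP at hd
    rw [MvPolynomial.mem_support_iff, MvPolynomial.coeff_C_mul] at hd
    have h1 := (FoldRow.mem_xv (MvPolynomial.mem_support_iff.mpr (right_ne_zero_of_mul hd))).1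
    rw [h1]
    exact odd_one
  · intro d hd
    unfold exQ at hd
    have h := MvPolynomial.support_add hd
    rw [Finset.mem_union] at h
    rcases h with h | h
    · rw [(FoldRow.mem_xv h).1]
      exact Even.zero
    · rw [hpow, MvPolynomial.mem_support_iff, MvPolynomial.coeff_C_mul] at h
      have h1 := (FoldRow.mem_xv (MvPolynomial.mem_support_iff.mpr (right_ne_zero_of_mul h))).1
      rw [h1]
      exact even_two_mul L
  · intro i
    unfold exP
    rw [MvPolynomial.coeff_C_mul, FoldRow.coeff_xv]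
    simp
  · intro i
    unfold exQ
    rw [hpow, MvPolynomial.coeff_add, MvPolynomial.coeff_C_mul, FoldRow.coeff_xv,
      FoldRow.coeff_xv]
    have h1 : ((Finsupp.single 0 i : Fin 2 →₀ ℕ) 1) = 0 := by simp
    rw [h1, if_pos rfl, if_neg (by omega)]
    simp

theorem Adm.convex {ν : ℕ} {e c0 : ℝ} {P0 Q0 P1 Q1 : MvPolynomial (Fin 2) ℝ}
    (h0 : Adm ν e c0 P0 Q0) (h1 : Adm ν e 1 P1 Q1) (t : ℝ) :
    Adm ν e ((1 - t) * c0 + t) (MvPolynomial.C (1 - t) * P0 + MvPolynomial.C t * P1)
      (MvPolynomial.C (1 - t) * Q0 + MvPolynomial.C t * Q1) := by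
  have key : ∀ (r s : ℝ) (A B : MvPolynomial (Fin 2) ℝ) (d : Fin 2 →₀ ℕ),
      d ∈ (MvPolynomial.C r * A + MvPolynomial.C s * B).support →
      d ∈ A.support ∨ d ∈ B.support := by
    intro r s A B d hd
    have h := MvPolynomial.support_add hd
    rw [Finset.mem_union] at h
    rcases h with h | h
    · left
      rw [MvPolynomial.mem_support_iff, MvPolynomial.coeff_C_mul] at h
      exact MvPolynomial.mem_support_iff.mpr (right_ne_zero_of_mul h)
    · right
      rw [MvPolynomial.mem_support_iff, MvPolynomial.coeff_C_mul] at h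
      exact MvPolynomial.mem_support_iff.mpr (right_ne_zero_of_mul h)
  refine ⟨?_, ?_, ?_, ?_⟩
  · intro d hd
    rcases key _ _ _ _ d hd with h | h
    · exact h0.odd d h
    · exact h1.odd d h
  · intro d hd
    rcases key _ _ _ _ d hd with h | h
    · exact h0.even d h
    · exact h1.even d h
  · intro i
    rw [MvPolynomial.coeff_add, MvPolynomial.coeff_C_mul, MvPolynomial.coeff_C_mul, h0.rowP,
      h1.rowP]
    ring
  · intro i
    rw [MvPolynomial.coeff_add, MvPolynomial.coeff_C_mul, MvPolynomial.coeff_C_mul, h0.rowQ,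
      h1.rowQ]
    ring

theorem le_rowNumber {L : ℕ} {N : ℕ → ℕ} {P Q : MvPolynomial (Fin 2) ℝ} (hP : InRow L N P)
    (hQ : InRow L N Q) (F : Finset (Set (ℝ × ℝ)))
    (hF : ∀ C ∈ F, IsLimitCycle (vf P Q) C) : (F.card : ℕ∞) ≤ rowNumber L N := by
  have h1 : (F.card : ℕ∞) ≤ {C | IsLimitCycle (vf P Q) C}.encard := by
    rw [← Set.encard_coe_eq_coe_finsetCard]
    exact Set.encard_le_encard (fun C hC => hF C hC)
  unfold rowNumber
  exact h1.trans (le_iSup_of_le P (le_iSup_of_le Q (le_iSup_of_le hP (le_iSup_of_le hQ le_rfl))))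

theorem exists_of_le_rowNumber {L M : ℕ} {N : ℕ → ℕ} (h : (M : ℕ∞) ≤ rowNumber L N) :
    ∃ P Q : MvPolynomial (Fin 2) ℝ, InRow L N P ∧ InRow L N Q ∧
      ∃ F : Finset (Set (ℝ × ℝ)), F.card = M ∧ ∀ C ∈ F, IsLimitCycle (vf P Q) C := by
  have key : ∃ P Q : MvPolynomial (Fin 2) ℝ, InRow L N P ∧ InRow L N Q ∧
      (M : ℕ∞) ≤ {C | IsLimitCycle (vf P Q) C}.encard := by
    rcases Nat.eq_zero_or_pos M with h0 | h0
    · subst h0
      exact ⟨0, 0, FoldRow.inRow_zero, FoldRow.inRow_zero, by simp⟩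
    · by_contra hcon
      push Not at hcon
      have h1 : rowNumber L N ≤ ((M - 1 : ℕ) : ℕ∞) := by
        unfold rowNumber
        refine iSup_le fun P => iSup_le fun Q => iSup_le fun hP => iSup_le fun hQ => ?_
        have h2 := hcon P Q hP hQ
        have h3 : (M : ℕ∞) = ((M - 1 : ℕ) : ℕ∞) + 1 := by
          have : M = (M - 1) + 1 := by omega
          exact_mod_cast this
        rw [h3] at h2
        exact Order.lt_add_one_iff_of_not_isMax (by simp) |>.mp h2
      have h4 := h.trans h1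
      have h5 : M ≤ M - 1 := by exact_mod_cast h4
      omega
  obtain ⟨P, Q, hP, hQ, hM⟩ := key
  obtain ⟨T, hT, hTc⟩ := Set.exists_subset_encard_eq hM
  have hfin : T.Finite := Set.finite_of_encard_eq_coe hTc
  refine ⟨P, Q, hP, hQ, hfin.toFinset, ?_, ?_⟩
  · have h1 : (hfin.toFinset.card : ℕ∞) = M := by
      rw [← Set.encard_coe_eq_coe_finsetCard, Set.Finite.coe_toFinset, hTc]
    exact_mod_cast h1
  · intro C hC
    rw [Set.Finite.mem_toFinset] at hC
    exact hT hC

end Pool.Agent.Lib.MP_95e7ec_an
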