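import Mathlib
import Pool.Agent.Lib.MP_95e7ec_an.Defs

/-!
# Affine substitutions in coefficient arrays
-/

set_option autoImplicit false

open Set Filter Topology

namespace Pool.Agent.Lib.MP_95e7ec_an

/-- A polynomial of degree at most `D` given by its coefficients is determined by its values. -/
theorem coeff_unique {D : ℕ} {f g : Fin (D + 1) → ℝ}
    (h : ∀ x : ℝ, ∑ a : Fin (D + 1), f a * x ^ (a : ℕ) = ∑ a : Fin (D + 1), g a * x ^ (a : ℕ)) :
    f = g := by
  classical
  set P : (Fin (D + 1) → ℝ) → Polynomial ℝ := fun f =>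
    ∑ a : Fin (D + 1), Polynomial.C (f a) * Polynomial.X ^ (a : ℕ) with hP
  have hev : ∀ (f : Fin (D + 1) → ℝ) (x : ℝ), (P f).eval x =
      ∑ a : Fin (D + 1), f a * x ^ (a : ℕ) := by
    intro f x
    simp [hP, Polynomial.eval_finsetSum]
  have hco : ∀ (f : Fin (D + 1) → ℝ) (a : Fin (D + 1)), (P f).coeff (a : ℕ) = f a := by
    intro f a
    simp only [hP, Polynomial.finsetSum_coeff, Polynomial.coeff_C_mul, Polynomial.coeff_X_pow]
    rw [Finset.sum_eq_single a]
    · simp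
    · intro b _ hb
      have : (a : ℕ) ≠ (b : ℕ) := fun h => hb (Fin.ext h.symm)
      simp [this]
    · simp
  have hPe : P f = P g := Polynomial.funext fun x => by rw [hev, hev, h x]
  funext a
  rw [← hco f a, ← hco g a, hPe]

theorem pe_injective {D : ℕ} {c c' : Co D} (h : ∀ x y : ℝ, pe c x y = pe c' x y) : c = c' := by
  have h1 : ∀ y : ℝ, (fun a => ∑ b : Fin (D + 1), c a b * y ^ (b : ℕ)) =
      fun a => ∑ b : Fin (D + 1), c' a b * y ^ (b : ℕ) := by
    intro y
    apply coeff_unique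
    intro x
    have h2 := h x y
    simp only [pe, smul_eq_mul] at h2
    have h3 : ∀ c : Co D, ∑ a : Fin (D + 1), (∑ b : Fin (D + 1), c a b * y ^ (b : ℕ)) *
        x ^ (a : ℕ) = ∑ a : Fin (D + 1), ∑ b : Fin (D + 1), c a b * (x ^ (a : ℕ) * y ^ (b : ℕ)) := by
      intro c
      refine Finset.sum_congr rfl fun a _ => ?_
      rw [Finset.sum_mul]
      exact Finset.sum_congr rfl fun b _ => by ring
    rw [h3, h3]
    exact h2
  funext a
  apply coeff_unique
  intro y
  exact congrFun (h1 y) a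

/-- the power `(p0 + p1 x)^a` -/
theorem affine_pow {D : ℕ} (p0 p1 x : ℝ) (a : Fin (D + 1)) :
    (p0 + p1 * x) ^ (a : ℕ) = ∑ a' : Fin (D + 1),
      ((Polynomial.C p0 + Polynomial.C p1 * Polynomial.X) ^ (a : ℕ) : Polynomial ℝ).coeff (a' : ℕ) *
        x ^ (a' : ℕ) := by
  set f : Polynomial ℝ := (Polynomial.C p0 + Polynomial.C p1 * Polynomial.X) ^ (a : ℕ) with hf
  have h1 : f.eval x = (p0 + p1 * x) ^ (a : ℕ) := by simp [hf]
  have hdeg : f.natDegree < D + 1 := by
    have h2 : (Polynomial.C p0 + Polynomial.C p1 * Polynomial.X : Polynomial ℝ).natDegree ≤ 1 := by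
      compute_degree
    have h3 : f.natDegree ≤ (a : ℕ) * 1 := Polynomial.natDegree_pow_le_of_le _ h2
    have := a.2
    omega
  rw [← h1, Polynomial.eval_eq_sum_range' hdeg, Finset.sum_range]

theorem exists_subArr (D : ℕ) (p0 p1 q0 q1 : ℝ) :
    ∃ T : Co D →L[ℝ] Co D, ∀ (c : Co D) (x y : ℝ),
      pe (T c) x y = pe c (p0 + p1 * x) (q0 + q1 * y) := by
  set u : Fin (D + 1) → Fin (D + 1) → ℝ := fun a a' =>
    ((Polynomial.C p0 + Polynomial.C p1 * Polynomial.X) ^ (a : ℕ) : Polynomial ℝ).coeff (a' : ℕ)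
  set v : Fin (D + 1) → Fin (D + 1) → ℝ := fun b b' =>
    ((Polynomial.C q0 + Polynomial.C q1 * Polynomial.X) ^ (b : ℕ) : Polynomial ℝ).coeff (b' : ℕ)
  let Tl : Co D →ₗ[ℝ] Co D :=
    { toFun := fun c a' b' => ∑ a, ∑ b, c a b * (u a a' * v b b')
      map_add' := by
        intro c c'
        funext a' b'
        simp only [Pi.add_apply, add_mul, Finset.sum_add_distrib]
      map_smul' := by
        intro r c
        funext a' b'
        simp only [Pi.smul_apply, smul_eq_mul, RingHom.id_apply, Finset.mul_sum, mul_assoc] }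
  refine ⟨LinearMap.toContinuousLinearMap Tl, ?_⟩
  intro c x y
  have h1 : ∀ a' b', (LinearMap.toContinuousLinearMap Tl) c a' b' =
      ∑ a, ∑ b, c a b * (u a a' * v b b') := fun a' b' => rfl
  simp only [pe, h1, smul_eq_mul]
  have h2 : ∀ a b : Fin (D + 1), (p0 + p1 * x) ^ (a : ℕ) * (q0 + q1 * y) ^ (b : ℕ) =
      ∑ a', ∑ b', (u a a' * v b b') * (x ^ (a' : ℕ) * y ^ (b' : ℕ)) := by
    intro a b
    rw [affine_pow p0 p1 x a, affine_pow q0 q1 y b, Finset.sum_mul_sum]
    refine Finset.sum_congr rfl fun a' _ => Finset.sum_congr rfl fun b' _ => ?_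
    ring
  simp only [h2, Finset.sum_mul, Finset.mul_sum]
  -- exchange the sums
  have h3 : ∀ F : Fin (D + 1) → Fin (D + 1) → Fin (D + 1) → Fin (D + 1) → ℝ,
      ∑ a', ∑ b', ∑ a, ∑ b, F a' b' a b = ∑ a, ∑ b, ∑ a', ∑ b', F a' b' a b := by
    intro F
    calc ∑ a', ∑ b', ∑ a, ∑ b, F a' b' a b = ∑ a', ∑ a, ∑ b', ∑ b, F a' b' a b := by
          refine Finset.sum_congr rfl fun a' _ => Finset.sum_comm
      _ = ∑ a, ∑ a', ∑ b', ∑ b, F a' b' a b := Finset.sum_comm
      _ = ∑ a, ∑ a', ∑ b, ∑ b', F a' b' a b := by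
          refine Finset.sum_congr rfl fun a _ => Finset.sum_congr rfl fun a' _ => Finset.sum_comm
      _ = ∑ a, ∑ b, ∑ a', ∑ b', F a' b' a b := by
          refine Finset.sum_congr rfl fun a _ => Finset.sum_comm
  rw [h3]
  refine Finset.sum_congr rfl fun a _ => Finset.sum_congr rfl fun b _ =>
    Finset.sum_congr rfl fun a' _ => Finset.sum_congr rfl fun b' _ => ?_
  ring

end Pool.Agent.Lib.MP_95e7ec_an
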