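import Mathlib
import Pool.Agent.Lib.MP_95e7ec_an.FoldChartMap
import Pool.Agent.Lib.MP_95e7ec_an.FoldSubst
import Pool.Agent.Lib.MP_95e7ec_an.FoldFam
import Pool.Agent.Lib.MP_95e7ec_an.FoldRow
import Pool.Agent.Lib.MP_95e7ec_an.Glue5

/-!
# Folding a field with many limit cycles
-/

set_option autoImplicit false

open Set Filter Topology

namespace Pool.Agent.Lib.MP_95e7ec_an

theorem pe_smul_fe {D : ℕ} (r : ℝ) (c : Co D) (x y : ℝ) : pe (r • c) x y = r * pe c x y := by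
  simp only [pe, Pi.smul_apply, smul_eq_mul, Finset.mul_sum]
  exact Finset.sum_congr rfl fun a _ => Finset.sum_congr rfl fun b _ => by ring

/-- Transport of the limit cycles of the zoomed field. -/
theorem cycles_of_zoom {D M : ℕ} {ε R s : ℝ} (hε : 0 < ε) (hs : s * s = 1) (hR : ε * R < 1 / 2)
    {T : Co D →L[ℝ] Co D}
    (hT : ∀ (c : Co D) (x y : ℝ), pe (T c) x y = pe c (0 + ε * x) (s + (s * ε) * y)) {μ : Pr D}
    (h : Has (((s * ε⁻¹) • T μ.1, ε⁻¹ • T μ.2) : Pr D) R M) :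
    ∃ F : Finset (Set (ℝ × ℝ)), M ≤ F.card ∧
      ∀ C ∈ F, IsLimitCycle (vfc μ) C ∧ ∀ z ∈ C, |z.2 - s| < 1 / 2 := by
  classical
  have hs0 : s ≠ 0 := fun h0 => by rw [h0] at hs; norm_num at hs
  have hsabs : |s| = 1 := by
    have h1 : |s| * |s| = 1 := by rw [← abs_mul, hs, abs_one]
    nlinarith [abs_nonneg s]
  obtain ⟨F', hF'c, hF'⟩ := h
  set φ : ℝ × ℝ → ℝ × ℝ := fun z => (0 + ε * z.1, s + (s * ε) * z.2) with hφ
  have hinj : Function.Injective φ := by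
    intro z w hzw
    simp only [hφ, Prod.mk.injEq, add_right_inj] at hzw
    exact Prod.ext (mul_left_cancel₀ hε.ne' hzw.1) (mul_left_cancel₀ (mul_ne_zero hs0 hε.ne') hzw.2)
  refine ⟨F'.image (fun C => φ '' C), ?_, ?_⟩
  · rw [Finset.card_image_of_injective _ (Set.image_injective.2 hinj)]
    exact hF'c
  · intro C hC
    obtain ⟨C', hC', rfl⟩ := Finset.mem_image.1 hC
    obtain ⟨h1, h2⟩ := hF' C' hC'
    refine ⟨?_, ?_⟩
    · refine IsLimitCycle.chart (v := vfc μ) 0 s ε (s * ε) s hε.ne' (mul_ne_zero hs0 hε.ne') hs0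
        ?_ h1
      intro z
      simp only [vfc, pe_smul_fe, hT]
      apply Prod.ext
      · simp only
        field_simp
      · simp only
        field_simp
    · rintro z ⟨w, hw, rfl⟩
      have h3 := h2 hw
      rw [mem_ball_zero_iff] at h3
      have h4 : |w.2| < R := lt_of_le_of_lt (norm_snd_le w) h3
      simp only [hφ, add_sub_cancel_left, abs_mul, hsabs, one_mul, abs_of_pos hε]
      calc ε * |w.2| ≤ ε * R := mul_le_mul_of_nonneg_left h4.le hε.le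
        _ < 1 / 2 := hR

theorem zoom_arr {D : ℕ} {ν : ℕ} {e ε s : ℝ} (hε : 0 < ε) (hs : s * s = 1)
    {A B : MvPolynomial (Fin 2) ℝ} (hP : (foldP ν e ε A).totalDegree ≤ D)
    (hQ : (foldQ ν ε B).totalDegree ≤ D) (hP' : (famP ν e ε A).totalDegree ≤ D)
    (hQ' : (famQ ν ε B).totalDegree ≤ D)
    {T : Co D →L[ℝ] Co D}
    (hT : ∀ (c : Co D) (x y : ℝ), pe (T c) x y = pe c (0 + ε * x) (s + (s * ε) * y)) :
    (((s * ε⁻¹) • T (arr D (foldP ν e ε A)), ε⁻¹ • T (arr D (foldQ ν ε B))) : Pr D) =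
      (arr D (famP ν e ε A), arr D (famQ ν ε B)) := by
  have e1 : ∀ y : ℝ, s + (s * ε) * y = s * (1 + ε * y) := fun y => by ring
  apply Prod.ext
  · apply pe_injective
    intro x y
    simp only
    rw [pe_smul_fe, hT, ← eval_eq_pe _ hP, ← eval_eq_pe _ hP', zero_add, e1,
      eval_foldP ν e hε.ne' hs]
    have : s * ε⁻¹ * (s * ε * MvPolynomial.eval ![x, y] (famP ν e ε A)) =
      (s * s) * (ε⁻¹ * ε) * MvPolynomial.eval ![x, y] (famP ν e ε A) := by ring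
    rw [this, hs, inv_mul_cancel₀ hε.ne', one_mul, one_mul]
  · apply pe_injective
    intro x y
    simp only
    rw [pe_smul_fe, hT, ← eval_eq_pe _ hQ, ← eval_eq_pe _ hQ', zero_add, e1,
      eval_foldQ ν hε.ne' hs, ← mul_assoc, inv_mul_cancel₀ hε.ne', one_mul]

theorem exists_fold {D L M : ℕ} {N : ℕ → ℕ} (hL : 1 ≤ L) (hN : Antitone N)
    (hD : N 0 + 4 * L ≤ D) (hM : (M : ℕ∞) ≤ rowNumber L N) (e : ℝ) :
    ∃ (c : ℝ) (P Q : MvPolynomial (Fin 2) ℝ), 0 < c ∧ Adm (N 0) e c P Q ∧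
      InRow (2 * L + 2) (fun j => N (j / 2 - 1)) P ∧
      InRow (2 * L + 2) (fun j => N (j / 2 - 1)) Q ∧
      ∀ᶠ μ in 𝓝 ((arr D P, arr D Q) : Pr D), ∃ F : Finset (Set (ℝ × ℝ)), 2 * M ≤ F.card ∧
        ∀ C ∈ F, IsLimitCycle (vfc μ) C ∧ ∀ z ∈ C, 1 / 2 < |z.2| := by
  classical
  obtain ⟨A0, B0, hA0, hB0, F, hFc, hF⟩ := exists_of_le_rowNumber hM
  have hdA0 : A0.totalDegree ≤ D := (hA0.degree_le hN).trans (by omega)
  have hdB0 : B0.totalDegree ≤ D := (hB0.degree_le hN).trans (by omega)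
  obtain ⟨s0, R, hrob⟩ := robust_poly hdA0 hdB0 F hF
  obtain ⟨θ, hθ⟩ := hrob.exists
  set A := A0 - MvPolynomial.C (s0 * θ) * B0 with hA
  set B := B0 + MvPolynomial.C (s0 * θ) * A0 with hB
  have hAr : InRow L N A := by
    have : A = A0 + MvPolynomial.C (-(s0 * θ)) * B0 := by
      rw [hA, MvPolynomial.C_neg]; ring
    rw [this]
    exact hA0.add (hB0.C_mul _)
  have hBr : InRow L N B := hB0.add (hA0.C_mul _)
  obtain ⟨U, hU, hUo, hUm⟩ := eventually_nhds_iff.1 hθ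
  have hN' : Antitone fun j => N (j / 2 - 1) := fun j j' h => hN (by omega)
  have hdeg : ∀ R : MvPolynomial (Fin 2) ℝ, InRow (2 * L + 2) (fun j => N (j / 2 - 1)) R →
      R.totalDegree ≤ D := by
    intro R hR
    refine (hR.degree_le hN').trans ?_
    simp only [Nat.zero_div, Nat.zero_sub]
    omega
  -- the choice of ε
  have hc1 : Tendsto (fun ε : ℝ => ((arr D (famP (N 0) e ε A), arr D (famQ (N 0) ε B)) : Pr D))
      (𝓝[>] 0) (𝓝 (arr D A, arr D B)) := by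
    have h1 := (contFam_famP (N 0) e A).tendsto_arr D
    have h2 := (contFam_famQ (N 0) B).tendsto_arr D
    have h3 := (h1.prodMk h2).tendsto 0
    simp only [famP_zero, famQ_zero] at h3
    exact h3.mono_left nhdsWithin_le_nhds
  have hc2 : ∀ᶠ ε in 𝓝[>] (0 : ℝ), ε * R < 1 / 2 := by
    have h1 : Tendsto (fun ε : ℝ => ε * R) (𝓝[>] 0) (𝓝 0) := by
      have h2 : Continuous fun ε : ℝ => ε * R := by fun_prop
      have h3 := h2.tendsto 0
      rw [zero_mul] at h3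
      exact h3.mono_left nhdsWithin_le_nhds
    exact h1.eventually (gt_mem_nhds (by norm_num))
  have hc3 : ∀ᶠ ε in 𝓝[>] (0 : ℝ), 0 < ε := self_mem_nhdsWithin
  obtain ⟨ε, ⟨hεU, hεR⟩, hε⟩ := (((hc1.eventually (hUo.mem_nhds hUm)).and hc2).and hc3).exists
  have hPr := foldP_inRow hL hN hAr e ε
  have hQr := foldQ_inRow hL hN hBr ε
  refine ⟨ε ^ 2, foldP (N 0) e ε A, foldQ (N 0) ε B, by positivity, fold_adm _ _ _ _ _, hPr, hQr,
    ?_⟩
  have key : ∀ s : ℝ, s * s = 1 → ∀ᶠ μ in 𝓝 ((arr D (foldP (N 0) e ε A),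
      arr D (foldQ (N 0) ε B)) : Pr D), ∃ F : Finset (Set (ℝ × ℝ)), M ≤ F.card ∧
        ∀ C ∈ F, IsLimitCycle (vfc μ) C ∧ ∀ z ∈ C, |z.2 - s| < 1 / 2 := by
    intro s hs
    obtain ⟨T, hT⟩ := exists_subArr D 0 ε s (s * ε)
    have h1 : Continuous (fun μ : Pr D => (((s * ε⁻¹) • T μ.1, ε⁻¹ • T μ.2) : Pr D)) := by
      fun_prop
    have h2 := (h1.tendsto (arr D (foldP (N 0) e ε A), arr D (foldQ (N 0) ε B)))
    simp only at h2
    rw [zoom_arr hε hs (hdeg _ hPr) (hdeg _ hQr) (famP_degree hL hN hD hAr e ε)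
      (famQ_degree hL hN hD hBr ε) hT] at h2
    filter_upwards [h2.eventually (hUo.mem_nhds hεU)] with μ hμ
    refine cycles_of_zoom hε hs hεR hT ?_
    have h3 := hU _ hμ
    rw [hFc] at h3
    exact h3
  filter_upwards [key 1 (by norm_num), key (-1) (by norm_num)] with μ h1 h2
  obtain ⟨F1, hF1c, hF1⟩ := h1
  obtain ⟨F2, hF2c, hF2⟩ := h2
  have hdisj : Disjoint F1 F2 := by
    rw [Finset.disjoint_left]
    intro C hC hC'
    obtain ⟨z, hz⟩ := (hF1 C hC).1.1.nonempty'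
    have h1 := (hF1 C hC).2 z hz
    have h2 := (hF2 C hC').2 z hz
    rw [abs_lt] at h1 h2
    linarith
  refine ⟨F1 ∪ F2, ?_, ?_⟩
  · rw [Finset.card_union_of_disjoint hdisj]
    omega
  · intro C hC
    rcases Finset.mem_union.1 hC with h | h
    · refine ⟨(hF1 C h).1, fun z hz => ?_⟩
      have h1 := (hF1 C h).2 z hz
      rw [abs_lt] at h1
      exact lt_of_lt_of_le (by linarith) (le_abs_self _)
    · refine ⟨(hF2 C h).1, fun z hz => ?_⟩
      have h1 := (hF2 C h).2 z hz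
      rw [abs_lt] at h1
      exact lt_of_lt_of_le (by linarith) (neg_le_abs _)

end Pool.Agent.Lib.MP_95e7ec_an
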