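import Mathlib
import Pool.Agent.Lib.MP_95e7ec_an.FoldDefs
import Pool.Agent.Lib.MP_95e7ec_an.Affine

/-!
# Folding a planar polynomial system: row classes and the Hilbert numbers
-/

set_option autoImplicit false

open Set Filter Topology

namespace Pool.Agent.Lib.MP_95e7ec_an

theorem foldHilbert_degree_le_iff (n : ℕ) (P : MvPolynomial (Fin 2) ℝ) :
    P.totalDegree ≤ n ↔ ∀ d ∈ P.support, d 0 + d 1 ≤ n := by
  unfold MvPolynomial.totalDegree
  rw [Finset.sup_le_iff]
  refine forall₂_congr fun d _ => ?_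
  rw [Finsupp.sum_fintype _ _ (fun _ => rfl), Fin.sum_univ_two]

theorem foldHilbert_inRow_iff (n : ℕ) (P : MvPolynomial (Fin 2) ℝ) :
    InRow (n + 1) (fun k => n - k) P ↔ P.totalDegree ≤ n := by
  rw [foldHilbert_degree_le_iff]
  unfold InRow
  refine forall₂_congr fun d _ => ?_
  dsimp only
  omega

theorem hilbert_eq_row (n : ℕ) : hilbertNumber n = rowNumber (n + 1) (fun k => n - k) := by
  unfold hilbertNumber rowNumber
  simp only [foldHilbert_inRow_iff]

/-- exchange of the variables -/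
noncomputable def foldHilbertSwap (P : MvPolynomial (Fin 2) ℝ) : MvPolynomial (Fin 2) ℝ :=
  MvPolynomial.rename (Equiv.swap (0 : Fin 2) 1) P

theorem foldHilbert_eval_swap (P : MvPolynomial (Fin 2) ℝ) (x y : ℝ) :
    MvPolynomial.eval ![x, y] (foldHilbertSwap P) = MvPolynomial.eval ![y, x] P := by
  unfold foldHilbertSwap
  rw [MvPolynomial.eval_rename]
  congr 2
  funext i
  fin_cases i <;> simp

theorem foldHilbert_support_swap {P : MvPolynomial (Fin 2) ℝ} {d : Fin 2 →₀ ℕ}
    (hd : d ∈ (foldHilbertSwap P).support) :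
    ∃ d' ∈ P.support, d 0 = d' 1 ∧ d 1 = d' 0 := by
  classical
  unfold foldHilbertSwap at hd
  rw [MvPolynomial.support_rename_of_injective (Equiv.injective _), Finset.mem_image] at hd
  obtain ⟨d', hd', rfl⟩ := hd
  refine ⟨d', hd', ?_, ?_⟩
  · simp
  · simp

theorem foldHilbert_cycle_swap {P Q : MvPolynomial (Fin 2) ℝ} {C : Set (ℝ × ℝ)}
    (h : IsLimitCycle (vf P Q) C) :
    IsLimitCycle (vf (foldHilbertSwap Q) (foldHilbertSwap P))
      ((fun y : ℝ × ℝ => (y.2, y.1)) '' C) := by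
  have h1 := IsLimitCycle.affine (v := vf (foldHilbertSwap Q) (foldHilbertSwap P)) (C := C) 0
    (ContinuousLinearEquiv.prodComm ℝ ℝ ℝ) 1 one_pos (by
      have h2 : (fun y : ℝ × ℝ => (1 : ℝ) • (ContinuousLinearEquiv.prodComm ℝ ℝ ℝ).symm
          (vf (foldHilbertSwap Q) (foldHilbertSwap P)
            (0 + (ContinuousLinearEquiv.prodComm ℝ ℝ ℝ) y))) = vf P Q := by
        funext y
        rw [zero_add, one_smul]
        refine Prod.ext ?_ ?_
        · show MvPolynomial.eval ![y.2, y.1] (foldHilbertSwap P) = MvPolynomial.eval ![y.1, y.2] P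
          rw [foldHilbert_eval_swap]
        · show MvPolynomial.eval ![y.2, y.1] (foldHilbertSwap Q) = MvPolynomial.eval ![y.1, y.2] Q
          rw [foldHilbert_eval_swap]
      rw [h2]
      exact h)
  have h3 : (fun y : ℝ × ℝ => (0 : ℝ × ℝ) + (ContinuousLinearEquiv.prodComm ℝ ℝ ℝ) y) =
      fun y : ℝ × ℝ => (y.2, y.1) := by
    funext y
    rw [zero_add]
    rfl
  rw [h3] at h1
  exact h1

theorem row_swap (n : ℕ) : rowNumber (2 * (n + 1) + 2) (fun j => n - (j / 2 - 1)) ≤
    rowNumber (n + 1) (fun i => 2 * n + 3 - 2 * i) := by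
  unfold rowNumber
  refine iSup_le fun P => iSup_le fun Q => iSup_le fun hP => iSup_le fun hQ => ?_
  have hrow : ∀ R : MvPolynomial (Fin 2) ℝ,
      InRow (2 * (n + 1) + 2) (fun j => n - (j / 2 - 1)) R →
      InRow (n + 1) (fun i => 2 * n + 3 - 2 * i) (foldHilbertSwap R) := by
    intro R hR d hd
    obtain ⟨d', hd', h0, h1⟩ := foldHilbert_support_swap hd
    obtain ⟨h2, h3⟩ := hR d' hd'
    dsimp only at h3 ⊢
    omega
  refine le_trans ?_ (le_iSup_of_le (foldHilbertSwap Q) (le_iSup_of_le (foldHilbertSwap P)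
    (le_iSup_of_le (hrow Q hQ) (le_iSup_of_le (hrow P hP) le_rfl))))
  have hinj : Function.Injective fun C : Set (ℝ × ℝ) => (fun y : ℝ × ℝ => (y.2, y.1)) '' C := by
    apply Set.image_injective.2
    intro y z hyz
    simp only [Prod.mk.injEq] at hyz
    exact Prod.ext hyz.2 hyz.1
  rw [← hinj.encard_image]
  apply Set.encard_le_encard
  rintro _ ⟨C, hC, rfl⟩
  exact foldHilbert_cycle_swap hC

theorem row_le_hilbert (n : ℕ) :
    rowNumber (2 * (n + 1) + 2) (fun j => 2 * n + 3 - 2 * (j / 2 - 1)) ≤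
      hilbertNumber (2 * n + 6) := by
  unfold rowNumber hilbertNumber
  refine iSup_le fun P => iSup_le fun Q => iSup_le fun hP => iSup_le fun hQ => ?_
  have hrow : ∀ R : MvPolynomial (Fin 2) ℝ,
      InRow (2 * (n + 1) + 2) (fun j => 2 * n + 3 - 2 * (j / 2 - 1)) R →
      R.totalDegree ≤ 2 * n + 6 := by
    intro R hR
    rw [foldHilbert_degree_le_iff]
    intro d hd
    obtain ⟨h2, h3⟩ := hR d hd
    dsimp only at h3
    omega
  exact le_iSup_of_le P (le_iSup_of_le Q (le_iSup_of_le (hrow P hP)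
    (le_iSup_of_le (hrow Q hQ) le_rfl)))

end Pool.Agent.Lib.MP_95e7ec_an
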