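import Mathlib
import Pool.Agent.Lib.MP_95e7ec_an.FoldCen
import Pool.Agent.Lib.MP_95e7ec_an.FoldRow

/-!
# Nondegenerate fields near a folded field
-/

set_option autoImplicit false

open Set Filter Topology
open scoped ContDiff

namespace Pool.Agent.Lib.MP_95e7ec_an

/-- Identity theorem on an interval. -/
theorem exists_ne_of_analytic {f : ℝ → ℝ} {S : Set ℝ} (hS : IsPreconnected S)
    (hf : AnalyticOnNhd ℝ f S) {x1 : ℝ} (hx1 : x1 ∈ S) (h1 : f x1 ≠ 0) {u v : ℝ} (huv : u < v)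
    (hsub : Set.Ioo u v ⊆ S) : ∃ x ∈ Set.Ioo u v, f x ≠ 0 := by
  by_contra hcon
  push Not at hcon
  have hx0 : (u + v) / 2 ∈ Set.Ioo u v := ⟨by linarith, by linarith⟩
  have hev : f =ᶠ[𝓝 ((u + v) / 2)] 0 := by
    filter_upwards [isOpen_Ioo.mem_nhds hx0] with x hx
    exact hcon x hx
  exact h1 (hf.eqOn_zero_of_preconnected_of_eventuallyEq_zero hS (hsub hx0) hev hx1)

theorem analyticAt_clm_apply' {E F G : Type*} [NormedAddCommGroup E] [NormedSpace ℝ E]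
    [NormedAddCommGroup F] [NormedSpace ℝ F] [NormedAddCommGroup G] [NormedSpace ℝ G]
    [CompleteSpace F] [CompleteSpace G]
    {f : E → (F →L[ℝ] G)} {g : E → F} {x : E} (hf : AnalyticAt ℝ f x) (hg : AnalyticAt ℝ g x) :
    AnalyticAt ℝ (fun y => f y (g y)) x := by
  have h1 : ContDiffAt ℝ ω f x := hf.contDiffAt
  have h2 : ContDiffAt ℝ ω g x := hg.contDiffAt
  exact (h1.clm_apply h2).analyticAt

theorem analyticAt_det' {ι : Type*} [Fintype ι] [DecidableEq ι] {M : ℝ → Matrix ι ι ℝ} {x : ℝ}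
    (h : ∀ r s, AnalyticAt ℝ (fun y => M y r s) x) : AnalyticAt ℝ (fun y => (M y).det) x := by
  simp only [Matrix.det_apply]
  refine Finset.analyticAt_fun_sum _ fun σ _ => ?_
  have h1 : AnalyticAt ℝ (fun y => ∏ i, M y (σ i) i) x :=
    Finset.analyticAt_fun_prod _ fun i _ => h _ _
  have h2 : (fun y => Equiv.Perm.sign σ • ∏ i, M y (σ i) i) =
      fun y => ((Equiv.Perm.sign σ : ℤ) : ℝ) * ∏ i, M y (σ i) i := by
    funext y
    rw [Units.smul_def, zsmul_eq_mul]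
  rw [h2]
  exact analyticAt_const.mul h1

theorem continuous_cArr (D : ℕ) (x0 e : ℝ) (P : MvPolynomial (Fin 2) ℝ) :
    Continuous fun a : ℝ => cArr D x0 e a P := by
  unfold cArr
  fun_prop

section family
variable {D ν : ℕ} {e c0 : ℝ} {P0 Q0 P1 Q1 : MvPolynomial (Fin 2) ℝ}

theorem cen_family_eq (D ν : ℕ) (e c : ℝ) (i : ℕ) (a t : ℝ)
    (P0 Q0 P1 Q1 : MvPolynomial (Fin 2) ℝ) :
    cen D ν e c i a (MvPolynomial.C (1 - t) * P0 + MvPolynomial.C t * P1)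
      (MvPolynomial.C (1 - t) * Q0 + MvPolynomial.C t * Q1) =
      ((c * e * bd ν i * e)⁻¹ • ((1 - t) • cArr D i e a P0 + t • cArr D i e a P1),
        (c * e * bd ν i)⁻¹ • ((1 - t) • cArr D i e a Q0 + t • cArr D i e a Q1)) := by
  unfold cen centreArr
  rw [cArr_add, cArr_add, cArr_C_mul, cArr_C_mul, cArr_C_mul, cArr_C_mul]

theorem continuousAt_family (D : ℕ) {ν : ℕ} {e c0 : ℝ} (he : 0 < e) (hc0 : 0 < c0) {i : ℕ}
    (hi : i < ν) (P0 Q0 P1 Q1 : MvPolynomial (Fin 2) ℝ) {a t : ℝ} (ht : t ∈ Set.Icc (0 : ℝ) 1) :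
    ContinuousAt (fun z : ℝ × ℝ => cen D ν e ((1 - z.2) * c0 + z.2) i z.1
      (MvPolynomial.C (1 - z.2) * P0 + MvPolynomial.C z.2 * P1)
      (MvPolynomial.C (1 - z.2) * Q0 + MvPolynomial.C z.2 * Q1)) (a, t) := by
  simp only [cen_family_eq]
  have hc : 0 < (1 - t) * c0 + t := by
    rcases eq_or_lt_of_le ht.1 with h | h
    · rw [← h]; simpa using hc0
    · have : 0 ≤ (1 - t) * c0 := mul_nonneg (by linarith [ht.2]) hc0.le
      linarith
  have hb := bd_ne_zero hi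
  have hw : ((1 - t) * c0 + t) * e * bd ν i ≠ 0 := mul_ne_zero (mul_ne_zero hc.ne' he.ne') hb
  have hw2 : ((1 - t) * c0 + t) * e * bd ν i * e ≠ 0 := mul_ne_zero hw he.ne'
  have k1 : ContinuousAt (fun z : ℝ × ℝ => (((1 - z.2) * c0 + z.2) * e * bd ν i * e)⁻¹) (a, t) :=
    ContinuousAt.inv₀ (by fun_prop) hw2
  have k2 : ContinuousAt (fun z : ℝ × ℝ => (((1 - z.2) * c0 + z.2) * e * bd ν i)⁻¹) (a, t) :=
    ContinuousAt.inv₀ (by fun_prop) hw
  have k3 : ∀ P P' : MvPolynomial (Fin 2) ℝ, Continuous (fun z : ℝ × ℝ =>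
      (1 - z.2) • cArr D (i : ℝ) e z.1 P + z.2 • cArr D (i : ℝ) e z.1 P') := by
    intro P P'
    have h1 := (continuous_cArr D i e P).comp (continuous_fst (X := ℝ) (Y := ℝ))
    have h2 := (continuous_cArr D i e P').comp (continuous_fst (X := ℝ) (Y := ℝ))
    exact ((continuous_const.sub continuous_snd).smul h1).add (continuous_snd.smul h2)
  exact (k1.smul (k3 P0 P1).continuousAt).prodMk (k2.smul (k3 Q0 Q1).continuousAt)

theorem analyticAt_family (D : ℕ) {ν : ℕ} {e c0 : ℝ} (he : 0 < e) (hc0 : 0 < c0) {i : ℕ}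
    (hi : i < ν) {f0 f1 g0 g1 : Co D} {t : ℝ} (ht : t ∈ Set.Icc (0 : ℝ) 1) :
    AnalyticAt ℝ (fun t : ℝ => (((((1 - t) * c0 + t) * e * bd ν i * e)⁻¹ • ((1 - t) • f0 + t • f1),
        (((1 - t) * c0 + t) * e * bd ν i)⁻¹ • ((1 - t) • g0 + t • g1)) : Pr D)) t := by
  have hc : 0 < (1 - t) * c0 + t := by
    rcases eq_or_lt_of_le ht.1 with h | h
    · rw [← h]; simpa using hc0
    · have : 0 ≤ (1 - t) * c0 := mul_nonneg (by linarith [ht.2]) hc0.le
      linarith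
  have hb := bd_ne_zero hi
  have hw : ((1 - t) * c0 + t) * e * bd ν i ≠ 0 := mul_ne_zero (mul_ne_zero hc.ne' he.ne') hb
  have hw2 : ((1 - t) * c0 + t) * e * bd ν i * e ≠ 0 := mul_ne_zero hw he.ne'
  have k1 : AnalyticAt ℝ (fun t : ℝ => (((1 - t) * c0 + t) * e * bd ν i * e)⁻¹) t :=
    AnalyticAt.inv (by fun_prop) hw2
  have k2 : AnalyticAt ℝ (fun t : ℝ => (((1 - t) * c0 + t) * e * bd ν i)⁻¹) t :=
    AnalyticAt.inv (by fun_prop) hw
  have k3 : ∀ f f' : Co D, AnalyticAt ℝ (fun t : ℝ => (1 - t) • f + t • f') t := by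
    intro f f'
    have h1 : AnalyticAt ℝ (fun t : ℝ => 1 - t) t := by fun_prop
    exact (h1.smul analyticAt_const).add (analyticAt_id.smul analyticAt_const)
  exact (k1.smul (k3 f0 f1)).prod (k2.smul (k3 g0 g1))

end family

theorem exists_good {D L : ℕ} {N : ℕ → ℕ} (Ch : CentreChart D) (hL : 1 ≤ L) (hD : 1 ≤ D)
    {e c0 : ℝ} (he : 0 < e) (hc0 : 0 < c0) {P0 Q0 P1 Q1 : MvPolynomial (Fin 2) ℝ}
    (h0 : Adm (N 0) e c0 P0 Q0) (h1 : Adm (N 0) e 1 P1 Q1)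
    (hnb : ∀ i < N 0, ∀ a ∈ Set.Icc (0 : ℝ) 1, cen D (N 0) e 1 i a P1 Q1 ∈ Ch.nbhd)
    (hdet : (MM Ch L N e 1 1 P1 Q1).det ≠ 0) {δ : ℝ} (hδ : 0 < δ) :
    ∃ t α : ℝ, 0 < t ∧ t < δ ∧ t < 1 ∧ 0 < α ∧ α < δ ∧ α < 1 ∧
      (∀ i < N 0, ∀ a ∈ Set.Ioc (0 : ℝ) α, cen D (N 0) e ((1 - t) * c0 + t) i a
        (MvPolynomial.C (1 - t) * P0 + MvPolynomial.C t * P1)
        (MvPolynomial.C (1 - t) * Q0 + MvPolynomial.C t * Q1) ∈ Ch.nbhd) ∧
      (MM Ch L N e ((1 - t) * c0 + t) α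
        (MvPolynomial.C (1 - t) * P0 + MvPolynomial.C t * P1)
        (MvPolynomial.C (1 - t) * Q0 + MvPolynomial.C t * Q1)).det ≠ 0 := by
  classical
  have hLpos : (0 : ℝ) < L := by exact_mod_cast hL
  have hampp : ∀ l : ℕ, 0 < amp L l := fun l => by unfold amp; positivity
  have hamp1 : ∀ r : Idx L N, amp L (r.2 : ℕ) ≤ 1 := by
    intro r
    unfold amp
    rw [div_le_one (by positivity)]
    have h2 : rows L N (r.1 : ℕ) ≤ L := by
      unfold rows
      exact (Finset.card_filter_le _ _).trans (by simp)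
    have h3 := r.2.2
    have h4 : ((r.2 : ℕ) : ℕ) + 1 ≤ 2 * L := by omega
    exact_mod_cast h4
  -- the arrays stay in the neighbourhood for small amplitudes
  have hsmall : ∀ᶠ a in 𝓝 (0 : ℝ), ∀ i ∈ Finset.range (N 0), ∀ t ∈ Set.Icc (0 : ℝ) 1,
      cen D (N 0) e ((1 - t) * c0 + t) i a
        (MvPolynomial.C (1 - t) * P0 + MvPolynomial.C t * P1)
        (MvPolynomial.C (1 - t) * Q0 + MvPolynomial.C t * Q1) ∈ Ch.nbhd := by
    rw [Filter.eventually_all_finset]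
    intro i hi
    have hi' : i < N 0 := Finset.mem_range.1 hi
    refine isCompact_Icc.eventually_forall_of_forall_eventually (fun t ht => ?_)
    have hc := continuousAt_family D he hc0 hi' P0 Q0 P1 Q1 (a := 0) ht
    refine hc.eventually_mem ?_
    have hadm : Adm (N 0) e ((1 - t) * c0 + t)
        (MvPolynomial.C (1 - t) * P0 + MvPolynomial.C t * P1)
        (MvPolynomial.C (1 - t) * Q0 + MvPolynomial.C t * Q1) := h0.convex h1 t
    have hcpos : 0 < (1 - t) * c0 + t := by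
      rcases eq_or_lt_of_le ht.1 with h | h
      · rw [← h]; simpa using hc0
      · have : 0 ≤ (1 - t) * c0 := mul_nonneg (by linarith [ht.2]) hc0.le
        linarith
    simp only
    rw [hadm.cen_zero he.ne' hcpos.ne' hi' hD]
    exact Ch.isOpen.mem_nhds Ch.mem
  obtain ⟨α0, hα0, hα0mem⟩ := Metric.eventually_nhds_iff.1 hsmall
  set m : ℝ := min (min δ α0) 1 with hm
  have hmpos : 0 < m := lt_min (lt_min hδ hα0) one_pos
  have hm1 : m ≤ 1 := min_le_right _ _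
  have hmδ : m ≤ δ := (min_le_left _ _).trans (min_le_left _ _)
  have hmα : m ≤ α0 := (min_le_left _ _).trans (min_le_right _ _)
  -- step 1: choice of α
  have hana1 : AnalyticOnNhd ℝ (fun α : ℝ => (MM Ch L N e 1 α P1 Q1).det) (Set.Ioc 0 1) := by
    intro α hα
    refine analyticAt_det' fun r s => ?_
    have hmem : cen D (N 0) e 1 r.1 (α * amp L r.2) P1 Q1 ∈ Ch.nbhd := by
      refine hnb r.1 r.1.2 _ ⟨(mul_pos hα.1 (hampp _)).le, ?_⟩
      exact mul_le_one₀ hα.2 (hampp _).le (hamp1 r)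
    have hlin : AnalyticAt ℝ (fun α : ℝ => α * amp L r.2) α := by fun_prop
    have e1 : AnalyticAt ℝ (fun α : ℝ => cen D (N 0) e 1 r.1 (α * amp L r.2) P1 Q1) α :=
      AnalyticAt.comp (g := fun a => cen D (N 0) e 1 r.1 a P1 Q1)
        (f := fun α : ℝ => α * amp L r.2)
        (analytic_cen D (N 0) e 1 r.1 P1 Q1 (α * amp L r.2)) hlin
    have e2 : AnalyticAt ℝ (fun α : ℝ => cen D (N 0) e 1 r.1 (α * amp L r.2) (pertP L N s)
        (pertQ L N s)) α :=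
      AnalyticAt.comp (g := fun a => cen D (N 0) e 1 r.1 a (pertP L N s) (pertQ L N s))
        (f := fun α : ℝ => α * amp L r.2)
        (analytic_cen D (N 0) e 1 r.1 _ _ (α * amp L r.2)) hlin
    have e3 : AnalyticAt ℝ (fun α : ℝ => fderiv ℝ Ch.disp
        (cen D (N 0) e 1 r.1 (α * amp L r.2) P1 Q1)) α :=
      AnalyticAt.comp (g := fderiv ℝ Ch.disp)
        (f := fun α : ℝ => cen D (N 0) e 1 r.1 (α * amp L r.2) P1 Q1)
        (Ch.analytic _ hmem).fderiv e1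
    exact analyticAt_clm_apply' e3 e2
  obtain ⟨α, hα, hαdet⟩ := exists_ne_of_analytic (convex_Ioc (0 : ℝ) 1).isPreconnected hana1
    (x1 := 1) ⟨one_pos, le_rfl⟩ hdet hmpos
    (fun x hx => ⟨hx.1, hx.2.le.trans hm1⟩)
  have hmemα : ∀ i < N 0, ∀ a ∈ Set.Icc (0 : ℝ) α, ∀ t ∈ Set.Icc (0 : ℝ) 1,
      cen D (N 0) e ((1 - t) * c0 + t) i a
        (MvPolynomial.C (1 - t) * P0 + MvPolynomial.C t * P1)
        (MvPolynomial.C (1 - t) * Q0 + MvPolynomial.C t * Q1) ∈ Ch.nbhd := by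
    intro i hi a ha t ht
    refine hα0mem ?_ i (Finset.mem_range.2 hi) t ht
    rw [Real.dist_eq, sub_zero, abs_of_nonneg ha.1]
    exact lt_of_le_of_lt ha.2 (lt_of_lt_of_le hα.2 hmα)
  -- step 2: choice of t
  have hana2 : AnalyticOnNhd ℝ (fun t : ℝ => (MM Ch L N e ((1 - t) * c0 + t) α
        (MvPolynomial.C (1 - t) * P0 + MvPolynomial.C t * P1)
        (MvPolynomial.C (1 - t) * Q0 + MvPolynomial.C t * Q1)).det) (Set.Icc 0 1) := by
    intro t ht
    refine analyticAt_det' fun r s => ?_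
    have hmem := hmemα r.1 r.1.2 (α * amp L r.2) ⟨(mul_pos hα.1 (hampp _)).le,
      (mul_le_mul_of_nonneg_left (hamp1 r) hα.1.le).trans (mul_one α).le⟩ t ht
    have e1 := analyticAt_family D he hc0 r.1.2
      (f0 := cArr D (r.1 : ℕ) e (α * amp L r.2) P0) (f1 := cArr D (r.1 : ℕ) e (α * amp L r.2) P1)
      (g0 := cArr D (r.1 : ℕ) e (α * amp L r.2) Q0) (g1 := cArr D (r.1 : ℕ) e (α * amp L r.2) Q1) ht
    have e2 := analyticAt_family D he hc0 r.1.2
      (f0 := cArr D (r.1 : ℕ) e (α * amp L r.2) (pertP L N s))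
      (f1 := cArr D (r.1 : ℕ) e (α * amp L r.2) (pertP L N s))
      (g0 := cArr D (r.1 : ℕ) e (α * amp L r.2) (pertQ L N s))
      (g1 := cArr D (r.1 : ℕ) e (α * amp L r.2) (pertQ L N s)) ht
    simp only [← cen_family_eq] at e1
    have e2' : AnalyticAt ℝ (fun t : ℝ => cen D (N 0) e ((1 - t) * c0 + t) r.1 (α * amp L r.2)
        (pertP L N s) (pertQ L N s)) t := by
      refine e2.congr (Filter.Eventually.of_forall fun u => ?_)
      simp only [cen, centreArr, ← add_smul, sub_add_cancel, one_smul]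
    have e3 : AnalyticAt ℝ (fun t : ℝ => fderiv ℝ Ch.disp
        (cen D (N 0) e ((1 - t) * c0 + t) r.1 (α * amp L r.2)
        (MvPolynomial.C (1 - t) * P0 + MvPolynomial.C t * P1)
        (MvPolynomial.C (1 - t) * Q0 + MvPolynomial.C t * Q1))) t :=
      AnalyticAt.comp (g := fderiv ℝ Ch.disp) (Ch.analytic _ hmem).fderiv e1
    exact analyticAt_clm_apply' e3 e2'
  obtain ⟨t, ht, htdet⟩ := exists_ne_of_analytic (convex_Icc (0 : ℝ) 1).isPreconnected hana2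
    (x1 := 1) ⟨zero_le_one, le_rfl⟩ (by simpa using hαdet)
    (u := 0) (v := min δ 1) (lt_min hδ one_pos)
    (fun x hx => ⟨hx.1.le, hx.2.le.trans (min_le_right _ _)⟩)
  refine ⟨t, α, ht.1, lt_of_lt_of_le ht.2 (min_le_left _ _), lt_of_lt_of_le ht.2 (min_le_right _ _),
    hα.1, lt_of_lt_of_le hα.2 hmδ, lt_of_lt_of_le hα.2 hm1, ?_, htdet⟩
  intro i hi a ha
  exact hmemα i hi a ⟨ha.1.le, ha.2⟩ t ⟨ht.1.le, ht.2.le.trans (min_le_right _ _)⟩

end Pool.Agent.Lib.MP_95e7ec_an
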