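import Mathlib
import Pool.Agent.Lib.MP_95e7ec_an.FoldCen
import Pool.Agent.Lib.MP_95e7ec_an.FoldCycles
import Pool.Agent.Lib.MP_95e7ec_an.FoldExample
import Pool.Agent.Lib.MP_95e7ec_an.FoldExists
import Pool.Agent.Lib.MP_95e7ec_an.FoldGood
import Pool.Agent.Lib.MP_95e7ec_an.FoldRow
import Pool.Agent.Lib.MP_95e7ec_an.FoldChart

/-!
# The fold theorem
-/

set_option autoImplicit false

open Set Filter Topology

namespace Pool.Agent.Lib.MP_95e7ec_an

theorem cen_zero_zero (D ν : ℕ) (e c : ℝ) (i : ℕ) (a : ℝ) : cen D ν e c i a 0 0 = 0 := by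
  have h := cen_C_mul D ν e c i a 0 0 0
  simpa using h

theorem cen_sum {ι : Type*} (S : Finset ι) (D ν : ℕ) (e c : ℝ) (i : ℕ) (a : ℝ) (g : ι → ℝ)
    (P Q : ι → MvPolynomial (Fin 2) ℝ) :
    cen D ν e c i a (∑ s ∈ S, MvPolynomial.C (g s) * P s) (∑ s ∈ S, MvPolynomial.C (g s) * Q s) =
      ∑ s ∈ S, g s • cen D ν e c i a (P s) (Q s) := by
  classical
  induction S using Finset.induction_on with
  | empty => simpa using cen_zero_zero D ν e c i a
  | insert s S hs ih =>
    rw [Finset.sum_insert hs, Finset.sum_insert hs, Finset.sum_insert hs, cen_add, cen_C_mul, ih]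

theorem amp_pos {L : ℕ} (hL : 1 ≤ L) (l : ℕ) : 0 < amp L l := by
  unfold amp
  have : (0 : ℝ) < L := by exact_mod_cast hL
  positivity

theorem amp_strictMono {L : ℕ} (hL : 1 ≤ L) : StrictMono (amp L) := by
  intro l l' h
  unfold amp
  have h1 : (0 : ℝ) < L := by exact_mod_cast hL
  have h2 : (l : ℝ) < l' := by exact_mod_cast h
  gcongr

theorem rows_le (L : ℕ) (N : ℕ → ℕ) (i : ℕ) : rows L N i ≤ L := by
  unfold rows
  exact (Finset.card_filter_le _ _).trans (by simp)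

theorem rows_pos {L : ℕ} (hL : 1 ≤ L) (N : ℕ → ℕ) {i : ℕ} (hi : i < N 0) : 1 ≤ rows L N i := by
  unfold rows
  rw [Nat.succ_le_iff, Finset.card_pos]
  exact ⟨0, by simp only [Finset.mem_filter, Finset.mem_range]; exact ⟨by omega, by simpa using hi.le⟩⟩

theorem fold_aux {L M : ℕ} {N : ℕ → ℕ} (hL : 1 ≤ L) (hN : Antitone N)
    (hM : (M : ℕ∞) ≤ rowNumber L N) :
    ((2 * M + ∑ i ∈ Finset.range (N 0), (2 * rows L N i - 2) : ℕ) : ℕ∞) ≤
      rowNumber (2 * L + 2) (fun j => N (j / 2 - 1)) := by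
  classical
  set D := N 0 + 4 * L with hD
  have hN' : Antitone fun j => N (j / 2 - 1) := fun j j' h => hN (by omega)
  obtain ⟨Ch⟩ := exists_centreChart (D := D) (by omega)
  obtain ⟨e, κ, he, he1, hnb, hdet⟩ := exists_example Ch hL hN le_rfl
  obtain ⟨c0, P0, Q0, hc0, hadm0, hP0, hQ0, hev⟩ := exists_fold hL hN (le_refl D) hM e
  set P1 := exP N e with hP1
  set Q1 := exQ L N e κ with hQ1
  -- the neighbourhood
  obtain ⟨W, hW, hWo, hWm⟩ := eventually_nhds_iff.1 hev
  have hc1 : Tendsto (fun t : ℝ => ((arr D (MvPolynomial.C (1 - t) * P0 + MvPolynomial.C t * P1),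
      arr D (MvPolynomial.C (1 - t) * Q0 + MvPolynomial.C t * Q1)) : Pr D)) (𝓝[>] 0)
      (𝓝 (arr D P0, arr D Q0)) := by
    have h1 : Continuous (fun t : ℝ => (((1 - t) • arr D P0 + t • arr D P1,
      (1 - t) • arr D Q0 + t • arr D Q1) : Pr D)) := by fun_prop
    have h2 := (h1.tendsto 0).mono_left (nhdsWithin_le_nhds (s := Set.Ioi (0 : ℝ)))
    simp only [sub_zero, one_smul, zero_smul, add_zero] at h2
    refine h2.congr fun t => ?_
    rw [arr_add, arr_add, arr_C_mul, arr_C_mul, arr_C_mul, arr_C_mul]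
  obtain ⟨δ, hδ, hδW⟩ : ∃ δ > 0, ∀ t ∈ Set.Ioo (0 : ℝ) δ,
      ((arr D (MvPolynomial.C (1 - t) * P0 + MvPolynomial.C t * P1),
      arr D (MvPolynomial.C (1 - t) * Q0 + MvPolynomial.C t * Q1)) : Pr D) ∈ W := by
    have h1 := hc1.eventually (hWo.mem_nhds hWm)
    obtain ⟨δ, hδ, h2⟩ := mem_nhdsGT_iff_exists_Ioo_subset.1 h1
    exact ⟨δ, hδ, fun t ht => h2 ht⟩
  obtain ⟨t, α, ht0, htδ, ht1, hα0, hαδ, hα1, hnbt, hdett⟩ := exists_good Ch hL (by omega) he hc0
    hadm0 (ex_adm hL e κ) hnb hdet (δ := min δ (1 / 8)) (by positivity)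
  rw [← hP1, ← hQ1] at hnbt hdett
  set c := (1 - t) * c0 + t with hc
  have hcpos : 0 < c := by
    have : 0 < (1 - t) * c0 := mul_pos (by linarith) hc0
    linarith
  set P := MvPolynomial.C (1 - t) * P0 + MvPolynomial.C t * P1 with hP
  set Q := MvPolynomial.C (1 - t) * Q0 + MvPolynomial.C t * Q1 with hQ
  have hadm : Adm (N 0) e c P Q := hadm0.convex (ex_adm hL e κ) t
  have hPr : InRow (2 * L + 2) (fun j => N (j / 2 - 1)) P :=
    (hP0.C_mul _).add ((exP_inRow hL e).C_mul _)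
  have hQr : InRow (2 * L + 2) (fun j => N (j / 2 - 1)) Q :=
    (hQ0.C_mul _).add ((exQ_inRow hL e κ).C_mul _)
  -- the perturbation
  set Mt := MM Ch L N e c α P Q with hMt
  have hunit : IsUnit Mt.det := isUnit_iff_ne_zero.2 hdett
  let v : Idx L N → ℝ := fun r => (-1) ^ (r.2 : ℕ)
  let g : Idx L N → ℝ := Mt⁻¹.mulVec v
  have hg : Mt.mulVec g = v := by
    simp only [g, Matrix.mulVec_mulVec, Matrix.mul_nonsing_inv _ hunit, Matrix.one_mulVec]
  let p : MvPolynomial (Fin 2) ℝ := ∑ s, MvPolynomial.C (g s) * pertP L N s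
  let q : MvPolynomial (Fin 2) ℝ := ∑ s, MvPolynomial.C (g s) * pertQ L N s
  have hpr : InRow (2 * L + 2) (fun j => N (j / 2 - 1)) p :=
    InRow.sum _ fun s _ => (pertP_inRow hN s).C_mul _
  have hqr : InRow (2 * L + 2) (fun j => N (j / 2 - 1)) q :=
    InRow.sum _ fun s _ => (pertQ_inRow hN s).C_mul _
  have hdeg : ∀ R : MvPolynomial (Fin 2) ℝ, InRow (2 * L + 2) (fun j => N (j / 2 - 1)) R →
      R.totalDegree ≤ D := by
    intro R hR
    refine (hR.degree_le hN').trans ?_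
    simp only [Nat.zero_div, Nat.zero_sub]
    omega
  have hp0 : ∀ x : ℝ, MvPolynomial.eval ![x, 0] p = 0 := by
    intro x
    simp only [p, map_sum, map_mul, eval_pertP, mul_zero, Finset.sum_const_zero]
  have hq0 : ∀ x : ℝ, MvPolynomial.eval ![x, 0] q = 0 := by
    intro x
    simp only [q, map_sum, map_mul, eval_pertQ, mul_zero, Finset.sum_const_zero]
  -- the cycles at the centres
  have hcyc : ∀ i ∈ Finset.range (N 0), ∀ᶠ lam in 𝓝[>] (0 : ℝ), ∃ F : Finset (Set (ℝ × ℝ)),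
      2 * rows L N i - 2 ≤ F.card ∧ ∀ C ∈ F,
        IsLimitCycle (vf (P + MvPolynomial.C lam * p) (Q + MvPolynomial.C lam * q)) C ∧
          ∀ z ∈ C, |z.1 - i| < 2 * e * α ∧ |z.2| < 2 * α := by
    intro i hi
    have hi' : i < N 0 := Finset.mem_range.1 hi
    have hrow := rows_pos hL N hi'
    have hrow2 := rows_le L N i
    refine centre_cycles Ch he hcpos hadm (hdeg P hPr) (hdeg Q hQr) (hdeg p hpr) (hdeg q hqr)
      hp0 hq0 hi' (fun l => α * amp L l) (mul_pos hα0 (amp_pos hL 0)) ?_ ?_ ?_ ?_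
    · intro l l' h
      exact mul_lt_mul_of_pos_left (amp_strictMono hL h) hα0
    · have h1 : amp L (2 * rows L N i - 2) ≤ 1 := by
        unfold amp
        have h2 : (0 : ℝ) < L := by exact_mod_cast hL
        rw [div_le_one (by positivity)]
        have h3 : (2 * rows L N i - 2 : ℕ) + 1 ≤ 2 * L := by omega
        exact_mod_cast h3
      calc α * amp L (2 * rows L N i - 2) ≤ α * 1 := mul_le_mul_of_nonneg_left h1 hα0.le
        _ = α := mul_one _
    · exact hnbt i hi'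
    · intro l hl
      have hl' : l < 2 * rows L N i - 1 := by omega
      set r : Idx L N := ⟨⟨i, hi'⟩, ⟨l, hl'⟩⟩ with hr
      have h1 : fderiv ℝ Ch.disp (cen D (N 0) e c i (α * amp L l) P Q)
          (cen D (N 0) e c i (α * amp L l) p q) = v r := by
        rw [← hg]
        simp only [p, q, cen_sum, map_sum, map_smul, smul_eq_mul, Matrix.mulVec, dotProduct, hMt,
          MM, hr]
        exact Finset.sum_congr rfl fun s _ => mul_comm _ _
      rw [h1]
      simp only [v, hr]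
      rw [← pow_add, ← two_mul]
      simp [pow_mul]
  -- smallness of the perturbation
  have hc2 : Tendsto (fun lam : ℝ => ((arr D (P + MvPolynomial.C lam * p),
      arr D (Q + MvPolynomial.C lam * q)) : Pr D)) (𝓝[>] 0) (𝓝 (arr D P, arr D Q)) := by
    have h1 : Continuous (fun t : ℝ => ((arr D P + t • arr D p, arr D Q + t • arr D q) : Pr D)) := by
      fun_prop
    have h2 := (h1.tendsto 0).mono_left (nhdsWithin_le_nhds (s := Set.Ioi (0 : ℝ)))
    simp only [zero_smul, add_zero] at h2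
    refine h2.congr fun t => ?_
    rw [arr_add P, arr_add Q, arr_C_mul t p, arr_C_mul t q]
  have hW2 : ((arr D P, arr D Q) : Pr D) ∈ W :=
    hδW t ⟨ht0, lt_of_lt_of_le htδ (min_le_left _ _)⟩
  have hevW := hc2.eventually (hWo.mem_nhds hW2)
  have hall := (Finset.eventually_all (Finset.range (N 0))).2 hcyc
  obtain ⟨lam, hlam, hlam2⟩ := (hall.and hevW).exists
  obtain ⟨F0, hF0card, hF0⟩ := hW _ hlam2
  set P' := P + MvPolynomial.C lam * p with hP'
  set Q' := Q + MvPolynomial.C lam * q with hQ'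
  have hP'r : InRow (2 * L + 2) (fun j => N (j / 2 - 1)) P' := hPr.add (hpr.C_mul _)
  have hQ'r : InRow (2 * L + 2) (fun j => N (j / 2 - 1)) Q' := hQr.add (hqr.C_mul _)
  rw [← vf_eq_vfc (hdeg P' hP'r) (hdeg Q' hQ'r)] at hF0
  choose! Fi hFicard hFi using hlam
  have hα8 : α < 1 / 8 := lt_of_lt_of_le hαδ (min_le_right _ _)
  have hdisj1 : Disjoint F0 ((Finset.range (N 0)).biUnion Fi) := by
    rw [Finset.disjoint_left]
    intro C hC hC'
    obtain ⟨i, hi, hCi⟩ := Finset.mem_biUnion.1 hC'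
    obtain ⟨z, hz⟩ := (hF0 C hC).1.1.nonempty'
    have h1 := (hF0 C hC).2 z hz
    have h2 := ((hFi i hi C hCi).2 z hz).2
    linarith
  have hdisj2 : ∀ i ∈ Finset.range (N 0), ∀ i' ∈ Finset.range (N 0), i ≠ i' →
      Disjoint (Fi i) (Fi i') := by
    intro i hi i' hi' hne
    rw [Finset.disjoint_left]
    intro C hC hC'
    obtain ⟨z, hz⟩ := (hFi i hi C hC).1.1.nonempty'
    have h1 := ((hFi i hi C hC).2 z hz).1
    have h2 := ((hFi i' hi' C hC').2 z hz).1
    have h3 : e * α ≤ 1 * α := mul_le_mul_of_nonneg_right he1 hα0.le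
    rw [abs_lt] at h1 h2
    have h4 : (1 : ℝ) ≤ |(i : ℝ) - i'| := by
      have h5 : (1 : ℤ) ≤ |(i : ℤ) - i'| := by
        apply Int.one_le_abs
        omega
      exact_mod_cast h5
    have h6 : |(i : ℝ) - i'| < 1 := by
      rw [abs_lt]
      constructor <;> nlinarith
    linarith
  have hcard : 2 * M + ∑ i ∈ Finset.range (N 0), (2 * rows L N i - 2) ≤
      (F0 ∪ (Finset.range (N 0)).biUnion Fi).card := by
    rw [Finset.card_union_of_disjoint hdisj1, Finset.card_biUnion hdisj2]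
    exact add_le_add hF0card (Finset.sum_le_sum fun i hi => hFicard i hi)
  refine le_trans (by exact_mod_cast hcard) (le_rowNumber hP'r hQ'r
    (F0 ∪ (Finset.range (N 0)).biUnion Fi) ?_)
  intro C hC
  rcases Finset.mem_union.1 hC with h | h
  · exact (hF0 C h).1
  · obtain ⟨i, hi, hCi⟩ := Finset.mem_biUnion.1 h
    exact (hFi i hi C hCi).1

theorem fold_le {L : ℕ} {N : ℕ → ℕ} (hL : 1 ≤ L) (hN : Antitone N) :
    2 * rowNumber L N + ((∑ i ∈ Finset.range (N 0), (2 * rows L N i - 2) : ℕ) : ℕ∞) ≤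
      rowNumber (2 * L + 2) (fun j => N (j / 2 - 1)) := by
  rcases eq_or_ne (rowNumber L N) ⊤ with h | h
  · have h1 : rowNumber (2 * L + 2) (fun j => N (j / 2 - 1)) = ⊤ := by
      rw [ENat.eq_top_iff_forall_ge]
      intro m
      refine le_trans ?_ (fold_aux (M := m) hL hN (by rw [h]; exact le_top))
      exact_mod_cast (by omega : m ≤ 2 * m + ∑ i ∈ Finset.range (N 0), (2 * rows L N i - 2))
    rw [h1]; exact le_top
  · obtain ⟨M, hM⟩ := ENat.ne_top_iff_exists.1 h
    rw [← hM]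
    exact_mod_cast fold_aux (M := M) hL hN hM.le

end Pool.Agent.Lib.MP_95e7ec_an
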