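import Mathlib
import Pool.Agent.Lib.MP_95e7ec_an.FoldDefs

/-!
# The two sums (task E12b)
-/

set_option autoImplicit false

open Set Filter Topology

namespace Pool.Agent.Lib.MP_95e7ec_an

theorem fs_rows_one {n i : ℕ} (hi : i < n) :
    rows (n + 1) (fun k => n - k) i = min (n + 1) (n + 2 - i) := by
  unfold rows
  have h : (Finset.range (n + 1)).filter (fun k => i ≤ n - (k - 1)) =
      Finset.range (min (n + 1) (n + 2 - i)) := by
    ext k
    simp only [Finset.mem_filter, Finset.mem_range]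
    omega
  rw [h, Finset.card_range]

theorem fs_sum_one (n : ℕ) (m : ℕ) (hm : m ≤ n) :
    ∑ i ∈ Finset.range m, (2 * min (n + 1) (n + 2 - i) - 2) + m ^ 2 + (if m = 0 then 0 else 2) =
      (2 * n + 3) * m := by
  induction m with
  | zero => simp
  | succ m ih =>
    have ih' := ih (by omega)
    rw [Finset.sum_range_succ]
    rcases Nat.eq_zero_or_pos m with h | h
    · subst h
      simp
      omega
    · rw [if_neg (by omega)] at ih'
      rw [if_neg (by omega)]
      have h1 : 2 * min (n + 1) (n + 2 - m) - 2 = 2 * n + 2 - 2 * m := by omega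
      rw [h1]
      have h2 : 2 * n + 2 - 2 * m + 2 * m = 2 * n + 2 := by omega
      nlinarith

theorem sum_rows_one {n : ℕ} (hn : 1 ≤ n) :
    ∑ i ∈ Finset.range n, (2 * rows (n + 1) (fun k => n - k) i - 2) = n ^ 2 + 3 * n - 2 := by
  have h1 : ∑ i ∈ Finset.range n, (2 * rows (n + 1) (fun k => n - k) i - 2) =
      ∑ i ∈ Finset.range n, (2 * min (n + 1) (n + 2 - i) - 2) :=
    Finset.sum_congr rfl fun i hi => by rw [fs_rows_one (Finset.mem_range.1 hi)]
  rw [h1]
  have h2 := fs_sum_one n n le_rfl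
  rw [if_neg (by omega)] at h2
  have h3 : (2 * n + 3) * n = n ^ 2 + n ^ 2 + 3 * n := by ring
  omega

theorem fs_rows_two {n i : ℕ} (hi : i < 2 * n + 3) :
    rows (n + 1) (fun i => 2 * n + 3 - 2 * i) i = min n ((2 * n + 5 - i) / 2) + 1 := by
  unfold rows
  have h : (Finset.range (n + 1)).filter (fun k => i ≤ 2 * n + 3 - 2 * (k - 1)) =
      Finset.range (min n ((2 * n + 5 - i) / 2) + 1) := by
    ext k
    simp only [Finset.mem_filter, Finset.mem_range]
    omega
  rw [h, Finset.card_range]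

theorem fs_sum_two (p : ℕ) : ∀ q : ℕ, q ≤ p →
    ∑ i ∈ Finset.range (2 * q + 1), 2 * min (p + 1) ((i + 3) / 2) = 2 * q ^ 2 + 6 * q + 2 := by
  intro q
  induction q with
  | zero => intro _; simp
  | succ q ih =>
    intro hq
    have e : 2 * (q + 1) + 1 = (2 * q + 1) + 1 + 1 := by ring
    rw [e, Finset.sum_range_succ, Finset.sum_range_succ, ih (by omega)]
    have h1 : min (p + 1) ((2 * q + 1 + 3) / 2) = q + 2 := by omega
    have h2 : min (p + 1) ((2 * q + 1 + 1 + 3) / 2) = q + 2 := by omega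
    rw [h1, h2]
    ring

theorem sum_rows_two {n : ℕ} (hn : 1 ≤ n) :
    ∑ i ∈ Finset.range (2 * n + 3), (2 * rows (n + 1) (fun i => 2 * n + 3 - 2 * i) i - 2) =
      2 * n ^ 2 + 10 * n - 2 := by
  obtain ⟨p, rfl⟩ : ∃ p, n = p + 1 := ⟨n - 1, by omega⟩
  have h1 : ∑ i ∈ Finset.range (2 * (p + 1) + 3),
      (2 * rows (p + 1 + 1) (fun i => 2 * (p + 1) + 3 - 2 * i) i - 2) =
      ∑ i ∈ Finset.range (2 * (p + 1) + 3), 2 * min (p + 1) ((2 * (p + 1) + 5 - i) / 2) :=
    Finset.sum_congr rfl fun i hi => by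
      rw [fs_rows_two (Finset.mem_range.1 hi)]
      omega
  have h2 : ∑ i ∈ Finset.range (2 * (p + 1) + 3), 2 * min (p + 1) ((2 * (p + 1) + 5 - i) / 2) =
      ∑ i ∈ Finset.range (2 * (p + 1) + 3), 2 * min (p + 1) ((i + 3) / 2) := by
    rw [← Finset.sum_range_reflect]
    refine Finset.sum_congr rfl fun i hi => ?_
    rw [Finset.mem_range] at hi
    have : 2 * (p + 1) + 5 - (2 * (p + 1) + 3 - 1 - i) = i + 3 := by omega
    rw [this]
  have e : 2 * (p + 1) + 3 = (2 * p + 1) + 1 + 1 + 1 + 1 := by ring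
  rw [h1, h2, e, Finset.sum_range_succ, Finset.sum_range_succ, Finset.sum_range_succ,
    Finset.sum_range_succ, fs_sum_two p p le_rfl]
  have g1 : min (p + 1) ((2 * p + 1 + 3) / 2) = p + 1 := by omega
  have g2 : min (p + 1) ((2 * p + 1 + 1 + 3) / 2) = p + 1 := by omega
  have g3 : min (p + 1) ((2 * p + 1 + 1 + 1 + 3) / 2) = p + 1 := by omega
  have g4 : min (p + 1) ((2 * p + 1 + 1 + 1 + 1 + 3) / 2) = p + 1 := by omega
  rw [g1, g2, g3, g4]
  have g5 : 2 * (p + 1) ^ 2 + 10 * (p + 1) = 2 * p ^ 2 + 14 * p + 12 := by ring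
  rw [g5]
  omega

end Pool.Agent.Lib.MP_95e7ec_an
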