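import Mathlib
import Pool.Agent.Lib.MP_95e7ec_an.FoldMain
import Pool.Agent.Lib.MP_95e7ec_an.FoldHilbert
import Pool.Agent.Lib.MP_95e7ec_an.FoldSums
import Pool.Agent.Lib.MP_95e7ec_an.FoldAsymp

/-!
# The recursion for the Hilbert numbers
-/

set_option autoImplicit false

open Set Filter Topology

namespace Pool.Agent.Lib.MP_95e7ec_an

theorem hilbertNumber_mono : Monotone hilbertNumber := by
  intro n m h
  unfold hilbertNumber
  refine iSup_le fun P => iSup_le fun Q => iSup_le fun hP => iSup_le fun hQ => ?_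
  exact le_iSup_of_le P (le_iSup_of_le Q (le_iSup_of_le (hP.trans h)
    (le_iSup_of_le (hQ.trans h) le_rfl)))

theorem hilbert_recursion {n : ℕ} (hn : 1 ≤ n) :
    4 * hilbertNumber n + ((4 * n ^ 2 + 16 * n - 6 : ℕ) : ℕ∞) ≤ hilbertNumber (2 * n + 6) := by
  have h1 := fold_le (L := n + 1) (N := fun k => n - k) (by omega)
    (fun a b h => Nat.sub_le_sub_left h n)
  rw [← hilbert_eq_row] at h1
  simp only [Nat.sub_zero] at h1
  rw [sum_rows_one hn] at h1
  have h2 := h1.trans (row_swap n)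
  have h3 := fold_le (L := n + 1) (N := fun i => 2 * n + 3 - 2 * i) (by omega)
    (fun a b h => Nat.sub_le_sub_left (Nat.mul_le_mul_left 2 h) _)
  simp only [Nat.mul_zero, Nat.sub_zero] at h3
  rw [sum_rows_two hn] at h3
  have h4 := h3.trans (row_le_hilbert n)
  refine le_trans ?_ h4
  refine le_trans ?_ (add_le_add_left (mul_le_mul_right h2 2) _)
  have h5 : 4 * n ^ 2 + 16 * n - 6 = 2 * (n ^ 2 + 3 * n - 2) + (2 * n ^ 2 + 10 * n - 2) := by
    have h6 : 1 ≤ n ^ 2 := Nat.one_le_pow _ _ hn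
    omega
  rw [h5]
  push_cast
  rw [mul_add, ← mul_assoc, ← add_assoc]
  norm_num

end Pool.Agent.Lib.MP_95e7ec_an
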