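import Mathlib
import Pool.Agent.Lib.MP_95e7ec_an.PlaneDefs
import Pool.Agent.Lib.MP_95e7ec_an.Zeros
import Pool.Agent.Lib.MP_95e7ec_an.Hull

/-!
# The averaged number of closed orbits of medium length in an annulus, summed over the annuli
-/

set_option autoImplicit false

open Set Filter Topology MeasureTheory
open scoped ContDiff ENNReal

namespace Pool.Agent.Lib.MP_95e7ec_an

private theorem hs_convex_disc (z0 : ℝ × ℝ) (ρ : ℝ) : Convex ℝ (disc z0 ρ) := by
  intro z hz w hw a b ha hb hab
  simp only [disc, Set.mem_ofPred_eq] at hz hw ⊢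
  simp only [Prod.fst_add, Prod.snd_add, Prod.smul_fst, Prod.smul_snd, smul_eq_mul]
  obtain rfl : b = 1 - a := by linarith
  have h1 : (a * z.1 + (1 - a) * w.1 - z0.1) ^ 2 + (a * z.2 + (1 - a) * w.2 - z0.2) ^ 2 =
      a * ((z.1 - z0.1) ^ 2 + (z.2 - z0.2) ^ 2) + (1 - a) * ((w.1 - z0.1) ^ 2 + (w.2 - z0.2) ^ 2) -
        a * (1 - a) * ((z.1 - w.1) ^ 2 + (z.2 - w.2) ^ 2) := by ring
  rw [h1]
  have h2 : 0 ≤ a * (1 - a) * ((z.1 - w.1) ^ 2 + (z.2 - w.2) ^ 2) :=
    mul_nonneg (mul_nonneg ha hb) (by positivity)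
  rcases ha.eq_or_lt with h0 | h0
  · subst h0
    simp only [zero_mul, sub_zero, one_mul, zero_add] at *
    linarith
  · nlinarith [mul_lt_mul_of_pos_left hz h0, mul_le_mul_of_nonneg_left hw.le hb]

private theorem hs_nm_triangle (z p : ℝ × ℝ) : nm z ≤ nm p + nm (z - p) := by
  have h0 : 0 ≤ nm p := Real.sqrt_nonneg _
  have h1 : 0 ≤ nm (z - p) := Real.sqrt_nonneg _
  have h2 := nm_sq z
  have h3 := nm_sq p
  have h4 := nm_sq (z - p)
  simp only [Prod.fst_sub, Prod.snd_sub] at h4
  have h5 : p.1 * (z.1 - p.1) + p.2 * (z.2 - p.2) ≤ nm p * nm (z - p) := by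
    apply le_trans (le_abs_self _)
    apply abs_le_of_sq_le_sq _ (mul_nonneg h0 h1)
    rw [mul_pow, h3, h4]
    nlinarith [sq_nonneg (p.1 * (z.2 - p.2) - p.2 * (z.1 - p.1))]
  apply le_of_sq_le_sq _ (add_nonneg h0 h1)
  nlinarith

/-- the annuli which contain a given hull point -/
private def hsCond (k : ℕ) (p : ℝ × ℝ) : Prop :=
  nm p < 2 ^ k ∧ (k = 0 ∨ 2 ^ k / 4 ≤ nm p)

private theorem hs_cond_subset (p : ℝ × ℝ) :
    ∃ S : Finset ℕ, S.card ≤ 3 ∧ ∀ k, hsCond k p → k ∈ S := by
  classical
  by_cases h : ∃ k, 0 < k ∧ hsCond k p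
  · have hm := Nat.find_spec h
    have hmin := fun k => Nat.find_min' h (m := k)
    set k1 := Nat.find h with hk1
    refine ⟨{0, k1, k1 + 1}, Finset.card_le_three, fun k hk => ?_⟩
    rcases Nat.eq_zero_or_pos k with h0 | h0
    · simp [h0]
    · have h1 : k1 ≤ k := hmin k ⟨h0, hk⟩
      have h2 : (2 : ℝ) ^ k < 2 ^ (k1 + 2) := by
        have h3 := hk.2.resolve_left h0.ne'
        have h4 := hm.2.1
        rw [pow_add]
        linarith
      have h3 : k < k1 + 2 := (pow_lt_pow_iff_right₀ (by norm_num : (1 : ℝ) < 2)).1 h2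
      have h4 : k = k1 ∨ k = k1 + 1 := by omega
      rcases h4 with h4 | h4 <;> simp [h4]
  · push Not at h
    refine ⟨{0}, by simp, fun k hk => ?_⟩
    rcases Nat.eq_zero_or_pos k with h0 | h0
    · simp [h0]
    · exact absurd hk (h k h0)

theorem hull_scale {n : ℕ} (hn : 1 ≤ n) (P Q : MvPolynomial (Fin 2) ℝ) (hP : P.totalDegree ≤ n)
    (hQ : Q.totalDegree ≤ n) (j : ℕ) :
    ∃ a : ℕ → ℝ → ℝ≥0∞,
      (∀ k, AEMeasurable (a k) (volume.restrict (Set.Ioo 0 Real.pi))) ∧
      (∀ k α, ((annSet (turn α (vf P Q)) k (ENNReal.ofReal (2 ^ k * tsc n (j + 1)))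
        (ENNReal.ofReal (2 ^ k * tsc n j))).encard : ℝ≥0∞) ≤ a k α) ∧
      ∑' k, ∫⁻ α in Set.Ioo 0 Real.pi, a k α ≤ ENNReal.ofReal (114 * n ^ 3) := by
  classical
  have hpi := Real.pi_pos
  have hn' : (1 : ℝ) ≤ n := by exact_mod_cast hn
  by_cases h0 : P ≠ 0 ∨ Q ≠ 0
  · obtain ⟨Z, hZ, -, hhull⟩ := exists_hull_points P Q hP hQ h0
    have htpos : ∀ j, 0 < tsc n j := by
      intro j
      unfold tsc
      have := lamk_pos j
      positivity
    have htle : tsc n j ≤ 1 / 16 := by
      unfold tsc
      rw [div_le_div_iff₀ (by positivity) (by norm_num)]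
      have h1 : lamk j ^ 3 ≤ 1 := pow_le_one₀ (lamk_pos j).le (lamk_le_one j)
      nlinarith
    let A : ℕ → ℝ × ℝ → ℝ → ℝ≥0∞ := fun k p α =>
      ((lenSet (turn α (vf P Q)) (disc p (2 ^ k * tsc n j)) (ENNReal.ofReal (2 ^ k * tsc n (j + 1)))
        (ENNReal.ofReal (2 ^ k * tsc n j))).encard : ℝ≥0∞)
    have hAm : ∀ k p, AEMeasurable (A k p) (volume.restrict (Set.Ioo 0 Real.pi)) := by
      intro k p
      simp only [A]
      rw [vf_eq_vfc hP hQ]
      exact lenSet_aemeasurable _ (isOpen_disc _ _) _ _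
    have hAi : ∀ k p, ∫⁻ α in Set.Ioo 0 Real.pi, A k p α ≤ ENNReal.ofReal (38 * n) := by
      intro k p
      simp only [A]
      rw [vf_eq_vfc hP hQ]
      refine (local_count _ p (by have := htpos j; positivity)
        (by have := htpos (j + 1); positivity) _).trans (ENNReal.ofReal_le_ofReal ?_)
      have h1 : 4 * Real.pi * n * (2 ^ k * tsc n j) / (2 ^ k * tsc n (j + 1)) =
          4 * Real.pi * n * (36 / 25) ^ 3 := by
        unfold tsc lamk
        rw [pow_succ]
        have h2 : (0 : ℝ) < (25 / 36) ^ j := by positivity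
        field_simp
        ring
      rw [h1]
      have h3 := Real.pi_lt_d4
      nlinarith
    refine ⟨fun k α => ∑ p ∈ Z.filter (fun p => hsCond k p), A k p α, fun k => ?_,
      fun k α => ?_, ?_⟩
    · exact Finset.aemeasurable_fun_sum _ fun p _ => hAm k p
    · apply encard_le_sum_of_subset
      rintro C ⟨hC, hCd, hCk, hL1, hL2⟩
      obtain ⟨p, hpZ, hp⟩ := hhull α C hC
      have hcont : Continuous (turn α (vf P Q)) :=
        (contDiff_turn (contDiff_vf P Q (k := 0)) α).continuous
      have hb : 0 < 2 ^ k * tsc n j := by have := htpos j; positivity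
      refine mem_iUnion₂.2 ⟨p, ?_, ⟨hC, subset_disc_of_hull hcont hb.le (by linarith) hL2 hp⟩,
        hL1.le, hL2⟩
      rw [Finset.mem_filter]
      refine ⟨hpZ, ?_, ?_⟩
      · have h1 : p ∈ disc 0 (2 ^ k) := convexHull_min hCd (hs_convex_disc _ _) hp
        simp only [disc, Set.mem_ofPred_eq, Prod.fst_zero, Prod.snd_zero, sub_zero] at h1
        rw [← nm_sq] at h1
        exact lt_of_pow_lt_pow_left₀ 2 (by positivity) h1
      · rcases hCk with h1 | ⟨z, hz, hzk⟩
        · exact Or.inl h1
        · right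
          have h2 : nm (z - p) ≤ 2 ^ k * tsc n j / 2 := by
            refine nm_le_of_mem_hull (fun q hq => ?_) (by linarith) hp
            have h3 := (two_nm_le_orbitLength hcont hz hq).trans hL2
            rw [ENNReal.ofReal_le_ofReal_iff hb.le] at h3
            linarith
          have h3 := hs_nm_triangle z p
          have h4 : (0 : ℝ) < 2 ^ k := by positivity
          nlinarith
    · calc ∑' k, ∫⁻ α in Set.Ioo 0 Real.pi, ∑ p ∈ Z.filter (fun p => hsCond k p), A k p α
          ≤ ∑' k, ∑ p ∈ Z, (if hsCond k p then ENNReal.ofReal (38 * n) else 0) := by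
            apply ENNReal.tsum_le_tsum
            intro k
            rw [lintegral_finsetSum' _ fun p _ => hAm k p, ← Finset.sum_filter]
            exact Finset.sum_le_sum fun p _ => hAi k p
        _ = ∑ p ∈ Z, ∑' k, (if hsCond k p then ENNReal.ofReal (38 * n) else 0) := by
            rw [Summable.tsum_finsetSum]
            intro p _
            exact ENNReal.summable
        _ ≤ ∑ p ∈ Z, 3 * ENNReal.ofReal (38 * n) := by
            apply Finset.sum_le_sum
            intro p _
            obtain ⟨S, hS, hSm⟩ := hs_cond_subset p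
            rw [tsum_eq_sum (s := S)]
            · calc ∑ k ∈ S, (if hsCond k p then ENNReal.ofReal (38 * n) else 0)
                  ≤ ∑ k ∈ S, ENNReal.ofReal (38 * n) := by
                    apply Finset.sum_le_sum
                    intro k _
                    split_ifs
                    · exact le_rfl
                    · exact bot_le
                _ = (S.card : ℝ≥0∞) * ENNReal.ofReal (38 * n) := by
                    rw [Finset.sum_const, nsmul_eq_mul]
                _ ≤ 3 * ENNReal.ofReal (38 * n) := by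
                    gcongr
                    exact_mod_cast hS
            · intro k hk
              rw [if_neg fun h => hk (hSm k h)]
        _ = (Z.card : ℝ≥0∞) * (3 * ENNReal.ofReal (38 * n)) := by
            rw [Finset.sum_const, nsmul_eq_mul]
        _ ≤ ENNReal.ofReal (n ^ 2) * (ENNReal.ofReal 3 * ENNReal.ofReal (38 * n)) := by
            gcongr
            · rw [← ENNReal.ofReal_natCast Z.card]
              apply ENNReal.ofReal_le_ofReal
              exact_mod_cast hZ
            · rw [show (3 : ℝ) = ((3 : ℕ) : ℝ) by norm_num, ENNReal.ofReal_natCast]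
              norm_num
        _ = ENNReal.ofReal (114 * n ^ 3) := by
            rw [← ENNReal.ofReal_mul (by norm_num), ← ENNReal.ofReal_mul (by positivity)]
            congr 1
            ring
  · push Not at h0
    obtain ⟨rfl, rfl⟩ := h0
    refine ⟨fun _ _ => 0, fun _ => aemeasurable_const, fun k α => ?_, by simp⟩
    have hem : annSet (turn α (vf 0 0)) k (ENNReal.ofReal (2 ^ k * tsc n (j + 1)))
        (ENNReal.ofReal (2 ^ k * tsc n j)) = ∅ := by
      rw [Set.eq_empty_iff_forall_notMem]
      rintro C ⟨hC, -⟩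
      obtain ⟨p, hp⟩ := hC.nonempty
      apply hC.ne_zero_of_contDiff (contDiff_turn (contDiff_vf 0 0) α) hp
      rw [turn_eq_zero]
      simp [vf]
    rw [hem, Set.encard_empty, ENat.toENNReal_zero]

end Pool.Agent.Lib.MP_95e7ec_an
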