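import Mathlib
import Pool.Agent.Lib.MP_95e7ec_an.AvgDefs
import Pool.Agent.Lib.MP_95e7ec_an.ScaleMain

/-!
# The integral of the inverse distance over a disc
-/

set_option autoImplicit false

open Set Filter Topology MeasureTheory
open scoped ContDiff ENNReal

namespace Pool.Agent.Lib.MP_95e7ec_an

/-- the integral of `1/|w|` over the disc of radius `r` around `0` -/
theorem lintegral_inv_nm_zero {r : ℝ} (hr : 0 ≤ r) :
    ∫⁻ w : ℝ × ℝ, (disc 0 r).indicator (fun w => ENNReal.ofReal (1 / nm w)) w ≤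
      ENNReal.ofReal (2 * Real.pi * r) := by
  rw [← lintegral_comp_polarCoord_symm]
  have hvol : volume (Ioo (0:ℝ) r ×ˢ Ioo (-Real.pi) Real.pi) = ENNReal.ofReal (2 * Real.pi * r) := by
    rw [Measure.volume_eq_prod, Measure.prod_prod, Real.volume_Ioo, Real.volume_Ioo,
      ← ENNReal.ofReal_mul (by linarith)]
    congr 1
    ring
  rw [← hvol, ← setLIntegral_one, ← lintegral_indicator (measurableSet_Ioo.prod measurableSet_Ioo),
    ← lintegral_indicator polarCoord.open_target.measurableSet]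
  apply lintegral_mono
  intro p
  by_cases hp : p ∈ polarCoord.target
  · rw [indicator_of_mem hp]
    obtain ⟨h1, h2⟩ := hp
    have h1' : 0 < p.1 := h1
    have hsq : (p.1 * Real.cos p.2) ^ 2 + (p.1 * Real.sin p.2) ^ 2 = p.1 ^ 2 := by
      have := Real.cos_sq_add_sin_sq p.2
      nlinarith [this]
    have hnm : nm (polarCoord.symm p) = p.1 := by
      rw [polarCoord_symm_apply]
      unfold nm
      simp only
      rw [hsq, Real.sqrt_sq h1'.le]
    by_cases hd : polarCoord.symm p ∈ disc 0 r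
    · rw [indicator_of_mem hd, hnm]
      have hlt : p.1 < r := by
        rw [polarCoord_symm_apply] at hd
        simp only [disc, Set.mem_ofPred_eq, Prod.fst_zero, Prod.snd_zero, sub_zero] at hd
        rw [hsq] at hd
        exact lt_of_pow_lt_pow_left₀ 2 hr hd
      rw [indicator_of_mem (show p ∈ Ioo (0:ℝ) r ×ˢ Ioo (-Real.pi) Real.pi from ⟨⟨h1', hlt⟩, h2⟩)]
      rw [smul_eq_mul, ← ENNReal.ofReal_mul h1'.le, mul_one_div_cancel h1'.ne', ENNReal.ofReal_one]
    · rw [indicator_of_notMem hd, smul_zero]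
      exact zero_le
  · rw [indicator_of_notMem hp]
    exact zero_le

theorem lintegral_inv_nm (z0 : ℝ × ℝ) {r : ℝ} (hr : 0 ≤ r) :
    ∫⁻ z in disc z0 r, ENNReal.ofReal (1 / nm (z - z0)) ≤ ENNReal.ofReal (2 * Real.pi * r) := by
  rw [← lintegral_indicator (isOpen_disc z0 r).measurableSet]
  have h : ∀ z : ℝ × ℝ, (disc z0 r).indicator (fun z => ENNReal.ofReal (1 / nm (z - z0))) z =
      (disc 0 r).indicator (fun w => ENNReal.ofReal (1 / nm w)) (z - z0) := by
    intro z
    have hiff : z ∈ disc z0 r ↔ z - z0 ∈ disc 0 r := by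
      simp [disc]
    by_cases hz : z ∈ disc z0 r
    · rw [indicator_of_mem hz, indicator_of_mem (hiff.1 hz)]
    · rw [indicator_of_notMem hz, indicator_of_notMem (fun hc => hz (hiff.2 hc))]
  simp_rw [h]
  rw [lintegral_sub_right_eq_self (fun w => (disc 0 r).indicator (fun w => ENNReal.ofReal (1 / nm w)) w) z0]
  exact lintegral_inv_nm_zero hr

end Pool.Agent.Lib.MP_95e7ec_an
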