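import Mathlib
import Pool.Agent.Lib.MP_95e7ec_an.KosDefs

/-!
# Moments of the linear forms of the Kostlan coefficients (task K2c)
-/

set_option autoImplicit false

open Set Filter Topology MeasureTheory ProbabilityTheory
open scoped ContDiff ENNReal

namespace Pool.Agent.Lib.MP_95e7ec_an

private theorem km_fst {n : ℕ} (v : KIdx n → ℝ) (a : KSp n) :
    (klin v a).1 = ∑ p, v p * (a p).1 := by
  simp [klin, Prod.fst_sum]

private theorem km_snd {n : ℕ} (v : KIdx n → ℝ) (a : KSp n) :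
    (klin v a).2 = ∑ p, v p * (a p).2 := by
  simp [klin, Prod.snd_sum]

private theorem km_prod {n : ℕ} (v : KIdx n → ℝ) (l1 l2 : ℝ) (a : KSp n) :
    Real.exp (l1 * (klin v a).1 + l2 * (klin v a).2) =
      ∏ p, (Real.exp (v p * l1 * (a p).1) * Real.exp (v p * l2 * (a p).2)) := by
  simp_rw [← Real.exp_add]
  rw [← Real.exp_sum, km_fst, km_snd, Finset.mul_sum, Finset.mul_sum, ← Finset.sum_add_distrib]
  congr 1
  exact Finset.sum_congr rfl fun p _ => by ring

private theorem km_integrable {n : ℕ} (v : KIdx n → ℝ) (l1 l2 : ℝ) :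
    Integrable (fun a : KSp n => Real.exp (l1 * (klin v a).1 + l2 * (klin v a).2)) (kMeas n) := by
  simp_rw [km_prod]
  unfold kMeas
  exact Integrable.fintype_prod (f := fun (p : KIdx n) (q : ℝ × ℝ) =>
    Real.exp (v p * l1 * q.1) * Real.exp (v p * l2 * q.2)) fun p =>
    (integrable_exp_mul_gaussianReal (v p * l1)).mul_prod
      (integrable_exp_mul_gaussianReal (v p * l2))

private theorem km_mgf (t : ℝ) : ∫ x, Real.exp (t * x) ∂gaussianReal 0 1 =
    Real.exp (t ^ 2 / 2) := by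
  have h := congrFun (mgf_fun_id_gaussianReal (μ := 0) (v := 1)) t
  simpa [mgf] using h

private theorem km_integral {n : ℕ} (v : KIdx n → ℝ) (l1 l2 : ℝ) :
    ∫ a : KSp n, Real.exp (l1 * (klin v a).1 + l2 * (klin v a).2) ∂kMeas n =
      Real.exp ((l1 ^ 2 + l2 ^ 2) * (∑ p, v p ^ 2) / 2) := by
  simp_rw [km_prod]
  unfold kMeas
  rw [integral_fintype_prod_eq_prod (f := fun (p : KIdx n) (q : ℝ × ℝ) =>
    Real.exp (v p * l1 * q.1) * Real.exp (v p * l2 * q.2))]
  have h1 : ∀ p : KIdx n, ∫ q : ℝ × ℝ, Real.exp (v p * l1 * q.1) * Real.exp (v p * l2 * q.2)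
      ∂((gaussianReal 0 1).prod (gaussianReal 0 1)) =
      Real.exp ((l1 ^ 2 + l2 ^ 2) / 2 * v p ^ 2) := by
    intro p
    rw [integral_prod_mul (fun x => Real.exp (v p * l1 * x)) (fun x => Real.exp (v p * l2 * x)),
      km_mgf, km_mgf, ← Real.exp_add]
    congr 1
    ring
  simp_rw [h1]
  rw [← Real.exp_sum, ← Finset.mul_sum]
  congr 1
  ring

private theorem km_lintegral {n : ℕ} (v : KIdx n → ℝ) (l1 l2 : ℝ) :
    ∫⁻ a : KSp n, ENNReal.ofReal (Real.exp (l1 * (klin v a).1 + l2 * (klin v a).2)) ∂kMeas n =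
      ENNReal.ofReal (Real.exp ((l1 ^ 2 + l2 ^ 2) * (∑ p, v p ^ 2) / 2)) := by
  rw [← km_integral, ofReal_integral_eq_lintegral_ofReal (km_integrable v l1 l2)
    (Eventually.of_forall fun a => (Real.exp_pos _).le)]

private theorem km_continuous {n : ℕ} (v : KIdx n → ℝ) : Continuous (klin v) := by
  unfold klin
  fun_prop

private theorem km_meas {n : ℕ} (v : KIdx n → ℝ) (l1 l2 : ℝ) :
    Measurable fun a : KSp n => ENNReal.ofReal
      (Real.exp (l1 * (klin v a).1 + l2 * (klin v a).2)) := by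
  have h := km_continuous v
  have h1 : Continuous fun a : KSp n => Real.exp (l1 * (klin v a).1 + l2 * (klin v a).2) := by
    fun_prop
  exact h1.measurable.ennreal_ofReal

private theorem km_exp_abs (x : ℝ) : Real.exp |x| ≤ Real.exp x + Real.exp (-x) := by
  have h1 := Real.exp_pos x
  have h2 := Real.exp_pos (-x)
  rcases abs_cases x with ⟨h, -⟩ | ⟨h, -⟩
  · rw [h]; linarith
  · rw [h]; linarith

theorem kMeas_exp {n : ℕ} (v : KIdx n → ℝ) (hv : ∑ p, v p ^ 2 ≤ 1) :
    ∫⁻ a, ENNReal.ofReal (kexp v a ^ 2) ∂kMeas n ≤ ENNReal.ofReal (4 * Real.exp 4) := by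
  have hpt : ∀ a : KSp n, ENNReal.ofReal (kexp v a ^ 2) ≤
      ENNReal.ofReal (Real.exp (2 * (klin v a).1 + 2 * (klin v a).2)) +
      (ENNReal.ofReal (Real.exp (2 * (klin v a).1 + (-2) * (klin v a).2)) +
      (ENNReal.ofReal (Real.exp ((-2) * (klin v a).1 + 2 * (klin v a).2)) +
      ENNReal.ofReal (Real.exp ((-2) * (klin v a).1 + (-2) * (klin v a).2)))) := by
    intro a
    have e1 := Real.exp_pos (2 * (klin v a).1 + 2 * (klin v a).2)
    have e2 := Real.exp_pos (2 * (klin v a).1 + (-2) * (klin v a).2)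
    have e3 := Real.exp_pos ((-2) * (klin v a).1 + 2 * (klin v a).2)
    have e4 := Real.exp_pos ((-2) * (klin v a).1 + (-2) * (klin v a).2)
    rw [← ENNReal.ofReal_add e3.le e4.le, ← ENNReal.ofReal_add e2.le (by positivity),
      ← ENNReal.ofReal_add e1.le (by positivity)]
    apply ENNReal.ofReal_le_ofReal
    have h1 : kexp v a ^ 2 = Real.exp |2 * (klin v a).1| * Real.exp |2 * (klin v a).2| := by
      rw [kexp, sq, ← Real.exp_add, ← Real.exp_add, abs_mul, abs_mul, abs_two]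
      congr 1
      ring
    have h2 := km_exp_abs (2 * (klin v a).1)
    have h3 := km_exp_abs (2 * (klin v a).2)
    rw [h1]
    refine (mul_le_mul h2 h3 (Real.exp_pos _).le (by positivity)).trans (le_of_eq ?_)
    simp only [add_mul, mul_add, ← Real.exp_add]
    simp only [neg_mul]
    ring
  refine (lintegral_mono hpt).trans ?_
  rw [lintegral_add_left (km_meas v 2 2), lintegral_add_left (km_meas v 2 (-2)),
    lintegral_add_left (km_meas v (-2) 2), km_lintegral, km_lintegral, km_lintegral, km_lintegral]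
  have h4 : ∀ l1 l2 : ℝ, l1 ^ 2 = 4 → l2 ^ 2 = 4 →
      ENNReal.ofReal (Real.exp ((l1 ^ 2 + l2 ^ 2) * (∑ p, v p ^ 2) / 2)) ≤
        ENNReal.ofReal (Real.exp 4) := by
    intro l1 l2 h1 h2
    apply ENNReal.ofReal_le_ofReal
    apply Real.exp_le_exp.2
    rw [h1, h2]
    linarith
  have k1 := h4 2 2 (by norm_num) (by norm_num)
  have k2 := h4 2 (-2) (by norm_num) (by norm_num)
  have k3 := h4 (-2) 2 (by norm_num) (by norm_num)
  have k4 := h4 (-2) (-2) (by norm_num) (by norm_num)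
  refine (add_le_add k1 (add_le_add k2 (add_le_add k3 k4))).trans (le_of_eq ?_)
  have h5 := (Real.exp_pos 4).le
  rw [← ENNReal.ofReal_add h5 h5, ← ENNReal.ofReal_add h5 (by positivity),
    ← ENNReal.ofReal_add h5 (by positivity)]
  congr 1
  ring

private theorem km_pow4 (x : ℝ) :
    x ^ 4 ≤ 128 / 27 * (Real.exp (3 / 2 * x) + Real.exp (-(3 / 2) * x)) := by
  have h1 := Real.pow_div_factorial_le_exp |3 / 2 * x| (abs_nonneg _) 4
  have h2 := km_exp_abs (3 / 2 * x)
  have h3 : |3 / 2 * x| ^ 4 = 81 / 16 * x ^ 4 := by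
    rw [show (4 : ℕ) = 2 * 2 from rfl, pow_mul, sq_abs]
    ring
  have h4 : ((4).factorial : ℝ) = 24 := by norm_num [Nat.factorial]
  rw [h3, h4] at h1
  have h5 : -(3 / 2) * x = -(3 / 2 * x) := by ring
  rw [h5]
  linarith

private theorem km_exp94 : Real.exp (9 / 4) ≤ 10.5 := by
  have h1 : Real.exp (9 / 4) ^ 4 ≤ (10.5 : ℝ) ^ 4 := by
    rw [← Real.exp_nat_mul]
    have h2 : ((4 : ℕ) : ℝ) * (9 / 4) = ((9 : ℕ) : ℝ) * 1 := by norm_num
    rw [h2, Real.exp_nat_mul]
    have h3 := Real.exp_one_lt_d9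
    have h4 := (Real.exp_pos 1).le
    calc Real.exp 1 ^ 9 ≤ (2.7182818286 : ℝ) ^ 9 := by gcongr
      _ ≤ (10.5 : ℝ) ^ 4 := by norm_num
  exact le_of_pow_le_pow_left₀ (by norm_num) (by norm_num) h1

private theorem km_fourth_aux {n : ℕ} (v : KIdx n → ℝ) (hv : ∑ p, v p ^ 2 ≤ 2) (e1 e2 : ℝ)
    (he : e1 ^ 2 + e2 ^ 2 = 1) :
    ∫⁻ a, ENNReal.ofReal ((e1 * (klin v a).1 + e2 * (klin v a).2) ^ 4) ∂kMeas n ≤
      ENNReal.ofReal 100 := by
  have hpt : ∀ a : KSp n, ENNReal.ofReal ((e1 * (klin v a).1 + e2 * (klin v a).2) ^ 4) ≤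
      ENNReal.ofReal (128 / 27) * (ENNReal.ofReal
        (Real.exp ((3 / 2 * e1) * (klin v a).1 + (3 / 2 * e2) * (klin v a).2)) +
      ENNReal.ofReal
        (Real.exp ((-(3 / 2) * e1) * (klin v a).1 + (-(3 / 2) * e2) * (klin v a).2))) := by
    intro a
    have p1 := Real.exp_pos ((3 / 2 * e1) * (klin v a).1 + (3 / 2 * e2) * (klin v a).2)
    have p2 := Real.exp_pos ((-(3 / 2) * e1) * (klin v a).1 + (-(3 / 2) * e2) * (klin v a).2)
    rw [← ENNReal.ofReal_add p1.le p2.le, ← ENNReal.ofReal_mul (by norm_num)]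
    apply ENNReal.ofReal_le_ofReal
    have h := km_pow4 (e1 * (klin v a).1 + e2 * (klin v a).2)
    have q1 : 3 / 2 * (e1 * (klin v a).1 + e2 * (klin v a).2) =
        (3 / 2 * e1) * (klin v a).1 + (3 / 2 * e2) * (klin v a).2 := by ring
    have q2 : -(3 / 2) * (e1 * (klin v a).1 + e2 * (klin v a).2) =
        (-(3 / 2) * e1) * (klin v a).1 + (-(3 / 2) * e2) * (klin v a).2 := by ring
    rwa [q1, q2] at h
  refine (lintegral_mono hpt).trans ?_
  have hms : Measurable fun a : KSp n => ENNReal.ofReal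
        (Real.exp ((3 / 2 * e1) * (klin v a).1 + (3 / 2 * e2) * (klin v a).2)) +
      ENNReal.ofReal
        (Real.exp ((-(3 / 2) * e1) * (klin v a).1 + (-(3 / 2) * e2) * (klin v a).2)) :=
    (km_meas v _ _).add (km_meas v _ _)
  rw [lintegral_const_mul _ hms,
    lintegral_add_left (km_meas v _ _), km_lintegral, km_lintegral]
  have h4 : ∀ l1 l2 : ℝ, l1 ^ 2 + l2 ^ 2 = 9 / 4 →
      ENNReal.ofReal (Real.exp ((l1 ^ 2 + l2 ^ 2) * (∑ p, v p ^ 2) / 2)) ≤
        ENNReal.ofReal 10.5 := by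
    intro l1 l2 h1
    apply ENNReal.ofReal_le_ofReal
    refine le_trans ?_ km_exp94
    apply Real.exp_le_exp.2
    rw [h1]
    linarith
  have k1 := h4 (3 / 2 * e1) (3 / 2 * e2) (by linear_combination (9 / 4) * he)
  have k2 := h4 (-(3 / 2) * e1) (-(3 / 2) * e2) (by linear_combination (9 / 4) * he)
  calc _ ≤ ENNReal.ofReal (128 / 27) * (ENNReal.ofReal 10.5 + ENNReal.ofReal 10.5) := by
        gcongr
    _ ≤ ENNReal.ofReal 100 := by
        rw [← ENNReal.ofReal_add (by norm_num) (by norm_num), ← ENNReal.ofReal_mul (by norm_num)]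
        apply ENNReal.ofReal_le_ofReal
        norm_num

theorem kMeas_fourth {n : ℕ} (v : KIdx n → ℝ) (hv : ∑ p, v p ^ 2 ≤ 2) :
    ∫⁻ a, ENNReal.ofReal ((klin v a).1 ^ 4) ∂kMeas n ≤ ENNReal.ofReal 100 ∧
    ∫⁻ a, ENNReal.ofReal ((klin v a).2 ^ 4) ∂kMeas n ≤ ENNReal.ofReal 100 := by
  constructor
  · simpa using km_fourth_aux v hv 1 0 (by norm_num)
  · simpa using km_fourth_aux v hv 0 1 (by norm_num)

end Pool.Agent.Lib.MP_95e7ec_an
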