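import Mathlib
import Pool.Agent.Lib.MP_95e7ec_an.KosMom

/-!
# A moment bound (task E2)
-/

set_option autoImplicit false

open Set Filter Topology MeasureTheory ProbabilityTheory
open scoped ContDiff ENNReal

namespace Pool.Agent.Lib.MP_95e7ec_an

private theorem kem_card (n : ℕ) : Fintype.card (KIdx n) ≤ (n + 1) ^ 2 := by
  have h := Fintype.card_subtype_le (fun p : Fin (n + 1) × Fin (n + 1) => (p.1 : ℕ) + (p.2 : ℕ) ≤ n)
  rw [Fintype.card_prod, Fintype.card_fin] at h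
  rw [sq]
  exact h

private theorem kem_card_pos (n : ℕ) : 1 ≤ Fintype.card (KIdx n) := by
  have : Nonempty (KIdx n) := ⟨⟨(0, 0), by simp⟩⟩
  exact Fintype.card_pos

private theorem kem_add4 (x y : ℝ) : (x + y) ^ 4 ≤ 8 * (x ^ 4 + y ^ 4) := by
  nlinarith [sq_nonneg (x - y), sq_nonneg (x ^ 2 - y ^ 2), sq_nonneg (x + y),
    mul_nonneg (sq_nonneg (x - y)) (sq_nonneg (x + y)),
    mul_nonneg (sq_nonneg (x - y)) (sq_nonneg (x - y)), sq_nonneg (x * y), sq_nonneg (x ^ 2 - x * y),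
    sq_nonneg (y ^ 2 - x * y), sq_nonneg (x ^ 2 + y ^ 2 - 2 * x * y)]

private theorem kem_fourth {ι : Type*} [Fintype ι] (f : ι → ℝ) {c : ℝ}
    (hc : (Fintype.card ι : ℝ) = c) :
    (∑ i, f i) ^ 4 ≤ c ^ 3 * ∑ i, f i ^ 4 := by
  have h1 : (∑ i, f i) ^ 2 ≤ c * ∑ i, f i ^ 2 := by
    have := sq_sum_le_card_mul_sum_sq (s := Finset.univ) (f := f)
    rw [Finset.card_univ, hc] at this
    exact this
  have h2 : (∑ i, f i ^ 2) ^ 2 ≤ c * ∑ i, (f i ^ 2) ^ 2 := by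
    have := sq_sum_le_card_mul_sum_sq (s := Finset.univ) (f := fun i => f i ^ 2)
    rw [Finset.card_univ, hc] at this
    exact this
  have h3 : ∑ i, (f i ^ 2) ^ 2 = ∑ i, f i ^ 4 := by
    refine Finset.sum_congr rfl fun i _ => by ring
  rw [h3] at h2
  calc (∑ i, f i) ^ 4 = ((∑ i, f i) ^ 2) ^ 2 := by ring
    _ ≤ (c * ∑ i, f i ^ 2) ^ 2 := by
        apply pow_le_pow_left₀ (sq_nonneg _) h1
    _ = c ^ 2 * (∑ i, f i ^ 2) ^ 2 := by ring
    _ ≤ c ^ 2 * (c * ∑ i, f i ^ 4) := by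
        apply mul_le_mul_of_nonneg_left h2 (sq_nonneg _)
    _ = c ^ 3 * ∑ i, f i ^ 4 := by ring

private theorem kem_pt {n : ℕ} (c : ℝ) (hc : (Fintype.card (KIdx n) : ℝ) = c) (hc1 : 1 ≤ c)
    (E : ℝ) (a : KSp n) :
    E * (1 + ∑ p, (|(a p).1| + |(a p).2|)) ^ 2 ≤
      c ^ 2 / 2 * E ^ 2 + (4 / c ^ 2 + ∑ p, (32 * c * (a p).1 ^ 4 + 32 * c * (a p).2 ^ 4)) := by
  have hc0 : 0 < c := by linarith
  set T := 1 + ∑ p, (|(a p).1| + |(a p).2|) with hT
  have h1 : T ^ 4 ≤ 8 + 64 * c ^ 3 * ∑ p, ((a p).1 ^ 4 + (a p).2 ^ 4) := by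
    have h2 := kem_add4 1 (∑ p, (|(a p).1| + |(a p).2|))
    have h3 := kem_fourth (fun p : KIdx n => |(a p).1| + |(a p).2|) hc
    have h4 : ∑ p, (|(a p).1| + |(a p).2|) ^ 4 ≤ 8 * ∑ p, ((a p).1 ^ 4 + (a p).2 ^ 4) := by
      rw [Finset.mul_sum]
      refine Finset.sum_le_sum fun p _ => ?_
      have := kem_add4 |(a p).1| |(a p).2|
      have e1 : |(a p).1| ^ 4 = (a p).1 ^ 4 := by
        rw [show (4 : ℕ) = 2 * 2 from rfl, pow_mul, pow_mul, sq_abs]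
      have e2 : |(a p).2| ^ 4 = (a p).2 ^ 4 := by
        rw [show (4 : ℕ) = 2 * 2 from rfl, pow_mul, pow_mul, sq_abs]
      rwa [e1, e2] at this
    have h5 : c ^ 3 * ∑ p, (|(a p).1| + |(a p).2|) ^ 4 ≤
        c ^ 3 * (8 * ∑ p, ((a p).1 ^ 4 + (a p).2 ^ 4)) :=
      mul_le_mul_of_nonneg_left h4 (by positivity)
    rw [hT]
    nlinarith [h2, h3, h5]
  have h6 : E * T ^ 2 ≤ c ^ 2 / 2 * E ^ 2 + T ^ 4 / (2 * c ^ 2) := by
    have : 0 ≤ (c * E - T ^ 2 / c) ^ 2 / 2 := by positivity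
    have e : (c * E - T ^ 2 / c) ^ 2 / 2 =
        c ^ 2 / 2 * E ^ 2 + T ^ 4 / (2 * c ^ 2) - E * T ^ 2 := by
      field_simp; ring
    linarith
  have h7 : T ^ 4 / (2 * c ^ 2) ≤
      (8 + 64 * c ^ 3 * ∑ p, ((a p).1 ^ 4 + (a p).2 ^ 4)) / (2 * c ^ 2) := by
    gcongr
  have h8 : (8 + 64 * c ^ 3 * ∑ p, ((a p).1 ^ 4 + (a p).2 ^ 4)) / (2 * c ^ 2) =
      4 / c ^ 2 + 32 * c * ∑ p, ((a p).1 ^ 4 + (a p).2 ^ 4) := by
    field_simp; ring
  have h9 : 32 * c * ∑ p, ((a p).1 ^ 4 + (a p).2 ^ 4) =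
      ∑ p, (32 * c * (a p).1 ^ 4 + 32 * c * (a p).2 ^ 4) := by
    rw [Finset.mul_sum]
    exact Finset.sum_congr rfl fun p _ => by ring
  rw [h8, h9] at h7
  linarith

private theorem kem_coord {n : ℕ} (p : KIdx n) :
    ∫⁻ a, ENNReal.ofReal ((a p).1 ^ 4) ∂kMeas n ≤ ENNReal.ofReal 100 ∧
    ∫⁻ a, ENNReal.ofReal ((a p).2 ^ 4) ∂kMeas n ≤ ENNReal.ofReal 100 := by
  classical
  have h := kMeas_fourth (n := n) (Pi.single p 1) (by
    rw [Finset.sum_eq_single p]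
    · simp
    · intro q _ hq; simp [Pi.single_eq_of_ne hq]
    · simp)
  have e : ∀ a : KSp n, klin (Pi.single p 1) a = a p := by
    intro a
    unfold klin
    rw [Finset.sum_eq_single p]
    · simp
    · intro q _ hq; simp [Pi.single_eq_of_ne hq]
    · simp
  simp only [e] at h
  exact h

theorem kexp_sum_moment : ∃ C : ℝ, 0 ≤ C ∧ ∀ (n : ℕ) (v : KIdx n → ℝ), ∑ p, v p ^ 2 ≤ 1 →
    ∫⁻ a, ENNReal.ofReal (kexp v a * (1 + ∑ p, (|(a p).1| + |(a p).2|)) ^ 2) ∂kMeas n ≤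
      ENNReal.ofReal (C * (n + 1) ^ 4) := by
  refine ⟨2 * Real.exp 4 + 6404, by positivity, ?_⟩
  intro n v hv
  have : IsProbabilityMeasure (kMeas n) := by unfold kMeas; infer_instance
  obtain ⟨c, hc⟩ : ∃ c : ℝ, (Fintype.card (KIdx n) : ℝ) = c := ⟨_, rfl⟩
  have hc1 : 1 ≤ c := by rw [← hc]; exact_mod_cast kem_card_pos n
  have hc2 : c ≤ ((n : ℝ) + 1) ^ 2 := by rw [← hc]; exact_mod_cast kem_card n
  have hc0 : 0 < c := by linarith
  have hm1 : ∀ p : KIdx n, Measurable fun a : KSp n => ENNReal.ofReal (32 * c * (a p).1 ^ 4) := by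
    intro p; fun_prop
  have hm2 : ∀ p : KIdx n, Measurable fun a : KSp n => ENNReal.ofReal (32 * c * (a p).2 ^ 4) := by
    intro p; fun_prop
  have hpt : ∀ a : KSp n,
      ENNReal.ofReal (kexp v a * (1 + ∑ p, (|(a p).1| + |(a p).2|)) ^ 2) ≤
      ENNReal.ofReal (c ^ 2 / 2 * kexp v a ^ 2) + (ENNReal.ofReal (4 / c ^ 2) +
        ∑ p, (ENNReal.ofReal (32 * c * (a p).1 ^ 4) + ENNReal.ofReal (32 * c * (a p).2 ^ 4))) := by
    intro a
    refine (ENNReal.ofReal_le_ofReal (kem_pt c hc hc1 (kexp v a) a)).trans (le_of_eq ?_)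
    rw [ENNReal.ofReal_add (by positivity) (by positivity),
      ENNReal.ofReal_add (by positivity) (by positivity),
      ENNReal.ofReal_sum_of_nonneg (fun p _ => by positivity)]
    congr 2
    refine Finset.sum_congr rfl fun p _ => ?_
    rw [ENNReal.ofReal_add (by positivity) (by positivity)]
  refine (lintegral_mono hpt).trans ?_
  have hms2 : Measurable fun a : KSp n =>
      ∑ p, (ENNReal.ofReal (32 * c * (a p).1 ^ 4) + ENNReal.ofReal (32 * c * (a p).2 ^ 4)) :=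
    Finset.measurable_sum _ fun p _ => (hm1 p).add (hm2 p)
  have hm3 : ∀ p : KIdx n, Measurable fun a : KSp n =>
      (ENNReal.ofReal (32 * c * (a p).1 ^ 4) + ENNReal.ofReal (32 * c * (a p).2 ^ 4)) :=
    fun p => (hm1 p).add (hm2 p)
  have hms : Measurable fun a : KSp n => (ENNReal.ofReal (4 / c ^ 2) +
        ∑ p, (ENNReal.ofReal (32 * c * (a p).1 ^ 4) + ENNReal.ofReal (32 * c * (a p).2 ^ 4))) :=
    measurable_const.add hms2
  rw [lintegral_add_right _ hms, lintegral_add_right _ hms2, lintegral_const, measure_univ,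
    mul_one, lintegral_finsetSum _ (fun p _ => hm3 p)]
  have i1 : ∫⁻ a, ENNReal.ofReal (c ^ 2 / 2 * kexp v a ^ 2) ∂kMeas n ≤
      ENNReal.ofReal (c ^ 2 / 2 * (4 * Real.exp 4)) := by
    have : ∀ a : KSp n, ENNReal.ofReal (c ^ 2 / 2 * kexp v a ^ 2) =
        ENNReal.ofReal (c ^ 2 / 2) * ENNReal.ofReal (kexp v a ^ 2) := fun a =>
      ENNReal.ofReal_mul (by positivity)
    simp_rw [this]
    rw [lintegral_const_mul' _ _ ENNReal.ofReal_ne_top, ENNReal.ofReal_mul (by positivity)]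
    gcongr
    exact kMeas_exp v hv
  have i2 : ∀ p : KIdx n, ∫⁻ a : KSp n, (ENNReal.ofReal (32 * c * (a p).1 ^ 4) +
      ENNReal.ofReal (32 * c * (a p).2 ^ 4)) ∂kMeas n ≤ ENNReal.ofReal (6400 * c) := by
    intro p
    rw [lintegral_add_right _ (hm2 p)]
    have e1 : ∀ x : ℝ, ENNReal.ofReal (32 * c * x ^ 4) =
        ENNReal.ofReal (32 * c) * ENNReal.ofReal (x ^ 4) := fun x =>
      ENNReal.ofReal_mul (by positivity)
    simp_rw [e1]
    rw [lintegral_const_mul' _ _ ENNReal.ofReal_ne_top,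
      lintegral_const_mul' _ _ ENNReal.ofReal_ne_top]
    obtain ⟨h1, h2⟩ := kem_coord p
    calc _ ≤ ENNReal.ofReal (32 * c) * ENNReal.ofReal 100 +
          ENNReal.ofReal (32 * c) * ENNReal.ofReal 100 := by gcongr
      _ = ENNReal.ofReal (6400 * c) := by
        rw [← ENNReal.ofReal_mul (by positivity), ← ENNReal.ofReal_add (by positivity)
          (by positivity)]
        congr 1; ring
  have i3 : ∑ p : KIdx n, ∫⁻ a : KSp n, (ENNReal.ofReal (32 * c * (a p).1 ^ 4) +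
      ENNReal.ofReal (32 * c * (a p).2 ^ 4)) ∂kMeas n ≤ ENNReal.ofReal (c * (6400 * c)) := by
    refine (Finset.sum_le_card_nsmul _ _ _ fun p _ => i2 p).trans (le_of_eq ?_)
    rw [Finset.card_univ, nsmul_eq_mul, ENNReal.ofReal_mul hc0.le, ← hc,
      ENNReal.ofReal_natCast]
  have hexp := Real.exp_pos 4
  calc _ ≤ ENNReal.ofReal (c ^ 2 / 2 * (4 * Real.exp 4)) + (ENNReal.ofReal (4 / c ^ 2) +
        ENNReal.ofReal (c * (6400 * c))) := by gcongr
    _ = ENNReal.ofReal (c ^ 2 / 2 * (4 * Real.exp 4) + (4 / c ^ 2 + c * (6400 * c))) := by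
        rw [ENNReal.ofReal_add (by positivity) (by positivity),
          ENNReal.ofReal_add (by positivity) (by positivity)]
    _ ≤ ENNReal.ofReal ((2 * Real.exp 4 + 6404) * (n + 1) ^ 4) := by
        apply ENNReal.ofReal_le_ofReal
        have h1 : 4 / c ^ 2 ≤ 4 * c ^ 2 := by
          rw [div_le_iff₀ (by positivity)]
          have : 1 ≤ c ^ 2 := one_le_pow₀ hc1
          nlinarith
        have h2 : c ^ 2 ≤ ((n : ℝ) + 1) ^ 4 := by
          calc c ^ 2 ≤ (((n : ℝ) + 1) ^ 2) ^ 2 := by gcongr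
            _ = ((n : ℝ) + 1) ^ 4 := by ring
        calc c ^ 2 / 2 * (4 * Real.exp 4) + (4 / c ^ 2 + c * (6400 * c))
            ≤ c ^ 2 / 2 * (4 * Real.exp 4) + (4 * c ^ 2 + c * (6400 * c)) := by linarith
          _ = (2 * Real.exp 4 + 6404) * c ^ 2 := by ring
          _ ≤ (2 * Real.exp 4 + 6404) * ((n : ℝ) + 1) ^ 4 := by gcongr

end Pool.Agent.Lib.MP_95e7ec_an
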