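import Mathlib
import Pool.Agent.Lib.MP_95e7ec_an.KosDefs
import Pool.Agent.Lib.MP_95e7ec_an.Arr

/-!
# Kostlan random fields: the kernel
-/

set_option autoImplicit false

open Set Filter Topology MeasureTheory ProbabilityTheory
open scoped ContDiff ENNReal

namespace Pool.Agent.Lib.MP_95e7ec_an

/-- a sum over `KIdx n` as a sum over a square -/
theorem KosKernel_sum_idx {R : Type*} [AddCommMonoid R] (n : ℕ) (f : ℕ → ℕ → R)
    (hf : ∀ i j, n < i + j → f i j = 0) :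
    ∑ p : KIdx n, f (p.1.1 : ℕ) (p.1.2 : ℕ) =
      ∑ i ∈ Finset.range (n + 1), ∑ j ∈ Finset.range (n + 1), f i j := by
  classical
  have h1 : ∑ p : KIdx n, f (p.1.1 : ℕ) (p.1.2 : ℕ) =
      ∑ q ∈ (Finset.univ : Finset (Fin (n + 1) × Fin (n + 1))).filter
        (fun q => (q.1 : ℕ) + (q.2 : ℕ) ≤ n), f (q.1 : ℕ) (q.2 : ℕ) := by
    symm
    apply Finset.sum_subtype
    intro q
    simp
  rw [h1, Finset.sum_filter_of_ne]
  · rw [Fintype.sum_prod_type]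
    rw [Finset.sum_range]
    refine Finset.sum_congr rfl fun i _ => ?_
    rw [Finset.sum_range]
  · intro q _ hq
    by_contra hlt
    exact hq (hf _ _ (by omega))

theorem KosKernel_choose {R : Type*} [Field R] [CharZero R] {n i j : ℕ} (h : i + j ≤ n) :
    ((n.factorial : R) / ((i).factorial * (j).factorial * (n - i - j).factorial)) =
      (n.choose i : R) * ((n - i).choose j : R) := by
  rw [Nat.cast_choose R (show i ≤ n by omega), Nat.cast_choose R (show j ≤ n - i by omega)]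
  have h1 : ((n - i).factorial : R) ≠ 0 := by exact_mod_cast Nat.factorial_ne_zero _
  have h2 : ((i).factorial : R) ≠ 0 := by exact_mod_cast Nat.factorial_ne_zero _
  have h3 : ((j).factorial : R) ≠ 0 := by exact_mod_cast Nat.factorial_ne_zero _
  have h4 : ((n - i - j).factorial : R) ≠ 0 := by exact_mod_cast Nat.factorial_ne_zero _
  field_simp

/-- the multinomial theorem -/
theorem kos_multinomial {R : Type*} [Field R] [CharZero R] (n : ℕ) (A B : R) :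
    ∑ p : KIdx n, ((n.factorial : R) / ((p.1.1 : ℕ).factorial * (p.1.2 : ℕ).factorial *
      (n - (p.1.1 : ℕ) - (p.1.2 : ℕ)).factorial)) * (A ^ (p.1.1 : ℕ) * B ^ (p.1.2 : ℕ)) =
      (1 + A + B) ^ n := by
  classical
  have h1 : ∑ p : KIdx n, ((n.factorial : R) / ((p.1.1 : ℕ).factorial * (p.1.2 : ℕ).factorial *
      (n - (p.1.1 : ℕ) - (p.1.2 : ℕ)).factorial)) * (A ^ (p.1.1 : ℕ) * B ^ (p.1.2 : ℕ)) =
      ∑ p : KIdx n, (fun i j : ℕ => ((n.choose i : R) * ((n - i).choose j : R)) *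
        (A ^ i * B ^ j)) (p.1.1 : ℕ) (p.1.2 : ℕ) := by
    refine Finset.sum_congr rfl fun p _ => ?_
    show _ = ((n.choose (p.1.1 : ℕ) : R) * ((n - (p.1.1 : ℕ)).choose (p.1.2 : ℕ) : R)) *
        (A ^ (p.1.1 : ℕ) * B ^ (p.1.2 : ℕ))
    rw [KosKernel_choose p.2]
  rw [h1, KosKernel_sum_idx n (fun i j : ℕ => ((n.choose i : R) * ((n - i).choose j : R)) *
        (A ^ i * B ^ j))]
  · have h2 : ∀ i ∈ Finset.range (n + 1), ∑ j ∈ Finset.range (n + 1),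
        ((n.choose i : R) * ((n - i).choose j : R)) * (A ^ i * B ^ j) =
        A ^ i * (1 + B) ^ (n - i) * (n.choose i : R) := by
      intro i hi
      rw [Finset.mem_range] at hi
      have h3 : ∑ j ∈ Finset.range (n + 1),
          ((n.choose i : R) * ((n - i).choose j : R)) * (A ^ i * B ^ j) =
          ∑ j ∈ Finset.range (n - i + 1),
          ((n.choose i : R) * ((n - i).choose j : R)) * (A ^ i * B ^ j) := by
        symm
        apply Finset.sum_subset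
        · intro j hj
          rw [Finset.mem_range] at hj ⊢
          omega
        · intro j _ hj
          rw [Finset.mem_range] at hj
          rw [Nat.choose_eq_zero_of_lt (show n - i < j by omega)]
          simp
      rw [h3, add_comm (1 : R) B, add_pow B 1 (n - i), Finset.mul_sum, Finset.sum_mul]
      refine Finset.sum_congr rfl fun j _ => ?_
      rw [one_pow]
      ring
    rw [Finset.sum_congr rfl h2, ← add_pow, add_comm A, add_assoc, add_assoc, add_comm B A]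
  · intro i j hij
    by_cases hi : n < i
    · rw [Nat.choose_eq_zero_of_lt hi]
      simp
    · rw [Nat.choose_eq_zero_of_lt (show n - i < j by omega)]
      simp

theorem KosKernel_kw_sq (n : ℕ) (p : KIdx n) :
    kw n p ^ 2 = (n.factorial : ℝ) / ((p.1.1 : ℕ).factorial * (p.1.2 : ℕ).factorial *
      (n - (p.1.1 : ℕ) - (p.1.2 : ℕ)).factorial) := by
  unfold kw
  rw [Real.sq_sqrt (by positivity)]

theorem KosKernel_sq1_sq (z : ℝ × ℝ) : sq1 z ^ 2 = 1 + (z.1 ^ 2 + z.2 ^ 2) := by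
  unfold sq1
  rw [Real.sq_sqrt (by positivity)]

theorem KosKernel_one_le (z : ℝ × ℝ) : 1 ≤ sq1 z := by
  have h := KosKernel_sq1_sq z
  have h0 : 0 ≤ sq1 z := Real.sqrt_nonneg _
  nlinarith [sq_nonneg z.1, sq_nonneg z.2]

theorem totalDegree_kPoly (n : ℕ) (b : KIdx n → ℝ) : (kPoly n b).totalDegree ≤ n := by
  unfold kPoly
  apply MvPolynomial.totalDegree_finsetSum_le
  intro p _
  refine (MvPolynomial.totalDegree_mul _ _).trans ?_
  rw [MvPolynomial.totalDegree_C, zero_add]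
  refine (MvPolynomial.totalDegree_mul _ _).trans ?_
  rw [MvPolynomial.totalDegree_X_pow, MvPolynomial.totalDegree_X_pow]
  exact p.2

theorem KosKernel_eval (n : ℕ) (b : KIdx n → ℝ) (x y : ℝ) :
    MvPolynomial.eval ![x, y] (kPoly n b) =
      ∑ p : KIdx n, kw n p * b p * (x ^ (p.1.1 : ℕ) * y ^ (p.1.2 : ℕ)) := by
  unfold kPoly
  rw [map_sum]
  refine Finset.sum_congr rfl fun p _ => ?_
  simp only [map_mul, map_pow, MvPolynomial.eval_C, MvPolynomial.eval_X, Matrix.cons_val_zero,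
    Matrix.cons_val_one]

theorem kev_ofReal (n : ℕ) (b : KIdx n → ℝ) (x y : ℝ) :
    kev n b ((x : ℂ), (y : ℂ)) = ((MvPolynomial.eval ![x, y] (kPoly n b) : ℝ) : ℂ) := by
  rw [KosKernel_eval]
  unfold kev
  push_cast
  rfl

theorem sum_kdir_sq (n : ℕ) (z0 : ℝ × ℝ) : ∑ p, kdir n z0 p ^ 2 = 1 := by
  have hs : 0 < sq1 z0 := zero_lt_one.trans_le (KosKernel_one_le z0)
  have h1 : ∀ p : KIdx n, kdir n z0 p ^ 2 = ((n.factorial : ℝ) / ((p.1.1 : ℕ).factorial *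
      (p.1.2 : ℕ).factorial * (n - (p.1.1 : ℕ) - (p.1.2 : ℕ)).factorial)) *
      ((z0.1 ^ 2) ^ (p.1.1 : ℕ) * (z0.2 ^ 2) ^ (p.1.2 : ℕ)) / (sq1 z0 ^ 2) ^ n := by
    intro p
    unfold kdir
    rw [div_pow, mul_pow, mul_pow, KosKernel_kw_sq]
    ring_nf
  rw [Finset.sum_congr rfl fun p _ => h1 p, ← Finset.sum_div, kos_multinomial,
    KosKernel_sq1_sq, add_assoc]
  exact div_self (by positivity)

theorem kev_kdir (n : ℕ) (z0 : ℝ × ℝ) (ζ : ℂ × ℂ) : kev n (kdir n z0) ζ = kker n z0 ζ := by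
  unfold kev kker
  rw [← kos_multinomial n ((z0.1 : ℂ) * ζ.1) ((z0.2 : ℂ) * ζ.2), Finset.sum_div]
  refine Finset.sum_congr rfl fun p _ => ?_
  have h : ((kw n p * kdir n z0 p : ℝ) : ℂ) = ((n.factorial : ℂ) / ((p.1.1 : ℕ).factorial *
      (p.1.2 : ℕ).factorial * (n - (p.1.1 : ℕ) - (p.1.2 : ℕ)).factorial)) *
      ((z0.1 : ℂ) ^ (p.1.1 : ℕ) * (z0.2 : ℂ) ^ (p.1.2 : ℕ)) / ((sq1 z0 : ℝ) : ℂ) ^ n := by
    have h1 : kw n p * kdir n z0 p = ((n.factorial : ℝ) / ((p.1.1 : ℕ).factorial *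
      (p.1.2 : ℕ).factorial * (n - (p.1.1 : ℕ) - (p.1.2 : ℕ)).factorial)) *
      (z0.1 ^ (p.1.1 : ℕ) * z0.2 ^ (p.1.2 : ℕ)) / sq1 z0 ^ n := by
      rw [← KosKernel_kw_sq]
      unfold kdir
      ring
    rw [h1]
    push_cast
    rfl
  rw [h, mul_pow, mul_pow]
  ring

theorem kVF_kshift (n : ℕ) (v : KIdx n → ℝ) (a : KSp n) (t z : ℝ × ℝ) :
    kVF n (kshift v a t) z = kVF n a z + MvPolynomial.eval ![z.1, z.2] (kPoly n v) • t := by
  unfold kVF vf kshift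
  ext
  · simp only [Prod.fst_add, Prod.smul_fst, smul_eq_mul, KosKernel_eval]
    rw [Finset.sum_mul, ← Finset.sum_add_distrib]
    refine Finset.sum_congr rfl fun p _ => ?_
    ring
  · simp only [Prod.snd_add, Prod.smul_snd, smul_eq_mul, KosKernel_eval]
    rw [Finset.sum_mul, ← Finset.sum_add_distrib]
    refine Finset.sum_congr rfl fun p _ => ?_
    ring

theorem eval_kPoly_kdir (n : ℕ) (z0 : ℝ × ℝ) (x y : ℝ) :
    MvPolynomial.eval ![x, y] (kPoly n (kdir n z0)) =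
      (1 + z0.1 * x + z0.2 * y) ^ n / sq1 z0 ^ n := by
  have h := kev_ofReal n (kdir n z0) x y
  rw [kev_kdir] at h
  have h2 : kker n z0 ((x : ℂ), (y : ℂ)) =
      (((1 + z0.1 * x + z0.2 * y) ^ n / sq1 z0 ^ n : ℝ) : ℂ) := by
    unfold kker
    push_cast
    rfl
  rw [h2] at h
  exact (Complex.ofReal_injective h).symm

theorem kVF_krot (n : ℕ) (α : ℝ) (a : KSp n) : kVF n (krot α a) = turn α (kVF n a) := by
  funext z
  unfold kVF vf krot turn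
  ext
  · simp only [KosKernel_eval]
    rw [Finset.mul_sum, Finset.mul_sum, ← Finset.sum_sub_distrib]
    refine Finset.sum_congr rfl fun p _ => ?_
    ring
  · simp only [KosKernel_eval]
    rw [Finset.mul_sum, Finset.mul_sum, ← Finset.sum_add_distrib]
    refine Finset.sum_congr rfl fun p _ => ?_
    ring

theorem kVF_eq_vfc (n : ℕ) (a : KSp n) : kVF n a = vfc (kArr n a) := by
  funext z
  unfold kVF vf vfc kArr
  rw [eval_eq_pe _ (totalDegree_kPoly n _), eval_eq_pe _ (totalDegree_kPoly n _)]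

theorem continuous_kArr (n : ℕ) : Continuous (kArr n) := by
  classical
  have h : ∀ g : KSp n → KIdx n → ℝ, Continuous g → Continuous fun a => arr n (kPoly n (g a)) := by
    intro g hg
    refine continuous_pi fun i => continuous_pi fun j => ?_
    unfold arr kPoly
    simp only [MvPolynomial.coeff_sum, MvPolynomial.coeff_C_mul]
    refine continuous_finsetSum _ fun p _ => ?_
    exact (continuous_const.mul ((continuous_apply p).comp hg)).mul continuous_const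
  unfold kArr
  exact (h (fun a p => (a p).1) (by fun_prop)).prodMk (h (fun a p => (a p).2) (by fun_prop))

theorem KosKernel_abs_le (z : ℝ × ℝ) : |z.1| ≤ sq1 z ∧ |z.2| ≤ sq1 z := by
  have h := KosKernel_sq1_sq z
  have h0 : 0 ≤ sq1 z := Real.sqrt_nonneg _
  constructor
  · apply abs_le_of_sq_le_sq _ h0
    nlinarith [sq_nonneg z.2]
  · apply abs_le_of_sq_le_sq _ h0
    nlinarith [sq_nonneg z.1]

/-- lower bound of the linear form near `z0` -/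
theorem KosKernel_lower (z0 : ℝ × ℝ) {ζ : ℂ × ℂ} (h1 : ‖ζ.1 - z0.1‖ ≤ sq1 z0 / 4)
    (h2 : ‖ζ.2 - z0.2‖ ≤ sq1 z0 / 4) :
    sq1 z0 ^ 2 / 2 ≤ ‖1 + (z0.1 : ℂ) * ζ.1 + (z0.2 : ℂ) * ζ.2‖ := by
  have hs := KosKernel_one_le z0
  obtain ⟨ha, hb⟩ := KosKernel_abs_le z0
  have e1 : 1 + (z0.1 : ℂ) * ζ.1 + (z0.2 : ℂ) * ζ.2 =
      ((sq1 z0 ^ 2 : ℝ) : ℂ) + ((z0.1 : ℂ) * (ζ.1 - z0.1) + (z0.2 : ℂ) * (ζ.2 - z0.2)) := by
    rw [KosKernel_sq1_sq]
    push_cast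
    ring
  have e2 : ‖(z0.1 : ℂ) * (ζ.1 - z0.1) + (z0.2 : ℂ) * (ζ.2 - z0.2)‖ ≤ sq1 z0 ^ 2 / 2 := by
    refine (norm_add_le _ _).trans ?_
    rw [norm_mul, norm_mul, Complex.norm_real, Complex.norm_real, Real.norm_eq_abs,
      Real.norm_eq_abs]
    have e3 : |z0.1| * ‖ζ.1 - z0.1‖ ≤ sq1 z0 * (sq1 z0 / 4) :=
      mul_le_mul ha h1 (norm_nonneg _) (by linarith)
    have e4 : |z0.2| * ‖ζ.2 - z0.2‖ ≤ sq1 z0 * (sq1 z0 / 4) :=
      mul_le_mul hb h2 (norm_nonneg _) (by linarith)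
    nlinarith
  rw [e1]
  have e5 := norm_sub_le_norm_add ((sq1 z0 ^ 2 : ℝ) : ℂ)
    ((z0.1 : ℂ) * (ζ.1 - z0.1) + (z0.2 : ℂ) * (ζ.2 - z0.2))
  have e6 : ‖((sq1 z0 ^ 2 : ℝ) : ℂ)‖ = sq1 z0 ^ 2 := by
    rw [Complex.norm_real, Real.norm_eq_abs, abs_of_nonneg (by positivity)]
  rw [e6] at e5
  linarith

/-- the kernel has no zero near `z0` -/
theorem kker_ne_zero (n : ℕ) (z0 : ℝ × ℝ) {ζ : ℂ × ℂ} (h1 : ‖ζ.1 - z0.1‖ ≤ sq1 z0 / 4)
    (h2 : ‖ζ.2 - z0.2‖ ≤ sq1 z0 / 4) : kker n z0 ζ ≠ 0 := by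
  have hs := KosKernel_one_le z0
  have h := KosKernel_lower z0 h1 h2
  have h3 : 1 + (z0.1 : ℂ) * ζ.1 + (z0.2 : ℂ) * ζ.2 ≠ 0 := by
    intro h0
    rw [h0, norm_zero] at h
    nlinarith
  have h4 : ((sq1 z0 : ℝ) : ℂ) ≠ 0 := by
    rw [Complex.ofReal_ne_zero]
    linarith
  exact div_ne_zero (pow_ne_zero _ h3) (pow_ne_zero _ h4)

/-- the Lagrange inequality -/
theorem KosKernel_lagrange (z0 : ℝ × ℝ) (ζ : ℂ × ℂ) :
    (1 + ‖ζ.1‖ ^ 2 + ‖ζ.2‖ ^ 2) * sq1 z0 ^ 2 ≤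
      ‖1 + (z0.1 : ℂ) * ζ.1 + (z0.2 : ℂ) * ζ.2‖ ^ 2 +
        sq1 z0 ^ 2 * (‖ζ.1 - z0.1‖ ^ 2 + ‖ζ.2 - z0.2‖ ^ 2) := by
  rw [KosKernel_sq1_sq, Complex.sq_norm, Complex.sq_norm, Complex.sq_norm, Complex.sq_norm,
    Complex.sq_norm, Complex.normSq_apply, Complex.normSq_apply, Complex.normSq_apply,
    Complex.normSq_apply, Complex.normSq_apply]
  simp only [Complex.add_re, Complex.add_im, Complex.one_re, Complex.one_im, Complex.mul_re,
    Complex.mul_im, Complex.ofReal_re, Complex.ofReal_im, Complex.sub_re, Complex.sub_im]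
  nlinarith [sq_nonneg (z0.1 * (ζ.1.re - z0.1) + z0.2 * (ζ.2.re - z0.2)),
    sq_nonneg (z0.1 * ζ.1.im + z0.2 * ζ.2.im)]

/-- the variance of `X(ζ)/W(ζ)` is at most 2 at the scale `|(1,z0)|/(4√n)` -/
theorem kvar_le {n : ℕ} (hn : 1 ≤ n) (z0 : ℝ × ℝ) {ρ : ℝ} (hρ : 0 ≤ ρ)
    (hρn : ρ ^ 2 * n ≤ sq1 z0 ^ 2 / 16) {ζ : ℂ × ℂ} (h1 : ‖ζ.1 - z0.1‖ ≤ ρ)
    (h2 : ‖ζ.2 - z0.2‖ ≤ ρ) :
    ∑ p : KIdx n, ‖((kw n p : ℝ) : ℂ) * (ζ.1 ^ (p.1.1 : ℕ) * ζ.2 ^ (p.1.2 : ℕ)) /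
      kker n z0 ζ‖ ^ 2 ≤ 2 := by
  have hs := KosKernel_one_le z0
  have hn' : (1 : ℝ) ≤ n := by exact_mod_cast hn
  have hρs : ρ ≤ sq1 z0 / 4 := by
    have : ρ ^ 2 ≤ (sq1 z0 / 4) ^ 2 := by nlinarith [sq_nonneg ρ]
    exact le_of_sq_le_sq this (by linarith)
  have hlow := KosKernel_lower z0 (h1.trans hρs) (h2.trans hρs)
  have hlag := KosKernel_lagrange z0 ζ
  set N : ℝ := ‖1 + (z0.1 : ℂ) * ζ.1 + (z0.2 : ℂ) * ζ.2‖ with hN
  have hNpos : 0 < N := by nlinarith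
  have hterm : ∀ p : KIdx n, ‖((kw n p : ℝ) : ℂ) * (ζ.1 ^ (p.1.1 : ℕ) * ζ.2 ^ (p.1.2 : ℕ)) /
      kker n z0 ζ‖ ^ 2 = ((n.factorial : ℝ) / ((p.1.1 : ℕ).factorial *
      (p.1.2 : ℕ).factorial * (n - (p.1.1 : ℕ) - (p.1.2 : ℕ)).factorial)) *
      ((‖ζ.1‖ ^ 2) ^ (p.1.1 : ℕ) * (‖ζ.2‖ ^ 2) ^ (p.1.2 : ℕ)) / ‖kker n z0 ζ‖ ^ 2 := by
    intro p
    rw [norm_div, norm_mul, norm_mul, norm_pow, norm_pow, Complex.norm_real, div_pow, mul_pow,
      mul_pow, Real.norm_eq_abs, sq_abs, KosKernel_kw_sq]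
    ring_nf
  rw [Finset.sum_congr rfl fun p _ => hterm p, ← Finset.sum_div, kos_multinomial]
  have hk : ‖kker n z0 ζ‖ ^ 2 = (N ^ 2 / sq1 z0 ^ 2) ^ n := by
    unfold kker
    rw [norm_div, norm_pow, norm_pow, Complex.norm_real, Real.norm_eq_abs,
      abs_of_nonneg (by linarith : (0 : ℝ) ≤ sq1 z0), ← hN, ← div_pow, ← div_pow, ← pow_mul,
      ← pow_mul, mul_comm]
  have hq : 0 < N ^ 2 / sq1 z0 ^ 2 := by positivity
  rw [hk, ← div_pow]
  have hratio : (1 + ‖ζ.1‖ ^ 2 + ‖ζ.2‖ ^ 2) / (N ^ 2 / sq1 z0 ^ 2) ≤ 1 + 1 / (2 * n) := by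
    rw [div_div_eq_mul_div, div_le_iff₀ (by positivity)]
    refine hlag.trans ?_
    have e1 : ‖ζ.1 - z0.1‖ ^ 2 + ‖ζ.2 - z0.2‖ ^ 2 ≤ 2 * ρ ^ 2 := by
      have := pow_le_pow_left₀ (norm_nonneg _) h1 2
      have := pow_le_pow_left₀ (norm_nonneg _) h2 2
      linarith
    have e2 : 2 * ρ ^ 2 ≤ sq1 z0 ^ 2 / (8 * n) := by
      rw [le_div_iff₀ (by positivity)]
      nlinarith
    have e3 : sq1 z0 ^ 2 * (‖ζ.1 - z0.1‖ ^ 2 + ‖ζ.2 - z0.2‖ ^ 2) ≤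
        sq1 z0 ^ 2 * (sq1 z0 ^ 2 / (8 * n)) :=
      mul_le_mul_of_nonneg_left (e1.trans e2) (by positivity)
    have e4 : (sq1 z0 ^ 2 / 2) ^ 2 ≤ N ^ 2 := pow_le_pow_left₀ (by positivity) hlow 2
    have e5 : sq1 z0 ^ 2 * (sq1 z0 ^ 2 / (8 * n)) = (sq1 z0 ^ 2 / 2) ^ 2 * (1 / (2 * n)) := by
      field_simp
      ring
    have e6 : (sq1 z0 ^ 2 / 2) ^ 2 * (1 / (2 * n)) ≤ N ^ 2 * (1 / (2 * n)) :=
      mul_le_mul_of_nonneg_right e4 (by positivity)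
    nlinarith
  have hq0 : 0 ≤ (1 + ‖ζ.1‖ ^ 2 + ‖ζ.2‖ ^ 2) / (N ^ 2 / sq1 z0 ^ 2) := by positivity
  have hexp : (1 + 1 / (2 * (n : ℝ))) ^ n ≤ Real.exp (1 / 2) := by
    have e1 : 1 + 1 / (2 * (n : ℝ)) ≤ Real.exp (1 / (2 * n)) := by
      have := Real.add_one_le_exp (1 / (2 * (n : ℝ)))
      linarith
    calc (1 + 1 / (2 * (n : ℝ))) ^ n ≤ (Real.exp (1 / (2 * n))) ^ n :=
          pow_le_pow_left₀ (by positivity) e1 n
      _ = Real.exp (1 / 2) := by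
        rw [← Real.exp_nat_mul]
        congr 1
        field_simp
  have htwo : Real.exp (1 / 2) ≤ 2 := by
    have e1 : Real.exp (1 / 2) ^ 2 ≤ 2 ^ 2 := by
      rw [← Real.exp_nat_mul]
      have : ((2 : ℕ) : ℝ) * (1 / 2) = 1 := by norm_num
      rw [this]
      have := Real.exp_one_lt_d9
      linarith
    exact le_of_sq_le_sq e1 (by norm_num)
  exact ((pow_le_pow_left₀ hq0 hratio n).trans hexp).trans htwo

end Pool.Agent.Lib.MP_95e7ec_an
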