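import Mathlib
import Pool.Agent.Lib.MP_95e7ec_an.KosKernel

/-!
# The direction of `(1+x²+y²)^m` in the Kostlan coefficients (task E1)
-/

set_option autoImplicit false

open Set Filter Topology MeasureTheory ProbabilityTheory
open scoped ContDiff ENNReal

namespace Pool.Agent.Lib.MP_95e7ec_an

/-- the values of a polynomial are bounded by its coefficients in the Kostlan basis -/
theorem abs_eval_kPoly_le (n : ℕ) (b : KIdx n → ℝ) (z : ℝ × ℝ) :
    |MvPolynomial.eval ![z.1, z.2] (kPoly n b)| ≤ (∑ p, |b p|) * sq1 z ^ n := by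
  have hs : 0 < sq1 z := zero_lt_one.trans_le (KosKernel_one_le z)
  rw [KosKernel_eval]
  have h1 : ∀ p : KIdx n, |kdir n z p| ≤ 1 := by
    intro p
    have h := sum_kdir_sq n z
    have h2 : kdir n z p ^ 2 ≤ ∑ q, kdir n z q ^ 2 :=
      Finset.single_le_sum (f := fun q => kdir n z q ^ 2) (fun q _ => sq_nonneg _)
        (Finset.mem_univ p)
    rw [h] at h2
    exact (sq_le_one_iff_abs_le_one _).1 h2
  have h2 : ∀ p : KIdx n, kw n p * b p * (z.1 ^ (p.1.1 : ℕ) * z.2 ^ (p.1.2 : ℕ)) =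
      b p * kdir n z p * sq1 z ^ n := by
    intro p
    unfold kdir
    field_simp
  refine (Finset.abs_sum_le_sum_abs _ _).trans ?_
  rw [Finset.sum_mul]
  refine Finset.sum_le_sum fun p _ => ?_
  rw [h2, abs_mul, abs_mul, abs_of_pos (pow_pos hs n)]
  have := h1 p
  have h3 := abs_nonneg (b p)
  have h4 : |b p| * |kdir n z p| ≤ |b p| := by nlinarith
  exact mul_le_mul_of_nonneg_right h4 (pow_pos hs n).le

theorem KosEven_choose_sq (a b : ℕ) : (a.choose b) ^ 2 ≤ (2 * a).choose (2 * b) := by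
  rw [two_mul a, Nat.add_choose_eq]
  have : (b, b) ∈ Finset.HasAntidiagonal.antidiagonal (2 * b) := by
    rw [Finset.HasAntidiagonal.mem_antidiagonal]; ring
  have h := Finset.single_le_sum (f := fun ij : ℕ × ℕ => a.choose ij.1 * a.choose ij.2)
    (fun _ _ => Nat.zero_le _) this
  simpa [sq] using h

/-- the embedding `(i,j) ↦ (2i,2j)` -/
def KosEven_emb (m : ℕ) (q : KIdx m) : KIdx (2 * m) :=
  ⟨(⟨2 * q.1.1, by have := q.1.1.2; omega⟩, ⟨2 * q.1.2, by have := q.1.2.2; omega⟩), by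
    have := q.2; simp only; omega⟩

theorem KosEven_emb_inj (m : ℕ) : Function.Injective (KosEven_emb m) := by
  rintro ⟨⟨⟨i, hi⟩, ⟨j, hj⟩⟩, h⟩ ⟨⟨⟨i', hi'⟩, ⟨j', hj'⟩⟩, h'⟩ he
  simp only [KosEven_emb, Subtype.mk.injEq, Prod.mk.injEq, Fin.mk.injEq] at he ⊢
  omega

theorem KosEven_card (m : ℕ) : Fintype.card (KIdx m) ≤ (m + 1) ^ 2 := by
  have h := Fintype.card_subtype_le (fun p : Fin (m + 1) × Fin (m + 1) => (p.1 : ℕ) + (p.2 : ℕ) ≤ m)
  rw [Fintype.card_prod, Fintype.card_fin] at h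
  rw [sq]
  exact h

/-- the multinomial coefficient -/
noncomputable def KosEven_c (m : ℕ) (q : KIdx m) : ℝ :=
  (m.factorial : ℝ) / ((q.1.1 : ℕ).factorial * (q.1.2 : ℕ).factorial *
        (m - (q.1.1 : ℕ) - (q.1.2 : ℕ)).factorial)

theorem KosEven_kw_pos (n : ℕ) (p : KIdx n) : 0 < kw n p := by
  unfold kw
  apply Real.sqrt_pos.2
  positivity

theorem KosEven_c_sq (m : ℕ) (q : KIdx m) :
    KosEven_c m q ^ 2 ≤ kw (2 * m) (KosEven_emb m q) ^ 2 := by
  rw [KosKernel_kw_sq]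
  unfold KosEven_c
  have h1 : (q.1.1 : ℕ) + (q.1.2 : ℕ) ≤ m := q.2
  have e1 : ((KosEven_emb m q).1.1 : ℕ) = 2 * (q.1.1 : ℕ) := rfl
  have e2 : ((KosEven_emb m q).1.2 : ℕ) = 2 * (q.1.2 : ℕ) := rfl
  rw [e1, e2, KosKernel_choose h1, KosKernel_choose (by omega)]
  have h2 := KosEven_choose_sq m q.1.1
  have h3 := KosEven_choose_sq (m - q.1.1) q.1.2
  have h4 : 2 * (m - (q.1.1 : ℕ)) = 2 * m - 2 * (q.1.1 : ℕ) := by omega
  rw [h4] at h3
  have h5 := Nat.mul_le_mul h2 h3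
  have h6 : (((m.choose (q.1.1 : ℕ) ^ 2 * (m - (q.1.1 : ℕ)).choose (q.1.2 : ℕ) ^ 2 : ℕ)) : ℝ) ≤
      (((2 * m).choose (2 * (q.1.1 : ℕ)) *
        (2 * m - 2 * (q.1.1 : ℕ)).choose (2 * (q.1.2 : ℕ)) : ℕ) : ℝ) := by exact_mod_cast h5
  push_cast at h6
  rw [mul_pow]
  exact h6

/-- the direction of `(1+x²+y²)^m` -/
theorem exists_even_dir (m : ℕ) :
    ∃ (v : KIdx (2 * m) → ℝ) (N : ℝ), 1 ≤ N ∧ N ≤ m + 1 ∧ ∑ p, v p ^ 2 = 1 ∧
      kPoly (2 * m) v = MvPolynomial.C N⁻¹ * wPoly m := by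
  classical
  set e := KosEven_emb m with he
  have hinj := KosEven_emb_inj m
  set u : KIdx (2 * m) → ℝ :=
    Function.extend e (fun q => KosEven_c m q / kw (2 * m) (e q)) 0 with hu
  have hue : ∀ q, u (e q) = KosEven_c m q / kw (2 * m) (e q) := by
    intro q; rw [hu, hinj.extend_apply]
  have hu0 : ∀ p, p ∉ Set.range e → u p = 0 := by
    intro p hp
    rw [hu, Function.extend_apply' _ _ _ (by simpa using hp)]
    rfl
  have hsum : ∑ q, (KosEven_c m q / kw (2 * m) (e q)) ^ 2 = ∑ p, u p ^ 2 :=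
    Fintype.sum_of_injective e hinj _ _ (fun p hp => by rw [hu0 p hp]; norm_num)
      (fun q => by rw [hue])
  set S := ∑ p, u p ^ 2 with hS
  have hS1 : 1 ≤ S := by
    rw [← hsum]
    have h0 : (⟨(⟨0, by omega⟩, ⟨0, by omega⟩), by simp⟩ : KIdx m) ∈
        (Finset.univ : Finset (KIdx m)) := Finset.mem_univ _
    have h := Finset.single_le_sum
      (f := fun q : KIdx m => (KosEven_c m q / kw (2 * m) (e q)) ^ 2)
      (fun q _ => sq_nonneg _) h0
    refine le_trans (le_of_eq ?_) h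
    have f1 : KosEven_c m ⟨(⟨0, by omega⟩, ⟨0, by omega⟩), by simp⟩ = 1 := by
      have : (m.factorial : ℝ) ≠ 0 := by exact_mod_cast Nat.factorial_ne_zero _
      simp [KosEven_c, this]
    have f2 : kw (2 * m) (e ⟨(⟨0, by omega⟩, ⟨0, by omega⟩), by simp⟩) = 1 := by
      have : ((2 * m).factorial : ℝ) ≠ 0 := by exact_mod_cast Nat.factorial_ne_zero _
      simp [kw, he, KosEven_emb, this]
    simp only [f1, f2]
    norm_num
  have hS2 : S ≤ ((m : ℝ) + 1) ^ 2 := by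
    rw [← hsum]
    have : ∀ q ∈ (Finset.univ : Finset (KIdx m)),
        (KosEven_c m q / kw (2 * m) (e q)) ^ 2 ≤ 1 := by
      intro q _
      rw [div_pow, div_le_one (pow_pos (KosEven_kw_pos _ _) 2)]
      exact KosEven_c_sq m q
    refine (Finset.sum_le_card_nsmul _ _ _ this).trans ?_
    rw [nsmul_eq_mul, mul_one, Finset.card_univ]
    have := KosEven_card m
    exact_mod_cast this
  have hN1 : 1 ≤ Real.sqrt S := by rw [Real.one_le_sqrt]; exact hS1
  have hN0 : Real.sqrt S ≠ 0 := by positivity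
  refine ⟨fun p => (Real.sqrt S)⁻¹ * u p, Real.sqrt S, hN1, ?_, ?_, ?_⟩
  · rw [Real.sqrt_le_left (by positivity)]; exact hS2
  · simp_rw [mul_pow]
    rw [← Finset.mul_sum, ← hS, inv_pow, Real.sq_sqrt (by linarith)]
    exact inv_mul_cancel₀ (by linarith)
  · refine MvPolynomial.funext fun x => ?_
    have hx : x = ![x 0, x 1] := by
      ext i; fin_cases i <;> rfl
    rw [hx, KosKernel_eval]
    unfold wPoly
    simp only [map_mul, map_pow, map_add, map_one, MvPolynomial.eval_C, MvPolynomial.eval_X,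
      Matrix.cons_val_zero, Matrix.cons_val_one]
    rw [← kos_multinomial m (x 0 ^ 2) (x 1 ^ 2), Finset.mul_sum]
    symm
    refine Fintype.sum_of_injective e hinj _ _ ?_ ?_
    · intro p hp
      rw [hu0 p hp]; ring
    · intro q
      rw [hue]
      have hk := (KosEven_kw_pos (2 * m) (e q)).ne'
      have e1 : ((e q).1.1 : ℕ) = 2 * (q.1.1 : ℕ) := rfl
      have e2 : ((e q).1.2 : ℕ) = 2 * (q.1.2 : ℕ) := rfl
      rw [e1, e2, pow_mul, pow_mul]
      unfold KosEven_c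
      field_simp

end Pool.Agent.Lib.MP_95e7ec_an
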