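import Mathlib
import Pool.Agent.Lib.MP_95e7ec_an.KosKernel
import Pool.Agent.Lib.MP_95e7ec_an.Cauchy2
import Pool.Agent.Lib.MP_95e7ec_an.WeightArr
import Pool.Agent.Lib.MP_95e7ec_an.Arr
import Pool.Agent.Lib.MP_95e7ec_an.ShiftArr
import Pool.Agent.Lib.MP_95e7ec_an.KosDefs

/-!
# The gauge: a polynomial factor which makes the kernel nearly constant on a disc

On the disc `disc z0 r`, `r √n ≤ |(1,z0)|/8`, the field `X + t W` (`W` the reproducing kernel at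
`z0`) is multiplied by a positive polynomial `G` with `G W = 1 - v ^ N`, `0 ≤ v ≤ θ < 1`.
-/

set_option autoImplicit false

open Set Filter Topology MeasureTheory ProbabilityTheory
open scoped ContDiff ENNReal

namespace Pool.Agent.Lib.MP_95e7ec_an

/-! ### One variable -/

/-- `1 - (1+s)^n / (9/8)^n` -/
noncomputable def kgH (n : ℕ) (s : ℝ) : ℝ := 1 - (1 + s) ^ n / (9 / 8 : ℝ) ^ n

noncomputable def kgH1 (n : ℕ) (s : ℝ) : ℝ := -(n * (1 + s) ^ (n - 1) / (9 / 8 : ℝ) ^ n)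

noncomputable def kgH2 (n : ℕ) (s : ℝ) : ℝ :=
  -(n * (((n - 1 : ℕ) : ℝ) * (1 + s) ^ (n - 1 - 1)) / (9 / 8 : ℝ) ^ n)

theorem kgH_deriv (n : ℕ) (s : ℝ) : HasDerivAt (kgH n) (kgH1 n s) s := by
  have h1 : HasDerivAt (fun s : ℝ => 1 + s) 1 s := (hasDerivAt_id s).const_add 1
  have h2 : HasDerivAt (fun s : ℝ => 1 - (1 + s) ^ n / (9 / 8 : ℝ) ^ n)
      (-(n * (1 + s) ^ (n - 1) * 1 / (9 / 8 : ℝ) ^ n)) s :=
    ((h1.fun_pow n).div_const ((9 / 8 : ℝ) ^ n)).const_sub 1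
  exact h2.congr_deriv (by unfold kgH1; ring)

theorem kgH1_deriv (n : ℕ) (s : ℝ) : HasDerivAt (kgH1 n) (kgH2 n s) s := by
  have h1 : HasDerivAt (fun s : ℝ => 1 + s) 1 s := (hasDerivAt_id s).const_add 1
  have h2 : HasDerivAt (fun s : ℝ => -((n : ℝ) * (1 + s) ^ (n - 1) / (9 / 8 : ℝ) ^ n))
      (-((n : ℝ) * (((n - 1 : ℕ) : ℝ) * (1 + s) ^ (n - 1 - 1) * 1) / (9 / 8 : ℝ) ^ n)) s :=
    (((h1.fun_pow (n - 1)).const_mul (n : ℝ)).div_const ((9 / 8 : ℝ) ^ n)).fun_neg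
  exact h2.congr_deriv (by unfold kgH2; ring)

theorem kg_pow_le {n k : ℕ} (hk : k ≤ n) {s : ℝ} (hs : |s| ≤ 1 / 8) :
    0 ≤ (1 + s) ^ k / (9 / 8 : ℝ) ^ n ∧ (1 + s) ^ k / (9 / 8 : ℝ) ^ n ≤ 1 := by
  have h := abs_le.1 hs
  have h0 : 0 ≤ 1 + s := by linarith [h.1]
  refine ⟨by positivity, ?_⟩
  rw [div_le_one (by positivity)]
  calc (1 + s) ^ k ≤ (9 / 8 : ℝ) ^ k := pow_le_pow_left₀ h0 (by linarith [h.2]) k
    _ ≤ (9 / 8 : ℝ) ^ n := pow_le_pow_right₀ (by norm_num) hk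

theorem kgH_mem {n : ℕ} {s : ℝ} (hs : |s| ≤ 1 / 8) :
    0 ≤ kgH n s ∧ kgH n s ≤ 1 - (7 / 9 : ℝ) ^ n := by
  have h1 := kg_pow_le (le_refl n) hs
  have h := abs_le.1 hs
  refine ⟨by unfold kgH; linarith [h1.2], ?_⟩
  unfold kgH
  have h2 : (7 / 9 : ℝ) ^ n ≤ (1 + s) ^ n / (9 / 8 : ℝ) ^ n := by
    rw [← div_pow]
    refine pow_le_pow_left₀ (by norm_num) ?_ n
    rw [le_div_iff₀ (by norm_num)]
    linarith [h.1]
  linarith

theorem kgH1_abs {n : ℕ} {s : ℝ} (hs : |s| ≤ 1 / 8) : |kgH1 n s| ≤ n := by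
  have h1 := kg_pow_le (Nat.sub_le n 1) hs
  unfold kgH1
  rw [abs_neg, mul_div_assoc, abs_mul, abs_of_nonneg h1.1, abs_of_nonneg (Nat.cast_nonneg n)]
  nlinarith [h1.2, (Nat.cast_nonneg n : (0 : ℝ) ≤ n)]

theorem kgH2_abs {n : ℕ} {s : ℝ} (hs : |s| ≤ 1 / 8) : |kgH2 n s| ≤ (n : ℝ) ^ 2 := by
  have h1 := kg_pow_le (show n - 1 - 1 ≤ n by omega) hs
  unfold kgH2
  have h2 : (n : ℝ) * (((n - 1 : ℕ) : ℝ) * (1 + s) ^ (n - 1 - 1)) / (9 / 8 : ℝ) ^ n =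
      (n * ((n - 1 : ℕ) : ℝ)) * ((1 + s) ^ (n - 1 - 1) / (9 / 8 : ℝ) ^ n) := by ring
  rw [abs_neg, h2, abs_mul, abs_of_nonneg h1.1, abs_of_nonneg (by positivity)]
  have h3 : ((n - 1 : ℕ) : ℝ) ≤ n := by exact_mod_cast Nat.sub_le n 1
  have h4 : (0 : ℝ) ≤ ((n - 1 : ℕ) : ℝ) := Nat.cast_nonneg _
  have h5 : (0 : ℝ) ≤ n := Nat.cast_nonneg _
  calc (n * ((n - 1 : ℕ) : ℝ)) * ((1 + s) ^ (n - 1 - 1) / (9 / 8 : ℝ) ^ n)
      ≤ (n * ((n - 1 : ℕ) : ℝ)) * 1 := mul_le_mul_of_nonneg_left h1.2 (by positivity)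
    _ ≤ (n : ℝ) ^ 2 := by rw [mul_one, sq]; exact mul_le_mul_of_nonneg_left h3 h5

/-- `1 - kgH ^ (M+2)` -/
noncomputable def kgQ (n M : ℕ) (s : ℝ) : ℝ := 1 - kgH n s ^ (M + 2)

noncomputable def kgQ1 (n M : ℕ) (s : ℝ) : ℝ := -((M + 2) * kgH n s ^ (M + 1) * kgH1 n s)

noncomputable def kgQ2 (n M : ℕ) (s : ℝ) : ℝ :=
  -((M + 2) * ((M + 1) * kgH n s ^ M * kgH1 n s) * kgH1 n s +
    (M + 2) * kgH n s ^ (M + 1) * kgH2 n s)

theorem kgQ_deriv (n M : ℕ) (s : ℝ) : HasDerivAt (kgQ n M) (kgQ1 n M s) s := by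
  have h2 : HasDerivAt (fun s : ℝ => 1 - kgH n s ^ (M + 2))
      (-(((M + 2 : ℕ) : ℝ) * kgH n s ^ (M + 2 - 1) * kgH1 n s)) s :=
    ((kgH_deriv n s).fun_pow (M + 2)).const_sub 1
  refine h2.congr_deriv ?_
  rw [show M + 2 - 1 = M + 1 from rfl]
  unfold kgQ1
  push_cast
  ring

theorem kgQ1_deriv (n M : ℕ) (s : ℝ) : HasDerivAt (kgQ1 n M) (kgQ2 n M s) s := by
  have h2 : HasDerivAt (fun s : ℝ => -(((M : ℝ) + 2) * kgH n s ^ (M + 1) * kgH1 n s))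
      (-(((M : ℝ) + 2) * (((M + 1 : ℕ) : ℝ) * kgH n s ^ (M + 1 - 1) * kgH1 n s) * kgH1 n s +
        ((M : ℝ) + 2) * kgH n s ^ (M + 1) * kgH2 n s)) s :=
    ((((kgH_deriv n s).fun_pow (M + 1)).const_mul ((M : ℝ) + 2)).fun_mul (kgH1_deriv n s)).fun_neg
  refine h2.congr_deriv ?_
  rw [show M + 1 - 1 = M from rfl]
  unfold kgQ2
  push_cast
  ring

/-- the choice of the exponent -/
theorem kg_choice {n : ℕ} (hn : 1 ≤ n) {ε : ℝ} (hε : 0 < ε) : ∃ M : ℕ, ∀ s : ℝ, |s| ≤ 1 / 8 →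
    1 - ε ≤ kgQ n M s ∧ kgQ n M s ≤ 1 ∧ |kgQ1 n M s| ≤ ε ∧ |kgQ2 n M s| ≤ ε := by
  set θ : ℝ := 1 - (7 / 9 : ℝ) ^ n with hθ
  have hθ0 : 0 ≤ θ := by
    have : (7 / 9 : ℝ) ^ n ≤ 1 := pow_le_one₀ (by norm_num) (by norm_num)
    linarith
  have hθ1 : θ < 1 := by
    have : 0 < (7 / 9 : ℝ) ^ n := by positivity
    linarith
  have habs : |θ| < 1 := by rwa [abs_of_nonneg hθ0]
  have hlim : Tendsto (fun M : ℕ => 2 * (n : ℝ) ^ 2 * (((M : ℝ) + 2) ^ 2 * θ ^ M)) atTop (𝓝 0) := by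
    have h2 := tendsto_pow_const_mul_const_pow_of_abs_lt_one 2 habs
    have h1 := tendsto_pow_const_mul_const_pow_of_abs_lt_one 1 habs
    have h0 := tendsto_pow_const_mul_const_pow_of_abs_lt_one 0 habs
    have h3 := ((h2.add (h1.const_mul 4)).add (h0.const_mul 4)).const_mul (2 * (n : ℝ) ^ 2)
    simp only [mul_zero, add_zero] at h3
    refine h3.congr fun M => ?_
    simp only [pow_zero, pow_one, one_mul]
    ring
  obtain ⟨M, hM⟩ := (hlim.eventually (gt_mem_nhds hε)).exists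
  refine ⟨M, fun s hs => ?_⟩
  obtain ⟨hH0, hH1⟩ := kgH_mem (n := n) hs
  rw [← hθ] at hH1
  have hn1 : (1 : ℝ) ≤ n := by exact_mod_cast hn
  have hM0 : (0 : ℝ) ≤ M := Nat.cast_nonneg M
  have hp : ∀ k, kgH n s ^ k ≤ θ ^ k := fun k => pow_le_pow_left₀ hH0 hH1 k
  have hpM : θ ^ (M + 1) ≤ θ ^ M := pow_le_pow_of_le_one hθ0 hθ1.le (by omega)
  have hpM2 : θ ^ (M + 2) ≤ θ ^ M := pow_le_pow_of_le_one hθ0 hθ1.le (by omega)
  have hθM : 0 ≤ θ ^ M := pow_nonneg hθ0 M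
  have hK0 : 0 ≤ kgH n s ^ (M + 1) := pow_nonneg hH0 _
  have hK1 : 0 ≤ kgH n s ^ M := pow_nonneg hH0 _
  have hK2 : 0 ≤ kgH n s ^ (M + 2) := pow_nonneg hH0 _
  have hn2 : (1 : ℝ) ≤ (n : ℝ) ^ 2 := by nlinarith
  have hbig : θ ^ M ≤ 2 * (n : ℝ) ^ 2 * (((M : ℝ) + 2) ^ 2 * θ ^ M) := by
    have : 1 ≤ 2 * (n : ℝ) ^ 2 * ((M : ℝ) + 2) ^ 2 := by nlinarith
    nlinarith
  have h1 := kgH1_abs (n := n) hs
  have h2 := kgH2_abs (n := n) hs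
  refine ⟨?_, ?_, ?_, ?_⟩
  · unfold kgQ
    have := hp (M + 2)
    linarith
  · unfold kgQ
    linarith
  · unfold kgQ1
    rw [abs_neg, abs_mul, abs_mul, abs_of_nonneg hK0, abs_of_nonneg (by positivity)]
    calc ((M : ℝ) + 2) * kgH n s ^ (M + 1) * |kgH1 n s| ≤ ((M : ℝ) + 2) * θ ^ M * n := by
          refine mul_le_mul (mul_le_mul_of_nonneg_left ((hp _).trans hpM) (by positivity)) h1
            (abs_nonneg _) (by positivity)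
      _ ≤ 2 * (n : ℝ) ^ 2 * (((M : ℝ) + 2) ^ 2 * θ ^ M) := by
          have : ((M : ℝ) + 2) * n ≤ 2 * (n : ℝ) ^ 2 * ((M : ℝ) + 2) ^ 2 := by
            have e1 : (n : ℝ) ≤ 2 * (n : ℝ) ^ 2 := by nlinarith
            have e2 : (M : ℝ) + 2 ≤ ((M : ℝ) + 2) ^ 2 := by nlinarith
            nlinarith
          nlinarith
      _ ≤ ε := hM.le
  · unfold kgQ2
    rw [abs_neg]
    refine (abs_add_le _ _).trans ?_
    have e1 : |((M : ℝ) + 2) * ((M + 1) * kgH n s ^ M * kgH1 n s) * kgH1 n s| ≤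
        (n : ℝ) ^ 2 * (((M : ℝ) + 2) ^ 2 * θ ^ M) := by
      rw [abs_mul, abs_mul, abs_mul, abs_mul, abs_of_nonneg hK1,
        abs_of_nonneg (show (0 : ℝ) ≤ (M : ℝ) + 2 by positivity),
        abs_of_nonneg (show (0 : ℝ) ≤ (M : ℝ) + 1 by positivity)]
      calc ((M : ℝ) + 2) * ((M + 1) * kgH n s ^ M * |kgH1 n s|) * |kgH1 n s|
          ≤ ((M : ℝ) + 2) * ((M + 2) * θ ^ M * n) * n := by
            refine mul_le_mul (mul_le_mul_of_nonneg_left ?_ (by positivity)) h1 (abs_nonneg _)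
              (by positivity)
            refine mul_le_mul (mul_le_mul (by linarith) (hp M) hK1 (by positivity)) h1
              (abs_nonneg _) (by positivity)
        _ = _ := by ring
    have e2 : |((M : ℝ) + 2) * kgH n s ^ (M + 1) * kgH2 n s| ≤
        (n : ℝ) ^ 2 * (((M : ℝ) + 2) ^ 2 * θ ^ M) := by
      rw [abs_mul, abs_mul, abs_of_nonneg hK0,
        abs_of_nonneg (show (0 : ℝ) ≤ (M : ℝ) + 2 by positivity)]
      calc ((M : ℝ) + 2) * kgH n s ^ (M + 1) * |kgH2 n s|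
          ≤ ((M : ℝ) + 2) ^ 2 * θ ^ M * (n : ℝ) ^ 2 := by
            refine mul_le_mul (mul_le_mul (by nlinarith) ((hp _).trans hpM) hK0 (by positivity)) h2
              (abs_nonneg _) (by positivity)
        _ = _ := by ring
    linarith [hM.le]

/-! ### Derivative data -/

/-- `f` has the first partial derivatives `f1, f2` and the second ones `f11, f12, f21, f22` at the
points of `K` -/
structure KgD (K : Set (ℝ × ℝ)) (f f1 f2 f11 f12 f21 f22 : ℝ × ℝ → ℝ) : Prop where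
  d1 : ∀ z ∈ K, HasDerivAt (fun x => f (x, z.2)) (f1 z) z.1
  d2 : ∀ z ∈ K, HasDerivAt (fun y => f (z.1, y)) (f2 z) z.2
  d11 : ∀ z ∈ K, HasDerivAt (fun x => f1 (x, z.2)) (f11 z) z.1
  d12 : ∀ z ∈ K, HasDerivAt (fun y => f1 (z.1, y)) (f12 z) z.2
  d21 : ∀ z ∈ K, HasDerivAt (fun x => f2 (x, z.2)) (f21 z) z.1
  d22 : ∀ z ∈ K, HasDerivAt (fun y => f2 (z.1, y)) (f22 z) z.2

theorem KgD.mul {K : Set (ℝ × ℝ)} {f f1 f2 f11 f12 f21 f22 g g1 g2 g11 g12 g21 g22 : ℝ × ℝ → ℝ}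
    (hf : KgD K f f1 f2 f11 f12 f21 f22) (hg : KgD K g g1 g2 g11 g12 g21 g22) :
    KgD K (fun z => f z * g z) (fun z => f1 z * g z + f z * g1 z)
      (fun z => f2 z * g z + f z * g2 z)
      (fun z => f11 z * g z + f1 z * g1 z + (f1 z * g1 z + f z * g11 z))
      (fun z => f12 z * g z + f1 z * g2 z + (f2 z * g1 z + f z * g12 z))
      (fun z => f21 z * g z + f2 z * g1 z + (f1 z * g2 z + f z * g21 z))
      (fun z => f22 z * g z + f2 z * g2 z + (f2 z * g2 z + f z * g22 z)) where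
  d1 z hz := (hf.d1 z hz).fun_mul (hg.d1 z hz)
  d2 z hz := (hf.d2 z hz).fun_mul (hg.d2 z hz)
  d11 z hz := ((hf.d11 z hz).fun_mul (hg.d1 z hz)).fun_add ((hf.d1 z hz).fun_mul (hg.d11 z hz))
  d12 z hz := ((hf.d12 z hz).fun_mul (hg.d2 z hz)).fun_add ((hf.d2 z hz).fun_mul (hg.d12 z hz))
  d21 z hz := ((hf.d21 z hz).fun_mul (hg.d1 z hz)).fun_add ((hf.d1 z hz).fun_mul (hg.d21 z hz))
  d22 z hz := ((hf.d22 z hz).fun_mul (hg.d2 z hz)).fun_add ((hf.d2 z hz).fun_mul (hg.d22 z hz))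

theorem KgD.add_const {K : Set (ℝ × ℝ)} {f f1 f2 f11 f12 f21 f22 : ℝ × ℝ → ℝ}
    (hf : KgD K f f1 f2 f11 f12 f21 f22) (c : ℝ) :
    KgD K (fun z => f z + c) f1 f2 f11 f12 f21 f22 where
  d1 z hz := (hf.d1 z hz).add_const c
  d2 z hz := (hf.d2 z hz).add_const c
  d11 := hf.d11
  d12 := hf.d12
  d21 := hf.d21
  d22 := hf.d22

theorem kg_uniq1 {D : ℕ} (c : Co D) {K : Set (ℝ × ℝ)} (hK : IsOpen K) {F F1 F2 : ℝ × ℝ → ℝ}
    (hF : ∀ z ∈ K, pe c z.1 z.2 = F z)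
    (h1 : ∀ z ∈ K, HasDerivAt (fun x => F (x, z.2)) (F1 z) z.1)
    (h2 : ∀ z ∈ K, HasDerivAt (fun y => F (z.1, y)) (F2 z) z.2) :
    ∀ z ∈ K, pex c z.1 z.2 = F1 z ∧ pey c z.1 z.2 = F2 z := by
  intro z hz
  constructor
  · have e1 := pe_hasDerivAt c (hasDerivAt_id z.1) (hasDerivAt_const z.1 z.2)
    have hn : ∀ᶠ x in 𝓝 z.1, pe c x z.2 = F (x, z.2) := by
      have hc : Continuous fun x : ℝ => (x, z.2) := by fun_prop
      filter_upwards [(hK.preimage hc).mem_nhds (show z.1 ∈ (fun x : ℝ => (x, z.2)) ⁻¹' K from hz)]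
        with x hx
      exact hF (x, z.2) hx
    have e2 := (h1 z hz).congr_of_eventuallyEq hn
    have e3 := e1.unique e2
    simpa using e3
  · have e1 := pe_hasDerivAt c (hasDerivAt_const z.2 z.1) (hasDerivAt_id z.2)
    have hn : ∀ᶠ y in 𝓝 z.2, pe c z.1 y = F (z.1, y) := by
      have hc : Continuous fun y : ℝ => (z.1, y) := by fun_prop
      filter_upwards [(hK.preimage hc).mem_nhds (show z.2 ∈ (fun y : ℝ => (z.1, y)) ⁻¹' K from hz)]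
        with y hy
      exact hF (z.1, y) hy
    have e2 := (h2 z hz).congr_of_eventuallyEq hn
    have e3 := e1.unique e2
    simpa using e3

theorem kg_uniq {D : ℕ} (c : Co D) {K : Set (ℝ × ℝ)} (hK : IsOpen K)
    {F F1 F2 F11 F12 F21 F22 : ℝ × ℝ → ℝ} (hF : ∀ z ∈ K, pe c z.1 z.2 = F z)
    (h : KgD K F F1 F2 F11 F12 F21 F22) :
    ∀ z ∈ K, pex c z.1 z.2 = F1 z ∧ pey c z.1 z.2 = F2 z ∧ pex (dX c) z.1 z.2 = F11 z ∧
      pey (dX c) z.1 z.2 = F12 z ∧ pex (dY c) z.1 z.2 = F21 z ∧ pey (dY c) z.1 z.2 = F22 z := by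
  have h1 := kg_uniq1 c hK hF h.d1 h.d2
  have h2 := kg_uniq1 (dX c) hK (F := F1) (fun z hz => by rw [pe_dX]; exact (h1 z hz).1) h.d11 h.d12
  have h3 := kg_uniq1 (dY c) hK (F := F2) (fun z hz => by rw [pe_dY]; exact (h1 z hz).2) h.d21 h.d22
  exact fun z hz => ⟨(h1 z hz).1, (h1 z hz).2, (h2 z hz).1, (h2 z hz).2, (h3 z hz).1, (h3 z hz).2⟩

/-! ### The linear form -/

/-- `ℓ(z) = (z - z0)·z0 / |(1,z0)|²` -/
noncomputable def kgL (z0 z : ℝ × ℝ) : ℝ :=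
  z0.1 / sq1 z0 ^ 2 * (z.1 - z0.1) + z0.2 / sq1 z0 ^ 2 * (z.2 - z0.2)

theorem kgL_dx (z0 : ℝ × ℝ) (x y : ℝ) :
    HasDerivAt (fun x => kgL z0 (x, y)) (z0.1 / sq1 z0 ^ 2) x := by
  have h : HasDerivAt (fun x : ℝ => z0.1 / sq1 z0 ^ 2 * (x - z0.1) +
      z0.2 / sq1 z0 ^ 2 * (y - z0.2)) (z0.1 / sq1 z0 ^ 2 * 1) x :=
    (((hasDerivAt_id x).sub_const z0.1).const_mul _).add_const _
  exact h.congr_deriv (mul_one _)

theorem kgL_dy (z0 : ℝ × ℝ) (x y : ℝ) :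
    HasDerivAt (fun y => kgL z0 (x, y)) (z0.2 / sq1 z0 ^ 2) y := by
  have h : HasDerivAt (fun y : ℝ => z0.1 / sq1 z0 ^ 2 * (x - z0.1) +
      z0.2 / sq1 z0 ^ 2 * (y - z0.2)) (z0.2 / sq1 z0 ^ 2 * 1) y :=
    (((hasDerivAt_id y).sub_const z0.2).const_mul _).const_add _
  exact h.congr_deriv (mul_one _)

theorem kgL_coef (z0 : ℝ × ℝ) : |z0.1 / sq1 z0 ^ 2| ≤ 1 ∧ |z0.2 / sq1 z0 ^ 2| ≤ 1 := by
  have h1 := one_le_sq1 z0
  obtain ⟨ha, hb⟩ := KosKernel_abs_le z0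
  have h2 : sq1 z0 ≤ sq1 z0 ^ 2 := by nlinarith
  have h3 : (0 : ℝ) < sq1 z0 ^ 2 := by positivity
  constructor
  · rw [abs_div, abs_of_pos h3, div_le_one h3]; linarith
  · rw [abs_div, abs_of_pos h3, div_le_one h3]; linarith

theorem kgL_abs {z0 : ℝ × ℝ} {r : ℝ} (hr : 0 < r) (hr8 : r ≤ sq1 z0 / 8) {z : ℝ × ℝ}
    (hz : z ∈ disc z0 r) : |kgL z0 z| ≤ 1 / 8 := by
  have h1 := one_le_sq1 z0
  have h2 := sq1_sq z0
  simp only [disc, Set.mem_ofPred_eq] at hz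
  have h3 : |z0.1 * (z.1 - z0.1) + z0.2 * (z.2 - z0.2)| ≤ r * sq1 z0 := by
    refine abs_le_of_sq_le_sq ?_ (by positivity)
    rw [mul_pow, h2]
    nlinarith [sq_nonneg (z0.1 * (z.2 - z0.2) - z0.2 * (z.1 - z0.1)), sq_nonneg (z.1 - z0.1),
      sq_nonneg (z.2 - z0.2), sq_nonneg z0.1, sq_nonneg z0.2]
  have h4 : kgL z0 z = (z0.1 * (z.1 - z0.1) + z0.2 * (z.2 - z0.2)) / sq1 z0 ^ 2 := by
    unfold kgL; ring
  have h5 : (0 : ℝ) < sq1 z0 ^ 2 := by positivity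
  rw [h4, abs_div, abs_of_pos h5, div_le_iff₀ h5]
  refine h3.trans ?_
  nlinarith

theorem kgL_id (z0 z : ℝ × ℝ) : 1 + z0.1 * z.1 + z0.2 * z.2 = sq1 z0 ^ 2 * (1 + kgL z0 z) := by
  have h5 : (0 : ℝ) < sq1 z0 ^ 2 := by have := sq1_pos z0; positivity
  have h4 : kgL z0 z = (z0.1 * (z.1 - z0.1) + z0.2 * (z.2 - z0.2)) / sq1 z0 ^ 2 := by
    unfold kgL; ring
  rw [h4, mul_add, mul_div_cancel₀ _ h5.ne', sq1_sq]
  ring

theorem kg_comp_x {g : ℝ → ℝ} {g' : ℝ} (z0 z : ℝ × ℝ) (h : HasDerivAt g g' (kgL z0 z)) :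
    HasDerivAt (fun x => g (kgL z0 (x, z.2))) (g' * (z0.1 / sq1 z0 ^ 2)) z.1 :=
  HasDerivAt.comp z.1 h (kgL_dx z0 z.1 z.2)

theorem kg_comp_y {g : ℝ → ℝ} {g' : ℝ} (z0 z : ℝ × ℝ) (h : HasDerivAt g g' (kgL z0 z)) :
    HasDerivAt (fun y => g (kgL z0 (z.1, y))) (g' * (z0.2 / sq1 z0 ^ 2)) z.2 :=
  HasDerivAt.comp z.2 h (kgL_dy z0 z.1 z.2)

/-- derivative data of `q = kgQ ∘ ℓ` -/
theorem kgQ_data (n M : ℕ) (z0 : ℝ × ℝ) (K : Set (ℝ × ℝ)) :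
    KgD K (fun z => kgQ n M (kgL z0 z)) (fun z => kgQ1 n M (kgL z0 z) * (z0.1 / sq1 z0 ^ 2))
      (fun z => kgQ1 n M (kgL z0 z) * (z0.2 / sq1 z0 ^ 2))
      (fun z => kgQ2 n M (kgL z0 z) * (z0.1 / sq1 z0 ^ 2) * (z0.1 / sq1 z0 ^ 2))
      (fun z => kgQ2 n M (kgL z0 z) * (z0.2 / sq1 z0 ^ 2) * (z0.1 / sq1 z0 ^ 2))
      (fun z => kgQ2 n M (kgL z0 z) * (z0.1 / sq1 z0 ^ 2) * (z0.2 / sq1 z0 ^ 2))
      (fun z => kgQ2 n M (kgL z0 z) * (z0.2 / sq1 z0 ^ 2) * (z0.2 / sq1 z0 ^ 2)) where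
  d1 z _ := kg_comp_x z0 z (kgQ_deriv n M _)
  d2 z _ := kg_comp_y z0 z (kgQ_deriv n M _)
  d11 z _ := (kg_comp_x z0 z (kgQ1_deriv n M _)).mul_const _
  d12 z _ := (kg_comp_y z0 z (kgQ1_deriv n M _)).mul_const _
  d21 z _ := (kg_comp_x z0 z (kgQ1_deriv n M _)).mul_const _
  d22 z _ := (kg_comp_y z0 z (kgQ1_deriv n M _)).mul_const _

/-! ### The gauge -/

/-- the polynomial of `ℓ` -/
noncomputable def kgLP (z0 : ℝ × ℝ) : MvPolynomial (Fin 2) ℝ :=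
  MvPolynomial.C (z0.1 / sq1 z0 ^ 2) * (MvPolynomial.X 0 - MvPolynomial.C z0.1) +
    MvPolynomial.C (z0.2 / sq1 z0 ^ 2) * (MvPolynomial.X 1 - MvPolynomial.C z0.2)

/-- the polynomial of the gauge factor -/
noncomputable def kgGP (n M : ℕ) (z0 : ℝ × ℝ) : MvPolynomial (Fin 2) ℝ :=
  MvPolynomial.C ((sq1 z0 ^ n * (9 / 8 : ℝ) ^ n)⁻¹) *
    ∑ j ∈ Finset.range (M + 2),
      (1 - MvPolynomial.C ((9 / 8 : ℝ) ^ n)⁻¹ * (1 + kgLP z0) ^ n) ^ j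

/-- the gauge factor -/
noncomputable def kgG (n M : ℕ) (z0 z : ℝ × ℝ) : ℝ :=
  (sq1 z0 ^ n * (9 / 8 : ℝ) ^ n)⁻¹ * ∑ j ∈ Finset.range (M + 2), kgH n (kgL z0 z) ^ j

theorem kgG_eval (n M : ℕ) (z0 : ℝ × ℝ) (x y : ℝ) :
    MvPolynomial.eval ![x, y] (kgGP n M z0) = kgG n M z0 (x, y) := by
  unfold kgGP kgG kgH kgLP kgL
  simp only [map_mul, map_sum, map_pow, map_sub, map_add, map_one, MvPolynomial.eval_C,
    MvPolynomial.eval_X, Matrix.cons_val_zero, Matrix.cons_val_one]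
  congr 1
  refine Finset.sum_congr rfl fun j _ => ?_
  congr 1
  ring

theorem kgG_pos {n M : ℕ} {z0 z : ℝ × ℝ} (h : |kgL z0 z| ≤ 1 / 8) : 0 < kgG n M z0 z := by
  have h1 := sq1_pos z0
  have h2 := (kgH_mem (n := n) h).1
  unfold kgG
  refine mul_pos (by positivity) ?_
  refine Finset.sum_pos' (fun j _ => pow_nonneg h2 j) ⟨0, by simp, by simp⟩

/-- `G W = q` -/
theorem kgG_mul (n M : ℕ) (z0 z : ℝ × ℝ) :
    kgG n M z0 z * MvPolynomial.eval ![z.1, z.2] (kPoly n (kdir n z0)) =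
      kgQ n M (kgL z0 z) := by
  have h1 := sq1_pos z0
  rw [eval_kPoly_kdir, kgL_id, mul_pow, kgG]
  have h2 := geom_sum_mul_neg (kgH n (kgL z0 z)) (M + 2)
  have h3 : 1 - kgH n (kgL z0 z) = (1 + kgL z0 z) ^ n / (9 / 8 : ℝ) ^ n := by unfold kgH; ring
  rw [h3] at h2
  unfold kgQ
  rw [← h2]
  have h4 : (sq1 z0 ^ n : ℝ) ≠ 0 := by positivity
  have h5 : ((9 / 8 : ℝ) ^ n) ≠ 0 := by positivity
  rw [← pow_mul, mul_comm 2 n, pow_mul]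
  field_simp

/-! ### The torus mean -/

theorem kg_tmean_mono {f g : ℂ × ℂ → ℝ} {z0 : ℝ × ℝ} {ρ : ℝ}
    (hf : Continuous fun p : ℝ × ℝ => f (circleMap (z0.1 : ℂ) ρ p.1, circleMap (z0.2 : ℂ) ρ p.2))
    (hg : Continuous fun p : ℝ × ℝ => g (circleMap (z0.1 : ℂ) ρ p.1, circleMap (z0.2 : ℂ) ρ p.2))
    (h : ∀ ζ, f ζ ≤ g ζ) : tmean f z0 ρ ≤ tmean g z0 ρ := by
  unfold tmean
  refine mul_le_mul_of_nonneg_left ?_ (by positivity)
  have hpi : (0 : ℝ) ≤ 2 * Real.pi := by positivity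
  have cf : Continuous fun θ : ℝ => ∫ φ in (0 : ℝ)..2 * Real.pi,
      f (circleMap (z0.1 : ℂ) ρ θ, circleMap (z0.2 : ℂ) ρ φ) :=
    intervalIntegral.continuous_parametric_intervalIntegral_of_continuous' hf 0 (2 * Real.pi)
  have cg : Continuous fun θ : ℝ => ∫ φ in (0 : ℝ)..2 * Real.pi,
      g (circleMap (z0.1 : ℂ) ρ θ, circleMap (z0.2 : ℂ) ρ φ) :=
    intervalIntegral.continuous_parametric_intervalIntegral_of_continuous' hg 0 (2 * Real.pi)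
  refine intervalIntegral.integral_mono hpi (cf.intervalIntegrable _ _)
    (cg.intervalIntegrable _ _) fun θ => ?_
  have cf2 : Continuous fun φ : ℝ => f (circleMap (z0.1 : ℂ) ρ θ, circleMap (z0.2 : ℂ) ρ φ) :=
    hf.comp (f := fun φ : ℝ => (θ, φ)) (by fun_prop)
  have cg2 : Continuous fun φ : ℝ => g (circleMap (z0.1 : ℂ) ρ θ, circleMap (z0.2 : ℂ) ρ φ) :=
    hg.comp (f := fun φ : ℝ => (θ, φ)) (by fun_prop)
  exact intervalIntegral.integral_mono hpi (cf2.intervalIntegrable _ _)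
    (cg2.intervalIntegrable _ _) fun φ => h _

theorem kg_continuous_kev (n : ℕ) (b : KIdx n → ℝ) : Continuous (kev n b) := by
  unfold kev
  fun_prop

theorem kg_continuous_kker (n : ℕ) (z0 : ℝ × ℝ) : Continuous (kker n z0) := by
  unfold kker
  fun_prop

theorem kg_differentiable_kev (n : ℕ) (b : KIdx n → ℝ) : Differentiable ℂ (kev n b) := by
  unfold kev
  fun_prop

theorem kg_differentiable_kker (n : ℕ) (z0 : ℝ × ℝ) : Differentiable ℂ (kker n z0) := by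
  unfold kker
  fun_prop

/-- continuity of `‖X/W‖` on the torus -/
theorem kg_continuous_torus (n : ℕ) (b : KIdx n → ℝ) (z0 : ℝ × ℝ) {ρ : ℝ} (hρ : 0 ≤ ρ)
    (hρ4 : ρ ≤ sq1 z0 / 4) :
    Continuous fun p : ℝ × ℝ => ‖kev n b (circleMap (z0.1 : ℂ) ρ p.1, circleMap (z0.2 : ℂ) ρ p.2) /
      kker n z0 (circleMap (z0.1 : ℂ) ρ p.1, circleMap (z0.2 : ℂ) ρ p.2)‖ := by
  have hc : Continuous fun p : ℝ × ℝ => (circleMap (z0.1 : ℂ) ρ p.1, circleMap (z0.2 : ℂ) ρ p.2) :=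
    ((continuous_circleMap _ _).comp continuous_fst).prodMk
      ((continuous_circleMap _ _).comp continuous_snd)
  refine (((kg_continuous_kev n b).comp hc).div ((kg_continuous_kker n z0).comp hc)
    fun p => kker_ne_zero n z0 ?_ ?_).norm
  · show ‖circleMap (z0.1 : ℂ) ρ p.1 - z0.1‖ ≤ _
    have := (mem_sphere_iff_norm.1 (circleMap_mem_sphere (z0.1 : ℂ) hρ p.1)).le
    linarith
  · show ‖circleMap (z0.2 : ℂ) ρ p.2 - z0.2‖ ≤ _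
    have := (mem_sphere_iff_norm.1 (circleMap_mem_sphere (z0.2 : ℂ) hρ p.2)).le
    linarith

/-! ### Derivative data of `X / W` -/

theorem kg_Y (n : ℕ) (b : KIdx n → ℝ) (z0 : ℝ × ℝ) {r : ℝ} (hr : 0 < r)
    (hr8 : r ≤ sq1 z0 / 8) :
    ∃ (T : ℝ) (f f1 f2 f11 f12 f21 f22 : ℝ × ℝ → ℝ),
      T = tmean (fun ζ => ‖kev n b ζ / kker n z0 ζ‖) z0 (2 * r) ∧ 0 ≤ T ∧
      KgD (disc z0 r) f f1 f2 f11 f12 f21 f22 ∧
      ∀ z ∈ disc z0 r, MvPolynomial.eval ![z.1, z.2] (kPoly n b) =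
          MvPolynomial.eval ![z.1, z.2] (kPoly n (kdir n z0)) * f z ∧
        |f z| ≤ 16 * T ∧ |f1 z| ≤ 64 * T / r ∧ |f2 z| ≤ 64 * T / r ∧ |f11 z| ≤ 256 * T / r ^ 2 ∧
        |f12 z| ≤ 256 * T / r ^ 2 ∧ |f21 z| ≤ 256 * T / r ^ 2 ∧ |f22 z| ≤ 256 * T / r ^ 2 := by
  have hO : IsOpen {ζ : ℂ × ℂ | kker n z0 ζ ≠ 0} :=
    isOpen_ne_fun (kg_continuous_kker n z0) continuous_const
  have hF : DifferentiableOn ℂ (fun ζ => kev n b ζ / kker n z0 ζ)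
      {ζ : ℂ × ℂ | kker n z0 ζ ≠ 0} := by
    intro ζ hζ
    have h : DifferentiableAt ℂ (fun ζ => kev n b ζ * (kker n z0 ζ)⁻¹) ζ :=
      (kg_differentiable_kev n b ζ).fun_mul ((kg_differentiable_kker n z0 ζ).fun_inv hζ)
    simp only [← div_eq_mul_inv] at h
    exact h.differentiableWithinAt
  have hsub : ∀ ζ : ℂ × ℂ, ‖ζ.1 - z0.1‖ ≤ 2 * r → ‖ζ.2 - z0.2‖ ≤ 2 * r →
      ζ ∈ {ζ : ℂ × ℂ | kker n z0 ζ ≠ 0} := fun ζ h1 h2 =>
    kker_ne_zero n z0 (by linarith) (by linarith)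
  have hval : ∀ x y : ℝ, kev n b ((x : ℂ), (y : ℂ)) / kker n z0 ((x : ℂ), (y : ℂ)) =
      ((MvPolynomial.eval ![x, y] (kPoly n b) /
        MvPolynomial.eval ![x, y] (kPoly n (kdir n z0)) : ℝ) : ℂ) := by
    intro x y
    rw [← kev_kdir, kev_ofReal, kev_ofReal]
    push_cast
    rfl
  have hreal : ∀ x y : ℝ, ((x : ℂ), (y : ℂ)) ∈ {ζ : ℂ × ℂ | kker n z0 ζ ≠ 0} →
      ((fun ζ => kev n b ζ / kker n z0 ζ) ((x : ℂ), (y : ℂ))).im = 0 := by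
    intro x y _
    show (kev n b ((x : ℂ), (y : ℂ)) / kker n z0 ((x : ℂ), (y : ℂ))).im = 0
    rw [hval]
    exact Complex.ofReal_im _
  obtain ⟨f, f1, f2, f11, f12, f21, f22, h⟩ := cauchy_twoC hr hO hF hsub hreal
  have hd : ∀ z ∈ disc z0 r, |z.1 - z0.1| < r ∧ |z.2 - z0.2| < r := by
    intro z hz
    simp only [disc, Set.mem_ofPred_eq] at hz
    constructor
    · exact abs_lt_of_sq_lt_sq (by nlinarith [sq_nonneg (z.2 - z0.2)]) hr.le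
    · exact abs_lt_of_sq_lt_sq (by nlinarith [sq_nonneg (z.1 - z0.1)]) hr.le
  have h' : ∀ z ∈ disc z0 r, _ := fun z hz => h z (hd z hz).1 (hd z hz).2
  have hz0 : z0 ∈ disc z0 r := by
    simp only [disc, Set.mem_ofPred_eq, sub_self]
    rw [zero_pow two_ne_zero, add_zero]
    positivity
  refine ⟨_, f, f1, f2, f11, f12, f21, f22, rfl, ?_, ⟨fun z hz => (h' z hz).2.1,
    fun z hz => (h' z hz).2.2.1, fun z hz => (h' z hz).2.2.2.1, fun z hz => (h' z hz).2.2.2.2.1,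
    fun z hz => (h' z hz).2.2.2.2.2.1, fun z hz => (h' z hz).2.2.2.2.2.2.1⟩, fun z hz => ?_⟩
  · have := (h' z0 hz0).2.2.2.2.2.2.2.1
    have := abs_nonneg (f z0)
    linarith
  · obtain ⟨e0, _, _, _, _, _, _, b0, b1, b2, b3, b4, b5, b6⟩ := h' z hz
    refine ⟨?_, b0, b1, b2, b3, b4, b5, b6⟩
    have e1 := e0.trans (hval z.1 z.2)
    have e2 := Complex.ofReal_injective e1
    have hne : MvPolynomial.eval ![z.1, z.2] (kPoly n (kdir n z0)) ≠ 0 := by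
      intro h0
      have h1 : kker n z0 ((z.1 : ℂ), (z.2 : ℂ)) ≠ 0 := by
        refine hsub _ ?_ ?_
        · show ‖(z.1 : ℂ) - z0.1‖ ≤ 2 * r
          rw [← Complex.ofReal_sub, Complex.norm_real, Real.norm_eq_abs]
          linarith [(hd z hz).1]
        · show ‖(z.2 : ℂ) - z0.2‖ ≤ 2 * r
          rw [← Complex.ofReal_sub, Complex.norm_real, Real.norm_eq_abs]
          linarith [(hd z hz).2]
      rw [← kev_kdir, kev_ofReal, h0] at h1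
      exact h1 Complex.ofReal_zero
    rw [e2, mul_div_cancel₀ _ hne]

theorem kg_b0 {q f t T A : ℝ} (hq0 : 0 ≤ q) (hq1 : q ≤ 1) (ht : |t| ≤ 1) (hf : |f| ≤ 16 * T)
    (hT : T ≤ A) : |q * (f + t)| ≤ 16 * A + 1 := by
  rw [abs_mul, abs_of_nonneg hq0]
  have h1 : |f + t| ≤ 16 * A + 1 := (abs_add_le _ _).trans (by linarith)
  calc q * |f + t| ≤ 1 * (16 * A + 1) := mul_le_mul hq1 h1 (abs_nonneg _) zero_le_one
    _ = _ := one_mul _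

theorem kg_b1 {q q1 f f1 t T r A : ℝ} (hr : 0 < r) (hq0 : 0 ≤ q) (hq1 : q ≤ 1)
    (hq1' : |q1| ≤ 1 / r) (ht : |t| ≤ 1) (hf : |f| ≤ 16 * T)
    (hf1 : |f1| ≤ 64 * T / r) (hT : T ≤ A) :
    |q1 * (f + t) + q * f1| ≤ 80 * (1 + A) / r := by
  have h1 : |f + t| ≤ 16 * T + 1 := (abs_add_le _ _).trans (by linarith)
  have e1 : |q1 * (f + t)| ≤ 1 / r * (16 * T + 1) := by
    rw [abs_mul]
    exact mul_le_mul hq1' h1 (abs_nonneg _) (by positivity)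
  have e2 : |q * f1| ≤ 1 * (64 * T / r) := by
    rw [abs_mul, abs_of_nonneg hq0]
    exact mul_le_mul hq1 hf1 (abs_nonneg _) zero_le_one
  refine (abs_add_le _ _).trans ((add_le_add e1 e2).trans ?_)
  have e3 : 1 / r * (16 * T + 1) + 1 * (64 * T / r) = (80 * T + 1) / r := by ring
  rw [e3]
  exact div_le_div_of_nonneg_right (by linarith) hr.le

theorem kg_b2 {q q1 q2 q12 f f1 f2 f12 t T r A : ℝ} (hr : 0 < r) (hq0 : 0 ≤ q) (hq1 : q ≤ 1)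
    (hq1' : |q1| ≤ 1 / r) (hq2' : |q2| ≤ 1 / r) (hq12 : |q12| ≤ 1 / r ^ 2) (ht : |t| ≤ 1)
    (hf : |f| ≤ 16 * T) (hf1 : |f1| ≤ 64 * T / r) (hf2 : |f2| ≤ 64 * T / r)
    (hf12 : |f12| ≤ 256 * T / r ^ 2) (hT : T ≤ A) :
    |q12 * (f + t) + q1 * f2 + (q2 * f1 + q * f12)| ≤ 400 * (1 + A) / r ^ 2 := by
  have h1 : |f + t| ≤ 16 * T + 1 := (abs_add_le _ _).trans (by linarith)
  have e1 : |q12 * (f + t)| ≤ 1 / r ^ 2 * (16 * T + 1) := by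
    rw [abs_mul]
    exact mul_le_mul hq12 h1 (abs_nonneg _) (by positivity)
  have e2 : |q1 * f2| ≤ 1 / r * (64 * T / r) := by
    rw [abs_mul]
    exact mul_le_mul hq1' hf2 (abs_nonneg _) (by positivity)
  have e3 : |q2 * f1| ≤ 1 / r * (64 * T / r) := by
    rw [abs_mul]
    exact mul_le_mul hq2' hf1 (abs_nonneg _) (by positivity)
  have e4 : |q * f12| ≤ 1 * (256 * T / r ^ 2) := by
    rw [abs_mul, abs_of_nonneg hq0]
    exact mul_le_mul hq1 hf12 (abs_nonneg _) zero_le_one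
  refine (abs_add_le _ _).trans ((add_le_add ((abs_add_le _ _).trans (add_le_add e1 e2))
    ((abs_add_le _ _).trans (add_le_add e3 e4))).trans ?_)
  have e5 : 1 / r ^ 2 * (16 * T + 1) + 1 / r * (64 * T / r) +
      (1 / r * (64 * T / r) + 1 * (256 * T / r ^ 2)) = (400 * T + 1) / r ^ 2 := by
    field_simp
    ring
  rw [e5]
  exact div_le_div_of_nonneg_right (by linarith) (by positivity)

/-- the bounds for one component -/
theorem kg_component {D n M : ℕ} (c : Co D) (z0 : ℝ × ℝ) {r T A t : ℝ} (hr : 0 < r)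
    (hr8 : r ≤ sq1 z0 / 8)
    {f f1 f2 f11 f12 f21 f22 : ℝ × ℝ → ℝ} (hQ : ∀ s : ℝ, |s| ≤ 1 / 8 → 1 / 2 ≤ kgQ n M s ∧
      kgQ n M s ≤ 1 ∧ |kgQ1 n M s| ≤ 1 / r ∧ |kgQ2 n M s| ≤ 1 / r ^ 2)
    (hf : KgD (disc z0 r) f f1 f2 f11 f12 f21 f22)
    (hb : ∀ z ∈ disc z0 r, |f z| ≤ 16 * T ∧ |f1 z| ≤ 64 * T / r ∧ |f2 z| ≤ 64 * T / r ∧
      |f11 z| ≤ 256 * T / r ^ 2 ∧ |f12 z| ≤ 256 * T / r ^ 2 ∧ |f21 z| ≤ 256 * T / r ^ 2 ∧
      |f22 z| ≤ 256 * T / r ^ 2)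
    (hT : T ≤ A) (ht : |t| ≤ 1)
    (hc : ∀ z ∈ disc z0 r, pe c z.1 z.2 = kgQ n M (kgL z0 z) * (f z + t)) :
    ∀ z ∈ disc z0 r, |pe c z.1 z.2| ≤ 16 * A + 1 ∧
      |pex c z.1 z.2| ≤ 80 * (1 + A) / r ∧ |pey c z.1 z.2| ≤ 80 * (1 + A) / r ∧
      |pex (dX c) z.1 z.2| ≤ 400 * (1 + A) / r ^ 2 ∧
      |pey (dX c) z.1 z.2| ≤ 400 * (1 + A) / r ^ 2 ∧
      |pex (dY c) z.1 z.2| ≤ 400 * (1 + A) / r ^ 2 ∧
      |pey (dY c) z.1 z.2| ≤ 400 * (1 + A) / r ^ 2 := by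
  intro z hz
  obtain ⟨u1, u2, u3, u4, u5, u6⟩ := kg_uniq c (isOpen_disc z0 r) hc
    ((kgQ_data n M z0 (disc z0 r)).mul (hf.add_const t)) z hz
  obtain ⟨b0, b1, b2, b3, b4, b5, b6⟩ := hb z hz
  obtain ⟨q0, q1, q2, q3⟩ := hQ _ (kgL_abs hr hr8 hz)
  obtain ⟨a1, a2⟩ := kgL_coef z0
  have q00 : 0 ≤ kgQ n M (kgL z0 z) := by linarith
  have hi1 : (0 : ℝ) ≤ 1 / r := by positivity
  have hi2 : (0 : ℝ) ≤ 1 / r ^ 2 := by positivity
  have m1 : ∀ {x y m : ℝ}, 0 ≤ m → |x| ≤ m → |y| ≤ 1 → |x * y| ≤ m := by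
    intro x y m hm hx hy
    rw [abs_mul]
    calc |x| * |y| ≤ m * 1 := mul_le_mul hx hy (abs_nonneg _) hm
      _ = m := mul_one m
  rw [u1, u2, u3, u4, u5, u6, hc z hz]
  refine ⟨kg_b0 q00 q1 ht b0 hT, kg_b1 hr q00 q1 (m1 hi1 q2 a1) ht b0 b1 hT,
    kg_b1 hr q00 q1 (m1 hi1 q2 a2) ht b0 b2 hT, ?_, ?_, ?_, ?_⟩
  · exact kg_b2 hr q00 q1 (m1 hi1 q2 a1) (m1 hi1 q2 a1) (m1 hi2 (m1 hi2 q3 a1) a1) ht b0 b1 b1 b3 hT
  · exact kg_b2 hr q00 q1 (m1 hi1 q2 a1) (m1 hi1 q2 a2) (m1 hi2 (m1 hi2 q3 a2) a1) ht b0 b1 b2 b4 hT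
  · exact kg_b2 hr q00 q1 (m1 hi1 q2 a2) (m1 hi1 q2 a1) (m1 hi2 (m1 hi2 q3 a1) a2) ht b0 b2 b1 b5 hT
  · exact kg_b2 hr q00 q1 (m1 hi1 q2 a2) (m1 hi1 q2 a2) (m1 hi2 (m1 hi2 q3 a2) a2) ht b0 b2 b2 b6 hT

/-! ### The argument gradient -/

theorem kg_pex_mul {D D' D'' : ℕ} (c : Co D) (g : Co D') (k : Co D'')
    (h : ∀ x y : ℝ, pe c x y = pe g x y * pe k x y) (x y : ℝ) :
    pex c x y = pex g x y * pe k x y + pe g x y * pex k x y ∧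
      pey c x y = pey g x y * pe k x y + pe g x y * pey k x y := by
  have h1 := kg_uniq1 c isOpen_univ (F := fun z => pe g z.1 z.2 * pe k z.1 z.2)
    (F1 := fun z => pex g z.1 z.2 * pe k z.1 z.2 + pe g z.1 z.2 * pex k z.1 z.2)
    (F2 := fun z => pey g z.1 z.2 * pe k z.1 z.2 + pe g z.1 z.2 * pey k z.1 z.2)
    (fun z _ => h z.1 z.2) (fun z _ => by
      have e1 := pe_hasDerivAt g (hasDerivAt_id z.1) (hasDerivAt_const z.1 z.2)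
      have e2 := pe_hasDerivAt k (hasDerivAt_id z.1) (hasDerivAt_const z.1 z.2)
      simpa using e1.fun_mul e2) (fun z _ => by
      have e1 := pe_hasDerivAt g (hasDerivAt_const z.2 z.1) (hasDerivAt_id z.2)
      have e2 := pe_hasDerivAt k (hasDerivAt_const z.2 z.1) (hasDerivAt_id z.2)
      simpa using e1.fun_mul e2) (x, y) (Set.mem_univ _)
  exact h1

theorem kg_argGrad {D D' D'' : ℕ} (μ : Pr D) (g : Co D') (ν : Pr D'')
    (h : ∀ z, vfc μ z = pe g z.1 z.2 • vfc ν z) {z : ℝ × ℝ} (hz : pe g z.1 z.2 ≠ 0) :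
    argGrad μ z = argGrad ν z := by
  have h1 : ∀ x y : ℝ, pe μ.1 x y = pe g x y * pe ν.1 x y := fun x y =>
    congrArg Prod.fst (h (x, y))
  have h2 : ∀ x y : ℝ, pe μ.2 x y = pe g x y * pe ν.2 x y := fun x y =>
    congrArg Prod.snd (h (x, y))
  obtain ⟨x1, y1⟩ := kg_pex_mul μ.1 g ν.1 h1 z.1 z.2
  obtain ⟨x2, y2⟩ := kg_pex_mul μ.2 g ν.2 h2 z.1 z.2
  unfold argGrad
  rw [x1, x2, y1, y2, h1, h2]
  set G := pe g z.1 z.2 with hG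
  have hG2 : (0 : ℝ) < G ^ 2 := by positivity
  have e1 : G * pe ν.1 z.1 z.2 * (pex g z.1 z.2 * pe ν.2 z.1 z.2 + G * pex ν.2 z.1 z.2) -
      G * pe ν.2 z.1 z.2 * (pex g z.1 z.2 * pe ν.1 z.1 z.2 + G * pex ν.1 z.1 z.2) =
      G ^ 2 * (pe ν.1 z.1 z.2 * pex ν.2 z.1 z.2 - pe ν.2 z.1 z.2 * pex ν.1 z.1 z.2) := by ring
  have e2 : G * pe ν.1 z.1 z.2 * (pey g z.1 z.2 * pe ν.2 z.1 z.2 + G * pey ν.2 z.1 z.2) -
      G * pe ν.2 z.1 z.2 * (pey g z.1 z.2 * pe ν.1 z.1 z.2 + G * pey ν.1 z.1 z.2) =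
      G ^ 2 * (pe ν.1 z.1 z.2 * pey ν.2 z.1 z.2 - pe ν.2 z.1 z.2 * pey ν.1 z.1 z.2) := by ring
  have e3 : (G * pe ν.1 z.1 z.2) ^ 2 + (G * pe ν.2 z.1 z.2) ^ 2 =
      G ^ 2 * (pe ν.1 z.1 z.2 ^ 2 + pe ν.2 z.1 z.2 ^ 2) := by ring
  rw [e1, e2, e3, abs_mul, abs_mul, abs_of_pos hG2, ← mul_add, mul_div_mul_left _ _ hG2.ne']

theorem gauge_exists {n : ℕ} (hn : 1 ≤ n) (z0 : ℝ × ℝ) {r : ℝ} (hr : 0 < r)
    (hrn : r * Real.sqrt n ≤ sq1 z0 / 8) (a : KSp n) :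
    ∃ (D : ℕ) (μ : Pr D) (wt : Co D) (G : ℝ × ℝ → ℝ), Continuous G ∧
      (∀ z ∈ disc z0 r, 0 < G z) ∧
      (∀ t z, vfc (sw μ wt t) z = G z • kVF n (kshift (kdir n z0) a t) z) ∧
      (∀ t, ∀ z ∈ disc z0 r, argGrad (sw μ wt t) z =
        argGrad (kArr n (kshift (kdir n z0) a t)) z) ∧
      (∀ z ∈ disc z0 r, 1 / 2 ≤ pe wt z.1 z.2) ∧
      (∀ t, nm t ≤ 1 → ∀ z ∈ disc z0 r, nm (vfc (sw μ wt t) z) < 32 * (1 + kA n z0 (2 * r) a)) ∧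
      ∀ t, nm t ≤ 1 → DBound (sw μ wt t) (disc z0 r) (80 * (1 + kA n z0 (2 * r) a) / r)
        (400 * (1 + kA n z0 (2 * r) a) / r ^ 2) := by
  have hs1 := one_le_sq1 z0
  have hr8 : r ≤ sq1 z0 / 8 := by
    have h1 : (1 : ℝ) ≤ Real.sqrt n := Real.one_le_sqrt.2 (by exact_mod_cast hn)
    nlinarith
  have hε : 0 < min (1 / 2) (min (1 / r) (1 / r ^ 2)) := by positivity
  obtain ⟨M, hM⟩ := kg_choice hn hε
  have hQ : ∀ s : ℝ, |s| ≤ 1 / 8 → 1 / 2 ≤ kgQ n M s ∧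
      kgQ n M s ≤ 1 ∧ |kgQ1 n M s| ≤ 1 / r ∧ |kgQ2 n M s| ≤ 1 / r ^ 2 := by
    intro s hs
    obtain ⟨h1, h2, h3, h4⟩ := hM s hs
    have m1 := min_le_left (1 / 2 : ℝ) (min (1 / r) (1 / r ^ 2))
    have m2 := (min_le_right (1 / 2 : ℝ) (min (1 / r) (1 / r ^ 2))).trans (min_le_left _ _)
    have m3 := (min_le_right (1 / 2 : ℝ) (min (1 / r) (1 / r ^ 2))).trans (min_le_right _ _)
    exact ⟨by linarith, h2, h3.trans m2, h4.trans m3⟩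
  obtain ⟨T1, f, f1, f2, f11, f12, f21, f22, hT1, hT10, hfD, hf⟩ :=
    kg_Y n (fun p => (a p).1) z0 hr hr8
  obtain ⟨T2, g, g1, g2, g11, g12, g21, g22, hT2, hT20, hgD, hg⟩ :=
    kg_Y n (fun p => (a p).2) z0 hr hr8
  have hc1 := kg_continuous_torus n (fun p => (a p).1) z0 (show (0 : ℝ) ≤ 2 * r by linarith)
    (by linarith)
  have hc2 := kg_continuous_torus n (fun p => (a p).2) z0 (show (0 : ℝ) ≤ 2 * r by linarith)
    (by linarith)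
  have hA1 : T1 ≤ kA n z0 (2 * r) a := by
    rw [hT1]
    exact kg_tmean_mono hc1 (hc1.add hc2) fun ζ => le_add_of_nonneg_right (norm_nonneg _)
  have hA2 : T2 ≤ kA n z0 (2 * r) a := by
    rw [hT2]
    exact kg_tmean_mono hc2 (hc1.add hc2) fun ζ => le_add_of_nonneg_left (norm_nonneg _)
  have hA0 : 0 ≤ kA n z0 (2 * r) a := hT10.trans hA1
  set A := kA n z0 (2 * r) a with hA
  set P1 := kPoly n fun p => (a p).1 with hP1
  set P2 := kPoly n fun p => (a p).2 with hP2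
  set W := kPoly n (kdir n z0) with hW
  set Gp := kgGP n M z0 with hGp
  set D := max Gp.totalDegree (max (Gp * P1).totalDegree
    (max (Gp * P2).totalDegree (Gp * W).totalDegree)) with hD
  have d0 : Gp.totalDegree ≤ D := le_max_left _ _
  have d1 : (Gp * P1).totalDegree ≤ D := (le_max_left _ _).trans (le_max_right _ _)
  have d2 : (Gp * P2).totalDegree ≤ D :=
    ((le_max_left _ _).trans (le_max_right _ _)).trans (le_max_right _ _)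
  have d3 : (Gp * W).totalDegree ≤ D :=
    ((le_max_right _ _).trans (le_max_right _ _)).trans (le_max_right _ _)
  have hGe : ∀ z : ℝ × ℝ, pe (arr D Gp) z.1 z.2 = kgG n M z0 z := by
    intro z
    rw [← eval_eq_pe _ d0, kgG_eval]
  have hWe : ∀ z : ℝ × ℝ, pe (arr D (Gp * W)) z.1 z.2 = kgQ n M (kgL z0 z) := by
    intro z
    rw [← eval_eq_pe _ d3, map_mul, kgG_eval]
    exact kgG_mul n M z0 z
  have hv : ∀ t z, vfc (sw (arr D (Gp * P1), arr D (Gp * P2)) (arr D (Gp * W)) t) z =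
      pe (arr D Gp) z.1 z.2 • kVF n (kshift (kdir n z0) a t) z := by
    intro t z
    rw [vfc_sw, kVF_kshift]
    simp only [vfc, kVF, vf]
    rw [← eval_eq_pe _ d0, ← eval_eq_pe _ d1, ← eval_eq_pe _ d2, ← eval_eq_pe _ d3, map_mul,
      map_mul, map_mul]
    ext
    · simp only [Prod.fst_add, Prod.smul_fst, smul_eq_mul]; ring
    · simp only [Prod.snd_add, Prod.smul_snd, smul_eq_mul]; ring
  have hcomp1 : ∀ t : ℝ × ℝ, ∀ z ∈ disc z0 r,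
      pe (sw (arr D (Gp * P1), arr D (Gp * P2)) (arr D (Gp * W)) t).1 z.1 z.2 =
        kgQ n M (kgL z0 z) * (f z + t.1) := by
    intro t z hz
    have h1 := congrArg Prod.fst (vfc_sw (arr D (Gp * P1), arr D (Gp * P2)) (arr D (Gp * W)) t z)
    simp only [vfc, Prod.fst_add, Prod.smul_fst, smul_eq_mul] at h1
    rw [h1, hWe, ← eval_eq_pe _ d1, map_mul, kgG_eval, (hf z hz).1, ← mul_assoc, kgG_mul]
    ring
  have hcomp2 : ∀ t : ℝ × ℝ, ∀ z ∈ disc z0 r,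
      pe (sw (arr D (Gp * P1), arr D (Gp * P2)) (arr D (Gp * W)) t).2 z.1 z.2 =
        kgQ n M (kgL z0 z) * (g z + t.2) := by
    intro t z hz
    have h1 := congrArg Prod.snd (vfc_sw (arr D (Gp * P1), arr D (Gp * P2)) (arr D (Gp * W)) t z)
    simp only [vfc, Prod.snd_add, Prod.smul_snd, smul_eq_mul] at h1
    rw [h1, hWe, ← eval_eq_pe _ d2, map_mul, kgG_eval, (hg z hz).1, ← mul_assoc, kgG_mul]
    ring
  have hGpos : ∀ z ∈ disc z0 r, 0 < pe (arr D Gp) z.1 z.2 := by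
    intro z hz
    rw [hGe]
    exact kgG_pos (kgL_abs hr hr8 hz)
  have habs : ∀ t : ℝ × ℝ, nm t ≤ 1 → |t.1| ≤ 1 ∧ |t.2| ≤ 1 := by
    intro t ht
    have h1 := nm_sq t
    have h0 : 0 ≤ nm t := Real.sqrt_nonneg _
    constructor
    · exact abs_le_of_sq_le_sq (by nlinarith [sq_nonneg t.2]) zero_le_one
    · exact abs_le_of_sq_le_sq (by nlinarith [sq_nonneg t.1]) zero_le_one
  have hB1 : ∀ t : ℝ × ℝ, nm t ≤ 1 → _ := fun t ht => kg_component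
    (sw (arr D (Gp * P1), arr D (Gp * P2)) (arr D (Gp * W)) t).1 z0 hr hr8 hQ hfD
    (fun z hz => (hf z hz).2) hA1 (habs t ht).1 (hcomp1 t)
  have hB2 : ∀ t : ℝ × ℝ, nm t ≤ 1 → _ := fun t ht => kg_component
    (sw (arr D (Gp * P1), arr D (Gp * P2)) (arr D (Gp * W)) t).2 z0 hr hr8 hQ hgD
    (fun z hz => (hg z hz).2) hA2 (habs t ht).2 (hcomp2 t)
  refine ⟨D, (arr D (Gp * P1), arr D (Gp * P2)), arr D (Gp * W),
    fun z => pe (arr D Gp) z.1 z.2, avb_continuous_pe _, hGpos, hv, ?_, ?_, ?_, ?_⟩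
  · intro t z hz
    refine kg_argGrad _ (arr D Gp) _ (fun w => ?_) (hGpos z hz).ne'
    rw [hv, kVF_eq_vfc]
  · intro z hz
    rw [hWe]
    exact (hQ _ (kgL_abs hr hr8 hz)).1
  · intro t ht z hz
    have h1 := (hB1 t ht z hz).1
    have h2 := (hB2 t ht z hz).1
    have h3 : nm (vfc (sw (arr D (Gp * P1), arr D (Gp * P2)) (arr D (Gp * W)) t) z) ≤
        |pe (sw (arr D (Gp * P1), arr D (Gp * P2)) (arr D (Gp * W)) t).1 z.1 z.2| +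
        |pe (sw (arr D (Gp * P1), arr D (Gp * P2)) (arr D (Gp * W)) t).2 z.1 z.2| := by
      refine (Real.sqrt_le_sqrt ?_).trans (Real.sqrt_sq (by positivity)).le
      simp only [vfc]
      rw [add_sq, sq_abs, sq_abs]
      have := mul_nonneg (abs_nonneg
        (pe (sw (arr D (Gp * P1), arr D (Gp * P2)) (arr D (Gp * W)) t).1 z.1 z.2))
        (abs_nonneg (pe (sw (arr D (Gp * P1), arr D (Gp * P2)) (arr D (Gp * W)) t).2 z.1 z.2))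
      linarith
    linarith
  · intro t ht
    exact
      { x1 := fun z hz => (hB1 t ht z hz).2.1
        y1 := fun z hz => (hB1 t ht z hz).2.2.1
        x2 := fun z hz => (hB2 t ht z hz).2.1
        y2 := fun z hz => (hB2 t ht z hz).2.2.1
        xx1 := fun z hz => (hB1 t ht z hz).2.2.2.1
        xy1 := fun z hz => (hB1 t ht z hz).2.2.2.2.1
        yx1 := fun z hz => (hB1 t ht z hz).2.2.2.2.2.1
        yy1 := fun z hz => (hB1 t ht z hz).2.2.2.2.2.2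
        xx2 := fun z hz => (hB2 t ht z hz).2.2.2.1
        xy2 := fun z hz => (hB2 t ht z hz).2.2.2.2.1
        yx2 := fun z hz => (hB2 t ht z hz).2.2.2.2.2.1
        yy2 := fun z hz => (hB2 t ht z hz).2.2.2.2.2.2 }


end Pool.Agent.Lib.MP_95e7ec_an
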