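import Mathlib
import Pool.Agent.Lib.MP_95e7ec_an.KosGauge
import Pool.Agent.Lib.MP_95e7ec_an.CountTwo
import Pool.Agent.Lib.MP_95e7ec_an.Riesz

/-!
# The mean of the gradient of the argument for the Kostlan field (task K9)
-/

set_option autoImplicit false

open Set Filter Topology MeasureTheory ProbabilityTheory
open scoped ContDiff ENNReal

namespace Pool.Agent.Lib.MP_95e7ec_an

private theorem kg_kA_nonneg (n : ℕ) (z0 : ℝ × ℝ) (ρ : ℝ) (a : KSp n) : 0 ≤ kA n z0 ρ a := by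
  unfold kA tmean
  refine mul_nonneg (by positivity) ?_
  refine intervalIntegral.integral_nonneg (by positivity) fun θ _ => ?_
  exact intervalIntegral.integral_nonneg (by positivity) fun φ _ => by positivity

private theorem kg_vfc_sw {D : ℕ} (μ : Pr D) (wt : Co D) (c z : ℝ × ℝ) :
    vfc (sw μ wt c) z = vfc μ z + pe wt z.1 z.2 • c := by
  unfold vfc sw
  ext
  · simp [avb_pe_add, avb_pe_smul, mul_comm]
  · simp [avb_pe_add, avb_pe_smul, mul_comm]

private theorem kg_nm_smul {w : ℝ} (hw : 0 ≤ w) (u : ℝ × ℝ) : nm (w • u) = w * nm u := by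
  unfold nm
  have h1 : (w • u).1 ^ 2 + (w • u).2 ^ 2 = w ^ 2 * (u.1 ^ 2 + u.2 ^ 2) := by
    simp only [Prod.smul_fst, Prod.smul_snd, smul_eq_mul]
    ring
  rw [h1, Real.sqrt_mul (by positivity), Real.sqrt_sq hw]

/-- the mean of `1/|c + w t|` over the unit disc -/
private theorem kg_mean (c : ℝ × ℝ) {w : ℝ} (hw : 1 / 2 ≤ w) :
    ∫⁻ t in {t : ℝ × ℝ | nm t ≤ 1}, (ENNReal.ofReal (nm (c + w • t)))⁻¹ ≤
      ENNReal.ofReal 21 := by
  have hw0 : 0 < w := by linarith
  set e : ℝ × ℝ := w⁻¹ • c with he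
  have h1 : ∀ t : ℝ × ℝ, c + w • t = w • (t + e) := by
    intro t
    rw [he, smul_add, smul_smul, mul_inv_cancel₀ hw0.ne', one_smul, add_comm]
  have hSm : MeasurableSet {t : ℝ × ℝ | nm t ≤ 1} :=
    measurableSet_le continuous_nm.measurable measurable_const
  have hE : MeasurableSet {u : ℝ × ℝ | nm (u - e) ≤ 1} :=
    measurableSet_le (continuous_nm.comp (continuous_id.sub continuous_const)).measurable
      measurable_const
  have hm : Measurable fun u : ℝ × ℝ => (ENNReal.ofReal (nm u))⁻¹ :=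
    (ENNReal.measurable_ofReal.comp continuous_nm.measurable).inv
  have h2 : ∀ t : ℝ × ℝ, (ENNReal.ofReal (nm (c + w • t)))⁻¹ ≤
      ENNReal.ofReal 2 * (ENNReal.ofReal (nm (t + e)))⁻¹ := by
    intro t
    rw [h1, kg_nm_smul hw0.le, ENNReal.ofReal_mul hw0.le, ENNReal.mul_inv
      (Or.inl (ENNReal.ofReal_pos.mpr hw0).ne') (Or.inl ENNReal.ofReal_ne_top)]
    gcongr
    rw [← ENNReal.ofReal_inv_of_pos hw0]
    apply ENNReal.ofReal_le_ofReal
    rw [inv_le_comm₀ hw0 (by norm_num)]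
    linarith
  have h3 : ∫⁻ t in {t : ℝ × ℝ | nm t ≤ 1}, (ENNReal.ofReal (nm (t + e)))⁻¹ =
      ∫⁻ u in {u : ℝ × ℝ | nm (u - e) ≤ 1}, (ENNReal.ofReal (nm u))⁻¹ := by
    rw [← lintegral_indicator hSm, ← lintegral_indicator hE]
    refine Eq.trans ?_ (lintegral_add_right_eq_self (fun u => ({u : ℝ × ℝ | nm (u - e) ≤ 1}).indicator
      (fun u => (ENNReal.ofReal (nm u))⁻¹) u) e)
    refine lintegral_congr fun t => ?_
    simp only [Set.indicator, Set.mem_ofPred_eq, add_sub_cancel_right]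
  have hvol : volume {u : ℝ × ℝ | nm (u - e) ≤ 1} ≤ ENNReal.ofReal 4 := by
    have h4 : {u : ℝ × ℝ | nm (u - e) ≤ 1} = (fun u => u + -e) ⁻¹' {t : ℝ × ℝ | nm t ≤ 1} := by
      ext u
      simp [sub_eq_add_neg]
    rw [h4, measure_preimage_add_right]
    refine (volume_nm_le (σ := 1) zero_le_one).trans ?_
    norm_num
  have h5 := lintegral_inv_nm_le hE (a := 1) zero_lt_one (m := 4) (by norm_num) hvol
  calc ∫⁻ t in {t : ℝ × ℝ | nm t ≤ 1}, (ENNReal.ofReal (nm (c + w • t)))⁻¹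
      ≤ ∫⁻ t in {t : ℝ × ℝ | nm t ≤ 1}, ENNReal.ofReal 2 * (ENNReal.ofReal (nm (t + e)))⁻¹ :=
        lintegral_mono fun t => h2 t
    _ = ENNReal.ofReal 2 * ∫⁻ u in {u : ℝ × ℝ | nm (u - e) ≤ 1}, (ENNReal.ofReal (nm u))⁻¹ := by
        have hm2 : Measurable fun t : ℝ × ℝ => (ENNReal.ofReal (nm (t + e)))⁻¹ :=
          hm.comp (measurable_add_const e)
        rw [lintegral_const_mul _ hm2, h3]
    _ ≤ ENNReal.ofReal 2 * ENNReal.ofReal (2 * Real.pi * 1 + 4 / 1) := by gcongr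
    _ ≤ ENNReal.ofReal 21 := by
        rw [← ENNReal.ofReal_mul (by norm_num)]
        apply ENNReal.ofReal_le_ofReal
        have := Real.pi_lt_d2
        linarith

theorem grad_avg {n : ℕ} (hn : 1 ≤ n) (z0 : ℝ × ℝ) (a : KSp n) :
    ∫⁻ t in {t : ℝ × ℝ | nm t ≤ 1},
        ENNReal.ofReal (argGrad (kArr n (kshift (kdir n z0) a t)) z0) ≤
      ENNReal.ofReal (50000 * Real.sqrt n / sq1 z0 *
        (1 + kA n z0 (2 * (sq1 z0 / (8 * Real.sqrt n))) a)) := by
  have hs0 : 0 < sq1 z0 := Real.sqrt_pos.2 (by positivity)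
  have hn0 : 0 < Real.sqrt n := Real.sqrt_pos.2 (by exact_mod_cast hn)
  set r : ℝ := sq1 z0 / (8 * Real.sqrt n) with hr
  have hr0 : 0 < r := by positivity
  have hrn : r * Real.sqrt n ≤ sq1 z0 / 8 := by
    apply le_of_eq
    rw [hr]
    field_simp
  obtain ⟨D, μ, wt, G, -, -, -, harg, hw, -, hD⟩ := gauge_exists hn z0 hr0 hrn a
  have hA := kg_kA_nonneg n z0 (2 * r) a
  set A : ℝ := kA n z0 (2 * r) a with hAdef
  have hz0 : z0 ∈ disc z0 r := by
    have h0 : (z0.1 - z0.1) ^ 2 + (z0.2 - z0.2) ^ 2 < r ^ 2 := by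
      rw [sub_self, sub_self]
      have := pow_pos hr0 2
      linarith
    exact h0
  have hM1 : 0 ≤ 80 * (1 + A) / r := by positivity
  have hSm : MeasurableSet {t : ℝ × ℝ | nm t ≤ 1} :=
    measurableSet_le continuous_nm.measurable measurable_const
  calc ∫⁻ t in {t : ℝ × ℝ | nm t ≤ 1},
        ENNReal.ofReal (argGrad (kArr n (kshift (kdir n z0) a t)) z0)
      ≤ ∫⁻ t in {t : ℝ × ℝ | nm t ≤ 1}, ENNReal.ofReal (3 * (80 * (1 + A) / r)) *
          (ENNReal.ofReal (nm (vfc μ z0 + pe wt z0.1 z0.2 • t)))⁻¹ := by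
        refine setLIntegral_mono' hSm fun t ht => ?_
        rw [← harg t z0 hz0, ← kg_vfc_sw]
        exact ca_argGrad_le (hD t ht) hM1 hz0
    _ = ENNReal.ofReal (3 * (80 * (1 + A) / r)) * ∫⁻ t in {t : ℝ × ℝ | nm t ≤ 1},
          (ENNReal.ofReal (nm (vfc μ z0 + pe wt z0.1 z0.2 • t)))⁻¹ := by
        rw [lintegral_const_mul]
        have hc : Continuous fun t : ℝ × ℝ => nm (vfc μ z0 + pe wt z0.1 z0.2 • t) :=
          continuous_nm.comp (continuous_const.add (continuous_const_smul _))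
        exact (ENNReal.measurable_ofReal.comp hc.measurable).inv
    _ ≤ ENNReal.ofReal (3 * (80 * (1 + A) / r)) * ENNReal.ofReal 21 := by
        gcongr
        exact kg_mean _ (hw z0 hz0)
    _ ≤ ENNReal.ofReal (50000 * Real.sqrt n / sq1 z0 * (1 + A)) := by
        rw [← ENNReal.ofReal_mul (by positivity)]
        apply ENNReal.ofReal_le_ofReal
        have e : 3 * (80 * (1 + A) / r) * 21 = 40320 * Real.sqrt n / sq1 z0 * (1 + A) := by
          rw [hr]
          field_simp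
          ring
        rw [e]
        gcongr
        norm_num

end Pool.Agent.Lib.MP_95e7ec_an
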