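import Mathlib
import Pool.Agent.Lib.MP_95e7ec_an.KosGauge
import Pool.Agent.Lib.MP_95e7ec_an.CountW
import Pool.Agent.Lib.MP_95e7ec_an.Scale

/-!
# The local count for the Kostlan field (task K8)
-/

set_option autoImplicit false

open Set Filter Topology MeasureTheory ProbabilityTheory
open scoped ContDiff ENNReal

namespace Pool.Agent.Lib.MP_95e7ec_an

private theorem kl_kA_nonneg (n : ℕ) (z0 : ℝ × ℝ) (ρ : ℝ) (a : KSp n) : 0 ≤ kA n z0 ρ a := by
  unfold kA tmean
  refine mul_nonneg (by positivity) ?_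
  refine intervalIntegral.integral_nonneg (by positivity) fun θ _ => ?_
  exact intervalIntegral.integral_nonneg (by positivity) fun φ _ => by positivity

/-- closed orbits only depend on the field along the orbit -/
private theorem kl_congr {v w : ℝ × ℝ → ℝ × ℝ} {C : Set (ℝ × ℝ)} (h : ∀ z ∈ C, v z = w z)
    (hC : IsClosedOrbit v C) : IsClosedOrbit w C := by
  obtain ⟨γ, T, hT, hγ, hper, hne, rfl⟩ := hC
  exact ⟨γ, T, hT, fun t => h (γ t) ⟨t, rfl⟩ ▸ hγ t, hper, hne, rfl⟩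

/-- a closed orbit is compact -/
private theorem kl_compact {v : ℝ × ℝ → ℝ × ℝ} {C : Set (ℝ × ℝ)} (hC : IsClosedOrbit v C) :
    IsCompact C ∧ C.Nonempty := by
  obtain ⟨γ, T, hT, hγ, hper, hne, rfl⟩ := hC
  have hc : Continuous γ := continuous_iff_continuousAt.2 fun t => (hγ t).continuousAt
  have hP : Function.Periodic γ T := hper
  rw [← hP.image_Icc hT 0]
  exact ⟨isCompact_Icc.image hc, ⟨γ 0, 0, by simp [hT.le], rfl⟩⟩

/-- a closed orbit of `Y` is a closed orbit of `G • Y`, if `G > 0` along it -/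
private theorem kl_smul {Y : ℝ × ℝ → ℝ × ℝ} {G : ℝ × ℝ → ℝ} (hG : Continuous G)
    {C : Set (ℝ × ℝ)} (hC : IsClosedOrbit Y C) (hpos : ∀ z ∈ C, 0 < G z) :
    IsClosedOrbit (fun z => G z • Y z) C := by
  obtain ⟨hcomp, hne⟩ := kl_compact hC
  obtain ⟨z1, hz1, hmin⟩ := hcomp.exists_isMinOn hne hG.continuousOn
  set e : ℝ := G z1 with he
  have he0 : 0 < e := hpos z1 hz1
  have hGm : ∀ z ∈ C, max (G z) e = G z := fun z hz => max_eq_left (hmin hz)
  have hp : ∀ z, 0 < max (G z) e := fun z => lt_max_of_lt_right he0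
  have h1 : IsClosedOrbit (fun z => (max (G z) e)⁻¹ • (max (G z) e • Y z)) C := by
    refine kl_congr (fun z _ => ?_) hC
    rw [smul_smul, inv_mul_cancel₀ (hp z).ne', one_smul]
  have h2 := h1.of_smul (Y := fun z => max (G z) e • Y z) (g := fun z => (max (G z) e)⁻¹)
    ((hG.max continuous_const).inv₀ fun z => (hp z).ne') (fun z _ => inv_pos.2 (hp z))
  exact kl_congr (fun z hz => by rw [hGm z hz]) h2

private theorem kl_turn_smul {Y : ℝ × ℝ → ℝ × ℝ} {G : ℝ × ℝ → ℝ} (α : ℝ) (z : ℝ × ℝ) :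
    turn α (fun z => G z • Y z) z = G z • turn α Y z := by
  unfold turn
  ext
  · simp only [Prod.smul_fst, Prod.smul_snd, smul_eq_mul]; ring
  · simp only [Prod.smul_fst, Prod.smul_snd, smul_eq_mul]; ring

theorem local_count_kos {n : ℕ} (hn : 1 ≤ n) (z0 : ℝ × ℝ) {r : ℝ} (hr : 0 < r)
    (hrn : r * Real.sqrt n ≤ sq1 z0 / 8) (a : KSp n) :
    ∃ H : ℝ × ℝ → ℝ≥0∞, Measurable H ∧
      (∀ t, nm t ≤ 1 → ∫⁻ α in Set.Ioo 0 Real.pi,
        orbitSum (fun _ => 1) (kVF n (kshift (kdir n z0) a t)) (disc z0 r) α ≤ H t) ∧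
      ∫⁻ t, H t ≤ ENNReal.ofReal (10 ^ 9 * (1 + kA n z0 (2 * r) a) ^ 2) := by
  obtain ⟨D, μ, wt, G, hG, hGp, hv, -, hw, hB, hD⟩ := gauge_exists hn z0 hr hrn a
  have hA := kl_kA_nonneg n z0 (2 * r) a
  set A : ℝ := kA n z0 (2 * r) a with hAdef
  obtain ⟨H, hHm, hH1, hH2⟩ := count_all_wK μ wt (K := disc z0 r) (w0 := 1 / 2) (ρ := 1)
    (B := 32 * (1 + A)) hD (convex_disc z0 r) (isOpen_disc z0 r) (by positivity) (by positivity)
    (by norm_num) hw (by positivity) hB
  refine ⟨H, hHm, fun t ht => ?_, ?_⟩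
  · refine (lintegral_mono fun α => ?_).trans (hH1 t ht)
    rw [orbitSum_one, orbitSum_one]
    refine ENat.toENNReal_mono (Set.encard_le_encard ?_)
    rintro C ⟨hC, hsub⟩
    refine ⟨?_, hsub⟩
    have h1 := kl_smul hG hC fun z hz => hGp z (hsub hz)
    refine kl_congr (fun z _ => ?_) h1
    have h2 : vfc (sw μ wt t) = fun z => G z • kVF n (kshift (kdir n z0) a t) z := funext (hv t)
    rw [h2, kl_turn_smul]
  · refine hH2.trans ?_
    calc volume (disc z0 r) * ENNReal.ofReal ((9300 * (80 * (1 + A) / r) ^ 2 +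
          20 * (400 * (1 + A) / r ^ 2) * (32 * (1 + A))) / (1 / 2) ^ 2)
        ≤ ENNReal.ofReal (4 * r ^ 2) * ENNReal.ofReal ((9300 * (80 * (1 + A) / r) ^ 2 +
          20 * (400 * (1 + A) / r ^ 2) * (32 * (1 + A))) / (1 / 2) ^ 2) := by
          gcongr
          exact volume_disc_le z0 hr.le
      _ ≤ ENNReal.ofReal (10 ^ 9 * (1 + A) ^ 2) := by
          rw [← ENNReal.ofReal_mul (by positivity)]
          apply ENNReal.ofReal_le_ofReal
          have e : 4 * r ^ 2 * ((9300 * (80 * (1 + A) / r) ^ 2 +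
              20 * (400 * (1 + A) / r ^ 2) * (32 * (1 + A))) / (1 / 2) ^ 2) =
              956416000 * (1 + A) ^ 2 := by
            field_simp
            ring
          rw [e]
          have : 0 ≤ (1 + A) ^ 2 := by positivity
          nlinarith

end Pool.Agent.Lib.MP_95e7ec_an
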