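import Mathlib
import Pool.Agent.Lib.MP_95e7ec_an.KosDefs
import Pool.Agent.Lib.MP_95e7ec_an.KosMom
import Pool.Agent.Lib.MP_95e7ec_an.KosKernel

/-!
# Kostlan fields: the moment bound for the torus mean
-/

set_option autoImplicit false

open Set Filter Topology MeasureTheory ProbabilityTheory
open scoped ContDiff ENNReal

namespace Pool.Agent.Lib.MP_95e7ec_an

/-! ### the torus mean -/

private theorem two_pi_nn : (0 : ℝ) ≤ 2 * Real.pi := by positivity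

private theorem tmean_nonneg' {f : ℂ × ℂ → ℝ} (hf : ∀ ζ, 0 ≤ f ζ) (z0 : ℝ × ℝ) (ρ : ℝ) :
    0 ≤ tmean f z0 ρ := by
  unfold tmean
  refine mul_nonneg (by positivity) ?_
  refine intervalIntegral.integral_nonneg two_pi_nn fun θ _ => ?_
  exact intervalIntegral.integral_nonneg two_pi_nn fun φ _ => hf _

theorem kA_nonneg (n : ℕ) (z0 : ℝ × ℝ) (ρ : ℝ) (a : KSp n) : 0 ≤ kA n z0 ρ a :=
  tmean_nonneg' (fun _ => by positivity) z0 ρ

private theorem continuous_kev_pair (n : ℕ) :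
    Continuous fun x : (KIdx n → ℝ) × (ℂ × ℂ) => kev n x.1 x.2 := by
  unfold kev
  fun_prop

private theorem continuous_kker (n : ℕ) (z0 : ℝ × ℝ) : Continuous (kker n z0) := by
  unfold kker
  refine Continuous.div_const ?_ _
  fun_prop

private theorem measurable_fst' (n : ℕ) : Measurable fun (a : KSp n) (p : KIdx n) => (a p).1 :=
  measurable_pi_lambda _ fun p => (measurable_pi_apply p).fst

private theorem measurable_snd' (n : ℕ) : Measurable fun (a : KSp n) (p : KIdx n) => (a p).2 :=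
  measurable_pi_lambda _ fun p => (measurable_pi_apply p).snd

/-- the integrand as a function of the coefficients and of the two angles -/
private noncomputable def kf (n : ℕ) (z0 : ℝ × ℝ) (ρ : ℝ) (a : KSp n) (x : ℝ × ℝ) : ℝ :=
  ‖kev n (fun p => (a p).1) (circleMap (z0.1 : ℂ) ρ x.1, circleMap (z0.2 : ℂ) ρ x.2) /
      kker n z0 (circleMap (z0.1 : ℂ) ρ x.1, circleMap (z0.2 : ℂ) ρ x.2)‖ +
    ‖kev n (fun p => (a p).2) (circleMap (z0.1 : ℂ) ρ x.1, circleMap (z0.2 : ℂ) ρ x.2) /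
      kker n z0 (circleMap (z0.1 : ℂ) ρ x.1, circleMap (z0.2 : ℂ) ρ x.2)‖

private theorem continuous_tor (z0 : ℝ × ℝ) (ρ : ℝ) : Continuous fun x : ℝ × ℝ =>
    ((circleMap (z0.1 : ℂ) ρ x.1, circleMap (z0.2 : ℂ) ρ x.2) : ℂ × ℂ) :=
  ((continuous_circleMap _ _).comp continuous_fst).prodMk
    ((continuous_circleMap _ _).comp continuous_snd)

/-- the integrand, jointly measurable -/
private theorem meas_kf (n : ℕ) (z0 : ℝ × ℝ) (ρ : ℝ) :
    Measurable fun x : KSp n × (ℝ × ℝ) => kf n z0 ρ x.1 x.2 := by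
  have hζ : Measurable fun x : KSp n × (ℝ × ℝ) =>
      ((circleMap (z0.1 : ℂ) ρ x.2.1, circleMap (z0.2 : ℂ) ρ x.2.2) : ℂ × ℂ) :=
    (continuous_tor z0 ρ).measurable.comp measurable_snd
  have hk := (continuous_kker n z0).measurable.comp hζ
  have h1 := (continuous_kev_pair n).measurable.comp
    (((measurable_fst' n).comp (measurable_fst (α := KSp n) (β := ℝ × ℝ))).prodMk hζ)
  have h2 := (continuous_kev_pair n).measurable.comp
    (((measurable_snd' n).comp (measurable_fst (α := KSp n) (β := ℝ × ℝ))).prodMk hζ)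
  exact (h1.div hk).norm.add (h2.div hk).norm

private theorem kf_nonneg (n : ℕ) (z0 : ℝ × ℝ) (ρ : ℝ) (a : KSp n) (x : ℝ × ℝ) :
    0 ≤ kf n z0 ρ a x := by
  unfold kf; positivity

private theorem kA_eq (n : ℕ) (z0 : ℝ × ℝ) (ρ : ℝ) (a : KSp n) :
    kA n z0 ρ a = (4 * Real.pi ^ 2)⁻¹ * ∫ θ in (0 : ℝ)..2 * Real.pi,
      ∫ φ in (0 : ℝ)..2 * Real.pi, kf n z0 ρ a (θ, φ) := rfl

private theorem meas_kf' (n : ℕ) (z0 : ℝ × ℝ) (ρ : ℝ) :
    Measurable fun x : (KSp n × ℝ) × ℝ => kf n z0 ρ x.1.1 (x.1.2, x.2) := by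
  have h0 : Measurable fun x : (KSp n × ℝ) × ℝ => x.1 := measurable_fst
  have h1 : Measurable fun x : (KSp n × ℝ) × ℝ => x.1.1 := h0.fst
  have h2 : Measurable fun x : (KSp n × ℝ) × ℝ => x.1.2 := h0.snd
  have h3 : Measurable fun x : (KSp n × ℝ) × ℝ => x.2 := measurable_snd
  have h4 : Measurable fun x : (KSp n × ℝ) × ℝ => ((x.1.1, (x.1.2, x.2)) : KSp n × (ℝ × ℝ)) :=
    h1.prodMk (h2.prodMk h3)
  have h5 := (meas_kf n z0 ρ).comp h4
  exact h5

theorem measurable_kA (n : ℕ) (z0 : ℝ × ℝ) (ρ : ℝ) : Measurable (kA n z0 ρ) := by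
  have h0 : kA n z0 ρ = fun a => (4 * Real.pi ^ 2)⁻¹ * ∫ θ in Ioc (0 : ℝ) (2 * Real.pi),
      ∫ φ in Ioc (0 : ℝ) (2 * Real.pi), kf n z0 ρ a (θ, φ) := by
    funext a
    rw [kA_eq]
    simp only [intervalIntegral.integral_of_le two_pi_nn]
  rw [h0]
  refine Measurable.const_mul ?_ _
  have h := (meas_kf' n z0 ρ).stronglyMeasurable
  have h2 : StronglyMeasurable fun y : KSp n × ℝ => ∫ φ in Ioc (0 : ℝ) (2 * Real.pi),
      kf n z0 ρ y.1 (y.2, φ) :=
    h.integral_prod_right' (ν := volume.restrict (Ioc (0 : ℝ) (2 * Real.pi)))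
  exact (h2.integral_prod_right' (ν := volume.restrict (Ioc (0 : ℝ) (2 * Real.pi)))).measurable

/-! ### Jensen's inequality -/

private theorem jensen4 {g : ℝ → ℝ} (hg : Continuous g) (h0 : ∀ θ, 0 ≤ g θ) :
    (∫ θ in (0 : ℝ)..2 * Real.pi, g θ) ^ 4 ≤
      (2 * Real.pi) ^ 3 * ∫ θ in (0 : ℝ)..2 * Real.pi, g θ ^ 4 := by
  have hpi := Real.pi_pos
  set I : ℝ := ∫ θ in (0 : ℝ)..2 * Real.pi, g θ with hI
  set m : ℝ := I / (2 * Real.pi) with hm
  have hI0 : 0 ≤ I := intervalIntegral.integral_nonneg two_pi_nn fun θ _ => h0 θ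
  have hm0 : 0 ≤ m := by positivity
  have hIm : I = 2 * Real.pi * m := by rw [hm]; field_simp
  have key : ∫ θ in (0 : ℝ)..2 * Real.pi, (m ^ 4 + 4 * m ^ 3 * (g θ - m)) ≤
      ∫ θ in (0 : ℝ)..2 * Real.pi, g θ ^ 4 := by
    refine intervalIntegral.integral_mono_on two_pi_nn
      (Continuous.intervalIntegrable (by fun_prop) _ _)
      (Continuous.intervalIntegrable (by fun_prop) _ _) fun θ _ => ?_
    nlinarith [mul_nonneg (sq_nonneg (g θ - m))
      (show 0 ≤ g θ ^ 2 + 2 * m * g θ + 3 * m ^ 2 by have := h0 θ; positivity)]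
  have hval : ∫ θ in (0 : ℝ)..2 * Real.pi, (m ^ 4 + 4 * m ^ 3 * (g θ - m)) =
      2 * Real.pi * m ^ 4 := by
    rw [intervalIntegral.integral_add (by simp) (Continuous.intervalIntegrable (by fun_prop) _ _),
      intervalIntegral.integral_const_mul, intervalIntegral.integral_sub
      (Continuous.intervalIntegrable hg _ _) (by simp), ← hI]
    simp only [intervalIntegral.integral_const, smul_eq_mul, sub_zero]
    rw [hIm]; ring
  rw [hval] at key
  calc I ^ 4 = (2 * Real.pi) ^ 3 * (2 * Real.pi * m ^ 4) := by rw [hIm]; ring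
    _ ≤ _ := mul_le_mul_of_nonneg_left key (by positivity)

private theorem tmean_jensen {f : ℂ × ℂ → ℝ} (z0 : ℝ × ℝ) (ρ : ℝ)
    (hc : Continuous fun x : ℝ × ℝ => f (circleMap (z0.1 : ℂ) ρ x.1, circleMap (z0.2 : ℂ) ρ x.2))
    (h0 : ∀ ζ, 0 ≤ f ζ) : tmean f z0 ρ ^ 4 ≤ tmean (fun ζ => f ζ ^ 4) z0 ρ := by
  have hpi := Real.pi_pos
  unfold tmean
  set F : ℝ → ℝ → ℝ := fun θ φ => f (circleMap (z0.1 : ℂ) ρ θ, circleMap (z0.2 : ℂ) ρ φ) with hF
  have hFc : Continuous (Function.uncurry F) := hc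
  have hG : Continuous fun θ => ∫ φ in (0 : ℝ)..2 * Real.pi, F θ φ :=
    intervalIntegral.continuous_parametric_intervalIntegral_of_continuous' hFc _ _
  have hG4 : Continuous fun θ => ∫ φ in (0 : ℝ)..2 * Real.pi, F θ φ ^ 4 :=
    intervalIntegral.continuous_parametric_intervalIntegral_of_continuous'
      (f := fun θ φ => F θ φ ^ 4) (by
        have : Continuous fun x : ℝ × ℝ => (Function.uncurry F x) ^ 4 := hFc.pow 4
        exact this) _ _
  have hin : ∀ θ, (∫ φ in (0 : ℝ)..2 * Real.pi, F θ φ) ^ 4 ≤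
      (2 * Real.pi) ^ 3 * ∫ φ in (0 : ℝ)..2 * Real.pi, F θ φ ^ 4 := fun θ =>
    jensen4 (hFc.comp (Continuous.prodMk continuous_const continuous_id)) fun φ => h0 _
  have hout := jensen4 hG fun θ => intervalIntegral.integral_nonneg two_pi_nn fun φ _ => h0 _
  have hmono : ∫ θ in (0 : ℝ)..2 * Real.pi, (∫ φ in (0 : ℝ)..2 * Real.pi, F θ φ) ^ 4 ≤
      ∫ θ in (0 : ℝ)..2 * Real.pi, (2 * Real.pi) ^ 3 * ∫ φ in (0 : ℝ)..2 * Real.pi, F θ φ ^ 4 :=
    intervalIntegral.integral_mono_on two_pi_nn ((hG.pow 4).intervalIntegrable _ _)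
      ((hG4.const_mul _).intervalIntegrable _ _) fun θ _ => hin θ
  rw [intervalIntegral.integral_const_mul] at hmono
  calc ((4 * Real.pi ^ 2)⁻¹ * ∫ θ in (0 : ℝ)..2 * Real.pi, ∫ φ in (0 : ℝ)..2 * Real.pi, F θ φ) ^ 4
      = ((4 * Real.pi ^ 2)⁻¹) ^ 4 *
        (∫ θ in (0 : ℝ)..2 * Real.pi, ∫ φ in (0 : ℝ)..2 * Real.pi, F θ φ) ^ 4 := by ring
    _ ≤ ((4 * Real.pi ^ 2)⁻¹) ^ 4 * ((2 * Real.pi) ^ 3 * ((2 * Real.pi) ^ 3 *
        ∫ θ in (0 : ℝ)..2 * Real.pi, ∫ φ in (0 : ℝ)..2 * Real.pi, F θ φ ^ 4)) := by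
        refine mul_le_mul_of_nonneg_left (hout.trans ?_) (by positivity)
        exact mul_le_mul_of_nonneg_left hmono (by positivity)
    _ = (4 * Real.pi ^ 2)⁻¹ *
        ∫ θ in (0 : ℝ)..2 * Real.pi, ∫ φ in (0 : ℝ)..2 * Real.pi, F θ φ ^ 4 := by
        field_simp
        ring

/-! ### the fourth moment of the value at one point -/

private theorem norm_four_le (z : ℂ) : ‖z‖ ^ 4 ≤ 2 * (z.re ^ 4 + z.im ^ 4) := by
  have h : ‖z‖ ^ 2 = z.re ^ 2 + z.im ^ 2 := by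
    rw [Complex.sq_norm, Complex.normSq_apply]; ring
  have h4 : ‖z‖ ^ 4 = (z.re ^ 2 + z.im ^ 2) ^ 2 := by rw [← h]; ring
  rw [h4]
  nlinarith [sq_nonneg (z.re ^ 2 - z.im ^ 2)]

/-- the coefficient of `b p` in the quotient -/
private noncomputable def kco (n : ℕ) (z0 : ℝ × ℝ) (ζ : ℂ × ℂ) (p : KIdx n) : ℂ :=
  ((kw n p : ℝ) : ℂ) * (ζ.1 ^ (p.1.1 : ℕ) * ζ.2 ^ (p.1.2 : ℕ)) / kker n z0 ζ

private theorem kev_div (n : ℕ) (z0 : ℝ × ℝ) (ζ : ℂ × ℂ) (b : KIdx n → ℝ) :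
    kev n b ζ / kker n z0 ζ = ∑ p, ((b p : ℝ) : ℂ) * kco n z0 ζ p := by
  unfold kev kco
  rw [Finset.sum_div]
  refine Finset.sum_congr rfl fun p _ => ?_
  push_cast
  ring

private theorem kev_div_re (n : ℕ) (z0 : ℝ × ℝ) (ζ : ℂ × ℂ) (b : KIdx n → ℝ) :
    (kev n b ζ / kker n z0 ζ).re = ∑ p, (kco n z0 ζ p).re * b p := by
  rw [kev_div, Complex.re_sum]
  refine Finset.sum_congr rfl fun p _ => ?_
  rw [Complex.re_ofReal_mul]; ring

private theorem kev_div_im (n : ℕ) (z0 : ℝ × ℝ) (ζ : ℂ × ℂ) (b : KIdx n → ℝ) :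
    (kev n b ζ / kker n z0 ζ).im = ∑ p, (kco n z0 ζ p).im * b p := by
  rw [kev_div, Complex.im_sum]
  refine Finset.sum_congr rfl fun p _ => ?_
  rw [Complex.im_ofReal_mul]; ring

private theorem klin_fst {n : ℕ} (v : KIdx n → ℝ) (a : KSp n) :
    (klin v a).1 = ∑ p, v p * (a p).1 := by
  unfold klin
  rw [Prod.fst_sum]
  rfl

private theorem klin_snd {n : ℕ} (v : KIdx n → ℝ) (a : KSp n) :
    (klin v a).2 = ∑ p, v p * (a p).2 := by
  unfold klin
  rw [Prod.snd_sum]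
  rfl

private theorem measurable_klin {n : ℕ} (v : KIdx n → ℝ) : Measurable (klin v : KSp n → ℝ × ℝ) := by
  unfold klin
  fun_prop

private theorem kf_four_le (n : ℕ) (z0 : ℝ × ℝ) (ρ : ℝ) (a : KSp n) (x : ℝ × ℝ) :
    kf n z0 ρ a x ^ 4 ≤ 16 * ((
      (klin (fun p => (kco n z0 (circleMap (z0.1 : ℂ) ρ x.1, circleMap (z0.2 : ℂ) ρ x.2) p).re)
        a).1 ^ 4 +
      (klin (fun p => (kco n z0 (circleMap (z0.1 : ℂ) ρ x.1, circleMap (z0.2 : ℂ) ρ x.2) p).im)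
        a).1 ^ 4) + (
      (klin (fun p => (kco n z0 (circleMap (z0.1 : ℂ) ρ x.1, circleMap (z0.2 : ℂ) ρ x.2) p).re)
        a).2 ^ 4 +
      (klin (fun p => (kco n z0 (circleMap (z0.1 : ℂ) ρ x.1, circleMap (z0.2 : ℂ) ρ x.2) p).im)
        a).2 ^ 4)) := by
  simp only [klin_fst, klin_snd, ← kev_div_re, ← kev_div_im]
  unfold kf
  set Y₁ : ℂ := kev n (fun p => (a p).1) (circleMap (z0.1 : ℂ) ρ x.1, circleMap (z0.2 : ℂ) ρ x.2) /
      kker n z0 (circleMap (z0.1 : ℂ) ρ x.1, circleMap (z0.2 : ℂ) ρ x.2)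
  set Y₂ : ℂ := kev n (fun p => (a p).2) (circleMap (z0.1 : ℂ) ρ x.1, circleMap (z0.2 : ℂ) ρ x.2) /
      kker n z0 (circleMap (z0.1 : ℂ) ρ x.1, circleMap (z0.2 : ℂ) ρ x.2)
  have h : (‖Y₁‖ + ‖Y₂‖) ^ 4 ≤ 8 * (‖Y₁‖ ^ 4 + ‖Y₂‖ ^ 4) := by
    have := add_pow_le (norm_nonneg Y₁) (norm_nonneg Y₂) 4
    norm_num at this
    linarith
  have h1 := norm_four_le Y₁
  have h2 := norm_four_le Y₂
  linarith

private theorem sq1_pos' (z : ℝ × ℝ) : 0 < sq1 z := by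
  unfold sq1
  exact Real.sqrt_pos.2 (by positivity)

private theorem norm_circle_sub (c : ℂ) {ρ : ℝ} (hρ : 0 < ρ) (θ : ℝ) :
    ‖circleMap c ρ θ - c‖ ≤ ρ := by
  rw [circleMap_sub_center, norm_circleMap_zero, abs_of_pos hρ]

private theorem kf_moment {n : ℕ} (hn : 1 ≤ n) (z0 : ℝ × ℝ) {ρ : ℝ} (hρ : 0 < ρ)
    (hρn : ρ ^ 2 * n ≤ sq1 z0 ^ 2 / 16) (x : ℝ × ℝ) :
    ∫⁻ a, ENNReal.ofReal (kf n z0 ρ a x ^ 4) ∂kMeas n ≤ ENNReal.ofReal 6400 := by
  set ζ : ℂ × ℂ := (circleMap (z0.1 : ℂ) ρ x.1, circleMap (z0.2 : ℂ) ρ x.2) with hζ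
  have hvar : ∑ p : KIdx n, ‖kco n z0 ζ p‖ ^ 2 ≤ 2 :=
    kvar_le hn z0 hρ.le hρn (norm_circle_sub _ hρ _) (norm_circle_sub _ hρ _)
  have hre : ∑ p : KIdx n, (kco n z0 ζ p).re ^ 2 ≤ 2 := by
    refine le_trans (Finset.sum_le_sum fun p _ => ?_) hvar
    rw [Complex.sq_norm, Complex.normSq_apply]
    nlinarith [sq_nonneg (kco n z0 ζ p).im]
  have him : ∑ p : KIdx n, (kco n z0 ζ p).im ^ 2 ≤ 2 := by
    refine le_trans (Finset.sum_le_sum fun p _ => ?_) hvar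
    rw [Complex.sq_norm, Complex.normSq_apply]
    nlinarith [sq_nonneg (kco n z0 ζ p).re]
  obtain ⟨hr1, hr2⟩ := kMeas_fourth _ hre
  obtain ⟨hi1, hi2⟩ := kMeas_fourth _ him
  have m1 : ∀ v : KIdx n → ℝ, Measurable fun a : KSp n => ENNReal.ofReal ((klin v a).1 ^ 4) :=
    fun v => ((measurable_klin v).fst.pow_const 4).ennreal_ofReal
  have m2 : ∀ v : KIdx n → ℝ, Measurable fun a : KSp n => ENNReal.ofReal ((klin v a).2 ^ 4) :=
    fun v => ((measurable_klin v).snd.pow_const 4).ennreal_ofReal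
  set w : KIdx n → ℝ := fun p => (kco n z0 ζ p).re with hw
  set w' : KIdx n → ℝ := fun p => (kco n z0 ζ p).im with hw'
  calc ∫⁻ a, ENNReal.ofReal (kf n z0 ρ a x ^ 4) ∂kMeas n
      ≤ ∫⁻ a, ENNReal.ofReal 16 * ((ENNReal.ofReal ((klin w a).1 ^ 4) +
          ENNReal.ofReal ((klin w' a).1 ^ 4)) + (ENNReal.ofReal ((klin w a).2 ^ 4) +
          ENNReal.ofReal ((klin w' a).2 ^ 4))) ∂kMeas n := by
        refine lintegral_mono fun a => ?_
        rw [← ENNReal.ofReal_add (by positivity) (by positivity),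
          ← ENNReal.ofReal_add (by positivity) (by positivity),
          ← ENNReal.ofReal_add (by positivity) (by positivity),
          ← ENNReal.ofReal_mul (by norm_num)]
        exact ENNReal.ofReal_le_ofReal (kf_four_le n z0 ρ a x)
    _ = ENNReal.ofReal 16 * ((∫⁻ a, ENNReal.ofReal ((klin w a).1 ^ 4) ∂kMeas n +
          ∫⁻ a, ENNReal.ofReal ((klin w' a).1 ^ 4) ∂kMeas n) +
          (∫⁻ a, ENNReal.ofReal ((klin w a).2 ^ 4) ∂kMeas n +
          ∫⁻ a, ENNReal.ofReal ((klin w' a).2 ^ 4) ∂kMeas n)) := by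
        have hs1 : Measurable fun a : KSp n => ENNReal.ofReal ((klin w a).1 ^ 4) +
            ENNReal.ofReal ((klin w' a).1 ^ 4) := (m1 w).add (m1 w')
        have hs2 : Measurable fun a : KSp n => (ENNReal.ofReal ((klin w a).1 ^ 4) +
            ENNReal.ofReal ((klin w' a).1 ^ 4)) + (ENNReal.ofReal ((klin w a).2 ^ 4) +
            ENNReal.ofReal ((klin w' a).2 ^ 4)) := hs1.add ((m2 w).add (m2 w'))
        rw [lintegral_const_mul _ hs2, lintegral_add_left hs1, lintegral_add_left (m1 w),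
          lintegral_add_left (m2 w)]
    _ ≤ ENNReal.ofReal 16 * ((ENNReal.ofReal 100 + ENNReal.ofReal 100) +
          (ENNReal.ofReal 100 + ENNReal.ofReal 100)) := by gcongr
    _ = ENNReal.ofReal 6400 := by
        rw [← ENNReal.ofReal_add (by norm_num) (by norm_num),
          ← ENNReal.ofReal_add (by norm_num) (by norm_num),
          ← ENNReal.ofReal_mul (by norm_num)]
        norm_num

/-! ### the fourth power of the torus mean -/

private theorem le_quarter {n : ℕ} (hn : 1 ≤ n) {z0 : ℝ × ℝ} {ρ : ℝ} (hρ : 0 < ρ)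
    (hρn : ρ ^ 2 * n ≤ sq1 z0 ^ 2 / 16) : ρ ≤ sq1 z0 / 4 := by
  have h1 : (1 : ℝ) ≤ n := by exact_mod_cast hn
  have hs := sq1_pos' z0
  have h2 : ρ ^ 2 ≤ (sq1 z0 / 4) ^ 2 := by
    have : ρ ^ 2 * 1 ≤ ρ ^ 2 * n := mul_le_mul_of_nonneg_left h1 (by positivity)
    linarith [show (sq1 z0 / 4) ^ 2 = sq1 z0 ^ 2 / 16 by ring]
  exact (pow_le_pow_iff_left₀ hρ.le (by positivity) two_ne_zero).1 h2

private theorem continuous_kf {n : ℕ} (hn : 1 ≤ n) {z0 : ℝ × ℝ} {ρ : ℝ} (hρ : 0 < ρ)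
    (hρn : ρ ^ 2 * n ≤ sq1 z0 ^ 2 / 16) (a : KSp n) : Continuous (kf n z0 ρ a) := by
  have hq := le_quarter hn hρ hρn
  have hne : ∀ x : ℝ × ℝ,
      kker n z0 (circleMap (z0.1 : ℂ) ρ x.1, circleMap (z0.2 : ℂ) ρ x.2) ≠ 0 := fun x =>
    kker_ne_zero n z0 ((norm_circle_sub _ hρ _).trans hq) ((norm_circle_sub _ hρ _).trans hq)
  have hk := (continuous_kker n z0).comp (continuous_tor z0 ρ)
  have h1 : Continuous fun x : ℝ × ℝ => kev n (fun p => (a p).1)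
      (circleMap (z0.1 : ℂ) ρ x.1, circleMap (z0.2 : ℂ) ρ x.2) :=
    (continuous_kev_pair n).comp (continuous_const.prodMk (continuous_tor z0 ρ))
  have h2 : Continuous fun x : ℝ × ℝ => kev n (fun p => (a p).2)
      (circleMap (z0.1 : ℂ) ρ x.1, circleMap (z0.2 : ℂ) ρ x.2) :=
    (continuous_kev_pair n).comp (continuous_const.prodMk (continuous_tor z0 ρ))
  exact (h1.div hk hne).norm.add (h2.div hk hne).norm

private theorem ofReal_kA_four {n : ℕ} (hn : 1 ≤ n) {z0 : ℝ × ℝ} {ρ : ℝ} (hρ : 0 < ρ)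
    (hρn : ρ ^ 2 * n ≤ sq1 z0 ^ 2 / 16) (a : KSp n) :
    ENNReal.ofReal (kA n z0 ρ a ^ 4) ≤ ENNReal.ofReal ((4 * Real.pi ^ 2)⁻¹) *
      ∫⁻ θ in Ioc (0 : ℝ) (2 * Real.pi), ∫⁻ φ in Ioc (0 : ℝ) (2 * Real.pi),
        ENNReal.ofReal (kf n z0 ρ a (θ, φ) ^ 4) := by
  have hc := continuous_kf hn hρ hρn a
  have hJ : kA n z0 ρ a ^ 4 ≤ (4 * Real.pi ^ 2)⁻¹ * ∫ θ in (0 : ℝ)..2 * Real.pi,
      ∫ φ in (0 : ℝ)..2 * Real.pi, kf n z0 ρ a (θ, φ) ^ 4 :=
    tmean_jensen (f := fun ζ => ‖kev n (fun p => (a p).1) ζ / kker n z0 ζ‖ +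
      ‖kev n (fun p => (a p).2) ζ / kker n z0 ζ‖) z0 ρ hc (fun _ => by positivity)
  have hc4 : Continuous fun x : ℝ × ℝ => kf n z0 ρ a x ^ 4 := hc.pow 4
  have hG4 : Continuous fun θ => ∫ φ in (0 : ℝ)..2 * Real.pi, kf n z0 ρ a (θ, φ) ^ 4 :=
    intervalIntegral.continuous_parametric_intervalIntegral_of_continuous'
      (f := fun θ φ => kf n z0 ρ a (θ, φ) ^ 4) hc4 _ _
  refine (ENNReal.ofReal_le_ofReal hJ).trans (le_of_eq ?_)
  rw [ENNReal.ofReal_mul (by positivity)]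
  congr 1
  rw [intervalIntegral.integral_of_le two_pi_nn, ofReal_integral_eq_lintegral_ofReal
    ((hG4.integrableOn_Icc).mono_set Ioc_subset_Icc_self)
    (Eventually.of_forall fun θ => intervalIntegral.integral_nonneg two_pi_nn
      fun φ _ => by positivity)]
  refine lintegral_congr fun θ => ?_
  have hc5 : Continuous fun φ : ℝ => kf n z0 ρ a (θ, φ) ^ 4 :=
    hc4.comp (Continuous.prodMk continuous_const continuous_id)
  rw [intervalIntegral.integral_of_le two_pi_nn, ofReal_integral_eq_lintegral_ofReal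
    ((hc5.integrableOn_Icc).mono_set Ioc_subset_Icc_self)
    (Eventually.of_forall fun φ => by positivity)]

private instance (n : ℕ) : IsProbabilityMeasure (kMeas n) := by
  unfold kMeas; infer_instance

private theorem kA_moment {n : ℕ} (hn : 1 ≤ n) {z0 : ℝ × ℝ} {ρ : ℝ} (hρ : 0 < ρ)
    (hρn : ρ ^ 2 * n ≤ sq1 z0 ^ 2 / 16) :
    ∫⁻ a, ENNReal.ofReal (kA n z0 ρ a ^ 4) ∂kMeas n ≤ ENNReal.ofReal 6400 := by
  have hpi := Real.pi_pos
  set ν : Measure ℝ := volume.restrict (Ioc (0 : ℝ) (2 * Real.pi)) with hν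
  have hm3 : Measurable fun x : (KSp n × ℝ) × ℝ =>
      ENNReal.ofReal (kf n z0 ρ x.1.1 (x.1.2, x.2) ^ 4) :=
    ((meas_kf' n z0 ρ).pow_const 4).ennreal_ofReal
  have hm2 : Measurable fun y : KSp n × ℝ =>
      ∫⁻ φ, ENNReal.ofReal (kf n z0 ρ y.1 (y.2, φ) ^ 4) ∂ν := hm3.lintegral_prod_right'
  have hm1 : Measurable fun a : KSp n =>
      ∫⁻ θ, ∫⁻ φ, ENNReal.ofReal (kf n z0 ρ a (θ, φ) ^ 4) ∂ν ∂ν := hm2.lintegral_prod_right'
  have hν0 : ν univ = ENNReal.ofReal (2 * Real.pi) := by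
    rw [hν, Measure.restrict_apply_univ, Real.volume_Ioc, sub_zero]
  calc ∫⁻ a, ENNReal.ofReal (kA n z0 ρ a ^ 4) ∂kMeas n
      ≤ ∫⁻ a, ENNReal.ofReal ((4 * Real.pi ^ 2)⁻¹) *
          ∫⁻ θ, ∫⁻ φ, ENNReal.ofReal (kf n z0 ρ a (θ, φ) ^ 4) ∂ν ∂ν ∂kMeas n :=
        lintegral_mono fun a => ofReal_kA_four hn hρ hρn a
    _ = ENNReal.ofReal ((4 * Real.pi ^ 2)⁻¹) *
          ∫⁻ a, ∫⁻ θ, ∫⁻ φ, ENNReal.ofReal (kf n z0 ρ a (θ, φ) ^ 4) ∂ν ∂ν ∂kMeas n := by
        rw [lintegral_const_mul _ hm1]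
    _ = ENNReal.ofReal ((4 * Real.pi ^ 2)⁻¹) *
          ∫⁻ θ, ∫⁻ φ, ∫⁻ a, ENNReal.ofReal (kf n z0 ρ a (θ, φ) ^ 4) ∂kMeas n ∂ν ∂ν := by
        congr 1
        rw [lintegral_lintegral_swap hm2.aemeasurable]
        refine lintegral_congr fun θ => ?_
        rw [lintegral_lintegral_swap]
        have g1 : Measurable fun y : KSp n × ℝ => y.1 := measurable_fst
        have g2 : Measurable fun y : KSp n × ℝ => y.2 := measurable_snd
        have g3 : Measurable fun _ : KSp n × ℝ => θ := measurable_const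
        have g4 : Measurable fun y : KSp n × ℝ => (((y.1, θ), y.2) : (KSp n × ℝ) × ℝ) :=
          (g1.prodMk g3).prodMk g2
        exact (hm3.comp g4).aemeasurable
    _ ≤ ENNReal.ofReal ((4 * Real.pi ^ 2)⁻¹) *
          ∫⁻ _θ, ∫⁻ _φ, ENNReal.ofReal 6400 ∂ν ∂ν := by
        gcongr with θ φ
        exact kf_moment hn z0 hρ hρn (θ, φ)
    _ = ENNReal.ofReal 6400 := by
        rw [lintegral_const, lintegral_const, hν0, ← ENNReal.ofReal_mul (by norm_num),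
          ← ENNReal.ofReal_mul (by positivity), ← ENNReal.ofReal_mul (by positivity)]
        congr 1
        field_simp
        norm_num

theorem kmoment : ∃ C : ℝ, ∀ n : ℕ, 1 ≤ n → ∀ (z0 : ℝ × ℝ) (ρ : ℝ), 0 < ρ →
    ρ ^ 2 * n ≤ sq1 z0 ^ 2 / 16 →
    ∫⁻ a, ENNReal.ofReal (kexp (kdir n z0) a * (1 + kA n z0 ρ a) ^ 2) ∂kMeas n ≤
      ENNReal.ofReal C := by
  refine ⟨4 + ((1 / 2) * (4 * Real.exp 4) + 4 * 6400), fun n hn z0 ρ hρ hρn => ?_⟩
  have hmA : Measurable fun a : KSp n => ENNReal.ofReal (kA n z0 ρ a ^ 4) :=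
    ((measurable_kA n z0 ρ).pow_const 4).ennreal_ofReal
  have hme : Measurable (kexp (kdir n z0) : KSp n → ℝ) := by
    unfold kexp
    exact Real.measurable_exp.comp ((measurable_klin _).fst.norm.add (measurable_klin _).snd.norm)
  have hme2 : Measurable fun a : KSp n => ENNReal.ofReal (kexp (kdir n z0) a ^ 2) :=
    (hme.pow_const 2).ennreal_ofReal
  calc ∫⁻ a, ENNReal.ofReal (kexp (kdir n z0) a * (1 + kA n z0 ρ a) ^ 2) ∂kMeas n
      ≤ ∫⁻ a, (ENNReal.ofReal 4 + (ENNReal.ofReal (1 / 2) *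
          ENNReal.ofReal (kexp (kdir n z0) a ^ 2) +
          ENNReal.ofReal 4 * ENNReal.ofReal (kA n z0 ρ a ^ 4))) ∂kMeas n := by
        refine lintegral_mono fun a => ?_
        have hA := kA_nonneg n z0 ρ a
        rw [← ENNReal.ofReal_mul (by norm_num), ← ENNReal.ofReal_mul (by norm_num),
          ← ENNReal.ofReal_add (by positivity) (by positivity),
          ← ENNReal.ofReal_add (by norm_num) (by positivity)]
        refine ENNReal.ofReal_le_ofReal ?_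
        set A := kA n z0 ρ a
        set E := kexp (kdir n z0) a
        have h1 : (1 + A) ^ 4 ≤ 8 * (1 + A ^ 4) := by
          have := add_pow_le (zero_le_one (α := ℝ)) hA 4
          norm_num at this
          linarith
        nlinarith [sq_nonneg (E - (1 + A) ^ 2)]
    _ = ENNReal.ofReal 4 + (ENNReal.ofReal (1 / 2) *
          ∫⁻ a, ENNReal.ofReal (kexp (kdir n z0) a ^ 2) ∂kMeas n +
          ENNReal.ofReal 4 * ∫⁻ a, ENNReal.ofReal (kA n z0 ρ a ^ 4) ∂kMeas n) := by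
        rw [lintegral_add_left measurable_const, lintegral_add_left (hme2.const_mul _),
          lintegral_const_mul _ hme2, lintegral_const_mul _ hmA, lintegral_const, measure_univ,
          mul_one]
    _ ≤ ENNReal.ofReal 4 + (ENNReal.ofReal (1 / 2) * ENNReal.ofReal (4 * Real.exp 4) +
          ENNReal.ofReal 4 * ENNReal.ofReal 6400) := by
        have h1 := kMeas_exp (kdir n z0) (sum_kdir_sq n z0).le
        have h2 := kA_moment hn hρ hρn
        gcongr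
    _ = ENNReal.ofReal (4 + ((1 / 2) * (4 * Real.exp 4) + 4 * 6400)) := by
        rw [← ENNReal.ofReal_mul (by norm_num), ← ENNReal.ofReal_mul (by norm_num),
          ← ENNReal.ofReal_add (by positivity) (by positivity),
          ← ENNReal.ofReal_add (by norm_num) (by positivity)]

end Pool.Agent.Lib.MP_95e7ec_an
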