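import Mathlib
import Pool.Agent.Lib.MP_95e7ec_an.KosDefs
import Pool.Agent.Lib.MP_95e7ec_an.Cells
import Pool.Agent.Lib.MP_95e7ec_an.CountAll
import Pool.Agent.Lib.MP_95e7ec_an.Scale

/-!
# Kostlan fields: the cells, and the closed orbits which are not in a cell
-/

set_option autoImplicit false

open Set Filter Topology MeasureTheory ProbabilityTheory
open scoped ContDiff ENNReal

namespace Pool.Agent.Lib.MP_95e7ec_an

variable {D : ℕ}

private theorem krest_encard {β : Type*} (S : Set β) :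
    ((S.encard : ℕ∞) : ℝ≥0∞) = ∑' x, S.indicator (fun _ => (1 : ℝ≥0∞)) x := by
  rw [← ENNReal.tsum_set_one]
  exact tsum_subtype S (fun _ => (1 : ℝ≥0∞))

private theorem krest_mem_disc {z : ℝ × ℝ} {r : ℝ} (hr : 0 < r) : z ∈ disc 0 r ↔ nm z < r := by
  have h1 := nm_sq z
  have h0 : 0 ≤ nm z := Real.sqrt_nonneg _
  simp only [disc, Set.mem_ofPred_eq, Prod.fst_zero, Prod.snd_zero, sub_zero]
  rw [← h1]
  exact ⟨fun h => lt_of_pow_lt_pow_left₀ 2 hr.le h, fun h => pow_lt_pow_left₀ h h0 two_ne_zero⟩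

private theorem krest_nm_le_sq1 (z : ℝ × ℝ) : nm z ≤ sq1 z := by
  unfold nm sq1
  apply Real.sqrt_le_sqrt
  linarith

private theorem krest_one_le_sq1 (z : ℝ × ℝ) : 1 ≤ sq1 z := by
  unfold sq1
  rw [Real.one_le_sqrt]
  nlinarith [sq_nonneg z.1, sq_nonneg z.2]

theorem le_kq (n : ℕ) : 4 * Real.sqrt n ≤ kq n := by
  have h := @Real.real_sqrt_le_nat_sqrt_succ n
  unfold kq
  push_cast
  linarith

theorem kq_le {n : ℕ} (hn : 1 ≤ n) : (kq n : ℝ) ≤ 8 * Real.sqrt n := by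
  have h := @Real.nat_sqrt_le_real_sqrt n
  have h1 : (1 : ℝ) ≤ Real.sqrt n := by
    rw [Real.one_le_sqrt]
    exact_mod_cast hn
  unfold kq
  push_cast
  linarith

private theorem krest_kq_pos (n : ℕ) : (0 : ℝ) < kq n := by
  unfold kq
  positivity

private theorem krest_kq_one (n : ℕ) : 1 ≤ kq n := by
  unfold kq
  omega

/-- the cells satisfy the hypothesis of the local count -/
theorem kcell_spec {n : ℕ} (hn : 1 ≤ n) (K : ℕ) {x : Σ _ : ℕ, ℤ × ℤ} (hx : x ∈ kcells n K) :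
    0 < cellR (kq n) x.1 ∧
      cellR (kq n) x.1 * Real.sqrt n ≤ sq1 (cellC (kq n) x.1 x.2) / 8 := by
  have hq := krest_kq_pos n
  have hq4 := le_kq n
  refine ⟨by unfold cellR; positivity, ?_⟩
  have h1 : cellR (kq n) x.1 * Real.sqrt n ≤ 2 ^ x.1 / 32 := by
    unfold cellR
    rw [div_mul_eq_mul_div, div_le_div_iff₀ (by positivity) (by norm_num)]
    have h2 : (0 : ℝ) < 2 ^ x.1 := by positivity
    nlinarith [Real.sqrt_nonneg (n : ℝ)]
  refine h1.trans ?_
  unfold kcells at hx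
  rw [Finset.mem_sigma] at hx
  have hx2 := hx.2
  unfold cells at hx2
  rw [Finset.mem_filter] at hx2
  rcases hx2.2 with h0 | h0
  · have h3 := krest_one_le_sq1 (cellC (kq n) x.1 x.2)
    rw [h0, pow_zero]
    rw [h0] at h3
    linarith
  · have h3 := krest_nm_le_sq1 (cellC (kq n) x.1 x.2)
    linarith

theorem card_kcells {n : ℕ} (hn : 1 ≤ n) (K : ℕ) :
    ((kcells n K).card : ℝ) ≤ 70000 * n * (K + 1) := by
  unfold kcells
  rw [Finset.card_sigma]
  push_cast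
  have h1 : ∀ k ∈ Finset.range (K + 1), ((cells (kq n) k).card : ℝ) ≤ 70000 * n := by
    intro k _
    have h2 := card_cells (krest_kq_one n) k
    have h3 := kq_le hn
    have h4 := krest_kq_pos n
    have h5 : (kq n : ℝ) ^ 2 ≤ 64 * n := by
      have h6 : (kq n : ℝ) ^ 2 ≤ (8 * Real.sqrt n) ^ 2 := pow_le_pow_left₀ h4.le h3 2
      rw [mul_pow, Real.sq_sqrt (Nat.cast_nonneg n)] at h6
      linarith
    have h7 : (0 : ℝ) ≤ n := Nat.cast_nonneg n
    linarith
  calc ∑ k ∈ Finset.range (K + 1), ((cells (kq n) k).card : ℝ)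
      ≤ ∑ _k ∈ Finset.range (K + 1), 70000 * (n : ℝ) := Finset.sum_le_sum h1
    _ = 70000 * n * (K + 1) := by
      rw [Finset.sum_const, Finset.card_range, nsmul_eq_mul]
      push_cast
      ring

/-- the pointwise bound -/
private theorem krest_point {n : ℕ} (μ : Pr D) (K : ℕ) (α : ℝ) :
    cntO (turn α (vfc μ)) (disc 0 (2 ^ K)) (kcells n K) (kcell n) ≤
      ∑ k ∈ Finset.range (K + 1),
        orbitSum (upW (2 ^ k / (16 * kq n))) (vfc μ) (disc 0 (2 ^ k)) α := by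
  classical
  have hcont : Continuous (turn α (vfc μ)) := by
    rw [← vfc_rotA]
    exact continuous_vfc _
  have hq := krest_kq_pos n
  unfold cntO
  rw [krest_encard]
  simp only [ca_orbitSum_eq]
  rw [← Summable.tsum_finsetSum (fun i _ => ENNReal.summable)]
  refine ENNReal.tsum_le_tsum fun C => ?_
  by_cases hC : C ∈ {C | IsClosedOrbit (turn α (vfc μ)) C ∧ C ⊆ disc 0 (2 ^ K) ∧
      ∀ i ∈ kcells n K, ¬ C ⊆ kcell n i}
  · rw [Set.indicator_of_mem hC]
    obtain ⟨h1, h2, h3⟩ := hC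
    have hex : ∃ k : ℕ, C ⊆ disc 0 (2 ^ k) := ⟨K, h2⟩
    set k := Nat.find hex with hk
    have hk1 : C ⊆ disc 0 (2 ^ k) := Nat.find_spec hex
    have hk2 : k ≤ K := Nat.find_min' hex h2
    have hk3 : k = 0 ∨ ∃ z ∈ C, (2 : ℝ) ^ k / 2 ≤ nm z := by
      rcases Nat.eq_zero_or_pos k with h | h
      · exact Or.inl h
      · right
        have h4 := Nat.find_min hex (m := k - 1) (by omega)
        rw [Set.not_subset] at h4
        obtain ⟨z, hz, hz'⟩ := h4
        refine ⟨z, hz, ?_⟩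
        rw [krest_mem_disc (by positivity), not_lt] at hz'
        have h5 : (2 : ℝ) ^ k = 2 ^ (k - 1) * 2 := by
          rw [← pow_succ]
          congr 1
          omega
        rw [h5]
        linarith
    have hkK : k ∈ Finset.range (K + 1) := Finset.mem_range.2 (by omega)
    refine le_trans ?_ (Finset.single_le_sum (f := fun k => Set.indicator
      {C | IsClosedOrbit (turn α (vfc μ)) C ∧ C ⊆ disc 0 (2 ^ k)}
      (fun C => upW (2 ^ k / (16 * kq n)) (orbitLength (turn α (vfc μ)) C)) C)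
      (fun _ _ => zero_le) hkK)
    rw [Set.indicator_of_mem (show C ∈ {C | IsClosedOrbit (turn α (vfc μ)) C ∧
      C ⊆ disc 0 (2 ^ k)} from ⟨h1, hk1⟩)]
    have hbig : ∃ z ∈ C, ∃ w ∈ C, (2 : ℝ) ^ k / (32 * kq n) < nm (z - w) := by
      by_contra hcon
      push Not at hcon
      obtain ⟨i, hi, hCi⟩ := exists_cell (krest_kq_one n) k h1.nonempty hcon hk1 hk3
      exact h3 ⟨k, i⟩ (by unfold kcells; exact Finset.mem_sigma.2 ⟨hkK, hi⟩) hCi
    obtain ⟨z, hz, w, hw, hzw⟩ := hbig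
    have h6 := two_nm_le_orbitLength hcont hz hw
    have h7 : ENNReal.ofReal (2 ^ k / (16 * kq n)) < orbitLength (turn α (vfc μ)) C := by
      refine lt_of_lt_of_le ?_ h6
      have h8 : (0 : ℝ) < 2 ^ k / (32 * kq n) := by positivity
      rw [ENNReal.ofReal_lt_ofReal_iff (by linarith)]
      have h9 : (2 : ℝ) ^ k / (16 * kq n) = 2 * (2 ^ k / (32 * kq n)) := by
        field_simp
        norm_num
      rw [h9]
      linarith
    unfold upW
    rw [if_pos h7]
  · rw [Set.indicator_of_notMem hC]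
    exact zero_le

/-- the closed orbits in the disc of radius `2^K` which are not in a cell -/
theorem rest_count {n : ℕ} (hn : 1 ≤ n) (μ : Pr D) (K : ℕ) :
    ∫⁻ α in Set.Ioo 0 Real.pi, cntO (turn α (vfc μ)) (disc 0 (2 ^ K)) (kcells n K) (kcell n) ≤
      ∑ k ∈ Finset.range (K + 1), ENNReal.ofReal (16 * kq n / 2 ^ k) *
        ∫⁻ z in disc 0 (2 ^ k), ENNReal.ofReal (argGrad μ z) := by
  have hq := krest_kq_pos n
  refine (lintegral_mono fun α => krest_point μ K α).trans ?_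
  rw [lintegral_finsetSum' _ fun k _ =>
    orbitSum_aemeasurable μ (isOpen_disc _ _) (measurable_upW _)]
  refine Finset.sum_le_sum fun k _ => ?_
  obtain ⟨hm, hint⟩ := averaged_meas μ (isOpen_disc 0 ((2 : ℝ) ^ k))
  have ha : (0 : ℝ) < 2 ^ k / (16 * kq n) := by positivity
  calc ∫⁻ α in Set.Ioo 0 Real.pi, orbitSum (upW (2 ^ k / (16 * kq n))) (vfc μ) (disc 0 (2 ^ k)) α
      ≤ ∫⁻ α in Set.Ioo 0 Real.pi, (ENNReal.ofReal (2 ^ k / (16 * kq n)))⁻¹ *
          totalLength (vfc μ) (disc 0 (2 ^ k)) α :=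
        lintegral_mono fun α => ca_upW_le_total ha α
    _ = (ENNReal.ofReal (2 ^ k / (16 * kq n)))⁻¹ *
          ∫⁻ α in Set.Ioo 0 Real.pi, totalLength (vfc μ) (disc 0 (2 ^ k)) α :=
        lintegral_const_mul'' _ hm
    _ ≤ (ENNReal.ofReal (2 ^ k / (16 * kq n)))⁻¹ *
          ∫⁻ z in disc 0 (2 ^ k), ENNReal.ofReal (argGrad μ z) := by gcongr
    _ = _ := by
        rw [← ENNReal.ofReal_inv_of_pos ha, inv_div]

/-- splitting of the count -/
theorem cntO_split (v : ℝ × ℝ → ℝ × ℝ) (n K : ℕ) :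
    cntO v (disc 0 (2 ^ K)) (∅ : Finset ℕ) (fun _ => ∅) ≤
      cntO v (disc 0 (2 ^ K)) (kcells n K) (kcell n) +
        ∑ x ∈ kcells n K, cntO v (kcell n x) (∅ : Finset ℕ) (fun _ => ∅) := by
  classical
  unfold cntO
  simp only [krest_encard]
  rw [← Summable.tsum_finsetSum (fun i _ => ENNReal.summable), ← ENNReal.tsum_add]
  refine ENNReal.tsum_le_tsum fun C => ?_
  by_cases hC : C ∈ {C | IsClosedOrbit v C ∧ C ⊆ disc 0 (2 ^ K) ∧
      ∀ i ∈ (∅ : Finset ℕ), ¬ C ⊆ ∅}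
  · rw [Set.indicator_of_mem hC]
    by_cases h : ∀ i ∈ kcells n K, ¬ C ⊆ kcell n i
    · refine le_trans ?_ (le_add_right le_rfl)
      rw [Set.indicator_of_mem (show C ∈ {C | IsClosedOrbit v C ∧ C ⊆ disc 0 (2 ^ K) ∧
        ∀ i ∈ kcells n K, ¬ C ⊆ kcell n i} from ⟨hC.1, hC.2.1, h⟩)]
    · push Not at h
      obtain ⟨x, hx, hCx⟩ := h
      refine le_trans ?_ (le_add_left le_rfl)
      refine le_trans ?_ (Finset.single_le_sum (f := fun x => Set.indicator
        {C | IsClosedOrbit v C ∧ C ⊆ kcell n x ∧ ∀ i ∈ (∅ : Finset ℕ), ¬ C ⊆ ∅}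
        (fun _ => (1 : ℝ≥0∞)) C) (fun _ _ => zero_le) hx)
      rw [Set.indicator_of_mem (show C ∈ {C | IsClosedOrbit v C ∧ C ⊆ kcell n x ∧
        ∀ i ∈ (∅ : Finset ℕ), ¬ C ⊆ ∅} from ⟨hC.1, hCx, hC.2.2⟩)]
  · rw [Set.indicator_of_notMem hC]
    exact zero_le

end Pool.Agent.Lib.MP_95e7ec_an
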