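import Mathlib
import Pool.Agent.Lib.MP_95e7ec_an.KosDefs

/-!
# Rotation invariance of the Kostlan measure
-/

set_option autoImplicit false

open Set Filter Topology MeasureTheory ProbabilityTheory
open scoped ContDiff ENNReal

namespace Pool.Agent.Lib.MP_95e7ec_an

/-- the rotation of the plane, as a linear map -/
private noncomputable def rotL (α : ℝ) : (ℝ × ℝ) →ₗ[ℝ] (ℝ × ℝ) :=
  Matrix.toLin (Module.Basis.finTwoProd ℝ) (Module.Basis.finTwoProd ℝ)
    !![Real.cos α, -Real.sin α; Real.sin α, Real.cos α]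

private theorem rotL_apply (α : ℝ) (z : ℝ × ℝ) :
    rotL α z = (Real.cos α * z.1 - Real.sin α * z.2, Real.sin α * z.1 + Real.cos α * z.2) := by
  rw [rotL, Matrix.toLin_finTwoProd_apply]
  refine Prod.ext ?_ ?_
  · simp only; ring
  · simp only

private theorem rotL_det (α : ℝ) : LinearMap.det (rotL α) = 1 := by
  rw [rotL, LinearMap.det_toLin, Matrix.det_fin_two_of]
  nlinarith [Real.sin_sq_add_cos_sq α]

private theorem measurable_rotL (α : ℝ) : Measurable (rotL α) := by
  have : (rotL α : ℝ × ℝ → ℝ × ℝ) = fun z : ℝ × ℝ =>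
      (Real.cos α * z.1 - Real.sin α * z.2, Real.sin α * z.1 + Real.cos α * z.2) := by
    funext z; exact rotL_apply α z
  rw [this]
  fun_prop

private theorem rotL_volume (α : ℝ) :
    MeasurePreserving (rotL α) (volume : Measure (ℝ × ℝ)) volume := by
  refine ⟨measurable_rotL α, ?_⟩
  have h := Measure.map_linearMap_addHaar_eq_smul_addHaar (volume : Measure (ℝ × ℝ))
    (f := rotL α) (by rw [rotL_det]; norm_num)
  rw [h, rotL_det]
  simp

private theorem gauss_plane :
    (gaussianReal 0 1).prod (gaussianReal 0 1) =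
      (volume : Measure (ℝ × ℝ)).withDensity
        (fun z => gaussianPDF 0 1 z.1 * gaussianPDF 0 1 z.2) := by
  rw [gaussianReal_of_var_ne_zero 0 one_ne_zero, Measure.volume_eq_prod]
  exact prod_withDensity (measurable_gaussianPDF 0 1) (measurable_gaussianPDF 0 1)

private theorem gauss_density (α : ℝ) (z : ℝ × ℝ) :
    gaussianPDF 0 1 (rotL α z).1 * gaussianPDF 0 1 (rotL α z).2 =
      gaussianPDF 0 1 z.1 * gaussianPDF 0 1 z.2 := by
  have h : ∀ x y : ℝ, gaussianPDF 0 1 x * gaussianPDF 0 1 y =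
      ENNReal.ofReal ((Real.sqrt (2 * Real.pi))⁻¹ * (Real.sqrt (2 * Real.pi))⁻¹ *
        Real.exp (-(x ^ 2 + y ^ 2) / 2)) := by
    intro x y
    unfold gaussianPDF gaussianPDFReal
    rw [← ENNReal.ofReal_mul (by positivity)]
    congr 1
    simp only [NNReal.coe_one, mul_one, sub_zero]
    rw [show -(x ^ 2 + y ^ 2) / 2 = -x ^ 2 / 2 + -y ^ 2 / 2 by ring, Real.exp_add]
    ring
  rw [h, h, rotL_apply]
  congr 4
  have := Real.sin_sq_add_cos_sq α
  simp only
  have e : (Real.cos α * z.1 - Real.sin α * z.2) ^ 2 +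
      (Real.sin α * z.1 + Real.cos α * z.2) ^ 2 =
      (Real.sin α ^ 2 + Real.cos α ^ 2) * (z.1 ^ 2 + z.2 ^ 2) := by ring
  rw [e, this, one_mul]

private theorem rotL_gauss (α : ℝ) :
    MeasurePreserving (rotL α) ((gaussianReal 0 1).prod (gaussianReal 0 1))
      ((gaussianReal 0 1).prod (gaussianReal 0 1)) := by
  refine ⟨measurable_rotL α, ?_⟩
  have hd : Measurable fun z : ℝ × ℝ => gaussianPDF 0 1 z.1 * gaussianPDF 0 1 z.2 :=
    ((measurable_gaussianPDF 0 1).comp measurable_fst).mul
      ((measurable_gaussianPDF 0 1).comp measurable_snd)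
  refine Measure.ext fun s hs => ?_
  rw [Measure.map_apply (measurable_rotL α) hs, gauss_plane,
    withDensity_apply _ (measurable_rotL α hs), withDensity_apply _ hs]
  rw [← lintegral_indicator (measurable_rotL α hs), ← lintegral_indicator hs]
  rw [← (rotL_volume α).lintegral_comp (hd.indicator hs)]
  refine lintegral_congr fun z => ?_
  by_cases hz : rotL α z ∈ s
  · rw [Set.indicator_of_mem (by exact hz), Set.indicator_of_mem hz, gauss_density]
  · rw [Set.indicator_of_notMem (by exact hz), Set.indicator_of_notMem hz]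

theorem kMeas_rot {n : ℕ} (α : ℝ) {f : KSp n → ℝ≥0∞} (hf : Measurable f) :
    ∫⁻ a, f (krot α a) ∂kMeas n = ∫⁻ a, f a ∂kMeas n := by
  have hp : MeasurePreserving (fun (a : KSp n) (p : KIdx n) => rotL α (a p))
      (kMeas n) (kMeas n) :=
    measurePreserving_pi (fun _ : KIdx n => (gaussianReal 0 1).prod (gaussianReal 0 1))
      (fun _ : KIdx n => (gaussianReal 0 1).prod (gaussianReal 0 1)) (fun _ => rotL_gauss α)
  have hk : (krot α : KSp n → KSp n) = fun a p => rotL α (a p) := by
    funext a p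
    rw [rotL_apply]
    rfl
  rw [hk]
  exact hp.lintegral_comp hf

end Pool.Agent.Lib.MP_95e7ec_an
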