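import Mathlib
import Pool.Agent.Lib.MP_95e7ec_an.KosDefs

/-!
# The Cameron-Martin inequality for the standard Gaussian measure
-/

set_option autoImplicit false

open Set Filter Topology MeasureTheory ProbabilityTheory
open scoped ContDiff ENNReal

namespace Pool.Agent.Lib.MP_95e7ec_an

/-- the density of the shifted Gaussian -/
noncomputable def ksD (s : ℝ) (x : ℝ) : ℝ≥0∞ := ENNReal.ofReal (Real.exp (-(s * x) - s ^ 2 / 2))

theorem measurable_ksD (s : ℝ) : Measurable (ksD s) := by
  unfold ksD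
  fun_prop

/-- tilting the standard Gaussian shifts it -/
theorem ks_gauss_withDensity (s : ℝ) :
    (gaussianReal 0 1).withDensity (ksD s) = gaussianReal (-s) 1 := by
  rw [gaussianReal_of_var_ne_zero _ one_ne_zero, gaussianReal_of_var_ne_zero _ one_ne_zero,
    ← withDensity_mul _ (measurable_gaussianPDF 0 1) (measurable_ksD s)]
  congr 1
  funext x
  rw [Pi.mul_apply, gaussianPDF, gaussianPDF, ksD,
    ← ENNReal.ofReal_mul (gaussianPDFReal_nonneg _ _ _)]
  congr 1
  rw [gaussianPDFReal, gaussianPDFReal, mul_assoc, ← Real.exp_add]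
  congr 2
  simp only [NNReal.coe_one]
  ring

/-- the density of the shifted Gaussian in the plane -/
noncomputable def ksE (c : ℝ) (t x : ℝ × ℝ) : ℝ≥0∞ := ksD (c * t.1) x.1 * ksD (c * t.2) x.2

theorem measurable_ksE (c : ℝ) (t : ℝ × ℝ) : Measurable (ksE c t) :=
  ((measurable_ksD _).comp measurable_fst).mul ((measurable_ksD _).comp measurable_snd)

theorem ks_gauss2_withDensity (c : ℝ) (t : ℝ × ℝ) :
    ((gaussianReal 0 1).prod (gaussianReal 0 1)).withDensity (ksE c t) =
      (gaussianReal (-(c * t.1)) 1).prod (gaussianReal (-(c * t.2)) 1) := by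
  rw [← ks_gauss_withDensity (c * t.1), ← ks_gauss_withDensity (c * t.2),
    prod_withDensity (measurable_ksD _) (measurable_ksD _)]
  rfl

theorem ks_gauss2_map (c : ℝ) (t : ℝ × ℝ) :
    (((gaussianReal 0 1).prod (gaussianReal 0 1)).withDensity (ksE c t)).map
      (fun x => x + c • t) = (gaussianReal 0 1).prod (gaussianReal 0 1) := by
  rw [ks_gauss2_withDensity]
  have h : (fun x : ℝ × ℝ => x + c • t) =
      Prod.map (fun x => x + c * t.1) (fun x => x + c * t.2) := by
    funext x
    rfl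
  rw [h, ← Measure.map_prod_map _ _ (measurable_add_const _) (measurable_add_const _),
    gaussianReal_map_add_const, gaussianReal_map_add_const, neg_add_cancel, neg_add_cancel]

/-- a product measure with a product density -/
theorem ks_pi_withDensity {ι : Type*} [Fintype ι] {X : ι → Type*} [∀ i, MeasurableSpace (X i)]
    (μ : ∀ i, Measure (X i)) [∀ i, IsProbabilityMeasure (μ i)] {w : ∀ i, X i → ℝ≥0∞}
    (hw : ∀ i, Measurable (w i)) [∀ i, SigmaFinite ((μ i).withDensity (w i))] :
    Measure.pi (fun i => (μ i).withDensity (w i)) =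
      (Measure.pi μ).withDensity fun x => ∏ i, w i (x i) := by
  refine Measure.pi_eq fun s hs => ?_
  have hms : MeasurableSet (Set.pi univ s) := MeasurableSet.univ_pi hs
  rw [withDensity_apply _ hms, ← lintegral_indicator hms]
  have h1 : ∀ x : ∀ i, X i, (Set.pi univ s).indicator (fun x => ∏ i, w i (x i)) x =
      ∏ i, (s i).indicator (w i) (x i) := by
    intro x
    by_cases hx : x ∈ Set.pi univ s
    · rw [Set.indicator_of_mem hx]
      exact Finset.prod_congr rfl fun i _ => (Set.indicator_of_mem (hx i (mem_univ i)) _).symm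
    · rw [Set.indicator_of_notMem hx]
      rw [Set.mem_univ_pi, not_forall] at hx
      obtain ⟨i, hi⟩ := hx
      exact (Finset.prod_eq_zero (Finset.mem_univ i) (Set.indicator_of_notMem hi _)).symm
  simp only [h1]
  have hmi : ∀ i, Measurable ((s i).indicator (w i)) := fun i => (hw i).indicator (hs i)
  have hind : iIndepFun (fun i (x : ∀ i, X i) => (s i).indicator (w i) (x i)) (Measure.pi μ) :=
    iIndepFun_pi fun i => (hmi i).aemeasurable
  rw [lintegral_prod_eq_prod_lintegral_of_indepFun Finset.univ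
    (fun i (x : ∀ i, X i) => (s i).indicator (w i) (x i)) hind
    (fun i => (hmi i).comp (measurable_pi_apply i))]
  refine Finset.prod_congr rfl fun i _ => ?_
  rw [withDensity_apply _ (hs i), ← lintegral_indicator (hs i)]
  exact ((measurePreserving_eval μ i).lintegral_comp (hmi i))

theorem measurable_kshift {n : ℕ} (v : KIdx n → ℝ) :
    Measurable fun q : KSp n × (ℝ × ℝ) => kshift v q.1 q.2 := by
  unfold kshift
  refine measurable_pi_lambda _ fun p => ?_
  exact ((measurable_pi_apply p).comp measurable_fst).add (measurable_snd.const_smul (v p))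

/-- the Cameron-Martin formula -/
theorem kMeas_shift {n : ℕ} (v : KIdx n → ℝ) (t : ℝ × ℝ) {f : KSp n → ℝ≥0∞}
    (hf : Measurable f) :
    ∫⁻ a, f a ∂kMeas n =
      ∫⁻ a, (∏ p, ksE (v p) t (a p)) * f (kshift v a t) ∂kMeas n := by
  have hms : Measurable fun a : KSp n => kshift v a t :=
    (measurable_kshift v).comp (measurable_id.prodMk measurable_const)
  have hw : Measurable fun a : KSp n => ∏ p, ksE (v p) t (a p) :=
    Finset.measurable_prod _ fun p _ => (measurable_ksE (v p) t).comp (measurable_pi_apply p)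
  have : ∀ p : KIdx n, IsProbabilityMeasure
      (((gaussianReal 0 1).prod (gaussianReal 0 1)).withDensity (ksE (v p) t)) := fun p => by
    rw [ks_gauss2_withDensity]; infer_instance
  have h1 : kMeas n = ((kMeas n).withDensity fun a => ∏ p, ksE (v p) t (a p)).map
      fun a => kshift v a t := by
    have h2 := ks_pi_withDensity (fun _ : KIdx n => (gaussianReal 0 1).prod (gaussianReal 0 1))
      (w := fun p => ksE (v p) t) fun p => measurable_ksE (v p) t
    have h3 := Measure.pi_map_pi
      (μ := fun p : KIdx n =>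
        ((gaussianReal 0 1).prod (gaussianReal 0 1)).withDensity (ksE (v p) t))
      (f := fun p x => x + v p • t)
      (hμ := fun p => by rw [ks_gauss2_map]; infer_instance)
      (fun p => (measurable_add_const _).aemeasurable)
    rw [kMeas, ← h2]
    refine Eq.trans ?_ h3.symm
    congr 1
    funext p
    exact (ks_gauss2_map (v p) t).symm
  conv_lhs => rw [h1]
  rw [lintegral_map hf hms]
  exact lintegral_withDensity_eq_lintegral_mul _ hw (hf.comp hms)

/-- the density of the shift is at most `kexp` -/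
theorem prod_ksE_le {n : ℕ} (v : KIdx n → ℝ) {t : ℝ × ℝ} (ht : nm t ≤ 1) (a : KSp n) :
    ∏ p, ksE (v p) t (a p) ≤ ENNReal.ofReal (kexp v a) := by
  have h1 : ∀ p, ksE (v p) t (a p) = ENNReal.ofReal (Real.exp
      (-(v p * t.1 * (a p).1) - (v p * t.1) ^ 2 / 2 +
        (-(v p * t.2 * (a p).2) - (v p * t.2) ^ 2 / 2))) := by
    intro p
    rw [ksE, ksD, ksD, ← ENNReal.ofReal_mul (Real.exp_nonneg _), ← Real.exp_add]
  rw [Finset.prod_congr rfl fun p _ => h1 p,
    ← ENNReal.ofReal_prod_of_nonneg fun p _ => Real.exp_nonneg _, ← Real.exp_sum]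
  refine ENNReal.ofReal_le_ofReal (Real.exp_le_exp.2 ?_)
  have h2 : nm t ^ 2 = t.1 ^ 2 + t.2 ^ 2 := Real.sq_sqrt (by positivity)
  have h3 : t.1 ^ 2 + t.2 ^ 2 ≤ 1 := by
    rw [← h2]
    exact pow_le_one₀ (Real.sqrt_nonneg _) ht
  have ht1 : |t.1| ≤ 1 := abs_le_one_iff_mul_self_le_one.2 (by nlinarith [sq_nonneg t.2])
  have ht2 : |t.2| ≤ 1 := abs_le_one_iff_mul_self_le_one.2 (by nlinarith [sq_nonneg t.1])
  have h4 : (klin v a).1 = ∑ p, v p * (a p).1 := by
    rw [klin, Prod.fst_sum]
    rfl
  have h5 : (klin v a).2 = ∑ p, v p * (a p).2 := by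
    rw [klin, Prod.snd_sum]
    rfl
  have h6 : ∑ p, (-(v p * t.1 * (a p).1) - (v p * t.1) ^ 2 / 2 +
        (-(v p * t.2 * (a p).2) - (v p * t.2) ^ 2 / 2)) ≤
      -(t.1 * (klin v a).1) + -(t.2 * (klin v a).2) := by
    rw [h4, h5, Finset.mul_sum, Finset.mul_sum, ← Finset.sum_neg_distrib,
      ← Finset.sum_neg_distrib, ← Finset.sum_add_distrib]
    refine Finset.sum_le_sum fun p _ => ?_
    nlinarith [sq_nonneg (v p * t.1), sq_nonneg (v p * t.2)]
  refine h6.trans (add_le_add ?_ ?_)
  · calc -(t.1 * (klin v a).1) ≤ |t.1 * (klin v a).1| := neg_le_abs _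
      _ = |t.1| * |(klin v a).1| := abs_mul _ _
      _ ≤ 1 * |(klin v a).1| := mul_le_mul_of_nonneg_right ht1 (abs_nonneg _)
      _ = _ := one_mul _
  · calc -(t.2 * (klin v a).2) ≤ |t.2 * (klin v a).2| := neg_le_abs _
      _ = |t.2| * |(klin v a).2| := abs_mul _ _
      _ ≤ 1 * |(klin v a).2| := mul_le_mul_of_nonneg_right ht2 (abs_nonneg _)
      _ = _ := one_mul _

/-- the area of the unit disc -/
theorem ks_volume_disc : ENNReal.ofReal Real.pi ≤ volume {t : ℝ × ℝ | nm t ≤ 1} := by
  have h1 : Complex.measurableEquivRealProd ⁻¹' {c : ℝ × ℝ | nm c < 1}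
      = Metric.ball (0 : ℂ) 1 := by
    ext z
    rw [Set.mem_preimage, mem_ofPred_eq, Metric.mem_ball, Complex.dist_eq_re_im, nm]
    simp
  have hm : MeasurableSet {c : ℝ × ℝ | nm c < 1} := by
    unfold nm
    exact measurableSet_lt (by fun_prop) measurable_const
  have h2 : volume {c : ℝ × ℝ | nm c < 1} = ENNReal.ofReal Real.pi := by
    rw [← Complex.volume_preserving_equiv_real_prod.measure_preimage hm.nullMeasurableSet, h1,
      Complex.volume_ball, ENNReal.ofReal_one, one_pow, one_mul,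
      ENNReal.ofReal, Real.toNNReal_of_nonneg Real.pi_pos.le]
    rfl
  rw [← h2]
  refine measure_mono fun t ht => ?_
  rw [mem_ofPred_eq] at ht ⊢
  exact ht.le

theorem kMeas_smooth {n : ℕ} (v : KIdx n → ℝ) (hv : ∑ p, v p ^ 2 = 1) {f : KSp n → ℝ≥0∞}
    (hf : Measurable f) :
    ∫⁻ a, f a ∂kMeas n ≤ (ENNReal.ofReal Real.pi)⁻¹ *
      ∫⁻ a, (ENNReal.ofReal (kexp v a) *
        ∫⁻ t in {t : ℝ × ℝ | nm t ≤ 1}, f (kshift v a t)) ∂kMeas n := by
  have hpi0 : ENNReal.ofReal Real.pi ≠ 0 := (ENNReal.ofReal_pos.2 Real.pi_pos).ne'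
  have hpit : ENNReal.ofReal Real.pi ≠ ⊤ := ENNReal.ofReal_ne_top
  have hdm : MeasurableSet {t : ℝ × ℝ | nm t ≤ 1} := by
    unfold nm
    exact measurableSet_le (by fun_prop) measurable_const
  have hfm : Measurable fun q : KSp n × (ℝ × ℝ) => f (kshift v q.1 q.2) :=
    hf.comp (measurable_kshift v)
  have hke : Measurable fun a : KSp n => ENNReal.ofReal (kexp v a) := by
    unfold kexp klin
    fun_prop
  have : IsProbabilityMeasure (kMeas n) := by
    unfold kMeas
    infer_instance
  rw [← ENNReal.mul_le_iff_le_inv hpi0 hpit]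
  calc ENNReal.ofReal Real.pi * ∫⁻ a, f a ∂kMeas n
      ≤ volume {t : ℝ × ℝ | nm t ≤ 1} * ∫⁻ a, f a ∂kMeas n := mul_le_mul_left ks_volume_disc _
    _ = ∫⁻ _ in {t : ℝ × ℝ | nm t ≤ 1}, ∫⁻ a, f a ∂kMeas n := by
        rw [setLIntegral_const, mul_comm]
    _ ≤ ∫⁻ t in {t : ℝ × ℝ | nm t ≤ 1},
        ∫⁻ a, ENNReal.ofReal (kexp v a) * f (kshift v a t) ∂kMeas n := by
        refine setLIntegral_mono' hdm fun t ht => ?_
        rw [kMeas_shift v t hf]
        exact lintegral_mono fun a => mul_le_mul_left (prod_ksE_le v ht a) _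
    _ = ∫⁻ a, (∫⁻ t in {t : ℝ × ℝ | nm t ≤ 1},
        ENNReal.ofReal (kexp v a) * f (kshift v a t)) ∂kMeas n := by
        refine lintegral_lintegral_swap (Measurable.aemeasurable ?_)
        exact (hke.comp measurable_snd).mul (hfm.comp measurable_swap)
    _ = _ := by
        refine lintegral_congr fun a => ?_
        exact lintegral_const_mul _ (hfm.comp (measurable_const.prodMk measurable_id))

end Pool.Agent.Lib.MP_95e7ec_an
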