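import Mathlib
import Pool.Agent.Lib.MP_95e7ec_an.CountMeas
import Pool.Agent.Lib.MP_95e7ec_an.Riesz
import Pool.Agent.Lib.MP_95e7ec_an.KosShift
import Pool.Agent.Lib.MP_95e7ec_an.KosRot
import Pool.Agent.Lib.MP_95e7ec_an.KosMom
import Pool.Agent.Lib.MP_95e7ec_an.KosKernel
import Pool.Agent.Lib.MP_95e7ec_an.KosLocal
import Pool.Agent.Lib.MP_95e7ec_an.KosGrad
import Pool.Agent.Lib.MP_95e7ec_an.KosMoment
import Pool.Agent.Lib.MP_95e7ec_an.KosRest

/-!
# The mean number of closed orbits of Kostlan random fields: assembly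
-/

set_option autoImplicit false

open Set Filter Topology MeasureTheory ProbabilityTheory
open scoped ContDiff ENNReal

namespace Pool.Agent.Lib.MP_95e7ec_an

variable {D : ℕ}

theorem km_isOpen_kcell (n : ℕ) (x : Σ _ : ℕ, ℤ × ℤ) : IsOpen (kcell n x) := isOpen_disc _ _

theorem km_measurable_cntO (n : ℕ) {ι : Type*} {U : Set (ℝ × ℝ)} (hU : IsOpen U) (s : Finset ι)
    {V : ι → Set (ℝ × ℝ)} (hV : ∀ i ∈ s, IsOpen (V i)) :
    Measurable fun a : KSp n => cntO (kVF n a) U s V := by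
  have h1 : (fun a : KSp n => cntO (kVF n a) U s V) =
      (fun μ : Pr n => cntO (vfc μ) U s V) ∘ kArr n := by
    ext a
    simp only [Function.comp, kVF_eq_vfc]
  rw [h1]
  exact (measurable_cntO hU s hV).comp (continuous_kArr n).measurable

theorem km_continuous_krot (n : ℕ) : Continuous fun q : KSp n × ℝ => krot q.2 q.1 := by
  unfold krot
  refine continuous_pi fun p => ?_
  have h1 : Continuous fun q : KSp n × ℝ => q.1 p := (continuous_apply p).comp continuous_fst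
  have h2 : Continuous fun q : KSp n × ℝ => (q.1 p).1 := continuous_fst.comp h1
  have h3 : Continuous fun q : KSp n × ℝ => (q.1 p).2 := continuous_snd.comp h1
  have h4 : Continuous fun q : KSp n × ℝ => Real.cos q.2 := Real.continuous_cos.comp continuous_snd
  have h5 : Continuous fun q : KSp n × ℝ => Real.sin q.2 := Real.continuous_sin.comp continuous_snd
  exact ((h4.mul h2).sub (h5.mul h3)).prodMk ((h5.mul h2).add (h4.mul h3))

theorem km_measurable_krot (n : ℕ) {F : KSp n → ℝ≥0∞} (hF : Measurable F) :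
    Measurable fun q : KSp n × ℝ => F (krot q.2 q.1) := by
  have h := (km_continuous_krot n).measurable
  exact hF.comp h

/-- average over the rotations -/
theorem km_rot_avg (n : ℕ) {F : KSp n → ℝ≥0∞} (hF : Measurable F) :
    ∫⁻ a, F a ∂kMeas n = (ENNReal.ofReal Real.pi)⁻¹ *
      ∫⁻ a, (∫⁻ α in Set.Ioo 0 Real.pi, F (krot α a)) ∂kMeas n := by
  have hsf : SFinite (kMeas n) := by unfold kMeas; infer_instance
  have h1 := km_measurable_krot n hF
  rw [lintegral_lintegral_swap h1.aemeasurable]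
  have h2 : ∀ α : ℝ, ∫⁻ a, F (krot α a) ∂kMeas n = ∫⁻ a, F a ∂kMeas n := fun α =>
    kMeas_rot α hF
  simp only [h2]
  rw [setLIntegral_const, Real.volume_Ioo, sub_zero, mul_comm, mul_assoc,
    ENNReal.mul_inv_cancel, mul_one]
  · simpa using Real.pi_pos
  · exact ENNReal.ofReal_ne_top

theorem km_measurable_avg (n : ℕ) {F : KSp n → ℝ≥0∞} (hF : Measurable F) :
    Measurable fun a : KSp n => ∫⁻ α in Set.Ioo 0 Real.pi, F (krot α a) := by
  have h1 := km_measurable_krot n hF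
  exact h1.lintegral_prod_right'

theorem km_cntO_eq (v : ℝ × ℝ → ℝ × ℝ) (Ω : Set (ℝ × ℝ)) (α : ℝ) :
    cntO (turn α v) Ω (∅ : Finset ℕ) (fun _ => ∅) = orbitSum (fun _ => 1) v Ω α := by
  unfold cntO orbitSum
  rw [ENNReal.tsum_const, mul_one]
  have h1 : ({C | IsClosedOrbit (turn α v) C ∧ C ⊆ Ω ∧ ∀ i ∈ (∅ : Finset ℕ), ¬ C ⊆
      (fun _ => (∅ : Set (ℝ × ℝ))) i} : Set (Set (ℝ × ℝ))) =
      {C | IsClosedOrbit (turn α v) C ∧ C ⊆ Ω} := by
    ext C
    simp
  rw [h1]
  rfl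

/-- the mean number of closed orbits in a cell is bounded -/
theorem km_cell : ∃ C : ℝ, 0 ≤ C ∧ ∀ n : ℕ, 1 ≤ n → ∀ (z0 : ℝ × ℝ) (r : ℝ), 0 < r →
    r * Real.sqrt n ≤ sq1 z0 / 8 →
    ∫⁻ a, cntO (kVF n a) (disc z0 r) (∅ : Finset ℕ) (fun _ => ∅) ∂kMeas n ≤
      ENNReal.ofReal C := by
  obtain ⟨C0, hC0⟩ := kmoment
  refine ⟨Real.pi⁻¹ * (Real.pi⁻¹ * (10 ^ 9 * max C0 0)), by positivity,
    fun n hn z0 r hr hrn => ?_⟩
  have hmeas : Measurable fun a : KSp n =>
      cntO (kVF n a) (disc z0 r) (∅ : Finset ℕ) (fun _ => ∅) :=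
    km_measurable_cntO n (isOpen_disc z0 r) ∅ (by simp)
  rw [km_rot_avg n hmeas]
  set Φ : KSp n → ℝ≥0∞ := fun a => ∫⁻ α in Set.Ioo 0 Real.pi,
    cntO (kVF n (krot α a)) (disc z0 r) (∅ : Finset ℕ) (fun _ => ∅) with hΦ
  have hΦm : Measurable Φ := km_measurable_avg n hmeas
  have hΦeq : ∀ a, Φ a = ∫⁻ α in Set.Ioo 0 Real.pi,
      orbitSum (fun _ => 1) (kVF n a) (disc z0 r) α := by
    intro a
    simp only [hΦ, kVF_krot, km_cntO_eq]
  have hpi : (ENNReal.ofReal Real.pi)⁻¹ = ENNReal.ofReal Real.pi⁻¹ :=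
    (ENNReal.ofReal_inv_of_pos Real.pi_pos).symm
  rw [hpi, ENNReal.ofReal_mul (by positivity)]
  refine mul_le_mul_right ?_ _
  refine (kMeas_smooth (kdir n z0) (sum_kdir_sq n z0) hΦm).trans ?_
  rw [hpi, ENNReal.ofReal_mul (by positivity)]
  refine mul_le_mul_right ?_ _
  have h1 : ∀ a : KSp n, ENNReal.ofReal (kexp (kdir n z0) a) *
      ∫⁻ t in {t : ℝ × ℝ | nm t ≤ 1}, Φ (kshift (kdir n z0) a t) ≤
      ENNReal.ofReal (10 ^ 9) *
        ENNReal.ofReal (kexp (kdir n z0) a * (1 + kA n z0 (2 * r) a) ^ 2) := by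
    intro a
    obtain ⟨H, -, hH1, hH2⟩ := local_count_kos hn z0 hr hrn a
    have h2 : ∫⁻ t in {t : ℝ × ℝ | nm t ≤ 1}, Φ (kshift (kdir n z0) a t) ≤
        ENNReal.ofReal (10 ^ 9 * (1 + kA n z0 (2 * r) a) ^ 2) := by
      refine le_trans ?_ hH2
      refine le_trans ?_ (setLIntegral_le_lintegral {t : ℝ × ℝ | nm t ≤ 1} H)
      refine setLIntegral_mono' (measurableSet_le continuous_nm.measurable measurable_const)
        fun t ht => ?_
      rw [hΦeq]
      exact hH1 t ht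
    refine (mul_le_mul_right h2 _).trans ?_
    rw [← ENNReal.ofReal_mul (by unfold kexp; positivity), ← ENNReal.ofReal_mul (by positivity)]
    exact ENNReal.ofReal_le_ofReal (le_of_eq (by ring))
  refine (lintegral_mono h1).trans ?_
  rw [lintegral_const_mul' _ _ ENNReal.ofReal_ne_top, ENNReal.ofReal_mul (by positivity)]
  refine mul_le_mul_right ?_ _
  refine (hC0 n hn z0 (2 * r) (by positivity) ?_).trans
    (ENNReal.ofReal_le_ofReal (le_max_left _ _))
  have h3 : 0 ≤ sq1 z0 := Real.sqrt_nonneg _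
  have h4 : (r * Real.sqrt n) ^ 2 ≤ (sq1 z0 / 8) ^ 2 :=
    pow_le_pow_left₀ (by positivity) hrn 2
  rw [mul_pow, Real.sq_sqrt (by positivity)] at h4
  nlinarith

/-- the mean of the gradient of the argument -/
theorem km_grad : ∃ C : ℝ, 0 ≤ C ∧ ∀ n : ℕ, 1 ≤ n → ∀ z : ℝ × ℝ,
    ∫⁻ a, ENNReal.ofReal (argGrad (kArr n a) z) ∂kMeas n ≤
      ENNReal.ofReal (C * Real.sqrt n / sq1 z) := by
  obtain ⟨C0, hC0⟩ := kmoment
  refine ⟨Real.pi⁻¹ * (50000 * max C0 0), by positivity, fun n hn z => ?_⟩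
  have hsq : 0 < sq1 z := by unfold sq1; positivity
  have hn0 : (0:ℝ) < n := by exact_mod_cast hn
  have hsn : 0 < Real.sqrt n := Real.sqrt_pos.2 hn0
  have hmeas : Measurable fun a : KSp n => ENNReal.ofReal (argGrad (kArr n a) z) := by
    have h1 : Measurable fun μ : Pr n => argGrad μ z := by
      unfold argGrad
      refine Measurable.div ?_ ?_
      · refine Continuous.measurable ?_
        unfold pe pex pey
        fun_prop
      · refine Continuous.measurable ?_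
        unfold pe
        fun_prop
    exact (h1.comp (continuous_kArr n).measurable).ennreal_ofReal
  refine (kMeas_smooth (kdir n z) (sum_kdir_sq n z) hmeas).trans ?_
  have hpi : (ENNReal.ofReal Real.pi)⁻¹ = ENNReal.ofReal Real.pi⁻¹ :=
    (ENNReal.ofReal_inv_of_pos Real.pi_pos).symm
  have hsplit : Real.pi⁻¹ * (50000 * max C0 0) * Real.sqrt n / sq1 z =
      Real.pi⁻¹ * (50000 * Real.sqrt n / sq1 z * max C0 0) := by
    field_simp
  rw [hpi, hsplit, ENNReal.ofReal_mul (by positivity)]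
  refine mul_le_mul_right ?_ _
  set ρ : ℝ := 2 * (sq1 z / (8 * Real.sqrt n)) with hρ
  have hρ0 : 0 < ρ := by positivity
  have hρn : ρ ^ 2 * n ≤ sq1 z ^ 2 / 16 := by
    rw [hρ, mul_pow, div_pow, mul_pow, Real.sq_sqrt hn0.le]
    refine le_of_eq ?_
    field_simp
    ring
  have h1 : ∀ a : KSp n, ENNReal.ofReal (kexp (kdir n z) a) *
      ∫⁻ t in {t : ℝ × ℝ | nm t ≤ 1},
        ENNReal.ofReal (argGrad (kArr n (kshift (kdir n z) a t)) z) ≤
      ENNReal.ofReal (50000 * Real.sqrt n / sq1 z) *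
        ENNReal.ofReal (kexp (kdir n z) a * (1 + kA n z ρ a) ^ 2) := by
    intro a
    have h0 := kA_nonneg n z ρ a
    refine (mul_le_mul_right (grad_avg hn z a) _).trans ?_
    rw [← ENNReal.ofReal_mul (by unfold kexp; positivity), ← ENNReal.ofReal_mul (by positivity)]
    refine ENNReal.ofReal_le_ofReal ?_
    rw [← hρ]
    have h2 : 1 + kA n z ρ a ≤ (1 + kA n z ρ a) ^ 2 := by nlinarith
    have h3 : 0 ≤ kexp (kdir n z) a := by unfold kexp; positivity
    have h4 : 0 ≤ 50000 * Real.sqrt n / sq1 z := by positivity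
    calc kexp (kdir n z) a * (50000 * Real.sqrt n / sq1 z * (1 + kA n z ρ a))
        = 50000 * Real.sqrt n / sq1 z * (kexp (kdir n z) a * (1 + kA n z ρ a)) := by ring
      _ ≤ 50000 * Real.sqrt n / sq1 z * (kexp (kdir n z) a * (1 + kA n z ρ a) ^ 2) :=
          mul_le_mul_of_nonneg_left (mul_le_mul_of_nonneg_left h2 h3) h4
  refine (lintegral_mono h1).trans ?_
  rw [lintegral_const_mul' _ _ ENNReal.ofReal_ne_top, ENNReal.ofReal_mul (by positivity)]
  refine mul_le_mul_right ?_ _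
  exact (hC0 n hn z ρ hρ0 hρn).trans (ENNReal.ofReal_le_ofReal (le_max_left _ _))

theorem km_measurable_argGrad :
    Measurable fun q : Pr D × (ℝ × ℝ) => argGrad q.1 q.2 := by
  unfold argGrad
  refine Measurable.div ?_ ?_
  · refine Continuous.measurable ?_
    unfold pe pex pey
    fun_prop
  · refine Continuous.measurable ?_
    unfold pe
    fun_prop

/-- the mean number of the closed orbits which are not in a cell -/
theorem km_rest : ∃ C : ℝ, 0 ≤ C ∧ ∀ n : ℕ, 1 ≤ n → ∀ K : ℕ,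
    ∫⁻ a, cntO (kVF n a) (disc 0 (2 ^ K)) (kcells n K) (kcell n) ∂kMeas n ≤
      ENNReal.ofReal (C * n * (K + 1)) := by
  obtain ⟨C0, hC0, hgrad⟩ := km_grad
  refine ⟨Real.pi⁻¹ * (256 * Real.pi * C0), by positivity, fun n hn K => ?_⟩
  have hn0 : (0:ℝ) < n := by exact_mod_cast hn
  have hsf : SFinite (kMeas n) := by unfold kMeas; infer_instance
  have hmeas : Measurable fun a : KSp n =>
      cntO (kVF n a) (disc 0 (2 ^ K)) (kcells n K) (kcell n) :=
    km_measurable_cntO n (isOpen_disc _ _) _ fun i _ => km_isOpen_kcell n i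
  rw [km_rot_avg n hmeas]
  have hpi : (ENNReal.ofReal Real.pi)⁻¹ = ENNReal.ofReal Real.pi⁻¹ :=
    (ENNReal.ofReal_inv_of_pos Real.pi_pos).symm
  have hsplit : Real.pi⁻¹ * (256 * Real.pi * C0) * n * (K + 1) =
      Real.pi⁻¹ * (256 * Real.pi * C0 * n * (K + 1)) := by ring
  rw [hpi, hsplit, ENNReal.ofReal_mul (by positivity)]
  refine mul_le_mul_right ?_ _
  have h1 : ∀ a : KSp n, ∫⁻ α in Set.Ioo 0 Real.pi,
      cntO (kVF n (krot α a)) (disc 0 (2 ^ K)) (kcells n K) (kcell n) ≤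
      ∑ k ∈ Finset.range (K + 1), ENNReal.ofReal (16 * kq n / 2 ^ k) *
        ∫⁻ z in disc 0 (2 ^ k), ENNReal.ofReal (argGrad (kArr n a) z) := by
    intro a
    simp only [kVF_krot]
    simp only [kVF_eq_vfc]
    exact rest_count hn (kArr n a) K
  refine (lintegral_mono h1).trans ?_
  have hm2 : Measurable fun q : KSp n × (ℝ × ℝ) => ENNReal.ofReal (argGrad (kArr n q.1) q.2) := by
    have hc : Measurable fun q : KSp n × (ℝ × ℝ) => (kArr n q.1, q.2) :=
      ((continuous_kArr n).measurable.comp measurable_fst).prodMk measurable_snd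
    exact (km_measurable_argGrad.comp hc).ennreal_ofReal
  have hm3 : ∀ k : ℕ, Measurable fun a : KSp n =>
      ∫⁻ z in disc 0 (2 ^ k), ENNReal.ofReal (argGrad (kArr n a) z) := fun k =>
    hm2.lintegral_prod_right'
  rw [lintegral_finsetSum _ fun k _ => (hm3 k).const_mul _]
  have h2 : ∀ k ∈ Finset.range (K + 1), ∫⁻ a : KSp n, ENNReal.ofReal (16 * kq n / 2 ^ k) *
      (∫⁻ z in disc 0 (2 ^ k), ENNReal.ofReal (argGrad (kArr n a) z)) ∂kMeas n ≤
      ENNReal.ofReal (256 * Real.pi * C0 * n) := by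
    intro k _
    rw [lintegral_const_mul' _ _ ENNReal.ofReal_ne_top,
      lintegral_lintegral_swap hm2.aemeasurable]
    have h3 : ∫⁻ z in disc 0 (2 ^ k), ∫⁻ a, ENNReal.ofReal (argGrad (kArr n a) z) ∂kMeas n ≤
        ENNReal.ofReal (C0 * Real.sqrt n) * ENNReal.ofReal (2 * Real.pi * 2 ^ k) := by
      have h4 : ∫⁻ z in disc 0 (2 ^ k), ∫⁻ a, ENNReal.ofReal (argGrad (kArr n a) z) ∂kMeas n ≤
          ∫⁻ z in disc 0 (2 ^ k), ENNReal.ofReal (C0 * Real.sqrt n) *
            (ENNReal.ofReal (nm z))⁻¹ := by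
        refine lintegral_mono fun z => (hgrad n hn z).trans ?_
        rw [ENNReal.ofReal_div_of_pos (by unfold sq1; positivity), div_eq_mul_inv]
        refine mul_le_mul_right (ENNReal.inv_le_inv.2 (ENNReal.ofReal_le_ofReal ?_)) _
        unfold nm sq1
        exact Real.sqrt_le_sqrt (by linarith)
      refine h4.trans ?_
      rw [lintegral_const_mul' _ _ ENNReal.ofReal_ne_top]
      refine mul_le_mul_right ?_ _
      refine le_trans (lintegral_mono_set ?_) (lintegral_inv_nm_ball (by positivity))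
      intro z hz
      have hz' : (z.1 - 0) ^ 2 + (z.2 - 0) ^ 2 < ((2:ℝ) ^ k) ^ 2 := hz
      rw [sub_zero, sub_zero] at hz'
      change Real.sqrt _ < _
      rw [Real.sqrt_lt' (by positivity)]
      exact hz'
    refine (mul_le_mul_right h3 _).trans ?_
    rw [← ENNReal.ofReal_mul (by positivity), ← ENNReal.ofReal_mul (by positivity)]
    refine ENNReal.ofReal_le_ofReal ?_
    have h5 := kq_le hn
    have h6 : Real.sqrt n * Real.sqrt n = n := Real.mul_self_sqrt hn0.le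
    have h7 : (16 * kq n / 2 ^ k : ℝ) * (C0 * Real.sqrt n * (2 * Real.pi * 2 ^ k)) =
        32 * Real.pi * C0 * (kq n * Real.sqrt n) := by
      field_simp
      ring
    rw [h7]
    have h8 : (kq n : ℝ) * Real.sqrt n ≤ 8 * n := by
      calc (kq n : ℝ) * Real.sqrt n ≤ 8 * Real.sqrt n * Real.sqrt n :=
            mul_le_mul_of_nonneg_right h5 (Real.sqrt_nonneg _)
        _ = 8 * n := by rw [mul_assoc, h6]
    calc 32 * Real.pi * C0 * (kq n * Real.sqrt n) ≤ 32 * Real.pi * C0 * (8 * n) :=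
          mul_le_mul_of_nonneg_left h8 (by positivity)
      _ = 256 * Real.pi * C0 * n := by ring
  refine (Finset.sum_le_sum h2).trans ?_
  rw [Finset.sum_const, Finset.card_range, nsmul_eq_mul]
  have h9 : ((K + 1 : ℕ) : ℝ≥0∞) = ENNReal.ofReal ((K : ℝ) + 1) := by
    rw [← ENNReal.ofReal_natCast]
    push_cast
    rfl
  rw [h9, ← ENNReal.ofReal_mul (by positivity)]
  exact ENNReal.ofReal_le_ofReal (le_of_eq (by ring))

theorem kos_main : ∃ C : ℝ, ∀ n : ℕ, 1 ≤ n → ∀ K : ℕ,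
    ∫⁻ a, cntO (kVF n a) (disc 0 (2 ^ K)) (∅ : Finset ℕ) (fun _ => ∅) ∂kMeas n ≤
      ENNReal.ofReal (C * n * (K + 1)) := by
  obtain ⟨C1, hC1, hcell⟩ := km_cell
  obtain ⟨C2, hC2, hrest⟩ := km_rest
  refine ⟨C2 + 70000 * C1, fun n hn K => ?_⟩
  have hn0 : (0:ℝ) < n := by exact_mod_cast hn
  have hm1 : Measurable fun a : KSp n =>
      cntO (kVF n a) (disc 0 (2 ^ K)) (kcells n K) (kcell n) :=
    km_measurable_cntO n (isOpen_disc _ _) _ fun i _ => km_isOpen_kcell n i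
  have hm2 : ∀ x, Measurable fun a : KSp n =>
      cntO (kVF n a) (kcell n x) (∅ : Finset ℕ) (fun _ => ∅) := fun x =>
    km_measurable_cntO n (km_isOpen_kcell n x) ∅ (by simp)
  have h1 : ∫⁻ a, cntO (kVF n a) (disc 0 (2 ^ K)) (∅ : Finset ℕ) (fun _ => ∅) ∂kMeas n ≤
      ∫⁻ a, (cntO (kVF n a) (disc 0 (2 ^ K)) (kcells n K) (kcell n) +
        ∑ x ∈ kcells n K, cntO (kVF n a) (kcell n x) (∅ : Finset ℕ) (fun _ => ∅)) ∂kMeas n :=
    lintegral_mono fun a => cntO_split (kVF n a) n K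
  refine h1.trans ?_
  rw [lintegral_add_left hm1, lintegral_finsetSum _ fun x _ => hm2 x]
  have h2 : ∑ x ∈ kcells n K,
      ∫⁻ a, cntO (kVF n a) (kcell n x) (∅ : Finset ℕ) (fun _ => ∅) ∂kMeas n ≤
      ENNReal.ofReal (70000 * C1 * n * (K + 1)) := by
    have h3 : ∀ x ∈ kcells n K,
        ∫⁻ a, cntO (kVF n a) (kcell n x) (∅ : Finset ℕ) (fun _ => ∅) ∂kMeas n ≤
        ENNReal.ofReal C1 := fun x hx =>
      hcell n hn _ _ (kcell_spec hn K hx).1 (kcell_spec hn K hx).2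
    refine (Finset.sum_le_sum h3).trans ?_
    rw [Finset.sum_const, nsmul_eq_mul, ← ENNReal.ofReal_natCast,
      ← ENNReal.ofReal_mul (by positivity)]
    refine ENNReal.ofReal_le_ofReal ?_
    calc ((kcells n K).card : ℝ) * C1 ≤ 70000 * n * (K + 1) * C1 :=
          mul_le_mul_of_nonneg_right (card_kcells hn K) hC1
      _ = 70000 * C1 * n * (K + 1) := by ring
  refine (add_le_add (hrest n hn K) h2).trans ?_
  rw [← ENNReal.ofReal_add (by positivity) (by positivity)]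
  exact ENNReal.ofReal_le_ofReal (le_of_eq (by ring))

end Pool.Agent.Lib.MP_95e7ec_an
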