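import Mathlib

/-!
Summation over the annuli and the scales.
-/

set_option autoImplicit false

open Set Filter Topology MeasureTheory
open scoped ContDiff ENNReal

namespace Pool.Agent.Lib.MP_95e7ec_an

private theorem p15_pow {y : ℝ} (hy : 0 < y) : ∃ k : ℕ, y ≤ 2 ^ k ∧
    (1 ≤ y → (k : ℝ) ≤ Real.logb 2 y + 1) := by
  refine ⟨⌈Real.logb 2 y⌉₊, ?_, ?_⟩
  · have h1 : Real.logb 2 y ≤ (⌈Real.logb 2 y⌉₊ : ℝ) := Nat.le_ceil _
    have h2 : (2 : ℝ) ^ (Real.logb 2 y) ≤ (2 : ℝ) ^ ((⌈Real.logb 2 y⌉₊ : ℕ) : ℝ) :=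
      Real.rpow_le_rpow_of_exponent_le (by norm_num) h1
    rw [Real.rpow_logb (by norm_num) (by norm_num) hy, Real.rpow_natCast] at h2
    exact h2
  · intro h1
    exact (Nat.ceil_lt_add_one (Real.logb_nonneg (by norm_num) h1)).le

private theorem p15_k0 {n : ℕ} (hn : 1 ≤ n) {x : ℝ} (hx : 1 ≤ x) :
    ∃ k0 : ℕ, (n : ℝ) ^ 2 * x ^ 2 ≤ 2 ^ k0 ∧ (k0 : ℝ) ≤ 1 + 2 * n + 2 * Real.logb 2 x := by
  have hnR : (1 : ℝ) ≤ n := by exact_mod_cast hn
  have hpos : 0 < (n : ℝ) ^ 2 * x ^ 2 := by positivity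
  have h1 : 1 ≤ (n : ℝ) ^ 2 * x ^ 2 := by
    have h2 : 1 ≤ (n : ℝ) ^ 2 := one_le_pow₀ hnR
    have h3 : 1 ≤ x ^ 2 := one_le_pow₀ hx
    nlinarith
  obtain ⟨k, hk1, hk2⟩ := p15_pow hpos
  refine ⟨k, hk1, (hk2 h1).trans ?_⟩
  have e1 : Real.logb 2 ((n : ℝ) ^ 2 * x ^ 2) = 2 * Real.logb 2 n + 2 * Real.logb 2 x := by
    rw [Real.logb_mul (by positivity) (by positivity), Real.logb_pow, Real.logb_pow]
    push_cast
    ring
  have e2 : Real.logb 2 n ≤ n := by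
    rw [Real.logb_le_iff_le_rpow (by norm_num) (by linarith), Real.rpow_natCast]
    have := (Nat.lt_two_pow_self (n := n)).le
    exact_mod_cast this
  rw [e1]
  linarith

private theorem p15_J {x : ℝ} (hx : 1 ≤ x) :
    ∃ J : ℕ, (5 / 6 : ℝ) ^ J * (x ^ 2 * (1 + Real.logb 2 x)) ≤ 1 ∧
      (J : ℝ) ≤ 16 * Real.logb 2 x + 4 := by
  have hx0 : 0 < x := by linarith
  have hx4 : 0 < x ^ 4 := by positivity
  obtain ⟨k, hk1, hk2⟩ := p15_pow hx4
  have h1 : 1 ≤ x ^ 4 := one_le_pow₀ hx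
  have hk3 := hk2 h1
  rw [Real.logb_pow] at hk3
  refine ⟨4 * k, ?_, ?_⟩
  · have h2 : (5 / 6 : ℝ) ^ (4 * k) ≤ (1 / 2) ^ k := by
      rw [pow_mul]
      exact pow_le_pow_left₀ (by norm_num) (by norm_num) k
    have h3 : 1 + Real.logb 2 x ≤ x ^ 2 := by
      have h4 : Real.log x ≤ x - 1 := Real.log_le_sub_one_of_pos hx0
      have h5 : Real.logb 2 x ≤ 3 / 2 * (x - 1) := by
        unfold Real.logb
        have h6 := Real.log_two_gt_d9
        rw [div_le_iff₀ (by linarith)]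
        nlinarith
      nlinarith
    have h0 : 0 ≤ Real.logb 2 x := Real.logb_nonneg (by norm_num) hx
    calc (5 / 6 : ℝ) ^ (4 * k) * (x ^ 2 * (1 + Real.logb 2 x))
        ≤ (1 / 2) ^ k * (x ^ 2 * x ^ 2) := by gcongr
      _ = (1 / 2) ^ k * x ^ 4 := by ring
      _ ≤ (1 / 2) ^ k * 2 ^ k := by gcongr
      _ = 1 := by rw [← mul_pow]; norm_num
  · push_cast
    push_cast at hk3
    linarith

private theorem p15_geom_ofReal {a : ℝ} (ha : 0 ≤ a) (L : ℕ) :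
    ∑' i : ℕ, ENNReal.ofReal (a / 2 ^ (L + i)) = ENNReal.ofReal (2 * a / 2 ^ L) := by
  have h1 : HasSum (fun i : ℕ => a / 2 ^ (L + i)) (2 * a / 2 ^ L) := by
    have h2 := (hasSum_geometric_two).mul_left (a / 2 ^ L)
    have e1 : (fun i : ℕ => a / 2 ^ L * (1 / 2 : ℝ) ^ i) = fun i : ℕ => a / 2 ^ (L + i) := by
      funext i
      rw [pow_add, one_div, inv_pow]
      field_simp
    rw [e1] at h2
    have e2 : a / 2 ^ L * 2 = 2 * a / 2 ^ L := by ring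
    rwa [e2] at h2
  rw [← ENNReal.ofReal_tsum_of_nonneg (fun i => by positivity) h1.summable, h1.tsum_eq]

private theorem p15_geom2_ofReal {a : ℝ} (ha : 0 ≤ a) :
    ∑' i : ℕ, ENNReal.ofReal (a * ((1 + i) * (5 / 6) ^ i)) = ENNReal.ofReal (36 * a) := by
  have h1 : HasSum (fun i : ℕ => a * ((1 + i) * (5 / 6 : ℝ) ^ i)) (36 * a) := by
    have h2 := hasSum_geometric_of_lt_one (r := (5 / 6 : ℝ)) (by norm_num) (by norm_num)
    have h3 := hasSum_coe_mul_geometric_of_norm_lt_one (r := (5 / 6 : ℝ))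
      (by rw [Real.norm_eq_abs, abs_of_pos] <;> norm_num)
    have h4 := (h2.add h3).mul_left a
    have e1 : (fun i : ℕ => a * ((5 / 6 : ℝ) ^ i + i * (5 / 6 : ℝ) ^ i)) =
        fun i : ℕ => a * ((1 + i) * (5 / 6 : ℝ) ^ i) := by
      funext i
      ring
    rw [e1] at h4
    have e2 : a * ((1 - 5 / 6)⁻¹ + 5 / 6 / (1 - 5 / 6) ^ 2) = 36 * a := by
      norm_num
      ring
    rwa [e2] at h4
  rw [← ENNReal.ofReal_tsum_of_nonneg (fun i => by positivity) h1.summable, h1.tsum_eq]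

/-- the pointwise inequality -/
private theorem p15_pointwise (A : ℝ≥0∞) (S : ℕ → Set (ℝ × ℝ)) (h : ℕ → ℝ × ℝ → ℝ≥0∞) (L : ℕ)
    (c : ℝ × ℝ) : min A (∑' k, (S k).indicator (h k) c) ≤
      ∑ k ∈ Finset.range L, h k c + A * ∑' i : ℕ, (S (L + i)).indicator 1 c := by
  by_cases hc : ∃ i, c ∈ S (L + i)
  · obtain ⟨i, hi⟩ := hc
    have h1 : (1 : ℝ≥0∞) ≤ ∑' i : ℕ, (S (L + i)).indicator 1 c := by
      refine le_trans ?_ (ENNReal.le_tsum i)
      rw [indicator_of_mem hi]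
      rfl
    calc min A (∑' k, (S k).indicator (h k) c) ≤ A := min_le_left _ _
      _ = A * 1 := (mul_one A).symm
      _ ≤ A * ∑' i : ℕ, (S (L + i)).indicator 1 c := by gcongr
      _ ≤ _ := le_add_self
  · push Not at hc
    refine (min_le_right _ _).trans (le_trans ?_ le_self_add)
    rw [tsum_eq_sum (s := Finset.range L)]
    · exact Finset.sum_le_sum fun k _ => indicator_le_self (S k) (h k) c
    · intro k hk
      rw [Finset.mem_range, not_lt] at hk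
      obtain ⟨i, rfl⟩ := Nat.exists_eq_add_of_le hk
      exact indicator_of_notMem (hc i) _

private theorem p15_tail {B : Set (ℝ × ℝ)} {S : ℕ → Set (ℝ × ℝ)}
    (hS : ∀ k, MeasurableSet (S k)) {a : ℝ} (ha : 0 ≤ a)
    (hB : ∀ k, volume (B ∩ S k) ≤ ENNReal.ofReal (a / 2 ^ k)) (L : ℕ) :
    ∫⁻ c in B, ∑' i : ℕ, (S (L + i)).indicator 1 c ≤ ENNReal.ofReal (2 * a / 2 ^ L) := by
  rw [lintegral_tsum fun i => (measurable_one.indicator (hS (L + i))).aemeasurable,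
    ← p15_geom_ofReal ha L]
  refine ENNReal.tsum_le_tsum fun i => ?_
  rw [lintegral_indicator_one (hS (L + i)), Measure.restrict_apply (hS (L + i)), inter_comm]
  exact hB (L + i)

private theorem p15_a {B : Set (ℝ × ℝ)} {S : ℕ → Set (ℝ × ℝ)}
    (hS : ∀ k, MeasurableSet (S k)) {a : ℝ} (ha : 0 ≤ a)
    (hB : ∀ k, volume (B ∩ S k) ≤ ENNReal.ofReal (a / 2 ^ k))
    {h : ℕ → ℝ × ℝ → ℝ≥0∞} (hh : ∀ k, Measurable (h k)) {b : ℝ} (hb : 0 ≤ b)
    (hhb : ∀ k, ∫⁻ c, h k c ≤ ENNReal.ofReal b) {A : ℝ} (hA : 0 ≤ A) (L : ℕ) :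
    ∫⁻ c in B, min (ENNReal.ofReal A) (∑' k, (S k).indicator (h k) c) ≤
      ENNReal.ofReal (L * b + A * (2 * a / 2 ^ L)) := by
  have hm : Measurable fun c : ℝ × ℝ => ∑ k ∈ Finset.range L, h k c :=
    Finset.measurable_sum _ fun k _ => hh k
  have hm2 : Measurable fun c : ℝ × ℝ => ∑' i : ℕ, (S (L + i)).indicator (1 : ℝ × ℝ → ℝ≥0∞) c :=
    Measurable.tsum fun i => measurable_one.indicator (hS (L + i))
  calc ∫⁻ c in B, min (ENNReal.ofReal A) (∑' k, (S k).indicator (h k) c)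
      ≤ ∫⁻ c in B, (∑ k ∈ Finset.range L, h k c +
          ENNReal.ofReal A * ∑' i : ℕ, (S (L + i)).indicator 1 c) :=
        lintegral_mono fun c => p15_pointwise _ S h L c
    _ = (∑ k ∈ Finset.range L, ∫⁻ c in B, h k c) +
          ENNReal.ofReal A * ∫⁻ c in B, ∑' i : ℕ, (S (L + i)).indicator 1 c := by
        rw [lintegral_add_left hm, lintegral_finsetSum _ fun k _ => hh k,
          lintegral_const_mul _ hm2]
    _ ≤ (∑ k ∈ Finset.range L, ENNReal.ofReal b) +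
          ENNReal.ofReal A * ENNReal.ofReal (2 * a / 2 ^ L) := by
        refine add_le_add (Finset.sum_le_sum fun k _ => ?_) (mul_le_mul_right (p15_tail hS ha hB L) _)
        exact (setLIntegral_le_lintegral _ _).trans (hhb k)
    _ = ENNReal.ofReal (L * b + A * (2 * a / 2 ^ L)) := by
        rw [Finset.sum_const, Finset.card_range, nsmul_eq_mul, ← ENNReal.ofReal_mul hA,
          ENNReal.ofReal_add (by positivity) (by positivity),
          ENNReal.ofReal_mul (Nat.cast_nonneg L), ENNReal.ofReal_natCast]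

/-- summation over the annuli and the scales -/
theorem sum_lemma (C1 C2 C3 : ℝ) (h1 : 0 ≤ C1) (h2 : 0 ≤ C2) (h3 : 0 ≤ C3) :
    ∃ C : ℝ, 0 ≤ C ∧ ∀ (n : ℕ), 1 ≤ n → ∀ ρ σ : ℝ, 0 < σ → σ ≤ ρ →
    ∀ B : Set (ℝ × ℝ), volume B ≤ ENNReal.ofReal (4 * σ ^ 2) →
    ∀ S : ℕ → Set (ℝ × ℝ), (∀ k, MeasurableSet (S k)) →
    (∀ k, volume (B ∩ S k) ≤ ENNReal.ofReal (C3 * n ^ 2 * ρ ^ 2 / 2 ^ k)) →
    ∀ h : ℕ → ℕ → ℝ × ℝ → ℝ≥0∞, (∀ k j, Measurable (h k j)) →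
    (∀ k j, ∫⁻ c, h k j c ≤ ENNReal.ofReal (C1 * n ^ 2 * ρ ^ 2 * (5 / 6) ^ j)) →
    ∫⁻ c in B, ∑' j, min (ENNReal.ofReal (C2 * n ^ 3)) (∑' k, (S k).indicator (h k j) c) ≤
      ENNReal.ofReal (C * n ^ 3 * σ ^ 2 * (1 + Real.logb 2 (ρ / σ))) := by
  refine ⟨64 * C2 + 4 * C2 * C3 + 1728 * C1, by positivity, ?_⟩
  intro n hn ρ σ hσ hσρ B hB S hS hBS h hh hhb
  have hnR : (1 : ℝ) ≤ n := by exact_mod_cast hn
  have hρ : 0 < ρ := by linarith
  set x : ℝ := ρ / σ with hx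
  have hx1 : 1 ≤ x := by rw [hx, le_div_iff₀ hσ]; linarith
  have hρx : ρ = x * σ := by rw [hx]; field_simp
  set lam : ℝ := Real.logb 2 x with hlam
  have hlam0 : 0 ≤ lam := Real.logb_nonneg (by norm_num) hx1
  obtain ⟨k0, hk1, hk2⟩ := p15_k0 hn hx1
  obtain ⟨J, hJ1, hJ2⟩ := p15_J hx1
  rw [← hlam] at hk2 hJ1 hJ2
  have hmeas : ∀ j, Measurable fun c : ℝ × ℝ =>
      min (ENNReal.ofReal (C2 * n ^ 3)) (∑' k, (S k).indicator (h k j) c) := fun j =>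
    measurable_const.min (Measurable.tsum fun k => (hh k j).indicator (hS k))
  rw [lintegral_tsum fun j => (hmeas j).aemeasurable]
  set I : ℕ → ℝ≥0∞ := fun j => ∫⁻ c in B,
    min (ENNReal.ofReal (C2 * n ^ 3)) (∑' k, (S k).indicator (h k j) c) with hI
  -- the two bounds
  have hb1 : ∀ j, I j ≤ ENNReal.ofReal (4 * C2 * n ^ 3 * σ ^ 2) := by
    intro j
    calc I j ≤ ∫⁻ c in B, ENNReal.ofReal (C2 * n ^ 3) := lintegral_mono fun c => min_le_left _ _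
      _ = ENNReal.ofReal (C2 * n ^ 3) * volume B := by rw [setLIntegral_const]
      _ ≤ ENNReal.ofReal (C2 * n ^ 3) * ENNReal.ofReal (4 * σ ^ 2) := by gcongr
      _ = ENNReal.ofReal (4 * C2 * n ^ 3 * σ ^ 2) := by
          rw [← ENNReal.ofReal_mul (by positivity)]
          congr 1
          ring
  have hb2 : ∀ i, I (J + i) ≤
      ENNReal.ofReal (3 * C1 * n ^ 3 * σ ^ 2 * (1 + J) * ((1 + i) * (5 / 6) ^ i)) +
        ENNReal.ofReal (2 * C2 * C3 * n ^ 3 * σ ^ 2 / 2 ^ (0 + i)) := by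
    intro i
    have h4 := p15_a hS (by positivity : 0 ≤ C3 * n ^ 2 * ρ ^ 2) hBS (fun k => hh k (J + i))
      (by positivity) (fun k => hhb k (J + i)) (by positivity : 0 ≤ C2 * (n : ℝ) ^ 3)
      (k0 + (J + i))
    refine h4.trans ?_
    rw [← ENNReal.ofReal_add (by positivity) (by positivity)]
    refine ENNReal.ofReal_le_ofReal (add_le_add ?_ ?_)
    · have e1 : (((k0 + (J + i) : ℕ) : ℝ)) ≤ 3 * n * (1 + lam) * ((1 + J) * (1 + i)) := by
        push_cast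
        have hJ0 : (0 : ℝ) ≤ J := Nat.cast_nonneg J
        have hi0 : (0 : ℝ) ≤ i := Nat.cast_nonneg i
        have e2 : (k0 : ℝ) + (J + i) ≤ 3 * n + 2 * lam + (J + i) := by linarith
        have e3 : 3 * n + 2 * lam + (J + i) ≤ 3 * n * (1 + lam) * (1 + (J + i)) := by
          have a1 : 3 * n + 2 * lam + ((J : ℝ) + i) ≤ 3 * n + 3 * n * lam + 3 * n * (J + i) := by
            have : lam ≤ n * lam := by nlinarith
            have : (J : ℝ) + i ≤ n * (J + i) := by nlinarith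
            nlinarith
          have a2 : 0 ≤ 3 * n * lam * ((J : ℝ) + i) := by positivity
          nlinarith
        have e4 : 1 + ((J : ℝ) + i) ≤ (1 + J) * (1 + i) := by nlinarith
        have e5 : 3 * n * (1 + lam) * (1 + ((J : ℝ) + i)) ≤
            3 * n * (1 + lam) * ((1 + J) * (1 + i)) := by gcongr
        linarith
      calc (((k0 + (J + i) : ℕ) : ℝ)) * (C1 * n ^ 2 * ρ ^ 2 * (5 / 6) ^ (J + i))
          ≤ 3 * n * (1 + lam) * ((1 + J) * (1 + i)) * (C1 * n ^ 2 * ρ ^ 2 * (5 / 6) ^ (J + i)) := by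
            gcongr
        _ = (3 * C1 * n ^ 3 * σ ^ 2 * (1 + J) * ((1 + i) * (5 / 6) ^ i)) *
            ((5 / 6) ^ J * (x ^ 2 * (1 + lam))) := by
            rw [hρx, pow_add]
            ring
        _ ≤ (3 * C1 * n ^ 3 * σ ^ 2 * (1 + J) * ((1 + i) * (5 / 6) ^ i)) * 1 := by
            gcongr
        _ = _ := mul_one _
    · have e1 : C2 * n ^ 3 * (2 * (C3 * n ^ 2 * ρ ^ 2) / 2 ^ (k0 + (J + i))) =
          (2 * C2 * C3 * n ^ 3 * σ ^ 2) * (n ^ 2 * x ^ 2 / 2 ^ k0) * (1 / 2 ^ J) *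
            (1 / 2 ^ i) := by
        rw [hρx, pow_add, pow_add]
        field_simp
      have e2 : (n : ℝ) ^ 2 * x ^ 2 / 2 ^ k0 ≤ 1 := by
        rw [div_le_one (by positivity)]
        exact hk1
      have e3 : (1 : ℝ) / 2 ^ J ≤ 1 := by
        rw [div_le_one (by positivity)]
        exact one_le_pow₀ (by norm_num)
      rw [e1, zero_add]
      calc (2 * C2 * C3 * n ^ 3 * σ ^ 2) * (n ^ 2 * x ^ 2 / 2 ^ k0) * (1 / 2 ^ J) * (1 / 2 ^ i)
          ≤ (2 * C2 * C3 * n ^ 3 * σ ^ 2) * 1 * 1 * (1 / 2 ^ i) := by gcongr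
        _ = 2 * C2 * C3 * n ^ 3 * σ ^ 2 / 2 ^ i := by ring
  -- the sum
  have hsum : ∑' j, I j ≤ ENNReal.ofReal (J * (4 * C2 * n ^ 3 * σ ^ 2)) +
      (ENNReal.ofReal (36 * (3 * C1 * n ^ 3 * σ ^ 2 * (1 + J))) +
        ENNReal.ofReal (2 * (2 * C2 * C3 * n ^ 3 * σ ^ 2) / 2 ^ 0)) := by
    rw [← Summable.sum_add_tsum_nat_add' (f := I) (k := J) ENNReal.summable]
    refine add_le_add ?_ ?_
    · calc ∑ j ∈ Finset.range J, I j
          ≤ ∑ j ∈ Finset.range J, ENNReal.ofReal (4 * C2 * n ^ 3 * σ ^ 2) :=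
            Finset.sum_le_sum fun j _ => hb1 j
        _ = ENNReal.ofReal (J * (4 * C2 * n ^ 3 * σ ^ 2)) := by
            rw [Finset.sum_const, Finset.card_range, nsmul_eq_mul,
              ENNReal.ofReal_mul (Nat.cast_nonneg J), ENNReal.ofReal_natCast]
    · rw [← p15_geom2_ofReal (by positivity : 0 ≤ 3 * C1 * n ^ 3 * σ ^ 2 * (1 + J)),
        ← p15_geom_ofReal (by positivity : 0 ≤ 2 * C2 * C3 * n ^ 3 * σ ^ 2) 0,
        ← ENNReal.tsum_add]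
      refine ENNReal.tsum_le_tsum fun i => ?_
      rw [add_comm i J]
      exact hb2 i
  refine hsum.trans ?_
  rw [← ENNReal.ofReal_add (by positivity) (by positivity),
    ← ENNReal.ofReal_add (by positivity) (by positivity)]
  refine ENNReal.ofReal_le_ofReal ?_
  set w : ℝ := (n : ℝ) ^ 3 * σ ^ 2 with hw
  have hw0 : 0 ≤ w := by positivity
  have e1 : (J : ℝ) * (4 * C2 * n ^ 3 * σ ^ 2) ≤ 64 * C2 * w * (1 + lam) := by
    have : (J : ℝ) * (4 * C2 * n ^ 3 * σ ^ 2) = J * (4 * (C2 * w)) := by rw [hw]; ring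
    rw [this]
    have h5 : (J : ℝ) * (4 * (C2 * w)) ≤ (16 * (1 + lam)) * (4 * (C2 * w)) := by
      have : (J : ℝ) ≤ 16 * (1 + lam) := by linarith
      gcongr
    linarith
  have e2 : 36 * (3 * C1 * n ^ 3 * σ ^ 2 * (1 + J)) ≤ 1728 * C1 * w * (1 + lam) := by
    have : 36 * (3 * C1 * n ^ 3 * σ ^ 2 * (1 + J)) = (1 + J) * (108 * (C1 * w)) := by
      rw [hw]; ring
    rw [this]
    have h5 : (1 + (J : ℝ)) * (108 * (C1 * w)) ≤ (16 * (1 + lam)) * (108 * (C1 * w)) := by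
      have : 1 + (J : ℝ) ≤ 16 * (1 + lam) := by linarith
      gcongr
    linarith
  have e3 : 2 * (2 * C2 * C3 * n ^ 3 * σ ^ 2) / 2 ^ 0 ≤ 4 * C2 * C3 * w * (1 + lam) := by
    have : 2 * (2 * C2 * C3 * n ^ 3 * σ ^ 2) / 2 ^ 0 = 4 * (C2 * C3 * w) * 1 := by
      rw [hw]; ring
    rw [this]
    have h5 : 4 * (C2 * C3 * w) * 1 ≤ 4 * (C2 * C3 * w) * (1 + lam) := by
      gcongr
      linarith
    linarith
  have e4 : (64 * C2 + 4 * C2 * C3 + 1728 * C1) * n ^ 3 * σ ^ 2 * (1 + lam) =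
      64 * C2 * w * (1 + lam) + (1728 * C1 * w * (1 + lam) + 4 * C2 * C3 * w * (1 + lam)) := by
    rw [hw]; ring
  rw [e4]
  linarith

theorem sum_lemma_two (C1 C3 : ℝ) (h1 : 0 ≤ C1) (h3 : 0 ≤ C3) :
    ∃ C : ℝ, 0 ≤ C ∧ ∀ (n : ℕ), 1 ≤ n → ∀ ρ σ : ℝ, 0 < σ → σ ≤ ρ →
    ∀ B : Set (ℝ × ℝ), volume B ≤ ENNReal.ofReal (4 * σ ^ 2) →
    ∀ S : ℕ → Set (ℝ × ℝ), (∀ k, MeasurableSet (S k)) →
    (∀ k, volume (B ∩ S k) ≤ ENNReal.ofReal (C3 * n ^ 2 * ρ ^ 2 / 2 ^ k)) →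
    ∫⁻ c in B, ∑' k, (S k).indicator (fun _ => ENNReal.ofReal (C1 * n ^ 2)) c ≤
      ENNReal.ofReal (C * n ^ 3 * σ ^ 2 * (1 + Real.logb 2 (ρ / σ))) := by
  refine ⟨C1 * (12 + 2 * C3), by positivity, ?_⟩
  intro n hn ρ σ hσ hσρ B hB S hS hBS
  have hnR : (1 : ℝ) ≤ n := by exact_mod_cast hn
  have hρ : 0 < ρ := by linarith
  set x : ℝ := ρ / σ with hx
  have hx1 : 1 ≤ x := by rw [hx, le_div_iff₀ hσ]; linarith
  have hρx : ρ = x * σ := by rw [hx]; field_simp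
  set lam : ℝ := Real.logb 2 x with hlam
  have hlam0 : 0 ≤ lam := Real.logb_nonneg (by norm_num) hx1
  obtain ⟨k0, hk1, hk2⟩ := p15_k0 hn hx1
  rw [← hlam] at hk2
  have hint : ∀ k, ∫⁻ c in B, (S k).indicator (fun _ => ENNReal.ofReal (C1 * n ^ 2)) c =
      ENNReal.ofReal (C1 * n ^ 2) * volume (B ∩ S k) := by
    intro k
    rw [lintegral_indicator (hS k), setLIntegral_const, Measure.restrict_apply (hS k), inter_comm]
  rw [lintegral_tsum fun k => (measurable_const.indicator (hS k)).aemeasurable]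
  simp_rw [hint]
  rw [ENNReal.tsum_mul_left]
  have hsum : ∑' k, volume (B ∩ S k) ≤ ENNReal.ofReal (k0 * (4 * σ ^ 2)) +
      ENNReal.ofReal (2 * (C3 * n ^ 2 * ρ ^ 2) / 2 ^ k0) := by
    rw [← Summable.sum_add_tsum_nat_add' (f := fun k => volume (B ∩ S k)) (k := k0)
      ENNReal.summable]
    refine add_le_add ?_ ?_
    · calc ∑ k ∈ Finset.range k0, volume (B ∩ S k)
          ≤ ∑ k ∈ Finset.range k0, ENNReal.ofReal (4 * σ ^ 2) :=
            Finset.sum_le_sum fun k _ => (measure_mono inter_subset_left).trans hB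
        _ = ENNReal.ofReal (k0 * (4 * σ ^ 2)) := by
            rw [Finset.sum_const, Finset.card_range, nsmul_eq_mul,
              ENNReal.ofReal_mul (Nat.cast_nonneg k0), ENNReal.ofReal_natCast]
    · rw [← p15_geom_ofReal (by positivity : 0 ≤ C3 * n ^ 2 * ρ ^ 2) k0]
      refine ENNReal.tsum_le_tsum fun i => ?_
      rw [add_comm i k0]
      exact hBS (k0 + i)
  calc ENNReal.ofReal (C1 * n ^ 2) * ∑' k, volume (B ∩ S k)
      ≤ ENNReal.ofReal (C1 * n ^ 2) * (ENNReal.ofReal (k0 * (4 * σ ^ 2)) +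
        ENNReal.ofReal (2 * (C3 * n ^ 2 * ρ ^ 2) / 2 ^ k0)) := by gcongr
    _ = ENNReal.ofReal (C1 * n ^ 2 * (k0 * (4 * σ ^ 2) +
        2 * (C3 * n ^ 2 * ρ ^ 2) / 2 ^ k0)) := by
        rw [← ENNReal.ofReal_add (by positivity) (by positivity),
          ← ENNReal.ofReal_mul (by positivity)]
    _ ≤ _ := by
        refine ENNReal.ofReal_le_ofReal ?_
        have e1 : 2 * (C3 * n ^ 2 * ρ ^ 2) / 2 ^ k0 ≤ 2 * C3 * σ ^ 2 := by
          have e2 : 2 * (C3 * n ^ 2 * ρ ^ 2) / 2 ^ k0 =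
              2 * C3 * σ ^ 2 * (n ^ 2 * x ^ 2 / 2 ^ k0) := by
            rw [hρx]; ring
          have e3 : (n : ℝ) ^ 2 * x ^ 2 / 2 ^ k0 ≤ 1 := by
            rw [div_le_one (by positivity)]
            exact hk1
          rw [e2]
          calc 2 * C3 * σ ^ 2 * (n ^ 2 * x ^ 2 / 2 ^ k0) ≤ 2 * C3 * σ ^ 2 * 1 := by gcongr
            _ = 2 * C3 * σ ^ 2 := mul_one _
        have e4 : (k0 : ℝ) ≤ 3 * (n * (1 + lam)) := by
          have : lam ≤ n * lam := by nlinarith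
          nlinarith
        have e5 : (1 : ℝ) ≤ n * (1 + lam) := by nlinarith
        calc C1 * n ^ 2 * (k0 * (4 * σ ^ 2) + 2 * (C3 * n ^ 2 * ρ ^ 2) / 2 ^ k0)
            ≤ C1 * n ^ 2 * ((3 * (n * (1 + lam))) * (4 * σ ^ 2) +
              2 * C3 * σ ^ 2 * (n * (1 + lam))) := by
              gcongr
              calc 2 * (C3 * n ^ 2 * ρ ^ 2) / 2 ^ k0 ≤ 2 * C3 * σ ^ 2 := e1
                _ = 2 * C3 * σ ^ 2 * 1 := (mul_one _).symm
                _ ≤ _ := by gcongr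
          _ = C1 * (12 + 2 * C3) * n ^ 3 * σ ^ 2 * (1 + lam) := by ring

end Pool.Agent.Lib.MP_95e7ec_an
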