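import Mathlib

/-!
# Summation over the annuli and the scales: the bound of order `n² log n`
-/

set_option autoImplicit false

open Set Filter Topology MeasureTheory
open scoped ENNReal

namespace Pool.Agent.Lib.MP_95e7ec_an

private theorem slb_log {n : ℕ} (hn : 1 ≤ n) (a : ℕ) :
    ∃ k0 : ℕ, (n : ℝ) ^ a ≤ 2 ^ k0 ∧ (k0 : ℝ) ≤ a * Real.logb 2 n + 1 := by
  have hn1 : (1 : ℝ) ≤ n := by exact_mod_cast hn
  have hn0 : (0 : ℝ) < n := by linarith
  have hlog : 0 ≤ Real.logb 2 n := Real.logb_nonneg (by norm_num) hn1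
  refine ⟨⌈a * Real.logb 2 n⌉₊, ?_, (Nat.ceil_lt_add_one (by positivity)).le⟩
  have h1 : Real.logb 2 ((n : ℝ) ^ a) ≤ (⌈a * Real.logb 2 n⌉₊ : ℝ) := by
    rw [Real.logb_pow]
    exact Nat.le_ceil _
  rw [Real.logb_le_iff_le_rpow (by norm_num) (by positivity), Real.rpow_natCast] at h1
  exact h1

private theorem slb_geom {A q : ℝ} (hA : 0 ≤ A) (hq : 0 ≤ q) (hq1 : q < 1) :
    ∑' k : ℕ, ENNReal.ofReal (A * q ^ k) = ENNReal.ofReal (A / (1 - q)) := by
  rw [← ENNReal.ofReal_tsum_of_nonneg (fun k => by positivity)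
    ((summable_geometric_of_lt_one hq hq1).mul_left A), tsum_mul_left,
    tsum_geometric_of_lt_one hq hq1]
  rfl

private theorem slb_lin {A : ℝ} (hA : 0 ≤ A) (k0 : ℕ) :
    ∑' j : ℕ, ENNReal.ofReal (A * ((k0 + j) * (5 / 6) ^ j)) = ENNReal.ofReal (A * (6 * k0 + 30)) := by
  have h1 : HasSum (fun j : ℕ => (j : ℝ) * (5 / 6 : ℝ) ^ j) ((5 / 6) / (1 - 5 / 6) ^ 2) :=
    hasSum_coe_mul_geometric_of_norm_lt_one (by norm_num)
  have h2 : HasSum (fun j : ℕ => (5 / 6 : ℝ) ^ j) (1 - 5 / 6)⁻¹ :=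
    hasSum_geometric_of_lt_one (by norm_num) (by norm_num)
  have h3 := ((h2.mul_left (k0 : ℝ)).add h1).mul_left A
  have h4 : (fun j : ℕ => A * ((k0 : ℝ) * (5 / 6 : ℝ) ^ j + (j : ℝ) * (5 / 6 : ℝ) ^ j)) =
      fun j : ℕ => A * ((k0 + j) * (5 / 6) ^ j) := by
    funext j
    ring
  rw [h4] at h3
  rw [← ENNReal.ofReal_tsum_of_nonneg (fun k => by positivity) h3.summable, h3.tsum_eq]
  congr 1
  norm_num
  ring_nf
  simp

/-- the tail estimate -/
private theorem slb_tail {V : ℕ → ℝ≥0∞} {K : ℝ} (hK : 0 ≤ K)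
    (hV : ∀ k, V k ≤ ENNReal.ofReal (K / 2 ^ k)) (L : ℕ) :
    ∑' k, V (k + L) ≤ ENNReal.ofReal (2 * K / 2 ^ L) := by
  calc ∑' k, V (k + L) ≤ ∑' k : ℕ, ENNReal.ofReal (K / 2 ^ L * (1 / 2) ^ k) := by
        refine ENNReal.tsum_le_tsum fun k => (hV (k + L)).trans ?_
        apply ENNReal.ofReal_le_ofReal
        rw [pow_add, one_div, inv_pow]
        apply le_of_eq
        field_simp
    _ = ENNReal.ofReal (2 * K / 2 ^ L) := by
        rw [slb_geom (by positivity) (by norm_num) (by norm_num)]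
        congr 1
        ring

theorem sum_lemma_b (C1 C2 C3 : ℝ) (h1 : 0 ≤ C1) (h2 : 0 ≤ C2) (h3 : 0 ≤ C3) :
    ∃ C : ℝ, 0 ≤ C ∧ ∀ (n : ℕ), 1 ≤ n → ∀ ρ : ℝ, 0 < ρ →
    ∀ B : Set (ℝ × ℝ), ∀ S : ℕ → Set (ℝ × ℝ), (∀ k, MeasurableSet (S k)) →
    (∀ k, volume (B ∩ S k) ≤ ENNReal.ofReal (C3 * n ^ 2 * ρ ^ 2 / 2 ^ k)) →
    ∀ h : ℕ → ℕ → ℝ × ℝ → ℝ≥0∞, (∀ k j, Measurable (h k j)) →
    (∀ k j, ∫⁻ c, h k j c ≤ ENNReal.ofReal (C1 * n ^ 2 * ρ ^ 2 * (5 / 6) ^ j)) →
    ∫⁻ c in B, ∑' j, min (ENNReal.ofReal (C2 * n ^ 3)) (∑' k, (S k).indicator (h k j) c) ≤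
      ENNReal.ofReal (C * n ^ 2 * ρ ^ 2 * (1 + Real.logb 2 n)) := by
  refine ⟨36 * C1 + 4 * C2 * C3, by positivity, ?_⟩
  intro n hn ρ hρ B S hSm hSv h hhm hhi
  have hn1 : (1 : ℝ) ≤ n := by exact_mod_cast hn
  have hlog : 0 ≤ Real.logb 2 n := Real.logb_nonneg (by norm_num) hn1
  obtain ⟨k0, hk1, hk2⟩ := slb_log hn 3
  have hpt : ∀ (j : ℕ) (c : ℝ × ℝ),
      min (ENNReal.ofReal (C2 * n ^ 3)) (∑' k, (S k).indicator (h k j) c) ≤
      (∑ k ∈ Finset.range (k0 + j), (S k).indicator (h k j) c) +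
        ∑' k, (S (k + (k0 + j))).indicator (fun _ => ENNReal.ofReal (C2 * n ^ 3)) c := by
    intro j c
    by_cases hc : ∃ k, c ∈ S (k + (k0 + j))
    · obtain ⟨k, hk⟩ := hc
      refine (min_le_left _ _).trans ((le_trans ?_ (ENNReal.le_tsum k)).trans (le_add_left le_rfl))
      rw [Set.indicator_of_mem hk]
    · push Not at hc
      refine (min_le_right _ _).trans ?_
      rw [← Summable.sum_add_tsum_nat_add' (k := k0 + j) ENNReal.summable]
      refine add_le_add le_rfl (ENNReal.tsum_le_tsum fun k => ?_)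
      rw [Set.indicator_of_notMem (hc k)]
      exact zero_le
  have hm1 : ∀ j, Measurable fun c => ∑ k ∈ Finset.range (k0 + j), (S k).indicator (h k j) c :=
    fun j => Finset.measurable_fun_sum _ fun k _ => (hhm k j).indicator (hSm k)
  have hm2 : ∀ j, Measurable fun c => ∑' k, (S (k + (k0 + j))).indicator
      (fun _ => ENNReal.ofReal (C2 * n ^ 3)) c :=
    fun j => Measurable.tsum fun k => measurable_const.indicator (hSm _)
  have hm3 : ∀ j, AEMeasurable (fun c => (∑ k ∈ Finset.range (k0 + j), (S k).indicator (h k j) c) +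
      ∑' k, (S (k + (k0 + j))).indicator (fun _ => ENNReal.ofReal (C2 * n ^ 3)) c)
      (volume.restrict B) := fun j => ((hm1 j).add (hm2 j)).aemeasurable
  calc ∫⁻ c in B, ∑' j, min (ENNReal.ofReal (C2 * n ^ 3)) (∑' k, (S k).indicator (h k j) c)
      ≤ ∫⁻ c in B, ∑' j, ((∑ k ∈ Finset.range (k0 + j), (S k).indicator (h k j) c) +
        ∑' k, (S (k + (k0 + j))).indicator (fun _ => ENNReal.ofReal (C2 * n ^ 3)) c) :=
        lintegral_mono fun c => ENNReal.tsum_le_tsum fun j => hpt j c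
    _ = ∑' j, ((∫⁻ c in B, ∑ k ∈ Finset.range (k0 + j), (S k).indicator (h k j) c) +
        ∫⁻ c in B, ∑' k, (S (k + (k0 + j))).indicator (fun _ => ENNReal.ofReal (C2 * n ^ 3)) c) := by
        rw [lintegral_tsum hm3]
        exact tsum_congr fun j => lintegral_add_left (hm1 j) _
    _ ≤ ∑' j : ℕ, (ENNReal.ofReal (C1 * n ^ 2 * ρ ^ 2 * ((k0 + j) * (5 / 6) ^ j)) +
        ENNReal.ofReal (2 * C2 * C3 * n ^ 2 * ρ ^ 2 * (1 / 2) ^ j)) := by
        refine ENNReal.tsum_le_tsum fun j => add_le_add ?_ ?_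
        · rw [lintegral_finsetSum _ fun k _ => (hhm k j).indicator (hSm k)]
          calc ∑ k ∈ Finset.range (k0 + j), ∫⁻ c in B, (S k).indicator (h k j) c
              ≤ ∑ k ∈ Finset.range (k0 + j),
                ENNReal.ofReal (C1 * n ^ 2 * ρ ^ 2 * (5 / 6) ^ j) := by
                refine Finset.sum_le_sum fun k _ => ?_
                refine ((setLIntegral_le_lintegral _ _).trans (lintegral_mono fun c => ?_)).trans
                  (hhi k j)
                exact Set.indicator_le_self _ _ _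
            _ = ENNReal.ofReal (C1 * n ^ 2 * ρ ^ 2 * ((k0 + j) * (5 / 6) ^ j)) := by
                rw [Finset.sum_const, Finset.card_range, nsmul_eq_mul, ← ENNReal.ofReal_natCast,
                  ← ENNReal.ofReal_mul (by positivity)]
                congr 1
                push_cast
                ring
        · rw [lintegral_tsum fun k => (measurable_const.indicator (hSm _)).aemeasurable]
          have h5 : ∀ k, ∫⁻ c in B, (S (k + (k0 + j))).indicator
              (fun _ => ENNReal.ofReal (C2 * n ^ 3)) c =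
              ENNReal.ofReal (C2 * n ^ 3) * volume (B ∩ S (k + (k0 + j))) := by
            intro k
            rw [lintegral_indicator (hSm _), lintegral_const, Measure.restrict_apply
              MeasurableSet.univ, Set.univ_inter, Measure.restrict_apply (hSm _), Set.inter_comm]
          simp only [h5]
          rw [ENNReal.tsum_mul_left]
          calc ENNReal.ofReal (C2 * n ^ 3) * ∑' k, volume (B ∩ S (k + (k0 + j)))
              ≤ ENNReal.ofReal (C2 * n ^ 3) *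
                ENNReal.ofReal (2 * (C3 * n ^ 2 * ρ ^ 2) / 2 ^ (k0 + j)) := by
                gcongr
                exact slb_tail (V := fun k => volume (B ∩ S k)) (by positivity) hSv _
            _ = ENNReal.ofReal (C2 * n ^ 3 * (2 * (C3 * n ^ 2 * ρ ^ 2) / 2 ^ (k0 + j))) :=
                (ENNReal.ofReal_mul (by positivity)).symm
            _ ≤ ENNReal.ofReal (2 * C2 * C3 * n ^ 2 * ρ ^ 2 * (1 / 2) ^ j) := by
                apply ENNReal.ofReal_le_ofReal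
                have e : C2 * (n : ℝ) ^ 3 * (2 * (C3 * n ^ 2 * ρ ^ 2) / 2 ^ (k0 + j)) =
                    2 * C2 * C3 * n ^ 2 * ρ ^ 2 * (1 / 2) ^ j * (n ^ 3 / 2 ^ k0) := by
                  rw [pow_add, one_div, inv_pow]
                  field_simp
                rw [e]
                have h6 : (n : ℝ) ^ 3 / 2 ^ k0 ≤ 1 := by
                  rw [div_le_one (by positivity)]
                  exact hk1
                have h7 : 0 ≤ 2 * C2 * C3 * (n : ℝ) ^ 2 * ρ ^ 2 * (1 / 2) ^ j := by positivity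
                exact mul_le_of_le_one_right h7 h6
    _ = ENNReal.ofReal (C1 * n ^ 2 * ρ ^ 2 * (6 * k0 + 30)) +
        ENNReal.ofReal (2 * C2 * C3 * n ^ 2 * ρ ^ 2 / (1 - 1 / 2)) := by
        rw [ENNReal.tsum_add, slb_lin (by positivity), slb_geom (by positivity) (by norm_num)
          (by norm_num)]
    _ ≤ ENNReal.ofReal ((36 * C1 + 4 * C2 * C3) * n ^ 2 * ρ ^ 2 * (1 + Real.logb 2 n)) := by
        rw [← ENNReal.ofReal_add (by positivity) (by positivity)]
        apply ENNReal.ofReal_le_ofReal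
        have e1 : C1 * (n : ℝ) ^ 2 * ρ ^ 2 * (6 * k0 + 30) + 2 * C2 * C3 * n ^ 2 * ρ ^ 2 / (1 - 1 / 2) =
            (C1 * (6 * k0 + 30) + 4 * C2 * C3) * (n ^ 2 * ρ ^ 2) := by ring
        have e2 : (36 * C1 + 4 * C2 * C3) * (n : ℝ) ^ 2 * ρ ^ 2 * (1 + Real.logb 2 n) =
            ((36 * C1 + 4 * C2 * C3) * (1 + Real.logb 2 n)) * (n ^ 2 * ρ ^ 2) := by ring
        rw [e1, e2]
        apply mul_le_mul_of_nonneg_right _ (by positivity)
        push_cast at hk2
        have h8 : C1 * (6 * k0 + 30) ≤ C1 * (18 * Real.logb 2 n + 36) := by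
          apply mul_le_mul_of_nonneg_left _ h1
          linarith
        have h9 : 0 ≤ C1 * Real.logb 2 n := by positivity
        have h10 : 0 ≤ C2 * C3 * Real.logb 2 n := by positivity
        nlinarith

theorem sum_lemma_two_b (C1 C3 : ℝ) (h1 : 0 ≤ C1) (h3 : 0 ≤ C3) :
    ∃ C : ℝ, 0 ≤ C ∧ ∀ (n : ℕ), 1 ≤ n → ∀ ρ σ : ℝ, 0 < σ → σ ≤ ρ →
    ∀ B : Set (ℝ × ℝ), volume B ≤ ENNReal.ofReal (4 * σ ^ 2) →
    ∀ S : ℕ → Set (ℝ × ℝ), (∀ k, MeasurableSet (S k)) →
    (∀ k, volume (B ∩ S k) ≤ ENNReal.ofReal (C3 * n ^ 2 * ρ ^ 2 / 2 ^ k)) →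
    ∫⁻ c in B, ∑' k, (S k).indicator (fun _ => ENNReal.ofReal (C1 * n ^ 2)) c ≤
      ENNReal.ofReal (C * n ^ 2 * ρ ^ 2 * (1 + Real.logb 2 n)) := by
  refine ⟨8 * C1 + 2 * C1 * C3, by positivity, ?_⟩
  intro n hn ρ σ hσ hσρ B hB S hSm hSv
  have hn1 : (1 : ℝ) ≤ n := by exact_mod_cast hn
  have hlog : 0 ≤ Real.logb 2 n := Real.logb_nonneg (by norm_num) hn1
  obtain ⟨k0, hk1, hk2⟩ := slb_log hn 2
  have hρ : 0 < ρ := by linarith
  have h5 : ∀ k, ∫⁻ c in B, (S k).indicator (fun _ => ENNReal.ofReal (C1 * n ^ 2)) c =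
      ENNReal.ofReal (C1 * n ^ 2) * volume (B ∩ S k) := by
    intro k
    rw [lintegral_indicator (hSm _), lintegral_const, Measure.restrict_apply
      MeasurableSet.univ, Set.univ_inter, Measure.restrict_apply (hSm _), Set.inter_comm]
  rw [lintegral_tsum fun k => (measurable_const.indicator (hSm _)).aemeasurable]
  simp only [h5]
  rw [ENNReal.tsum_mul_left, ← Summable.sum_add_tsum_nat_add' (k := k0) ENNReal.summable]
  have h6 : ∑ k ∈ Finset.range k0, volume (B ∩ S k) ≤ ENNReal.ofReal (k0 * (4 * σ ^ 2)) := by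
    calc ∑ k ∈ Finset.range k0, volume (B ∩ S k) ≤ ∑ k ∈ Finset.range k0,
          ENNReal.ofReal (4 * σ ^ 2) :=
          Finset.sum_le_sum fun k _ => (measure_mono Set.inter_subset_left).trans hB
      _ = ENNReal.ofReal (k0 * (4 * σ ^ 2)) := by
          rw [Finset.sum_const, Finset.card_range, nsmul_eq_mul, ← ENNReal.ofReal_natCast,
            ← ENNReal.ofReal_mul (by positivity)]
  have h7 : ∑' k, volume (B ∩ S (k + k0)) ≤ ENNReal.ofReal (2 * (C3 * n ^ 2 * ρ ^ 2) / 2 ^ k0) :=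
    slb_tail (V := fun k => volume (B ∩ S k)) (by positivity) hSv _
  calc ENNReal.ofReal (C1 * n ^ 2) * (∑ k ∈ Finset.range k0, volume (B ∩ S k) +
        ∑' k, volume (B ∩ S (k + k0)))
      ≤ ENNReal.ofReal (C1 * n ^ 2) * (ENNReal.ofReal (k0 * (4 * σ ^ 2)) +
        ENNReal.ofReal (2 * (C3 * n ^ 2 * ρ ^ 2) / 2 ^ k0)) := by gcongr
    _ = ENNReal.ofReal (C1 * n ^ 2 * (k0 * (4 * σ ^ 2) + 2 * (C3 * n ^ 2 * ρ ^ 2) / 2 ^ k0)) := by
        rw [← ENNReal.ofReal_add (by positivity) (by positivity),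
          ← ENNReal.ofReal_mul (by positivity)]
    _ ≤ ENNReal.ofReal ((8 * C1 + 2 * C1 * C3) * n ^ 2 * ρ ^ 2 * (1 + Real.logb 2 n)) := by
        apply ENNReal.ofReal_le_ofReal
        have h8 : 2 * (C3 * (n : ℝ) ^ 2 * ρ ^ 2) / 2 ^ k0 ≤ 2 * C3 * ρ ^ 2 := by
          rw [div_le_iff₀ (by positivity)]
          have : 0 ≤ 2 * C3 * ρ ^ 2 := by positivity
          nlinarith
        have h9 : σ ^ 2 ≤ ρ ^ 2 := by gcongr
        push_cast at hk2
        have h10 : k0 * (4 * σ ^ 2) ≤ (2 * Real.logb 2 n + 1) * (4 * ρ ^ 2) := by gcongr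
        have h11 : C1 * (n : ℝ) ^ 2 * (k0 * (4 * σ ^ 2) + 2 * (C3 * n ^ 2 * ρ ^ 2) / 2 ^ k0) ≤
            C1 * n ^ 2 * ((2 * Real.logb 2 n + 1) * (4 * ρ ^ 2) + 2 * C3 * ρ ^ 2) := by
          gcongr
        refine h11.trans ?_
        have h12 : 0 ≤ C1 * (n : ℝ) ^ 2 * ρ ^ 2 := by positivity
        have h13 : 0 ≤ C1 * (n : ℝ) ^ 2 * ρ ^ 2 * Real.logb 2 n := by positivity
        have h14 : 0 ≤ C1 * C3 * (n : ℝ) ^ 2 * ρ ^ 2 * Real.logb 2 n := by positivity
        nlinarith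

end Pool.Agent.Lib.MP_95e7ec_an
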