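import Mathlib
import Pool.Agent.Lib.MP_95e7ec_an.ClassAvg
import Pool.Agent.Lib.MP_95e7ec_an.Crossing
import Pool.Agent.Lib.MP_95e7ec_an.SetSum
import Pool.Agent.Lib.MP_95e7ec_an.WeightArr
import Pool.Agent.Lib.MP_95e7ec_an.Cells
import Pool.Agent.Lib.MP_95e7ec_an.CellBound
import Pool.Agent.Lib.MP_95e7ec_an.HullScale
import Pool.Agent.Lib.MP_95e7ec_an.BadSets
import Pool.Agent.Lib.MP_95e7ec_an.SumLemma
import Pool.Agent.Lib.MP_95e7ec_an.SumLemmaB
import Pool.Agent.Lib.MP_95e7ec_an.CountTwo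

/-!
# The mean number of closed orbits in the whole plane: assembly
-/

set_option autoImplicit false

open Set Filter Topology MeasureTheory
open scoped ContDiff ENNReal

namespace Pool.Agent.Lib.MP_95e7ec_an

/-- the cardinality as a sum of indicators -/
theorem encard_eq_tsum {β : Type*} (S : Set β) :
    ((S.encard : ℕ∞) : ℝ≥0∞) = ∑' x, S.indicator (fun _ => (1 : ℝ≥0∞)) x := by
  rw [← ENNReal.tsum_set_one]
  exact tsum_subtype S (fun _ => (1 : ℝ≥0∞))

theorem setSum_eq_tsum (f : Set (ℝ × ℝ) → ℝ≥0∞) (v : ℝ × ℝ → ℝ × ℝ) (Ω : Set (ℝ × ℝ)) (α : ℝ) :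
    setSum f v Ω α = ∑' C : Set (ℝ × ℝ), Set.indicator {C | IsClosedOrbit (turn α v) C ∧ C ⊆ Ω}
      f C := by
  rw [setSum]
  exact tsum_subtype {C : Set (ℝ × ℝ) | IsClosedOrbit (turn α v) C ∧ C ⊆ Ω} f

theorem nm_nonneg' (z : ℝ × ℝ) : 0 ≤ nm z := Real.sqrt_nonneg _

theorem mem_disc_zero {z : ℝ × ℝ} {r : ℝ} (hr : 0 < r) : z ∈ disc 0 r ↔ nm z < r := by
  have h1 := nm_sq z
  have h0 := nm_nonneg' z
  simp only [disc, Set.mem_ofPred_eq, Prod.fst_zero, Prod.snd_zero, sub_zero]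
  rw [← h1]
  exact ⟨fun h => lt_of_pow_lt_pow_left₀ 2 hr.le h, fun h => pow_lt_pow_left₀ h h0 two_ne_zero⟩

theorem ellk_tsc {n : ℕ} (hn : 1 ≤ n) (k j : ℕ) :
    ellk (2 ^ k / (16 * n)) 1 j = 2 ^ k * tsc n j := by
  have hn0 : (n : ℝ) ≠ 0 := by positivity
  unfold ellk tsc
  field_simp

theorem ellk_cell {n : ℕ} (hn : 1 ≤ n) {ρ : ℝ} (hρ : 0 < ρ) (k j : ℕ) (i : ℤ × ℤ) :
    ellk (cellM1 n ρ k i) (cellM2 n ρ k i) j = 2 ^ k * tsc n j := by
  have hn0 : (n : ℝ) ≠ 0 := by positivity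
  have hs : sq1 (cellC n k i) ≠ 0 := (sq1_pos _).ne'
  have h4 : (4 : ℝ) ^ k = 2 ^ k * 2 ^ k := by
    rw [← mul_pow]
    norm_num
  unfold ellk tsc cellM1 cellM2
  rw [h4]
  field_simp
  ring

theorem tsc_pos {n : ℕ} (hn : 1 ≤ n) (j : ℕ) : 0 < tsc n j := by
  have := lamk_pos j
  unfold tsc
  positivity

theorem tsc_le {n : ℕ} (hn : 1 ≤ n) (j : ℕ) : tsc n j ≤ 1 / (16 * n) := by
  have h1 := lamk_pos j
  have h2 := lamk_le_one j
  have h3 : lamk j ^ 3 ≤ 1 := pow_le_one₀ h1.le h2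
  unfold tsc
  gcongr

/-- the closed orbits of the annulus are in the cells -/
theorem annSet_le {n : ℕ} (hn : 1 ≤ n) {ρ : ℝ} (hρ : 0 < ρ) {v : ℝ × ℝ → ℝ × ℝ} (k j : ℕ) (α : ℝ)
    (hv : Continuous (turn α v)) :
    ((annSet (turn α v) k (ENNReal.ofReal (2 ^ k * tsc n (j + 1)))
        (ENNReal.ofReal (2 ^ k * tsc n j))).encard : ℝ≥0∞) ≤
      ∑ i ∈ cells n k, orbitSum (midW (cellM1 n ρ k i) (cellM2 n ρ k i) j) v
        (disc (cellC n k i) (cellR n k)) α := by
  rw [encard_eq_tsum]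
  simp only [ca_orbitSum_eq]
  rw [← Summable.tsum_finsetSum (fun i _ => ENNReal.summable)]
  refine ENNReal.tsum_le_tsum fun C => ?_
  by_cases hC : C ∈ annSet (turn α v) k (ENNReal.ofReal (2 ^ k * tsc n (j + 1)))
        (ENNReal.ofReal (2 ^ k * tsc n j))
  · rw [Set.indicator_of_mem hC]
    obtain ⟨h1, h2, h3, h4, h5⟩ := hC
    have hd : ∀ z ∈ C, ∀ w ∈ C, nm (z - w) ≤ 2 ^ k / (32 * n) := by
      intro z hz w hw
      have h6 := (two_nm_le_orbitLength hv hz hw).trans h5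
      have hpos : 0 ≤ 2 ^ k * tsc n j := by
        have := tsc_pos hn j
        positivity
      rw [ENNReal.ofReal_le_ofReal_iff hpos] at h6
      have h7 : 2 ^ k * tsc n j ≤ 2 ^ k * (1 / (16 * n)) := by
        gcongr
        exact tsc_le hn j
      have h8 : (2 : ℝ) ^ k / (32 * n) = 2 ^ k * (1 / (16 * n)) / 2 := by
        field_simp
        norm_num
      rw [h8]
      linarith
    obtain ⟨i, hi, hCi⟩ := exists_cell hn k h1.nonempty hd h2 h3
    refine le_trans ?_ (Finset.single_le_sum (f := fun i => Set.indicator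
      {C | IsClosedOrbit (turn α v) C ∧ C ⊆ disc (cellC n k i) (cellR n k)}
      (fun C => midW (cellM1 n ρ k i) (cellM2 n ρ k i) j (orbitLength (turn α v) C)) C)
      (fun _ _ => zero_le) hi)
    rw [Set.indicator_of_mem (show C ∈ {C | IsClosedOrbit (turn α v) C ∧
      C ⊆ disc (cellC n k i) (cellR n k)} from ⟨h1, hCi⟩)]
    unfold midW
    rw [ellk_cell hn hρ, ellk_cell hn hρ, if_pos ⟨h4, h5⟩]
  · rw [Set.indicator_of_notMem hC]
    exact zero_le

/-- the classification of all the closed orbits -/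
theorem plane_class {n : ℕ} (hn : 1 ≤ n) {v : ℝ × ℝ → ℝ × ℝ} (κ : ℕ) (α : ℝ)
    (hv : Continuous (turn α v))
    (hκ : ∀ C, IsClosedOrbit (turn α v) C → ¬ C ⊆ {z | (2 : ℝ) ^ κ < nm z}) :
    orbitSum (fun _ => 1) v Set.univ α ≤ setSum (crossInd (2 ^ κ)) v Set.univ α +
      ∑' k : ℕ, (if k ≤ κ + 1 then
        ((lenSet (turn α v) (disc 0 (2 ^ k)) (ENNReal.ofReal (2 ^ k * tsc n 0)) ⊤).encard : ℝ≥0∞) +
        ∑' j : ℕ, ((annSet (turn α v) k (ENNReal.ofReal (2 ^ k * tsc n (j + 1)))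
          (ENNReal.ofReal (2 ^ k * tsc n j))).encard : ℝ≥0∞) else 0) := by
  classical
  have hswap : ∀ k : ℕ, (if k ≤ κ + 1 then
        ((lenSet (turn α v) (disc 0 (2 ^ k)) (ENNReal.ofReal (2 ^ k * tsc n 0)) ⊤).encard : ℝ≥0∞) +
        ∑' j : ℕ, ((annSet (turn α v) k (ENNReal.ofReal (2 ^ k * tsc n (j + 1)))
          (ENNReal.ofReal (2 ^ k * tsc n j))).encard : ℝ≥0∞) else 0) =
      ∑' C : Set (ℝ × ℝ), (if k ≤ κ + 1 then
        (lenSet (turn α v) (disc 0 (2 ^ k)) (ENNReal.ofReal (2 ^ k * tsc n 0)) ⊤).indicator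
          (fun _ => (1 : ℝ≥0∞)) C +
        ∑' j : ℕ, (annSet (turn α v) k (ENNReal.ofReal (2 ^ k * tsc n (j + 1)))
          (ENNReal.ofReal (2 ^ k * tsc n j))).indicator (fun _ => (1 : ℝ≥0∞)) C else 0) := by
    intro k
    split_ifs with h
    · rw [ENNReal.tsum_add, ENNReal.tsum_comm, encard_eq_tsum]
      congr 1
      exact tsum_congr fun j => encard_eq_tsum _
    · simp
  simp only [hswap]
  rw [ENNReal.tsum_comm, ca_orbitSum_eq, setSum_eq_tsum, ← ENNReal.tsum_add]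
  refine ENNReal.tsum_le_tsum fun C => ?_
  by_cases hC : IsClosedOrbit (turn α v) C ∧ C ⊆ Set.univ
  · have hmem : C ∈ {C | IsClosedOrbit (turn α v) C ∧ C ⊆ Set.univ} := hC
    rw [Set.indicator_of_mem hmem, Set.indicator_of_mem hmem]
    have h1 : ∃ z ∈ C, nm z ≤ 2 ^ κ := by
      have := hκ C hC.1
      rw [Set.not_subset] at this
      obtain ⟨z, hz, hz'⟩ := this
      exact ⟨z, hz, not_lt.1 hz'⟩
    by_cases h2 : ∃ z ∈ C, 2 * (2 : ℝ) ^ κ ≤ nm z
    · refine le_trans ?_ (le_add_right le_rfl)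
      unfold crossInd
      rw [if_pos ⟨h1, h2⟩]
    · push Not at h2
      have h3 : C ⊆ disc 0 (2 ^ (κ + 1)) := by
        intro z hz
        rw [mem_disc_zero (by positivity), pow_succ, mul_comm]
        exact h2 z hz
      have hex : ∃ k : ℕ, C ⊆ disc 0 (2 ^ k) := ⟨κ + 1, h3⟩
      set k := Nat.find hex with hk
      have hk1 : C ⊆ disc 0 (2 ^ k) := Nat.find_spec hex
      have hk2 : k ≤ κ + 1 := Nat.find_min' hex h3
      have hk3 : k = 0 ∨ ∃ z ∈ C, (2 : ℝ) ^ k / 2 ≤ nm z := by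
        rcases Nat.eq_zero_or_pos k with h | h
        · exact Or.inl h
        · right
          have h4 := Nat.find_min hex (m := k - 1) (by omega)
          rw [Set.not_subset] at h4
          obtain ⟨z, hz, hz'⟩ := h4
          refine ⟨z, hz, ?_⟩
          rw [mem_disc_zero (by positivity), not_lt] at hz'
          have h5 : (2 : ℝ) ^ k = 2 ^ (k - 1) * 2 := by
            rw [← pow_succ]
            congr 1
            omega
          rw [h5]
          linarith
      refine le_trans ?_ (le_add_left (ENNReal.le_tsum k))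
      rw [if_pos hk2]
      have hpos := ca_orbitLength_pos hv hC.1
      by_cases hbig : ENNReal.ofReal (2 ^ k * tsc n 0) ≤ orbitLength (turn α v) C
      · refine le_trans ?_ (le_add_right le_rfl)
        rw [Set.indicator_of_mem (show C ∈ lenSet (turn α v) (disc 0 (2 ^ k))
          (ENNReal.ofReal (2 ^ k * tsc n 0)) ⊤ from ⟨⟨hC.1, hk1⟩, hbig, le_top⟩)]
      · push Not at hbig
        have hn1 : (0 : ℝ) < n := by exact_mod_cast hn
        obtain ⟨j, hj1, hj2⟩ := exists_scale (M₁ := 2 ^ k / (16 * n)) (M₂ := 1) (by positivity)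
          zero_lt_one hpos (by rw [ellk_tsc hn]; exact hbig.le)
        rw [ellk_tsc hn] at hj1 hj2
        refine le_trans ?_ (le_add_left (ENNReal.le_tsum j))
        rw [Set.indicator_of_mem (show C ∈ annSet (turn α v) k
          (ENNReal.ofReal (2 ^ k * tsc n (j + 1))) (ENNReal.ofReal (2 ^ k * tsc n j)) from
          ⟨hC.1, hk1, hk3, hj1, hj2⟩)]
  · rw [Set.indicator_of_notMem (show C ∉ {C | IsClosedOrbit (turn α v) C ∧ C ⊆ Set.univ} from hC)]
    exact zero_le

/-- the mean over the angle for one field, when there are no closed orbits near infinity -/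
theorem plane_one {n : ℕ} (hn : 1 ≤ n) {ρ : ℝ} (hρ : 0 < ρ) (P Q : MvPolynomial (Fin 2) ℝ)
    (hP : P.totalDegree ≤ n) (hQ : Q.totalDegree ≤ n) (κ : ℕ)
    (hκ : ∀ α C, IsClosedOrbit (turn α (vf P Q)) C → ¬ C ⊆ {z | (2 : ℝ) ^ κ < nm z})
    {b : ℕ → ℕ → ℝ≥0∞}
    (hb : ∀ k j, ∑ i ∈ cells n k, ∫⁻ α in Set.Ioo 0 Real.pi,
      orbitSum (midW (cellM1 n ρ k i) (cellM2 n ρ k i) j) (vf P Q)
        (disc (cellC n k i) (cellR n k)) α ≤ b k j) :
    ∫⁻ α in Set.Ioo 0 Real.pi, orbitSum (fun _ => 1) (vf P Q) Set.univ α ≤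
      ENNReal.ofReal (600 * n) +
      (∑' k : ℕ, (if k ≤ κ + 1 then ENNReal.ofReal (202 * n ^ 2) else 0)) +
      ∑' j : ℕ, min (ENNReal.ofReal (114 * n ^ 3)) (∑' k : ℕ, if k ≤ κ + 1 then b k j else 0) := by
  classical
  have hpi := Real.pi_lt_d4
  have hpi0 := Real.pi_pos
  have hn1 : (1 : ℝ) ≤ n := by exact_mod_cast hn
  have hvf := vf_eq_vfc hP hQ
  have hcont : ∀ α, Continuous (turn α (vf P Q)) := fun α =>
    (contDiff_turn (contDiff_vf P Q (k := 0)) α).continuous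
  choose a ha1 ha2 ha3 using fun j => hull_scale hn P Q hP hQ j
  set L : ℕ → ℝ → ℝ≥0∞ := fun k α => ((lenSet (turn α (vf P Q)) (disc 0 (2 ^ k))
    (ENNReal.ofReal (2 ^ k * tsc n 0)) ⊤).encard : ℝ≥0∞) with hL
  set M : ℕ → ℕ → ℝ → ℝ≥0∞ := fun k j α => ∑ i ∈ cells n k,
    orbitSum (midW (cellM1 n ρ k i) (cellM2 n ρ k i) j) (vf P Q)
      (disc (cellC n k i) (cellR n k)) α with hM
  have hLm : ∀ k, AEMeasurable (L k) (volume.restrict (Set.Ioo 0 Real.pi)) := by
    intro k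
    simp only [hL, hvf]
    exact lenSet_aemeasurable _ (isOpen_disc _ _) _ _
  have hMm0 : ∀ k j, ∀ i ∈ cells n k, AEMeasurable (fun α =>
      orbitSum (midW (cellM1 n ρ k i) (cellM2 n ρ k i) j) (vf P Q)
        (disc (cellC n k i) (cellR n k)) α) (volume.restrict (Set.Ioo 0 Real.pi)) := by
    intro k j i _
    rw [hvf]
    exact orbitSum_aemeasurable _ (isOpen_disc _ _) (measurable_midW _ _ _)
  have hMm : ∀ k j, AEMeasurable (M k j) (volume.restrict (Set.Ioo 0 Real.pi)) := by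
    intro k j
    exact Finset.aemeasurable_fun_sum _ (hMm0 k j)
  have hMi : ∀ k j, ∫⁻ α in Set.Ioo 0 Real.pi, M k j α ≤ b k j := by
    intro k j
    simp only [hM]
    rw [lintegral_finsetSum' _ (hMm0 k j)]
    exact hb k j
  have hLi : ∀ k, ∫⁻ α in Set.Ioo 0 Real.pi, L k α ≤ ENNReal.ofReal (202 * n ^ 2) := by
    intro k
    have h1 : (0 : ℝ) < 2 ^ k * tsc n 0 := by
      have := tsc_pos hn 0
      positivity
    simp only [hL, hvf]
    refine (local_count _ 0 (by positivity) h1 ⊤).trans ?_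
    apply ENNReal.ofReal_le_ofReal
    rw [div_le_iff₀ h1]
    have h2 : tsc n 0 = 1 / (16 * n) := by
      simp [tsc, lamk]
    rw [h2]
    have h3 : 202 * (n : ℝ) ^ 2 * (2 ^ k * (1 / (16 * n))) = 202 / 16 * (n * 2 ^ k) := by
      field_simp
    rw [h3]
    have h4 : (0 : ℝ) < n * 2 ^ k := by positivity
    nlinarith
  -- the majorant
  set G : ℝ → ℝ≥0∞ := fun α => ∑' k : ℕ, (if k ≤ κ + 1 then
    L k α + ∑' j : ℕ, min (a j k α) (M k j α) else 0) with hG
  have hkm : ∀ k : ℕ, AEMeasurable (fun α => if k ≤ κ + 1 then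
      L k α + ∑' j : ℕ, min (a j k α) (M k j α) else 0) (volume.restrict (Set.Ioo 0 Real.pi)) := by
    intro k
    split_ifs with h
    · exact (hLm k).add (AEMeasurable.tsum fun j => (ha1 j k).min (hMm k j))
    · exact aemeasurable_const
  have hGm : AEMeasurable G (volume.restrict (Set.Ioo 0 Real.pi)) := AEMeasurable.tsum hkm
  have hpt : ∀ α, orbitSum (fun _ => 1) (vf P Q) Set.univ α ≤
      setSum (crossInd (2 ^ κ)) (vf P Q) Set.univ α + G α := by
    intro α
    refine (plane_class hn κ α (hcont α) (hκ α)).trans ?_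
    refine add_le_add le_rfl (ENNReal.tsum_le_tsum fun k => ?_)
    split_ifs with h
    · refine add_le_add le_rfl (ENNReal.tsum_le_tsum fun j => ?_)
      exact le_min (ha2 j k α) (annSet_le hn hρ k j α (hcont α))
    · exact le_rfl
  refine (lintegral_mono hpt).trans ?_
  rw [lintegral_add_right' _ hGm, add_assoc]
  refine add_le_add ?_ ?_
  · rw [hvf]
    exact crossing_count hn _ (by positivity)
  · have hGi : ∫⁻ α in Set.Ioo 0 Real.pi, G α = ∑' k : ℕ, (if k ≤ κ + 1 then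
        (∫⁻ α in Set.Ioo 0 Real.pi, L k α) +
          ∑' j : ℕ, ∫⁻ α in Set.Ioo 0 Real.pi, min (a j k α) (M k j α) else 0) := by
      simp only [hG]
      rw [lintegral_tsum hkm]
      refine tsum_congr fun k => ?_
      split_ifs with h
      · rw [lintegral_add_left' (hLm k), lintegral_tsum fun j => (ha1 j k).min (hMm k j)]
      · simp
    rw [hGi]
    have hsplit : ∑' k : ℕ, (if k ≤ κ + 1 then (∫⁻ α in Set.Ioo 0 Real.pi, L k α) +
          ∑' j : ℕ, ∫⁻ α in Set.Ioo 0 Real.pi, min (a j k α) (M k j α) else 0) =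
        (∑' k : ℕ, if k ≤ κ + 1 then (∫⁻ α in Set.Ioo 0 Real.pi, L k α) else 0) +
        ∑' j : ℕ, ∑' k : ℕ, if k ≤ κ + 1 then
          ∫⁻ α in Set.Ioo 0 Real.pi, min (a j k α) (M k j α) else 0 := by
      rw [ENNReal.tsum_comm (f := fun j k => if k ≤ κ + 1 then
          ∫⁻ α in Set.Ioo 0 Real.pi, min (a j k α) (M k j α) else 0), ← ENNReal.tsum_add]
      refine tsum_congr fun k => ?_
      split_ifs with h
      · rfl
      · simp
    rw [hsplit]
    refine add_le_add (ENNReal.tsum_le_tsum fun k => ?_) (ENNReal.tsum_le_tsum fun j => ?_)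
    · split_ifs with h
      · exact hLi k
      · exact le_rfl
    · refine le_min ?_ (ENNReal.tsum_le_tsum fun k => ?_)
      · refine le_trans (ENNReal.tsum_le_tsum fun k => ?_) (ha3 j)
        split_ifs with h
        · exact lintegral_mono fun α => min_le_left _ _
        · exact zero_le
      · split_ifs with h
        · exact (lintegral_mono fun α => min_le_right _ _).trans (hMi k j)
        · exact le_rfl

theorem disc_convex (z0 : ℝ × ℝ) (R : ℝ) : Convex ℝ (disc z0 R) := convex_disc z0 R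

/-- the majorants for the cells -/
theorem cell_majorant {m : ℕ} (hm : 1 ≤ m) (P Q : MvPolynomial (Fin 2) ℝ)
    (hP : P.totalDegree ≤ 2 * m) (hQ : Q.totalDegree ≤ 2 * m) {ρ : ℝ} (hρ : 0 < ρ)
    (hb : ∀ z : ℝ × ℝ, nm (vf P Q z) ≤ ρ * sq1 z ^ (2 * m)) (k j : ℕ) :
    ∃ h : ℝ × ℝ → ℝ≥0∞, Measurable h ∧
      (∀ c : ℝ × ℝ, nm c ≤ ρ → ∑ i ∈ cells (2 * m) k, ∫⁻ α in Set.Ioo 0 Real.pi,
        orbitSum (midW (cellM1 (2 * m : ℕ) ρ k i) (cellM2 (2 * m : ℕ) ρ k i) j)
          (vf (P + MvPolynomial.C c.1 * wPoly m) (Q + MvPolynomial.C c.2 * wPoly m))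
          (disc (cellC (2 * m : ℕ) k i) (cellR (2 * m : ℕ) k)) α ≤ h c) ∧
      ∫⁻ c, h c ≤ ENNReal.ofReal (1000000000 * (2 * m : ℕ) ^ 2 * ρ ^ 2 * (5 / 6) ^ j) := by
  classical
  set n : ℕ := 2 * m with hn
  have hn1 : 1 ≤ n := by omega
  have hnR : (0 : ℝ) < n := by exact_mod_cast (by omega : 0 < n)
  have hcell : ∀ i : ℤ × ℤ, ∃ H : ℝ × ℝ → ℝ≥0∞, Measurable H ∧ (i ∈ cells n k →
      (∀ c : ℝ × ℝ, nm c ≤ ρ → ∫⁻ α in Set.Ioo 0 Real.pi,
        orbitSum (midW (cellM1 n ρ k i) (cellM2 n ρ k i) j)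
          (vf (P + MvPolynomial.C c.1 * wPoly m) (Q + MvPolynomial.C c.2 * wPoly m))
          (disc (cellC n k i) (cellR n k)) α ≤ H c) ∧
      ∫⁻ c, H c ≤ ENNReal.ofReal (888000 * ρ ^ 2 * (5 / 6) ^ j)) := by
    intro i
    by_cases hi : i ∈ cells n k
    · obtain ⟨hD, hw⟩ := cell_bound hm P Q hP hQ hρ hb k hi
      have hs := sq1_pos (cellC n k i)
      have hM1 : 0 < cellM1 n ρ k i := by
        unfold cellM1
        positivity
      have hM2 : 0 < cellM2 n ρ k i := by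
        unfold cellM2
        positivity
      have hR : 0 < cellR n k := by
        unfold cellR
        positivity
      have hpos : ∀ z : ℝ × ℝ, 0 < pe (arr n (wPoly m)) z.1 z.2 := by
        intro z
        rw [hn, pe_wPoly]
        have := sq1_pos z
        positivity
      obtain ⟨H, hH1, hH2, hH3⟩ := class_avg_w (arr n P, arr n Q) (arr n (wPoly m)) hD
        (disc_convex _ _) (isOpen_disc _ _) hM1 hM2 hpos
        (w0 := sq1 (cellC n k i) ^ n / 2) (by positivity) hw j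
      refine ⟨H, hH1, fun _ => ⟨fun c hc => ?_, hH3.trans ?_⟩⟩
      · have := hH2 c hc
        rwa [vfc_sw_arr hP hQ c] at this
      · calc volume (disc (cellC n k i) (cellR n k)) * ENNReal.ofReal (1541 * cellM1 n ρ k i ^ 2 *
              (5 / 6) ^ j / (sq1 (cellC n k i) ^ n / 2) ^ 2)
            ≤ ENNReal.ofReal (4 * cellR n k ^ 2) * ENNReal.ofReal (1541 * cellM1 n ρ k i ^ 2 *
              (5 / 6) ^ j / (sq1 (cellC n k i) ^ n / 2) ^ 2) := by
              gcongr
              exact volume_disc_le _ hR.le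
          _ = ENNReal.ofReal (4 * cellR n k ^ 2 * (1541 * cellM1 n ρ k i ^ 2 *
              (5 / 6) ^ j / (sq1 (cellC n k i) ^ n / 2) ^ 2)) :=
              (ENNReal.ofReal_mul (by positivity)).symm
          _ ≤ ENNReal.ofReal (888000 * ρ ^ 2 * (5 / 6) ^ j) := by
              apply ENNReal.ofReal_le_ofReal
              have e : 4 * cellR n k ^ 2 * (1541 * cellM1 n ρ k i ^ 2 *
                (5 / 6) ^ j / (sq1 (cellC n k i) ^ n / 2) ^ 2) =
                887616 * (ρ ^ 2 * (5 / 6) ^ j) := by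
                unfold cellR cellM1
                field_simp
                norm_num
              rw [e]
              have : 0 ≤ ρ ^ 2 * (5 / 6 : ℝ) ^ j := by positivity
              nlinarith
    · exact ⟨0, measurable_zero, fun h => absurd h hi⟩
  choose H hH1 hH2 using hcell
  refine ⟨fun c => ∑ i ∈ cells n k, H i c, Finset.measurable_fun_sum _ fun i _ => hH1 i, ?_, ?_⟩
  · intro c hc
    exact Finset.sum_le_sum fun i hi => (hH2 i hi).1 c hc
  · rw [lintegral_finsetSum _ fun i _ => hH1 i]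
    calc ∑ i ∈ cells n k, ∫⁻ c, H i c
        ≤ ∑ i ∈ cells n k, ENNReal.ofReal (888000 * ρ ^ 2 * (5 / 6) ^ j) :=
          Finset.sum_le_sum fun i hi => (hH2 i hi).2
      _ = ENNReal.ofReal ((cells n k).card * (888000 * ρ ^ 2 * (5 / 6) ^ j)) := by
          rw [Finset.sum_const, nsmul_eq_mul, ← ENNReal.ofReal_natCast,
            ← ENNReal.ofReal_mul (by positivity)]
      _ ≤ _ := by
          apply ENNReal.ofReal_le_ofReal
          have h1 := card_cells hn1 k
          calc ((cells n k).card : ℝ) * (888000 * ρ ^ 2 * (5 / 6) ^ j)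
              ≤ 1089 * n ^ 2 * (888000 * ρ ^ 2 * (5 / 6) ^ j) := by gcongr
            _ = 967032000 * (n ^ 2 * ρ ^ 2 * (5 / 6) ^ j) := by ring
            _ ≤ 1000000000 * n ^ 2 * ρ ^ 2 * (5 / 6) ^ j := by
                have : 0 ≤ (n : ℝ) ^ 2 * ρ ^ 2 * (5 / 6 : ℝ) ^ j := by positivity
                nlinarith

theorem plane_main : ∃ C : ℝ, ∀ m : ℕ, 1 ≤ m → ∀ P Q : MvPolynomial (Fin 2) ℝ,
    P.totalDegree ≤ 2 * m → Q.totalDegree ≤ 2 * m → ∀ ρ : ℝ, 0 < ρ →
    (∀ z : ℝ × ℝ, nm (vf P Q z) ≤ ρ * sq1 z ^ (2 * m)) →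
    ∃ H : ℝ × ℝ → ℝ≥0∞, Measurable H ∧
      (∀ c : ℝ × ℝ, nm c ≤ ρ → ∫⁻ α in Set.Ioo 0 Real.pi, orbitSum (fun _ => 1)
        (vf (P + MvPolynomial.C c.1 * wPoly m) (Q + MvPolynomial.C c.2 * wPoly m)) Set.univ α ≤
          H c) ∧
      ∀ σ : ℝ, 0 < σ → σ ≤ ρ →
        ∫⁻ c in {c : ℝ × ℝ | nm c ≤ σ}, H c ≤
          ENNReal.ofReal (C * m ^ 3 * σ ^ 2 * (1 + Real.logb 2 (ρ / σ))) ∧
        ∫⁻ c in {c : ℝ × ℝ | nm c ≤ σ}, H c ≤
          ENNReal.ofReal (C * m ^ 2 * ρ ^ 2 * (1 + Real.logb 2 m)) := by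
  classical
  obtain ⟨C0, hC0, hbad⟩ := bad_sets
  obtain ⟨Ca, hCa, hsum⟩ := sum_lemma 1000000000 114 (C0 + 2) (by norm_num) (by norm_num)
    (by positivity)
  obtain ⟨Cb, hCb, hsum2⟩ := sum_lemma_two 202 (C0 + 2) (by norm_num) (by positivity)
  obtain ⟨Cc, hCc, hsum3⟩ := sum_lemma_b 1000000000 114 (C0 + 2) (by norm_num) (by norm_num)
    (by positivity)
  obtain ⟨Cd, hCd, hsum4⟩ := sum_lemma_two_b 202 (C0 + 2) (by norm_num) (by positivity)
  refine ⟨4800 + 8 * Ca + 8 * Cb + 8 * Cc + 8 * Cd, ?_⟩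
  intro m hm P Q hP hQ ρ hρ hb
  obtain ⟨S, hSm, hSv, hS⟩ := hbad m hm P Q hP hQ ρ hρ hb
  set n : ℕ := 2 * m with hn
  have hn1 : 1 ≤ n := by omega
  have hm1 : (1 : ℝ) ≤ m := by exact_mod_cast hm
  have hnm : (n : ℝ) = 2 * m := by rw [hn]; push_cast; ring
  choose h hh1 hh2 hh3 using fun k j => cell_majorant hm P Q hP hQ hρ hb k j
  set S' : ℕ → Set (ℝ × ℝ) := fun k => if k < 2 then Set.univ else S (k - 2) with hS'
  have hS'm : ∀ k, MeasurableSet (S' k) := by
    intro k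
    simp only [hS']
    split_ifs
    · exact MeasurableSet.univ
    · exact hSm _
  have hm1' : Measurable fun c => ∑' k, (S' k).indicator (fun _ => ENNReal.ofReal (202 * n ^ 2)) c :=
    Measurable.tsum fun k => measurable_const.indicator (hS'm k)
  have hm2' : ∀ j, Measurable fun c => ∑' k, (S' k).indicator (h k j) c := fun j =>
    Measurable.tsum fun k => (hh1 k j).indicator (hS'm k)
  have hm3' : Measurable fun c => ∑' j, min (ENNReal.ofReal (114 * n ^ 3))
      (∑' k, (S' k).indicator (h k j) c) :=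
    Measurable.tsum fun j => measurable_const.min (hm2' j)
  refine ⟨fun c => ENNReal.ofReal (600 * n) +
    (∑' k, (S' k).indicator (fun _ => ENNReal.ofReal (202 * n ^ 2)) c) +
    ∑' j, min (ENNReal.ofReal (114 * n ^ 3)) (∑' k, (S' k).indicator (h k j) c), ?_, ?_, ?_⟩
  · exact (measurable_const.add hm1').add hm3'
  · intro c hc
    by_cases hex : ∃ k, c ∉ S k
    · set κ := Nat.find hex with hκ
      have h1 : c ∉ S κ := Nat.find_spec hex
      have h2 : ∀ k, k ≤ κ + 1 → c ∈ S' k := by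
        intro k hk
        simp only [hS']
        split_ifs with hk2
        · trivial
        · have := Nat.find_min hex (m := k - 2) (by omega)
          exact not_not.1 this
      refine (plane_one hn1 hρ _ _ (totalDegree_add_wPoly hP c.1) (totalDegree_add_wPoly hQ c.2) κ
        (fun α C hC => hS κ c hc h1 α C hC) (b := fun k j => h k j c)
        (fun k j => hh2 k j c hc)).trans ?_
      refine add_le_add (add_le_add le_rfl (ENNReal.tsum_le_tsum fun k => ?_))
        (ENNReal.tsum_le_tsum fun j => min_le_min le_rfl (ENNReal.tsum_le_tsum fun k => ?_))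
      · split_ifs with hk
        · rw [Set.indicator_of_mem (h2 k hk)]
        · exact zero_le
      · split_ifs with hk
        · rw [Set.indicator_of_mem (h2 k hk)]
        · exact zero_le
    · push Not at hex
      have h1 : ∀ k, (S' k).indicator (fun _ => ENNReal.ofReal (202 * n ^ 2)) c =
          ENNReal.ofReal (202 * n ^ 2) := by
        intro k
        apply Set.indicator_of_mem
        simp only [hS']
        split_ifs
        · trivial
        · exact hex _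
      have h2 : ∑' k, (S' k).indicator (fun _ => ENNReal.ofReal (202 * n ^ 2)) c = ⊤ := by
        simp only [h1]
        apply ENNReal.tsum_const_eq_top_of_ne_zero
        rw [Ne, ENNReal.ofReal_eq_zero, not_le]
        positivity
      have h3 : ENNReal.ofReal (600 * n) +
          (∑' k, (S' k).indicator (fun _ => ENNReal.ofReal (202 * n ^ 2)) c) +
          ∑' j, min (ENNReal.ofReal (114 * n ^ 3)) (∑' k, (S' k).indicator (h k j) c) = ⊤ := by
        rw [h2]
        simp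
      exact le_of_le_of_eq le_top h3.symm
  · intro σ hσ hσρ
    set B : Set (ℝ × ℝ) := {c : ℝ × ℝ | nm c ≤ σ} with hB
    have hBv : volume B ≤ ENNReal.ofReal (4 * σ ^ 2) := volume_nm_le hσ.le
    have hlog : 0 ≤ Real.logb 2 (ρ / σ) :=
      Real.logb_nonneg (by norm_num) ((one_le_div hσ).2 hσρ)
    have hBS : ∀ k, volume (B ∩ S' k) ≤ ENNReal.ofReal ((C0 + 2) * n ^ 2 * ρ ^ 2 / 2 ^ k) := by
      intro k
      by_cases hk : k < 2
      · refine (measure_mono Set.inter_subset_left).trans (hBv.trans ?_)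
        apply ENNReal.ofReal_le_ofReal
        rw [le_div_iff₀ (by positivity), hnm]
        have h1 : (2 : ℝ) ^ k ≤ 2 ^ 1 := pow_le_pow_right₀ (by norm_num) (by omega)
        have h2 : σ ^ 2 ≤ ρ ^ 2 := by gcongr
        calc 4 * σ ^ 2 * 2 ^ k ≤ 4 * ρ ^ 2 * 2 ^ 1 := by gcongr
          _ ≤ 2 * (2 * 1) ^ 2 * ρ ^ 2 := by linarith
          _ ≤ (C0 + 2) * (2 * m) ^ 2 * ρ ^ 2 := by
              gcongr
              linarith
      · have hSk : S' k = S (k - 2) := by
          simp only [hS']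
          rw [if_neg hk]
        rw [hSk]
        refine (measure_mono Set.inter_subset_right).trans ((hSv _).trans ?_)
        apply ENNReal.ofReal_le_ofReal
        have h2k : (2 : ℝ) ^ k = 2 ^ (k - 2) * 4 := by
          have h3 : k = (k - 2) + 2 := by omega
          conv_lhs => rw [h3]
          rw [pow_add]
          norm_num
        rw [h2k, hnm, div_le_div_iff₀ (by positivity) (by positivity)]
        have h4 : 0 ≤ (m : ℝ) ^ 2 * ρ ^ 2 * (2 ^ (k - 2)) := by positivity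
        nlinarith
    have T0 : ∫⁻ c in B, ENNReal.ofReal (600 * n) ≤ ENNReal.ofReal (4800 * m ^ 3 * σ ^ 2) := by
      rw [setLIntegral_const]
      calc ENNReal.ofReal (600 * n) * volume B
          ≤ ENNReal.ofReal (600 * n) * ENNReal.ofReal (4 * σ ^ 2) := by gcongr
        _ = ENNReal.ofReal (600 * n * (4 * σ ^ 2)) := (ENNReal.ofReal_mul (by positivity)).symm
        _ ≤ _ := by
          apply ENNReal.ofReal_le_ofReal
          rw [hnm]
          have h5 : (m : ℝ) ≤ m ^ 3 := by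
            have := pow_le_pow_right₀ hm1 (show 1 ≤ 3 by norm_num)
            simpa using this
          calc 600 * (2 * (m : ℝ)) * (4 * σ ^ 2) = 4800 * m * σ ^ 2 := by ring
            _ ≤ 4800 * m ^ 3 * σ ^ 2 := by gcongr
    have T0' : ∫⁻ c in B, ENNReal.ofReal (600 * n) ≤ ENNReal.ofReal (4800 * m ^ 2 * ρ ^ 2) := by
      rw [setLIntegral_const]
      calc ENNReal.ofReal (600 * n) * volume B
          ≤ ENNReal.ofReal (600 * n) * ENNReal.ofReal (4 * σ ^ 2) := by gcongr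
        _ = ENNReal.ofReal (600 * n * (4 * σ ^ 2)) := (ENNReal.ofReal_mul (by positivity)).symm
        _ ≤ _ := by
          apply ENNReal.ofReal_le_ofReal
          rw [hnm]
          have h5 : (m : ℝ) ≤ m ^ 2 := by nlinarith
          have h2 : σ ^ 2 ≤ ρ ^ 2 := by gcongr
          calc 600 * (2 * (m : ℝ)) * (4 * σ ^ 2) = 4800 * m * σ ^ 2 := by ring
            _ ≤ 4800 * m ^ 2 * ρ ^ 2 := by gcongr
    have hlogn : 0 ≤ Real.logb 2 (n : ℝ) :=
      Real.logb_nonneg (by norm_num) (by exact_mod_cast hn1)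
    have T1 := hsum2 n hn1 ρ σ hσ hσρ B hBv S' hS'm hBS
    have T2 := hsum n hn1 ρ σ hσ hσρ B hBv S' hS'm hBS h hh1 hh3
    have T1' := hsum4 n hn1 ρ σ hσ hσρ B hBv S' hS'm hBS
    have T2' := hsum3 n hn1 ρ hρ B S' hS'm hBS h hh1 hh3
    have hsplit : ∫⁻ c in B, (ENNReal.ofReal (600 * n) +
        (∑' k, (S' k).indicator (fun _ => ENNReal.ofReal (202 * n ^ 2)) c) +
        ∑' j, min (ENNReal.ofReal (114 * n ^ 3)) (∑' k, (S' k).indicator (h k j) c)) =
        (∫⁻ c in B, ENNReal.ofReal (600 * n)) +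
        (∫⁻ c in B, ∑' k, (S' k).indicator (fun _ => ENNReal.ofReal (202 * n ^ 2)) c) +
        ∫⁻ c in B, ∑' j, min (ENNReal.ofReal (114 * n ^ 3)) (∑' k, (S' k).indicator (h k j) c) := by
      rw [lintegral_add_right _ hm3', lintegral_add_right _ hm1']
    refine ⟨(le_of_eq hsplit).trans ((add_le_add (add_le_add T0 T1) T2).trans ?_),
      (le_of_eq hsplit).trans ((add_le_add (add_le_add T0' T1') T2').trans ?_)⟩
    · rw [← ENNReal.ofReal_add (by positivity) (by positivity),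
        ← ENNReal.ofReal_add (by positivity) (by positivity)]
      apply ENNReal.ofReal_le_ofReal
      rw [hnm]
      have h6 : 0 ≤ (m : ℝ) ^ 3 * σ ^ 2 * Real.logb 2 (ρ / σ) := by positivity
      have h7 : 0 ≤ (m : ℝ) ^ 3 * σ ^ 2 := by positivity
      calc 4800 * (m : ℝ) ^ 3 * σ ^ 2 + Cb * (2 * m) ^ 3 * σ ^ 2 * (1 + Real.logb 2 (ρ / σ)) +
            Ca * (2 * m) ^ 3 * σ ^ 2 * (1 + Real.logb 2 (ρ / σ)) =
            4800 * (m ^ 3 * σ ^ 2) + (8 * Ca + 8 * Cb) * ((m ^ 3 * σ ^ 2) *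
              (1 + Real.logb 2 (ρ / σ))) := by ring
        _ ≤ (4800 + 8 * Cc + 8 * Cd) * ((m ^ 3 * σ ^ 2) * (1 + Real.logb 2 (ρ / σ))) +
            (8 * Ca + 8 * Cb) * ((m ^ 3 * σ ^ 2) * (1 + Real.logb 2 (ρ / σ))) := by
            have h8 : 4800 * ((m : ℝ) ^ 3 * σ ^ 2) ≤ (4800 + 8 * Cc + 8 * Cd) *
                ((m ^ 3 * σ ^ 2) * (1 + Real.logb 2 (ρ / σ))) := by
              have h9 : (m : ℝ) ^ 3 * σ ^ 2 ≤ (m ^ 3 * σ ^ 2) * (1 + Real.logb 2 (ρ / σ)) :=
                le_mul_of_one_le_right h7 (by linarith)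
              have h10 : 0 ≤ 8 * Cc + 8 * Cd := by positivity
              exact mul_le_mul (by linarith) h9 h7 (by linarith)
            linarith
        _ = _ := by ring
    · rw [← ENNReal.ofReal_add (by positivity) (by positivity),
        ← ENNReal.ofReal_add (by positivity) (by positivity)]
      apply ENNReal.ofReal_le_ofReal
      rw [hnm]
      have hm0 : (0 : ℝ) < m := by linarith
      have hL : Real.logb 2 (2 * (m : ℝ)) = 1 + Real.logb 2 m := by
        rw [Real.logb_mul (by norm_num) hm0.ne', Real.logb_self_eq_one (by norm_num)]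
      have hL0 : 0 ≤ Real.logb 2 (m : ℝ) := Real.logb_nonneg (by norm_num) hm1
      rw [hL]
      set L : ℝ := Real.logb 2 (m : ℝ) with hLdef
      have h7 : 0 ≤ (m : ℝ) ^ 2 * ρ ^ 2 := by positivity
      have h11 : (m : ℝ) ^ 2 * ρ ^ 2 * (1 + (1 + L)) ≤ 2 * ((m : ℝ) ^ 2 * ρ ^ 2 * (1 + L)) := by
        nlinarith [mul_nonneg h7 hL0]
      have h9 : (m : ℝ) ^ 2 * ρ ^ 2 ≤ (m ^ 2 * ρ ^ 2) * (1 + L) :=
        le_mul_of_one_le_right h7 (by linarith)
      have h12 : 0 ≤ (m : ℝ) ^ 2 * ρ ^ 2 * (1 + L) := by positivity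
      calc 4800 * (m : ℝ) ^ 2 * ρ ^ 2 + Cd * (2 * m) ^ 2 * ρ ^ 2 * (1 + (1 + L)) +
            Cc * (2 * m) ^ 2 * ρ ^ 2 * (1 + (1 + L)) =
            4800 * (m ^ 2 * ρ ^ 2) + (4 * Cc + 4 * Cd) * ((m ^ 2 * ρ ^ 2) * (1 + (1 + L))) := by
              ring
        _ ≤ 4800 * ((m ^ 2 * ρ ^ 2) * (1 + L)) + (4 * Cc + 4 * Cd) *
            (2 * ((m ^ 2 * ρ ^ 2) * (1 + L))) := by gcongr
        _ ≤ (4800 + 8 * Ca + 8 * Cb + 8 * Cc + 8 * Cd) * ((m ^ 2 * ρ ^ 2) * (1 + L)) := by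
            nlinarith [mul_nonneg hCa h12, mul_nonneg hCb h12]
        _ = _ := by ring

end Pool.Agent.Lib.MP_95e7ec_an
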