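import Mathlib
import Pool.Agent.Lib.MP_95e7ec_an.PlaneMain
import Pool.Agent.Lib.MP_95e7ec_an.KosDefs

/-!
# The mean number of closed orbits which are not contained in a large disc
-/

set_option autoImplicit false

open Set Filter Topology MeasureTheory
open scoped ContDiff ENNReal

namespace Pool.Agent.Lib.MP_95e7ec_an

/-- version of `plane_main` with integrals over arbitrary small sets -/
theorem plane_main_set : ∃ C : ℝ, 0 ≤ C ∧ ∀ m : ℕ, 1 ≤ m → ∀ P Q : MvPolynomial (Fin 2) ℝ,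
    P.totalDegree ≤ 2 * m → Q.totalDegree ≤ 2 * m → ∀ ρ : ℝ, 0 < ρ →
    (∀ z : ℝ × ℝ, nm (vf P Q z) ≤ ρ * sq1 z ^ (2 * m)) →
    ∃ H : ℝ × ℝ → ℝ≥0∞, Measurable H ∧
      (∀ c : ℝ × ℝ, nm c ≤ ρ → ∫⁻ α in Set.Ioo 0 Real.pi, orbitSum (fun _ => 1)
        (vf (P + MvPolynomial.C c.1 * wPoly m) (Q + MvPolynomial.C c.2 * wPoly m)) Set.univ α ≤
          H c) ∧
      ∀ (B : Set (ℝ × ℝ)) (σ : ℝ), 0 < σ → σ ≤ ρ → volume B ≤ ENNReal.ofReal (4 * σ ^ 2) →
        ∫⁻ c in B, H c ≤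
          ENNReal.ofReal (C * m ^ 3 * σ ^ 2 * (1 + Real.logb 2 (ρ / σ))) := by
  classical
  obtain ⟨C0, hC0, hbad⟩ := bad_sets
  obtain ⟨Ca, hCa, hsum⟩ := sum_lemma 1000000000 114 (C0 + 2) (by norm_num) (by norm_num)
    (by positivity)
  obtain ⟨Cb, hCb, hsum2⟩ := sum_lemma_two 202 (C0 + 2) (by norm_num) (by positivity)
  refine ⟨4800 + 8 * Ca + 8 * Cb, by positivity, ?_⟩
  intro m hm P Q hP hQ ρ hρ hb
  obtain ⟨S, hSm, hSv, hS⟩ := hbad m hm P Q hP hQ ρ hρ hb
  set n : ℕ := 2 * m with hn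
  have hn1 : 1 ≤ n := by omega
  have hm1 : (1 : ℝ) ≤ m := by exact_mod_cast hm
  have hnm : (n : ℝ) = 2 * m := by rw [hn]; push_cast; ring
  choose h hh1 hh2 hh3 using fun k j => cell_majorant hm P Q hP hQ hρ hb k j
  set S' : ℕ → Set (ℝ × ℝ) := fun k => if k < 2 then Set.univ else S (k - 2) with hS'
  have hS'm : ∀ k, MeasurableSet (S' k) := by
    intro k
    simp only [hS']
    split_ifs
    · exact MeasurableSet.univ
    · exact hSm _
  have hm1' : Measurable fun c => ∑' k, (S' k).indicator (fun _ => ENNReal.ofReal (202 * n ^ 2)) c :=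
    Measurable.tsum fun k => measurable_const.indicator (hS'm k)
  have hm2' : ∀ j, Measurable fun c => ∑' k, (S' k).indicator (h k j) c := fun j =>
    Measurable.tsum fun k => (hh1 k j).indicator (hS'm k)
  have hm3' : Measurable fun c => ∑' j, min (ENNReal.ofReal (114 * n ^ 3))
      (∑' k, (S' k).indicator (h k j) c) :=
    Measurable.tsum fun j => measurable_const.min (hm2' j)
  refine ⟨fun c => ENNReal.ofReal (600 * n) +
    (∑' k, (S' k).indicator (fun _ => ENNReal.ofReal (202 * n ^ 2)) c) +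
    ∑' j, min (ENNReal.ofReal (114 * n ^ 3)) (∑' k, (S' k).indicator (h k j) c), ?_, ?_, ?_⟩
  · exact (measurable_const.add hm1').add hm3'
  · intro c hc
    by_cases hex : ∃ k, c ∉ S k
    · set κ := Nat.find hex with hκ
      have h1 : c ∉ S κ := Nat.find_spec hex
      have h2 : ∀ k, k ≤ κ + 1 → c ∈ S' k := by
        intro k hk
        simp only [hS']
        split_ifs with hk2
        · trivial
        · have := Nat.find_min hex (m := k - 2) (by omega)
          exact not_not.1 this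
      refine (plane_one hn1 hρ _ _ (totalDegree_add_wPoly hP c.1) (totalDegree_add_wPoly hQ c.2) κ
        (fun α C hC => hS κ c hc h1 α C hC) (b := fun k j => h k j c)
        (fun k j => hh2 k j c hc)).trans ?_
      refine add_le_add (add_le_add le_rfl (ENNReal.tsum_le_tsum fun k => ?_))
        (ENNReal.tsum_le_tsum fun j => min_le_min le_rfl (ENNReal.tsum_le_tsum fun k => ?_))
      · split_ifs with hk
        · rw [Set.indicator_of_mem (h2 k hk)]
        · exact zero_le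
      · split_ifs with hk
        · rw [Set.indicator_of_mem (h2 k hk)]
        · exact zero_le
    · push Not at hex
      have h1 : ∀ k, (S' k).indicator (fun _ => ENNReal.ofReal (202 * n ^ 2)) c =
          ENNReal.ofReal (202 * n ^ 2) := by
        intro k
        apply Set.indicator_of_mem
        simp only [hS']
        split_ifs
        · trivial
        · exact hex _
      have h2 : ∑' k, (S' k).indicator (fun _ => ENNReal.ofReal (202 * n ^ 2)) c = ⊤ := by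
        simp only [h1]
        apply ENNReal.tsum_const_eq_top_of_ne_zero
        rw [Ne, ENNReal.ofReal_eq_zero, not_le]
        positivity
      have h3 : ENNReal.ofReal (600 * n) +
          (∑' k, (S' k).indicator (fun _ => ENNReal.ofReal (202 * n ^ 2)) c) +
          ∑' j, min (ENNReal.ofReal (114 * n ^ 3)) (∑' k, (S' k).indicator (h k j) c) = ⊤ := by
        rw [h2]
        simp
      exact le_of_le_of_eq le_top h3.symm
  · intro B σ hσ hσρ hBv
    have hlog : 0 ≤ Real.logb 2 (ρ / σ) :=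
      Real.logb_nonneg (by norm_num) ((one_le_div hσ).2 hσρ)
    have hBS : ∀ k, volume (B ∩ S' k) ≤ ENNReal.ofReal ((C0 + 2) * n ^ 2 * ρ ^ 2 / 2 ^ k) := by
      intro k
      by_cases hk : k < 2
      · refine (measure_mono Set.inter_subset_left).trans (hBv.trans ?_)
        apply ENNReal.ofReal_le_ofReal
        rw [le_div_iff₀ (by positivity), hnm]
        have h1 : (2 : ℝ) ^ k ≤ 2 ^ 1 := pow_le_pow_right₀ (by norm_num) (by omega)
        have h2 : σ ^ 2 ≤ ρ ^ 2 := by gcongr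
        calc 4 * σ ^ 2 * 2 ^ k ≤ 4 * ρ ^ 2 * 2 ^ 1 := by gcongr
          _ ≤ 2 * (2 * 1) ^ 2 * ρ ^ 2 := by linarith
          _ ≤ (C0 + 2) * (2 * m) ^ 2 * ρ ^ 2 := by
              gcongr
              linarith
      · have hSk : S' k = S (k - 2) := by
          simp only [hS']
          rw [if_neg hk]
        rw [hSk]
        refine (measure_mono Set.inter_subset_right).trans ((hSv _).trans ?_)
        apply ENNReal.ofReal_le_ofReal
        have h2k : (2 : ℝ) ^ k = 2 ^ (k - 2) * 4 := by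
          have h3 : k = (k - 2) + 2 := by omega
          conv_lhs => rw [h3]
          rw [pow_add]
          norm_num
        rw [h2k, hnm, div_le_div_iff₀ (by positivity) (by positivity)]
        have h4 : 0 ≤ (m : ℝ) ^ 2 * ρ ^ 2 * (2 ^ (k - 2)) := by positivity
        nlinarith
    have T0 : ∫⁻ c in B, ENNReal.ofReal (600 * n) ≤ ENNReal.ofReal (4800 * m ^ 3 * σ ^ 2) := by
      rw [setLIntegral_const]
      calc ENNReal.ofReal (600 * n) * volume B
          ≤ ENNReal.ofReal (600 * n) * ENNReal.ofReal (4 * σ ^ 2) := by gcongr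
        _ = ENNReal.ofReal (600 * n * (4 * σ ^ 2)) := (ENNReal.ofReal_mul (by positivity)).symm
        _ ≤ _ := by
          apply ENNReal.ofReal_le_ofReal
          rw [hnm]
          have h5 : (m : ℝ) ≤ m ^ 3 := by
            have := pow_le_pow_right₀ hm1 (show 1 ≤ 3 by norm_num)
            simpa using this
          calc 600 * (2 * (m : ℝ)) * (4 * σ ^ 2) = 4800 * m * σ ^ 2 := by ring
            _ ≤ 4800 * m ^ 3 * σ ^ 2 := by gcongr
    have T1 := hsum2 n hn1 ρ σ hσ hσρ B hBv S' hS'm hBS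
    have T2 := hsum n hn1 ρ σ hσ hσρ B hBv S' hS'm hBS h hh1 hh3
    have hsplit : ∫⁻ c in B, (ENNReal.ofReal (600 * n) +
        (∑' k, (S' k).indicator (fun _ => ENNReal.ofReal (202 * n ^ 2)) c) +
        ∑' j, min (ENNReal.ofReal (114 * n ^ 3)) (∑' k, (S' k).indicator (h k j) c)) =
        (∫⁻ c in B, ENNReal.ofReal (600 * n)) +
        (∫⁻ c in B, ∑' k, (S' k).indicator (fun _ => ENNReal.ofReal (202 * n ^ 2)) c) +
        ∫⁻ c in B, ∑' j, min (ENNReal.ofReal (114 * n ^ 3)) (∑' k, (S' k).indicator (h k j) c) := by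
      rw [lintegral_add_right _ hm3', lintegral_add_right _ hm1']
    refine (le_of_eq hsplit).trans ((add_le_add (add_le_add T0 T1) T2).trans ?_)
    rw [← ENNReal.ofReal_add (by positivity) (by positivity),
      ← ENNReal.ofReal_add (by positivity) (by positivity)]
    apply ENNReal.ofReal_le_ofReal
    rw [hnm]
    have h6 : 0 ≤ (m : ℝ) ^ 3 * σ ^ 2 * Real.logb 2 (ρ / σ) := by positivity
    have h7 : 0 ≤ (m : ℝ) ^ 3 * σ ^ 2 := by positivity
    calc 4800 * (m : ℝ) ^ 3 * σ ^ 2 + Cb * (2 * m) ^ 3 * σ ^ 2 * (1 + Real.logb 2 (ρ / σ)) +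
          Ca * (2 * m) ^ 3 * σ ^ 2 * (1 + Real.logb 2 (ρ / σ)) =
          4800 * (m ^ 3 * σ ^ 2) + (8 * Ca + 8 * Cb) * ((m ^ 3 * σ ^ 2) *
            (1 + Real.logb 2 (ρ / σ))) := by ring
      _ ≤ 4800 * ((m ^ 3 * σ ^ 2) * (1 + Real.logb 2 (ρ / σ))) +
          (8 * Ca + 8 * Cb) * ((m ^ 3 * σ ^ 2) * (1 + Real.logb 2 (ρ / σ))) := by
          have h9 : (m : ℝ) ^ 3 * σ ^ 2 ≤ (m ^ 3 * σ ^ 2) * (1 + Real.logb 2 (ρ / σ)) :=
            le_mul_of_one_le_right h7 (by linarith)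
          linarith
      _ = _ := by ring

theorem pt_cntO_le_orbitSum {ι : Type*} (v : ℝ × ℝ → ℝ × ℝ) (s : Finset ι)
    (V : ι → Set (ℝ × ℝ)) (α : ℝ) :
    cntO (turn α v) Set.univ s V ≤ orbitSum (fun _ => 1) v Set.univ α := by
  unfold cntO
  rw [encard_eq_tsum, ca_orbitSum_eq]
  refine ENNReal.tsum_le_tsum fun C => ?_
  refine Set.indicator_le_indicator_of_subset (fun C hC => ?_) (fun _ => zero_le) C
  exact ⟨hC.1, hC.2.1⟩

theorem pt_cntO_le_cross (v : ℝ × ℝ → ℝ × ℝ) (k0 : ℕ) (α : ℝ)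
    (h : ∀ C, IsClosedOrbit (turn α v) C → ¬ C ⊆ {z | (2 : ℝ) ^ k0 < nm z}) :
    cntO (turn α v) Set.univ {()} (fun _ => disc 0 (2 ^ (k0 + 1))) ≤
      setSum (crossInd (2 ^ k0)) v Set.univ α := by
  classical
  unfold cntO
  rw [encard_eq_tsum, setSum_eq_tsum]
  refine ENNReal.tsum_le_tsum fun C => ?_
  by_cases hC : C ∈ ({C | IsClosedOrbit (turn α v) C ∧ C ⊆ Set.univ ∧
      ∀ i ∈ ({()} : Finset Unit), ¬ C ⊆ (fun _ => disc 0 (2 ^ (k0 + 1))) i} : Set (Set (ℝ × ℝ)))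
  · rw [Set.indicator_of_mem hC]
    obtain ⟨h1, h2, h3⟩ := hC
    rw [Set.indicator_of_mem (show C ∈ {C | IsClosedOrbit (turn α v) C ∧ C ⊆ Set.univ} from
      ⟨h1, h2⟩)]
    have h4 := h C h1
    have h5 := h3 () (Finset.mem_singleton_self _)
    obtain ⟨z, hz, hz'⟩ := Set.not_subset.1 h4
    obtain ⟨w, hw, hw'⟩ := Set.not_subset.1 h5
    rw [mem_disc_zero (by positivity), not_lt] at hw'
    unfold crossInd
    rw [if_pos ⟨⟨z, hz, not_lt.1 hz'⟩, ⟨w, hw, by rw [pow_succ] at hw'; linarith⟩⟩]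
  · rw [Set.indicator_of_notMem hC]
    exact zero_le

/-- the closed orbits which are not contained in the disc of radius `2^(k0+1)` -/
theorem plane_tail : ∃ C : ℝ, 0 ≤ C ∧ ∀ m : ℕ, 1 ≤ m → ∀ P Q : MvPolynomial (Fin 2) ℝ,
    P.totalDegree ≤ 2 * m → Q.totalDegree ≤ 2 * m → ∀ ρ : ℝ, 0 < ρ →
    (∀ z : ℝ × ℝ, nm (vf P Q z) ≤ ρ * sq1 z ^ (2 * m)) → ∀ k0 : ℕ, C * m ^ 2 ≤ 2 ^ k0 →
    ∃ H : ℝ × ℝ → ℝ≥0∞, Measurable H ∧
      (∀ c : ℝ × ℝ, nm c ≤ ρ → ∫⁻ α in Set.Ioo 0 Real.pi, cntO (turn α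
        (vf (P + MvPolynomial.C c.1 * wPoly m) (Q + MvPolynomial.C c.2 * wPoly m))) Set.univ
          {()} (fun _ => disc 0 (2 ^ (k0 + 1))) ≤
          ENNReal.ofReal (1200 * m) + H c) ∧
      ∫⁻ c, H c ≤ ENNReal.ofReal (C * m ^ 5 * ρ ^ 2 * (k0 + 1) / 2 ^ k0) := by
  classical
  obtain ⟨C0, hC0, hbad⟩ := bad_sets
  obtain ⟨C1, hC1, hset⟩ := plane_main_set
  refine ⟨max C0 1 + C1 * max C0 1, by positivity, ?_⟩
  intro m hm P Q hP hQ ρ hρ hb k0 hk0
  set c0 : ℝ := max C0 1 with hc0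
  have hc01 : 1 ≤ c0 := le_max_right _ _
  have hm1 : (1 : ℝ) ≤ m := by exact_mod_cast hm
  obtain ⟨S, hSm, hSv, hS⟩ := hbad m hm P Q hP hQ ρ hρ hb
  obtain ⟨H, hHm, hH1, hH2⟩ := hset m hm P Q hP hQ ρ hρ hb
  refine ⟨(S k0).indicator H, hHm.indicator (hSm k0), fun c hc => ?_, ?_⟩
  · by_cases hcS : c ∈ S k0
    · rw [Set.indicator_of_mem hcS]
      exact le_trans (lintegral_mono fun α => pt_cntO_le_orbitSum _ _ _ α)
        ((hH1 c hc).trans le_add_self)
    · rw [Set.indicator_of_notMem hcS, add_zero]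
      have h1 := crossing_count (n := 2 * m) (by omega)
        (arr (2 * m) (P + MvPolynomial.C c.1 * wPoly m), arr (2 * m) (Q + MvPolynomial.C c.2 * wPoly m))
        (R := 2 ^ k0) (by positivity)
      rw [← vf_eq_vfc (totalDegree_add_wPoly hP c.1) (totalDegree_add_wPoly hQ c.2)] at h1
      refine le_trans (lintegral_mono fun α => ?_) (h1.trans (ENNReal.ofReal_le_ofReal ?_))
      · exact pt_cntO_le_cross _ k0 α fun C hC => hS k0 c hc hcS α C hC
      · push_cast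
        linarith
  · rw [lintegral_indicator (hSm k0)]
    set σ : ℝ := Real.sqrt (c0 * m ^ 2 * ρ ^ 2 / 2 ^ k0 / 4) with hσ
    have hσ2 : σ ^ 2 = c0 * m ^ 2 * ρ ^ 2 / 2 ^ k0 / 4 := Real.sq_sqrt (by positivity)
    have hσ0 : 0 < σ := Real.sqrt_pos.2 (by positivity)
    have h2k : (0 : ℝ) < 2 ^ k0 := by positivity
    have hk0' : c0 * m ^ 2 ≤ 2 ^ k0 := by
      refine le_trans ?_ hk0
      have : 0 ≤ C1 * c0 * (m : ℝ) ^ 2 := by positivity
      nlinarith
    have hσρ : σ ≤ ρ := by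
      refine Real.sqrt_le_iff.2 ⟨hρ.le, ?_⟩
      rw [div_div, div_le_iff₀ (by positivity)]
      have : c0 * m ^ 2 * ρ ^ 2 ≤ 2 ^ k0 * ρ ^ 2 := by gcongr
      nlinarith [mul_pos h2k (pow_pos hρ 2)]
    have hv : volume (S k0) ≤ ENNReal.ofReal (4 * σ ^ 2) := by
      refine (hSv k0).trans (ENNReal.ofReal_le_ofReal ?_)
      rw [hσ2]
      have h3 : C0 ≤ c0 := le_max_left _ _
      have h4 : 4 * (c0 * m ^ 2 * ρ ^ 2 / 2 ^ k0 / 4) = c0 * m ^ 2 * ρ ^ 2 / 2 ^ k0 := by ring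
      rw [h4]
      gcongr
    refine (hH2 (S k0) σ hσ0 hσρ hv).trans (ENNReal.ofReal_le_ofReal ?_)
    have hlog : Real.logb 2 (ρ / σ) ≤ 1 + k0 := by
      have h5 : ρ / σ ≤ 2 ^ (1 + k0) := by
        rw [div_le_iff₀ hσ0]
        have h6 : ρ ^ 2 ≤ (2 ^ (1 + k0) * σ) ^ 2 := by
          rw [mul_pow, hσ2]
          have h7 : ((2 : ℝ) ^ (1 + k0)) ^ 2 = 4 * (2 ^ k0 * 2 ^ k0) := by
            rw [pow_add, mul_pow]
            ring
          rw [h7]
          have h8 : 4 * ((2 : ℝ) ^ k0 * 2 ^ k0) * (c0 * m ^ 2 * ρ ^ 2 / 2 ^ k0 / 4) =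
              c0 * m ^ 2 * 2 ^ k0 * ρ ^ 2 := by
            field_simp
          rw [h8]
          have h9 : (1 : ℝ) ≤ 2 ^ k0 := one_le_pow₀ (by norm_num)
          have h10 : (1 : ℝ) ≤ m ^ 2 := by nlinarith
          have h11 : 1 ≤ c0 * m ^ 2 * 2 ^ k0 := by
            calc (1 : ℝ) = 1 * 1 * 1 := by norm_num
              _ ≤ c0 * m ^ 2 * 2 ^ k0 := by gcongr
          nlinarith [pow_pos hρ 2]
        exact (pow_le_pow_iff_left₀ hρ.le (by positivity) two_ne_zero).1 h6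
      have h12 := Real.logb_le_logb_of_le (b := 2) (by norm_num) (by positivity) h5
      rw [← Real.rpow_natCast, Real.logb_rpow (by norm_num) (by norm_num)] at h12
      push_cast at h12
      exact h12
    rw [hσ2]
    have hk : (0 : ℝ) ≤ k0 := Nat.cast_nonneg _
    calc C1 * m ^ 3 * (c0 * m ^ 2 * ρ ^ 2 / 2 ^ k0 / 4) * (1 + Real.logb 2 (ρ / σ))
        ≤ C1 * m ^ 3 * (c0 * m ^ 2 * ρ ^ 2 / 2 ^ k0 / 4) * (1 + (1 + k0)) := by gcongr
      _ = C1 * c0 * m ^ 5 * ρ ^ 2 * ((2 + k0) / 4) / 2 ^ k0 := by ring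
      _ ≤ (c0 + C1 * c0) * m ^ 5 * ρ ^ 2 * (k0 + 1) / 2 ^ k0 := by
          gcongr
          · linarith
          · linarith

end Pool.Agent.Lib.MP_95e7ec_an
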