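import Mathlib
import Pool.Agent.Lib.MP_95e7ec_an.KosMain
import Pool.Agent.Lib.MP_95e7ec_an.PlaneTail
import Pool.Agent.Lib.MP_95e7ec_an.KosEvenVec
import Pool.Agent.Lib.MP_95e7ec_an.KosEvenMom

/-!
# The closed orbits of Kostlan fields of even degree which leave a large disc
-/

set_option autoImplicit false

open Set Filter Topology MeasureTheory ProbabilityTheory
open scoped ContDiff ENNReal

namespace Pool.Agent.Lib.MP_95e7ec_an

theorem ke_lintegral_smul {H : ℝ × ℝ → ℝ≥0∞} {N : ℝ} (hN : 0 < N) :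
    ∫⁻ t : ℝ × ℝ, H (N⁻¹ • t) = ENNReal.ofReal (N ^ 2) * ∫⁻ c, H c := by
  have hN' : N⁻¹ ≠ 0 := (inv_pos.2 hN).ne'
  have h1 := Measure.map_addHaar_smul (volume : Measure (ℝ × ℝ)) hN'
  have h2 : ∫⁻ c, H c ∂(Measure.map (⇑(Homeomorph.smulOfNeZero N⁻¹ hN')) volume) =
      ∫⁻ t : ℝ × ℝ, H ((Homeomorph.smulOfNeZero N⁻¹ hN') t) :=
    (Homeomorph.smulOfNeZero N⁻¹ hN').isClosedEmbedding.measurableEmbedding.lintegral_map _
  have h3 : ∫⁻ c, H c ∂(Measure.map (fun t : ℝ × ℝ => N⁻¹ • t) volume) =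
      ∫⁻ t : ℝ × ℝ, H (N⁻¹ • t) := h2
  rw [← h3, h1, lintegral_smul_measure, smul_eq_mul]
  congr 2
  simp

theorem ke_nm_smul_le {N : ℝ} (hN : 1 ≤ N) {t : ℝ × ℝ} (ht : nm t ≤ 1) : nm (N⁻¹ • t) ≤ 1 := by
  have h1 := nm_sq t
  have h2 := nm_sq (N⁻¹ • t)
  have h3 : 0 ≤ nm t := Real.sqrt_nonneg _
  have h4 : 0 ≤ nm (N⁻¹ • t) := Real.sqrt_nonneg _
  have h5 : nm (N⁻¹ • t) ^ 2 = (N⁻¹) ^ 2 * nm t ^ 2 := by
    rw [h2, h1]
    simp only [Prod.smul_fst, Prod.smul_snd, smul_eq_mul]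
    ring
  have h6 : N⁻¹ ≤ 1 := inv_le_one_of_one_le₀ hN
  have h7 : 0 ≤ N⁻¹ := by positivity
  have h8 : (N⁻¹) ^ 2 ≤ 1 := pow_le_one₀ h7 h6
  have h9 : nm t ^ 2 ≤ 1 := pow_le_one₀ h3 ht
  have h10 : nm (N⁻¹ • t) ^ 2 ≤ 1 := by
    rw [h5]
    calc (N⁻¹) ^ 2 * nm t ^ 2 ≤ 1 * 1 := mul_le_mul h8 h9 (by positivity) (by norm_num)
      _ = 1 := by norm_num
  nlinarith

/-- the mean number of closed orbits of a Kostlan field of even degree which are not contained in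
a large disc -/
theorem kos_even_tail : ∃ C : ℝ, 0 ≤ C ∧ ∀ m : ℕ, 1 ≤ m → ∀ k0 : ℕ, C * m ^ 2 ≤ 2 ^ k0 →
    ∫⁻ a, cntO (kVF (2 * m) a) Set.univ {()} (fun _ => disc 0 (2 ^ (k0 + 1))) ∂kMeas (2 * m) ≤
      ENNReal.ofReal (C * m + C * m ^ 11 * (k0 + 1) / 2 ^ k0) := by
  obtain ⟨C1, hC1, htail⟩ := plane_tail
  obtain ⟨C2, hC2, hmom⟩ := kexp_sum_moment
  refine ⟨C1 + 4800 * (4 * Real.exp 4) + 324 * C1 * C2, by positivity, fun m hm k0 hk0 => ?_⟩
  have hm1 : (1 : ℝ) ≤ m := by exact_mod_cast hm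
  have hk0' : C1 * (m : ℝ) ^ 2 ≤ 2 ^ k0 := by
    refine le_trans ?_ hk0
    gcongr
    have : 0 ≤ 4800 * (4 * Real.exp 4) := by positivity
    have : 0 ≤ 324 * C1 * C2 := by positivity
    linarith
  obtain ⟨v, N, hN1, hN2, hv, hvW⟩ := exists_even_dir m
  set F : KSp (2 * m) → ℝ≥0∞ := fun a =>
    cntO (kVF (2 * m) a) Set.univ {()} (fun _ => disc 0 (2 ^ (k0 + 1))) with hF
  have hmeas : Measurable F := km_measurable_cntO (2 * m) isOpen_univ {()} fun i _ =>
    isOpen_disc _ _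
  rw [km_rot_avg (2 * m) hmeas]
  set Φ : KSp (2 * m) → ℝ≥0∞ := fun a => ∫⁻ α in Set.Ioo 0 Real.pi, F (krot α a) with hΦ
  have hΦm : Measurable Φ := km_measurable_avg (2 * m) hmeas
  have hpi3 : (1 : ℝ) ≤ Real.pi := by linarith [Real.pi_gt_three]
  have hpi : (ENNReal.ofReal Real.pi)⁻¹ ≤ 1 := by
    rw [← ENNReal.ofReal_inv_of_pos Real.pi_pos]
    exact ENNReal.ofReal_le_one.2 (inv_le_one_of_one_le₀ hpi3)
  refine (mul_le_of_le_one_left (zero_le) hpi).trans ?_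
  refine (kMeas_smooth v hv hΦm).trans ((mul_le_of_le_one_left (zero_le) hpi).trans ?_)
  set A : ℝ := 4 * (C1 * m ^ 7 * (k0 + 1) / 2 ^ k0) with hA
  have hA0 : 0 ≤ A := by positivity
  have h1 : ∀ a : KSp (2 * m), ENNReal.ofReal (kexp v a) *
      ∫⁻ t in {t : ℝ × ℝ | nm t ≤ 1}, Φ (kshift v a t) ≤
      ENNReal.ofReal (4800 * m) * ENNReal.ofReal (kexp v a ^ 2) +
      ENNReal.ofReal A *
        ENNReal.ofReal (kexp v a * (1 + ∑ p, (|(a p).1| + |(a p).2|)) ^ 2) := by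
    intro a
    set ρ : ℝ := 1 + ∑ p, (|(a p).1| + |(a p).2|) with hρdef
    have hs0 : 0 ≤ ∑ p, (|(a p).1| + |(a p).2|) := Finset.sum_nonneg fun p _ => by positivity
    have hρ1 : 1 ≤ ρ := by linarith
    have hρ : 0 < ρ := by linarith
    have hb : ∀ z : ℝ × ℝ, nm (vf (kPoly (2 * m) fun p => (a p).1)
        (kPoly (2 * m) fun p => (a p).2) z) ≤ ρ * sq1 z ^ (2 * m) := by
      intro z
      have e1 := abs_eval_kPoly_le (2 * m) (fun p => (a p).1) z
      have e2 := abs_eval_kPoly_le (2 * m) (fun p => (a p).2) z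
      have e3 : 0 ≤ sq1 z ^ (2 * m) := by unfold sq1; positivity
      have e4 : nm (vf (kPoly (2 * m) fun p => (a p).1) (kPoly (2 * m) fun p => (a p).2) z) ≤
          |MvPolynomial.eval ![z.1, z.2] (kPoly (2 * m) fun p => (a p).1)| +
          |MvPolynomial.eval ![z.1, z.2] (kPoly (2 * m) fun p => (a p).2)| := by
        unfold nm vf
        refine Real.sqrt_le_iff.2 ⟨by positivity, ?_⟩
        simp only
        rw [← sq_abs (MvPolynomial.eval ![z.1, z.2] (kPoly (2 * m) fun p => (a p).1)),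
          ← sq_abs (MvPolynomial.eval ![z.1, z.2] (kPoly (2 * m) fun p => (a p).2))]
        nlinarith [abs_nonneg (MvPolynomial.eval ![z.1, z.2] (kPoly (2 * m) fun p => (a p).1)),
          abs_nonneg (MvPolynomial.eval ![z.1, z.2] (kPoly (2 * m) fun p => (a p).2))]
      refine e4.trans ((add_le_add e1 e2).trans ?_)
      rw [← add_mul, ← Finset.sum_add_distrib]
      exact mul_le_mul_of_nonneg_right (by linarith) e3
    obtain ⟨H, hHm, hH1, hH2⟩ := htail m hm _ _ (totalDegree_kPoly (2 * m) fun p => (a p).1)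
      (totalDegree_kPoly (2 * m) fun p => (a p).2) ρ hρ hb k0 hk0'
    have hfield : ∀ t : ℝ × ℝ, kVF (2 * m) (kshift v a t) =
        vf (kPoly (2 * m) (fun p => (a p).1) + MvPolynomial.C (N⁻¹ • t).1 * wPoly m)
          (kPoly (2 * m) (fun p => (a p).2) + MvPolynomial.C (N⁻¹ • t).2 * wPoly m) := by
      intro t
      funext z
      rw [kVF_kshift, hvW]
      simp only [kVF, vf, map_add, map_mul, MvPolynomial.eval_C, Prod.smul_fst, Prod.smul_snd,
        smul_eq_mul]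
      refine Prod.ext ?_ ?_
      · simp only [Prod.fst_add, Prod.smul_fst, smul_eq_mul]
        ring
      · simp only [Prod.snd_add, Prod.smul_snd, smul_eq_mul]
        ring
    have hpt : ∀ t : ℝ × ℝ, nm t ≤ 1 →
        Φ (kshift v a t) ≤ ENNReal.ofReal (1200 * m) + H (N⁻¹ • t) := by
      intro t ht
      have e1 := hH1 (N⁻¹ • t) ((ke_nm_smul_le hN1 ht).trans hρ1)
      refine le_trans (le_of_eq ?_) e1
      simp only [hΦ, hF, kVF_krot, hfield]
    have hB : ∫⁻ t in {t : ℝ × ℝ | nm t ≤ 1}, Φ (kshift v a t) ≤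
        ENNReal.ofReal (4800 * m) + ENNReal.ofReal (A * ρ ^ 2) := by
      calc ∫⁻ t in {t : ℝ × ℝ | nm t ≤ 1}, Φ (kshift v a t)
          ≤ ∫⁻ t in {t : ℝ × ℝ | nm t ≤ 1}, (ENNReal.ofReal (1200 * m) + H (N⁻¹ • t)) :=
            setLIntegral_mono' (measurableSet_le continuous_nm.measurable measurable_const) hpt
        _ = ENNReal.ofReal (1200 * m) * volume {t : ℝ × ℝ | nm t ≤ 1} +
            ∫⁻ t in {t : ℝ × ℝ | nm t ≤ 1}, H (N⁻¹ • t) := by
            rw [lintegral_add_left measurable_const, setLIntegral_const]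
        _ ≤ ENNReal.ofReal (1200 * m) * ENNReal.ofReal (4 * 1 ^ 2) +
            ENNReal.ofReal (N ^ 2) * ENNReal.ofReal (C1 * m ^ 5 * ρ ^ 2 * (k0 + 1) / 2 ^ k0) := by
            refine add_le_add (mul_le_mul_right (volume_nm_le zero_le_one) _) ?_
            refine (setLIntegral_le_lintegral _ _).trans ?_
            rw [ke_lintegral_smul (by linarith)]
            exact mul_le_mul_right hH2 _
        _ ≤ _ := by
            rw [← ENNReal.ofReal_mul (by positivity), ← ENNReal.ofReal_mul (by positivity)]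
            refine add_le_add (ENNReal.ofReal_le_ofReal (by linarith))
              (ENNReal.ofReal_le_ofReal ?_)
            have hN4 : N ^ 2 ≤ 4 * m ^ 2 := by nlinarith
            calc N ^ 2 * (C1 * m ^ 5 * ρ ^ 2 * (k0 + 1) / 2 ^ k0)
                ≤ 4 * m ^ 2 * (C1 * m ^ 5 * ρ ^ 2 * (k0 + 1) / 2 ^ k0) := by gcongr
              _ = A * ρ ^ 2 := by rw [hA]; ring
    have hk1 : 1 ≤ kexp v a := by
      unfold kexp
      exact Real.one_le_exp (by positivity)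
    refine (mul_le_mul_right hB _).trans ?_
    rw [mul_add, ← ENNReal.ofReal_mul (by positivity), ← ENNReal.ofReal_mul (by positivity),
      ← ENNReal.ofReal_mul (by positivity), ← ENNReal.ofReal_mul (by positivity)]
    refine add_le_add (ENNReal.ofReal_le_ofReal ?_) (ENNReal.ofReal_le_ofReal ?_)
    · have : kexp v a ≤ kexp v a ^ 2 := by nlinarith
      nlinarith
    · exact le_of_eq (by ring)
  refine (lintegral_mono h1).trans ?_
  have hmk : Measurable fun a : KSp (2 * m) => ENNReal.ofReal (kexp v a ^ 2) := by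
    refine Measurable.ennreal_ofReal (Continuous.measurable ?_)
    unfold kexp klin
    fun_prop
  rw [lintegral_add_left (hmk.const_mul _), lintegral_const_mul' _ _ ENNReal.ofReal_ne_top,
    lintegral_const_mul' _ _ ENNReal.ofReal_ne_top]
  refine (add_le_add (mul_le_mul_right (kMeas_exp v hv.le) _)
    (mul_le_mul_right (hmom (2 * m) v hv.le) _)).trans ?_
  rw [← ENNReal.ofReal_mul (by positivity), ← ENNReal.ofReal_mul (by positivity),
    ← ENNReal.ofReal_add (by positivity) (by positivity)]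
  refine ENNReal.ofReal_le_ofReal (add_le_add ?_ ?_)
  · have h3 : 0 ≤ (C1 + 324 * C1 * C2) * m := by positivity
    nlinarith
  · rw [hA]
    push_cast
    have h4 : (2 * (m : ℝ) + 1) ^ 4 ≤ 81 * (m : ℝ) ^ 4 := by
      calc (2 * (m : ℝ) + 1) ^ 4 ≤ (3 * (m : ℝ)) ^ 4 := by
            gcongr
            linarith
        _ = 81 * (m : ℝ) ^ 4 := by ring
    calc 4 * (C1 * m ^ 7 * (k0 + 1) / 2 ^ k0) * (C2 * (2 * (m : ℝ) + 1) ^ 4)
        ≤ 4 * (C1 * m ^ 7 * (k0 + 1) / 2 ^ k0) * (C2 * (81 * m ^ 4)) := by gcongr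
      _ = 324 * C1 * C2 * m ^ 11 * (k0 + 1) / 2 ^ k0 := by ring
      _ ≤ (C1 + 4800 * (4 * Real.exp 4) + 324 * C1 * C2) * m ^ 11 * (k0 + 1) / 2 ^ k0 := by
          gcongr
          have : 0 ≤ 4800 * (4 * Real.exp 4) := by positivity
          linarith

end Pool.Agent.Lib.MP_95e7ec_an
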