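import Mathlib
import Pool.Agent.Lib.MP_95e7ec_an.KosMain
import Pool.Agent.Lib.MP_95e7ec_an.KosEven

/-!
# The mean number of closed orbits of Kostlan random fields: final form
-/

set_option autoImplicit false

open Set Filter Topology MeasureTheory ProbabilityTheory
open scoped ContDiff ENNReal

namespace Pool.Agent.Lib.MP_95e7ec_an

theorem kf_cntO_mono {ι κ : Type*} (v : ℝ × ℝ → ℝ × ℝ) {U U' : Set (ℝ × ℝ)} (h : U ⊆ U')
    {s : Finset ι} {V : ι → Set (ℝ × ℝ)} :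
    cntO v U s V ≤ cntO v U' (∅ : Finset κ) (fun _ => ∅) := by
  unfold cntO
  refine ENat.toENNReal_le.2 (Set.encard_le_encard fun C hC => ?_)
  exact ⟨hC.1, hC.2.1.trans h, by simp⟩

theorem kf_disc : ∃ C : ℝ, 0 ≤ C ∧ ∀ n : ℕ, 1 ≤ n → ∀ R : ℝ, 1 ≤ R →
    ∫⁻ a, cntO (kVF n a) {z | nm z < R} (∅ : Finset ℕ) (fun _ => ∅) ∂kMeas n ≤
      ENNReal.ofReal (C * n * (1 + Real.log R)) := by
  obtain ⟨C, hC⟩ := kos_main
  refine ⟨4 * |C|, by positivity, fun n hn R hR => ?_⟩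
  have hR0 : 0 < R := by linarith
  have hlogR : 0 ≤ Real.log R := Real.log_nonneg hR
  have hlog2 : (1 / 2 : ℝ) ≤ Real.log 2 := by linarith [Real.log_two_gt_d9]
  set K : ℕ := ⌈Real.logb 2 R⌉₊ with hK
  have hRK : R ≤ 2 ^ K := by
    rw [← Real.rpow_natCast, ← Real.logb_le_iff_le_rpow (by norm_num) hR0]
    exact Nat.le_ceil _
  have hKle : (K : ℝ) ≤ 2 * Real.log R + 1 := by
    have h1 : (K : ℝ) < Real.logb 2 R + 1 := Nat.ceil_lt_add_one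
      (Real.logb_nonneg (by norm_num) hR)
    have h2 : Real.logb 2 R ≤ 2 * Real.log R := by
      rw [Real.logb, div_le_iff₀ (by linarith)]
      nlinarith
    linarith
  have h3 : ∫⁻ a, cntO (kVF n a) {z | nm z < R} (∅ : Finset ℕ) (fun _ => ∅) ∂kMeas n ≤
      ∫⁻ a, cntO (kVF n a) (disc 0 (2 ^ K)) (∅ : Finset ℕ) (fun _ => ∅) ∂kMeas n := by
    refine lintegral_mono fun a => kf_cntO_mono _ fun z hz => ?_
    rw [mem_disc_zero (by positivity)]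
    exact lt_of_lt_of_le hz hRK
  refine h3.trans ((hC n hn K).trans (ENNReal.ofReal_le_ofReal ?_))
  have hn0 : (0 : ℝ) ≤ n := Nat.cast_nonneg _
  calc C * n * (K + 1) ≤ |C| * n * (K + 1) := by
        gcongr
        exact le_abs_self C
    _ ≤ |C| * n * (2 * Real.log R + 1 + 1) := by gcongr
    _ ≤ |C| * n * (4 * (1 + Real.log R)) := by
        gcongr
        linarith
    _ = 4 * |C| * n * (1 + Real.log R) := by ring

theorem kf_exists_k0 {C : ℝ} (_hC : 0 ≤ C) : ∃ B : ℝ, 0 ≤ B ∧ ∀ m : ℕ, 1 ≤ m → ∃ k0 : ℕ,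
    C * m ^ 2 ≤ 2 ^ k0 ∧ (m : ℝ) ^ 11 * (k0 + 1) / 2 ^ k0 ≤ 1 ∧
      (k0 : ℝ) ≤ B * (1 + Real.log m) := by
  obtain ⟨c, hc⟩ : ∃ c : ℕ, C < 2 ^ c := pow_unbounded_of_one_lt C (by norm_num)
  refine ⟨36 + (c + 4), by positivity, fun m hm => ?_⟩
  have hm1 : (1 : ℝ) ≤ m := by exact_mod_cast hm
  have hm0 : (0 : ℝ) < m := by linarith
  set k1 : ℕ := ⌈Real.logb 2 m⌉₊ with hk1
  have hmk : (m : ℝ) ≤ 2 ^ k1 := by
    rw [← Real.rpow_natCast, ← Real.logb_le_iff_le_rpow (by norm_num) hm0]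
    exact Nat.le_ceil _
  have hlog : 0 ≤ Real.log m := Real.log_nonneg hm1
  have hlog2 : (1 / 2 : ℝ) ≤ Real.log 2 := by linarith [Real.log_two_gt_d9]
  have hk1le : (k1 : ℝ) ≤ 2 * Real.log m + 1 := by
    have h1 : (k1 : ℝ) < Real.logb 2 m + 1 := Nat.ceil_lt_add_one
      (Real.logb_nonneg (by norm_num) hm1)
    have h2 : Real.logb 2 m ≤ 2 * Real.log m := by
      rw [Real.logb, div_le_iff₀ (by linarith)]
      nlinarith
    linarith
  have hsplit : (2 : ℝ) ^ (12 * k1 + (c + 4)) = (2 ^ k1) ^ 11 * (2 ^ k1 * 2 ^ (c + 4)) := by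
    rw [← pow_mul, ← pow_add, ← pow_add]
    congr 1
    ring
  have hpow : ∀ x : ℕ, (x : ℝ) + 1 ≤ 2 ^ x := by
    intro x
    have h : x + 1 ≤ 2 ^ x := Nat.lt_two_pow_self
    exact_mod_cast h
  have h1k : (1 : ℝ) ≤ 2 ^ k1 := one_le_pow₀ (by norm_num)
  refine ⟨12 * k1 + (c + 4), ?_, ?_, ?_⟩
  · calc C * (m : ℝ) ^ 2 ≤ 2 ^ c * (2 ^ k1) ^ 2 := by gcongr
      _ ≤ 2 ^ (c + 4) * (2 ^ k1) ^ 12 := by
          gcongr
          · norm_num
          · omega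
          · norm_num
      _ = 2 ^ (12 * k1 + (c + 4)) := by
          rw [hsplit]
          ring
  · rw [div_le_one (by positivity), hsplit]
    have h3 : ((12 * k1 + (c + 4) : ℕ) : ℝ) + 1 ≤ 2 ^ k1 * 2 ^ (c + 4) := by
      have e1 := hpow k1
      have e2 := hpow (c + 4)
      have e3 : (16 : ℝ) ≤ 2 ^ (c + 4) := by
        calc (16 : ℝ) = 2 ^ 4 := by norm_num
          _ ≤ 2 ^ (c + 4) := pow_le_pow_right₀ (by norm_num) (by omega)
      have e4 : (0 : ℝ) ≤ k1 := Nat.cast_nonneg _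
      push_cast at e2 ⊢
      calc (12 * (k1 : ℝ) + (c + 4) + 1) ≤ k1 * 16 + (c + 4 + 1) := by linarith
        _ ≤ k1 * 2 ^ (c + 4) + 2 ^ (c + 4) := by gcongr
        _ = (k1 + 1) * 2 ^ (c + 4) := by ring
        _ ≤ 2 ^ k1 * 2 ^ (c + 4) := by gcongr
    calc (m : ℝ) ^ 11 * (((12 * k1 + (c + 4) : ℕ) : ℝ) + 1)
        ≤ (2 ^ k1) ^ 11 * (2 ^ k1 * 2 ^ (c + 4)) := by gcongr
      _ = _ := rfl
  · push_cast
    have hc0 : (0 : ℝ) ≤ c := Nat.cast_nonneg _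
    nlinarith

theorem kf_plane : ∃ C : ℝ, 0 ≤ C ∧ ∀ m : ℕ, 1 ≤ m →
    ∫⁻ a, cntO (kVF (2 * m) a) Set.univ (∅ : Finset ℕ) (fun _ => ∅) ∂kMeas (2 * m) ≤
      ENNReal.ofReal (C * m * (1 + Real.log m)) := by
  obtain ⟨C1, hC1, hmain⟩ : ∃ C : ℝ, 0 ≤ C ∧ ∀ n : ℕ, 1 ≤ n → ∀ K : ℕ,
      ∫⁻ a, cntO (kVF n a) (disc 0 (2 ^ K)) (∅ : Finset ℕ) (fun _ => ∅) ∂kMeas n ≤
        ENNReal.ofReal (C * n * (K + 1)) := by
    obtain ⟨C, hC⟩ := kos_main
    refine ⟨|C|, abs_nonneg C, fun n hn K => (hC n hn K).trans (ENNReal.ofReal_le_ofReal ?_)⟩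
    gcongr
    exact le_abs_self C
  obtain ⟨C2, hC2, htail⟩ := kos_even_tail
  obtain ⟨B, hB, hk0⟩ := kf_exists_k0 hC2
  refine ⟨2 * C1 * (B + 2) + 2 * C2, by positivity, fun m hm => ?_⟩
  obtain ⟨k0, h1, h2, h3⟩ := hk0 m hm
  have hm1 : (1 : ℝ) ≤ m := by exact_mod_cast hm
  have hlog : 0 ≤ Real.log m := Real.log_nonneg hm1
  have hsplit : ∀ a : KSp (2 * m), cntO (kVF (2 * m) a) Set.univ (∅ : Finset ℕ) (fun _ => ∅) ≤
      cntO (kVF (2 * m) a) (disc 0 (2 ^ (k0 + 1))) (∅ : Finset ℕ) (fun _ => ∅) +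
      cntO (kVF (2 * m) a) Set.univ {()} (fun _ => disc 0 (2 ^ (k0 + 1))) := by
    intro a
    unfold cntO
    rw [← ENat.toENNReal_add]
    refine ENat.toENNReal_le.2 (le_trans (Set.encard_le_encard fun C hC => ?_)
      (Set.encard_union_le _ _))
    by_cases h : C ⊆ disc 0 (2 ^ (k0 + 1))
    · exact Or.inl ⟨hC.1, h, by simp⟩
    · exact Or.inr ⟨hC.1, hC.2.1, fun _ _ => h⟩
  refine (lintegral_mono hsplit).trans ?_
  rw [lintegral_add_left (km_measurable_cntO (2 * m) (isOpen_disc _ _) ∅ (by simp))]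
  refine (add_le_add (hmain (2 * m) (by omega) (k0 + 1)) (htail m hm k0 h1)).trans ?_
  rw [← ENNReal.ofReal_add (by positivity) (by positivity)]
  refine ENNReal.ofReal_le_ofReal ?_
  push_cast
  have h4 : C2 * (m : ℝ) ^ 11 * (k0 + 1) / 2 ^ k0 ≤ C2 := by
    have : C2 * (m : ℝ) ^ 11 * (k0 + 1) / 2 ^ k0 = C2 * ((m : ℝ) ^ 11 * (k0 + 1) / 2 ^ k0) := by
      ring
    rw [this]
    exact mul_le_of_le_one_right hC2 h2
  calc C1 * (2 * m) * (k0 + 1 + 1) + (C2 * m + C2 * m ^ 11 * (k0 + 1) / 2 ^ k0)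
      ≤ C1 * (2 * m) * (B * (1 + Real.log m) + 1 + 1) + (C2 * m + C2) := by gcongr
    _ ≤ C1 * (2 * m) * ((B + 2) * (1 + Real.log m)) + (C2 * m + C2 * m) := by
        gcongr
        · nlinarith
        · nlinarith
    _ ≤ C1 * (2 * m) * ((B + 2) * (1 + Real.log m)) + 2 * C2 * m * (1 + Real.log m) := by
        gcongr
        have : 0 ≤ C2 * m := by positivity
        nlinarith
    _ = (2 * C1 * (B + 2) + 2 * C2) * m * (1 + Real.log m) := by ring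

end Pool.Agent.Lib.MP_95e7ec_an
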