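import Mathlib
import Pool.Agent.Lib.MP_95e7ec_an.AvgDefs

/-!
# A point of maximal norm of a closed orbit and the opposite crossing of its ray
-/

set_option autoImplicit false

open Set Filter Topology MeasureTheory

namespace Pool.Agent.Lib.MP_95e7ec_an

/-- a function vanishing at `a` and `b > a` with positive derivative at `a` has a zero in `(a,b]`
with nonpositive derivative, provided the derivative exists everywhere -/
theorem kpAct_zero {g g' : ℝ → ℝ} (hd : ∀ t, HasDerivAt g (g' t) t) {a b : ℝ} (hab : a < b)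
    (ha : g a = 0) (hb : g b = 0) (hpos : 0 < g' a) : ∃ t, g t = 0 ∧ g' t ≤ 0 := by
  have hcont : Continuous g := continuous_iff_continuousAt.2 fun t => (hd t).continuousAt
  have h1 : ∀ᶠ x in 𝓝 a, SignType.sign (g x) = SignType.sign (x - a) :=
    eventually_nhdsWithin_sign_eq_of_deriv_pos (by rw [(hd a).deriv]; exact hpos) ha
  obtain ⟨δ, hδ, hball⟩ := Metric.eventually_nhds_iff.1 h1
  set d := min (δ / 2) ((b - a) / 2) with hdd
  have hd0 : 0 < d := lt_min (by linarith) (by linarith)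
  have hd1 : d ≤ δ / 2 := min_le_left _ _
  have hd2 : d ≤ (b - a) / 2 := min_le_right _ _
  have hgd : 0 < g (a + d) := by
    have h2 := hball (y := a + d) (by
      rw [Real.dist_eq, add_sub_cancel_left, abs_of_pos hd0]; linarith)
    rw [add_sub_cancel_left, sign_pos hd0] at h2
    exact sign_eq_one_iff.1 h2
  set S : Set ℝ := Icc (a + d) b ∩ {t | g t ≤ 0} with hS
  have hSc : IsClosed S := isClosed_Icc.inter (isClosed_le hcont continuous_const)
  have hSne : S.Nonempty := ⟨b, ⟨by linarith, le_rfl⟩, by rw [mem_ofPred_eq, hb]⟩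
  have hSb : BddBelow S := ⟨a + d, fun t ht => ht.1.1⟩
  have hmem : sInf S ∈ S := hSc.csInf_mem hSne hSb
  set t₁ := sInf S with ht₁
  have hlt : a + d < t₁ := by
    rcases lt_or_eq_of_le hmem.1.1 with h | h
    · exact h
    · exfalso
      have : g t₁ ≤ 0 := hmem.2
      rw [← h] at this
      linarith
  have hbefore : ∀ t, a + d ≤ t → t < t₁ → 0 < g t := by
    intro t h2 h3
    by_contra hcon
    rw [not_lt] at hcon
    have : t₁ ≤ t := csInf_le hSb ⟨⟨h2, by linarith [hmem.1.2]⟩, hcon⟩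
    linarith
  have hg0 : g t₁ = 0 := by
    refine le_antisymm hmem.2 ?_
    have hcl : t₁ ∈ closure (Ioo (a + d) t₁) := by
      rw [closure_Ioo hlt.ne]
      exact right_mem_Icc.2 hlt.le
    have hsub : closure (Ioo (a + d) t₁) ⊆ {t | 0 ≤ g t} := by
      apply closure_minimal _ (isClosed_le continuous_const hcont)
      intro t ht
      exact (hbefore t ht.1.le ht.2).le
    exact hsub hcl
  refine ⟨t₁, hg0, ?_⟩
  by_contra hcon
  rw [not_le] at hcon
  have h2 : ∀ᶠ x in 𝓝 t₁, SignType.sign (g x) = SignType.sign (x - t₁) :=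
    eventually_nhdsWithin_sign_eq_of_deriv_pos (by rw [(hd t₁).deriv]; exact hcon) hg0
  obtain ⟨δ', hδ', hball'⟩ := Metric.eventually_nhds_iff.1 h2
  set c := min (δ' / 2) (t₁ - (a + d)) with hc
  have hc0 : 0 < c := lt_min (by linarith) (by linarith)
  have hc1 : c ≤ δ' / 2 := min_le_left _ _
  have hc2 : c ≤ t₁ - (a + d) := min_le_right _ _
  have h3 := hball' (y := t₁ - c) (by
    rw [Real.dist_eq, show t₁ - c - t₁ = -c by ring, abs_neg, abs_of_pos hc0]; linarith)
  rw [show t₁ - c - t₁ = -c by ring, sign_neg (by linarith : -c < 0)] at h3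
  have h4 := sign_eq_neg_one_iff.1 h3
  have h5 := hbefore (t₁ - c) (by linarith) (by linarith)
  linarith

theorem act_exists {v : ℝ × ℝ → ℝ × ℝ} {C : Set (ℝ × ℝ)} (hC : IsClosedOrbit v C)
    (hpos : ∀ p ∈ C, ∀ z ∈ C, 0 < dot p z) :
    ∃ p ∈ C, (∀ z ∈ C, nm z ≤ nm p) ∧ ∃ lam : ℝ, 0 < lam ∧ lam • p ∈ C ∧
      ∀ κ : ℝ, 0 ≤ κ → nm (v p) ≤ nm (v p - κ • v (lam • p)) := by
  obtain ⟨γ, T, hT, hd, hper, -, rfl⟩ := hC
  have hcont : Continuous γ := continuous_iff_continuousAt.2 fun t => (hd t).continuousAt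
  -- the point of maximal norm
  set F : ℝ → ℝ := fun t => (γ t).1 ^ 2 + (γ t).2 ^ 2 with hF
  have hFc : Continuous F := by
    have h1 : Continuous fun t => (γ t).1 := continuous_fst.comp hcont
    have h2 : Continuous fun t => (γ t).2 := continuous_snd.comp hcont
    exact (h1.pow 2).add (h2.pow 2)
  have hFper : Function.Periodic F T := fun t => by simp only [hF, hper]
  obtain ⟨t₀, ht₀⟩ : ∃ t₀, ∀ t, F t ≤ F t₀ := by
    obtain ⟨t₀, _, hmax⟩ := (isCompact_Icc (a := (0 : ℝ)) (b := T)).exists_isMaxOn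
      ⟨0, left_mem_Icc.2 hT.le⟩ hFc.continuousOn
    refine ⟨t₀, fun t => ?_⟩
    obtain ⟨y, hy, hyt⟩ := hFper.exists_mem_Ico₀ hT t
    rw [hyt]
    exact hmax (Ico_subset_Icc_self hy)
  set p := γ t₀ with hp
  have hγ1 : ∀ t, HasDerivAt (fun t => (γ t).1) (v (γ t)).1 t := fun t => (hd t).fst
  have hγ2 : ∀ t, HasDerivAt (fun t => (γ t).2) (v (γ t)).2 t := fun t => (hd t).snd
  have hort : dot p (v p) = 0 := by
    have h1 : HasDerivAt F (2 * (γ t₀).1 * (v (γ t₀)).1 + 2 * (γ t₀).2 * (v (γ t₀)).2) t₀ := by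
      have := ((hγ1 t₀).pow 2).add ((hγ2 t₀).pow 2)
      refine this.congr_deriv ?_
      push_cast
      ring
    have h2 : IsLocalMax F t₀ := Eventually.of_forall ht₀
    have h3 := h2.hasDerivAt_eq_zero h1
    unfold dot
    rw [hp]
    linarith
  have hpp : 0 < dot p p := hpos p ⟨t₀, rfl⟩ p ⟨t₀, rfl⟩
  refine ⟨p, ⟨t₀, rfl⟩, ?_, ?_⟩
  · rintro z ⟨t, rfl⟩
    exact Real.sqrt_le_sqrt (ht₀ t)
  by_cases hv : det2 p (v p) = 0
  · -- the field vanishes at `p`
    refine ⟨1, one_pos, by rw [one_smul]; exact ⟨t₀, rfl⟩, fun κ _ => ?_⟩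
    have h0 : nm (v p) = 0 := by
      have e : dot p p * ((v p).1 ^ 2 + (v p).2 ^ 2) = det2 p (v p) ^ 2 + dot p (v p) ^ 2 := by
        unfold dot det2; ring
      rw [hv, hort] at e
      have e2 : (v p).1 ^ 2 + (v p).2 ^ 2 = 0 := by
        have : dot p p * ((v p).1 ^ 2 + (v p).2 ^ 2) = 0 := by rw [e]; norm_num
        rcases mul_eq_zero.1 this with h | h
        · exact absurd h hpp.ne'
        · exact h
      unfold nm
      rw [e2, Real.sqrt_zero]
    rw [h0]
    exact Real.sqrt_nonneg _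
  -- the next crossing
  have hf : ∀ t, HasDerivAt (fun t => det2 p (γ t)) (det2 p (v (γ t))) t := by
    intro t
    unfold det2
    exact ((hγ2 t).const_mul p.1).sub ((hγ1 t).const_mul p.2)
  have hex : ∃ t, det2 p (γ t) = 0 ∧ det2 p (v (γ t)) * det2 p (v p) ≤ 0 := by
    have hz : det2 p p = 0 := by unfold det2; ring
    have hzT : det2 p (γ (t₀ + T)) = 0 := by rw [hper, ← hp]; exact hz
    rcases lt_or_gt_of_ne hv with h | h
    · obtain ⟨t, h1, h2⟩ := kpAct_zero (g := fun t => -det2 p (γ t))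
        (g' := fun t => -det2 p (v (γ t))) (fun t => (hf t).neg)
        (show t₀ < t₀ + T by linarith) (by simp only [← hp, hz, neg_zero])
        (by simp only [hzT, neg_zero]) (by simp only [← hp]; linarith)
      refine ⟨t, by simpa using h1, ?_⟩
      have h3 : 0 ≤ det2 p (v (γ t)) := by simpa using h2
      nlinarith
    · obtain ⟨t, h1, h2⟩ := kpAct_zero (g := fun t => det2 p (γ t))
        (g' := fun t => det2 p (v (γ t))) hf
        (show t₀ < t₀ + T by linarith) (by simp only [← hp, hz])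
        hzT (by simp only [← hp]; linarith)
      exact ⟨t, h1, by nlinarith⟩
  obtain ⟨t₁, h1, h2⟩ := hex
  set z := γ t₁ with hz
  have hpz : 0 < dot p z := hpos p ⟨t₀, rfl⟩ z ⟨t₁, rfl⟩
  have hlam : (dot p z / dot p p) • p = z := by
    have e1 : p.1 * z.2 = p.2 * z.1 := by unfold det2 at h1; linarith
    ext
    · rw [Prod.smul_fst, smul_eq_mul, div_mul_eq_mul_div, div_eq_iff hpp.ne']
      unfold dot
      linear_combination p.2 * e1
    · rw [Prod.smul_snd, smul_eq_mul, div_mul_eq_mul_div, div_eq_iff hpp.ne']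
      unfold dot
      linear_combination (-p.1) * e1
  refine ⟨dot p z / dot p p, div_pos hpz hpp, by rw [hlam]; exact ⟨t₁, rfl⟩, fun κ hκ => ?_⟩
  rw [hlam]
  have h3 : dot (v p) (v z) ≤ 0 := by
    have e : dot p p * dot (v p) (v z) = det2 p (v z) * det2 p (v p) +
        dot p (v p) * dot p (v z) := by
      unfold dot det2; ring
    rw [hort, zero_mul, add_zero] at e
    by_contra hcon
    rw [not_le] at hcon
    have := mul_pos hpp hcon
    linarith
  unfold nm
  apply Real.sqrt_le_sqrt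
  have e : (v p - κ • v z).1 ^ 2 + (v p - κ • v z).2 ^ 2 = (v p).1 ^ 2 + (v p).2 ^ 2 -
      2 * κ * dot (v p) (v z) + κ ^ 2 * ((v z).1 ^ 2 + (v z).2 ^ 2) := by
    simp only [Prod.fst_sub, Prod.snd_sub, Prod.smul_fst, Prod.smul_snd, smul_eq_mul]
    unfold dot
    ring
  rw [e]
  have h4 : 0 ≤ κ ^ 2 * ((v z).1 ^ 2 + (v z).2 ^ 2) := by positivity
  nlinarith [mul_nonneg hκ (neg_nonneg.2 h3)]

end Pool.Agent.Lib.MP_95e7ec_an
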