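import Mathlib
import Pool.Agent.Lib.MP_95e7ec_an.KpDefs
import Pool.Agent.Lib.MP_95e7ec_an.KosKernel

/-!
# Kostlan random fields: the kernel in the projective chart
-/

set_option autoImplicit false

open Set Filter Topology MeasureTheory ProbabilityTheory
open scoped ContDiff ENNReal

namespace Pool.Agent.Lib.MP_95e7ec_an

/-- the homogeneous multinomial theorem -/
theorem kpKernel_multinomial {R : Type*} [Field R] [CharZero R] (n : ℕ) (x A B : R) :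
    ∑ p : KIdx n, ((n.factorial : R) / ((p.1.1 : ℕ).factorial * (p.1.2 : ℕ).factorial *
      (n - (p.1.1 : ℕ) - (p.1.2 : ℕ)).factorial)) *
      (x ^ (n - (p.1.1 : ℕ) - (p.1.2 : ℕ)) * (A ^ (p.1.1 : ℕ) * B ^ (p.1.2 : ℕ))) =
      (x + A + B) ^ n := by
  classical
  have h1 : ∑ p : KIdx n, ((n.factorial : R) / ((p.1.1 : ℕ).factorial * (p.1.2 : ℕ).factorial *
      (n - (p.1.1 : ℕ) - (p.1.2 : ℕ)).factorial)) *
      (x ^ (n - (p.1.1 : ℕ) - (p.1.2 : ℕ)) * (A ^ (p.1.1 : ℕ) * B ^ (p.1.2 : ℕ))) =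
      ∑ p : KIdx n, (fun i j : ℕ => ((n.choose i : R) * ((n - i).choose j : R)) *
        (x ^ (n - i - j) * (A ^ i * B ^ j))) (p.1.1 : ℕ) (p.1.2 : ℕ) := by
    refine Finset.sum_congr rfl fun p _ => ?_
    show _ = ((n.choose (p.1.1 : ℕ) : R) * ((n - (p.1.1 : ℕ)).choose (p.1.2 : ℕ) : R)) *
        (x ^ (n - (p.1.1 : ℕ) - (p.1.2 : ℕ)) * (A ^ (p.1.1 : ℕ) * B ^ (p.1.2 : ℕ)))
    rw [KosKernel_choose p.2]
  rw [h1, KosKernel_sum_idx n (fun i j : ℕ => ((n.choose i : R) * ((n - i).choose j : R)) *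
        (x ^ (n - i - j) * (A ^ i * B ^ j)))]
  · have h2 : ∀ i ∈ Finset.range (n + 1), ∑ j ∈ Finset.range (n + 1),
        ((n.choose i : R) * ((n - i).choose j : R)) * (x ^ (n - i - j) * (A ^ i * B ^ j)) =
        A ^ i * (x + B) ^ (n - i) * (n.choose i : R) := by
      intro i hi
      rw [Finset.mem_range] at hi
      have h3 : ∑ j ∈ Finset.range (n + 1),
          ((n.choose i : R) * ((n - i).choose j : R)) * (x ^ (n - i - j) * (A ^ i * B ^ j)) =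
          ∑ j ∈ Finset.range (n - i + 1),
          ((n.choose i : R) * ((n - i).choose j : R)) * (x ^ (n - i - j) * (A ^ i * B ^ j)) := by
        symm
        apply Finset.sum_subset
        · intro j hj
          rw [Finset.mem_range] at hj ⊢
          omega
        · intro j _ hj
          rw [Finset.mem_range] at hj
          rw [Nat.choose_eq_zero_of_lt (show n - i < j by omega)]
          simp
      rw [h3, add_comm x B, add_pow B x (n - i), Finset.mul_sum, Finset.sum_mul]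
      refine Finset.sum_congr rfl fun j _ => ?_
      ring
    rw [Finset.sum_congr rfl h2, ← add_pow, add_comm A, add_assoc, add_assoc, add_comm B A]
  · intro i j hij
    by_cases hi : n < i
    · rw [Nat.choose_eq_zero_of_lt hi]
      simp
    · rw [Nat.choose_eq_zero_of_lt (show n - i < j by omega)]
      simp

theorem kpKernel_lower (z0 : ℝ × ℝ) {u : ℂ} (hu : ‖u‖ ≤ sq1 z0 / 4) :
    3 * sq1 z0 ^ 2 / 4 ≤ ‖((sq1 z0 : ℝ) : ℂ) ^ 2 - u‖ := by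
  have hs := KosKernel_one_le z0
  have h1 := norm_sub_norm_le (((sq1 z0 : ℝ) : ℂ) ^ 2) u
  rw [norm_pow, Complex.norm_real, Real.norm_eq_abs, abs_of_nonneg (by linarith)] at h1
  nlinarith

theorem kGd_ne_zero (n : ℕ) (z0 : ℝ × ℝ) {u : ℂ} (hu : ‖u‖ ≤ sq1 z0 / 4) : kGd n z0 u ≠ 0 := by
  have hs := KosKernel_one_le z0
  have h := kpKernel_lower z0 hu
  have h3 : ((sq1 z0 : ℝ) : ℂ) ^ 2 - u ≠ 0 := by
    intro h0
    rw [h0, norm_zero] at h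
    nlinarith
  have h4 : ((sq1 z0 : ℝ) : ℂ) ≠ 0 := by
    rw [Complex.ofReal_ne_zero]
    linarith
  exact pow_ne_zero _ (div_ne_zero h3 h4)

theorem kpKernel_hev_add (n : ℕ) (b v : KIdx n → ℝ) (t : ℝ) (x0 x1 x2 : ℂ) :
    hev n (fun p => b p + v p * t) x0 x1 x2 = hev n b x0 x1 x2 + t * hev n v x0 x1 x2 := by
  unfold hev
  rw [Finset.mul_sum, ← Finset.sum_add_distrib]
  refine Finset.sum_congr rfl fun p _ => ?_
  push_cast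
  ring

theorem kG_add (n : ℕ) (z0 : ℝ × ℝ) (b v : KIdx n → ℝ) (t : ℝ) (ζ : ℂ × ℂ) :
    kG n z0 (fun p => b p + v p * t) ζ = kG n z0 b ζ + t * kG n z0 v ζ := by
  unfold kG
  rw [kpKernel_hev_add, add_div, mul_div_assoc]

theorem kpKernel_eth (z0 : ℝ × ℝ) : z0.1 * (eth z0).1 + z0.2 * (eth z0).2 = 0 := by
  unfold eth
  ring

theorem kpKernel_eth_sq {z0 : ℝ × ℝ} (h0 : 0 < nm z0) :
    (eth z0).1 ^ 2 + (eth z0).2 ^ 2 = 1 := by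
  have h1 : nm z0 ^ 2 = z0.1 ^ 2 + z0.2 ^ 2 := by
    unfold nm
    rw [Real.sq_sqrt (by positivity)]
  unfold eth
  simp only [div_pow]
  rw [← add_div, neg_sq, add_comm, ← h1]
  exact div_self (by positivity)

theorem kpKernel_hev_kdir (n : ℕ) (z0 : ℝ × ℝ) (x0 x1 x2 : ℂ) :
    hev n (kdir n z0) x0 x1 x2 =
      (x0 + (z0.1 : ℂ) * x1 + (z0.2 : ℂ) * x2) ^ n / ((sq1 z0 : ℝ) : ℂ) ^ n := by
  unfold hev
  rw [← kpKernel_multinomial n x0 ((z0.1 : ℂ) * x1) ((z0.2 : ℂ) * x2), Finset.sum_div]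
  refine Finset.sum_congr rfl fun p _ => ?_
  have h : ((kw n p * kdir n z0 p : ℝ) : ℂ) = ((n.factorial : ℂ) / ((p.1.1 : ℕ).factorial *
      (p.1.2 : ℕ).factorial * (n - (p.1.1 : ℕ) - (p.1.2 : ℕ)).factorial)) *
      ((z0.1 : ℂ) ^ (p.1.1 : ℕ) * (z0.2 : ℂ) ^ (p.1.2 : ℕ)) / ((sq1 z0 : ℝ) : ℂ) ^ n := by
    have h1 : kw n p * kdir n z0 p = ((n.factorial : ℝ) / ((p.1.1 : ℕ).factorial *
      (p.1.2 : ℕ).factorial * (n - (p.1.1 : ℕ) - (p.1.2 : ℕ)).factorial)) *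
      (z0.1 ^ (p.1.1 : ℕ) * z0.2 ^ (p.1.2 : ℕ)) / sq1 z0 ^ n := by
      rw [← KosKernel_kw_sq]
      unfold kdir
      ring
    rw [h1]
    push_cast
    rfl
  rw [h, mul_pow, mul_pow]
  ring

theorem kpKernel_lin (z0 : ℝ × ℝ) (ζ : ℂ × ℂ) :
    1 - ζ.1 + (z0.1 : ℂ) * ((z0.1 : ℂ) + ζ.2 * ((eth z0).1 : ℂ)) +
      (z0.2 : ℂ) * ((z0.2 : ℂ) + ζ.2 * ((eth z0).2 : ℂ)) = ((sq1 z0 : ℝ) : ℂ) ^ 2 - ζ.1 := by
  have h1 : ((sq1 z0 : ℝ) : ℂ) ^ 2 = 1 + ((z0.1 : ℂ) ^ 2 + (z0.2 : ℂ) ^ 2) := by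
    rw [← Complex.ofReal_pow, KosKernel_sq1_sq]
    push_cast
    ring
  have h2 : (z0.1 : ℂ) * ((eth z0).1 : ℂ) + (z0.2 : ℂ) * ((eth z0).2 : ℂ) = 0 := by
    have := kpKernel_eth z0
    exact_mod_cast this
  rw [h1]
  linear_combination ζ.2 * h2

theorem kG_kdir (n : ℕ) {z0 : ℝ × ℝ} (h0 : 0 < nm z0) {ζ : ℂ × ℂ} (h : ‖ζ.1‖ ≤ sq1 z0 / 4) :
    kG n z0 (kdir n z0) ζ = 1 := by
  have _ := h0
  unfold kG
  rw [kpKernel_hev_kdir, kpKernel_lin, ← div_pow]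
  exact div_self (kGd_ne_zero n z0 h)

theorem kG_real (n : ℕ) {z0 : ℝ × ℝ} (h0 : 0 < nm z0) (b : KIdx n → ℝ) {u w : ℝ} (hu : u < 1)
    {z : ℝ × ℝ} (hz : z = (1 - u)⁻¹ • (z0 + w • eth z0)) :
    kG n z0 b ((u : ℂ), (w : ℂ)) =
      ((MvPolynomial.eval ![z.1, z.2] (kPoly n b) / kW n z0 z : ℝ) : ℂ) := by
  have _ := h0
  have hs := KosKernel_one_le z0
  have hu' : (1 - u) ≠ 0 := by linarith
  have hz1 : z0.1 + w * (eth z0).1 = (1 - u) * z.1 := by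
    rw [hz]
    simp only [Prod.smul_fst, Prod.fst_add, smul_eq_mul]
    field_simp
  have hz2 : z0.2 + w * (eth z0).2 = (1 - u) * z.2 := by
    rw [hz]
    simp only [Prod.smul_snd, Prod.snd_add, smul_eq_mul]
    field_simp
  have hhev : hev n b (1 - (u : ℂ)) ((z0.1 : ℂ) + (w : ℂ) * ((eth z0).1 : ℂ))
      ((z0.2 : ℂ) + (w : ℂ) * ((eth z0).2 : ℂ)) =
      (((1 - u) ^ n * MvPolynomial.eval ![z.1, z.2] (kPoly n b) : ℝ) : ℂ) := by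
    rw [KosKernel_eval]
    unfold hev
    have e1 : (z0.1 : ℂ) + (w : ℂ) * ((eth z0).1 : ℂ) = (((1 - u) * z.1 : ℝ) : ℂ) := by
      rw [← hz1]; push_cast; ring
    have e2 : (z0.2 : ℂ) + (w : ℂ) * ((eth z0).2 : ℂ) = (((1 - u) * z.2 : ℝ) : ℂ) := by
      rw [← hz2]; push_cast; ring
    have e3 : (1 : ℂ) - (u : ℂ) = ((1 - u : ℝ) : ℂ) := by push_cast; ring
    rw [e1, e2, e3, Finset.mul_sum]
    push_cast
    refine Finset.sum_congr rfl fun p _ => ?_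
    have hp : n = (n - (p.1.1 : ℕ) - (p.1.2 : ℕ)) + (p.1.1 : ℕ) + (p.1.2 : ℕ) := by
      have := p.2
      omega
    have e4 : (1 - (u : ℂ)) ^ n = (1 - (u : ℂ)) ^ (n - (p.1.1 : ℕ) - (p.1.2 : ℕ)) *
        (1 - (u : ℂ)) ^ (p.1.1 : ℕ) * (1 - (u : ℂ)) ^ (p.1.2 : ℕ) := by
      rw [← pow_add, ← pow_add, ← hp]
    rw [e4, mul_pow, mul_pow]
    ring
  have hlin : 1 + z0.1 * z.1 + z0.2 * z.2 = (sq1 z0 ^ 2 - u) / (1 - u) := by
    rw [eq_div_iff hu', KosKernel_sq1_sq]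
    have h := kpKernel_eth z0
    linear_combination (-z0.1) * hz1 - z0.2 * hz2 + w * h
  have hpos : 0 < sq1 z0 ^ 2 - u := by nlinarith
  have hkw : kW n z0 z = ((sq1 z0 ^ 2 - u) / sq1 z0) ^ n / (1 - u) ^ n := by
    unfold kW
    rw [hlin, ← div_pow, ← div_pow]
    congr 1
    field_simp
  have hgd : kGd n z0 (u : ℂ) = ((((sq1 z0 ^ 2 - u) / sq1 z0) ^ n : ℝ) : ℂ) := by
    unfold kGd
    push_cast
    rfl
  unfold kG
  simp only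
  rw [hhev, hgd, hkw, ← Complex.ofReal_div]
  congr 1
  have h5 : ((sq1 z0 ^ 2 - u) / sq1 z0) ^ n ≠ 0 := by positivity
  have h6 : (1 - u) ^ n ≠ 0 := pow_ne_zero _ hu'
  field_simp

theorem kG_var {n : ℕ} (hn : 1 ≤ n) {z0 : ℝ × ℝ} (h0 : 0 < nm z0) {ρ : ℝ} (hρ : 0 ≤ ρ)
    (hρn : ρ ^ 2 * n ≤ sq1 z0 ^ 2 / 16) {ζ : ℂ × ℂ} (h1 : ‖ζ.1‖ ≤ ρ) (h2 : ‖ζ.2‖ ≤ ρ) :
    ∑ p : KIdx n, ‖((kw n p : ℝ) : ℂ) * ((1 - ζ.1) ^ (n - (p.1.1 : ℕ) - (p.1.2 : ℕ)) *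
      (((z0.1 : ℂ) + ζ.2 * ((eth z0).1 : ℂ)) ^ (p.1.1 : ℕ) *
        ((z0.2 : ℂ) + ζ.2 * ((eth z0).2 : ℂ)) ^ (p.1.2 : ℕ))) / kGd n z0 ζ.1‖ ^ 2 ≤ 2 := by
  have hs := KosKernel_one_le z0
  have hn' : (1 : ℝ) ≤ n := by exact_mod_cast hn
  have hρs : ρ ≤ sq1 z0 / 4 := by
    have : ρ ^ 2 ≤ (sq1 z0 / 4) ^ 2 := by nlinarith [sq_nonneg ρ]
    exact le_of_sq_le_sq this (by linarith)
  have hlow := kpKernel_lower z0 (h1.trans hρs)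
  set N : ℝ := ‖((sq1 z0 : ℝ) : ℂ) ^ 2 - ζ.1‖ with hN
  have hNpos : 0 < N := by nlinarith
  set x1 : ℂ := (z0.1 : ℂ) + ζ.2 * ((eth z0).1 : ℂ) with hx1
  set x2 : ℂ := (z0.2 : ℂ) + ζ.2 * ((eth z0).2 : ℂ) with hx2
  have hterm : ∀ p : KIdx n, ‖((kw n p : ℝ) : ℂ) * ((1 - ζ.1) ^ (n - (p.1.1 : ℕ) - (p.1.2 : ℕ)) *
      (x1 ^ (p.1.1 : ℕ) * x2 ^ (p.1.2 : ℕ))) / kGd n z0 ζ.1‖ ^ 2 =
      ((n.factorial : ℝ) / ((p.1.1 : ℕ).factorial *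
      (p.1.2 : ℕ).factorial * (n - (p.1.1 : ℕ) - (p.1.2 : ℕ)).factorial)) *
      ((‖1 - ζ.1‖ ^ 2) ^ (n - (p.1.1 : ℕ) - (p.1.2 : ℕ)) *
      ((‖x1‖ ^ 2) ^ (p.1.1 : ℕ) * (‖x2‖ ^ 2) ^ (p.1.2 : ℕ))) / ‖kGd n z0 ζ.1‖ ^ 2 := by
    intro p
    rw [norm_div, norm_mul, norm_mul, norm_mul, norm_pow, norm_pow, norm_pow, Complex.norm_real,
      div_pow, mul_pow, mul_pow, mul_pow, Real.norm_eq_abs, sq_abs, KosKernel_kw_sq]
    ring_nf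
  rw [Finset.sum_congr rfl fun p _ => hterm p, ← Finset.sum_div, kpKernel_multinomial]
  have hk : ‖kGd n z0 ζ.1‖ ^ 2 = (N ^ 2 / sq1 z0 ^ 2) ^ n := by
    unfold kGd
    rw [norm_pow, norm_div, Complex.norm_real, Real.norm_eq_abs,
      abs_of_nonneg (by linarith : (0 : ℝ) ≤ sq1 z0), ← hN, ← pow_mul, mul_comm n 2, pow_mul,
      div_pow]
  have hq : 0 < N ^ 2 / sq1 z0 ^ 2 := by positivity
  have hsum : ‖1 - ζ.1‖ ^ 2 + ‖x1‖ ^ 2 + ‖x2‖ ^ 2 =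
      sq1 z0 ^ 2 - 2 * ζ.1.re + ‖ζ.1‖ ^ 2 + ‖ζ.2‖ ^ 2 := by
    have e1 := kpKernel_eth z0
    have e2 := kpKernel_eth_sq h0
    rw [KosKernel_sq1_sq, Complex.sq_norm, Complex.sq_norm, Complex.sq_norm, Complex.sq_norm,
      Complex.sq_norm, Complex.normSq_apply, Complex.normSq_apply, Complex.normSq_apply,
      Complex.normSq_apply, Complex.normSq_apply, hx1, hx2]
    simp only [Complex.add_re, Complex.add_im, Complex.one_re, Complex.one_im, Complex.mul_re,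
      Complex.mul_im, Complex.ofReal_re, Complex.ofReal_im, Complex.sub_re, Complex.sub_im]
    linear_combination 2 * ζ.2.re * e1 + (ζ.2.re ^ 2 + ζ.2.im ^ 2) * e2
  have hNsq : N ^ 2 / sq1 z0 ^ 2 = sq1 z0 ^ 2 - 2 * ζ.1.re + ‖ζ.1‖ ^ 2 / sq1 z0 ^ 2 := by
    have e1 : N ^ 2 = sq1 z0 ^ 4 - 2 * sq1 z0 ^ 2 * ζ.1.re + ‖ζ.1‖ ^ 2 := by
      rw [hN, ← Complex.ofReal_pow, Complex.sq_norm, Complex.sq_norm, Complex.normSq_apply,
        Complex.normSq_apply]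
      simp only [Complex.sub_re, Complex.sub_im, Complex.ofReal_re, Complex.ofReal_im]
      ring
    rw [e1]
    field_simp
  have hratio : (‖1 - ζ.1‖ ^ 2 + ‖x1‖ ^ 2 + ‖x2‖ ^ 2) / (N ^ 2 / sq1 z0 ^ 2) ≤
      1 + 1 / (2 * n) := by
    rw [div_le_iff₀ hq]
    have e1 : ‖ζ.1‖ ^ 2 + ‖ζ.2‖ ^ 2 ≤ 2 * ρ ^ 2 := by
      have := pow_le_pow_left₀ (norm_nonneg _) h1 2
      have := pow_le_pow_left₀ (norm_nonneg _) h2 2
      linarith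
    have e2 : 2 * ρ ^ 2 ≤ sq1 z0 ^ 2 / (8 * n) := by
      rw [le_div_iff₀ (by positivity)]
      nlinarith
    have e3 : ‖1 - ζ.1‖ ^ 2 + ‖x1‖ ^ 2 + ‖x2‖ ^ 2 ≤ N ^ 2 / sq1 z0 ^ 2 + 2 * ρ ^ 2 := by
      rw [hsum, hNsq]
      have : 0 ≤ ‖ζ.1‖ ^ 2 / sq1 z0 ^ 2 := by positivity
      linarith
    have e4 : sq1 z0 ^ 2 / 4 ≤ N ^ 2 / sq1 z0 ^ 2 := by
      rw [le_div_iff₀ (by positivity)]
      have : (3 * sq1 z0 ^ 2 / 4) ^ 2 ≤ N ^ 2 := pow_le_pow_left₀ (by positivity) hlow 2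
      nlinarith [sq_nonneg (sq1 z0 ^ 2)]
    have e5 : sq1 z0 ^ 2 / (8 * n) = (1 / (2 * n)) * (sq1 z0 ^ 2 / 4) := by
      field_simp
      ring
    have e6 : (1 / (2 * n)) * (sq1 z0 ^ 2 / 4) ≤ (1 / (2 * n)) * (N ^ 2 / sq1 z0 ^ 2) :=
      mul_le_mul_of_nonneg_left e4 (by positivity)
    nlinarith
  rw [hk, ← div_pow]
  have hq0 : 0 ≤ (‖1 - ζ.1‖ ^ 2 + ‖x1‖ ^ 2 + ‖x2‖ ^ 2) / (N ^ 2 / sq1 z0 ^ 2) := by positivity
  have hexp : (1 + 1 / (2 * (n : ℝ))) ^ n ≤ Real.exp (1 / 2) := by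
    have e1 : 1 + 1 / (2 * (n : ℝ)) ≤ Real.exp (1 / (2 * n)) := by
      have := Real.add_one_le_exp (1 / (2 * (n : ℝ)))
      linarith
    calc (1 + 1 / (2 * (n : ℝ))) ^ n ≤ (Real.exp (1 / (2 * n))) ^ n :=
          pow_le_pow_left₀ (by positivity) e1 n
      _ = Real.exp (1 / 2) := by
        rw [← Real.exp_nat_mul]
        congr 1
        field_simp
  have htwo : Real.exp (1 / 2) ≤ 2 := by
    have e1 : Real.exp (1 / 2) ^ 2 ≤ 2 ^ 2 := by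
      rw [← Real.exp_nat_mul]
      have : ((2 : ℕ) : ℝ) * (1 / 2) = 1 := by norm_num
      rw [this]
      have := Real.exp_one_lt_d9
      linarith
    exact le_of_sq_le_sq e1 (by norm_num)
  exact ((pow_le_pow_left₀ hq0 hratio n).trans hexp).trans htwo

end Pool.Agent.Lib.MP_95e7ec_an
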