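import Mathlib
import Pool.Agent.Lib.MP_95e7ec_an.KpDefs
import Pool.Agent.Lib.MP_95e7ec_an.KpKernel
import Pool.Agent.Lib.MP_95e7ec_an.KosMoment

/-!
# Kostlan fields, sharp count: the moments of the torus mean in the chart
-/

set_option autoImplicit false

open Set Filter Topology MeasureTheory ProbabilityTheory
open scoped ContDiff ENNReal

namespace Pool.Agent.Lib.MP_95e7ec_an

/-! ### the torus -/

private theorem two_pi_nn : (0 : ℝ) ≤ 2 * Real.pi := by positivity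

/-- the point of the torus -/
private noncomputable def tor (c : ℝ × ℝ) (ρ : ℝ) (x : ℝ × ℝ) : ℂ × ℂ :=
  (circleMap (c.1 : ℂ) ρ x.1, circleMap (c.2 : ℂ) ρ x.2)

private theorem continuous_tor (c : ℝ × ℝ) (ρ : ℝ) : Continuous (tor c ρ) :=
  ((continuous_circleMap _ _).comp continuous_fst).prodMk
    ((continuous_circleMap _ _).comp continuous_snd)

private theorem tmean_eq (f : ℂ × ℂ → ℝ) (c : ℝ × ℝ) (ρ : ℝ) :
    tmean f c ρ = (4 * Real.pi ^ 2)⁻¹ * ∫ θ in (0 : ℝ)..2 * Real.pi,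
      ∫ φ in (0 : ℝ)..2 * Real.pi, f (tor c ρ (θ, φ)) := rfl

private theorem tmean_nonneg' {f : ℂ × ℂ → ℝ} (hf : ∀ ζ, 0 ≤ f ζ) (c : ℝ × ℝ) (ρ : ℝ) :
    0 ≤ tmean f c ρ := by
  rw [tmean_eq]
  refine mul_nonneg (by positivity) ?_
  refine intervalIntegral.integral_nonneg two_pi_nn fun θ _ => ?_
  exact intervalIntegral.integral_nonneg two_pi_nn fun φ _ => hf _

private theorem tmean_mono' {f g : ℂ × ℂ → ℝ} {c : ℝ × ℝ} {ρ : ℝ}
    (hf : Continuous fun x : ℝ × ℝ => f (tor c ρ x))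
    (hg : Continuous fun x : ℝ × ℝ => g (tor c ρ x))
    (h : ∀ x, f (tor c ρ x) ≤ g (tor c ρ x)) : tmean f c ρ ≤ tmean g c ρ := by
  rw [tmean_eq, tmean_eq]
  refine mul_le_mul_of_nonneg_left ?_ (by positivity)
  have cf : Continuous fun θ : ℝ => ∫ φ in (0 : ℝ)..2 * Real.pi, f (tor c ρ (θ, φ)) :=
    intervalIntegral.continuous_parametric_intervalIntegral_of_continuous' hf 0 (2 * Real.pi)
  have cg : Continuous fun θ : ℝ => ∫ φ in (0 : ℝ)..2 * Real.pi, g (tor c ρ (θ, φ)) :=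
    intervalIntegral.continuous_parametric_intervalIntegral_of_continuous' hg 0 (2 * Real.pi)
  refine intervalIntegral.integral_mono two_pi_nn (cf.intervalIntegrable _ _)
    (cg.intervalIntegrable _ _) fun θ => ?_
  have cf2 : Continuous fun φ : ℝ => f (tor c ρ (θ, φ)) :=
    hf.comp (f := fun φ : ℝ => (θ, φ)) (by fun_prop)
  have cg2 : Continuous fun φ : ℝ => g (tor c ρ (θ, φ)) :=
    hg.comp (f := fun φ : ℝ => (θ, φ)) (by fun_prop)
  exact intervalIntegral.integral_mono two_pi_nn (cf2.intervalIntegrable _ _)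
    (cg2.intervalIntegrable _ _) fun φ => h _

private theorem tmean_add_const {f : ℂ × ℂ → ℝ} {c : ℝ × ℝ} {ρ : ℝ}
    (hf : Continuous fun x : ℝ × ℝ => f (tor c ρ x)) (m : ℝ) :
    tmean (fun ζ => f ζ + m) c ρ = tmean f c ρ + m := by
  have hpi := Real.pi_pos
  rw [tmean_eq, tmean_eq]
  have cf : Continuous fun θ : ℝ => ∫ φ in (0 : ℝ)..2 * Real.pi, f (tor c ρ (θ, φ)) :=
    intervalIntegral.continuous_parametric_intervalIntegral_of_continuous' hf 0 (2 * Real.pi)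
  have h1 : ∀ θ : ℝ, ∫ φ in (0 : ℝ)..2 * Real.pi, (f (tor c ρ (θ, φ)) + m)
      = (∫ φ in (0 : ℝ)..2 * Real.pi, f (tor c ρ (θ, φ))) + 2 * Real.pi * m := by
    intro θ
    have cf2 : Continuous fun φ : ℝ => f (tor c ρ (θ, φ)) :=
      hf.comp (f := fun φ : ℝ => (θ, φ)) (by fun_prop)
    rw [intervalIntegral.integral_add (cf2.intervalIntegrable _ _) (by simp)]
    simp
  simp only [h1]
  rw [intervalIntegral.integral_add (cf.intervalIntegrable _ _) (by simp)]
  simp only [intervalIntegral.integral_const, smul_eq_mul, sub_zero]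
  field_simp
  ring

private theorem tmean_const_mul (f : ℂ × ℂ → ℝ) (c : ℝ × ℝ) (ρ m : ℝ) :
    tmean (fun ζ => m * f ζ) c ρ = m * tmean f c ρ := by
  rw [tmean_eq, tmean_eq]
  simp only [intervalIntegral.integral_const_mul]
  ring

/-! ### Jensen's inequality -/

private theorem jensen4 {g : ℝ → ℝ} (hg : Continuous g) (h0 : ∀ θ, 0 ≤ g θ) :
    (∫ θ in (0 : ℝ)..2 * Real.pi, g θ) ^ 4 ≤
      (2 * Real.pi) ^ 3 * ∫ θ in (0 : ℝ)..2 * Real.pi, g θ ^ 4 := by
  have hpi := Real.pi_pos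
  set I : ℝ := ∫ θ in (0 : ℝ)..2 * Real.pi, g θ with hI
  set m : ℝ := I / (2 * Real.pi) with hm
  have hI0 : 0 ≤ I := intervalIntegral.integral_nonneg two_pi_nn fun θ _ => h0 θ
  have hm0 : 0 ≤ m := by positivity
  have hIm : I = 2 * Real.pi * m := by rw [hm]; field_simp
  have key : ∫ θ in (0 : ℝ)..2 * Real.pi, (m ^ 4 + 4 * m ^ 3 * (g θ - m)) ≤
      ∫ θ in (0 : ℝ)..2 * Real.pi, g θ ^ 4 := by
    refine intervalIntegral.integral_mono_on two_pi_nn
      (Continuous.intervalIntegrable (by fun_prop) _ _)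
      (Continuous.intervalIntegrable (by fun_prop) _ _) fun θ _ => ?_
    nlinarith [mul_nonneg (sq_nonneg (g θ - m))
      (show 0 ≤ g θ ^ 2 + 2 * m * g θ + 3 * m ^ 2 by have := h0 θ; positivity)]
  have hval : ∫ θ in (0 : ℝ)..2 * Real.pi, (m ^ 4 + 4 * m ^ 3 * (g θ - m)) =
      2 * Real.pi * m ^ 4 := by
    rw [intervalIntegral.integral_add (by simp) (Continuous.intervalIntegrable (by fun_prop) _ _),
      intervalIntegral.integral_const_mul, intervalIntegral.integral_sub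
      (Continuous.intervalIntegrable hg _ _) (by simp), ← hI]
    simp only [intervalIntegral.integral_const, smul_eq_mul, sub_zero]
    rw [hIm]; ring
  rw [hval] at key
  calc I ^ 4 = (2 * Real.pi) ^ 3 * (2 * Real.pi * m ^ 4) := by rw [hIm]; ring
    _ ≤ _ := mul_le_mul_of_nonneg_left key (by positivity)

private theorem tmean_jensen {f : ℂ × ℂ → ℝ} (c : ℝ × ℝ) (ρ : ℝ)
    (hc : Continuous fun x : ℝ × ℝ => f (tor c ρ x))
    (h0 : ∀ ζ, 0 ≤ f ζ) : tmean f c ρ ^ 4 ≤ (4 * Real.pi ^ 2)⁻¹ *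
      ∫ θ in (0 : ℝ)..2 * Real.pi, ∫ φ in (0 : ℝ)..2 * Real.pi, f (tor c ρ (θ, φ)) ^ 4 := by
  have hpi := Real.pi_pos
  rw [tmean_eq]
  set F : ℝ → ℝ → ℝ := fun θ φ => f (tor c ρ (θ, φ)) with hF
  have hFc : Continuous (Function.uncurry F) := hc
  have hG : Continuous fun θ => ∫ φ in (0 : ℝ)..2 * Real.pi, F θ φ :=
    intervalIntegral.continuous_parametric_intervalIntegral_of_continuous' hFc _ _
  have hG4 : Continuous fun θ => ∫ φ in (0 : ℝ)..2 * Real.pi, F θ φ ^ 4 :=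
    intervalIntegral.continuous_parametric_intervalIntegral_of_continuous'
      (f := fun θ φ => F θ φ ^ 4) (by
        have : Continuous fun x : ℝ × ℝ => (Function.uncurry F x) ^ 4 := hFc.pow 4
        exact this) _ _
  have hin : ∀ θ, (∫ φ in (0 : ℝ)..2 * Real.pi, F θ φ) ^ 4 ≤
      (2 * Real.pi) ^ 3 * ∫ φ in (0 : ℝ)..2 * Real.pi, F θ φ ^ 4 := fun θ =>
    jensen4 (hFc.comp (Continuous.prodMk continuous_const continuous_id)) fun φ => h0 _
  have hout := jensen4 hG fun θ => intervalIntegral.integral_nonneg two_pi_nn fun φ _ => h0 _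
  have hmono : ∫ θ in (0 : ℝ)..2 * Real.pi, (∫ φ in (0 : ℝ)..2 * Real.pi, F θ φ) ^ 4 ≤
      ∫ θ in (0 : ℝ)..2 * Real.pi, (2 * Real.pi) ^ 3 * ∫ φ in (0 : ℝ)..2 * Real.pi, F θ φ ^ 4 :=
    intervalIntegral.integral_mono_on two_pi_nn ((hG.pow 4).intervalIntegrable _ _)
      ((hG4.const_mul _).intervalIntegrable _ _) fun θ _ => hin θ
  rw [intervalIntegral.integral_const_mul] at hmono
  calc ((4 * Real.pi ^ 2)⁻¹ * ∫ θ in (0 : ℝ)..2 * Real.pi, ∫ φ in (0 : ℝ)..2 * Real.pi, F θ φ) ^ 4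
      = ((4 * Real.pi ^ 2)⁻¹) ^ 4 *
        (∫ θ in (0 : ℝ)..2 * Real.pi, ∫ φ in (0 : ℝ)..2 * Real.pi, F θ φ) ^ 4 := by ring
    _ ≤ ((4 * Real.pi ^ 2)⁻¹) ^ 4 * ((2 * Real.pi) ^ 3 * ((2 * Real.pi) ^ 3 *
        ∫ θ in (0 : ℝ)..2 * Real.pi, ∫ φ in (0 : ℝ)..2 * Real.pi, F θ φ ^ 4)) := by
        refine mul_le_mul_of_nonneg_left (hout.trans ?_) (by positivity)
        exact mul_le_mul_of_nonneg_left hmono (by positivity)
    _ = (4 * Real.pi ^ 2)⁻¹ *
        ∫ θ in (0 : ℝ)..2 * Real.pi, ∫ φ in (0 : ℝ)..2 * Real.pi, F θ φ ^ 4 := by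
        field_simp
        ring

/-! ### the fourth moment of a torus mean -/

private instance (n : ℕ) : IsProbabilityMeasure (kMeas n) := by
  unfold kMeas; infer_instance

private theorem meas_tmean {n : ℕ} {c : ℝ × ℝ} {ρ : ℝ} {F : KSp n → ℂ × ℂ → ℝ}
    (hm : Measurable fun x : KSp n × (ℝ × ℝ) => F x.1 (tor c ρ x.2)) :
    Measurable fun x : (KSp n × ℝ) × ℝ => F x.1.1 (tor c ρ (x.1.2, x.2)) := by
  have h0 : Measurable fun x : (KSp n × ℝ) × ℝ => x.1 := measurable_fst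
  have h1 : Measurable fun x : (KSp n × ℝ) × ℝ => x.1.1 := h0.fst
  have h2 : Measurable fun x : (KSp n × ℝ) × ℝ => x.1.2 := h0.snd
  have h3 : Measurable fun x : (KSp n × ℝ) × ℝ => x.2 := measurable_snd
  have h4 : Measurable fun x : (KSp n × ℝ) × ℝ => ((x.1.1, (x.1.2, x.2)) : KSp n × (ℝ × ℝ)) :=
    h1.prodMk (h2.prodMk h3)
  exact hm.comp h4

private theorem measurable_tmean {n : ℕ} {c : ℝ × ℝ} {ρ : ℝ} {F : KSp n → ℂ × ℂ → ℝ}
    (hm : Measurable fun x : KSp n × (ℝ × ℝ) => F x.1 (tor c ρ x.2)) :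
    Measurable fun a => tmean (F a) c ρ := by
  have h0 : (fun a => tmean (F a) c ρ) = fun a => (4 * Real.pi ^ 2)⁻¹ *
      ∫ θ in Ioc (0 : ℝ) (2 * Real.pi), ∫ φ in Ioc (0 : ℝ) (2 * Real.pi),
        F a (tor c ρ (θ, φ)) := by
    funext a
    rw [tmean_eq]
    simp only [intervalIntegral.integral_of_le two_pi_nn]
  rw [h0]
  refine Measurable.const_mul ?_ _
  have h := (meas_tmean hm).stronglyMeasurable
  have h2 : StronglyMeasurable fun y : KSp n × ℝ => ∫ φ in Ioc (0 : ℝ) (2 * Real.pi),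
      F y.1 (tor c ρ (y.2, φ)) :=
    h.integral_prod_right' (ν := volume.restrict (Ioc (0 : ℝ) (2 * Real.pi)))
  exact (h2.integral_prod_right' (ν := volume.restrict (Ioc (0 : ℝ) (2 * Real.pi)))).measurable

private theorem tmean_moment {n : ℕ} {c : ℝ × ℝ} {ρ : ℝ} {F : KSp n → ℂ × ℂ → ℝ}
    (hm : Measurable fun x : KSp n × (ℝ × ℝ) => F x.1 (tor c ρ x.2))
    (hc : ∀ a, Continuous fun x : ℝ × ℝ => F a (tor c ρ x)) (h0 : ∀ a ζ, 0 ≤ F a ζ)
    {M : ℝ} (hM : 0 ≤ M)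
    (h : ∀ x, ∫⁻ a, ENNReal.ofReal (F a (tor c ρ x) ^ 4) ∂kMeas n ≤ ENNReal.ofReal M) :
    ∫⁻ a, ENNReal.ofReal (tmean (F a) c ρ ^ 4) ∂kMeas n ≤ ENNReal.ofReal M := by
  have hpi := Real.pi_pos
  set ν : Measure ℝ := volume.restrict (Ioc (0 : ℝ) (2 * Real.pi)) with hν
  have hm3 : Measurable fun x : (KSp n × ℝ) × ℝ =>
      ENNReal.ofReal (F x.1.1 (tor c ρ (x.1.2, x.2)) ^ 4) :=
    ((meas_tmean hm).pow_const 4).ennreal_ofReal
  have hm2 : Measurable fun y : KSp n × ℝ =>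
      ∫⁻ φ, ENNReal.ofReal (F y.1 (tor c ρ (y.2, φ)) ^ 4) ∂ν := hm3.lintegral_prod_right'
  have hm1 : Measurable fun a : KSp n =>
      ∫⁻ θ, ∫⁻ φ, ENNReal.ofReal (F a (tor c ρ (θ, φ)) ^ 4) ∂ν ∂ν := hm2.lintegral_prod_right'
  have hν0 : ν univ = ENNReal.ofReal (2 * Real.pi) := by
    rw [hν, Measure.restrict_apply_univ, Real.volume_Ioc, sub_zero]
  have hpt : ∀ a : KSp n, ENNReal.ofReal (tmean (F a) c ρ ^ 4) ≤
      ENNReal.ofReal ((4 * Real.pi ^ 2)⁻¹) *
        ∫⁻ θ, ∫⁻ φ, ENNReal.ofReal (F a (tor c ρ (θ, φ)) ^ 4) ∂ν ∂ν := by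
    intro a
    have hJ := tmean_jensen c ρ (hc a) (h0 a)
    have hc4 : Continuous fun x : ℝ × ℝ => F a (tor c ρ x) ^ 4 := (hc a).pow 4
    have hG4 : Continuous fun θ => ∫ φ in (0 : ℝ)..2 * Real.pi, F a (tor c ρ (θ, φ)) ^ 4 :=
      intervalIntegral.continuous_parametric_intervalIntegral_of_continuous'
        (f := fun θ φ => F a (tor c ρ (θ, φ)) ^ 4) hc4 _ _
    have h00 := h0 a
    refine (ENNReal.ofReal_le_ofReal hJ).trans (le_of_eq ?_)
    rw [ENNReal.ofReal_mul (by positivity)]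
    congr 1
    rw [intervalIntegral.integral_of_le two_pi_nn, ofReal_integral_eq_lintegral_ofReal
      ((hG4.integrableOn_Icc).mono_set Ioc_subset_Icc_self)
      (Eventually.of_forall fun θ => intervalIntegral.integral_nonneg two_pi_nn
        fun φ _ => by positivity)]
    refine lintegral_congr fun θ => ?_
    have hc5 : Continuous fun φ : ℝ => F a (tor c ρ (θ, φ)) ^ 4 :=
      hc4.comp (Continuous.prodMk continuous_const continuous_id)
    rw [intervalIntegral.integral_of_le two_pi_nn, ofReal_integral_eq_lintegral_ofReal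
      ((hc5.integrableOn_Icc).mono_set Ioc_subset_Icc_self)
      (Eventually.of_forall fun φ => by positivity)]
  calc ∫⁻ a, ENNReal.ofReal (tmean (F a) c ρ ^ 4) ∂kMeas n
      ≤ ∫⁻ a, ENNReal.ofReal ((4 * Real.pi ^ 2)⁻¹) *
          ∫⁻ θ, ∫⁻ φ, ENNReal.ofReal (F a (tor c ρ (θ, φ)) ^ 4) ∂ν ∂ν ∂kMeas n :=
        lintegral_mono hpt
    _ = ENNReal.ofReal ((4 * Real.pi ^ 2)⁻¹) *
          ∫⁻ a, ∫⁻ θ, ∫⁻ φ, ENNReal.ofReal (F a (tor c ρ (θ, φ)) ^ 4) ∂ν ∂ν ∂kMeas n := by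
        rw [lintegral_const_mul _ hm1]
    _ = ENNReal.ofReal ((4 * Real.pi ^ 2)⁻¹) *
          ∫⁻ θ, ∫⁻ φ, ∫⁻ a, ENNReal.ofReal (F a (tor c ρ (θ, φ)) ^ 4) ∂kMeas n ∂ν ∂ν := by
        congr 1
        rw [lintegral_lintegral_swap hm2.aemeasurable]
        refine lintegral_congr fun θ => ?_
        rw [lintegral_lintegral_swap]
        have g1 : Measurable fun y : KSp n × ℝ => y.1 := measurable_fst
        have g2 : Measurable fun y : KSp n × ℝ => y.2 := measurable_snd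
        have g3 : Measurable fun _ : KSp n × ℝ => θ := measurable_const
        have g4 : Measurable fun y : KSp n × ℝ => (((y.1, θ), y.2) : (KSp n × ℝ) × ℝ) :=
          (g1.prodMk g3).prodMk g2
        exact (hm3.comp g4).aemeasurable
    _ ≤ ENNReal.ofReal ((4 * Real.pi ^ 2)⁻¹) *
          ∫⁻ _θ, ∫⁻ _φ, ENNReal.ofReal M ∂ν ∂ν := by
        gcongr with θ φ
        exact h (θ, φ)
    _ = ENNReal.ofReal M := by
        rw [lintegral_const, lintegral_const, hν0, ← ENNReal.ofReal_mul hM,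
          ← ENNReal.ofReal_mul (by positivity), ← ENNReal.ofReal_mul (by positivity)]
        congr 1
        field_simp
        ring

/-! ### the fourth moment at one point -/

private theorem norm_four_le (z : ℂ) : ‖z‖ ^ 4 ≤ 2 * (z.re ^ 4 + z.im ^ 4) := by
  have h : ‖z‖ ^ 2 = z.re ^ 2 + z.im ^ 2 := by
    rw [Complex.sq_norm, Complex.normSq_apply]; ring
  have h4 : ‖z‖ ^ 4 = (z.re ^ 2 + z.im ^ 2) ^ 2 := by rw [← h]; ring
  rw [h4]
  nlinarith [sq_nonneg (z.re ^ 2 - z.im ^ 2)]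

private theorem klin_fst {n : ℕ} (v : KIdx n → ℝ) (a : KSp n) :
    (klin v a).1 = ∑ p, v p * (a p).1 := by
  unfold klin
  rw [Prod.fst_sum]
  rfl

private theorem klin_snd {n : ℕ} (v : KIdx n → ℝ) (a : KSp n) :
    (klin v a).2 = ∑ p, v p * (a p).2 := by
  unfold klin
  rw [Prod.snd_sum]
  rfl

private theorem measurable_klin {n : ℕ} (v : KIdx n → ℝ) : Measurable (klin v : KSp n → ℝ × ℝ) := by
  unfold klin
  fun_prop

private theorem csum_re {n : ℕ} (co : KIdx n → ℂ) (b : KIdx n → ℝ) :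
    (∑ p, ((b p : ℝ) : ℂ) * co p).re = ∑ p, (co p).re * b p := by
  rw [Complex.re_sum]
  refine Finset.sum_congr rfl fun p _ => ?_
  rw [Complex.re_ofReal_mul]; ring

private theorem csum_im {n : ℕ} (co : KIdx n → ℂ) (b : KIdx n → ℝ) :
    (∑ p, ((b p : ℝ) : ℂ) * co p).im = ∑ p, (co p).im * b p := by
  rw [Complex.im_sum]
  refine Finset.sum_congr rfl fun p _ => ?_
  rw [Complex.im_ofReal_mul]; ring

private theorem point_moment {n : ℕ} {co : KIdx n → ℂ} (hvar : ∑ p : KIdx n, ‖co p‖ ^ 2 ≤ 2) :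
    ∫⁻ a : KSp n, ENNReal.ofReal ((‖∑ p, (((a p).1 : ℝ) : ℂ) * co p‖ +
      ‖∑ p, (((a p).2 : ℝ) : ℂ) * co p‖) ^ 4) ∂kMeas n ≤ ENNReal.ofReal 6400 := by
  have hre : ∑ p : KIdx n, (co p).re ^ 2 ≤ 2 := by
    refine le_trans (Finset.sum_le_sum fun p _ => ?_) hvar
    rw [Complex.sq_norm, Complex.normSq_apply]
    nlinarith [sq_nonneg (co p).im]
  have him : ∑ p : KIdx n, (co p).im ^ 2 ≤ 2 := by
    refine le_trans (Finset.sum_le_sum fun p _ => ?_) hvar
    rw [Complex.sq_norm, Complex.normSq_apply]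
    nlinarith [sq_nonneg (co p).re]
  obtain ⟨hr1, hr2⟩ := kMeas_fourth _ hre
  obtain ⟨hi1, hi2⟩ := kMeas_fourth _ him
  have m1 : ∀ v : KIdx n → ℝ, Measurable fun a : KSp n => ENNReal.ofReal ((klin v a).1 ^ 4) :=
    fun v => ((measurable_klin v).fst.pow_const 4).ennreal_ofReal
  have m2 : ∀ v : KIdx n → ℝ, Measurable fun a : KSp n => ENNReal.ofReal ((klin v a).2 ^ 4) :=
    fun v => ((measurable_klin v).snd.pow_const 4).ennreal_ofReal
  set w : KIdx n → ℝ := fun p => (co p).re with hw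
  set w' : KIdx n → ℝ := fun p => (co p).im with hw'
  have hpt : ∀ a : KSp n, (‖∑ p, (((a p).1 : ℝ) : ℂ) * co p‖ +
      ‖∑ p, (((a p).2 : ℝ) : ℂ) * co p‖) ^ 4 ≤ 16 * (((klin w a).1 ^ 4 + (klin w' a).1 ^ 4) +
        ((klin w a).2 ^ 4 + (klin w' a).2 ^ 4)) := by
    intro a
    rw [klin_fst, klin_fst, klin_snd, klin_snd, hw, hw', ← csum_re, ← csum_re, ← csum_im,
      ← csum_im]
    set Y₁ : ℂ := ∑ p, (((a p).1 : ℝ) : ℂ) * co p
    set Y₂ : ℂ := ∑ p, (((a p).2 : ℝ) : ℂ) * co p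
    have h : (‖Y₁‖ + ‖Y₂‖) ^ 4 ≤ 8 * (‖Y₁‖ ^ 4 + ‖Y₂‖ ^ 4) := by
      have := add_pow_le (norm_nonneg Y₁) (norm_nonneg Y₂) 4
      norm_num at this
      linarith
    have h1 := norm_four_le Y₁
    have h2 := norm_four_le Y₂
    linarith
  calc _ ≤ ∫⁻ a, ENNReal.ofReal 16 * ((ENNReal.ofReal ((klin w a).1 ^ 4) +
          ENNReal.ofReal ((klin w' a).1 ^ 4)) + (ENNReal.ofReal ((klin w a).2 ^ 4) +
          ENNReal.ofReal ((klin w' a).2 ^ 4))) ∂kMeas n := by
        refine lintegral_mono fun a => ?_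
        rw [← ENNReal.ofReal_add (by positivity) (by positivity),
          ← ENNReal.ofReal_add (by positivity) (by positivity),
          ← ENNReal.ofReal_add (by positivity) (by positivity),
          ← ENNReal.ofReal_mul (by norm_num)]
        exact ENNReal.ofReal_le_ofReal (hpt a)
    _ = ENNReal.ofReal 16 * ((∫⁻ a, ENNReal.ofReal ((klin w a).1 ^ 4) ∂kMeas n +
          ∫⁻ a, ENNReal.ofReal ((klin w' a).1 ^ 4) ∂kMeas n) +
          (∫⁻ a, ENNReal.ofReal ((klin w a).2 ^ 4) ∂kMeas n +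
          ∫⁻ a, ENNReal.ofReal ((klin w' a).2 ^ 4) ∂kMeas n)) := by
        have hs1 : Measurable fun a : KSp n => ENNReal.ofReal ((klin w a).1 ^ 4) +
            ENNReal.ofReal ((klin w' a).1 ^ 4) := (m1 w).add (m1 w')
        have hs2 : Measurable fun a : KSp n => (ENNReal.ofReal ((klin w a).1 ^ 4) +
            ENNReal.ofReal ((klin w' a).1 ^ 4)) + (ENNReal.ofReal ((klin w a).2 ^ 4) +
            ENNReal.ofReal ((klin w' a).2 ^ 4)) := hs1.add ((m2 w).add (m2 w'))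
        rw [lintegral_const_mul _ hs2, lintegral_add_left hs1, lintegral_add_left (m1 w),
          lintegral_add_left (m2 w)]
    _ ≤ ENNReal.ofReal 16 * ((ENNReal.ofReal 100 + ENNReal.ofReal 100) +
          (ENNReal.ofReal 100 + ENNReal.ofReal 100)) := by gcongr
    _ = ENNReal.ofReal 6400 := by
        rw [← ENNReal.ofReal_add (by norm_num) (by norm_num),
          ← ENNReal.ofReal_add (by norm_num) (by norm_num),
          ← ENNReal.ofReal_mul (by norm_num)]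
        norm_num

/-! ### elementary facts on the radii -/

private theorem sq1_pos' (z : ℝ × ℝ) : 0 < sq1 z := by
  unfold sq1
  exact Real.sqrt_pos.2 (by positivity)

private theorem norm_circle_sub (c : ℂ) {ρ : ℝ} (hρ : 0 < ρ) (θ : ℝ) :
    ‖circleMap c ρ θ - c‖ ≤ ρ := by
  rw [circleMap_sub_center, norm_circleMap_zero, abs_of_pos hρ]

private theorem le_quarter {n : ℕ} (hn : 1 ≤ n) {z0 : ℝ × ℝ} {ρ : ℝ} (hρ : 0 < ρ)
    (hρn : ρ ^ 2 * n ≤ sq1 z0 ^ 2 / 16) : ρ ≤ sq1 z0 / 4 := by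
  have h1 : (1 : ℝ) ≤ n := by exact_mod_cast hn
  have hs := sq1_pos' z0
  have h2 : ρ ^ 2 ≤ (sq1 z0 / 4) ^ 2 := by
    have : ρ ^ 2 * 1 ≤ ρ ^ 2 * n := mul_le_mul_of_nonneg_left h1 (by positivity)
    linarith [show (sq1 z0 / 4) ^ 2 = sq1 z0 ^ 2 / 16 by ring]
  exact (pow_le_pow_iff_left₀ hρ.le (by positivity) two_ne_zero).1 h2

private theorem krho_pos {n : ℕ} (hn : 1 ≤ n) (z0 : ℝ × ℝ) : 0 < krho n z0 := by
  have h1 : (0 : ℝ) < n := by exact_mod_cast hn
  have hs := sq1_pos' z0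
  unfold krho
  have := Real.sqrt_pos.2 h1
  positivity

private theorem krho_sq {n : ℕ} (hn : 1 ≤ n) (z0 : ℝ × ℝ) :
    krho n z0 ^ 2 * n ≤ sq1 z0 ^ 2 / 16 := by
  have h1 : (0 : ℝ) < n := by exact_mod_cast hn
  unfold krho
  rw [div_pow, mul_pow, Real.sq_sqrt h1.le]
  apply le_of_eq
  field_simp
  norm_num

private theorem krho_le {n : ℕ} (hn : 1 ≤ n) (z0 : ℝ × ℝ) : krho n z0 ≤ sq1 z0 / 4 :=
  le_quarter hn (krho_pos hn z0) (krho_sq hn z0)

/-! ### the function `kA` -/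

private theorem continuous_kev_pair (n : ℕ) :
    Continuous fun x : (KIdx n → ℝ) × (ℂ × ℂ) => kev n x.1 x.2 := by
  unfold kev
  fun_prop

private theorem continuous_kker (n : ℕ) (z0 : ℝ × ℝ) : Continuous (kker n z0) := by
  unfold kker
  refine Continuous.div_const ?_ _
  fun_prop

private theorem measurable_fst' (n : ℕ) : Measurable fun (a : KSp n) (p : KIdx n) => (a p).1 :=
  measurable_pi_lambda _ fun p => (measurable_pi_apply p).fst

private theorem measurable_snd' (n : ℕ) : Measurable fun (a : KSp n) (p : KIdx n) => (a p).2 :=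
  measurable_pi_lambda _ fun p => (measurable_pi_apply p).snd

private theorem kev_div (n : ℕ) (z0 : ℝ × ℝ) (ζ : ℂ × ℂ) (b : KIdx n → ℝ) :
    kev n b ζ / kker n z0 ζ = ∑ p, ((b p : ℝ) : ℂ) *
      (((kw n p : ℝ) : ℂ) * (ζ.1 ^ (p.1.1 : ℕ) * ζ.2 ^ (p.1.2 : ℕ)) / kker n z0 ζ) := by
  unfold kev
  rw [Finset.sum_div]
  refine Finset.sum_congr rfl fun p _ => ?_
  push_cast
  ring

private theorem kA_moment' {n : ℕ} (hn : 1 ≤ n) {z0 : ℝ × ℝ} {ρ : ℝ} (hρ : 0 < ρ)
    (hρn : ρ ^ 2 * n ≤ sq1 z0 ^ 2 / 16) :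
    ∫⁻ a, ENNReal.ofReal (kA n z0 ρ a ^ 4) ∂kMeas n ≤ ENNReal.ofReal 6400 := by
  have hq := le_quarter hn hρ hρn
  refine tmean_moment (F := fun a ζ => ‖kev n (fun p => (a p).1) ζ / kker n z0 ζ‖ +
    ‖kev n (fun p => (a p).2) ζ / kker n z0 ζ‖) ?_ ?_ ?_ (by norm_num) ?_
  · have hζ : Measurable fun x : KSp n × (ℝ × ℝ) => tor z0 ρ x.2 :=
      (continuous_tor z0 ρ).measurable.comp measurable_snd
    have hk := (continuous_kker n z0).measurable.comp hζ
    have h1 := (continuous_kev_pair n).measurable.comp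
      (((measurable_fst' n).comp (measurable_fst (α := KSp n) (β := ℝ × ℝ))).prodMk hζ)
    have h2 := (continuous_kev_pair n).measurable.comp
      (((measurable_snd' n).comp (measurable_fst (α := KSp n) (β := ℝ × ℝ))).prodMk hζ)
    exact (h1.div hk).norm.add (h2.div hk).norm
  · intro a
    have hne : ∀ x : ℝ × ℝ, kker n z0 (tor z0 ρ x) ≠ 0 := fun x =>
      kker_ne_zero n z0 ((norm_circle_sub _ hρ _).trans hq) ((norm_circle_sub _ hρ _).trans hq)
    have hk := (continuous_kker n z0).comp (continuous_tor z0 ρ)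
    have h1 : Continuous fun x : ℝ × ℝ => kev n (fun p => (a p).1) (tor z0 ρ x) :=
      (continuous_kev_pair n).comp (continuous_const.prodMk (continuous_tor z0 ρ))
    have h2 : Continuous fun x : ℝ × ℝ => kev n (fun p => (a p).2) (tor z0 ρ x) :=
      (continuous_kev_pair n).comp (continuous_const.prodMk (continuous_tor z0 ρ))
    exact (h1.div hk hne).norm.add (h2.div hk hne).norm
  · intro a ζ
    positivity
  · intro x
    simp only [kev_div]
    exact point_moment (kvar_le hn z0 hρ.le hρn (norm_circle_sub _ hρ _)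
      (norm_circle_sub _ hρ _))

/-! ### the function `kB` -/

private theorem continuous_hev_pair (n : ℕ) (z0 : ℝ × ℝ) :
    Continuous fun x : (KIdx n → ℝ) × (ℂ × ℂ) => hev n x.1 (1 - x.2.1)
      ((z0.1 : ℂ) + x.2.2 * ((eth z0).1 : ℂ)) ((z0.2 : ℂ) + x.2.2 * ((eth z0).2 : ℂ)) := by
  unfold hev
  fun_prop

private theorem continuous_kGd (n : ℕ) (z0 : ℝ × ℝ) :
    Continuous fun ζ : ℂ × ℂ => kGd n z0 ζ.1 := by
  unfold kGd
  refine Continuous.pow (Continuous.div_const ?_ _) _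
  fun_prop

private theorem kG_div (n : ℕ) (z0 : ℝ × ℝ) (ζ : ℂ × ℂ) (b : KIdx n → ℝ) :
    kG n z0 b ζ = ∑ p, ((b p : ℝ) : ℂ) *
      (((kw n p : ℝ) : ℂ) * ((1 - ζ.1) ^ (n - (p.1.1 : ℕ) - (p.1.2 : ℕ)) *
      (((z0.1 : ℂ) + ζ.2 * ((eth z0).1 : ℂ)) ^ (p.1.1 : ℕ) *
        ((z0.2 : ℂ) + ζ.2 * ((eth z0).2 : ℂ)) ^ (p.1.2 : ℕ))) / kGd n z0 ζ.1) := by
  unfold kG hev
  rw [Finset.sum_div]
  refine Finset.sum_congr rfl fun p _ => ?_
  push_cast
  ring

private theorem norm_tor_zero {ρ : ℝ} (hρ : 0 < ρ) (x : ℝ × ℝ) :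
    ‖(tor (0 : ℝ × ℝ) ρ x).1‖ ≤ ρ ∧ ‖(tor (0 : ℝ × ℝ) ρ x).2‖ ≤ ρ := by
  have h1 := norm_circle_sub ((0 : ℝ) : ℂ) hρ x.1
  have h2 := norm_circle_sub ((0 : ℝ) : ℂ) hρ x.2
  rw [Complex.ofReal_zero, sub_zero] at h1 h2
  exact ⟨h1, h2⟩

private theorem continuous_kG_tor {n : ℕ} (hn : 1 ≤ n) (z0 : ℝ × ℝ) (b : KIdx n → ℝ) :
    Continuous fun x : ℝ × ℝ => kG n z0 b (tor (0 : ℝ × ℝ) (krho n z0) x) := by
  have h1 : Continuous fun x : ℝ × ℝ => hev n b (1 - (tor (0 : ℝ × ℝ) (krho n z0) x).1)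
      ((z0.1 : ℂ) + (tor (0 : ℝ × ℝ) (krho n z0) x).2 * ((eth z0).1 : ℂ))
      ((z0.2 : ℂ) + (tor (0 : ℝ × ℝ) (krho n z0) x).2 * ((eth z0).2 : ℂ)) :=
    (continuous_hev_pair n z0).comp (continuous_const.prodMk (continuous_tor 0 (krho n z0)))
  exact h1.div ((continuous_kGd n z0).comp (continuous_tor 0 (krho n z0))) fun x =>
    kGd_ne_zero n z0 ((norm_tor_zero (krho_pos hn z0) x).1.trans (krho_le hn z0))

private theorem continuous_kB_tor {n : ℕ} (hn : 1 ≤ n) (z0 : ℝ × ℝ) (a : KSp n) :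
    Continuous fun x : ℝ × ℝ =>
      ‖kG n z0 (fun p => (a p).1) (tor (0 : ℝ × ℝ) (krho n z0) x)‖ +
      ‖kG n z0 (fun p => (a p).2) (tor (0 : ℝ × ℝ) (krho n z0) x)‖ :=
  (continuous_kG_tor hn z0 _).norm.add (continuous_kG_tor hn z0 _).norm

private theorem meas_kB_tor (n : ℕ) (z0 : ℝ × ℝ) (ρ : ℝ) :
    Measurable fun x : KSp n × (ℝ × ℝ) =>
      (fun (a : KSp n) ζ => ‖kG n z0 (fun p => (a p).1) ζ‖ + ‖kG n z0 (fun p => (a p).2) ζ‖)
        x.1 (tor (0 : ℝ × ℝ) ρ x.2) := by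
  have hζ : Measurable fun x : KSp n × (ℝ × ℝ) => tor (0 : ℝ × ℝ) ρ x.2 :=
    (continuous_tor 0 ρ).measurable.comp measurable_snd
  have hk := (continuous_kGd n z0).measurable.comp hζ
  have h1 := (continuous_hev_pair n z0).measurable.comp
    (((measurable_fst' n).comp (measurable_fst (α := KSp n) (β := ℝ × ℝ))).prodMk hζ)
  have h2 := (continuous_hev_pair n z0).measurable.comp
    (((measurable_snd' n).comp (measurable_fst (α := KSp n) (β := ℝ × ℝ))).prodMk hζ)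
  exact (h1.div hk).norm.add (h2.div hk).norm

theorem kB_nonneg (n : ℕ) (z0 : ℝ × ℝ) (a : KSp n) : 0 ≤ kB n z0 a :=
  tmean_nonneg' (fun _ => by positivity) _ _

theorem measurable_kB (n : ℕ) (z0 : ℝ × ℝ) : Measurable (kB n z0) :=
  measurable_tmean (meas_kB_tor n z0 (krho n z0))

theorem kB_shift {n : ℕ} (hn : 1 ≤ n) {z0 : ℝ × ℝ} (h0 : 0 < nm z0) (a : KSp n) {t : ℝ × ℝ}
    (ht : nm t ≤ 1) : kB n z0 (kshift (kdir n z0) a t) ≤ kB n z0 a + 2 := by
  have ht1 : t.1 ^ 2 + t.2 ^ 2 ≤ 1 := by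
    unfold nm at ht
    rwa [Real.sqrt_le_one] at ht
  have h1 : |t.1| ≤ 1 := by
    rw [← sq_le_one_iff_abs_le_one]
    nlinarith [sq_nonneg t.2]
  have h2 : |t.2| ≤ 1 := by
    rw [← sq_le_one_iff_abs_le_one]
    nlinarith [sq_nonneg t.1]
  unfold kB
  rw [← tmean_add_const (continuous_kB_tor hn z0 a)]
  refine tmean_mono' (continuous_kB_tor hn z0 _)
    ((continuous_kB_tor hn z0 a).add continuous_const) fun x => ?_
  have hz := (norm_tor_zero (krho_pos hn z0) x).1.trans (krho_le hn z0)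
  have e1 : (fun p => (kshift (kdir n z0) a t p).1) =
      fun p => (fun p => (a p).1) p + kdir n z0 p * t.1 := by
    funext p
    rfl
  have e2 : (fun p => (kshift (kdir n z0) a t p).2) =
      fun p => (fun p => (a p).2) p + kdir n z0 p * t.2 := by
    funext p
    rfl
  rw [e1, e2, kG_add, kG_add, kG_kdir n h0 hz, mul_one, mul_one]
  have h3 := norm_add_le (kG n z0 (fun p => (a p).1) (tor (0 : ℝ × ℝ) (krho n z0) x)) (t.1 : ℂ)
  have h4 := norm_add_le (kG n z0 (fun p => (a p).2) (tor (0 : ℝ × ℝ) (krho n z0) x)) (t.2 : ℂ)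
  rw [Complex.norm_real, Real.norm_eq_abs] at h3 h4
  linarith

theorem kB_rot {n : ℕ} (hn : 1 ≤ n) (z0 : ℝ × ℝ) (α : ℝ) (a : KSp n) :
    kB n z0 (krot α a) ≤ 2 * kB n z0 a := by
  unfold kB
  rw [← tmean_const_mul]
  refine tmean_mono' (continuous_kB_tor hn z0 _)
    (continuous_const.mul (continuous_kB_tor hn z0 a)) fun x => ?_
  set ζ := tor (0 : ℝ × ℝ) (krho n z0) x
  have e1 : kG n z0 (fun p => (krot α a p).1) ζ =
      (Real.cos α : ℂ) * kG n z0 (fun p => (a p).1) ζ -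
        (Real.sin α : ℂ) * kG n z0 (fun p => (a p).2) ζ := by
    rw [kG_div, kG_div, kG_div, Finset.mul_sum, Finset.mul_sum, ← Finset.sum_sub_distrib]
    refine Finset.sum_congr rfl fun p _ => ?_
    simp only [krot]
    push_cast
    ring
  have e2 : kG n z0 (fun p => (krot α a p).2) ζ =
      (Real.sin α : ℂ) * kG n z0 (fun p => (a p).1) ζ +
        (Real.cos α : ℂ) * kG n z0 (fun p => (a p).2) ζ := by
    rw [kG_div, kG_div, kG_div, Finset.mul_sum, Finset.mul_sum, ← Finset.sum_add_distrib]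
    refine Finset.sum_congr rfl fun p _ => ?_
    simp only [krot]
    push_cast
    ring
  rw [e1, e2]
  have hc : ‖(Real.cos α : ℂ)‖ ≤ 1 := by
    rw [Complex.norm_real, Real.norm_eq_abs]
    exact Real.abs_cos_le_one α
  have hs : ‖(Real.sin α : ℂ)‖ ≤ 1 := by
    rw [Complex.norm_real, Real.norm_eq_abs]
    exact Real.abs_sin_le_one α
  have h1 := norm_sub_le ((Real.cos α : ℂ) * kG n z0 (fun p => (a p).1) ζ)
    ((Real.sin α : ℂ) * kG n z0 (fun p => (a p).2) ζ)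
  have h2 := norm_add_le ((Real.sin α : ℂ) * kG n z0 (fun p => (a p).1) ζ)
    ((Real.cos α : ℂ) * kG n z0 (fun p => (a p).2) ζ)
  rw [norm_mul, norm_mul] at h1 h2
  have h3 := mul_le_of_le_one_left (norm_nonneg (kG n z0 (fun p => (a p).1) ζ)) hc
  have h4 := mul_le_of_le_one_left (norm_nonneg (kG n z0 (fun p => (a p).2) ζ)) hs
  have h5 := mul_le_of_le_one_left (norm_nonneg (kG n z0 (fun p => (a p).1) ζ)) hs
  have h6 := mul_le_of_le_one_left (norm_nonneg (kG n z0 (fun p => (a p).2) ζ)) hc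
  linarith

private theorem kB_moment {n : ℕ} (hn : 1 ≤ n) {z0 : ℝ × ℝ} (h0 : 0 < nm z0) :
    ∫⁻ a, ENNReal.ofReal (kB n z0 a ^ 4) ∂kMeas n ≤ ENNReal.ofReal 6400 := by
  refine tmean_moment (meas_kB_tor n z0 (krho n z0)) (fun a => continuous_kB_tor hn z0 a)
    (fun a ζ => by positivity) (by norm_num) ?_
  intro x
  simp only [kG_div]
  have hz := norm_tor_zero (krho_pos hn z0) x
  exact point_moment (kG_var hn h0 (krho_pos hn z0).le (krho_sq hn z0) hz.1 hz.2)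

/-! ### the exponential weight -/

private theorem km_prod {n : ℕ} (v : KIdx n → ℝ) (l1 l2 : ℝ) (a : KSp n) :
    Real.exp (l1 * (klin v a).1 + l2 * (klin v a).2) =
      ∏ p, (Real.exp (v p * l1 * (a p).1) * Real.exp (v p * l2 * (a p).2)) := by
  simp_rw [← Real.exp_add]
  rw [← Real.exp_sum, klin_fst, klin_snd, Finset.mul_sum, Finset.mul_sum,
    ← Finset.sum_add_distrib]
  congr 1
  exact Finset.sum_congr rfl fun p _ => by ring

private theorem km_integrable {n : ℕ} (v : KIdx n → ℝ) (l1 l2 : ℝ) :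
    Integrable (fun a : KSp n => Real.exp (l1 * (klin v a).1 + l2 * (klin v a).2)) (kMeas n) := by
  simp_rw [km_prod]
  unfold kMeas
  exact Integrable.fintype_prod (f := fun (p : KIdx n) (q : ℝ × ℝ) =>
    Real.exp (v p * l1 * q.1) * Real.exp (v p * l2 * q.2)) fun p =>
    (integrable_exp_mul_gaussianReal (v p * l1)).mul_prod
      (integrable_exp_mul_gaussianReal (v p * l2))

private theorem km_mgf (t : ℝ) : ∫ x, Real.exp (t * x) ∂gaussianReal 0 1 =
    Real.exp (t ^ 2 / 2) := by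
  have h := congrFun (mgf_fun_id_gaussianReal (μ := 0) (v := 1)) t
  simpa [mgf] using h

private theorem km_integral {n : ℕ} (v : KIdx n → ℝ) (l1 l2 : ℝ) :
    ∫ a : KSp n, Real.exp (l1 * (klin v a).1 + l2 * (klin v a).2) ∂kMeas n =
      Real.exp ((l1 ^ 2 + l2 ^ 2) * (∑ p, v p ^ 2) / 2) := by
  simp_rw [km_prod]
  unfold kMeas
  rw [integral_fintype_prod_eq_prod (f := fun (p : KIdx n) (q : ℝ × ℝ) =>
    Real.exp (v p * l1 * q.1) * Real.exp (v p * l2 * q.2))]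
  have h1 : ∀ p : KIdx n, ∫ q : ℝ × ℝ, Real.exp (v p * l1 * q.1) * Real.exp (v p * l2 * q.2)
      ∂((gaussianReal 0 1).prod (gaussianReal 0 1)) =
      Real.exp ((l1 ^ 2 + l2 ^ 2) / 2 * v p ^ 2) := by
    intro p
    rw [integral_prod_mul (fun x => Real.exp (v p * l1 * x)) (fun x => Real.exp (v p * l2 * x)),
      km_mgf, km_mgf, ← Real.exp_add]
    congr 1
    ring
  simp_rw [h1]
  rw [← Real.exp_sum, ← Finset.mul_sum]
  congr 1
  ring

private theorem km_lintegral {n : ℕ} (v : KIdx n → ℝ) (l1 l2 : ℝ) :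
    ∫⁻ a : KSp n, ENNReal.ofReal (Real.exp (l1 * (klin v a).1 + l2 * (klin v a).2)) ∂kMeas n =
      ENNReal.ofReal (Real.exp ((l1 ^ 2 + l2 ^ 2) * (∑ p, v p ^ 2) / 2)) := by
  rw [← km_integral, ofReal_integral_eq_lintegral_ofReal (km_integrable v l1 l2)
    (Eventually.of_forall fun a => (Real.exp_pos _).le)]

private theorem km_continuous {n : ℕ} (v : KIdx n → ℝ) : Continuous (klin v) := by
  unfold klin
  fun_prop

private theorem km_meas {n : ℕ} (v : KIdx n → ℝ) (l1 l2 : ℝ) :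
    Measurable fun a : KSp n => ENNReal.ofReal
      (Real.exp (l1 * (klin v a).1 + l2 * (klin v a).2)) := by
  have h := km_continuous v
  have h1 : Continuous fun a : KSp n => Real.exp (l1 * (klin v a).1 + l2 * (klin v a).2) := by
    fun_prop
  exact h1.measurable.ennreal_ofReal

private theorem km_exp_abs (x : ℝ) : Real.exp |x| ≤ Real.exp x + Real.exp (-x) := by
  have h1 := Real.exp_pos x
  have h2 := Real.exp_pos (-x)
  rcases abs_cases x with ⟨h, -⟩ | ⟨h, -⟩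
  · rw [h]; linarith
  · rw [h]; linarith

private theorem exp_four {n : ℕ} (v : KIdx n → ℝ) (hv : ∑ p, v p ^ 2 ≤ 1) :
    ∫⁻ a, ENNReal.ofReal (kexp v a ^ 4) ∂kMeas n ≤ ENNReal.ofReal (4 * Real.exp 16) := by
  have hpt : ∀ a : KSp n, ENNReal.ofReal (kexp v a ^ 4) ≤
      ENNReal.ofReal (Real.exp (4 * (klin v a).1 + 4 * (klin v a).2)) +
      (ENNReal.ofReal (Real.exp (4 * (klin v a).1 + (-4) * (klin v a).2)) +
      (ENNReal.ofReal (Real.exp ((-4) * (klin v a).1 + 4 * (klin v a).2)) +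
      ENNReal.ofReal (Real.exp ((-4) * (klin v a).1 + (-4) * (klin v a).2)))) := by
    intro a
    have e1 := Real.exp_pos (4 * (klin v a).1 + 4 * (klin v a).2)
    have e2 := Real.exp_pos (4 * (klin v a).1 + (-4) * (klin v a).2)
    have e3 := Real.exp_pos ((-4) * (klin v a).1 + 4 * (klin v a).2)
    have e4 := Real.exp_pos ((-4) * (klin v a).1 + (-4) * (klin v a).2)
    rw [← ENNReal.ofReal_add e3.le e4.le, ← ENNReal.ofReal_add e2.le (by positivity),
      ← ENNReal.ofReal_add e1.le (by positivity)]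
    apply ENNReal.ofReal_le_ofReal
    have h1 : kexp v a ^ 4 = Real.exp |4 * (klin v a).1| * Real.exp |4 * (klin v a).2| := by
      rw [kexp, ← Real.exp_nat_mul, ← Real.exp_add, abs_mul, abs_mul,
        abs_of_pos (show (0 : ℝ) < 4 by norm_num)]
      congr 1
      push_cast
      ring
    have h2 := km_exp_abs (4 * (klin v a).1)
    have h3 := km_exp_abs (4 * (klin v a).2)
    rw [h1]
    refine (mul_le_mul h2 h3 (Real.exp_pos _).le (by positivity)).trans (le_of_eq ?_)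
    simp only [add_mul, mul_add, ← Real.exp_add]
    simp only [neg_mul]
    ring
  refine (lintegral_mono hpt).trans ?_
  rw [lintegral_add_left (km_meas v 4 4), lintegral_add_left (km_meas v 4 (-4)),
    lintegral_add_left (km_meas v (-4) 4), km_lintegral, km_lintegral, km_lintegral, km_lintegral]
  have h4 : ∀ l1 l2 : ℝ, l1 ^ 2 = 16 → l2 ^ 2 = 16 →
      ENNReal.ofReal (Real.exp ((l1 ^ 2 + l2 ^ 2) * (∑ p, v p ^ 2) / 2)) ≤
        ENNReal.ofReal (Real.exp 16) := by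
    intro l1 l2 h1 h2
    apply ENNReal.ofReal_le_ofReal
    apply Real.exp_le_exp.2
    rw [h1, h2]
    linarith
  have k1 := h4 4 4 (by norm_num) (by norm_num)
  have k2 := h4 4 (-4) (by norm_num) (by norm_num)
  have k3 := h4 (-4) 4 (by norm_num) (by norm_num)
  have k4 := h4 (-4) (-4) (by norm_num) (by norm_num)
  refine (add_le_add k1 (add_le_add k2 (add_le_add k3 k4))).trans (le_of_eq ?_)
  have h5 := (Real.exp_pos 16).le
  rw [← ENNReal.ofReal_add h5 h5, ← ENNReal.ofReal_add h5 (by positivity),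
    ← ENNReal.ofReal_add h5 (by positivity)]
  congr 1
  ring

private theorem amgm (x y z : ℝ) :
    x * (y ^ 2 * z) ≤ (x ^ 4 + 2 * y ^ 4 + z ^ 4) / 4 := by
  have h1 : x * (y ^ 2 * z) ≤ (x ^ 2 * z ^ 2 + y ^ 4) / 2 := by
    nlinarith [sq_nonneg (x * z - y ^ 2)]
  have h2 : x ^ 2 * z ^ 2 ≤ (x ^ 4 + z ^ 4) / 2 := by
    nlinarith [sq_nonneg (x ^ 2 - z ^ 2)]
  linarith

theorem kp_moment : ∃ C : ℝ, 0 ≤ C ∧ ∀ n : ℕ, 1 ≤ n → ∀ z0 : ℝ × ℝ, 0 < nm z0 → ∀ ρ : ℝ, 0 < ρ →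
    ρ ^ 2 * n ≤ sq1 z0 ^ 2 / 16 →
    ∫⁻ a, ENNReal.ofReal (kexp (kdir n z0) a * ((1 + kA n z0 ρ a) ^ 2 * (1 + kB n z0 a)))
      ∂kMeas n ≤ ENNReal.ofReal C := by
  refine ⟨6 + ((1 / 4) * (4 * Real.exp 16) + (4 * 6400 + 2 * 6400)), by positivity,
    fun n hn z0 h0 ρ hρ hρn => ?_⟩
  have hmA : Measurable fun a : KSp n => ENNReal.ofReal (kA n z0 ρ a ^ 4) :=
    ((measurable_kA n z0 ρ).pow_const 4).ennreal_ofReal
  have hmB : Measurable fun a : KSp n => ENNReal.ofReal (kB n z0 a ^ 4) :=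
    ((measurable_kB n z0).pow_const 4).ennreal_ofReal
  have hme : Measurable (kexp (kdir n z0) : KSp n → ℝ) := by
    unfold kexp
    exact Real.measurable_exp.comp ((measurable_klin _).fst.norm.add (measurable_klin _).snd.norm)
  have hme2 : Measurable fun a : KSp n => ENNReal.ofReal (kexp (kdir n z0) a ^ 4) :=
    (hme.pow_const 4).ennreal_ofReal
  calc ∫⁻ a, ENNReal.ofReal (kexp (kdir n z0) a * ((1 + kA n z0 ρ a) ^ 2 * (1 + kB n z0 a)))
        ∂kMeas n
      ≤ ∫⁻ a, (ENNReal.ofReal 6 + (ENNReal.ofReal (1 / 4) *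
          ENNReal.ofReal (kexp (kdir n z0) a ^ 4) +
          (ENNReal.ofReal 4 * ENNReal.ofReal (kA n z0 ρ a ^ 4) +
            ENNReal.ofReal 2 * ENNReal.ofReal (kB n z0 a ^ 4)))) ∂kMeas n := by
        refine lintegral_mono fun a => ?_
        have hA := kA_nonneg n z0 ρ a
        have hB := kB_nonneg n z0 a
        have hE : 0 ≤ kexp (kdir n z0) a := (Real.exp_pos _).le
        rw [← ENNReal.ofReal_mul (by norm_num), ← ENNReal.ofReal_mul (by norm_num),
          ← ENNReal.ofReal_mul (by norm_num),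
          ← ENNReal.ofReal_add (by positivity) (by positivity),
          ← ENNReal.ofReal_add (by positivity) (by positivity),
          ← ENNReal.ofReal_add (by norm_num) (by positivity)]
        refine ENNReal.ofReal_le_ofReal ?_
        set A := kA n z0 ρ a
        set B := kB n z0 a
        set E := kexp (kdir n z0) a
        have h1 : (1 + A) ^ 4 ≤ 8 * (1 + A ^ 4) := by
          have := add_pow_le (zero_le_one (α := ℝ)) hA 4
          norm_num at this
          linarith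
        have h2 : (1 + B) ^ 4 ≤ 8 * (1 + B ^ 4) := by
          have := add_pow_le (zero_le_one (α := ℝ)) hB 4
          norm_num at this
          linarith
        have h3 := amgm E (1 + A) (1 + B)
        linarith
    _ = ENNReal.ofReal 6 + (ENNReal.ofReal (1 / 4) *
          ∫⁻ a, ENNReal.ofReal (kexp (kdir n z0) a ^ 4) ∂kMeas n +
          (ENNReal.ofReal 4 * ∫⁻ a, ENNReal.ofReal (kA n z0 ρ a ^ 4) ∂kMeas n +
            ENNReal.ofReal 2 * ∫⁻ a, ENNReal.ofReal (kB n z0 a ^ 4) ∂kMeas n)) := by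
        rw [lintegral_add_left measurable_const, lintegral_add_left (hme2.const_mul _),
          lintegral_add_left (hmA.const_mul _),
          lintegral_const_mul _ hme2, lintegral_const_mul _ hmA, lintegral_const_mul _ hmB,
          lintegral_const, measure_univ, mul_one]
    _ ≤ ENNReal.ofReal 6 + (ENNReal.ofReal (1 / 4) * ENNReal.ofReal (4 * Real.exp 16) +
          (ENNReal.ofReal 4 * ENNReal.ofReal 6400 + ENNReal.ofReal 2 * ENNReal.ofReal 6400)) := by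
        have h1 := exp_four (kdir n z0) (sum_kdir_sq n z0).le
        have h2 := kA_moment' hn hρ hρn
        have h3 := kB_moment hn h0
        gcongr
    _ = ENNReal.ofReal (6 + ((1 / 4) * (4 * Real.exp 16) + (4 * 6400 + 2 * 6400))) := by
        rw [← ENNReal.ofReal_mul (by norm_num), ← ENNReal.ofReal_mul (by norm_num),
          ← ENNReal.ofReal_mul (by norm_num),
          ← ENNReal.ofReal_add (by positivity) (by positivity),
          ← ENNReal.ofReal_add (by positivity) (by positivity),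
          ← ENNReal.ofReal_add (by norm_num) (by positivity)]

end Pool.Agent.Lib.MP_95e7ec_an
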