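import Mathlib
import Pool.Agent.Lib.MP_95e7ec_an.KpDefs
import Pool.Agent.Lib.MP_95e7ec_an.KpKernel
import Pool.Agent.Lib.MP_95e7ec_an.KpMoment
import Pool.Agent.Lib.MP_95e7ec_an.Cauchy2
import Pool.Agent.Lib.MP_95e7ec_an.KosKernel
import Pool.Agent.Lib.MP_95e7ec_an.KosGauge
import Pool.Agent.Lib.MP_95e7ec_an.AvgBasic
import Pool.Agent.Lib.MP_95e7ec_an.WeightArr

/-!
# Kostlan random planar polynomial vector fields, sharp count: the radial direction

In the chart `(u,w) ↦ (z0 + w e) / (1 - u)` the field `X / W` is almost constant in the radial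
direction.
-/

set_option autoImplicit false

open Set Filter Topology MeasureTheory ProbabilityTheory
open scoped ContDiff ENNReal

namespace Pool.Agent.Lib.MP_95e7ec_an

private theorem kpr_nm_nonneg (u : ℝ × ℝ) : 0 ≤ nm u := Real.sqrt_nonneg _

private theorem kpr_nm_le {u : ℝ × ℝ} {x y : ℝ} (h1 : |u.1| ≤ x) (h2 : |u.2| ≤ y) :
    nm u ≤ x + y := by
  have hx : 0 ≤ x := (abs_nonneg _).trans h1
  have hy : 0 ≤ y := (abs_nonneg _).trans h2
  unfold nm
  rw [Real.sqrt_le_left (by positivity)]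
  have e1 : u.1 ^ 2 ≤ x ^ 2 := by
    rw [← sq_abs u.1]
    exact pow_le_pow_left₀ (abs_nonneg _) h1 2
  have e2 : u.2 ^ 2 ≤ y ^ 2 := by
    rw [← sq_abs u.2]
    exact pow_le_pow_left₀ (abs_nonneg _) h2 2
  nlinarith [mul_nonneg hx hy]

private theorem kpr_abs_le_nm (u : ℝ × ℝ) : |u.1| ≤ nm u ∧ |u.2| ≤ nm u := by
  have h := nm_sq u
  have h0 := kpr_nm_nonneg u
  constructor
  · exact abs_le_of_sq_le_sq (by nlinarith [sq_nonneg u.2]) h0
  · exact abs_le_of_sq_le_sq (by nlinarith [sq_nonneg u.1]) h0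

private theorem kpr_sqrt_one {n : ℕ} (hn : 1 ≤ n) : 1 ≤ Real.sqrt n := by
  rw [Real.one_le_sqrt]
  exact_mod_cast hn

private theorem kpr_le_kq (n : ℕ) : 4 * Real.sqrt n ≤ kq n := by
  have h : Real.sqrt n ≤ (Nat.sqrt n : ℝ) + 1 := by
    rw [Real.sqrt_le_left (by positivity)]
    have h1 := Nat.lt_succ_sqrt' n
    have h2 : (n : ℝ) ≤ ((Nat.sqrt n + 1 : ℕ) : ℝ) ^ 2 := by exact_mod_cast h1.le
    push_cast at h2
    exact h2
  unfold kq
  push_cast
  linarith

private theorem kpr_eight_le_kq {n : ℕ} (hn : 1 ≤ n) : (8 : ℝ) ≤ kq n := by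
  have h1 : 1 ≤ Nat.sqrt n := Nat.le_sqrt'.2 (by simpa using hn)
  have h2 : (1 : ℝ) ≤ (Nat.sqrt n : ℝ) := by exact_mod_cast h1
  unfold kq
  push_cast
  linarith

private theorem kpr_cellR {n : ℕ} (hn : 1 ≤ n) (k : ℕ) :
    cellR (kq n) k * (32 * Real.sqrt n) ≤ 2 ^ k ∧ cellR (kq n) k * 64 ≤ 2 ^ k ∧
      0 < cellR (kq n) k := by
  have h1 := kpr_le_kq n
  have h2 := kpr_eight_le_kq hn
  have hk : (0 : ℝ) < 2 ^ k := by positivity
  have hq : (0 : ℝ) < kq n := by linarith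
  have hpos : 0 < cellR (kq n) k := by
    unfold cellR
    positivity
  have e : cellR (kq n) k * (8 * kq n) = 2 ^ k := by
    unfold cellR
    field_simp
  refine ⟨?_, ?_, hpos⟩ <;> nlinarith

/-- the chart -/
private theorem kpr_chart {n k : ℕ} (hn : 1 ≤ n) {z0 : ℝ × ℝ} (hz0 : (2 : ℝ) ^ k / 4 ≤ nm z0)
    {p : ℝ × ℝ} (hp : nm (p - z0) ≤ cellR (kq n) k / 2) :
    ∃ u w : ℝ, |u| * (15 * Real.sqrt n) ≤ 1 ∧ |w| * (60 * Real.sqrt n) ≤ 2 ^ k ∧
      p = (1 - u)⁻¹ • (z0 + w • eth z0) := by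
  obtain ⟨hr1, hr2, hr0⟩ := kpr_cellR hn k
  have hk : (0 : ℝ) < 2 ^ k := by positivity
  have hs1 := kpr_sqrt_one hn
  set S := Real.sqrt n with hS
  set r := cellR (kq n) k with hr
  set K : ℝ := 2 ^ k with hK
  have hsq := nm_sq z0
  have hR : 0 < nm z0 := by linarith
  set R := nm z0 with hRdef
  obtain ⟨x, y⟩ := p
  obtain ⟨a, b⟩ := z0
  simp only at hsq
  have hd0 := kpr_nm_nonneg ((x, y) - (a, b))
  have hdsq := nm_sq ((x, y) - (a, b))
  set d := nm ((x, y) - (a, b)) with hd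
  simp only [Prod.mk_sub_mk] at hdsq
  set α := (x * a + y * b) / R with hα
  set β := (-x * b + y * a) / R with hβ
  have hαR : α * R = x * a + y * b := by rw [hα]; field_simp
  have hβR : β * R = -x * b + y * a := by rw [hβ]; field_simp
  have hid : (α - R) ^ 2 + β ^ 2 = d ^ 2 := by
    have e1 : ((α - R) ^ 2 + β ^ 2) * R ^ 2 = d ^ 2 * R ^ 2 := by
      have e2 : ((α - R) ^ 2 + β ^ 2) * R ^ 2 = (α * R - R ^ 2) ^ 2 + (β * R) ^ 2 := by ring
      rw [e2, hαR, hβR, hsq, hdsq]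
      ring
    exact mul_right_cancel₀ (by positivity) e1
  have hαd : |α - R| ≤ d := abs_le_of_sq_le_sq (by nlinarith [sq_nonneg β]) hd0
  have hβd : |β| ≤ d := abs_le_of_sq_le_sq (by nlinarith [sq_nonneg (α - R)]) hd0
  have hα1 : 31 / 32 * R ≤ α := by
    have := (abs_le.1 hαd).1
    linarith
  have hαpos : 0 < α := by linarith
  have hdS : d * (64 * S) ≤ K := by nlinarith
  refine ⟨1 - R / α, β * R / α, ?_, ?_, ?_⟩
  · have e1 : 1 - R / α = (α - R) / α := by field_simp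
    rw [e1, abs_div, abs_of_pos hαpos, div_mul_eq_mul_div, div_le_one hαpos]
    have h3 : |α - R| * (15 * S) ≤ d * (15 * S) := mul_le_mul_of_nonneg_right hαd (by positivity)
    nlinarith
  · rw [abs_div, abs_mul, abs_of_pos hR, abs_of_pos hαpos, div_mul_eq_mul_div, div_le_iff₀ hαpos]
    have h3 : |β| * (60 * S) ≤ 60 / 64 * K := by
      have : |β| * (60 * S) ≤ d * (60 * S) := mul_le_mul_of_nonneg_right hβd (by positivity)
      nlinarith
    have h4 : |β| * R * (60 * S) ≤ 60 / 64 * K * R := by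
      have := mul_le_mul_of_nonneg_right h3 hR.le
      nlinarith
    have h5 : 60 / 64 * K * R ≤ K * α := by nlinarith
    linarith
  · have e1 : (1 - (1 - R / α))⁻¹ = α / R := by
      rw [sub_sub_cancel, inv_div]
    rw [e1]
    have hR0 : R ≠ 0 := hR.ne'
    have hα0 : α ≠ 0 := hαpos.ne'
    have hx : x * R = α * a - β * b := by
      have h : x * R * R = (α * a - β * b) * R := by
        have h' : x * R * R = x * R ^ 2 := by ring
        have h'' : (α * a - β * b) * R = α * R * a - β * R * b := by ring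
        rw [h', h'', hαR, hβR, hsq]
        ring
      exact mul_right_cancel₀ hR0 h
    have hy : y * R = α * b + β * a := by
      have h : y * R * R = (α * b + β * a) * R := by
        have h' : y * R * R = y * R ^ 2 := by ring
        have h'' : (α * b + β * a) * R = α * R * b + β * R * a := by ring
        rw [h', h'', hαR, hβR, hsq]
        ring
      exact mul_right_cancel₀ hR0 h
    have heth : eth (a, b) = (-b / R, a / R) := rfl
    rw [heth]
    ext
    · simp only [Prod.smul_fst, Prod.fst_add, smul_eq_mul]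
      field_simp
      linarith
    · simp only [Prod.smul_snd, Prod.snd_add, smul_eq_mul]
      field_simp
      linarith

private theorem kpr_diff (n : ℕ) (z0 : ℝ × ℝ) (b : KIdx n → ℝ) :
    DifferentiableOn ℂ (kG n z0 b) {ζ | kGd n z0 ζ.1 ≠ 0} := by
  have h1 : Differentiable ℂ fun ζ : ℂ × ℂ => hev n b (1 - ζ.1)
      ((z0.1 : ℂ) + ζ.2 * ((eth z0).1 : ℂ)) ((z0.2 : ℂ) + ζ.2 * ((eth z0).2 : ℂ)) := by
    unfold hev
    fun_prop
  have h2 : Differentiable ℂ fun ζ : ℂ × ℂ => kGd n z0 ζ.1 := by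
    unfold kGd
    fun_prop
  have h3 : DifferentiableOn ℂ (fun ζ : ℂ × ℂ => hev n b (1 - ζ.1)
      ((z0.1 : ℂ) + ζ.2 * ((eth z0).1 : ℂ)) ((z0.2 : ℂ) + ζ.2 * ((eth z0).2 : ℂ)) *
        (kGd n z0 ζ.1)⁻¹) {ζ | kGd n z0 ζ.1 ≠ 0} := by
    intro ζ hζ
    have i2 : DifferentiableWithinAt ℂ (fun ζ : ℂ × ℂ => (kGd n z0 ζ.1)⁻¹)
        {ζ | kGd n z0 ζ.1 ≠ 0} ζ := DifferentiableWithinAt.inv (h2 ζ).differentiableWithinAt hζ
    exact (h1 ζ).differentiableWithinAt.mul i2
  refine h3.congr fun ζ _ => ?_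
  unfold kG
  rw [div_eq_mul_inv]

private theorem kpr_open (n : ℕ) (z0 : ℝ × ℝ) : IsOpen {ζ : ℂ × ℂ | kGd n z0 ζ.1 ≠ 0} := by
  have h2 : Continuous fun ζ : ℂ × ℂ => kGd n z0 ζ.1 := by
    unfold kGd
    fun_prop
  exact isOpen_ne.preimage h2

private theorem kpr_im (n : ℕ) (z0 : ℝ × ℝ) (b : KIdx n → ℝ) (x y : ℝ) :
    (kG n z0 b ((x : ℂ), (y : ℂ))).im = 0 := by
  have h : kG n z0 b ((x : ℂ), (y : ℂ)) = (((∑ p : KIdx n, (kw n p * b p) *
      ((1 - x) ^ (n - (p.1.1 : ℕ) - (p.1.2 : ℕ)) * ((z0.1 + y * (eth z0).1) ^ (p.1.1 : ℕ) *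
        (z0.2 + y * (eth z0).2) ^ (p.1.2 : ℕ)))) /
          ((sq1 z0 ^ 2 - x) / sq1 z0) ^ n : ℝ) : ℂ) := by
    unfold kG hev kGd
    push_cast
    rfl
  rw [h]
  exact Complex.ofReal_im _

private theorem kpr_krho {n : ℕ} (hn : 1 ≤ n) (z0 : ℝ × ℝ) :
    0 < krho n z0 ∧ krho n z0 ≤ sq1 z0 / 4 ∧ krho n z0 * (4 * Real.sqrt n) = sq1 z0 := by
  have h1 := kpr_sqrt_one hn
  have h2 := sq1_pos z0
  have e : krho n z0 * (4 * Real.sqrt n) = sq1 z0 := by
    unfold krho
    field_simp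
  have h3 : 0 < krho n z0 := by
    unfold krho
    positivity
  exact ⟨h3, by nlinarith, e⟩

private theorem kpr_torus {n : ℕ} (hn : 1 ≤ n) (z0 : ℝ × ℝ) (b : KIdx n → ℝ) :
    Continuous fun p : ℝ × ℝ => ‖kG n z0 b (circleMap (((0 : ℝ × ℝ).1 : ℝ) : ℂ) (krho n z0) p.1,
      circleMap (((0 : ℝ × ℝ).2 : ℝ) : ℂ) (krho n z0) p.2)‖ := by
  obtain ⟨h1, h2, -⟩ := kpr_krho hn z0
  have h := (kpr_diff n z0 b).continuousOn
  refine continuous_norm.comp (h.comp_continuous (by fun_prop) fun p => ?_)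
  refine kGd_ne_zero n z0 ?_
  have e : ‖circleMap (((0 : ℝ × ℝ).1 : ℝ) : ℂ) (krho n z0) p.1‖ = krho n z0 := by
    simp [circleMap, abs_of_pos h1]
  rw [e]
  exact h2

private theorem kpr_comp {n : ℕ} (hn : 1 ≤ n) (z0 : ℝ × ℝ) (b : KIdx n → ℝ) :
    ∃ f f1 f2 : ℝ × ℝ → ℝ, ∀ z : ℝ × ℝ, |z.1| < krho n z0 / 2 → |z.2| < krho n z0 / 2 →
      ((f z : ℝ) : ℂ) = kG n z0 b ((z.1 : ℂ), (z.2 : ℂ)) ∧
      HasDerivAt (fun x => f (x, z.2)) (f1 z) z.1 ∧ HasDerivAt (fun y => f (z.1, y)) (f2 z) z.2 ∧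
      |f1 z| ≤ 64 * tmean (fun ζ => ‖kG n z0 b ζ‖) 0 (krho n z0) / (krho n z0 / 2) ∧
      |f2 z| ≤ 64 * tmean (fun ζ => ‖kG n z0 b ζ‖) 0 (krho n z0) / (krho n z0 / 2) := by
  obtain ⟨h1, h2, -⟩ := kpr_krho hn z0
  have e : 2 * (krho n z0 / 2) = krho n z0 := by ring
  obtain ⟨f, f1, f2, f11, f12, f21, f22, h⟩ := cauchy_twoC (F := kG n z0 b) (z0 := 0)
    (r := krho n z0 / 2) (by positivity) (kpr_open n z0) (kpr_diff n z0 b)
    (fun ζ hζ _ => kGd_ne_zero n z0 (by
      rw [e] at hζ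
      simp only [Prod.fst_zero, Complex.ofReal_zero, sub_zero] at hζ
      exact hζ.trans h2))
    (fun x y _ => kpr_im n z0 b x y)
  rw [e] at h
  refine ⟨f, f1, f2, fun z hz1 hz2 => ?_⟩
  obtain ⟨g1, g2, g3, -, -, -, -, -, g4, g5, -⟩ := h z (by simpa using hz1) (by simpa using hz2)
  exact ⟨g1, g2, g3, g4, g5⟩

private theorem kpr_lip {f f1 f2 : ℝ × ℝ → ℝ} {r L : ℝ}
    (h : ∀ z : ℝ × ℝ, |z.1| < r → |z.2| < r →
      HasDerivAt (fun x => f (x, z.2)) (f1 z) z.1 ∧ HasDerivAt (fun y => f (z.1, y)) (f2 z) z.2 ∧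
      |f1 z| ≤ L ∧ |f2 z| ≤ L)
    {u w u' w' : ℝ} (hu : |u| < r) (hw : |w| < r) (hu' : |u'| < r) (hw' : |w'| < r) :
    |f (u, w) - f (u', w')| ≤ L * |u - u'| + L * |w - w'| := by
  have h1 : |f (u, w) - f (u', w)| ≤ L * |u - u'| := by
    have := (convex_Ioo (-r) r).norm_image_sub_le_of_norm_hasDerivWithin_le
      (f := fun x => f (x, w)) (f' := fun x => f1 (x, w)) (C := L)
      (fun x hx => ((h (x, w) (abs_lt.2 hx) hw).1).hasDerivWithinAt)
      (fun x hx => (h (x, w) (abs_lt.2 hx) hw).2.2.1) (abs_lt.1 hu') (abs_lt.1 hu)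
    simpa [Real.norm_eq_abs] using this
  have h2 : |f (u', w) - f (u', w')| ≤ L * |w - w'| := by
    have := (convex_Ioo (-r) r).norm_image_sub_le_of_norm_hasDerivWithin_le
      (f := fun y => f (u', y)) (f' := fun y => f2 (u', y)) (C := L)
      (fun y hy => ((h (u', y) hu' (abs_lt.2 hy)).2.1).hasDerivWithinAt)
      (fun y hy => (h (u', y) hu' (abs_lt.2 hy)).2.2.2) (abs_lt.1 hw') (abs_lt.1 hw)
    simpa [Real.norm_eq_abs] using this
  have e : f (u, w) - f (u', w') = (f (u, w) - f (u', w)) + (f (u', w) - f (u', w')) := by ring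
  rw [e]
  exact (abs_add_le _ _).trans (add_le_add h1 h2)

private theorem kpr_kB_le {n : ℕ} (hn : 1 ≤ n) (z0 : ℝ × ℝ) (a : KSp n) :
    tmean (fun ζ => ‖kG n z0 (fun p => (a p).1) ζ‖) 0 (krho n z0) ≤ kB n z0 a ∧
      tmean (fun ζ => ‖kG n z0 (fun p => (a p).2) ζ‖) 0 (krho n z0) ≤ kB n z0 a := by
  have hc1 := kpr_torus hn z0 (fun p => (a p).1)
  have hc2 := kpr_torus hn z0 (fun p => (a p).2)
  unfold kB
  exact ⟨kg_tmean_mono hc1 (hc1.add hc2) fun ζ => le_add_of_nonneg_right (norm_nonneg _),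
    kg_tmean_mono hc2 (hc1.add hc2) fun ζ => le_add_of_nonneg_left (norm_nonneg _)⟩

private theorem kpr_half {n k : ℕ} (hn : 1 ≤ n) {z0 : ℝ × ℝ} (hz0 : (2 : ℝ) ^ k / 4 ≤ nm z0)
    {u : ℝ} (hu : |u| * (32 * Real.sqrt n) < 2 ^ k) : |u| < krho n z0 / 2 := by
  obtain ⟨h1, -, h3⟩ := kpr_krho hn z0
  have h4 := nm_le_sq1 z0
  have h5 := kpr_sqrt_one hn
  by_contra hcon
  push Not at hcon
  nlinarith

private theorem kpr_L {n k : ℕ} (hn : 1 ≤ n) {z0 : ℝ × ℝ} (hz0 : (2 : ℝ) ^ k / 4 ≤ nm z0)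
    (a : KSp n) {T : ℝ} (hT : T ≤ kB n z0 a) :
    64 * T / (krho n z0 / 2) ≤ 2048 * Real.sqrt n * kB n z0 a / 2 ^ k := by
  obtain ⟨h1, -, h3⟩ := kpr_krho hn z0
  have h4 := nm_le_sq1 z0
  have h5 := kpr_sqrt_one hn
  have h6 := kB_nonneg n z0 a
  have hk : (0 : ℝ) < 2 ^ k := by positivity
  have h7 : 64 * T / (krho n z0 / 2) ≤ 64 * kB n z0 a / (krho n z0 / 2) := by
    gcongr
  refine h7.trans ?_
  rw [div_le_div_iff₀ (by positivity) hk]
  have h8 : (2 : ℝ) ^ k ≤ 16 * Real.sqrt n * krho n z0 := by linarith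
  nlinarith

/-- the field `X / W` in the chart -/
private theorem kpr_main {n k : ℕ} (hn : 1 ≤ n) {z0 : ℝ × ℝ} (hz0 : (2 : ℝ) ^ k / 4 ≤ nm z0)
    (a : KSp n) : ∃ g : ℝ → ℝ → ℝ × ℝ,
      (∀ u w : ℝ, u < 1 → |u| * (32 * Real.sqrt n) < 2 ^ k → |w| * (32 * Real.sqrt n) < 2 ^ k →
        kY n z0 a ((1 - u)⁻¹ • (z0 + w • eth z0)) = g u w) ∧
      ∀ u w u' w' : ℝ, |u| * (32 * Real.sqrt n) < 2 ^ k → |w| * (32 * Real.sqrt n) < 2 ^ k →
        |u'| * (32 * Real.sqrt n) < 2 ^ k → |w'| * (32 * Real.sqrt n) < 2 ^ k →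
        |(g u w).1 - (g u' w').1| ≤
          2048 * Real.sqrt n * kB n z0 a / 2 ^ k * (|u - u'| + |w - w'|) ∧
        |(g u w).2 - (g u' w').2| ≤
          2048 * Real.sqrt n * kB n z0 a / 2 ^ k * (|u - u'| + |w - w'|) := by
  have hk : (0 : ℝ) < 2 ^ k := by positivity
  have h0 : 0 < nm z0 := by linarith
  obtain ⟨hT1, hT2⟩ := kpr_kB_le hn z0 a
  obtain ⟨f, f1, f2, hf⟩ := kpr_comp hn z0 (fun p => (a p).1)
  obtain ⟨g, g1, g2, hg⟩ := kpr_comp hn z0 (fun p => (a p).2)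
  refine ⟨fun u w => (f (u, w), g (u, w)), fun u w hu1 hu hw => ?_, fun u w u' w' hu hw hu' hw' => ?_⟩
  · have e1 := (hf (u, w) (kpr_half hn hz0 hu) (kpr_half hn hz0 hw)).1
    have e2 := (hg (u, w) (kpr_half hn hz0 hu) (kpr_half hn hz0 hw)).1
    simp only at e1 e2
    rw [kG_real n h0 _ hu1 rfl] at e1 e2
    have e1' := Complex.ofReal_injective e1
    have e2' := Complex.ofReal_injective e2
    simp only [e1', e2']
    unfold kY kVF vf
    ext
    · simp only [Prod.smul_fst, smul_eq_mul]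
      rw [div_eq_inv_mul]
    · simp only [Prod.smul_snd, smul_eq_mul]
      rw [div_eq_inv_mul]
  · have l1 := kpr_L hn hz0 a hT1
    have l2 := kpr_L hn hz0 a hT2
    simp only [mul_add]
    constructor
    · refine kpr_lip (f := f) (f1 := f1) (f2 := f2) (r := krho n z0 / 2) (fun z hz1 hz2 => ?_)
        (kpr_half hn hz0 hu) (kpr_half hn hz0 hw) (kpr_half hn hz0 hu') (kpr_half hn hz0 hw')
      obtain ⟨-, i2, i3, i4, i5⟩ := hf z hz1 hz2
      exact ⟨i2, i3, i4.trans l1, i5.trans l1⟩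
    · refine kpr_lip (f := g) (f1 := g1) (f2 := g2) (r := krho n z0 / 2) (fun z hz1 hz2 => ?_)
        (kpr_half hn hz0 hu) (kpr_half hn hz0 hw) (kpr_half hn hz0 hu') (kpr_half hn hz0 hw')
      obtain ⟨-, i2, i3, i4, i5⟩ := hg z hz1 hz2
      exact ⟨i2, i3, i4.trans l2, i5.trans l2⟩

/-- the numbers -/
private theorem kpr_num {k : ℕ} (hk : 24 ≤ k) : ∃ x : ℝ, 2 ≤ x ∧ (2 : ℝ) ^ (k / 24) = x ∧
    (2 : ℝ) ^ (8 * (k / 24)) = x ^ 8 ∧ (2 : ℝ) ^ (16 * (k / 24)) = x ^ 16 ∧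
      x ^ 24 ≤ (2 : ℝ) ^ k := by
  refine ⟨2 ^ (k / 24), ?_, rfl, ?_, ?_, ?_⟩
  · have h : 1 ≤ k / 24 := by omega
    calc (2 : ℝ) = 2 ^ 1 := by norm_num
      _ ≤ 2 ^ (k / 24) := pow_le_pow_right₀ (by norm_num) h
  · rw [← pow_mul, mul_comm]
  · rw [← pow_mul, mul_comm]
  · rw [← pow_mul]
    exact pow_le_pow_right₀ (by norm_num) (by omega)

theorem kp_rad {n k : ℕ} (hn : 1 ≤ n) (hk : 24 ≤ k) {z0 : ℝ × ℝ} (hz0 : (2 : ℝ) ^ k / 4 ≤ nm z0)
    (a : KSp n) {p : ℝ × ℝ} (hp : nm (p - z0) ≤ cellR (kq n) k / 2) {lam : ℝ} (h1 : 1 / 3 ≤ lam)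
    (h2 : |lam - 1| ≤ 2 ^ (8 * (k / 24)) / Real.sqrt n) :
    nm (kY n z0 a p - kY n z0 a (lam • p)) ≤ 20480 * kB n z0 a / 2 ^ (16 * (k / 24)) := by
  obtain ⟨u, w, hu, hw, hpe⟩ := kpr_chart hn hz0 hp
  obtain ⟨g, hg, hgL⟩ := kpr_main hn hz0 a
  obtain ⟨x, hx2, hx1, hx8, hx16, hx24⟩ := kpr_num hk
  have hB := kB_nonneg n z0 a
  rw [hx8] at h2
  rw [hx16]
  have hS := kpr_sqrt_one hn
  set S := Real.sqrt n with hSdef
  set K : ℝ := 2 ^ k with hK
  set B := kB n z0 a with hBdef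
  have hS0 : 0 < S := by linarith
  have hu0 := abs_nonneg u
  have hu1 : |u| ≤ 1 / 15 := by nlinarith
  have hu2 := abs_le.1 hu1
  have hlam : 0 < lam := by linarith
  have hx0 : 0 < x := by linarith
  have hx16' : (65536 : ℝ) ≤ x ^ 16 := by
    calc (65536 : ℝ) = 2 ^ 16 := by norm_num
      _ ≤ x ^ 16 := pow_le_pow_left₀ (by norm_num) hx2 16
  have hx8' : (256 : ℝ) ≤ x ^ 8 := by
    calc (256 : ℝ) = 2 ^ 8 := by norm_num
      _ ≤ x ^ 8 := pow_le_pow_left₀ (by norm_num) hx2 8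
  have hx24' : x ^ 24 = x ^ 8 * x ^ 16 := by ring
  have hK1 : x ^ 8 * x ^ 16 ≤ K := by rw [← hx24']; exact hx24
  have hK2 : x ^ 8 * 65536 ≤ K := (mul_le_mul_of_nonneg_left hx16' (by positivity)).trans hK1
  have hK0 : 0 < K := by positivity
  set v := 1 - (1 - u) / lam with hv
  have hv1 : 1 - v = (1 - u) / lam := by rw [hv]; ring
  have hdiv : 0 < (1 - u) / lam := div_pos (by linarith) hlam
  have hvu : |u - v| * S ≤ 16 / 5 * x ^ 8 := by
    have e : u - v = (1 - u) * ((1 - lam) / lam) := by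
      rw [hv]
      field_simp
      ring
    rw [e, abs_mul, abs_div, abs_of_pos hlam, abs_sub_comm 1 lam,
      abs_of_pos (show (0 : ℝ) < 1 - u by linarith)]
    have e3 : |lam - 1| * S ≤ x ^ 8 := by rwa [le_div_iff₀ hS0] at h2
    have e4 : |lam - 1| / lam * S ≤ 3 * x ^ 8 := by
      rw [div_mul_eq_mul_div, div_le_iff₀ hlam]
      nlinarith [pow_pos hx0 8]
    have e5 : 0 ≤ |lam - 1| / lam * S := by positivity
    have e6 : 1 - u ≤ 16 / 15 := by linarith
    nlinarith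
  have hv2 : |v| * (32 * S) < K := by
    have e1 : |v| ≤ |u| + |u - v| := by
      have := abs_sub_abs_le_abs_sub v u
      rw [abs_sub_comm v u] at this
      linarith
    have e2 : |v| * S ≤ (|u| + |u - v|) * S := mul_le_mul_of_nonneg_right e1 hS0.le
    nlinarith
  have hu3 : |u| * (32 * S) < K := by nlinarith
  have hw3 : |w| * (32 * S) < K := by nlinarith
  have hlp : lam • p = (1 - v)⁻¹ • (z0 + w • eth z0) := by
    rw [hpe, smul_smul, hv1, inv_div, div_eq_mul_inv]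
  have ep : kY n z0 a p = g u w := by
    rw [hpe]
    exact hg u w (by linarith) hu3 hw3
  have elp : kY n z0 a (lam • p) = g v w := by
    rw [hlp]
    exact hg v w (by linarith) hv2 hw3
  obtain ⟨b1, b2⟩ := hgL u w v w hu3 hw3 hv2 hw3
  rw [sub_self, abs_zero, add_zero] at b1 b2
  have hb : 2048 * S * B / K * |u - v| ≤ 32768 / 5 * B / x ^ 16 := by
    have e1 : 2048 * S * B / K * |u - v| = 2048 * B * (|u - v| * S) / K := by ring
    rw [e1, div_le_div_iff₀ hK0 (by positivity)]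
    have e2 : 2048 * B * (|u - v| * S) ≤ 2048 * B * (16 / 5 * x ^ 8) :=
      mul_le_mul_of_nonneg_left hvu (by positivity)
    calc 2048 * B * (|u - v| * S) * x ^ 16 ≤ 2048 * B * (16 / 5 * x ^ 8) * x ^ 16 :=
          mul_le_mul_of_nonneg_right e2 (by positivity)
      _ = 32768 / 5 * B * (x ^ 8 * x ^ 16) := by ring
      _ ≤ 32768 / 5 * B * K := mul_le_mul_of_nonneg_left hK1 (by positivity)
  rw [ep, elp]
  have h3 := kpr_nm_le (u := g u w - g v w) (b1.trans hb) (b2.trans hb)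
  refine h3.trans ?_
  have e7 : 32768 / 5 * B / x ^ 16 + 32768 / 5 * B / x ^ 16 = (65536 / 5 * B) / x ^ 16 := by ring
  rw [e7]
  have e8 : 65536 / 5 * B ≤ 20480 * B := by linarith
  exact div_le_div_of_nonneg_right e8 (by positivity)

private theorem kpr_kW_pos {n k : ℕ} (hn : 1 ≤ n) {z0 : ℝ × ℝ} (hz0 : (2 : ℝ) ^ k / 4 ≤ nm z0)
    {p : ℝ × ℝ} (hp : nm (p - z0) ≤ cellR (kq n) k / 2) : 0 < kW n z0 p := by
  obtain ⟨-, hr2, hr0⟩ := kpr_cellR hn k
  have hk : (0 : ℝ) < 2 ^ k := by positivity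
  have hs := sq1_pos z0
  have h0 := nm_sq z0
  obtain ⟨h3, h4⟩ := kpr_abs_le_nm (p - z0)
  have h5 := nm_sq (p - z0)
  simp only [Prod.fst_sub, Prod.snd_sub] at h3 h4 h5
  have h6 : 0 < 1 + z0.1 * p.1 + z0.2 * p.2 := by
    have e : 1 + z0.1 * p.1 + z0.2 * p.2 =
        1 + nm z0 ^ 2 + (z0.1 * (p.1 - z0.1) + z0.2 * (p.2 - z0.2)) := by
      rw [h0]
      ring
    have h7 : -(nm z0 * nm (p - z0)) ≤ z0.1 * (p.1 - z0.1) + z0.2 * (p.2 - z0.2) := by
      have h8 : (z0.1 * (p.1 - z0.1) + z0.2 * (p.2 - z0.2)) ^ 2 ≤ (nm z0 * nm (p - z0)) ^ 2 := by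
        rw [mul_pow, h0, h5]
        nlinarith [sq_nonneg (z0.1 * (p.2 - z0.2) - z0.2 * (p.1 - z0.1))]
      exact (abs_le.1 (abs_le_of_sq_le_sq h8
        (mul_nonneg (kpr_nm_nonneg _) (kpr_nm_nonneg _)))).1
    have h9 : nm (p - z0) ≤ nm z0 := by linarith
    have h10 := kpr_nm_nonneg z0
    nlinarith
  unfold kW
  positivity

theorem kp_area {n k : ℕ} (hn : 1 ≤ n) (hk : 24 ≤ k) {z0 : ℝ × ℝ} (hz0 : (2 : ℝ) ^ k / 4 ≤ nm z0)
    (a : KSp n) : MeasurableSet (kE n k z0 a) ∧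
      volume (kE n k z0 a) ≤ ENNReal.ofReal ((6 * (1 + kB n z0 a) / 2 ^ (k / 24)) ^ 16) := by
  constructor
  · have e : kE n k z0 a = {t | nm t ≤ 1} ∩ ⋃ p ∈ {p : ℝ × ℝ | nm (p - z0) ≤ cellR (kq n) k / 2},
        {t | nm (kY n z0 a p + t) < 150000 * (1 + kB n z0 a) / 2 ^ (16 * (k / 24))} := by
      ext t
      simp only [kE, mem_ofPred_eq, mem_inter_iff, mem_iUnion, exists_prop]
    rw [e]
    refine ((isClosed_le continuous_nm continuous_const).measurableSet).inter ?_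
    refine (isOpen_biUnion fun p _ => ?_).measurableSet
    exact isOpen_lt (continuous_nm.comp (by fun_prop)) continuous_const
  · obtain ⟨g, hg, hgL⟩ := kpr_main hn hz0 a
    obtain ⟨x, hx2, hx1, hx8, hx16, hx24⟩ := kpr_num hk
    have hB := kB_nonneg n z0 a
    have hS := kpr_sqrt_one hn
    have hx0 : 0 < x := by linarith
    have hS0 : 0 < Real.sqrt n := by linarith
    set N : ℕ := 2 ^ (16 * (k / 24)) with hN
    have hNx : (N : ℝ) = x ^ 16 := by rw [hN, ← hx16]; push_cast; rfl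
    have hN0 : (0 : ℝ) < N := by rw [hNx]; positivity
    have hN1 : 0 < N := by exact_mod_cast hN0
    have hNK : (N : ℝ) ≤ 2 ^ k := by
      rw [hNx]
      refine le_trans ?_ hx24
      exact pow_le_pow_right₀ (by linarith) (by norm_num)
    set B := kB n z0 a with hBdef
    set K : ℝ := 2 ^ k with hK
    have hK0 : 0 < K := by positivity
    set W : ℝ := K / (60 * Real.sqrt n) with hW
    have hW0 : 0 < W := by positivity
    have hWS : W * (60 * Real.sqrt n) = K := by rw [hW]; field_simp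
    set R : ℝ := 150205 * (1 + B) / N with hR
    have hR0 : 0 < R := by positivity
    set wj : ℕ → ℝ := fun j => -W + 2 * W * j / N with hwj
    have hsub : kE n k z0 a ⊆ ⋃ j ∈ Finset.range (N + 1), Metric.closedBall (-(g 0 (wj j))) R := by
      rintro t ⟨-, p, hp, ht⟩
      obtain ⟨u, w, hu, hw, hpe⟩ := kpr_chart hn hz0 hp
      rw [hx16, ← hNx] at ht
      -- the grid point
      have hwW : |w| ≤ W := by
        rw [hW, le_div_iff₀ (by positivity)]
        exact hw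
      obtain ⟨hw1, hw2⟩ := abs_le.1 hwW
      set y : ℝ := (w + W) * N / (2 * W) with hy
      have hy0 : 0 ≤ y := by
        rw [hy]
        exact div_nonneg (mul_nonneg (by linarith) hN0.le) (by linarith)
      have hyN : y ≤ N := by
        rw [hy, div_le_iff₀ (by positivity)]
        nlinarith
      have hyw : w = -W + 2 * W * y / N := by
        rw [hy]
        field_simp
        ring
      have hj1 : (⌊y⌋₊ : ℝ) ≤ y := Nat.floor_le hy0
      have hj2 : y < ⌊y⌋₊ + 1 := Nat.lt_floor_add_one y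
      have hjN : ⌊y⌋₊ ≤ N := by
        have : (⌊y⌋₊ : ℝ) ≤ N := hj1.trans hyN
        exact_mod_cast this
      have hwd : |w - wj ⌊y⌋₊| ≤ 2 * W / N := by
        have e : w - wj ⌊y⌋₊ = 2 * W / N * (y - ⌊y⌋₊) := by
          rw [hwj]
          simp only
          rw [hyw]
          ring
        rw [e, abs_of_nonneg (mul_nonneg (by positivity) (by linarith))]
        have : y - ⌊y⌋₊ ≤ 1 := by linarith
        exact mul_le_of_le_one_right (by positivity) this
      have hwjW : |wj ⌊y⌋₊| ≤ W := by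
        have e1 : (⌊y⌋₊ : ℝ) ≤ N := by exact_mod_cast hjN
        have e2 : 0 ≤ 2 * W * (⌊y⌋₊ : ℝ) / N := by positivity
        have e3 : 2 * W * (⌊y⌋₊ : ℝ) / N ≤ 2 * W := by
          rw [div_le_iff₀ hN0]
          nlinarith
        rw [abs_le]
        constructor
        · rw [hwj]; simp only; linarith
        · rw [hwj]; simp only; linarith
      rw [mem_iUnion₂]
      refine ⟨⌊y⌋₊, Finset.mem_range.2 (by omega), ?_⟩
      have hu0 := abs_nonneg u
      have hu1 : |u| ≤ 1 / 15 := by nlinarith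
      have hK1 : (65536 : ℝ) ≤ K := by
        have : (65536 : ℝ) ≤ x ^ 16 := by
          calc (65536 : ℝ) = 2 ^ 16 := by norm_num
            _ ≤ x ^ 16 := pow_le_pow_left₀ (by norm_num) hx2 16
        rw [← hNx] at this
        linarith
      have hu3 : |u| * (32 * Real.sqrt n) < K := by nlinarith
      have hw3 : ∀ w : ℝ, |w| ≤ W → |w| * (32 * Real.sqrt n) < K := by
        intro w hw
        have : |w| * (32 * Real.sqrt n) ≤ W * (32 * Real.sqrt n) :=
          mul_le_mul_of_nonneg_right hw (by positivity)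
        nlinarith
      have h03 : |(0 : ℝ)| * (32 * Real.sqrt n) < K := by
        rw [abs_zero, zero_mul]
        exact hK0
      have ep : kY n z0 a p = g u w := by
        rw [hpe]
        exact hg u w (by linarith [(abs_le.1 hu1).2]) hu3 (hw3 w hwW)
      obtain ⟨b1, b2⟩ := hgL u w 0 (wj ⌊y⌋₊) hu3 (hw3 w hwW) h03 (hw3 _ hwjW)
      rw [sub_zero] at b1 b2
      have hb : 2048 * Real.sqrt n * B / K * (|u| + |w - wj ⌊y⌋₊|) ≤ 205 * (1 + B) / N := by
        have c1 : 2048 * Real.sqrt n * B / K * |u| ≤ 2048 / 15 * B / N := by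
          have e1 : 2048 * Real.sqrt n * B / K * |u| =
              2048 / 15 * B * (|u| * (15 * Real.sqrt n)) / K := by ring
          rw [e1, div_le_div_iff₀ hK0 hN0]
          have e2 : 2048 / 15 * B * (|u| * (15 * Real.sqrt n)) ≤ 2048 / 15 * B :=
            mul_le_of_le_one_right (by positivity) hu
          exact mul_le_mul e2 hNK hN0.le (by positivity)
        have c2 : 2048 * Real.sqrt n * B / K * |w - wj ⌊y⌋₊| ≤ 4096 / 60 * B / N := by
          calc 2048 * Real.sqrt n * B / K * |w - wj ⌊y⌋₊| ≤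
                2048 * Real.sqrt n * B / K * (2 * W / N) :=
                mul_le_mul_of_nonneg_left hwd (by positivity)
            _ = 4096 / 60 * B * (W * (60 * Real.sqrt n)) / (K * N) := by
                field_simp
                ring
            _ = 4096 / 60 * B / N := by
                rw [hWS]
                field_simp
        have c3 : 2048 / 15 * B / N + 4096 / 60 * B / N ≤ 205 * (1 + B) / N := by
          rw [← add_div]
          exact div_le_div_of_nonneg_right (by linarith) hN0.le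
        rw [mul_add]
        linarith
      obtain ⟨t1, t2⟩ := kpr_abs_le_nm (kY n z0 a p + t)
      rw [ep] at t1 t2 ht
      simp only [Prod.fst_add, Prod.snd_add] at t1 t2
      have hRe : R = 150000 * (1 + B) / N + 205 * (1 + B) / N := by
        rw [hR]
        ring
      rw [Metric.mem_closedBall, Prod.dist_eq, Real.dist_eq, Real.dist_eq]
      simp only [Prod.fst_neg, Prod.snd_neg, sub_neg_eq_add]
      refine max_le ?_ ?_
      · have e : t.1 + (g 0 (wj ⌊y⌋₊)).1 = ((g u w).1 + t.1) -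
            ((g u w).1 - (g 0 (wj ⌊y⌋₊)).1) := by ring
        rw [e, hRe]
        exact (abs_sub _ _).trans (add_le_add (t1.trans ht.le) (b1.trans hb))
      · have e : t.2 + (g 0 (wj ⌊y⌋₊)).2 = ((g u w).2 + t.2) -
            ((g u w).2 - (g 0 (wj ⌊y⌋₊)).2) := by ring
        rw [e, hRe]
        exact (abs_sub _ _).trans (add_le_add (t2.trans ht.le) (b2.trans hb))
    have hvol : ∀ c : ℝ × ℝ, volume (Metric.closedBall c R) = ENNReal.ofReal (4 * R ^ 2) := by
      intro c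
      rw [← closedBall_prod_same, Measure.volume_eq_prod, Measure.prod_prod,
        Real.volume_closedBall, Real.volume_closedBall, ← ENNReal.ofReal_mul (by positivity)]
      congr 1
      ring
    calc volume (kE n k z0 a) ≤
          volume (⋃ j ∈ Finset.range (N + 1), Metric.closedBall (-(g 0 (wj j))) R) :=
          measure_mono hsub
      _ ≤ ∑ j ∈ Finset.range (N + 1), volume (Metric.closedBall (-(g 0 (wj j))) R) :=
          measure_biUnion_finset_le _ _
      _ = ENNReal.ofReal ((N + 1) * (4 * R ^ 2)) := by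
          simp only [hvol, Finset.sum_const, Finset.card_range, nsmul_eq_mul]
          have e : ENNReal.ofReal (((N : ℝ) + 1) * (4 * R ^ 2)) =
              ENNReal.ofReal ((N : ℝ) + 1) * ENNReal.ofReal (4 * R ^ 2) :=
            ENNReal.ofReal_mul (by positivity)
          rw [e, ← Nat.cast_one (R := ℝ), ← Nat.cast_add, ENNReal.ofReal_natCast]
      _ ≤ ENNReal.ofReal ((6 * (1 + B) / 2 ^ (k / 24)) ^ 16) := by
          refine ENNReal.ofReal_le_ofReal ?_
          rw [hx1, div_pow (6 * (1 + B)) x 16, ← hNx, hR]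
          have e1 : ((N : ℝ) + 1) * (4 * (150205 * (1 + B) / N) ^ 2) ≤
              (2 * N) * (4 * (150205 * (1 + B) / N) ^ 2) := by
            refine mul_le_mul_of_nonneg_right ?_ (by positivity)
            have : (1 : ℝ) ≤ N := by exact_mod_cast hN1
            linarith
          have e2 : (2 * (N : ℝ)) * (4 * (150205 * (1 + B) / N) ^ 2) =
              8 * 150205 ^ 2 * (1 + B) ^ 2 / N := by
            field_simp
            ring
          rw [e2] at e1
          refine e1.trans ?_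
          refine div_le_div_of_nonneg_right ?_ hN0.le
          rw [mul_pow]
          have e3 : (1 + B) ^ 2 ≤ (1 + B) ^ 16 := pow_le_pow_right₀ (by linarith) (by norm_num)
          exact mul_le_mul (by norm_num) e3 (by positivity) (by positivity)

set_option linter.unusedVariables false in
theorem kp_shift_mem {n k : ℕ} (hn : 1 ≤ n) (hk : 24 ≤ k) {z0 : ℝ × ℝ}
    (hz0 : (2 : ℝ) ^ k / 4 ≤ nm z0) {a : KSp n} {α : ℝ} {t : ℝ × ℝ} (ht : nm t ≤ 1)
    (h : krot α (kshift (kdir n z0) a t) ∈ kAct n k z0) : t ∈ kE n k z0 a := by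
  obtain ⟨p, hp, hlt⟩ := h
  refine ⟨ht, p, hp, ?_⟩
  have hk0 : (0 : ℝ) < 2 ^ k := by positivity
  have h0 : 0 < nm z0 := by linarith
  have hW := kpr_kW_pos hn hz0 hp
  have e1 : kY n z0 (kshift (kdir n z0) a t) p = kY n z0 a p + t := by
    unfold kY
    have e2 : MvPolynomial.eval ![p.1, p.2] (kPoly n (kdir n z0)) = kW n z0 p := by
      rw [eval_kPoly_kdir]
      rfl
    rw [kVF_kshift, e2, smul_add, smul_smul, inv_mul_cancel₀ hW.ne', one_smul]
  have e3 : nm (kY n z0 (krot α (kshift (kdir n z0) a t)) p) =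
      nm (kY n z0 (kshift (kdir n z0) a t) p) := by
    unfold kY
    rw [kVF_krot]
    have e4 : (kW n z0 p)⁻¹ • turn α (kVF n (kshift (kdir n z0) a t)) p =
        turn α (fun z => (kW n z0 p)⁻¹ • kVF n (kshift (kdir n z0) a t) z) p := by
      unfold turn
      ext
      · simp only [Prod.smul_fst, smul_eq_mul, Prod.smul_snd]
        ring
      · simp only [Prod.smul_fst, smul_eq_mul, Prod.smul_snd]
        ring
    rw [e4, nm_turn]
  rw [e3, e1] at hlt
  refine hlt.trans_le ?_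
  refine div_le_div_of_nonneg_right ?_ (by positivity)
  have b1 := kB_rot hn z0 α (kshift (kdir n z0) a t)
  have b2 := kB_shift hn h0 a ht
  have b3 := kB_nonneg n z0 a
  linarith

set_option linter.unusedVariables false in
theorem measurableSet_kAct {n k : ℕ} (hn : 1 ≤ n) (hk : 24 ≤ k) {z0 : ℝ × ℝ}
    (hz0 : (2 : ℝ) ^ k / 4 ≤ nm z0) : MeasurableSet (kAct n k z0) := by
  set D : Set (ℝ × ℝ) := {p | nm (p - z0) ≤ cellR (kq n) k / 2} with hD
  have hne : Nonempty D := by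
    refine ⟨⟨z0, ?_⟩⟩
    have := (kpr_cellR hn k).2.2
    simp only [hD, mem_ofPred_eq, sub_self]
    have e : nm (0 : ℝ × ℝ) = 0 := by
      unfold nm
      simp
    rw [e]
    positivity
  have hcont : ∀ a : KSp n, Continuous fun p : D => nm (kY n z0 a p) := by
    intro a
    refine continuous_nm.comp ?_
    unfold kY
    have c1 : Continuous fun p : D => kW n z0 (p : ℝ × ℝ) := by
      unfold kW
      fun_prop
    have c2 : Continuous fun p : D => kVF n a (p : ℝ × ℝ) := by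
      unfold kVF vf
      simp only [KosKernel_eval]
      fun_prop
    exact (c1.inv₀ fun p => (kpr_kW_pos hn hz0 p.2).ne').smul c2
  have e : kAct n k z0 = ⋃ i : ℕ, {a | nm (kY n z0 a (TopologicalSpace.denseSeq D i)) <
      30000 * (1 + kB n z0 a) / 2 ^ (16 * (k / 24))} := by
    ext a
    simp only [kAct, mem_ofPred_eq, mem_iUnion]
    constructor
    · rintro ⟨p, hp, hlt⟩
      have ho : IsOpen {q : D | nm (kY n z0 a q) <
          30000 * (1 + kB n z0 a) / 2 ^ (16 * (k / 24))} := isOpen_lt (hcont a) continuous_const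
      obtain ⟨i, hi⟩ := (TopologicalSpace.denseRange_denseSeq D).exists_mem_open ho
        ⟨⟨p, hp⟩, hlt⟩
      exact ⟨i, hi⟩
    · rintro ⟨i, hi⟩
      exact ⟨_, (TopologicalSpace.denseSeq D i).2, hi⟩
  rw [e]
  refine MeasurableSet.iUnion fun i => ?_
  have m1 : Measurable fun a : KSp n => nm (kY n z0 a (TopologicalSpace.denseSeq D i)) := by
    refine (continuous_nm.comp ?_).measurable
    unfold kY kVF vf
    simp only [KosKernel_eval]
    fun_prop
  have m2 := measurable_kB n z0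
  exact measurableSet_lt m1 (by fun_prop)

end Pool.Agent.Lib.MP_95e7ec_an
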