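import Mathlib
import Pool.Agent.Lib.MP_95e7ec_an.KpRad
import Pool.Agent.Lib.MP_95e7ec_an.KpAct
import Pool.Agent.Lib.MP_95e7ec_an.Cells

/-!
# Kostlan fields, sharp count: a closed orbit in a large cell meets a small active cell
-/

set_option autoImplicit false

open Set Filter Topology MeasureTheory ProbabilityTheory
open scoped ContDiff ENNReal

namespace Pool.Agent.Lib.MP_95e7ec_an

private theorem kpc_nonneg (u : ℝ × ℝ) : 0 ≤ nm u := Real.sqrt_nonneg _

private theorem kpc_cs (u v : ℝ × ℝ) : |dot u v| ≤ nm u * nm v := by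
  have hu := nm_sq u
  have hv := nm_sq v
  have hu0 := kpc_nonneg u
  have hv0 := kpc_nonneg v
  apply abs_le_of_sq_le_sq _ (mul_nonneg hu0 hv0)
  rw [mul_pow, hu, hv]
  unfold dot
  nlinarith [sq_nonneg (u.1 * v.2 - u.2 * v.1)]

private theorem kpc_add (u v : ℝ × ℝ) : nm (u + v) ≤ nm u + nm v := by
  have hu := nm_sq u
  have hv := nm_sq v
  have hu0 := kpc_nonneg u
  have hv0 := kpc_nonneg v
  have hsum : nm (u + v) ^ 2 = (u.1 + v.1) ^ 2 + (u.2 + v.2) ^ 2 := by
    rw [nm_sq]; rfl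
  have hcs := (abs_le.1 (kpc_cs u v)).2
  unfold dot at hcs
  refine le_of_sq_le_sq ?_ (add_nonneg hu0 hv0)
  rw [hsum]
  nlinarith

private theorem kpc_smul (c : ℝ) (u : ℝ × ℝ) : nm (c • u) = |c| * nm u := by
  have h1 := nm_sq (c • u)
  have h2 := nm_sq u
  have h3 : nm (c • u) ^ 2 = (|c| * nm u) ^ 2 := by
    rw [h1, mul_pow, h2, sq_abs]
    simp only [Prod.smul_fst, Prod.smul_snd, smul_eq_mul]
    ring
  exact (pow_left_inj₀ (kpc_nonneg _) (mul_nonneg (abs_nonneg _) (kpc_nonneg _)) two_ne_zero).1 h3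

private theorem kpc_mem_disc {c z : ℝ × ℝ} {r : ℝ} (hr : 0 < r) : z ∈ disc c r ↔ nm (z - c) < r := by
  have h1 := nm_sq (z - c)
  have h0 : 0 ≤ nm (z - c) := Real.sqrt_nonneg _
  simp only [disc, Set.mem_ofPred_eq]
  simp only [Prod.fst_sub, Prod.snd_sub] at h1
  rw [← h1]
  exact ⟨fun h => lt_of_pow_lt_pow_left₀ 2 hr.le h, fun h => pow_lt_pow_left₀ h h0 two_ne_zero⟩

private theorem kpc_nm_lt {u : ℝ × ℝ} {r : ℝ} (hr : 0 ≤ r) (h1 : |u.1| ≤ r / 2)
    (h2 : |u.2| ≤ r / 2) : nm u ≤ 3 / 4 * r := by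
  have hsq := nm_sq u
  have h0 := kpc_nonneg u
  have e1 : u.1 ^ 2 ≤ (r / 2) ^ 2 := by
    rw [← sq_abs u.1]; exact pow_le_pow_left₀ (abs_nonneg _) h1 2
  have e2 : u.2 ^ 2 ≤ (r / 2) ^ 2 := by
    rw [← sq_abs u.2]; exact pow_le_pow_left₀ (abs_nonneg _) h2 2
  nlinarith

theorem exists_cell_point {q : ℕ} (hq : 1 ≤ q) (k : ℕ) {p : ℝ × ℝ} (h1 : nm p < 2 ^ k)
    (h2 : (2 : ℝ) ^ k / 2 ≤ nm p) : ∃ i ∈ cells q k, nm (p - cellC q k i) ≤ cellR q k / 2 := by
  classical
  have hn' : (1 : ℝ) ≤ q := by exact_mod_cast hq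
  have h2k : (0 : ℝ) < 2 ^ k := by positivity
  set h : ℝ := cellR q k / 2 with hh
  have hval : h = 2 ^ k / (16 * q) := by
    rw [hh]; unfold cellR; field_simp; ring
  have hpos : 0 < h := by rw [hval]; positivity
  have hh16 : h * (16 * q) = 2 ^ k := by rw [hval]; field_simp
  have hnp := nm_sq p
  have hp0 := kpc_nonneg p
  have hx : |p.1| < 2 ^ k := abs_lt_of_sq_lt_sq (by nlinarith [sq_nonneg p.2]) h2k.le
  have hy : |p.2| < 2 ^ k := abs_lt_of_sq_lt_sq (by nlinarith [sq_nonneg p.1]) h2k.le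
  have hround : ∀ x : ℝ, |x| < 2 ^ k →
      |x - round (x / h) * h| ≤ h / 2 ∧ round (x / h) ∈ Finset.Icc (-(16 * q : ℤ)) (16 * q) := by
    intro x hx
    have hr := abs_sub_round (x / h)
    have hd1 : x = x / h * h := by field_simp
    constructor
    · have : x - round (x / h) * h = (x / h - round (x / h)) * h := by
        rw [sub_mul]; rw [← hd1]
      rw [this, abs_mul, abs_of_pos hpos]
      nlinarith
    · have hlt : |x / h| < 16 * q := by
        rw [abs_div, abs_of_pos hpos, div_lt_iff₀ hpos]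
        nlinarith
      rw [abs_lt] at hlt
      rw [abs_le] at hr
      rw [Finset.mem_Icc]
      constructor
      · have : (-(16 * q : ℝ)) - 1 < round (x / h) := by linarith
        have h3 : (-(16 * q : ℤ)) - 1 < round (x / h) := by exact_mod_cast this
        omega
      · have : (round (x / h) : ℝ) < 16 * q + 1 := by linarith
        have h3 : round (x / h) < (16 * q : ℤ) + 1 := by exact_mod_cast this
        omega
  obtain ⟨hx1, hx2⟩ := hround p.1 hx
  obtain ⟨hy1, hy2⟩ := hround p.2 hy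
  set i : ℤ × ℤ := (round (p.1 / h), round (p.2 / h)) with hi
  have hcell : cellC q k i = (round (p.1 / h) * h, round (p.2 / h) * h) := by
    simp only [cellC, hi, ← hh]
  have hdist : nm (p - cellC q k i) ≤ 3 / 4 * h := by
    apply kpc_nm_lt hpos.le
    · rw [hcell]; exact hx1
    · rw [hcell]; exact hy1
  refine ⟨i, ?_, by linarith⟩
  unfold cells
  rw [Finset.mem_filter, Finset.mem_product]
  refine ⟨⟨hx2, hy2⟩, Or.inr ?_⟩
  have htri := kpc_add (p - cellC q k i) (cellC q k i)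
  rw [sub_add_cancel] at htri
  have hh1 : h ≤ 2 ^ k / 16 := by
    rw [hval]
    apply div_le_div_of_nonneg_left h2k.le (by norm_num)
    nlinarith
  linarith

/-- two points of a disc which is far from the origin have a positive inner product -/
private theorem kpc_dot_pos {c p z : ℝ × ℝ} {ρ : ℝ} (hρ : 0 < ρ) (hc : 2 * ρ ≤ nm c)
    (hp : nm (p - c) < ρ) (hz : nm (z - c) < ρ) : 0 < dot p z := by
  have hS := nm_sq c
  have hc0 : 0 < nm c := by linarith
  obtain ⟨S, hSdef⟩ : ∃ S : ℝ, S = c.1 ^ 2 + c.2 ^ 2 := ⟨_, rfl⟩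
  have hS0 : 0 < S := by
    rw [hSdef, ← hS]
    positivity
  have key : ∀ u : ℝ × ℝ, nm (u - c) < ρ →
      0 < dot c u ∧ 3 * (det2 c u) ^ 2 ≤ (dot c u) ^ 2 := by
    intro u hu
    have h1 := nm_sq (u - c)
    simp only [Prod.fst_sub, Prod.snd_sub] at h1
    have h0 := kpc_nonneg (u - c)
    have h2 : (u.1 - c.1) ^ 2 + (u.2 - c.2) ^ 2 < S / 4 := by
      rw [← h1, hSdef, ← hS]
      nlinarith
    have h3 : (dot c u - S) ^ 2 + (det2 c u) ^ 2 = S * ((u.1 - c.1) ^ 2 + (u.2 - c.2) ^ 2) := by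
      rw [hSdef]
      unfold dot det2
      ring
    have h4 : (dot c u - S) ^ 2 + (det2 c u) ^ 2 < S ^ 2 / 4 := by
      rw [h3]
      nlinarith
    have h5 : |dot c u - S| < S / 2 := by
      apply abs_lt_of_sq_lt_sq _ (by linarith)
      nlinarith [sq_nonneg (det2 c u)]
    rw [abs_lt] at h5
    refine ⟨by linarith, ?_⟩
    nlinarith [sq_nonneg (2 * dot c u - 3 * S / 2)]
  obtain ⟨a1, a2⟩ := key p hp
  obtain ⟨b1, b2⟩ := key z hz
  have h6 : dot c p * dot c z + det2 c p * det2 c z = S * dot p z := by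
    rw [hSdef]
    unfold dot det2
    ring
  have h7 : (det2 c p * det2 c z) ^ 2 < (dot c p * dot c z) ^ 2 := by
    have h8 : 9 * (det2 c p * det2 c z) ^ 2 ≤ (dot c p * dot c z) ^ 2 := by
      have := mul_le_mul a2 b2 (by positivity) (by positivity)
      nlinarith
    have h9 : 0 < (dot c p * dot c z) ^ 2 := by positivity
    nlinarith [sq_nonneg (det2 c p * det2 c z)]
  have h8 := abs_lt_of_sq_lt_sq h7 (by positivity)
  rw [abs_lt] at h8
  have h9 : 0 < S * dot p z := by linarith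
  exact (mul_pos_iff_of_pos_left hS0).1 h9

theorem act_cell {n k : ℕ} (hn : 1 ≤ n) (hk : 24 ≤ k) (a : KSp n) {C : Set (ℝ × ℝ)}
    (hC : IsClosedOrbit (kVF n a) C) (h1 : C ⊆ disc 0 (2 ^ k)) (h2 : ¬ C ⊆ disc 0 (2 ^ (k - 1)))
    {i : ℤ × ℤ} (hi : i ∈ cells (qk n k) k)
    (h3 : C ⊆ disc (cellC (qk n k) k i) (cellR (qk n k) k)) :
    ∃ j ∈ cells (kq n) k, a ∈ kAct n k (cellC (kq n) k j) ∧
      ∃ p ∈ C, nm (p - cellC (kq n) k j) ≤ cellR (kq n) k / 2 := by
  classical
  have h2k : (0 : ℝ) < 2 ^ k := by positivity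
  have hk0 : k ≠ 0 := by omega
  -- the number `qk`
  obtain ⟨q, hqd⟩ : ∃ q : ℕ, q = qk n k := ⟨_, rfl⟩
  obtain ⟨m, hm⟩ : ∃ m : ℕ, m = 2 ^ (8 * (k / 24)) := ⟨_, rfl⟩
  have hm0 : 0 < m := by rw [hm]; positivity
  have hq : q = Nat.sqrt n / m + 1 := by
    rw [hqd, hm]
    unfold qk
    rw [if_neg (by omega)]
  have hq1 : 1 ≤ q := by rw [hq]; exact Nat.le_add_left _ _
  have hq1' : (1 : ℝ) ≤ q := by exact_mod_cast hq1
  have hqm : Real.sqrt n ≤ q * m := by
    have e1 := @Real.real_sqrt_le_nat_sqrt_succ n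
    have e2 : Nat.sqrt n + 1 ≤ q * m := by
      rw [hq]
      have e3 := Nat.lt_mul_div_succ (Nat.sqrt n) hm0
      rw [mul_comm] at e3
      exact e3
    have e3 : ((Nat.sqrt n + 1 : ℕ) : ℝ) ≤ ((q * m : ℕ) : ℝ) := by exact_mod_cast e2
    push_cast at e3
    linarith
  rw [← hqd] at hi h3
  obtain ⟨ρ, hρd⟩ : ∃ ρ : ℝ, ρ = cellR q k := ⟨_, rfl⟩
  have hρv : ρ = 2 ^ k / (8 * q) := by rw [hρd]; rfl
  have hρ0 : 0 < ρ := by rw [hρv]; positivity
  have hρ8 : ρ ≤ 2 ^ k / 8 := by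
    rw [hρv]
    apply div_le_div_of_nonneg_left h2k.le (by norm_num)
    linarith
  rw [← hρd] at h3
  obtain ⟨c, hcd⟩ : ∃ c, c = cellC q k i := ⟨_, rfl⟩
  rw [← hcd] at h3
  have hc : (2 : ℝ) ^ k / 4 ≤ nm c := by
    unfold cells at hi
    rw [Finset.mem_filter] at hi
    rcases hi.2 with h | h
    · exact absurd h hk0
    · rw [hcd]; exact h
  have hpos : ∀ p ∈ C, ∀ z ∈ C, 0 < dot p z := by
    intro p hp z hz
    have e1 := (kpc_mem_disc hρ0).1 (h3 hp)
    have e2 := (kpc_mem_disc hρ0).1 (h3 hz)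
    exact kpc_dot_pos hρ0 (by linarith) e1 e2
  obtain ⟨p, hpC, hmax, lam, hlam0, hlamC, hlam⟩ := act_exists hC hpos
  have hp2 : (2 : ℝ) ^ k / 2 ≤ nm p := by
    rw [Set.not_subset] at h2
    obtain ⟨z, hz, hz'⟩ := h2
    rw [kpc_mem_disc (by positivity), not_lt, sub_zero] at hz'
    have h5 : (2 : ℝ) ^ k = 2 ^ (k - 1) * 2 := by
      rw [← pow_succ]
      congr 1
      omega
    have := hmax z hz
    rw [h5]
    linarith
  have hp1 : nm p < 2 ^ k := by
    have := (kpc_mem_disc h2k).1 (h1 hpC)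
    rwa [sub_zero] at this
  have hkq : 1 ≤ kq n := by unfold kq; omega
  obtain ⟨j, hj, hpj⟩ := exists_cell_point hkq k hp1 hp2
  obtain ⟨z0, hz0d⟩ : ∃ z0, z0 = cellC (kq n) k j := ⟨_, rfl⟩
  have hz0 : (2 : ℝ) ^ k / 4 ≤ nm z0 := by
    unfold cells at hj
    rw [Finset.mem_filter] at hj
    rcases hj.2 with h | h
    · exact absurd h hk0
    · rw [hz0d]; exact h
  rw [← hz0d] at hpj
  -- the number `lam`
  have hl1 : |lam - 1| * nm p < 2 * ρ := by
    have e1 := (kpc_mem_disc hρ0).1 (h3 hlamC)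
    have e2 := (kpc_mem_disc hρ0).1 (h3 hpC)
    have e3 : lam • p - p = (lam • p - c) + (-1 : ℝ) • (p - c) := by
      ext <;> simp
    have e4 : nm (lam • p - p) = |lam - 1| * nm p := by
      rw [← kpc_smul]
      congr 1
      rw [sub_smul, one_smul]
    rw [← e4, e3]
    refine (kpc_add _ _).trans_lt ?_
    rw [kpc_smul]
    norm_num
    linarith
  have hl2 : |lam - 1| ≤ 1 / (2 * q) := by
    have e1 : |lam - 1| * (2 ^ k / 2) ≤ 2 * ρ := by
      have := mul_le_mul_of_nonneg_left hp2 (abs_nonneg (lam - 1))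
      linarith
    have e2 : 2 * ρ = 1 / (2 * q) * (2 ^ k / 2) := by
      rw [hρv]
      field_simp
      norm_num
    rw [e2] at e1
    exact le_of_mul_le_mul_right e1 (by positivity)
  have hl3 : |lam - 1| ≤ 1 / 2 := by
    refine hl2.trans ?_
    apply div_le_div_of_nonneg_left (by norm_num) (by norm_num)
    linarith
  have hl4 : 1 / 3 ≤ lam := by
    have := (abs_le.1 hl3).1
    linarith
  have hsn : 0 < Real.sqrt n := by
    apply Real.sqrt_pos.2
    exact_mod_cast hn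
  have hl5 : |lam - 1| ≤ 2 ^ (8 * (k / 24)) / Real.sqrt n := by
    refine hl2.trans ?_
    rw [div_le_div_iff₀ (by positivity) hsn]
    have : ((m : ℕ) : ℝ) = 2 ^ (8 * (k / 24)) := by
      rw [hm]
      push_cast
      rfl
    rw [← this]
    nlinarith
  have hrad := kp_rad hn hk hz0 a hpj hl4 hl5
  -- positivity of `kW`
  have hr : cellR (kq n) k / 2 ≤ 2 ^ k / 16 := by
    have e1 : (1 : ℝ) ≤ kq n := by exact_mod_cast hkq
    unfold cellR
    rw [div_div]
    apply div_le_div_of_nonneg_left h2k.le (by norm_num)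
    linarith
  have hdot : 0 < dot z0 p := by
    have e1 : dot z0 p = nm p ^ 2 - dot (p - z0) p := by
      rw [nm_sq]
      unfold dot
      simp only [Prod.fst_sub, Prod.snd_sub]
      ring
    have e2 := (abs_le.1 (kpc_cs (p - z0) p)).2
    have e3 := kpc_nonneg p
    have e4 : nm (p - z0) * nm p ≤ 2 ^ k / 16 * nm p :=
      mul_le_mul_of_nonneg_right (hpj.trans hr) e3
    rw [e1]
    nlinarith
  have hs1 : 0 < sq1 z0 := by
    unfold sq1
    positivity
  have hW : ∀ t : ℝ, 0 < t → 0 < kW n z0 (t • p) := by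
    intro t ht
    unfold kW
    have e1 : 1 + z0.1 * (t • p).1 + z0.2 * (t • p).2 = 1 + t * dot z0 p := by
      simp only [Prod.smul_fst, Prod.smul_snd, smul_eq_mul]
      unfold dot
      ring
    rw [e1]
    positivity
  have hW1 : 0 < kW n z0 p := by
    have := hW 1 one_pos
    rwa [one_smul] at this
  have hW2 := hW lam hlam0
  have hfin : nm (kY n z0 a p) ≤ nm (kY n z0 a p - kY n z0 a (lam • p)) := by
    have e1 := hlam (kW n z0 p / kW n z0 (lam • p)) (by positivity)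
    have e2 : kY n z0 a p - kY n z0 a (lam • p) = (kW n z0 p)⁻¹ • (kVF n a p -
        (kW n z0 p / kW n z0 (lam • p)) • kVF n a (lam • p)) := by
      unfold kY
      rw [smul_sub, smul_smul]
      congr 2
      field_simp
    rw [e2, kpc_smul]
    unfold kY
    rw [kpc_smul]
    exact mul_le_mul_of_nonneg_left e1 (abs_nonneg _)
  refine ⟨j, hj, ?_, p, hpC, by rw [← hz0d]; exact hpj⟩
  rw [← hz0d]
  refine ⟨p, hpj, ?_⟩
  refine (hfin.trans hrad).trans_lt ?_
  have hB := kB_nonneg n z0 a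
  rw [div_lt_div_iff_of_pos_right (by positivity)]
  linarith

end Pool.Agent.Lib.MP_95e7ec_an
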