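import Mathlib
import Pool.Agent.Lib.MP_95e7ec_an.CountW

/-!
# The mean over a small set of weighted translations of the number of closed orbits
-/

set_option autoImplicit false

open Set Filter Topology MeasureTheory
open scoped ContDiff ENNReal

namespace Pool.Agent.Lib.MP_95e7ec_an

variable {D : ℕ}

/-- the mean of the number of closed orbits of one scale, the weight is positive only locally -/
private theorem kpc_class_avg (μ : Pr D) (wt : Co D) {K : Set (ℝ × ℝ)} {M₁ M₂ w0 ρ : ℝ}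
    (h : ∀ c, nm c ≤ ρ → DBound (sw μ wt c) K M₁ M₂) (hK : Convex ℝ K) (hKo : IsOpen K)
    (hM1 : 0 < M₁) (hM2 : 0 < M₂) (hw0 : 0 < w0)
    (hw : ∀ z ∈ K, w0 ≤ pe wt z.1 z.2) (j : ℕ) :
    ∃ H : ℝ × ℝ → ℝ≥0∞, Measurable H ∧
      (∀ c, nm c ≤ ρ → ∫⁻ α in Set.Ioo 0 Real.pi,
        orbitSum (midW M₁ M₂ j) (vfc (sw μ wt c)) K α ≤ H c) ∧
      ∫⁻ c, H c ≤ volume K * ENNReal.ofReal (1541 * M₁ ^ 2 * (5 / 6) ^ j / w0 ^ 2) := by
  have hs : (0 : ℝ) < 13 * (5 / 6) ^ j := by positivity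
  obtain ⟨Hb, hbm, hb1, hb2⟩ := avg_bad_wK μ wt h hK hKo hM1 hM2 hw0 hw (lamk_pos j)
    (lamk_le_one j) (ellk_spec hM2 j) hs
  obtain ⟨Hg, hgm, hg1, hg2⟩ := avg_good_w μ wt hKo.measurableSet hw0 hw
    (r := 3 * M₁ * ellk M₁ M₂ j) (by have := ellk_pos hM1 hM2 j; positivity)
  refine ⟨fun c => (ENNReal.ofReal (ellk M₁ M₂ (j + 1)))⁻¹ * (ENNReal.ofReal (3 * M₁) * Hb c) +
      ENNReal.ofReal (4 * M₂ / lamk j ^ 2) * Hg c, ?_, ?_, ?_⟩
  · exact ((hbm.const_mul _).const_mul _).add (hgm.const_mul _)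
  · intro c hc
    refine (class_one (h c hc) hK hKo hM1 hM2 j).trans ?_
    refine add_le_add ?_ ?_
    · gcongr
      exact hb1 c hc
    · gcongr
      exact hg1 c
  · have hinv : ∀ a : ℝ, 0 < a → ∀ b : ℝ, 0 ≤ b → (ENNReal.ofReal a)⁻¹ * ENNReal.ofReal b =
        ENNReal.ofReal (b / a) := by
      intro a ha b hb
      rw [← ENNReal.ofReal_inv_of_pos ha, ← ENNReal.ofReal_mul (by positivity), div_eq_mul_inv,
        mul_comm]
    have hpi := Real.pi_lt_d2
    have hpi0 := Real.pi_pos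
    have hK0 : ∀ x : ℝ≥0∞, ∀ a : ℝ, 0 ≤ a → ∀ b : ℝ, 0 ≤ b → ENNReal.ofReal a * (x * ENNReal.ofReal b)
        = x * ENNReal.ofReal (a * b) := by
      intro x a ha b hb
      rw [ENNReal.ofReal_mul ha]
      ring
    have hek := ellk_pos hM1 hM2 j
    have hek1 := ellk_pos hM1 hM2 (j + 1)
    have hlk := lamk_pos j
    have hsp := ellk_spec (M₁ := M₁) hM2 j
    rw [lintegral_add_left ((hbm.const_mul _).const_mul _)]
    have B1 : ∫⁻ c, (ENNReal.ofReal (ellk M₁ M₂ (j + 1)))⁻¹ * (ENNReal.ofReal (3 * M₁) * Hb c) ≤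
        volume K * ENNReal.ofReal (1465 * M₁ ^ 2 * (5 / 6) ^ j / w0 ^ 2) := by
      rw [lintegral_const_mul _ (hbm.const_mul _), lintegral_const_mul _ hbm]
      have hpos : 0 ≤ M₁ * ellk M₁ M₂ j * (2 * Real.pi * (13 * (5 / 6) ^ j) +
          1060 * lamk j / (13 * (5 / 6) ^ j)) / w0 ^ 2 := by positivity
      calc (ENNReal.ofReal (ellk M₁ M₂ (j + 1)))⁻¹ * (ENNReal.ofReal (3 * M₁) * ∫⁻ c, Hb c)
          ≤ (ENNReal.ofReal (ellk M₁ M₂ (j + 1)))⁻¹ * (ENNReal.ofReal (3 * M₁) *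
            (volume K * ENNReal.ofReal (M₁ * ellk M₁ M₂ j * (2 * Real.pi * (13 * (5 / 6) ^ j) +
              1060 * lamk j / (13 * (5 / 6) ^ j)) / w0 ^ 2))) := by
            gcongr
        _ = volume K * ((ENNReal.ofReal (ellk M₁ M₂ (j + 1)))⁻¹ *
              ENNReal.ofReal (3 * M₁ * (M₁ * ellk M₁ M₂ j * (2 * Real.pi * (13 * (5 / 6) ^ j) +
              1060 * lamk j / (13 * (5 / 6) ^ j)) / w0 ^ 2))) := by
            rw [hK0 _ _ (by positivity) _ hpos]
            ring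
        _ = volume K * ENNReal.ofReal (3 * M₁ * (M₁ * ellk M₁ M₂ j *
              (2 * Real.pi * (13 * (5 / 6) ^ j) + 1060 * lamk j / (13 * (5 / 6) ^ j)) / w0 ^ 2) /
              ellk M₁ M₂ (j + 1)) := by
            rw [hinv _ hek1 _ (by positivity)]
        _ ≤ volume K * ENNReal.ofReal (1465 * M₁ ^ 2 * (5 / 6) ^ j / w0 ^ 2) := by
            refine mul_le_mul_right (ENNReal.ofReal_le_ofReal ?_) _
            rw [div_le_iff₀ hek1, ellk_succ]
            have hl : lamk j = (5 / 6) ^ j * (5 / 6) ^ j := by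
              unfold lamk
              rw [← mul_pow]
              norm_num
            have h5 : (0 : ℝ) < (5 / 6) ^ j := by positivity
            have hq : 1060 * lamk j / (13 * (5 / 6) ^ j) = 1060 / 13 * (5 / 6) ^ j := by
              rw [hl]
              field_simp
            rw [hq]
            have h6 : 0 < M₁ ^ 2 * ellk M₁ M₂ j * (5 / 6) ^ j / w0 ^ 2 := by positivity
            have e1 : 3 * M₁ * (M₁ * ellk M₁ M₂ j * (2 * Real.pi * (13 * (5 / 6) ^ j) +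
                1060 / 13 * (5 / 6) ^ j) / w0 ^ 2) =
                (78 * Real.pi + 3180 / 13) * (M₁ ^ 2 * ellk M₁ M₂ j * (5 / 6) ^ j / w0 ^ 2) := by
              ring
            have e2 : 1465 * M₁ ^ 2 * (5 / 6) ^ j / w0 ^ 2 * ((25 / 36) ^ 3 * ellk M₁ M₂ j) =
                1465 * (25 / 36) ^ 3 * (M₁ ^ 2 * ellk M₁ M₂ j * (5 / 6) ^ j / w0 ^ 2) := by
              ring
            rw [e1, e2]
            nlinarith
    have B2 : ∫⁻ c, ENNReal.ofReal (4 * M₂ / lamk j ^ 2) * Hg c ≤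
        volume K * ENNReal.ofReal (76 * M₁ ^ 2 * (25 / 36) ^ j / w0 ^ 2) := by
      rw [lintegral_const_mul _ hgm]
      calc ENNReal.ofReal (4 * M₂ / lamk j ^ 2) * ∫⁻ c, Hg c
          ≤ ENNReal.ofReal (4 * M₂ / lamk j ^ 2) *
            (volume K * ENNReal.ofReal (2 * Real.pi * (3 * M₁ * ellk M₁ M₂ j) / w0 ^ 2)) := by
            gcongr
        _ = volume K * ENNReal.ofReal (4 * M₂ / lamk j ^ 2 *
              (2 * Real.pi * (3 * M₁ * ellk M₁ M₂ j) / w0 ^ 2)) := by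
            rw [hK0 _ _ (by positivity) _ (by positivity)]
        _ ≤ volume K * ENNReal.ofReal (76 * M₁ ^ 2 * (25 / 36) ^ j / w0 ^ 2) := by
            refine mul_le_mul_right (ENNReal.ofReal_le_ofReal ?_) _
            have e : 4 * M₂ / lamk j ^ 2 * (2 * Real.pi * (3 * M₁ * ellk M₁ M₂ j) / w0 ^ 2) =
                24 * Real.pi * M₁ * (M₂ * ellk M₁ M₂ j) / lamk j ^ 2 / w0 ^ 2 := by ring
            rw [e, hsp]
            gcongr
            rw [div_le_iff₀ (by positivity)]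
            have hl : (25 / 36 : ℝ) ^ j = lamk j := rfl
            rw [hl]
            have : 0 < M₁ ^ 2 * lamk j ^ 3 := by positivity
            nlinarith
    refine (add_le_add B1 B2).trans ?_
    rw [← mul_add, ← ENNReal.ofReal_add (by positivity) (by positivity)]
    refine mul_le_mul_right (ENNReal.ofReal_le_ofReal ?_) _
    rw [← add_div]
    gcongr
    have h1 : (25 / 36 : ℝ) ^ j ≤ (5 / 6) ^ j := pow_le_pow_left₀ (by norm_num) (by norm_num) j
    have h2 : 76 * M₁ ^ 2 * (25 / 36) ^ j ≤ 76 * M₁ ^ 2 * (5 / 6) ^ j := by gcongr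
    linarith

private theorem kpc_vfc_sw (μ : Pr D) (wt : Co D) (c z : ℝ × ℝ) :
    vfc (sw μ wt c) z = vfc μ z + pe wt z.1 z.2 • c := by
  unfold vfc sw
  ext
  · simp [avb_pe_add, avb_pe_smul, mul_comm]
  · simp [avb_pe_add, avb_pe_smul, mul_comm]

private theorem kpc_nm_smul {w : ℝ} (hw : 0 ≤ w) (u : ℝ × ℝ) : nm (w • u) = w * nm u := by
  unfold nm
  have h1 : (w • u).1 ^ 2 + (w • u).2 ^ 2 = w ^ 2 * (u.1 ^ 2 + u.2 ^ 2) := by
    simp only [Prod.smul_fst, Prod.smul_snd, smul_eq_mul]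
    ring
  rw [h1, Real.sqrt_mul (by positivity), Real.sqrt_sq hw]

/-- the integral of `1/|c + w t|` over a small set -/
private theorem kpc_mean (c : ℝ × ℝ) {w w0 e : ℝ} (hw0 : 0 < w0) (hw : w0 ≤ w) (he : 0 < e)
    {E : Set (ℝ × ℝ)} (hE : MeasurableSet E) (hv : volume E ≤ ENNReal.ofReal (e ^ 16)) :
    ∫⁻ t in E, (ENNReal.ofReal (nm (c + w • t)))⁻¹ ≤
      ENNReal.ofReal (22 / 3 * e ^ 8 / w0) := by
  have hwp : 0 < w := hw0.trans_le hw
  set b : ℝ × ℝ := w⁻¹ • c with hb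
  have h1 : ∀ t : ℝ × ℝ, c + w • t = w • (t + b) := by
    intro t
    rw [hb, smul_add, smul_smul, mul_inv_cancel₀ hwp.ne', one_smul, add_comm]
  have hE' : MeasurableSet ((fun u : ℝ × ℝ => u + -b) ⁻¹' E) :=
    (measurable_add_const (-b)) hE
  have hm : Measurable fun u : ℝ × ℝ => (ENNReal.ofReal (nm u))⁻¹ :=
    (ENNReal.measurable_ofReal.comp continuous_nm.measurable).inv
  have h2 : ∀ t : ℝ × ℝ, (ENNReal.ofReal (nm (c + w • t)))⁻¹ ≤
      ENNReal.ofReal w0⁻¹ * (ENNReal.ofReal (nm (t + b)))⁻¹ := by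
    intro t
    rw [h1, kpc_nm_smul hwp.le, ENNReal.ofReal_mul hwp.le, ENNReal.mul_inv
      (Or.inl (ENNReal.ofReal_pos.mpr hwp).ne') (Or.inl ENNReal.ofReal_ne_top)]
    gcongr
    rw [← ENNReal.ofReal_inv_of_pos hwp]
    apply ENNReal.ofReal_le_ofReal
    gcongr
  have h3 : ∫⁻ t in E, (ENNReal.ofReal (nm (t + b)))⁻¹ =
      ∫⁻ u in (fun u : ℝ × ℝ => u + -b) ⁻¹' E, (ENNReal.ofReal (nm u))⁻¹ := by
    rw [← lintegral_indicator hE, ← lintegral_indicator hE']
    refine Eq.trans ?_ (lintegral_add_right_eq_self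
      (fun u => ((fun u : ℝ × ℝ => u + -b) ⁻¹' E).indicator
      (fun u => (ENNReal.ofReal (nm u))⁻¹) u) b)
    refine lintegral_congr fun t => ?_
    have hmem : (t + b ∈ (fun u : ℝ × ℝ => u + -b) ⁻¹' E) ↔ t ∈ E := by
      rw [Set.mem_preimage, add_neg_cancel_right]
    by_cases ht : t ∈ E
    · rw [Set.indicator_of_mem ht, Set.indicator_of_mem (hmem.2 ht)]
    · rw [Set.indicator_of_notMem ht, Set.indicator_of_notMem fun hh => ht (hmem.1 hh)]
  have hvol : volume ((fun u : ℝ × ℝ => u + -b) ⁻¹' E) ≤ ENNReal.ofReal (e ^ 16) := by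
    rw [measure_preimage_add_right]
    exact hv
  have h5 := lintegral_inv_nm_le hE' (a := e ^ 8) (by positivity) (m := e ^ 16) (by positivity)
    hvol
  have hm2 : Measurable fun t : ℝ × ℝ => (ENNReal.ofReal (nm (t + b)))⁻¹ :=
    hm.comp (measurable_add_const b)
  calc ∫⁻ t in E, (ENNReal.ofReal (nm (c + w • t)))⁻¹
      ≤ ∫⁻ t in E, ENNReal.ofReal w0⁻¹ * (ENNReal.ofReal (nm (t + b)))⁻¹ :=
        lintegral_mono fun t => h2 t
    _ = ENNReal.ofReal w0⁻¹ *
        ∫⁻ u in (fun u : ℝ × ℝ => u + -b) ⁻¹' E, (ENNReal.ofReal (nm u))⁻¹ := by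
        rw [lintegral_const_mul _ hm2, h3]
    _ ≤ ENNReal.ofReal w0⁻¹ * ENNReal.ofReal (2 * Real.pi * e ^ 8 + e ^ 16 / e ^ 8) := by gcongr
    _ ≤ ENNReal.ofReal (22 / 3 * e ^ 8 / w0) := by
        rw [← ENNReal.ofReal_mul (by positivity)]
        apply ENNReal.ofReal_le_ofReal
        have := Real.pi_lt_d2
        have e1 : e ^ 16 / e ^ 8 = e ^ 8 := by
          rw [div_eq_iff (by positivity)]; ring
        have e8 : 0 < e ^ 8 := by positivity
        rw [e1, div_eq_inv_mul]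
        gcongr
        nlinarith

/-- the number of the closed orbits of length more than `a` -/
private theorem kpc_long (μ : Pr D) (wt : Co D) {K : Set (ℝ × ℝ)} {M₁ M₂ w0 ρ a : ℝ}
    (h : ∀ c, nm c ≤ ρ → DBound (sw μ wt c) K M₁ M₂) (hKo : IsOpen K)
    (hM1 : 0 < M₁) (hw0 : 0 < w0) (hw : ∀ z ∈ K, w0 ≤ pe wt z.1 z.2) (ha : 0 < a) :
    ∃ G : ℝ × ℝ → ℝ≥0∞, Measurable G ∧
      (∀ c, nm c ≤ ρ → ∫⁻ α in Set.Ioo 0 Real.pi,
        orbitSum (upW a) (vfc (sw μ wt c)) K α ≤ G c) ∧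
      ∀ (E : Set (ℝ × ℝ)) (e : ℝ), MeasurableSet E → 0 < e →
        volume E ≤ ENNReal.ofReal (e ^ 16) →
        ∫⁻ c in E, G c ≤ volume K * ENNReal.ofReal (22 * M₁ * e ^ 8 / (a * w0)) := by
  have hcont : Continuous fun q : (ℝ × ℝ) × (ℝ × ℝ) => vfc μ q.2 + pe wt q.2.1 q.2.2 • q.1 :=
    (((avb_continuous_pe μ.1).prodMk (avb_continuous_pe μ.2)).comp continuous_snd).add
      (((avb_continuous_pe wt).comp continuous_snd).smul continuous_fst)
  have hm : Measurable fun u : ℝ × ℝ => (ENNReal.ofReal (nm u))⁻¹ :=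
    (ENNReal.measurable_ofReal.comp continuous_nm.measurable).inv
  have hF : Measurable fun q : (ℝ × ℝ) × (ℝ × ℝ) =>
      (ENNReal.ofReal (nm (vfc μ q.2 + pe wt q.2.1 q.2.2 • q.1)))⁻¹ :=
    hm.comp hcont.measurable
  have hG0 : Measurable fun c : ℝ × ℝ =>
      ∫⁻ z in K, (ENNReal.ofReal (nm (vfc μ z + pe wt z.1 z.2 • c)))⁻¹ :=
    Measurable.lintegral_prod_right' (ν := volume.restrict K) hF
  refine ⟨fun c => (ENNReal.ofReal a)⁻¹ * (ENNReal.ofReal (3 * M₁) *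
    ∫⁻ z in K, (ENNReal.ofReal (nm (vfc μ z + pe wt z.1 z.2 • c)))⁻¹), ?_, ?_, ?_⟩
  · exact (hG0.const_mul _).const_mul _
  · intro c hc
    have hlong := ca_long (sw μ wt c) (h c hc) hM1.le hKo subset_rfl ha 0
    have e0 : ∀ z, vfc (sw μ wt c) z + (0 : ℝ × ℝ) = vfc (sw μ wt c) z := fun z => add_zero _
    have hsh : vfc (shf (sw μ wt c) 0) = vfc (sw μ wt c) := by rw [shf_zero]
    simp only [hsh, e0] at hlong
    simpa only [kpc_vfc_sw] using hlong
  · intro E e hE he hv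
    rw [lintegral_const_mul _ (hG0.const_mul _), lintegral_const_mul _ hG0]
    have hswap : ∫⁻ c in E, ∫⁻ z in K, (ENNReal.ofReal (nm (vfc μ z + pe wt z.1 z.2 • c)))⁻¹ =
        ∫⁻ z in K, ∫⁻ c in E, (ENNReal.ofReal (nm (vfc μ z + pe wt z.1 z.2 • c)))⁻¹ :=
      lintegral_lintegral_swap hF.aemeasurable
    rw [hswap]
    have hin : ∫⁻ z in K, ∫⁻ c in E, (ENNReal.ofReal (nm (vfc μ z + pe wt z.1 z.2 • c)))⁻¹ ≤
        volume K * ENNReal.ofReal (22 / 3 * e ^ 8 / w0) := by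
      calc ∫⁻ z in K, ∫⁻ c in E, (ENNReal.ofReal (nm (vfc μ z + pe wt z.1 z.2 • c)))⁻¹
          ≤ ∫⁻ _ in K, ENNReal.ofReal (22 / 3 * e ^ 8 / w0) :=
            setLIntegral_mono' hKo.measurableSet fun z hz =>
              kpc_mean (vfc μ z) hw0 (hw z hz) he hE hv
        _ = volume K * ENNReal.ofReal (22 / 3 * e ^ 8 / w0) := by
            rw [setLIntegral_const, mul_comm]
    calc (ENNReal.ofReal a)⁻¹ * (ENNReal.ofReal (3 * M₁) * ∫⁻ z in K, ∫⁻ c in E,
          (ENNReal.ofReal (nm (vfc μ z + pe wt z.1 z.2 • c)))⁻¹)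
        ≤ (ENNReal.ofReal a)⁻¹ * (ENNReal.ofReal (3 * M₁) *
          (volume K * ENNReal.ofReal (22 / 3 * e ^ 8 / w0))) := by gcongr
      _ = volume K * (ENNReal.ofReal a⁻¹ * (ENNReal.ofReal (3 * M₁) *
          ENNReal.ofReal (22 / 3 * e ^ 8 / w0))) := by
          rw [← ENNReal.ofReal_inv_of_pos ha]
          ring
      _ = volume K * ENNReal.ofReal (22 * M₁ * e ^ 8 / (a * w0)) := by
          rw [← ENNReal.ofReal_mul (by positivity), ← ENNReal.ofReal_mul (by positivity)]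
          congr 2
          field_simp

private theorem kpc_min (j : ℕ) {e : ℝ} (he : 0 < e) :
    min ((5 / 6 : ℝ) ^ j) (((36 / 25 : ℝ) ^ 3) ^ j * e ^ 8) ≤ (98 / 100) ^ j * e := by
  by_cases hc : (5 / 6 : ℝ) ^ j ≤ (98 / 100) ^ j * e
  · exact (min_le_left _ _).trans hc
  · rw [not_le] at hc
    refine (min_le_right _ _).trans ?_
    have h98 : (0 : ℝ) < (98 / 100) ^ j := by positivity
    have h1 : e ≤ (5 / 6 * (100 / 98)) ^ j := by
      have : e < (5 / 6 : ℝ) ^ j / (98 / 100) ^ j := by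
        rw [lt_div_iff₀ h98]; linarith
      refine this.le.trans (le_of_eq ?_)
      rw [← div_pow]; norm_num
    have h2 : e ^ 7 ≤ ((5 / 6 * (100 / 98)) ^ j) ^ 7 := pow_le_pow_left₀ he.le h1 7
    calc ((36 / 25 : ℝ) ^ 3) ^ j * e ^ 8 = ((36 / 25 : ℝ) ^ 3) ^ j * e ^ 7 * e := by ring
      _ ≤ ((36 / 25 : ℝ) ^ 3) ^ j * ((5 / 6 * (100 / 98)) ^ j) ^ 7 * e := by gcongr
      _ = ((36 / 25 : ℝ) ^ 3 * (5 / 6 * (100 / 98)) ^ 7) ^ j * e := by
          have h3 : ((5 / 6 * (100 / 98) : ℝ) ^ j) ^ 7 = ((5 / 6 * (100 / 98)) ^ 7) ^ j := by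
            rw [← pow_mul, ← pow_mul, mul_comm j 7]
          rw [h3, ← mul_pow]
      _ ≤ (98 / 100) ^ j * e := by
          gcongr
          norm_num

theorem count_all_wE (μ : Pr D) (wt : Co D) {K : Set (ℝ × ℝ)} {M₁ M₂ w0 ρ B : ℝ}
    (h : ∀ c, nm c ≤ ρ → DBound (sw μ wt c) K M₁ M₂) (hK : Convex ℝ K) (hKo : IsOpen K)
    (hM1 : 0 < M₁) (hM2 : 0 < M₂) (hw0 : 0 < w0) (hw : ∀ z ∈ K, w0 ≤ pe wt z.1 z.2)
    (hB0 : 0 ≤ B) (hB : ∀ c, nm c ≤ ρ → ∀ z ∈ K, nm (vfc (sw μ wt c) z) < B) :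
    ∃ H : ℝ × ℝ → ℝ≥0∞, Measurable H ∧
      (∀ c, nm c ≤ ρ → ∫⁻ α in Set.Ioo 0 Real.pi,
        orbitSum (fun _ => 1) (vfc (sw μ wt c)) K α ≤ H c) ∧
      ∀ (E : Set (ℝ × ℝ)) (e : ℝ), MeasurableSet E → 0 < e →
        volume E ≤ ENNReal.ofReal (e ^ 16) →
        ∫⁻ c in E, H c ≤ volume K *
          ENNReal.ofReal (80000 * (M₁ ^ 2 + M₂ * (B + w0)) / w0 ^ 2 * e) := by
  obtain ⟨HL, hLm, hL1, hL2⟩ := avg_good_w μ wt hKo.measurableSet hw0 hw hB0
  choose Hm hmm hm1 hm2 using fun j : ℕ => kpc_class_avg μ wt h hK hKo hM1 hM2 hw0 hw j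
  have hek : ∀ j, 0 < ellk M₁ M₂ j := fun j => ellk_pos hM1 hM2 j
  choose Gm gmm gm1 gm2 using fun j : ℕ => kpc_long μ wt h hKo hM1 hw0 hw (hek j)
  have he0 := hek 0
  refine ⟨fun c => min ((ENNReal.ofReal (ellk M₁ M₂ 0))⁻¹ * (ENNReal.ofReal (3 * M₁) * HL c))
    (Gm 0 c) + ∑' j, min (Hm j c) (Gm (j + 1) c), ?_, ?_, ?_⟩
  · exact (((hLm.const_mul _).const_mul _).min (gmm 0)).add
      (Measurable.tsum fun j => (hmm j).min (gmm (j + 1)))
  · intro c hc
    set ν : Pr D := sw μ wt c with hν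
    have hms : ∀ (φ : ℝ≥0∞ → ℝ≥0∞) (Ω : Set (ℝ × ℝ)), Measurable φ → IsOpen Ω →
        AEMeasurable (orbitSum φ (vfc ν) Ω) (volume.restrict (Set.Ioo 0 Real.pi)) :=
      fun φ Ω hφ hΩ => orbitSum_aemeasurable ν hΩ hφ
    refine (lintegral_mono fun α => ca_sum2 ν K hM1 hM2 α).trans ?_
    rw [lintegral_add_left' (hms _ _ (measurable_upW _) hKo),
      lintegral_tsum fun j => hms _ _ (measurable_midW M₁ M₂ j) hKo]
    refine add_le_add (le_min ?_ (gm1 0 c hc)) (ENNReal.tsum_le_tsum fun j =>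
      le_min (hm1 j c hc) ?_)
    · have hlong := ca_long ν (h c hc) hM1.le hKo subset_rfl he0 0
      have e0 : ∀ z, vfc ν z + (0 : ℝ × ℝ) = vfc ν z := fun z => add_zero _
      have hsh : vfc (shf ν 0) = vfc ν := by rw [shf_zero]
      simp only [hsh, e0] at hlong
      refine hlong.trans ?_
      gcongr
      refine le_trans ?_ (hL1 c)
      exact lintegral_mono_set fun z hz => ⟨hz, hB c hc z hz⟩
    · refine le_trans (lintegral_mono fun α => orbitSum_mono (fun L => ?_) subset_rfl α)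
        (gm1 (j + 1) c hc)
      unfold midW upW
      split_ifs with h1 h2 h2
      · exact le_rfl
      · exact absurd h1.1 h2
      · exact zero_le
      · exact le_rfl
  · intro E e hE he hv
    have hpi := Real.pi_lt_d2
    have hpi0 := Real.pi_pos
    have hem : ellk M₁ M₂ 0 = M₁ / M₂ := by simp [ellk, lamk]
    rw [lintegral_add_left (((hLm.const_mul _).const_mul _).min (gmm 0)),
      lintegral_tsum fun j => ((hmm j).min (gmm (j + 1))).aemeasurable]
    have T1a : ∫⁻ c, (ENNReal.ofReal (ellk M₁ M₂ 0))⁻¹ * (ENNReal.ofReal (3 * M₁) * HL c) ≤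
        volume K * ENNReal.ofReal (20 * M₂ * B / w0 ^ 2) := by
      rw [lintegral_const_mul _ (hLm.const_mul _), lintegral_const_mul _ hLm]
      calc (ENNReal.ofReal (ellk M₁ M₂ 0))⁻¹ * (ENNReal.ofReal (3 * M₁) * ∫⁻ c, HL c)
          ≤ (ENNReal.ofReal (ellk M₁ M₂ 0))⁻¹ * (ENNReal.ofReal (3 * M₁) *
            (volume K * ENNReal.ofReal (2 * Real.pi * B / w0 ^ 2))) := by gcongr
        _ = volume K * (ENNReal.ofReal (ellk M₁ M₂ 0)⁻¹ *
              (ENNReal.ofReal (3 * M₁) * ENNReal.ofReal (2 * Real.pi * B / w0 ^ 2))) := by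
            rw [← ENNReal.ofReal_inv_of_pos he0]
            ring
        _ = volume K * ENNReal.ofReal ((ellk M₁ M₂ 0)⁻¹ * (3 * M₁ *
              (2 * Real.pi * B / w0 ^ 2))) := by
            rw [← ENNReal.ofReal_mul (by positivity), ← ENNReal.ofReal_mul (by positivity)]
        _ ≤ volume K * ENNReal.ofReal (20 * M₂ * B / w0 ^ 2) := by
            refine mul_le_mul_right (ENNReal.ofReal_le_ofReal ?_) _
            rw [hem]
            have e : (M₁ / M₂)⁻¹ * (3 * M₁ * (2 * Real.pi * B / w0 ^ 2)) =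
                6 * Real.pi * (M₂ * B / w0 ^ 2) := by
              field_simp
              ring
            have e2 : 20 * M₂ * B / w0 ^ 2 = 20 * (M₂ * B / w0 ^ 2) := by ring
            rw [e, e2]
            have : 0 ≤ M₂ * B / w0 ^ 2 := by positivity
            nlinarith
    have T1 : ∫⁻ c in E, min ((ENNReal.ofReal (ellk M₁ M₂ 0))⁻¹ *
        (ENNReal.ofReal (3 * M₁) * HL c)) (Gm 0 c) ≤
        volume K * ENNReal.ofReal (22 * (M₂ * (B + w0)) / w0 ^ 2 * e) := by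
      by_cases h1 : e ≤ 1
      · refine (lintegral_mono fun c => min_le_right _ _).trans ((gm2 0 E e hE he hv).trans ?_)
        refine mul_le_mul_right (ENNReal.ofReal_le_ofReal ?_) _
        rw [hem]
        have e1 : 22 * M₁ * e ^ 8 / (M₁ / M₂ * w0) = 22 * (M₂ * w0) / w0 ^ 2 * e ^ 8 := by
          field_simp
        have e2 : e ^ 8 ≤ e := by
          calc e ^ 8 ≤ e ^ 1 := pow_le_pow_of_le_one he.le h1 (by norm_num)
            _ = e := pow_one e
        rw [e1]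
        gcongr
        linarith
      · rw [not_le] at h1
        refine (lintegral_mono fun c => min_le_left _ _).trans
          ((setLIntegral_le_lintegral _ _).trans (T1a.trans ?_))
        refine mul_le_mul_right (ENNReal.ofReal_le_ofReal ?_) _
        have e1 : 20 * M₂ * B / w0 ^ 2 = 20 * (M₂ * B) / w0 ^ 2 * 1 := by ring
        rw [e1]
        gcongr
        · norm_num
        · linarith
    set A : ℝ := (1541 * M₁ ^ 2 + 66 * (M₂ * w0)) / w0 ^ 2 with hA
    have hA0 : 0 ≤ A := by positivity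
    have T2j : ∀ j : ℕ, ∫⁻ c in E, min (Hm j c) (Gm (j + 1) c) ≤
        volume K * ENNReal.ofReal (A * e * (98 / 100) ^ j) := by
      intro j
      have b1 : ∫⁻ c in E, min (Hm j c) (Gm (j + 1) c) ≤
          volume K * ENNReal.ofReal (A * (5 / 6) ^ j) := by
        refine (lintegral_mono fun c => min_le_left _ _).trans
          ((setLIntegral_le_lintegral _ _).trans ((hm2 j).trans ?_))
        refine mul_le_mul_right (ENNReal.ofReal_le_ofReal ?_) _
        rw [hA, div_mul_eq_mul_div]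
        gcongr
        have : 0 ≤ 66 * (M₂ * w0) := by positivity
        linarith
      have b2 : ∫⁻ c in E, min (Hm j c) (Gm (j + 1) c) ≤
          volume K * ENNReal.ofReal (A * (((36 / 25 : ℝ) ^ 3) ^ j * e ^ 8)) := by
        refine (lintegral_mono fun c => min_le_right _ _).trans
          ((gm2 (j + 1) E e hE he hv).trans ?_)
        refine mul_le_mul_right (ENNReal.ofReal_le_ofReal ?_) _
        have e1 : 22 * M₁ * e ^ 8 / (ellk M₁ M₂ (j + 1) * w0) =
            22 * (36 / 25) ^ 3 * (M₂ * w0) / w0 ^ 2 * (((36 / 25 : ℝ) ^ 3) ^ j * e ^ 8) := by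
          have e2 : ellk M₁ M₂ (j + 1) = (((36 / 25 : ℝ) ^ 3) ^ (j + 1))⁻¹ * (M₁ / M₂) := by
            unfold ellk lamk
            rw [← inv_pow, ← inv_pow, ← pow_mul, ← pow_mul, mul_comm (j + 1) 3]
            norm_num
            ring
          obtain ⟨y, hy0, hy⟩ : ∃ y : ℝ, 0 < y ∧ y = ((36 / 25 : ℝ) ^ 3) ^ j :=
            ⟨_, by positivity, rfl⟩
          rw [e2, pow_succ ((36 / 25 : ℝ) ^ 3) j, ← hy]
          field_simp
        rw [e1, hA]
        gcongr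
        have : 0 ≤ 1541 * M₁ ^ 2 := by positivity
        have h4 : 0 < M₂ * w0 := by positivity
        norm_num
        nlinarith
      rcases le_total ((5 / 6 : ℝ) ^ j) (((36 / 25 : ℝ) ^ 3) ^ j * e ^ 8) with hle | hle
      · refine b1.trans (mul_le_mul_right (ENNReal.ofReal_le_ofReal ?_) _)
        have := kpc_min j he
        rw [min_eq_left hle] at this
        calc A * (5 / 6) ^ j ≤ A * ((98 / 100) ^ j * e) := by gcongr
          _ = A * e * (98 / 100) ^ j := by ring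
      · refine b2.trans (mul_le_mul_right (ENNReal.ofReal_le_ofReal ?_) _)
        have := kpc_min j he
        rw [min_eq_right hle] at this
        calc A * (((36 / 25 : ℝ) ^ 3) ^ j * e ^ 8) ≤ A * ((98 / 100) ^ j * e) := by gcongr
          _ = A * e * (98 / 100) ^ j := by ring
    have T2 : ∑' j, ∫⁻ c in E, min (Hm j c) (Gm (j + 1) c) ≤
        volume K * ENNReal.ofReal (50 * A * e) := by
      calc ∑' j, ∫⁻ c in E, min (Hm j c) (Gm (j + 1) c)
          ≤ ∑' j : ℕ, volume K * ENNReal.ofReal (A * e * (98 / 100) ^ j) :=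
            ENNReal.tsum_le_tsum T2j
        _ = volume K * ENNReal.ofReal (A * e / (1 - 98 / 100)) := by
            rw [ENNReal.tsum_mul_left, ca_geom (by positivity) (by norm_num) (by norm_num)]
        _ = volume K * ENNReal.ofReal (50 * A * e) := by
            congr 2
            ring
    refine (add_le_add T1 T2).trans ?_
    rw [← mul_add, ← ENNReal.ofReal_add (by positivity) (by positivity)]
    refine mul_le_mul_right (ENNReal.ofReal_le_ofReal ?_) _
    have e1 : 22 * (M₂ * (B + w0)) / w0 ^ 2 * e + 50 * A * e =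
        (22 * (M₂ * (B + w0)) + 50 * (1541 * M₁ ^ 2 + 66 * (M₂ * w0))) / w0 ^ 2 * e := by
      rw [hA]; ring
    rw [e1]
    gcongr
    have h1 : 0 ≤ M₁ ^ 2 := by positivity
    have h2 : 0 ≤ M₂ * B := by positivity
    have h3 : 0 ≤ M₂ * w0 := by positivity
    nlinarith

end Pool.Agent.Lib.MP_95e7ec_an
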