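import Mathlib
import Pool.Agent.Lib.MP_95e7ec_an.KosRest
import Pool.Agent.Lib.MP_95e7ec_an.KpDefs

/-!
# Kostlan fields: the closed orbits of one annulus which are not in a cell
-/

set_option autoImplicit false

open Set Filter Topology MeasureTheory ProbabilityTheory
open scoped ContDiff ENNReal

namespace Pool.Agent.Lib.MP_95e7ec_an

variable {D : ℕ}

private theorem kprest_encard {β : Type*} (S : Set β) :
    ((S.encard : ℕ∞) : ℝ≥0∞) = ∑' x, S.indicator (fun _ => (1 : ℝ≥0∞)) x := by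
  rw [← ENNReal.tsum_set_one]
  exact tsum_subtype S (fun _ => (1 : ℝ≥0∞))

private theorem kprest_mem_disc {z : ℝ × ℝ} {r : ℝ} (hr : 0 < r) : z ∈ disc 0 r ↔ nm z < r := by
  have h1 := nm_sq z
  have h0 : 0 ≤ nm z := Real.sqrt_nonneg _
  simp only [disc, Set.mem_ofPred_eq, Prod.fst_zero, Prod.snd_zero, sub_zero]
  rw [← h1]
  exact ⟨fun h => lt_of_pow_lt_pow_left₀ 2 hr.le h, fun h => pow_lt_pow_left₀ h h0 two_ne_zero⟩

/-- the pointwise bound -/
private theorem kprest_point (μ : Pr D) {q : ℕ} (hq1 : 1 ≤ q) (k : ℕ) (α : ℝ) :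
    cntO (turn α (vfc μ)) (disc 0 (2 ^ k)) (lvS q k) (lvV q k) ≤
      orbitSum (upW (2 ^ k / (16 * q))) (vfc μ) (disc 0 (2 ^ k)) α := by
  classical
  have hcont : Continuous (turn α (vfc μ)) := by
    rw [← vfc_rotA]
    exact continuous_vfc _
  have hq : (0 : ℝ) < q := by exact_mod_cast hq1
  unfold cntO
  rw [kprest_encard]
  simp only [ca_orbitSum_eq]
  refine ENNReal.tsum_le_tsum fun C => ?_
  by_cases hC : C ∈ {C | IsClosedOrbit (turn α (vfc μ)) C ∧ C ⊆ disc 0 (2 ^ k) ∧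
      ∀ i ∈ lvS q k, ¬ C ⊆ lvV q k i}
  · rw [Set.indicator_of_mem hC]
    obtain ⟨h1, h2, h3⟩ := hC
    have hk3 : k = 0 ∨ ∃ z ∈ C, (2 : ℝ) ^ k / 2 ≤ nm z := by
      rcases Nat.eq_zero_or_pos k with h | h
      · exact Or.inl h
      · right
        have h4 := h3 none (by unfold lvS; exact Finset.mem_insertNone.2 (by simp))
        have h4' : lvV q k none = disc 0 (2 ^ (k - 1)) := by
          simp only [lvV]
          rw [if_neg (by omega)]
        rw [h4', Set.not_subset] at h4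
        obtain ⟨z, hz, hz'⟩ := h4
        refine ⟨z, hz, ?_⟩
        rw [kprest_mem_disc (by positivity), not_lt] at hz'
        have h5 : (2 : ℝ) ^ k = 2 ^ (k - 1) * 2 := by
          rw [← pow_succ]
          congr 1
          omega
        rw [h5]
        linarith
    rw [Set.indicator_of_mem (show C ∈ {C | IsClosedOrbit (turn α (vfc μ)) C ∧
      C ⊆ disc 0 (2 ^ k)} from ⟨h1, h2⟩)]
    have hbig : ∃ z ∈ C, ∃ w ∈ C, (2 : ℝ) ^ k / (32 * q) < nm (z - w) := by
      by_contra hcon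
      push Not at hcon
      obtain ⟨i, hi, hCi⟩ := exists_cell hq1 k h1.nonempty hcon h2 hk3
      exact h3 (some i) (by unfold lvS; exact Finset.mem_insertNone.2 (by simpa using hi)) hCi
    obtain ⟨z, hz, w, hw, hzw⟩ := hbig
    have h6 := two_nm_le_orbitLength hcont hz hw
    have h7 : ENNReal.ofReal (2 ^ k / (16 * q)) < orbitLength (turn α (vfc μ)) C := by
      refine lt_of_lt_of_le ?_ h6
      have h8 : (0 : ℝ) < 2 ^ k / (32 * q) := by positivity
      rw [ENNReal.ofReal_lt_ofReal_iff (by linarith)]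
      have h9 : (2 : ℝ) ^ k / (16 * q) = 2 * (2 ^ k / (32 * q)) := by
        field_simp
        norm_num
      rw [h9]
      linarith
    unfold upW
    rw [if_pos h7]
  · rw [Set.indicator_of_notMem hC]
    exact zero_le

/-- the closed orbits of the annulus number `k` which are not in a cell -/
theorem rest_level (μ : Pr D) {q : ℕ} (hq : 1 ≤ q) (k : ℕ) :
    ∫⁻ α in Set.Ioo 0 Real.pi, cntO (turn α (vfc μ)) (disc 0 (2 ^ k)) (lvS q k) (lvV q k) ≤
      ENNReal.ofReal (16 * q / 2 ^ k) * ∫⁻ z in disc 0 (2 ^ k), ENNReal.ofReal (argGrad μ z) := by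
  have hq0 : (0 : ℝ) < q := by exact_mod_cast hq
  refine (lintegral_mono fun α => kprest_point μ hq k α).trans ?_
  obtain ⟨hm, hint⟩ := averaged_meas μ (isOpen_disc 0 ((2 : ℝ) ^ k))
  have ha : (0 : ℝ) < 2 ^ k / (16 * q) := by positivity
  calc ∫⁻ α in Set.Ioo 0 Real.pi, orbitSum (upW (2 ^ k / (16 * q))) (vfc μ) (disc 0 (2 ^ k)) α
      ≤ ∫⁻ α in Set.Ioo 0 Real.pi, (ENNReal.ofReal (2 ^ k / (16 * q)))⁻¹ *
          totalLength (vfc μ) (disc 0 (2 ^ k)) α :=
        lintegral_mono fun α => ca_upW_le_total ha α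
    _ = (ENNReal.ofReal (2 ^ k / (16 * q)))⁻¹ *
          ∫⁻ α in Set.Ioo 0 Real.pi, totalLength (vfc μ) (disc 0 (2 ^ k)) α :=
        lintegral_const_mul'' _ hm
    _ ≤ (ENNReal.ofReal (2 ^ k / (16 * q)))⁻¹ *
          ∫⁻ z in disc 0 (2 ^ k), ENNReal.ofReal (argGrad μ z) := by gcongr
    _ = _ := by
        rw [← ENNReal.ofReal_inv_of_pos ha, inv_div]

end Pool.Agent.Lib.MP_95e7ec_an
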