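import Mathlib
import Pool.Agent.Lib.MP_95e7ec_an.KpDefs
import Pool.Agent.Lib.MP_95e7ec_an.KosMain
import Pool.Agent.Lib.MP_95e7ec_an.Crossing
import Pool.Agent.Lib.MP_95e7ec_an.KpKernel
import Pool.Agent.Lib.MP_95e7ec_an.KpMoment
import Pool.Agent.Lib.MP_95e7ec_an.KpRad
import Pool.Agent.Lib.MP_95e7ec_an.KpAct
import Pool.Agent.Lib.MP_95e7ec_an.KpCell
import Pool.Agent.Lib.MP_95e7ec_an.KpClass
import Pool.Agent.Lib.MP_95e7ec_an.KpCross
import Pool.Agent.Lib.MP_95e7ec_an.KpLocal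
import Pool.Agent.Lib.MP_95e7ec_an.KpRest

/-!
# The mean number of closed orbits of Kostlan random fields, sharp order: assembly
-/

set_option autoImplicit false

open Set Filter Topology MeasureTheory ProbabilityTheory
open scoped ContDiff ENNReal

namespace Pool.Agent.Lib.MP_95e7ec_an

variable {D : ℕ}

/-- the sets of the crossing condition -/
def crV (z0 : ℝ × ℝ) (r : ℝ) : Bool → Set (ℝ × ℝ)
  | true => {z | r / 2 < nm (z - z0)}
  | false => disc z0 r

theorem kq_nat_pos (n : ℕ) : 1 ≤ kq n := by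
  unfold kq
  omega

theorem kq_pos (n : ℕ) : (0 : ℝ) < kq n := by
  exact_mod_cast kq_nat_pos n

theorem isOpen_crV (z0 : ℝ × ℝ) (r : ℝ) (b : Bool) : IsOpen (crV z0 r b) := by
  cases b
  · exact isOpen_disc z0 r
  · exact isOpen_lt continuous_const (continuous_nm.comp (continuous_id.sub continuous_const))

theorem cntO_cr_le (v : ℝ × ℝ → ℝ × ℝ) (U : Set (ℝ × ℝ)) (z0 : ℝ × ℝ) {r : ℝ} (hr : 0 < r) :
    cntO v U Finset.univ (crV z0 r) ≤ crossN v z0 (r / 2) := by
  unfold cntO crossN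
  refine ENat.toENNReal_mono (Set.encard_le_encard ?_)
  rintro C ⟨h1, -, h3⟩
  refine ⟨h1, ?_, ?_⟩
  · have h4 := h3 true (Finset.mem_univ _)
    rw [Set.not_subset] at h4
    obtain ⟨z, hz, hz'⟩ := h4
    refine ⟨z, hz, ?_⟩
    simp only [crV, Set.mem_ofPred_eq, not_lt] at hz'
    exact hz'
  · have h4 := h3 false (Finset.mem_univ _)
    rw [Set.not_subset] at h4
    obtain ⟨z, hz, hz'⟩ := h4
    refine ⟨z, hz, ?_⟩
    simp only [crV, disc, Set.mem_ofPred_eq, not_lt] at hz'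
    have h5 : r ^ 2 ≤ nm (z - z0) ^ 2 := by
      rw [nm_sq]
      exact hz'
    have h6 : 0 ≤ nm (z - z0) := Real.sqrt_nonneg _
    have h7 : r ≤ nm (z - z0) := (pow_le_pow_iff_left₀ hr.le h6 two_ne_zero).1 h5
    linarith

/-- the counting function of the cell around `z0` -/
noncomputable def kF (n k K : ℕ) (z0 : ℝ × ℝ) : KSp n → ℝ≥0∞ :=
  (kAct n k z0).indicator fun a =>
    cntO (kVF n a) (disc z0 (cellR (kq n) k)) (∅ : Finset ℕ) (fun _ => ∅) +
      cntO (kVF n a) (disc 0 (2 ^ K)) Finset.univ (crV z0 (cellR (kq n) k))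

theorem measurable_kF {n k : ℕ} (hn : 1 ≤ n) (hk : 24 ≤ k) (K : ℕ) {z0 : ℝ × ℝ}
    (hz0 : (2 : ℝ) ^ k / 4 ≤ nm z0) : Measurable (kF n k K z0) := by
  refine Measurable.indicator (Measurable.add ?_ ?_) (measurableSet_kAct hn hk hz0)
  · exact km_measurable_cntO n (isOpen_disc _ _) ∅ (by simp)
  · exact km_measurable_cntO n (isOpen_disc _ _) _ fun i _ => isOpen_crV _ _ i

theorem kp_nm_nonneg (u : ℝ × ℝ) : 0 ≤ nm u := Real.sqrt_nonneg _

theorem kp_cell_r {n k : ℕ} {z0 : ℝ × ℝ} (hz0 : (2 : ℝ) ^ k / 4 ≤ nm z0) :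
    0 < cellR (kq n) k ∧ cellR (kq n) k * Real.sqrt n ≤ sq1 z0 / 8 := by
  have hq := kq_pos n
  have hq4 := le_kq n
  refine ⟨by unfold cellR; positivity, ?_⟩
  have h1 : cellR (kq n) k * Real.sqrt n ≤ 2 ^ k / 32 := by
    unfold cellR
    rw [div_mul_eq_mul_div, div_le_div_iff₀ (by positivity) (by norm_num)]
    have h2 : (0 : ℝ) < 2 ^ k := by positivity
    nlinarith [Real.sqrt_nonneg (n : ℝ)]
  have h3 : nm z0 ≤ sq1 z0 := by
    unfold nm sq1
    apply Real.sqrt_le_sqrt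
    linarith
  linarith

/-- the mean of the counting function of a cell -/
theorem kp_cell : ∃ C : ℝ, 0 ≤ C ∧ ∀ n k : ℕ, 1 ≤ n → 24 ≤ k → ∀ (K : ℕ) (z0 : ℝ × ℝ),
    (2 : ℝ) ^ k / 4 ≤ nm z0 →
    ∫⁻ a, kF n k K z0 a ∂kMeas n ≤ ENNReal.ofReal (C / 2 ^ (k / 24)) := by
  obtain ⟨C0, hC00, hC0⟩ := kp_moment
  refine ⟨Real.pi⁻¹ * (Real.pi⁻¹ * (10 ^ 15 * C0)), by positivity,
    fun n k hn hk K z0 hz0 => ?_⟩
  have hz0' : 0 < nm z0 := lt_of_lt_of_le (by positivity) hz0
  obtain ⟨hr, hrn⟩ := kp_cell_r (n := n) hz0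
  set r := cellR (kq n) k with hrdef
  have hmeas := measurable_kF hn hk K hz0
  rw [km_rot_avg n hmeas]
  set Φ : KSp n → ℝ≥0∞ := fun a => ∫⁻ α in Set.Ioo 0 Real.pi, kF n k K z0 (krot α a) with hΦ
  have hΦm : Measurable Φ := km_measurable_avg n hmeas
  have hpi : (ENNReal.ofReal Real.pi)⁻¹ = ENNReal.ofReal Real.pi⁻¹ :=
    (ENNReal.ofReal_inv_of_pos Real.pi_pos).symm
  have hsplit : Real.pi⁻¹ * (Real.pi⁻¹ * (10 ^ 15 * C0)) / 2 ^ (k / 24) =
      Real.pi⁻¹ * (Real.pi⁻¹ * (10 ^ 15 / 2 ^ (k / 24) * C0)) := by ring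
  rw [hpi, hsplit, ENNReal.ofReal_mul (by positivity)]
  refine mul_le_mul_right ?_ _
  refine (kMeas_smooth (kdir n z0) (sum_kdir_sq n z0) hΦm).trans ?_
  rw [hpi, ENNReal.ofReal_mul (by positivity)]
  refine mul_le_mul_right ?_ _
  have h1 : ∀ a : KSp n, ENNReal.ofReal (kexp (kdir n z0) a) *
      ∫⁻ t in {t : ℝ × ℝ | nm t ≤ 1}, Φ (kshift (kdir n z0) a t) ≤
      ENNReal.ofReal (10 ^ 15 / 2 ^ (k / 24)) *
        ENNReal.ofReal (kexp (kdir n z0) a * ((1 + kA n z0 (2 * r) a) ^ 2 *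
          (1 + kB n z0 a))) := by
    intro a
    have hE := (kp_area hn hk hz0 a).1
    have h2 : ∫⁻ t in {t : ℝ × ℝ | nm t ≤ 1}, Φ (kshift (kdir n z0) a t) ≤
        ENNReal.ofReal (10 ^ 15 * ((1 + kA n z0 (2 * r) a) ^ 2 * (1 + kB n z0 a)) /
          2 ^ (k / 24)) := by
      refine le_trans ?_ (local_count_kp hn hk hz0 a)
      rw [← lintegral_indicator hE]
      refine le_trans ?_ (setLIntegral_le_lintegral {t : ℝ × ℝ | nm t ≤ 1} _)
      refine setLIntegral_mono' (measurableSet_le continuous_nm.measurable measurable_const)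
        fun t ht => ?_
      by_cases htE : t ∈ kE n k z0 a
      · rw [Set.indicator_of_mem htE]
        refine lintegral_mono fun α => ?_
        unfold kF
        refine (Set.indicator_le_self _ _ _).trans ?_
        rw [kVF_krot]
        refine add_le_add ?_ (cntO_cr_le _ _ _ hr)
        rw [km_cntO_eq]
      · rw [Set.indicator_of_notMem htE]
        have h3 : Φ (kshift (kdir n z0) a t) = 0 := by
          simp only [hΦ]
          have h4 : ∀ α : ℝ, kF n k K z0 (krot α (kshift (kdir n z0) a t)) = 0 := by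
            intro α
            unfold kF
            rw [Set.indicator_of_notMem]
            intro hmem
            exact htE (kp_shift_mem hn hk hz0 ht hmem)
          simp [h4]
        rw [h3]
    refine (mul_le_mul_right h2 _).trans ?_
    have hA := kA_nonneg n z0 (2 * r) a
    have hB := kB_nonneg n z0 a
    rw [← ENNReal.ofReal_mul (by unfold kexp; positivity), ← ENNReal.ofReal_mul (by positivity)]
    exact ENNReal.ofReal_le_ofReal (le_of_eq (by ring))
  refine (lintegral_mono h1).trans ?_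
  rw [lintegral_const_mul' _ _ ENNReal.ofReal_ne_top, ENNReal.ofReal_mul (by positivity)]
  refine mul_le_mul_right ?_ _
  refine hC0 n hn z0 hz0' (2 * r) (by positivity) ?_
  have h3 : 0 ≤ sq1 z0 := Real.sqrt_nonneg _
  have h4 : (r * Real.sqrt n) ^ 2 ≤ (sq1 z0 / 8) ^ 2 :=
    pow_le_pow_left₀ (by positivity) hrn 2
  rw [mul_pow, Real.sq_sqrt (by positivity)] at h4
  nlinarith

/-- the mean number of the closed orbits of the level `k` which are in no cell -/
theorem kp_rest : ∃ C : ℝ, 0 ≤ C ∧ ∀ n : ℕ, 1 ≤ n → ∀ (k q : ℕ), 1 ≤ q →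
    ∫⁻ a, cntO (kVF n a) (disc 0 (2 ^ k)) (lvS q k) (lvV q k) ∂kMeas n ≤
      ENNReal.ofReal (C * (q * Real.sqrt n)) := by
  obtain ⟨C0, hC0, hgrad⟩ := km_grad
  refine ⟨Real.pi⁻¹ * (32 * Real.pi * C0), by positivity, fun n hn k q hq => ?_⟩
  have hn0 : (0:ℝ) < n := by exact_mod_cast hn
  have hsf : SFinite (kMeas n) := by unfold kMeas; infer_instance
  have hmeas : Measurable fun a : KSp n =>
      cntO (kVF n a) (disc 0 (2 ^ k)) (lvS q k) (lvV q k) := by
    refine km_measurable_cntO n (isOpen_disc _ _) _ fun i _ => ?_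
    cases i with
    | none =>
      unfold lvV
      split_ifs
      · exact isOpen_empty
      · exact isOpen_disc _ _
    | some i => exact isOpen_disc _ _
  rw [km_rot_avg n hmeas]
  have hpi : (ENNReal.ofReal Real.pi)⁻¹ = ENNReal.ofReal Real.pi⁻¹ :=
    (ENNReal.ofReal_inv_of_pos Real.pi_pos).symm
  have hsplit : Real.pi⁻¹ * (32 * Real.pi * C0) * (q * Real.sqrt n) =
      Real.pi⁻¹ * (32 * Real.pi * C0 * (q * Real.sqrt n)) := by ring
  rw [hpi, hsplit, ENNReal.ofReal_mul (by positivity)]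
  refine mul_le_mul_right ?_ _
  have h1 : ∀ a : KSp n, ∫⁻ α in Set.Ioo 0 Real.pi,
      cntO (kVF n (krot α a)) (disc 0 (2 ^ k)) (lvS q k) (lvV q k) ≤
      ENNReal.ofReal (16 * q / 2 ^ k) *
        ∫⁻ z in disc 0 (2 ^ k), ENNReal.ofReal (argGrad (kArr n a) z) := by
    intro a
    simp only [kVF_krot]
    simp only [kVF_eq_vfc]
    exact rest_level (kArr n a) hq k
  refine (lintegral_mono h1).trans ?_
  have hm2 : Measurable fun q : KSp n × (ℝ × ℝ) => ENNReal.ofReal (argGrad (kArr n q.1) q.2) := by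
    have hc : Measurable fun q : KSp n × (ℝ × ℝ) => (kArr n q.1, q.2) :=
      ((continuous_kArr n).measurable.comp measurable_fst).prodMk measurable_snd
    exact (km_measurable_argGrad.comp hc).ennreal_ofReal
  rw [lintegral_const_mul' _ _ ENNReal.ofReal_ne_top,
    lintegral_lintegral_swap hm2.aemeasurable]
  have h3 : ∫⁻ z in disc 0 (2 ^ k), ∫⁻ a, ENNReal.ofReal (argGrad (kArr n a) z) ∂kMeas n ≤
      ENNReal.ofReal (C0 * Real.sqrt n) * ENNReal.ofReal (2 * Real.pi * 2 ^ k) := by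
    have h4 : ∫⁻ z in disc 0 (2 ^ k), ∫⁻ a, ENNReal.ofReal (argGrad (kArr n a) z) ∂kMeas n ≤
        ∫⁻ z in disc 0 (2 ^ k), ENNReal.ofReal (C0 * Real.sqrt n) *
          (ENNReal.ofReal (nm z))⁻¹ := by
      refine lintegral_mono fun z => (hgrad n hn z).trans ?_
      rw [ENNReal.ofReal_div_of_pos (by unfold sq1; positivity), div_eq_mul_inv]
      refine mul_le_mul_right (ENNReal.inv_le_inv.2 (ENNReal.ofReal_le_ofReal ?_)) _
      unfold nm sq1
      exact Real.sqrt_le_sqrt (by linarith)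
    refine h4.trans ?_
    rw [lintegral_const_mul' _ _ ENNReal.ofReal_ne_top]
    refine mul_le_mul_right ?_ _
    refine le_trans (lintegral_mono_set ?_) (lintegral_inv_nm_ball (by positivity))
    intro z hz
    have hz' : (z.1 - 0) ^ 2 + (z.2 - 0) ^ 2 < ((2:ℝ) ^ k) ^ 2 := hz
    rw [sub_zero, sub_zero] at hz'
    change Real.sqrt _ < _
    rw [Real.sqrt_lt' (by positivity)]
    exact hz'
  refine (mul_le_mul_right h3 _).trans ?_
  rw [← ENNReal.ofReal_mul (by positivity), ← ENNReal.ofReal_mul (by positivity)]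
  refine ENNReal.ofReal_le_ofReal (le_of_eq ?_)
  field_simp
  ring

theorem kp_encard {β : Type*} (S : Set β) :
    ((S.encard : ℕ∞) : ℝ≥0∞) = ∑' x, S.indicator (fun _ => (1 : ℝ≥0∞)) x := by
  rw [← ENNReal.tsum_set_one]
  exact tsum_subtype S (fun _ => (1 : ℝ≥0∞))

theorem qk_pos (n k : ℕ) : 1 ≤ qk n k := by
  unfold qk
  split_ifs
  · exact kq_nat_pos n
  · exact Nat.le_add_left 1 _

/-- the contribution of the level `k` which is in the cells -/
noncomputable def kMid (n K k : ℕ) (a : KSp n) : ℝ≥0∞ :=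
  if k < 24 then ∑ i ∈ cells (kq n) k,
    cntO (kVF n a) (disc (cellC (kq n) k i) (cellR (kq n) k)) (∅ : Finset ℕ) (fun _ => ∅)
  else ∑ j ∈ cells (kq n) k, kF n k K (cellC (kq n) k j) a

/-- splitting of the count -/
theorem kp_split {n : ℕ} (hn : 1 ≤ n) (K : ℕ) (a : KSp n) :
    cntO (kVF n a) (disc 0 (2 ^ K)) (∅ : Finset ℕ) (fun _ => ∅) ≤
      ∑ k ∈ Finset.range (K + 1), (cntO (kVF n a) (disc 0 (2 ^ k)) (lvS (qk n k) k)
        (lvV (qk n k) k) + kMid n K k a) := by
  classical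
  set v := kVF n a with hv
  -- everything as a sum over the closed orbits
  have key : ∀ C : Set (ℝ × ℝ), IsClosedOrbit v C → C ⊆ disc 0 (2 ^ K) →
      ∃ k ∈ Finset.range (K + 1),
        (C ∈ {C | IsClosedOrbit v C ∧ C ⊆ disc 0 (2 ^ k) ∧
          ∀ i ∈ lvS (qk n k) k, ¬ C ⊆ lvV (qk n k) k i}) ∨
        (k < 24 ∧ ∃ i ∈ cells (kq n) k, C ⊆ disc (cellC (kq n) k i) (cellR (kq n) k)) ∨
        (24 ≤ k ∧ ∃ j ∈ cells (kq n) k, a ∈ kAct n k (cellC (kq n) k j) ∧
          (C ⊆ disc (cellC (kq n) k j) (cellR (kq n) k) ∨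
            ∀ b : Bool, ¬ C ⊆ crV (cellC (kq n) k j) (cellR (kq n) k) b)) := by
    intro C hC hCK
    have hex : ∃ k : ℕ, C ⊆ disc 0 (2 ^ k) := ⟨K, hCK⟩
    set k := Nat.find hex with hk
    have hk1 : C ⊆ disc 0 (2 ^ k) := Nat.find_spec hex
    have hk2 : k ≤ K := Nat.find_min' hex hCK
    have hk3 : k ≠ 0 → ¬ C ⊆ disc 0 (2 ^ (k - 1)) := fun h =>
      Nat.find_min hex (m := k - 1) (by omega)
    refine ⟨k, Finset.mem_range.2 (by omega), ?_⟩
    by_cases hcell : ∃ i ∈ cells (qk n k) k, C ⊆ disc (cellC (qk n k) k i) (cellR (qk n k) k)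
    · right
      obtain ⟨i, hi, hCi⟩ := hcell
      by_cases hk24 : k < 24
      · left
        have hq : qk n k = kq n := by unfold qk; rw [if_pos hk24]
        rw [hq] at hi hCi
        exact ⟨hk24, i, hi, hCi⟩
      · right
        have hk24' : 24 ≤ k := not_lt.1 hk24
        obtain ⟨j, hj, hact, p, hpC, hp⟩ := act_cell hn hk24' a hC hk1 (hk3 (by omega)) hi hCi
        refine ⟨hk24', j, hj, hact, ?_⟩
        by_cases hsub : C ⊆ disc (cellC (kq n) k j) (cellR (kq n) k)
        · exact Or.inl hsub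
        · right
          intro b
          cases b
          · exact hsub
          · intro h
            have h5 : cellR (kq n) k / 2 < nm (p - cellC (kq n) k j) := h hpC
            linarith
    · left
      push Not at hcell
      refine ⟨hC, hk1, fun i hi => ?_⟩
      cases i with
      | none =>
        unfold lvV
        split_ifs with h0
        · intro h
          obtain ⟨p, hp⟩ := hC.nonempty
          exact h hp
        · exact hk3 h0
      | some i =>
        have hi' : i ∈ cells (qk n k) k := by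
          unfold lvS at hi
          exact Finset.some_mem_insertNone.1 hi
        exact hcell i hi'
  -- the sets
  set S0 : Set (Set (ℝ × ℝ)) := {C | IsClosedOrbit v C ∧ C ⊆ disc 0 (2 ^ K) ∧
    ∀ i ∈ (∅ : Finset ℕ), ¬ C ⊆ (fun _ => (∅ : Set (ℝ × ℝ))) i} with hS0
  set S1 : ℕ → Set (Set (ℝ × ℝ)) := fun k => {C | IsClosedOrbit v C ∧ C ⊆ disc 0 (2 ^ k) ∧
    ∀ i ∈ lvS (qk n k) k, ¬ C ⊆ lvV (qk n k) k i} with hS1
  set S2 : ℕ → ℤ × ℤ → Set (Set (ℝ × ℝ)) := fun k i => {C | IsClosedOrbit v C ∧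
    C ⊆ disc (cellC (kq n) k i) (cellR (kq n) k) ∧
    ∀ i ∈ (∅ : Finset ℕ), ¬ C ⊆ (fun _ => (∅ : Set (ℝ × ℝ))) i} with hS2
  set S3 : ℕ → ℤ × ℤ → Set (Set (ℝ × ℝ)) := fun k j => {C | IsClosedOrbit v C ∧
    C ⊆ disc 0 (2 ^ K) ∧
    ∀ b ∈ (Finset.univ : Finset Bool), ¬ C ⊆ crV (cellC (kq n) k j) (cellR (kq n) k) b} with hS3
  have hmid : ∀ k, kMid n K k a = ∑' C : Set (ℝ × ℝ), (if k < 24 then
      ∑ i ∈ cells (kq n) k, (S2 k i).indicator (fun _ => (1 : ℝ≥0∞)) C
      else ∑ j ∈ cells (kq n) k, (if a ∈ kAct n k (cellC (kq n) k j) then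
        (S2 k j).indicator (fun _ => (1 : ℝ≥0∞)) C +
          (S3 k j).indicator (fun _ => (1 : ℝ≥0∞)) C else 0)) := by
    intro k
    unfold kMid
    split_ifs with hk24
    · rw [Summable.tsum_finsetSum (fun i _ => ENNReal.summable)]
      refine Finset.sum_congr rfl fun i _ => ?_
      unfold cntO
      rw [kp_encard]
    · rw [Summable.tsum_finsetSum (fun i _ => ENNReal.summable)]
      refine Finset.sum_congr rfl fun j _ => ?_
      unfold kF
      by_cases hact : a ∈ kAct n k (cellC (kq n) k j)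
      · rw [Set.indicator_of_mem hact]
        simp only [hact, if_true]
        rw [ENNReal.tsum_add]
        unfold cntO
        rw [kp_encard, kp_encard]
      · rw [Set.indicator_of_notMem hact]
        simp [hact]
  have hL : cntO v (disc 0 (2 ^ K)) (∅ : Finset ℕ) (fun _ => ∅) =
      ∑' C, S0.indicator (fun _ => (1 : ℝ≥0∞)) C := by
    unfold cntO
    rw [kp_encard]
  have hR1 : ∀ k, cntO v (disc 0 (2 ^ k)) (lvS (qk n k) k) (lvV (qk n k) k) =
      ∑' C, (S1 k).indicator (fun _ => (1 : ℝ≥0∞)) C := by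
    intro k
    unfold cntO
    rw [kp_encard]
  rw [hL]
  simp only [hR1, hmid, ← ENNReal.tsum_add]
  rw [← Summable.tsum_finsetSum (fun i _ => ENNReal.summable)]
  refine ENNReal.tsum_le_tsum fun C => ?_
  by_cases hC : C ∈ S0
  · rw [Set.indicator_of_mem hC]
    obtain ⟨k, hk, hcase⟩ := key C hC.1 hC.2.1
    refine le_trans ?_ (Finset.single_le_sum (f := fun k => (S1 k).indicator
      (fun _ => (1 : ℝ≥0∞)) C + (if k < 24 then
      ∑ i ∈ cells (kq n) k, (S2 k i).indicator (fun _ => (1 : ℝ≥0∞)) C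
      else ∑ j ∈ cells (kq n) k, (if a ∈ kAct n k (cellC (kq n) k j) then
        (S2 k j).indicator (fun _ => (1 : ℝ≥0∞)) C +
          (S3 k j).indicator (fun _ => (1 : ℝ≥0∞)) C else 0))) (fun _ _ => zero_le) hk)
    rcases hcase with h1 | ⟨h24, i, hi, h2⟩ | ⟨h24, j, hj, hact, h3⟩
    · refine le_trans ?_ (le_add_right le_rfl)
      rw [Set.indicator_of_mem h1]
    · refine le_trans ?_ (le_add_left le_rfl)
      rw [if_pos h24]
      refine le_trans ?_ (Finset.single_le_sum (f := fun i => (S2 k i).indicator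
        (fun _ => (1 : ℝ≥0∞)) C) (fun _ _ => zero_le) hi)
      have hm : C ∈ S2 k i := ⟨hC.1, h2, by simp⟩
      rw [Set.indicator_of_mem hm]
    · refine le_trans ?_ (le_add_left le_rfl)
      rw [if_neg (not_lt.2 h24)]
      refine le_trans ?_ (Finset.single_le_sum (f := fun j =>
        (if a ∈ kAct n k (cellC (kq n) k j) then
        (S2 k j).indicator (fun _ => (1 : ℝ≥0∞)) C +
          (S3 k j).indicator (fun _ => (1 : ℝ≥0∞)) C else 0)) (fun _ _ => zero_le) hj)
      rw [if_pos hact]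
      rcases h3 with h3 | h3
      · refine le_trans ?_ (le_add_right le_rfl)
        have hm : C ∈ S2 k j := ⟨hC.1, h3, by simp⟩
        rw [Set.indicator_of_mem hm]
      · refine le_trans ?_ (le_add_left le_rfl)
        have hm : C ∈ S3 k j := ⟨hC.1, hC.2.1, fun b _ => h3 b⟩
        rw [Set.indicator_of_mem hm]
  · rw [Set.indicator_of_notMem hC]
    exact zero_le

theorem kp_sum_div (f : ℕ → ℝ) (N : ℕ) :
    ∑ k ∈ Finset.range (24 * N), f (k / 24) = 24 * ∑ l ∈ Finset.range N, f l := by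
  induction N with
  | zero => simp
  | succ N ih =>
    rw [mul_add, mul_one, Finset.sum_range_add, ih, Finset.sum_range_succ (fun l => f l) N, mul_add]
    congr 1
    have h1 : ∀ x ∈ Finset.range 24, f ((24 * N + x) / 24) = f N := by
      intro x hx
      rw [Finset.mem_range] at hx
      congr 1
      omega
    rw [Finset.sum_congr rfl h1, Finset.sum_const, Finset.card_range, nsmul_eq_mul]
    norm_num

theorem kp_sum_geom (K : ℕ) :
    ∑ k ∈ Finset.range (K + 1), ((2 : ℝ) ^ (k / 24))⁻¹ ≤ 48 := by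
  have h1 : ∑ k ∈ Finset.range (K + 1), ((2 : ℝ) ^ (k / 24))⁻¹ ≤
      ∑ k ∈ Finset.range (24 * (K + 1)), ((2 : ℝ) ^ (k / 24))⁻¹ := by
    refine Finset.sum_le_sum_of_subset_of_nonneg ?_ fun _ _ _ => by positivity
    intro x hx
    rw [Finset.mem_range] at hx ⊢
    omega
  refine h1.trans ?_
  rw [kp_sum_div (fun l => ((2 : ℝ) ^ l)⁻¹) (K + 1)]
  have h2 : ∑ l ∈ Finset.range (K + 1), ((2 : ℝ) ^ l)⁻¹ ≤ 2 := by
    have h3 := sum_geometric_two_le (K + 1)
    refine le_trans (le_of_eq ?_) h3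
    refine Finset.sum_congr rfl fun i _ => ?_
    rw [one_div, inv_pow]
  linarith

theorem kp_main : ∃ C : ℝ, 0 ≤ C ∧ ∀ n : ℕ, 1 ≤ n → ∀ K : ℕ,
    ∫⁻ a, cntO (kVF n a) (disc 0 (2 ^ K)) (∅ : Finset ℕ) (fun _ => ∅) ∂kMeas n ≤
      ENNReal.ofReal (C * (n + Real.sqrt n * (K + 1))) := by
  obtain ⟨C1, hC1, hcell⟩ := km_cell
  obtain ⟨C2, hC2, hrest⟩ := kp_rest
  obtain ⟨C3, hC3, hkF⟩ := kp_cell
  refine ⟨C2 * 384 + 48 * 70000 * C1 + 48 * 70000 * C3 + C2, by positivity,
    fun n hn K => ?_⟩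
  have hn0 : (0:ℝ) < n := by exact_mod_cast hn
  have hn1 : (1:ℝ) ≤ n := by exact_mod_cast hn
  have hsn : 1 ≤ Real.sqrt n := Real.one_le_sqrt.2 hn1
  have hss : Real.sqrt n * Real.sqrt n = n := Real.mul_self_sqrt hn0.le
  have hcard : ∀ k, ((cells (kq n) k).card : ℝ) ≤ 70000 * n := by
    intro k
    have h2 := card_cells (kq_nat_pos n) k
    have h3 := kq_le hn
    have h4 := kq_pos n
    have h5 : (kq n : ℝ) ^ 2 ≤ 64 * n := by
      have h6 : (kq n : ℝ) ^ 2 ≤ (8 * Real.sqrt n) ^ 2 := pow_le_pow_left₀ h4.le h3 2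
      rw [mul_pow, Real.sq_sqrt (Nat.cast_nonneg n)] at h6
      linarith
    linarith
  have hcz : ∀ k, 24 ≤ k → ∀ j ∈ cells (kq n) k, (2 : ℝ) ^ k / 4 ≤ nm (cellC (kq n) k j) := by
    intro k hk j hj
    unfold cells at hj
    rw [Finset.mem_filter] at hj
    rcases hj.2 with h | h
    · omega
    · exact h
  have hm1 : ∀ k, Measurable fun a : KSp n =>
      cntO (kVF n a) (disc 0 (2 ^ k)) (lvS (qk n k) k) (lvV (qk n k) k) := by
    intro k
    refine km_measurable_cntO n (isOpen_disc _ _) _ fun i _ => ?_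
    cases i with
    | none =>
      unfold lvV
      split_ifs
      · exact isOpen_empty
      · exact isOpen_disc _ _
    | some i => exact isOpen_disc _ _
  have hm2 : ∀ k, Measurable (kMid n K k) := by
    intro k
    unfold kMid
    split_ifs with hk
    · refine Finset.measurable_fun_sum _ fun i _ => ?_
      exact km_measurable_cntO n (isOpen_disc _ _) ∅ (by simp)
    · refine Finset.measurable_fun_sum _ fun j hj => ?_
      exact measurable_kF hn (not_lt.1 hk) K (hcz k (not_lt.1 hk) j hj)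
  refine (lintegral_mono fun a => kp_split hn K a).trans ?_
  have hm3 : ∀ k, Measurable fun a : KSp n =>
      cntO (kVF n a) (disc 0 (2 ^ k)) (lvS (qk n k) k) (lvV (qk n k) k) + kMid n K k a :=
    fun k => (hm1 k).add (hm2 k)
  rw [lintegral_finsetSum _ fun k _ => hm3 k]
  have hone : ∀ k ∈ Finset.range (K + 1), ∫⁻ a, (cntO (kVF n a) (disc 0 (2 ^ k))
      (lvS (qk n k) k) (lvV (qk n k) k) + kMid n K k a) ∂kMeas n ≤
      ENNReal.ofReal ((C2 * (8 * n) + 70000 * C1 * n + 70000 * C3 * n) * ((2 : ℝ) ^ (k / 24))⁻¹ +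
        C2 * Real.sqrt n) := by
    intro k _
    rw [lintegral_add_left (hm1 k)]
    have hA := hrest n hn k (qk n k) (qk_pos n k)
    by_cases hk : k < 24
    · have hk0 : k / 24 = 0 := by omega
      have hq : (qk n k : ℝ) * Real.sqrt n ≤ 8 * n := by
        unfold qk
        rw [if_pos hk]
        have h5 := kq_le hn
        calc (kq n : ℝ) * Real.sqrt n ≤ 8 * Real.sqrt n * Real.sqrt n :=
              mul_le_mul_of_nonneg_right h5 (Real.sqrt_nonneg _)
          _ = 8 * n := by rw [mul_assoc, hss]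
      have hB : ∫⁻ a, kMid n K k a ∂kMeas n ≤ ENNReal.ofReal (70000 * C1 * n) := by
        have h1 : ∀ a, kMid n K k a = ∑ i ∈ cells (kq n) k, cntO (kVF n a)
            (disc (cellC (kq n) k i) (cellR (kq n) k)) (∅ : Finset ℕ) (fun _ => ∅) := by
          intro a
          unfold kMid
          rw [if_pos hk]
        simp only [h1]
        rw [lintegral_finsetSum _ fun i _ =>
          km_measurable_cntO n (isOpen_disc _ _) ∅ (by simp)]
        have h2 : ∀ i ∈ cells (kq n) k, ∫⁻ a, cntO (kVF n a)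
            (disc (cellC (kq n) k i) (cellR (kq n) k)) (∅ : Finset ℕ) (fun _ => ∅) ∂kMeas n ≤
            ENNReal.ofReal C1 := by
          intro i hi
          have hx : (⟨k, i⟩ : Σ _ : ℕ, ℤ × ℤ) ∈ kcells n k := by
            unfold kcells
            exact Finset.mem_sigma.2 ⟨Finset.mem_range.2 (Nat.lt_succ_self k), hi⟩
          have h3 := kcell_spec hn k hx
          exact hcell n hn _ _ h3.1 h3.2
        refine (Finset.sum_le_sum h2).trans ?_
        rw [Finset.sum_const, nsmul_eq_mul, ← ENNReal.ofReal_natCast,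
          ← ENNReal.ofReal_mul (by positivity)]
        refine ENNReal.ofReal_le_ofReal ?_
        calc ((cells (kq n) k).card : ℝ) * C1 ≤ 70000 * n * C1 :=
              mul_le_mul_of_nonneg_right (hcard k) hC1
          _ = 70000 * C1 * n := by ring
      refine (add_le_add hA hB).trans ?_
      rw [← ENNReal.ofReal_add (by positivity) (by positivity)]
      refine ENNReal.ofReal_le_ofReal ?_
      rw [hk0, pow_zero, inv_one, mul_one]
      have h3 : C2 * ((qk n k : ℝ) * Real.sqrt n) ≤ C2 * (8 * n) :=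
        mul_le_mul_of_nonneg_left hq hC2
      have h4 : 0 ≤ C2 * Real.sqrt n := by positivity
      have h5 : 0 ≤ 70000 * C3 * n := by positivity
      linarith
    · have hk' : 24 ≤ k := not_lt.1 hk
      have hq : (qk n k : ℝ) * Real.sqrt n ≤ n * ((2 : ℝ) ^ (k / 24))⁻¹ + Real.sqrt n := by
        unfold qk
        rw [if_neg hk]
        push_cast
        have h1 : ((Nat.sqrt n / 2 ^ (8 * (k / 24)) : ℕ) : ℝ) ≤
            Real.sqrt n * ((2 : ℝ) ^ (k / 24))⁻¹ := by
          have h2 : ((Nat.sqrt n / 2 ^ (8 * (k / 24)) : ℕ) : ℝ) ≤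
              (Nat.sqrt n : ℝ) / ((2 ^ (8 * (k / 24)) : ℕ) : ℝ) := Nat.cast_div_le
          refine h2.trans ?_
          push_cast
          rw [div_eq_mul_inv]
          refine mul_le_mul (Real.nat_sqrt_le_real_sqrt) ?_ (by positivity) (by positivity)
          refine inv_anti₀ (by positivity) ?_
          exact pow_le_pow_right₀ (by norm_num) (by omega)
        calc (((Nat.sqrt n / 2 ^ (8 * (k / 24)) : ℕ) : ℝ) + 1) * Real.sqrt n
            ≤ (Real.sqrt n * ((2 : ℝ) ^ (k / 24))⁻¹ + 1) * Real.sqrt n :=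
              mul_le_mul_of_nonneg_right (by linarith) (Real.sqrt_nonneg _)
          _ = (Real.sqrt n * Real.sqrt n) * ((2 : ℝ) ^ (k / 24))⁻¹ + Real.sqrt n := by ring
          _ = n * ((2 : ℝ) ^ (k / 24))⁻¹ + Real.sqrt n := by rw [hss]
      have hB : ∫⁻ a, kMid n K k a ∂kMeas n ≤
          ENNReal.ofReal (70000 * C3 * n * ((2 : ℝ) ^ (k / 24))⁻¹) := by
        have h1 : ∀ a, kMid n K k a = ∑ j ∈ cells (kq n) k, kF n k K (cellC (kq n) k j) a := by
          intro a
          unfold kMid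
          rw [if_neg hk]
        simp only [h1]
        rw [lintegral_finsetSum _ fun j hj => measurable_kF hn hk' K (hcz k hk' j hj)]
        refine (Finset.sum_le_sum fun j hj => hkF n k hn hk' K _ (hcz k hk' j hj)).trans ?_
        rw [Finset.sum_const, nsmul_eq_mul, ← ENNReal.ofReal_natCast,
          ← ENNReal.ofReal_mul (by positivity)]
        refine ENNReal.ofReal_le_ofReal ?_
        calc ((cells (kq n) k).card : ℝ) * (C3 / 2 ^ (k / 24)) ≤
              70000 * n * (C3 / 2 ^ (k / 24)) :=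
              mul_le_mul_of_nonneg_right (hcard k) (by positivity)
          _ = 70000 * C3 * n * ((2 : ℝ) ^ (k / 24))⁻¹ := by rw [div_eq_mul_inv]; ring
      refine (add_le_add hA hB).trans ?_
      rw [← ENNReal.ofReal_add (by positivity) (by positivity)]
      refine ENNReal.ofReal_le_ofReal ?_
      have h3 : C2 * ((qk n k : ℝ) * Real.sqrt n) ≤
          C2 * (n * ((2 : ℝ) ^ (k / 24))⁻¹ + Real.sqrt n) :=
        mul_le_mul_of_nonneg_left hq hC2
      have h4 : 0 ≤ C2 * (7 * n) * ((2 : ℝ) ^ (k / 24))⁻¹ := by positivity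
      have h5 : 0 ≤ 70000 * C1 * n * ((2 : ℝ) ^ (k / 24))⁻¹ := by positivity
      nlinarith
  refine (Finset.sum_le_sum hone).trans ?_
  rw [← ENNReal.ofReal_sum_of_nonneg fun k _ => by positivity]
  refine ENNReal.ofReal_le_ofReal ?_
  rw [Finset.sum_add_distrib, ← Finset.mul_sum, Finset.sum_const, Finset.card_range,
    nsmul_eq_mul]
  have hgeo := kp_sum_geom K
  have h6 : (C2 * (8 * n) + 70000 * C1 * n + 70000 * C3 * n) *
      ∑ k ∈ Finset.range (K + 1), ((2 : ℝ) ^ (k / 24))⁻¹ ≤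
      (C2 * (8 * n) + 70000 * C1 * n + 70000 * C3 * n) * 48 :=
    mul_le_mul_of_nonneg_left hgeo (by positivity)
  push_cast
  have h7 : 0 ≤ (48 * 70000 * C1 + 48 * 70000 * C3) * (Real.sqrt n * ((K : ℝ) + 1)) := by
    positivity
  have h8 : 0 ≤ C2 * 384 * (Real.sqrt n * ((K : ℝ) + 1)) := by positivity
  have h9 : 0 ≤ C2 * (n : ℝ) := by positivity
  nlinarith

end Pool.Agent.Lib.MP_95e7ec_an
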