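import Mathlib
import Pool.Agent.Lib.MP_95e7ec_an.KpMain
import Pool.Agent.Lib.MP_95e7ec_an.KosFinal

/-!
# The mean number of closed orbits of Kostlan random fields, sharp order: final form
-/

set_option autoImplicit false

open Set Filter Topology MeasureTheory ProbabilityTheory
open scoped ContDiff ENNReal

namespace Pool.Agent.Lib.MP_95e7ec_an

theorem kp_disc : ∃ C : ℝ, 0 ≤ C ∧ ∀ n : ℕ, 1 ≤ n → ∀ R : ℝ, 1 ≤ R →
    ∫⁻ a, cntO (kVF n a) {z | nm z < R} (∅ : Finset ℕ) (fun _ => ∅) ∂kMeas n ≤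
      ENNReal.ofReal (C * (n + Real.sqrt n * Real.log R)) := by
  obtain ⟨C, hC0, hC⟩ := kp_main
  refine ⟨3 * C, by positivity, fun n hn R hR => ?_⟩
  have hR0 : 0 < R := by linarith
  have hlogR : 0 ≤ Real.log R := Real.log_nonneg hR
  have hlog2 : (1 / 2 : ℝ) ≤ Real.log 2 := by linarith [Real.log_two_gt_d9]
  set K : ℕ := ⌈Real.logb 2 R⌉₊ with hK
  have hRK : R ≤ 2 ^ K := by
    rw [← Real.rpow_natCast, ← Real.logb_le_iff_le_rpow (by norm_num) hR0]
    exact Nat.le_ceil _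
  have hKle : (K : ℝ) ≤ 2 * Real.log R + 1 := by
    have h1 : (K : ℝ) < Real.logb 2 R + 1 := Nat.ceil_lt_add_one
      (Real.logb_nonneg (by norm_num) hR)
    have h2 : Real.logb 2 R ≤ 2 * Real.log R := by
      rw [Real.logb, div_le_iff₀ (by linarith)]
      nlinarith
    linarith
  have h3 : ∫⁻ a, cntO (kVF n a) {z | nm z < R} (∅ : Finset ℕ) (fun _ => ∅) ∂kMeas n ≤
      ∫⁻ a, cntO (kVF n a) (disc 0 (2 ^ K)) (∅ : Finset ℕ) (fun _ => ∅) ∂kMeas n := by
    refine lintegral_mono fun a => kf_cntO_mono _ fun z hz => ?_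
    rw [mem_disc_zero (by positivity)]
    exact lt_of_lt_of_le hz hRK
  refine h3.trans ((hC n hn K).trans (ENNReal.ofReal_le_ofReal ?_))
  have hn1 : (1 : ℝ) ≤ n := by exact_mod_cast hn
  have hsn : Real.sqrt n ≤ n := by
    rw [Real.sqrt_le_left (by linarith)]
    nlinarith
  have hs0 : 0 ≤ Real.sqrt n := Real.sqrt_nonneg _
  calc C * (n + Real.sqrt n * (K + 1)) ≤ C * (n + Real.sqrt n * (2 * Real.log R + 1 + 1)) := by
        gcongr
    _ = C * (n + 2 * Real.sqrt n + 2 * (Real.sqrt n * Real.log R)) := by ring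
    _ ≤ C * (n + 2 * n + 3 * (Real.sqrt n * Real.log R)) := by
        have : 0 ≤ Real.sqrt n * Real.log R := by positivity
        gcongr
        norm_num
    _ = 3 * C * (n + Real.sqrt n * Real.log R) := by ring

theorem kp_plane_even : ∃ C : ℝ, 0 ≤ C ∧ ∀ m : ℕ, 1 ≤ m →
    ∫⁻ a, cntO (kVF (2 * m) a) Set.univ (∅ : Finset ℕ) (fun _ => ∅) ∂kMeas (2 * m) ≤
      ENNReal.ofReal (C * m) := by
  obtain ⟨C1, hC1, hmain⟩ := kp_main
  obtain ⟨C2, hC2, htail⟩ := kos_even_tail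
  obtain ⟨B, hB, hk0⟩ := kf_exists_k0 hC2
  refine ⟨2 * C1 + 2 * C1 * (3 * B + 2) + 2 * C2, by positivity, fun m hm => ?_⟩
  obtain ⟨k0, h1, h2, h3⟩ := hk0 m hm
  have hm1 : (1 : ℝ) ≤ m := by exact_mod_cast hm
  have hlog : 0 ≤ Real.log m := Real.log_nonneg hm1
  have hsplit : ∀ a : KSp (2 * m), cntO (kVF (2 * m) a) Set.univ (∅ : Finset ℕ) (fun _ => ∅) ≤
      cntO (kVF (2 * m) a) (disc 0 (2 ^ (k0 + 1))) (∅ : Finset ℕ) (fun _ => ∅) +
      cntO (kVF (2 * m) a) Set.univ {()} (fun _ => disc 0 (2 ^ (k0 + 1))) := by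
    intro a
    unfold cntO
    rw [← ENat.toENNReal_add]
    refine ENat.toENNReal_le.2 (le_trans (Set.encard_le_encard fun C hC => ?_)
      (Set.encard_union_le _ _))
    by_cases h : C ⊆ disc 0 (2 ^ (k0 + 1))
    · exact Or.inl ⟨hC.1, h, by simp⟩
    · exact Or.inr ⟨hC.1, hC.2.1, fun _ _ => h⟩
  refine (lintegral_mono hsplit).trans ?_
  rw [lintegral_add_left (km_measurable_cntO (2 * m) (isOpen_disc _ _) ∅ (by simp))]
  refine (add_le_add (hmain (2 * m) (by omega) (k0 + 1)) (htail m hm k0 h1)).trans ?_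
  rw [← ENNReal.ofReal_add (by positivity) (by positivity)]
  refine ENNReal.ofReal_le_ofReal ?_
  push_cast
  have h4 : C2 * (m : ℝ) ^ 11 * (k0 + 1) / 2 ^ k0 ≤ C2 := by
    have : C2 * (m : ℝ) ^ 11 * (k0 + 1) / 2 ^ k0 = C2 * ((m : ℝ) ^ 11 * (k0 + 1) / 2 ^ k0) := by
      ring
    rw [this]
    exact mul_le_of_le_one_right hC2 h2
  -- `√(2m) (k0 + 2) ≤ (3 B + 2) * 2 m`
  have h5 : Real.sqrt (2 * m) * (k0 + 1 + 1) ≤ 2 * (3 * B + 2) * m := by
    have hs : Real.sqrt (2 * m) * Real.sqrt (2 * m) = 2 * m := Real.mul_self_sqrt (by positivity)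
    have hs1 : 1 ≤ Real.sqrt (2 * m) := Real.one_le_sqrt.2 (by linarith)
    have hl : Real.log m ≤ 2 * Real.sqrt (2 * m) := by
      have e1 : Real.log m ≤ Real.log (2 * m) := Real.log_le_log (by linarith) (by linarith)
      have e2 : Real.log (2 * m) = 2 * Real.log (Real.sqrt (2 * m)) := by
        rw [Real.log_sqrt (by positivity)]
        ring
      have e3 := Real.log_le_sub_one_of_pos (show 0 < Real.sqrt (2 * m) by linarith)
      linarith
    have h6 : (k0 : ℝ) + 1 + 1 ≤ (3 * B + 2) * Real.sqrt (2 * m) := by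
      calc (k0 : ℝ) + 1 + 1 ≤ B * (1 + Real.log m) + 2 := by linarith
        _ ≤ B * (Real.sqrt (2 * m) + 2 * Real.sqrt (2 * m)) + 2 * Real.sqrt (2 * m) := by
            gcongr
            linarith
        _ = (3 * B + 2) * Real.sqrt (2 * m) := by ring
    calc Real.sqrt (2 * m) * (k0 + 1 + 1) ≤ Real.sqrt (2 * m) * ((3 * B + 2) * Real.sqrt (2 * m)) :=
          mul_le_mul_of_nonneg_left h6 (by linarith)
      _ = (3 * B + 2) * (Real.sqrt (2 * m) * Real.sqrt (2 * m)) := by ring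
      _ = 2 * (3 * B + 2) * m := by rw [hs]; ring
  calc C1 * (2 * m + Real.sqrt (2 * m) * (k0 + 1 + 1)) +
        (C2 * m + C2 * m ^ 11 * (k0 + 1) / 2 ^ k0)
      ≤ C1 * (2 * m + 2 * (3 * B + 2) * m) + (C2 * m + C2) := by gcongr
    _ ≤ C1 * (2 * m + 2 * (3 * B + 2) * m) + (C2 * m + C2 * m) := by
        gcongr
        nlinarith
    _ = (2 * C1 + 2 * C1 * (3 * B + 2) + 2 * C2) * m := by ring

end Pool.Agent.Lib.MP_95e7ec_an
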