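import Mathlib
import Pool.Agent.Lib.MP_95e7ec_an.KpClass
import Pool.Agent.Lib.MP_95e7ec_an.KpRad
import Pool.Agent.Lib.MP_95e7ec_an.KpMoment
import Pool.Agent.Lib.MP_95e7ec_an.KpCross
import Pool.Agent.Lib.MP_95e7ec_an.KosLocal
import Pool.Agent.Lib.MP_95e7ec_an.KosGrad
import Pool.Agent.Lib.MP_95e7ec_an.KosMain
import Pool.Agent.Lib.MP_95e7ec_an.KosRest
import Pool.Agent.Lib.MP_95e7ec_an.WeightArr

/-!
# The local count for the Kostlan field on the exceptional translations (task T8)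
-/

set_option autoImplicit false

open Set Filter Topology MeasureTheory ProbabilityTheory
open scoped ContDiff ENNReal

namespace Pool.Agent.Lib.MP_95e7ec_an

private theorem kpl_kA_nonneg (n : ℕ) (z0 : ℝ × ℝ) (ρ : ℝ) (a : KSp n) : 0 ≤ kA n z0 ρ a := by
  unfold kA tmean
  refine mul_nonneg (by positivity) ?_
  refine intervalIntegral.integral_nonneg (by positivity) fun θ _ => ?_
  exact intervalIntegral.integral_nonneg (by positivity) fun φ _ => by positivity

/-- closed orbits only depend on the field along the orbit -/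
private theorem kpl_congr {v w : ℝ × ℝ → ℝ × ℝ} {C : Set (ℝ × ℝ)} (h : ∀ z ∈ C, v z = w z)
    (hC : IsClosedOrbit v C) : IsClosedOrbit w C := by
  obtain ⟨γ, T, hT, hγ, hper, hne, rfl⟩ := hC
  exact ⟨γ, T, hT, fun t => h (γ t) ⟨t, rfl⟩ ▸ hγ t, hper, hne, rfl⟩

/-- a closed orbit is compact -/
private theorem kpl_compact {v : ℝ × ℝ → ℝ × ℝ} {C : Set (ℝ × ℝ)} (hC : IsClosedOrbit v C) :
    IsCompact C ∧ C.Nonempty := by
  obtain ⟨γ, T, hT, hγ, hper, hne, rfl⟩ := hC
  have hc : Continuous γ := continuous_iff_continuousAt.2 fun t => (hγ t).continuousAt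
  have hP : Function.Periodic γ T := hper
  rw [← hP.image_Icc hT 0]
  exact ⟨isCompact_Icc.image hc, ⟨γ 0, 0, by simp [hT.le], rfl⟩⟩

/-- a closed orbit of `Y` is a closed orbit of `G • Y`, if `G > 0` along it -/
private theorem kpl_smul {Y : ℝ × ℝ → ℝ × ℝ} {G : ℝ × ℝ → ℝ} (hG : Continuous G)
    {C : Set (ℝ × ℝ)} (hC : IsClosedOrbit Y C) (hpos : ∀ z ∈ C, 0 < G z) :
    IsClosedOrbit (fun z => G z • Y z) C := by
  obtain ⟨hcomp, hne⟩ := kpl_compact hC
  obtain ⟨z1, hz1, hmin⟩ := hcomp.exists_isMinOn hne hG.continuousOn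
  set e : ℝ := G z1 with he
  have he0 : 0 < e := hpos z1 hz1
  have hGm : ∀ z ∈ C, max (G z) e = G z := fun z hz => max_eq_left (hmin hz)
  have hp : ∀ z, 0 < max (G z) e := fun z => lt_max_of_lt_right he0
  have h1 : IsClosedOrbit (fun z => (max (G z) e)⁻¹ • (max (G z) e • Y z)) C := by
    refine kpl_congr (fun z _ => ?_) hC
    rw [smul_smul, inv_mul_cancel₀ (hp z).ne', one_smul]
  have h2 := h1.of_smul (Y := fun z => max (G z) e • Y z) (g := fun z => (max (G z) e)⁻¹)
    ((hG.max continuous_const).inv₀ fun z => (hp z).ne') (fun z _ => inv_pos.2 (hp z))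
  exact kpl_congr (fun z hz => by rw [hGm z hz]) h2

private theorem kpl_turn_smul {Y : ℝ × ℝ → ℝ × ℝ} {G : ℝ × ℝ → ℝ} (α : ℝ) (z : ℝ × ℝ) :
    turn α (fun z => G z • Y z) z = G z • turn α Y z := by
  unfold turn
  ext
  · simp only [Prod.smul_fst, Prod.smul_snd, smul_eq_mul]; ring
  · simp only [Prod.smul_fst, Prod.smul_snd, smul_eq_mul]; ring

private theorem kpl_vfc_sw {D : ℕ} (μ : Pr D) (wt : Co D) (c z : ℝ × ℝ) :
    vfc (sw μ wt c) z = vfc μ z + pe wt z.1 z.2 • c := by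
  unfold vfc sw
  ext
  · simp [avb_pe_add, avb_pe_smul, mul_comm]
  · simp [avb_pe_add, avb_pe_smul, mul_comm]

private theorem kpl_nm_smul {w : ℝ} (hw : 0 ≤ w) (u : ℝ × ℝ) : nm (w • u) = w * nm u := by
  unfold nm
  have h1 : (w • u).1 ^ 2 + (w • u).2 ^ 2 = w ^ 2 * (u.1 ^ 2 + u.2 ^ 2) := by
    simp only [Prod.smul_fst, Prod.smul_snd, smul_eq_mul]
    ring
  rw [h1, Real.sqrt_mul (by positivity), Real.sqrt_sq hw]

/-- the mean of `1/|c + w t|` over a set of small volume -/
private theorem kpl_mean (c : ℝ × ℝ) {w : ℝ} (hw : 1 / 2 ≤ w) {E : Set (ℝ × ℝ)}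
    (hE : MeasurableSet E) {b : ℝ} (hb : 0 < b) (hEb : volume E ≤ ENNReal.ofReal (b ^ 2)) :
    ∫⁻ t in E, (ENNReal.ofReal (nm (c + w • t)))⁻¹ ≤ ENNReal.ofReal (16 * b) := by
  have hw0 : 0 < w := by linarith
  set e : ℝ × ℝ := w⁻¹ • c with he
  have h1 : ∀ t : ℝ × ℝ, c + w • t = w • (t + e) := by
    intro t
    rw [he, smul_add, smul_smul, mul_inv_cancel₀ hw0.ne', one_smul, add_comm]
  have hE2 : MeasurableSet ((fun u : ℝ × ℝ => u - e) ⁻¹' E) :=
    (measurable_id.sub_const e) hE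
  have hm : Measurable fun u : ℝ × ℝ => (ENNReal.ofReal (nm u))⁻¹ :=
    (ENNReal.measurable_ofReal.comp continuous_nm.measurable).inv
  have h2 : ∀ t : ℝ × ℝ, (ENNReal.ofReal (nm (c + w • t)))⁻¹ ≤
      ENNReal.ofReal 2 * (ENNReal.ofReal (nm (t + e)))⁻¹ := by
    intro t
    rw [h1, kpl_nm_smul hw0.le, ENNReal.ofReal_mul hw0.le, ENNReal.mul_inv
      (Or.inl (ENNReal.ofReal_pos.mpr hw0).ne') (Or.inl ENNReal.ofReal_ne_top)]
    gcongr
    rw [← ENNReal.ofReal_inv_of_pos hw0]
    apply ENNReal.ofReal_le_ofReal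
    rw [inv_le_comm₀ hw0 (by norm_num)]
    linarith
  have h3 : ∫⁻ t in E, (ENNReal.ofReal (nm (t + e)))⁻¹ =
      ∫⁻ u in (fun u : ℝ × ℝ => u - e) ⁻¹' E, (ENNReal.ofReal (nm u))⁻¹ := by
    rw [← lintegral_indicator hE, ← lintegral_indicator hE2]
    refine Eq.trans ?_ (lintegral_add_right_eq_self (fun u =>
      ((fun u : ℝ × ℝ => u - e) ⁻¹' E).indicator (fun u => (ENNReal.ofReal (nm u))⁻¹) u) e)
    refine lintegral_congr fun t => ?_
    have h0 : (t + e ∈ (fun u : ℝ × ℝ => u - e) ⁻¹' E) ↔ t ∈ E := by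
      rw [Set.mem_preimage, add_sub_cancel_right]
    by_cases ht : t ∈ E
    · rw [Set.indicator_of_mem ht, Set.indicator_of_mem (h0.2 ht)]
    · rw [Set.indicator_of_notMem ht, Set.indicator_of_notMem fun h => ht (h0.1 h)]
  have hvol : volume ((fun u : ℝ × ℝ => u - e) ⁻¹' E) ≤ ENNReal.ofReal (b ^ 2) := by
    have h4 : (fun u : ℝ × ℝ => u - e) ⁻¹' E = (fun u => u + -e) ⁻¹' E := by
      ext u
      simp [sub_eq_add_neg]
    rw [h4, measure_preimage_add_right]
    exact hEb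
  have h5 := lintegral_inv_nm_le hE2 (a := b) hb (m := b ^ 2) (by positivity) hvol
  calc ∫⁻ t in E, (ENNReal.ofReal (nm (c + w • t)))⁻¹
      ≤ ∫⁻ t in E, ENNReal.ofReal 2 * (ENNReal.ofReal (nm (t + e)))⁻¹ :=
        lintegral_mono fun t => h2 t
    _ = ENNReal.ofReal 2 *
          ∫⁻ u in (fun u : ℝ × ℝ => u - e) ⁻¹' E, (ENNReal.ofReal (nm u))⁻¹ := by
        have hm2 : Measurable fun t : ℝ × ℝ => (ENNReal.ofReal (nm (t + e)))⁻¹ :=
          hm.comp (measurable_add_const e)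
        rw [lintegral_const_mul _ hm2, h3]
    _ ≤ ENNReal.ofReal 2 * ENNReal.ofReal (2 * Real.pi * b + b ^ 2 / b) := by gcongr
    _ ≤ ENNReal.ofReal (16 * b) := by
        rw [← ENNReal.ofReal_mul (by norm_num)]
        apply ENNReal.ofReal_le_ofReal
        have h6 : b ^ 2 / b = b := by field_simp
        have := Real.pi_lt_d2
        rw [h6]
        nlinarith

/-- the crossing part -/
private theorem kpl_cross {n : ℕ} (hn : 1 ≤ n) (z0 : ℝ × ℝ) {r : ℝ} (hr : 0 < r)
    (hrn : r * Real.sqrt n ≤ sq1 z0 / 8) (a : KSp n) {E : Set (ℝ × ℝ)} (hE : MeasurableSet E)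
    (hE1 : ∀ t ∈ E, nm t ≤ 1) {e : ℝ} (he : 0 < e) (hEe : volume E ≤ ENNReal.ofReal (e ^ 16)) :
    ∫⁻ t in E, (ENNReal.ofReal (7 / 50 * (r / 2)))⁻¹ * ∫⁻ z in disc z0 (2 * (r / 2)),
        (ENNReal.ofReal (argGrad (kArr n (kshift (kdir n z0) a t)) z) +
          ENNReal.ofReal (3 / (r / 2))) ≤
      ENNReal.ofReal (50000000 * (1 + kA n z0 (2 * r) a) * e) := by
  obtain ⟨D, μ, wt, G, -, -, -, harg, hw, -, hD⟩ := gauge_exists hn z0 hr hrn a
  have hA := kpl_kA_nonneg n z0 (2 * r) a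
  set A : ℝ := kA n z0 (2 * r) a with hAdef
  have hM1 : 0 ≤ 80 * (1 + A) / r := by positivity
  have h2r : 2 * (r / 2) = r := by ring
  rw [h2r]
  -- the smaller parameter
  set e1 : ℝ := min e 2 with he1
  have he10 : 0 < e1 := lt_min he (by norm_num)
  have hE4 : volume E ≤ ENNReal.ofReal ((2 : ℝ) ^ 16) := by
    refine (measure_mono (fun t ht => hE1 t ht : E ⊆ {t : ℝ × ℝ | nm t ≤ 1})).trans ?_
    refine (volume_nm_le (σ := 1) zero_le_one).trans (ENNReal.ofReal_le_ofReal (by norm_num))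
  have hEe1 : volume E ≤ ENNReal.ofReal (e1 ^ 16) := by
    rcases le_total e 2 with h | h
    · rw [he1, min_eq_left h]; exact hEe
    · rw [he1, min_eq_right h]; exact hE4
  have hEe8 : volume E ≤ ENNReal.ofReal ((e1 ^ 8) ^ 2) := by
    rw [← pow_mul]; exact hEe1
  have he8 : e1 ^ 8 ≤ 128 * e := by
    have h1 : e1 ≤ 2 := min_le_right _ _
    have h2 : e1 ≤ e := min_le_left _ _
    have h3 : e1 ^ 7 ≤ 2 ^ 7 := pow_le_pow_left₀ he10.le h1 7
    calc e1 ^ 8 = e1 ^ 7 * e1 := by ring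
      _ ≤ 2 ^ 7 * e := mul_le_mul h3 h2 he10.le (by norm_num)
      _ = 128 * e := by norm_num
  have he16 : e1 ^ 16 ≤ 32768 * e := by
    have h1 : e1 ≤ 2 := min_le_right _ _
    have h2 : e1 ≤ e := min_le_left _ _
    have h3 : e1 ^ 15 ≤ 2 ^ 15 := pow_le_pow_left₀ he10.le h1 15
    calc e1 ^ 16 = e1 ^ 15 * e1 := by ring
      _ ≤ 2 ^ 15 * e := mul_le_mul h3 h2 he10.le (by norm_num)
      _ = 32768 * e := by norm_num
  have hc : (ENNReal.ofReal (7 / 50 * (r / 2)))⁻¹ = ENNReal.ofReal (100 / (7 * r)) := by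
    rw [← ENNReal.ofReal_inv_of_pos (by positivity)]
    congr 1
    field_simp
    norm_num
  rw [hc, lintegral_const_mul' _ _ ENNReal.ofReal_ne_top]
  have hmeas : Measurable fun q : (ℝ × ℝ) × (ℝ × ℝ) =>
      ENNReal.ofReal (argGrad (kArr n (kshift (kdir n z0) a q.1)) q.2) +
        ENNReal.ofReal (3 / (r / 2)) := by
    have h1 : Measurable fun q : (ℝ × ℝ) × (ℝ × ℝ) =>
        (kArr n (kshift (kdir n z0) a q.1), q.2) := by
      refine Measurable.prodMk ?_ measurable_snd
      refine (continuous_kArr n).measurable.comp ?_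
      exact (measurable_kshift (kdir n z0)).comp (measurable_const.prodMk measurable_fst)
    exact (ENNReal.measurable_ofReal.comp (km_measurable_argGrad.comp h1)).add measurable_const
  rw [lintegral_lintegral_swap hmeas.aemeasurable]
  have hin : ∀ z ∈ disc z0 r, ∫⁻ t in E,
      (ENNReal.ofReal (argGrad (kArr n (kshift (kdir n z0) a t)) z) +
        ENNReal.ofReal (3 / (r / 2))) ≤
      ENNReal.ofReal (700000 * (1 + A) * e / r) := by
    intro z hz
    rw [lintegral_add_right _ measurable_const, setLIntegral_const]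
    have h1 : ∫⁻ t in E, ENNReal.ofReal (argGrad (kArr n (kshift (kdir n z0) a t)) z) ≤
        ENNReal.ofReal (3 * (80 * (1 + A) / r)) * ENNReal.ofReal (16 * e1 ^ 8) := by
      calc ∫⁻ t in E, ENNReal.ofReal (argGrad (kArr n (kshift (kdir n z0) a t)) z)
          ≤ ∫⁻ t in E, ENNReal.ofReal (3 * (80 * (1 + A) / r)) *
              (ENNReal.ofReal (nm (vfc μ z + pe wt z.1 z.2 • t)))⁻¹ := by
            refine setLIntegral_mono' hE fun t ht => ?_
            rw [← harg t z hz, ← kpl_vfc_sw]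
            exact ca_argGrad_le (hD t (hE1 t ht)) hM1 hz
        _ = ENNReal.ofReal (3 * (80 * (1 + A) / r)) * ∫⁻ t in E,
              (ENNReal.ofReal (nm (vfc μ z + pe wt z.1 z.2 • t)))⁻¹ := by
            rw [lintegral_const_mul]
            have hc : Continuous fun t : ℝ × ℝ => nm (vfc μ z + pe wt z.1 z.2 • t) :=
              continuous_nm.comp (continuous_const.add (continuous_const_smul _))
            exact (ENNReal.measurable_ofReal.comp hc.measurable).inv
        _ ≤ ENNReal.ofReal (3 * (80 * (1 + A) / r)) * ENNReal.ofReal (16 * e1 ^ 8) := by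
            gcongr
            exact kpl_mean _ (hw z hz) hE (pow_pos he10 8) hEe8
    calc (∫⁻ t in E, ENNReal.ofReal (argGrad (kArr n (kshift (kdir n z0) a t)) z)) +
          ENNReal.ofReal (3 / (r / 2)) * volume E
        ≤ ENNReal.ofReal (3 * (80 * (1 + A) / r)) * ENNReal.ofReal (16 * e1 ^ 8) +
          ENNReal.ofReal (3 / (r / 2)) * ENNReal.ofReal (e1 ^ 16) := by gcongr
      _ = ENNReal.ofReal (3 * (80 * (1 + A) / r) * (16 * e1 ^ 8) + 3 / (r / 2) * e1 ^ 16) := by
          rw [← ENNReal.ofReal_mul (by positivity), ← ENNReal.ofReal_mul (by positivity),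
            ← ENNReal.ofReal_add (by positivity) (by positivity)]
      _ ≤ ENNReal.ofReal (700000 * (1 + A) * e / r) := by
          apply ENNReal.ofReal_le_ofReal
          have h2 : 3 * (80 * (1 + A) / r) * (16 * e1 ^ 8) + 3 / (r / 2) * e1 ^ 16 =
              (3840 * (1 + A) * e1 ^ 8 + 6 * e1 ^ 16) / r := by
            field_simp
            ring
          rw [h2]
          gcongr
          have h3 : 3840 * (1 + A) * e1 ^ 8 ≤ 3840 * (1 + A) * (128 * e) := by gcongr
          have h4 : 6 * e1 ^ 16 ≤ 6 * (32768 * e) * (1 + A) := by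
            have h5 : 6 * e1 ^ 16 ≤ 6 * (32768 * e) := by linarith
            have h6 : 0 ≤ 6 * (32768 * e) * A := by positivity
            nlinarith
          have h7 : 0 ≤ (1 + A) * e := by positivity
          nlinarith
  calc ENNReal.ofReal (100 / (7 * r)) * ∫⁻ z in disc z0 r, ∫⁻ t in E,
        (ENNReal.ofReal (argGrad (kArr n (kshift (kdir n z0) a t)) z) +
          ENNReal.ofReal (3 / (r / 2)))
      ≤ ENNReal.ofReal (100 / (7 * r)) * ∫⁻ _ in disc z0 r,
          ENNReal.ofReal (700000 * (1 + A) * e / r) := by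
        exact mul_le_mul' le_rfl (setLIntegral_mono' (isOpen_disc z0 r).measurableSet hin)
    _ = ENNReal.ofReal (100 / (7 * r)) * (ENNReal.ofReal (700000 * (1 + A) * e / r) *
          volume (disc z0 r)) := by rw [setLIntegral_const]
    _ ≤ ENNReal.ofReal (100 / (7 * r)) * (ENNReal.ofReal (700000 * (1 + A) * e / r) *
          ENNReal.ofReal (4 * r ^ 2)) := by
        gcongr
        exact volume_disc_le z0 hr.le
    _ ≤ ENNReal.ofReal (50000000 * (1 + A) * e) := by
        rw [← ENNReal.ofReal_mul (by positivity), ← ENNReal.ofReal_mul (by positivity)]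
        apply ENNReal.ofReal_le_ofReal
        have h1 : 100 / (7 * r) * (700000 * (1 + A) * e / r * (4 * r ^ 2)) =
            40000000 * (1 + A) * e := by
          field_simp
          norm_num
        rw [h1]
        have h7 : 0 ≤ (1 + A) * e := by positivity
        nlinarith

theorem local_count_kp {n k : ℕ} (hn : 1 ≤ n) (hk : 24 ≤ k) {z0 : ℝ × ℝ}
    (hz0 : (2 : ℝ) ^ k / 4 ≤ nm z0) (a : KSp n) :
    ∫⁻ t in kE n k z0 a, ∫⁻ α in Set.Ioo 0 Real.pi,
        (orbitSum (fun _ => 1) (kVF n (kshift (kdir n z0) a t)) (disc z0 (cellR (kq n) k)) α +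
          crossN (turn α (kVF n (kshift (kdir n z0) a t))) z0 (cellR (kq n) k / 2)) ≤
      ENNReal.ofReal (10 ^ 15 *
        ((1 + kA n z0 (2 * cellR (kq n) k) a) ^ 2 * (1 + kB n z0 a)) / 2 ^ (k / 24)) := by
  have hkq : (0 : ℝ) < kq n := by unfold kq; positivity
  have hr : 0 < cellR (kq n) k := by unfold cellR; positivity
  have hrn : cellR (kq n) k * Real.sqrt n ≤ sq1 z0 / 8 := by
    have h1 := le_kq n
    have h2 := nm_le_sq1 z0
    have h3 : cellR (kq n) k * Real.sqrt n ≤ 2 ^ k / 32 := by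
      unfold cellR
      rw [div_mul_eq_mul_div, div_le_div_iff₀ (by positivity) (by norm_num)]
      have h4 : (0 : ℝ) < 2 ^ k := by positivity
      nlinarith
    linarith
  have hB0 := kB_nonneg n z0 a
  set r : ℝ := cellR (kq n) k with hrdef
  set B : ℝ := kB n z0 a with hBdef
  obtain ⟨hEm, hEvol⟩ := kp_area hn hk hz0 a
  have hE1 : ∀ t ∈ kE n k z0 a, nm t ≤ 1 := fun t ht => ht.1
  set E : Set (ℝ × ℝ) := kE n k z0 a with hEdef
  set e : ℝ := 6 * (1 + B) / 2 ^ (k / 24) with hedef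
  have he : 0 < e := by positivity
  obtain ⟨D, μ, wt, G, hG, hGp, hv, -, hw, hB, hD⟩ := gauge_exists hn z0 hr hrn a
  have hA := kpl_kA_nonneg n z0 (2 * r) a
  have hcr := kpl_cross hn z0 hr hrn a hEm hE1 he hEvol
  set A : ℝ := kA n z0 (2 * r) a with hAdef
  obtain ⟨H, hHm, hH1, hH2⟩ := count_all_wE μ wt (K := disc z0 r) (w0 := 1 / 2) (ρ := 1)
    (B := 32 * (1 + A)) hD (convex_disc z0 r) (isOpen_disc z0 r) (by positivity) (by positivity)
    (by norm_num) hw (by positivity) hB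
  have hH3 := hH2 E e hEm he hEvol
  -- the inner integral
  have hin : ∀ t ∈ E, ∫⁻ α in Set.Ioo 0 Real.pi,
        (orbitSum (fun _ => 1) (kVF n (kshift (kdir n z0) a t)) (disc z0 r) α +
          crossN (turn α (kVF n (kshift (kdir n z0) a t))) z0 (r / 2)) ≤
      H t + (ENNReal.ofReal (7 / 50 * (r / 2)))⁻¹ * ∫⁻ z in disc z0 (2 * (r / 2)),
        (ENNReal.ofReal (argGrad (kArr n (kshift (kdir n z0) a t)) z) +
          ENNReal.ofReal (3 / (r / 2))) := by
    intro t ht
    have hm := orbitSum_aemeasurable (kArr n (kshift (kdir n z0) a t)) (isOpen_disc z0 r)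
      (φ := fun _ => 1) measurable_const
    rw [← kVF_eq_vfc] at hm
    rw [lintegral_add_left' hm]
    refine add_le_add ?_ ?_
    · refine (lintegral_mono fun α => ?_).trans (hH1 t (hE1 t ht))
      rw [orbitSum_one, orbitSum_one]
      refine ENat.toENNReal_mono (Set.encard_le_encard ?_)
      rintro C ⟨hC, hsub⟩
      refine ⟨?_, hsub⟩
      have h1 := kpl_smul hG hC fun z hz => hGp z (hsub hz)
      refine kpl_congr (fun z _ => ?_) h1
      have h2 : vfc (sw μ wt t) = fun z => G z • kVF n (kshift (kdir n z0) a t) z :=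
        funext (hv t)
      rw [h2, kpl_turn_smul]
    · rw [kVF_eq_vfc]
      exact crossing_at (kArr n (kshift (kdir n z0) a t)) z0 (by positivity)
  calc ∫⁻ t in E, ∫⁻ α in Set.Ioo 0 Real.pi,
        (orbitSum (fun _ => 1) (kVF n (kshift (kdir n z0) a t)) (disc z0 r) α +
          crossN (turn α (kVF n (kshift (kdir n z0) a t))) z0 (r / 2))
      ≤ ∫⁻ t in E, (H t + (ENNReal.ofReal (7 / 50 * (r / 2)))⁻¹ *
          ∫⁻ z in disc z0 (2 * (r / 2)),
            (ENNReal.ofReal (argGrad (kArr n (kshift (kdir n z0) a t)) z) +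
              ENNReal.ofReal (3 / (r / 2)))) := setLIntegral_mono' hEm hin
    _ = (∫⁻ t in E, H t) + ∫⁻ t in E, (ENNReal.ofReal (7 / 50 * (r / 2)))⁻¹ *
          ∫⁻ z in disc z0 (2 * (r / 2)),
            (ENNReal.ofReal (argGrad (kArr n (kshift (kdir n z0) a t)) z) +
              ENNReal.ofReal (3 / (r / 2))) := lintegral_add_left hHm _
    _ ≤ ENNReal.ofReal (4 * r ^ 2) * ENNReal.ofReal (80000 * ((80 * (1 + A) / r) ^ 2 +
          400 * (1 + A) / r ^ 2 * (32 * (1 + A) + 1 / 2)) / (1 / 2) ^ 2 * e) +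
          ENNReal.ofReal (50000000 * (1 + A) * e) := by
        refine add_le_add (hH3.trans ?_) hcr
        gcongr
        exact volume_disc_le z0 hr.le
    _ ≤ ENNReal.ofReal (10 ^ 15 * ((1 + A) ^ 2 * (1 + B)) / 2 ^ (k / 24)) := by
        rw [← ENNReal.ofReal_mul (by positivity),
          ← ENNReal.ofReal_add (by positivity) (by positivity)]
        apply ENNReal.ofReal_le_ofReal
        have h1 : 4 * r ^ 2 * (80000 * ((80 * (1 + A) / r) ^ 2 +
            400 * (1 + A) / r ^ 2 * (32 * (1 + A) + 1 / 2)) / (1 / 2) ^ 2 * e) =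
            1280000 * (6400 * (1 + A) ^ 2 + 400 * (1 + A) * (32 * (1 + A) + 1 / 2)) * e := by
          field_simp
          ring
        have h2 : 10 ^ 15 * ((1 + A) ^ 2 * (1 + B)) / 2 ^ (k / 24) =
            10 ^ 15 / 6 * (1 + A) ^ 2 * e := by
          rw [hedef]
          field_simp
        rw [h1, h2]
        have h3 : 1280000 * (6400 * (1 + A) ^ 2 + 400 * (1 + A) * (32 * (1 + A) + 1 / 2)) +
            50000000 * (1 + A) ≤ 10 ^ 15 / 6 * (1 + A) ^ 2 := by
          nlinarith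
        have h4 := mul_le_mul_of_nonneg_right h3 he.le
        linarith

end Pool.Agent.Lib.MP_95e7ec_an
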