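import Mathlib
import Pool.Agent.Lib.MP_95e7ec_an.KqDefs

/-!
# The set of the translations of a closed curve for which the origin is close to the boundary of the
convex hull, or close to the curve
-/

set_option autoImplicit false

open Set Filter Topology MeasureTheory
open scoped ENNReal

namespace Pool.Agent.Lib.MP_95e7ec_an

private theorem KqArea_slice {S : Set ℝ} (hS : S.OrdConnected) {ε : ℝ} (hε : 0 < ε) :
    volume ({x : ℝ | ∃ s, |s| ≤ ε ∧ x + s ∈ S} \ {x | x + ε ∈ S ∧ x - ε ∈ S}) ≤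
      ENNReal.ofReal (4 * ε) := by
  have hsub : ({x : ℝ | ∃ s, |s| ≤ ε ∧ x + s ∈ S} \ {x | x + ε ∈ S ∧ x - ε ∈ S}) ⊆
      {x : ℝ | (∃ s, |s| ≤ ε ∧ x + s ∈ S) ∧ x - ε ∉ S} ∪
      {x : ℝ | (∃ s, |s| ≤ ε ∧ x + s ∈ S) ∧ x + ε ∉ S} := by
    rintro x ⟨h1, h2⟩
    by_cases h : x - ε ∈ S
    · exact Or.inr ⟨h1, fun h' => h2 ⟨h', h⟩⟩
    · exact Or.inl ⟨h1, h⟩
  have key1 : ∀ x x' : ℝ, (∃ s, |s| ≤ ε ∧ x + s ∈ S) → (∃ s, |s| ≤ ε ∧ x' + s ∈ S) →
      x' - ε ∉ S → x' - x ≤ 2 * ε := by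
    rintro x x' ⟨s, hs, hx⟩ ⟨s', hs', hx'⟩ hn
    by_contra hlt
    push Not at hlt
    refine hn (hS.out hx hx' ⟨?_, ?_⟩)
    · have := (abs_le.1 hs).2
      linarith
    · have := (abs_le.1 hs').1
      linarith
  have key2 : ∀ x x' : ℝ, (∃ s, |s| ≤ ε ∧ x + s ∈ S) → (∃ s, |s| ≤ ε ∧ x' + s ∈ S) →
      x + ε ∉ S → x' - x ≤ 2 * ε := by
    rintro x x' ⟨s, hs, hx⟩ ⟨s', hs', hx'⟩ hn
    by_contra hlt
    push Not at hlt
    refine hn (hS.out hx hx' ⟨?_, ?_⟩)
    · have := (abs_le.1 hs).2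
      linarith
    · have := (abs_le.1 hs').1
      linarith
  have hd1 : volume {x : ℝ | (∃ s, |s| ≤ ε ∧ x + s ∈ S) ∧ x - ε ∉ S} ≤
      ENNReal.ofReal (2 * ε) := by
    refine (Real.volume_le_diam _).trans ?_
    refine Metric.ediam_le ?_
    rintro x ⟨hx, hxn⟩ y ⟨hy, hyn⟩
    rw [edist_dist, Real.dist_eq]
    refine ENNReal.ofReal_le_ofReal (abs_le.2 ⟨?_, ?_⟩)
    · have := key1 x y hx hy hyn
      linarith
    · exact key1 y x hy hx hxn
  have hd2 : volume {x : ℝ | (∃ s, |s| ≤ ε ∧ x + s ∈ S) ∧ x + ε ∉ S} ≤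
      ENNReal.ofReal (2 * ε) := by
    refine (Real.volume_le_diam _).trans ?_
    refine Metric.ediam_le ?_
    rintro x ⟨hx, hxn⟩ y ⟨hy, hyn⟩
    rw [edist_dist, Real.dist_eq]
    refine ENNReal.ofReal_le_ofReal (abs_le.2 ⟨?_, ?_⟩)
    · have := key2 x y hx hy hxn
      linarith
    · exact key2 y x hy hx hyn
  calc volume ({x : ℝ | ∃ s, |s| ≤ ε ∧ x + s ∈ S} \ {x | x + ε ∈ S ∧ x - ε ∈ S})
      ≤ volume ({x : ℝ | (∃ s, |s| ≤ ε ∧ x + s ∈ S) ∧ x - ε ∉ S} ∪
          {x : ℝ | (∃ s, |s| ≤ ε ∧ x + s ∈ S) ∧ x + ε ∉ S}) := measure_mono hsub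
    _ ≤ ENNReal.ofReal (2 * ε) + ENNReal.ofReal (2 * ε) :=
        (measure_union_le _ _).trans (add_le_add hd1 hd2)
    _ = ENNReal.ofReal (4 * ε) := by
        rw [← ENNReal.ofReal_add (by positivity) (by positivity)]
        congr 1
        ring

private theorem KqArea_slice_empty {S : Set ℝ} (hS : S = ∅) {ε : ℝ} :
    volume ({x : ℝ | ∃ s, |s| ≤ ε ∧ x + s ∈ S} \ {x | x + ε ∈ S ∧ x - ε ∈ S}) = 0 := by
  subst hS
  have : ({x : ℝ | ∃ s, |s| ≤ ε ∧ x + s ∈ (∅ : Set ℝ)} \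
      {x | x + ε ∈ (∅ : Set ℝ) ∧ x - ε ∈ (∅ : Set ℝ)}) = ∅ := by
    ext x
    simp
  rw [this, measure_empty]

/-- the set of the points moved into `A` by a translation of size `≤ ε` in the direction `w` -/
private def exA (w : ℝ × ℝ) (ε : ℝ) (A : Set (ℝ × ℝ)) : Set (ℝ × ℝ) :=
  {z | ∃ s : ℝ, |s| ≤ ε ∧ z + s • w ∈ A}

/-- the set of the points moved into `A` by both translations of size `ε` in the direction `w` -/
private def erA (w : ℝ × ℝ) (ε : ℝ) (A : Set (ℝ × ℝ)) : Set (ℝ × ℝ) :=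
  {z | z + ε • w ∈ A ∧ z - ε • w ∈ A}

private theorem isCompact_exA {A : Set (ℝ × ℝ)} (hA : IsCompact A) (w : ℝ × ℝ) (ε : ℝ) :
    IsCompact (exA w ε A) := by
  have h : exA w ε A = (fun p : (ℝ × ℝ) × ℝ => p.1 - p.2 • w) '' (A ×ˢ Icc (-ε) ε) := by
    ext z
    constructor
    · rintro ⟨s, hs, hz⟩
      exact ⟨(z + s • w, s), ⟨hz, abs_le.1 hs⟩, by simp⟩
    · rintro ⟨⟨y, s⟩, ⟨hy, hs⟩, rfl⟩
      exact ⟨s, abs_le.2 hs, by simpa using hy⟩
  rw [h]
  exact (hA.prod isCompact_Icc).image (by fun_prop)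

private theorem isCompact_erA {A : Set (ℝ × ℝ)} (hA : IsCompact A) (w : ℝ × ℝ) (ε : ℝ) :
    IsCompact (erA w ε A) := by
  have hcl : IsClosed (erA w ε A) := by
    have h1 : IsClosed ((fun z : ℝ × ℝ => z + ε • w) ⁻¹' A) :=
      hA.isClosed.preimage (by fun_prop)
    have h2 : IsClosed ((fun z : ℝ × ℝ => z - ε • w) ⁻¹' A) :=
      hA.isClosed.preimage (by fun_prop)
    exact h1.inter h2
  have hsub : erA w ε A ⊆ (fun z : ℝ × ℝ => z - ε • w) '' A := by
    rintro z ⟨h1, -⟩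
    exact ⟨z + ε • w, h1, by simp⟩
  exact (hA.image (by fun_prop)).of_isClosed_subset hcl hsub

private theorem convex_exA {A : Set (ℝ × ℝ)} (hA : Convex ℝ A) (w : ℝ × ℝ) (ε : ℝ) :
    Convex ℝ (exA w ε A) := by
  rintro x ⟨s, hs, hx⟩ y ⟨t, ht, hy⟩ a b ha hb hab
  refine ⟨a * s + b * t, ?_, ?_⟩
  · calc |a * s + b * t| ≤ |a * s| + |b * t| := abs_add_le _ _
      _ = a * |s| + b * |t| := by rw [abs_mul, abs_mul, abs_of_nonneg ha, abs_of_nonneg hb]
      _ ≤ a * ε + b * ε := add_le_add (mul_le_mul_of_nonneg_left hs ha)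
          (mul_le_mul_of_nonneg_left ht hb)
      _ = ε := by rw [← add_mul, hab, one_mul]
  · have h := hA hx hy ha hb hab
    have he : a • x + b • y + (a * s + b * t) • w = a • (x + s • w) + b • (y + t • w) := by
      ext <;> simp <;> ring
    rw [he]
    exact h

private theorem convex_erA {A : Set (ℝ × ℝ)} (hA : Convex ℝ A) (w : ℝ × ℝ) (ε : ℝ) :
    Convex ℝ (erA w ε A) := by
  rintro x ⟨hx1, hx2⟩ y ⟨hy1, hy2⟩ a b ha hb hab
  have hw : ε • w = a • (ε • w) + b • (ε • w) := by rw [← add_smul, hab, one_smul]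
  refine ⟨?_, ?_⟩
  · have h := hA hx1 hy1 ha hb hab
    have he : a • x + b • y + ε • w = a • (x + ε • w) + b • (y + ε • w) := by
      rw [smul_add, smul_add]
      nth_rewrite 1 [hw]
      abel
    rw [he]
    exact h
  · have h := hA hx2 hy2 ha hb hab
    have he : a • x + b • y - ε • w = a • (x - ε • w) + b • (y - ε • w) := by
      rw [smul_sub, smul_sub]
      nth_rewrite 1 [hw]
      abel
    rw [he]
    exact h

private theorem erA_subset {A : Set (ℝ × ℝ)} (hA : Convex ℝ A) (w : ℝ × ℝ) (ε : ℝ) :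
    erA w ε A ⊆ A := by
  rintro x ⟨hx1, hx2⟩
  have h := hA hx1 hx2 (by norm_num : (0 : ℝ) ≤ 1 / 2) (by norm_num : (0 : ℝ) ≤ 1 / 2)
    (by norm_num)
  have he : (1 / 2 : ℝ) • (x + ε • w) + (1 / 2 : ℝ) • (x - ε • w) = x := by
    ext <;> simp <;> ring
  rwa [he] at h

private theorem subset_exA {A : Set (ℝ × ℝ)} (w : ℝ × ℝ) {ε : ℝ} (hε : 0 < ε) :
    A ⊆ exA w ε A := by
  intro x hx
  exact ⟨0, by simpa using hε.le, by simpa using hx⟩

private theorem KqArea_const {R ε : ℝ} (hε : 0 < ε) {f : ℝ → ℝ≥0∞}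
    (h1 : ∀ x, f x ≤ ENNReal.ofReal (4 * ε)) (h2 : ∀ x, R < |x| → f x = 0) :
    ∫⁻ x, f x ≤ ENNReal.ofReal (8 * R * ε) := by
  have hle : ∀ x, f x ≤ (Icc (-R) R).indicator (fun _ => ENNReal.ofReal (4 * ε)) x := by
    intro x
    by_cases hx : x ∈ Icc (-R) R
    · rw [indicator_of_mem hx]
      exact h1 x
    · rw [indicator_of_notMem hx, h2 x]
      by_contra hlt
      push Not at hlt
      exact hx (abs_le.1 hlt)
  calc ∫⁻ x, f x ≤ ∫⁻ x, (Icc (-R) R).indicator (fun _ => ENNReal.ofReal (4 * ε)) x :=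
        lintegral_mono hle
    _ = ENNReal.ofReal (4 * ε) * volume (Icc (-R) R) := by
        rw [lintegral_indicator measurableSet_Icc, setLIntegral_const]
    _ = ENNReal.ofReal (8 * R * ε) := by
        rw [Real.volume_Icc, ← ENNReal.ofReal_mul (by positivity)]
        congr 1
        ring

private theorem KqArea_vert {A : Set (ℝ × ℝ)} (hA : IsCompact A) (hc : Convex ℝ A) {R ε : ℝ}
    (hε : 0 < ε) (hb : ∀ z ∈ A, |z.1| ≤ R) :
    volume (exA (0, 1) ε A \ erA (0, 1) ε A) ≤ ENNReal.ofReal (8 * R * ε) := by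
  have hm : MeasurableSet (exA (0, 1) ε A \ erA (0, 1) ε A) :=
    (isCompact_exA hA _ _).measurableSet.diff (isCompact_erA hA _ _).measurableSet
  rw [Measure.volume_eq_prod, Measure.prod_apply hm]
  have hs : ∀ x : ℝ, Prod.mk x ⁻¹' (exA (0, 1) ε A \ erA (0, 1) ε A) =
      ({y : ℝ | ∃ s, |s| ≤ ε ∧ y + s ∈ {y : ℝ | (x, y) ∈ A}} \
        {y | y + ε ∈ {y : ℝ | (x, y) ∈ A} ∧ y - ε ∈ {y : ℝ | (x, y) ∈ A}}) := by
    intro x
    ext y
    simp [exA, erA]
  refine KqArea_const hε ?_ ?_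
  · intro x
    rw [hs x]
    refine KqArea_slice ?_ hε
    refine Convex.ordConnected ?_
    intro y hy z hz a b ha hb' hab
    have h := hc hy hz ha hb' hab
    have he : a • (x, y) + b • (x, z) = (x, a • y + b • z) := by
      ext
      · simp [← add_mul, hab]
      · simp
    rw [he] at h
    exact h
  · intro x hx
    rw [hs x]
    refine KqArea_slice_empty ?_
    ext y
    simp only [mem_ofPred_eq, mem_empty_iff_false, iff_false]
    intro hy
    exact absurd (hb _ hy) (not_le.2 hx)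

private theorem KqArea_hor {A : Set (ℝ × ℝ)} (hA : IsCompact A) (hc : Convex ℝ A) {R ε : ℝ}
    (hε : 0 < ε) (hb : ∀ z ∈ A, |z.2| ≤ R) :
    volume (exA (1, 0) ε A \ erA (1, 0) ε A) ≤ ENNReal.ofReal (8 * R * ε) := by
  have hm : MeasurableSet (exA (1, 0) ε A \ erA (1, 0) ε A) :=
    (isCompact_exA hA _ _).measurableSet.diff (isCompact_erA hA _ _).measurableSet
  rw [Measure.volume_eq_prod, Measure.prod_apply_symm hm]
  have hs : ∀ y : ℝ, (fun x => (x, y)) ⁻¹' (exA (1, 0) ε A \ erA (1, 0) ε A) =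
      ({x : ℝ | ∃ s, |s| ≤ ε ∧ x + s ∈ {x : ℝ | (x, y) ∈ A}} \
        {x | x + ε ∈ {x : ℝ | (x, y) ∈ A} ∧ x - ε ∈ {x : ℝ | (x, y) ∈ A}}) := by
    intro y
    ext x
    simp [exA, erA]
  refine KqArea_const hε ?_ ?_
  · intro y
    rw [hs y]
    refine KqArea_slice ?_ hε
    refine Convex.ordConnected ?_
    intro x hx z hz a b ha hb' hab
    have h := hc hx hz ha hb' hab
    have he : a • (x, y) + b • (z, y) = (a • x + b • z, y) := by
      ext
      · simp
      · simp [← add_mul, hab]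
    rw [he] at h
    exact h
  · intro y hy
    rw [hs y]
    refine KqArea_slice_empty ?_
    ext x
    simp only [mem_ofPred_eq, mem_empty_iff_false, iff_false]
    intro hx
    exact absurd (hb _ hx) (not_le.2 hy)

/-- the boundary layer of a compact convex set -/
private theorem KqArea_layer {K : Set (ℝ × ℝ)} (hK : IsCompact K) (hc : Convex ℝ K) {B ε : ℝ}
    (hε : 0 < ε) (hε1 : ε ≤ 1) (hB : 1 ≤ B) (hb : ∀ z ∈ K, |z.1| ≤ B ∧ |z.2| ≤ B) :
    volume (exA (0, 1) ε (exA (1, 0) ε K) \ erA (0, 1) ε (erA (1, 0) ε K)) ≤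
      ENNReal.ofReal (40 * B * ε) := by
  have h1 := KqArea_vert (isCompact_exA hK (1, 0) ε) (convex_exA hc (1, 0) ε) (R := 2 * B) hε
    (by
      rintro z ⟨s, hs, hz⟩
      have h := (hb _ hz).1
      have h' := abs_le.1 h
      have hs' := abs_le.1 hs
      simp at h'
      refine abs_le.2 ⟨?_, ?_⟩
      · linarith [h'.1]
      · linarith [h'.2])
  have h2 := KqArea_hor hK hc (R := B) hε (fun z hz => (hb z hz).2)
  have h3 := KqArea_vert (isCompact_erA hK (1, 0) ε) (convex_erA hc (1, 0) ε) (R := B) hε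
    (fun z hz => (hb z (erA_subset hc _ _ hz)).1)
  have hsub : exA (0, 1) ε (exA (1, 0) ε K) \ erA (0, 1) ε (erA (1, 0) ε K) ⊆
      (exA (0, 1) ε (exA (1, 0) ε K) \ erA (0, 1) ε (exA (1, 0) ε K)) ∪
      (exA (1, 0) ε K \ erA (1, 0) ε K) ∪
      (exA (0, 1) ε (erA (1, 0) ε K) \ erA (0, 1) ε (erA (1, 0) ε K)) := by
    rintro z ⟨hz1, hz2⟩
    by_cases ha : z ∈ erA (0, 1) ε (exA (1, 0) ε K)
    · by_cases hb' : z ∈ erA (1, 0) ε K
      · exact Or.inr ⟨subset_exA _ hε hb', hz2⟩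
      · exact Or.inl (Or.inr ⟨erA_subset (convex_exA hc _ _) _ _ ha, hb'⟩)
    · exact Or.inl (Or.inl ⟨hz1, ha⟩)
  calc volume (exA (0, 1) ε (exA (1, 0) ε K) \ erA (0, 1) ε (erA (1, 0) ε K))
      ≤ ENNReal.ofReal (8 * (2 * B) * ε) + ENNReal.ofReal (8 * B * ε) +
          ENNReal.ofReal (8 * B * ε) :=
        (measure_mono hsub).trans ((measure_union_le _ _).trans
          (add_le_add ((measure_union_le _ _).trans (add_le_add h1 h2)) h3))
    _ ≤ ENNReal.ofReal (40 * B * ε) := by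
        rw [← ENNReal.ofReal_add (by positivity) (by positivity),
          ← ENNReal.ofReal_add (by positivity) (by positivity)]
        refine ENNReal.ofReal_le_ofReal ?_
        have : 0 ≤ B * ε := by positivity
        nlinarith

/-- a point far from a compact convex set is separated from it -/
private theorem KqArea_sep {K : Set (ℝ × ℝ)} (hK : IsCompact K) (hc : Convex ℝ K)
    (hne : K.Nonempty) {ε : ℝ} (hε : 0 < ε) {x : ℝ × ℝ}
    (hx : x ∉ exA (0, 1) ε (exA (1, 0) ε K)) :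
    ∃ e : ℝ × ℝ, e.1 ^ 2 + e.2 ^ 2 = 1 ∧ ∀ k ∈ K, ε ≤ dot e (k - x) := by
  obtain ⟨k0, hk0, hmin⟩ := hK.exists_isMinOn hne
    (f := fun k : ℝ × ℝ => (k.1 - x.1) ^ 2 + (k.2 - x.2) ^ 2) (by fun_prop)
  set d : ℝ × ℝ := k0 - x with hd
  have hd1 : d.1 = k0.1 - x.1 := rfl
  have hd2 : d.2 = k0.2 - x.2 := rfl
  have hbig : ε ^ 2 < d.1 ^ 2 + d.2 ^ 2 := by
    by_contra hlt
    push Not at hlt
    apply hx
    have h1 : |d.1| ≤ ε := abs_le_of_sq_le_sq (by nlinarith [sq_nonneg d.2]) hε.le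
    have h2 : |d.2| ≤ ε := abs_le_of_sq_le_sq (by nlinarith [sq_nonneg d.1]) hε.le
    refine ⟨d.2, h2, d.1, h1, ?_⟩
    have he : x + d.2 • ((0 : ℝ), (1 : ℝ)) + d.1 • ((1 : ℝ), (0 : ℝ)) = k0 := by
      ext <;> simp [hd1, hd2]
    rw [he]
    exact hk0
  have hpos : 0 < d.1 ^ 2 + d.2 ^ 2 := lt_trans (by positivity) hbig
  set r : ℝ := Real.sqrt (d.1 ^ 2 + d.2 ^ 2) with hr
  have hr0 : 0 < r := Real.sqrt_pos.2 hpos
  have hr2 : r ^ 2 = d.1 ^ 2 + d.2 ^ 2 := Real.sq_sqrt hpos.le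
  have hrε : ε ≤ r := by
    have : ε ^ 2 ≤ r ^ 2 := by rw [hr2]; exact hbig.le
    exact (pow_le_pow_iff_left₀ hε.le hr0.le two_ne_zero).1 this
  have hvar : ∀ k ∈ K, 0 ≤ (k.1 - k0.1) * d.1 + (k.2 - k0.2) * d.2 := by
    intro k hk
    by_contra hlt
    push Not at hlt
    set g : ℝ := (k.1 - k0.1) * d.1 + (k.2 - k0.2) * d.2 with hg
    set q : ℝ := (k.1 - k0.1) ^ 2 + (k.2 - k0.2) ^ 2 with hq
    have hq0 : 0 ≤ q := by positivity
    -- choose the parameter
    obtain ⟨l, hl0, hl1, hlq⟩ : ∃ l : ℝ, 0 < l ∧ l ≤ 1 ∧ l * q < -2 * g := by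
      refine ⟨min 1 (-g / (q + 1)), ?_, min_le_left _ _, ?_⟩
      · refine lt_min one_pos (div_pos (by linarith) (by linarith))
      · have h1 : min 1 (-g / (q + 1)) * q ≤ -g / (q + 1) * q :=
          mul_le_mul_of_nonneg_right (min_le_right _ _) hq0
        have h2 : -g / (q + 1) * q ≤ -g := by
          rw [div_mul_eq_mul_div, div_le_iff₀ (by linarith)]
          nlinarith
        linarith
    have hmem : (1 - l) • k0 + l • k ∈ K := hc hk0 hk (by linarith) hl0.le (by ring)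
    have hm := hmin hmem
    simp only [mem_ofPred_eq, Prod.fst_add, Prod.smul_fst, smul_eq_mul, Prod.snd_add,
      Prod.smul_snd] at hm
    have hexp : ((1 - l) * k0.1 + l * k.1 - x.1) ^ 2 + ((1 - l) * k0.2 + l * k.2 - x.2) ^ 2 =
        (k0.1 - x.1) ^ 2 + (k0.2 - x.2) ^ 2 + l * (2 * g + l * q) := by
      rw [hg, hq, hd1, hd2]
      ring
    rw [hexp] at hm
    nlinarith
  refine ⟨(d.1 / r, d.2 / r), ?_, ?_⟩
  · simp only [div_pow]
    rw [← add_div, ← hr2]
    exact div_self (by positivity)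
  · intro k hk
    have h := hvar k hk
    have he : dot (d.1 / r, d.2 / r) (k - x) =
        (((k.1 - k0.1) * d.1 + (k.2 - k0.2) * d.2) + r ^ 2) / r := by
      rw [hr2]
      simp only [dot, Prod.fst_sub, Prod.snd_sub, hd1, hd2]
      ring
    rw [he, le_div_iff₀ hr0]
    nlinarith

/-- a point deep inside the convex hull -/
private theorem KqArea_deep {S : Set (ℝ × ℝ)} (hS : IsCompact S) (hne : S.Nonempty) {ε : ℝ}
    (hε : 0 < ε) {x : ℝ × ℝ}
    (hx : x ∈ erA (0, 1) ε (erA (1, 0) ε (closure (convexHull ℝ S)))) {e : ℝ × ℝ}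
    (he : e.1 ^ 2 + e.2 ^ 2 = 1) : ∃ y ∈ S, dot e (y - x) ≤ -ε := by
  by_contra hno
  push Not at hno
  obtain ⟨y0, hy0, hmin⟩ := hS.exists_isMinOn hne (f := fun y : ℝ × ℝ => dot e (y - x))
    (by unfold dot; fun_prop)
  set c : ℝ := dot e (y0 - x) with hc
  have hcε : -ε < c := hno y0 hy0
  have hconv : Convex ℝ {y : ℝ × ℝ | c ≤ dot e (y - x)} := by
    intro y hy z hz a b ha hb hab
    simp only [mem_ofPred_eq] at hy hz ⊢
    have h1 : dot e (a • y + b • z - x) = a * dot e (y - x) + b * dot e (z - x) := by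
      have hb' : b = 1 - a := by linarith
      subst hb'
      simp only [dot, Prod.fst_sub, Prod.snd_sub, Prod.fst_add, Prod.snd_add,
        Prod.smul_fst, Prod.smul_snd, smul_eq_mul]
      ring
    rw [h1]
    have h2 := mul_le_mul_of_nonneg_left hy ha
    have h3 := mul_le_mul_of_nonneg_left hz hb
    have h4 : a * c + b * c = c := by rw [← add_mul, hab, one_mul]
    linarith
  have hcl : IsClosed {y : ℝ × ℝ | c ≤ dot e (y - x)} := by
    refine isClosed_le continuous_const ?_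
    unfold dot
    fun_prop
  have hsub : closure (convexHull ℝ S) ⊆ {y : ℝ × ℝ | c ≤ dot e (y - x)} :=
    closure_minimal (convexHull_min (fun y hy => hmin hy) hconv) hcl
  obtain ⟨⟨hpp, hmp⟩, ⟨hpm, hmm⟩⟩ := hx
  have g1 := hsub hpp
  have g2 := hsub hmp
  have g3 := hsub hpm
  have g4 := hsub hmm
  simp only [mem_ofPred_eq, dot, Prod.fst_sub, Prod.snd_sub, Prod.fst_add, Prod.snd_add,
    Prod.smul_fst, Prod.smul_snd, smul_eq_mul, mul_zero, mul_one, add_zero, sub_zero] at g1 g2 g3 g4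
  have habs : 1 ≤ |e.1| + |e.2| := by
    have h1 : (|e.1| + |e.2|) ^ 2 = e.1 ^ 2 + e.2 ^ 2 + 2 * (|e.1| * |e.2|) := by
      rw [← sq_abs e.1, ← sq_abs e.2]
      ring
    have h2 : 0 ≤ |e.1| * |e.2| := by positivity
    nlinarith [abs_nonneg e.1, abs_nonneg e.2]
  have hfin : ∀ a b : ℝ, |e.1| = a → |e.2| = b → ε * (a + b) < ε → False := by
    intro a b ha hb h
    rw [← ha, ← hb] at h
    nlinarith
  rcases abs_cases e.1 with ⟨h1, -⟩ | ⟨h1, -⟩ <;> rcases abs_cases e.2 with ⟨h2, -⟩ | ⟨h2, -⟩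
  · exact hfin _ _ h1 h2 (by linarith)
  · exact hfin _ _ h1 h2 (by linarith)
  · exact hfin _ _ h1 h2 (by linarith)
  · exact hfin _ _ h1 h2 (by linarith)

/-- the points close to the curve -/
private theorem KqArea_near {P P' : ℝ → ℝ × ℝ} (hP : ∀ θ, HasDerivAt P (P' θ) θ)
    (hPper : ∀ θ, P (θ + 2 * Real.pi) = P θ) {B ε : ℝ} (hB : 1 ≤ B) (hε : 0 < ε) (hε1 : ε ≤ 1)
    (h1 : ∀ θ, nm (P' θ) ≤ B) :
    ∃ Bad : Set (ℝ × ℝ), MeasurableSet Bad ∧ volume Bad ≤ ENNReal.ofReal (200 * B * ε) ∧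
      ∀ t, t ∉ Bad → ∀ θ, ε ≤ nm (P θ + t) := by
  have hnm : ∀ z : ℝ × ℝ, ‖z‖ ≤ nm z := by
    intro z
    rw [Prod.norm_def, nm]
    refine max_le ?_ ?_
    · rw [Real.norm_eq_abs, ← Real.sqrt_sq_eq_abs]
      exact Real.sqrt_le_sqrt (by nlinarith [sq_nonneg z.2])
    · rw [Real.norm_eq_abs, ← Real.sqrt_sq_eq_abs]
      exact Real.sqrt_le_sqrt (by nlinarith [sq_nonneg z.1])
  have hlip : ∀ θ θ' : ℝ, ‖P θ - P θ'‖ ≤ B * |θ - θ'| := by
    intro θ θ'
    have h := Convex.norm_image_sub_le_of_norm_hasDerivWithin_le (f := P) (f' := P')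
      (s := Set.univ) (C := B) (x := θ') (y := θ) (fun x _ => (hP x).hasDerivWithinAt)
      (fun x _ => (hnm _).trans (h1 x)) convex_univ (mem_univ _) (mem_univ _)
    rwa [Real.norm_eq_abs] at h
  set N : ℕ := ⌈2 * Real.pi * B / ε⌉₊ with hN
  have hπ := Real.pi_pos
  have hNpos' : 0 < 2 * Real.pi * B / ε := by positivity
  have hNle : 2 * Real.pi * B / ε ≤ N := Nat.le_ceil _
  have hNpos : (0 : ℝ) < N := lt_of_lt_of_le hNpos' hNle
  have hNup : (N : ℝ) ≤ 2 * Real.pi * B / ε + 1 := (Nat.ceil_lt_add_one hNpos'.le).le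
  refine ⟨⋃ i ∈ Finset.range N, Metric.ball (-P (2 * Real.pi * i / N)) (2 * ε), ?_, ?_, ?_⟩
  · exact Finset.measurableSet_biUnion _ fun i _ => measurableSet_ball
  · have hball : ∀ x : ℝ × ℝ, volume (Metric.ball x (2 * ε)) = ENNReal.ofReal (16 * ε ^ 2) := by
      intro x
      have : Metric.ball x (2 * ε) = Metric.ball x.1 (2 * ε) ×ˢ Metric.ball x.2 (2 * ε) := by
        rw [ball_prod_same]
      rw [this, Measure.volume_eq_prod, Measure.prod_prod, Real.volume_ball, Real.volume_ball,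
        ← ENNReal.ofReal_mul (by positivity)]
      congr 1
      ring
    calc volume (⋃ i ∈ Finset.range N, Metric.ball (-P (2 * Real.pi * i / N)) (2 * ε))
        ≤ ∑ i ∈ Finset.range N, volume (Metric.ball (-P (2 * Real.pi * i / N)) (2 * ε)) :=
          measure_biUnion_finset_le _ _
      _ = ENNReal.ofReal (N * (16 * ε ^ 2)) := by
          simp only [hball]
          rw [Finset.sum_const, Finset.card_range, nsmul_eq_mul,
            ENNReal.ofReal_mul hNpos.le (q := 16 * ε ^ 2), ENNReal.ofReal_natCast]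
      _ ≤ ENNReal.ofReal (200 * B * ε) := by
          refine ENNReal.ofReal_le_ofReal ?_
          have h2 : (N : ℝ) * ε ≤ 2 * Real.pi * B + ε := by
            have := mul_le_mul_of_nonneg_right hNup hε.le
            have he : (2 * Real.pi * B / ε + 1) * ε = 2 * Real.pi * B + ε := by
              field_simp
            linarith
          have h3 : 2 * Real.pi * B ≤ 7 * B := by
            have := Real.pi_lt_d2
            nlinarith
          have h4 : (N : ℝ) * ε ≤ 8 * B := by linarith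
          calc (N : ℝ) * (16 * ε ^ 2) = 16 * ε * (N * ε) := by ring
            _ ≤ 16 * ε * (8 * B) := by gcongr
            _ ≤ 200 * B * ε := by nlinarith [mul_pos hε (lt_of_lt_of_le one_pos hB)]
  · intro t ht θ
    by_contra hlt
    push Not at hlt
    apply ht
    have hper : Function.Periodic P (2 * Real.pi) := hPper
    obtain ⟨θ', hθ', hPθ⟩ := hper.exists_mem_Ico₀ (by positivity) θ
    rw [hPθ] at hlt
    set x : ℝ := θ' * N / (2 * Real.pi) with hx
    have hx0 : 0 ≤ x := by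
      have := hθ'.1
      positivity
    have hxN : x < N := by
      rw [hx, div_lt_iff₀ (by positivity), mul_comm (N : ℝ)]
      exact mul_lt_mul_of_pos_right hθ'.2 hNpos
    set i : ℕ := ⌊x⌋₊ with hi
    have hi1 : (i : ℝ) ≤ x := Nat.floor_le hx0
    have hi2 : x < i + 1 := Nat.lt_floor_add_one x
    have hiN : i < N := by
      have : (i : ℝ) < N := lt_of_le_of_lt hi1 hxN
      exact_mod_cast this
    simp only [mem_iUnion, Finset.mem_range]
    refine ⟨i, hiN, ?_⟩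
    rw [Metric.mem_ball, dist_eq_norm, sub_neg_eq_add]
    have hθx : θ' = 2 * Real.pi * x / N := by
      rw [hx]
      field_simp
    have hdist : |2 * Real.pi * i / N - θ'| ≤ ε / B := by
      have hrew : 2 * Real.pi * i / N - θ' = -(2 * Real.pi / N * (x - i)) := by
        rw [hθx]
        ring
      rw [hrew, abs_neg, abs_mul, abs_of_nonneg (by positivity), abs_of_nonneg (by linarith)]
      have h3 : 2 * Real.pi / N ≤ ε / B := by
        rw [div_le_div_iff₀ hNpos (by linarith)]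
        have := mul_le_mul_of_nonneg_right hNle hε.le
        have he : 2 * Real.pi * B / ε * ε = 2 * Real.pi * B := by field_simp
        linarith
      calc 2 * Real.pi / N * (x - i) ≤ ε / B * 1 := by
            refine mul_le_mul h3 (by linarith) (by linarith) (by positivity)
        _ = ε / B := mul_one _
    calc ‖t + P (2 * Real.pi * i / N)‖
        = ‖(P (2 * Real.pi * i / N) - P θ') + (P θ' + t)‖ := by congr 1; abel
      _ ≤ ‖P (2 * Real.pi * i / N) - P θ'‖ + ‖P θ' + t‖ := norm_add_le _ _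
      _ ≤ B * |2 * Real.pi * i / N - θ'| + nm (P θ' + t) := add_le_add (hlip _ _) (hnm _)
      _ < B * (ε / B) + ε := by
          refine add_lt_add_of_le_of_lt ?_ hlt
          exact mul_le_mul_of_nonneg_left hdist (by linarith)
      _ = 2 * ε := by field_simp; ring

theorem bad_area {P P' : ℝ → ℝ × ℝ} (hP : ∀ θ, HasDerivAt P (P' θ) θ)
    (hPper : ∀ θ, P (θ + 2 * Real.pi) = P θ) {B ε : ℝ} (hB : 1 ≤ B) (hε : 0 < ε) (hε1 : ε ≤ 1)
    (h0 : ∀ θ, nm (P θ) ≤ B) (h1 : ∀ θ, nm (P' θ) ≤ B) :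
    ∃ Bad : Set (ℝ × ℝ), MeasurableSet Bad ∧ volume Bad ≤ ENNReal.ofReal (1000 * B * ε) ∧
      ∀ t, t ∉ Bad → (∃ e : ℝ × ℝ, e.1 ^ 2 + e.2 ^ 2 = 1 ∧ ∀ θ, ε ≤ dot e (P θ + t)) ∨
        ((∀ e : ℝ × ℝ, e.1 ^ 2 + e.2 ^ 2 = 1 → ∃ θ, dot e (P θ + t) ≤ -ε) ∧
          ∀ θ, ε ≤ nm (P θ + t)) := by
  obtain ⟨Bad2, hm2, hv2, hb2⟩ := KqArea_near hP hPper hB hε hε1 h1
  have hcont : Continuous P := continuous_iff_continuousAt.2 fun θ => (hP θ).continuousAt
  have hper : Function.Periodic P (2 * Real.pi) := hPper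
  have hcomp : IsCompact (range P) := by
    rw [← hper.image_Icc (by positivity) 0]
    exact isCompact_Icc.image hcont
  set K : Set (ℝ × ℝ) := closure (convexHull ℝ (range P)) with hKdef
  have hPK : ∀ θ, P θ ∈ K := fun θ => subset_closure (subset_convexHull ℝ _ (mem_range_self θ))
  have hc : Convex ℝ K := (convex_convexHull ℝ _).closure
  have hne : K.Nonempty := ⟨P 0, hPK 0⟩
  have hsub : K ⊆ Icc (-B) B ×ˢ Icc (-B) B := by
    have hsq : Convex ℝ (Icc (-B) B ×ˢ Icc (-B) B) := (convex_Icc _ _).prod (convex_Icc _ _)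
    refine closure_minimal (convexHull_min ?_ hsq) (isClosed_Icc.prod isClosed_Icc)
    rintro _ ⟨θ, rfl⟩
    have h := h0 θ
    have ha : |(P θ).1| ≤ B := by
      refine le_trans ?_ h
      rw [← Real.sqrt_sq_eq_abs, nm]
      exact Real.sqrt_le_sqrt (by nlinarith [sq_nonneg (P θ).2])
    have hb' : |(P θ).2| ≤ B := by
      refine le_trans ?_ h
      rw [← Real.sqrt_sq_eq_abs, nm]
      exact Real.sqrt_le_sqrt (by nlinarith [sq_nonneg (P θ).1])
    exact ⟨abs_le.1 ha, abs_le.1 hb'⟩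
  have hK : IsCompact K :=
    (isCompact_Icc.prod isCompact_Icc).of_isClosed_subset isClosed_closure hsub
  have hb : ∀ z ∈ K, |z.1| ≤ B ∧ |z.2| ≤ B := by
    intro z hz
    exact ⟨abs_le.2 (hsub hz).1, abs_le.2 (hsub hz).2⟩
  set E : Set (ℝ × ℝ) := exA (0, 1) ε (exA (1, 0) ε K) \ erA (0, 1) ε (erA (1, 0) ε K) with hE
  have hEm : MeasurableSet E :=
    (isCompact_exA (isCompact_exA hK _ _) _ _).measurableSet.diff
      (isCompact_erA (isCompact_erA hK _ _) _ _).measurableSet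
  refine ⟨Neg.neg ⁻¹' E ∪ Bad2, (measurable_neg hEm).union hm2, ?_, ?_⟩
  · have hEv : volume (Neg.neg ⁻¹' E) = volume E := Measure.measure_preimage_neg _ _
    calc volume (Neg.neg ⁻¹' E ∪ Bad2) ≤ volume (Neg.neg ⁻¹' E) + volume Bad2 :=
          measure_union_le _ _
      _ ≤ ENNReal.ofReal (40 * B * ε) + ENNReal.ofReal (200 * B * ε) := by
          rw [hEv]
          exact add_le_add (KqArea_layer hK hc hε hε1 hB hb) hv2
      _ ≤ ENNReal.ofReal (1000 * B * ε) := by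
          rw [← ENNReal.ofReal_add (by positivity) (by positivity)]
          refine ENNReal.ofReal_le_ofReal ?_
          have : 0 ≤ B * ε := by positivity
          nlinarith
  · intro t ht
    have ht1 : -t ∉ E := fun h => ht (Or.inl h)
    have ht2 : t ∉ Bad2 := fun h => ht (Or.inr h)
    by_cases hx : -t ∈ exA (0, 1) ε (exA (1, 0) ε K)
    · right
      refine ⟨?_, hb2 t ht2⟩
      intro e he
      have hx2 : -t ∈ erA (0, 1) ε (erA (1, 0) ε K) := by
        by_contra hn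
        exact ht1 ⟨hx, hn⟩
      obtain ⟨_, ⟨θ, rfl⟩, hθ⟩ := KqArea_deep hcomp ⟨P 0, mem_range_self 0⟩ hε hx2 he
      exact ⟨θ, by rwa [sub_neg_eq_add] at hθ⟩
    · left
      obtain ⟨e, he, hk⟩ := KqArea_sep hK hc hne hε hx
      refine ⟨e, he, fun θ => ?_⟩
      have := hk (P θ) (hPK θ)
      rwa [sub_neg_eq_add] at this

end Pool.Agent.Lib.MP_95e7ec_an
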