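import Mathlib
import Pool.Agent.Lib.MP_95e7ec_an.KpCross
import Pool.Agent.Lib.MP_95e7ec_an.KqDefs
import Pool.Agent.Lib.MP_95e7ec_an.KosEvenVec
import Pool.Agent.Lib.MP_95e7ec_an.KosMain

set_option autoImplicit false

open Set Filter Topology MeasureTheory ProbabilityTheory
open scoped ContDiff ENNReal

namespace Pool.Agent.Lib.MP_95e7ec_an

private theorem kqb_nm_nonneg (u : ℝ × ℝ) : 0 ≤ nm u := Real.sqrt_nonneg _

private theorem kqb_nm_add (u v : ℝ × ℝ) : nm (u + v) ≤ nm u + nm v := by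
  have hu := nm_sq u
  have hv := nm_sq v
  have hu0 := kqb_nm_nonneg u
  have hv0 := kqb_nm_nonneg v
  have hsum : nm (u + v) ^ 2 = (u.1 + v.1) ^ 2 + (u.2 + v.2) ^ 2 := by
    rw [nm_sq]; rfl
  have hcs : u.1 * v.1 + u.2 * v.2 ≤ nm u * nm v := by
    apply le_of_sq_le_sq'' _ (mul_nonneg hu0 hv0)
    rw [mul_pow, hu, hv]
    nlinarith [sq_nonneg (u.1 * v.2 - u.2 * v.1)]
  apply le_of_sq_le_sq'' _ (add_nonneg hu0 hv0)
  rw [hsum]
  nlinarith
where
  le_of_sq_le_sq'' {a b : ℝ} (h : a ^ 2 ≤ b ^ 2) (hb : 0 ≤ b) : a ≤ b := by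
    nlinarith [sq_nonneg (a - b), sq_nonneg (a + b)]

theorem exists_cell_point' {q : ℕ} (hq : 1 ≤ q) (k : ℕ) {p : ℝ × ℝ} (h1 : nm p ≤ 2 ^ k)
    (h2 : (2 : ℝ) ^ k / 2 ≤ nm p) : ∃ i ∈ cells q k, nm (p - cellC q k i) ≤ cellR q k / 2 := by
  have hq' : (1 : ℝ) ≤ q := by exact_mod_cast hq
  have h2k : (0 : ℝ) < 2 ^ k := by positivity
  set h : ℝ := cellR q k / 2 with hh
  have hval : h = 2 ^ k / (16 * q) := by
    rw [hh]; unfold cellR; field_simp; ring
  have hpos : 0 < h := by rw [hval]; positivity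
  have hh16 : h * (16 * q) = 2 ^ k := by rw [hval]; field_simp
  have hsq := nm_sq p
  have hn0 := kqb_nm_nonneg p
  have hsq2 : nm p ^ 2 ≤ (2 ^ k) ^ 2 := pow_le_pow_left₀ hn0 h1 2
  have hx : |p.1| ≤ 2 ^ k := abs_le_of_sq_le_sq (by nlinarith [sq_nonneg p.2]) h2k.le
  have hy : |p.2| ≤ 2 ^ k := abs_le_of_sq_le_sq (by nlinarith [sq_nonneg p.1]) h2k.le
  have hround : ∀ x : ℝ, |x| ≤ 2 ^ k →
      |x - round (x / h) * h| ≤ h / 2 ∧ round (x / h) ∈ Finset.Icc (-(16 * q : ℤ)) (16 * q) := by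
    intro x hx
    have hr := abs_sub_round (x / h)
    have hd1 : x = x / h * h := by field_simp
    constructor
    · have : x - round (x / h) * h = (x / h - round (x / h)) * h := by
        rw [sub_mul]; rw [← hd1]
      rw [this, abs_mul, abs_of_pos hpos]
      nlinarith
    · have hlt : |x / h| ≤ 16 * q := by
        rw [abs_div, abs_of_pos hpos, div_le_iff₀ hpos]
        nlinarith
      rw [abs_le] at hlt
      rw [abs_le] at hr
      rw [Finset.mem_Icc]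
      constructor
      · have : (-(16 * q : ℝ)) - 1 < round (x / h) := by linarith
        have h3 : (-(16 * q : ℤ)) - 1 < round (x / h) := by exact_mod_cast this
        omega
      · have : (round (x / h) : ℝ) < 16 * q + 1 := by linarith
        have h3 : round (x / h) < (16 * q : ℤ) + 1 := by exact_mod_cast this
        omega
  obtain ⟨hx1, hx2⟩ := hround p.1 hx
  obtain ⟨hy1, hy2⟩ := hround p.2 hy
  set i : ℤ × ℤ := (round (p.1 / h), round (p.2 / h)) with hi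
  have hcell : cellC q k i = (round (p.1 / h) * h, round (p.2 / h) * h) := by
    simp only [cellC, hi, ← hh]
  have hdist : nm (p - cellC q k i) ≤ h := by
    have e := nm_sq (p - cellC q k i)
    have e0 := kqb_nm_nonneg (p - cellC q k i)
    rw [hcell] at e e0 ⊢
    simp only [Prod.fst_sub, Prod.snd_sub] at e
    have e1 : (p.1 - round (p.1 / h) * h) ^ 2 ≤ (h / 2) ^ 2 := by
      rw [← sq_abs]; exact pow_le_pow_left₀ (abs_nonneg _) hx1 2
    have e2 : (p.2 - round (p.2 / h) * h) ^ 2 ≤ (h / 2) ^ 2 := by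
      rw [← sq_abs]; exact pow_le_pow_left₀ (abs_nonneg _) hy1 2
    nlinarith
  refine ⟨i, ?_, hdist⟩
  unfold cells
  rw [Finset.mem_filter, Finset.mem_product]
  refine ⟨⟨hx2, hy2⟩, Or.inr ?_⟩
  have htri := kqb_nm_add (p - cellC q k i) (cellC q k i)
  rw [sub_add_cancel] at htri
  have hh1 : h ≤ 2 ^ k / 16 := by
    rw [hval]
    apply div_le_div_of_nonneg_left h2k.le (by norm_num)
    nlinarith
  linarith

/-! ### derivatives -/

private theorem kqb_hasDerivAt_x {n : ℕ} (c : Co n) (x y : ℝ) :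
    HasDerivAt (fun x => pe c x y) (pex c x y) x := by
  have h := pe_hasDerivAt c (hasDerivAt_id x) (hasDerivAt_const x y)
  refine h.congr_deriv ?_
  simp

private theorem kqb_hasDerivAt_y {n : ℕ} (c : Co n) (x y : ℝ) :
    HasDerivAt (fun y => pe c x y) (pey c x y) y := by
  have h := pe_hasDerivAt c (hasDerivAt_const y x) (hasDerivAt_id y)
  refine h.congr_deriv ?_
  simp

private theorem kqb_pe (n : ℕ) (b : KIdx n → ℝ) (x y : ℝ) :
    pe (arr n (kPoly n b)) x y =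
      ∑ p : KIdx n, kw n p * b p * (x ^ (p.1.1 : ℕ) * y ^ (p.1.2 : ℕ)) := by
  rw [← KosKernel_eval, eval_eq_pe _ (totalDegree_kPoly n _)]

private theorem kqb_pex (n : ℕ) (b : KIdx n → ℝ) (x y : ℝ) :
    pex (arr n (kPoly n b)) x y = ∑ p : KIdx n, kw n p * b p *
      ((((p.1.1 : ℕ) : ℝ) * x ^ ((p.1.1 : ℕ) - 1)) * y ^ (p.1.2 : ℕ)) := by
  have h1 := kqb_hasDerivAt_x (arr n (kPoly n b)) x y
  have h2 : HasDerivAt (fun x => pe (arr n (kPoly n b)) x y) (∑ p : KIdx n, kw n p * b p *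
      ((((p.1.1 : ℕ) : ℝ) * x ^ ((p.1.1 : ℕ) - 1)) * y ^ (p.1.2 : ℕ))) x := by
    have e : (fun x => pe (arr n (kPoly n b)) x y) = fun x =>
        ∑ p : KIdx n, kw n p * b p * (x ^ (p.1.1 : ℕ) * y ^ (p.1.2 : ℕ)) :=
      funext fun x => kqb_pe n b x y
    rw [e]
    refine HasDerivAt.fun_sum fun p _ => ?_
    exact ((hasDerivAt_pow (p.1.1 : ℕ) x).mul_const (y ^ (p.1.2 : ℕ))).const_mul (kw n p * b p)
  exact h1.unique h2

private theorem kqb_pey (n : ℕ) (b : KIdx n → ℝ) (x y : ℝ) :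
    pey (arr n (kPoly n b)) x y = ∑ p : KIdx n, kw n p * b p *
      (x ^ (p.1.1 : ℕ) * (((p.1.2 : ℕ) : ℝ) * y ^ ((p.1.2 : ℕ) - 1))) := by
  have h1 := kqb_hasDerivAt_y (arr n (kPoly n b)) x y
  have h2 : HasDerivAt (fun y => pe (arr n (kPoly n b)) x y) (∑ p : KIdx n, kw n p * b p *
      (x ^ (p.1.1 : ℕ) * (((p.1.2 : ℕ) : ℝ) * y ^ ((p.1.2 : ℕ) - 1)))) y := by
    have e : (fun y => pe (arr n (kPoly n b)) x y) = fun y =>
        ∑ p : KIdx n, kw n p * b p * (x ^ (p.1.1 : ℕ) * y ^ (p.1.2 : ℕ)) :=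
      funext fun y => kqb_pe n b x y
    rw [e]
    refine HasDerivAt.fun_sum fun p _ => ?_
    exact ((hasDerivAt_pow (p.1.2 : ℕ) y).const_mul (x ^ (p.1.1 : ℕ))).const_mul (kw n p * b p)
  exact h1.unique h2

private theorem kqb_mono_le {n : ℕ} (i j : ℕ) (h : i + j ≤ n) (z : ℝ × ℝ) :
    Real.sqrt ((n.factorial : ℝ) / (i.factorial * j.factorial * (n - i - j).factorial)) *
      (|z.1| ^ i * |z.2| ^ j) ≤ sq1 z ^ n := by
  have hs : 0 < sq1 z := zero_lt_one.trans_le (KosKernel_one_le z)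
  let p : KIdx n := ⟨(⟨i, by omega⟩, ⟨j, by omega⟩), h⟩
  have h1 := sum_kdir_sq n z
  have h2 : kdir n z p ^ 2 ≤ ∑ q, kdir n z q ^ 2 :=
    Finset.single_le_sum (f := fun q => kdir n z q ^ 2) (fun q _ => sq_nonneg _)
      (Finset.mem_univ p)
  rw [h1] at h2
  have h3 := (sq_le_one_iff_abs_le_one _).1 h2
  unfold kdir at h3
  rw [abs_div, abs_of_pos (pow_pos hs n), div_le_one (pow_pos hs n), abs_mul, abs_mul, abs_pow,
    abs_pow, abs_of_pos (KosEven_kw_pos n p)] at h3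
  exact h3

private theorem kqb_mult {n : ℕ} (i j : ℕ) (hi : 1 ≤ i) (h : i + j ≤ n) :
    ((n.factorial : ℝ) / (i.factorial * j.factorial * (n - i - j).factorial)) * i =
      n * (((n - 1).factorial : ℝ) /
        ((i - 1).factorial * j.factorial * (n - 1 - (i - 1) - j).factorial)) := by
  obtain ⟨i', rfl⟩ : ∃ i', i = i' + 1 := ⟨i - 1, by omega⟩
  obtain ⟨n', rfl⟩ : ∃ n', n = n' + 1 := ⟨n - 1, by omega⟩
  have e1 : n' + 1 - (i' + 1) - j = n' - i' - j := by omega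
  simp only [Nat.add_sub_cancel]
  rw [e1, Nat.factorial_succ, Nat.factorial_succ]
  push_cast
  have h1 : ((i').factorial : ℝ) ≠ 0 := by exact_mod_cast Nat.factorial_ne_zero _
  have h2 : ((j).factorial : ℝ) ≠ 0 := by exact_mod_cast Nat.factorial_ne_zero _
  have h3 : ((n' - i' - j).factorial : ℝ) ≠ 0 := by exact_mod_cast Nat.factorial_ne_zero _
  have h4 : ((i' : ℝ) + 1) ≠ 0 := by positivity
  field_simp

private theorem kqb_der_le {n : ℕ} (i j : ℕ) (h : i + j ≤ n) (z : ℝ × ℝ) :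
    Real.sqrt ((n.factorial : ℝ) / (i.factorial * j.factorial * (n - i - j).factorial)) *
      (((i : ℝ) * |z.1| ^ (i - 1)) * |z.2| ^ j) ≤ n * sq1 z ^ (n - 1) := by
  have hs : 0 < sq1 z := zero_lt_one.trans_le (KosKernel_one_le z)
  rcases Nat.eq_zero_or_pos i with hi | hi
  · rw [hi]
    simp only [Nat.cast_zero, zero_mul, mul_zero]
    positivity
  · have h1 := kqb_mono_le (n := n - 1) (i - 1) j (by omega) z
    have h2 := kqb_mult i j hi h
    set M := ((n.factorial : ℝ) / (i.factorial * j.factorial * (n - i - j).factorial)) with hM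
    set M' := (((n - 1).factorial : ℝ) /
        ((i - 1).factorial * j.factorial * (n - 1 - (i - 1) - j).factorial)) with hM'
    have hM0 : 0 ≤ M := by positivity
    have hM0' : 0 ≤ M' := by positivity
    have hin : (i : ℝ) ≤ n := by exact_mod_cast (by omega : i ≤ n)
    have h3 : Real.sqrt M * i ≤ n * Real.sqrt M' := by
      apply le_of_sq_le_sq' _ (by positivity)
      rw [mul_pow, mul_pow, Real.sq_sqrt hM0, Real.sq_sqrt hM0']
      calc M * (i : ℝ) ^ 2 = M * i * i := by ring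
        _ = n * M' * i := by rw [h2]
        _ ≤ n * M' * n := by gcongr
        _ = (n : ℝ) ^ 2 * M' := by ring
    calc Real.sqrt M * (((i : ℝ) * |z.1| ^ (i - 1)) * |z.2| ^ j)
        = (Real.sqrt M * i) * (|z.1| ^ (i - 1) * |z.2| ^ j) := by ring
      _ ≤ (n * Real.sqrt M') * (|z.1| ^ (i - 1) * |z.2| ^ j) := by gcongr
      _ = n * (Real.sqrt M' * (|z.1| ^ (i - 1) * |z.2| ^ j)) := by ring
      _ ≤ n * sq1 z ^ (n - 1) := by gcongr
where
  le_of_sq_le_sq' {a b : ℝ} (h : a ^ 2 ≤ b ^ 2) (hb : 0 ≤ b) : a ≤ b := by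
    nlinarith [sq_nonneg (a - b), sq_nonneg (a + b)]

private theorem kqb_sq1_swap (z : ℝ × ℝ) : sq1 (z.2, z.1) = sq1 z := by
  unfold sq1
  rw [add_comm (z.1 ^ 2)]

private theorem kqb_der_le' {n : ℕ} (i j : ℕ) (h : i + j ≤ n) (z : ℝ × ℝ) :
    Real.sqrt ((n.factorial : ℝ) / (i.factorial * j.factorial * (n - i - j).factorial)) *
      (|z.1| ^ i * ((j : ℝ) * |z.2| ^ (j - 1))) ≤ n * sq1 z ^ (n - 1) := by
  have h1 := kqb_der_le j i (by omega : j + i ≤ n) (z.2, z.1)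
  rw [kqb_sq1_swap] at h1
  have e : n - j - i = n - i - j := by omega
  rw [e, mul_comm (j.factorial : ℝ)] at h1
  simp only at h1
  calc _ = Real.sqrt ((n.factorial : ℝ) / (i.factorial * j.factorial * (n - i - j).factorial)) *
      ((j : ℝ) * |z.2| ^ (j - 1) * |z.1| ^ i) := by ring
    _ ≤ _ := h1

private theorem kqb_pex_le (n : ℕ) (b : KIdx n → ℝ) (z : ℝ × ℝ) :
    |pex (arr n (kPoly n b)) z.1 z.2| ≤ n * sq1 z ^ (n - 1) * ∑ p, |b p| := by
  rw [kqb_pex, Finset.mul_sum]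
  refine (Finset.abs_sum_le_sum_abs _ _).trans (Finset.sum_le_sum fun p _ => ?_)
  have h := kqb_der_le (p.1.1 : ℕ) (p.1.2 : ℕ) p.2 z
  rw [abs_mul, abs_mul, abs_mul, abs_mul, abs_pow, abs_pow, Nat.abs_cast,
    abs_of_pos (KosEven_kw_pos n p)]
  calc kw n p * |b p| * ((p.1.1 : ℕ) * |z.1| ^ ((p.1.1 : ℕ) - 1) * |z.2| ^ (p.1.2 : ℕ))
      = (kw n p * ((p.1.1 : ℕ) * |z.1| ^ ((p.1.1 : ℕ) - 1) * |z.2| ^ (p.1.2 : ℕ))) * |b p| := by
        ring
    _ ≤ n * sq1 z ^ (n - 1) * |b p| := mul_le_mul_of_nonneg_right h (abs_nonneg _)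

private theorem kqb_pey_le (n : ℕ) (b : KIdx n → ℝ) (z : ℝ × ℝ) :
    |pey (arr n (kPoly n b)) z.1 z.2| ≤ n * sq1 z ^ (n - 1) * ∑ p, |b p| := by
  rw [kqb_pey, Finset.mul_sum]
  refine (Finset.abs_sum_le_sum_abs _ _).trans (Finset.sum_le_sum fun p _ => ?_)
  have h := kqb_der_le' (p.1.1 : ℕ) (p.1.2 : ℕ) p.2 z
  rw [abs_mul, abs_mul, abs_mul, abs_mul, abs_pow, abs_pow, Nat.abs_cast,
    abs_of_pos (KosEven_kw_pos n p)]
  calc kw n p * |b p| * (|z.1| ^ (p.1.1 : ℕ) * ((p.1.2 : ℕ) * |z.2| ^ ((p.1.2 : ℕ) - 1)))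
      = (kw n p * (|z.1| ^ (p.1.1 : ℕ) * ((p.1.2 : ℕ) * |z.2| ^ ((p.1.2 : ℕ) - 1)))) * |b p| := by
        ring
    _ ≤ n * sq1 z ^ (n - 1) * |b p| := mul_le_mul_of_nonneg_right h (abs_nonneg _)

/-- far from the origin `√(1+|z|²)` and `|z|` are close -/
private theorem kqb_sq1_pow {n : ℕ} (hn : 1 ≤ n) {z : ℝ × ℝ} (hz : 49 / 100 * (n : ℝ) ≤ nm z) :
    sq1 z ^ (n - 1) ≤ 13 * nm z ^ (n - 1) := by
  have hn' : (1 : ℝ) ≤ n := by exact_mod_cast hn
  have hz0 : 0 < nm z := by linarith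
  have h1 : (sq1 z ^ (n - 1)) ^ 2 ≤ (13 * nm z ^ (n - 1)) ^ 2 := by
    have e1 : (sq1 z ^ (n - 1)) ^ 2 = (nm z ^ (n - 1)) ^ 2 * (1 + 1 / nm z ^ 2) ^ (n - 1) := by
      rw [← pow_mul, ← pow_mul, mul_comm (n - 1) 2, pow_mul, pow_mul, ← mul_pow,
        KosKernel_sq1_sq, ← nm_sq]
      congr 1
      field_simp
      ring
    have e2 : (1 + 1 / nm z ^ 2) ^ (n - 1) ≤ 169 := by
      have h3 : 1 + 1 / nm z ^ 2 ≤ Real.exp (1 / nm z ^ 2) := by
        have := Real.add_one_le_exp (1 / nm z ^ 2)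
        linarith
      calc (1 + 1 / nm z ^ 2) ^ (n - 1) ≤ (Real.exp (1 / nm z ^ 2)) ^ (n - 1) := by
            gcongr
        _ = Real.exp ((n - 1 : ℕ) * (1 / nm z ^ 2)) := by
            rw [← Real.exp_nat_mul]
        _ ≤ Real.exp 5 := by
            apply Real.exp_le_exp.2
            have h4 : ((n - 1 : ℕ) : ℝ) ≤ n := by
              exact_mod_cast Nat.sub_le n 1
            have h5 : (49 / 100 * (n : ℝ)) ^ 2 ≤ nm z ^ 2 :=
              pow_le_pow_left₀ (by positivity) hz 2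
            rw [mul_one_div, div_le_iff₀ (by positivity)]
            nlinarith
        _ ≤ 169 := by
            have h6 := Real.exp_one_lt_d9
            have h7 : Real.exp 5 = Real.exp 1 ^ 5 := by
              rw [← Real.exp_nat_mul]
              norm_num
            rw [h7]
            calc Real.exp 1 ^ 5 ≤ (2.7182818286 : ℝ) ^ 5 := by
                  gcongr
              _ ≤ 169 := by norm_num
    rw [e1]
    calc (nm z ^ (n - 1)) ^ 2 * (1 + 1 / nm z ^ 2) ^ (n - 1) ≤ (nm z ^ (n - 1)) ^ 2 * 169 := by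
          gcongr
      _ = (13 * nm z ^ (n - 1)) ^ 2 := by ring
  exact le_of_sq_le_sq' h1 (by positivity)
where
  le_of_sq_le_sq' {a b : ℝ} (h : a ^ 2 ≤ b ^ 2) (hb : 0 ≤ b) : a ≤ b := by
    nlinarith [sq_nonneg (a - b), sq_nonneg (a + b)]

/-- the gradient of the argument, pointwise -/
private theorem kqb_argGrad_le {n : ℕ} {μ : Pr n} {M : ℝ} (hM : 0 ≤ M) {z : ℝ × ℝ}
    (b1 : |pex μ.1 z.1 z.2| ≤ M) (b2 : |pey μ.1 z.1 z.2| ≤ M) (b3 : |pex μ.2 z.1 z.2| ≤ M)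
    (b4 : |pey μ.2 z.1 z.2| ≤ M) :
    ENNReal.ofReal (argGrad μ z) ≤
      ENNReal.ofReal (3 * M) * (ENNReal.ofReal (nm (vfc μ z)))⁻¹ := by
  rcases eq_or_ne (vfc μ z) 0 with h0 | h0
  · have h1 : pe μ.1 z.1 z.2 = 0 := congrArg Prod.fst h0
    have h2 : pe μ.2 z.1 z.2 = 0 := congrArg Prod.snd h0
    have : argGrad μ z = 0 := by
      unfold argGrad
      simp [h1, h2]
    rw [this]
    simp
  · have hn := nm_pos h0
    rw [← ENNReal.ofReal_inv_of_pos hn, ← ENNReal.ofReal_mul (by positivity)]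
    apply ENNReal.ofReal_le_ofReal
    rw [← div_eq_mul_inv, le_div_iff₀ hn]
    have hsq := nm_sq (vfc μ z)
    have e1 : (vfc μ z).1 = pe μ.1 z.1 z.2 := rfl
    have e2 : (vfc μ z).2 = pe μ.2 z.1 z.2 := rfl
    rw [e1, e2] at hsq
    set p := pe μ.1 z.1 z.2 with hp
    set q := pe μ.2 z.1 z.2 with hq
    set N := nm (vfc μ z) with hN
    unfold argGrad
    rw [← hp, ← hq, ← hsq]
    have key : ∀ u w : ℝ, |u| ≤ M → |w| ≤ M → |p * u - q * w| ≤ M * (|p| + |q|) := by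
      intro u w hu hw
      calc |p * u - q * w| ≤ |p * u| + |q * w| := abs_sub _ _
        _ = |p| * |u| + |q| * |w| := by rw [abs_mul, abs_mul]
        _ ≤ |p| * M + |q| * M := by gcongr
        _ = M * (|p| + |q|) := by ring
    have k1 := key _ _ b3 b1
    have k2 := key _ _ b4 b2
    have hpq : |p| + |q| ≤ 3 / 2 * N := by
      apply abs_le_of_sq_le_sq' _ (by positivity) |>.2
      have : |p| ^ 2 = p ^ 2 := sq_abs p
      have : |q| ^ 2 = q ^ 2 := sq_abs q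
      nlinarith [sq_nonneg (|p| - |q|), sq_nonneg p, sq_nonneg q]
    rw [div_mul_eq_mul_div, div_le_iff₀ (by positivity)]
    have k3 : (|p * pex μ.2 z.1 z.2 - q * pex μ.1 z.1 z.2| +
        |p * pey μ.2 z.1 z.2 - q * pey μ.1 z.1 z.2|) ≤ 3 * M * N := by
      nlinarith
    calc _ ≤ (3 * M * N) * N := by gcongr
      _ = 3 * M * N ^ 2 := by ring

private theorem kqb_nm_smul {w : ℝ} (hw : 0 ≤ w) (u : ℝ × ℝ) : nm (w • u) = w * nm u := by
  unfold nm
  have h1 : (w • u).1 ^ 2 + (w • u).2 ^ 2 = w ^ 2 * (u.1 ^ 2 + u.2 ^ 2) := by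
    simp only [Prod.smul_fst, Prod.smul_snd, smul_eq_mul]
    ring
  rw [h1, Real.sqrt_mul (by positivity), Real.sqrt_sq hw]

private theorem kqb_nm_cmul (s z : ℝ × ℝ) : nm (cmul s z) = nm s * nm z := by
  unfold nm cmul
  rw [← Real.sqrt_mul (by positivity)]
  congr 1
  ring

/-- the integral of `1/|c + w t z|` over a small set -/
private theorem kqb_mean (c z : ℝ × ℝ) {w e : ℝ} (hw : 0 < w) (hz : 0 < nm z) (he : 0 < e)
    {E : Set (ℝ × ℝ)} (hE : MeasurableSet E) (hv : volume E ≤ ENNReal.ofReal (e ^ 2)) :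
    ∫⁻ t in E, (ENNReal.ofReal (nm (c + w • cmul t z)))⁻¹ ≤
      ENNReal.ofReal (8 * e / (w * nm z)) := by
  have hwz : 0 < w * nm z := by positivity
  have hzz : z.1 ^ 2 + z.2 ^ 2 ≠ 0 := by
    rw [← nm_sq]
    positivity
  set b : ℝ × ℝ := ((c.1 * z.1 + c.2 * z.2) / (w * (z.1 ^ 2 + z.2 ^ 2)),
    (c.2 * z.1 - c.1 * z.2) / (w * (z.1 ^ 2 + z.2 ^ 2))) with hb
  have h1 : ∀ t : ℝ × ℝ, c + w • cmul t z = w • cmul (t + b) z := by
    intro t
    rw [hb]
    unfold cmul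
    ext
    · simp only [Prod.fst_add, Prod.smul_fst, Prod.snd_add, smul_eq_mul]
      field_simp
      ring
    · simp only [Prod.fst_add, Prod.smul_snd, Prod.snd_add, smul_eq_mul]
      field_simp
      ring
  have hE' : MeasurableSet ((fun u : ℝ × ℝ => u + -b) ⁻¹' E) :=
    (measurable_add_const (-b)) hE
  have hm : Measurable fun u : ℝ × ℝ => (ENNReal.ofReal (nm u))⁻¹ :=
    (ENNReal.measurable_ofReal.comp continuous_nm.measurable).inv
  have h2 : ∀ t : ℝ × ℝ, (ENNReal.ofReal (nm (c + w • cmul t z)))⁻¹ =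
      ENNReal.ofReal (w * nm z)⁻¹ * (ENNReal.ofReal (nm (t + b)))⁻¹ := by
    intro t
    rw [h1, kqb_nm_smul hw.le, kqb_nm_cmul]
    have e1 : w * (nm (t + b) * nm z) = (w * nm z) * nm (t + b) := by ring
    rw [e1, ENNReal.ofReal_mul hwz.le, ENNReal.mul_inv
      (Or.inl (ENNReal.ofReal_pos.mpr hwz).ne') (Or.inl ENNReal.ofReal_ne_top),
      ← ENNReal.ofReal_inv_of_pos hwz]
  have h3 : ∫⁻ t in E, (ENNReal.ofReal (nm (t + b)))⁻¹ =
      ∫⁻ u in (fun u : ℝ × ℝ => u + -b) ⁻¹' E, (ENNReal.ofReal (nm u))⁻¹ := by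
    rw [← lintegral_indicator hE, ← lintegral_indicator hE']
    refine Eq.trans ?_ (lintegral_add_right_eq_self
      (fun u => ((fun u : ℝ × ℝ => u + -b) ⁻¹' E).indicator
      (fun u => (ENNReal.ofReal (nm u))⁻¹) u) b)
    refine lintegral_congr fun t => ?_
    have hmem : (t + b ∈ (fun u : ℝ × ℝ => u + -b) ⁻¹' E) ↔ t ∈ E := by
      rw [Set.mem_preimage, add_neg_cancel_right]
    by_cases ht : t ∈ E
    · rw [Set.indicator_of_mem ht, Set.indicator_of_mem (hmem.2 ht)]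
    · rw [Set.indicator_of_notMem ht, Set.indicator_of_notMem fun hh => ht (hmem.1 hh)]
  have hvol : volume ((fun u : ℝ × ℝ => u + -b) ⁻¹' E) ≤ ENNReal.ofReal (e ^ 2) := by
    rw [measure_preimage_add_right]
    exact hv
  have h5 := lintegral_inv_nm_le hE' (a := e) he (m := e ^ 2) (by positivity) hvol
  have hm2 : Measurable fun t : ℝ × ℝ => (ENNReal.ofReal (nm (t + b)))⁻¹ :=
    hm.comp (measurable_add_const b)
  calc ∫⁻ t in E, (ENNReal.ofReal (nm (c + w • cmul t z)))⁻¹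
      = ∫⁻ t in E, ENNReal.ofReal (w * nm z)⁻¹ * (ENNReal.ofReal (nm (t + b)))⁻¹ :=
        lintegral_congr fun t => h2 t
    _ = ENNReal.ofReal (w * nm z)⁻¹ *
        ∫⁻ u in (fun u : ℝ × ℝ => u + -b) ⁻¹' E, (ENNReal.ofReal (nm u))⁻¹ := by
        rw [lintegral_const_mul _ hm2, h3]
    _ ≤ ENNReal.ofReal (w * nm z)⁻¹ * ENNReal.ofReal (2 * Real.pi * e + e ^ 2 / e) := by gcongr
    _ ≤ ENNReal.ofReal (8 * e / (w * nm z)) := by
        rw [← ENNReal.ofReal_mul (by positivity)]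
        apply ENNReal.ofReal_le_ofReal
        have := Real.pi_lt_d2
        have e1 : e ^ 2 / e = e := by
          rw [div_eq_iff he.ne']; ring
        rw [e1, div_eq_inv_mul]
        gcongr
        nlinarith

private theorem kqb_one_le_kS {n : ℕ} (a : KSp n) : 1 ≤ kS a := by
  unfold kS
  have : 0 ≤ ∑ p, (|(a p).1| + |(a p).2|) := Finset.sum_nonneg fun p _ => by positivity
  linarith

/-- the size of the shifted coefficients -/
private theorem kqb_sum_le {n : ℕ} {u : KSp n} (hu : ∑ p, ((u p).1 ^ 2 + (u p).2 ^ 2) = 1)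
    (a : KSp n) {t : ℝ × ℝ} (ht : nm t ≤ 1) :
    ∑ p, |(kshift2 u a t p).1| ≤ 3 * ((n : ℝ) + 1) ^ 2 * kS a ∧
      ∑ p, |(kshift2 u a t p).2| ≤ 3 * ((n : ℝ) + 1) ^ 2 * kS a := by
  have hS := kqb_one_le_kS a
  have ht2 : t.1 ^ 2 + t.2 ^ 2 ≤ 1 := by
    rw [← nm_sq]
    have := kqb_nm_nonneg t
    nlinarith
  have ht1 : |t.1| ≤ 1 := (sq_le_one_iff_abs_le_one _).1 (by nlinarith [sq_nonneg t.2])
  have ht2' : |t.2| ≤ 1 := (sq_le_one_iff_abs_le_one _).1 (by nlinarith [sq_nonneg t.1])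
  have hup : ∀ p, |(u p).1| ≤ 1 ∧ |(u p).2| ≤ 1 := by
    intro p
    have h2 : (u p).1 ^ 2 + (u p).2 ^ 2 ≤ ∑ q, ((u q).1 ^ 2 + (u q).2 ^ 2) :=
      Finset.single_le_sum (f := fun q => (u q).1 ^ 2 + (u q).2 ^ 2) (fun q _ => by positivity)
        (Finset.mem_univ p)
    rw [hu] at h2
    exact ⟨(sq_le_one_iff_abs_le_one _).1 (by nlinarith [sq_nonneg (u p).2]),
      (sq_le_one_iff_abs_le_one _).1 (by nlinarith [sq_nonneg (u p).1])⟩
  have hcard : (Fintype.card (KIdx n) : ℝ) ≤ ((n : ℝ) + 1) ^ 2 := by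
    exact_mod_cast KosEven_card n
  have hn1 : (1 : ℝ) ≤ ((n : ℝ) + 1) ^ 2 := by
    have : (0 : ℝ) ≤ n := Nat.cast_nonneg n
    nlinarith
  have hfin : ∀ f : KIdx n → ℝ, (∀ p, |f p| ≤ (|(a p).1| + |(a p).2|) + 2) →
      ∑ p, |f p| ≤ 3 * ((n : ℝ) + 1) ^ 2 * kS a := by
    intro f hf
    have h1 : ∑ p, |f p| ≤ ∑ p, ((|(a p).1| + |(a p).2|) + 2) := Finset.sum_le_sum fun p _ => hf p
    rw [Finset.sum_add_distrib, Finset.sum_const, Finset.card_univ, nsmul_eq_mul] at h1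
    have h2 : ∑ p, (|(a p).1| + |(a p).2|) = kS a - 1 := by
      unfold kS
      ring
    rw [h2] at h1
    nlinarith
  have hm : ∀ x y : ℝ, |x| ≤ 1 → |y| ≤ 1 → |x * y| ≤ 1 := by
    intro x y hx hy
    rw [abs_mul]
    nlinarith [abs_nonneg x, abs_nonneg y]
  refine ⟨hfin _ fun p => ?_, hfin _ fun p => ?_⟩
  · have e1 : (kshift2 u a t p).1 = (a p).1 + (t.1 * (u p).1 - t.2 * (u p).2) := rfl
    have h3 := hm _ _ ht1 (hup p).1
    have h4 := hm _ _ ht2' (hup p).2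
    rw [e1]
    refine (abs_add_le _ _).trans ?_
    have h5 := abs_sub (t.1 * (u p).1) (t.2 * (u p).2)
    have h6 := abs_nonneg (a p).2
    linarith
  · have e1 : (kshift2 u a t p).2 = (a p).2 + (t.2 * (u p).1 + t.1 * (u p).2) := rfl
    have h3 := hm _ _ ht2' (hup p).1
    have h4 := hm _ _ ht1 (hup p).2
    rw [e1]
    refine (abs_add_le _ _).trans ?_
    have h5 := abs_add_le (t.2 * (u p).1) (t.1 * (u p).2)
    have h6 := abs_nonneg (a p).1
    linarith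

/-- the mean of the gradient of the argument over a small set of translations -/
private theorem kqb_J' {m n : ℕ} (hn : n = 2 * m + 1) {u : KSp n} {ν : ℝ} (hν : 0 < ν)
    (hν2 : ν ≤ 2 * (m + 1)) (hu : ∑ p, ((u p).1 ^ 2 + (u p).2 ^ 2) = 1)
    (hvf : ∀ (a : KSp n) (t z : ℝ × ℝ), kVF n (kshift2 u a t) z =
      kVF n a z + (ν⁻¹ * (z.1 ^ 2 + z.2 ^ 2) ^ m) • cmul t z)
    (a : KSp n) {z : ℝ × ℝ} (hz : 49 / 100 * (n : ℝ) ≤ nm z)
    {E : Set (ℝ × ℝ)} (hE : MeasurableSet E) (hE1 : ∀ t ∈ E, nm t ≤ 1) {e : ℝ} (he : 0 < e)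
    (hv : volume E ≤ ENNReal.ofReal (e ^ 2)) :
    ∫⁻ t in E, ENNReal.ofReal (argGrad (kArr n (kshift2 u a t)) z) ≤
      ENNReal.ofReal (14976 * ((m : ℝ) + 1) ^ 4 * kS a * e / nm z) := by
  have hS := kqb_one_le_kS a
  have hn1 : 1 ≤ n := by omega
  have hn' : (1 : ℝ) ≤ n := by exact_mod_cast hn1
  have hz0 : 0 < nm z := by linarith
  have hS0 : 0 ≤ kS a := by linarith
  set M : ℝ := n * (13 * nm z ^ (n - 1)) * (3 * ((n : ℝ) + 1) ^ 2 * kS a) with hM
  have hM0 : 0 ≤ M := by positivity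
  set w : ℝ := ν⁻¹ * (z.1 ^ 2 + z.2 ^ 2) ^ m with hw
  have hw0 : 0 < w := by
    rw [hw, ← nm_sq]
    positivity
  have hsq := kqb_sq1_pow hn1 hz
  have hsq0 : 0 ≤ sq1 z := Real.sqrt_nonneg _
  have hpt : ∀ t ∈ E, ENNReal.ofReal (argGrad (kArr n (kshift2 u a t)) z) ≤
      ENNReal.ofReal (3 * M) * (ENNReal.ofReal (nm (kVF n a z + w • cmul t z)))⁻¹ := by
    intro t ht
    have hs := kqb_sum_le hu a (hE1 t ht)
    have hb : ∀ s : ℝ, s ≤ 3 * ((n : ℝ) + 1) ^ 2 * kS a → 0 ≤ s →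
        n * sq1 z ^ (n - 1) * s ≤ M := by
      intro s hs hs0
      rw [hM]
      gcongr
    have h1 := kqb_argGrad_le (μ := kArr n (kshift2 u a t)) (z := z) hM0
      ((kqb_pex_le n _ z).trans (hb _ hs.1 (Finset.sum_nonneg fun p _ => abs_nonneg _)))
      ((kqb_pey_le n _ z).trans (hb _ hs.1 (Finset.sum_nonneg fun p _ => abs_nonneg _)))
      ((kqb_pex_le n _ z).trans (hb _ hs.2 (Finset.sum_nonneg fun p _ => abs_nonneg _)))
      ((kqb_pey_le n _ z).trans (hb _ hs.2 (Finset.sum_nonneg fun p _ => abs_nonneg _)))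
    rw [← kVF_eq_vfc, hvf] at h1
    exact h1
  have hcont : Continuous fun t : ℝ × ℝ => kVF n a z + w • cmul t z := by
    unfold cmul
    fun_prop
  have hmeas : Measurable fun t : ℝ × ℝ =>
      (ENNReal.ofReal (nm (kVF n a z + w • cmul t z)))⁻¹ :=
    (ENNReal.measurable_ofReal.comp (continuous_nm.comp hcont).measurable).inv
  have e1 : w = ν⁻¹ * nm z ^ (n - 1) := by
    rw [hw, ← nm_sq, ← pow_mul, hn]
    rfl
  have hfinal : 3 * M * (8 * e / (w * nm z)) ≤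
      14976 * ((m : ℝ) + 1) ^ 4 * kS a * e / nm z := by
    have hp : 0 < nm z ^ (n - 1) := by positivity
    have e2 : 3 * M * (8 * e / (w * nm z)) =
        936 * n * ((n : ℝ) + 1) ^ 2 * ν * kS a * e / nm z := by
      rw [hM, e1]
      field_simp
      ring
    rw [e2]
    have e3 : (n : ℝ) + 1 = 2 * ((m : ℝ) + 1) := by
      rw [hn]
      push_cast
      ring
    have e4 : (n : ℝ) ≤ 2 * ((m : ℝ) + 1) := by linarith
    have e5 : 936 * (n : ℝ) * ((n : ℝ) + 1) ^ 2 * ν ≤ 14976 * ((m : ℝ) + 1) ^ 4 := by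
      rw [e3]
      calc 936 * (n : ℝ) * (2 * ((m : ℝ) + 1)) ^ 2 * ν
          ≤ 936 * (2 * ((m : ℝ) + 1)) * (2 * ((m : ℝ) + 1)) ^ 2 * (2 * ((m : ℝ) + 1)) := by
            gcongr
        _ = 14976 * ((m : ℝ) + 1) ^ 4 := by ring
    gcongr
  calc ∫⁻ t in E, ENNReal.ofReal (argGrad (kArr n (kshift2 u a t)) z)
      ≤ ∫⁻ t in E, ENNReal.ofReal (3 * M) *
          (ENNReal.ofReal (nm (kVF n a z + w • cmul t z)))⁻¹ := setLIntegral_mono' hE hpt
    _ = ENNReal.ofReal (3 * M) * ∫⁻ t in E,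
          (ENNReal.ofReal (nm (kVF n a z + w • cmul t z)))⁻¹ := lintegral_const_mul _ hmeas
    _ ≤ ENNReal.ofReal (3 * M) * ENNReal.ofReal (8 * e / (w * nm z)) := by
        gcongr
        exact kqb_mean _ z hw0 hz0 he hE hv
    _ ≤ ENNReal.ofReal (14976 * ((m : ℝ) + 1) ^ 4 * kS a * e / nm z) := by
        rw [← ENNReal.ofReal_mul (by positivity)]
        exact ENNReal.ofReal_le_ofReal hfinal


/-! ### the crossings -/

private theorem kqb_crossN (v : ℝ × ℝ → ℝ × ℝ) (c : ℝ × ℝ) (R : ℝ) :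
    crossN v c R = cntO v Set.univ (Finset.univ : Finset Bool)
      (fun b => if b then {z | R < nm (z - c)} else {z | nm (z - c) < 2 * R}) := by
  unfold crossN cntO
  congr 2
  ext C
  simp only [Set.mem_ofPred_eq, Set.subset_univ, true_and]
  constructor
  · rintro ⟨h1, ⟨z, hz, hz1⟩, w, hw, hw1⟩
    refine ⟨h1, fun b _ => ?_⟩
    cases b
    · intro hb
      have := hb hw
      simp only [Bool.false_eq_true, if_false, Set.mem_ofPred_eq] at this
      linarith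
    · intro hb
      have := hb hz
      simp only [if_true, Set.mem_ofPred_eq] at this
      linarith
  · rintro ⟨h1, h2⟩
    refine ⟨h1, ?_, ?_⟩
    · have h3 := h2 true (Finset.mem_univ _)
      simp only [if_true] at h3
      obtain ⟨z, hz, hz1⟩ := Set.not_subset.1 h3
      exact ⟨z, hz, by simpa using hz1⟩
    · have h3 := h2 false (Finset.mem_univ _)
      simp only [Bool.false_eq_true, if_false] at h3
      obtain ⟨z, hz, hz1⟩ := Set.not_subset.1 h3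
      exact ⟨z, hz, by simpa using hz1⟩

private theorem kqb_crossN_meas {D : ℕ} (μ : Pr D) (c : ℝ × ℝ) (R : ℝ) :
    Measurable fun α : ℝ => crossN (turn α (vfc μ)) c R := by
  have hc : Continuous (rotA μ) := by
    unfold rotA
    exact (Real.continuous_cos.smul continuous_const).add
      (Real.continuous_sin.smul continuous_const)
  have hd : Continuous fun z : ℝ × ℝ => nm (z - c) :=
    continuous_nm.comp (continuous_id.sub continuous_const)
  have h1 := (measurable_cntO (D := D) isOpen_univ (Finset.univ : Finset Bool)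
    (V := fun b => if b then {z | R < nm (z - c)} else {z | nm (z - c) < 2 * R})
    (fun b _ => by
      cases b
      · simp only [Bool.false_eq_true, if_false]
        exact isOpen_lt hd continuous_const
      · simp only [if_true]
        exact isOpen_lt continuous_const hd)).comp hc.measurable
  have h2 : (fun α : ℝ => crossN (turn α (vfc μ)) c R) = (fun μ : Pr D => cntO (vfc μ) Set.univ
      (Finset.univ : Finset Bool)
      (fun b => if b then {z | R < nm (z - c)} else {z | nm (z - c) < 2 * R})) ∘ rotA μ := by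
    funext α
    rw [Function.comp, vfc_rotA, kqb_crossN]
  rw [h2]
  exact h1

private theorem kqb_NL_le (v : ℝ × ℝ → ℝ × ℝ) (j : ℕ) (S : Finset (ℤ × ℤ))
    (hS : ∀ p : ℝ × ℝ, nm p ≤ 2 ^ (j + 1) → (2 : ℝ) ^ (j + 1) / 2 ≤ nm p →
      ∃ i ∈ S, nm (p - cellC nlq (j + 1) i) ≤ cellR nlq (j + 1) / 2) :
    cntO v {z | (2 : ℝ) ^ j < nm z} (Finset.insertNone S) (nlV j) ≤
      ∑ i ∈ S, crossN v (cellC nlq (j + 1) i) (cellR nlq (j + 1) / 2) := by
  have h2j : (2 : ℝ) ^ (j + 1) / 2 = 2 ^ j := by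
    rw [pow_succ]; ring
  have hR : 0 ≤ cellR nlq (j + 1) := by unfold cellR; positivity
  have hsub : {C | IsClosedOrbit v C ∧ C ⊆ {z | (2 : ℝ) ^ j < nm z} ∧
      ∀ i ∈ Finset.insertNone S, ¬ C ⊆ nlV j i} ⊆ ⋃ i ∈ S,
      {C | IsClosedOrbit v C ∧ (∃ z ∈ C, nm (z - cellC nlq (j + 1) i) ≤ cellR nlq (j + 1) / 2) ∧
        ∃ z ∈ C, 2 * (cellR nlq (j + 1) / 2) ≤ nm (z - cellC nlq (j + 1) i)} := by
    rintro C ⟨h1, h2, h3⟩
    have h4 := h3 none Finset.none_mem_insertNone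
    obtain ⟨p, hp, hp1⟩ := Set.not_subset.1 h4
    have hp2 : nm p ≤ 2 ^ (j + 1) := not_lt.1 hp1
    have hp3 : (2 : ℝ) ^ (j + 1) / 2 ≤ nm p := by
      rw [h2j]
      exact (h2 hp).le
    obtain ⟨i, hi, hi1⟩ := hS p hp2 hp3
    have h5 := h3 (some i) (Finset.some_mem_insertNone.2 hi)
    obtain ⟨w, hw, hw1⟩ := Set.not_subset.1 h5
    simp only [Set.mem_iUnion, Set.mem_ofPred_eq, exists_prop]
    refine ⟨i, hi, h1, ⟨p, hp, hi1⟩, w, hw, ?_⟩
    have hw2 : ¬ ((w.1 - (cellC nlq (j + 1) i).1) ^ 2 + (w.2 - (cellC nlq (j + 1) i).2) ^ 2 <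
        cellR nlq (j + 1) ^ 2) := hw1
    have e1 := nm_sq (w - cellC nlq (j + 1) i)
    rw [Prod.fst_sub, Prod.snd_sub] at e1
    have h0 := kqb_nm_nonneg (w - cellC nlq (j + 1) i)
    rw [← e1, not_lt] at hw2
    have h6 := (pow_le_pow_iff_left₀ hR h0 two_ne_zero).1 hw2
    linarith
  unfold cntO crossN
  have h1 := (Set.encard_le_encard hsub).trans (Finset.set_encard_biUnion_le _ _)
  refine (ENat.toENNReal_le.2 h1).trans (le_of_eq ?_)
  rw [← ENat.toENNRealRingHom_apply, map_sum]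

private theorem kqb_meas {n : ℕ} (u a : KSp n) (K : ℝ≥0∞) :
    Measurable fun q : (ℝ × ℝ) × (ℝ × ℝ) =>
      ENNReal.ofReal (argGrad (kArr n (kshift2 u a q.1)) q.2) + K := by
  have hshift : Continuous fun t : ℝ × ℝ => kshift2 u a t := by
    refine continuous_pi fun p => ?_
    unfold kshift2 cmul
    fun_prop
  have hc : Measurable fun q : (ℝ × ℝ) × (ℝ × ℝ) => (kArr n (kshift2 u a q.1), q.2) :=
    (((continuous_kArr _).measurable.comp hshift.measurable).comp measurable_fst).prodMk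
      measurable_snd
  exact (km_measurable_argGrad.comp hc).ennreal_ofReal.add_const _

/-- the crossings of one cell -/
private theorem kqb_cell {m n : ℕ} (hn : n = 2 * m + 1) {u : KSp n} {ν : ℝ} (hν : 0 < ν)
    (hν2 : ν ≤ 2 * (m + 1)) (hu : ∑ p, ((u p).1 ^ 2 + (u p).2 ^ 2) = 1)
    (hvf : ∀ (a : KSp n) (t z : ℝ × ℝ), kVF n (kshift2 u a t) z =
      kVF n a z + (ν⁻¹ * (z.1 ^ 2 + z.2 ^ 2) ^ m) • cmul t z)
    (a : KSp n) {j : ℕ} (hj : (n : ℝ) ≤ 2 ^ j)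
    {E : Set (ℝ × ℝ)} (hE : MeasurableSet E) (hE1 : ∀ t ∈ E, nm t ≤ 1) {e : ℝ} (he : 0 < e)
    (hv : volume E ≤ ENNReal.ofReal (e ^ 2)) {c : ℝ × ℝ} {R : ℝ} (hRval : R = 2 ^ j / 256)
    (hcn : 2 ^ j / 2 ≤ nm c) :
    ∫⁻ t in E, ((ENNReal.ofReal (7 / 50 * R))⁻¹ *
        ∫⁻ z in disc c (2 * R),
          (ENNReal.ofReal (argGrad (kArr n (kshift2 u a t)) z) +
            ENNReal.ofReal (3 / R))) ≤
      ENNReal.ofReal (15000 * ((m : ℝ) + 1) ^ 4 * kS a * e) := by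
  have hS := kqb_one_le_kS a
  have hS0 : 0 ≤ kS a := by linarith
  have h2j : (0 : ℝ) < 2 ^ j := by positivity
  have hR0 : 0 < R := by rw [hRval]; positivity
  have hdisc : ∀ z ∈ disc c (2 * R), 49 / 100 * (2 : ℝ) ^ j ≤ nm z := by
    intro z hz
    have hz1 : (z.1 - c.1) ^ 2 + (z.2 - c.2) ^ 2 < (2 * R) ^ 2 := hz
    have h3 : nm (c - z) ≤ 2 * R := by
      unfold nm
      rw [Prod.fst_sub, Prod.snd_sub]
      rw [Real.sqrt_le_left (by positivity)]
      nlinarith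
    have h4 := kqb_nm_add (c - z) z
    rw [sub_add_cancel] at h4
    rw [hRval] at h3
    linarith
  have hvE : volume E ≤ ENNReal.ofReal (2 * e) := by
    rcases le_total e 2 with h2 | h2
    · refine hv.trans (ENNReal.ofReal_le_ofReal ?_)
      nlinarith
    · have h3 : E ⊆ {t : ℝ × ℝ | nm t ≤ 1} := fun t ht => hE1 t ht
      refine (measure_mono h3).trans ((volume_nm_le zero_le_one).trans
        (ENNReal.ofReal_le_ofReal ?_))
      linarith
  have hm2 : Measurable fun q : (ℝ × ℝ) × (ℝ × ℝ) =>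
      ENNReal.ofReal (argGrad (kArr n (kshift2 u a q.1)) q.2) +
        ENNReal.ofReal (3 / R) := kqb_meas u a _
  have hA : 0 < 7 / 50 * R := by positivity
  rw [lintegral_const_mul' _ _ (ENNReal.inv_ne_top.2 (ENNReal.ofReal_pos.2 hA).ne'),
    lintegral_lintegral_swap hm2.aemeasurable]
  set B : ℝ := 14976 * ((m : ℝ) + 1) ^ 4 * kS a * e / (49 / 100 * 2 ^ j) + 3 / R * (2 * e)
    with hB
  have hB0 : 0 ≤ B := by rw [hB]; positivity
  have hin : ∀ z ∈ disc c (2 * R), ∫⁻ t in E,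
      (ENNReal.ofReal (argGrad (kArr n (kshift2 u a t)) z) +
        ENNReal.ofReal (3 / R)) ≤ ENNReal.ofReal B := by
    intro z hz
    have hz1 := hdisc z hz
    have hz2 : 49 / 100 * (n : ℝ) ≤ nm z := by linarith
    have h3 := kqb_J' hn hν hν2 hu hvf a hz2 hE hE1 he hv
    rw [lintegral_add_right _ measurable_const, hB,
      ENNReal.ofReal_add (by positivity) (by positivity)]
    refine add_le_add (h3.trans (ENNReal.ofReal_le_ofReal ?_)) ?_
    · apply div_le_div_of_nonneg_left (by positivity) (by positivity) hz1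
    · rw [setLIntegral_const, ENNReal.ofReal_mul (by positivity)]
      gcongr
  have hfin : ∫⁻ z in disc c (2 * R), ∫⁻ t in E,
      (ENNReal.ofReal (argGrad (kArr n (kshift2 u a t)) z) +
        ENNReal.ofReal (3 / R)) ≤ ENNReal.ofReal B * ENNReal.ofReal (4 * (2 * R) ^ 2) := by
    refine (setLIntegral_mono' (isOpen_disc _ _).measurableSet hin).trans ?_
    rw [setLIntegral_const]
    gcongr
    exact volume_disc_le c (by positivity)
  refine (mul_le_mul_right hfin _).trans ?_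
  rw [← ENNReal.ofReal_inv_of_pos hA, ← ENNReal.ofReal_mul hB0,
    ← ENNReal.ofReal_mul (by positivity)]
  apply ENNReal.ofReal_le_ofReal
  have e1 : (2 : ℝ) ^ j = 256 * R := by rw [hRval]; ring
  rw [hB, e1]
  set Q := ((m : ℝ) + 1) ^ 4 * kS a * e with hQ
  have hQe : e ≤ Q := by
    rw [hQ]
    have h1 : (1 : ℝ) ≤ ((m : ℝ) + 1) ^ 4 := by
      apply one_le_pow₀
      have : (0 : ℝ) ≤ m := Nat.cast_nonneg m
      linarith
    have h2 : 1 ≤ ((m : ℝ) + 1) ^ 4 * kS a := by nlinarith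
    nlinarith
  have e2 : (7 / 50 * R)⁻¹ * ((14976 * ((m : ℝ) + 1) ^ 4 * kS a * e / (49 / 100 * (256 * R)) +
      3 / R * (2 * e)) * (4 * (2 * R) ^ 2)) =
      (50 / 7) * 16 * (14976 * 100 / (49 * 256) * Q + 6 * e) := by
    rw [hQ]
    field_simp
    ring
  rw [e2]
  have e3 : 15000 * ((m : ℝ) + 1) ^ 4 * kS a * e = 15000 * Q := by rw [hQ]; ring
  rw [e3]
  nlinarith

private theorem kqb_ext {m n : ℕ} (hn : n = 2 * m + 1) {u : KSp n} {ν : ℝ} (hν : 0 < ν)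
    (hν2 : ν ≤ 2 * (m + 1)) (hu : ∑ p, ((u p).1 ^ 2 + (u p).2 ^ 2) = 1)
    (hvf : ∀ (a : KSp n) (t z : ℝ × ℝ), kVF n (kshift2 u a t) z =
      kVF n a z + (ν⁻¹ * (z.1 ^ 2 + z.2 ^ 2) ^ m) • cmul t z)
    (a : KSp n) {j : ℕ} (hj : (n : ℝ) ≤ 2 ^ j)
    {E : Set (ℝ × ℝ)} (hE : MeasurableSet E) (hE1 : ∀ t ∈ E, nm t ≤ 1) {e : ℝ} (he : 0 < e)
    (hv : volume E ≤ ENNReal.ofReal (e ^ 2)) (S : Finset (ℤ × ℤ))
    (hS : ∀ p : ℝ × ℝ, nm p ≤ 2 ^ (j + 1) → (2 : ℝ) ^ (j + 1) / 2 ≤ nm p →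
      ∃ i ∈ S, nm (p - cellC nlq (j + 1) i) ≤ cellR nlq (j + 1) / 2)
    (hS2 : ∀ i ∈ S, 2 ^ j / 2 ≤ nm (cellC nlq (j + 1) i)) :
    ∫⁻ t in E, ∫⁻ α in Set.Ioo 0 Real.pi, cntO (turn α (kVF n (kshift2 u a t)))
      {z | (2 : ℝ) ^ j < nm z} (Finset.insertNone S) (nlV j) ≤
      ENNReal.ofReal (S.card * (15000 * ((m : ℝ) + 1) ^ 4 * kS a * e)) := by
  have hRval : cellR nlq (j + 1) / 2 = 2 ^ j / 256 := by
    rw [nlq_eq]
    unfold cellR
    rw [pow_succ]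
    push_cast
    ring
  have hR0 : 0 < cellR nlq (j + 1) / 2 := by rw [hRval]; positivity
  obtain ⟨R, hR⟩ : ∃ R, R = cellR nlq (j + 1) / 2 := ⟨_, rfl⟩
  rw [← hR] at hRval hR0
  set F : ℤ × ℤ → ℝ × ℝ → ℝ≥0∞ := fun i t =>
    (ENNReal.ofReal (7 / 50 * R))⁻¹ *
        ∫⁻ z in disc (cellC nlq (j + 1) i) (2 * R),
          (ENNReal.ofReal (argGrad (kArr n (kshift2 u a t)) z) +
            ENNReal.ofReal (3 / R)) with hF
  have hFm : ∀ i, Measurable (F i) := fun i =>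
    ((kqb_meas u a _).lintegral_prod_right').const_mul _
  have hpt : ∀ t, ∫⁻ α in Set.Ioo 0 Real.pi,
      cntO (turn α (kVF n (kshift2 u a t)))
      {z | (2 : ℝ) ^ j < nm z} (Finset.insertNone S) (nlV j) ≤ ∑ i ∈ S, F i t := by
    intro t
    rw [kVF_eq_vfc]
    refine (lintegral_mono fun α => kqb_NL_le _ j S hS).trans ?_
    rw [← hR]
    rw [lintegral_finsetSum _ fun i _ => kqb_crossN_meas _ _ _]
    exact Finset.sum_le_sum fun i _ => crossing_at _ _ hR0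
  refine (lintegral_mono hpt).trans ?_
  rw [lintegral_finsetSum _ fun i _ => hFm i]
  refine (Finset.sum_le_sum fun i hi =>
    kqb_cell hn hν hν2 hu hvf a hj hE hE1 he hv hRval (hS2 i hi)).trans ?_
  rw [Finset.sum_const, nsmul_eq_mul]
  rw [← ENNReal.ofReal_natCast, ← ENNReal.ofReal_mul (Nat.cast_nonneg _)]

private theorem kqb_cells_far {q k : ℕ} {i : ℤ × ℤ} (hi : i ∈ cells q (k + 1)) :
    2 ^ k / 2 ≤ nm (cellC q (k + 1) i) := by
  unfold cells at hi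
  rw [Finset.mem_filter] at hi
  rcases hi.2 with h0 | h0
  · omega
  · refine le_trans (le_of_eq ?_) h0
    rw [pow_succ]
    ring

private theorem kqb_final {S m : ℕ} {x e : ℝ} (hx : 0 ≤ x) (he : 0 ≤ e)
    (hcard : (S : ℝ) ≤ 1089 * ((32 : ℕ) : ℝ) ^ 2) :
    (S : ℝ) * (15000 * ((m : ℝ) + 1) ^ 4 * x * e) ≤
      2 * 10 ^ 10 * ((m : ℝ) + 1) ^ 6 * x * e := by
  have h1 : (1 : ℝ) ≤ (m : ℝ) + 1 := by
    have : (0 : ℝ) ≤ m := Nat.cast_nonneg m
    linarith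
  have h46 : ((m : ℝ) + 1) ^ 4 ≤ ((m : ℝ) + 1) ^ 6 := pow_le_pow_right₀ h1 (by norm_num)
  push_cast at hcard
  calc (S : ℝ) * (15000 * ((m : ℝ) + 1) ^ 4 * x * e)
      ≤ (1089 * 32 ^ 2) * (15000 * ((m : ℝ) + 1) ^ 6 * x * e) := by gcongr
    _ = 16727040000 * (((m : ℝ) + 1) ^ 6 * x * e) := by ring
    _ ≤ 2 * 10 ^ 10 * (((m : ℝ) + 1) ^ 6 * x * e) := by
      apply mul_le_mul_of_nonneg_right (by norm_num)
      positivity
    _ = 2 * 10 ^ 10 * ((m : ℝ) + 1) ^ 6 * x * e := by ring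

private theorem kqb_all {m n : ℕ} (hn : n = 2 * m + 1) {u : KSp n} {ν : ℝ} (hν : 0 < ν)
    (hν2 : ν ≤ 2 * (m + 1)) (hu : ∑ p, ((u p).1 ^ 2 + (u p).2 ^ 2) = 1)
    (hvf : ∀ (a : KSp n) (t z : ℝ × ℝ), kVF n (kshift2 u a t) z =
      kVF n a z + (ν⁻¹ * (z.1 ^ 2 + z.2 ^ 2) ^ m) • cmul t z)
    (a : KSp n) {j : ℕ} (hj : (n : ℝ) ≤ 2 ^ j)
    {E : Set (ℝ × ℝ)} (hE : MeasurableSet E) (hE1 : ∀ t ∈ E, nm t ≤ 1) {e : ℝ} (he : 0 < e)
    (hv : volume E ≤ ENNReal.ofReal (e ^ 2)) (q : ℕ) (hq : q = nlq) :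
    ∫⁻ t in E, ∫⁻ α in Set.Ioo 0 Real.pi, cntO (turn α (kVF n (kshift2 u a t)))
      {z | (2 : ℝ) ^ j < nm z} (Finset.insertNone (cells q (j + 1))) (nlV j) ≤
      ENNReal.ofReal (2 * 10 ^ 10 * (m + 1) ^ 6 * kS a * e) := by
  have hq32 : q = 32 := hq.trans nlq_eq
  have hcell : ∀ p : ℝ × ℝ, nm p ≤ 2 ^ (j + 1) → (2 : ℝ) ^ (j + 1) / 2 ≤ nm p →
      ∃ i ∈ cells q (j + 1), nm (p - cellC nlq (j + 1) i) ≤ cellR nlq (j + 1) / 2 := by
    intro p h1 h2
    have h3 := exists_cell_point' (q := q) (by omega) (j + 1) h1 h2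
    obtain ⟨i, hi, h4⟩ := h3
    refine ⟨i, hi, ?_⟩
    rw [← hq]
    exact h4
  have hcell2 : ∀ i ∈ cells q (j + 1), 2 ^ j / 2 ≤ nm (cellC nlq (j + 1) i) := by
    intro i hi
    have h1 := kqb_cells_far hi
    rw [← hq]
    exact h1
  have hcard := card_cells (n := q) (by omega) (j + 1)
  refine (kqb_ext hn hν hν2 hu hvf a hj hE hE1 he hv _ hcell hcell2).trans ?_
  apply ENNReal.ofReal_le_ofReal
  have hS := kqb_one_le_kS a
  have hS0 : 0 ≤ kS a := by linarith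
  refine kqb_final hS0 he.le ?_
  rw [← hq32]
  exact hcard

theorem ext_bad : ∃ C : ℝ, 0 ≤ C ∧ ∀ (m : ℕ) (u : KSp (2 * m + 1)) (ν : ℝ), OddDir m u ν →
    ∀ (a : KSp (2 * m + 1)) (j : ℕ), ((2 * m + 1 : ℕ) : ℝ) ≤ 2 ^ j →
    ∀ (E : Set (ℝ × ℝ)) (e : ℝ), MeasurableSet E → (∀ t ∈ E, nm t ≤ 1) → 0 < e →
    volume E ≤ ENNReal.ofReal (e ^ 2) →
    ∫⁻ t in E, ∫⁻ α in Set.Ioo 0 Real.pi, NL (turn α (kVF (2 * m + 1) (kshift2 u a t))) j ≤
      ENNReal.ofReal (C * (m + 1) ^ 6 * kS a * e) := by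
  refine ⟨2 * 10 ^ 10, by positivity, fun m u ν h a j hj E e hE hE1 he hv => ?_⟩
  exact kqb_all rfl h.1 h.2.1 h.2.2.1 h.2.2.2 a hj hE hE1 he hv nlq rfl

end Pool.Agent.Lib.MP_95e7ec_an
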