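import Mathlib
import Pool.Agent.Lib.MP_95e7ec_an.KqDefs
import Pool.Agent.Lib.MP_95e7ec_an.KpAct

/-!
# Comparison of the closed solutions of turned fields on the cylinder (task Q8)
-/

set_option autoImplicit false

open Set Filter Topology MeasureTheory
open scoped ContDiff ENNReal

namespace Pool.Agent.Lib.MP_95e7ec_an

private theorem kqc_nm_sq (u : ℝ × ℝ) : nm u ^ 2 = u.1 ^ 2 + u.2 ^ 2 :=
  Real.sq_sqrt (by positivity)

private theorem kqc_nm_turn (α : ℝ) (F : ℝ × ℝ → ℝ × ℝ) (p : ℝ × ℝ) :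
    nm (turn α F p) = nm (F p) := by
  unfold nm turn
  congr 1
  have := Real.sin_sq_add_cos_sq α
  linear_combination ((F p).1 ^ 2 + (F p).2 ^ 2) * this

private theorem kqc_det_le (u w : ℝ × ℝ) : |u.1 * w.2 - w.1 * u.2| ≤ nm u * nm w := by
  apply abs_le_of_sq_le_sq
  · rw [mul_pow, kqc_nm_sq, kqc_nm_sq]
    nlinarith [sq_nonneg (u.1 * w.1 + u.2 * w.2)]
  · exact mul_nonneg (Real.sqrt_nonneg _) (Real.sqrt_nonneg _)

private theorem kqc_continuous_turn {F : ℝ × ℝ → ℝ × ℝ} (hF : Continuous F) (α : ℝ) :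
    Continuous (turn α F) := by
  unfold turn
  have h1 : Continuous fun z => (F z).1 := continuous_fst.comp hF
  have h2 : Continuous fun z => (F z).2 := continuous_snd.comp hF
  exact ((continuous_const.mul h1).sub (continuous_const.mul h2)).prodMk
    ((continuous_const.mul h1).add (continuous_const.mul h2))

/-- the elementary inequality for the turned vectors -/
private theorem kqc_angle {a b d : ℝ} (hd0 : 0 ≤ d) (hd : d < Real.pi) :
    d * (b * (a * Real.sin d + b * Real.cos d)) ≤ Real.sin d * (a ^ 2 + b ^ 2) := by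
  set s := Real.sin (d / 2) with hs
  set c := Real.cos (d / 2) with hc
  have hc0 : 0 < c := Real.cos_pos_of_mem_Ioo ⟨by linarith, by linarith⟩
  have hsc : s ^ 2 + c ^ 2 = 1 := Real.sin_sq_add_cos_sq _
  have hsin : Real.sin d = 2 * s * c := by
    have e1 : Real.sin (2 * (d / 2)) = 2 * Real.sin (d / 2) * Real.cos (d / 2) :=
      Real.sin_two_mul _
    rwa [show 2 * (d / 2) = d by ring] at e1
  have hcos : Real.cos d = c ^ 2 - s ^ 2 := by
    have e1 : Real.cos (2 * (d / 2)) = 2 * Real.cos (d / 2) ^ 2 - 1 := Real.cos_two_mul _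
    rw [show 2 * (d / 2) = d by ring] at e1
    rw [e1, ← hc]
    linarith
  have htan : d / 2 ≤ s / c := by
    rw [hs, hc, ← Real.tan_eq_sin_div_cos]
    exact Real.le_tan (by linarith) (by linarith)
  have h1 : d * c ≤ 2 * s := by
    rw [le_div_iff₀ hc0] at htan
    linarith
  have h2 : b * (a * Real.sin d + b * Real.cos d) ≤ c ^ 2 * (a ^ 2 + b ^ 2) := by
    rw [hsin, hcos]
    have h3 : c ^ 2 * (a ^ 2 + b ^ 2) - b * (a * (2 * s * c) + b * (c ^ 2 - s ^ 2)) =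
        (a * c - b * s) ^ 2 := by ring
    nlinarith [sq_nonneg (a * c - b * s)]
  have h4 : 0 ≤ a ^ 2 + b ^ 2 := by positivity
  calc d * (b * (a * Real.sin d + b * Real.cos d)) ≤ d * (c ^ 2 * (a ^ 2 + b ^ 2)) :=
        mul_le_mul_of_nonneg_left h2 hd0
    _ = (d * c) * c * (a ^ 2 + b ^ 2) := by ring
    _ ≤ (2 * s) * c * (a ^ 2 + b ^ 2) := by gcongr
    _ = Real.sin d * (a ^ 2 + b ^ 2) := by rw [hsin]

theorem cyl_compare {F : ℝ × ℝ → ℝ × ℝ} (hF : Continuous F) {s1 η M κ : ℝ} (hη : 0 < η)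
    (hM : ∀ p : ℝ × ℝ, s1 < p.1 → nm (F p) ≤ M)
    (hκ : ∀ s s' θ : ℝ, s1 < s → s1 < s' → nm (F (s, θ) - F (s', θ)) ≤ κ * |s - s'|)
    {α1 α2 : ℝ} (h12 : α1 ≤ α2) (h12' : α2 - α1 < Real.pi)
    (h1 : ∀ p : ℝ × ℝ, s1 < p.1 → η ≤ (turn α1 F p).2)
    (h2 : ∀ p : ℝ × ℝ, s1 < p.1 → η ≤ (turn α2 F p).2)
    {y1 y2 : ℝ → ℝ} (hy1 : ∀ θ, s1 < y1 θ) (hy2 : ∀ θ, s1 < y2 θ)
    (hd1 : ∀ θ, HasDerivAt y1 ((turn α1 F (y1 θ, θ)).1 / (turn α1 F (y1 θ, θ)).2) θ)
    (hd2 : ∀ θ, HasDerivAt y2 ((turn α2 F (y2 θ, θ)).1 / (turn α2 F (y2 θ, θ)).2) θ)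
    (hp1 : ∀ θ, y1 (θ + 2 * Real.pi) = y1 θ) (hp2 : ∀ θ, y2 (θ + 2 * Real.pi) = y2 θ) :
    α2 - α1 ≤ M * κ / η ^ 2 * |(2 * Real.pi)⁻¹ * (∫ θ in (0 : ℝ)..2 * Real.pi, y1 θ) -
      (2 * Real.pi)⁻¹ * ∫ θ in (0 : ℝ)..2 * Real.pi, y2 θ| := by
  have hpi := Real.pi_pos
  have hM0 : 0 ≤ M := (Real.sqrt_nonneg _).trans (hM (s1 + 1, 0) (by simp))
  have hκ0 : 0 ≤ κ := by
    have h := (Real.sqrt_nonneg _).trans (hκ (s1 + 1) (s1 + 2) 0 (by linarith) (by linarith))
    rw [show s1 + 1 - (s1 + 2) = -1 by ring, abs_neg, abs_one, mul_one] at h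
    exact h
  set Λ : ℝ := M * κ / η ^ 2 with hΛ
  have hΛ0 : 0 ≤ Λ := by positivity
  rcases h12.eq_or_lt with h0 | hlt
  · rw [h0, sub_self]
    positivity
  set d : ℝ := α2 - α1 with hd
  have hd0 : 0 < d := by simp only [hd]; linarith
  -- the derivative of the difference
  set f : ℝ → ℝ := fun θ => (turn α1 F (y1 θ, θ)).1 / (turn α1 F (y1 θ, θ)).2 -
    (turn α2 F (y2 θ, θ)).1 / (turn α2 F (y2 θ, θ)).2 with hf
  set Δ : ℝ → ℝ := fun θ => y1 θ - y2 θ with hΔ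
  have hΔd : ∀ θ, HasDerivAt Δ (f θ) θ := fun θ => (hd1 θ).sub (hd2 θ)
  have hy1c : Continuous y1 := continuous_iff_continuousAt.2 fun t => (hd1 t).continuousAt
  have hy2c : Continuous y2 := continuous_iff_continuousAt.2 fun t => (hd2 t).continuousAt
  have hΔc : Continuous Δ := hy1c.sub hy2c
  have hfc : Continuous f := by
    have e1 : Continuous fun θ => turn α1 F (y1 θ, θ) :=
      (kqc_continuous_turn hF α1).comp (hy1c.prodMk continuous_id)
    have e2 : Continuous fun θ => turn α2 F (y2 θ, θ) :=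
      (kqc_continuous_turn hF α2).comp (hy2c.prodMk continuous_id)
    refine Continuous.sub ?_ ?_
    · exact (continuous_fst.comp e1).div (continuous_snd.comp e1) fun θ =>
        (hη.trans_le (h1 _ (hy1 θ))).ne'
    · exact (continuous_fst.comp e2).div (continuous_snd.comp e2) fun θ =>
        (hη.trans_le (h2 _ (hy2 θ))).ne'
  have hfd : ∀ θ, -Λ * |Δ θ| + d ≤ f θ := by
    intro θ
    set G : ℝ × ℝ := turn α1 F (y1 θ, θ) with hG
    set G' : ℝ × ℝ := turn α1 F (y2 θ, θ) with hG'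
    set H : ℝ × ℝ := turn α2 F (y2 θ, θ) with hH
    have hG2 : η ≤ G.2 := h1 _ (hy1 θ)
    have hG'2 : η ≤ G'.2 := h1 _ (hy2 θ)
    have hH2 : η ≤ H.2 := h2 _ (hy2 θ)
    have e1 : -(Λ * |Δ θ|) ≤ G.1 / G.2 - G'.1 / G'.2 := by
      have hsub : G' - G = turn α1 (fun _ => F (y2 θ, θ) - F (y1 θ, θ)) (0, 0) := by
        simp only [hG, hG', turn]
        ext
        · simp only [Prod.fst_sub, Prod.snd_sub]; ring
        · simp only [Prod.fst_sub, Prod.snd_sub]; ring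
      have hn : nm (G' - G) ≤ κ * |Δ θ| := by
        rw [hsub, kqc_nm_turn]
        have := hκ (y2 θ) (y1 θ) θ (hy2 θ) (hy1 θ)
        rwa [abs_sub_comm] at this
      have hnG : nm G ≤ M := by
        rw [hG, kqc_nm_turn]
        exact hM _ (hy1 θ)
      have e3 : G.1 / G.2 - G'.1 / G'.2 = (G.1 * (G' - G).2 - (G' - G).1 * G.2) /
          (G.2 * G'.2) := by
        rw [div_sub_div _ _ (hη.trans_le hG2).ne' (hη.trans_le hG'2).ne']
        congr 1
        simp only [Prod.fst_sub, Prod.snd_sub]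
        ring
      have e4 : |G.1 * (G' - G).2 - (G' - G).1 * G.2| ≤ M * (κ * |Δ θ|) :=
        (kqc_det_le G (G' - G)).trans (mul_le_mul hnG hn (Real.sqrt_nonneg _) hM0)
      have e5 : |G.1 / G.2 - G'.1 / G'.2| ≤ Λ * |Δ θ| := by
        rw [e3, abs_div, abs_of_pos (mul_pos (hη.trans_le hG2) (hη.trans_le hG'2))]
        have hG20 : 0 ≤ G.2 := hη.le.trans hG2
        calc |G.1 * (G' - G).2 - (G' - G).1 * G.2| / (G.2 * G'.2)
            ≤ M * (κ * |Δ θ|) / (η * η) := by gcongr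
          _ = Λ * |Δ θ| := by rw [hΛ]; ring
      exact (abs_le.1 e5).1
    have e2 : d ≤ G'.1 / G'.2 - H.1 / H.2 := by
      have hHG1 : H.1 = G'.1 * Real.cos d - G'.2 * Real.sin d := by
        simp only [hH, hG', turn, hd]
        rw [Real.cos_sub, Real.sin_sub]
        have := Real.sin_sq_add_cos_sq α1
        linear_combination (-(Real.cos α2 * (F (y2 θ, θ)).1 - Real.sin α2 * (F (y2 θ, θ)).2)) * this
      have hHG2 : H.2 = G'.1 * Real.sin d + G'.2 * Real.cos d := by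
        simp only [hH, hG', turn, hd]
        rw [Real.cos_sub, Real.sin_sub]
        have := Real.sin_sq_add_cos_sq α1
        linear_combination (-(Real.sin α2 * (F (y2 θ, θ)).1 + Real.cos α2 * (F (y2 θ, θ)).2)) * this
      rw [div_sub_div _ _ (hη.trans_le hG'2).ne' (hη.trans_le hH2).ne', le_div_iff₀
        (mul_pos (hη.trans_le hG'2) (hη.trans_le hH2))]
      have e3 : G'.1 * H.2 - G'.2 * H.1 = Real.sin d * (G'.1 ^ 2 + G'.2 ^ 2) := by
        rw [hHG1, hHG2]; ring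
      rw [e3, hHG2]
      exact kqc_angle hd0.le h12'
    have e3 : f θ = (G.1 / G.2 - G'.1 / G'.2) + (G'.1 / G'.2 - H.1 / H.2) := by
      simp only [hf, hG, hG', hH]
      ring
    rw [e3]
    linarith
  have hΔper : ∀ θ, Δ (θ + 2 * Real.pi) = Δ θ := fun θ => by simp only [hΔ, hp1, hp2]
  -- no zero
  have hne : ∀ θ, Δ θ ≠ 0 := by
    intro θ h0
    have e1 : Δ (θ + 2 * Real.pi) = 0 := by rw [hΔper, h0]
    have e2 : 0 < f θ := by
      have := hfd θ
      rw [h0, abs_zero, mul_zero, zero_add] at this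
      linarith
    obtain ⟨t, ht0, ht1⟩ := kpAct_zero hΔd (by linarith : θ < θ + 2 * Real.pi) h0 e1 e2
    have := hfd t
    rw [ht0, abs_zero, mul_zero, zero_add] at this
    linarith
  -- integrate
  have hint : ∫ θ in (0 : ℝ)..2 * Real.pi, f θ = 0 := by
    rw [intervalIntegral.integral_eq_sub_of_hasDerivAt (fun t _ => hΔd t)
      (hfc.intervalIntegrable _ _)]
    have := hΔper 0
    rw [zero_add] at this
    rw [this, sub_self]
  have hle : ∫ θ in (0 : ℝ)..2 * Real.pi, (-Λ * |Δ θ| + d) ≤ 0 := by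
    have hc1 : Continuous fun θ => -Λ * |Δ θ| + d :=
      (continuous_const.mul hΔc.abs).add continuous_const
    have h3 := intervalIntegral.integral_mono_on (a := (0 : ℝ)) (b := 2 * Real.pi)
      (by positivity) (hc1.intervalIntegrable (μ := volume) _ _) (hfc.intervalIntegrable _ _)
      fun θ _ => hfd θ
    rwa [hint] at h3
  have hcomp : ∫ θ in (0 : ℝ)..2 * Real.pi, (-Λ * |Δ θ| + d) =
      -Λ * (∫ θ in (0 : ℝ)..2 * Real.pi, |Δ θ|) + 2 * Real.pi * d := by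
    have hc1 : Continuous fun θ => -Λ * |Δ θ| := continuous_const.mul hΔc.abs
    have hc2 : Continuous fun _ : ℝ => d := continuous_const
    rw [intervalIntegral.integral_add (f := fun θ => -Λ * |Δ θ|) (g := fun _ => d)
      (hc1.intervalIntegrable _ _) (hc2.intervalIntegrable _ _),
      intervalIntegral.integral_const_mul,
      intervalIntegral.integral_const, sub_zero, smul_eq_mul]
  have habs : ∫ θ in (0 : ℝ)..2 * Real.pi, |Δ θ| = |∫ θ in (0 : ℝ)..2 * Real.pi, Δ θ| := by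
    by_cases hs : 0 < Δ 0
    · have hall : ∀ θ, 0 < Δ θ := by
        intro θ
        by_contra hcon
        have h3 : Δ θ < 0 := lt_of_le_of_ne (not_lt.1 hcon) (hne θ)
        obtain ⟨c, hc⟩ := mem_range_of_exists_le_of_exists_ge hΔc ⟨θ, h3.le⟩ ⟨0, hs.le⟩
        exact hne c hc
      have h4 : ∫ θ in (0 : ℝ)..2 * Real.pi, |Δ θ| = ∫ θ in (0 : ℝ)..2 * Real.pi, Δ θ := by
        congr 1
        ext θ
        exact abs_of_pos (hall θ)
      rw [h4, abs_of_nonneg]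
      exact intervalIntegral.integral_nonneg (by positivity) fun θ _ => (hall θ).le
    · have hs' : Δ 0 < 0 := lt_of_le_of_ne (not_lt.1 hs) (hne 0)
      have hall : ∀ θ, Δ θ < 0 := by
        intro θ
        by_contra hcon
        have h3 : 0 ≤ Δ θ := not_lt.1 hcon
        obtain ⟨c, hc⟩ := mem_range_of_exists_le_of_exists_ge hΔc ⟨0, hs'.le⟩ ⟨θ, h3⟩
        exact hne c hc
      have h4 : ∫ θ in (0 : ℝ)..2 * Real.pi, |Δ θ| = -∫ θ in (0 : ℝ)..2 * Real.pi, Δ θ := by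
        rw [← intervalIntegral.integral_neg]
        congr 1
        ext θ
        exact abs_of_neg (hall θ)
      rw [h4, abs_of_nonpos]
      have h5 : 0 ≤ ∫ θ in (0 : ℝ)..2 * Real.pi, |Δ θ| :=
        intervalIntegral.integral_nonneg (by positivity) fun θ _ => abs_nonneg _
      linarith
  have hmean : (2 * Real.pi)⁻¹ * (∫ θ in (0 : ℝ)..2 * Real.pi, y1 θ) -
      (2 * Real.pi)⁻¹ * (∫ θ in (0 : ℝ)..2 * Real.pi, y2 θ) =
      (2 * Real.pi)⁻¹ * ∫ θ in (0 : ℝ)..2 * Real.pi, Δ θ := by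
    simp only [hΔ]
    rw [intervalIntegral.integral_sub (hy1c.intervalIntegrable _ _)
      (hy2c.intervalIntegrable _ _), mul_sub]
  rw [hmean, abs_mul, abs_of_pos (by positivity : 0 < (2 * Real.pi)⁻¹), ← habs]
  rw [hcomp] at hle
  have h6 : 2 * Real.pi * d ≤ Λ * ∫ θ in (0 : ℝ)..2 * Real.pi, |Δ θ| := by linarith
  calc d = (2 * Real.pi)⁻¹ * (2 * Real.pi * d) := by
        rw [← mul_assoc, inv_mul_cancel₀ (by positivity), one_mul]
    _ ≤ (2 * Real.pi)⁻¹ * (Λ * ∫ θ in (0 : ℝ)..2 * Real.pi, |Δ θ|) := by gcongr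
    _ = Λ * ((2 * Real.pi)⁻¹ * ∫ θ in (0 : ℝ)..2 * Real.pi, |Δ θ|) := by ring

end Pool.Agent.Lib.MP_95e7ec_an
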