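import Mathlib
import Pool.Agent.Lib.MP_95e7ec_an.KqDefs
import Pool.Agent.Lib.MP_95e7ec_an.Orbits

/-!
# Closed solutions on the cylinder as graphs (task Q7)
-/

set_option autoImplicit false

open Set Filter Topology MeasureTheory
open scoped ContDiff ENNReal

namespace Pool.Agent.Lib.MP_95e7ec_an

theorem cyl_unique {F : ℝ × ℝ → ℝ × ℝ} (hF : ContDiff ℝ 1 F) {s1 η : ℝ} (hη : 0 < η)
    (h2 : ∀ p : ℝ × ℝ, s1 < p.1 → η ≤ (F p).2) {y1 y2 : ℝ → ℝ} (hy1 : ∀ θ, s1 < y1 θ)
    (hy2 : ∀ θ, s1 < y2 θ)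
    (hd1 : ∀ θ, HasDerivAt y1 ((F (y1 θ, θ)).1 / (F (y1 θ, θ)).2) θ)
    (hd2 : ∀ θ, HasDerivAt y2 ((F (y2 θ, θ)).1 / (F (y2 θ, θ)).2) θ) {θ0 : ℝ}
    (h0 : y1 θ0 = y2 θ0) : y1 = y2 := by
  ext1 t
  have hc1 : Continuous y1 := continuous_iff_continuousAt.2 fun t => (hd1 t).continuousAt
  have hc2 : Continuous y2 := continuous_iff_continuousAt.2 fun t => (hd2 t).continuousAt
  set N : ℝ := |t - θ0| + 1 with hN
  have hNpos : 0 < N := by positivity
  have hne : (Icc (θ0 - N) (θ0 + N)).Nonempty := ⟨θ0, by constructor <;> linarith⟩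
  obtain ⟨x1, -, hx1⟩ := isCompact_Icc.exists_isMinOn hne (hc1.min hc2).continuousOn
  obtain ⟨x2, -, hx2⟩ := isCompact_Icc.exists_isMaxOn hne (hc1.max hc2).continuousOn
  set m : ℝ := min (y1 x1) (y2 x1) with hm
  set M : ℝ := max (y1 x2) (y2 x2) with hM
  have hm1 : s1 < m := lt_min (hy1 x1) (hy2 x1)
  have hin1 : ∀ x ∈ Icc (θ0 - N) (θ0 + N), y1 x ∈ Icc m M := fun x hx =>
    ⟨(hx1 hx).trans (min_le_left _ _), (le_max_left _ _).trans (hx2 hx)⟩
  have hin2 : ∀ x ∈ Icc (θ0 - N) (θ0 + N), y2 x ∈ Icc m M := fun x hx =>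
    ⟨(hx1 hx).trans (min_le_right _ _), (le_max_right _ _).trans (hx2 hx)⟩
  set f : ℝ × ℝ → ℝ := fun p => (F p).1 / (F p).2 with hf
  have hfc : ContDiffOn ℝ 1 f (Icc m M ×ˢ Icc (θ0 - N) (θ0 + N)) := by
    have e1 : ContDiff ℝ 1 fun p => (F p).1 := contDiff_fst.comp hF
    have e2 : ContDiff ℝ 1 fun p => (F p).2 := contDiff_snd.comp hF
    exact e1.contDiffOn.div e2.contDiffOn fun p hp =>
      (hη.trans_le (h2 p (hm1.trans_le hp.1.1))).ne'
  obtain ⟨K, hK⟩ := hfc.exists_lipschitzOnWith one_ne_zero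
    ((convex_Icc m M).prod (convex_Icc _ _)) (isCompact_Icc.prod isCompact_Icc)
  have key := ODE_solution_unique_of_mem_Ioo (v := fun x s => f (s, x))
    (s := fun _ => Icc m M) (K := K) (a := θ0 - N) (b := θ0 + N) (t₀ := θ0)
    (f := y1) (g := y2) ?_ ⟨by linarith, by linarith⟩
    (fun s hs => ⟨hd1 s, hin1 s (Ioo_subset_Icc_self hs)⟩)
    (fun s hs => ⟨hd2 s, hin2 s (Ioo_subset_Icc_self hs)⟩) h0
  · refine key ⟨?_, ?_⟩
    · have := neg_abs_le (t - θ0)
      rw [hN]; linarith
    · have := le_abs_self (t - θ0)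
      rw [hN]; linarith
  · intro x hx a ha b hb
    have h3 := hK (x := (a, x)) ⟨ha, Ioo_subset_Icc_self hx⟩ (y := (b, x))
      ⟨hb, Ioo_subset_Icc_self hx⟩
    rwa [Prod.edist_eq, edist_self, max_eq_left zero_le] at h3

theorem cyl_graph {F : ℝ × ℝ → ℝ × ℝ} (hF : ContDiff ℝ 1 F)
    (hper : ∀ p : ℝ × ℝ, F (p + (0, 2 * Real.pi)) = F p) {s1 η : ℝ} (hη : 0 < η)
    (h2 : ∀ p : ℝ × ℝ, s1 < p.1 → η ≤ (F p).2) {σ : ℝ → ℝ × ℝ} {T : ℝ} {k : ℤ}
    (h : CylSol F σ T k) (hs : ∀ t, s1 < (σ t).1) :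
    ∃ y : ℝ → ℝ, (∀ θ, s1 < y θ) ∧
      (∀ θ, HasDerivAt y ((F (y θ, θ)).1 / (F (y θ, θ)).2) θ) ∧
      (∀ θ, y (θ + 2 * Real.pi) = y θ) ∧
      (Set.range fun t => cyl (σ t)) = (Set.range fun θ => cyl (y θ, θ)) ∧
      ∀ t, ∃ θ, y θ = (σ t).1 := by
  obtain ⟨hT, hd, hper', -⟩ := h
  have hpi := Real.pi_pos
  set θ : ℝ → ℝ := fun t => (σ t).2 with hθ
  have hθd : ∀ t, HasDerivAt θ (F (σ t)).2 t := fun t => (hd t).snd
  have hsd : ∀ t, HasDerivAt (fun t => (σ t).1) (F (σ t)).1 t := fun t => (hd t).fst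
  have hpos : ∀ t, 0 < (F (σ t)).2 := fun t => hη.trans_le (h2 _ (hs t))
  have hθc : Continuous θ := continuous_iff_continuousAt.2 fun t => (hθd t).continuousAt
  have hmono : StrictMono θ := strictMono_of_hasDerivAt_pos hθd hpos
  have hmono2 : Monotone fun t => θ t - η * t := by
    have h3 : ∀ t, HasDerivAt (fun t => θ t - η * t) ((F (σ t)).2 - η) t := by
      intro t
      have h4 : HasDerivAt (fun t : ℝ => η * t) η t := by
        simpa using (hasDerivAt_id t).const_mul η
      exact (hθd t).sub h4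
    refine monotone_of_deriv_nonneg (fun t => (h3 t).differentiableAt) fun t => ?_
    rw [(h3 t).deriv]
    have := h2 _ (hs t)
    linarith
  have hsurj : Function.Surjective θ := by
    apply hθc.surjective
    · rw [tendsto_atTop_atTop_iff_of_monotone hmono.monotone]
      intro b
      refine ⟨max 0 ((b - θ 0) / η), ?_⟩
      have h3 := hmono2 (le_max_left 0 ((b - θ 0) / η))
      have h4 : (b - θ 0) / η ≤ max 0 ((b - θ 0) / η) := le_max_right _ _
      rw [div_le_iff₀ hη] at h4
      simp only [mul_zero, sub_zero] at h3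
      linarith
    · rw [tendsto_atBot_atBot_iff_of_monotone hmono.monotone]
      intro b
      refine ⟨min 0 ((b - θ 0) / η), ?_⟩
      have h3 := hmono2 (min_le_left 0 ((b - θ 0) / η))
      have h4 : min 0 ((b - θ 0) / η) ≤ (b - θ 0) / η := min_le_right _ _
      rw [le_div_iff₀ hη] at h4
      simp only [mul_zero, sub_zero] at h3
      linarith
  let e : ℝ ≃o ℝ := StrictMono.orderIsoOfSurjective θ hmono hsurj
  set τ : ℝ → ℝ := fun u => e.symm u with hτ
  have hτc : Continuous τ := e.symm.continuous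
  have hθτ : ∀ u, θ (τ u) = u := fun u => e.apply_symm_apply u
  have hτθ : ∀ t, τ (θ t) = t := fun t => e.symm_apply_apply t
  have hτd : ∀ u, HasDerivAt τ ((F (σ (τ u))).2)⁻¹ u := fun u =>
    HasDerivAt.of_local_left_inverse hτc.continuousAt (hθd (τ u)) (hpos _).ne'
      (Eventually.of_forall hθτ)
  set y : ℝ → ℝ := fun u => (σ (τ u)).1 with hy
  have hστ : ∀ u, σ (τ u) = (y u, u) := fun u => Prod.ext rfl (hθτ u)
  have hyd : ∀ u, HasDerivAt y ((F (y u, u)).1 / (F (y u, u)).2) u := by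
    intro u
    have h3 := (hsd (τ u)).comp u (hτd u)
    rw [hστ u] at h3
    exact h3
  have hys : ∀ u, s1 < y u := fun u => hs _
  have hyc : Continuous y := continuous_iff_continuousAt.2 fun t => (hyd t).continuousAt
  -- the winding number is positive
  have hk : 0 < k := by
    have h3 : θ 0 < θ T := hmono hT
    have h4 := congrArg Prod.snd (hper' 0)
    simp only [zero_add, Prod.snd_add] at h4
    have h5 : 0 < 2 * Real.pi * (k : ℝ) := by
      simp only [hθ] at h3
      linarith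
    have h6 : (0 : ℝ) < k := by
      by_contra hcon
      have : 2 * Real.pi * (k : ℝ) ≤ 0 := mul_nonpos_of_nonneg_of_nonpos (by positivity)
        (not_lt.1 hcon)
      linarith
    exact_mod_cast h6
  have hτk : ∀ u, τ (u + 2 * Real.pi * k) = τ u + T := by
    intro u
    apply hmono.injective
    rw [hθτ]
    have h4 := congrArg Prod.snd (hper' (τ u))
    simp only [Prod.snd_add] at h4
    simp only [hθ]
    rw [h4]
    have h5 := hθτ u
    simp only [hθ] at h5
    rw [h5]
  have hyk : ∀ u, y (u + 2 * Real.pi * k) = y u := by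
    intro u
    simp only [hy, hτk]
    have h4 := congrArg Prod.fst (hper' (τ u))
    simpa using h4
  have hy2d : ∀ u, HasDerivAt (fun u => y (u + 2 * Real.pi))
      ((F (y (u + 2 * Real.pi), u)).1 / (F (y (u + 2 * Real.pi), u)).2) u := by
    intro u
    have h3 := (hyd (u + 2 * Real.pi)).comp_add_const u (2 * Real.pi)
    have h4 := hper (y (u + 2 * Real.pi), u)
    simp only [Prod.mk_add_mk, add_zero] at h4
    rw [h4] at h3
    exact h3
  have hyper : ∀ u, y (u + 2 * Real.pi) = y u := by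
    by_cases hz : ∃ θ0, y (θ0 + 2 * Real.pi) = y θ0
    · obtain ⟨θ0, hθ0⟩ := hz
      have := cyl_unique hF hη h2 (fun u => hys (u + 2 * Real.pi)) hys hy2d hyd hθ0
      intro u
      exact congrFun this u
    · exfalso
      push Not at hz
      obtain ⟨n, hn⟩ : ∃ n : ℕ, k = (n : ℤ) + 1 := ⟨(k - 1).toNat, by omega⟩
      have hΔc : Continuous fun u => y (u + 2 * Real.pi) - y u :=
        (hyc.comp (continuous_id.add continuous_const)).sub hyc
      have hne : ∀ u, y (u + 2 * Real.pi) - y u ≠ 0 := fun u => sub_ne_zero.2 (hz u)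
      have hyn := hyk 0
      rw [hn] at hyn
      push_cast at hyn
      rw [zero_add] at hyn
      by_cases h3 : 0 < y (0 + 2 * Real.pi) - y 0
      · have hall : ∀ u, y u < y (u + 2 * Real.pi) := by
          intro u
          by_contra hcon
          obtain ⟨c, hc⟩ := mem_range_of_exists_le_of_exists_ge hΔc
            ⟨u, by linarith [not_lt.1 hcon] ⟩ ⟨0, h3.le⟩
          exact hne c hc
        have hind : ∀ m : ℕ, y 0 < y (2 * Real.pi * ((m : ℝ) + 1)) := by
          intro m
          induction m with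
          | zero =>
            have := hall 0
            simpa using this
          | succ m ih =>
            have := hall (2 * Real.pi * ((m : ℝ) + 1))
            push_cast
            rw [show 2 * Real.pi * ((m : ℝ) + 1 + 1) = 2 * Real.pi * ((m : ℝ) + 1) +
              2 * Real.pi by ring]
            exact ih.trans this
        have := hind n
        linarith
      · have h3' : y (0 + 2 * Real.pi) - y 0 < 0 := lt_of_le_of_ne (not_lt.1 h3) (hne 0)
        have hall : ∀ u, y (u + 2 * Real.pi) < y u := by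
          intro u
          by_contra hcon
          obtain ⟨c, hc⟩ := mem_range_of_exists_le_of_exists_ge hΔc
            ⟨0, h3'.le⟩ ⟨u, by linarith [not_lt.1 hcon]⟩
          exact hne c hc
        have hind : ∀ m : ℕ, y (2 * Real.pi * ((m : ℝ) + 1)) < y 0 := by
          intro m
          induction m with
          | zero =>
            have := hall 0
            simpa using this
          | succ m ih =>
            have := hall (2 * Real.pi * ((m : ℝ) + 1))
            push_cast
            rw [show 2 * Real.pi * ((m : ℝ) + 1 + 1) = 2 * Real.pi * ((m : ℝ) + 1) +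
              2 * Real.pi by ring]
            exact this.trans ih
        have := hind n
        linarith
  refine ⟨y, hys, hyd, hyper, ?_, fun t => ⟨θ t, by simp only [hy, hτθ]⟩⟩
  ext z
  constructor
  · rintro ⟨t, rfl⟩
    refine ⟨θ t, ?_⟩
    have h3 := hστ (θ t)
    rw [hτθ] at h3
    simp only
    rw [h3]
  · rintro ⟨u, rfl⟩
    exact ⟨τ u, by simp only [hστ]⟩

end Pool.Agent.Lib.MP_95e7ec_an
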