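import Mathlib

/-!
Q9: a family of sets of points, labelled by real numbers in `[x0, x1]`, where the parameter is a
Lipschitz function of the label: the mean number of points is at most `Λ * (x1 - x0)`.
-/

set_option autoImplicit false

open Set Filter Topology MeasureTheory ProbabilityTheory
open scoped ContDiff ENNReal

namespace Pool.Agent.Lib.MP_95e7ec_an

/-- a set of diameter at most `l` is contained in a closed interval of length at most `l` -/
theorem kqlip_cover {A : Set ℝ} {l : ℝ} (hA : ∀ x ∈ A, ∀ y ∈ A, |x - y| ≤ l) :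
    ∃ J : Set ℝ, MeasurableSet J ∧ A ⊆ J ∧ volume J ≤ ENNReal.ofReal l := by
  rcases A.eq_empty_or_nonempty with h | ⟨x0, hx0⟩
  · exact ⟨∅, MeasurableSet.empty, by rw [h], by simp⟩
  · have hbb : BddBelow A := ⟨x0 - l, fun y hy => by
      have := (abs_le.1 (hA x0 hx0 y hy)).2
      linarith⟩
    have hba : BddAbove A := ⟨x0 + l, fun y hy => by
      have := (abs_le.1 (hA x0 hx0 y hy)).1
      linarith⟩
    refine ⟨Set.Icc (sInf A) (sSup A), measurableSet_Icc, fun x hx =>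
      ⟨csInf_le hbb hx, le_csSup hba hx⟩, ?_⟩
    rw [Real.volume_Icc]
    apply ENNReal.ofReal_le_ofReal
    have h1 : sSup A ≤ sInf A + l := by
      apply csSup_le ⟨x0, hx0⟩
      intro x hx
      have h2 : x - l ≤ sInf A := by
        apply le_csInf ⟨x0, hx0⟩
        intro y hy
        have := (abs_le.1 (hA x hx y hy)).2
        linarith
      linarith
    linarith

/-- the index of the subinterval which contains `x` -/
noncomputable def kqlip_ix (x0 x1 : ℝ) (r : ℕ) (x : ℝ) : ℕ :=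
  ⌊(x - x0) * 2 ^ r / (x1 - x0)⌋₊

theorem kqlip_ix_lt {x0 x1 : ℝ} (r : ℕ) {x : ℝ} (hx : x ∈ Set.Icc x0 x1) :
    kqlip_ix x0 x1 r x < 2 ^ r + 1 := by
  unfold kqlip_ix
  rw [Nat.lt_add_one_iff]
  apply Nat.floor_le_of_le
  push_cast
  rcases eq_or_lt_of_le (hx.1.trans hx.2) with h | h
  · rw [h, sub_self, div_zero]
    positivity
  · rw [div_le_iff₀ (by linarith)]
    have h2 : x - x0 ≤ x1 - x0 := by linarith [hx.2]
    have h3 : (0 : ℝ) < 2 ^ r := by positivity
    nlinarith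

theorem kqlip_ix_eq {x0 x1 : ℝ} {r : ℕ} {x y : ℝ} (hx : x ∈ Set.Icc x0 x1)
    (hy : y ∈ Set.Icc x0 x1) (h : kqlip_ix x0 x1 r x = kqlip_ix x0 x1 r y) :
    |x - y| ≤ (x1 - x0) / 2 ^ r := by
  rcases eq_or_lt_of_le (hx.1.trans hx.2) with h1 | h1
  · have ex : x = x0 := le_antisymm (hx.2.trans_eq h1.symm) hx.1
    have ey : y = x0 := le_antisymm (hy.2.trans_eq h1.symm) hy.1
    rw [ex, ey, h1]
    simp
  · have hd : 0 < x1 - x0 := by linarith
    have h3 : (0 : ℝ) < 2 ^ r := by positivity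
    unfold kqlip_ix at h
    have hX0 : 0 ≤ (x - x0) * 2 ^ r / (x1 - x0) :=
      div_nonneg (mul_nonneg (by linarith [hx.1]) h3.le) hd.le
    have hY0 : 0 ≤ (y - x0) * 2 ^ r / (x1 - x0) :=
      div_nonneg (mul_nonneg (by linarith [hy.1]) h3.le) hd.le
    have a1 := Nat.floor_le hX0
    have a2 := Nat.lt_floor_add_one ((x - x0) * 2 ^ r / (x1 - x0))
    have b1 := Nat.floor_le hY0
    have b2 := Nat.lt_floor_add_one ((y - x0) * 2 ^ r / (x1 - x0))
    rw [h] at a1 a2
    have c1 : |(x - x0) * 2 ^ r / (x1 - x0) - (y - x0) * 2 ^ r / (x1 - x0)| ≤ 1 := by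
      rw [abs_le]
      constructor <;> linarith
    have c2 : (x - x0) * 2 ^ r / (x1 - x0) - (y - x0) * 2 ^ r / (x1 - x0) =
        (x - y) * (2 ^ r / (x1 - x0)) := by
      field_simp
      ring
    have h4 : 0 < 2 ^ r / (x1 - x0) := div_pos h3 hd
    rw [c2, abs_mul, abs_of_pos h4] at c1
    rw [le_div_iff₀ h3]
    have c3 : |x - y| * (2 ^ r / (x1 - x0)) = |x - y| * 2 ^ r / (x1 - x0) := by ring
    rw [c3, div_le_one hd] at c1
    exact c1

/-- two different points are separated by all fine subdivisions -/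
theorem kqlip_sep {x0 x1 : ℝ} {x y : ℝ} (hx : x ∈ Set.Icc x0 x1) (hy : y ∈ Set.Icc x0 x1)
    (hxy : x ≠ y) : ∀ᶠ r : ℕ in atTop, kqlip_ix x0 x1 r x ≠ kqlip_ix x0 x1 r y := by
  have h1 : Tendsto (fun r : ℕ => (x1 - x0) / 2 ^ r) atTop (𝓝 0) :=
    Tendsto.const_div_atTop (tendsto_pow_atTop_atTop_of_one_lt (by norm_num)) _
  have h2 : 0 < |x - y| := abs_pos.2 (sub_ne_zero.2 hxy)
  filter_upwards [h1.eventually_lt_const h2] with r hr h
  have := kqlip_ix_eq hx hy h
  linarith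

/-- lipschitz_count with a measurable majorant -/
theorem lipschitz_count_maj {β : Type*} (N : ℝ → Set β) (m : ℝ → β → ℝ) {a b x0 x1 Λ : ℝ}
    (_hx : x0 ≤ x1) (hΛ : 0 ≤ Λ)
    (hm : ∀ α ∈ Set.Ioo a b, ∀ C ∈ N α, m α C ∈ Set.Icc x0 x1)
    (hinj : ∀ α ∈ Set.Ioo a b, ∀ C ∈ N α, ∀ C' ∈ N α, m α C = m α C' → C = C')
    (hlip : ∀ α ∈ Set.Ioo a b, ∀ α' ∈ Set.Ioo a b, ∀ C ∈ N α, ∀ C' ∈ N α',
      |α - α'| ≤ Λ * |m α C - m α' C'|) :
    ∃ H : ℝ → ℝ≥0∞, Measurable H ∧
      (∀ α ∈ Set.Ioo a b, (((N α).encard : ℕ∞) : ℝ≥0∞) ≤ H α) ∧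
      ∫⁻ α in Set.Ioo a b, H α ≤ ENNReal.ofReal (Λ * (x1 - x0)) := by
  classical
  -- the parameters for which some label is in a given subinterval
  set A : ℕ → ℕ → Set ℝ := fun r i =>
    {α | α ∈ Set.Ioo a b ∧ ∃ C ∈ N α, kqlip_ix x0 x1 r (m α C) = i} with hA
  have hdiam : ∀ r i, ∀ x ∈ A r i, ∀ y ∈ A r i, |x - y| ≤ Λ * ((x1 - x0) / 2 ^ r) := by
    rintro r i x ⟨hx1, C, hC, hCi⟩ y ⟨hy1, C', hC', hCi'⟩
    refine (hlip x hx1 y hy1 C hC C' hC').trans (mul_le_mul_of_nonneg_left ?_ hΛ)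
    exact kqlip_ix_eq (hm x hx1 C hC) (hm y hy1 C' hC') (hCi.trans hCi'.symm)
  choose J hJm hAJ hJv using fun r i => kqlip_cover (hdiam r i)
  set g : ℕ → ℝ → ℝ≥0∞ := fun r α =>
    ∑ i ∈ Finset.range (2 ^ r + 1), (J r i).indicator (fun _ => (1 : ℝ≥0∞)) α with hg
  have hgm : ∀ r, Measurable (g r) := by
    intro r
    exact Finset.measurable_sum _ fun i _ => measurable_const.indicator (hJm r i)
  -- the integrals
  have hint : ∀ r, ∫⁻ α in Set.Ioo a b, g r α ≤
      ENNReal.ofReal (Λ * (x1 - x0) * (1 + 1 / 2 ^ r)) := by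
    intro r
    have h1 : ∫⁻ α in Set.Ioo a b, g r α ≤ ∫⁻ α, g r α := setLIntegral_le_lintegral _ _
    refine h1.trans ?_
    rw [hg]
    simp only
    rw [lintegral_finsetSum _ (fun i _ => measurable_const.indicator (hJm r i))]
    have h2 : ∀ i ∈ Finset.range (2 ^ r + 1),
        ∫⁻ α, (J r i).indicator (fun _ => (1 : ℝ≥0∞)) α ≤
          ENNReal.ofReal (Λ * ((x1 - x0) / 2 ^ r)) := by
      intro i _
      rw [lintegral_indicator (hJm r i), lintegral_const, Measure.restrict_apply_univ, one_mul]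
      exact hJv r i
    refine (Finset.sum_le_card_nsmul _ _ _ h2).trans ?_
    rw [Finset.card_range, nsmul_eq_mul]
    have h3 : ((2 ^ r + 1 : ℕ) : ℝ≥0∞) = ENNReal.ofReal ((2 ^ r + 1 : ℕ) : ℝ) := by
      rw [ENNReal.ofReal_natCast]
    rw [h3, ← ENNReal.ofReal_mul (by positivity)]
    apply ENNReal.ofReal_le_ofReal
    apply le_of_eq
    push_cast
    field_simp
  -- the counts
  have hcount : ∀ α ∈ Set.Ioo a b, ∀ s : Finset β, (∀ C ∈ s, C ∈ N α) →
      (s.card : ℝ≥0∞) ≤ liminf (fun r => g r α) atTop := by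
    intro α hα s hs
    have h1 : ∀ᶠ r : ℕ in atTop, ∀ C ∈ s, ∀ C' ∈ s, C ≠ C' →
        kqlip_ix x0 x1 r (m α C) ≠ kqlip_ix x0 x1 r (m α C') := by
      rw [Filter.eventually_all_finset]
      intro C hC
      rw [Filter.eventually_all_finset]
      intro C' hC'
      by_cases hne : C = C'
      · exact Eventually.of_forall fun r h => absurd hne h
      · have h2 : m α C ≠ m α C' := fun h =>
          hne (hinj α hα C (hs C hC) C' (hs C' hC') h)
        filter_upwards [kqlip_sep (hm α hα C (hs C hC)) (hm α hα C' (hs C' hC')) h2]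
          with r hr _
        exact hr
    apply le_liminf_of_le
    · isBoundedDefault
    filter_upwards [h1] with r hr
    have h2 : (s.image fun C => kqlip_ix x0 x1 r (m α C)).card = s.card := by
      apply Finset.card_image_of_injOn
      intro C hC C' hC' h
      by_contra hne
      exact hr C hC C' hC' hne h
    have h3 : (s.image fun C => kqlip_ix x0 x1 r (m α C)) ⊆ Finset.range (2 ^ r + 1) := by
      intro i hi
      rw [Finset.mem_image] at hi
      obtain ⟨C, hC, rfl⟩ := hi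
      exact Finset.mem_range.2 (kqlip_ix_lt r (hm α hα C (hs C hC)))
    calc (s.card : ℝ≥0∞) = ∑ i ∈ s.image (fun C => kqlip_ix x0 x1 r (m α C)), (1 : ℝ≥0∞) := by
          rw [Finset.sum_const, h2, nsmul_eq_mul, mul_one]
      _ ≤ ∑ i ∈ s.image (fun C => kqlip_ix x0 x1 r (m α C)),
            (J r i).indicator (fun _ => (1 : ℝ≥0∞)) α := by
          apply Finset.sum_le_sum
          intro i hi
          rw [Finset.mem_image] at hi
          obtain ⟨C, hC, rfl⟩ := hi
          have : α ∈ J r (kqlip_ix x0 x1 r (m α C)) := hAJ r _ ⟨hα, C, hs C hC, rfl⟩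
          rw [Set.indicator_of_mem this]
      _ ≤ g r α := Finset.sum_le_sum_of_subset h3
  refine ⟨fun α => liminf (fun r => g r α) atTop, Measurable.liminf hgm, ?_, ?_⟩
  · intro α hα
    rcases (N α).finite_or_infinite with hfin | hinf
    · have h1 := hcount α hα hfin.toFinset (fun C hC => hfin.mem_toFinset.1 hC)
      rw [hfin.encard_eq_coe_toFinset_card]
      simpa using h1
    · have h1 : ∀ k : ℕ, (k : ℝ≥0∞) ≤ liminf (fun r => g r α) atTop := by
        intro k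
        obtain ⟨t, ht, htk⟩ := hinf.exists_subset_card_eq k
        have h2 := hcount α hα t (fun C hC => ht hC)
        rw [htk] at h2
        exact h2
      have h2 : liminf (fun r => g r α) atTop = ⊤ := by
        apply ENNReal.eq_top_of_forall_nnreal_le
        intro x
        obtain ⟨k, hk⟩ := exists_nat_ge x
        refine le_trans ?_ (h1 k)
        exact_mod_cast hk
      exact le_top.trans_eq h2.symm
  · have h1 : ∫⁻ α in Set.Ioo a b, liminf (fun r => g r α) atTop ≤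
        liminf (fun r => ∫⁻ α in Set.Ioo a b, g r α) atTop := lintegral_liminf_le hgm
    refine h1.trans ?_
    have h2 : liminf (fun r => ∫⁻ α in Set.Ioo a b, g r α) atTop ≤
        liminf (fun r : ℕ => ENNReal.ofReal (Λ * (x1 - x0) * (1 + 1 / 2 ^ r))) atTop :=
      liminf_le_liminf (Eventually.of_forall hint)
    refine h2.trans (le_of_eq ?_)
    apply Tendsto.liminf_eq
    apply ENNReal.tendsto_ofReal
    have h3 : Tendsto (fun r : ℕ => (1 : ℝ) / 2 ^ r) atTop (𝓝 0) :=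
      Tendsto.const_div_atTop (tendsto_pow_atTop_atTop_of_one_lt (by norm_num)) _
    have h4 := (h3.const_add 1).const_mul (Λ * (x1 - x0))
    simpa using h4

theorem lipschitz_count {β : Type*} (N : ℝ → Set β) (m : ℝ → β → ℝ) {a b x0 x1 Λ : ℝ}
    (hx : x0 ≤ x1) (hΛ : 0 ≤ Λ)
    (hm : ∀ α ∈ Set.Ioo a b, ∀ C ∈ N α, m α C ∈ Set.Icc x0 x1)
    (hinj : ∀ α ∈ Set.Ioo a b, ∀ C ∈ N α, ∀ C' ∈ N α, m α C = m α C' → C = C')
    (hlip : ∀ α ∈ Set.Ioo a b, ∀ α' ∈ Set.Ioo a b, ∀ C ∈ N α, ∀ C' ∈ N α',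
      |α - α'| ≤ Λ * |m α C - m α' C'|) :
    ∫⁻ α in Set.Ioo a b, (((N α).encard : ℕ∞) : ℝ≥0∞) ≤ ENNReal.ofReal (Λ * (x1 - x0)) := by
  obtain ⟨H, _, h1, h2⟩ := lipschitz_count_maj N m hx hΛ hm hinj hlip
  exact (setLIntegral_mono' measurableSet_Ioo h1).trans h2

end Pool.Agent.Lib.MP_95e7ec_an
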