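import Mathlib
import Pool.Agent.Lib.MP_95e7ec_an.KqDefs

/-!
# The time of a solution on the cylinder
-/

set_option autoImplicit false

open Set Filter Topology MeasureTheory ProbabilityTheory
open scoped ContDiff ENNReal

namespace Pool.Agent.Lib.MP_95e7ec_an

private theorem kqTime_cos_ge {x : ℝ} (hx : |x| ≤ Real.pi) :
    x ^ 2 ≤ Real.pi ^ 2 / 2 * (1 - Real.cos x) := by
  have hpi := Real.pi_pos
  have h1 : 1 - Real.cos x = 2 * Real.sin (|x| / 2) ^ 2 := by
    have h2 : Real.cos x = Real.cos (2 * (|x| / 2)) := by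
      rw [mul_div_cancel₀ _ two_ne_zero, Real.cos_abs]
    rw [h2, Real.cos_two_mul, Real.sin_sq]
    ring
  have h3 : 2 / Real.pi * (|x| / 2) ≤ Real.sin (|x| / 2) :=
    Real.mul_le_sin (by positivity) (by linarith)
  have h4 : (2 / Real.pi * (|x| / 2)) ^ 2 ≤ Real.sin (|x| / 2) ^ 2 :=
    pow_le_pow_left₀ (by positivity) h3 2
  have h5 : (2 / Real.pi * (|x| / 2)) ^ 2 = x ^ 2 / Real.pi ^ 2 := by
    rw [mul_pow, div_pow, div_pow, sq_abs]
    ring
  rw [h5, div_le_iff₀ (by positivity)] at h4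
  rw [h1]
  linarith

theorem cyl_time {F : ℝ × ℝ → ℝ × ℝ} (hper : ∀ p : ℝ × ℝ, F (p + (0, 2 * Real.pi)) = F p)
    {s1 ε τ L θ0 : ℝ} {e : ℝ × ℝ} (he : e.1 ^ 2 + e.2 ^ 2 = 1) (hε : 0 < ε) (hεL : ε ≤ L)
    (hτ : 0 < τ) (h1 : ∀ p : ℝ × ℝ, s1 < p.1 → ε ≤ dot e (F p))
    (h2 : ∀ p : ℝ × ℝ, s1 < p.1 → (F p).2 ≤ τ + L / 2 * (p.2 - θ0) ^ 2)
    {σ : ℝ → ℝ × ℝ} {T : ℝ} {k : ℤ} (hk : 0 < k) (h : CylSol F σ T k)
    (hs : ∀ t, s1 < (σ t).1) : ε ^ 2 ≤ 100 * L * τ := by
  have hpi := Real.pi_pos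
  have hL : 0 < L := lt_of_lt_of_le hε hεL
  obtain ⟨hT, hder, hpert, -⟩ := h
  have hk' : (0 : ℝ) < k := by exact_mod_cast hk
  have hd1 : ∀ t, HasDerivAt (fun t => (σ t).1) (F (σ t)).1 t := by
    intro t
    have := ((ContinuousLinearMap.fst ℝ ℝ ℝ).hasFDerivAt (x := σ t)).comp_hasDerivAt t (hder t)
    simpa [Function.comp_def] using this
  have hd2 : ∀ t, HasDerivAt (fun t => (σ t).2) (F (σ t)).2 t := by
    intro t
    have := ((ContinuousLinearMap.snd ℝ ℝ ℝ).hasFDerivAt (x := σ t)).comp_hasDerivAt t (hder t)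
    simpa [Function.comp_def] using this
  -- the majorant
  set G : ℝ → ℝ := fun x => τ + L * Real.pi ^ 2 / 4 * (1 - Real.cos (x - θ0)) with hG
  have hG0 : ∀ x, 0 < G x := by
    intro x
    have : 0 ≤ L * Real.pi ^ 2 / 4 * (1 - Real.cos (x - θ0)) :=
      mul_nonneg (by positivity) (sub_nonneg.2 (Real.cos_le_one _))
    simp only [hG]
    linarith
  have hGc : Continuous G := by
    simp only [hG]
    fun_prop
  have hF2 : ∀ p : ℝ × ℝ, s1 < p.1 → (F p).2 ≤ G p.2 := by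
    intro p hp
    set m : ℤ := round ((p.2 - θ0) / (2 * Real.pi)) with hm
    set x : ℝ := p.2 - θ0 - 2 * Real.pi * m with hx
    have hxle : |x| ≤ Real.pi := by
      have h3 := abs_sub_round ((p.2 - θ0) / (2 * Real.pi))
      rw [← hm] at h3
      have h4 : x = 2 * Real.pi * ((p.2 - θ0) / (2 * Real.pi) - m) := by
        rw [hx]
        field_simp
      rw [h4, abs_mul, abs_of_pos (by positivity : (0:ℝ) < 2 * Real.pi)]
      calc 2 * Real.pi * |(p.2 - θ0) / (2 * Real.pi) - m| ≤ 2 * Real.pi * (1 / 2) :=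
            mul_le_mul_of_nonneg_left h3 (by positivity)
        _ = Real.pi := by ring
    have hP : Function.Periodic F ((0 : ℝ), 2 * Real.pi) := hper
    have h5 : F p = F (p.1, p.2 - 2 * Real.pi * m) := by
      have h6 := hP.sub_zsmul_eq (x := p) m
      rw [← h6]
      congr 1
      ext
      · simp
      · simp
        ring
    rw [h5]
    refine (h2 (p.1, p.2 - 2 * Real.pi * m) hp).trans ?_
    have h7 : (p.1, p.2 - 2 * Real.pi * (m : ℝ)).2 - θ0 = x := by
      simp only [hx]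
      ring
    rw [h7]
    have h8 : Real.cos (p.2 - θ0) = Real.cos x := by
      rw [hx, mul_comm (2 * Real.pi) (m : ℝ), Real.cos_sub_int_mul_two_pi]
    simp only [hG, h8]
    have h9 := mul_le_mul_of_nonneg_left (kqTime_cos_ge hxle) (by positivity : 0 ≤ L / 2)
    nlinarith
  set w : ℝ → ℝ := fun x => (G x)⁻¹ with hw
  have hw0 : ∀ x, 0 < w x := fun x => inv_pos.2 (hG0 x)
  have hwc : Continuous w := hGc.inv₀ (fun x => (hG0 x).ne')
  have hwper : Function.Periodic w (2 * Real.pi) := by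
    intro x
    simp only [hw, hG]
    rw [show x + 2 * Real.pi - θ0 = (x - θ0) + 2 * Real.pi by ring, Real.cos_add_two_pi]
  have hwi : ∀ a b, IntervalIntegrable w volume a b := fun a b => hwc.intervalIntegrable a b
  set ψ : ℝ → ℝ := fun x => ∫ y in (0:ℝ)..x, w y with hψ
  have hψd : ∀ x, HasDerivAt ψ (w x) x := fun x => (hwc.integral_hasStrictDerivAt 0 x).hasDerivAt
  -- time estimate 1
  have hf : ∀ t, HasDerivAt (fun t => ψ (σ t).2) (w (σ t).2 * (F (σ t)).2) t := fun t =>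
    (hψd _).comp t (hd2 t)
  have hT1 : ψ (σ T).2 - ψ (σ 0).2 ≤ T := by
    have h3 := image_sub_le_mul_sub_of_deriv_le (f := fun t => ψ (σ t).2) (C := 1)
      (fun t => (hf t).differentiableAt) (fun t => by
        rw [(hf t).deriv]
        calc w (σ t).2 * (F (σ t)).2 ≤ w (σ t).2 * G (σ t).2 :=
              mul_le_mul_of_nonneg_left (hF2 _ (hs t)) (hw0 _).le
          _ = 1 := inv_mul_cancel₀ (hG0 _).ne') hT.le
    simpa using h3
  have hσT : σ T = σ 0 + ((0 : ℝ), 2 * Real.pi * (k : ℝ)) := by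
    have := hpert 0
    rwa [zero_add] at this
  have hT2 : (k : ℝ) * ∫ y in (θ0 - Real.pi)..(θ0 + Real.pi), w y ≤ T := by
    refine le_trans (le_of_eq ?_) hT1
    have h3 : (σ T).2 = (σ 0).2 + k • (2 * Real.pi) := by
      rw [hσT]
      simp [mul_comm]
    rw [h3]
    simp only [hψ]
    rw [intervalIntegral.integral_interval_sub_left (hwi _ _) (hwi _ _),
      hwper.intervalIntegral_add_zsmul_eq k _ hwi,
      hwper.intervalIntegral_add_eq (σ 0).2 (θ0 - Real.pi), zsmul_eq_mul,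
      show θ0 - Real.pi + 2 * Real.pi = θ0 + Real.pi by ring]
  -- time estimate 2
  have hT3 : ε * T ≤ 2 * Real.pi * k := by
    have hh : ∀ t, HasDerivAt (fun t => e.1 * (σ t).1 + e.2 * (σ t).2)
        (e.1 * (F (σ t)).1 + e.2 * (F (σ t)).2) t := fun t =>
      ((hd1 t).const_mul e.1).add ((hd2 t).const_mul e.2)
    have h3 := mul_sub_le_image_sub_of_le_deriv (f := fun t => e.1 * (σ t).1 + e.2 * (σ t).2)
      (C := ε) (fun t => (hh t).differentiableAt) (fun t => by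
        rw [(hh t).deriv]
        exact h1 _ (hs t)) hT.le
    have h4 : e.1 * (σ T).1 + e.2 * (σ T).2 - (e.1 * (σ 0).1 + e.2 * (σ 0).2) =
        e.2 * (2 * Real.pi * k) := by
      rw [hσT]
      simp only [Prod.fst_add, Prod.snd_add]
      ring
    have h5 : e.2 ≤ 1 := by nlinarith [sq_nonneg e.1, sq_nonneg (e.2 - 1)]
    have h6 : e.2 * (2 * Real.pi * k) ≤ 1 * (2 * Real.pi * k) :=
      mul_le_mul_of_nonneg_right h5 (by positivity)
    simp only [sub_zero] at h3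
    linarith
  -- lower bound of the integral
  have hint : ∀ d : ℝ, 0 < d → d ≤ Real.pi → L * Real.pi ^ 2 / 8 * d ^ 2 ≤ τ →
      d / τ ≤ ∫ y in (θ0 - Real.pi)..(θ0 + Real.pi), w y := by
    intro d hd hdpi hdτ
    have h3 : ∫ y in (θ0 - d)..(θ0 + d), w y ≤ ∫ y in (θ0 - Real.pi)..(θ0 + Real.pi), w y := by
      apply intervalIntegral.integral_mono_interval (by linarith) (by linarith) (by linarith)
        (Eventually.of_forall (fun x => (hw0 x).le)) (hwi _ _)
    have h4 : ∫ y in (θ0 - d)..(θ0 + d), (2 * τ)⁻¹ ≤ ∫ y in (θ0 - d)..(θ0 + d), w y := by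
      apply intervalIntegral.integral_mono_on (by linarith) (by simp) (hwi _ _)
      intro y hy
      apply inv_anti₀ (hG0 y)
      have h5 : |y - θ0| ≤ d := abs_le.2 ⟨by linarith [hy.1], by linarith [hy.2]⟩
      have h6 : (y - θ0) ^ 2 ≤ d ^ 2 := by
        rw [← sq_abs]
        exact pow_le_pow_left₀ (abs_nonneg _) h5 2
      have h7 : 1 - Real.cos (y - θ0) ≤ (y - θ0) ^ 2 / 2 := by
        have := Real.one_sub_sq_div_two_le_cos (x := y - θ0)
        linarith
      have h8 : L * Real.pi ^ 2 / 4 * (1 - Real.cos (y - θ0)) ≤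
          L * Real.pi ^ 2 / 4 * (d ^ 2 / 2) :=
        mul_le_mul_of_nonneg_left (by linarith) (by positivity)
      simp only [hG]
      linarith
    have h5 : ∫ y in (θ0 - d)..(θ0 + d), (2 * τ)⁻¹ = d / τ := by
      rw [intervalIntegral.integral_const, smul_eq_mul]
      field_simp
      ring
    linarith
  have hfin : ∀ d : ℝ, 0 < d → d ≤ Real.pi → L * Real.pi ^ 2 / 8 * d ^ 2 ≤ τ →
      ε * d ≤ 2 * Real.pi * τ := by
    intro d hd hdpi hdτ
    have h3 := hint d hd hdpi hdτ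
    have h4 : (k : ℝ) * (d / τ) ≤ T := (mul_le_mul_of_nonneg_left h3 hk'.le).trans hT2
    have h5 : ε * ((k : ℝ) * (d / τ)) ≤ 2 * Real.pi * k :=
      (mul_le_mul_of_nonneg_left h4 hε.le).trans hT3
    have h6 : (ε * (d / τ)) * k ≤ (2 * Real.pi) * k := by linarith
    have h7 : ε * (d / τ) ≤ 2 * Real.pi := le_of_mul_le_mul_right h6 hk'
    rw [← mul_div_assoc, div_le_iff₀ hτ] at h7
    exact h7
  by_cases hcase : L * Real.pi ^ 2 / 8 * Real.pi ^ 2 ≤ τ
  · have h3 := hfin Real.pi hpi le_rfl hcase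
    have h4 : ε ≤ 2 * τ := by
      have : ε * Real.pi ≤ (2 * τ) * Real.pi := by linarith
      exact le_of_mul_le_mul_right this hpi
    have h5 : ε * ε ≤ L * (2 * τ) := mul_le_mul hεL h4 hε.le hL.le
    nlinarith [mul_pos hL hτ]
  · push Not at hcase
    set d : ℝ := Real.sqrt (8 * τ / (L * Real.pi ^ 2)) with hd
    have hdsq : d ^ 2 = 8 * τ / (L * Real.pi ^ 2) := Real.sq_sqrt (by positivity)
    have hd0 : 0 < d := Real.sqrt_pos.2 (by positivity)
    have hdτ : L * Real.pi ^ 2 / 8 * d ^ 2 = τ := by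
      rw [hdsq]
      field_simp
    have hdpi : d ≤ Real.pi := by
      have h3 : L * Real.pi ^ 2 / 8 * d ^ 2 < L * Real.pi ^ 2 / 8 * Real.pi ^ 2 := by
        rw [hdτ]
        exact hcase
      have h4 : d ^ 2 < Real.pi ^ 2 := lt_of_mul_lt_mul_left h3 (by positivity)
      exact (lt_of_pow_lt_pow_left₀ 2 hpi.le h4).le
    have h3 := hfin d hd0 hdpi hdτ.le
    have h4 : (ε * d) ^ 2 ≤ (2 * Real.pi * τ) ^ 2 :=
      pow_le_pow_left₀ (by positivity) h3 2
    rw [mul_pow, hdsq] at h4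
    have h5 : ε ^ 2 * (8 * τ) ≤ (2 * Real.pi * τ) ^ 2 * (L * Real.pi ^ 2) := by
      rw [← mul_div_assoc, div_le_iff₀ (by positivity)] at h4
      exact h4
    have h6 : ε ^ 2 * 8 ≤ 4 * Real.pi ^ 4 * τ * L := by
      have : (ε ^ 2 * 8) * τ ≤ (4 * Real.pi ^ 4 * τ * L) * τ := by
        calc (ε ^ 2 * 8) * τ = ε ^ 2 * (8 * τ) := by ring
          _ ≤ (2 * Real.pi * τ) ^ 2 * (L * Real.pi ^ 2) := h5
          _ = _ := by ring
      exact le_of_mul_le_mul_right this hτ
    have h7 : Real.pi ^ 4 ≤ 200 := by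
      have h8 : Real.pi < 3.15 := Real.pi_lt_d2
      calc Real.pi ^ 4 ≤ (3.15 : ℝ) ^ 4 := pow_le_pow_left₀ hpi.le h8.le 4
        _ ≤ 200 := by norm_num
    have h8 : 4 * Real.pi ^ 4 * τ * L ≤ 4 * 200 * τ * L := by
      have : Real.pi ^ 4 * (τ * L) ≤ 200 * (τ * L) :=
        mul_le_mul_of_nonneg_right h7 (by positivity)
      linarith
    linarith

end Pool.Agent.Lib.MP_95e7ec_an
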