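import Mathlib
import Pool.Agent.Lib.MP_95e7ec_an.KqDefs
import Pool.Agent.Lib.MP_95e7ec_an.KqTime
import Pool.Agent.Lib.MP_95e7ec_an.KqGraph
import Pool.Agent.Lib.MP_95e7ec_an.KqCompare
import Pool.Agent.Lib.MP_95e7ec_an.KqLip

/-!
# Kostlan random fields of odd degree near infinity: the closed orbits with positive winding number
-/

set_option autoImplicit false

open Set Filter Topology MeasureTheory ProbabilityTheory
open scoped ContDiff ENNReal

namespace Pool.Agent.Lib.MP_95e7ec_an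

/-! ## Elementary facts -/

theorem kqp_dot_le {e w : ℝ × ℝ} (he : e.1 ^ 2 + e.2 ^ 2 = 1) : |dot e w| ≤ nm w := by
  unfold nm dot
  apply Real.abs_le_sqrt
  nlinarith [sq_nonneg (e.1 * w.2 - e.2 * w.1)]

theorem kqp_snd_le {w : ℝ × ℝ} : |w.2| ≤ nm w := by
  unfold nm
  apply Real.abs_le_sqrt
  nlinarith [sq_nonneg w.1]

theorem kqp_fst_le {w : ℝ × ℝ} : |w.1| ≤ nm w := by
  unfold nm
  apply Real.abs_le_sqrt
  nlinarith [sq_nonneg w.2]

theorem kqp_nm_turn (α : ℝ) (F : ℝ × ℝ → ℝ × ℝ) (p : ℝ × ℝ) : nm (turn α F p) = nm (F p) := by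
  unfold nm turn
  congr 1
  have := Real.sin_sq_add_cos_sq α
  simp only
  linear_combination ((F p).1 ^ 2 + (F p).2 ^ 2) * this

theorem kqp_dot_turn (α : ℝ) (F : ℝ × ℝ → ℝ × ℝ) (e p : ℝ × ℝ) :
    dot (Real.cos α * e.1 - Real.sin α * e.2, Real.sin α * e.1 + Real.cos α * e.2)
      (turn α F p) = dot e (F p) := by
  unfold dot turn
  have := Real.sin_sq_add_cos_sq α
  simp only
  linear_combination ((F p).1 * e.1 + (F p).2 * e.2) * this

theorem kqp_contDiff_turn {F : ℝ × ℝ → ℝ × ℝ} (hF : ContDiff ℝ 1 F) (α : ℝ) :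
    ContDiff ℝ 1 (turn α F) := by
  unfold turn
  have h1 : ContDiff ℝ 1 fun p => (F p).1 := hF.fst
  have h2 : ContDiff ℝ 1 fun p => (F p).2 := hF.snd
  exact ((contDiff_const.mul h1).sub (contDiff_const.mul h2)).prodMk
    ((contDiff_const.mul h1).add (contDiff_const.mul h2))

theorem kqp_per_turn {F : ℝ × ℝ → ℝ × ℝ}
    (hper : ∀ p : ℝ × ℝ, F (p + (0, 2 * Real.pi)) = F p) (α : ℝ) (p : ℝ × ℝ) :
    turn α F (p + (0, 2 * Real.pi)) = turn α F p := by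
  unfold turn
  rw [hper]

theorem kqp_fst {P : ℝ → ℝ × ℝ} {P' : ℝ × ℝ} {θ : ℝ} (h : HasDerivAt P P' θ) :
    HasDerivAt (fun θ => (P θ).1) P'.1 θ :=
  (hasFDerivAt_fst (𝕜 := ℝ) (p := P θ)).comp_hasDerivAt θ h

theorem kqp_snd {P : ℝ → ℝ × ℝ} {P' : ℝ × ℝ} {θ : ℝ} (h : HasDerivAt P P' θ) :
    HasDerivAt (fun θ => (P θ).2) P'.2 θ :=
  (hasFDerivAt_snd (𝕜 := ℝ) (p := P θ)).comp_hasDerivAt θ h

/-- second order Taylor bound at a minimum -/
theorem kqp_taylor {Q Q' Q'' : ℝ → ℝ} (h1 : ∀ x, HasDerivAt Q (Q' x) x)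
    (h2 : ∀ x, HasDerivAt Q' (Q'' x) x) {L x0 : ℝ} (hL : ∀ x, Q'' x ≤ L)
    (hmin : ∀ x, Q x0 ≤ Q x) (x : ℝ) : Q x ≤ Q x0 + L / 2 * (x - x0) ^ 2 := by
  have hQ0 : Q' x0 = 0 := by
    have hm : IsLocalMin Q x0 := Filter.Eventually.of_forall hmin
    exact hm.hasDerivAt_eq_zero (h1 x0)
  set g : ℝ → ℝ := fun x => Q x - L / 2 * (x - x0) ^ 2 with hg
  have hgd : ∀ x, HasDerivAt g (Q' x - L * (x - x0)) x := by
    intro x
    have := (h1 x).sub ((((hasDerivAt_id x).sub_const x0).pow 2).const_mul (L / 2))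
    refine this.congr_deriv ?_
    simp
    ring
  have hgd2 : ∀ x, HasDerivAt (fun x => Q' x - L * (x - x0)) (Q'' x - L) x := by
    intro x
    have := (h2 x).sub (((hasDerivAt_id x).sub_const x0).const_mul L)
    refine this.congr_deriv ?_
    simp
  have hanti : Antitone fun x => Q' x - L * (x - x0) := by
    apply antitone_of_deriv_nonpos
    · exact fun x => (hgd2 x).differentiableAt
    · intro x
      rw [(hgd2 x).deriv]
      linarith [hL x]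
  have hgx : g x ≤ g x0 := by
    rcases le_total x0 x with hx | hx
    · have : AntitoneOn g (Set.Ici x0) := by
        apply antitoneOn_of_deriv_nonpos (convex_Ici x0)
        · exact fun x _ => (hgd x).continuousAt.continuousWithinAt
        · exact fun x _ => (hgd x).differentiableAt.differentiableWithinAt
        · intro y hy
          rw [interior_Ici] at hy
          rw [(hgd y).deriv]
          have := hanti (le_of_lt hy)
          simp only [sub_self, mul_zero, hQ0] at this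
          exact this
      exact this (Set.self_mem_Ici) hx hx
    · have : MonotoneOn g (Set.Iic x0) := by
        apply monotoneOn_of_deriv_nonneg (convex_Iic x0)
        · exact fun x _ => (hgd x).continuousAt.continuousWithinAt
        · exact fun x _ => (hgd x).differentiableAt.differentiableWithinAt
        · intro y hy
          rw [interior_Iic] at hy
          rw [(hgd y).deriv]
          have := hanti (le_of_lt hy)
          simp only [sub_self, mul_zero, hQ0] at this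
          exact this
      exact this hx (Set.self_mem_Iic) hx
  simp only [hg, sub_self] at hgx
  nlinarith [hgx]

/-- a continuous periodic function has a minimum -/
theorem kqp_exists_min {Q : ℝ → ℝ} (hQ : Continuous Q)
    (hper : ∀ x, Q (x + 2 * Real.pi) = Q x) : ∃ x0, ∀ x, Q x0 ≤ Q x := by
  have hpi : (0 : ℝ) < 2 * Real.pi := by positivity
  obtain ⟨x0, -, hx0⟩ := (isCompact_Icc (a := (0 : ℝ)) (b := 2 * Real.pi)).exists_isMinOn
    (Set.nonempty_Icc.2 hpi.le) hQ.continuousOn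
  refine ⟨x0, fun x => ?_⟩
  have hp : Function.Periodic Q (2 * Real.pi) := hper
  obtain ⟨y, hy, hyx⟩ := hp.exists_mem_Ico₀ hpi x
  rw [hyx]
  exact hx0 ⟨hy.1, hy.2.le⟩

/-! ## The lower bound for the angular component -/

theorem kqp_lower {F : ℝ × ℝ → ℝ × ℝ}
    (hper : ∀ p : ℝ × ℝ, F (p + (0, 2 * Real.pi)) = F p) {P P' P'' : ℝ → ℝ × ℝ}
    (hP : ∀ θ, HasDerivAt P (P' θ) θ) (hP' : ∀ θ, HasDerivAt P' (P'' θ) θ)
    (hPper : ∀ θ, P (θ + 2 * Real.pi) = P θ) {s1 ε κ L : ℝ} (hε : 0 < ε) (hεL : ε ≤ L)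
    (hκ0 : 0 ≤ κ) (hκε : 3200 * L * κ ≤ ε ^ 2)
    (hL : ∀ θ, nm (P'' θ) ≤ L)
    (hFP : ∀ p : ℝ × ℝ, s1 < p.1 → nm (F p - P p.2) ≤ κ)
    {e : ℝ × ℝ} (he : e.1 ^ 2 + e.2 ^ 2 = 1) (hout : ∀ θ, ε ≤ dot e (P θ)) {α : ℝ}
    (hα : (posOrb (turn α F) s1).Nonempty) :
    ∀ p : ℝ × ℝ, s1 < p.1 → ε ^ 2 / (800 * L) ≤ (turn α F p).2 := by
  obtain ⟨C, σ, T, k, hk, hσ, hs, -, -⟩ := hα
  have hLpos : 0 < L := lt_of_lt_of_le hε hεL
  have hκε' : κ ≤ ε / 2 := by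
    have h1 : 3200 * L * κ ≤ ε * L := by nlinarith
    have h2 : 3200 * κ ≤ ε := by
      by_contra hc
      push Not at hc
      nlinarith
    linarith
  set Q : ℝ → ℝ := fun θ => Real.sin α * (P θ).1 + Real.cos α * (P θ).2 with hQdef
  have hQ1 : ∀ θ, HasDerivAt Q (Real.sin α * (P' θ).1 + Real.cos α * (P' θ).2) θ := by
    intro θ
    exact ((kqp_fst (hP θ)).const_mul _).add ((kqp_snd (hP θ)).const_mul _)
  have hQ2 : ∀ θ, HasDerivAt (fun θ => Real.sin α * (P' θ).1 + Real.cos α * (P' θ).2)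
      (Real.sin α * (P'' θ).1 + Real.cos α * (P'' θ).2) θ := by
    intro θ
    exact ((kqp_fst (hP' θ)).const_mul _).add ((kqp_snd (hP' θ)).const_mul _)
  have hQcont : Continuous Q := by
    rw [continuous_iff_continuousAt]
    exact fun x => (hQ1 x).continuousAt
  have hunit : (Real.sin α, Real.cos α).1 ^ 2 + (Real.sin α, Real.cos α).2 ^ 2 = 1 :=
    Real.sin_sq_add_cos_sq α
  obtain ⟨θ0, hθ0⟩ := kqp_exists_min hQcont (fun x => by simp only [hQdef, hPper])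
  have hQL : ∀ θ, Real.sin α * (P'' θ).1 + Real.cos α * (P'' θ).2 ≤ L := by
    intro θ
    have := (abs_le.1 (kqp_dot_le (w := P'' θ) hunit)).2
    unfold dot at this
    simp only at this
    linarith [hL θ]
  have htay := kqp_taylor hQ1 hQ2 hQL hθ0
  have hdiff : ∀ p : ℝ × ℝ, s1 < p.1 → |(turn α F p).2 - Q p.2| ≤ κ := by
    intro p hp
    have h1 := kqp_dot_le (w := F p - P p.2) hunit
    have h2 : (turn α F p).2 - Q p.2 = dot (Real.sin α, Real.cos α) (F p - P p.2) := by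
      simp only [hQdef, turn, dot, Prod.fst_sub, Prod.snd_sub]
      ring
    rw [h2]
    exact h1.trans (hFP p hp)
  have hdot : ∀ p : ℝ × ℝ, s1 < p.1 → ε / 2 ≤ dot (Real.cos α * e.1 - Real.sin α * e.2,
      Real.sin α * e.1 + Real.cos α * e.2) (turn α F p) := by
    intro p hp
    rw [kqp_dot_turn]
    have h1 := (abs_le.1 ((kqp_dot_le (w := F p - P p.2) he).trans (hFP p hp))).1
    have h2 := hout p.2
    have h3 : dot e (F p - P p.2) = dot e (F p) - dot e (P p.2) := by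
      simp only [dot, Prod.fst_sub, Prod.snd_sub]
      ring
    rw [h3] at h1
    linarith
  have heα : (Real.cos α * e.1 - Real.sin α * e.2, Real.sin α * e.1 + Real.cos α * e.2).1 ^ 2 +
      (Real.cos α * e.1 - Real.sin α * e.2, Real.sin α * e.1 + Real.cos α * e.2).2 ^ 2 = 1 := by
    simp only
    have := Real.sin_sq_add_cos_sq α
    linear_combination (e.1 ^ 2 + e.2 ^ 2) * this + he
  set δ : ℝ := ε ^ 2 / (800 * L) with hδ
  have hδpos : 0 < δ := by positivity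
  have hδL : 800 * L * δ = ε ^ 2 := by
    rw [hδ]
    field_simp
  have htime := cyl_time (F := turn α F) (kqp_per_turn hper α) (s1 := s1) (ε := ε / 2)
    (τ := max (Q θ0 + κ) δ) (L := L) (θ0 := θ0) heα (by positivity) (by linarith)
    (lt_of_lt_of_le hδpos (le_max_right _ _)) hdot (fun p hp => by
      have h1 := (abs_le.1 (hdiff p hp)).2
      have h2 := htay p.2
      have h3 := le_max_left (Q θ0 + κ) δ
      linarith) hk hσ hs
  have hcase : δ < Q θ0 + κ := by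
    by_contra hc
    push Not at hc
    rw [max_eq_right hc] at htime
    nlinarith
  rw [max_eq_left hcase.le] at htime
  have hτ : 2 * δ ≤ Q θ0 + κ := by
    by_contra hc
    push Not at hc
    nlinarith
  have hκδ : 4 * κ ≤ δ := by
    by_contra hc
    push Not at hc
    nlinarith
  intro p hp
  have h1 := (abs_le.1 (hdiff p hp)).1
  have h2 := hθ0 p.2
  linarith

/-! ## The graph of a closed orbit -/

/-- `C` is the graph of `y` -/
def KqGr (F : ℝ × ℝ → ℝ × ℝ) (s1 : ℝ) (C : Set (ℝ × ℝ)) (y : ℝ → ℝ) : Prop :=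
  (∀ θ, s1 < y θ) ∧ (∀ θ, HasDerivAt y ((F (y θ, θ)).1 / (F (y θ, θ)).2) θ) ∧
    (∀ θ, y (θ + 2 * Real.pi) = y θ) ∧ C = (Set.range fun θ => cyl (y θ, θ)) ∧
    ∃ θ, y θ ≤ s1 + 1

theorem kqp_exists_graph {F : ℝ × ℝ → ℝ × ℝ} (hF : ContDiff ℝ 1 F)
    (hper : ∀ p : ℝ × ℝ, F (p + (0, 2 * Real.pi)) = F p) {s1 η : ℝ} (hη : 0 < η)
    (h2 : ∀ p : ℝ × ℝ, s1 < p.1 → η ≤ (F p).2) {C : Set (ℝ × ℝ)} (hC : C ∈ posOrb F s1) :
    ∃ y, KqGr F s1 C y := by
  obtain ⟨σ, T, k, hk, hσ, hs, ⟨t, ht⟩, hCr⟩ := hC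
  obtain ⟨y, hy1, hy2, hy3, hy4, hy5⟩ := cyl_graph hF hper hη h2 hσ hs
  obtain ⟨θ, hθ⟩ := hy5 t
  exact ⟨y, hy1, hy2, hy3, hCr.trans hy4, θ, hθ.le.trans ht⟩

/-- the mean of a graph -/
noncomputable def kqMean (y : ℝ → ℝ) : ℝ :=
  (2 * Real.pi)⁻¹ * ∫ θ in (0 : ℝ)..2 * Real.pi, y θ

theorem KqGr.cont {F : ℝ × ℝ → ℝ × ℝ} {s1 : ℝ} {C : Set (ℝ × ℝ)} {y : ℝ → ℝ}
    (h : KqGr F s1 C y) : Continuous y := by
  rw [continuous_iff_continuousAt]
  exact fun x => (h.2.1 x).continuousAt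

theorem kqMean_mem {y : ℝ → ℝ} (hy : Continuous y) {x0 x1 : ℝ} (h : ∀ θ, y θ ∈ Set.Icc x0 x1) :
    kqMean y ∈ Set.Icc x0 x1 := by
  have hpi : (0 : ℝ) < 2 * Real.pi := by positivity
  have hi : IntervalIntegrable y volume 0 (2 * Real.pi) := hy.intervalIntegrable _ _
  have h1 : (2 * Real.pi) * x0 ≤ ∫ θ in (0 : ℝ)..2 * Real.pi, y θ := by
    have := intervalIntegral.integral_mono_on hpi.le
      (intervalIntegrable_const (c := x0) (μ := volume)) hi (fun θ _ => (h θ).1)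
    rw [intervalIntegral.integral_const] at this
    simpa using this
  have h2 : ∫ θ in (0 : ℝ)..2 * Real.pi, y θ ≤ (2 * Real.pi) * x1 := by
    have := intervalIntegral.integral_mono_on hpi.le hi
      (intervalIntegrable_const (c := x1) (μ := volume)) (fun θ _ => (h θ).2)
    rw [intervalIntegral.integral_const] at this
    simpa using this
  unfold kqMean
  rw [inv_mul_eq_div]
  exact ⟨(le_div_iff₀ hpi).2 (by linarith), (div_le_iff₀ hpi).2 (by linarith)⟩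

theorem KqGr.bound {F : ℝ × ℝ → ℝ × ℝ} {s1 η M : ℝ} (hη : 0 < η)
    (h2 : ∀ p : ℝ × ℝ, s1 < p.1 → η ≤ (F p).2) (hM : ∀ p : ℝ × ℝ, s1 < p.1 → nm (F p) ≤ M)
    {C : Set (ℝ × ℝ)} {y : ℝ → ℝ} (h : KqGr F s1 C y) (θ : ℝ) :
    y θ ∈ Set.Icc s1 (s1 + (1 + 2 * Real.pi * M / η)) := by
  obtain ⟨hy1, hy2, hy3, hy4, θ1, hθ1⟩ := h
  refine ⟨(hy1 θ).le, ?_⟩
  have hpi : (0 : ℝ) < 2 * Real.pi := by positivity
  have hp : Function.Periodic y (2 * Real.pi) := hy3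
  obtain ⟨θ', hθ', hyθ⟩ := hp.exists_mem_Ico hpi θ θ1
  rw [hyθ]
  have hM0 : 0 ≤ M := (Real.sqrt_nonneg _).trans (hM (y θ1, θ1) (hy1 θ1))
  have hbd : ∀ x ∈ Set.Icc θ1 θ', ‖(F (y x, x)).1 / (F (y x, x)).2‖ ≤ M / η := by
    intro x _
    have hpos : 0 < (F (y x, x)).2 := lt_of_lt_of_le hη (h2 _ (hy1 x))
    rw [Real.norm_eq_abs, abs_div, abs_of_pos hpos]
    exact div_le_div₀ hM0 (kqp_fst_le.trans (hM _ (hy1 x))) hη (h2 _ (hy1 x))
  have hmv := Convex.norm_image_sub_le_of_norm_hasDerivWithin_le (f := y)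
    (f' := fun x => (F (y x, x)).1 / (F (y x, x)).2) (s := Set.Icc θ1 θ') (C := M / η)
    (x := θ1) (y := θ') (fun x _ => (hy2 x).hasDerivWithinAt) hbd (convex_Icc _ _)
    ⟨le_refl _, hθ'.1⟩ ⟨hθ'.1, le_refl _⟩
  rw [Real.norm_eq_abs, Real.norm_eq_abs, abs_of_nonneg (by linarith [hθ'.1] : 0 ≤ θ' - θ1)] at hmv
  have h3 : M / η * (θ' - θ1) ≤ M / η * (2 * Real.pi) := by
    apply mul_le_mul_of_nonneg_left _ (by positivity)
    linarith [hθ'.2]
  have h4 := (abs_le.1 hmv).2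
  have h5 : M / η * (2 * Real.pi) = 2 * Real.pi * M / η := by ring
  linarith

/-- two graphs with the same mean meet -/
theorem kqp_meet {y1 y2 : ℝ → ℝ} (h1 : Continuous y1) (h2 : Continuous y2)
    (hm : kqMean y1 = kqMean y2) : ∃ θ, y1 θ = y2 θ := by
  by_contra hc
  push Not at hc
  have hpi : (0 : ℝ) < 2 * Real.pi := by positivity
  have hint : ∫ θ in (0 : ℝ)..2 * Real.pi, (y1 θ - y2 θ) = 0 := by
    rw [intervalIntegral.integral_sub (h1.intervalIntegrable _ _) (h2.intervalIntegrable _ _)]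
    unfold kqMean at hm
    have := mul_left_cancel₀ (inv_ne_zero hpi.ne') hm
    linarith
  have hsign : (∀ θ, 0 < y1 θ - y2 θ) ∨ (∀ θ, y1 θ - y2 θ < 0) := by
    by_contra hs
    push Not at hs
    obtain ⟨⟨a, ha⟩, ⟨b, hb⟩⟩ := hs
    have := mem_range_of_exists_le_of_exists_ge (h1.sub h2) ⟨a, ha⟩ ⟨b, hb⟩
    obtain ⟨c, hcc⟩ := this
    exact hc c (by simpa [sub_eq_zero] using hcc)
  rcases hsign with hs | hs
  · have := intervalIntegral.intervalIntegral_pos_of_pos (f := fun θ => y1 θ - y2 θ)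
      ((h1.sub h2).intervalIntegrable _ _) hs hpi
    linarith
  · have := intervalIntegral.intervalIntegral_pos_of_pos (f := fun θ => -(y1 θ - y2 θ))
      ((h1.sub h2).neg.intervalIntegrable _ _) (fun x => by linarith [hs x]) hpi
    rw [intervalIntegral.integral_neg] at this
    linarith

/-! ## The count -/

open Classical in
/-- the mean of the graph of a closed orbit -/
noncomputable def kqM (F : ℝ × ℝ → ℝ × ℝ) (s1 α : ℝ) (C : Set (ℝ × ℝ)) : ℝ :=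
  if h : ∃ y, KqGr (turn α F) s1 C y then kqMean h.choose else 0

theorem kqM_spec {F : ℝ × ℝ → ℝ × ℝ} {s1 α : ℝ} {C : Set (ℝ × ℝ)}
    (h : ∃ y, KqGr (turn α F) s1 C y) : ∃ y, KqGr (turn α F) s1 C y ∧ kqM F s1 α C = kqMean y := by
  refine ⟨h.choose, h.choose_spec, ?_⟩
  unfold kqM
  rw [dif_pos h]

theorem good_pos_maj {F : ℝ × ℝ → ℝ × ℝ} (hF : ContDiff ℝ 1 F)
    (hper : ∀ p : ℝ × ℝ, F (p + (0, 2 * Real.pi)) = F p) {P P' P'' : ℝ → ℝ × ℝ}
    (hP : ∀ θ, HasDerivAt P (P' θ) θ) (hP' : ∀ θ, HasDerivAt P' (P'' θ) θ)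
    (hPper : ∀ θ, P (θ + 2 * Real.pi) = P θ) {s1 ε κ M L : ℝ} (hε : 0 < ε) (hεL : ε ≤ L)
    (hκ0 : 0 ≤ κ) (hκε : 3200 * L * κ ≤ ε ^ 2)
    (hL : ∀ θ, nm (P'' θ) ≤ L) (hM : ∀ p : ℝ × ℝ, s1 < p.1 → nm (F p) ≤ M)
    (hFP : ∀ p : ℝ × ℝ, s1 < p.1 → nm (F p - P p.2) ≤ κ)
    (hκ : ∀ s s' θ : ℝ, s1 < s → s1 < s' → nm (F (s, θ) - F (s', θ)) ≤ κ * |s - s'|)
    {e : ℝ × ℝ} (he : e.1 ^ 2 + e.2 ^ 2 = 1) (hout : ∀ θ, ε ≤ dot e (P θ)) :
    ∃ H : ℝ → ℝ≥0∞, Measurable H ∧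
      (∀ α ∈ Set.Ioo 0 Real.pi, (((posOrb (turn α F) s1).encard : ℕ∞) : ℝ≥0∞) ≤ H α) ∧
      ∫⁻ α in Set.Ioo 0 Real.pi, H α ≤
        ENNReal.ofReal (10 ^ 11 * κ * M ^ 2 * L ^ 3 / ε ^ 6) := by
  have hLpos : 0 < L := lt_of_lt_of_le hε hεL
  set η : ℝ := ε ^ 2 / (800 * L) with hη
  have hηpos : 0 < η := by positivity
  have hηL : 800 * L * η = ε ^ 2 := by
    rw [hη]
    field_simp
  have hlow : ∀ α, (posOrb (turn α F) s1).Nonempty → ∀ p : ℝ × ℝ, s1 < p.1 →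
      η ≤ (turn α F p).2 := fun α hα =>
    kqp_lower hper hP hP' hPper hε hεL hκ0 hκε hL hFP he hout hα
  have hMt : ∀ α, ∀ p : ℝ × ℝ, s1 < p.1 → nm (turn α F p) ≤ M := by
    intro α p hp
    rw [kqp_nm_turn]
    exact hM p hp
  have hκε' : κ ≤ ε / 2 := by
    have h1 : 3200 * L * κ ≤ ε * L := by nlinarith
    have h2 : 3200 * κ ≤ ε := by
      by_contra hc
      push Not at hc
      nlinarith
    linarith
  have hMε : ε / 2 ≤ M := by
    have hp : s1 < ((s1 + 1, 0) : ℝ × ℝ).1 := by simp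
    have h1 := (abs_le.1 ((kqp_dot_le (w := F (s1 + 1, 0) - P ((s1 + 1, 0) : ℝ × ℝ).2) he).trans
      (hFP _ hp))).1
    have h2 := hout ((s1 + 1, 0) : ℝ × ℝ).2
    have h3 : dot e (F (s1 + 1, 0) - P ((s1 + 1, 0) : ℝ × ℝ).2) =
        dot e (F (s1 + 1, 0)) - dot e (P ((s1 + 1, 0) : ℝ × ℝ).2) := by
      simp only [dot, Prod.fst_sub, Prod.snd_sub]
      ring
    rw [h3] at h1
    have h4 := (abs_le.1 ((kqp_dot_le (w := F (s1 + 1, 0)) he).trans (hM _ hp))).2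
    linarith
  have hηM : η ≤ M := by
    have : 800 * L * η ≤ 800 * L * M := by
      rw [hηL]
      nlinarith
    exact le_of_mul_le_mul_left this (by positivity)
  have hMpos : 0 < M := by linarith
  obtain ⟨H, hHm, hH1, hH2⟩ := lipschitz_count_maj (fun α => posOrb (turn α F) s1)
    (kqM F s1) (a := 0) (b := Real.pi) (x0 := s1)
    (x1 := s1 + (1 + 2 * Real.pi * M / η)) (Λ := M * κ / η ^ 2)
    (by
      have : 0 ≤ 2 * Real.pi * M / η := by positivity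
      linarith)
    (by positivity)
    (by
      intro α _ C hC
      have hl := hlow α ⟨C, hC⟩
      obtain ⟨y, hy, hyM⟩ := kqM_spec
        (kqp_exists_graph (kqp_contDiff_turn hF α) (kqp_per_turn hper α) hηpos hl hC)
      rw [hyM]
      exact kqMean_mem hy.cont (hy.bound hηpos hl (hMt α)))
    (by
      intro α _ C hC C' hC' hmm
      have hl := hlow α ⟨C, hC⟩
      obtain ⟨y, hy, hyM⟩ := kqM_spec
        (kqp_exists_graph (kqp_contDiff_turn hF α) (kqp_per_turn hper α) hηpos hl hC)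
      obtain ⟨y', hy', hyM'⟩ := kqM_spec
        (kqp_exists_graph (kqp_contDiff_turn hF α) (kqp_per_turn hper α) hηpos hl hC')
      rw [hyM, hyM'] at hmm
      obtain ⟨θ, hθ⟩ := kqp_meet hy.cont hy'.cont hmm
      have := cyl_unique (kqp_contDiff_turn hF α) hηpos hl hy.1 hy'.1 hy.2.1 hy'.2.1 hθ
      rw [hy.2.2.2.1, hy'.2.2.2.1, this])
    (by
      intro α hα α' hα' C hC C' hC'
      have hl := hlow α ⟨C, hC⟩
      have hl' := hlow α' ⟨C', hC'⟩
      obtain ⟨y, hy, hyM⟩ := kqM_spec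
        (kqp_exists_graph (kqp_contDiff_turn hF α) (kqp_per_turn hper α) hηpos hl hC)
      obtain ⟨y', hy', hyM'⟩ := kqM_spec
        (kqp_exists_graph (kqp_contDiff_turn hF α') (kqp_per_turn hper α') hηpos hl' hC')
      rw [hyM, hyM']
      rcases le_total α α' with hle | hle
      · have := cyl_compare hF.continuous hηpos hM hκ hle (by linarith [hα.1, hα'.2]) hl hl'
          hy.1 hy'.1 hy.2.1 hy'.2.1 hy.2.2.1 hy'.2.2.1
        rw [abs_sub_comm, abs_of_nonneg (by linarith : 0 ≤ α' - α)]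
        exact this
      · have := cyl_compare hF.continuous hηpos hM hκ hle (by linarith [hα.2, hα'.1]) hl' hl
          hy'.1 hy.1 hy'.2.1 hy.2.1 hy'.2.2.1 hy.2.2.1
        rw [abs_of_nonneg (by linarith : 0 ≤ α - α'), abs_sub_comm (kqMean y)]
        exact this)
  refine ⟨H, hHm, hH1, hH2.trans (ENNReal.ofReal_le_ofReal ?_)⟩
  have hpi : Real.pi ≤ 3.5 := by linarith [Real.pi_lt_d2]
  have h1 : 1 + 2 * Real.pi * M / η ≤ 8 * (M / η) := by
    have h2 : 1 ≤ M / η := (one_le_div hηpos).2 hηM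
    have h3 : 2 * Real.pi * M / η = 2 * Real.pi * (M / η) := by ring
    rw [h3]
    nlinarith
  calc M * κ / η ^ 2 * (s1 + (1 + 2 * Real.pi * M / η) - s1)
      = M * κ / η ^ 2 * (1 + 2 * Real.pi * M / η) := by ring
    _ ≤ M * κ / η ^ 2 * (8 * (M / η)) := mul_le_mul_of_nonneg_left h1 (by positivity)
    _ = 8 * 800 ^ 3 * κ * M ^ 2 * L ^ 3 / ε ^ 6 := by
        rw [hη]
        field_simp
    _ ≤ 10 ^ 11 * κ * M ^ 2 * L ^ 3 / ε ^ 6 := by
        apply div_le_div_of_nonneg_right _ (by positivity)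
        have : 0 ≤ κ * M ^ 2 * L ^ 3 := by positivity
        nlinarith

theorem good_pos {F : ℝ × ℝ → ℝ × ℝ} (hF : ContDiff ℝ 1 F)
    (hper : ∀ p : ℝ × ℝ, F (p + (0, 2 * Real.pi)) = F p) {P P' P'' : ℝ → ℝ × ℝ}
    (hP : ∀ θ, HasDerivAt P (P' θ) θ) (hP' : ∀ θ, HasDerivAt P' (P'' θ) θ)
    (hPper : ∀ θ, P (θ + 2 * Real.pi) = P θ) {s1 ε κ M L : ℝ} (hε : 0 < ε) (hεL : ε ≤ L)
    (hκ0 : 0 ≤ κ) (hκε : 3200 * L * κ ≤ ε ^ 2)
    (hL : ∀ θ, nm (P'' θ) ≤ L) (hM : ∀ p : ℝ × ℝ, s1 < p.1 → nm (F p) ≤ M)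
    (hFP : ∀ p : ℝ × ℝ, s1 < p.1 → nm (F p - P p.2) ≤ κ)
    (hκ : ∀ s s' θ : ℝ, s1 < s → s1 < s' → nm (F (s, θ) - F (s', θ)) ≤ κ * |s - s'|)
    {e : ℝ × ℝ} (he : e.1 ^ 2 + e.2 ^ 2 = 1) (hout : ∀ θ, ε ≤ dot e (P θ)) :
    ∫⁻ α in Set.Ioo 0 Real.pi, (((posOrb (turn α F) s1).encard : ℕ∞) : ℝ≥0∞) ≤
      ENNReal.ofReal (10 ^ 11 * κ * M ^ 2 * L ^ 3 / ε ^ 6) := by
  obtain ⟨H, hHm, hH1, hH2⟩ :=
    good_pos_maj hF hper hP hP' hPper hε hεL hκ0 hκε hL hM hFP hκ he hout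
  exact (setLIntegral_mono hHm hH1).trans hH2

end Pool.Agent.Lib.MP_95e7ec_an
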