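import Mathlib
import Pool.Agent.Lib.MP_95e7ec_an.KqLift
import Pool.Agent.Lib.MP_95e7ec_an.KqWind
import Pool.Agent.Lib.MP_95e7ec_an.KqPos
import Pool.Agent.Lib.MP_95e7ec_an.AvgBasic

/-!
# The good shifts: few closed orbits, or none

`good_out`: when zero is far from the convex hull of the curve `P`, the closed orbits of the
turned fields in the dyadic annulus are counted by `good_pos_maj`. `good_in`: when zero is deep
inside the hull, there are none.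
-/

set_option autoImplicit false

open Set Filter Topology MeasureTheory ProbabilityTheory
open scoped ContDiff ENNReal

namespace Pool.Agent.Lib.MP_95e7ec_an

private theorem kqg_nm_cyl (p : ℝ × ℝ) : nm (cyl p) = Real.exp p.1 := by
  unfold nm cyl
  have h : (Real.exp p.1 * Real.cos p.2) ^ 2 + (Real.exp p.1 * Real.sin p.2) ^ 2 =
      Real.exp p.1 ^ 2 := by
    have := Real.sin_sq_add_cos_sq p.2
    linear_combination (Real.exp p.1 ^ 2) * this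
  simp only [h]
  rw [Real.sqrt_sq (Real.exp_pos _).le]

private theorem kqg_nm_zero : nm 0 = 0 := by simp [nm]

private theorem kqg_abs_dot {e u : ℝ × ℝ} (he : e.1 ^ 2 + e.2 ^ 2 = 1) : |dot e u| ≤ nm u := by
  unfold nm dot
  apply Real.abs_le_sqrt
  nlinarith [sq_nonneg (e.1 * u.2 - e.2 * u.1)]

private theorem kqg_dot_sub (e u w : ℝ × ℝ) : dot e (u - w) = dot e u - dot e w := by
  simp only [dot, Prod.fst_sub, Prod.snd_sub]; ring

private theorem kqg_cont_turn {v : ℝ × ℝ → ℝ × ℝ} (hv : Continuous v) (α : ℝ) :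
    Continuous (turn α v) := by
  unfold turn; fun_prop

private theorem kqg_lift {v F : ℝ × ℝ → ℝ × ℝ} {g : ℝ → ℝ} (hvF : CylField v F g)
    (hv : Continuous v) (hF : Continuous F) {s1 α : ℝ} {C : Set (ℝ × ℝ)}
    (hC : IsClosedOrbit (turn α v) C) (hs : C ⊆ {z | Real.exp s1 < nm z}) :
    ∃ (σ : ℝ → ℝ × ℝ) (T : ℝ) (k : ℤ), CylSol (turn α F) σ T k ∧
      (∀ t, s1 < (σ t).1) ∧ C = Set.range fun t => cyl (σ t) := by
  have h0 : (0 : ℝ × ℝ) ∉ C := by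
    intro h
    have h1 : Real.exp s1 < nm 0 := hs h
    rw [kqg_nm_zero] at h1
    exact absurd h1 (not_lt.2 (Real.exp_pos _).le)
  obtain ⟨σ, T, k, h1, h2⟩ := cyl_lift (hvF.turn α) (kqg_cont_turn hv α) (kqg_cont_turn hF α) hC h0
  refine ⟨σ, T, k, h1, fun t => ?_, h2⟩
  have h3 : cyl (σ t) ∈ C := by rw [h2]; exact ⟨t, rfl⟩
  have h4 : Real.exp s1 < nm (cyl (σ t)) := hs h3
  rw [kqg_nm_cyl] at h4
  exact Real.exp_lt_exp.1 h4

private theorem kqg_rev {F : ℝ × ℝ → ℝ × ℝ} {σ : ℝ → ℝ × ℝ} {T : ℝ} {k : ℤ}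
    (h : CylSol F σ T k) : CylSol (fun p => -F p) (fun t => σ (-t)) T (-k) := by
  obtain ⟨hT, hd, hp, s, t, hst⟩ := h
  refine ⟨hT, fun t => ?_, fun t => ?_, -s, -t, by simpa using hst⟩
  · have h1 := (hd (-t)).scomp t (hasDerivAt_neg t)
    have h2 : (-1 : ℝ) • F (σ (-t)) = -F (σ (-t)) := by rw [neg_smul, one_smul]
    rw [h2] at h1
    exact h1
  · have h1 := hp (-(t + T))
    have h2 : -(t + T) + T = -t := by ring
    rw [h2] at h1
    show σ (-(t + T)) = σ (-t) + ((0 : ℝ), 2 * Real.pi * ((-k : ℤ) : ℝ))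
    rw [h1]
    ext
    · simp
    · simp

private theorem kqg_turn_neg (α : ℝ) (F : ℝ × ℝ → ℝ × ℝ) :
    turn α (fun p => -F p) = fun p => -turn α F p := by
  funext p
  ext
  · simp only [turn, Prod.fst_neg, Prod.snd_neg]; ring
  · simp only [turn, Prod.fst_neg, Prod.snd_neg]; ring

private theorem kqg_nm_neg (u : ℝ × ℝ) : nm (-u) = nm u := by simp [nm]

theorem good_out {v F : ℝ × ℝ → ℝ × ℝ} {g : ℝ → ℝ} (hvF : CylField v F g) (hv : Continuous v)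
    (hF : ContDiff ℝ 1 F)
    (hper : ∀ p : ℝ × ℝ, F (p + (0, 2 * Real.pi)) = F p) {P P' P'' : ℝ → ℝ × ℝ}
    (hP : ∀ θ, HasDerivAt P (P' θ) θ) (hP' : ∀ θ, HasDerivAt P' (P'' θ) θ)
    (hPper : ∀ θ, P (θ + 2 * Real.pi) = P θ) {s1 ε κ M L : ℝ} (hε : 0 < ε) (hεL : ε ≤ L)
    (hκ0 : 0 ≤ κ) (hκε : 3200 * L * κ ≤ ε ^ 2)
    (hL : ∀ θ, nm (P'' θ) ≤ L) (hM : ∀ p : ℝ × ℝ, s1 < p.1 → nm (F p) ≤ M)
    (hFP : ∀ p : ℝ × ℝ, s1 < p.1 → nm (F p - P p.2) ≤ κ)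
    (hκ : ∀ s s' θ : ℝ, s1 < s → s1 < s' → nm (F (s, θ) - F (s', θ)) ≤ κ * |s - s'|)
    {e : ℝ × ℝ} (he : e.1 ^ 2 + e.2 ^ 2 = 1) (hout : ∀ θ, ε ≤ dot e (P θ)) :
    ∫⁻ α in Set.Ioo 0 Real.pi, ((({C | IsClosedOrbit (turn α v) C ∧
        C ⊆ {z | Real.exp s1 < nm z} ∧ ∃ z ∈ C, nm z ≤ Real.exp (s1 + 1)} :
        Set (Set (ℝ × ℝ))).encard : ℕ∞) : ℝ≥0∞) ≤
      ENNReal.ofReal (2 * 10 ^ 11 * κ * M ^ 2 * L ^ 3 / ε ^ 6) := by
  have hL0 : 0 < L := hε.trans_le hεL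
  -- the field does not vanish
  have hne : ∀ p : ℝ × ℝ, s1 < p.1 → F p ≠ 0 := by
    intro p hp h0
    have h1 := hFP p hp
    rw [h0, zero_sub, kqg_nm_neg] at h1
    have h2 := kqg_abs_dot (u := P p.2) he
    have h3 := hout p.2
    have h4 := le_abs_self (dot e (P p.2))
    have h5 : ε ≤ κ := by linarith
    nlinarith [mul_le_mul hεL h5 hε.le hL0.le]
  -- the two counts
  obtain ⟨H1, hH1m, hH1, hH1i⟩ := good_pos_maj hF hper hP hP' hPper hε hεL hκ0 hκε hL hM hFP hκ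
    he hout
  have hFn : ContDiff ℝ 1 (fun p => -F p) := hF.neg
  obtain ⟨H2, hH2m, hH2, hH2i⟩ := good_pos_maj (F := fun p => -F p) (P := fun θ => -P θ)
    (P' := fun θ => -P' θ) (P'' := fun θ => -P'' θ) (s1 := s1) (ε := ε) (κ := κ) (M := M) (L := L)
    (e := -e) hFn (fun p => by rw [hper]) (fun θ => (hP θ).neg) (fun θ => (hP' θ).neg)
    (fun θ => by rw [hPper]) hε hεL hκ0 hκε (fun θ => by rw [kqg_nm_neg]; exact hL θ)
    (fun p hp => by rw [kqg_nm_neg]; exact hM p hp)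
    (fun p hp => by
      have h1 : -F p - -P p.2 = -(F p - P p.2) := by abel
      rw [h1, kqg_nm_neg]; exact hFP p hp)
    (fun s s' θ hs hs' => by
      have h1 : -F (s, θ) - -F (s', θ) = -(F (s, θ) - F (s', θ)) := by abel
      rw [h1, kqg_nm_neg]; exact hκ s s' θ hs hs')
    (by simpa using he)
    (fun θ => by
      have h1 : dot (-e) (-P θ) = dot e (P θ) := by simp [dot]
      rw [h1]; exact hout θ)
  -- the inclusion
  have hsub : ∀ α : ℝ, {C | IsClosedOrbit (turn α v) C ∧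
        C ⊆ {z | Real.exp s1 < nm z} ∧ ∃ z ∈ C, nm z ≤ Real.exp (s1 + 1)} ⊆
      posOrb (turn α F) s1 ∪ posOrb (turn α (fun p => -F p)) s1 := by
    rintro α C ⟨hC, hCs, z, hz, hz1⟩
    obtain ⟨σ, T, k, h1, h2, h3⟩ := kqg_lift hvF hv hF.continuous hC hCs
    rw [h3] at hz
    obtain ⟨t0, rfl⟩ := hz
    simp only [kqg_nm_cyl] at hz1
    have hz2 := Real.exp_le_exp.1 hz1
    rcases lt_trichotomy k 0 with hk | hk | hk
    · right
      refine ⟨fun t => σ (-t), T, -k, by omega, ?_, fun t => h2 (-t), ⟨-t0, by simpa using hz2⟩,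
        ?_⟩
      · rw [kqg_turn_neg]; exact kqg_rev h1
      · rw [h3]
        ext x
        constructor
        · rintro ⟨t, rfl⟩
          exact ⟨-t, by simp⟩
        · rintro ⟨t, rfl⟩
          exact ⟨-t, rfl⟩
    · exfalso
      subst hk
      exact cyl_no_zero (contDiff_turn hF α)
        (fun p hp => fun h0 => hne p hp (turn_eq_zero.1 h0)) h1 h2
    · left
      exact ⟨σ, T, k, hk, h1, h2, ⟨t0, hz2⟩, h3⟩
  have hX : 0 ≤ 10 ^ 11 * κ * M ^ 2 * L ^ 3 / ε ^ 6 := by positivity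
  calc ∫⁻ α in Set.Ioo 0 Real.pi, ((({C | IsClosedOrbit (turn α v) C ∧
        C ⊆ {z | Real.exp s1 < nm z} ∧ ∃ z ∈ C, nm z ≤ Real.exp (s1 + 1)} :
        Set (Set (ℝ × ℝ))).encard : ℕ∞) : ℝ≥0∞)
      ≤ ∫⁻ α in Set.Ioo 0 Real.pi, (H1 α + H2 α) := by
        apply setLIntegral_mono (hH1m.add hH2m)
        intro α hα
        have h1 := (Set.encard_le_encard (hsub α)).trans (Set.encard_union_le _ _)
        have h2 : ((({C | IsClosedOrbit (turn α v) C ∧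
            C ⊆ {z | Real.exp s1 < nm z} ∧ ∃ z ∈ C, nm z ≤ Real.exp (s1 + 1)} :
            Set (Set (ℝ × ℝ))).encard : ℕ∞) : ℝ≥0∞) ≤
            (((posOrb (turn α F) s1).encard + (posOrb (turn α (fun p => -F p)) s1).encard :
              ℕ∞) : ℝ≥0∞) := by exact_mod_cast h1
        refine h2.trans ?_
        rw [ENat.toENNReal_add]
        exact add_le_add (hH1 α hα) (hH2 α hα)
    _ = (∫⁻ α in Set.Ioo 0 Real.pi, H1 α) + ∫⁻ α in Set.Ioo 0 Real.pi, H2 α :=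
        lintegral_add_left hH1m _
    _ ≤ ENNReal.ofReal (10 ^ 11 * κ * M ^ 2 * L ^ 3 / ε ^ 6) +
        ENNReal.ofReal (10 ^ 11 * κ * M ^ 2 * L ^ 3 / ε ^ 6) := add_le_add hH1i hH2i
    _ = ENNReal.ofReal (2 * 10 ^ 11 * κ * M ^ 2 * L ^ 3 / ε ^ 6) := by
        rw [← ENNReal.ofReal_add hX hX]
        congr 1
        ring

theorem good_in {v F : ℝ × ℝ → ℝ × ℝ} {g : ℝ → ℝ} (hvF : CylField v F g) (hv : Continuous v)
    (hF : ContDiff ℝ 1 F)
    (hper : ∀ p : ℝ × ℝ, F (p + (0, 2 * Real.pi)) = F p) {P : ℝ → ℝ × ℝ} {s1 ε κ : ℝ}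
    (hε : 0 < ε) (hκε : κ ≤ ε / 2)
    (hFP : ∀ p : ℝ × ℝ, s1 < p.1 → nm (F p - P p.2) ≤ κ)
    (hin : ∀ e : ℝ × ℝ, e.1 ^ 2 + e.2 ^ 2 = 1 → ∃ θ, dot e (P θ) ≤ -ε)
    (hne : ∀ θ, ε ≤ nm (P θ)) (α : ℝ) {C : Set (ℝ × ℝ)} (hC : IsClosedOrbit (turn α v) C) :
    ¬ C ⊆ {z | Real.exp s1 < nm z} := by
  intro hCs
  obtain ⟨σ, T, k, h1, h2, h3⟩ := kqg_lift hvF hv hF.continuous hC hCs
  have hperT : ∀ p : ℝ × ℝ, turn α F (p + (0, 2 * Real.pi)) = turn α F p := by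
    intro p
    simp only [turn, hper]
  have hdot : ∀ p : ℝ × ℝ, (turn α F p).2 = dot (Real.sin α, Real.cos α) (F p) := by
    intro p
    simp only [turn, dot]
  have he1 : (Real.sin α, Real.cos α).1 ^ 2 + (Real.sin α, Real.cos α).2 ^ 2 = 1 :=
    Real.sin_sq_add_cos_sq α
  have he2 : (-(Real.sin α, Real.cos α)).1 ^ 2 + (-(Real.sin α, Real.cos α)).2 ^ 2 = 1 := by
    simp
  -- closeness
  have hclose : ∀ s θ, s1 < s →
      |dot (Real.sin α, Real.cos α) (F (s, θ)) - dot (Real.sin α, Real.cos α) (P θ)| ≤ κ := by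
    intro s θ hs
    have h4 := kqg_abs_dot (u := F (s, θ) - P θ) he1
    rw [kqg_dot_sub] at h4
    exact h4.trans (hFP (s, θ) hs)
  obtain ⟨θ1, hθ1⟩ := hin _ he1
  obtain ⟨θ2, hθ2⟩ := hin _ he2
  have hk1 : k ≤ 0 := by
    refine cyl_wind_le hperT (θ1 := θ1) (fun s hs => ?_) h1 h2
    have h4 := abs_le.1 (hclose s θ1 hs)
    rw [hdot]
    linarith
  have hk2 : 0 ≤ k := by
    refine cyl_wind_ge hperT (θ1 := θ2) (fun s hs => ?_) h1 h2
    have h4 := abs_le.1 (hclose s θ2 hs)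
    have h5 : dot (-(Real.sin α, Real.cos α)) (P θ2) = -dot (Real.sin α, Real.cos α) (P θ2) := by
      simp only [dot, Prod.fst_neg, Prod.snd_neg]; ring
    rw [h5] at hθ2
    rw [hdot]
    linarith
  have hk : k = 0 := le_antisymm hk1 hk2
  subst hk
  refine cyl_no_zero (contDiff_turn hF α) (fun p hp h0 => ?_) h1 h2
  rw [turn_eq_zero] at h0
  have h4 := hFP p hp
  rw [h0, zero_sub, kqg_nm_neg] at h4
  have h5 := hne p.2
  linarith

end Pool.Agent.Lib.MP_95e7ec_an
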