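import Mathlib
import Pool.Agent.Lib.MP_95e7ec_an.KqDefs
import Pool.Agent.Lib.MP_95e7ec_an.KosEvenVec

/-!
# Derivative bounds for the field in logarithmic polar coordinates (task Q13)
-/

set_option autoImplicit false

open Set Filter Topology MeasureTheory ProbabilityTheory
open scoped ContDiff ENNReal

namespace Pool.Agent.Lib.MP_95e7ec_an

/-- the coefficient -/
noncomputable def q13_c (i j l : ℕ) : ℝ :=
  Real.sqrt (((i + j + l).factorial : ℝ) / (i.factorial * j.factorial * l.factorial))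

/-- the normalised monomial -/
noncomputable def q13_M (i j l : ℕ) (x0 x1 x2 : ℝ) : ℝ := q13_c i j l * (x0 ^ l * (x1 ^ i * x2 ^ j))

theorem q13_c_l (i j l : ℕ) : q13_c i j (l + 1) * (l + 1) =
    Real.sqrt ((l + 1) * (i + j + (l + 1))) * q13_c i j l := by
  unfold q13_c
  have h1 : ((l : ℝ) + 1) = Real.sqrt (((l : ℝ) + 1) ^ 2) := (Real.sqrt_sq (by positivity)).symm
  nth_rewrite 1 [h1]
  rw [← Real.sqrt_mul (by positivity), ← Real.sqrt_mul (by positivity)]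
  congr 1
  rw [show i + j + (l + 1) = (i + j + l) + 1 by ring, Nat.factorial_succ, Nat.factorial_succ l]
  push_cast
  field_simp
  ring

theorem q13_c_i (i j l : ℕ) : q13_c (i + 1) j l * (i + 1) =
    Real.sqrt ((i + 1) * ((i + 1) + j + l)) * q13_c i j l := by
  unfold q13_c
  have h1 : ((i : ℝ) + 1) = Real.sqrt (((i : ℝ) + 1) ^ 2) := (Real.sqrt_sq (by positivity)).symm
  nth_rewrite 1 [h1]
  rw [← Real.sqrt_mul (by positivity), ← Real.sqrt_mul (by positivity)]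
  congr 1
  rw [show i + 1 + j + l = (i + j + l) + 1 by ring, Nat.factorial_succ, Nat.factorial_succ i]
  push_cast
  field_simp
  ring

theorem q13_c_j (i j l : ℕ) : q13_c i (j + 1) l * (j + 1) =
    Real.sqrt ((j + 1) * (i + (j + 1) + l)) * q13_c i j l := by
  unfold q13_c
  have h1 : ((j : ℝ) + 1) = Real.sqrt (((j : ℝ) + 1) ^ 2) := (Real.sqrt_sq (by positivity)).symm
  nth_rewrite 1 [h1]
  rw [← Real.sqrt_mul (by positivity), ← Real.sqrt_mul (by positivity)]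
  congr 1
  rw [show i + (j + 1) + l = (i + j + l) + 1 by ring, Nat.factorial_succ, Nat.factorial_succ j]
  push_cast
  field_simp
  ring

theorem q13_M_sq (i j l : ℕ) (x0 x1 x2 : ℝ) :
    q13_M i j l x0 x1 x2 ^ 2 ≤ (x0 ^ 2 + (x1 ^ 2 + x2 ^ 2)) ^ (i + j + l) := by
  have h1 : q13_M i j l x0 x1 x2 ^ 2 =
      ((i + j + l).choose l : ℝ) * ((i + j).choose i : ℝ) *
        ((x0 ^ 2) ^ l * ((x1 ^ 2) ^ i * (x2 ^ 2) ^ j)) := by
    unfold q13_M q13_c
    rw [mul_pow, Real.sq_sqrt (by positivity)]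
    have h2 : ((i + j + l).factorial : ℝ) / (i.factorial * j.factorial * l.factorial) =
        ((i + j + l).choose l : ℝ) * ((i + j).choose i : ℝ) := by
      rw [Nat.cast_choose ℝ (show l ≤ i + j + l by omega), Nat.cast_choose ℝ
        (show i ≤ i + j by omega), show i + j + l - l = i + j by omega,
        show i + j - i = j by omega]
      have e1 : ((i + j).factorial : ℝ) ≠ 0 := by exact_mod_cast Nat.factorial_ne_zero _
      field_simp
    rw [h2]
    ring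
  have h3 : ((i + j).choose i : ℝ) * ((x1 ^ 2) ^ i * (x2 ^ 2) ^ j) ≤ (x1 ^ 2 + x2 ^ 2) ^ (i + j) := by
    rw [add_pow]
    have := Finset.single_le_sum (f := fun m => (x1 ^ 2) ^ m * (x2 ^ 2) ^ (i + j - m) *
      ((i + j).choose m : ℝ)) (fun m _ => by positivity)
      (Finset.mem_range.2 (show i < i + j + 1 by omega))
    simp only [show i + j - i = j by omega] at this
    refine le_trans (le_of_eq ?_) this
    ring
  have h4 : ((i + j + l).choose l : ℝ) * ((x0 ^ 2) ^ l * (x1 ^ 2 + x2 ^ 2) ^ (i + j)) ≤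
      (x0 ^ 2 + (x1 ^ 2 + x2 ^ 2)) ^ (i + j + l) := by
    rw [add_pow (x0 ^ 2)]
    have := Finset.single_le_sum (f := fun m => (x0 ^ 2) ^ m *
      (x1 ^ 2 + x2 ^ 2) ^ (i + j + l - m) * ((i + j + l).choose m : ℝ))
      (fun m _ => by positivity) (Finset.mem_range.2 (show l < i + j + l + 1 by omega))
    simp only [show i + j + l - l = i + j by omega] at this
    refine le_trans (le_of_eq ?_) this
    ring
  rw [h1]
  refine le_trans ?_ h4
  have h5 : ((i + j + l).choose l : ℝ) * ((i + j).choose i : ℝ) *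
        ((x0 ^ 2) ^ l * ((x1 ^ 2) ^ i * (x2 ^ 2) ^ j)) =
      ((i + j + l).choose l : ℝ) * ((x0 ^ 2) ^ l *
        (((i + j).choose i : ℝ) * ((x1 ^ 2) ^ i * (x2 ^ 2) ^ j))) := by ring
  rw [h5]
  gcongr

/-- the bound on the annulus -/
theorem q13_M_le {n : ℕ} (hn : 1 ≤ n) {i j l : ℕ} (hN : i + j + l ≤ n) {u : ℝ} (hu0 : 0 ≤ u)
    (hu : u ≤ 1 / n) (θ : ℝ) : |q13_M i j l u (Real.cos θ) (Real.sin θ)| ≤ 2 := by
  have hn' : (1 : ℝ) ≤ n := by exact_mod_cast hn
  have h1 := q13_M_sq i j l u (Real.cos θ) (Real.sin θ)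
  rw [Real.cos_sq_add_sin_sq] at h1
  have h2 : (u ^ 2 + 1) ^ (i + j + l) ≤ (u ^ 2 + 1) ^ n :=
    pow_le_pow_right₀ (by nlinarith [sq_nonneg u]) hN
  have h3 : u ^ 2 ≤ 1 / n := by
    have h31 : (1 : ℝ) / n ≤ 1 := by rw [div_le_one (by linarith)]; exact hn'
    nlinarith
  have h4 : (u ^ 2 + 1) ^ n ≤ Real.exp 1 := by
    calc (u ^ 2 + 1) ^ n ≤ (Real.exp (1 / n)) ^ n := by
          apply pow_le_pow_left₀ (by positivity)
          have := Real.add_one_le_exp ((1 : ℝ) / n)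
          linarith
      _ = Real.exp 1 := by
          rw [← Real.exp_nat_mul]
          congr 1
          field_simp
  have h5 := Real.exp_one_lt_d9
  have h6 : q13_M i j l u (Real.cos θ) (Real.sin θ) ^ 2 ≤ 2 ^ 2 := by linarith
  exact abs_le_of_sq_le_sq h6 (by norm_num)

/-- the derivative in the first variable -/
theorem q13_M_deriv0 (i j l : ℕ) (u x1 x2 : ℝ) :
    HasDerivAt (fun u => q13_M i j l u x1 x2)
      (Real.sqrt (l * (i + j + l)) * q13_M i j (l - 1) u x1 x2) u := by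
  unfold q13_M
  rcases l with _ | l
  · simp only [pow_zero, one_mul, Nat.cast_zero, zero_mul, Real.sqrt_zero]
    exact hasDerivAt_const _ _
  · have h1 := ((hasDerivAt_pow (l + 1) u).mul_const (x1 ^ i * x2 ^ j)).const_mul
      (q13_c i j (l + 1))
    refine h1.congr_deriv ?_
    have h2 := q13_c_l i j l
    push_cast
    calc q13_c i j (l + 1) * (((l : ℝ) + 1) * u ^ l * (x1 ^ i * x2 ^ j))
        = (q13_c i j (l + 1) * ((l : ℝ) + 1)) * (u ^ l * (x1 ^ i * x2 ^ j)) := by ring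
      _ = _ := by rw [h2]; ring

/-- the derivative in the angle -/
noncomputable def q13_D (i j l : ℕ) (u θ : ℝ) : ℝ :=
  -Real.sin θ * (Real.sqrt (i * (i + j + l)) *
    q13_M (i - 1) j l u (Real.cos θ) (Real.sin θ)) +
  Real.cos θ * (Real.sqrt (j * (i + j + l)) *
    q13_M i (j - 1) l u (Real.cos θ) (Real.sin θ))

theorem q13_M_derivi (i j l : ℕ) (x0 x x2 : ℝ) :
    HasDerivAt (fun x => q13_M i j l x0 x x2)
      (Real.sqrt (i * (i + j + l)) * q13_M (i - 1) j l x0 x x2) x := by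
  unfold q13_M
  rcases i with _ | i
  · simp only [pow_zero, one_mul, Nat.cast_zero, zero_mul, Real.sqrt_zero]
    exact hasDerivAt_const _ _
  · have h1 := (((hasDerivAt_pow (i + 1) x).mul_const (x2 ^ j)).const_mul (x0 ^ l)).const_mul
      (q13_c (i + 1) j l)
    refine h1.congr_deriv ?_
    have h2 := q13_c_i i j l
    push_cast
    calc q13_c (i + 1) j l * (x0 ^ l * (((i : ℝ) + 1) * x ^ i * x2 ^ j))
        = (q13_c (i + 1) j l * ((i : ℝ) + 1)) * (x0 ^ l * (x ^ i * x2 ^ j)) := by ring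
      _ = _ := by rw [h2]; ring

theorem q13_M_derivj (i j l : ℕ) (x0 x1 x : ℝ) :
    HasDerivAt (fun x => q13_M i j l x0 x1 x)
      (Real.sqrt (j * (i + j + l)) * q13_M i (j - 1) l x0 x1 x) x := by
  unfold q13_M
  rcases j with _ | j
  · simp only [pow_zero, one_mul, Nat.cast_zero, zero_mul, Real.sqrt_zero]
    exact hasDerivAt_const _ _
  · have h1 := (((hasDerivAt_pow (j + 1) x).const_mul (x1 ^ i)).const_mul (x0 ^ l)).const_mul
      (q13_c i (j + 1) l)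
    refine h1.congr_deriv ?_
    have h2 := q13_c_j i j l
    push_cast
    calc q13_c i (j + 1) l * (x0 ^ l * (x1 ^ i * (((j : ℝ) + 1) * x ^ j)))
        = (q13_c i (j + 1) l * ((j : ℝ) + 1)) * (x0 ^ l * (x1 ^ i * x ^ j)) := by ring
      _ = _ := by rw [h2]; ring

theorem q13_hasDerivAt (i j l : ℕ) (u θ : ℝ) :
    HasDerivAt (fun θ => q13_M i j l u (Real.cos θ) (Real.sin θ)) (q13_D i j l u θ) θ := by
  unfold q13_M
  have hc : HasDerivAt (fun θ => Real.cos θ ^ i)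
      ((i : ℝ) * Real.cos θ ^ (i - 1) * -Real.sin θ) θ := (Real.hasDerivAt_cos θ).pow i
  have hs : HasDerivAt (fun θ => Real.sin θ ^ j)
      ((j : ℝ) * Real.sin θ ^ (j - 1) * Real.cos θ) θ := (Real.hasDerivAt_sin θ).pow j
  have hcs : HasDerivAt (fun θ => Real.cos θ ^ i * Real.sin θ ^ j)
      ((i : ℝ) * Real.cos θ ^ (i - 1) * -Real.sin θ * Real.sin θ ^ j +
        Real.cos θ ^ i * ((j : ℝ) * Real.sin θ ^ (j - 1) * Real.cos θ)) θ := hc.mul hs
  have h := (hcs.const_mul (u ^ l)).const_mul (q13_c i j l)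
  refine h.congr_deriv ?_
  unfold q13_D q13_M
  have hi : q13_c i j l * (i : ℝ) * Real.cos θ ^ (i - 1) =
      Real.sqrt (i * (i + j + l)) * q13_c (i - 1) j l * Real.cos θ ^ (i - 1) := by
    rcases i with _ | i
    · simp
    · have h2 := q13_c_i i j l
      push_cast
      rw [h2]
  have hj : q13_c i j l * (j : ℝ) * Real.sin θ ^ (j - 1) =
      Real.sqrt (j * (i + j + l)) * q13_c i (j - 1) l * Real.sin θ ^ (j - 1) := by
    rcases j with _ | j
    · simp
    · have h2 := q13_c_j i j l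
      push_cast
      rw [h2]
  linear_combination (-(u ^ l) * Real.sin θ * Real.sin θ ^ j) * hi +
    (u ^ l * Real.cos θ * Real.cos θ ^ i) * hj

/-- the second derivative in the angle -/
noncomputable def q13_E (i j l : ℕ) (u θ : ℝ) : ℝ :=
  (-Real.cos θ * (Real.sqrt (i * (i + j + l)) *
    q13_M (i - 1) j l u (Real.cos θ) (Real.sin θ)) +
  -Real.sin θ * (Real.sqrt (i * (i + j + l)) * q13_D (i - 1) j l u θ)) +
  (-Real.sin θ * (Real.sqrt (j * (i + j + l)) *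
    q13_M i (j - 1) l u (Real.cos θ) (Real.sin θ)) +
  Real.cos θ * (Real.sqrt (j * (i + j + l)) * q13_D i (j - 1) l u θ))

theorem q13_hasDerivAt2 (i j l : ℕ) (u θ : ℝ) :
    HasDerivAt (fun θ => q13_D i j l u θ) (q13_E i j l u θ) θ := by
  unfold q13_D q13_E
  exact ((Real.hasDerivAt_sin θ).neg.mul ((q13_hasDerivAt (i - 1) j l u θ).const_mul _)).add
    ((Real.hasDerivAt_cos θ).mul ((q13_hasDerivAt i (j - 1) l u θ).const_mul _))

theorem q13_sqrt_le {n a b : ℕ} (ha : a ≤ n) (hb : b ≤ n) : Real.sqrt ((a : ℝ) * b) ≤ n := by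
  rw [Real.sqrt_le_left (by positivity)]
  have h1 : (a : ℝ) ≤ n := by exact_mod_cast ha
  have h2 : (b : ℝ) ≤ n := by exact_mod_cast hb
  have h3 : (0 : ℝ) ≤ b := by positivity
  nlinarith

theorem q13_term {c α m A B : ℝ} (hc : |c| ≤ 1) (hα0 : 0 ≤ α) (hα : α ≤ A) (hm : |m| ≤ B) :
    |c * (α * m)| ≤ A * B := by
  rw [abs_mul, abs_mul, abs_of_nonneg hα0]
  have h1 : α * |m| ≤ A * B := mul_le_mul hα hm (abs_nonneg _) (hα0.trans hα)
  have h2 : 0 ≤ α * |m| := by positivity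
  have h3 := abs_nonneg c
  nlinarith

theorem q13_D_le {n : ℕ} (hn : 1 ≤ n) {i j l : ℕ} (hN : i + j + l ≤ n) {u : ℝ} (hu0 : 0 ≤ u)
    (hu : u ≤ 1 / n) (θ : ℝ) : |q13_D i j l u θ| ≤ 4 * n := by
  unfold q13_D
  refine (abs_add_le _ _).trans ?_
  have h1 : Real.sqrt ((i : ℝ) * (i + j + l)) ≤ n := by
    have := q13_sqrt_le (n := n) (a := i) (b := i + j + l) (by omega) hN
    push_cast at this
    exact this
  have h2 : Real.sqrt ((j : ℝ) * (i + j + l)) ≤ n := by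
    have := q13_sqrt_le (n := n) (a := j) (b := i + j + l) (by omega) hN
    push_cast at this
    exact this
  have h3 := q13_term (c := -Real.sin θ) (by rw [abs_neg]; exact Real.abs_sin_le_one θ)
    (Real.sqrt_nonneg _) h1 (q13_M_le hn (i := i - 1) (j := j) (l := l) (by omega) hu0 hu θ)
  have h4 := q13_term (c := Real.cos θ) (Real.abs_cos_le_one θ)
    (Real.sqrt_nonneg _) h2 (q13_M_le hn (i := i) (j := j - 1) (l := l) (by omega) hu0 hu θ)
  linarith

theorem q13_E_le {n : ℕ} (hn : 1 ≤ n) {i j l : ℕ} (hN : i + j + l ≤ n) {u : ℝ} (hu0 : 0 ≤ u)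
    (hu : u ≤ 1 / n) (θ : ℝ) : |q13_E i j l u θ| ≤ 12 * n ^ 2 := by
  have hn' : (1 : ℝ) ≤ n := by exact_mod_cast hn
  unfold q13_E
  have h1 : Real.sqrt ((i : ℝ) * (i + j + l)) ≤ n := by
    have := q13_sqrt_le (n := n) (a := i) (b := i + j + l) (by omega) hN
    push_cast at this
    exact this
  have h2 : Real.sqrt ((j : ℝ) * (i + j + l)) ≤ n := by
    have := q13_sqrt_le (n := n) (a := j) (b := i + j + l) (by omega) hN
    push_cast at this
    exact this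
  have hs := Real.abs_sin_le_one θ
  have hc := Real.abs_cos_le_one θ
  have h3 := q13_term (c := -Real.cos θ) (by rw [abs_neg]; exact hc)
    (Real.sqrt_nonneg _) h1 (q13_M_le hn (i := i - 1) (j := j) (l := l) (by omega) hu0 hu θ)
  have h4 := q13_term (c := -Real.sin θ) (by rw [abs_neg]; exact hs)
    (Real.sqrt_nonneg _) h1 (q13_D_le hn (i := i - 1) (j := j) (l := l) (by omega) hu0 hu θ)
  have h5 := q13_term (c := -Real.sin θ) (by rw [abs_neg]; exact hs)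
    (Real.sqrt_nonneg _) h2 (q13_M_le hn (i := i) (j := j - 1) (l := l) (by omega) hu0 hu θ)
  have h6 := q13_term (c := Real.cos θ) hc
    (Real.sqrt_nonneg _) h2 (q13_D_le hn (i := i) (j := j - 1) (l := l) (by omega) hu0 hu θ)
  refine (abs_add_le _ _).trans ?_
  refine (add_le_add (abs_add_le _ _) (abs_add_le _ _)).trans ?_
  nlinarith

/-- the modulus of continuity in the radial variable -/
theorem q13_M_sub {n : ℕ} (hn : 1 ≤ n) {i j l : ℕ} (hN : i + j + l ≤ n) {u u' : ℝ}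
    (hu0 : 0 ≤ u) (hu : u ≤ 1 / n) (hu0' : 0 ≤ u') (hu' : u' ≤ 1 / n) (θ : ℝ) :
    |q13_M i j l u (Real.cos θ) (Real.sin θ) - q13_M i j l u' (Real.cos θ) (Real.sin θ)| ≤
      2 * n * |u - u'| := by
  have h1 : Real.sqrt ((l : ℝ) * (i + j + l)) ≤ n := by
    have := q13_sqrt_le (n := n) (a := l) (b := i + j + l) (by omega) hN
    push_cast at this
    exact this
  have h2 : ∀ v ∈ Icc (0 : ℝ) (1 / n),
      ‖Real.sqrt ((l : ℝ) * (i + j + l)) *
        q13_M i j (l - 1) v (Real.cos θ) (Real.sin θ)‖ ≤ 2 * n := by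
    intro v hv
    rw [Real.norm_eq_abs]
    have h3 := q13_term (c := 1) (by simp) (Real.sqrt_nonneg _) h1
      (q13_M_le hn (i := i) (j := j) (l := l - 1) (by omega) hv.1 hv.2 θ)
    rw [one_mul] at h3
    linarith
  have h4 := (convex_Icc (0 : ℝ) (1 / n)).norm_image_sub_le_of_norm_hasDerivWithin_le
    (fun v _ => (q13_M_deriv0 i j l v (Real.cos θ) (Real.sin θ)).hasDerivWithinAt) h2
    ⟨hu0', hu'⟩ ⟨hu0, hu⟩
  rw [Real.norm_eq_abs, Real.norm_eq_abs] at h4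
  exact h4

/-! ### the combination -/

/-- the combination of the weights -/
noncomputable def q13_L {n : ℕ} (ν : ℝ) (a : KSp n) (G H : KIdx n → ℝ) : ℝ × ℝ :=
  (ν * ∑ p, ((a p).1 * G p + (a p).2 * H p), ν * ∑ p, ((a p).2 * G p - (a p).1 * H p))

theorem q13_nm_le (x : ℝ × ℝ) : nm x ≤ |x.1| + |x.2| := by
  unfold nm
  rw [Real.sqrt_le_left (by positivity)]
  have h1 := sq_abs x.1
  have h2 := sq_abs x.2
  nlinarith [abs_nonneg x.1, abs_nonneg x.2, mul_nonneg (abs_nonneg x.1) (abs_nonneg x.2)]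

theorem q13_L_le {n : ℕ} {ν : ℝ} (hν : 0 ≤ ν) (a : KSp n) {G H : KIdx n → ℝ} {B : ℝ}
    (hB : 0 ≤ B) (hG : ∀ p, |G p| ≤ B) (hH : ∀ p, |H p| ≤ B) :
    nm (q13_L ν a G H) ≤ 2 * ν * B * kS a := by
  refine (q13_nm_le _).trans ?_
  unfold q13_L
  simp only
  have hS : ∑ p, (|(a p).1| + |(a p).2|) ≤ kS a := by unfold kS; linarith
  have h1 : |ν * ∑ p, ((a p).1 * G p + (a p).2 * H p)| ≤ ν * B * kS a := by
    rw [abs_mul, abs_of_nonneg hν, mul_assoc]
    refine mul_le_mul_of_nonneg_left ?_ hν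
    refine (Finset.abs_sum_le_sum_abs _ _).trans ?_
    refine le_trans ?_ (mul_le_mul_of_nonneg_left hS hB)
    rw [Finset.mul_sum]
    refine Finset.sum_le_sum fun p _ => ?_
    refine (abs_add_le _ _).trans ?_
    rw [abs_mul, abs_mul]
    have := mul_le_mul_of_nonneg_left (hG p) (abs_nonneg (a p).1)
    have := mul_le_mul_of_nonneg_left (hH p) (abs_nonneg (a p).2)
    linarith
  have h2 : |ν * ∑ p, ((a p).2 * G p - (a p).1 * H p)| ≤ ν * B * kS a := by
    rw [abs_mul, abs_of_nonneg hν, mul_assoc]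
    refine mul_le_mul_of_nonneg_left ?_ hν
    refine (Finset.abs_sum_le_sum_abs _ _).trans ?_
    refine le_trans ?_ (mul_le_mul_of_nonneg_left hS hB)
    rw [Finset.mul_sum]
    refine Finset.sum_le_sum fun p _ => ?_
    refine (abs_sub _ _).trans ?_
    rw [abs_mul, abs_mul]
    have := mul_le_mul_of_nonneg_left (hG p) (abs_nonneg (a p).2)
    have := mul_le_mul_of_nonneg_left (hH p) (abs_nonneg (a p).1)
    linarith
  linarith

theorem q13_L_sub {n : ℕ} (ν : ℝ) (a : KSp n) (G H G' H' : KIdx n → ℝ) :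
    q13_L ν a G H - q13_L ν a G' H' = q13_L ν a (fun p => G p - G' p) (fun p => H p - H' p) := by
  unfold q13_L
  rw [Prod.mk_sub_mk, ← mul_sub, ← mul_sub, ← Finset.sum_sub_distrib, ← Finset.sum_sub_distrib]
  refine congrArg₂ Prod.mk (congrArg (fun x => ν * x) (Finset.sum_congr rfl fun p _ => ?_))
    (congrArg (fun x => ν * x) (Finset.sum_congr rfl fun p _ => ?_))
  · ring
  · ring

theorem q13_L_deriv {n : ℕ} (ν : ℝ) (a : KSp n) {G H : ℝ → KIdx n → ℝ} {G' H' : KIdx n → ℝ}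
    {θ : ℝ} (hG : ∀ p, HasDerivAt (fun θ => G θ p) (G' p) θ)
    (hH : ∀ p, HasDerivAt (fun θ => H θ p) (H' p) θ) :
    HasDerivAt (fun θ => q13_L ν a (G θ) (H θ)) (q13_L ν a G' H') θ := by
  unfold q13_L
  refine HasDerivAt.prodMk ?_ ?_
  · exact (HasDerivAt.fun_sum fun p _ => ((hG p).const_mul _).add ((hH p).const_mul _)).const_mul _
  · exact (HasDerivAt.fun_sum fun p _ => ((hG p).const_mul _).sub ((hH p).const_mul _)).const_mul _

/-- the weight -/
noncomputable def q13_w {n : ℕ} (p : KIdx n) (u θ : ℝ) : ℝ :=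
  q13_M (p.1.1 : ℕ) (p.1.2 : ℕ) (n - (p.1.1 : ℕ) - (p.1.2 : ℕ)) u (Real.cos θ) (Real.sin θ)

theorem q13_idx {n : ℕ} (p : KIdx n) :
    (p.1.1 : ℕ) + (p.1.2 : ℕ) + (n - (p.1.1 : ℕ) - (p.1.2 : ℕ)) = n := by
  have := p.2
  omega

theorem q13_w_eq {n : ℕ} (p : KIdx n) (u θ : ℝ) : q13_w p u θ =
    kw n p * (u ^ (n - (p.1.1 : ℕ) - (p.1.2 : ℕ)) *
      (Real.cos θ ^ (p.1.1 : ℕ) * Real.sin θ ^ (p.1.2 : ℕ))) := by
  unfold q13_w q13_M q13_c kw
  rw [q13_idx p]

theorem q13_psi {n : ℕ} (ν : ℝ) (a : KSp n) (u θ : ℝ) : psiF n ν a u θ =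
    q13_L ν a (fun p => q13_w p u θ * Real.cos θ) (fun p => q13_w p u θ * Real.sin θ) := by
  unfold psiF q13_L hevR
  congr 1
  · congr 1
    rw [Finset.sum_mul, Finset.sum_mul, ← Finset.sum_add_distrib]
    apply Finset.sum_congr rfl
    intro p _
    beta_reduce
    rw [q13_w_eq]
    ring
  · congr 1
    rw [Finset.sum_mul, Finset.sum_mul, ← Finset.sum_sub_distrib]
    apply Finset.sum_congr rfl
    intro p _
    beta_reduce
    rw [q13_w_eq]
    ring

theorem q13_mul_le {x y B : ℝ} (hx : |x| ≤ B) (hy : |y| ≤ 1) : |x * y| ≤ B := by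
  rw [abs_mul]
  nlinarith [abs_nonneg x, abs_nonneg y]

theorem q13_exp_sub {j : ℕ} {s s' : ℝ} (hs : j * Real.log 2 < s) (hs' : j * Real.log 2 < s') :
    |Real.exp (-s) - Real.exp (-s')| ≤ 1 / 2 ^ j * |s - s'| := by
  have hder : ∀ v ∈ Ici (j * Real.log 2), HasDerivWithinAt (fun v : ℝ => Real.exp (-v))
      (-Real.exp (-v)) (Ici (j * Real.log 2)) v := by
    intro v _
    have := (Real.hasDerivAt_exp (-v)).comp v (hasDerivAt_neg v)
    have h2 : HasDerivAt (fun v : ℝ => Real.exp (-v)) (-Real.exp (-v)) v := by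
      refine this.congr_deriv ?_
      ring
    exact h2.hasDerivWithinAt
  have hbd : ∀ v ∈ Ici (j * Real.log 2), ‖-Real.exp (-v)‖ ≤ 1 / 2 ^ j := by
    intro v hv
    rw [norm_neg, Real.norm_eq_abs, abs_of_pos (Real.exp_pos _)]
    have h2 : Real.exp (-(j * Real.log 2)) = 1 / 2 ^ j := by
      rw [Real.exp_neg, Real.exp_nat_mul, Real.exp_log (by norm_num), one_div]
    rw [← h2]
    exact Real.exp_le_exp.2 (by linarith [mem_Ici.1 hv])
  have := (convex_Ici (j * Real.log 2)).norm_image_sub_le_of_norm_hasDerivWithin_le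
    hder hbd (mem_Ici.2 hs'.le) (mem_Ici.2 hs.le)
  rw [Real.norm_eq_abs, Real.norm_eq_abs] at this
  exact this

theorem psi_data : ∃ C : ℝ, 1 ≤ C ∧ ∀ (n : ℕ), 1 ≤ n → ∀ ν : ℝ, 0 ≤ ν → ν ≤ 2 * n →
    ∀ (a : KSp n), ContDiff ℝ 1 (cF n ν a 0) ∧
    (∀ p : ℝ × ℝ, cF n ν a 0 (p + (0, 2 * Real.pi)) = cF n ν a 0 p) ∧
    (∀ θ, psiF n ν a 0 (θ + 2 * Real.pi) = psiF n ν a 0 θ) ∧
    ∃ P' P'' : ℝ → ℝ × ℝ, (∀ θ, HasDerivAt (psiF n ν a 0) (P' θ) θ) ∧
      (∀ θ, HasDerivAt P' (P'' θ) θ) ∧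
      (∀ θ, nm (psiF n ν a 0 θ) ≤ C * n ^ 4 * kS a ∧ nm (P' θ) ≤ C * n ^ 4 * kS a ∧
        nm (P'' θ) ≤ C * n ^ 4 * kS a) ∧
      ∀ j : ℕ, (n : ℝ) ≤ 2 ^ j →
        (∀ p : ℝ × ℝ, j * Real.log 2 < p.1 → nm (cF n ν a 0 p) ≤ C * n ^ 4 * kS a ∧
          nm (cF n ν a 0 p - psiF n ν a 0 p.2) ≤ C * n ^ 4 * kS a / 2 ^ j) ∧
        ∀ s s' θ : ℝ, j * Real.log 2 < s → j * Real.log 2 < s' →
          nm (cF n ν a 0 (s, θ) - cF n ν a 0 (s', θ)) ≤ C * n ^ 4 * kS a / 2 ^ j * |s - s'| := by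
  refine ⟨88, by norm_num, ?_⟩
  intro n hn ν hν0 hν a
  have hn' : (1 : ℝ) ≤ n := by exact_mod_cast hn
  have hS : 1 ≤ kS a := by
    unfold kS
    have : 0 ≤ ∑ p, (|(a p).1| + |(a p).2|) :=
      Finset.sum_nonneg fun p _ => add_nonneg (abs_nonneg _) (abs_nonneg _)
    linarith
  have h1n : (0 : ℝ) < 1 / n := by positivity
  have hper : ∀ u θ, psiF n ν a u (θ + 2 * Real.pi) = psiF n ν a u θ := by
    intro u θ
    unfold psiF
    rw [Real.cos_add_two_pi, Real.sin_add_two_pi]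
  -- bounds of the weights
  have hw0 : ∀ (p : KIdx n) (u θ : ℝ), 0 ≤ u → u ≤ 1 / n → |q13_w p u θ| ≤ 2 :=
    fun p u θ h1 h2 => q13_M_le hn (q13_idx p).le h1 h2 θ
  have hcos := Real.abs_cos_le_one
  have hsin := Real.abs_sin_le_one
  have hval : ∀ u θ : ℝ, 0 ≤ u → u ≤ 1 / n → nm (psiF n ν a u θ) ≤ 88 * n ^ 4 * kS a := by
    intro u θ h1 h2
    rw [q13_psi]
    refine (q13_L_le hν0 a (B := 2) (by norm_num) (fun p => q13_mul_le (hw0 p u θ h1 h2) (hcos θ))
      (fun p => q13_mul_le (hw0 p u θ h1 h2) (hsin θ))).trans ?_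
    refine mul_le_mul_of_nonneg_right ?_ (by linarith)
    have : (n : ℝ) ≤ n ^ 4 := le_self_pow₀ hn' (by norm_num)
    linarith
  have hdif : ∀ u u' θ : ℝ, 0 ≤ u → u ≤ 1 / n → 0 ≤ u' → u' ≤ 1 / n →
      nm (psiF n ν a u θ - psiF n ν a u' θ) ≤ 88 * n ^ 4 * kS a * |u - u'| := by
    intro u u' θ h1 h2 h1' h2'
    rw [q13_psi, q13_psi, q13_L_sub]
    have hB : 0 ≤ 2 * (n : ℝ) * |u - u'| := by positivity
    have hk : ∀ p : KIdx n, |q13_w p u θ - q13_w p u' θ| ≤ 2 * n * |u - u'| := fun p =>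
      q13_M_sub hn (q13_idx p).le h1 h2 h1' h2' θ
    refine (q13_L_le hν0 a (B := 2 * n * |u - u'|) hB (fun p => ?_) (fun p => ?_)).trans ?_
    · rw [← sub_mul]
      exact q13_mul_le (hk p) (hcos θ)
    · rw [← sub_mul]
      exact q13_mul_le (hk p) (hsin θ)
    · have h3 : (n : ℝ) ^ 2 ≤ n ^ 4 := pow_le_pow_right₀ hn' (by norm_num)
      have h4 : 0 ≤ kS a * |u - u'| := by positivity
      have h5 : 2 * ν * (2 * n * |u - u'|) * kS a = (4 * (ν * n)) * (kS a * |u - u'|) := by ring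
      have h6 : 88 * (n : ℝ) ^ 4 * kS a * |u - u'| = (88 * n ^ 4) * (kS a * |u - u'|) := by ring
      rw [h5, h6]
      refine mul_le_mul_of_nonneg_right ?_ h4
      have h7 : ν * n ≤ 2 * n * n := mul_le_mul_of_nonneg_right hν (by linarith)
      nlinarith
  refine ⟨?_, ?_, hper 0, ?_⟩
  · unfold cF psiF hevR
    fun_prop
  · intro p
    unfold cF
    simp only [Prod.fst_add, Prod.snd_add, add_zero]
    rw [hper]
  refine ⟨fun θ => q13_L ν a
      (fun p => q13_D (p.1.1 : ℕ) (p.1.2 : ℕ) (n - (p.1.1 : ℕ) - (p.1.2 : ℕ)) 0 θ * Real.cos θ +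
        q13_w p 0 θ * -Real.sin θ)
      (fun p => q13_D (p.1.1 : ℕ) (p.1.2 : ℕ) (n - (p.1.1 : ℕ) - (p.1.2 : ℕ)) 0 θ * Real.sin θ +
        q13_w p 0 θ * Real.cos θ),
    fun θ => q13_L ν a
      (fun p => (q13_E (p.1.1 : ℕ) (p.1.2 : ℕ) (n - (p.1.1 : ℕ) - (p.1.2 : ℕ)) 0 θ * Real.cos θ +
        q13_D (p.1.1 : ℕ) (p.1.2 : ℕ) (n - (p.1.1 : ℕ) - (p.1.2 : ℕ)) 0 θ * -Real.sin θ) +
        (q13_D (p.1.1 : ℕ) (p.1.2 : ℕ) (n - (p.1.1 : ℕ) - (p.1.2 : ℕ)) 0 θ * -Real.sin θ +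
        q13_w p 0 θ * -Real.cos θ))
      (fun p => (q13_E (p.1.1 : ℕ) (p.1.2 : ℕ) (n - (p.1.1 : ℕ) - (p.1.2 : ℕ)) 0 θ * Real.sin θ +
        q13_D (p.1.1 : ℕ) (p.1.2 : ℕ) (n - (p.1.1 : ℕ) - (p.1.2 : ℕ)) 0 θ * Real.cos θ) +
        (q13_D (p.1.1 : ℕ) (p.1.2 : ℕ) (n - (p.1.1 : ℕ) - (p.1.2 : ℕ)) 0 θ * Real.cos θ +
        q13_w p 0 θ * -Real.sin θ)), ?_, ?_, ?_, ?_⟩
  · intro θ
    have e : psiF n ν a 0 = fun θ => q13_L ν a (fun p => q13_w p 0 θ * Real.cos θ)
        (fun p => q13_w p 0 θ * Real.sin θ) := by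
      funext θ
      exact q13_psi ν a 0 θ
    rw [e]
    exact q13_L_deriv ν a
      (fun p => (q13_hasDerivAt _ _ _ 0 θ).mul (Real.hasDerivAt_cos θ))
      (fun p => (q13_hasDerivAt _ _ _ 0 θ).mul (Real.hasDerivAt_sin θ))
  · intro θ
    exact q13_L_deriv ν a
      (fun p => ((q13_hasDerivAt2 _ _ _ 0 θ).mul (Real.hasDerivAt_cos θ)).add
        ((q13_hasDerivAt _ _ _ 0 θ).mul (Real.hasDerivAt_sin θ).neg))
      (fun p => ((q13_hasDerivAt2 _ _ _ 0 θ).mul (Real.hasDerivAt_sin θ)).add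
        ((q13_hasDerivAt _ _ _ 0 θ).mul (Real.hasDerivAt_cos θ)))
  · intro θ
    have b0 : ∀ p : KIdx n, |q13_w p 0 θ| ≤ 2 := fun p => hw0 p 0 θ le_rfl h1n.le
    have b1 : ∀ p : KIdx n, |q13_D (p.1.1 : ℕ) (p.1.2 : ℕ) (n - (p.1.1 : ℕ) - (p.1.2 : ℕ)) 0 θ| ≤
        4 * n := fun p => q13_D_le hn (q13_idx p).le le_rfl h1n.le θ
    have b2 : ∀ p : KIdx n, |q13_E (p.1.1 : ℕ) (p.1.2 : ℕ) (n - (p.1.1 : ℕ) - (p.1.2 : ℕ)) 0 θ| ≤
        12 * n ^ 2 := fun p => q13_E_le hn (q13_idx p).le le_rfl h1n.le θ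
    have hs' : |-Real.sin θ| ≤ 1 := by rw [abs_neg]; exact hsin θ
    have hc' : |-Real.cos θ| ≤ 1 := by rw [abs_neg]; exact hcos θ
    have n2 : (n : ℝ) ≤ n ^ 2 := le_self_pow₀ hn' (by norm_num)
    have n24 : (n : ℝ) ^ 2 ≤ n ^ 4 := pow_le_pow_right₀ hn' (by norm_num)
    have n34 : (n : ℝ) ^ 3 ≤ n ^ 4 := pow_le_pow_right₀ hn' (by norm_num)
    refine ⟨hval 0 θ le_rfl h1n.le, ?_, ?_⟩
    · refine (q13_L_le hν0 a (B := 4 * n + 2) (by positivity) (fun p => ?_)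
        (fun p => ?_)).trans ?_
      · exact (abs_add_le _ _).trans (add_le_add (q13_mul_le (b1 p) (hcos θ))
          (q13_mul_le (b0 p) hs'))
      · exact (abs_add_le _ _).trans (add_le_add (q13_mul_le (b1 p) (hsin θ))
          (q13_mul_le (b0 p) (hcos θ)))
      · refine mul_le_mul_of_nonneg_right ?_ (by linarith)
        have : ν * (4 * n + 2) ≤ 2 * n * (4 * n + 2) :=
          mul_le_mul_of_nonneg_right hν (by positivity)
        nlinarith
    · refine (q13_L_le hν0 a (B := 12 * n ^ 2 + 4 * n + (4 * n + 2)) (by positivity)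
        (fun p => ?_) (fun p => ?_)).trans ?_
      · exact (abs_add_le _ _).trans (add_le_add
          ((abs_add_le _ _).trans (add_le_add (q13_mul_le (b2 p) (hcos θ))
            (q13_mul_le (b1 p) hs')))
          ((abs_add_le _ _).trans (add_le_add (q13_mul_le (b1 p) hs')
            (q13_mul_le (b0 p) hc'))))
      · exact (abs_add_le _ _).trans (add_le_add
          ((abs_add_le _ _).trans (add_le_add (q13_mul_le (b2 p) (hsin θ))
            (q13_mul_le (b1 p) (hcos θ))))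
          ((abs_add_le _ _).trans (add_le_add (q13_mul_le (b1 p) (hcos θ))
            (q13_mul_le (b0 p) hs'))))
      · refine mul_le_mul_of_nonneg_right ?_ (by linarith)
        have h3 : ν * (12 * n ^ 2 + 4 * n + (4 * n + 2)) ≤
            2 * n * (12 * n ^ 2 + 4 * n + (4 * n + 2)) :=
          mul_le_mul_of_nonneg_right hν (by positivity)
        have h4 : 2 * (n : ℝ) * (12 * n ^ 2 + 4 * n + (4 * n + 2)) =
            24 * n ^ 3 + 16 * n ^ 2 + 4 * n := by ring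
        nlinarith
  · intro j hj
    have hexp : ∀ s : ℝ, j * Real.log 2 < s → Real.exp (-s) ≤ 1 / 2 ^ j ∧
        Real.exp (-s) ≤ 1 / n := by
      intro s hs
      have h1 : Real.exp (-s) ≤ 1 / 2 ^ j := by
        have h2 : Real.exp (-(j * Real.log 2)) = 1 / 2 ^ j := by
          rw [Real.exp_neg, Real.exp_nat_mul, Real.exp_log (by norm_num), one_div]
        rw [← h2]
        exact Real.exp_le_exp.2 (by linarith)
      refine ⟨h1, h1.trans ?_⟩
      exact one_div_le_one_div_of_le (by linarith) hj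
    have hp2 : (0 : ℝ) < 2 ^ j := by positivity
    constructor
    · intro p hp
      obtain ⟨e1, e2⟩ := hexp p.1 hp
      have e0 := (Real.exp_pos (-p.1)).le
      unfold cF
      rw [add_zero]
      refine ⟨hval _ _ e0 e2, ?_⟩
      refine (hdif _ 0 p.2 e0 e2 le_rfl h1n.le).trans ?_
      rw [sub_zero, abs_of_nonneg e0, div_eq_mul_one_div]
      exact mul_le_mul_of_nonneg_left e1 (by positivity)
    · intro s s' θ hs hs'
      obtain ⟨e1, e2⟩ := hexp s hs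
      obtain ⟨e1', e2'⟩ := hexp s' hs'
      unfold cF
      rw [add_zero, add_zero]
      simp only
      refine (hdif _ _ θ (Real.exp_pos _).le e2 (Real.exp_pos _).le e2').trans ?_
      rw [div_eq_mul_one_div, mul_assoc (88 * (n : ℝ) ^ 4 * kS a)]
      refine mul_le_mul_of_nonneg_left ?_ (by positivity)
      exact q13_exp_sub hs hs'

end Pool.Agent.Lib.MP_95e7ec_an
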