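import Mathlib
import Pool.Agent.Lib.MP_95e7ec_an.KosEvenVec
import Pool.Agent.Lib.MP_95e7ec_an.KqDefs

/-!
# The direction of `z |z|^(2m)` in the Kostlan coefficients, and the field on the cylinder
-/

set_option autoImplicit false

open Set Filter Topology MeasureTheory ProbabilityTheory
open scoped ContDiff ENNReal

namespace Pool.Agent.Lib.MP_95e7ec_an

/-- the exponents of `x (x²+y²)^m` -/
private def kqv_e1 (m : ℕ) (i : Fin (m + 1)) : KIdx (2 * m + 1) :=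
  ⟨(⟨2 * (i : ℕ) + 1, by have := i.2; omega⟩, ⟨2 * (m - (i : ℕ)), by omega⟩), by
    have := i.2; simp only; omega⟩

/-- the exponents of `y (x²+y²)^m` -/
private def kqv_e2 (m : ℕ) (i : Fin (m + 1)) : KIdx (2 * m + 1) :=
  ⟨(⟨2 * (i : ℕ), by have := i.2; omega⟩, ⟨2 * (m - (i : ℕ)) + 1, by omega⟩), by
    have := i.2; simp only; omega⟩

private theorem kqv_inj1 (m : ℕ) : Function.Injective (kqv_e1 m) := by
  intro i j h
  simp only [kqv_e1, Subtype.mk.injEq, Prod.mk.injEq, Fin.mk.injEq] at h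
  ext
  omega

private theorem kqv_inj2 (m : ℕ) : Function.Injective (kqv_e2 m) := by
  intro i j h
  simp only [kqv_e2, Subtype.mk.injEq, Prod.mk.injEq, Fin.mk.injEq] at h
  ext
  omega

private theorem kqv_sq1 (m : ℕ) (i : Fin (m + 1)) :
    ((m.choose i : ℕ) : ℝ) ^ 2 ≤ kw (2 * m + 1) (kqv_e1 m i) ^ 2 := by
  rw [KosKernel_kw_sq]
  have hi : (i : ℕ) ≤ m := by have := i.2; omega
  have e1 : ((kqv_e1 m i).1.1 : ℕ) = 2 * (i : ℕ) + 1 := rfl
  have e2 : ((kqv_e1 m i).1.2 : ℕ) = 2 * (m - (i : ℕ)) := rfl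
  rw [e1, e2, KosKernel_choose (by omega)]
  have h0 : 2 * m + 1 - (2 * (i : ℕ) + 1) = 2 * (m - (i : ℕ)) := by omega
  rw [h0, Nat.choose_self, Nat.cast_one, mul_one]
  have h2 := KosEven_choose_sq m i
  have h3 : (2 * m).choose (2 * (i : ℕ)) ≤ (2 * m + 1).choose (2 * (i : ℕ) + 1) := by
    rw [Nat.choose_succ_succ]
    omega
  exact_mod_cast h2.trans h3

private theorem kqv_sq2 (m : ℕ) (i : Fin (m + 1)) :
    ((m.choose i : ℕ) : ℝ) ^ 2 ≤ kw (2 * m + 1) (kqv_e2 m i) ^ 2 := by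
  rw [KosKernel_kw_sq]
  have hi : (i : ℕ) ≤ m := by have := i.2; omega
  have e1 : ((kqv_e2 m i).1.1 : ℕ) = 2 * (i : ℕ) := rfl
  have e2 : ((kqv_e2 m i).1.2 : ℕ) = 2 * (m - (i : ℕ)) + 1 := rfl
  rw [e1, e2, KosKernel_choose (by omega)]
  have h0 : 2 * m + 1 - 2 * (i : ℕ) = 2 * (m - (i : ℕ)) + 1 := by omega
  rw [h0, Nat.choose_self, Nat.cast_one, mul_one]
  have h2 := KosEven_choose_sq m i
  have h3 : (2 * m).choose (2 * (i : ℕ)) ≤ (2 * m + 1).choose (2 * (i : ℕ)) :=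
    Nat.choose_le_choose _ (by omega)
  exact_mod_cast h2.trans h3

/-- the coefficients of an embedded binomial expansion -/
private theorem kqv_dir (m : ℕ) (e : Fin (m + 1) → KIdx (2 * m + 1)) (he : Function.Injective e)
    (hsq : ∀ i : Fin (m + 1), ((m.choose i : ℕ) : ℝ) ^ 2 ≤ kw (2 * m + 1) (e i) ^ 2) :
    ∃ b : KIdx (2 * m + 1) → ℝ, 0 < ∑ p, b p ^ 2 ∧ ∑ p, b p ^ 2 ≤ m + 1 ∧
      ∀ x y : ℝ, ∑ p : KIdx (2 * m + 1), kw (2 * m + 1) p * b p *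
        (x ^ (p.1.1 : ℕ) * y ^ (p.1.2 : ℕ)) =
        ∑ i : Fin (m + 1), ((m.choose i : ℕ) : ℝ) *
          (x ^ ((e i).1.1 : ℕ) * y ^ ((e i).1.2 : ℕ)) := by
  classical
  set b : KIdx (2 * m + 1) → ℝ :=
    Function.extend e (fun i => ((m.choose i : ℕ) : ℝ) / kw (2 * m + 1) (e i)) 0 with hb
  have hbe : ∀ i : Fin (m + 1), b (e i) = ((m.choose i : ℕ) : ℝ) / kw (2 * m + 1) (e i) := by
    intro i; rw [hb, he.extend_apply]
  have hb0 : ∀ p, p ∉ Set.range e → b p = 0 := by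
    intro p hp
    rw [hb, Function.extend_apply' _ _ _ (by simpa using hp)]
    rfl
  have hsum : ∑ i : Fin (m + 1), (((m.choose i : ℕ) : ℝ) / kw (2 * m + 1) (e i)) ^ 2 = ∑ p, b p ^ 2 :=
    Fintype.sum_of_injective e he _ _ (fun p hp => by rw [hb0 p hp]; norm_num)
      (fun i => by rw [hbe])
  refine ⟨b, ?_, ?_, ?_⟩
  · rw [← hsum]
    refine Finset.sum_pos (fun i _ => ?_) ⟨0, Finset.mem_univ _⟩
    have h1 := KosEven_kw_pos (2 * m + 1) (e i)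
    have h2 : (0 : ℝ) < ((m.choose i : ℕ) : ℝ) := by
      have : 0 < m.choose i := Nat.choose_pos (by have := i.2; omega)
      exact_mod_cast this
    positivity
  · rw [← hsum]
    have : ∀ i ∈ (Finset.univ : Finset (Fin (m + 1))),
        (((m.choose i : ℕ) : ℝ) / kw (2 * m + 1) (e i)) ^ 2 ≤ 1 := by
      intro i _
      rw [div_pow, div_le_one (pow_pos (KosEven_kw_pos _ _) 2)]
      exact hsq i
    refine (Finset.sum_le_card_nsmul _ _ _ this).trans ?_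
    rw [nsmul_eq_mul, mul_one, Finset.card_univ, Fintype.card_fin]
    push_cast
    exact le_rfl
  · intro x y
    symm
    refine Fintype.sum_of_injective e he _ _ ?_ ?_
    · intro p hp
      rw [hb0 p hp]; ring
    · intro i
      rw [hbe]
      have hk := (KosEven_kw_pos (2 * m + 1) (e i)).ne'
      field_simp

private theorem kqv_binom1 (m : ℕ) (x y : ℝ) :
    ∑ i : Fin (m + 1), ((m.choose i : ℕ) : ℝ) *
      (x ^ ((kqv_e1 m i).1.1 : ℕ) * y ^ ((kqv_e1 m i).1.2 : ℕ)) = x * (x ^ 2 + y ^ 2) ^ m := by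
  rw [add_pow, Finset.mul_sum, Finset.sum_range]
  refine Finset.sum_congr rfl fun i _ => ?_
  have e1 : ((kqv_e1 m i).1.1 : ℕ) = 2 * (i : ℕ) + 1 := rfl
  have e2 : ((kqv_e1 m i).1.2 : ℕ) = 2 * (m - (i : ℕ)) := rfl
  rw [e1, e2, pow_succ, pow_mul, pow_mul]
  ring

private theorem kqv_binom2 (m : ℕ) (x y : ℝ) :
    ∑ i : Fin (m + 1), ((m.choose i : ℕ) : ℝ) *
      (x ^ ((kqv_e2 m i).1.1 : ℕ) * y ^ ((kqv_e2 m i).1.2 : ℕ)) = y * (x ^ 2 + y ^ 2) ^ m := by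
  rw [add_pow, Finset.mul_sum, Finset.sum_range]
  refine Finset.sum_congr rfl fun i _ => ?_
  have e1 : ((kqv_e2 m i).1.1 : ℕ) = 2 * (i : ℕ) := rfl
  have e2 : ((kqv_e2 m i).1.2 : ℕ) = 2 * (m - (i : ℕ)) + 1 := rfl
  rw [e1, e2, pow_succ, pow_mul, pow_mul]
  ring

theorem exists_odd_dir (m : ℕ) : ∃ (u : KSp (2 * m + 1)) (ν : ℝ), OddDir m u ν := by
  classical
  obtain ⟨b1, h1a, h1b, h1c⟩ := kqv_dir m (kqv_e1 m) (kqv_inj1 m) (kqv_sq1 m)
  obtain ⟨b2, h2a, h2b, h2c⟩ := kqv_dir m (kqv_e2 m) (kqv_inj2 m) (kqv_sq2 m)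
  obtain ⟨S, hS⟩ : ∃ S, S = ∑ p, b1 p ^ 2 + ∑ p, b2 p ^ 2 := ⟨_, rfl⟩
  have hS0 : 0 < S := by rw [hS]; linarith
  have hS2 : S ≤ 2 * (m + 1) := by rw [hS]; linarith
  have hν : 0 < Real.sqrt S := Real.sqrt_pos.2 hS0
  have hm : (0 : ℝ) ≤ m := Nat.cast_nonneg m
  refine ⟨fun p => ((Real.sqrt S)⁻¹ * b1 p, (Real.sqrt S)⁻¹ * b2 p), Real.sqrt S, hν, ?_, ?_, ?_⟩
  · rw [Real.sqrt_le_left (by positivity)]
    nlinarith
  · simp only [mul_pow]
    rw [Finset.sum_add_distrib, ← Finset.mul_sum, ← Finset.mul_sum, ← mul_add, ← hS, inv_pow,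
      Real.sq_sqrt hS0.le]
    exact inv_mul_cancel₀ hS0.ne'
  · intro a t z
    have key1 : ∑ p : KIdx (2 * m + 1), kw (2 * m + 1) p * ((Real.sqrt S)⁻¹ * b1 p) *
        (z.1 ^ (p.1.1 : ℕ) * z.2 ^ (p.1.2 : ℕ)) =
        (Real.sqrt S)⁻¹ * (z.1 * (z.1 ^ 2 + z.2 ^ 2) ^ m) := by
      rw [← kqv_binom1, ← h1c, Finset.mul_sum]
      exact Finset.sum_congr rfl fun p _ => by ring
    have key2 : ∑ p : KIdx (2 * m + 1), kw (2 * m + 1) p * ((Real.sqrt S)⁻¹ * b2 p) *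
        (z.1 ^ (p.1.1 : ℕ) * z.2 ^ (p.1.2 : ℕ)) =
        (Real.sqrt S)⁻¹ * (z.2 * (z.1 ^ 2 + z.2 ^ 2) ^ m) := by
      rw [← kqv_binom2, ← h2c, Finset.mul_sum]
      exact Finset.sum_congr rfl fun p _ => by ring
    unfold kVF vf
    ext
    · simp only [KosKernel_eval, kshift2, cmul, Prod.fst_add, Prod.smul_fst, smul_eq_mul]
      have e : ∀ p : KIdx (2 * m + 1), kw (2 * m + 1) p * ((a p).1 + (t.1 * ((Real.sqrt S)⁻¹ * b1 p)
          - t.2 * ((Real.sqrt S)⁻¹ * b2 p))) * (z.1 ^ (p.1.1 : ℕ) * z.2 ^ (p.1.2 : ℕ)) =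
          kw (2 * m + 1) p * (a p).1 * (z.1 ^ (p.1.1 : ℕ) * z.2 ^ (p.1.2 : ℕ)) +
          (t.1 * (kw (2 * m + 1) p * ((Real.sqrt S)⁻¹ * b1 p) *
            (z.1 ^ (p.1.1 : ℕ) * z.2 ^ (p.1.2 : ℕ))) -
          t.2 * (kw (2 * m + 1) p * ((Real.sqrt S)⁻¹ * b2 p) *
            (z.1 ^ (p.1.1 : ℕ) * z.2 ^ (p.1.2 : ℕ)))) := fun p => by ring
      rw [Finset.sum_congr rfl fun p _ => e p, Finset.sum_add_distrib, Finset.sum_sub_distrib,
        ← Finset.mul_sum, ← Finset.mul_sum, key1, key2]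
      ring
    · simp only [KosKernel_eval, kshift2, cmul, Prod.snd_add, Prod.smul_snd, smul_eq_mul]
      have e : ∀ p : KIdx (2 * m + 1), kw (2 * m + 1) p * ((a p).2 + (t.2 * ((Real.sqrt S)⁻¹ * b1 p)
          + t.1 * ((Real.sqrt S)⁻¹ * b2 p))) * (z.1 ^ (p.1.1 : ℕ) * z.2 ^ (p.1.2 : ℕ)) =
          kw (2 * m + 1) p * (a p).2 * (z.1 ^ (p.1.1 : ℕ) * z.2 ^ (p.1.2 : ℕ)) +
          (t.2 * (kw (2 * m + 1) p * ((Real.sqrt S)⁻¹ * b1 p) *
            (z.1 ^ (p.1.1 : ℕ) * z.2 ^ (p.1.2 : ℕ))) +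
          t.1 * (kw (2 * m + 1) p * ((Real.sqrt S)⁻¹ * b2 p) *
            (z.1 ^ (p.1.1 : ℕ) * z.2 ^ (p.1.2 : ℕ)))) := fun p => by ring
      rw [Finset.sum_congr rfl fun p _ => e p, Finset.sum_add_distrib, Finset.sum_add_distrib,
        ← Finset.mul_sum, ← Finset.mul_sum, key1, key2]
      ring

private theorem kqv_hom (n : ℕ) (b : KIdx n → ℝ) (s c d : ℝ) :
    MvPolynomial.eval ![Real.exp s * c, Real.exp s * d] (kPoly n b) =
      Real.exp s ^ n * hevR n b (Real.exp (-s)) c d := by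
  rw [KosKernel_eval]
  unfold hevR
  rw [Finset.mul_sum]
  refine Finset.sum_congr rfl fun p _ => ?_
  have hp : (p.1.1 : ℕ) + (p.1.2 : ℕ) ≤ n := p.2
  have h1 : Real.exp s ^ n * Real.exp (-s) ^ (n - (p.1.1 : ℕ) - (p.1.2 : ℕ)) =
      Real.exp s ^ ((p.1.1 : ℕ) + (p.1.2 : ℕ)) := by
    rw [Real.exp_neg, inv_pow]
    have hE := (Real.exp_pos s).ne'
    rw [mul_inv_eq_iff_eq_mul₀ (pow_ne_zero _ hE), ← pow_add]
    congr 1
    omega
  calc kw n p * b p * ((Real.exp s * c) ^ (p.1.1 : ℕ) * (Real.exp s * d) ^ (p.1.2 : ℕ))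
      = kw n p * b p * (Real.exp s ^ ((p.1.1 : ℕ) + (p.1.2 : ℕ)) *
          (c ^ (p.1.1 : ℕ) * d ^ (p.1.2 : ℕ))) := by
        rw [mul_pow, mul_pow, pow_add]
        ring
    _ = _ := by
        rw [← h1]
        ring

theorem cylField_kVF {m : ℕ} {u : KSp (2 * m + 1)} {ν : ℝ} (h : OddDir m u ν)
    (a : KSp (2 * m + 1)) (t : ℝ × ℝ) :
    CylField (kVF (2 * m + 1) (kshift2 u a t)) (cF (2 * m + 1) ν a t)
      (fun s => Real.exp (2 * m * s) / ν) := by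
  obtain ⟨hν, _, _, hdir⟩ := h
  refine ⟨by fun_prop, fun s => div_pos (Real.exp_pos _) hν, ?_⟩
  rintro ⟨s, θ⟩
  rw [hdir]
  have hcs := Real.cos_sq_add_sin_sq θ
  have hE : Real.exp (2 * m * s) = Real.exp s ^ (2 * m) := by
    rw [← Real.exp_nat_mul]
    push_cast
    ring_nf
  have hn : (cyl (s, θ)).1 ^ 2 + (cyl (s, θ)).2 ^ 2 = Real.exp s ^ 2 := by
    simp only [cyl]
    have : (Real.exp s * Real.cos θ) ^ 2 + (Real.exp s * Real.sin θ) ^ 2 =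
        Real.exp s ^ 2 * (Real.cos θ ^ 2 + Real.sin θ ^ 2) := by ring
    rw [this, hcs, mul_one]
  rw [hn, ← pow_mul]
  have hv : kVF (2 * m + 1) a (cyl (s, θ)) =
      (Real.exp s ^ (2 * m + 1) * hevR (2 * m + 1) (fun p => (a p).1) (Real.exp (-s))
        (Real.cos θ) (Real.sin θ),
      Real.exp s ^ (2 * m + 1) * hevR (2 * m + 1) (fun p => (a p).2) (Real.exp (-s))
        (Real.cos θ) (Real.sin θ)) := by
    unfold kVF vf
    simp only [cyl]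
    rw [kqv_hom, kqv_hom]
  rw [hv]
  simp only [cF, psiF, cyl, cmul, hE]
  generalize hevR (2 * m + 1) (fun p => (a p).1) (Real.exp (-s)) (Real.cos θ) (Real.sin θ) = h1
  generalize hevR (2 * m + 1) (fun p => (a p).2) (Real.exp (-s)) (Real.cos θ) (Real.sin θ) = h2
  ext
  · simp only [Prod.fst_add, Prod.snd_add, Prod.smul_fst, smul_eq_mul]
    have e : (ν * (h1 * Real.cos θ + h2 * Real.sin θ) + t.1) * Real.cos θ -
        (ν * (h2 * Real.cos θ - h1 * Real.sin θ) + t.2) * Real.sin θ =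
        ν * h1 * (Real.cos θ ^ 2 + Real.sin θ ^ 2) + (t.1 * Real.cos θ - t.2 * Real.sin θ) := by
      ring
    rw [e, hcs]
    field_simp
    ring
  · simp only [Prod.fst_add, Prod.snd_add, Prod.smul_snd, smul_eq_mul]
    have e : (ν * (h1 * Real.cos θ + h2 * Real.sin θ) + t.1) * Real.sin θ +
        (ν * (h2 * Real.cos θ - h1 * Real.sin θ) + t.2) * Real.cos θ =
        ν * h2 * (Real.cos θ ^ 2 + Real.sin θ ^ 2) + (t.1 * Real.sin θ + t.2 * Real.cos θ) := by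
      ring
    rw [e, hcs]
    field_simp
    ring

end Pool.Agent.Lib.MP_95e7ec_an
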