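import Mathlib
import Pool.Agent.Lib.MP_95e7ec_an.KqGood
import Pool.Agent.Lib.MP_95e7ec_an.KqArea
import Pool.Agent.Lib.MP_95e7ec_an.KqPsi
import Pool.Agent.Lib.MP_95e7ec_an.KqBad
import Pool.Agent.Lib.MP_95e7ec_an.KqVec

/-!
# Kostlan random fields of odd degree near infinity: the annulus `2^j < |z| ≤ 2^(j+1)`
-/

set_option autoImplicit false

open Set Filter Topology MeasureTheory ProbabilityTheory
open scoped ContDiff ENNReal

namespace Pool.Agent.Lib.MP_95e7ec_an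

theorem kqLocal_nm_eq (x : ℝ × ℝ) : nm x = ‖(⟨x.1, x.2⟩ : ℂ)‖ := by
  rw [Complex.norm_eq_sqrt_sq_add_sq]; rfl

theorem kqLocal_nm_add (x y : ℝ × ℝ) : nm (x + y) ≤ nm x + nm y := by
  rw [kqLocal_nm_eq, kqLocal_nm_eq, kqLocal_nm_eq]
  exact norm_add_le (⟨x.1, x.2⟩ : ℂ) ⟨y.1, y.2⟩

theorem kqLocal_exp (j : ℕ) : Real.exp (j * Real.log 2) = 2 ^ j := by
  rw [Real.exp_nat_mul, Real.exp_log (by norm_num)]

theorem kqLocal_NL_le (v : ℝ × ℝ → ℝ × ℝ) (j : ℕ) :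
    NL v j ≤ ((({C | IsClosedOrbit v C ∧
        C ⊆ {z | Real.exp (j * Real.log 2) < nm z} ∧
        ∃ z ∈ C, nm z ≤ Real.exp (j * Real.log 2 + 1)} :
        Set (Set (ℝ × ℝ))).encard : ℕ∞) : ℝ≥0∞) := by
  unfold NL cntO
  refine ENat.toENNReal_le.2 (Set.encard_le_encard ?_)
  rintro C ⟨h1, h2, h3⟩
  refine ⟨h1, ?_, ?_⟩
  · rw [kqLocal_exp]
    exact h2
  · have h4 := h3 none (by simp [nlS])
    obtain ⟨z, hz, hz2⟩ := Set.not_subset.1 h4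
    refine ⟨z, hz, ?_⟩
    simp only [nlV, Set.mem_ofPred_eq, not_lt] at hz2
    rw [Real.exp_add, kqLocal_exp]
    have h5 : (2 : ℝ) ≤ Real.exp 1 := by
      have := Real.add_one_le_exp (1 : ℝ)
      linarith
    calc nm z ≤ 2 ^ (j + 1) := hz2
      _ = 2 ^ j * 2 := pow_succ _ _
      _ ≤ 2 ^ j * Real.exp 1 := by gcongr

/-- powers of two -/
theorem kqLocal_pow {j l : ℕ} (hl : 1 ≤ l) (hj : 48 * l ≤ j) {B : ℝ} (hB : 1 ≤ B)
    (hB2 : B ≤ 2 ^ (2 * l)) :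
    3200 * B * (B / 2 ^ j) ≤ ((2 : ℝ) ^ (4 * l))⁻¹ ^ 2 ∧
    2 * 10 ^ 11 * (B / 2 ^ j) * (2 * B) ^ 2 * B ^ 3 / ((2 : ℝ) ^ (4 * l))⁻¹ ^ 6 ≤
      10 ^ 12 / 2 ^ l ∧ B / 2 ^ j ≤ ((2 : ℝ) ^ (4 * l))⁻¹ / 2 := by
  have hB0 : 0 < B := by linarith
  have h48 : (2 : ℝ) ^ (48 * l) ≤ 2 ^ j := pow_le_pow_right₀ (by norm_num) hj
  set x : ℝ := 2 ^ l with hx
  have hx2 : 2 ≤ x := by
    calc (2 : ℝ) = 2 ^ 1 := by norm_num
      _ ≤ 2 ^ l := pow_le_pow_right₀ (by norm_num) hl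
  have e2 : (2 : ℝ) ^ (2 * l) = x ^ 2 := by rw [hx, ← pow_mul, mul_comm]
  have e4 : (2 : ℝ) ^ (4 * l) = x ^ 4 := by rw [hx, ← pow_mul, mul_comm]
  have e48 : (2 : ℝ) ^ (48 * l) = x ^ 48 := by rw [hx, ← pow_mul, mul_comm]
  rw [e4]
  rw [e2] at hB2
  rw [e48] at h48
  have hx0 : 0 < x := by linarith
  have hj0 : (0 : ℝ) < 2 ^ j := by positivity
  refine ⟨?_, ?_, ?_⟩
  · rw [inv_pow, ← pow_mul, ← mul_div_assoc, div_le_iff₀ hj0, ← div_eq_inv_mul,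
      le_div_iff₀ (by positivity)]
    calc 3200 * B * B * x ^ (4 * 2) ≤ 2 ^ 12 * x ^ 2 * x ^ 2 * x ^ (4 * 2) := by
          gcongr
          norm_num
      _ ≤ x ^ 12 * x ^ 2 * x ^ 2 * x ^ (4 * 2) := by gcongr
      _ = x ^ 24 := by ring
      _ ≤ x ^ 48 := pow_le_pow_right₀ (by linarith) (by norm_num)
      _ ≤ 2 ^ j := h48
  · rw [inv_pow, ← pow_mul, div_inv_eq_mul, le_div_iff₀ hx0]
    have h1 : B / 2 ^ j ≤ x ^ 2 / x ^ 48 := by gcongr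
    calc 2 * 10 ^ 11 * (B / 2 ^ j) * (2 * B) ^ 2 * B ^ 3 * x ^ (4 * 6) * x
        ≤ 2 * 10 ^ 11 * (x ^ 2 / x ^ 48) * (2 * x ^ 2) ^ 2 * (x ^ 2) ^ 3 * x ^ (4 * 6) * x := by
          gcongr
      _ = 8 * 10 ^ 11 * (x ^ 37 / x ^ 48) := by ring
      _ ≤ 8 * 10 ^ 11 * 1 := by
          gcongr
          rw [div_le_one (by positivity)]
          exact pow_le_pow_right₀ (by linarith) (by norm_num)
      _ ≤ 10 ^ 12 := by norm_num
  · rw [div_le_iff₀ hj0, ← one_div, div_div, div_mul_eq_mul_div, one_mul, le_div_iff₀ (by positivity)]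
    calc B * (x ^ 4 * 2) ≤ x ^ 2 * (x ^ 4 * x) := by gcongr
      _ = x ^ 7 := by ring
      _ ≤ x ^ 48 := pow_le_pow_right₀ (by linarith) (by norm_num)
      _ ≤ 2 ^ j := h48

theorem kqLocal_cont (n : ℕ) (a : KSp n) : Continuous (kVF n a) := by
  have h : Continuous fun z : ℝ × ℝ => ![z.1, z.2] := by
    refine continuous_pi fun i => ?_
    fin_cases i
    · exact continuous_fst
    · exact continuous_snd
  exact ((MvPolynomial.continuous_eval _).comp h).prodMk ((MvPolynomial.continuous_eval _).comp h)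

/-- the turned fields with a good shift -/
theorem kqLocal_good {m : ℕ} {u : KSp (2 * m + 1)} {ν : ℝ} (hu : OddDir m u ν)
    (a : KSp (2 * m + 1)) {j l : ℕ} (hl : 1 ≤ l) (hjl : 48 * l ≤ j) {B : ℝ} (hB : 1 ≤ B)
    (hB2 : B ≤ 2 ^ (2 * l)) (hF : ContDiff ℝ 1 (cF (2 * m + 1) ν a 0))
    (hper : ∀ p : ℝ × ℝ,
      cF (2 * m + 1) ν a 0 (p + (0, 2 * Real.pi)) = cF (2 * m + 1) ν a 0 p)
    (hPper : ∀ θ, psiF (2 * m + 1) ν a 0 (θ + 2 * Real.pi) = psiF (2 * m + 1) ν a 0 θ)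
    {P' P'' : ℝ → ℝ × ℝ} (hP : ∀ θ, HasDerivAt (psiF (2 * m + 1) ν a 0) (P' θ) θ)
    (hP' : ∀ θ, HasDerivAt P' (P'' θ) θ) (hL : ∀ θ, nm (P'' θ) ≤ B)
    (hM : ∀ p : ℝ × ℝ, j * Real.log 2 < p.1 → nm (cF (2 * m + 1) ν a 0 p) ≤ B)
    (hFP : ∀ p : ℝ × ℝ, j * Real.log 2 < p.1 →
      nm (cF (2 * m + 1) ν a 0 p - psiF (2 * m + 1) ν a 0 p.2) ≤ B / 2 ^ j)
    (hκ : ∀ s s' θ : ℝ, j * Real.log 2 < s → j * Real.log 2 < s' →
      nm (cF (2 * m + 1) ν a 0 (s, θ) - cF (2 * m + 1) ν a 0 (s', θ)) ≤ B / 2 ^ j * |s - s'|)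
    {t : ℝ × ℝ} (ht : nm t ≤ 1)
    (hgood : (∃ e : ℝ × ℝ, e.1 ^ 2 + e.2 ^ 2 = 1 ∧
        ∀ θ, ((2 : ℝ) ^ (4 * l))⁻¹ ≤ dot e (psiF (2 * m + 1) ν a 0 θ + t)) ∨
      ((∀ e : ℝ × ℝ, e.1 ^ 2 + e.2 ^ 2 = 1 →
          ∃ θ, dot e (psiF (2 * m + 1) ν a 0 θ + t) ≤ -((2 : ℝ) ^ (4 * l))⁻¹) ∧
        ∀ θ, ((2 : ℝ) ^ (4 * l))⁻¹ ≤ nm (psiF (2 * m + 1) ν a 0 θ + t))) :
    ∫⁻ α in Set.Ioo 0 Real.pi, NL (turn α (kVF (2 * m + 1) (kshift2 u a t))) j ≤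
      ENNReal.ofReal (10 ^ 12 / 2 ^ l) := by
  obtain ⟨hp1, hp2, hp3⟩ := kqLocal_pow hl hjl hB hB2
  have hε : (0 : ℝ) < ((2 : ℝ) ^ (4 * l))⁻¹ := by positivity
  have hε1 : ((2 : ℝ) ^ (4 * l))⁻¹ ≤ 1 := inv_le_one_of_one_le₀ (one_le_pow₀ (by norm_num))
  set ε : ℝ := ((2 : ℝ) ^ (4 * l))⁻¹ with hεdef
  have hB0 : 0 < B := by linarith
  have hcF : ∀ p, cF (2 * m + 1) ν a t p = cF (2 * m + 1) ν a 0 p + t := fun p => by
    simp [cF]
  have hcF' : cF (2 * m + 1) ν a t = fun p => cF (2 * m + 1) ν a 0 p + t := funext hcF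
  have hFt : ContDiff ℝ 1 (cF (2 * m + 1) ν a t) := by
    rw [hcF']
    exact hF.add contDiff_const
  have hpert : ∀ p : ℝ × ℝ, cF (2 * m + 1) ν a t (p + (0, 2 * Real.pi)) = cF (2 * m + 1) ν a t p := fun p => by
    rw [hcF, hcF, hper]
  have hPt : ∀ θ, HasDerivAt (fun θ => psiF (2 * m + 1) ν a 0 θ + t) (P' θ) θ := fun θ =>
    (hP θ).add_const t
  have hPpert : ∀ θ, (fun θ => psiF (2 * m + 1) ν a 0 θ + t) (θ + 2 * Real.pi) =
      (fun θ => psiF (2 * m + 1) ν a 0 θ + t) θ := fun θ => by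
    simp only [hPper]
  have hMt : ∀ p : ℝ × ℝ, j * Real.log 2 < p.1 → nm (cF (2 * m + 1) ν a t p) ≤ 2 * B := fun p hp => by
    rw [hcF]
    have h1 := kqLocal_nm_add (cF (2 * m + 1) ν a 0 p) t
    have h2 := hM p hp
    linarith
  have hFPt : ∀ p : ℝ × ℝ, j * Real.log 2 < p.1 →
      nm (cF (2 * m + 1) ν a t p - (fun θ => psiF (2 * m + 1) ν a 0 θ + t) p.2) ≤ B / 2 ^ j := fun p hp => by
    rw [hcF]
    simpa only [add_sub_add_right_eq_sub] using hFP p hp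
  have hκt : ∀ s s' θ : ℝ, j * Real.log 2 < s → j * Real.log 2 < s' →
      nm (cF (2 * m + 1) ν a t (s, θ) - cF (2 * m + 1) ν a t (s', θ)) ≤ B / 2 ^ j * |s - s'| :=
    fun s s' θ hs hs' => by
      rw [hcF, hcF]
      simpa only [add_sub_add_right_eq_sub] using hκ s s' θ hs hs'
  have hcyl := cylField_kVF hu a t
  have hcont := kqLocal_cont (2 * m + 1) (kshift2 u a t)
  rcases hgood with ⟨e, he, hout⟩ | ⟨hin, hne⟩
  · have h1 := good_out hcyl hcont hFt hpert hPt hP' hPpert hε (hε1.trans hB)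
      (by positivity) hp1 hL hMt hFPt hκt he hout
    refine (lintegral_mono fun α => kqLocal_NL_le _ j).trans (h1.trans ?_)
    exact ENNReal.ofReal_le_ofReal hp2
  · have h1 : ∀ α, NL (turn α (kVF (2 * m + 1) (kshift2 u a t))) j = 0 := fun α => by
      refine le_antisymm ((kqLocal_NL_le _ j).trans ?_) zero_le
      rw [nonpos_iff_eq_zero]
      have h2 : ({C | IsClosedOrbit (turn α (kVF (2 * m + 1) (kshift2 u a t))) C ∧
          C ⊆ {z | Real.exp (j * Real.log 2) < nm z} ∧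
          ∃ z ∈ C, nm z ≤ Real.exp (j * Real.log 2 + 1)} : Set (Set (ℝ × ℝ))) = ∅ := by
        rw [Set.eq_empty_iff_forall_notMem]
        rintro C ⟨hC1, hC2, -⟩
        exact good_in hcyl hcont hFt hpert hε hp3 hFPt hin hne α hC1 hC2
      rw [h2]
      simp
    simp [h1]

theorem ext_local : ∃ (C : ℝ) (A : ℕ), 0 ≤ C ∧ ∀ (m : ℕ) (u : KSp (2 * m + 1)) (ν : ℝ),
    OddDir m u ν → ∀ (a : KSp (2 * m + 1)) (j : ℕ), ((2 * m + 1 : ℕ) : ℝ) ≤ 2 ^ j →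
    ∫⁻ t in {t : ℝ × ℝ | nm t ≤ 1}, ∫⁻ α in Set.Ioo 0 Real.pi,
      NL (turn α (kVF (2 * m + 1) (kshift2 u a t))) j ≤
      ENNReal.ofReal (C * (m + 1) ^ A * kS a ^ 2 / 2 ^ (j / 48)) := by
  obtain ⟨C0, hC0, hpsi⟩ := psi_data
  obtain ⟨C1, hC1, hbad⟩ := ext_bad
  refine ⟨64 * C1 * C0 + 4 * 10 ^ 12, 10, by positivity, fun m u ν hu a j hj => ?_⟩
  have hS : 1 ≤ kS a := by
    unfold kS
    have : 0 ≤ ∑ p, (|(a p).1| + |(a p).2|) := Finset.sum_nonneg fun p _ => by positivity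
    linarith
  have hν := hu.1
  have hν2 : ν ≤ 2 * ((2 * m + 1 : ℕ) : ℝ) := by
    have h1 := hu.2.1
    push_cast
    have : (0 : ℝ) ≤ m := Nat.cast_nonneg m
    linarith
  obtain ⟨hF, hper, hPper, P', P'', hP, hP', hbd, hj'⟩ :=
    hpsi (2 * m + 1) (by omega) ν hν.le hν2 a
  obtain ⟨hM, hκ⟩ := hj' j hj
  set B : ℝ := C0 * ((2 * m + 1 : ℕ) : ℝ) ^ 4 * kS a with hBdef
  have hm0 : (0 : ℝ) ≤ m := Nat.cast_nonneg m
  have hn1 : (1 : ℝ) ≤ ((2 * m + 1 : ℕ) : ℝ) := by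
    push_cast
    linarith
  have hB1 : 1 ≤ B := by
    rw [hBdef]
    exact one_le_mul_of_one_le_of_one_le
      (one_le_mul_of_one_le_of_one_le hC0 (one_le_pow₀ hn1)) hS
  have hB16 : B ≤ 16 * C0 * (m + 1) ^ 4 * kS a := by
    have h1 : ((2 * m + 1 : ℕ) : ℝ) ^ 4 ≤ (2 * ((m : ℝ) + 1)) ^ 4 := by
      apply pow_le_pow_left₀ (by positivity)
      push_cast
      linarith
    calc B ≤ C0 * (2 * ((m : ℝ) + 1)) ^ 4 * kS a := by rw [hBdef]; gcongr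
      _ = 16 * C0 * (m + 1) ^ 4 * kS a := by ring
  set D : Set (ℝ × ℝ) := {t : ℝ × ℝ | nm t ≤ 1} with hD
  have hDm : MeasurableSet D := by
    have : Continuous (fun t : ℝ × ℝ => nm t) := by unfold nm; fun_prop
    exact (isClosed_le this continuous_const).measurableSet
  have hDv : volume D ≤ ENNReal.ofReal 4 := by
    have := volume_nm_le (σ := 1) zero_le_one
    simpa using this
  have hm1 : (1 : ℝ) ≤ (m : ℝ) + 1 := by linarith
  by_cases hcase : 1 ≤ j / 48 ∧ B ≤ 2 ^ (2 * (j / 48))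
  · obtain ⟨hl, hB2⟩ := hcase
    set l : ℕ := j / 48 with hldef
    have hjl : 48 * l ≤ j := Nat.mul_div_le j 48
    have hε : (0 : ℝ) < ((2 : ℝ) ^ (4 * l))⁻¹ := by positivity
    have hε1 : ((2 : ℝ) ^ (4 * l))⁻¹ ≤ 1 := inv_le_one_of_one_le₀ (one_le_pow₀ (by norm_num))
    obtain ⟨Bad, hBm, hBv, hBad⟩ := bad_area hP hPper hB1 hε hε1 (fun θ => (hbd θ).1)
      (fun θ => (hbd θ).2.1)
    rw [← lintegral_inter_add_sdiff _ D hBm]
    have e1 : ∫⁻ t in D ∩ Bad, ∫⁻ α in Set.Ioo 0 Real.pi,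
        NL (turn α (kVF (2 * m + 1) (kshift2 u a t))) j ≤
        ENNReal.ofReal (C1 * (m + 1) ^ 6 * kS a * (32 / 2 ^ l)) := by
      refine hbad m u ν hu a j hj (D ∩ Bad) (32 / 2 ^ l) (hDm.inter hBm) (fun t ht => ht.1)
        (by positivity) ?_
      refine (measure_mono Set.inter_subset_right).trans (hBv.trans ?_)
      apply ENNReal.ofReal_le_ofReal
      have h2 : (0 : ℝ) < 2 ^ l := by positivity
      have e2 : (2 : ℝ) ^ (2 * l) = (2 ^ l) ^ 2 := by rw [← pow_mul, mul_comm]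
      have e4 : (2 : ℝ) ^ (4 * l) = (2 ^ l) ^ 4 := by rw [← pow_mul, mul_comm]
      rw [e2] at hB2
      rw [e4]
      calc 1000 * B * ((2 ^ l) ^ 4)⁻¹ ≤ 1000 * (2 ^ l) ^ 2 * ((2 ^ l) ^ 4)⁻¹ := by gcongr
        _ = 1000 / (2 ^ l) ^ 2 := by
            field_simp
        _ ≤ 1024 / (2 ^ l) ^ 2 := by gcongr; norm_num
        _ = (32 / 2 ^ l) ^ 2 := by
            rw [div_pow]
            norm_num
    have e3 : ∫⁻ t in D \ Bad, ∫⁻ α in Set.Ioo 0 Real.pi,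
        NL (turn α (kVF (2 * m + 1) (kshift2 u a t))) j ≤
        ENNReal.ofReal (4 * 10 ^ 12 / 2 ^ l) := by
      have h1 : ∫⁻ t in D \ Bad, ∫⁻ α in Set.Ioo 0 Real.pi,
          NL (turn α (kVF (2 * m + 1) (kshift2 u a t))) j ≤
          ∫⁻ _ in D \ Bad, ENNReal.ofReal (10 ^ 12 / 2 ^ l) := by
        refine setLIntegral_mono' (hDm.diff hBm) fun t ht => ?_
        exact kqLocal_good hu a hl hjl hB1 hB2 hF hper hPper hP hP' (fun θ => (hbd θ).2.2)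
          (fun p hp => (hM p hp).1) (fun p hp => (hM p hp).2) hκ ht.1 (hBad t ht.2)
      refine h1.trans ?_
      rw [setLIntegral_const]
      calc ENNReal.ofReal (10 ^ 12 / 2 ^ l) * volume (D \ Bad)
          ≤ ENNReal.ofReal (10 ^ 12 / 2 ^ l) * ENNReal.ofReal 4 := by
            gcongr
            exact (measure_mono Set.sdiff_subset).trans hDv
        _ = ENNReal.ofReal (4 * 10 ^ 12 / 2 ^ l) := by
            rw [← ENNReal.ofReal_mul (by positivity)]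
            congr 1
            ring
    refine (add_le_add e1 e3).trans ?_
    rw [← ENNReal.ofReal_add (by positivity) (by positivity)]
    apply ENNReal.ofReal_le_ofReal
    have h2 : (0 : ℝ) < 2 ^ l := by positivity
    have h3 : C1 * (m + 1) ^ 6 * kS a * 32 + 4 * 10 ^ 12 ≤
        (64 * C1 * C0 + 4 * 10 ^ 12) * (m + 1) ^ 10 * kS a ^ 2 := by
      have h4 : C1 * (m + 1) ^ 6 * kS a * 32 ≤ 64 * C1 * C0 * ((m + 1) ^ 10 * kS a ^ 2) := by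
        have h5 : ((m : ℝ) + 1) ^ 6 ≤ (m + 1) ^ 10 := pow_le_pow_right₀ hm1 (by norm_num)
        have h6 : kS a ≤ kS a ^ 2 := le_self_pow₀ hS (by norm_num)
        calc C1 * (m + 1) ^ 6 * kS a * 32 ≤ C1 * (m + 1) ^ 10 * kS a ^ 2 * (64 * C0) := by
              gcongr
              linarith
          _ = 64 * C1 * C0 * ((m + 1) ^ 10 * kS a ^ 2) := by ring
      have h7 : (1 : ℝ) ≤ (m + 1) ^ 10 * kS a ^ 2 :=
        one_le_mul_of_one_le_of_one_le (one_le_pow₀ hm1) (one_le_pow₀ hS)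
      calc C1 * (m + 1) ^ 6 * kS a * 32 + 4 * 10 ^ 12
          ≤ 64 * C1 * C0 * ((m + 1) ^ 10 * kS a ^ 2) +
            4 * 10 ^ 12 * ((m + 1) ^ 10 * kS a ^ 2) :=
            add_le_add h4 (le_mul_of_one_le_right (by norm_num) h7)
        _ = (64 * C1 * C0 + 4 * 10 ^ 12) * (m + 1) ^ 10 * kS a ^ 2 := by ring
    rw [← mul_div_assoc, ← add_div]
    gcongr
  · have e1 := hbad m u ν hu a j hj D 2 hDm (fun t ht => ht) (by norm_num)
      (hDv.trans (by norm_num))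
    refine e1.trans (ENNReal.ofReal_le_ofReal ?_)
    have h2 : (0 : ℝ) < 2 ^ (j / 48) := by positivity
    have hx1 : (1 : ℝ) ≤ 2 ^ (j / 48) := one_le_pow₀ (by norm_num)
    have h3 : (2 : ℝ) ^ (j / 48) ≤ B := by
      by_cases h0 : 1 ≤ j / 48
      · have h4 : (2 : ℝ) ^ (2 * (j / 48)) < B := by
          by_contra h5
          exact hcase ⟨h0, not_lt.1 h5⟩
        calc (2 : ℝ) ^ (j / 48) ≤ 2 ^ (2 * (j / 48)) :=
              pow_le_pow_right₀ (by norm_num) (by omega)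
          _ ≤ B := h4.le
      · have h4 : j / 48 = 0 := by omega
        rw [h4, pow_zero]
        exact hB1
    rw [le_div_iff₀ h2]
    calc C1 * (m + 1) ^ 6 * kS a * 2 * 2 ^ (j / 48)
        ≤ C1 * (m + 1) ^ 6 * kS a * 2 * (16 * C0 * (m + 1) ^ 4 * kS a) := by
          gcongr
          exact h3.trans hB16
      _ = 32 * C1 * C0 * ((m + 1) ^ 10 * kS a ^ 2) := by ring
      _ ≤ (64 * C1 * C0 + 4 * 10 ^ 12) * ((m + 1) ^ 10 * kS a ^ 2) := by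
          have h9 : 0 ≤ C1 * C0 := mul_nonneg hC1 (zero_le_one.trans hC0)
          refine mul_le_mul_of_nonneg_right ?_ (by positivity)
          linarith
      _ = (64 * C1 * C0 + 4 * 10 ^ 12) * (m + 1) ^ 10 * kS a ^ 2 := by ring

end Pool.Agent.Lib.MP_95e7ec_an
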