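import Mathlib
import Pool.Agent.Lib.MP_95e7ec_an.KosMom
import Pool.Agent.Lib.MP_95e7ec_an.KqDefs

/-!
# A moment bound for the shifts in a general direction (task Q2)
-/

set_option autoImplicit false

open Set Filter Topology MeasureTheory ProbabilityTheory
open scoped ContDiff ENNReal

namespace Pool.Agent.Lib.MP_95e7ec_an

private theorem kqm_card (n : ℕ) : Fintype.card (KIdx n) ≤ (n + 1) ^ 2 := by
  have h := Fintype.card_subtype_le (fun p : Fin (n + 1) × Fin (n + 1) => (p.1 : ℕ) + (p.2 : ℕ) ≤ n)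
  rw [Fintype.card_prod, Fintype.card_fin] at h
  rw [sq]
  exact h

private theorem kqm_card_pos (n : ℕ) : 1 ≤ Fintype.card (KIdx n) := by
  have : Nonempty (KIdx n) := ⟨⟨(0, 0), by simp⟩⟩
  exact Fintype.card_pos

private theorem kqm_add4 (x y : ℝ) : (x + y) ^ 4 ≤ 8 * (x ^ 4 + y ^ 4) := by
  nlinarith [sq_nonneg (x - y), sq_nonneg (x ^ 2 - y ^ 2), sq_nonneg (x + y),
    mul_nonneg (sq_nonneg (x - y)) (sq_nonneg (x + y)),
    mul_nonneg (sq_nonneg (x - y)) (sq_nonneg (x - y)), sq_nonneg (x * y), sq_nonneg (x ^ 2 - x * y),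
    sq_nonneg (y ^ 2 - x * y), sq_nonneg (x ^ 2 + y ^ 2 - 2 * x * y)]

private theorem kqm_fourth {ι : Type*} [Fintype ι] (f : ι → ℝ) {c : ℝ}
    (hc : (Fintype.card ι : ℝ) = c) :
    (∑ i, f i) ^ 4 ≤ c ^ 3 * ∑ i, f i ^ 4 := by
  have h1 : (∑ i, f i) ^ 2 ≤ c * ∑ i, f i ^ 2 := by
    have := sq_sum_le_card_mul_sum_sq (s := Finset.univ) (f := f)
    rw [Finset.card_univ, hc] at this
    exact this
  have h2 : (∑ i, f i ^ 2) ^ 2 ≤ c * ∑ i, (f i ^ 2) ^ 2 := by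
    have := sq_sum_le_card_mul_sum_sq (s := Finset.univ) (f := fun i => f i ^ 2)
    rw [Finset.card_univ, hc] at this
    exact this
  have h3 : ∑ i, (f i ^ 2) ^ 2 = ∑ i, f i ^ 4 := by
    refine Finset.sum_congr rfl fun i _ => by ring
  rw [h3] at h2
  calc (∑ i, f i) ^ 4 = ((∑ i, f i) ^ 2) ^ 2 := by ring
    _ ≤ (c * ∑ i, f i ^ 2) ^ 2 := by
        apply pow_le_pow_left₀ (sq_nonneg _) h1
    _ = c ^ 2 * (∑ i, f i ^ 2) ^ 2 := by ring
    _ ≤ c ^ 2 * (c * ∑ i, f i ^ 4) := by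
        apply mul_le_mul_of_nonneg_left h2 (sq_nonneg _)
    _ = c ^ 3 * ∑ i, f i ^ 4 := by ring

private theorem kqm_pt {n : ℕ} (c : ℝ) (hc : (Fintype.card (KIdx n) : ℝ) = c) (hc1 : 1 ≤ c)
    (E : ℝ) (a : KSp n) :
    E * (1 + ∑ p, (|(a p).1| + |(a p).2|)) ^ 2 ≤
      c ^ 2 / 2 * E ^ 2 + (4 / c ^ 2 + ∑ p, (32 * c * (a p).1 ^ 4 + 32 * c * (a p).2 ^ 4)) := by
  have hc0 : 0 < c := by linarith
  set T := 1 + ∑ p, (|(a p).1| + |(a p).2|) with hT
  have h1 : T ^ 4 ≤ 8 + 64 * c ^ 3 * ∑ p, ((a p).1 ^ 4 + (a p).2 ^ 4) := by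
    have h2 := kqm_add4 1 (∑ p, (|(a p).1| + |(a p).2|))
    have h3 := kqm_fourth (fun p : KIdx n => |(a p).1| + |(a p).2|) hc
    have h4 : ∑ p, (|(a p).1| + |(a p).2|) ^ 4 ≤ 8 * ∑ p, ((a p).1 ^ 4 + (a p).2 ^ 4) := by
      rw [Finset.mul_sum]
      refine Finset.sum_le_sum fun p _ => ?_
      have := kqm_add4 |(a p).1| |(a p).2|
      have e1 : |(a p).1| ^ 4 = (a p).1 ^ 4 := by
        rw [show (4 : ℕ) = 2 * 2 from rfl, pow_mul, pow_mul, sq_abs]
      have e2 : |(a p).2| ^ 4 = (a p).2 ^ 4 := by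
        rw [show (4 : ℕ) = 2 * 2 from rfl, pow_mul, pow_mul, sq_abs]
      rwa [e1, e2] at this
    have h5 : c ^ 3 * ∑ p, (|(a p).1| + |(a p).2|) ^ 4 ≤
        c ^ 3 * (8 * ∑ p, ((a p).1 ^ 4 + (a p).2 ^ 4)) :=
      mul_le_mul_of_nonneg_left h4 (by positivity)
    rw [hT]
    nlinarith [h2, h3, h5]
  have h6 : E * T ^ 2 ≤ c ^ 2 / 2 * E ^ 2 + T ^ 4 / (2 * c ^ 2) := by
    have : 0 ≤ (c * E - T ^ 2 / c) ^ 2 / 2 := by positivity
    have e : (c * E - T ^ 2 / c) ^ 2 / 2 =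
        c ^ 2 / 2 * E ^ 2 + T ^ 4 / (2 * c ^ 2) - E * T ^ 2 := by
      field_simp; ring
    linarith
  have h7 : T ^ 4 / (2 * c ^ 2) ≤
      (8 + 64 * c ^ 3 * ∑ p, ((a p).1 ^ 4 + (a p).2 ^ 4)) / (2 * c ^ 2) := by
    gcongr
  have h8 : (8 + 64 * c ^ 3 * ∑ p, ((a p).1 ^ 4 + (a p).2 ^ 4)) / (2 * c ^ 2) =
      4 / c ^ 2 + 32 * c * ∑ p, ((a p).1 ^ 4 + (a p).2 ^ 4) := by
    field_simp; ring
  have h9 : 32 * c * ∑ p, ((a p).1 ^ 4 + (a p).2 ^ 4) =
      ∑ p, (32 * c * (a p).1 ^ 4 + 32 * c * (a p).2 ^ 4) := by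
    rw [Finset.mul_sum]
    exact Finset.sum_congr rfl fun p _ => by ring
  rw [h8, h9] at h7
  linarith

private theorem kqm_coord {n : ℕ} (p : KIdx n) :
    ∫⁻ a, ENNReal.ofReal ((a p).1 ^ 4) ∂kMeas n ≤ ENNReal.ofReal 100 ∧
    ∫⁻ a, ENNReal.ofReal ((a p).2 ^ 4) ∂kMeas n ≤ ENNReal.ofReal 100 := by
  classical
  have h := kMeas_fourth (n := n) (Pi.single p 1) (by
    rw [Finset.sum_eq_single p]
    · simp
    · intro q _ hq; simp [Pi.single_eq_of_ne hq]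
    · simp)
  have e : ∀ a : KSp n, klin (Pi.single p 1) a = a p := by
    intro a
    unfold klin
    rw [Finset.sum_eq_single p]
    · simp
    · intro q _ hq; simp [Pi.single_eq_of_ne hq]
    · simp
  simp only [e] at h
  exact h

/-- the real part of the Hermitian product -/
private noncomputable def kqmA {n : ℕ} (u a : KSp n) : ℝ :=
  ∑ p, ((u p).1 * (a p).1 + (u p).2 * (a p).2)

/-- the imaginary part -/
private noncomputable def kqmB {n : ℕ} (u a : KSp n) : ℝ :=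
  ∑ p, ((u p).1 * (a p).2 - (u p).2 * (a p).1)

private theorem kqm_prod {n : ℕ} (u : KSp n) (l1 l2 : ℝ) (a : KSp n) :
    Real.exp (l1 * kqmA u a + l2 * kqmB u a) =
      ∏ p, (Real.exp ((l1 * (u p).1 - l2 * (u p).2) * (a p).1) *
        Real.exp ((l1 * (u p).2 + l2 * (u p).1) * (a p).2)) := by
  simp_rw [← Real.exp_add]
  rw [← Real.exp_sum, kqmA, kqmB, Finset.mul_sum, Finset.mul_sum, ← Finset.sum_add_distrib]
  congr 1
  exact Finset.sum_congr rfl fun p _ => by ring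

private theorem kqm_integrable {n : ℕ} (u : KSp n) (l1 l2 : ℝ) :
    Integrable (fun a : KSp n => Real.exp (l1 * kqmA u a + l2 * kqmB u a)) (kMeas n) := by
  simp_rw [kqm_prod]
  unfold kMeas
  exact Integrable.fintype_prod (f := fun (p : KIdx n) (q : ℝ × ℝ) =>
    Real.exp ((l1 * (u p).1 - l2 * (u p).2) * q.1) *
      Real.exp ((l1 * (u p).2 + l2 * (u p).1) * q.2)) fun p =>
    (integrable_exp_mul_gaussianReal _).mul_prod (integrable_exp_mul_gaussianReal _)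

private theorem kqm_mgf (t : ℝ) : ∫ x, Real.exp (t * x) ∂gaussianReal 0 1 =
    Real.exp (t ^ 2 / 2) := by
  have h := congrFun (mgf_fun_id_gaussianReal (μ := 0) (v := 1)) t
  simpa [mgf] using h

private theorem kqm_integral {n : ℕ} (u : KSp n) (l1 l2 : ℝ) :
    ∫ a : KSp n, Real.exp (l1 * kqmA u a + l2 * kqmB u a) ∂kMeas n =
      Real.exp ((l1 ^ 2 + l2 ^ 2) / 2 * ∑ p, ((u p).1 ^ 2 + (u p).2 ^ 2)) := by
  simp_rw [kqm_prod]
  unfold kMeas
  rw [integral_fintype_prod_eq_prod (f := fun (p : KIdx n) (q : ℝ × ℝ) =>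
    Real.exp ((l1 * (u p).1 - l2 * (u p).2) * q.1) *
      Real.exp ((l1 * (u p).2 + l2 * (u p).1) * q.2))]
  have h1 : ∀ p : KIdx n, ∫ q : ℝ × ℝ, Real.exp ((l1 * (u p).1 - l2 * (u p).2) * q.1) *
      Real.exp ((l1 * (u p).2 + l2 * (u p).1) * q.2)
      ∂((gaussianReal 0 1).prod (gaussianReal 0 1)) =
      Real.exp ((l1 ^ 2 + l2 ^ 2) / 2 * ((u p).1 ^ 2 + (u p).2 ^ 2)) := by
    intro p
    rw [integral_prod_mul (fun x => Real.exp ((l1 * (u p).1 - l2 * (u p).2) * x))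
      (fun x => Real.exp ((l1 * (u p).2 + l2 * (u p).1) * x)),
      kqm_mgf, kqm_mgf, ← Real.exp_add]
    congr 1
    ring
  simp_rw [h1]
  rw [← Real.exp_sum, ← Finset.mul_sum]

private theorem kqm_lintegral {n : ℕ} (u : KSp n) (l1 l2 : ℝ) :
    ∫⁻ a : KSp n, ENNReal.ofReal (Real.exp (l1 * kqmA u a + l2 * kqmB u a)) ∂kMeas n =
      ENNReal.ofReal (Real.exp ((l1 ^ 2 + l2 ^ 2) / 2 * ∑ p, ((u p).1 ^ 2 + (u p).2 ^ 2))) := by
  rw [← kqm_integral, ofReal_integral_eq_lintegral_ofReal (kqm_integrable u l1 l2)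
    (Eventually.of_forall fun a => (Real.exp_pos _).le)]

private theorem kqm_meas {n : ℕ} (u : KSp n) (l1 l2 : ℝ) :
    Measurable fun a : KSp n => ENNReal.ofReal
      (Real.exp (l1 * kqmA u a + l2 * kqmB u a)) := by
  have h1 : Continuous fun a : KSp n => Real.exp (l1 * kqmA u a + l2 * kqmB u a) := by
    unfold kqmA kqmB
    fun_prop
  exact h1.measurable.ennreal_ofReal

private theorem kqm_exp_abs (x : ℝ) : Real.exp |x| ≤ Real.exp x + Real.exp (-x) := by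
  have h1 := Real.exp_pos x
  have h2 := Real.exp_pos (-x)
  rcases abs_cases x with ⟨h, -⟩ | ⟨h, -⟩
  · rw [h]; linarith
  · rw [h]; linarith

private theorem kqm_exp {n : ℕ} (u : KSp n) (hu : ∑ p, ((u p).1 ^ 2 + (u p).2 ^ 2) = 1) :
    ∫⁻ a, ENNReal.ofReal (kexp2 u a ^ 2) ∂kMeas n ≤ ENNReal.ofReal (4 * Real.exp 4) := by
  have hpt : ∀ a : KSp n, ENNReal.ofReal (kexp2 u a ^ 2) ≤
      ENNReal.ofReal (Real.exp (2 * kqmA u a + 2 * kqmB u a)) +
      (ENNReal.ofReal (Real.exp (2 * kqmA u a + (-2) * kqmB u a)) +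
      (ENNReal.ofReal (Real.exp ((-2) * kqmA u a + 2 * kqmB u a)) +
      ENNReal.ofReal (Real.exp ((-2) * kqmA u a + (-2) * kqmB u a)))) := by
    intro a
    have e1 := Real.exp_pos (2 * kqmA u a + 2 * kqmB u a)
    have e2 := Real.exp_pos (2 * kqmA u a + (-2) * kqmB u a)
    have e3 := Real.exp_pos ((-2) * kqmA u a + 2 * kqmB u a)
    have e4 := Real.exp_pos ((-2) * kqmA u a + (-2) * kqmB u a)
    rw [← ENNReal.ofReal_add e3.le e4.le, ← ENNReal.ofReal_add e2.le (by positivity),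
      ← ENNReal.ofReal_add e1.le (by positivity)]
    apply ENNReal.ofReal_le_ofReal
    have h1 : kexp2 u a ^ 2 = Real.exp |2 * kqmA u a| * Real.exp |2 * kqmB u a| := by
      rw [kexp2, sq, ← Real.exp_add, ← Real.exp_add, abs_mul, abs_mul, abs_two, kqmA, kqmB]
      congr 1
      ring
    have h2 := kqm_exp_abs (2 * kqmA u a)
    have h3 := kqm_exp_abs (2 * kqmB u a)
    rw [h1]
    refine (mul_le_mul h2 h3 (Real.exp_pos _).le (by positivity)).trans (le_of_eq ?_)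
    simp only [add_mul, mul_add, ← Real.exp_add]
    simp only [neg_mul]
    ring
  refine (lintegral_mono hpt).trans ?_
  rw [lintegral_add_left (kqm_meas u 2 2), lintegral_add_left (kqm_meas u 2 (-2)),
    lintegral_add_left (kqm_meas u (-2) 2), kqm_lintegral, kqm_lintegral, kqm_lintegral,
    kqm_lintegral, hu]
  have h4 : ∀ l1 l2 : ℝ, l1 ^ 2 = 4 → l2 ^ 2 = 4 →
      ENNReal.ofReal (Real.exp ((l1 ^ 2 + l2 ^ 2) / 2 * 1)) ≤ ENNReal.ofReal (Real.exp 4) := by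
    intro l1 l2 h1 h2
    apply ENNReal.ofReal_le_ofReal
    apply Real.exp_le_exp.2
    rw [h1, h2]
    norm_num
  have k1 := h4 2 2 (by norm_num) (by norm_num)
  have k2 := h4 2 (-2) (by norm_num) (by norm_num)
  have k3 := h4 (-2) 2 (by norm_num) (by norm_num)
  have k4 := h4 (-2) (-2) (by norm_num) (by norm_num)
  refine (add_le_add k1 (add_le_add k2 (add_le_add k3 k4))).trans (le_of_eq ?_)
  have h5 := (Real.exp_pos 4).le
  rw [← ENNReal.ofReal_add h5 h5, ← ENNReal.ofReal_add h5 (by positivity),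
    ← ENNReal.ofReal_add h5 (by positivity)]
  congr 1
  ring

theorem kexp2_moment : ∃ C : ℝ, 0 ≤ C ∧ ∀ (n : ℕ) (u : KSp n),
    ∑ p, ((u p).1 ^ 2 + (u p).2 ^ 2) = 1 →
    ∫⁻ a, ENNReal.ofReal (kexp2 u a * kS a ^ 2) ∂kMeas n ≤
      ENNReal.ofReal (C * (n + 1) ^ 4) := by
  refine ⟨2 * Real.exp 4 + 6404, by positivity, ?_⟩
  intro n u hu
  have : IsProbabilityMeasure (kMeas n) := by unfold kMeas; infer_instance
  obtain ⟨c, hc⟩ : ∃ c : ℝ, (Fintype.card (KIdx n) : ℝ) = c := ⟨_, rfl⟩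
  have hc1 : 1 ≤ c := by rw [← hc]; exact_mod_cast kqm_card_pos n
  have hc2 : c ≤ ((n : ℝ) + 1) ^ 2 := by rw [← hc]; exact_mod_cast kqm_card n
  have hc0 : 0 < c := by linarith
  have hm1 : ∀ p : KIdx n, Measurable fun a : KSp n => ENNReal.ofReal (32 * c * (a p).1 ^ 4) := by
    intro p; fun_prop
  have hm2 : ∀ p : KIdx n, Measurable fun a : KSp n => ENNReal.ofReal (32 * c * (a p).2 ^ 4) := by
    intro p; fun_prop
  have hpt : ∀ a : KSp n,
      ENNReal.ofReal (kexp2 u a * kS a ^ 2) ≤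
      ENNReal.ofReal (c ^ 2 / 2 * kexp2 u a ^ 2) + (ENNReal.ofReal (4 / c ^ 2) +
        ∑ p, (ENNReal.ofReal (32 * c * (a p).1 ^ 4) + ENNReal.ofReal (32 * c * (a p).2 ^ 4))) := by
    intro a
    refine (ENNReal.ofReal_le_ofReal (kqm_pt c hc hc1 (kexp2 u a) a)).trans (le_of_eq ?_)
    rw [ENNReal.ofReal_add (by positivity) (by positivity),
      ENNReal.ofReal_add (by positivity) (by positivity),
      ENNReal.ofReal_sum_of_nonneg (fun p _ => by positivity)]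
    congr 2
    refine Finset.sum_congr rfl fun p _ => ?_
    rw [ENNReal.ofReal_add (by positivity) (by positivity)]
  refine (lintegral_mono hpt).trans ?_
  have hms2 : Measurable fun a : KSp n =>
      ∑ p, (ENNReal.ofReal (32 * c * (a p).1 ^ 4) + ENNReal.ofReal (32 * c * (a p).2 ^ 4)) :=
    Finset.measurable_sum _ fun p _ => (hm1 p).add (hm2 p)
  have hm3 : ∀ p : KIdx n, Measurable fun a : KSp n =>
      (ENNReal.ofReal (32 * c * (a p).1 ^ 4) + ENNReal.ofReal (32 * c * (a p).2 ^ 4)) :=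
    fun p => (hm1 p).add (hm2 p)
  have hms : Measurable fun a : KSp n => (ENNReal.ofReal (4 / c ^ 2) +
        ∑ p, (ENNReal.ofReal (32 * c * (a p).1 ^ 4) + ENNReal.ofReal (32 * c * (a p).2 ^ 4))) :=
    measurable_const.add hms2
  rw [lintegral_add_right _ hms, lintegral_add_right _ hms2, lintegral_const, measure_univ,
    mul_one, lintegral_finsetSum _ (fun p _ => hm3 p)]
  have i1 : ∫⁻ a, ENNReal.ofReal (c ^ 2 / 2 * kexp2 u a ^ 2) ∂kMeas n ≤
      ENNReal.ofReal (c ^ 2 / 2 * (4 * Real.exp 4)) := by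
    have : ∀ a : KSp n, ENNReal.ofReal (c ^ 2 / 2 * kexp2 u a ^ 2) =
        ENNReal.ofReal (c ^ 2 / 2) * ENNReal.ofReal (kexp2 u a ^ 2) := fun a =>
      ENNReal.ofReal_mul (by positivity)
    simp_rw [this]
    rw [lintegral_const_mul' _ _ ENNReal.ofReal_ne_top, ENNReal.ofReal_mul (by positivity)]
    gcongr
    exact kqm_exp u hu
  have i2 : ∀ p : KIdx n, ∫⁻ a : KSp n, (ENNReal.ofReal (32 * c * (a p).1 ^ 4) +
      ENNReal.ofReal (32 * c * (a p).2 ^ 4)) ∂kMeas n ≤ ENNReal.ofReal (6400 * c) := by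
    intro p
    rw [lintegral_add_right _ (hm2 p)]
    have e1 : ∀ x : ℝ, ENNReal.ofReal (32 * c * x ^ 4) =
        ENNReal.ofReal (32 * c) * ENNReal.ofReal (x ^ 4) := fun x =>
      ENNReal.ofReal_mul (by positivity)
    simp_rw [e1]
    rw [lintegral_const_mul' _ _ ENNReal.ofReal_ne_top,
      lintegral_const_mul' _ _ ENNReal.ofReal_ne_top]
    obtain ⟨h1, h2⟩ := kqm_coord p
    calc _ ≤ ENNReal.ofReal (32 * c) * ENNReal.ofReal 100 +
          ENNReal.ofReal (32 * c) * ENNReal.ofReal 100 := by gcongr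
      _ = ENNReal.ofReal (6400 * c) := by
        rw [← ENNReal.ofReal_mul (by positivity), ← ENNReal.ofReal_add (by positivity)
          (by positivity)]
        congr 1; ring
  have i3 : ∑ p : KIdx n, ∫⁻ a : KSp n, (ENNReal.ofReal (32 * c * (a p).1 ^ 4) +
      ENNReal.ofReal (32 * c * (a p).2 ^ 4)) ∂kMeas n ≤ ENNReal.ofReal (c * (6400 * c)) := by
    refine (Finset.sum_le_card_nsmul _ _ _ fun p _ => i2 p).trans (le_of_eq ?_)
    rw [Finset.card_univ, nsmul_eq_mul, ENNReal.ofReal_mul hc0.le, ← hc,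
      ENNReal.ofReal_natCast]
  have hexp := Real.exp_pos 4
  calc _ ≤ ENNReal.ofReal (c ^ 2 / 2 * (4 * Real.exp 4)) + (ENNReal.ofReal (4 / c ^ 2) +
        ENNReal.ofReal (c * (6400 * c))) := by gcongr
    _ = ENNReal.ofReal (c ^ 2 / 2 * (4 * Real.exp 4) + (4 / c ^ 2 + c * (6400 * c))) := by
        rw [ENNReal.ofReal_add (by positivity) (by positivity),
          ENNReal.ofReal_add (by positivity) (by positivity)]
    _ ≤ ENNReal.ofReal ((2 * Real.exp 4 + 6404) * (n + 1) ^ 4) := by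
        apply ENNReal.ofReal_le_ofReal
        have h1 : 4 / c ^ 2 ≤ 4 * c ^ 2 := by
          rw [div_le_iff₀ (by positivity)]
          have : 1 ≤ c ^ 2 := one_le_pow₀ hc1
          nlinarith
        have h2 : c ^ 2 ≤ ((n : ℝ) + 1) ^ 4 := by
          calc c ^ 2 ≤ (((n : ℝ) + 1) ^ 2) ^ 2 := by gcongr
            _ = ((n : ℝ) + 1) ^ 4 := by ring
        calc c ^ 2 / 2 * (4 * Real.exp 4) + (4 / c ^ 2 + c * (6400 * c))
            ≤ c ^ 2 / 2 * (4 * Real.exp 4) + (4 * c ^ 2 + c * (6400 * c)) := by linarith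
          _ = (2 * Real.exp 4 + 6404) * c ^ 2 := by ring
          _ ≤ (2 * Real.exp 4 + 6404) * ((n : ℝ) + 1) ^ 4 := by gcongr

end Pool.Agent.Lib.MP_95e7ec_an
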