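import Mathlib
import Pool.Agent.Lib.MP_95e7ec_an.KosShift
import Pool.Agent.Lib.MP_95e7ec_an.KqDefs

/-!
# The Cameron-Martin inequality for complex shifts
-/

set_option autoImplicit false

open Set Filter Topology MeasureTheory ProbabilityTheory
open scoped ContDiff ENNReal

namespace Pool.Agent.Lib.MP_95e7ec_an

theorem kqs_measurable_cmul (w : ℝ × ℝ) : Measurable fun t : ℝ × ℝ => cmul t w := by
  unfold cmul
  fun_prop

theorem measurable_kshift2 {n : ℕ} (u : KSp n) :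
    Measurable fun q : KSp n × (ℝ × ℝ) => kshift2 u q.1 q.2 := by
  unfold kshift2
  refine measurable_pi_lambda _ fun p => ?_
  exact ((measurable_pi_apply p).comp measurable_fst).add
    ((kqs_measurable_cmul (u p)).comp measurable_snd)

/-- the Cameron-Martin formula -/
theorem kqs_shift {n : ℕ} (u : KSp n) (t : ℝ × ℝ) {f : KSp n → ℝ≥0∞}
    (hf : Measurable f) :
    ∫⁻ a, f a ∂kMeas n =
      ∫⁻ a, (∏ p, ksE 1 (cmul t (u p)) (a p)) * f (kshift2 u a t) ∂kMeas n := by
  have hms : Measurable fun a : KSp n => kshift2 u a t :=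
    (measurable_kshift2 u).comp (measurable_id.prodMk measurable_const)
  have hw : Measurable fun a : KSp n => ∏ p, ksE 1 (cmul t (u p)) (a p) :=
    Finset.measurable_prod _ fun p _ =>
      (measurable_ksE 1 (cmul t (u p))).comp (measurable_pi_apply p)
  have : ∀ p : KIdx n, IsProbabilityMeasure
      (((gaussianReal 0 1).prod (gaussianReal 0 1)).withDensity (ksE 1 (cmul t (u p)))) :=
    fun p => by
      rw [ks_gauss2_withDensity]; infer_instance
  have h1 : kMeas n = ((kMeas n).withDensity fun a => ∏ p, ksE 1 (cmul t (u p)) (a p)).map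
      fun a => kshift2 u a t := by
    have h2 := ks_pi_withDensity (fun _ : KIdx n => (gaussianReal 0 1).prod (gaussianReal 0 1))
      (w := fun p => ksE 1 (cmul t (u p))) fun p => measurable_ksE 1 (cmul t (u p))
    have h3 := Measure.pi_map_pi
      (μ := fun p : KIdx n =>
        ((gaussianReal 0 1).prod (gaussianReal 0 1)).withDensity (ksE 1 (cmul t (u p))))
      (f := fun p x => x + (1 : ℝ) • cmul t (u p))
      (hμ := fun p => by rw [ks_gauss2_map]; infer_instance)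
      (fun p => (measurable_add_const _).aemeasurable)
    have h4 : (fun a : KSp n => kshift2 u a t) =
        fun (a : KSp n) (p : KIdx n) => a p + (1 : ℝ) • cmul t (u p) := by
      funext a p
      rw [one_smul]
      rfl
    rw [h4, kMeas, ← h2]
    refine Eq.trans ?_ h3.symm
    congr 1
    funext p
    exact (ks_gauss2_map 1 (cmul t (u p))).symm
  conv_lhs => rw [h1]
  rw [lintegral_map hf hms]
  exact lintegral_withDensity_eq_lintegral_mul _ hw (hf.comp hms)

/-- the density of the shift is at most `kexp2` -/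
theorem kqs_prod_ksE_le {n : ℕ} (u : KSp n) {t : ℝ × ℝ} (ht : nm t ≤ 1) (a : KSp n) :
    ∏ p, ksE 1 (cmul t (u p)) (a p) ≤ ENNReal.ofReal (kexp2 u a) := by
  have h1 : ∀ p, ksE 1 (cmul t (u p)) (a p) = ENNReal.ofReal (Real.exp
      (-(1 * (cmul t (u p)).1 * (a p).1) - (1 * (cmul t (u p)).1) ^ 2 / 2 +
        (-(1 * (cmul t (u p)).2 * (a p).2) - (1 * (cmul t (u p)).2) ^ 2 / 2))) := by
    intro p
    rw [ksE, ksD, ksD, ← ENNReal.ofReal_mul (Real.exp_nonneg _), ← Real.exp_add]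
  rw [Finset.prod_congr rfl fun p _ => h1 p,
    ← ENNReal.ofReal_prod_of_nonneg fun p _ => Real.exp_nonneg _, ← Real.exp_sum]
  refine ENNReal.ofReal_le_ofReal (Real.exp_le_exp.2 ?_)
  have h2 : nm t ^ 2 = t.1 ^ 2 + t.2 ^ 2 := Real.sq_sqrt (by positivity)
  have h3 : t.1 ^ 2 + t.2 ^ 2 ≤ 1 := by
    rw [← h2]
    exact pow_le_one₀ (Real.sqrt_nonneg _) ht
  have ht1 : |t.1| ≤ 1 := abs_le_one_iff_mul_self_le_one.2 (by nlinarith [sq_nonneg t.2])
  have ht2 : |t.2| ≤ 1 := abs_le_one_iff_mul_self_le_one.2 (by nlinarith [sq_nonneg t.1])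
  have h6 : ∑ p, (-(1 * (cmul t (u p)).1 * (a p).1) - (1 * (cmul t (u p)).1) ^ 2 / 2 +
        (-(1 * (cmul t (u p)).2 * (a p).2) - (1 * (cmul t (u p)).2) ^ 2 / 2)) ≤
      -(t.1 * ∑ p, ((u p).1 * (a p).1 + (u p).2 * (a p).2)) +
        -(t.2 * ∑ p, ((u p).1 * (a p).2 - (u p).2 * (a p).1)) := by
    rw [Finset.mul_sum, Finset.mul_sum, ← Finset.sum_neg_distrib,
      ← Finset.sum_neg_distrib, ← Finset.sum_add_distrib]
    refine Finset.sum_le_sum fun p _ => ?_
    have e1 := sq_nonneg (1 * (cmul t (u p)).1)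
    have e2 := sq_nonneg (1 * (cmul t (u p)).2)
    have e3 : -(t.1 * ((u p).1 * (a p).1 + (u p).2 * (a p).2)) +
        -(t.2 * ((u p).1 * (a p).2 - (u p).2 * (a p).1)) =
        -(1 * (cmul t (u p)).1 * (a p).1) + -(1 * (cmul t (u p)).2 * (a p).2) := by
      unfold cmul
      ring
    rw [e3]
    linarith
  refine h6.trans (add_le_add ?_ ?_)
  · calc -(t.1 * ∑ p, ((u p).1 * (a p).1 + (u p).2 * (a p).2))
        ≤ |t.1 * ∑ p, ((u p).1 * (a p).1 + (u p).2 * (a p).2)| := neg_le_abs _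
      _ = |t.1| * |∑ p, ((u p).1 * (a p).1 + (u p).2 * (a p).2)| := abs_mul _ _
      _ ≤ 1 * |∑ p, ((u p).1 * (a p).1 + (u p).2 * (a p).2)| :=
        mul_le_mul_of_nonneg_right ht1 (abs_nonneg _)
      _ = _ := one_mul _
  · calc -(t.2 * ∑ p, ((u p).1 * (a p).2 - (u p).2 * (a p).1))
        ≤ |t.2 * ∑ p, ((u p).1 * (a p).2 - (u p).2 * (a p).1)| := neg_le_abs _
      _ = |t.2| * |∑ p, ((u p).1 * (a p).2 - (u p).2 * (a p).1)| := abs_mul _ _
      _ ≤ 1 * |∑ p, ((u p).1 * (a p).2 - (u p).2 * (a p).1)| :=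
        mul_le_mul_of_nonneg_right ht2 (abs_nonneg _)
      _ = _ := one_mul _

theorem kMeas_smooth2 {n : ℕ} (u : KSp n) (hu : ∑ p, ((u p).1 ^ 2 + (u p).2 ^ 2) = 1)
    {f : KSp n → ℝ≥0∞} (hf : Measurable f) :
    ∫⁻ a, f a ∂kMeas n ≤ (ENNReal.ofReal Real.pi)⁻¹ *
      ∫⁻ a, (ENNReal.ofReal (kexp2 u a) *
        ∫⁻ t in {t : ℝ × ℝ | nm t ≤ 1}, f (kshift2 u a t)) ∂kMeas n := by
  have hpi0 : ENNReal.ofReal Real.pi ≠ 0 := (ENNReal.ofReal_pos.2 Real.pi_pos).ne'
  have hpit : ENNReal.ofReal Real.pi ≠ ⊤ := ENNReal.ofReal_ne_top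
  have hdm : MeasurableSet {t : ℝ × ℝ | nm t ≤ 1} := by
    unfold nm
    exact measurableSet_le (by fun_prop) measurable_const
  have hfm : Measurable fun q : KSp n × (ℝ × ℝ) => f (kshift2 u q.1 q.2) :=
    hf.comp (measurable_kshift2 u)
  have hke : Measurable fun a : KSp n => ENNReal.ofReal (kexp2 u a) := by
    unfold kexp2
    fun_prop
  have : IsProbabilityMeasure (kMeas n) := by
    unfold kMeas
    infer_instance
  rw [← ENNReal.mul_le_iff_le_inv hpi0 hpit]
  calc ENNReal.ofReal Real.pi * ∫⁻ a, f a ∂kMeas n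
      ≤ volume {t : ℝ × ℝ | nm t ≤ 1} * ∫⁻ a, f a ∂kMeas n := mul_le_mul_left ks_volume_disc _
    _ = ∫⁻ _ in {t : ℝ × ℝ | nm t ≤ 1}, ∫⁻ a, f a ∂kMeas n := by
        rw [setLIntegral_const, mul_comm]
    _ ≤ ∫⁻ t in {t : ℝ × ℝ | nm t ≤ 1},
        ∫⁻ a, ENNReal.ofReal (kexp2 u a) * f (kshift2 u a t) ∂kMeas n := by
        refine setLIntegral_mono' hdm fun t ht => ?_
        rw [kqs_shift u t hf]
        exact lintegral_mono fun a => mul_le_mul_left (kqs_prod_ksE_le u ht a) _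
    _ = ∫⁻ a, (∫⁻ t in {t : ℝ × ℝ | nm t ≤ 1},
        ENNReal.ofReal (kexp2 u a) * f (kshift2 u a t)) ∂kMeas n := by
        refine lintegral_lintegral_swap (Measurable.aemeasurable ?_)
        exact (hke.comp measurable_snd).mul (hfm.comp measurable_swap)
    _ = _ := by
        refine lintegral_congr fun a => ?_
        exact lintegral_const_mul _ (hfm.comp (measurable_const.prodMk measurable_id))

end Pool.Agent.Lib.MP_95e7ec_an
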