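import Mathlib
import Pool.Agent.Lib.MP_95e7ec_an.KpMain
import Pool.Agent.Lib.MP_95e7ec_an.KqDefs
import Pool.Agent.Lib.MP_95e7ec_an.KqShift
import Pool.Agent.Lib.MP_95e7ec_an.KqMom
import Pool.Agent.Lib.MP_95e7ec_an.KqVec
import Pool.Agent.Lib.MP_95e7ec_an.KqLocal
import Pool.Agent.Lib.MP_95e7ec_an.Crossing
import Pool.Agent.Lib.MP_95e7ec_an.PlaneMain

/-!
# The mean number of closed orbits of Kostlan random fields of odd degree: assembly
-/

set_option autoImplicit false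

open Set Filter Topology MeasureTheory ProbabilityTheory
open scoped ContDiff ENNReal

namespace Pool.Agent.Lib.MP_95e7ec_an

theorem kq_isOpen_nlV (j : ℕ) (i : Option (ℤ × ℤ)) : IsOpen (nlV j i) := by
  cases i with
  | none => exact isOpen_lt continuous_const continuous_nm
  | some i => exact isOpen_disc _ _

theorem kq_isOpen_out (j : ℕ) : IsOpen {z : ℝ × ℝ | (2 : ℝ) ^ j < nm z} :=
  isOpen_lt continuous_const continuous_nm

theorem measurable_NL (n j : ℕ) : Measurable fun a : KSp n => NL (kVF n a) j := by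
  unfold NL
  exact km_measurable_cntO n (kq_isOpen_out j) _ fun i _ => kq_isOpen_nlV j i

/-- the mean number of the large closed orbits near `|z| = 2^j` -/
theorem kq_NL : ∃ (C : ℝ) (A : ℕ), 0 ≤ C ∧ ∀ m j : ℕ, ((2 * m + 1 : ℕ) : ℝ) ≤ 2 ^ j →
    ∫⁻ a, NL (kVF (2 * m + 1) a) j ∂kMeas (2 * m + 1) ≤
      ENNReal.ofReal (C * (m + 1) ^ A * ((2 : ℝ) ^ (j / 48))⁻¹) := by
  obtain ⟨C1, A, hC1, hloc⟩ := ext_local
  obtain ⟨C2, hC2, hmom⟩ := kexp2_moment
  refine ⟨Real.pi⁻¹ * (Real.pi⁻¹ * (C1 * (C2 * 16))), A + 4, by positivity, fun m j hj => ?_⟩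
  obtain ⟨u, ν, hu⟩ := exists_odd_dir m
  have hmeas := measurable_NL (2 * m + 1) j
  rw [km_rot_avg (2 * m + 1) hmeas]
  set Φ : KSp (2 * m + 1) → ℝ≥0∞ := fun a => ∫⁻ α in Set.Ioo 0 Real.pi,
    NL (kVF (2 * m + 1) (krot α a)) j with hΦ
  have hΦm : Measurable Φ := km_measurable_avg (2 * m + 1) hmeas
  have hpi : (ENNReal.ofReal Real.pi)⁻¹ = ENNReal.ofReal Real.pi⁻¹ :=
    (ENNReal.ofReal_inv_of_pos Real.pi_pos).symm
  have hsplit : Real.pi⁻¹ * (Real.pi⁻¹ * (C1 * (C2 * 16))) * (m + 1) ^ (A + 4) *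
      ((2 : ℝ) ^ (j / 48))⁻¹ =
      Real.pi⁻¹ * (Real.pi⁻¹ * ((C1 * (m + 1) ^ A * ((2 : ℝ) ^ (j / 48))⁻¹) *
        (C2 * (16 * (m + 1) ^ 4)))) := by ring
  rw [hpi, hsplit, ENNReal.ofReal_mul (by positivity)]
  refine mul_le_mul_right ?_ _
  refine (kMeas_smooth2 u hu.2.2.1 hΦm).trans ?_
  rw [hpi, ENNReal.ofReal_mul (by positivity)]
  refine mul_le_mul_right ?_ _
  have h1 : ∀ a : KSp (2 * m + 1), ENNReal.ofReal (kexp2 u a) *
      ∫⁻ t in {t : ℝ × ℝ | nm t ≤ 1}, Φ (kshift2 u a t) ≤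
      ENNReal.ofReal (C1 * (m + 1) ^ A * ((2 : ℝ) ^ (j / 48))⁻¹) *
        ENNReal.ofReal (kexp2 u a * kS a ^ 2) := by
    intro a
    have h2 : ∫⁻ t in {t : ℝ × ℝ | nm t ≤ 1}, Φ (kshift2 u a t) ≤
        ENNReal.ofReal (C1 * (m + 1) ^ A * kS a ^ 2 / 2 ^ (j / 48)) := by
      refine le_trans (le_of_eq ?_) (hloc m u ν hu a j hj)
      refine lintegral_congr fun t => ?_
      simp only [hΦ, kVF_krot]
    refine (mul_le_mul_right h2 _).trans ?_
    rw [← ENNReal.ofReal_mul (by unfold kexp2; positivity), ← ENNReal.ofReal_mul (by positivity)]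
    exact ENNReal.ofReal_le_ofReal (le_of_eq (by rw [div_eq_mul_inv]; ring))
  refine (lintegral_mono h1).trans ?_
  rw [lintegral_const_mul' _ _ ENNReal.ofReal_ne_top,
    ENNReal.ofReal_mul (p := C1 * (m + 1) ^ A * ((2 : ℝ) ^ (j / 48))⁻¹) (by positivity)]
  refine mul_le_mul_right ?_ _
  refine (hmom (2 * m + 1) u hu.2.2.1).trans (ENNReal.ofReal_le_ofReal ?_)
  push_cast
  have e : C2 * ((2 * (m : ℝ) + 1 + 1) ^ 4) = C2 * (16 * (m + 1) ^ 4) := by ring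
  rw [e]

/-- the mean number of the closed orbits which cross an annulus -/
theorem kq_cross {n : ℕ} (hn : 1 ≤ n) (U : Set (ℝ × ℝ)) (hU : IsOpen U) {R : ℝ} (hR : 0 < R) :
    ∫⁻ a, cntO (kVF n a) U Finset.univ (crV 0 (2 * R)) ∂kMeas n ≤ ENNReal.ofReal (600 * n) := by
  have hmeas : Measurable fun a : KSp n => cntO (kVF n a) U Finset.univ (crV 0 (2 * R)) :=
    km_measurable_cntO n hU _ fun i _ => isOpen_crV _ _ i
  have hpr : IsProbabilityMeasure (kMeas n) := by unfold kMeas; infer_instance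
  rw [km_rot_avg n hmeas]
  have h1 : ∀ a : KSp n, ∫⁻ α in Set.Ioo 0 Real.pi,
      cntO (kVF n (krot α a)) U Finset.univ (crV 0 (2 * R)) ≤ ENNReal.ofReal (600 * n) := by
    intro a
    refine le_trans (lintegral_mono fun α => ?_) (crossing_count hn (kArr n a) hR)
    rw [kVF_krot, kVF_eq_vfc]
    refine (cntO_cr_le _ _ _ (by positivity : (0 : ℝ) < 2 * R)).trans ?_
    unfold crossN setSum
    rw [kp_encard]
    have hts := tsum_subtype {C : Set (ℝ × ℝ) | IsClosedOrbit (turn α (vfc (kArr n a))) C ∧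
      C ⊆ Set.univ} (fun C => crossInd R C)
    refine le_trans ?_ (le_of_eq hts.symm)
    refine ENNReal.tsum_le_tsum fun C => ?_
    by_cases hC : C ∈ {C | IsClosedOrbit (turn α (vfc (kArr n a))) C ∧
        (∃ z ∈ C, nm (z - 0) ≤ 2 * R / 2) ∧ ∃ z ∈ C, 2 * (2 * R / 2) ≤ nm (z - 0)}
    · rw [Set.indicator_of_mem hC]
      have hm : C ∈ {C : Set (ℝ × ℝ) | IsClosedOrbit (turn α (vfc (kArr n a))) C ∧
        C ⊆ Set.univ} := ⟨hC.1, Set.subset_univ _⟩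
      rw [Set.indicator_of_mem hm]
      unfold crossInd
      rw [if_pos]
      obtain ⟨-, ⟨z1, hz1, h1⟩, ⟨z2, hz2, h2⟩⟩ := hC
      rw [sub_zero] at h1 h2
      exact ⟨⟨z1, hz1, by linarith⟩, ⟨z2, hz2, by linarith⟩⟩
    · rw [Set.indicator_of_notMem hC]
      exact zero_le
  calc (ENNReal.ofReal Real.pi)⁻¹ * ∫⁻ a, (∫⁻ α in Set.Ioo 0 Real.pi,
        cntO (kVF n (krot α a)) U Finset.univ (crV 0 (2 * R))) ∂kMeas n
      ≤ 1 * ∫⁻ a, ENNReal.ofReal (600 * n) ∂kMeas n := by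
        refine mul_le_mul' ?_ (lintegral_mono h1)
        rw [ENNReal.inv_le_one, ENNReal.one_le_ofReal]
        linarith [Real.pi_gt_three]
    _ = ENNReal.ofReal (600 * n) := by
        rw [one_mul, lintegral_const, measure_univ, mul_one]

theorem kq_nm_add (u v : ℝ × ℝ) : nm (u + v) ≤ nm u + nm v := by
  have hu := nm_sq u
  have hv := nm_sq v
  have hu0 := kp_nm_nonneg u
  have hv0 := kp_nm_nonneg v
  have hsum : nm (u + v) ^ 2 = (u.1 + v.1) ^ 2 + (u.2 + v.2) ^ 2 := by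
    rw [nm_sq]; rfl
  have hcs : u.1 * v.1 + u.2 * v.2 ≤ nm u * nm v := by
    apply le_of_sq_le_sq _ (mul_nonneg hu0 hv0)
    rw [mul_pow, hu, hv]
    nlinarith [sq_nonneg (u.1 * v.2 - u.2 * v.1)]
  apply le_of_sq_le_sq _ (add_nonneg hu0 hv0)
  rw [hsum]
  nlinarith

theorem kq_diam {c z w : ℝ × ℝ} {r : ℝ} (hr : 0 < r) (hz : z ∈ disc c r) (hw : w ∈ disc c r) :
    nm (z - w) ≤ 2 * r := by
  have h1 : nm (z - c) < r := by
    have h := nm_sq (z - c)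
    have h' : (z.1 - c.1) ^ 2 + (z.2 - c.2) ^ 2 < r ^ 2 := hz
    have h2 : nm (z - c) ^ 2 < r ^ 2 := by
      rw [h]
      exact h'
    exact lt_of_pow_lt_pow_left₀ 2 hr.le h2
  have h2 : nm (w - c) < r := by
    have h := nm_sq (w - c)
    have h' : (w.1 - c.1) ^ 2 + (w.2 - c.2) ^ 2 < r ^ 2 := hw
    have h2 : nm (w - c) ^ 2 < r ^ 2 := by
      rw [h]
      exact h'
    exact lt_of_pow_lt_pow_left₀ 2 hr.le h2
  have h3 : z - w = (z - c) + -(w - c) := by abel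
  rw [h3]
  refine (kq_nm_add _ _).trans ?_
  rw [nm_neg]
  linarith

theorem kq_nlS {j : ℕ} {i : ℤ × ℤ} (hi : some i ∈ nlS j) : i ∈ cells nlq (j + 1) := by
  unfold nlS at hi
  exact Finset.some_mem_insertNone.1 hi

theorem kq_nlV_some (j : ℕ) (i : ℤ × ℤ) :
    nlV j (some i) = disc (cellC nlq (j + 1) i) (cellR nlq (j + 1)) := rfl

theorem kq_nlV_none (j : ℕ) : nlV j none = {z | (2 : ℝ) ^ (j + 1) < nm z} := rfl

/-- the classification of the closed orbits in a large disc -/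
theorem kq_class {n : ℕ} (hn : 1 ≤ n) {k0 K : ℕ} (hk0 : 24 ≤ k0)
    (hq : ∀ k, k0 ≤ k → qk n k = 1) (a : KSp n) {C : Set (ℝ × ℝ)}
    (hC : IsClosedOrbit (kVF n a) C) (hCK : C ⊆ disc 0 (2 ^ K)) :
    C ⊆ disc 0 (2 ^ (k0 + 1)) ∨
    (∀ b : Bool, ¬ C ⊆ crV 0 (2 * 2 ^ k0) b) ∨
    (∃ k ∈ Finset.Ico (k0 + 1) (K + 1), ∃ j ∈ cells (kq n) k,
      a ∈ kAct n k (cellC (kq n) k j) ∧
        (C ⊆ disc (cellC (kq n) k j) (cellR (kq n) k) ∨
          ∀ b : Bool, ¬ C ⊆ crV (cellC (kq n) k j) (cellR (kq n) k) b)) ∨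
    (∃ j ∈ Finset.Ico k0 K, C ⊆ {z | (2 : ℝ) ^ j < nm z} ∧ ∀ i ∈ nlS j, ¬ C ⊆ nlV j i) := by
  classical
  by_cases ha : C ⊆ disc 0 (2 ^ (k0 + 1))
  · exact Or.inl ha
  right
  have h2k : (2 : ℝ) * 2 ^ k0 = 2 ^ (k0 + 1) := by rw [pow_succ]; ring
  by_cases hb : ∃ z ∈ C, nm z ≤ 2 ^ k0
  · left
    intro b
    cases b
    · unfold crV
      rw [h2k]
      exact ha
    · intro h
      obtain ⟨z, hz, hz'⟩ := hb
      have h1 : 2 * 2 ^ k0 / 2 < nm (z - 0) := h hz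
      rw [sub_zero] at h1
      linarith
  right
  push Not at hb
  -- the inner level
  obtain ⟨p, hp⟩ := hC.nonempty
  have hexj : ∃ j : ℕ, ¬ C ⊆ {z | (2 : ℝ) ^ j < nm z} := by
    refine ⟨K, fun h => ?_⟩
    have h1 : (2 : ℝ) ^ K < nm p := h hp
    have h2 := hCK hp
    rw [mem_disc_zero (by positivity)] at h2
    linarith
  set j1 := Nat.find hexj with hj1
  have hj1s : ¬ C ⊆ {z | (2 : ℝ) ^ j1 < nm z} := Nat.find_spec hexj
  have hj1m : ∀ j, j < j1 → C ⊆ {z | (2 : ℝ) ^ j < nm z} := fun j hj =>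
    not_not.1 (Nat.find_min hexj hj)
  have hk0j : k0 < j1 := by
    by_contra hcon
    push Not at hcon
    apply hj1s
    intro z hz
    have h1 := hb z hz
    have h2 : (2 : ℝ) ^ j1 ≤ 2 ^ k0 := pow_le_pow_right₀ (by norm_num) hcon
    show (2 : ℝ) ^ j1 < nm z
    linarith
  have hj1K : j1 ≤ K := by
    refine Nat.find_min' hexj fun h => ?_
    have h1 : (2 : ℝ) ^ K < nm p := h hp
    have h2 := hCK hp
    rw [mem_disc_zero (by positivity)] at h2
    linarith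
  obtain ⟨j, hj⟩ : ∃ j, j1 = j + 1 := ⟨j1 - 1, by omega⟩
  have hjC : C ⊆ {z | (2 : ℝ) ^ j < nm z} := hj1m j (by omega)
  have hjn : ¬ C ⊆ {z | (2 : ℝ) ^ (j + 1) < nm z} := by rw [← hj]; exact hj1s
  by_cases hc : ∀ i ∈ cells nlq (j + 1), ¬ C ⊆ disc (cellC nlq (j + 1) i) (cellR nlq (j + 1))
  · right
    refine ⟨j, Finset.mem_Ico.2 ⟨by omega, by omega⟩, hjC, fun i hi => ?_⟩
    cases i with
    | none =>
      rw [kq_nlV_none]
      exact hjn
    | some i =>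
      rw [kq_nlV_some]
      exact hc i (kq_nlS hi)
  · left
    push Not at hc
    obtain ⟨i, hi, hCi⟩ := hc
    have hex : ∃ k : ℕ, C ⊆ disc 0 (2 ^ k) := ⟨K, hCK⟩
    set k := Nat.find hex with hk
    have hk1 : C ⊆ disc 0 (2 ^ k) := Nat.find_spec hex
    have hk2 : k ≤ K := Nat.find_min' hex hCK
    have hk3 : k ≠ 0 → ¬ C ⊆ disc 0 (2 ^ (k - 1)) := fun h =>
      Nat.find_min hex (m := k - 1) (by omega)
    have hkj : j + 1 ≤ k := by
      by_contra hcon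
      push Not at hcon
      have h1 : (2 : ℝ) ^ j < nm p := hjC hp
      have h2 := hk1 hp
      rw [mem_disc_zero (by positivity)] at h2
      have h3 : (2 : ℝ) ^ k ≤ 2 ^ j := pow_le_pow_right₀ (by norm_num) (by omega)
      linarith
    have hk0k : k0 + 1 ≤ k := by omega
    have hq1 : qk n k = 1 := hq k (by omega)
    have hdiam : ∀ z ∈ C, ∀ w ∈ C, nm (z - w) ≤ 2 ^ k / (32 * ((1 : ℕ) : ℝ)) := by
      intro z hz w hw
      have hR : (0 : ℝ) < cellR nlq (j + 1) := by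
        unfold cellR
        rw [nlq_eq]
        positivity
      refine (kq_diam hR (hCi hz) (hCi hw)).trans ?_
      unfold cellR
      rw [nlq_eq]
      have h3 : (2 : ℝ) ^ (j + 1) ≤ 2 ^ k := pow_le_pow_right₀ (by norm_num) hkj
      have h4 : (0 : ℝ) < 2 ^ k := by positivity
      push_cast
      linarith
    have hlev : k = 0 ∨ ∃ z ∈ C, (2 : ℝ) ^ k / 2 ≤ nm z := by
      right
      have h4 := hk3 (by omega)
      rw [Set.not_subset] at h4
      obtain ⟨z, hz, hz'⟩ := h4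
      refine ⟨z, hz, ?_⟩
      rw [mem_disc_zero (by positivity), not_lt] at hz'
      have h5 : (2 : ℝ) ^ k = 2 ^ (k - 1) * 2 := by
        rw [← pow_succ]
        congr 1
        omega
      rw [h5]
      linarith
    obtain ⟨i', hi', hCi'⟩ := exists_cell (le_refl 1) k hC.nonempty hdiam hk1 hlev
    obtain ⟨j', hj', hact, p', hpC, hp'⟩ := act_cell hn (by omega) a hC hk1 (hk3 (by omega))
      (i := i') (by rw [hq1]; exact hi') (by rw [hq1]; exact hCi')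
    refine ⟨k, Finset.mem_Ico.2 ⟨hk0k, by omega⟩, j', hj', hact, ?_⟩
    by_cases hsub : C ⊆ disc (cellC (kq n) k j') (cellR (kq n) k)
    · exact Or.inl hsub
    · right
      intro b
      cases b
      · exact hsub
      · intro h
        have h5 : cellR (kq n) k / 2 < nm (p' - cellC (kq n) k j') := h hpC
        linarith

/-- splitting of the count in a large disc -/
theorem kq_split {n : ℕ} (hn : 1 ≤ n) {k0 K : ℕ} (hk0 : 24 ≤ k0)
    (hq : ∀ k, k0 ≤ k → qk n k = 1) (a : KSp n) :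
    cntO (kVF n a) (disc 0 (2 ^ K)) (∅ : Finset ℕ) (fun _ => ∅) ≤
      cntO (kVF n a) (disc 0 (2 ^ (k0 + 1))) (∅ : Finset ℕ) (fun _ => ∅) +
      cntO (kVF n a) (disc 0 (2 ^ K)) Finset.univ (crV 0 (2 * 2 ^ k0)) +
      ∑ k ∈ Finset.Ico (k0 + 1) (K + 1), ∑ j ∈ cells (kq n) k, kF n k K (cellC (kq n) k j) a +
      ∑ j ∈ Finset.Ico k0 K, NL (kVF n a) j := by
  classical
  set v := kVF n a with hv
  set S0 : Set (Set (ℝ × ℝ)) := {C | IsClosedOrbit v C ∧ C ⊆ disc 0 (2 ^ K) ∧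
    ∀ i ∈ (∅ : Finset ℕ), ¬ C ⊆ (fun _ => (∅ : Set (ℝ × ℝ))) i} with hS0
  set S1 : Set (Set (ℝ × ℝ)) := {C | IsClosedOrbit v C ∧ C ⊆ disc 0 (2 ^ (k0 + 1)) ∧
    ∀ i ∈ (∅ : Finset ℕ), ¬ C ⊆ (fun _ => (∅ : Set (ℝ × ℝ))) i} with hS1
  set S2 : Set (Set (ℝ × ℝ)) := {C | IsClosedOrbit v C ∧ C ⊆ disc 0 (2 ^ K) ∧
    ∀ b ∈ (Finset.univ : Finset Bool), ¬ C ⊆ crV 0 (2 * 2 ^ k0) b} with hS2
  set S3 : ℕ → ℤ × ℤ → Set (Set (ℝ × ℝ)) := fun k i => {C | IsClosedOrbit v C ∧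
    C ⊆ disc (cellC (kq n) k i) (cellR (kq n) k) ∧
    ∀ i ∈ (∅ : Finset ℕ), ¬ C ⊆ (fun _ => (∅ : Set (ℝ × ℝ))) i} with hS3
  set S4 : ℕ → ℤ × ℤ → Set (Set (ℝ × ℝ)) := fun k j => {C | IsClosedOrbit v C ∧
    C ⊆ disc 0 (2 ^ K) ∧
    ∀ b ∈ (Finset.univ : Finset Bool), ¬ C ⊆ crV (cellC (kq n) k j) (cellR (kq n) k) b} with hS4
  set S5 : ℕ → Set (Set (ℝ × ℝ)) := fun j => {C | IsClosedOrbit v C ∧
    C ⊆ {z | (2 : ℝ) ^ j < nm z} ∧ ∀ i ∈ nlS j, ¬ C ⊆ nlV j i} with hS5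
  have h0 : cntO v (disc 0 (2 ^ K)) (∅ : Finset ℕ) (fun _ => ∅) =
      ∑' C, S0.indicator (fun _ => (1 : ℝ≥0∞)) C := by unfold cntO; rw [kp_encard]
  have h1 : cntO v (disc 0 (2 ^ (k0 + 1))) (∅ : Finset ℕ) (fun _ => ∅) =
      ∑' C, S1.indicator (fun _ => (1 : ℝ≥0∞)) C := by unfold cntO; rw [kp_encard]
  have h2 : cntO v (disc 0 (2 ^ K)) Finset.univ (crV 0 (2 * 2 ^ k0)) =
      ∑' C, S2.indicator (fun _ => (1 : ℝ≥0∞)) C := by unfold cntO; rw [kp_encard]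
  have h3 : ∀ k j, kF n k K (cellC (kq n) k j) a = ∑' C : Set (ℝ × ℝ),
      (if a ∈ kAct n k (cellC (kq n) k j) then
        (S3 k j).indicator (fun _ => (1 : ℝ≥0∞)) C +
          (S4 k j).indicator (fun _ => (1 : ℝ≥0∞)) C else 0) := by
    intro k j
    unfold kF
    by_cases hact : a ∈ kAct n k (cellC (kq n) k j)
    · rw [Set.indicator_of_mem hact]
      simp only [hact, if_true]
      rw [ENNReal.tsum_add]
      unfold cntO
      rw [kp_encard, kp_encard]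
    · rw [Set.indicator_of_notMem hact]
      simp [hact]
  have h5 : ∀ j, NL v j = ∑' C, (S5 j).indicator (fun _ => (1 : ℝ≥0∞)) C := by
    intro j
    unfold NL cntO
    rw [kp_encard]
  rw [h0, h1, h2]
  simp only [h3, h5]
  have e1 : ∑ k ∈ Finset.Ico (k0 + 1) (K + 1), ∑ j ∈ cells (kq n) k, ∑' C : Set (ℝ × ℝ),
      (if a ∈ kAct n k (cellC (kq n) k j) then
        (S3 k j).indicator (fun _ => (1 : ℝ≥0∞)) C +
          (S4 k j).indicator (fun _ => (1 : ℝ≥0∞)) C else 0) =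
      ∑' C : Set (ℝ × ℝ), ∑ k ∈ Finset.Ico (k0 + 1) (K + 1), ∑ j ∈ cells (kq n) k,
      (if a ∈ kAct n k (cellC (kq n) k j) then
        (S3 k j).indicator (fun _ => (1 : ℝ≥0∞)) C +
          (S4 k j).indicator (fun _ => (1 : ℝ≥0∞)) C else 0) := by
    rw [Summable.tsum_finsetSum (fun i _ => ENNReal.summable)]
    refine Finset.sum_congr rfl fun k _ => ?_
    rw [Summable.tsum_finsetSum (fun i _ => ENNReal.summable)]
  have e2 : ∑ j ∈ Finset.Ico k0 K, ∑' C : Set (ℝ × ℝ),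
      (S5 j).indicator (fun _ => (1 : ℝ≥0∞)) C =
      ∑' C : Set (ℝ × ℝ), ∑ j ∈ Finset.Ico k0 K, (S5 j).indicator (fun _ => (1 : ℝ≥0∞)) C := by
    rw [Summable.tsum_finsetSum (fun i _ => ENNReal.summable)]
  rw [e1, e2, ← ENNReal.tsum_add, ← ENNReal.tsum_add, ← ENNReal.tsum_add]
  refine ENNReal.tsum_le_tsum fun C => ?_
  by_cases hC : C ∈ S0
  · rw [Set.indicator_of_mem hC]
    rcases kq_class hn hk0 hq a hC.1 hC.2.1 with hc | hc | ⟨k, hk, j, hj, hact, hc⟩ | ⟨j, hj, hc⟩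
    · refine le_trans ?_ (le_add_right (le_add_right (le_add_right le_rfl)))
      have hm : C ∈ S1 := ⟨hC.1, hc, by simp⟩
      rw [Set.indicator_of_mem hm]
    · refine le_trans ?_ (le_add_right (le_add_right (le_add_left le_rfl)))
      have hm : C ∈ S2 := ⟨hC.1, hC.2.1, fun b _ => hc b⟩
      rw [Set.indicator_of_mem hm]
    · refine le_trans ?_ (le_add_right (le_add_left le_rfl))
      refine le_trans ?_ (Finset.single_le_sum (f := fun k => ∑ j ∈ cells (kq n) k,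
        (if a ∈ kAct n k (cellC (kq n) k j) then
        (S3 k j).indicator (fun _ => (1 : ℝ≥0∞)) C +
          (S4 k j).indicator (fun _ => (1 : ℝ≥0∞)) C else 0)) (fun _ _ => zero_le) hk)
      refine le_trans ?_ (Finset.single_le_sum (f := fun j =>
        (if a ∈ kAct n k (cellC (kq n) k j) then
        (S3 k j).indicator (fun _ => (1 : ℝ≥0∞)) C +
          (S4 k j).indicator (fun _ => (1 : ℝ≥0∞)) C else 0)) (fun _ _ => zero_le) hj)
      rw [if_pos hact]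
      rcases hc with hc | hc
      · refine le_trans ?_ (le_add_right le_rfl)
        have hm : C ∈ S3 k j := ⟨hC.1, hc, by simp⟩
        rw [Set.indicator_of_mem hm]
      · refine le_trans ?_ (le_add_left le_rfl)
        have hm : C ∈ S4 k j := ⟨hC.1, hC.2.1, fun b _ => hc b⟩
        rw [Set.indicator_of_mem hm]
    · refine le_trans ?_ (le_add_left le_rfl)
      refine le_trans ?_ (Finset.single_le_sum (f := fun j =>
        (S5 j).indicator (fun _ => (1 : ℝ≥0∞)) C) (fun _ _ => zero_le) hj)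
      have hm : C ∈ S5 j := ⟨hC.1, hc.1, hc.2⟩
      rw [Set.indicator_of_mem hm]
  · rw [Set.indicator_of_notMem hC]
    exact zero_le

end Pool.Agent.Lib.MP_95e7ec_an
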