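import Mathlib
import Pool.Agent.Lib.MP_95e7ec_an.KqMain
import Pool.Agent.Lib.MP_95e7ec_an.KpFinal

/-!
# The mean number of closed orbits of Kostlan random fields in the plane
-/

set_option autoImplicit false

open Set Filter Topology MeasureTheory ProbabilityTheory
open scoped ContDiff ENNReal

namespace Pool.Agent.Lib.MP_95e7ec_an

/-- the mean of the count in the cells of the level `k` -/
theorem kq_mid : ∃ C : ℝ, 0 ≤ C ∧ ∀ n k : ℕ, 1 ≤ n → 24 ≤ k → ∀ K : ℕ,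
    ∫⁻ a, ∑ j ∈ cells (kq n) k, kF n k K (cellC (kq n) k j) a ∂kMeas n ≤
      ENNReal.ofReal (C * n * ((2 : ℝ) ^ (k / 24))⁻¹) := by
  obtain ⟨C3, hC3, hkF⟩ := kp_cell
  refine ⟨70000 * C3, by positivity, fun n k hn hk K => ?_⟩
  have hn0 : (0:ℝ) < n := by exact_mod_cast hn
  have hcard : ((cells (kq n) k).card : ℝ) ≤ 70000 * n := by
    have h2 := card_cells (kq_nat_pos n) k
    have h3 := kq_le hn
    have h4 := kq_pos n
    have h5 : (kq n : ℝ) ^ 2 ≤ 64 * n := by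
      have h6 : (kq n : ℝ) ^ 2 ≤ (8 * Real.sqrt n) ^ 2 := pow_le_pow_left₀ h4.le h3 2
      rw [mul_pow, Real.sq_sqrt (Nat.cast_nonneg n)] at h6
      linarith
    linarith
  have hcz : ∀ j ∈ cells (kq n) k, (2 : ℝ) ^ k / 4 ≤ nm (cellC (kq n) k j) := by
    intro j hj
    unfold cells at hj
    rw [Finset.mem_filter] at hj
    rcases hj.2 with h | h
    · omega
    · exact h
  rw [lintegral_finsetSum _ fun j hj => measurable_kF hn hk K (hcz j hj)]
  refine (Finset.sum_le_sum fun j hj => hkF n k hn hk K _ (hcz j hj)).trans ?_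
  rw [Finset.sum_const, nsmul_eq_mul, ← ENNReal.ofReal_natCast,
    ← ENNReal.ofReal_mul (by positivity)]
  refine ENNReal.ofReal_le_ofReal ?_
  calc ((cells (kq n) k).card : ℝ) * (C3 / 2 ^ (k / 24)) ≤
        70000 * n * (C3 / 2 ^ (k / 24)) :=
        mul_le_mul_of_nonneg_right hcard (by positivity)
    _ = 70000 * C3 * n * ((2 : ℝ) ^ (k / 24))⁻¹ := by rw [div_eq_mul_inv]; ring

theorem kq_sum_div (f : ℕ → ℝ) (N : ℕ) :
    ∑ k ∈ Finset.range (48 * N), f (k / 48) = 48 * ∑ l ∈ Finset.range N, f l := by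
  induction N with
  | zero => simp
  | succ N ih =>
    rw [mul_add, mul_one, Finset.sum_range_add, ih, Finset.sum_range_succ (fun l => f l) N, mul_add]
    congr 1
    have h1 : ∀ x ∈ Finset.range 48, f ((48 * N + x) / 48) = f N := by
      intro x hx
      rw [Finset.mem_range] at hx
      congr 1
      omega
    rw [Finset.sum_congr rfl h1, Finset.sum_const, Finset.card_range, nsmul_eq_mul]
    norm_num

theorem kq_sum_geom (k1 K : ℕ) :
    ∑ j ∈ Finset.Ico (48 * k1) K, ((2 : ℝ) ^ (j / 48))⁻¹ ≤ 96 * ((2 : ℝ) ^ k1)⁻¹ := by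
  rw [Finset.sum_Ico_eq_sum_range]
  have h1 : ∀ i ∈ Finset.range (K - 48 * k1), ((2 : ℝ) ^ ((48 * k1 + i) / 48))⁻¹ =
      ((2 : ℝ) ^ k1)⁻¹ * ((2 : ℝ) ^ (i / 48))⁻¹ := by
    intro i _
    rw [← mul_inv, ← pow_add]
    congr 2
    omega
  rw [Finset.sum_congr rfl h1, ← Finset.mul_sum, mul_comm]
  refine mul_le_mul_of_nonneg_right ?_ (by positivity)
  have h2 : ∑ k ∈ Finset.range (K - 48 * k1), ((2 : ℝ) ^ (k / 48))⁻¹ ≤
      ∑ k ∈ Finset.range (48 * (K - 48 * k1)), ((2 : ℝ) ^ (k / 48))⁻¹ := by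
    refine Finset.sum_le_sum_of_subset_of_nonneg ?_ fun _ _ _ => by positivity
    intro x hx
    rw [Finset.mem_range] at hx ⊢
    omega
  refine h2.trans ?_
  rw [kq_sum_div (fun l => ((2 : ℝ) ^ l)⁻¹) (K - 48 * k1)]
  have h3 : ∑ l ∈ Finset.range (K - 48 * k1), ((2 : ℝ) ^ l)⁻¹ ≤ 2 := by
    refine le_trans (le_of_eq ?_) (sum_geometric_two_le (K - 48 * k1))
    refine Finset.sum_congr rfl fun i _ => ?_
    rw [one_div, inv_pow]
  linarith

/-- the choice of the radius -/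
theorem kq_choice (A m : ℕ) : ∃ k1 : ℕ, 1 ≤ k1 ∧ ((m : ℝ) + 1) ^ A ≤ 2 ^ k1 ∧
    ((2 * m + 1 : ℕ) : ℝ) ≤ 2 ^ (48 * k1) ∧
    (∀ k, 48 * k1 ≤ k → qk (2 * m + 1) k = 1) ∧
    Real.sqrt ((2 * m + 1 : ℕ) : ℝ) * ((48 * k1 + 1 : ℕ) + 1) ≤ 200 * (A + 1) * (m + 1) := by
  have hx : (1 : ℝ) ≤ (m : ℝ) + 1 := by
    have : (0 : ℝ) ≤ m := Nat.cast_nonneg m
    linarith
  obtain ⟨l, hl1, hl2⟩ := exists_nat_pow_near hx (by norm_num : (1 : ℝ) < 2)
  set L := l + 1 with hL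
  have hmL : (m : ℝ) + 1 ≤ 2 ^ L := hl2.le
  have hLm : (2 : ℝ) ^ L ≤ 2 * (m + 1) := by
    rw [hL, pow_succ]
    linarith
  have hLn : 1 ≤ L := by omega
  have hmn : m + 1 ≤ 2 ^ L := by exact_mod_cast hmL
  refine ⟨(A + 1) * (L + 1), by nlinarith, ?_, ?_, ?_, ?_⟩
  · calc ((m : ℝ) + 1) ^ A ≤ (2 ^ L) ^ A := pow_le_pow_left₀ (by linarith) hmL A
      _ = 2 ^ (L * A) := by rw [← pow_mul]
      _ ≤ 2 ^ ((A + 1) * (L + 1)) := pow_le_pow_right₀ (by norm_num) (by nlinarith)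
  · have h1 : ((2 * m + 1 : ℕ) : ℝ) ≤ 2 ^ (L + 1) := by
      push_cast
      rw [pow_succ]
      linarith
    refine h1.trans (pow_le_pow_right₀ (by norm_num) ?_)
    nlinarith
  · intro k hk
    have hk2 : 2 * (L + 1) ≤ k / 24 := by
      have h1 : 48 * (L + 1) ≤ k := by
        refine le_trans ?_ hk
        nlinarith
      omega
    unfold qk
    rw [if_neg (by omega)]
    have h2 : Nat.sqrt (2 * m + 1) < 2 ^ (8 * (k / 24)) := by
      calc Nat.sqrt (2 * m + 1) ≤ 2 * m + 1 := Nat.sqrt_le_self _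
        _ < 2 ^ (L + 1) := by rw [pow_succ]; omega
        _ ≤ 2 ^ (8 * (k / 24)) := Nat.pow_le_pow_right (by norm_num) (by omega)
    rw [Nat.div_eq_of_lt h2]
  · have hsq : ∀ x : ℕ, ((x : ℝ) + 1) ^ 2 ≤ 4 * 2 ^ x := by
      intro x
      induction x with
      | zero => norm_num
      | succ x ih =>
        push_cast
        rw [pow_succ (2 : ℝ) x]
        rcases Nat.lt_or_ge x 2 with h | h
        · interval_cases x
          · norm_num
          · norm_num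
        · have h2 : (2 : ℝ) ≤ x := by exact_mod_cast h
          nlinarith
    have h1 : ((L : ℝ) + 1) ^ 2 ≤ 8 * (m + 1) := by
      have := hsq L
      linarith
    have h2 : Real.sqrt ((2 * m + 1 : ℕ) : ℝ) * ((L : ℝ) + 1) ≤ 4 * (m + 1) := by
      have h3 : (0 : ℝ) ≤ ((2 * m + 1 : ℕ) : ℝ) := Nat.cast_nonneg _
      apply le_of_sq_le_sq _ (by positivity)
      rw [mul_pow, Real.sq_sqrt h3]
      push_cast
      have h4 : (2 * (m : ℝ) + 1) * ((L : ℝ) + 1) ^ 2 ≤ (2 * (m + 1)) * (8 * (m + 1)) := by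
        apply mul_le_mul _ h1 (by positivity) (by positivity)
        linarith
      nlinarith
    have h5 : (((48 * ((A + 1) * (L + 1)) + 1 : ℕ) : ℝ) + 1) ≤ 50 * (A + 1) * (L + 1) := by
      push_cast
      have hA : (0 : ℝ) ≤ A := Nat.cast_nonneg A
      have hL0 : (0 : ℝ) ≤ L := Nat.cast_nonneg L
      nlinarith [mul_nonneg hA hL0]
    calc Real.sqrt ((2 * m + 1 : ℕ) : ℝ) * (((48 * ((A + 1) * (L + 1)) + 1 : ℕ) : ℝ) + 1)
        ≤ Real.sqrt ((2 * m + 1 : ℕ) : ℝ) * (50 * (A + 1) * (L + 1)) := by gcongr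
      _ = 50 * (A + 1) * (Real.sqrt ((2 * m + 1 : ℕ) : ℝ) * ((L : ℝ) + 1)) := by ring
      _ ≤ 50 * (A + 1) * (4 * (m + 1)) := by gcongr
      _ = 200 * (A + 1) * (m + 1) := by ring

theorem kq_disc_odd : ∃ C : ℝ, 0 ≤ C ∧ ∀ m K : ℕ,
    ∫⁻ a, cntO (kVF (2 * m + 1) a) (disc 0 (2 ^ K)) (∅ : Finset ℕ) (fun _ => ∅)
      ∂kMeas (2 * m + 1) ≤ ENNReal.ofReal (C * (m + 1)) := by
  obtain ⟨C1, hC1, hmain⟩ := kp_main
  obtain ⟨C3, hC3, hmid⟩ := kq_mid
  obtain ⟨C4, A, hC4, hNL⟩ := kq_NL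
  refine ⟨C1 * (2 + 200 * (A + 1)) + 1200 + 96 * C3 + 96 * C4, by positivity, fun m K => ?_⟩
  obtain ⟨k1, hk1, hA, hn2, hq, hsum⟩ := kq_choice A m
  set n : ℕ := 2 * m + 1 with hn
  have hn1 : 1 ≤ n := by omega
  have hnm : (n : ℝ) ≤ 2 * (m + 1) := by
    rw [hn]
    push_cast
    linarith
  have hm0 : (0 : ℝ) ≤ m := Nat.cast_nonneg m
  set k0 := 48 * k1 with hk0
  have hk024 : 24 ≤ k0 := by omega
  refine (lintegral_mono fun a => kq_split hn1 (K := K) hk024 hq a).trans ?_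
  have hcz : ∀ k ∈ Finset.Ico (k0 + 1) (K + 1), ∀ j ∈ cells (kq n) k,
      (2 : ℝ) ^ k / 4 ≤ nm (cellC (kq n) k j) := by
    intro k hk j hj
    rw [Finset.mem_Ico] at hk
    unfold cells at hj
    rw [Finset.mem_filter] at hj
    rcases hj.2 with h | h
    · omega
    · exact h
  have m1 : Measurable fun a : KSp n =>
      cntO (kVF n a) (disc 0 (2 ^ (k0 + 1))) (∅ : Finset ℕ) (fun _ => ∅) :=
    km_measurable_cntO n (isOpen_disc _ _) ∅ (by simp)
  have m2 : Measurable fun a : KSp n =>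
      cntO (kVF n a) (disc 0 (2 ^ K)) Finset.univ (crV 0 (2 * 2 ^ k0)) :=
    km_measurable_cntO n (isOpen_disc _ _) _ fun i _ => isOpen_crV _ _ i
  have m3 : ∀ k ∈ Finset.Ico (k0 + 1) (K + 1), Measurable fun a : KSp n =>
      ∑ j ∈ cells (kq n) k, kF n k K (cellC (kq n) k j) a := by
    intro k hk
    refine Finset.measurable_fun_sum _ fun j hj => ?_
    exact measurable_kF hn1 (by rw [Finset.mem_Ico] at hk; omega) K (hcz k hk j hj)
  have m4 : Measurable fun a : KSp n => ∑ k ∈ Finset.Ico (k0 + 1) (K + 1),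
      ∑ j ∈ cells (kq n) k, kF n k K (cellC (kq n) k j) a :=
    Finset.measurable_fun_sum _ m3
  have m12 : Measurable fun a : KSp n =>
      cntO (kVF n a) (disc 0 (2 ^ (k0 + 1))) (∅ : Finset ℕ) (fun _ => ∅) +
      cntO (kVF n a) (disc 0 (2 ^ K)) Finset.univ (crV 0 (2 * 2 ^ k0)) := m1.add m2
  have m123 : Measurable fun a : KSp n =>
      cntO (kVF n a) (disc 0 (2 ^ (k0 + 1))) (∅ : Finset ℕ) (fun _ => ∅) +
      cntO (kVF n a) (disc 0 (2 ^ K)) Finset.univ (crV 0 (2 * 2 ^ k0)) +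
      ∑ k ∈ Finset.Ico (k0 + 1) (K + 1), ∑ j ∈ cells (kq n) k,
        kF n k K (cellC (kq n) k j) a := m12.add m4
  rw [lintegral_add_left m123, lintegral_add_left m12,
    lintegral_add_left m1, lintegral_finsetSum _ m3, lintegral_finsetSum _ fun j _ =>
      measurable_NL n j]
  have b1 := hmain n hn1 (k0 + 1)
  have b2 := kq_cross hn1 (disc 0 (2 ^ K)) (isOpen_disc _ _) (R := 2 ^ k0) (by positivity)
  have b3 : ∑ k ∈ Finset.Ico (k0 + 1) (K + 1), ∫⁻ a, ∑ j ∈ cells (kq n) k,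
      kF n k K (cellC (kq n) k j) a ∂kMeas n ≤ ENNReal.ofReal (C3 * n * 48) := by
    refine (Finset.sum_le_sum fun k hk => hmid n k hn1
      (by rw [Finset.mem_Ico] at hk; omega) K).trans ?_
    rw [← ENNReal.ofReal_sum_of_nonneg fun k _ => by positivity]
    refine ENNReal.ofReal_le_ofReal ?_
    rw [← Finset.mul_sum]
    refine mul_le_mul_of_nonneg_left ?_ (by positivity)
    refine le_trans ?_ (kp_sum_geom K)
    refine Finset.sum_le_sum_of_subset_of_nonneg ?_ fun _ _ _ => by positivity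
    intro x hx
    rw [Finset.mem_Ico] at hx
    rw [Finset.mem_range]
    exact hx.2
  have b4 : ∑ j ∈ Finset.Ico k0 K, ∫⁻ a, NL (kVF n a) j ∂kMeas n ≤ ENNReal.ofReal (96 * C4) := by
    have h1 : ∀ j ∈ Finset.Ico k0 K, ∫⁻ a, NL (kVF n a) j ∂kMeas n ≤
        ENNReal.ofReal (C4 * (m + 1) ^ A * ((2 : ℝ) ^ (j / 48))⁻¹) := by
      intro j hj
      rw [Finset.mem_Ico] at hj
      exact hNL m j (hn2.trans (pow_le_pow_right₀ (by norm_num) hj.1))
    refine (Finset.sum_le_sum h1).trans ?_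
    rw [← ENNReal.ofReal_sum_of_nonneg fun k _ => by positivity]
    refine ENNReal.ofReal_le_ofReal ?_
    rw [← Finset.mul_sum]
    calc C4 * (m + 1) ^ A * ∑ j ∈ Finset.Ico k0 K, ((2 : ℝ) ^ (j / 48))⁻¹
        ≤ C4 * (m + 1) ^ A * (96 * ((2 : ℝ) ^ k1)⁻¹) :=
          mul_le_mul_of_nonneg_left (kq_sum_geom k1 K) (by positivity)
      _ = 96 * C4 * ((m + 1) ^ A * ((2 : ℝ) ^ k1)⁻¹) := by ring
      _ ≤ 96 * C4 * 1 := by
          gcongr
          rw [← div_eq_mul_inv, div_le_one (by positivity)]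
          exact hA
      _ = 96 * C4 := by ring
  refine (add_le_add (add_le_add (add_le_add b1 b2) b3) b4).trans ?_
  have p1 : 0 ≤ C1 * ((n : ℝ) + Real.sqrt n * ((k0 + 1 : ℕ) + 1)) := by positivity
  rw [← ENNReal.ofReal_add p1 (by positivity), ← ENNReal.ofReal_add (by positivity)
    (by positivity), ← ENNReal.ofReal_add (by positivity) (by positivity)]
  refine ENNReal.ofReal_le_ofReal ?_
  calc C1 * ((n : ℝ) + Real.sqrt n * ((k0 + 1 : ℕ) + 1)) + 600 * n + C3 * n * 48 + 96 * C4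
      ≤ C1 * (2 * (m + 1) + 200 * (A + 1) * (m + 1)) + 600 * (2 * (m + 1)) +
        C3 * (2 * (m + 1)) * 48 + 96 * C4 * (m + 1) := by
        have h9 : 96 * C4 ≤ 96 * C4 * (m + 1) := by nlinarith
        have h10 : C1 * ((n : ℝ) + Real.sqrt n * ((k0 + 1 : ℕ) + 1)) ≤
            C1 * (2 * (m + 1) + 200 * (A + 1) * (m + 1)) :=
          mul_le_mul_of_nonneg_left (add_le_add hnm hsum) hC1
        have h11 : C3 * (n : ℝ) * 48 ≤ C3 * (2 * (m + 1)) * 48 := by gcongr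
        linarith
    _ = (C1 * (2 + 200 * (A + 1)) + 1200 + 96 * C3 + 96 * C4) * (m + 1) := by ring

/-- exhaustion of the plane by discs -/
theorem cntO_univ_eq_iSup (v : ℝ × ℝ → ℝ × ℝ) :
    cntO v Set.univ (∅ : Finset ℕ) (fun _ => ∅) =
      ⨆ K : ℕ, cntO v (disc 0 (2 ^ K)) (∅ : Finset ℕ) (fun _ => ∅) := by
  classical
  refine le_antisymm ?_ (iSup_le fun K => kf_cntO_mono v (Set.subset_univ _))
  have h0 : ∀ U : Set (ℝ × ℝ), cntO v U (∅ : Finset ℕ) (fun _ => ∅) =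
      ∑' C, ({C | IsClosedOrbit v C ∧ C ⊆ U ∧ ∀ i ∈ (∅ : Finset ℕ),
        ¬ C ⊆ (fun _ => (∅ : Set (ℝ × ℝ))) i} : Set (Set (ℝ × ℝ))).indicator
        (fun _ => (1 : ℝ≥0∞)) C := by
    intro U
    unfold cntO
    rw [kp_encard]
  rw [h0, ENNReal.tsum_eq_iSup_sum]
  refine iSup_le fun s => ?_
  -- a common disc
  have hex : ∃ K : ℕ, ∀ C ∈ s, IsClosedOrbit v C → C ⊆ disc 0 (2 ^ K) := by
    induction s using Finset.induction_on with
    | empty => exact ⟨0, by simp⟩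
    | insert C s hCs ih =>
      obtain ⟨K, hK⟩ := ih
      have hone : ∃ K' : ℕ, IsClosedOrbit v C → C ⊆ disc 0 (2 ^ K') := by
        by_cases hC : IsClosedOrbit v C
        · obtain ⟨R, hR⟩ := hC.isCompact.isBounded.subset_closedBall 0
          obtain ⟨K', hK'⟩ := pow_unbounded_of_one_lt (2 * R + 1) (by norm_num : (1 : ℝ) < 2)
          refine ⟨K', fun _ z hz => ?_⟩
          have h1 := hR hz
          rw [mem_closedBall_zero_iff] at h1
          have h2 : |z.1| ≤ R := (norm_fst_le z).trans h1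
          have h3 : |z.2| ≤ R := (norm_snd_le z).trans h1
          have hR0 : 0 ≤ R := (abs_nonneg _).trans h2
          rw [mem_disc_zero (by positivity)]
          refine lt_of_le_of_lt ?_ hK'
          unfold nm
          rw [Real.sqrt_le_left (by linarith)]
          have h4 : z.1 ^ 2 ≤ R ^ 2 := by rw [← sq_abs z.1]; exact pow_le_pow_left₀ (abs_nonneg _) h2 2
          have h5 : z.2 ^ 2 ≤ R ^ 2 := by rw [← sq_abs z.2]; exact pow_le_pow_left₀ (abs_nonneg _) h3 2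
          nlinarith
        · exact ⟨0, fun h => absurd h hC⟩
      obtain ⟨K', hK'⟩ := hone
      have hmono : ∀ {i j : ℕ}, i ≤ j → disc (0 : ℝ × ℝ) (2 ^ i) ⊆ disc 0 (2 ^ j) := by
        intro i j hij z hz
        rw [mem_disc_zero (by positivity)] at hz ⊢
        exact hz.trans_le (pow_le_pow_right₀ (by norm_num) hij)
      refine ⟨max K K', fun C' hC' hcl => ?_⟩
      rw [Finset.mem_insert] at hC'
      rcases hC' with rfl | h
      · exact (hK' hcl).trans (hmono (le_max_right _ _))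
      · exact (hK C' h hcl).trans (hmono (le_max_left _ _))
  obtain ⟨K, hK⟩ := hex
  refine le_trans ?_ (le_iSup _ K)
  rw [h0]
  refine le_trans (Finset.sum_le_sum fun C hC => ?_) (ENNReal.sum_le_tsum s)
  by_cases hm : C ∈ ({C | IsClosedOrbit v C ∧ C ⊆ Set.univ ∧ ∀ i ∈ (∅ : Finset ℕ),
        ¬ C ⊆ (fun _ => (∅ : Set (ℝ × ℝ))) i} : Set (Set (ℝ × ℝ)))
  · rw [Set.indicator_of_mem hm]
    have hm2 : C ∈ ({C | IsClosedOrbit v C ∧ C ⊆ disc 0 (2 ^ K) ∧ ∀ i ∈ (∅ : Finset ℕ),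
        ¬ C ⊆ (fun _ => (∅ : Set (ℝ × ℝ))) i} : Set (Set (ℝ × ℝ))) :=
      ⟨hm.1, hK C hC hm.1, by simp⟩
    rw [Set.indicator_of_mem hm2]
  · rw [Set.indicator_of_notMem hm]
    exact zero_le

theorem kq_plane_odd : ∃ C : ℝ, 0 ≤ C ∧ ∀ m : ℕ,
    ∫⁻ a, cntO (kVF (2 * m + 1) a) Set.univ (∅ : Finset ℕ) (fun _ => ∅)
      ∂kMeas (2 * m + 1) ≤ ENNReal.ofReal (C * (m + 1)) := by
  obtain ⟨C, hC, h⟩ := kq_disc_odd
  refine ⟨C, hC, fun m => ?_⟩
  simp only [cntO_univ_eq_iSup]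
  rw [lintegral_iSup]
  · exact iSup_le fun K => h m K
  · intro K
    exact km_measurable_cntO (2 * m + 1) (isOpen_disc _ _) ∅ (by simp)
  · intro i j hij a
    refine kf_cntO_mono _ fun z hz => ?_
    rw [mem_disc_zero (by positivity)] at hz ⊢
    exact hz.trans_le (pow_le_pow_right₀ (by norm_num) hij)

/-- the mean number of closed orbits in the plane, for every degree -/
theorem kq_plane : ∃ C : ℝ, 0 ≤ C ∧ ∀ n : ℕ, 1 ≤ n →
    ∫⁻ a, cntO (kVF n a) Set.univ (∅ : Finset ℕ) (fun _ => ∅) ∂kMeas n ≤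
      ENNReal.ofReal (C * n) := by
  obtain ⟨C1, hC1, h1⟩ := kp_plane_even
  obtain ⟨C2, hC2, h2⟩ := kq_plane_odd
  refine ⟨C1 + C2, by positivity, fun n hn => ?_⟩
  rcases Nat.even_or_odd' n with ⟨m, hm | hm⟩
  · subst hm
    refine (h1 m (by omega)).trans (ENNReal.ofReal_le_ofReal ?_)
    push_cast
    have hm0 : (0 : ℝ) ≤ m := Nat.cast_nonneg m
    nlinarith [mul_nonneg hC1 hm0, mul_nonneg hC2 hm0]
  · subst hm
    refine (h2 m).trans (ENNReal.ofReal_le_ofReal ?_)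
    push_cast
    have hm0 : (0 : ℝ) ≤ m := Nat.cast_nonneg m
    nlinarith [mul_nonneg hC1 hm0, mul_nonneg hC2 hm0]

end Pool.Agent.Lib.MP_95e7ec_an
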