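import Mathlib
import Pool.Agent.Lib.MP_95e7ec_an.FoldDefs
import Pool.Agent.Lib.MP_95e7ec_an.Glue1

/-!
# Potential fields with many limit cycles near the axis: definitions
-/

set_option autoImplicit false

open Set Filter Topology

namespace Pool.Agent.Lib.MP_95e7ec_an

/-- The array of the polynomial `f(x) y^β`. -/
noncomputable def polArr (D : ℕ) (f : Polynomial ℝ) (β : ℕ) : Co D :=
  fun a b => if (b : ℕ) = β then f.coeff (a : ℕ) else 0

/-- The potential field `(-y, f(x))`. -/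
noncomputable def potArr (D : ℕ) (f : Polynomial ℝ) : Pr D := (-monoArr D 0 1, polArr D f 0)

/-- The perturbation `(0, ∑_{j<m} G_j(x) y^{2j+1})`. -/
noncomputable def pertArr (D m : ℕ) (G : ℕ → Polynomial ℝ) : Pr D :=
  (0, ∑ j ∈ Finset.range m, polArr D (G j) (2 * j + 1))

/-- The field of `μ` in the coordinates `(x,y) = (a X, b Y)`, with the time multiplied by `a/b`:
`(P(aX,bY)/b, Q(aX,bY) a/b²)`. -/
noncomputable def wArr {D : ℕ} (a b : ℝ) (μ : Pr D) : Pr D :=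
  (fun i j => μ.1 i j * (a ^ (i : ℕ) * b ^ (j : ℕ) / b),
    fun i j => μ.2 i j * (a ^ (i : ℕ) * b ^ (j : ℕ) * a / b ^ 2))

/-- The field `(-y, x^{2d-1})`. -/
def homArr (D d : ℕ) : Pr D := (-monoArr D 0 1, monoArr D (2 * d - 1) 0)

/-- The polynomial `2 x f(x² - σ²)`. -/
noncomputable def dbl (σ : ℝ) (f : Polynomial ℝ) : Polynomial ℝ :=
  Polynomial.C 2 * Polynomial.X * f.comp (Polynomial.X ^ 2 - Polynomial.C (σ ^ 2))

/-- The pair `(S, ω)` has `Z` limit cycles, robustly with respect to reversible perturbations of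
`S`: for every reversible field `S'` near `S` and every field `ω'` near `ω`, the field `S' + λ ω'`
has at least `Z` limit cycles in the ball of radius `R` for all sufficiently small `λ > 0`. -/
def RobZ {D : ℕ} (S ω : Pr D) (R : ℝ) (Z : ℕ) : Prop :=
  ∀ᶠ q in 𝓝 ((S, ω) : Pr D × Pr D), RevArr q.1 →
    ∀ᶠ lam in 𝓝[>] (0 : ℝ), Has (q.1 + lam • q.2) R Z

/-- The local theory of the fields near the quasi-homogeneous centre `(-y, x^{2d-1})`: `disp μ` is
the displacement of the first return map on the positive `x`-axis at the point `(1,0)` (the orbit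
of `(1,0)` returns to `(1 - disp μ, 0)`). -/
structure OvalChart (D d : ℕ) where
  nbhd : Set (Pr D)
  disp : Pr D → ℝ
  isOpen : IsOpen nbhd
  mem : homArr D d ∈ nbhd
  analytic : AnalyticOnNhd ℝ disp nbhd
  rev : ∀ μ ∈ nbhd, RevArr μ → disp μ = 0
  cycles : ∀ (m : ℝ → Pr D) (a1 a2 : ℝ), 0 < a1 → a1 < a2 →
    (∀ a ∈ Set.Icc a1 a2, m a ∈ nbhd) → (∀ a ∈ Set.Icc a1 a2, AnalyticAt ℝ m a) →
    (∀ a r : ℝ, 0 < a → 0 < r → m (r * a) = wArr r (r ^ d) (m a)) →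
    disp (m a1) * disp (m a2) < 0 →
    ∃ a ∈ Set.Ioo a1 a2, ∃ C : Set (ℝ × ℝ), IsLimitCycle (vfc (m a)) C ∧
      ((1 : ℝ), (0 : ℝ)) ∈ C ∧ (∀ X : ℝ, 0 < X → (X, (0 : ℝ)) ∈ C → X = 1) ∧
      C ⊆ Metric.ball 0 2
  deriv_ne : ∀ i j : ℕ, 2 * i ≤ D → 2 * j + 1 ≤ D →
    fderiv ℝ disp (homArr D d) ((0, monoArr D (2 * i) (2 * j + 1)) : Pr D) ≠ 0
  deriv_sym : ∀ (f : Polynomial ℝ) (i j : ℕ), f.natDegree ≤ D → (∀ k, Even k → f.coeff k = 0) →
    2 * i + 1 ≤ D → 2 * j + 1 ≤ D → potArr D f ∈ nbhd →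
    fderiv ℝ disp (potArr D f) ((0, monoArr D (2 * i + 1) (2 * j + 1)) : Pr D) = 0

end Pool.Agent.Lib.MP_95e7ec_an
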