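import Mathlib
import Pool.Agent.Lib.MP_95e7ec_an.LogDefs
import Pool.Agent.Lib.MP_95e7ec_an.FoldMono

/-!
# Algebra and continuity of `polArr`, `potArr`, `pertArr`, `wArr`
-/

set_option autoImplicit false

open Set Filter Topology

namespace Pool.Agent.Lib.MP_95e7ec_an

theorem pe_polArr {D : ℕ} {R : Type*} [CommRing R] [Algebra ℝ R] {f : Polynomial ℝ} {β : ℕ}
    (hf : f.natDegree ≤ D) (hβ : β ≤ D) (x y : R) :
    pe (polArr D f β) x y = Polynomial.aeval x f * y ^ β := by
  unfold pe polArr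
  have h1 : ∀ a : Fin (D + 1), ∑ b : Fin (D + 1),
      (if (b : ℕ) = β then f.coeff (a : ℕ) else 0) • (x ^ (a : ℕ) * y ^ (b : ℕ)) =
      (f.coeff (a : ℕ) • x ^ (a : ℕ)) * y ^ β := by
    intro a
    rw [Finset.sum_eq_single (⟨β, by omega⟩ : Fin (D + 1))]
    · simp
    · intro b _ hb
      have : (b : ℕ) ≠ β := fun h => hb (Fin.ext h)
      simp [this]
    · simp
  rw [Finset.sum_congr rfl (fun a _ => h1 a), ← Finset.sum_mul,
    Polynomial.aeval_eq_sum_range' (Nat.lt_succ_of_le hf), Finset.sum_range]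

theorem polArr_add (D : ℕ) (f g : Polynomial ℝ) (β : ℕ) :
    polArr D (f + g) β = polArr D f β + polArr D g β := by
  funext a b
  simp only [polArr, Pi.add_apply, Polynomial.coeff_add]
  split_ifs <;> simp

theorem polArr_C_mul (D : ℕ) (r : ℝ) (f : Polynomial ℝ) (β : ℕ) :
    polArr D (Polynomial.C r * f) β = r • polArr D f β := by
  funext a b
  simp only [polArr, Pi.smul_apply, Polynomial.coeff_C_mul, smul_eq_mul]
  split_ifs <;> simp

theorem polArr_X_pow {D α : ℕ} (β : ℕ) :
    polArr D (Polynomial.X ^ α) β = monoArr D α β := by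
  funext a b
  simp only [polArr, monoArr, Polynomial.coeff_X_pow]
  by_cases h : (b : ℕ) = β <;> by_cases h' : (a : ℕ) = α <;> simp [h, h']

theorem polArr_eq_sum {D : ℕ} (f : Polynomial ℝ) (β : ℕ) :
    polArr D f β = ∑ i ∈ f.support, f.coeff i • monoArr D i β := by
  funext a b
  simp only [polArr, monoArr, Finset.sum_apply, Pi.smul_apply, smul_eq_mul]
  by_cases h : (b : ℕ) = β
  · simp only [h, if_true, and_true, mul_ite, mul_one, mul_zero]
    rw [Finset.sum_ite_eq f.support (a : ℕ) (fun i => f.coeff i)]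
    split_ifs with h'
    · rfl
    · exact Polynomial.notMem_support_iff.mp h'
  · simp [h]

theorem vfc_potArr {D : ℕ} {f : Polynomial ℝ} (hf : f.natDegree ≤ D) (hD : 1 ≤ D) (z : ℝ × ℝ) :
    vfc (potArr D f) z = (-z.2, f.eval z.1) := by
  unfold vfc potArr
  simp only
  rw [pe_neg_arr, pe_monoArr (by omega) hD, pe_polArr hf (by omega)]
  simp [Polynomial.aeval_def, Polynomial.eval₂_eq_eval_map]

theorem potArr_rev (D : ℕ) (f : Polynomial ℝ) : RevArr (potArr D f) := by
  constructor
  · intro a b hb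
    have h1 : (b : ℕ) ≠ 1 := by
      intro h
      rw [h] at hb
      exact absurd hb (by decide)
    simp [potArr, monoArr, h1]
  · intro a b hb
    have h1 : (b : ℕ) ≠ 0 := by
      intro h
      rw [h] at hb
      exact absurd hb (by decide)
    simp only [potArr, polArr]
    rw [if_neg h1]

theorem homArr_eq (D d : ℕ) : homArr D d = potArr D (Polynomial.X ^ (2 * d - 1)) := by
  simp only [homArr, potArr, polArr_X_pow]

theorem pertArr_add (D m : ℕ) (G G' : ℕ → Polynomial ℝ) :
    pertArr D m (fun j => G j + G' j) = pertArr D m G + pertArr D m G' := by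
  simp only [pertArr, polArr_add, Finset.sum_add_distrib, Prod.mk_add_mk, add_zero]

theorem pertArr_C_mul (D m : ℕ) (r : ℝ) (G : ℕ → Polynomial ℝ) :
    pertArr D m (fun j => Polynomial.C r * G j) = r • pertArr D m G := by
  simp only [pertArr, polArr_C_mul, Finset.smul_sum, Prod.smul_mk, smul_zero]

theorem vfc_wArr {D : ℕ} {a b : ℝ} (hb : b ≠ 0) (μ : Pr D) (z : ℝ × ℝ) :
    vfc (wArr a b μ) z =
      ((vfc μ (a * z.1, b * z.2)).1 / b, (vfc μ (a * z.1, b * z.2)).2 * a / b ^ 2) := by
  unfold vfc wArr pe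
  simp only [smul_eq_mul]
  refine Prod.ext ?_ ?_
  · simp only
    rw [Finset.sum_div]
    refine Finset.sum_congr rfl fun i _ => ?_
    rw [Finset.sum_div]
    refine Finset.sum_congr rfl fun j _ => ?_
    rw [mul_pow, mul_pow]
    field_simp
  · simp only
    rw [Finset.sum_mul, Finset.sum_div]
    refine Finset.sum_congr rfl fun i _ => ?_
    rw [Finset.sum_mul, Finset.sum_div]
    refine Finset.sum_congr rfl fun j _ => ?_
    rw [mul_pow, mul_pow]
    field_simp

theorem wArr_add {D : ℕ} (a b : ℝ) (μ ν : Pr D) :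
    wArr a b (μ + ν) = wArr a b μ + wArr a b ν := by
  refine Prod.ext ?_ ?_ <;>
  · funext i j
    simp only [wArr, Prod.fst_add, Prod.snd_add, Pi.add_apply]
    ring

theorem wArr_smul {D : ℕ} (a b r : ℝ) (μ : Pr D) : wArr a b (r • μ) = r • wArr a b μ := by
  refine Prod.ext ?_ ?_ <;>
  · funext i j
    simp only [wArr, Prod.smul_fst, Prod.smul_snd, Pi.smul_apply, smul_eq_mul]
    ring

theorem wArr_wArr {D : ℕ} {r s a b : ℝ} (hs : s ≠ 0) (hb : b ≠ 0) (μ : Pr D) :
    wArr r s (wArr a b μ) = wArr (r * a) (s * b) μ := by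
  refine Prod.ext ?_ ?_ <;>
  · funext i j
    simp only [wArr, mul_pow]
    field_simp

theorem wArr_rev {D : ℕ} {μ : Pr D} (hμ : RevArr μ) (a b : ℝ) : RevArr (wArr a b μ) := by
  constructor
  · intro i j hj
    simp only [wArr, hμ.1 i j hj, zero_mul]
  · intro i j hj
    simp only [wArr, hμ.2 i j hj, zero_mul]

theorem continuousAt_wArr {D : ℕ} {a b : ℝ} (hb : b ≠ 0) (μ : Pr D) :
    ContinuousAt (fun p : (ℝ × ℝ) × Pr D => wArr p.1.1 p.1.2 p.2) ((a, b), μ) := by
  have ha1 : ContinuousAt (fun p : (ℝ × ℝ) × Pr D => p.1.1) ((a, b), μ) :=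
    (continuous_fst.comp continuous_fst).continuousAt
  have hb1 : ContinuousAt (fun p : (ℝ × ℝ) × Pr D => p.1.2) ((a, b), μ) :=
    (continuous_snd.comp continuous_fst).continuousAt
  unfold wArr
  refine ContinuousAt.prodMk ?_ ?_
  · refine continuousAt_pi.mpr fun i => continuousAt_pi.mpr fun j => ?_
    have hc : ContinuousAt (fun p : (ℝ × ℝ) × Pr D => p.2.1 i j) ((a, b), μ) := by
      have : Continuous (fun p : (ℝ × ℝ) × Pr D => p.2.1 i j) := by fun_prop
      exact this.continuousAt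
    exact hc.mul (((ha1.pow _).mul (hb1.pow _)).div hb1 hb)
  · refine continuousAt_pi.mpr fun i => continuousAt_pi.mpr fun j => ?_
    have hc : ContinuousAt (fun p : (ℝ × ℝ) × Pr D => p.2.2 i j) ((a, b), μ) := by
      have : Continuous (fun p : (ℝ × ℝ) × Pr D => p.2.2 i j) := by fun_prop
      exact this.continuousAt
    exact hc.mul ((((ha1.pow _).mul (hb1.pow _)).mul ha1).div (hb1.pow 2) (pow_ne_zero 2 hb))

theorem analyticAt_wArr {D : ℕ} {κ : ℝ} (hκ : κ ≠ 0) (d : ℕ) {a : ℝ} (ha : 0 < a) (μ : Pr D) :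
    AnalyticAt ℝ (fun a : ℝ => wArr a (κ * a ^ d) μ) a := by
  have ha1 : AnalyticAt ℝ (fun t : ℝ => t) a := analyticAt_id
  have hb1 : AnalyticAt ℝ (fun t : ℝ => κ * t ^ d) a := analyticAt_const.mul (ha1.pow d)
  have hb : κ * a ^ d ≠ 0 := mul_ne_zero hκ (pow_ne_zero d ha.ne')
  unfold wArr
  refine AnalyticAt.prod ?_ ?_
  · refine AnalyticAt.pi fun i => AnalyticAt.pi fun j => ?_
    exact analyticAt_const.mul (((ha1.pow _).mul (hb1.pow _)).div hb1 hb)
  · refine AnalyticAt.pi fun i => AnalyticAt.pi fun j => ?_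
    exact analyticAt_const.mul
      ((((ha1.pow _).mul (hb1.pow _)).mul ha1).div (hb1.pow 2) (pow_ne_zero 2 hb))

theorem wArr_potArr {D : ℕ} {a b : ℝ} (hb : b ≠ 0) (f : Polynomial ℝ) :
    wArr a b (potArr D f) = potArr D (Polynomial.C (a / b ^ 2) *
      f.comp (Polynomial.C a * Polynomial.X)) := by
  refine Prod.ext ?_ ?_
  · funext i j
    simp only [wArr, potArr, monoArr, Pi.neg_apply]
    by_cases h : (i : ℕ) = 0 ∧ (j : ℕ) = 1
    · rw [if_pos h, h.1, h.2]
      field_simp
    · rw [if_neg h]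
      simp
  · funext i j
    simp only [wArr, potArr, polArr]
    by_cases h : (j : ℕ) = 0
    · rw [if_pos h, if_pos h, h, Polynomial.coeff_C_mul, Polynomial.comp_C_mul_X_coeff]
      ring
    · rw [if_neg h, if_neg h]
      simp

theorem wArr_mono {D : ℕ} (a b : ℝ) (i j : ℕ) :
    wArr a b ((0, monoArr D i j) : Pr D) =
      (a ^ i * b ^ j * a / b ^ 2) • ((0, monoArr D i j) : Pr D) := by
  refine Prod.ext ?_ ?_
  · funext k l
    simp [wArr]
  · funext k l
    simp only [wArr, monoArr, Prod.smul_snd, Pi.smul_apply, smul_eq_mul]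
    by_cases h : (k : ℕ) = i ∧ (l : ℕ) = j
    · rw [if_pos h, h.1, h.2]
      ring
    · rw [if_neg h]
      simp

theorem tendsto_wArr_hom {D d : ℕ} (hd : 1 ≤ d) (hD : 2 * d ≤ D + 1) {f : Polynomial ℝ}
    (hf : f.natDegree + 1 = 2 * d) (hlc : 0 < f.leadingCoeff) :
    Tendsto (fun a : ℝ => wArr a (Real.sqrt f.leadingCoeff * a ^ d) (potArr D f)) atTop
      (𝓝 (homArr D d)) := by
  have hs : 0 < Real.sqrt f.leadingCoeff := Real.sqrt_pos.mpr hlc
  have hs2 : Real.sqrt f.leadingCoeff ^ 2 = f.leadingCoeff := Real.sq_sqrt hlc.le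
  have hev : ∀ᶠ a : ℝ in atTop, 0 < a := eventually_gt_atTop 0
  refine Tendsto.prodMk_nhds ?_ ?_
  · refine tendsto_pi_nhds.mpr fun i => tendsto_pi_nhds.mpr fun j => ?_
    refine tendsto_const_nhds.congr' ?_
    filter_upwards [hev] with a ha
    have hb : Real.sqrt f.leadingCoeff * a ^ d ≠ 0 := mul_ne_zero hs.ne' (pow_ne_zero d ha.ne')
    simp only [potArr, monoArr, Pi.neg_apply]
    by_cases h : (i : ℕ) = 0 ∧ (j : ℕ) = 1
    · rw [if_pos h, h.1, h.2]
      rw [pow_zero, one_mul, pow_one, div_self hb, mul_one]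
    · rw [if_neg h]
      simp
  · refine tendsto_pi_nhds.mpr fun i => tendsto_pi_nhds.mpr fun j => ?_
    simp only [potArr, polArr, homArr, monoArr]
    by_cases hj : (j : ℕ) = 0
    · simp only [hj, if_true, and_true, pow_zero, mul_one]
      have hform : ∀ᶠ a : ℝ in atTop, f.coeff (i : ℕ) / f.leadingCoeff * (a ^ (i : ℕ) * a / a ^ (2 * d))
          = f.coeff (i : ℕ) * (a ^ (i : ℕ) * a / (Real.sqrt f.leadingCoeff * a ^ d) ^ 2) := by
        filter_upwards [hev] with a ha
        rw [mul_pow, hs2, ← pow_mul, mul_comm d 2]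
        field_simp
      by_cases hi : (i : ℕ) = 2 * d - 1
      · rw [if_pos hi]
        refine (tendsto_const_nhds (x := (1 : ℝ))).congr' ?_
        filter_upwards [hform, hev] with a ha ha0
        rw [← ha, hi]
        have h1 : f.coeff (2 * d - 1) = f.leadingCoeff := by
          rw [Polynomial.leadingCoeff]
          congr 1
          omega
        rw [h1, div_self hlc.ne', one_mul, ← pow_succ]
        have h2 : 2 * d - 1 + 1 = 2 * d := by omega
        rw [h2, div_self (pow_ne_zero _ ha0.ne')]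
      · rw [if_neg hi]
        rcases lt_or_gt_of_ne hi with hlt | hgt
        · have h0 : Tendsto (fun a : ℝ => f.coeff (i : ℕ) / f.leadingCoeff *
              (a ^ (i : ℕ) * a / a ^ (2 * d))) atTop (𝓝 (f.coeff (i : ℕ) / f.leadingCoeff * 0)) := by
            refine Tendsto.const_mul _ ?_
            have hlt' : (i : ℕ) + 1 < 2 * d := by omega
            have := tendsto_pow_div_pow_atTop_zero (𝕜 := ℝ) hlt'
            simpa only [pow_succ] using this
          rw [mul_zero] at h0
          exact h0.congr' hform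
        · have h1 : f.coeff (i : ℕ) = 0 := Polynomial.coeff_eq_zero_of_natDegree_lt (by omega)
          rw [h1]
          simp
    · simp only [hj, if_false, and_false, zero_mul]
      exact tendsto_const_nhds

theorem eval_dbl (σ : ℝ) (f : Polynomial ℝ) (x : ℝ) :
    (dbl σ f).eval x = 2 * x * f.eval (x ^ 2 - σ ^ 2) := by
  simp [dbl, Polynomial.eval_comp]

theorem logArr_natDegree_inner (σ : ℝ) :
    (Polynomial.X ^ 2 - Polynomial.C (σ ^ 2) : Polynomial ℝ).natDegree = 2 :=
  Polynomial.natDegree_X_pow_sub_C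

theorem natDegree_dbl (σ : ℝ) {f : Polynomial ℝ} (hf : f ≠ 0) :
    (dbl σ f).natDegree = 2 * f.natDegree + 1 := by
  have h1 : (f.comp (Polynomial.X ^ 2 - Polynomial.C (σ ^ 2))).natDegree = f.natDegree * 2 := by
    rw [Polynomial.natDegree_comp, logArr_natDegree_inner]
  have hne : f.comp (Polynomial.X ^ 2 - Polynomial.C (σ ^ 2)) ≠ 0 := by
    intro h
    rw [Polynomial.comp_eq_zero_iff] at h
    rcases h with h | ⟨_, h⟩
    · exact hf h
    · have := congrArg Polynomial.natDegree h
      rw [logArr_natDegree_inner, Polynomial.natDegree_C] at this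
      omega
  unfold dbl
  rw [mul_assoc, Polynomial.natDegree_C_mul (by norm_num), Polynomial.natDegree_X_mul hne, h1]
  ring

theorem leadingCoeff_dbl (σ : ℝ) (f : Polynomial ℝ) :
    (dbl σ f).leadingCoeff = 2 * f.leadingCoeff := by
  unfold dbl
  rw [Polynomial.leadingCoeff_mul, Polynomial.leadingCoeff_mul, Polynomial.leadingCoeff_comp (by
    rw [logArr_natDegree_inner]; norm_num), Polynomial.leadingCoeff_X_pow_sub_C (by norm_num)]
  simp

theorem degree_dbl_lt (σ : ℝ) {f : Polynomial ℝ} {n : ℕ} (hf : f.degree < (n : WithBot ℕ)) :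
    (dbl σ f).degree < ((2 * n : ℕ) : WithBot ℕ) := by
  by_cases h0 : f = 0
  · subst h0
    have h1 : dbl σ 0 = 0 := by simp [dbl]
    rw [h1, Polynomial.degree_zero]
    exact WithBot.bot_lt_coe _
  · have h1 : f.natDegree < n := (Polynomial.natDegree_lt_iff_degree_lt h0).mpr hf
    have h2 : dbl σ f ≠ 0 := by
      intro h
      have := natDegree_dbl σ h0
      rw [h, Polynomial.natDegree_zero] at this
      omega
    rw [← Polynomial.natDegree_lt_iff_degree_lt h2, natDegree_dbl σ h0]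
    omega

theorem coeff_dbl_even (σ : ℝ) (f : Polynomial ℝ) {k : ℕ} (hk : Even k) :
    (dbl σ f).coeff k = 0 := by
  have h1 : (dbl σ f).comp (-Polynomial.X) = -dbl σ f := by
    unfold dbl
    simp only [Polynomial.mul_comp, Polynomial.C_comp, Polynomial.X_comp, Polynomial.comp_assoc,
      Polynomial.sub_comp, Polynomial.pow_comp, neg_sq]
    ring
  have h2 := congrArg (fun p : Polynomial ℝ => p.coeff k) h1
  simp only [Polynomial.coeff_neg] at h2
  have h3 : ((dbl σ f).comp (-Polynomial.X)).coeff k = (dbl σ f).coeff k := by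
    have h4 : (-Polynomial.X : Polynomial ℝ) = Polynomial.C (-1) * Polynomial.X := by simp
    rw [h4, Polynomial.comp_C_mul_X_coeff, hk.neg_one_pow, mul_one]
  rw [h3] at h2
  linarith

end Pool.Agent.Lib.MP_95e7ec_an
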