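import Mathlib

/-!
# Asymptotics of the recursion `H (2 n + 10) ≥ 4 H n + E n k`, `E n k ≈ k n²` for `2 ^ k ≤ n + 1`
-/

set_option autoImplicit false

namespace Pool.Agent.Lib.MP_95e7ec_an

theorem logAsymp_iter (H : ℕ → ℕ∞) (E : ℕ → ℕ → ℕ)
    (hE : ∀ n k : ℕ, (k : ℝ) * n ^ 2 - 3 / 2 * k * (n + 3) * 2 ^ k - 3 * 2 ^ k ≤ (E n k : ℝ))
    (hrec : ∀ n k : ℕ, 1 ≤ n → 2 ^ k ≤ n + 1 → 4 * H n + ((E n k : ℕ) : ℕ∞) ≤ H (2 * n + 10))
    (a : ℕ) (ha : 11 ≤ a) (k : ℕ) :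
    ENNReal.ofReal (4 ^ k * (((a : ℝ) - 10) ^ 2 - 3 / 2 * a - 3) * (k * (k - 1)) / 8) ≤
      ((H (2 ^ k * a - 10) : ℕ∞) : ENNReal) := by
  induction k with
  | zero => simp
  | succ k ih =>
    have hp : 1 ≤ 2 ^ k := Nat.one_le_two_pow
    have hk : 11 * 2 ^ k ≤ 2 ^ k * a := by nlinarith
    have h1 := hrec (2 ^ k * a - 10) k (by omega) (by omega)
    have h2 : 2 * (2 ^ k * a - 10) + 10 = 2 ^ (k + 1) * a - 10 := by
      rw [pow_succ]
      have : 2 ^ k * 2 * a = 2 * (2 ^ k * a) := by ring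
      rw [this]
      omega
    rw [h2] at h1
    have h3 := ENat.toENNReal_le.2 h1
    refine le_trans ?_ h3
    rw [ENat.toENNReal_add, ENat.toENNReal_mul]
    have h4 : ((4 : ℕ∞) : ENNReal) = 4 := by norm_cast
    rw [h4, ENat.toENNReal_coe]
    refine le_trans ?_ (add_le_add_left (mul_le_mul_right ih 4) _)
    have hEn := hE (2 ^ k * a - 10) k
    have hE0 : (0 : ℝ) ≤ (E (2 ^ k * a - 10) k : ℝ) := by positivity
    set n : ℕ := 2 ^ k * a - 10 with hn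
    have hnr : (n : ℝ) = 2 ^ k * a - 10 := by
      rw [hn, Nat.cast_sub (by omega)]
      push_cast; ring
    have haR : (11 : ℝ) ≤ a := by exact_mod_cast ha
    have hpR : (1 : ℝ) ≤ 2 ^ k := one_le_pow₀ (by norm_num)
    have e4' : (4 : ℝ) ^ k = (2 ^ k) ^ 2 := by
      rw [← pow_mul, mul_comm k 2, pow_mul]; norm_num
    have hkey : 4 ^ k * (((a : ℝ) - 10) ^ 2 - 3 / 2 * a - 3) * k ≤ (E n k : ℝ) := by
      rcases Nat.eq_zero_or_pos k with h0 | h0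
      · rw [h0]; simp
      · have hk1 : (1 : ℝ) ≤ k := by exact_mod_cast h0
        refine le_trans ?_ hEn
        have g1 : 2 ^ k * ((a : ℝ) - 10) ≤ n := by rw [hnr]; nlinarith
        have g2 : (2 ^ k * ((a : ℝ) - 10)) ^ 2 ≤ (n : ℝ) ^ 2 :=
          pow_le_pow_left₀ (by apply mul_nonneg <;> linarith) g1 2
        have g3 : (n : ℝ) + 3 ≤ 2 ^ k * a := by rw [hnr]; linarith
        have g4 : 3 / 2 * (k : ℝ) * (n + 3) * 2 ^ k ≤ 3 / 2 * k * (2 ^ k * a) * 2 ^ k := by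
          gcongr
        have g5 : 3 * (2 : ℝ) ^ k ≤ 3 * k * (2 ^ k) ^ 2 := by
          have : (2 : ℝ) ^ k * 1 ≤ (2 ^ k) * (k * 2 ^ k) := by
            apply mul_le_mul_of_nonneg_left _ (by positivity)
            nlinarith
          nlinarith
        have g6 : (k : ℝ) * (2 ^ k * ((a : ℝ) - 10)) ^ 2 ≤ k * (n : ℝ) ^ 2 :=
          mul_le_mul_of_nonneg_left g2 (by positivity)
        rw [e4']
        nlinarith
    have h5 : ((E n k : ℕ) : ENNReal) = ENNReal.ofReal (E n k : ℝ) := by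
      rw [ENNReal.ofReal_natCast]
    have h4' : (4 : ENNReal) = ENNReal.ofReal 4 := by norm_num
    rw [h5, h4', ← ENNReal.ofReal_mul (by norm_num)]
    refine le_trans (ENNReal.ofReal_le_ofReal ?_) ENNReal.ofReal_add_le
    have e4 : (4 : ℝ) ^ (k + 1) = 4 * 4 ^ k := by rw [pow_succ]; ring
    rw [e4]
    push_cast
    nlinarith

theorem log_asymp (H : ℕ → ℕ∞) (hmono : Monotone H) (E : ℕ → ℕ → ℕ)
    (hE : ∀ n k : ℕ, (k : ℝ) * n ^ 2 - 3 / 2 * k * (n + 3) * 2 ^ k - 3 * 2 ^ k ≤ (E n k : ℝ))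
    (hrec : ∀ n k : ℕ, 1 ≤ n → 2 ^ k ≤ n + 1 → 4 * H n + ((E n k : ℕ) : ℕ∞) ≤ H (2 * n + 10))
    (ε : ℝ) (hε : 0 < ε) : ∃ n0 : ℕ, ∀ n : ℕ, n0 ≤ n →
      ENNReal.ofReal ((1 / 8 - ε) * n ^ 2 * Real.logb 2 n ^ 2) ≤ ((H n : ℕ∞) : ENNReal) := by
  rcases le_or_gt (1 / 8) ε with h1 | h1
  · refine ⟨1, fun n hn => ?_⟩
    rw [ENNReal.ofReal_of_nonpos]
    · exact zero_le
    · have h2 : (0 : ℝ) ≤ (n : ℝ) ^ 2 * Real.logb 2 n ^ 2 := by positivity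
      nlinarith
  obtain ⟨A, hA⟩ := exists_nat_ge (6 / ε + 16)
  have hA16 : (16 : ℝ) ≤ A := by
    have : 0 < 6 / ε := by positivity
    linarith
  have hAε : 6 ≤ ε * A := by
    have h2 : 6 / ε ≤ A := by linarith
    rw [div_le_iff₀ hε] at h2
    linarith
  have hA16' : 16 ≤ A := by exact_mod_cast hA16
  obtain ⟨K, hK⟩ := exists_nat_ge (((A : ℝ) + 1) / ε)
  refine ⟨2 ^ K * A, fun n hn => ?_⟩
  set m : ℕ := n + 10 with hm
  set k : ℕ := Nat.log 2 (m / A) with hk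
  set a : ℕ := m / 2 ^ k with haa
  have hApos : 0 < A := by omega
  have hmA : 2 ^ K ≤ m / A := by
    rw [Nat.le_div_iff_mul_le hApos]
    omega
  have hKk : K ≤ k := by
    rw [hk]
    exact Nat.le_log_of_pow_le (by norm_num) hmA
  have h2k : 2 ^ k ≤ m / A := by
    rw [hk]
    apply Nat.pow_log_le_self
    have : 0 < 2 ^ K := by positivity
    omega
  have h2k' : m / A < 2 ^ (k + 1) := by
    rw [hk]
    exact Nat.lt_pow_succ_log_self (by norm_num) _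
  have hpk : 0 < 2 ^ k := by positivity
  have hAa : A ≤ a := by
    rw [haa, Nat.le_div_iff_mul_le hpk]
    rw [Nat.le_div_iff_mul_le hApos] at h2k
    linarith [mul_comm A (2 ^ k)]
  have ha2A : a < 2 * A := by
    rw [haa, Nat.div_lt_iff_lt_mul hpk]
    rw [Nat.div_lt_iff_lt_mul hApos] at h2k'
    calc m < 2 ^ (k + 1) * A := h2k'
      _ = 2 * A * 2 ^ k := by ring
  have ham : 2 ^ k * a ≤ m := Nat.mul_div_le m (2 ^ k)
  have hma : m < 2 ^ k * (a + 1) := by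
    rw [haa]
    exact Nat.lt_mul_div_succ m hpk
  have hiter := logAsymp_iter H E hE hrec a (by omega) k
  have hmn : H (2 ^ k * a - 10) ≤ H n := hmono (by omega)
  refine le_trans ?_ (le_trans hiter (ENat.toENNReal_le.2 hmn))
  apply ENNReal.ofReal_le_ofReal
  have hn1 : (1 : ℝ) ≤ n := by
    have h3 : 1 ≤ 2 ^ K * A := Nat.mul_pos (by positivity) hApos
    exact_mod_cast le_trans h3 hn
  have hnlt : (n : ℝ) ≤ 2 ^ k * (a + 1) := by
    have : n ≤ 2 ^ k * (a + 1) := by omega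
    exact_mod_cast this
  have haR : (A : ℝ) ≤ a := by exact_mod_cast hAa
  have ha2R : (a : ℝ) + 1 ≤ 2 * A := by exact_mod_cast ha2A
  have hlog : Real.logb 2 n ≤ k + 2 * A := by
    have h3 : Real.logb 2 n ≤ Real.logb 2 (2 ^ k * (a + 1)) :=
      Real.logb_le_logb_of_le (by norm_num) (by linarith) hnlt
    have h4 : Real.logb 2 (2 ^ k * ((a : ℝ) + 1)) = k + Real.logb 2 (a + 1) := by
      rw [Real.logb_mul (by positivity) (by positivity), Real.logb_pow, Real.logb_self_eq_one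
        (by norm_num)]
      ring
    have h5 : Real.logb 2 ((a : ℝ) + 1) ≤ a + 1 := by
      rw [Real.logb_le_iff_le_rpow (by norm_num) (by positivity)]
      have h6 : (a + 1 : ℕ) < 2 ^ (a + 1) := Nat.lt_two_pow_self
      have h7 : ((a : ℝ) + 1) ≤ 2 ^ (a + 1) := by exact_mod_cast h6.le
      calc ((a : ℝ) + 1) ≤ 2 ^ (a + 1) := h7
        _ = (2 : ℝ) ^ (((a + 1 : ℕ) : ℝ)) := by rw [Real.rpow_natCast]
        _ = (2 : ℝ) ^ ((a : ℝ) + 1) := by push_cast; rfl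
    linarith
  have hlog0 : 0 ≤ Real.logb 2 n := Real.logb_nonneg (by norm_num) hn1
  have hKr : (A : ℝ) + 1 ≤ ε * k := by
    have h3 : ((A : ℝ) + 1) / ε ≤ k := hK.trans (by exact_mod_cast hKk)
    rw [div_le_iff₀ hε] at h3
    linarith
  have hk0 : (0 : ℝ) ≤ k := by positivity
  have hA0 : (0 : ℝ) ≤ A := by positivity
  have hsq : (n : ℝ) ^ 2 ≤ 4 ^ k * (a + 1) ^ 2 := by
    have e4' : (4 : ℝ) ^ k = (2 ^ k) ^ 2 := by
      rw [← pow_mul, mul_comm k 2, pow_mul]; norm_num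
    rw [e4', ← mul_pow]
    exact pow_le_pow_left₀ (by positivity) hnlt 2
  have hlsq : Real.logb 2 n ^ 2 ≤ ((k : ℝ) + 2 * A) ^ 2 := pow_le_pow_left₀ hlog0 hlog 2
  set c : ℝ := ((a : ℝ) - 10) ^ 2 - 3 / 2 * a - 3 with hc
  have ha0 : (16 : ℝ) ≤ a := by linarith
  have hs1 : (1 - 4 * ε) * ((a : ℝ) + 1) ^ 2 ≤ c := by
    have h3 : 6 ≤ ε * a := le_trans hAε (by nlinarith)
    have h4 : 6 * ((a : ℝ) + 1) ≤ ε * a * (a + 1) :=
      mul_le_mul_of_nonneg_right h3 (by positivity)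
    have h5 : ε * a * ((a : ℝ) + 1) ≤ ε * ((a : ℝ) + 1) ^ 2 := by
      have h6 : (a : ℝ) * (a + 1) ≤ (a + 1) ^ 2 := by
        have : ((a : ℝ) + 1) ^ 2 - a * (a + 1) = a + 1 := by ring
        linarith
      calc ε * a * ((a : ℝ) + 1) = ε * (a * (a + 1)) := by ring
        _ ≤ ε * ((a : ℝ) + 1) ^ 2 := mul_le_mul_of_nonneg_left h6 hε.le
    have e1 : (1 - 4 * ε) * ((a : ℝ) + 1) ^ 2 = ((a : ℝ) + 1) ^ 2 - 4 * (ε * ((a : ℝ) + 1) ^ 2) := by
      ring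
    have e2 : ((a : ℝ) - 10) ^ 2 - 3 / 2 * a - 3 - (((a : ℝ) + 1) ^ 2 - 24 * (a + 1)) =
        a / 2 + 120 := by ring
    rw [hc, e1]
    linarith
  have hs2 : (1 - 4 * ε) * ((k : ℝ) + 2 * A) ^ 2 ≤ k * (k - 1) := by
    have h4 : (A + 1) * ((k : ℝ) + 2 * A) ≤ ε * k * (k + 2 * A) := by
      apply mul_le_mul_of_nonneg_right hKr
      positivity
    have h5 : ε * k * ((k : ℝ) + 2 * A) ≤ ε * (k + 2 * A) ^ 2 := by
      have h6 : (k : ℝ) * (k + 2 * A) ≤ (k + 2 * A) ^ 2 := by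
        have e1 : ((k : ℝ) + 2 * A) ^ 2 - k * (k + 2 * A) = 2 * A * (k + 2 * A) := by ring
        have e2 : (0 : ℝ) ≤ 2 * A * (k + 2 * A) := by positivity
        linarith
      calc ε * k * ((k : ℝ) + 2 * A) = ε * (k * (k + 2 * A)) := by ring
        _ ≤ ε * (k + 2 * A) ^ 2 := mul_le_mul_of_nonneg_left h6 hε.le
    have e1 : (1 - 4 * ε) * ((k : ℝ) + 2 * A) ^ 2 =
        ((k : ℝ) + 2 * A) ^ 2 - 4 * (ε * ((k : ℝ) + 2 * A) ^ 2) := by ring
    have e2 : (k : ℝ) * (k - 1) - (((k : ℝ) + 2 * A) ^ 2 - 4 * ((A + 1) * ((k : ℝ) + 2 * A))) =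
        3 * k + 4 * A ^ 2 + 8 * A := by ring
    have e3 : (0 : ℝ) ≤ 3 * k + 4 * A ^ 2 + 8 * A := by positivity
    rw [e1]
    linarith
  have hε4 : 0 ≤ 1 - 4 * ε := by linarith
  have hprod : (1 - 4 * ε) * ((a : ℝ) + 1) ^ 2 * ((1 - 4 * ε) * ((k : ℝ) + 2 * A) ^ 2) ≤
      c * (k * (k - 1)) := by
    apply mul_le_mul hs1 hs2
    · positivity
    · exact le_trans (by positivity) hs1
  have h8 : (1 - 8 * ε) ≤ (1 - 4 * ε) * (1 - 4 * ε) := by nlinarith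
  have h9 : (1 - 8 * ε) * (((a : ℝ) + 1) ^ 2 * ((k : ℝ) + 2 * A) ^ 2) ≤ c * (k * (k - 1)) := by
    refine le_trans (mul_le_mul_of_nonneg_right h8 (by positivity)) ?_
    refine le_trans (le_of_eq ?_) hprod
    ring
  have h10 : (n : ℝ) ^ 2 * Real.logb 2 n ^ 2 ≤
      4 ^ k * (((a : ℝ) + 1) ^ 2 * ((k : ℝ) + 2 * A) ^ 2) := by
    calc (n : ℝ) ^ 2 * Real.logb 2 n ^ 2 ≤ (4 ^ k * (a + 1) ^ 2) * ((k : ℝ) + 2 * A) ^ 2 :=
          mul_le_mul hsq hlsq (by positivity) (by positivity)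
      _ = _ := by ring
  have h11 : (0 : ℝ) ≤ 1 - 8 * ε := by linarith
  have h12 : (1 - 8 * ε) * ((n : ℝ) ^ 2 * Real.logb 2 n ^ 2) ≤ 4 ^ k * (c * (k * (k - 1))) := by
    refine le_trans (mul_le_mul_of_nonneg_left h10 h11) ?_
    have h13 : (0 : ℝ) ≤ 4 ^ k := by positivity
    have h14 := mul_le_mul_of_nonneg_left h9 h13
    refine le_trans (le_of_eq ?_) h14
    ring
  linarith

end Pool.Agent.Lib.MP_95e7ec_an
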