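import Mathlib
import Pool.Agent.Lib.MP_95e7ec_an.LogDefs
import Pool.Agent.Lib.MP_95e7ec_an.FoldMono
import Pool.Agent.Lib.MP_95e7ec_an.FoldEven
import Pool.Agent.Lib.MP_95e7ec_an.Paths

/-!
# Identities along closed orbits of potential fields
-/

set_option autoImplicit false

open Set Filter Topology

namespace Pool.Agent.Lib.MP_95e7ec_an

section alg
variable {D : ℕ} {R : Type*} [CommRing R] [Algebra ℝ R]

theorem logEnergy_pe_polArr {f : Polynomial ℝ} (hf : f.natDegree ≤ D) (x y : R) :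
    pe (polArr D f 0) x y = Polynomial.aeval x f := by
  unfold pe polArr
  rw [Polynomial.aeval_eq_sum_range' (Nat.lt_succ_of_le hf), ← Fin.sum_univ_eq_sum_range
    (fun i => f.coeff i • x ^ i)]
  refine Finset.sum_congr rfl fun a _ => ?_
  rw [Finset.sum_eq_single (0 : Fin (D + 1))]
  · simp
  · intro b _ hb
    have : (b : ℕ) ≠ 0 := fun h => hb (Fin.ext h)
    simp [this]
  · simp

theorem logEnergy_pex_polArr {f : Polynomial ℝ} (hf : f.natDegree ≤ D) (x y : R) :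
    pex (polArr D f 0) x y = Polynomial.aeval x f.derivative := by
  unfold pex polArr
  rw [Polynomial.derivative_apply, Polynomial.sum_over_range' f (by simp) (D + 1)
    (Nat.lt_succ_of_le hf), map_sum, ← Fin.sum_univ_eq_sum_range
    (fun i => Polynomial.aeval x (Polynomial.C (f.coeff i * (i : ℝ)) * Polynomial.X ^ (i - 1)))]
  refine Finset.sum_congr rfl fun a _ => ?_
  rw [Finset.sum_eq_single (0 : Fin (D + 1))]
  · simp [Algebra.smul_def, mul_assoc]
  · intro b _ hb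
    have : (b : ℕ) ≠ 0 := fun h => hb (Fin.ext h)
    simp [this]
  · simp

theorem logEnergy_pey_polArr (f : Polynomial ℝ) (x y : R) :
    pey (polArr D f 0) x y = 0 := by
  unfold pey polArr
  refine Finset.sum_eq_zero fun a _ => Finset.sum_eq_zero fun b _ => ?_
  by_cases hb : (b : ℕ) = 0
  · simp [hb]
  · simp [hb]

end alg

theorem logEnergy_aeval_apply (f : Polynomial ℝ) (x : A) (t : unitInterval) :
    (Polynomial.aeval x f) t = f.eval (x t) := by
  have h := Polynomial.aeval_algHom_apply (ContinuousMap.evalAlgHom ℝ ℝ t) x f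
  have e1 : (ContinuousMap.evalAlgHom ℝ ℝ t) x = x t := rfl
  have e2 : (ContinuousMap.evalAlgHom ℝ ℝ t) (Polynomial.aeval x f) = (Polynomial.aeval x f) t := rfl
  rw [e1, e2] at h
  rw [← h, Polynomial.coe_aeval_eq_eval]

theorem energy_identity {D : ℕ} {f : Polynomial ℝ} (hf : f.natDegree ≤ D) (hD : 1 ≤ D)
    {c : Co D} {τ T' F : ℝ} {z b : A × A}
    (hz : Sol (potArr D f) τ (1, 0) z) (hend : at' z 1 = (1, 0))
    (h1 : b.1 = T' • prim (pe (potArr D f).1 z.1 z.2) + τ •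
      prim (pex (potArr D f).1 z.1 z.2 * b.1 + pey (potArr D f).1 z.1 z.2 * b.2 +
        pe (0 : Co D) z.1 z.2))
    (h2 : b.2 = T' • prim (pe (potArr D f).2 z.1 z.2) + τ •
      prim (pex (potArr D f).2 z.1 z.2 * b.1 + pey (potArr D f).2 z.1 z.2 * b.2 +
        pe c z.1 z.2))
    (hb : b.1 1 = -F) :
    f.eval 1 * F = -(τ * prim (z.2 * pe c z.1 z.2) 1) := by
  have m1 : ∀ x y : A, pe (potArr D f).1 x y = -y := by
    intro x y
    simp only [potArr, pe_neg_arr]
    rw [pe_monoArr (by omega) (by omega)]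
    simp
  have m2 : ∀ x y : A, pe (potArr D f).2 x y = Polynomial.aeval x f := by
    intro x y
    simp only [potArr]
    rw [logEnergy_pe_polArr hf]
  have m3 : ∀ x y : A, pex (potArr D f).1 x y = 0 := by
    intro x y
    simp only [potArr, pex_neg_arr]
    rw [pex_monoArr (by omega) (by omega)]
    simp
  have m4 : ∀ x y : A, pey (potArr D f).1 x y = -1 := by
    intro x y
    simp only [potArr, pey_neg_arr]
    rw [pey_monoArr (by omega) (by omega)]
    simp
  have m5 : ∀ x y : A, pex (potArr D f).2 x y = Polynomial.aeval x f.derivative := by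
    intro x y
    simp only [potArr]
    rw [logEnergy_pex_polArr hf]
  have m6 : ∀ x y : A, pey (potArr D f).2 x y = 0 := by
    intro x y
    simp only [potArr]
    rw [logEnergy_pey_polArr]
  obtain ⟨hz1, hz2⟩ := hz
  simp only [m1, m2, m3, m4, m5, m6, pe_zero_arr, zero_mul, zero_add, add_zero,
    neg_mul, one_mul] at h1 h2 hz1 hz2
  set q : A := pe c z.1 z.2 with hq
  let Z1 : ℝ → ℝ := fun t => 1 + τ * rprim (-z.2) t
  let Z2 : ℝ → ℝ := fun t => 0 + τ * rprim (Polynomial.aeval z.1 f) t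
  let B1 : ℝ → ℝ := fun t => T' * rprim (-z.2) t + τ * rprim (-b.2) t
  let B2 : ℝ → ℝ := fun t => T' * rprim (Polynomial.aeval z.1 f) t +
    τ * rprim (Polynomial.aeval z.1 f.derivative * b.1 + q) t
  have vZ1 : ∀ t : unitInterval, Z1 t = z.1 t := by
    intro t
    conv_rhs => rw [hz1]
    rfl
  have vZ2 : ∀ t : unitInterval, Z2 t = z.2 t := by
    intro t
    conv_rhs => rw [hz2]
    simp only [Z2, zero_add, ContinuousMap.add_apply, ContinuousMap.smul_apply,
      ContinuousMap.const_apply, smul_eq_mul, rprim_coe]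
  have vB1 : ∀ t : unitInterval, B1 t = b.1 t := by
    intro t
    conv_rhs => rw [h1]
    rfl
  have vB2 : ∀ t : unitInterval, B2 t = b.2 t := by
    intro t
    conv_rhs => rw [h2]
    rfl
  have dZ1 : ∀ t : unitInterval, HasDerivAt Z1 (τ * (-z.2 t)) t := fun t =>
    ((rprim_hasDerivAt (-z.2) t).const_mul τ).const_add 1
  have dZ2 : ∀ t : unitInterval, HasDerivAt Z2 (τ * f.eval (z.1 t)) t := fun t => by
    have := ((rprim_hasDerivAt (Polynomial.aeval z.1 f) t).const_mul τ).const_add 0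
    rwa [logEnergy_aeval_apply] at this
  have dB1 : ∀ t : unitInterval, HasDerivAt B1 (T' * (-z.2 t) + τ * (-b.2 t)) t := fun t =>
    ((rprim_hasDerivAt (-z.2) t).const_mul T').add ((rprim_hasDerivAt (-b.2) t).const_mul τ)
  have dB2 : ∀ t : unitInterval, HasDerivAt B2 (T' * f.eval (z.1 t) +
      τ * (f.derivative.eval (z.1 t) * b.1 t + q t)) t := fun t => by
    have := ((rprim_hasDerivAt (Polynomial.aeval z.1 f) t).const_mul T').add
      ((rprim_hasDerivAt (Polynomial.aeval z.1 f.derivative * b.1 + q) t).const_mul τ)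
    simp only [ContinuousMap.add_apply, ContinuousMap.mul_apply, logEnergy_aeval_apply] at this
    exact this
  let E : ℝ → ℝ := fun t => f.eval (Z1 t) * B1 t + Z2 t * B2 t - τ * rprim (z.2 * q) t
  have dE : ∀ t ∈ Set.Icc (0 : ℝ) 1, HasDerivAt E 0 t := by
    intro t ht
    have hfZ : HasDerivAt (fun s => f.eval (Z1 s)) (f.derivative.eval (Z1 t) *
        (τ * (-z.2 ⟨t, ht⟩))) t :=
      (f.hasDerivAt (Z1 t)).comp t (dZ1 ⟨t, ht⟩)
    have h := ((hfZ.mul (dB1 ⟨t, ht⟩)).add ((dZ2 ⟨t, ht⟩).mul (dB2 ⟨t, ht⟩))).sub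
      ((rprim_hasDerivAt (z.2 * q) ⟨t, ht⟩).const_mul τ)
    refine HasDerivAt.congr_deriv h ?_
    simp only [vB1 ⟨t, ht⟩, vB2 ⟨t, ht⟩, vZ1 ⟨t, ht⟩, vZ2 ⟨t, ht⟩, ContinuousMap.mul_apply]
    ring
  have hcont : ContinuousOn E (Set.Icc 0 1) := fun t ht =>
    (dE t ht).continuousAt.continuousWithinAt
  have hE0 : E 0 = 0 := by simp [E, B1, Z2, rprim_zero]
  have hconst := constant_of_has_deriv_right_zero hcont
    (fun x hx => (dE x ⟨hx.1, hx.2.le⟩).hasDerivWithinAt) 1 ⟨zero_le_one, le_rfl⟩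
  rw [hE0] at hconst
  have e1 : Z1 1 = 1 := by
    have h3 : Z1 1 = z.1 1 := vZ1 1
    rw [h3]
    exact congrArg Prod.fst hend
  have e2 : Z2 1 = 0 := by
    have h3 : Z2 1 = z.2 1 := vZ2 1
    rw [h3]
    exact congrArg Prod.snd hend
  have e3 : B1 1 = -F := by
    have h3 : B1 1 = b.1 1 := vB1 1
    rw [h3, hb]
  have e4 : rprim (z.2 * q) 1 = prim (z.2 * q) 1 := rprim_coe (z.2 * q) 1
  simp only [E, e1, e2, e3, e4] at hconst
  linarith

theorem pos_identity {D d : ℕ} (hd : 1 ≤ d) (hD : 2 * d ≤ D + 1) {τ : ℝ} (hτ : 0 < τ)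
    {z : A × A} (hz : Sol (homArr D d) τ (1, 0) z) (i j : ℕ) :
    0 < prim (z.2 * (z.1 ^ (2 * i) * z.2 ^ (2 * j + 1))) 1 := by
  have m1 : ∀ x y : A, pe (homArr D d).1 x y = -y := by
    intro x y
    simp only [homArr, pe_neg_arr]
    rw [pe_monoArr (by omega) (by omega)]
    simp
  have m2 : ∀ x y : A, pe (homArr D d).2 x y = x ^ (2 * d - 1) := by
    intro x y
    simp only [homArr]
    rw [pe_monoArr (by omega) (by omega)]
    simp
  obtain ⟨hz1, hz2⟩ := hz
  simp only [m1, m2] at hz1 hz2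
  have v1 : z.1 0 = 1 := by
    rw [hz1]
    have h0 : prim (-z.2) 0 = 0 := by
      rw [← rprim_coe]
      exact rprim_zero _
    simp [h0]
  let Z2 : ℝ → ℝ := fun t => 0 + τ * rprim (z.1 ^ (2 * d - 1)) t
  have vZ2 : ∀ t : unitInterval, Z2 t = z.2 t := by
    intro t
    conv_rhs => rw [hz2]
    simp only [Z2, zero_add, ContinuousMap.add_apply, ContinuousMap.smul_apply,
      ContinuousMap.const_apply, smul_eq_mul, rprim_coe]
  have dZ2 : ∀ t : unitInterval, HasDerivAt Z2 (τ * z.1 t ^ (2 * d - 1)) t := fun t =>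
    ((rprim_hasDerivAt (z.1 ^ (2 * d - 1)) t).const_mul τ).const_add 0
  -- a small interval on which `z₁ > 0`
  obtain ⟨δ, hδ0, hδ1, hδ⟩ : ∃ δ : ℝ, 0 < δ ∧ δ ≤ 1 ∧
      ∀ (t : ℝ) (ht : t ∈ Set.Icc (0 : ℝ) 1), t ≤ δ → 0 < z.1 ⟨t, ht⟩ := by
    have hc : ContinuousAt z.1 (0 : unitInterval) := z.1.continuous.continuousAt
    have hev : ∀ᶠ t in 𝓝 (0 : unitInterval), 0 < z.1 t :=
      hc.eventually (lt_mem_nhds (by rw [v1]; exact one_pos))
    obtain ⟨ε, hε, hball⟩ := Metric.eventually_nhds_iff.1 hev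
    refine ⟨min (ε / 2) 1, lt_min (by linarith) one_pos, min_le_right _ _, fun t ht htδ => ?_⟩
    apply hball
    have h3 : dist (⟨t, ht⟩ : unitInterval) 0 = |t - 0| := rfl
    rw [h3, sub_zero, abs_of_nonneg ht.1]
    have := min_le_left (ε / 2) (1 : ℝ)
    linarith
  have hmono2 : StrictMonoOn Z2 (Set.Icc 0 δ) := by
    refine strictMonoOn_of_deriv_pos (convex_Icc 0 δ) ?_ ?_
    · intro t ht
      exact (dZ2 ⟨t, ht.1, ht.2.trans hδ1⟩).continuousAt.continuousWithinAt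
    · intro t ht
      rw [interior_Icc] at ht
      have ht' : t ∈ Set.Icc (0 : ℝ) 1 := ⟨ht.1.le, ht.2.le.trans hδ1⟩
      rw [(dZ2 ⟨t, ht'⟩).deriv]
      exact mul_pos hτ (pow_pos (hδ t ht' ht.2.le) _)
  have hz2pos : ∀ (t : ℝ) (ht : t ∈ Set.Icc (0 : ℝ) 1), 0 < t → t ≤ δ → 0 < z.2 ⟨t, ht⟩ := by
    intro t ht ht0 htδ
    have h3 := hmono2 ⟨le_rfl, hδ0.le⟩ ⟨ht0.le, htδ⟩ ht0
    have h4 : Z2 0 = 0 := by simp [Z2, rprim_zero]
    rw [h4] at h3
    have h5 : Z2 t = z.2 ⟨t, ht⟩ := vZ2 ⟨t, ht⟩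
    rwa [h5] at h3
  set g : A := z.2 * (z.1 ^ (2 * i) * z.2 ^ (2 * j + 1)) with hg
  have hgval : ∀ t : unitInterval, g t = (z.1 t ^ i) ^ 2 * (z.2 t ^ (j + 1)) ^ 2 := by
    intro t
    simp only [hg, ContinuousMap.mul_apply, ContinuousMap.pow_apply]
    ring
  have hcont : ContinuousOn (rprim g) (Set.Icc 0 1) := fun t ht =>
    (rprim_hasDerivAt g ⟨t, ht⟩).continuousAt.continuousWithinAt
  have hmono : MonotoneOn (rprim g) (Set.Icc 0 1) := by
    refine monotoneOn_of_deriv_nonneg (convex_Icc 0 1) hcont ?_ ?_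
    · intro t ht
      rw [interior_Icc] at ht
      exact (rprim_hasDerivAt g ⟨t, ht.1.le, ht.2.le⟩).differentiableAt.differentiableWithinAt
    · intro t ht
      rw [interior_Icc] at ht
      rw [(rprim_hasDerivAt g ⟨t, ht.1.le, ht.2.le⟩).deriv, hgval]
      positivity
  have hstrict : StrictMonoOn (rprim g) (Set.Icc 0 δ) := by
    refine strictMonoOn_of_deriv_pos (convex_Icc 0 δ)
      (hcont.mono (Set.Icc_subset_Icc_right hδ1)) ?_
    intro t ht
    rw [interior_Icc] at ht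
    have ht' : t ∈ Set.Icc (0 : ℝ) 1 := ⟨ht.1.le, ht.2.le.trans hδ1⟩
    rw [(rprim_hasDerivAt g ⟨t, ht'⟩).deriv, hgval]
    have h3 := hδ t ht' ht.2.le
    have h4 := hz2pos t ht' ht.1 ht.2.le
    positivity
  have h6 : rprim g 0 < rprim g δ := hstrict ⟨le_rfl, hδ0.le⟩ ⟨hδ0.le, le_rfl⟩ hδ0
  have h7 : rprim g δ ≤ rprim g 1 := hmono ⟨hδ0.le, hδ1⟩ ⟨zero_le_one, le_rfl⟩ hδ1
  have h8 : rprim g 1 = prim g 1 := rprim_coe g 1
  rw [rprim_zero] at h6
  rw [← h8]
  linarith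

end Pool.Agent.Lib.MP_95e7ec_an
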