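import Mathlib
import Pool.Agent.Lib.MP_95e7ec_an.LogDefs
import Pool.Agent.Lib.MP_95e7ec_an.FoldMono

/-!
# The explicit closed orbit of `(-y, x^(2d-1))` (task F1)
-/

set_option autoImplicit false

open Set Filter Topology

namespace Pool.Agent.Lib.MP_95e7ec_an

private noncomputable def logOrbit_q (d : ℕ) (x : ℝ) : ℝ := ∑ i ∈ Finset.range d, (x ^ 2) ^ i

private theorem logOrbit_geom (d : ℕ) (x : ℝ) :
    (1 - x ^ 2) * logOrbit_q d x = 1 - x ^ (2 * d) := by
  have h := geom_sum_mul (x ^ 2) d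
  rw [← pow_mul] at h
  rw [logOrbit_q]
  linear_combination -h

private theorem logOrbit_q_ge {d : ℕ} (hd : 1 ≤ d) (x : ℝ) : 1 ≤ logOrbit_q d x := by
  have h : (fun i => (x ^ 2) ^ i) 0 ≤ ∑ i ∈ Finset.range d, (x ^ 2) ^ i :=
    Finset.single_le_sum (f := fun i => (x ^ 2) ^ i) (fun i _ => by positivity)
      (Finset.mem_range.2 (by omega))
  rw [logOrbit_q]
  simpa using h

private theorem logOrbit_q_le {d : ℕ} {x : ℝ} (hx : x ^ 2 ≤ 1) : logOrbit_q d x ≤ d := by
  have h : ∑ i ∈ Finset.range d, (x ^ 2) ^ i ≤ ∑ _i ∈ Finset.range d, (1 : ℝ) :=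
    Finset.sum_le_sum fun i _ => pow_le_one₀ (sq_nonneg x) hx
  simpa [logOrbit_q] using h

private theorem logOrbit_q_neg (d : ℕ) (x : ℝ) : logOrbit_q d (-x) = logOrbit_q d x := by
  simp [logOrbit_q]

/-- the derivative of `q` -/
private noncomputable def logOrbit_q' (d : ℕ) (x : ℝ) : ℝ :=
  ∑ i ∈ Finset.range d, (i : ℝ) * (x ^ 2) ^ (i - 1) * (2 * x)

private theorem logOrbit_q_deriv (d : ℕ) (x : ℝ) :
    HasDerivAt (logOrbit_q d) (logOrbit_q' d x) x := by
  have h : ∀ i ∈ Finset.range d, HasDerivAt (fun x : ℝ => (x ^ 2) ^ i)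
      ((i : ℝ) * (x ^ 2) ^ (i - 1) * (2 * x)) x := by
    intro i _
    have h1 : HasDerivAt (fun x : ℝ => x ^ 2) (2 * x) x := by
      simpa using hasDerivAt_pow 2 x
    exact h1.pow i
  have h2 := HasDerivAt.fun_sum h
  exact h2

private theorem logOrbit_id {d : ℕ} (x : ℝ) :
    2 * x * logOrbit_q d x - (1 - x ^ 2) * logOrbit_q' d x = 2 * d * x ^ (2 * d - 1) := by
  have h1 : HasDerivAt (fun x : ℝ => (1 - x ^ 2) * logOrbit_q d x)
      (-(2 * x) * logOrbit_q d x + (1 - x ^ 2) * logOrbit_q' d x) x := by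
    have h0 : HasDerivAt (fun x : ℝ => 1 - x ^ 2) (-(2 * x)) x := by
      simpa using (hasDerivAt_pow 2 x).const_sub 1
    exact h0.mul (logOrbit_q_deriv d x)
  have h2 : HasDerivAt (fun x : ℝ => 1 - x ^ (2 * d)) (-((2 * d : ℕ) * x ^ (2 * d - 1))) x :=
    (hasDerivAt_pow (2 * d) x).const_sub 1
  have h3 : (fun x : ℝ => (1 - x ^ 2) * logOrbit_q d x) = fun x : ℝ => 1 - x ^ (2 * d) :=
    funext fun x => logOrbit_geom d x
  rw [h3] at h1
  have h4 := h1.unique h2
  push_cast at h4
  linarith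

private noncomputable def logOrbit_psi (d : ℕ) (x : ℝ) : ℝ := Real.sqrt (logOrbit_q d x / d)

private theorem logOrbit_psi_pos {d : ℕ} (hd : 1 ≤ d) (x : ℝ) : 0 < logOrbit_psi d x := by
  have h1 := logOrbit_q_ge hd x
  have h2 : (0 : ℝ) < d := by exact_mod_cast hd
  exact Real.sqrt_pos.2 (by positivity)

private theorem logOrbit_psi_sq {d : ℕ} (hd : 1 ≤ d) (x : ℝ) :
    logOrbit_psi d x ^ 2 = logOrbit_q d x / d := by
  have h1 := logOrbit_q_ge hd x
  have h2 : (0 : ℝ) < d := by exact_mod_cast hd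
  exact Real.sq_sqrt (by positivity)

private theorem logOrbit_psi_le {d : ℕ} (hd : 1 ≤ d) {x : ℝ} (hx : x ^ 2 ≤ 1) :
    logOrbit_psi d x ≤ 1 := by
  have h2 : (0 : ℝ) < d := by exact_mod_cast hd
  rw [logOrbit_psi, ← Real.sqrt_one]
  apply Real.sqrt_le_sqrt
  rw [div_le_one h2]
  exact logOrbit_q_le hx

private theorem logOrbit_psi_deriv {d : ℕ} (hd : 1 ≤ d) (x : ℝ) :
    HasDerivAt (logOrbit_psi d) (logOrbit_q' d x / d / (2 * logOrbit_psi d x)) x := by
  have h1 := logOrbit_q_ge hd x
  have h2 : (0 : ℝ) < d := by exact_mod_cast hd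
  exact ((logOrbit_q_deriv d x).div_const (d : ℝ)).sqrt (by positivity)

private theorem logOrbit_vfc {D d : ℕ} (hd : 1 ≤ d) (hD : 2 * d ≤ D + 1) (z : ℝ × ℝ) :
    vfc (homArr D d) z = (-z.2, z.1 ^ (2 * d - 1)) := by
  rw [vfc, homArr]
  simp only
  rw [pe_neg_arr, pe_monoArr (by omega) (by omega), pe_monoArr (by omega) (by omega)]
  simp

theorem exists_ovalOrbit {D d : ℕ} (hd : 1 ≤ d) (hD : 2 * d ≤ D + 1) :
    ∃ (γ : ℝ → ℝ × ℝ) (T0 : ℝ), 0 < T0 ∧
      (∀ t, HasDerivAt γ (vfc (homArr D d) (γ t)) t) ∧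
      γ 0 = (1, 0) ∧ γ T0 = (1, 0) ∧ γ (T0 / 2) = (-1, 0) ∧
      (∀ t ∈ Set.Ioo 0 T0, γ t ≠ (1, 0)) ∧
      (∀ t, (d : ℝ) * (γ t).2 ^ 2 + (γ t).1 ^ (2 * d) = 1) := by
  have hd0 : (0 : ℝ) < d := by exact_mod_cast hd
  -- the speed
  set φ : ℝ → ℝ := fun t => logOrbit_psi d (Real.cos t) with hφ
  have hφpos : ∀ t, 0 < φ t := fun t => logOrbit_psi_pos hd _
  have hφle : ∀ t, φ t ≤ 1 := fun t => logOrbit_psi_le hd (by
    have := Real.sin_sq_add_cos_sq t
    nlinarith [sq_nonneg (Real.sin t)])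
  have hφc : Continuous φ := by
    have h1 : Continuous (logOrbit_psi d) :=
      continuous_iff_continuousAt.2 fun x => (logOrbit_psi_deriv hd x).continuousAt
    exact h1.comp Real.continuous_cos
  have hφper : ∀ t, φ (t + Real.pi) = φ t := by
    intro t
    simp only [hφ, Real.cos_add_pi, logOrbit_psi, logOrbit_q_neg]
  have hgc : Continuous fun t => (φ t)⁻¹ := hφc.inv₀ fun t => (hφpos t).ne'
  -- the time change
  set u : ℝ → ℝ := fun t => ∫ s in (0 : ℝ)..t, (φ s)⁻¹ with hu
  have hud : ∀ t, HasDerivAt u ((φ t)⁻¹) t := fun t =>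
    intervalIntegral.integral_hasDerivAt_right (hgc.intervalIntegrable _ _)
      hgc.stronglyMeasurable.stronglyMeasurableAtFilter hgc.continuousAt
  have hu0 : u 0 = 0 := by simp [hu]
  have huc : Continuous u := continuous_iff_continuousAt.2 fun t => (hud t).continuousAt
  have hmono : StrictMono u := strictMono_of_deriv_pos fun t => by
    rw [(hud t).deriv]; exact inv_pos.2 (hφpos t)
  have hmono2 : Monotone fun t => u t - t := by
    apply monotone_of_deriv_nonneg
    · intro t; exact ((hud t).sub (hasDerivAt_id t)).differentiableAt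
    · intro t
      have h1 : HasDerivAt (fun t => u t - t) ((φ t)⁻¹ - 1) t := (hud t).sub (hasDerivAt_id t)
      rw [h1.deriv]
      have := one_le_inv_iff₀.2 ⟨hφpos t, hφle t⟩
      linarith
  have htop : Tendsto u atTop atTop := by
    apply tendsto_atTop_mono' atTop _ tendsto_id
    filter_upwards [eventually_ge_atTop (0 : ℝ)] with t ht
    have := hmono2 ht
    simp only [hu0] at this
    simp only [id]
    linarith
  have hbot : Tendsto u atBot atBot := by
    apply tendsto_atBot_mono' atBot _ tendsto_id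
    filter_upwards [eventually_le_atBot (0 : ℝ)] with t ht
    have := hmono2 ht
    simp only [hu0] at this
    simp only [id]
    linarith
  have hsurj : Function.Surjective u := huc.surjective htop hbot
  let e : ℝ ≃o ℝ := hmono.orderIsoOfSurjective u hsurj
  set U : ℝ → ℝ := fun t => e.symm t with hU
  have huU : ∀ t, u (U t) = t := fun t => e.apply_symm_apply t
  have hUu : ∀ t, U (u t) = t := fun t => e.symm_apply_apply t
  have hUc : Continuous U := e.symm.continuous
  have hUd : ∀ t, HasDerivAt U (φ (U t)) t := by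
    intro t
    have h := HasDerivAt.of_local_left_inverse (f := u) (g := U) (a := t) hUc.continuousAt
      (hud (U t)) (inv_ne_zero (hφpos _).ne') (Filter.Eventually.of_forall huU)
    rwa [inv_inv] at h
  have hUmono : StrictMono U := e.symm.strictMono
  -- the period
  have hper : u (2 * Real.pi) = 2 * u Real.pi := by
    have h1 : u (2 * Real.pi) = u Real.pi + ∫ s in Real.pi..(2 * Real.pi), (φ s)⁻¹ :=
      (intervalIntegral.integral_add_adjacent_intervals (hgc.intervalIntegrable _ _)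
        (hgc.intervalIntegrable _ _)).symm
    have h2 : ∫ s in Real.pi..(2 * Real.pi), (φ s)⁻¹ = u Real.pi := by
      have h3 : ∫ s in (0 : ℝ)..Real.pi, (φ (s + Real.pi))⁻¹ =
          ∫ s in (0 + Real.pi)..(Real.pi + Real.pi), (φ s)⁻¹ :=
        intervalIntegral.integral_comp_add_right (fun s => (φ s)⁻¹) Real.pi
      simp only [hφper] at h3
      rw [zero_add, ← two_mul] at h3
      exact h3.symm
    rw [h1, h2]; ring
  refine ⟨fun t => (Real.cos (U t), Real.sin (U t) * logOrbit_psi d (Real.cos (U t))),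
    u (2 * Real.pi), ?_, ?_, ?_, ?_, ?_, ?_, ?_⟩
  · rw [← hu0]
    exact hmono (by positivity)
  · intro t
    rw [logOrbit_vfc hd hD]
    have hc := Real.hasDerivAt_cos (U t)
    have hs := Real.hasDerivAt_sin (U t)
    have hψ := logOrbit_psi_deriv hd (Real.cos (U t))
    have h1 : HasDerivAt (fun t => Real.cos (U t)) (-Real.sin (U t) * φ (U t)) t :=
      hc.comp t (hUd t)
    have h2 : HasDerivAt (fun t => Real.sin (U t)) (Real.cos (U t) * φ (U t)) t :=
      hs.comp t (hUd t)
    have h3 : HasDerivAt (fun t => logOrbit_psi d (Real.cos (U t)))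
        (logOrbit_q' d (Real.cos (U t)) / d / (2 * logOrbit_psi d (Real.cos (U t))) *
          (-Real.sin (U t) * φ (U t))) t :=
      HasDerivAt.comp t (h₂ := logOrbit_psi d) (h := fun t => Real.cos (U t)) hψ h1
    have h4 := h2.mul h3
    refine (h1.prodMk h4).congr_deriv ?_
    have hp := logOrbit_psi_pos hd (Real.cos (U t))
    have hsq := logOrbit_psi_sq hd (Real.cos (U t))
    have hid := logOrbit_id (d := d) (Real.cos (U t))
    have hsc := Real.sin_sq_add_cos_sq (U t)
    ext
    · simp only [hφ]; ring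
    · simp only [hφ]
      have e1 : Real.cos (U t) * logOrbit_psi d (Real.cos (U t)) *
          logOrbit_psi d (Real.cos (U t)) + Real.sin (U t) *
          (logOrbit_q' d (Real.cos (U t)) / d / (2 * logOrbit_psi d (Real.cos (U t))) *
            (-Real.sin (U t) * logOrbit_psi d (Real.cos (U t)))) =
          Real.cos (U t) * logOrbit_psi d (Real.cos (U t)) ^ 2 -
            Real.sin (U t) ^ 2 * (logOrbit_q' d (Real.cos (U t)) / d / 2) := by
        field_simp
        ring
      rw [e1, hsq]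
      have e2 : Real.sin (U t) ^ 2 = 1 - Real.cos (U t) ^ 2 := by linarith
      rw [e2]
      have e3 : Real.cos (U t) * (logOrbit_q d (Real.cos (U t)) / d) -
          (1 - Real.cos (U t) ^ 2) * (logOrbit_q' d (Real.cos (U t)) / d / 2) =
          (2 * Real.cos (U t) * logOrbit_q d (Real.cos (U t)) -
            (1 - Real.cos (U t) ^ 2) * logOrbit_q' d (Real.cos (U t))) / (2 * d) := by
        field_simp
      rw [e3, hid]
      field_simp
  · have h0 : U 0 = 0 := by
      have := hUu 0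
      rwa [hu0] at this
    simp [h0]
  · simp only [hUu]
    simp
  · simp only
    rw [hper, mul_div_cancel_left₀ _ (two_ne_zero), hUu]
    simp
  · intro t ht h
    have h1 : Real.cos (U t) = 1 := congrArg Prod.fst h
    have h2 : 0 < U t := by
      have h0 : U 0 = 0 := by
        have := hUu 0
        rwa [hu0] at this
      rw [← h0]; exact hUmono ht.1
    have h3 : U t < 2 * Real.pi := by
      rw [← hUu (2 * Real.pi)]; exact hUmono ht.2
    have := (Real.cos_eq_one_iff_of_lt_of_lt (by linarith [Real.pi_pos]) h3).1 h1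
    linarith
  · intro t
    simp only
    rw [mul_pow, logOrbit_psi_sq hd]
    have h1 := logOrbit_geom d (Real.cos (U t))
    have h2 : Real.sin (U t) ^ 2 = 1 - Real.cos (U t) ^ 2 := by
      linarith [Real.sin_sq_add_cos_sq (U t)]
    rw [h2]
    have h3 : (d : ℝ) * ((1 - Real.cos (U t) ^ 2) * (logOrbit_q d (Real.cos (U t)) / d)) =
        (1 - Real.cos (U t) ^ 2) * logOrbit_q d (Real.cos (U t)) := by
      field_simp
    rw [h3, h1]
    ring

end Pool.Agent.Lib.MP_95e7ec_an
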