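import Mathlib
import Pool.Agent.Lib.MP_95e7ec_an.LogDefs
import Pool.Agent.Lib.MP_95e7ec_an.FoldUniq

/-!
# Weighted scaling of solutions and return maps
-/

set_option autoImplicit false

open Set Filter Topology

namespace Pool.Agent.Lib.MP_95e7ec_an

theorem logScale_pe1 {D : ℕ} {a b : ℝ} (ha : a ≠ 0) (hb : b ≠ 0) (c : Co D) (x y : ℝ) :
    pe (fun i j => c i j * (a ^ (i : ℕ) * b ^ (j : ℕ) / b) : Co D) (a⁻¹ * x) (b⁻¹ * y) =
      pe c x y / b := by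
  unfold pe
  rw [Finset.sum_div]
  refine Finset.sum_congr rfl fun i _ => ?_
  rw [Finset.sum_div]
  refine Finset.sum_congr rfl fun j _ => ?_
  simp only [smul_eq_mul]
  rw [mul_pow, mul_pow, inv_pow, inv_pow]
  have h1 : a ^ (i : ℕ) ≠ 0 := pow_ne_zero _ ha
  have h2 : b ^ (j : ℕ) ≠ 0 := pow_ne_zero _ hb
  field_simp

theorem logScale_pe2 {D : ℕ} {a b : ℝ} (ha : a ≠ 0) (hb : b ≠ 0) (c : Co D) (x y : ℝ) :
    pe (fun i j => c i j * (a ^ (i : ℕ) * b ^ (j : ℕ) * a / b ^ 2) : Co D) (a⁻¹ * x) (b⁻¹ * y) =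
      pe c x y * a / b ^ 2 := by
  unfold pe
  rw [Finset.sum_mul, Finset.sum_div]
  refine Finset.sum_congr rfl fun i _ => ?_
  rw [Finset.sum_mul, Finset.sum_div]
  refine Finset.sum_congr rfl fun j _ => ?_
  simp only [smul_eq_mul]
  rw [mul_pow, mul_pow, inv_pow, inv_pow]
  have h1 : a ^ (i : ℕ) ≠ 0 := pow_ne_zero _ ha
  have h2 : b ^ (j : ℕ) ≠ 0 := pow_ne_zero _ hb
  field_simp

/-- Weighted scaling of solutions. -/
theorem Sol.wscale {D : ℕ} {μ : Pr D} {a b : ℝ} (ha : 0 < a) (hb : 0 < b) {T : ℝ} {x : ℝ × ℝ}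
    {z : A × A} (h : Sol μ T x z) :
    Sol (wArr a b μ) (T * (b / a)) (a⁻¹ * x.1, b⁻¹ * x.2) (a⁻¹ • z.1, b⁻¹ • z.2) := by
  have hpe1 : pe (wArr a b μ).1 (a⁻¹ • z.1) (b⁻¹ • z.2) = b⁻¹ • pe μ.1 z.1 z.2 := by
    ext t
    rw [pe_apply, ContinuousMap.smul_apply, ContinuousMap.smul_apply, ContinuousMap.smul_apply,
      pe_apply, smul_eq_mul, smul_eq_mul, smul_eq_mul]
    rw [show (wArr a b μ).1 = (fun i j => μ.1 i j * (a ^ (i : ℕ) * b ^ (j : ℕ) / b) : Co D) from rfl,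
      logScale_pe1 ha.ne' hb.ne', div_eq_inv_mul]
  have hpe2 : pe (wArr a b μ).2 (a⁻¹ • z.1) (b⁻¹ • z.2) = (a / b ^ 2) • pe μ.2 z.1 z.2 := by
    ext t
    rw [pe_apply, ContinuousMap.smul_apply, ContinuousMap.smul_apply, ContinuousMap.smul_apply,
      pe_apply, smul_eq_mul, smul_eq_mul, smul_eq_mul]
    rw [show (wArr a b μ).2 = (fun i j => μ.2 i j * (a ^ (i : ℕ) * b ^ (j : ℕ) * a / b ^ 2) : Co D)
      from rfl, logScale_pe2 ha.ne' hb.ne']
    ring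
  constructor
  · rw [hpe1, prim_smul_path]
    ext s
    have h1 : z.1 s = x.1 + T * prim (pe μ.1 z.1 z.2) s := by
      conv_lhs => rw [h.1]
      rfl
    simp only [ContinuousMap.add_apply, ContinuousMap.smul_apply, ContinuousMap.const_apply,
      smul_eq_mul]
    rw [h1]
    field_simp
  · rw [hpe2, prim_smul_path]
    ext s
    have h1 : z.2 s = x.2 + T * prim (pe μ.2 z.1 z.2) s := by
      conv_lhs => rw [h.2]
      rfl
    simp only [ContinuousMap.add_apply, ContinuousMap.smul_apply, ContinuousMap.const_apply,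
      smul_eq_mul]
    rw [h1]
    field_simp

/-- The scaling relation of the return maps. -/
theorem RetMap.wscale {D : ℕ} {μ : Pr D} {s η b : ℝ} (hb : 0 < b) {ρ τ ρ' τ' : ℝ → ℝ}
    {Z Z' : ℝ → A × A} (h : RetMap μ (1, 0) (0, 1) η ρ τ Z)
    (h' : RetMap (wArr (1 - s) b μ) (1, 0) (0, 1) η ρ' τ' Z')
    (hs : s ∈ Set.Ioo (-η) η) (hs1 : s < 1) (hρ : 1 - (1 - ρ s) / (1 - s) ∈ Set.Icc (-η) η)
    (hρ' : 1 - (1 - s) * (1 - ρ' 0) ∈ Set.Icc (-η) η) :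
    1 - ρ s = (1 - s) * (1 - ρ' 0) := by
  have hη := h.eta_pos
  have hz0 : (0 : ℝ) ∈ Set.Ioo (-η) η := ⟨by linarith, hη⟩
  have hr : 0 < 1 - s := by linarith
  have hsol := h.sol s hs
  have hend := h.endpt s hs
  rw [one_add_smul_nrm] at hsol hend
  have hsc := hsol.wscale hr hb
  have hstart : ((1 - s)⁻¹ * (1 - s), b⁻¹ * (0 : ℝ)) =
      ((1 : ℝ), (0 : ℝ)) + (0 : ℝ) • nrm ((0 : ℝ), (1 : ℝ)) := by
    rw [one_add_smul_nrm, inv_mul_cancel₀ hr.ne', mul_zero, sub_zero]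
  simp only at hsc
  rw [hstart] at hsc
  have e1 : (Z s).1 1 = 1 - ρ s := congrArg Prod.fst hend
  have e2 : (Z s).2 1 = 0 := congrArg Prod.snd hend
  have hkey : 1 - (1 - ρ s) / (1 - s) = ρ' 0 := by
    refine h'.uniq hz0 (mul_pos (h.tau_pos s hs) (div_pos hb hr)) hsc hρ ?_ ?_
    · rw [one_add_smul_nrm]
      have e3 : at' ((1 - s)⁻¹ • (Z s).1, b⁻¹ • (Z s).2) 1 =
          ((1 - s)⁻¹ * (Z s).1 1, b⁻¹ * (Z s).2 1) := rfl
      rw [e3, e1, e2, mul_zero]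
      refine Prod.ext ?_ rfl
      simp only
      ring
    · intro t ht0 ht1 hc
      rw [one_add_smul_nrm] at hc
      have e3 : at' ((1 - s)⁻¹ • (Z s).1, b⁻¹ • (Z s).2) t =
          ((1 - s)⁻¹ * (Z s).1 t, b⁻¹ * (Z s).2 t) := rfl
      rw [e3] at hc
      have f1 : (1 - s)⁻¹ * (Z s).1 t = 1 - ρ' 0 := congrArg Prod.fst hc
      have f2 : b⁻¹ * (Z s).2 t = 0 := congrArg Prod.snd hc
      refine h.cross s hs t ht0 ht1 _ hρ' ?_
      rw [one_add_smul_nrm]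
      refine Prod.ext ?_ ?_
      · have : (Z s).1 t = (1 - s) * (1 - ρ' 0) := by
          rw [← f1, mul_inv_cancel_left₀ hr.ne']
        simp only [at']
        rw [this]; ring
      · rcases mul_eq_zero.1 f2 with g | g
        · exact absurd g (inv_ne_zero hb.ne')
        · exact g
  rw [← hkey]
  field_simp
  ring

end Pool.Agent.Lib.MP_95e7ec_an
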