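import Mathlib
import Pool.Agent.Lib.MP_95e7ec_an.LogDefs
import Pool.Agent.Lib.MP_95e7ec_an.FoldUniq
import Pool.Agent.Lib.MP_95e7ec_an.FoldMono

/-!
# Symmetric closed orbits of potential fields: odd moments vanish
-/

set_option autoImplicit false

open Set Filter Topology

namespace Pool.Agent.Lib.MP_95e7ec_an

theorem logSym_pe_pol {D : ℕ} {f : Polynomial ℝ} (hf : f.natDegree ≤ D) (x y : ℝ) :
    pe (polArr D f 0) x y = f.eval x := by
  unfold pe polArr
  rw [Polynomial.eval_eq_sum_range' (Nat.lt_succ_of_le hf) x,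
    ← Fin.sum_univ_eq_sum_range (fun i => f.coeff i * x ^ i) (D + 1)]
  refine Finset.sum_congr rfl fun a _ => ?_
  rw [Finset.sum_eq_single (0 : Fin (D + 1))]
  · simp
  · intro b _ hb
    have : (b : ℕ) ≠ 0 := fun h => hb (Fin.ext h)
    simp [this]
  · simp

theorem logSym_pe_fst {D : ℕ} (hD : 1 ≤ D) (f : Polynomial ℝ) (x y : ℝ) :
    pe (potArr D f).1 x y = -y := by
  simp only [potArr]
  rw [pe_neg_arr, pe_monoArr (by omega) hD]
  simp

theorem logSym_pe_snd {D : ℕ} {f : Polynomial ℝ} (hf : f.natDegree ≤ D) (x y : ℝ) :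
    pe (potArr D f).2 x y = f.eval x := logSym_pe_pol hf x y

theorem logSym_rev {D : ℕ} (f : Polynomial ℝ) : RevArr (potArr D f) := by
  constructor
  · intro a b hb
    have h : (b : ℕ) ≠ 1 := by
      rintro h
      rw [h] at hb
      exact absurd hb (by decide)
    simp [potArr, monoArr, h]
  · intro a b hb
    have h : (b : ℕ) ≠ 0 := by
      rintro h
      rw [h] at hb
      exact absurd hb (by decide)
    simp [potArr, polArr, h]

theorem logSym_odd {f : Polynomial ℝ} (hodd : ∀ k, Even k → f.coeff k = 0) (x : ℝ) :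
    f.eval (-x) = -f.eval x := by
  rw [Polynomial.eval_eq_sum_range, Polynomial.eval_eq_sum_range, ← Finset.sum_neg_distrib]
  refine Finset.sum_congr rfl fun k _ => ?_
  rcases Nat.even_or_odd k with hk | hk
  · rw [hodd k hk]; simp
  · rw [hk.neg_pow]; ring

/-- A primitive of `f`. -/
noncomputable def logSymF (f : Polynomial ℝ) (x : ℝ) : ℝ := ∫ t in (0 : ℝ)..x, f.eval t

theorem logSymF_hasDerivAt (f : Polynomial ℝ) (x : ℝ) :
    HasDerivAt (logSymF f) (f.eval x) x := by
  have h : Continuous fun t : ℝ => f.eval t := f.continuous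
  exact intervalIntegral.integral_hasDerivAt_right (h.intervalIntegrable 0 x)
      (h.stronglyMeasurableAtFilter _ _) h.continuousAt

theorem logSymF_neg {f : Polynomial ℝ} (hodd : ∀ k, Even k → f.coeff k = 0) (x : ℝ) :
    logSymF f (-x) = logSymF f x := by
  unfold logSymF
  have h1 := intervalIntegral.integral_comp_neg (a := (0 : ℝ)) (b := x) (fun t => f.eval t)
  simp only [neg_zero] at h1
  have h2 : ∫ t in (0 : ℝ)..x, f.eval (-t) = -∫ t in (0 : ℝ)..x, f.eval t := by
    rw [← intervalIntegral.integral_neg]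
    exact intervalIntegral.integral_congr fun t _ => logSym_odd hodd t
  rw [intervalIntegral.integral_symm, ← h1, h2, neg_neg]

/-- Conservation of energy. -/
theorem logSym_energy {D : ℕ} {f : Polynomial ℝ} (hf : f.natDegree ≤ D) (hD : 1 ≤ D)
    {τ : ℝ} {x : ℝ × ℝ} {z : A × A} (hz : Sol (potArr D f) τ x z) (t : unitInterval) :
    z.2 t ^ 2 / 2 + logSymF f (z.1 t) = x.2 ^ 2 / 2 + logSymF f x.1 := by
  set E : ℝ → ℝ := fun s => (IccExtend (zero_le_one' ℝ) z.2 s) ^ 2 / 2 +
    logSymF f (IccExtend (zero_le_one' ℝ) z.1 s) with hE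
  have hder : ∀ s : unitInterval, HasDerivWithinAt E 0 (Icc 0 1) s := by
    intro s
    have h1 := ext_hasDerivWithinAt hz.1 s
    have h2 := ext_hasDerivWithinAt hz.2 s
    rw [pe_apply, logSym_pe_fst hD] at h1
    rw [pe_apply, logSym_pe_snd hf] at h2
    have h3 := (h2.pow 2).div_const 2
    have h4 : HasDerivWithinAt (fun s : ℝ => logSymF f (IccExtend (zero_le_one' ℝ) z.1 s))
        (f.eval (z.1 s) * (τ * -z.2 s)) (Icc 0 1) s := by
      have h5 : HasDerivAt (logSymF f) (f.eval (z.1 s)) (IccExtend (zero_le_one' ℝ) z.1 s) := by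
        rw [IccExtend_val]; exact logSymF_hasDerivAt f _
      exact h5.comp_hasDerivWithinAt (s : ℝ) h1
    have h6 := h3.add h4
    refine h6.congr_deriv ?_
    rw [IccExtend_val]
    push_cast
    ring
  have hcont : ContinuousOn E (Icc 0 1) := fun s hs => (hder ⟨s, hs⟩).continuousWithinAt
  have hconst := constant_of_derivWithin_zero (f := E) (a := 0) (b := 1)
    (fun s hs => (hder ⟨s, hs⟩).differentiableWithinAt)
    (fun s hs => (hder ⟨s, hs.1, hs.2.le⟩).derivWithin
      (uniqueDiffOn_Icc (zero_lt_one' ℝ) s ⟨hs.1, hs.2.le⟩)) t t.2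
  have h0 : E 0 = x.2 ^ 2 / 2 + logSymF f x.1 := by
    have h1 := hz.at_zero
    have h2 : z.1 0 = x.1 := congrArg Prod.fst h1
    have h3 : z.2 0 = x.2 := congrArg Prod.snd h1
    have h4 : IccExtend (zero_le_one' ℝ) z.2 0 = z.2 0 := IccExtend_val _ _ (0 : unitInterval)
    have h5 : IccExtend (zero_le_one' ℝ) z.1 0 = z.1 0 := IccExtend_val _ _ (0 : unitInterval)
    simp only [hE]
    rw [h4, h5, h2, h3]
  have h1 : E t = z.2 t ^ 2 / 2 + logSymF f (z.1 t) := by
    simp only [hE, IccExtend_val]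
  rw [← h1, hconst, h0]

theorem logSym_prim_zero (f : A) : prim f 0 = 0 := by
  rw [prim_apply_path]; simp

/-- The integral of an odd function with respect to the middle. -/
theorem logSym_prim_odd (h : A) (hodd : h.comp symPath = -h) : prim h 1 = 0 := by
  have h1 := prim_comp_symm h 1
  rw [unitInterval.symm_one, logSym_prim_zero, hodd, prim_neg_path] at h1
  have h2 : (-prim h) 1 = -(prim h 1) := rfl
  rw [h2] at h1
  linarith

theorem sym_identity {D : ℕ} {f : Polynomial ℝ} (hf : f.natDegree ≤ D) (hD : 1 ≤ D)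
    (hodd : ∀ k, Even k → f.coeff k = 0) {τ : ℝ} (hτ : 0 < τ) {z : A × A}
    (hz : Sol (potArr D f) τ (1, 0) z) (hend : at' z 1 = (1, 0))
    (hhalf : z.1 ⟨1 / 2, by norm_num, by norm_num⟩ ∈ Set.Ioo (-3 / 2 : ℝ) (-1 / 2))
    (hneg : ∀ x ∈ Set.Icc (-3 / 2 : ℝ) (-1 / 2), f.eval x < 0) (i j : ℕ) :
    prim (z.2 * (z.1 ^ (2 * i + 1) * z.2 ^ (2 * j + 1))) 1 = 0 := by
  set m : unitInterval := ⟨1 / 2, by norm_num, by norm_num⟩ with hm
  have hmv : (m : ℝ) = 1 / 2 := rfl
  have hsm : unitInterval.symm m = m := by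
    refine Subtype.ext ?_
    rw [unitInterval.coe_symm_eq, hmv]; norm_num
  -- the reversed path
  have hrev := hz.reverse (logSym_rev f)
  have e0 : ((at' z 1).1, -(at' z 1).2) = ((1 : ℝ), (0 : ℝ)) := by
    rw [hend]; simp
  rw [e0] at hrev
  have hu := hrev.unique hz
  have s1 : z.1.comp symPath = z.1 := congrArg Prod.fst hu
  have s2 : z.2.comp symPath = -z.2 := by
    have h := congrArg Prod.snd hu
    exact neg_eq_iff_eq_neg.1 h
  -- the middle point
  have hz2m : z.2 m = 0 := by
    have h : z.2 (unitInterval.symm m) = -z.2 m := congrArg (fun w : A => w m) s2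
    rw [hsm] at h
    linarith
  have hz1m : z.1 m = -1 := by
    have hen := logSym_energy hf hD hz m
    rw [hz2m] at hen
    simp only at hen
    have h1 : logSymF f (z.1 m) = logSymF f (-1) := by
      rw [logSymF_neg hodd]
      linarith
    have hanti : StrictAntiOn (logSymF f) (Icc (-3 / 2 : ℝ) (-1 / 2)) := by
      refine strictAntiOn_of_deriv_neg (convex_Icc _ _)
        (fun x _ => (logSymF_hasDerivAt f x).continuousAt.continuousWithinAt) ?_
      intro x hx
      rw [(logSymF_hasDerivAt f x).deriv]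
      exact hneg x (interior_subset hx)
    exact hanti.injOn (Ioo_subset_Icc_self hhalf) ⟨by norm_num, by norm_num⟩ h1
  -- the first half
  set w : A × A := (z.1.comp (mulPath m), z.2.comp (mulPath m)) with hw
  have hwsol : Sol (potArr D f) (τ * m) (1, 0) w := hz.restrict m
  have w1end : w.1 1 = -1 := by
    have : w.1 1 = z.1 (m * 1) := rfl
    rw [this, mul_one, hz1m]
  have w2end : w.2 1 = 0 := by
    have : w.2 1 = z.2 (m * 1) := rfl
    rw [this, mul_one, hz2m]
  have hwrev := hwsol.reverse (logSym_rev f)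
  have e1 : ((at' w 1).1, -(at' w 1).2) = ((-1 : ℝ), (0 : ℝ)) := by
    simp only [at', w1end, w2end, neg_zero]
  rw [e1] at hwrev
  have hwneg : Sol (potArr D f) (τ * m) (-1, 0) (-w.1, -w.2) := by
    have p1 : pe (potArr D f).1 (-w.1) (-w.2) = -pe (potArr D f).1 w.1 w.2 := by
      ext t
      rw [pe_apply, ContinuousMap.neg_apply, ContinuousMap.neg_apply, ContinuousMap.neg_apply,
        pe_apply, logSym_pe_fst hD, logSym_pe_fst hD]
    have p2 : pe (potArr D f).2 (-w.1) (-w.2) = -pe (potArr D f).2 w.1 w.2 := by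
      ext t
      rw [pe_apply, ContinuousMap.neg_apply, ContinuousMap.neg_apply, ContinuousMap.neg_apply,
        pe_apply, logSym_pe_snd hf, logSym_pe_snd hf, logSym_odd hodd]
    constructor
    · simp only
      rw [p1, prim_neg_path]
      ext t
      have h1 : w.1 t = 1 + τ * m * prim (pe (potArr D f).1 w.1 w.2) t := by
        conv_lhs => rw [hwsol.1]
        rfl
      have h2 : (-w.1) t = -w.1 t := rfl
      rw [h2, h1]
      simp only [ContinuousMap.add_apply, ContinuousMap.smul_apply, ContinuousMap.const_apply,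
        ContinuousMap.neg_apply, smul_eq_mul]
      ring
    · simp only
      rw [p2, prim_neg_path]
      ext t
      have h1 : w.2 t = 0 + τ * m * prim (pe (potArr D f).2 w.1 w.2) t := by
        conv_lhs => rw [hwsol.2]
        rfl
      have h2 : (-w.2) t = -w.2 t := rfl
      rw [h2, h1]
      simp only [ContinuousMap.add_apply, ContinuousMap.smul_apply, ContinuousMap.const_apply,
        ContinuousMap.neg_apply, smul_eq_mul]
      ring
  have hwu := hwrev.unique hwneg
  have t1 : w.1.comp symPath = -w.1 := congrArg Prod.fst hwu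
  have t2 : w.2.comp symPath = w.2 := by
    have h := congrArg Prod.snd hwu
    simp only at h
    exact neg_injective h
  -- the integrand
  set g : A := z.2 * (z.1 ^ (2 * i + 1) * z.2 ^ (2 * j + 1)) with hg
  have hgsym : g.comp symPath = g := by
    ext t
    have a1 : z.1 (unitInterval.symm t) = z.1 t := congrArg (fun w : A => w t) s1
    have a2 : z.2 (unitInterval.symm t) = -z.2 t := congrArg (fun w : A => w t) s2
    have a3 : (g.comp symPath) t = z.2 (unitInterval.symm t) * (z.1 (unitInterval.symm t) ^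
      (2 * i + 1) * z.2 (unitInterval.symm t) ^ (2 * j + 1)) := rfl
    have a4 : g t = z.2 t * (z.1 t ^ (2 * i + 1) * z.2 t ^ (2 * j + 1)) := rfl
    rw [a3, a4, a1, a2, Odd.neg_pow ⟨j, rfl⟩]
    ring
  set h : A := g.comp (mulPath m) with hh
  have hhodd : h.comp symPath = -h := by
    ext t
    have a1 : w.1 (unitInterval.symm t) = -w.1 t := congrArg (fun w : A => w t) t1
    have a2 : w.2 (unitInterval.symm t) = w.2 t := congrArg (fun w : A => w t) t2
    have a3 : (h.comp symPath) t = w.2 (unitInterval.symm t) * (w.1 (unitInterval.symm t) ^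
      (2 * i + 1) * w.2 (unitInterval.symm t) ^ (2 * j + 1)) := rfl
    have a4 : (-h) t = -(w.2 t * (w.1 t ^ (2 * i + 1) * w.2 t ^ (2 * j + 1))) := rfl
    rw [a3, a4, a1, a2, Odd.neg_pow ⟨i, rfl⟩]
    ring
  have hh0 : prim h 1 = 0 := logSym_prim_odd h hhodd
  have hgm : prim g m = 0 := by
    have h1 := prim_comp_mul g m 1
    rw [mul_one] at h1
    rw [h1, ← hh, hh0, mul_zero]
  have h2 := prim_comp_symm g m
  rw [hsm, hgsym, hgm] at h2
  linarith

end Pool.Agent.Lib.MP_95e7ec_an
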