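import Mathlib
import Pool.Agent.Lib.MP_95e7ec_an.LogDefs
import Pool.Agent.Lib.MP_95e7ec_an.FoldChart
import Pool.Agent.Lib.MP_95e7ec_an.FoldMono
import Pool.Agent.Lib.MP_95e7ec_an.LogOrbit
import Pool.Agent.Lib.MP_95e7ec_an.LogScale
import Pool.Agent.Lib.MP_95e7ec_an.LogEnergy
import Pool.Agent.Lib.MP_95e7ec_an.LogSym
import Pool.Agent.Lib.MP_95e7ec_an.LogArr

/-!
# The local theory of the fields near the quasi-homogeneous centre
-/

set_option autoImplicit false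

open Set Filter Topology
open scoped ContDiff

namespace Pool.Agent.Lib.MP_95e7ec_an

theorem logChart_tube {d : ℕ} (hd : 1 ≤ d) {η : ℝ} (hη : 0 < η) {z : ℝ × ℝ}
    (hz : (d : ℝ) * z.2 ^ 2 + z.1 ^ (2 * d) = 1) : z ∈ foldTube η := by
  have hd1 : (1 : ℝ) ≤ d := by exact_mod_cast hd
  have h1 : z.1 ^ (2 * d) ≤ 1 := by nlinarith [sq_nonneg z.2]
  have h2 : |z.1| ≤ 1 := by
    have h3 : |z.1| ^ (2 * d) ≤ 1 := by
      rw [pow_mul, sq_abs, ← pow_mul]; exact h1
    exact (pow_le_one_iff_of_nonneg (abs_nonneg _) (by omega)).1 h3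
  have h0 : 0 ≤ z.1 ^ (2 * d) := by
    rw [pow_mul]; positivity
  have h4 : |z.2| ≤ 1 := by
    have h5 : z.2 ^ 2 ≤ 1 := by nlinarith [sq_nonneg z.2]
    exact (sq_le_one_iff_abs_le_one z.2).1 h5
  refine ⟨?_, ?_⟩
  · rw [mem_ball_zero_iff, Prod.norm_def, Real.norm_eq_abs, Real.norm_eq_abs]
    exact max_lt (h2.trans_lt (by norm_num)) (h4.trans_lt (by norm_num))
  · rintro ⟨h5, h6, h7⟩
    have h8 : z.1 ^ (2 * d) = 1 := by
      rw [h5] at hz
      simpa using hz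
    have h9 : z.1 = 1 := by
      have := (pow_eq_one_iff_of_nonneg h6 (by omega)).1 h8
      exact this
    rw [h9] at h7
    simp at h7
    linarith

theorem logChart_vfc {D d : ℕ} (hd : 1 ≤ d) (hD : 2 * d ≤ D + 1) (z : ℝ × ℝ) :
    vfc (homArr D d) z = (-z.2, z.1 ^ (2 * d - 1)) := by
  unfold vfc homArr
  simp only
  rw [pe_neg_arr, pe_monoArr (Nat.zero_le _) (by omega), pe_monoArr (by omega) (Nat.zero_le _)]
  simp

theorem logChart_pe_cont {D : ℕ} : Continuous fun p : Pr D × ℝ => pe p.1.2 p.2 (0 : ℝ) := by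
  unfold pe; fun_prop

theorem logChart_eval_odd {f : Polynomial ℝ} (hodd : ∀ k, Even k → f.coeff k = 0) :
    f.eval 1 = -f.eval (-1) := by
  rw [Polynomial.eval_eq_sum_range, Polynomial.eval_eq_sum_range, ← Finset.sum_neg_distrib]
  refine Finset.sum_congr rfl fun k _ => ?_
  rcases Nat.even_or_odd k with h | h
  · rw [hodd k h]; simp
  · rw [h.neg_one_pow]; simp

theorem exists_ovalChart {D d : ℕ} (hd : 1 ≤ d) (hD : 2 * d ≤ D + 1) :
    Nonempty (OvalChart D d) := by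
  have hX : ((0 : ℝ), (1 : ℝ)) = vfc (homArr D d) ((1 : ℝ), (0 : ℝ)) := by
    rw [logChart_vfc hd hD]; simp
  obtain ⟨γ, T0, hT0, hγ, hγ0, hγT, hγh, hγf, hγe⟩ := exists_ovalOrbit hd hD
  have hγc : Continuous γ := continuous_iff_continuousAt.2 fun t => (hγ t).continuousAt
  obtain ⟨ρ, τ, Z, η, N, hη, hNo, hμN, hρa, hτa, hZa, hρ0, hτ0, hZ0, hret⟩ :=
    exists_return' (homArr D d) γ hγc hγ T0 hT0 (by rw [hγT, hγ0])
      (by rw [hγ0]; exact hγf) (1, 0) (0, 1) hγ0.symm hX (by simp)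
  set μ0 : Pr D := homArr D d with hμ0
  have hη0 : (0 : ℝ) ∈ Set.Ioo (-η) η := ⟨by linarith, hη⟩
  have hopen : IsOpen (Set.Ioo (-η) η ×ˢ N) := isOpen_Ioo.prod hNo
  -- slices at `0`
  have hslice : ∀ μ : Pr D, AnalyticAt ℝ (fun μ : Pr D => ((0 : ℝ), μ)) μ := fun μ =>
    analyticAt_const.prod analyticAt_id
  have hdisp : AnalyticOnNhd ℝ (fun μ => ρ (0, μ)) N := fun μ hμ =>
    AnalyticAt.fun_comp (g := ρ) (f := fun μ : Pr D => ((0 : ℝ), μ)) (hρa (0, μ) ⟨hη0, hμ⟩)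
      (hslice μ)
  have htau : AnalyticOnNhd ℝ (fun μ => τ (0, μ)) N := fun μ hμ =>
    AnalyticAt.fun_comp (g := τ) (f := fun μ : Pr D => ((0 : ℝ), μ)) (hτa (0, μ) ⟨hη0, hμ⟩)
      (hslice μ)
  have hZs : AnalyticOnNhd ℝ (fun μ => Z (0, μ)) N := fun μ hμ =>
    AnalyticAt.fun_comp (g := Z) (f := fun μ : Pr D => ((0 : ℝ), μ)) (hZa (0, μ) ⟨hη0, hμ⟩)
      (hslice μ)
  -- the conditions
  have c1 : ∀ᶠ μ in 𝓝 μ0, μ ∈ N := hNo.mem_nhds hμN
  have c2 : ∀ᶠ μ in 𝓝 μ0, ρ (0, μ) ∈ Set.Ioo (-η) η := by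
    have h1 := (hdisp μ0 hμN).continuousAt
    have h2 : ρ (0, μ0) ∈ Set.Ioo (-η) η := by rw [hρ0]; exact hη0
    exact h1.eventually (isOpen_Ioo.mem_nhds h2)
  have c3 : ∀ᶠ μ in 𝓝 μ0, ρ (ρ (0, μ), μ) ∈ Set.Ioo (-η) η := by
    have h1 := (hdisp μ0 hμN).continuousAt
    have h2 : ContinuousAt (fun μ : Pr D => (ρ (0, μ), μ)) μ0 := h1.prodMk continuousAt_id
    have h3 : ContinuousAt ρ ((fun μ : Pr D => (ρ (0, μ), μ)) μ0) := by
      simp only [hρ0]
      exact (hρa (0, μ0) ⟨hη0, hμN⟩).continuousAt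
    have h4 : ContinuousAt (fun μ : Pr D => ρ (ρ (0, μ), μ)) μ0 :=
      ContinuousAt.comp (f := fun μ : Pr D => (ρ (0, μ), μ)) (g := ρ) h3 h2
    have h5 : ρ (ρ (0, μ0), μ0) ∈ Set.Ioo (-η) η := by rw [hρ0, hρ0]; exact hη0
    exact h4.eventually (isOpen_Ioo.mem_nhds h5)
  have c4 : ∀ᶠ μ in 𝓝 μ0, Set.range (at' (Z (0, μ))) ⊆ foldTube η := by
    have h1 := (hZs μ0 hμN).continuousAt
    have h2 : Set.range (at' (Z (0, μ0))) ⊆ foldTube η := by
      rw [hZ0]
      rintro _ ⟨t, rfl⟩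
      exact logChart_tube hd hη (hγe _)
    exact h1.eventually (eventually_range_subset (foldTube_isOpen η) h2)
  have c5 : ∀ᶠ μ in 𝓝 μ0, (Z (0, μ)).1 ⟨1 / 2, by norm_num, by norm_num⟩ ∈
      Set.Ioo (-3 / 2 : ℝ) (-1 / 2) := by
    have h1 := (hZs μ0 hμN).continuousAt
    have h2 : Continuous fun z : A × A => z.1 (⟨1 / 2, by norm_num, by norm_num⟩ : unitInterval) :=
      (ContinuousEvalConst.continuous_eval_const _).comp continuous_fst
    have h3 : ContinuousAt (fun μ : Pr D =>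
        (Z (0, μ)).1 (⟨1 / 2, by norm_num, by norm_num⟩ : unitInterval)) μ0 :=
      h2.continuousAt.comp h1
    refine h3.eventually (isOpen_Ioo.mem_nhds ?_)
    have h4 : (pathOf γ hγc 0 T0).1 (⟨1 / 2, by norm_num, by norm_num⟩ : unitInterval) = -1 := by
      have : (pathOf γ hγc 0 T0).1 (⟨1 / 2, by norm_num, by norm_num⟩ : unitInterval) =
          (γ (0 + T0 * (1 / 2))).1 := rfl
      rw [this, zero_add, show T0 * (1 / 2) = T0 / 2 by ring, hγh]
    have h5 : (Z (0, μ0)).1 (⟨1 / 2, by norm_num, by norm_num⟩ : unitInterval) = -1 := by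
      rw [hZ0]; exact h4
    have h6 : (-3 / 2 : ℝ) < (Z (0, μ0)).1 ⟨1 / 2, by norm_num, by norm_num⟩ := by
      rw [h5]; norm_num
    have h7 : (Z (0, μ0)).1 ⟨1 / 2, by norm_num, by norm_num⟩ < (-1 / 2 : ℝ) := by
      rw [h5]; norm_num
    exact ⟨h6, h7⟩
  have c6 : ∀ᶠ μ in 𝓝 μ0, ∀ x ∈ Set.Icc (-3 / 2 : ℝ) (-1 / 2), pe μ.2 x (0 : ℝ) < 0 := by
    refine isCompact_Icc.eventually_forall_of_forall_eventually fun x hx => ?_
    have h1 : pe μ0.2 x (0 : ℝ) < 0 := by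
      have h2 := congrArg Prod.snd (logChart_vfc hd hD (x, 0))
      have h3 : pe μ0.2 x (0 : ℝ) = x ^ (2 * d - 1) := h2
      rw [h3]
      have h4 : Odd (2 * d - 1) := ⟨d - 1, by omega⟩
      exact h4.pow_neg (by linarith [hx.2])
    exact (logChart_pe_cont (D := D)).continuousAt.eventually_lt_const h1
  obtain ⟨V, hV, hVo, hμV⟩ :=
    eventually_nhds_iff.1 (c1.and (c2.and (c3.and (c4.and (c5.and c6)))))
  have hVN : V ⊆ N := fun μ hμ => (hV μ hμ).1
  -- the end point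
  have hend : ∀ μ ∈ N, at' (Z (0, μ)) 1 = (1 - ρ (0, μ), 0) := by
    intro μ hμ
    rw [(hret μ hμ).endpt 0 hη0, foldChart_nrm]
  have hsol : ∀ μ ∈ N, Sol μ (τ (0, μ)) (1, 0) (Z (0, μ)) := by
    intro μ hμ
    have h1 := (hret μ hμ).sol 0 hη0
    rwa [foldChart_nrm, sub_zero] at h1
  -- the derivative of the end point
  have hend' : ∀ μ ∈ N, ∀ ν : Pr D, (fderiv ℝ (fun μ => Z (0, μ)) μ ν).1 1 =
      -fderiv ℝ (fun μ => ρ (0, μ)) μ ν := by
    intro μ hμ ν
    let ev : A × A →L[ℝ] ℝ :=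
      (ContinuousMap.evalCLM ℝ (1 : unitInterval)).comp (ContinuousLinearMap.fst ℝ A A)
    have h1 : HasFDerivAt (fun μ => Z (0, μ)) (fderiv ℝ (fun μ => Z (0, μ)) μ) μ :=
      (hZs μ hμ).differentiableAt.hasFDerivAt
    have h2 : HasFDerivAt (fun μ => ρ (0, μ)) (fderiv ℝ (fun μ => ρ (0, μ)) μ) μ :=
      (hdisp μ hμ).differentiableAt.hasFDerivAt
    have h3 := ev.hasFDerivAt.comp μ h1
    have h4 : (ev ∘ fun μ => Z (0, μ)) =ᶠ[𝓝 μ] fun μ => 1 - ρ (0, μ) := by
      filter_upwards [hNo.mem_nhds hμ] with μ' hμ'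
      exact congrArg Prod.fst (hend μ' hμ')
    have h5 : HasFDerivAt (fun μ => 1 - ρ (0, μ)) (-(fderiv ℝ (fun μ => ρ (0, μ)) μ)) μ :=
      h2.const_sub 1
    have h6 := h3.unique (h5.congr_of_eventuallyEq h4)
    have h7 := congrArg (fun l : Pr D →L[ℝ] ℝ => l ν) h6
    exact h7
  refine ⟨{
    nbhd := V
    disp := fun μ => ρ (0, μ)
    isOpen := hVo
    mem := hμV
    analytic := hdisp.mono hVN
    rev := ?_
    cycles := ?_
    deriv_ne := ?_
    deriv_sym := ?_ }⟩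
  · -- rev
    intro μ hμ hrev
    obtain ⟨h1, h2, h3, -⟩ := hV μ hμ
    exact (hret μ h1).reversible hrev h2 (Set.Ioo_subset_Icc_self h3)
  · -- cycles
    intro m a1 a2 ha1 ha12 hm hma hscale hsign
    set g : ℝ → ℝ := fun a => ρ (0, m a) with hg
    have hga : AnalyticOnNhd ℝ g (Set.Icc a1 a2) := fun a ha =>
      AnalyticAt.fun_comp (g := fun μ => ρ (0, μ)) (f := m) (hdisp (m a) (hVN (hm a ha)))
        (hma a ha)
    have hgc : ContinuousOn g (Set.Icc a1 a2) := hga.continuousOn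
    have hzero : ∃ a ∈ Set.Icc a1 a2, g a = 0 := by
      rcases mul_neg_iff.1 hsign with ⟨h1, h2⟩ | ⟨h1, h2⟩
      · obtain ⟨s, hs, hs0⟩ := intermediate_value_Icc' ha12.le hgc
          (show (0 : ℝ) ∈ Set.Icc _ _ from ⟨h2.le, h1.le⟩)
        exact ⟨s, hs, hs0⟩
      · obtain ⟨s, hs, hs0⟩ := intermediate_value_Icc ha12.le hgc
          (show (0 : ℝ) ∈ Set.Icc _ _ from ⟨h1.le, h2.le⟩)
        exact ⟨s, hs, hs0⟩
    obtain ⟨a, ha, ha0⟩ := hzero
    have hne1 : g a1 ≠ 0 := by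
      intro h0
      have : g a1 * g a2 < 0 := hsign
      rw [h0, zero_mul] at this; exact lt_irrefl _ this
    have hne2 : g a2 ≠ 0 := by
      intro h0
      have : g a1 * g a2 < 0 := hsign
      rw [h0, mul_zero] at this; exact lt_irrefl _ this
    have haI : a ∈ Set.Ioo a1 a2 := by
      refine ⟨lt_of_le_of_ne ha.1 ?_, lt_of_le_of_ne ha.2 ?_⟩
      · rintro rfl; exact hne1 ha0
      · rintro rfl; exact hne2 ha0
    have hapos : 0 < a := lt_trans ha1 haI.1
    have hiso : ∀ᶠ x in 𝓝[≠] a, g x ≠ 0 := by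
      by_contra hcon
      have hfreq : ∃ᶠ x in 𝓝[≠] a, g x = 0 := by
        rw [Filter.not_eventually] at hcon
        refine hcon.mono fun s hs => ?_
        push Not at hs
        exact hs
      have := hga.eqOn_zero_of_preconnected_of_frequently_eq_zero
        isPreconnected_Icc ha hfreq
      exact hne1 (this (Set.left_mem_Icc.2 ha12.le))
    set μ : Pr D := m a with hμdef
    have hμV' : μ ∈ V := hm a ha
    obtain ⟨hμN', hμ2, hμ3, hμ4, -, -⟩ := hV μ hμV'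
    have hR := hret μ hμN'
    have hfix : ρ (0, μ) = 0 := ha0
    -- the map `s ↦ (1 - s) a`
    have hlin : Continuous fun s : ℝ => (1 - s) * a := by fun_prop
    have htend : Tendsto (fun s : ℝ => (1 - s) * a) (𝓝 0) (𝓝 a) := by
      have := hlin.tendsto 0
      simpa using this
    have htend' : Tendsto (fun s : ℝ => (1 - s) * a) (𝓝[≠] 0) (𝓝[≠] a) := by
      refine tendsto_nhdsWithin_iff.2 ⟨htend.mono_left nhdsWithin_le_nhds, ?_⟩
      filter_upwards [self_mem_nhdsWithin] with s hs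
      have hs' : s ≠ 0 := hs
      intro h
      have h1 : (1 - s) * a = a := h
      have h2 : s * a = 0 := by linarith
      rcases mul_eq_zero.1 h2 with h3 | h3
      · exact hs' h3
      · exact hapos.ne' h3
    have hgat : ContinuousAt g a := (hga a ha).continuousAt
    have e1 : ∀ᶠ s in 𝓝[≠] (0 : ℝ), g ((1 - s) * a) ≠ 0 := htend'.eventually hiso
    have e2 : ∀ᶠ s in 𝓝 (0 : ℝ), (1 - s) * a ∈ Set.Icc a1 a2 :=
      htend.eventually (Icc_mem_nhds haI.1 haI.2)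
    have e3 : ∀ᶠ s in 𝓝 (0 : ℝ), s ∈ Set.Ioo (-η) η := isOpen_Ioo.mem_nhds hη0
    have e4 : ∀ᶠ s in 𝓝 (0 : ℝ), s < 1 := gt_mem_nhds one_pos
    have hρs : ContinuousAt (fun s : ℝ => ρ (s, μ)) 0 :=
      hR.cont_rho.continuousAt (isOpen_Ioo.mem_nhds hη0)
    have e5 : ∀ᶠ s in 𝓝 (0 : ℝ), 1 - (1 - ρ (s, μ)) / (1 - s) ∈ Set.Icc (-η) η := by
      have h1 : ContinuousAt (fun s : ℝ => 1 - (1 - ρ (s, μ)) / (1 - s)) 0 := by
        refine continuousAt_const.sub ((continuousAt_const.sub hρs).div (by fun_prop) (by simp))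
      refine h1.eventually (Icc_mem_nhds ?_ ?_)
      · simp only [hfix]; simp; linarith
      · simp only [hfix]; simp; linarith
    have hgs : Tendsto (fun s : ℝ => g ((1 - s) * a)) (𝓝 0) (𝓝 0) := by
      have h1 := hgat.tendsto.comp htend
      rw [ha0] at h1
      exact h1
    have e6 : ∀ᶠ s in 𝓝 (0 : ℝ), 1 - (1 - s) * (1 - g ((1 - s) * a)) ∈ Set.Icc (-η) η := by
      have h0 : Tendsto (fun s : ℝ => 1 - s) (𝓝 0) (𝓝 (1 - 0)) := by
        exact (continuous_const.sub continuous_id).tendsto (0 : ℝ)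
      have h1 : Tendsto (fun s : ℝ => 1 - (1 - s) * (1 - g ((1 - s) * a))) (𝓝 0)
          (𝓝 (1 - (1 - 0) * (1 - 0))) :=
        tendsto_const_nhds.sub (h0.mul (tendsto_const_nhds.sub hgs))
      refine h1.eventually (Icc_mem_nhds ?_ ?_)
      · norm_num; linarith
      · norm_num; linarith
    have hiso' : ∀ᶠ s in 𝓝[≠] (0 : ℝ), ρ (s, μ) ≠ s := by
      filter_upwards [e1, e2.filter_mono nhdsWithin_le_nhds, e3.filter_mono nhdsWithin_le_nhds,
        e4.filter_mono nhdsWithin_le_nhds, e5.filter_mono nhdsWithin_le_nhds,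
        e6.filter_mono nhdsWithin_le_nhds] with s h1 h2 h3 h4 h5 h6 heq
      have hsc : m ((1 - s) * a) = wArr (1 - s) ((1 - s) ^ d) μ :=
        hscale a (1 - s) hapos (by linarith)
      have hR' := hret (m ((1 - s) * a)) (hVN (hm _ h2))
      rw [hsc] at hR'
      have h7 : g ((1 - s) * a) = ρ (0, wArr (1 - s) ((1 - s) ^ d) μ) := by
        simp only [hg]; rw [hsc]
      rw [h7] at h6 h1
      have h8 := RetMap.wscale (pow_pos (by linarith) d) hR hR' h3 h4 h5 h6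
      rw [heq] at h8
      apply h1
      have h9 : (1 - s) * ρ (0, wArr (1 - s) ((1 - s) ^ d) μ) = 0 := by linarith
      rcases mul_eq_zero.1 h9 with h10 | h10
      · linarith
      · exact h10
    have hLC := hR.isLimitCycle hη0 hfix hiso'
    refine ⟨a, haI, _, hLC, ?_, ?_, ?_⟩
    · exact ⟨0, (hsol μ hμN').at_zero⟩
    · intro X hX0 hXm
      have h1 := hμ4 hXm
      have h2 : |X - 1| < η := by
        by_contra hcon
        push Not at hcon
        exact h1.2 ⟨rfl, hX0.le, hcon⟩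
      have h3 : ((1 : ℝ), (0 : ℝ)) + (1 - X) • nrm ((0 : ℝ), (1 : ℝ)) = (X, 0) := by
        rw [foldChart_nrm]; simp
      rw [← h3] at hXm
      have h4 : (1 - X) ∈ Set.Icc (-η) η := by
        rw [abs_lt] at h2
        exact ⟨by linarith [h2.2], by linarith [h2.1]⟩
      have h5 := at'_zero_iff hR hη0 hfix h4 hXm
      linarith
    · exact hμ4.trans (Set.inter_subset_left)
  · -- deriv_ne
    intro i j hi hj
    set ν : Pr D := ((0, monoArr D (2 * i) (2 * j + 1)) : Pr D) with hνdef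
    have hvar := Sol.variation hNo hμN (fun μ => τ (0, μ)) (fun μ => Z (0, μ)) (1, 0)
      (htau μ0 hμN).differentiableAt (hZs μ0 hμN).differentiableAt hsol ν
    have hz := hsol μ0 hμN
    have hend0 := hend μ0 hμN
    rw [hρ0, sub_zero] at hend0
    have hμeq : μ0 = potArr D (Polynomial.X ^ (2 * d - 1)) := homArr_eq D d
    have hτ1 : 0 < τ (0, μ0) := by rw [hτ0]; exact hT0
    have hpos := pos_identity hd hD hτ1 hz i j
    have hz' := hz
    rw [hμeq] at hvar hz' hend0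
    have h1 := energy_identity (f := Polynomial.X ^ (2 * d - 1)) (c := monoArr D (2 * i) (2 * j + 1))
      (by rw [Polynomial.natDegree_X_pow]; omega) (by omega) hz' hend0 hvar.1 hvar.2
      (by rw [← hμeq]; exact hend' μ0 hμN ν)
    rw [← hμeq, pe_monoArr hi hj] at h1
    intro h2
    rw [h2, mul_zero] at h1
    have h3 := mul_pos hτ1 hpos
    linarith
  · -- deriv_sym
    intro f i j hf hodd hi hj hμ
    set μ : Pr D := potArr D f with hμdef
    obtain ⟨hμN', hμ2, hμ3, hμ4, hμ5, hμ6⟩ := hV μ hμ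
    have hrev : ρ (0, μ) = 0 :=
      (hret μ hμN').reversible (potArr_rev D f) hμ2 (Set.Ioo_subset_Icc_self hμ3)
    set ν : Pr D := ((0, monoArr D (2 * i + 1) (2 * j + 1)) : Pr D) with hνdef
    have hvar := Sol.variation hNo hμN' (fun μ => τ (0, μ)) (fun μ => Z (0, μ)) (1, 0)
      (htau μ hμN').differentiableAt (hZs μ hμN').differentiableAt hsol ν
    have hz := hsol μ hμN'
    have hend0 := hend μ hμN'
    rw [hrev, sub_zero] at hend0
    have hτ1 : 0 < τ (0, μ) := (hret μ hμN').tau_pos 0 hη0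
    have hneg : ∀ x ∈ Set.Icc (-3 / 2 : ℝ) (-1 / 2), f.eval x < 0 := by
      intro x hx
      have h1 := hμ6 x hx
      have h2 : pe μ.2 x (0 : ℝ) = f.eval x := by
        have h3 := congrArg Prod.snd (vfc_potArr hf (by omega : 1 ≤ D) (x, 0))
        exact h3
      rwa [h2] at h1
    have hsym := sym_identity hf (by omega) hodd hτ1 hz hend0 hμ5 hneg i j
    have h1 := energy_identity (c := monoArr D (2 * i + 1) (2 * j + 1)) hf (by omega) hz hend0
      hvar.1 hvar.2 (hend' μ hμN' ν)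
    rw [pe_monoArr hi hj, hsym, mul_zero, neg_zero] at h1
    have h2 : f.eval (-1) < 0 := hneg (-1) ⟨by norm_num, by norm_num⟩
    have h3 := logChart_eval_odd hodd
    rcases mul_eq_zero.1 h1 with h4 | h4
    · exfalso; linarith
    · exact h4

end Pool.Agent.Lib.MP_95e7ec_an
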