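import Mathlib
import Pool.Agent.Lib.MP_95e7ec_an.LogDefs
import Pool.Agent.Lib.MP_95e7ec_an.FoldChartMap
import Pool.Agent.Lib.MP_95e7ec_an.FoldSubst
import Pool.Agent.Lib.MP_95e7ec_an.FoldMono

/-!
# Doubling a potential field with a perturbation: two copies of the limit cycles
-/

set_option autoImplicit false

open Set Filter Topology

namespace Pool.Agent.Lib.MP_95e7ec_an

/-! ### Families of polynomials with continuous coefficients -/

/-- all coefficients of the family are continuous -/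
def LcFam (R : ℝ → Polynomial ℝ) : Prop := ∀ n, Continuous fun u => (R u).coeff n

theorem LcFam.const (P : Polynomial ℝ) : LcFam fun _ => P := fun _ => continuous_const

theorem LcFam.C {f : ℝ → ℝ} (hf : Continuous f) : LcFam fun u => Polynomial.C (f u) := by
  intro n
  simp only [Polynomial.coeff_C]
  split_ifs
  · exact hf
  · exact continuous_const

theorem LcFam.add {R S : ℝ → Polynomial ℝ} (hR : LcFam R) (hS : LcFam S) :
    LcFam fun u => R u + S u := by
  intro n
  simp only [Polynomial.coeff_add]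
  exact (hR n).add (hS n)

theorem LcFam.mul {R S : ℝ → Polynomial ℝ} (hR : LcFam R) (hS : LcFam S) :
    LcFam fun u => R u * S u := by
  intro n
  simp only [Polynomial.coeff_mul]
  exact continuous_finsetSum _ fun x _ => (hR x.1).mul (hS x.2)

theorem LcFam.pow {R : ℝ → Polynomial ℝ} (hR : LcFam R) (k : ℕ) : LcFam fun u => R u ^ k := by
  induction k with
  | zero => simpa using LcFam.const 1
  | succ k ih => simpa only [pow_succ] using ih.mul hR

theorem LcFam.comp {R : ℝ → Polynomial ℝ} (g : Polynomial ℝ) (hR : LcFam R) :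
    LcFam fun u => g.comp (R u) := by
  intro n
  simp only [Polynomial.comp, Polynomial.eval₂_eq_sum, Polynomial.sum_def,
    Polynomial.finsetSum_coeff]
  exact continuous_finsetSum _ fun k _ => ((LcFam.const _).mul (hR.pow k)) n

/-- the polynomial `(1 + u x) g(x + u x²/2)` -/
noncomputable def logZf (u : ℝ) (g : Polynomial ℝ) : Polynomial ℝ :=
  (1 + Polynomial.C u * Polynomial.X) * g.comp (Polynomial.X + Polynomial.C (u / 2) *
    Polynomial.X ^ 2)

theorem lcFam_logZf (g : Polynomial ℝ) : LcFam fun u => logZf u g := by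
  unfold logZf
  exact ((LcFam.const _).add ((LcFam.C continuous_id).mul (LcFam.const _))).mul
    (LcFam.comp g ((LcFam.const _).add ((LcFam.C (by fun_prop)).mul (LcFam.const _))))

theorem logZf_zero (g : Polynomial ℝ) : logZf 0 g = g := by simp [logZf]

theorem eval_logZf (u : ℝ) (g : Polynomial ℝ) (x : ℝ) :
    (logZf u g).eval x = (1 + u * x) * g.eval (x + u / 2 * x ^ 2) := by
  simp [logZf, Polynomial.eval_comp]

theorem natDegree_logZf (u : ℝ) (g : Polynomial ℝ) : (logZf u g).natDegree ≤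
    2 * g.natDegree + 1 := by
  unfold logZf
  have h1 : (1 + Polynomial.C u * Polynomial.X : Polynomial ℝ).natDegree ≤ 1 := by
    compute_degree
  have h2 : (Polynomial.X + Polynomial.C (u / 2) * Polynomial.X ^ 2 : Polynomial ℝ).natDegree
      ≤ 2 := by
    compute_degree
  have h3 := Polynomial.natDegree_comp_le (p := g)
    (q := (Polynomial.X + Polynomial.C (u / 2) * Polynomial.X ^ 2 : Polynomial ℝ))
  refine (Polynomial.natDegree_mul_le).trans ?_
  have h4 : g.natDegree * (Polynomial.X + Polynomial.C (u / 2) * Polynomial.X ^ 2 :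
      Polynomial ℝ).natDegree ≤ g.natDegree * 2 := Nat.mul_le_mul_left _ h2
  omega

theorem natDegree_logDbl_le (σ : ℝ) (g : Polynomial ℝ) :
    (dbl σ g).natDegree ≤ 2 * g.natDegree + 1 := by
  unfold dbl
  have h1 : (Polynomial.C 2 * Polynomial.X : Polynomial ℝ).natDegree ≤ 1 := by
    compute_degree
  have h2 : (Polynomial.X ^ 2 - Polynomial.C (σ ^ 2) : Polynomial ℝ).natDegree ≤ 2 := by
    compute_degree
  have h3 := Polynomial.natDegree_comp_le (p := g)
    (q := (Polynomial.X ^ 2 - Polynomial.C (σ ^ 2) : Polynomial ℝ))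
  refine (Polynomial.natDegree_mul_le).trans ?_
  have h4 : g.natDegree * (Polynomial.X ^ 2 - Polynomial.C (σ ^ 2) : Polynomial ℝ).natDegree ≤
    g.natDegree * 2 := Nat.mul_le_mul_left _ h2
  omega

/-! ### Arrays -/

theorem logC_pe_polArr {D : ℕ} {f : Polynomial ℝ} {β : ℕ} (hf : f.natDegree ≤ D) (hβ : β ≤ D)
    (x y : ℝ) : pe (polArr D f β) x y = f.eval x * y ^ β := by
  have h1 : f.natDegree < D + 1 := by omega
  rw [Polynomial.eval_eq_sum_range' h1, Finset.sum_range, Finset.sum_mul]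
  unfold pe polArr
  refine Finset.sum_congr rfl fun a _ => ?_
  rw [Finset.sum_eq_single (⟨β, by omega⟩ : Fin (D + 1))]
  · simp [mul_assoc]
  · intro b _ hb
    have : (b : ℕ) ≠ β := fun h => hb (Fin.ext h)
    simp [this]
  · simp

theorem logCopies_continuous_polArr {R : ℝ → Polynomial ℝ} (hR : LcFam R) (D β : ℕ) :
    Continuous fun u => polArr D (R u) β := by
  refine continuous_pi fun a => continuous_pi fun b => ?_
  unfold polArr
  split_ifs
  · exact hR _
  · exact continuous_const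

theorem logCopies_odd_iff {D : ℕ} (c : Co D) : (∀ a b : Fin (D + 1), Even (b : ℕ) → c a b = 0) ↔
    ∀ x y : ℝ, pe c x (-y) = -pe c x y := by
  constructor
  · intro h x y
    simp only [pe, smul_eq_mul, ← Finset.sum_neg_distrib]
    refine Finset.sum_congr rfl fun a _ => Finset.sum_congr rfl fun b _ => ?_
    rcases Nat.even_or_odd (b : ℕ) with hb | hb
    · rw [h a b hb]; ring
    · rw [hb.neg_pow]; ring
  · intro h
    have h1 : (fun a b => c a b * (-1) ^ (b : ℕ) + c a b : Co D) = 0 := by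
      apply pe_injective
      intro x y
      rw [pe_zero_arr]
      have h2 := h x y
      simp only [pe, smul_eq_mul] at h2 ⊢
      have h3 : ∑ a : Fin (D + 1), ∑ b : Fin (D + 1),
          (c a b * (-1) ^ (b : ℕ) + c a b) * (x ^ (a : ℕ) * y ^ (b : ℕ)) =
          ∑ a : Fin (D + 1), ∑ b : Fin (D + 1), c a b * (x ^ (a : ℕ) * (-y) ^ (b : ℕ)) +
          ∑ a : Fin (D + 1), ∑ b : Fin (D + 1), c a b * (x ^ (a : ℕ) * y ^ (b : ℕ)) := by
        rw [← Finset.sum_add_distrib]
        refine Finset.sum_congr rfl fun a _ => ?_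
        rw [← Finset.sum_add_distrib]
        refine Finset.sum_congr rfl fun b _ => ?_
        rw [neg_pow y]; ring
      rw [h3, h2]; ring
    intro a b hb
    have h2 := congrFun (congrFun h1 a) b
    simp only [hb.neg_pow, one_pow, mul_one, Pi.zero_apply] at h2
    linarith

theorem logCopies_even_iff {D : ℕ} (c : Co D) : (∀ a b : Fin (D + 1), Odd (b : ℕ) → c a b = 0) ↔
    ∀ x y : ℝ, pe c x (-y) = pe c x y := by
  constructor
  · intro h x y
    simp only [pe, smul_eq_mul]
    refine Finset.sum_congr rfl fun a _ => Finset.sum_congr rfl fun b _ => ?_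
    rcases Nat.even_or_odd (b : ℕ) with hb | hb
    · rw [hb.neg_pow]
    · rw [h a b hb]; ring
  · intro h
    have h1 : (fun a b => c a b * (-1) ^ (b : ℕ) - c a b : Co D) = 0 := by
      apply pe_injective
      intro x y
      rw [pe_zero_arr]
      have h2 := h x y
      simp only [pe, smul_eq_mul] at h2 ⊢
      have h3 : ∑ a : Fin (D + 1), ∑ b : Fin (D + 1),
          (c a b * (-1) ^ (b : ℕ) - c a b) * (x ^ (a : ℕ) * y ^ (b : ℕ)) =
          ∑ a : Fin (D + 1), ∑ b : Fin (D + 1), c a b * (x ^ (a : ℕ) * (-y) ^ (b : ℕ)) -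
          ∑ a : Fin (D + 1), ∑ b : Fin (D + 1), c a b * (x ^ (a : ℕ) * y ^ (b : ℕ)) := by
        rw [← Finset.sum_sub_distrib]
        refine Finset.sum_congr rfl fun a _ => ?_
        rw [← Finset.sum_sub_distrib]
        refine Finset.sum_congr rfl fun b _ => ?_
        rw [neg_pow y]; ring
      rw [h3, h2]; ring
    intro a b hb
    have h2 := congrFun (congrFun h1 a) b
    simp only [hb.neg_pow, one_pow, mul_neg, mul_one, Pi.zero_apply] at h2
    linarith

/-! ### The chart `x = s (σ + X / (2σ))`, `y = Y` -/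

theorem logCopies_rev {D : ℕ} {x0 x1 r : ℝ} {T : Co D →L[ℝ] Co D}
    (hT : ∀ (c : Co D) (x y : ℝ), pe (T c) x y = pe c (x0 + x1 * x) (0 + 1 * y)) {μ : Pr D}
    (hμ : RevArr μ) : RevArr ((T μ.1, r • T μ.2) : Pr D) := by
  constructor
  · rw [logCopies_odd_iff]
    intro x y
    have h1 := (logCopies_odd_iff μ.1).1 hμ.1
    simp only [hT, zero_add, one_mul]
    exact h1 _ _
  · rw [logCopies_even_iff]
    intro x y
    have h1 := (logCopies_even_iff μ.2).1 hμ.2
    simp only [pe_smul_arr, hT, zero_add, one_mul]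
    rw [h1]

/-- the identity behind the two copies -/
theorem logCopies_eval {σ s : ℝ} (hσ : 0 < σ) (hs : s * s = 1) (g : Polynomial ℝ) (x : ℝ) :
    s / (2 * σ) * (dbl σ g).eval (s * σ + s / (2 * σ) * x) =
      (logZf (1 / (2 * σ ^ 2)) g).eval x := by
  rw [eval_logZf]
  unfold dbl
  simp only [Polynomial.eval_mul, Polynomial.eval_C, Polynomial.eval_X, Polynomial.eval_comp,
    Polynomial.eval_sub, Polynomial.eval_pow]
  have h1 : (s * σ + s / (2 * σ) * x) ^ 2 - σ ^ 2 = x + 1 / (2 * σ ^ 2) / 2 * x ^ 2 := by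
    have : (s * σ + s / (2 * σ) * x) ^ 2 = (s * s) * (σ + 1 / (2 * σ) * x) ^ 2 := by ring
    rw [this, hs]
    field_simp
    ring
  rw [h1]
  have h2 : s / (2 * σ) * (2 * (s * σ + s / (2 * σ) * x)) = 1 + 1 / (2 * σ ^ 2) * x := by
    have : s / (2 * σ) * (2 * (s * σ + s / (2 * σ) * x)) =
      (s * s) * (1 / (2 * σ) * (2 * (σ + 1 / (2 * σ) * x))) := by ring
    rw [this, hs]
    field_simp
  rw [← h2]
  ring

theorem logCopies_polArr {D : ℕ} {σ s : ℝ} (hσ : 0 < σ) (hs : s * s = 1)
    {T : Co D →L[ℝ] Co D}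
    (hT : ∀ (c : Co D) (x y : ℝ), pe (T c) x y = pe c (s * σ + s / (2 * σ) * x) (0 + 1 * y))
    {g : Polynomial ℝ} (hg : 2 * g.natDegree + 1 ≤ D) {β : ℕ} (hβ : β ≤ D) :
    (s / (2 * σ)) • T (polArr D (dbl σ g) β) = polArr D (logZf (1 / (2 * σ ^ 2)) g) β := by
  apply pe_injective
  intro x y
  rw [pe_smul_arr, hT, logC_pe_polArr ((natDegree_logDbl_le σ g).trans hg) hβ,
    logC_pe_polArr ((natDegree_logZf _ g).trans hg) hβ, ← logCopies_eval hσ hs]
  simp only [smul_eq_mul, zero_add, one_mul]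
  ring

theorem logCopies_potArr {D : ℕ} {σ s : ℝ} (hσ : 0 < σ) (hs : s * s = 1)
    {T : Co D →L[ℝ] Co D}
    (hT : ∀ (c : Co D) (x y : ℝ), pe (T c) x y = pe c (s * σ + s / (2 * σ) * x) (0 + 1 * y))
    {f : Polynomial ℝ} (hf : 2 * f.natDegree + 1 ≤ D) :
    ((T (potArr D (dbl σ f)).1, (s / (2 * σ)) • T (potArr D (dbl σ f)).2) : Pr D) =
      potArr D (logZf (1 / (2 * σ ^ 2)) f) := by
  unfold potArr
  apply Prod.ext
  · apply pe_injective
    intro x y
    simp only
    rw [hT, pe_neg_arr, pe_neg_arr, pe_monoArr (Nat.zero_le _) (by omega),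
      pe_monoArr (Nat.zero_le _) (by omega)]
    simp
  · exact logCopies_polArr hσ hs hT hf (Nat.zero_le _)

theorem logCopies_pertArr {D m : ℕ} {σ s : ℝ} (hσ : 0 < σ) (hs : s * s = 1)
    {T : Co D →L[ℝ] Co D}
    (hT : ∀ (c : Co D) (x y : ℝ), pe (T c) x y = pe c (s * σ + s / (2 * σ) * x) (0 + 1 * y))
    {G : ℕ → Polynomial ℝ} (hG : ∀ j < m, 2 * (G j).natDegree + 1 ≤ D) (hm : 2 * m ≤ D) :
    ((T (pertArr D m fun j => dbl σ (G j)).1,
      (s / (2 * σ)) • T (pertArr D m fun j => dbl σ (G j)).2) : Pr D) =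
      pertArr D m fun j => logZf (1 / (2 * σ ^ 2)) (G j) := by
  unfold pertArr
  apply Prod.ext
  · simp
  · simp only [map_sum, Finset.smul_sum]
    refine Finset.sum_congr rfl fun j hj => ?_
    have hj' := Finset.mem_range.1 hj
    exact logCopies_polArr hσ hs hT (hG j hj') (by omega)

theorem continuous_logPot (D : ℕ) (f : Polynomial ℝ) :
    Continuous fun u => potArr D (logZf u f) := by
  unfold potArr
  exact continuous_const.prodMk (logCopies_continuous_polArr (lcFam_logZf f) D 0)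

theorem continuous_logPert (D m : ℕ) (G : ℕ → Polynomial ℝ) :
    Continuous fun u => pertArr D m fun j => logZf u (G j) := by
  unfold pertArr
  exact continuous_const.prodMk (continuous_finsetSum _ fun j _ =>
    logCopies_continuous_polArr (lcFam_logZf (G j)) D (2 * j + 1))

/-- Transport of the limit cycles of the field in the chart. -/
theorem logCopies_cycles {D Z : ℕ} {σ R s : ℝ} (hσ : 0 < σ) (hs : s * s = 1)
    (hR : R < 2 * σ ^ 2) {T : Co D →L[ℝ] Co D}
    (hT : ∀ (c : Co D) (x y : ℝ), pe (T c) x y = pe c (s * σ + s / (2 * σ) * x) (0 + 1 * y))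
    {μ : Pr D} (h : Has ((T μ.1, (s / (2 * σ)) • T μ.2) : Pr D) R Z) :
    ∃ F : Finset (Set (ℝ × ℝ)), Z ≤ F.card ∧
      ∀ C ∈ F, IsLimitCycle (vfc μ) C ∧ ∀ z ∈ C, 0 < s * z.1 ∧ s * z.1 < 2 * σ ∧ |z.2| < R := by
  classical
  have hs0 : s ≠ 0 := fun h0 => by rw [h0] at hs; norm_num at hs
  have hp : s / (2 * σ) ≠ 0 := div_ne_zero hs0 (by positivity)
  obtain ⟨F', hF'c, hF'⟩ := h
  set φ : ℝ × ℝ → ℝ × ℝ := fun z => (s * σ + s / (2 * σ) * z.1, 0 + 1 * z.2) with hφ
  have hinj : Function.Injective φ := by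
    intro z w hzw
    simp only [hφ, Prod.mk.injEq, add_right_inj, zero_add, one_mul] at hzw
    exact Prod.ext (mul_left_cancel₀ hp hzw.1) hzw.2
  refine ⟨F'.image (fun C => φ '' C), ?_, ?_⟩
  · rw [Finset.card_image_of_injective _ (Set.image_injective.2 hinj)]
    exact hF'c
  · intro C hC
    obtain ⟨C', hC', rfl⟩ := Finset.mem_image.1 hC
    obtain ⟨h1, h2⟩ := hF' C' hC'
    refine ⟨?_, ?_⟩
    · refine IsLimitCycle.chart (v := vfc μ) (s * σ) 0 (s / (2 * σ)) 1 (s / (2 * σ)) hp one_ne_zero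
        hp ?_ h1
      intro z
      simp only [vfc, pe_smul_arr, hT, smul_eq_mul]
      apply Prod.ext
      · simp only
        field_simp
      · simp only
        field_simp
    · rintro z ⟨w, hw, rfl⟩
      have h3 := h2 hw
      rw [mem_ball_zero_iff] at h3
      have h4 : |w.2| < R := lt_of_le_of_lt (norm_snd_le w) h3
      have h5 : |w.1| < R := lt_of_le_of_lt (norm_fst_le w) h3
      have h6 : s * (s * σ + s / (2 * σ) * w.1) = σ + w.1 / (2 * σ) := by
        have : s * (s * σ + s / (2 * σ) * w.1) = (s * s) * (σ + w.1 / (2 * σ)) := by ring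
        rw [this, hs, one_mul]
      have h7 : |w.1 / (2 * σ)| < σ := by
        rw [abs_div, abs_of_pos (by positivity : (0 : ℝ) < 2 * σ), div_lt_iff₀ (by positivity)]
        calc |w.1| < R := h5
          _ < 2 * σ ^ 2 := hR
          _ = σ * (2 * σ) := by ring
      rw [abs_lt] at h7
      simp only [hφ, h6, zero_add, one_mul]
      exact ⟨by linarith, by linarith, h4⟩

theorem two_copies {D m : ℕ} {f : Polynomial ℝ} {G : ℕ → Polynomial ℝ}
    (hf : 2 * f.natDegree + 1 ≤ D) (hG : ∀ j < m, 2 * (G j).natDegree + 1 ≤ D) (hm : 2 * m ≤ D)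
    {R : ℝ} {Z : ℕ} (h : RobZ (potArr D f) (pertArr D m G) R Z) :
    ∀ᶠ σ in atTop, ∃ R' : ℝ,
      RobZ (potArr D (dbl σ f)) (pertArr D m (fun j => dbl σ (G j))) R' (2 * Z) := by
  classical
  -- the limit of the field in the chart
  have hu : Tendsto (fun σ : ℝ => 1 / (2 * σ ^ 2)) atTop (𝓝 0) := by
    have h1 : Tendsto (fun σ : ℝ => 2 * σ ^ 2) atTop atTop :=
      Tendsto.const_mul_atTop (by norm_num) (tendsto_pow_atTop (by norm_num))
    have h2 := h1.inv_tendsto_atTop
    have h3 : (fun σ : ℝ => 1 / (2 * σ ^ 2)) = (fun σ : ℝ => 2 * σ ^ 2)⁻¹ := by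
      funext σ; simp only [one_div, Pi.inv_apply]
    rw [h3]; exact h2
  have hlim : Tendsto (fun σ : ℝ => ((potArr D (logZf (1 / (2 * σ ^ 2)) f),
      pertArr D m fun j => logZf (1 / (2 * σ ^ 2)) (G j)) : Pr D × Pr D)) atTop
      (𝓝 (potArr D f, pertArr D m G)) := by
    have h1 : Continuous fun u : ℝ => ((potArr D (logZf u f),
        pertArr D m fun j => logZf u (G j)) : Pr D × Pr D) :=
      (continuous_logPot D f).prodMk (continuous_logPert D m G)
    have h2 := (h1.tendsto 0).comp hu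
    simpa only [logZf_zero, Function.comp_def] using h2
  have hrob : ∀ᶠ σ in atTop, RobZ (potArr D (logZf (1 / (2 * σ ^ 2)) f))
      (pertArr D m fun j => logZf (1 / (2 * σ ^ 2)) (G j)) R Z :=
    hlim.eventually h.eventually_nhds
  filter_upwards [hrob, eventually_gt_atTop (0 : ℝ), eventually_gt_atTop (|R| + 1)] with
    σ hσrob hσ hσR
  have hR : R < 2 * σ ^ 2 := by
    have h1 := le_abs_self R
    have h2 := abs_nonneg R
    nlinarith
  refine ⟨2 * σ + |R| + 1, ?_⟩
  -- one copy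
  have key : ∀ s : ℝ, s * s = 1 → ∀ᶠ q in 𝓝 ((potArr D (dbl σ f),
      pertArr D m fun j => dbl σ (G j)) : Pr D × Pr D), RevArr q.1 →
      ∀ᶠ lam in 𝓝[>] (0 : ℝ), ∃ F : Finset (Set (ℝ × ℝ)), Z ≤ F.card ∧
        ∀ C ∈ F, IsLimitCycle (vfc (q.1 + lam • q.2)) C ∧
          ∀ z ∈ C, 0 < s * z.1 ∧ s * z.1 < 2 * σ ∧ |z.2| < R := by
    intro s hs
    obtain ⟨T, hT⟩ := exists_subArr D (s * σ) (s / (2 * σ)) 0 1
    have h1 : Continuous (fun q : Pr D × Pr D =>
        (((T q.1.1, (s / (2 * σ)) • T q.1.2), (T q.2.1, (s / (2 * σ)) • T q.2.2)) :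
          Pr D × Pr D)) := by
      fun_prop
    have h2 := h1.tendsto ((potArr D (dbl σ f), pertArr D m fun j => dbl σ (G j)) :
      Pr D × Pr D)
    simp only at h2
    rw [logCopies_potArr hσ hs hT hf, logCopies_pertArr hσ hs hT hG hm] at h2
    filter_upwards [h2.eventually hσrob] with q hq hrev
    filter_upwards [hq (logCopies_rev hT hrev)] with lam hlam
    refine logCopies_cycles hσ hs hR hT ?_
    have h3 : ((T q.1.1, (s / (2 * σ)) • T q.1.2) : Pr D) +
        lam • ((T q.2.1, (s / (2 * σ)) • T q.2.2) : Pr D) =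
        ((T (q.1 + lam • q.2).1, (s / (2 * σ)) • T (q.1 + lam • q.2).2) : Pr D) := by
      apply Prod.ext
      · simp
      · simp only [Prod.snd_add, Prod.smul_snd, map_add, map_smul, smul_add]
        rw [smul_comm]
    rw [← h3]
    exact hlam
  filter_upwards [key 1 (by norm_num), key (-1) (by norm_num)] with q h1 h2 hrev
  filter_upwards [h1 hrev, h2 hrev] with lam h3 h4
  obtain ⟨F1, hF1c, hF1⟩ := h3
  obtain ⟨F2, hF2c, hF2⟩ := h4
  have hdisj : Disjoint F1 F2 := by
    rw [Finset.disjoint_left]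
    intro C hC hC'
    obtain ⟨z, hz⟩ := (hF1 C hC).1.1.nonempty'
    have h1 := ((hF1 C hC).2 z hz).1
    have h2 := ((hF2 C hC').2 z hz).1
    linarith
  refine ⟨F1 ∪ F2, ?_, ?_⟩
  · rw [Finset.card_union_of_disjoint hdisj]
    omega
  · intro C hC
    have hab := le_abs_self R
    have hab' := abs_nonneg R
    rcases Finset.mem_union.1 hC with h | h
    · refine ⟨(hF1 C h).1, fun z hz => ?_⟩
      obtain ⟨h5, h6, h7⟩ := (hF1 C h).2 z hz
      rw [mem_ball_zero_iff, Prod.norm_def, Real.norm_eq_abs, Real.norm_eq_abs]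
      refine max_lt (abs_lt.2 ⟨by linarith, by linarith⟩) (by linarith)
    · refine ⟨(hF2 C h).1, fun z hz => ?_⟩
      obtain ⟨h5, h6, h7⟩ := (hF2 C h).2 z hz
      rw [mem_ball_zero_iff, Prod.norm_def, Real.norm_eq_abs, Real.norm_eq_abs]
      refine max_lt (abs_lt.2 ⟨by linarith, by linarith⟩) (by linarith)

end Pool.Agent.Lib.MP_95e7ec_an
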