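import Mathlib
import Pool.Agent.Lib.MP_95e7ec_an.FoldHilbert

/-!
# Row classes and the sums in the recursion with potential fields near the axis
-/

set_option autoImplicit false

open Set Filter Topology

namespace Pool.Agent.Lib.MP_95e7ec_an

theorem row_swap2 (n : ℕ) : rowNumber (2 * (n + 1) + 4) (fun j => n - (j / 2 - 2)) ≤
    rowNumber (n + 1) (fun i => 2 * n + 5 - 2 * i) := by
  unfold rowNumber
  refine iSup_le fun P => iSup_le fun Q => iSup_le fun hP => iSup_le fun hQ => ?_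
  have hrow : ∀ R : MvPolynomial (Fin 2) ℝ,
      InRow (2 * (n + 1) + 4) (fun j => n - (j / 2 - 2)) R →
      InRow (n + 1) (fun i => 2 * n + 5 - 2 * i) (foldHilbertSwap R) := by
    intro R hR d hd
    obtain ⟨d', hd', h0, h1⟩ := foldHilbert_support_swap hd
    obtain ⟨h2, h3⟩ := hR d' hd'
    dsimp only at h3 ⊢
    omega
  refine le_trans ?_ (le_iSup_of_le (foldHilbertSwap Q) (le_iSup_of_le (foldHilbertSwap P)
    (le_iSup_of_le (hrow Q hQ) (le_iSup_of_le (hrow P hP) le_rfl))))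
  have hinj : Function.Injective fun C : Set (ℝ × ℝ) => (fun y : ℝ × ℝ => (y.2, y.1)) '' C := by
    apply Set.image_injective.2
    intro y z hyz
    simp only [Prod.mk.injEq] at hyz
    exact Prod.ext hyz.2 hyz.1
  rw [← hinj.encard_image]
  apply Set.encard_le_encard
  rintro _ ⟨C, hC, rfl⟩
  exact foldHilbert_cycle_swap hC

theorem row_le_hilbert2 (n : ℕ) :
    rowNumber (2 * (n + 1) + 4) (fun j => 2 * n + 5 - 2 * (j / 2 - 2)) ≤
      hilbertNumber (2 * n + 10) := by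
  unfold rowNumber hilbertNumber
  refine iSup_le fun P => iSup_le fun Q => iSup_le fun hP => iSup_le fun hQ => ?_
  have hrow : ∀ R : MvPolynomial (Fin 2) ℝ,
      InRow (2 * (n + 1) + 4) (fun j => 2 * n + 5 - 2 * (j / 2 - 2)) R →
      R.totalDegree ≤ 2 * n + 10 := by
    intro R hR
    rw [foldHilbert_degree_le_iff]
    intro d hd
    obtain ⟨h2, h3⟩ := hR d hd
    dsimp only at h3
    omega
  exact le_iSup_of_le P (le_iSup_of_le Q (le_iSup_of_le (hrow P hP)
    (le_iSup_of_le (hrow Q hQ) le_rfl)))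

/-- The number of limit cycles after `k` doublings of the `x`-degree. -/
def subZ (s : ℕ) : ℕ → ℕ
  | 0 => 0
  | k + 1 => 2 * subZ s k + (2 ^ k * s - 1)

/-- The gain in the recursion for the Hilbert numbers. -/
def logGain (n k : ℕ) : ℕ :=
  2 * subZ (∑ j ∈ Finset.range (n + 3), (n - (j - 2) + 1) / 2 ^ k) k +
    subZ (∑ j ∈ Finset.range (n + 3), (2 * n + 5 - 2 * (j - 2) + 1) / 2 ^ k) k

theorem logHilbert_subZ (s k : ℕ) :
    (k : ℝ) / 2 * (2 ^ k * s) - 2 ^ k ≤ (subZ s k : ℝ) := by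
  have h : (k : ℝ) / 2 * (2 ^ k * s) - (2 ^ k - 1) ≤ (subZ s k : ℝ) := by
    induction k with
    | zero => simp [subZ]
    | succ k ih =>
      rw [subZ]
      have h1 : ((2 ^ k * s : ℕ) : ℝ) - 1 ≤ ((2 ^ k * s - 1 : ℕ) : ℝ) := by
        have := Nat.cast_le (α := ℝ).2 (show 2 ^ k * s ≤ (2 ^ k * s - 1) + 1 by omega)
        push_cast at this ⊢
        linarith
      push_cast at h1 ⊢
      rw [pow_succ]
      nlinarith
  have h2 : (1 : ℝ) ≤ 2 ^ k := one_le_pow₀ (by norm_num)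
  linarith

theorem logHilbert_div (x p : ℕ) (hp : 0 < p) : (x : ℝ) - p ≤ p * ((x / p : ℕ) : ℝ) := by
  have h1 : x < p * (x / p + 1) := Nat.lt_mul_div_succ x hp
  have h2 : (x : ℝ) < p * ((x / p : ℕ) + 1) := by exact_mod_cast h1
  linarith

theorem logHilbert_sum_div (f : ℕ → ℕ) (m k : ℕ) :
    (∑ j ∈ Finset.range m, (f j : ℝ)) - m * 2 ^ k ≤
      2 ^ k * ((∑ j ∈ Finset.range m, f j / 2 ^ k : ℕ) : ℝ) := by
  push_cast [Nat.cast_sum]
  rw [Finset.mul_sum]
  have h : ∑ j ∈ Finset.range m, ((f j : ℝ) - 2 ^ k) ≤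
      ∑ j ∈ Finset.range m, 2 ^ k * ((f j / 2 ^ k : ℕ) : ℝ) := by
    refine Finset.sum_le_sum fun j _ => ?_
    have := logHilbert_div (f j) (2 ^ k) (by positivity)
    push_cast at this
    exact this
  rw [Finset.sum_sub_distrib, Finset.sum_const, Finset.card_range, nsmul_eq_mul] at h
  exact h

theorem logHilbert_sum_one (n : ℕ) :
    ∑ j ∈ Finset.range (n + 3), ((n - (j - 2) + 1 : ℕ) : ℝ) =
      ((n : ℝ) + 1) * (n + 2) / 2 + 2 * (n + 1) := by
  have h : ∀ n : ℕ, 2 * ∑ j ∈ Finset.range (n + 3), (n - (j - 2) + 1) =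
      (n + 1) * (n + 2) + 4 * (n + 1) := by
    intro n
    rw [Finset.sum_range_succ', Finset.sum_range_succ']
    have h1 : ∀ j, n - (j + 1 + 1 - 2) + 1 = n - j + 1 := by intro j; omega
    simp only [h1]
    have h2 : ∑ j ∈ Finset.range (n + 1), (n - j + 1) = ∑ j ∈ Finset.range (n + 1), (j + 1) := by
      rw [← Finset.sum_range_reflect]
      refine Finset.sum_congr rfl fun j hj => ?_
      have := Finset.mem_range.1 hj
      omega
    rw [h2, Finset.sum_add_distrib, mul_add, mul_add, mul_add]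
    have h3 := Finset.sum_range_id_mul_two (n + 1)
    simp only [Finset.sum_const, Finset.card_range, smul_eq_mul]
    simp only [Nat.add_sub_cancel] at h3
    have h4 : 2 * ∑ i ∈ Finset.range (n + 1), i = (n + 1) * n := by rw [mul_comm]; exact h3
    rw [h4]
    simp
    ring
  have h5 := h n
  have h6 : (2 : ℝ) * ((∑ j ∈ Finset.range (n + 3), (n - (j - 2) + 1) : ℕ) : ℝ) =
      ((n : ℝ) + 1) * (n + 2) + 4 * (n + 1) := by exact_mod_cast h5
  rw [← Nat.cast_sum]
  linarith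

theorem logHilbert_sum_two (n : ℕ) :
    ∑ j ∈ Finset.range (n + 3), ((2 * n + 5 - 2 * (j - 2) + 1 : ℕ) : ℝ) =
      ((n : ℝ) + 1) * (n + 6) + (4 * n + 12) := by
  have h : ∀ n : ℕ, ∑ j ∈ Finset.range (n + 3), (2 * n + 5 - 2 * (j - 2) + 1) =
      (n + 1) * (n + 6) + (4 * n + 12) := by
    intro n
    rw [Finset.sum_range_succ', Finset.sum_range_succ']
    have h1 : ∀ j, 2 * n + 5 - 2 * (j + 1 + 1 - 2) + 1 = 2 * n + 5 - 2 * j + 1 := by
      intro j; omega
    simp only [h1]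
    have h2 : ∑ j ∈ Finset.range (n + 1), (2 * n + 5 - 2 * j + 1) =
        ∑ j ∈ Finset.range (n + 1), (2 * j + 6) := by
      rw [← Finset.sum_range_reflect]
      refine Finset.sum_congr rfl fun j hj => ?_
      have := Finset.mem_range.1 hj
      omega
    rw [h2, Finset.sum_add_distrib, ← Finset.mul_sum]
    have h3 := Finset.sum_range_id_mul_two (n + 1)
    simp only [Finset.sum_const, Finset.card_range, smul_eq_mul]
    simp only [Nat.add_sub_cancel] at h3
    have h4 : 2 * ∑ i ∈ Finset.range (n + 1), i = (n + 1) * n := by rw [mul_comm]; exact h3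
    rw [h4]
    simp
    ring
  rw [← Nat.cast_sum, h n]
  push_cast
  ring

theorem le_logGain (n k : ℕ) :
    (k : ℝ) * n ^ 2 - 3 / 2 * k * (n + 3) * 2 ^ k - 3 * 2 ^ k ≤ (logGain n k : ℝ) := by
  unfold logGain
  have h1 := logHilbert_subZ (∑ j ∈ Finset.range (n + 3), (n - (j - 2) + 1) / 2 ^ k) k
  have h2 := logHilbert_subZ
    (∑ j ∈ Finset.range (n + 3), (2 * n + 5 - 2 * (j - 2) + 1) / 2 ^ k) k
  have h3 := logHilbert_sum_div (fun j => n - (j - 2) + 1) (n + 3) k
  have h4 := logHilbert_sum_div (fun j => 2 * n + 5 - 2 * (j - 2) + 1) (n + 3) k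
  rw [logHilbert_sum_one] at h3
  rw [logHilbert_sum_two] at h4
  rw [Nat.cast_add, Nat.cast_mul]
  set s1 : ℝ := ((∑ j ∈ Finset.range (n + 3), (n - (j - 2) + 1) / 2 ^ k : ℕ) : ℝ)
  set s2 : ℝ := ((∑ j ∈ Finset.range (n + 3), (2 * n + 5 - 2 * (j - 2) + 1) / 2 ^ k : ℕ) : ℝ)
  have hk : (0 : ℝ) ≤ (k : ℝ) / 2 := by positivity
  have h5 := mul_le_mul_of_nonneg_left h3 hk
  have h6 := mul_le_mul_of_nonneg_left h4 hk
  have hn : (0 : ℝ) ≤ n := by positivity
  have hkn : (0 : ℝ) ≤ (k : ℝ) * n := by positivity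
  have hk' : (0 : ℝ) ≤ (k : ℝ) := by positivity
  push_cast at h5 h6 ⊢
  nlinarith

end Pool.Agent.Lib.MP_95e7ec_an
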