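import Mathlib
import Pool.Agent.Lib.MP_95e7ec_an.FoldExists

/-!
# The folded field away from the axis (task F9)
-/

set_option autoImplicit false

open Set Filter Topology

namespace Pool.Agent.Lib.MP_95e7ec_an

/-- `ε y^m A(x/ε, (y²-1)/(2ε))` -/
noncomputable def logFoldO (m : ℕ) (ε : ℝ) (A : MvPolynomial (Fin 2) ℝ) :
    MvPolynomial (Fin 2) ℝ :=
  MvPolynomial.C ε * MvPolynomial.X 1 ^ m * zoomP ε A

/-- The component `logFoldO` in the chart `(ε x, 1 + ε y)`, divided by `ε`. -/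
noncomputable def logFoldF (m : ℕ) (ε : ℝ) (A : MvPolynomial (Fin 2) ℝ) :
    MvPolynomial (Fin 2) ℝ :=
  (1 + MvPolynomial.C ε * MvPolynomial.X 1) ^ m * zoomF ε A

theorem logFoldO_supp {m L : ℕ} {N : ℕ → ℕ} (hN : Antitone N) (hm4 : 4 ≤ m) (hm5 : m ≤ 5)
    {A : MvPolynomial (Fin 2) ℝ} (hA : InRow L N A) (ε : ℝ) :
    FfSupp (fun i j => (j < 2 * L + 4 ∧ i ≤ N (j / 2 - 2)) ∧ m ≤ j ∧ j % 2 = m % 2)
      (logFoldO m ε A) := by
  unfold logFoldO
  refine FfSupp.zoomP (fun d hd k hk => ?_) _ _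
  obtain ⟨h1, h2⟩ := hA d hd
  refine ⟨⟨by omega, h2.trans (hN ?_)⟩, by omega, by omega⟩
  omega

theorem logFoldO_inRow {m L : ℕ} {N : ℕ → ℕ} (hN : Antitone N) (hm4 : 4 ≤ m) (hm5 : m ≤ 5)
    {A : MvPolynomial (Fin 2) ℝ} (hA : InRow L N A) (ε : ℝ) :
    InRow (2 * L + 4) (fun j => N (j / 2 - 2)) (logFoldO m ε A) :=
  fun d hd => (logFoldO_supp hN hm4 hm5 hA ε d hd).1

theorem contFam_logFoldF (m : ℕ) (A : MvPolynomial (Fin 2) ℝ) :
    ContFam fun ε => logFoldF m ε A := by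
  unfold logFoldF
  exact ContFam.mul (ContFam.pow (ContFam.add (ContFam.const _) (ContFam.mul
    (ContFam.C continuous_id) (ContFam.const _))) _) (contFam_zoomF A)

theorem logFoldF_zero (m : ℕ) (A : MvPolynomial (Fin 2) ℝ) : logFoldF m 0 A = A := by
  unfold logFoldF
  rw [ff_zoomF_zero]
  simp

theorem logFoldF_degree {D L m : ℕ} {N : ℕ → ℕ} (hL : 1 ≤ L) (hN : Antitone N)
    (hD : N 0 + 4 * L + 8 ≤ D) (hm5 : m ≤ 5) {A : MvPolynomial (Fin 2) ℝ} (hA : InRow L N A)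
    (ε : ℝ) : (logFoldF m ε A).totalDegree ≤ D := by
  unfold logFoldF
  have := ff_degree_mul (ff_degree_pow (ff_degree_lin ε) m) (ff_degree_zoomF hL hN hA ε)
  omega

theorem eval_logFoldO {m : ℕ} {ε s : ℝ} (hε : ε ≠ 0) (hs : s * s = 1)
    (A : MvPolynomial (Fin 2) ℝ) (x y : ℝ) :
    MvPolynomial.eval ![ε * x, s * (1 + ε * y)] (logFoldO m ε A) =
      s ^ m * ε * MvPolynomial.eval ![x, y] (logFoldF m ε A) := by
  unfold logFoldO logFoldF
  rw [map_mul, map_mul, map_mul (MvPolynomial.eval ![x, y]), ff_eval_zoomP hε hs]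
  simp only [map_mul, map_pow, map_add, map_one, MvPolynomial.eval_C, MvPolynomial.eval_X,
    Matrix.cons_val_one, Matrix.cons_val_fin_one]
  rw [mul_pow]
  ring

theorem logFold_arr {D : ℕ} {ε s : ℝ} (hε : 0 < ε) (hs : s * s = 1)
    {A B : MvPolynomial (Fin 2) ℝ} (hP : (logFoldO 5 ε A).totalDegree ≤ D)
    (hQ : (logFoldO 4 ε B).totalDegree ≤ D) (hP' : (logFoldF 5 ε A).totalDegree ≤ D)
    (hQ' : (logFoldF 4 ε B).totalDegree ≤ D)
    {T : Co D →L[ℝ] Co D}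
    (hT : ∀ (c : Co D) (x y : ℝ), pe (T c) x y = pe c (0 + ε * x) (s + (s * ε) * y)) :
    (((s * ε⁻¹) • T (arr D (logFoldO 5 ε A)), ε⁻¹ • T (arr D (logFoldO 4 ε B))) : Pr D) =
      (arr D (logFoldF 5 ε A), arr D (logFoldF 4 ε B)) := by
  have e1 : ∀ y : ℝ, s + (s * ε) * y = s * (1 + ε * y) := fun y => by ring
  apply Prod.ext
  · apply pe_injective
    intro x y
    simp only
    rw [pe_smul_fe, hT, ← eval_eq_pe _ hP, ← eval_eq_pe _ hP', zero_add, e1,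
      eval_logFoldO hε.ne' hs]
    have : s * ε⁻¹ * (s ^ 5 * ε * MvPolynomial.eval ![x, y] (logFoldF 5 ε A)) =
      (s * s) ^ 3 * (ε⁻¹ * ε) * MvPolynomial.eval ![x, y] (logFoldF 5 ε A) := by ring
    rw [this, hs, inv_mul_cancel₀ hε.ne', one_pow, one_mul, one_mul]
  · apply pe_injective
    intro x y
    simp only
    rw [pe_smul_fe, hT, ← eval_eq_pe _ hQ, ← eval_eq_pe _ hQ', zero_add, e1,
      eval_logFoldO hε.ne' hs]
    have : ε⁻¹ * (s ^ 4 * ε * MvPolynomial.eval ![x, y] (logFoldF 4 ε B)) =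
      (s * s) ^ 2 * (ε⁻¹ * ε) * MvPolynomial.eval ![x, y] (logFoldF 4 ε B) := by ring
    rw [this, hs, inv_mul_cancel₀ hε.ne', one_pow, one_mul, one_mul]

theorem exists_outer {D L M : ℕ} {N : ℕ → ℕ} (hL : 1 ≤ L) (hN : Antitone N)
    (hD : N 0 + 4 * L + 8 ≤ D) (hM : (M : ℕ∞) ≤ rowNumber L N) :
    ∃ (P Q : MvPolynomial (Fin 2) ℝ),
      (∀ d ∈ P.support, Odd (d 1) ∧ 5 ≤ d 1) ∧ (∀ d ∈ Q.support, Even (d 1) ∧ 4 ≤ d 1) ∧
      InRow (2 * L + 4) (fun j => N (j / 2 - 2)) P ∧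
      InRow (2 * L + 4) (fun j => N (j / 2 - 2)) Q ∧
      ∀ᶠ μ in 𝓝 ((arr D P, arr D Q) : Pr D), ∃ F : Finset (Set (ℝ × ℝ)), 2 * M ≤ F.card ∧
        ∀ C ∈ F, IsLimitCycle (vfc μ) C ∧ ∀ z ∈ C, 1 / 2 < |z.2| := by
  classical
  obtain ⟨A0, B0, hA0, hB0, F, hFc, hF⟩ := exists_of_le_rowNumber hM
  have hdA0 : A0.totalDegree ≤ D := (hA0.degree_le hN).trans (by omega)
  have hdB0 : B0.totalDegree ≤ D := (hB0.degree_le hN).trans (by omega)
  obtain ⟨s0, R, hrob⟩ := robust_poly hdA0 hdB0 F hF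
  obtain ⟨θ, hθ⟩ := hrob.exists
  set A := A0 - MvPolynomial.C (s0 * θ) * B0 with hA
  set B := B0 + MvPolynomial.C (s0 * θ) * A0 with hB
  have hAr : InRow L N A := by
    have : A = A0 + MvPolynomial.C (-(s0 * θ)) * B0 := by
      rw [hA, MvPolynomial.C_neg]; ring
    rw [this]
    exact hA0.add (hB0.C_mul _)
  have hBr : InRow L N B := hB0.add (hA0.C_mul _)
  obtain ⟨U, hU, hUo, hUm⟩ := eventually_nhds_iff.1 hθ
  have hN' : Antitone fun j => N (j / 2 - 2) := fun j j' h => hN (by omega)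
  have hdeg : ∀ R : MvPolynomial (Fin 2) ℝ, InRow (2 * L + 4) (fun j => N (j / 2 - 2)) R →
      R.totalDegree ≤ D := by
    intro R hR
    refine (hR.degree_le hN').trans ?_
    simp only [Nat.zero_div, Nat.zero_sub]
    omega
  -- the choice of ε
  have hc1 : Tendsto (fun ε : ℝ => ((arr D (logFoldF 5 ε A), arr D (logFoldF 4 ε B)) : Pr D))
      (𝓝[>] 0) (𝓝 (arr D A, arr D B)) := by
    have h1 := (contFam_logFoldF 5 A).tendsto_arr D
    have h2 := (contFam_logFoldF 4 B).tendsto_arr D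
    have h3 := (h1.prodMk h2).tendsto 0
    simp only [logFoldF_zero] at h3
    exact h3.mono_left nhdsWithin_le_nhds
  have hc2 : ∀ᶠ ε in 𝓝[>] (0 : ℝ), ε * R < 1 / 2 := by
    have h1 : Tendsto (fun ε : ℝ => ε * R) (𝓝[>] 0) (𝓝 0) := by
      have h2 : Continuous fun ε : ℝ => ε * R := by fun_prop
      have h3 := h2.tendsto 0
      rw [zero_mul] at h3
      exact h3.mono_left nhdsWithin_le_nhds
    exact h1.eventually (gt_mem_nhds (by norm_num))
  have hc3 : ∀ᶠ ε in 𝓝[>] (0 : ℝ), 0 < ε := self_mem_nhdsWithin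
  obtain ⟨ε, ⟨hεU, hεR⟩, hε⟩ := (((hc1.eventually (hUo.mem_nhds hUm)).and hc2).and hc3).exists
  have hPr := logFoldO_inRow hN (by norm_num) (by norm_num) (m := 5) hAr ε
  have hQr := logFoldO_inRow hN (by norm_num) (by norm_num) (m := 4) hBr ε
  refine ⟨logFoldO 5 ε A, logFoldO 4 ε B, ?_, ?_, hPr, hQr, ?_⟩
  · intro d hd
    have h := logFoldO_supp hN (by norm_num) (by norm_num) hAr ε d hd
    exact ⟨Nat.odd_iff.2 h.2.2, h.2.1⟩
  · intro d hd
    have h := logFoldO_supp hN (by norm_num) (by norm_num) hBr ε d hd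
    exact ⟨Nat.even_iff.2 h.2.2, h.2.1⟩
  have key : ∀ s : ℝ, s * s = 1 → ∀ᶠ μ in 𝓝 ((arr D (logFoldO 5 ε A),
      arr D (logFoldO 4 ε B)) : Pr D), ∃ F : Finset (Set (ℝ × ℝ)), M ≤ F.card ∧
        ∀ C ∈ F, IsLimitCycle (vfc μ) C ∧ ∀ z ∈ C, |z.2 - s| < 1 / 2 := by
    intro s hs
    obtain ⟨T, hT⟩ := exists_subArr D 0 ε s (s * ε)
    have h1 : Continuous (fun μ : Pr D => (((s * ε⁻¹) • T μ.1, ε⁻¹ • T μ.2) : Pr D)) := by
      fun_prop
    have h2 := (h1.tendsto (arr D (logFoldO 5 ε A), arr D (logFoldO 4 ε B)))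
    simp only at h2
    rw [logFold_arr hε hs (hdeg _ hPr) (hdeg _ hQr) (logFoldF_degree hL hN hD (by norm_num) hAr ε)
      (logFoldF_degree hL hN hD (by norm_num) hBr ε) hT] at h2
    filter_upwards [h2.eventually (hUo.mem_nhds hεU)] with μ hμ
    refine cycles_of_zoom hε hs hεR hT ?_
    have h3 := hU _ hμ
    rw [hFc] at h3
    exact h3
  filter_upwards [key 1 (by norm_num), key (-1) (by norm_num)] with μ h1 h2
  obtain ⟨F1, hF1c, hF1⟩ := h1
  obtain ⟨F2, hF2c, hF2⟩ := h2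
  have hdisj : Disjoint F1 F2 := by
    rw [Finset.disjoint_left]
    intro C hC hC'
    obtain ⟨z, hz⟩ := (hF1 C hC).1.1.nonempty'
    have h1 := (hF1 C hC).2 z hz
    have h2 := (hF2 C hC').2 z hz
    rw [abs_lt] at h1 h2
    linarith
  refine ⟨F1 ∪ F2, ?_, ?_⟩
  · rw [Finset.card_union_of_disjoint hdisj]
    omega
  · intro C hC
    rcases Finset.mem_union.1 hC with h | h
    · refine ⟨(hF1 C h).1, fun z hz => ?_⟩
      have h1 := (hF1 C h).2 z hz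
      rw [abs_lt] at h1
      exact lt_of_lt_of_le (by linarith) (le_abs_self _)
    · refine ⟨(hF2 C h).1, fun z hz => ?_⟩
      have h1 := (hF2 C h).2 z hz
      rw [abs_lt] at h1
      exact lt_of_lt_of_le (by linarith) (neg_le_abs _)

end Pool.Agent.Lib.MP_95e7ec_an
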