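import Mathlib
import Pool.Agent.Lib.MP_95e7ec_an.LogDefs
import Pool.Agent.Lib.MP_95e7ec_an.LogArr
import Pool.Agent.Lib.MP_95e7ec_an.FoldChartMap
import Pool.Agent.Lib.MP_95e7ec_an.FoldMono

/-!
# The limit cycles near the axis
-/

set_option autoImplicit false

open Set Filter Topology

namespace Pool.Agent.Lib.MP_95e7ec_an

theorem logNear_exp {D : ℕ} {P : MvPolynomial (Fin 2) ℝ} (p : ℕ → Prop)
    (h : ∀ d ∈ P.support, p (d 1)) {a b : Fin (D + 1)} (hne : arr D P a b ≠ 0) : p b := by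
  have h1 : (Finsupp.single 0 (a : ℕ) + Finsupp.single 1 (b : ℕ) : Fin 2 →₀ ℕ) ∈ P.support :=
    MvPolynomial.mem_support_iff.2 hne
  have h2 := h _ h1
  simpa using h2

/-- The field in the chart `y = β Y`. -/
noncomputable def logNear_q (D : ℕ) (f : Polynomial ℝ) (P Q : MvPolynomial (Fin 2) ℝ)
    (τ β : ℝ) : Pr D :=
  potArr D f + ((fun a b => arr D P a b * (β ^ (b : ℕ) * (1 / (τ * β)))),
    (fun a b => arr D Q a b * (β ^ (b : ℕ) * (1 / (τ * β ^ 2)))))

theorem logNear_rev {D : ℕ} (f : Polynomial ℝ) {P Q : MvPolynomial (Fin 2) ℝ}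
    (hPs : ∀ d ∈ P.support, Odd (d 1) ∧ 5 ≤ d 1) (hQs : ∀ d ∈ Q.support, Even (d 1) ∧ 4 ≤ d 1)
    (τ β : ℝ) : RevArr (logNear_q D f P Q τ β) := by
  have h0 := potArr_rev D f
  constructor
  · intro a b hb
    simp only [logNear_q, Prod.fst_add, Pi.add_apply]
    rw [h0.1 a b hb, zero_add]
    by_cases hne : arr D P a b = 0
    · rw [hne, zero_mul]
    · have := logNear_exp (fun k => Odd k ∧ 5 ≤ k) hPs hne
      exact absurd hb (Nat.not_even_iff_odd.2 this.1)
  · intro a b hb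
    simp only [logNear_q, Prod.snd_add, Pi.add_apply]
    rw [h0.2 a b hb, zero_add]
    by_cases hne : arr D Q a b = 0
    · rw [hne, zero_mul]
    · have := logNear_exp (fun k => Even k ∧ 4 ≤ k) hQs hne
      exact absurd this.1 (Nat.not_even_iff_odd.2 hb)

theorem logNear_lim (c τ : ℝ) (b k : ℕ) (h : c ≠ 0 → k < b) :
    Tendsto (fun β : ℝ => c * (β ^ b * (1 / (τ * β ^ k)))) (𝓝[>] 0) (𝓝 0) := by
  by_cases hc : c = 0
  · rw [hc]
    simp
  · have hb := h hc
    have h1 : Tendsto (fun β : ℝ => c * (β ^ (b - k) * (1 / τ))) (𝓝[>] 0) (𝓝 0) := by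
      have h2 : Continuous (fun β : ℝ => c * (β ^ (b - k) * (1 / τ))) := by fun_prop
      have h3 := (h2.tendsto 0).mono_left (nhdsWithin_le_nhds (s := Set.Ioi (0 : ℝ)))
      rwa [zero_pow (by omega), zero_mul, mul_zero] at h3
    refine h1.congr' ?_
    filter_upwards [self_mem_nhdsWithin] with β hβ
    have hβ0 : β ≠ 0 := ne_of_gt hβ
    have e1 : β ^ b = β ^ (b - k) * β ^ k := by
      rw [← pow_add]; congr 1; omega
    rw [e1]
    field_simp

theorem logNear_tendsto {D : ℕ} (f : Polynomial ℝ) {P Q : MvPolynomial (Fin 2) ℝ}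
    (hPs : ∀ d ∈ P.support, Odd (d 1) ∧ 5 ≤ d 1) (hQs : ∀ d ∈ Q.support, Even (d 1) ∧ 4 ≤ d 1)
    (τ : ℝ) : Tendsto (fun β => logNear_q D f P Q τ β) (𝓝[>] 0) (𝓝 (potArr D f)) := by
  have h1 : Tendsto (fun β : ℝ => (((fun a b => arr D P a b * (β ^ (b : ℕ) * (1 / (τ * β)))),
    (fun a b => arr D Q a b * (β ^ (b : ℕ) * (1 / (τ * β ^ 2))))) : Pr D)) (𝓝[>] 0)
      (𝓝 ((0 : Co D), (0 : Co D))) := by
    refine Tendsto.prodMk_nhds ?_ ?_
    · refine tendsto_pi_nhds.2 fun a => tendsto_pi_nhds.2 fun b => ?_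
      have := logNear_lim (arr D P a b) τ (b : ℕ) 1 (fun hne => by
        have := (logNear_exp (fun k => Odd k ∧ 5 ≤ k) hPs hne).2; omega)
      simp only [pow_one] at this
      exact this
    · refine tendsto_pi_nhds.2 fun a => tendsto_pi_nhds.2 fun b => ?_
      exact logNear_lim (arr D Q a b) τ (b : ℕ) 2 (fun hne => by
        have := (logNear_exp (fun k => Even k ∧ 4 ≤ k) hQs hne).2; omega)
  have h2 := h1.const_add (potArr D f)
  have h3 : potArr D f + ((0 : Co D), (0 : Co D)) = potArr D f := add_zero _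
  rw [h3] at h2
  exact h2

theorem logNear_pe {D : ℕ} (c : Co D) (k β x y : ℝ) :
    pe (fun a b => c a b * (β ^ (b : ℕ) * k)) x y = k * pe c x (β * y) := by
  simp only [pe, smul_eq_mul, Finset.mul_sum]
  refine Finset.sum_congr rfl fun a _ => Finset.sum_congr rfl fun b _ => ?_
  rw [mul_pow]; ring

theorem logNear_vfc {D : ℕ} {f : Polynomial ℝ} (hD : 1 ≤ D) (hf : f.natDegree ≤ D)
    {P Q : MvPolynomial (Fin 2) ℝ} (hP : P.totalDegree ≤ D) (hQ : Q.totalDegree ≤ D)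
    (τ β : ℝ) (z : ℝ × ℝ) :
    vfc (logNear_q D f P Q τ β) z =
      (-z.2 + 1 / (τ * β) * MvPolynomial.eval ![z.1, β * z.2] P,
        f.eval z.1 + 1 / (τ * β ^ 2) * MvPolynomial.eval ![z.1, β * z.2] Q) := by
  have h0 := vfc_potArr hf hD z
  simp only [vfc, Prod.mk.injEq] at h0
  simp only [vfc, logNear_q, Prod.fst_add, Prod.snd_add, pe_add_arr, logNear_pe]
  rw [h0.1, h0.2, eval_eq_pe P hP, eval_eq_pe Q hQ]

theorem logNear_pe_sum {D : ℕ} {ι : Type*} (s : Finset ι) (c : ι → Co D) (x y : ℝ) :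
    pe (∑ i ∈ s, c i) x y = ∑ i ∈ s, pe (c i) x y := by
  classical
  induction s using Finset.induction_on with
  | empty => simp [pe_zero_arr]
  | insert i s hi ih => rw [Finset.sum_insert hi, Finset.sum_insert hi, pe_add_arr, ih]

theorem logNear_vfc_pert {D m : ℕ} {G : ℕ → Polynomial ℝ}
    (hG : ∀ j < m, (G j).natDegree + (2 * j + 1) ≤ D) (z : ℝ × ℝ) :
    vfc (pertArr D m G) z =
      (0, ∑ j ∈ Finset.range m, (G j).eval z.1 * z.2 ^ (2 * j + 1)) := by
  simp only [vfc, pertArr, pe_zero_arr, logNear_pe_sum]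
  congr 1
  refine Finset.sum_congr rfl fun j hj => ?_
  have := hG j (Finset.mem_range.1 hj)
  rw [pe_polArr (by omega) (by omega)]
  simp [Polynomial.aeval_def]

theorem logNear_eval_xv (g : Polynomial ℝ) (β : ℕ) (x y : ℝ) :
    MvPolynomial.eval ![x, y] (xv g β) = g.eval x * y ^ β := by
  unfold xv
  rw [map_mul, map_pow, MvPolynomial.eval_X]
  congr 1
  have h1 : (MvPolynomial.eval ![x, y]) (Polynomial.aeval (MvPolynomial.X 0) g) =
      Polynomial.eval₂ ((MvPolynomial.eval ![x, y]).comp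
        (algebraMap ℝ (MvPolynomial (Fin 2) ℝ))) (MvPolynomial.eval ![x, y]
          (MvPolynomial.X 0)) g := by
    rw [Polynomial.aeval_def, Polynomial.hom_eval₂]
  rw [h1]
  have h2 : (MvPolynomial.eval ![x, y]).comp (algebraMap ℝ (MvPolynomial (Fin 2) ℝ)) =
      RingHom.id ℝ := by
    ext r; simp [MvPolynomial.algebraMap_eq]
  rw [h2, MvPolynomial.eval_X, Polynomial.eval₂_id]
  rfl

theorem near_axis {D m : ℕ} {P Q : MvPolynomial (Fin 2) ℝ} {f : Polynomial ℝ}
    {G : ℕ → Polynomial ℝ} (hD : 1 ≤ D) (hP : P.totalDegree ≤ D) (hQ : Q.totalDegree ≤ D)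
    (hPs : ∀ d ∈ P.support, Odd (d 1) ∧ 5 ≤ d 1) (hQs : ∀ d ∈ Q.support, Even (d 1) ∧ 4 ≤ d 1)
    (hf : f.natDegree ≤ D) (hG : ∀ j < m, (G j).natDegree + (2 * j + 1) ≤ D) {R : ℝ} {Z : ℕ}
    (h : RobZ (potArr D f) (pertArr D m G) R Z) {τ : ℝ} (hτ : 0 < τ) :
    ∀ᶠ β in 𝓝[>] (0 : ℝ), ∀ᶠ lam in 𝓝[>] (0 : ℝ), ∃ F : Finset (Set (ℝ × ℝ)), Z ≤ F.card ∧
      ∀ C ∈ F, IsLimitCycle (vf (P - MvPolynomial.C τ * MvPolynomial.X 1)
        (Q + MvPolynomial.C (τ * β ^ 2) * xv f 0 + MvPolynomial.C lam *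
          (MvPolynomial.C (τ * β ^ 2) * ∑ j ∈ Finset.range m,
            MvPolynomial.C (β⁻¹ ^ (2 * j + 1)) * xv (G j) (2 * j + 1)))) C ∧
        ∀ z ∈ C, |z.2| < 1 / 2 := by
  classical
  have hlim : Tendsto (fun β => ((logNear_q D f P Q τ β, pertArr D m G) : Pr D × Pr D)) (𝓝[>] 0)
      (𝓝 (potArr D f, pertArr D m G)) :=
    (logNear_tendsto f hPs hQs τ).prodMk_nhds tendsto_const_nhds
  have hsmall : ∀ᶠ β in 𝓝[>] (0 : ℝ), β * (|R| + 1) < 1 / 2 := by
    have h1 : Continuous (fun β : ℝ => β * (|R| + 1)) := by fun_prop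
    have h2 := (h1.tendsto 0).mono_left (nhdsWithin_le_nhds (s := Set.Ioi (0 : ℝ)))
    rw [zero_mul] at h2
    exact h2.eventually (gt_mem_nhds (by norm_num))
  filter_upwards [hlim.eventually h, hsmall, self_mem_nhdsWithin] with β h1 h2 hβ
  have hβ0 : 0 < β := hβ
  have hβne : β ≠ 0 := hβ0.ne'
  have hτne : τ ≠ 0 := hτ.ne'
  filter_upwards [h1 (logNear_rev f hPs hQs τ β)] with lam hlam
  obtain ⟨F', hF'c, hF'⟩ := hlam
  set φ : ℝ × ℝ → ℝ × ℝ := fun z => (0 + 1 * z.1, 0 + β * z.2) with hφ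
  have hinj : Function.Injective φ := by
    intro z w hzw
    simp only [hφ, Prod.mk.injEq, zero_add, one_mul] at hzw
    exact Prod.ext hzw.1 (mul_left_cancel₀ hβne hzw.2)
  refine ⟨F'.image (fun C => φ '' C), ?_, ?_⟩
  · rw [Finset.card_image_of_injective _ (Set.image_injective.2 hinj)]
    exact hF'c
  · intro C hC
    obtain ⟨C', hC', rfl⟩ := Finset.mem_image.1 hC
    obtain ⟨h3, h4⟩ := hF' C' hC'
    refine ⟨?_, ?_⟩
    · refine IsLimitCycle.chart 0 0 1 β (1 / (τ * β)) one_ne_zero hβne (by positivity) ?_ h3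
      intro z
      have e0 : vfc (logNear_q D f P Q τ β + lam • pertArr D m G) z =
          ((vfc (logNear_q D f P Q τ β) z).1 + lam * (vfc (pertArr D m G) z).1,
            (vfc (logNear_q D f P Q τ β) z).2 + lam * (vfc (pertArr D m G) z).2) := by
        simp only [vfc, Prod.fst_add, Prod.snd_add, Prod.smul_fst, Prod.smul_snd, pe_add_arr,
          pe_smul_arr, smul_eq_mul]
      rw [e0, logNear_vfc hD hf hP hQ, logNear_vfc_pert hG]
      simp only [vf, zero_add, one_mul, map_sub, map_add, map_mul, map_sum, MvPolynomial.eval_C,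
        MvPolynomial.eval_X, logNear_eval_xv, Matrix.cons_val_zero, Matrix.cons_val_one, pow_zero,
        mul_one, div_one, mul_zero, add_zero]
      have e1 : ∑ j ∈ Finset.range m, β⁻¹ ^ (2 * j + 1) *
          (Polynomial.eval z.1 (G j) * (β * z.2) ^ (2 * j + 1)) =
          ∑ j ∈ Finset.range m, Polynomial.eval z.1 (G j) * z.2 ^ (2 * j + 1) := by
        refine Finset.sum_congr rfl fun j _ => ?_
        have e2 : β⁻¹ ^ (2 * j + 1) * (β * z.2) ^ (2 * j + 1) = z.2 ^ (2 * j + 1) := by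
          rw [← mul_pow, ← mul_assoc, inv_mul_cancel₀ hβne, one_mul]
        linear_combination (Polynomial.eval z.1 (G j)) * e2
      rw [e1]
      apply Prod.ext
      · simp only
        field_simp
        ring
      · simp only
        field_simp
        ring
    · rintro z ⟨w, hw, rfl⟩
      have h5 := h4 hw
      rw [mem_ball_zero_iff] at h5
      have h6 : |w.2| < R := lt_of_le_of_lt (norm_snd_le w) h5
      simp only [hφ, zero_add, abs_mul, abs_of_pos hβ0]
      calc β * |w.2| ≤ β * (|R| + 1) := by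
            apply mul_le_mul_of_nonneg_left _ hβ0.le
            linarith [le_abs_self R]
        _ < 1 / 2 := h2

end Pool.Agent.Lib.MP_95e7ec_an
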