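import Mathlib
import Pool.Agent.Lib.MP_95e7ec_an.LogDefs
import Pool.Agent.Lib.MP_95e7ec_an.FoldChartMap
import Pool.Agent.Lib.MP_95e7ec_an.LogArr

/-!
# The outer limit cycles of a perturbed potential field (task F7)
-/

set_option autoImplicit false

open Set Filter Topology

namespace Pool.Agent.Lib.MP_95e7ec_an

/-- a function with positive derivative at a zero is positive on the right of it -/
private theorem logOuter_pos {g : ℝ → ℝ} {g' : ℝ} (hg : HasDerivAt g g' 0) (h0 : g 0 = 0)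
    (hpos : 0 < g') : ∀ᶠ lam in 𝓝[>] (0 : ℝ), 0 < g lam := by
  have h1 := hasDerivAt_iff_tendsto_slope.1 hg
  have h2 : ∀ᶠ lam in 𝓝[≠] (0 : ℝ), 0 < slope g 0 lam := h1.eventually (lt_mem_nhds hpos)
  have h3 : ∀ᶠ lam in 𝓝[>] (0 : ℝ), 0 < slope g 0 lam :=
    h2.filter_mono (nhdsWithin_mono _ fun x hx => ne_of_gt hx)
  filter_upwards [h3, self_mem_nhdsWithin] with lam hl hlam
  have hlam' : (0 : ℝ) < lam := hlam
  rw [slope_def_field, h0, sub_zero, sub_zero] at hl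
  exact (div_pos_iff_of_pos_right hlam').1 hl

/-- the derivative of the displacement along `lam ↦ wArr a b (μ + lam ν)` -/
private theorem logOuter_sign {D d : ℕ} (Ch : OvalChart D d) {μ ν : Pr D} {a b s : ℝ}
    (hmem : wArr a b μ ∈ Ch.nbhd) (hμ : RevArr μ)
    (hs : 0 < s * fderiv ℝ Ch.disp (wArr a b μ) (wArr a b ν)) :
    ∀ᶠ lam in 𝓝[>] (0 : ℝ), 0 < s * Ch.disp (wArr a b (μ + lam • ν)) := by
  have hfun : (fun lam : ℝ => wArr a b (μ + lam • ν)) =
      fun lam : ℝ => wArr a b μ + lam • wArr a b ν := by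
    funext lam
    rw [wArr_add, wArr_smul]
  have hd : HasFDerivAt Ch.disp (fderiv ℝ Ch.disp (wArr a b μ)) (wArr a b μ) :=
    (Ch.analytic _ hmem).differentiableAt.hasFDerivAt
  have hline : HasDerivAt (fun lam : ℝ => wArr a b (μ + lam • ν)) (wArr a b ν) 0 := by
    rw [hfun]
    have h3 := ((hasDerivAt_id (0 : ℝ)).smul_const (wArr a b ν)).const_add (wArr a b μ)
    simpa using h3
  have hm0 : wArr a b (μ + (0 : ℝ) • ν) = wArr a b μ := by
    rw [zero_smul, add_zero]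
  have hd' : HasFDerivAt Ch.disp (fderiv ℝ Ch.disp (wArr a b μ)) (wArr a b (μ + (0 : ℝ) • ν)) := by
    rw [hm0]; exact hd
  have hcomp : HasDerivAt (fun lam : ℝ => s * Ch.disp (wArr a b (μ + lam • ν)))
      (s * fderiv ℝ Ch.disp (wArr a b μ) (wArr a b ν)) 0 :=
    (hd'.comp_hasDerivAt (0 : ℝ) hline).const_mul _
  refine logOuter_pos hcomp ?_ hs
  rw [hm0, Ch.rev _ hmem (wArr_rev hμ a b), mul_zero]

/-- continuity of `q ↦ fderiv disp (wArr a b q.1) (wArr a b q.2)` -/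
private theorem logOuter_cont {D d : ℕ} (Ch : OvalChart D d) {S ω : Pr D} {a b s : ℝ}
    (hb : b ≠ 0) (hmem : wArr a b S ∈ Ch.nbhd)
    (hs : 0 < s * fderiv ℝ Ch.disp (wArr a b S) (wArr a b ω)) :
    ∀ᶠ q in 𝓝 ((S, ω) : Pr D × Pr D), wArr a b q.1 ∈ Ch.nbhd ∧
      0 < s * fderiv ℝ Ch.disp (wArr a b q.1) (wArr a b q.2) := by
  have hw : ∀ μ : Pr D, ContinuousAt (fun μ : Pr D => wArr a b μ) μ := by
    intro μ
    have h1 := continuousAt_wArr (a := a) hb μ
    exact ContinuousAt.comp (g := fun p : (ℝ × ℝ) × Pr D => wArr p.1.1 p.1.2 p.2)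
      (f := fun μ : Pr D => (((a, b), μ) : (ℝ × ℝ) × Pr D)) h1 (by fun_prop)
  have h1 : ContinuousAt (fun q : Pr D × Pr D => wArr a b q.1) (S, ω) :=
    ContinuousAt.comp (g := fun μ : Pr D => wArr a b μ) (f := fun q : Pr D × Pr D => q.1)
      (hw S) continuousAt_fst
  have h2 : ContinuousAt (fun q : Pr D × Pr D => wArr a b q.2) (S, ω) :=
    ContinuousAt.comp (g := fun μ : Pr D => wArr a b μ) (f := fun q : Pr D × Pr D => q.2)
      (hw ω) continuousAt_snd
  have h3 : ContinuousAt (fderiv ℝ Ch.disp) (wArr a b S) :=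
    ((Ch.analytic.fderiv) _ hmem).continuousAt
  have h4 : ContinuousAt (fun q : Pr D × Pr D => fderiv ℝ Ch.disp (wArr a b q.1)) (S, ω) :=
    ContinuousAt.comp (g := fderiv ℝ Ch.disp) (f := fun q : Pr D × Pr D => wArr a b q.1) h3 h1
  have h5 : ContinuousAt (fun q : Pr D × Pr D =>
      s * fderiv ℝ Ch.disp (wArr a b q.1) (wArr a b q.2)) (S, ω) :=
    continuousAt_const.mul (h4.clm_apply h2)
  have h6 : ∀ᶠ q in 𝓝 ((S, ω) : Pr D × Pr D), wArr a b q.1 ∈ Ch.nbhd :=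
    h1.eventually_mem (Ch.isOpen.mem_nhds hmem)
  exact h6.and (h5.eventually (lt_mem_nhds hs))

theorem outer_cycles {D d : ℕ} (Ch : OvalChart D d) {S ω : Pr D} {κ : ℝ} (hκ : 0 < κ) {J : ℕ}
    (a : ℕ → ℝ) (ha : StrictMono a) (ha0 : 0 < a 0)
    (hnb : ∀ r ∈ Set.Icc (a 0) (a J), wArr r (κ * r ^ d) S ∈ Ch.nbhd)
    (hsgn : ∀ l ≤ J, 0 < (-1) ^ l * fderiv ℝ Ch.disp (wArr (a l) (κ * a l ^ d) S)
      (wArr (a l) (κ * a l ^ d) ω)) :
    ∃ R : ℝ, ∀ᶠ q in 𝓝 ((S, ω) : Pr D × Pr D), RevArr q.1 → ∀ᶠ lam in 𝓝[>] (0 : ℝ),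
      ∃ F : Finset (Set (ℝ × ℝ)), J ≤ F.card ∧ ∀ C ∈ F, IsLimitCycle (vfc (q.1 + lam • q.2)) C ∧
        C ⊆ Metric.ball 0 R ∧ ∃ z ∈ C, a 0 < z.1 := by
  have hpos : ∀ l, 0 < a l := fun l => lt_of_lt_of_le ha0 (ha.monotone (Nat.zero_le l))
  have hle : ∀ l ≤ J, a l ≤ a J := fun l hl => ha.monotone hl
  have hbpos : ∀ r : ℝ, 0 < r → 0 < κ * r ^ d := fun r hr => mul_pos hκ (pow_pos hr d)
  -- (1) the family stays in the neighbourhood
  have h1 : ∀ᶠ p in 𝓝 (((S, ω), (0 : ℝ)) : (Pr D × Pr D) × ℝ), ∀ r ∈ Set.Icc (a 0) (a J),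
      wArr r (κ * r ^ d) (p.1.1 + p.2 • p.1.2) ∈ Ch.nbhd := by
    refine isCompact_Icc.eventually_forall_of_forall_eventually
      (P := fun (p : (Pr D × Pr D) × ℝ) r =>
        wArr r (κ * r ^ d) (p.1.1 + p.2 • p.1.2) ∈ Ch.nbhd) ?_
    intro r hr
    have hr0 : 0 < r := lt_of_lt_of_le ha0 hr.1
    have hcw := continuousAt_wArr (a := r) (hbpos r hr0).ne' S
    have hmap : ContinuousAt (fun z : ((Pr D × Pr D) × ℝ) × ℝ =>
        (((z.2, κ * z.2 ^ d), z.1.1.1 + z.1.2 • z.1.1.2) : (ℝ × ℝ) × Pr D))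
        (((S, ω), (0 : ℝ)), r) := by fun_prop
    have hcomp : ContinuousAt (fun z : ((Pr D × Pr D) × ℝ) × ℝ =>
        wArr z.2 (κ * z.2 ^ d) (z.1.1.1 + z.1.2 • z.1.1.2)) (((S, ω), (0 : ℝ)), r) := by
      refine ContinuousAt.comp (g := fun p : (ℝ × ℝ) × Pr D => wArr p.1.1 p.1.2 p.2)
        (f := fun z : ((Pr D × Pr D) × ℝ) × ℝ =>
        (((z.2, κ * z.2 ^ d), z.1.1.1 + z.1.2 • z.1.1.2) : (ℝ × ℝ) × Pr D)) ?_ hmap
      simp only [zero_smul, add_zero]
      exact hcw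
    refine hcomp.eventually_mem (Ch.isOpen.mem_nhds ?_)
    simp only [zero_smul, add_zero]
    exact hnb r hr
  have h1' : ∀ᶠ q in 𝓝 ((S, ω) : Pr D × Pr D), ∀ᶠ lam in 𝓝 (0 : ℝ),
      ∀ r ∈ Set.Icc (a 0) (a J), wArr r (κ * r ^ d) (q.1 + lam • q.2) ∈ Ch.nbhd :=
    h1.curry_nhds
  -- (2) the signs
  have h2 : ∀ᶠ q in 𝓝 ((S, ω) : Pr D × Pr D), ∀ l ∈ Finset.range (J + 1),
      wArr (a l) (κ * a l ^ d) q.1 ∈ Ch.nbhd ∧
      0 < (-1) ^ l * fderiv ℝ Ch.disp (wArr (a l) (κ * a l ^ d) q.1)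
        (wArr (a l) (κ * a l ^ d) q.2) := by
    rw [Filter.eventually_all_finset]
    intro l hl
    have hl' : l ≤ J := by have := Finset.mem_range.1 hl; omega
    refine logOuter_cont Ch (hbpos _ (hpos l)).ne' (hnb _ ⟨?_, hle l hl'⟩) (hsgn l hl')
    exact ha.monotone (Nat.zero_le l)
  refine ⟨2 * a J + 2 * (κ * a J ^ d) + 1, ?_⟩
  filter_upwards [h1', h2] with q hq1 hq2 hrev
  have h3 : ∀ᶠ lam in 𝓝[>] (0 : ℝ), ∀ l ∈ Finset.range (J + 1),
      0 < (-1) ^ l * Ch.disp (wArr (a l) (κ * a l ^ d) (q.1 + lam • q.2)) := by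
    rw [Filter.eventually_all_finset]
    intro l hl
    exact logOuter_sign Ch (hq2 l hl).1 hrev (hq2 l hl).2
  filter_upwards [hq1.filter_mono nhdsWithin_le_nhds, h3] with lam hlam1 hlam2
  set m : ℝ → Pr D := fun r => wArr r (κ * r ^ d) (q.1 + lam • q.2) with hm
  -- (3) the limit cycles
  have h4 : ∀ l : ℕ, l < J → ∃ r ∈ Set.Ioo (a l) (a (l + 1)), ∃ C : Set (ℝ × ℝ),
      IsLimitCycle (vfc (m r)) C ∧ ((1 : ℝ), (0 : ℝ)) ∈ C ∧
      (∀ X : ℝ, 0 < X → (X, (0 : ℝ)) ∈ C → X = 1) ∧ C ⊆ Metric.ball 0 2 := by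
    intro l hl
    refine Ch.cycles m (a l) (a (l + 1)) (hpos l) (ha (by omega)) ?_ ?_ ?_ ?_
    · intro r hr
      exact hlam1 r ⟨(ha.monotone (Nat.zero_le l)).trans hr.1,
        hr.2.trans (ha.monotone (by omega))⟩
    · intro r hr
      exact analyticAt_wArr hκ.ne' d (lt_of_lt_of_le (hpos l) hr.1) _
    · intro r s hr hs
      simp only [hm]
      rw [wArr_wArr (pow_pos hs d).ne' (hbpos r hr).ne']
      congr 1
      rw [mul_pow]
      ring
    · have e1 := hlam2 l (Finset.mem_range.2 (by omega))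
      have e2 := hlam2 (l + 1) (Finset.mem_range.2 (by omega))
      have e3 := mul_pos e1 e2
      have e4 : ((-1 : ℝ) ^ l * Ch.disp (m (a l))) *
          ((-1) ^ (l + 1) * Ch.disp (m (a (l + 1)))) =
          -(Ch.disp (m (a l)) * Ch.disp (m (a (l + 1)))) := by
        rw [pow_succ]
        have e5 : ((-1 : ℝ) ^ l) * ((-1) ^ l) = 1 := by
          rw [← pow_add, ← two_mul, pow_mul]; norm_num
        linear_combination (-(Ch.disp (m (a l)) * Ch.disp (m (a (l + 1))))) * e5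
      simp only [hm] at e4 ⊢
      rw [e4] at e3
      linarith
  choose! r hr C hC hC1 hCX hCb using h4
  set φ : ℕ → ℝ × ℝ → ℝ × ℝ := fun l z => (0 + r l * z.1, 0 + (κ * r l ^ d) * z.2) with hφ
  have hrpos : ∀ l < J, 0 < r l := fun l hl => (hpos l).trans (hr l hl).1
  have hrα : ∀ l < J, r l < a J := fun l hl =>
    lt_of_lt_of_le (hr l hl).2 (hle (l + 1) hl)
  -- (4) transport
  have h5 : ∀ l < J, IsLimitCycle (vfc (q.1 + lam • q.2)) (φ l '' C l) := by
    intro l hl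
    have hr0 : r l ≠ 0 := (hrpos l hl).ne'
    have hb0 : κ * r l ^ d ≠ 0 := (hbpos _ (hrpos l hl)).ne'
    refine IsLimitCycle.chart (w := vfc (m (r l))) 0 0 (r l) (κ * r l ^ d) (r l / (κ * r l ^ d))
      hr0 hb0 (div_ne_zero hr0 hb0) ?_ (hC l hl)
    intro z
    simp only [hm]
    rw [vfc_wArr hb0]
    simp only [zero_add]
    refine Prod.ext ?_ ?_
    · simp only
      field_simp
    · simp only
      field_simp
  -- (5) they are distinct
  have h6 : ∀ l < J, ∀ x : ℝ, 0 < x → ((x, (0 : ℝ)) ∈ φ l '' C l ↔ x = r l) := by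
    intro l hl x hx
    have hr0 := hrpos l hl
    have hb0 := hbpos _ hr0
    constructor
    · rintro ⟨z, hz, hzx⟩
      simp only [hφ, Prod.mk.injEq, zero_add] at hzx
      obtain ⟨hz1, hz2⟩ := hzx
      have hz20 : z.2 = 0 := by
        rcases mul_eq_zero.1 hz2 with h | h
        · exact absurd h hb0.ne'
        · exact h
      have hz10 : 0 < z.1 := by
        rw [← hz1] at hx
        exact (mul_pos_iff_of_pos_left hr0).1 hx
      have h7 : z = (z.1, (0 : ℝ)) := Prod.ext rfl hz20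
      rw [h7] at hz
      have h8 := hCX l hl z.1 hz10 hz
      rw [h8] at hz1
      linarith
    · intro h
      refine ⟨(1, 0), hC1 l hl, ?_⟩
      simp only [hφ]
      rw [h]
      simp
  have hinj : Set.InjOn (fun l => φ l '' C l) (Finset.range J : Set ℕ) := by
    intro l hl l' hl' heq
    simp only [Finset.coe_range, Set.mem_Iio] at hl hl'
    have hx := hrpos l hl
    have h7 : (r l, (0 : ℝ)) ∈ φ l '' C l := (h6 l hl _ hx).2 rfl
    simp only at heq
    rw [heq, h6 l' hl' _ hx] at h7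
    have h8 := hr l hl
    have h9 := hr l' hl'
    rw [h7] at h8
    rcases lt_trichotomy l l' with h | h | h
    · have : a (l + 1) ≤ a l' := ha.monotone (by omega)
      have := h8.2
      have := h9.1
      linarith
    · exact h
    · have : a (l' + 1) ≤ a l := ha.monotone (by omega)
      have := h8.1
      have := h9.2
      linarith
  classical
  refine ⟨(Finset.range J).image fun l => φ l '' C l, ?_, ?_⟩
  · rw [Finset.card_image_of_injOn hinj, Finset.card_range]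
  · intro E hE
    obtain ⟨l, hl, rfl⟩ := Finset.mem_image.1 hE
    rw [Finset.mem_range] at hl
    have hr0 := hrpos l hl
    have hrl := hrα l hl
    have haJ : 0 < a J := hpos J
    refine ⟨h5 l hl, ?_, (r l, 0), (h6 l hl _ hr0).2 rfl, ?_⟩
    · rintro _ ⟨z, hz, rfl⟩
      have h7 := hCb l hl hz
      rw [Metric.mem_ball, dist_zero_right] at h7
      have h8 : |z.1| < 2 := lt_of_le_of_lt (norm_fst_le z) h7
      have h9 : |z.2| < 2 := lt_of_le_of_lt (norm_snd_le z) h7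
      have hbb : κ * r l ^ d ≤ κ * a J ^ d :=
        mul_le_mul_of_nonneg_left (pow_le_pow_left₀ hr0.le hrl.le d) hκ.le
      have hb0 := hbpos _ hr0
      have hbJ := hbpos _ haJ
      rw [Metric.mem_ball, dist_zero_right]
      simp only [hφ, zero_add]
      rw [Prod.norm_def, max_lt_iff, Real.norm_eq_abs, Real.norm_eq_abs, abs_mul, abs_mul,
        abs_of_pos hr0, abs_of_pos hb0]
      constructor
      · nlinarith [mul_le_mul hrl.le h8.le (abs_nonneg _) haJ.le]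
      · nlinarith [mul_le_mul hbb h9.le (abs_nonneg _) hbJ.le]
    · have h7 : a 0 ≤ a l := ha.monotone (Nat.zero_le l)
      exact lt_of_le_of_lt h7 (hr l hl).1

end Pool.Agent.Lib.MP_95e7ec_an
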