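import Mathlib
import Pool.Agent.Lib.MP_95e7ec_an.LogDefs
import Pool.Agent.Lib.MP_95e7ec_an.FoldVand
import Pool.Agent.Lib.MP_95e7ec_an.LogArr

/-!
# The sign pattern of the first order displacement
-/

set_option autoImplicit false

open Set Filter Topology

namespace Pool.Agent.Lib.MP_95e7ec_an

/-- `wArr` as a linear map. -/
noncomputable def logPattern_w (D : ℕ) (a b : ℝ) : Pr D →ₗ[ℝ] Pr D where
  toFun := wArr a b
  map_add' := wArr_add a b
  map_smul' r μ := wArr_smul a b r μ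

theorem logPattern_w_apply {D : ℕ} (a b : ℝ) (μ : Pr D) : logPattern_w D a b μ = wArr a b μ := rfl

theorem logPattern_polArr_sum {D : ℕ} {ι : Type*} (s : Finset ι) (g : ι → Polynomial ℝ) (β : ℕ) :
    polArr D (∑ i ∈ s, g i) β = ∑ i ∈ s, polArr D (g i) β := by
  classical
  induction s using Finset.induction_on with
  | empty =>
    funext a b
    simp [polArr]
  | insert i s hi ih => rw [Finset.sum_insert hi, Finset.sum_insert hi, polArr_add, ih]

/-- a linear functional on a perturbation, composed with `wArr` -/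
theorem logPattern_apply {D m : ℕ} (φ : Pr D →L[ℝ] ℝ) (a b : ℝ) (G : ℕ → Polynomial ℝ) :
    φ (wArr a b (pertArr D m G)) = ∑ j ∈ Finset.range m,
      φ (wArr a b ((0, polArr D (G j) (2 * j + 1)) : Pr D)) := by
  have h1 : pertArr D m G = ∑ j ∈ Finset.range m, ((0, polArr D (G j) (2 * j + 1)) : Pr D) := by
    rw [pertArr]
    have := map_sum (LinearMap.inr ℝ (Co D) (Co D)) (fun j => polArr D (G j) (2 * j + 1))
      (Finset.range m)
    simp only [LinearMap.inr_apply] at this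
    exact this
  rw [h1, ← logPattern_w_apply, map_sum, map_sum]
  rfl

theorem logPattern_apply_mono {D : ℕ} (φ : Pr D →L[ℝ] ℝ) (a b : ℝ) {ι : Type*} (s : Finset ι)
    (c : ι → ℝ) (e : ι → ℕ) (β : ℕ) :
    φ (wArr a b ((0, ∑ i ∈ s, c i • monoArr D (e i) β) : Pr D)) =
      ∑ i ∈ s, c i * ((a ^ (e i) * b ^ β * a / b ^ 2) * φ ((0, monoArr D (e i) β) : Pr D)) := by
  have h1 : ((0, ∑ i ∈ s, c i • monoArr D (e i) β) : Pr D) =
      ∑ i ∈ s, c i • ((0, monoArr D (e i) β) : Pr D) := by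
    have := map_sum (LinearMap.inr ℝ (Co D) (Co D)) (fun i => c i • monoArr D (e i) β) s
    simp only [LinearMap.inr_apply] at this
    rw [this]
    refine Finset.sum_congr rfl fun i _ => ?_
    simp
  rw [h1, ← logPattern_w_apply, map_sum, map_sum]
  refine Finset.sum_congr rfl fun i _ => ?_
  rw [map_smul, logPattern_w_apply, wArr_mono, map_smul, map_smul, smul_eq_mul, smul_eq_mul]

theorem deriv_odd_zero {D d m : ℕ} (Ch : OvalChart D d) (hm : 2 * m ≤ D) {f : Polynomial ℝ}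
    (hf : f.natDegree ≤ D) (hodd : ∀ k, Even k → f.coeff k = 0) {G : ℕ → Polynomial ℝ}
    (hG : ∀ j < m, (G j).natDegree ≤ D) (hGodd : ∀ j < m, ∀ k, Even k → (G j).coeff k = 0)
    {a b : ℝ} (hb : b ≠ 0) (hnb : wArr a b (potArr D f) ∈ Ch.nbhd) :
    fderiv ℝ Ch.disp (wArr a b (potArr D f)) (wArr a b (pertArr D m G)) = 0 := by
  rw [logPattern_apply]
  apply Finset.sum_eq_zero
  intro j hj
  have hj' : j < m := Finset.mem_range.1 hj
  rw [polArr_eq_sum, logPattern_apply_mono]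
  apply Finset.sum_eq_zero
  intro i hi
  rw [Polynomial.mem_support_iff] at hi
  have hiodd : Odd i := by
    rw [← Nat.not_even_iff_odd]
    intro h
    exact hi (hGodd j hj' i h)
  obtain ⟨i', rfl⟩ := hiodd
  have hle : 2 * i' + 1 ≤ D := (Polynomial.le_natDegree_of_ne_zero hi).trans (hG j hj')
  set f' := Polynomial.C (a / b ^ 2) * f.comp (Polynomial.C a * Polynomial.X) with hf'
  have hw : wArr a b (potArr D f) = potArr D f' := wArr_potArr hb f
  rw [hw] at hnb ⊢
  have hdeg : f'.natDegree ≤ D := by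
    refine (Polynomial.natDegree_C_mul_le _ _).trans ?_
    refine (Polynomial.natDegree_comp_le).trans ?_
    calc f.natDegree * (Polynomial.C a * Polynomial.X).natDegree ≤ f.natDegree * 1 :=
          Nat.mul_le_mul_left _ ((Polynomial.natDegree_C_mul_le _ _).trans
            Polynomial.natDegree_X_le)
      _ ≤ D := by rw [mul_one]; exact hf
  have hcoeff : ∀ k, Even k → f'.coeff k = 0 := by
    intro k hk
    rw [hf', Polynomial.coeff_C_mul, Polynomial.comp_C_mul_X_coeff, hodd k hk]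
    ring
  rw [Ch.deriv_sym f' i' j hdeg hcoeff hle (by omega) hnb]
  ring

/-- the determinant of a matrix whose entries tend to those of a generalised Vandermonde matrix -/
theorem logPattern_det {n : ℕ} (Ex : Fin n → ℕ) (hEx : Function.Injective Ex) (c : Fin n → ℝ)
    (hc : ∀ s, c s ≠ 0) (φ : ℝ → Fin n → Fin n → ℝ)
    (hφ : ∀ l s, Tendsto (fun A => φ A l s) atTop (𝓝 (c s))) :
    ∀ᶠ A in atTop, (Matrix.of fun l s : Fin n => ((l : ℝ) + 1) ^ Ex s * φ A l s).det ≠ 0 := by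
  have hlim : Tendsto (fun A => (Matrix.of fun l s : Fin n => ((l : ℝ) + 1) ^ Ex s * φ A l s).det)
      atTop (𝓝 (Matrix.of fun l s : Fin n => ((l : ℝ) + 1) ^ Ex s * c s).det) := by
    have h1 : Tendsto (fun A => (Matrix.of fun l s : Fin n => ((l : ℝ) + 1) ^ Ex s * φ A l s))
        atTop (𝓝 (Matrix.of fun l s : Fin n => ((l : ℝ) + 1) ^ Ex s * c s)) := by
      refine tendsto_pi_nhds.2 fun l => tendsto_pi_nhds.2 fun s => ?_
      exact (hφ l s).const_mul _
    exact (Continuous.tendsto (Continuous.matrix_det continuous_id) _).comp h1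
  have hne : (Matrix.of fun l s : Fin n => ((l : ℝ) + 1) ^ Ex s * c s).det ≠ 0 := by
    have h1 : (Matrix.of fun l s : Fin n => ((l : ℝ) + 1) ^ Ex s * c s) =
        Matrix.of fun l s : Fin n => c s * (Matrix.of fun l s : Fin n =>
          ((l : ℝ) + 1) ^ Ex s) l s := by
      ext l s
      simp [mul_comm]
    rw [h1, Matrix.det_mul_row]
    refine mul_ne_zero (Finset.prod_ne_zero_iff.2 fun s _ => hc s) ?_
    exact det_genVandermonde_ne_zero (fun l : Fin n => (l : ℝ) + 1) (fun l => by positivity)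
      (fun l l' h => by
        apply Fin.ext
        have : (l : ℝ) = l' := by simpa using h
        exact_mod_cast this) Ex hEx
  exact hlim.eventually_ne hne

theorem exists_pattern {D d m : ℕ} (Ch : OvalChart D d) (hd : 1 ≤ d) (hD : 2 * d ≤ D + 1)
    (hm : 2 * m ≤ D) {f : Polynomial ℝ} (hf : f.natDegree + 1 = 2 * d)
    (hlc : 0 < f.leadingCoeff) (Dg : ℕ → ℕ) (hDg : ∀ j < m, Dg j ≤ d) (A0 : ℝ) :
    ∃ (κ : ℝ) (a : ℕ → ℝ) (E : ℕ → Polynomial ℝ), 0 < κ ∧ StrictMono a ∧ A0 < a 0 ∧ 0 < a 0 ∧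
      (∀ j, (E j).degree < ((2 * Dg j : ℕ) : WithBot ℕ)) ∧
      (∀ r, a 0 ≤ r → wArr r (κ * r ^ d) (potArr D f) ∈ Ch.nbhd) ∧
      ∀ l < ∑ j ∈ Finset.range m, Dg j,
        0 < (-1) ^ l * fderiv ℝ Ch.disp (wArr (a l) (κ * a l ^ d) (potArr D f))
          (wArr (a l) (κ * a l ^ d) (pertArr D m E)) := by
  classical
  set S : ℝ → Pr D := fun r => wArr r (Real.sqrt f.leadingCoeff * r ^ d) (potArr D f) with hS
  set κ := Real.sqrt f.leadingCoeff with hκ
  have hκ0 : 0 < κ := Real.sqrt_pos.2 hlc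
  have hlim : Tendsto S atTop (𝓝 (homArr D d)) := tendsto_wArr_hom hd hD hf hlc
  have hnb : ∀ᶠ r in atTop, S r ∈ Ch.nbhd := hlim.eventually (Ch.isOpen.mem_nhds Ch.mem)
  obtain ⟨A1, hA1⟩ := eventually_atTop.1 hnb
  -- indices
  set n := ∑ j : Fin m, Dg j with hn
  have hnr : ∑ j ∈ Finset.range m, Dg j = n := by rw [hn, Finset.sum_range]
  let σ : (Σ j : Fin m, Fin (Dg j)) ≃ Fin n := finSigmaFinEquiv
  let jj : Fin n → ℕ := fun s => ((σ.symm s).1 : ℕ)
  let ii : Fin n → ℕ := fun s => ((σ.symm s).2 : ℕ)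
  have hjj : ∀ s, jj s < m := fun s => (σ.symm s).1.2
  have hii : ∀ s, ii s < Dg (jj s) := fun s => (σ.symm s).2.2
  have hiid : ∀ s, ii s < d := fun s => (hii s).trans_le (hDg _ (hjj s))
  let Ex : Fin n → ℕ := fun s => 2 * ii s + 1 + 2 * jj s * d
  have hEx : Function.Injective Ex := by
    intro s s' h
    have h1 : ii s + jj s * d = ii s' + jj s' * d := by
      have : 2 * ii s + 1 + 2 * jj s * d = 2 * ii s' + 1 + 2 * jj s' * d := h
      nlinarith
    have h2 : jj s = jj s' := by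
      have e1 := congrArg (fun x => x / d) h1
      simp only [Nat.add_mul_div_right _ _ hd, Nat.div_eq_of_lt (hiid s),
        Nat.div_eq_of_lt (hiid s')] at e1
      omega
    have h3 : ii s = ii s' := by rw [h2] at h1; omega
    apply σ.symm.injective
    have h4 : (σ.symm s).1 = (σ.symm s').1 := Fin.ext h2
    refine Sigma.ext h4 ?_
    refine (Fin.heq_ext_iff (by rw [h4])).2 h3
  let mo : Fin n → Pr D := fun s => (0, monoArr D (2 * ii s) (2 * jj s + 1))
  let c : Fin n → ℝ := fun s => fderiv ℝ Ch.disp (homArr D d) (mo s)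
  have hc : ∀ s, c s ≠ 0 := by
    intro s
    have h1 := hiid s
    have h2 := hjj s
    exact Ch.deriv_ne (ii s) (jj s) (by omega) (by omega)
  let φ : ℝ → Fin n → Fin n → ℝ := fun A l s => fderiv ℝ Ch.disp (S (A * ((l : ℝ) + 1))) (mo s)
  have hφ : ∀ l s, Tendsto (fun A => φ A l s) atTop (𝓝 (c s)) := by
    intro l s
    have h1 : ContinuousAt (fderiv ℝ Ch.disp) (homArr D d) :=
      (Ch.analytic _ Ch.mem).fderiv.continuousAt
    have h2 : Tendsto (fun A : ℝ => A * ((l : ℝ) + 1)) atTop atTop :=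
      tendsto_id.atTop_mul_const (by positivity)
    have h3 := (h1.tendsto.comp (hlim.comp h2))
    exact ((ContinuousLinearMap.apply ℝ ℝ (mo s)).continuous.tendsto _).comp h3
  have hdet := logPattern_det Ex hEx c hc φ hφ
  obtain ⟨A, hAdet, hAbig⟩ := (hdet.and (eventually_gt_atTop (max (max A0 A1) 0))).exists
  have hA0 : A0 < A := lt_of_le_of_lt ((le_max_left _ _).trans (le_max_left _ _)) hAbig
  have hA1' : A1 < A := lt_of_le_of_lt ((le_max_right _ _).trans (le_max_left _ _)) hAbig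
  have hApos : 0 < A := lt_of_le_of_lt (le_max_right _ _) hAbig
  set Mt : Matrix (Fin n) (Fin n) ℝ :=
    Matrix.of fun l s : Fin n => ((l : ℝ) + 1) ^ Ex s * φ A l s with hMt
  have hunit : IsUnit Mt.det := isUnit_iff_ne_zero.2 hAdet
  let v : Fin n → ℝ := fun l => (-1) ^ (l : ℕ)
  let g : Fin n → ℝ := Mt⁻¹.mulVec v
  have hg : Mt.mulVec g = v := by
    simp only [g, Matrix.mulVec_mulVec, Matrix.mul_nonsing_inv _ hunit, Matrix.one_mulVec]
  -- column factors
  let col : Fin n → ℝ := fun s =>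
    A ^ (2 * ii s) * (κ * A ^ d) ^ (2 * jj s + 1) * A / (κ * A ^ d) ^ 2
  have hcol : ∀ s, col s ≠ 0 := by
    intro s
    have h1 : κ * A ^ d ≠ 0 := by positivity
    have : 0 < col s := by
      simp only [col]
      positivity
    exact this.ne'
  let e : (Σ j : Fin m, Fin (Dg j)) → ℝ := fun t => g (σ t) / col (σ t)
  let E : ℕ → Polynomial ℝ := fun j =>
    if h : j < m then ∑ i : Fin (Dg j), Polynomial.C (e ⟨⟨j, h⟩, i⟩) * Polynomial.X ^ (2 * (i : ℕ))
    else 0
  refine ⟨κ, fun l => A * ((l : ℝ) + 1), E, hκ0, ?_, ?_, ?_, ?_, ?_, ?_⟩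
  · intro l l' h
    have h2 : (l : ℝ) < l' := by exact_mod_cast h
    have : A * ((l : ℝ) + 1) < A * ((l' : ℝ) + 1) := by gcongr
    exact this
  · simpa using hA0
  · simpa using hApos
  · intro j
    simp only [E]
    split_ifs with h
    · rw [← Polynomial.mem_degreeLT]
      refine Submodule.sum_mem _ fun i _ => ?_
      rw [Polynomial.mem_degreeLT]
      refine lt_of_le_of_lt (Polynomial.degree_C_mul_X_pow_le _ _) ?_
      have : 2 * (i : ℕ) < 2 * Dg j := by have := i.2; omega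
      exact_mod_cast this
    · rw [Polynomial.degree_zero]
      exact WithBot.bot_lt_coe _
  · intro r hr
    refine hA1 r ?_
    have : A * (((0 : ℕ) : ℝ) + 1) ≤ r := hr
    simp only [Nat.cast_zero, zero_add, mul_one] at this
    linarith
  · intro l hl
    rw [hnr] at hl
    set x : ℝ := (l : ℝ) + 1 with hx
    have hx0 : 0 < x := by positivity
    have hval : fderiv ℝ Ch.disp (wArr (A * x) (κ * (A * x) ^ d) (potArr D f))
        (wArr (A * x) (κ * (A * x) ^ d) (pertArr D m E)) = (x ^ d)⁻¹ * (-1) ^ l := by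
      rw [logPattern_apply]
      have hS' : wArr (A * x) (κ * (A * x) ^ d) (potArr D f) = S (A * x) := rfl
      rw [hS', Finset.sum_range]
      have h1 : ∀ j : Fin m, fderiv ℝ Ch.disp (S (A * x)) (wArr (A * x) (κ * (A * x) ^ d)
          ((0, polArr D (E j) (2 * (j : ℕ) + 1)) : Pr D)) =
          ∑ i : Fin (Dg j), (x ^ d)⁻¹ * (Mt ⟨l, hl⟩ (σ ⟨j, i⟩) * g (σ ⟨j, i⟩)) := by
        intro j
        have h2 : E j = ∑ i : Fin (Dg j), Polynomial.C (e ⟨j, i⟩) *
            Polynomial.X ^ (2 * (i : ℕ)) := by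
          simp only [E]
          rw [dif_pos j.2]
        rw [h2, logPattern_polArr_sum]
        have h3 : ∀ i : Fin (Dg j), polArr D (Polynomial.C (e ⟨j, i⟩) *
            Polynomial.X ^ (2 * (i : ℕ))) (2 * (j : ℕ) + 1) =
            e ⟨j, i⟩ • monoArr D (2 * (i : ℕ)) (2 * (j : ℕ) + 1) := by
          intro i
          rw [polArr_C_mul, polArr_X_pow]
        rw [Finset.sum_congr rfl fun i _ => h3 i, logPattern_apply_mono]
        refine Finset.sum_congr rfl fun i _ => ?_
        have hσ : σ.symm (σ ⟨j, i⟩) = ⟨j, i⟩ := σ.symm_apply_apply _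
        have hjs : jj (σ ⟨j, i⟩) = j := by simp only [jj, hσ]
        have his : ii (σ ⟨j, i⟩) = i :=
          congrArg (fun t : (Σ j : Fin m, Fin (Dg j)) => (t.2 : ℕ)) hσ
        have hM : Mt ⟨l, hl⟩ (σ ⟨j, i⟩) = x ^ (2 * (i : ℕ) + 1 + 2 * (j : ℕ) * d) *
            fderiv ℝ Ch.disp (S (A * x))
              ((0, monoArr D (2 * (i : ℕ)) (2 * (j : ℕ) + 1)) : Pr D) := by
          simp only [hMt, Matrix.of_apply, φ, mo, Ex, hjs, his]
          rfl
        rw [hM]
        set F := fderiv ℝ Ch.disp (S (A * x))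
              ((0, monoArr D (2 * (i : ℕ)) (2 * (j : ℕ) + 1)) : Pr D) with hF
        have he : e ⟨j, i⟩ = g (σ ⟨j, i⟩) / (A ^ (2 * (i : ℕ)) *
            (κ * A ^ d) ^ (2 * (j : ℕ) + 1) * A / (κ * A ^ d) ^ 2) := by
          simp only [e, col, hjs, his]
        rw [he]
        have hAne : A ≠ 0 := hApos.ne'
        have hκne : κ ≠ 0 := hκ0.ne'
        have hxne : x ≠ 0 := hx0.ne'
        have hB : A ^ d ≠ 0 := pow_ne_zero _ hAne
        have hY : x ^ d ≠ 0 := pow_ne_zero _ hxne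
        have hxp : x ^ (2 * (i : ℕ) + 1 + 2 * (j : ℕ) * d) =
            x ^ (2 * (i : ℕ)) * x * (x ^ d) ^ (2 * (j : ℕ)) := by
          rw [pow_add, pow_add, pow_one, ← pow_mul x d]
          congr 2
          ring
        rw [hxp, mul_pow A x d]
        set B := A ^ d with hBdef
        set Y := x ^ d with hYdef
        have e1 : (A * x) ^ (2 * (i : ℕ)) = A ^ (2 * (i : ℕ)) * x ^ (2 * (i : ℕ)) := mul_pow _ _ _
        have e2 : (κ * (B * Y)) ^ (2 * (j : ℕ) + 1) =
            (κ * B) ^ (2 * (j : ℕ) + 1) * (Y ^ (2 * (j : ℕ)) * Y) := by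
          rw [← mul_assoc, mul_pow (κ * B) Y, pow_succ Y]
        rw [e1, e2]
        have hK : (κ * B) ^ (2 * (j : ℕ) + 1) ≠ 0 := pow_ne_zero _ (mul_ne_zero hκne hB)
        have hAi : A ^ (2 * (i : ℕ)) ≠ 0 := pow_ne_zero _ hAne
        field_simp
      rw [Finset.sum_congr rfl fun j _ => h1 j]
      have h4 : ∑ j : Fin m, ∑ i : Fin (Dg j), (x ^ d)⁻¹ * (Mt ⟨l, hl⟩ (σ ⟨j, i⟩) *
          g (σ ⟨j, i⟩)) = ∑ s : Fin n, (x ^ d)⁻¹ * (Mt ⟨l, hl⟩ s * g s) := by
        rw [← σ.sum_comp, Fintype.sum_sigma]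
      rw [h4, ← Finset.mul_sum]
      congr 1
      exact congrFun hg ⟨l, hl⟩
    change 0 < (-1) ^ l * fderiv ℝ Ch.disp (wArr (A * x) (κ * (A * x) ^ d) (potArr D f))
          (wArr (A * x) (κ * (A * x) ^ d) (pertArr D m E))
    rw [hval]
    have h1 : (-1 : ℝ) ^ l * ((x ^ d)⁻¹ * (-1) ^ l) = (x ^ d)⁻¹ := by
      have : (-1 : ℝ) ^ l * (-1) ^ l = 1 := by
        rw [← mul_pow]; norm_num
      linear_combination (x ^ d)⁻¹ * this
    rw [h1]
    positivity

end Pool.Agent.Lib.MP_95e7ec_an
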