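import Mathlib
import Pool.Agent.Lib.MP_95e7ec_an.LogArr
import Pool.Agent.Lib.MP_95e7ec_an.LogChart
import Pool.Agent.Lib.MP_95e7ec_an.LogPattern
import Pool.Agent.Lib.MP_95e7ec_an.LogOuter
import Pool.Agent.Lib.MP_95e7ec_an.LogCopies
import Pool.Agent.Lib.MP_95e7ec_an.LogHilbert

/-!
# Doubling the degree of a potential field
-/

set_option autoImplicit false

open Set Filter Topology

namespace Pool.Agent.Lib.MP_95e7ec_an

theorem Has.mono {D : ℕ} {μ : Pr D} {R R' : ℝ} {Z : ℕ} (h : Has μ R Z) (hR : R ≤ R') :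
    Has μ R' Z := by
  obtain ⟨F, hF, hF'⟩ := h
  exact ⟨F, hF, fun C hC => ⟨(hF' C hC).1, (hF' C hC).2.trans (Metric.ball_subset_ball hR)⟩⟩

theorem RobZ.mono {D : ℕ} {S ω : Pr D} {R R' : ℝ} {Z : ℕ} (h : RobZ S ω R Z) (hR : R ≤ R') :
    RobZ S ω R' Z := by
  filter_upwards [h] with q hq hrev
  filter_upwards [hq hrev] with lam hlam
  exact hlam.mono hR

theorem Has.lt {D : ℕ} {μ : Pr D} {R : ℝ} {Z : ℕ} (h : Has μ R Z) : ∃ F : Finset (Set (ℝ × ℝ)),
    Z ≤ F.card ∧ ∀ C ∈ F, IsLimitCycle (vfc μ) C ∧ C ⊆ Metric.ball 0 R ∧ ∀ z ∈ C, z.1 < R := by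
  obtain ⟨F, hF, hF'⟩ := h
  refine ⟨F, hF, fun C hC => ⟨(hF' C hC).1, (hF' C hC).2, fun z hz => ?_⟩⟩
  have h1 := (hF' C hC).2 hz
  rw [mem_ball_zero_iff] at h1
  exact lt_of_le_of_lt (le_abs_self _) (lt_of_le_of_lt (norm_fst_le z) h1)

theorem x_fold {D m e Z : ℕ} {f : Polynomial ℝ} {G : ℕ → Polynomial ℝ} {Dg : ℕ → ℕ} {R : ℝ}
    (hf : f.natDegree + 1 = e) (hlc : 0 < f.leadingCoeff) (hm : 2 * m ≤ D) (hD : 2 * e ≤ D + 1)
    (hG : ∀ j, (G j).degree < (Dg j : WithBot ℕ)) (hDg : ∀ j < m, Dg j ≤ e)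
    (h : RobZ (potArr D f) (pertArr D m G) R Z) :
    ∃ (f' : Polynomial ℝ) (G' : ℕ → Polynomial ℝ) (R' : ℝ), f'.natDegree + 1 = 2 * e ∧
      0 < f'.leadingCoeff ∧ (∀ j, (G' j).degree < ((2 * Dg j : ℕ) : WithBot ℕ)) ∧
      RobZ (potArr D f') (pertArr D m G') R' (2 * Z + (∑ j ∈ Finset.range m, Dg j - 1)) := by
  classical
  have hf0 : f ≠ 0 := by rintro rfl; simp at hlc
  have hnG : ∀ j < m, (G j).natDegree < e ∨ G j = 0 := by
    intro j hj
    rcases eq_or_ne (G j) 0 with h0 | h0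
    · exact Or.inr h0
    · left
      have h1 := (Polynomial.natDegree_lt_iff_degree_lt h0).2 (hG j)
      exact lt_of_lt_of_le h1 (hDg j hj)
  have hnG' : ∀ j < m, 2 * (G j).natDegree + 1 ≤ D := by
    intro j hj
    rcases hnG j hj with h1 | h1
    · omega
    · rw [h1]; simp; omega
  have hcop := two_copies (by omega) hnG' hm h
  obtain ⟨σ, R1, hσ⟩ := hcop.exists
  set f' := dbl σ f with hf'
  set G1 : ℕ → Polynomial ℝ := fun j => dbl σ (G j) with hG1
  have hnf' : f'.natDegree + 1 = 2 * e := by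
    rw [hf', natDegree_dbl σ hf0]; omega
  have hlf' : 0 < f'.leadingCoeff := by
    rw [hf', leadingCoeff_dbl]; positivity
  have hG1d : ∀ j, (G1 j).degree < ((2 * Dg j : ℕ) : WithBot ℕ) := fun j =>
    degree_dbl_lt σ (hG j)
  rcases Nat.eq_zero_or_pos (∑ j ∈ Finset.range m, Dg j) with hs | hs
  · refine ⟨f', G1, R1, hnf', hlf', hG1d, ?_⟩
    rw [hs]
    exact hσ
  have he : 1 ≤ e := by omega
  obtain ⟨Ch⟩ := exists_ovalChart (D := D) (d := e) he hD
  obtain ⟨κ, a, E, hκ, ha, haR, ha0, hE, hnb, hsgn⟩ := exists_pattern Ch he hD hm hnf' hlf' Dg hDg R1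
  -- the choice of the size of `E`
  have hev : ∀ᶠ δ in 𝓝[>] (0 : ℝ), RobZ (potArr D f')
      (pertArr D m (fun j => G1 j + Polynomial.C δ * E j)) R1 (2 * Z) := by
    have h1 := eventually_eventually_nhds.2 hσ
    have h2 : Tendsto (fun δ : ℝ => ((potArr D f',
        pertArr D m (fun j => G1 j + Polynomial.C δ * E j)) : Pr D × Pr D)) (𝓝[>] 0)
        (𝓝 (potArr D f', pertArr D m G1)) := by
      have h3 : Continuous fun δ : ℝ => ((potArr D f',
          pertArr D m G1 + δ • pertArr D m E) : Pr D × Pr D) := by fun_prop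
      have h4 := (h3.tendsto 0).mono_left (nhdsWithin_le_nhds (s := Set.Ioi (0 : ℝ)))
      simp only [zero_smul, add_zero] at h4
      refine h4.congr fun δ => ?_
      rw [pertArr_add D m G1 (fun j => Polynomial.C δ * E j), pertArr_C_mul]
    exact h2.eventually h1
  obtain ⟨δ, hδR, hδ⟩ := (hev.and self_mem_nhdsWithin).exists
  have hδ0 : (0 : ℝ) < δ := hδ
  set G' : ℕ → Polynomial ℝ := fun j => G1 j + Polynomial.C δ * E j with hG'
  have hG'd : ∀ j, (G' j).degree < ((2 * Dg j : ℕ) : WithBot ℕ) := by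
    intro j
    refine lt_of_le_of_lt (Polynomial.degree_add_le _ _) (max_lt (hG1d j) ?_)
    refine lt_of_le_of_lt ?_ (hE j)
    calc (Polynomial.C δ * E j).degree ≤ (Polynomial.C δ).degree + (E j).degree :=
          Polynomial.degree_mul_le _ _
      _ ≤ 0 + (E j).degree := by
          gcongr
          exact Polynomial.degree_C_le
      _ = (E j).degree := zero_add _
  have hG'arr : pertArr D m G' = pertArr D m G1 + δ • pertArr D m E := by
    rw [hG', pertArr_add D m G1 (fun j => Polynomial.C δ * E j), pertArr_C_mul]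
  set J := ∑ j ∈ Finset.range m, Dg j - 1 with hJ
  have hsgn' : ∀ l ≤ J, 0 < (-1) ^ l * fderiv ℝ Ch.disp (wArr (a l) (κ * a l ^ e) (potArr D f'))
      (wArr (a l) (κ * a l ^ e) (pertArr D m G')) := by
    intro l hl
    have hal : 0 < a l := lt_of_lt_of_le ha0 (ha.monotone (Nat.zero_le l))
    have hb : κ * a l ^ e ≠ 0 := by positivity
    have h1 : fderiv ℝ Ch.disp (wArr (a l) (κ * a l ^ e) (potArr D f'))
        (wArr (a l) (κ * a l ^ e) (pertArr D m G1)) = 0 := by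
      refine deriv_odd_zero (f := f') Ch hm (by omega) (fun k hk => coeff_dbl_even σ f hk) ?_ ?_ hb
        (hnb _ (ha.monotone (Nat.zero_le l)))
      · intro j hj
        rcases eq_or_ne (G1 j) 0 with h0 | h0
        · rw [h0]; simp
        · have h2 := (Polynomial.natDegree_lt_iff_degree_lt h0).2 (hG1d j)
          have h3 := hDg j hj
          omega
      · intro j _ k hk
        exact coeff_dbl_even σ (G j) hk
    rw [hG'arr, wArr_add, wArr_smul, map_add, map_smul, h1, zero_add, smul_eq_mul]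
    have h2 := hsgn l (by omega)
    have h3 : (-1 : ℝ) ^ l * (δ * fderiv ℝ Ch.disp (wArr (a l) (κ * a l ^ e) (potArr D f'))
        (wArr (a l) (κ * a l ^ e) (pertArr D m E))) = δ * ((-1) ^ l *
        fderiv ℝ Ch.disp (wArr (a l) (κ * a l ^ e) (potArr D f'))
        (wArr (a l) (κ * a l ^ e) (pertArr D m E))) := by ring
    rw [h3]
    exact mul_pos hδ0 h2
  obtain ⟨R2, hR2⟩ := outer_cycles Ch hκ (J := J) a ha ha0 (fun r hr => hnb r hr.1) hsgn'
  refine ⟨f', G', max R1 R2, hnf', hlf', hG'd, ?_⟩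
  filter_upwards [hδR, hR2] with q hq1 hq2 hrev
  filter_upwards [hq1 hrev, hq2 hrev] with lam hl1 hl2
  obtain ⟨F1, hF1c, hF1⟩ := hl1.lt
  obtain ⟨F2, hF2c, hF2⟩ := hl2
  have hdisj : Disjoint F1 F2 := by
    rw [Finset.disjoint_left]
    intro C hC hC'
    obtain ⟨z, hz, hz'⟩ := (hF2 C hC').2.2
    have h1 := (hF1 C hC).2.2 z hz
    linarith
  refine ⟨F1 ∪ F2, ?_, ?_⟩
  · rw [Finset.card_union_of_disjoint hdisj]
    omega
  · intro C hC
    rcases Finset.mem_union.1 hC with h1 | h1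
    · exact ⟨(hF1 C h1).1, (hF1 C h1).2.1.trans (Metric.ball_subset_ball (le_max_left _ _))⟩
    · exact ⟨(hF2 C h1).1, (hF2 C h1).2.1.trans (Metric.ball_subset_ball (le_max_right _ _))⟩

theorem exists_sub {D m e : ℕ} {Dg : ℕ → ℕ} (he : 1 ≤ e) (hm : 2 * m ≤ D)
    (hDg : ∀ j < m, Dg j ≤ e) (k : ℕ) (hD : 2 ^ k * e ≤ D + 1) :
    ∃ (f : Polynomial ℝ) (G : ℕ → Polynomial ℝ) (R : ℝ), f.natDegree + 1 = 2 ^ k * e ∧
      0 < f.leadingCoeff ∧ (∀ j, (G j).degree < ((2 ^ k * Dg j : ℕ) : WithBot ℕ)) ∧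
      RobZ (potArr D f) (pertArr D m G) R (subZ (∑ j ∈ Finset.range m, Dg j) k) := by
  induction k with
  | zero =>
    refine ⟨Polynomial.X ^ (e - 1), fun _ => 0, 0, ?_, ?_, ?_, ?_⟩
    · rw [Polynomial.natDegree_X_pow]; omega
    · simp
    · intro j
      rw [Polynomial.degree_zero]
      exact WithBot.bot_lt_coe _
    · refine Filter.Eventually.of_forall fun q _ => Filter.Eventually.of_forall fun lam => ?_
      exact ⟨∅, by simp [subZ], by simp⟩
  | succ k ih =>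
    have h2 : 2 ^ (k + 1) * e = 2 * (2 ^ k * e) := by ring
    obtain ⟨f, G, R, hf, hlc, hG, hR⟩ := ih (by omega)
    obtain ⟨f', G', R', hf', hlc', hG', hR'⟩ := x_fold (Dg := fun j => 2 ^ k * Dg j) hf hlc hm
      (by omega) hG (fun j hj => Nat.mul_le_mul_left _ (hDg j hj)) hR
    refine ⟨f', G', R', by omega, hlc', ?_, ?_⟩
    · intro j
      have h3 := hG' j
      have h4 : 2 * (2 ^ k * Dg j) = 2 ^ (k + 1) * Dg j := by ring
      rwa [h4] at h3
    · rw [subZ]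
      rw [← Finset.mul_sum] at hR'
      exact hR'

end Pool.Agent.Lib.MP_95e7ec_an
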