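import Mathlib
import Pool.Agent.Lib.MP_95e7ec_an.LogSub
import Pool.Agent.Lib.MP_95e7ec_an.LogFold
import Pool.Agent.Lib.MP_95e7ec_an.LogNear
import Pool.Agent.Lib.MP_95e7ec_an.FoldFam
import Pool.Agent.Lib.MP_95e7ec_an.FoldRow

/-!
# The fold theorem with potential fields near the axis
-/

set_option autoImplicit false

open Set Filter Topology

namespace Pool.Agent.Lib.MP_95e7ec_an

/-- The perturbation near the axis. -/
noncomputable def nearPert (m : ℕ) (G : ℕ → Polynomial ℝ) (τ β : ℝ) : MvPolynomial (Fin 2) ℝ :=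
  MvPolynomial.C (τ * β ^ 2) * ∑ j ∈ Finset.range m,
    MvPolynomial.C (β⁻¹ ^ (2 * j + 1)) * xv (G j) (2 * j + 1)

theorem logMain_X1_inRow {L : ℕ} {N : ℕ → ℕ} (hL : 2 ≤ L) :
    InRow L N (MvPolynomial.X 1 : MvPolynomial (Fin 2) ℝ) := by
  intro d hd
  rw [MvPolynomial.mem_support_iff, MvPolynomial.coeff_X, ne_eq, ite_eq_right_iff,
    Classical.not_imp] at hd
  obtain ⟨h1, -⟩ := hd
  rw [← h1]
  constructor
  · simp; omega
  · simp

theorem fold2_aux {D L M Z : ℕ} {N : ℕ → ℕ} (hL : 1 ≤ L) (hN : Antitone N)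
    (hD : N 0 + 4 * L + 8 ≤ D)
    (hM : (M : ℕ∞) ≤ rowNumber L N) {f : Polynomial ℝ} {G : ℕ → Polynomial ℝ} {R : ℝ}
    (hf : f.natDegree ≤ N 0) (hG : ∀ j < L + 2, (G j).natDegree ≤ N (j - 2))
    (hZ : RobZ (potArr D f) (pertArr D (L + 2) G) R Z) :
    ((2 * M + Z : ℕ) : ℕ∞) ≤ rowNumber (2 * L + 4) (fun j => N (j / 2 - 2)) := by
  classical
  have hN' : Antitone fun j => N (j / 2 - 2) := fun j j' h => hN (by omega)
  obtain ⟨P, Q, hPs, hQs, hPr, hQr, hev⟩ := exists_outer hL hN hD hM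
  have hdeg : ∀ T : MvPolynomial (Fin 2) ℝ, InRow (2 * L + 4) (fun j => N (j / 2 - 2)) T →
      T.totalDegree ≤ D := by
    intro T hT
    refine (hT.degree_le hN').trans ?_
    simp only [Nat.zero_div, Nat.zero_sub]
    omega
  have hNle : ∀ j, N (j - 2) ≤ N 0 := fun j => hN (Nat.zero_le _)
  -- the choice of τ
  have hτev : ∀ᶠ τ in 𝓝[>] (0 : ℝ), ∀ᶠ μ in 𝓝 ((arr D (P - MvPolynomial.C τ * MvPolynomial.X 1),
      arr D Q) : Pr D), ∃ F : Finset (Set (ℝ × ℝ)), 2 * M ≤ F.card ∧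
        ∀ C ∈ F, IsLimitCycle (vfc μ) C ∧ ∀ z ∈ C, 1 / 2 < |z.2| := by
    have h1 := eventually_eventually_nhds.2 hev
    have h2 : Tendsto (fun τ : ℝ => ((arr D (P - MvPolynomial.C τ * MvPolynomial.X 1),
        arr D Q) : Pr D)) (𝓝[>] 0) (𝓝 (arr D P, arr D Q)) := by
      have h3 : Continuous fun τ : ℝ => ((arr D P - τ • arr D (MvPolynomial.X 1),
        arr D Q) : Pr D) := by fun_prop
      have h4 := (h3.tendsto 0).mono_left (nhdsWithin_le_nhds (s := Set.Ioi (0 : ℝ)))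
      simp only [zero_smul, sub_zero] at h4
      refine h4.congr fun τ => ?_
      rw [arr_sub, arr_C_mul]
    exact h2.eventually h1
  obtain ⟨τ, hτ1, hτ⟩ := (hτev.and self_mem_nhdsWithin).exists
  have hτ0 : (0 : ℝ) < τ := hτ
  set P' := P - MvPolynomial.C τ * MvPolynomial.X 1 with hP'
  -- the choice of β
  have hβev : ∀ᶠ β in 𝓝[>] (0 : ℝ), ∀ᶠ μ in 𝓝 ((arr D P',
      arr D (Q + MvPolynomial.C (τ * β ^ 2) * xv f 0)) : Pr D),
      ∃ F : Finset (Set (ℝ × ℝ)), 2 * M ≤ F.card ∧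
        ∀ C ∈ F, IsLimitCycle (vfc μ) C ∧ ∀ z ∈ C, 1 / 2 < |z.2| := by
    have h1 := eventually_eventually_nhds.2 hτ1
    have h2 : Tendsto (fun β : ℝ => ((arr D P',
        arr D (Q + MvPolynomial.C (τ * β ^ 2) * xv f 0)) : Pr D)) (𝓝[>] 0)
        (𝓝 (arr D P', arr D Q)) := by
      have h3 : Continuous fun β : ℝ => ((arr D P',
        arr D Q + (τ * β ^ 2) • arr D (xv f 0)) : Pr D) := by fun_prop
      have h4 := (h3.tendsto 0).mono_left (nhdsWithin_le_nhds (s := Set.Ioi (0 : ℝ)))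
      have e0 : τ * (0 : ℝ) ^ 2 = 0 := by ring
      simp only [e0, zero_smul, add_zero] at h4
      refine h4.congr fun β => ?_
      rw [arr_add, arr_C_mul]
    exact h2.eventually h1
  have hnear := near_axis (m := L + 2) (G := G) (by omega) (hdeg P hPr) (hdeg Q hQr) hPs hQs
    (by omega) (fun j hj => by have := hG j hj; have := hNle j; omega) hZ hτ0
  obtain ⟨β, hβ1, hβ2⟩ := (hβev.and hnear).exists
  set Q' := Q + MvPolynomial.C (τ * β ^ 2) * xv f 0 with hQ'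
  set p := nearPert (L + 2) G τ β with hp
  have hlev : ∀ᶠ lam in 𝓝[>] (0 : ℝ), ∃ F : Finset (Set (ℝ × ℝ)), 2 * M ≤ F.card ∧
        ∀ C ∈ F, IsLimitCycle (vfc ((arr D P', arr D (Q' + MvPolynomial.C lam * p)) : Pr D)) C ∧
          ∀ z ∈ C, 1 / 2 < |z.2| := by
    have h2 : Tendsto (fun lam : ℝ => ((arr D P',
        arr D (Q' + MvPolynomial.C lam * p)) : Pr D)) (𝓝[>] 0)
        (𝓝 (arr D P', arr D Q')) := by
      have h3 : Continuous fun lam : ℝ => ((arr D P', arr D Q' + lam • arr D p) : Pr D) := by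
        fun_prop
      have h4 := (h3.tendsto 0).mono_left (nhdsWithin_le_nhds (s := Set.Ioi (0 : ℝ)))
      simp only [zero_smul, add_zero] at h4
      refine h4.congr fun lam => ?_
      rw [arr_add Q', arr_C_mul]
    exact h2.eventually hβ1
  obtain ⟨lam, ⟨F1, hF1c, hF1⟩, ⟨F2, hF2c, hF2⟩⟩ := (hlev.and hβ2).exists
  -- the classes
  have hP'r : InRow (2 * L + 4) (fun j => N (j / 2 - 2)) P' := by
    have : P' = P + MvPolynomial.C (-τ) * MvPolynomial.X 1 := by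
      rw [hP', MvPolynomial.C_neg]; ring
    rw [this]
    exact hPr.add ((logMain_X1_inRow (by omega)).C_mul _)
  have hQ'r : InRow (2 * L + 4) (fun j => N (j / 2 - 2)) Q' := by
    refine hQr.add (InRow.C_mul ?_ _)
    exact FoldRow.inRow_xv (by omega) (by simpa using hf)
  have hpr : InRow (2 * L + 4) (fun j => N (j / 2 - 2)) p := by
    refine InRow.C_mul (InRow.sum _ fun j hj => InRow.C_mul ?_ _) _
    have hj' : j < L + 2 := Finset.mem_range.1 hj
    refine FoldRow.inRow_xv (by omega) ?_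
    have h1 := hG j hj'
    have h2 : (2 * j + 1) / 2 - 2 = j - 2 := by omega
    rw [h2]
    exact h1
  have hQ''r : InRow (2 * L + 4) (fun j => N (j / 2 - 2)) (Q' + MvPolynomial.C lam * p) :=
    hQ'r.add (hpr.C_mul _)
  rw [← vf_eq_vfc (hdeg _ hP'r) (hdeg _ hQ''r)] at hF1
  have hdisj : Disjoint F1 F2 := by
    rw [Finset.disjoint_left]
    intro C hC hC'
    obtain ⟨z, hz⟩ := (hF1 C hC).1.1.nonempty'
    have h1 := (hF1 C hC).2 z hz
    have h2 := (hF2 C hC').2 z hz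
    linarith
  have hcard : 2 * M + Z ≤ (F1 ∪ F2).card := by
    rw [Finset.card_union_of_disjoint hdisj]
    omega
  refine le_trans (by exact_mod_cast hcard) (le_rowNumber hP'r hQ''r (F1 ∪ F2) ?_)
  intro C hC
  rcases Finset.mem_union.1 hC with h | h
  · exact (hF1 C h).1
  · exact (hF2 C h).1

theorem fold2_le {L k : ℕ} {N : ℕ → ℕ} (hL : 1 ≤ L) (hN : Antitone N) (hk : 2 ^ k ≤ N 0 + 1) :
    2 * rowNumber L N +
      ((subZ (∑ j ∈ Finset.range (L + 2), (N (j - 2) + 1) / 2 ^ k) k : ℕ) : ℕ∞) ≤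
      rowNumber (2 * L + 4) (fun j => N (j / 2 - 2)) := by
  set D := N 0 + 4 * L + 8 with hD
  set e := (N 0 + 1) / 2 ^ k with he
  have hpow : 0 < 2 ^ k := by positivity
  have he1 : 1 ≤ e := by rw [he, Nat.le_div_iff_mul_le hpow]; omega
  have heN : 2 ^ k * e ≤ N 0 + 1 := Nat.mul_div_le _ _
  obtain ⟨f, G, R, hf, -, hG, hR⟩ := exists_sub (D := D) (m := L + 2)
    (Dg := fun j => (N (j - 2) + 1) / 2 ^ k) he1 (by omega)
    (fun j _ => Nat.div_le_div_right (by have := hN (Nat.zero_le (j - 2)); omega)) k (by omega)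
  set Zk := subZ (∑ j ∈ Finset.range (L + 2), (N (j - 2) + 1) / 2 ^ k) k with hZk
  have hG' : ∀ j < L + 2, (G j).natDegree ≤ N (j - 2) := by
    intro j _
    rcases eq_or_ne (G j) 0 with h0 | h0
    · rw [h0]; simp
    · have h1 := (Polynomial.natDegree_lt_iff_degree_lt h0).2 (hG j)
      have h2 : 2 ^ k * ((N (j - 2) + 1) / 2 ^ k) ≤ N (j - 2) + 1 := Nat.mul_div_le _ _
      omega
  have haux : ∀ M : ℕ, (M : ℕ∞) ≤ rowNumber L N → ((2 * M + Zk : ℕ) : ℕ∞) ≤
      rowNumber (2 * L + 4) (fun j => N (j / 2 - 2)) := fun M hM =>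
    fold2_aux hL hN le_rfl hM (by omega) hG' hR
  rcases eq_or_ne (rowNumber L N) ⊤ with h | h
  · have h1 : rowNumber (2 * L + 4) (fun j => N (j / 2 - 2)) = ⊤ := by
      rw [ENat.eq_top_iff_forall_ge]
      intro m
      refine le_trans ?_ (haux m (by rw [h]; exact le_top))
      exact_mod_cast (by omega : m ≤ 2 * m + Zk)
    rw [h1]; exact le_top
  · obtain ⟨M, hM⟩ := ENat.ne_top_iff_exists.1 h
    rw [← hM]
    exact_mod_cast haux M hM.le

end Pool.Agent.Lib.MP_95e7ec_an
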