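import Mathlib
import Pool.Agent.Lib.MP_95e7ec_an.LogMain
import Pool.Agent.Lib.MP_95e7ec_an.LogHilbert
import Pool.Agent.Lib.MP_95e7ec_an.LogAsymp
import Pool.Agent.Lib.MP_95e7ec_an.FoldFinal

/-!
# The recursion for the Hilbert numbers with a logarithmic gain, and its consequence
-/

set_option autoImplicit false

open Set Filter Topology

namespace Pool.Agent.Lib.MP_95e7ec_an

theorem hilbert_recursion2 {n k : ℕ} (hk : 2 ^ k ≤ n + 1) :
    4 * hilbertNumber n + ((logGain n k : ℕ) : ℕ∞) ≤ hilbertNumber (2 * n + 10) := by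
  have h1 := fold2_le (L := n + 1) (k := k) (N := fun k => n - k) (by omega)
    (fun a b h => Nat.sub_le_sub_left h n) (by omega)
  rw [← hilbert_eq_row] at h1
  have h2 := h1.trans (row_swap2 n)
  have h3 := fold2_le (L := n + 1) (k := k) (N := fun i => 2 * n + 5 - 2 * i) (by omega)
    (fun a b h => Nat.sub_le_sub_left (Nat.mul_le_mul_left 2 h) _) (by omega)
  have h4 := h3.trans (row_le_hilbert2 n)
  refine le_trans ?_ h4
  refine le_trans ?_ (add_le_add_left (mul_le_mul_right h2 2) _)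
  unfold logGain
  push_cast
  rw [mul_add, ← mul_assoc, ← add_assoc]
  norm_num

/-- The Hilbert numbers grow at least like `n² (log₂ n)² / 8`. -/
theorem hilbert_log_sq (ε : ℝ) (hε : 0 < ε) : ∃ n0 : ℕ, ∀ n : ℕ, n0 ≤ n →
    ENNReal.ofReal ((1 / 8 - ε) * n ^ 2 * Real.logb 2 n ^ 2) ≤ ((hilbertNumber n : ℕ∞) : ENNReal) :=
  log_asymp hilbertNumber hilbertNumber_mono logGain le_logGain
    (fun _ _ _ hk => hilbert_recursion2 hk) ε hε

end Pool.Agent.Lib.MP_95e7ec_an
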