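import Mathlib

/-!
# Quadratic forms for the analysis near a zero (pure algebra)

The linear part is the matrix `(p q; r s)` with determinant `Δ = p s - q r`, the field at
`w = (x,y)` is `(p x + q y + e₁, r x + s y + e₂)`.
-/

set_option autoImplicit false

namespace Pool.Agent.Lib.MP_95e7ec_an

theorem na_det_le (p q r s M : ℝ) (hM : p ^ 2 + q ^ 2 + r ^ 2 + s ^ 2 ≤ M ^ 2) :
    |p * s - q * r| ≤ M ^ 2 / 2 := by
  rw [abs_le]
  constructor <;> nlinarith [sq_nonneg (p - s), sq_nonneg (p + s), sq_nonneg (q - r),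
    sq_nonneg (q + r)]

/-- Cauchy-Schwarz in the plane, squared form -/
theorem na_cs (a b c d : ℝ) : (a * c + b * d) ^ 2 ≤ (a ^ 2 + b ^ 2) * (c ^ 2 + d ^ 2) := by
  nlinarith [sq_nonneg (a * d - b * c)]

/-- A saddle: the derivative of `Re(b̄ w²)` is positive. -/
theorem na_saddle {p q r s M x y e1 e2 : ℝ} (hM1 : 1 ≤ M)
    (hM : p ^ 2 + q ^ 2 + r ^ 2 + s ^ 2 ≤ M ^ 2) (hΔ : p * s - q * r < 0)
    (hw : 0 < x ^ 2 + y ^ 2) (he : e1 ^ 2 + e2 ^ 2 ≤ 4 * M ^ 2 * (x ^ 2 + y ^ 2) ^ 2)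
    (hr : 256 * M ^ 8 * (x ^ 2 + y ^ 2) < (p * s - q * r) ^ 4) :
    0 < ((p - s) * x + (q + r) * y) * (p * x + q * y + e1) +
      ((q + r) * x - (p - s) * y) * (r * x + s * y + e2) := by
  set W := x ^ 2 + y ^ 2 with hW
  set Δ := p * s - q * r with hΔd
  have hΔM := na_det_le p q r s M hM
  rw [← hΔd, abs_le] at hΔM
  have hMp : 0 < M := by linarith
  have hid : ((p - s) * x + (q + r) * y) * (p * x + q * y + e1) +
      ((q + r) * x - (p - s) * y) * (r * x + s * y + e2) =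
      (p * x + q * y) ^ 2 + (r * x + s * y) ^ 2 - Δ * W +
      (((p - s) * x + (q + r) * y) * e1 + ((q + r) * x - (p - s) * y) * e2) := by
    rw [hΔd, hW]; ring
  rw [hid]
  set E := ((p - s) * x + (q + r) * y) * e1 + ((q + r) * x - (p - s) * y) * e2 with hE
  have hcs := na_cs ((p - s) * x + (q + r) * y) ((q + r) * x - (p - s) * y) e1 e2
  rw [← hE] at hcs
  have hg : ((p - s) * x + (q + r) * y) ^ 2 + ((q + r) * x - (p - s) * y) ^ 2 ≤
      2 * M ^ 2 * W := by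
    have : ((p - s) * x + (q + r) * y) ^ 2 + ((q + r) * x - (p - s) * y) ^ 2 =
        ((p - s) ^ 2 + (q + r) ^ 2) * W := by rw [hW]; ring
    rw [this]
    apply mul_le_mul_of_nonneg_right _ hw.le
    nlinarith [sq_nonneg (p + s), sq_nonneg (q - r)]
  have hE2 : E ^ 2 ≤ 8 * M ^ 4 * W ^ 3 := by
    calc E ^ 2 ≤ _ := hcs
      _ ≤ (2 * M ^ 2 * W) * (4 * M ^ 2 * W ^ 2) := by
          apply mul_le_mul hg he (by positivity) (by positivity)
      _ = 8 * M ^ 4 * W ^ 3 := by ring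
  have hWΔ : 8 * M ^ 4 * W < Δ ^ 2 := by
    have h1 : Δ ^ 2 ≤ M ^ 4 / 4 := by nlinarith
    have h2 : Δ ^ 4 ≤ Δ ^ 2 * (M ^ 4 / 4) := by nlinarith [sq_nonneg Δ]
    have h3 : M ^ 4 * (1024 * M ^ 4 * W) < M ^ 4 * Δ ^ 2 := by nlinarith
    have h4 : 1024 * M ^ 4 * W < Δ ^ 2 := lt_of_mul_lt_mul_left h3 (by positivity)
    have h5 : 0 < M ^ 4 * W := by positivity
    linarith
  have hE3 : E ^ 2 < (-Δ * W) ^ 2 := by
    have h6 : 8 * M ^ 4 * W ^ 3 < Δ ^ 2 * W ^ 2 := by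
      have : 8 * M ^ 4 * W ^ 3 = (8 * M ^ 4 * W) * W ^ 2 := by ring
      rw [this]
      exact mul_lt_mul_of_pos_right hWΔ (by positivity)
    nlinarith
  have hE4 : |E| < -Δ * W := by
    have h7 : 0 < -Δ * W := by nlinarith
    exact abs_lt_of_sq_lt_sq hE3 h7.le
  rw [abs_lt] at hE4
  nlinarith [sq_nonneg (p * x + q * y), sq_nonneg (r * x + s * y)]

/-- A node or a focus with trace bounded away from zero: the derivative of the Lyapunov function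
`Δ |w|² + |adj w|²` has the sign of the trace. -/
theorem na_node {p q r s M x y e1 e2 : ℝ} (hM1 : 1 ≤ M)
    (hM : p ^ 2 + q ^ 2 + r ^ 2 + s ^ 2 ≤ M ^ 2) (hΔ : 0 < p * s - q * r)
    (htr : 2 * (p * s - q * r) ≤ (p + s) ^ 2)
    (hw : 0 < x ^ 2 + y ^ 2) (he : e1 ^ 2 + e2 ^ 2 ≤ 4 * M ^ 2 * (x ^ 2 + y ^ 2) ^ 2)
    (hr : 256 * M ^ 8 * (x ^ 2 + y ^ 2) < (p * s - q * r) ^ 4) :
    ((p * s - q * r) * x + s * (s * x - q * y) - r * (-(r * x) + p * y)) *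
        (p * x + q * y + e1) +
      ((p * s - q * r) * y - q * (s * x - q * y) + p * (-(r * x) + p * y)) *
        (r * x + s * y + e2) ≠ 0 := by
  set W := x ^ 2 + y ^ 2 with hW
  set Δ := p * s - q * r with hΔd
  have hΔM := na_det_le p q r s M hM
  rw [← hΔd, abs_le] at hΔM
  have hMp : 0 < M := by linarith
  set u := s * (s * x - q * y) - r * (-(r * x) + p * y) with hu
  set v := -(q * (s * x - q * y)) + p * (-(r * x) + p * y) with hv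
  have hid : (Δ * x + s * (s * x - q * y) - r * (-(r * x) + p * y)) * (p * x + q * y + e1) +
      (Δ * y - q * (s * x - q * y) + p * (-(r * x) + p * y)) * (r * x + s * y + e2) =
      (p + s) * Δ * W + ((Δ * x + u) * e1 + (Δ * y + v) * e2) := by
    rw [hΔd, hW, hu, hv]; ring
  rw [hid]
  set E := (Δ * x + u) * e1 + (Δ * y + v) * e2 with hE
  have hcs := na_cs (Δ * x + u) (Δ * y + v) e1 e2
  rw [← hE] at hcs
  have hh : (s * x - q * y) ^ 2 + (-(r * x) + p * y) ^ 2 ≤ M ^ 2 * W := by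
    have h1 := na_cs s (-q) x y
    have h2 := na_cs (-r) p x y
    rw [← hW] at h1 h2
    nlinarith
  have huv : u ^ 2 + v ^ 2 ≤ M ^ 4 * W := by
    have h1 := na_cs s (-r) (s * x - q * y) (-(r * x) + p * y)
    have h2 := na_cs (-q) p (s * x - q * y) (-(r * x) + p * y)
    have h3 : u ^ 2 + v ^ 2 ≤ (p ^ 2 + q ^ 2 + r ^ 2 + s ^ 2) *
        ((s * x - q * y) ^ 2 + (-(r * x) + p * y) ^ 2) := by
      rw [hu, hv]
      nlinarith
    calc u ^ 2 + v ^ 2 ≤ _ := h3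
      _ ≤ M ^ 2 * (M ^ 2 * W) := mul_le_mul hM hh (by positivity) (by positivity)
      _ = M ^ 4 * W := by ring
  have hΔ2 : Δ ^ 2 ≤ M ^ 4 / 4 := by nlinarith
  have hg : (Δ * x + u) ^ 2 + (Δ * y + v) ^ 2 ≤ 3 * M ^ 4 * W := by
    have h1 : (Δ * x + u) ^ 2 + (Δ * y + v) ^ 2 ≤ 2 * (Δ ^ 2 * W) + 2 * (u ^ 2 + v ^ 2) := by
      rw [hW]
      nlinarith [sq_nonneg (Δ * x - u), sq_nonneg (Δ * y - v)]
    have h2 : Δ ^ 2 * W ≤ M ^ 4 / 4 * W := mul_le_mul_of_nonneg_right hΔ2 hw.le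
    have h3 : 0 < M ^ 4 * W := by positivity
    linarith
  have hE2 : E ^ 2 ≤ 12 * M ^ 6 * W ^ 3 := by
    calc E ^ 2 ≤ _ := hcs
      _ ≤ (3 * M ^ 4 * W) * (4 * M ^ 2 * W ^ 2) := by
          apply mul_le_mul hg he (by positivity) (by positivity)
      _ = 12 * M ^ 6 * W ^ 3 := by ring
  have hWΔ : 6 * M ^ 6 * W < Δ ^ 3 := by
    have h2 : Δ ^ 4 ≤ Δ ^ 3 * (M ^ 2 / 2) := by
      have : Δ ^ 4 = Δ ^ 3 * Δ := by ring
      rw [this]
      exact mul_le_mul_of_nonneg_left hΔM.2 (by positivity)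
    have h3 : M ^ 2 * (512 * M ^ 6 * W) < M ^ 2 * Δ ^ 3 := by nlinarith
    have h4 : 512 * M ^ 6 * W < Δ ^ 3 := lt_of_mul_lt_mul_left h3 (by positivity)
    have h5 : 0 < M ^ 6 * W := by positivity
    linarith
  have hE3 : E ^ 2 < ((p + s) * Δ * W) ^ 2 := by
    have h6 : 12 * M ^ 6 * W ^ 3 < 2 * Δ ^ 3 * W ^ 2 := by
      have : 12 * M ^ 6 * W ^ 3 = 2 * (6 * M ^ 6 * W) * W ^ 2 := by ring
      rw [this]
      exact mul_lt_mul_of_pos_right (by linarith) (by positivity)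
    have h7 : 2 * Δ ^ 3 * W ^ 2 ≤ ((p + s) * Δ * W) ^ 2 := by
      have : ((p + s) * Δ * W) ^ 2 = (p + s) ^ 2 * (Δ ^ 2 * W ^ 2) := by ring
      rw [this]
      have h8 : 2 * Δ ^ 3 * W ^ 2 = (2 * Δ) * (Δ ^ 2 * W ^ 2) := by ring
      rw [h8]
      exact mul_le_mul_of_nonneg_right htr (by positivity)
    linarith
  intro h0
  have : E = -((p + s) * Δ * W) := by linarith
  rw [this, neg_sq] at hE3
  exact lt_irrefl _ hE3

/-- the quadratic form `T det(w, A w)` (inverse integrating factor of the linear part) -/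
def naQ (p q r s x y : ℝ) : ℝ := (r - q) * (r * x ^ 2 + (s - p) * (x * y) - q * y ^ 2)

/-- half of the gradient... the full partial derivatives of `naQ` -/
def naQx (p q r s x y : ℝ) : ℝ := (r - q) * (2 * r * x + (s - p) * y)

def naQy (p q r s x y : ℝ) : ℝ := (r - q) * ((s - p) * x - 2 * q * y)

theorem naQ_lower {p q r s x y : ℝ} (htr : (p + s) ^ 2 ≤ 2 * (p * s - q * r)) :
    (p * s - q * r) / 2 * (x ^ 2 + y ^ 2) ≤ naQ p q r s x y := by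
  have hid : naQ p q r s x y = (r * x + (s - p) / 2 * y) ^ 2 + ((s - p) / 2 * x - q * y) ^ 2 +
      (-(q * r) - (s - p) ^ 2 / 4) * (x ^ 2 + y ^ 2) := by
    unfold naQ; ring
  rw [hid]
  have h1 : (p * s - q * r) / 2 ≤ -(q * r) - (s - p) ^ 2 / 4 := by nlinarith
  have h2 := mul_le_mul_of_nonneg_right h1 (show 0 ≤ x ^ 2 + y ^ 2 by positivity)
  nlinarith [sq_nonneg (r * x + (s - p) / 2 * y), sq_nonneg ((s - p) / 2 * x - q * y)]

/-- `naQ ≤ 4 M |w| |X|` -/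
theorem naQ_upper {p q r s M x y e1 e2 ρ N : ℝ} (hM1 : 1 ≤ M)
    (hM : p ^ 2 + q ^ 2 + r ^ 2 + s ^ 2 ≤ M ^ 2) (hΔ : 0 < p * s - q * r)
    (htr : (p + s) ^ 2 ≤ 2 * (p * s - q * r))
    (hρ : 0 < ρ) (hρ2 : ρ ^ 2 = x ^ 2 + y ^ 2)
    (he : e1 ^ 2 + e2 ^ 2 ≤ 4 * M ^ 2 * ρ ^ 4) (hr : 16 * M ^ 4 * ρ < (p * s - q * r) ^ 2)
    (hN : 0 ≤ N) (hN2 : N ^ 2 = (p * x + q * y + e1) ^ 2 + (r * x + s * y + e2) ^ 2) :
    naQ p q r s x y ≤ 4 * M * ρ * N := by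
  set Δ := p * s - q * r with hΔd
  have hΔM := na_det_le p q r s M hM
  rw [← hΔd, abs_le] at hΔM
  have hMp : 0 < M := by linarith
  -- `naQ = T det(w, X - e)`
  have hid : naQ p q r s x y = (r - q) * (x * (r * x + s * y + e2) - y * (p * x + q * y + e1)) -
      (r - q) * (x * e2 - y * e1) := by
    unfold naQ; ring
  have hT : (r - q) ^ 2 ≤ (2 * M) ^ 2 := by nlinarith [sq_nonneg (r + q), sq_nonneg p, sq_nonneg s]
  have hT' : |r - q| ≤ 2 * M := abs_le_of_sq_le_sq hT (by linarith)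
  have h1 : |x * (r * x + s * y + e2) - y * (p * x + q * y + e1)| ≤ ρ * N := by
    apply abs_le_of_sq_le_sq _ (by positivity)
    have := na_cs x (-y) (r * x + s * y + e2) (p * x + q * y + e1)
    rw [mul_pow, hρ2, hN2]
    nlinarith
  have h2 : |x * e2 - y * e1| ≤ 2 * M * ρ ^ 3 := by
    apply abs_le_of_sq_le_sq _ (by positivity)
    have h3 := na_cs x (-y) e2 e1
    calc (x * e2 - y * e1) ^ 2 = (x * e2 + -y * e1) ^ 2 := by ring
      _ ≤ (x ^ 2 + (-y) ^ 2) * (e2 ^ 2 + e1 ^ 2) := h3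
      _ = ρ ^ 2 * (e1 ^ 2 + e2 ^ 2) := by rw [hρ2]; ring
      _ ≤ ρ ^ 2 * (4 * M ^ 2 * ρ ^ 4) := mul_le_mul_of_nonneg_left he (by positivity)
      _ = (2 * M * ρ ^ 3) ^ 2 := by ring
  have h3 : naQ p q r s x y ≤ 2 * M * (ρ * N) + 2 * M * (2 * M * ρ ^ 3) := by
    rw [hid]
    have a1 : (r - q) * (x * (r * x + s * y + e2) - y * (p * x + q * y + e1)) ≤
        2 * M * (ρ * N) := by
      refine (le_abs_self _).trans ?_
      rw [abs_mul]
      exact mul_le_mul hT' h1 (abs_nonneg _) (by positivity)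
    have a2 : -((r - q) * (x * e2 - y * e1)) ≤ 2 * M * (2 * M * ρ ^ 3) := by
      refine (neg_le_abs _).trans ?_
      rw [abs_mul]
      exact mul_le_mul hT' h2 (abs_nonneg _) (by positivity)
    linarith
  have hlow := naQ_lower (x := x) (y := y) htr
  rw [← hΔd, ← hρ2] at hlow
  -- `4 M² ρ³ ≤ naQ / 2`
  have h4 : 16 * M ^ 2 * ρ ≤ Δ := by
    have h5 : M ^ 2 * (16 * M ^ 2 * ρ) ≤ M ^ 2 * Δ := by nlinarith
    exact le_of_mul_le_mul_left h5 (by positivity)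
  have h6 : 4 * M ^ 2 * ρ ^ 3 ≤ Δ / 4 * ρ ^ 2 := by
    have : 4 * M ^ 2 * ρ ^ 3 = (4 * M ^ 2 * ρ) * ρ ^ 2 := by ring
    rw [this]
    exact mul_le_mul_of_nonneg_right (by linarith) (by positivity)
  nlinarith

/-- the weighted divergence -/
theorem na_div {p q r s M x y e1 e2 ρ dv : ℝ} (hM1 : 1 ≤ M)
    (hM : p ^ 2 + q ^ 2 + r ^ 2 + s ^ 2 ≤ M ^ 2) (hΔ : 0 < p * s - q * r)
    (htr : (p + s) ^ 2 ≤ 2 * (p * s - q * r))
    (hρ : 0 < ρ) (hρ2 : ρ ^ 2 = x ^ 2 + y ^ 2)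
    (he : e1 ^ 2 + e2 ^ 2 ≤ 4 * M ^ 2 * ρ ^ 4)
    (hdv : (dv - (p + s)) ^ 2 ≤ 8 * M ^ 2 * ρ ^ 2) :
    |-(2 * M * (naQx p q r s x y * (p * x + q * y + e1) + naQy p q r s x y * (r * x + s * y + e2)) /
      naQ p q r s x y ^ 2) + 2 * M / naQ p q r s x y * dv| ≤
      54 * M ^ 4 / (p * s - q * r) ^ 2 * (1 / ρ) := by
  set Δ := p * s - q * r with hΔd
  have hΔM := na_det_le p q r s M hM
  rw [← hΔd, abs_le] at hΔM
  have hMp : 0 < M := by linarith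
  have hlow := naQ_lower (x := x) (y := y) htr
  rw [← hΔd, ← hρ2] at hlow
  set Qf := naQ p q r s x y with hQf
  have hQp : 0 < Qf := lt_of_lt_of_le (by positivity) hlow
  set A1 := naQx p q r s x y with hA1
  set A2 := naQy p q r s x y with hA2
  have hid : A1 * (p * x + q * y) + A2 * (r * x + s * y) = (p + s) * Qf := by
    rw [hA1, hA2, hQf]; unfold naQx naQy naQ; ring
  have hmain : -(2 * M * (A1 * (p * x + q * y + e1) + A2 * (r * x + s * y + e2)) / Qf ^ 2) +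
      2 * M / Qf * dv = 2 * M * ((dv - (p + s)) / Qf - (A1 * e1 + A2 * e2) / Qf ^ 2) := by
    have : A1 * (p * x + q * y + e1) + A2 * (r * x + s * y + e2) =
        (p + s) * Qf + (A1 * e1 + A2 * e2) := by rw [← hid]; ring
    rw [this]
    field_simp
    ring
  rw [hmain, abs_mul, abs_of_pos (by positivity : (0 : ℝ) < 2 * M)]
  have h1 : |dv - (p + s)| ≤ 3 * M * ρ := by
    apply abs_le_of_sq_le_sq _ (by positivity)
    have : 0 ≤ M ^ 2 * ρ ^ 2 := by positivity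
    nlinarith
  have hT : (r - q) ^ 2 ≤ 2 * M ^ 2 := by nlinarith [sq_nonneg (r + q), sq_nonneg p, sq_nonneg s]
  have hA : A1 ^ 2 + A2 ^ 2 ≤ 8 * M ^ 4 * ρ ^ 2 := by
    have a1 := na_cs (2 * r) (s - p) x y
    have a2 := na_cs (s - p) (-(2 * q)) x y
    rw [← hρ2] at a1 a2
    have a3 : (2 * r * x + (s - p) * y) ^ 2 + ((s - p) * x - 2 * q * y) ^ 2 ≤
        4 * M ^ 2 * ρ ^ 2 := by
      have a4 : (2 * r * x + (s - p) * y) ^ 2 + ((s - p) * x - 2 * q * y) ^ 2 ≤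
          (4 * r ^ 2 + 4 * q ^ 2 + 2 * (s - p) ^ 2) * ρ ^ 2 := by nlinarith
      have a5 : 4 * r ^ 2 + 4 * q ^ 2 + 2 * (s - p) ^ 2 ≤ 4 * M ^ 2 := by
        nlinarith [sq_nonneg (s + p)]
      exact a4.trans (mul_le_mul_of_nonneg_right a5 (by positivity))
    have a6 : A1 ^ 2 + A2 ^ 2 = (r - q) ^ 2 *
        ((2 * r * x + (s - p) * y) ^ 2 + ((s - p) * x - 2 * q * y) ^ 2) := by
      rw [hA1, hA2]; unfold naQx naQy; ring
    rw [a6]
    calc _ ≤ (2 * M ^ 2) * (4 * M ^ 2 * ρ ^ 2) := mul_le_mul hT a3 (by positivity) (by positivity)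
      _ = 8 * M ^ 4 * ρ ^ 2 := by ring
  have h2 : |A1 * e1 + A2 * e2| ≤ 6 * M ^ 3 * ρ ^ 3 := by
    apply abs_le_of_sq_le_sq _ (by positivity)
    calc (A1 * e1 + A2 * e2) ^ 2 ≤ (A1 ^ 2 + A2 ^ 2) * (e1 ^ 2 + e2 ^ 2) := na_cs _ _ _ _
      _ ≤ (8 * M ^ 4 * ρ ^ 2) * (4 * M ^ 2 * ρ ^ 4) :=
          mul_le_mul hA he (by positivity) (by positivity)
      _ = 32 * (M ^ 6 * ρ ^ 6) := by ring
      _ ≤ 36 * (M ^ 6 * ρ ^ 6) := by
          have : 0 ≤ M ^ 6 * ρ ^ 6 := by positivity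
          linarith
      _ = (6 * M ^ 3 * ρ ^ 3) ^ 2 := by ring
  have hΔρ : 0 < Δ / 2 * ρ ^ 2 := by positivity
  have h3 : |(dv - (p + s)) / Qf| ≤ 6 * M / Δ * (1 / ρ) := by
    rw [abs_div, abs_of_pos hQp]
    calc |dv - (p + s)| / Qf ≤ (3 * M * ρ) / (Δ / 2 * ρ ^ 2) :=
          div_le_div₀ (by positivity) h1 hΔρ hlow
      _ = 6 * M / Δ * (1 / ρ) := by field_simp; ring
  have h4 : |(A1 * e1 + A2 * e2) / Qf ^ 2| ≤ 24 * M ^ 3 / Δ ^ 2 * (1 / ρ) := by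
    rw [abs_div, abs_of_pos (by positivity : (0 : ℝ) < Qf ^ 2)]
    calc |A1 * e1 + A2 * e2| / Qf ^ 2 ≤ (6 * M ^ 3 * ρ ^ 3) / (Δ / 2 * ρ ^ 2) ^ 2 :=
          div_le_div₀ (by positivity) h2 (by positivity)
            (pow_le_pow_left₀ hΔρ.le hlow 2)
      _ = 24 * M ^ 3 / Δ ^ 2 * (1 / ρ) := by field_simp; ring
  have h5 : 6 * M / Δ ≤ 3 * M ^ 3 / Δ ^ 2 := by
    rw [div_le_div_iff₀ hΔ (by positivity)]
    have : 6 * M * Δ ^ 2 = 6 * M * Δ * Δ := by ring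
    rw [this]
    have h6 : 6 * M * Δ ≤ 3 * M ^ 3 := by nlinarith
    exact mul_le_mul_of_nonneg_right h6 hΔ.le
  calc 2 * M * |(dv - (p + s)) / Qf - (A1 * e1 + A2 * e2) / Qf ^ 2|
      ≤ 2 * M * (6 * M / Δ * (1 / ρ) + 24 * M ^ 3 / Δ ^ 2 * (1 / ρ)) := by
        apply mul_le_mul_of_nonneg_left _ (by positivity)
        exact (abs_sub _ _).trans (add_le_add h3 h4)
    _ ≤ 2 * M * (3 * M ^ 3 / Δ ^ 2 * (1 / ρ) + 24 * M ^ 3 / Δ ^ 2 * (1 / ρ)) := by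
        have : 0 < 1 / ρ := by positivity
        gcongr
    _ = 54 * M ^ 4 / Δ ^ 2 * (1 / ρ) := by ring

end Pool.Agent.Lib.MP_95e7ec_an
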