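import Mathlib
import Pool.Agent.Lib.MP_95e7ec_an.AvgDefs
import Pool.Agent.Lib.MP_95e7ec_an.SmDefs
import Pool.Agent.Lib.MP_95e7ec_an.JacPos
import Pool.Agent.Lib.MP_95e7ec_an.Assemble

/-!
# The weighted inequality, and the count of closed orbits by a majorant
-/

set_option autoImplicit false

open Set Filter Topology MeasureTheory
open scoped ContDiff ENNReal

namespace Pool.Agent.Lib.MP_95e7ec_an

/-- The weighted identity: `f = b det(V,y)` satisfies
`f' = τ (β + b div V) det(V,y) + τ a' b |V|²` if `b' = τ β`. -/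
theorem weighted_le {D : ℕ} (μ : Pr D) {τ τ' a' : ℝ} {x y0 : ℝ × ℝ} {z y : A × A}
    (hz : Sol μ τ x z) (hz1 : at' z 1 = at' z 0) (hy1 : at' y 1 = at' y 0)
    (l1 : y.1 = ContinuousMap.const _ y0.1 + τ' • prim (pe μ.1 z.1 z.2) +
      τ • prim (pex μ.1 z.1 z.2 * y.1 + pey μ.1 z.1 z.2 * y.2 + a' • pe (rot μ).1 z.1 z.2))
    (l2 : y.2 = ContinuousMap.const _ y0.2 + τ' • prim (pe μ.2 z.1 z.2) +
      τ • prim (pex μ.2 z.1 z.2 * y.1 + pey μ.2 z.1 z.2 * y.2 + a' • pe (rot μ).2 z.1 z.2))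
    {b β : ℝ → ℝ} (hb : ContinuousOn b (Set.Icc 0 1)) (hβ : ContinuousOn β (Set.Icc 0 1))
    (hbd : ∀ t ∈ Set.Ioo (0 : ℝ) 1, HasDerivAt b (τ * β t) t) (hb1 : b 1 = b 0)
    (hlow : 1 ≤ ∫ t in (0 : ℝ)..1, τ * (b t * nm (vfc μ (pth z t)) ^ 2)) :
    |a'| ≤ ∫ t in (0 : ℝ)..1, |τ * det2 (vfc μ (pth z t)) (pth y t)| *
      |β t + b t * jtr μ (pth z t)| := by
  have hpc := jp_pth_continuous z
  have hpyc := jp_pth_continuous y
  set Dt : ℝ → ℝ := fun t => det2 (vfc μ (pth z t)) (pth y t) with hDt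
  have cV : Continuous fun t => vfc μ (pth z t) := (continuous_vfc_AS μ).comp hpc
  have cD : Continuous Dt := by
    have h1 := continuous_fst.comp cV
    have h2 := continuous_snd.comp cV
    have h3 := continuous_fst.comp hpyc
    have h4 := continuous_snd.comp hpyc
    exact (h1.mul h4).sub (h2.mul h3)
  have cN : Continuous fun t => nm (vfc μ (pth z t)) ^ 2 := (continuous_nm.comp cV).pow 2
  have ctr : Continuous fun t => jtr μ (pth z t) := by
    have h1 := (jp_pex_continuous μ.1).comp hpc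
    have h2 := (jp_pey_continuous μ.2).comp hpc
    exact h1.add h2
  have hderiv : ∀ t ∈ Set.Ioo (0 : ℝ) 1, HasDerivAt (fun s => b s * Dt s)
      ((τ * Dt t) * (β t + b t * jtr μ (pth z t)) + a' * (τ * (b t * nm (vfc μ (pth z t)) ^ 2)))
      t := by
    intro t ht
    have d := (hbd t ht).mul (jp_det hz l1 l2 ht)
    refine d.congr_deriv ?_
    rw [nm_sq]
    simp only [hDt, jtr]
    ring
  have cψ : ContinuousOn (fun t => (τ * Dt t) * (β t + b t * jtr μ (pth z t))) (Set.Icc 0 1) :=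
    (continuous_const.mul cD).continuousOn.mul (hβ.add (hb.mul ctr.continuousOn))
  have cφ : ContinuousOn (fun t => τ * (b t * nm (vfc μ (pth z t)) ^ 2)) (Set.Icc 0 1) :=
    continuousOn_const.mul (hb.mul cN.continuousOn)
  have iψ : IntervalIntegrable (fun t => (τ * Dt t) * (β t + b t * jtr μ (pth z t))) volume 0 1 :=
    cψ.intervalIntegrable_of_Icc zero_le_one
  have iφ : IntervalIntegrable (fun t => τ * (b t * nm (vfc μ (pth z t)) ^ 2)) volume 0 1 :=
    cφ.intervalIntegrable_of_Icc zero_le_one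
  have hFTC := intervalIntegral.integral_eq_sub_of_hasDerivAt_of_le (zero_le_one' ℝ)
    (hb.mul cD.continuousOn) hderiv (iψ.add (iφ.const_mul a'))
  have e1 : pth z 1 = pth z 0 := by
    have a1 : pth z 1 = at' z 1 := jp_pth_coe z 1
    have a2 : pth z 0 = at' z 0 := jp_pth_coe z 0
    rw [a1, a2, hz1]
  have e2 : pth y 1 = pth y 0 := by
    have a1 : pth y 1 = at' y 1 := jp_pth_coe y 1
    have a2 : pth y 0 = at' y 0 := jp_pth_coe y 0
    rw [a1, a2, hy1]
  have h01 : b 1 * Dt 1 = b 0 * Dt 0 := by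
    simp only [hDt]
    rw [e1, e2, hb1]
  simp only [Pi.mul_apply] at hFTC
  rw [h01, sub_self, intervalIntegral.integral_add iψ (iφ.const_mul a'),
    intervalIntegral.integral_const_mul a'] at hFTC
  set I : ℝ := ∫ t in (0 : ℝ)..1, τ * (b t * nm (vfc μ (pth z t)) ^ 2) with hI
  have hkey : |a'| * I = |∫ t in (0 : ℝ)..1, (τ * Dt t) * (β t + b t * jtr μ (pth z t))| := by
    have hI0 : 0 ≤ I := by linarith
    have : a' * I = -∫ t in (0 : ℝ)..1, (τ * Dt t) * (β t + b t * jtr μ (pth z t)) := by linarith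
    rw [← abs_neg (∫ t in (0 : ℝ)..1, (τ * Dt t) * (β t + b t * jtr μ (pth z t))), ← this, abs_mul,
      abs_of_nonneg hI0]
  calc |a'| = |a'| * 1 := (mul_one _).symm
    _ ≤ |a'| * I := mul_le_mul_of_nonneg_left hlow (abs_nonneg _)
    _ = |∫ t in (0 : ℝ)..1, (τ * Dt t) * (β t + b t * jtr μ (pth z t))| := hkey
    _ ≤ ∫ t in (0 : ℝ)..1, |(τ * Dt t) * (β t + b t * jtr μ (pth z t))| :=
        intervalIntegral.abs_integral_le_integral_abs zero_le_one
    _ = ∫ t in (0 : ℝ)..1, |τ * Dt t| * |β t + b t * jtr μ (pth z t)| := by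
        simp only [abs_mul]

variable {D : ℕ} {μ : Pr D} {Ω : Set (ℝ × ℝ)}

/-- the bound of the speed of the angle of a family by a majorant of the weighted divergence -/
theorem Fam.speed_le (F : Fam μ Ω) {s : ℝ} (hs : s ∈ F.J)
    {b β : ℝ → ℝ} (hb : ContinuousOn b (Set.Icc 0 1)) (hβ : ContinuousOn β (Set.Icc 0 1))
    (hbd : ∀ t ∈ Set.Ioo (0 : ℝ) 1, HasDerivAt b (F.τ s * β t) t) (hb1 : b 1 = b 0)
    (hlow : 1 ≤ ∫ t in (0 : ℝ)..1,
      F.τ s * (b t * nm (vfc (rotA μ (F.a s)) (pth (F.Z s) t)) ^ 2))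
    {G : ℝ × ℝ → ℝ≥0∞}
    (hG : ∀ t ∈ Set.Ioo (0 : ℝ) 1,
      ENNReal.ofReal |β t + b t * jtr (rotA μ (F.a s)) (pth (F.Z s) t)| ≤ G (pth (F.Z s) t)) :
    ENNReal.ofReal |F.a' s| ≤
      ∫⁻ t in Set.Ioo (0 : ℝ) 1, ENNReal.ofReal (F.jac s t) * G (pth (F.Z s) t) := by
  have hpc := jp_pth_continuous (F.Z s)
  have hpyc := jp_pth_continuous (F.Y s)
  have key := weighted_le (rotA μ (F.a s)) (F.sol s hs) (F.closed s hs)
    (F.closedY s hs) (F.lin1 s hs) (F.lin2 s hs) hb hβ hbd hb1 hlow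
  have hjpos : ∀ t, 0 < F.jac s t := by
    intro t
    have h := F.jac_pos s hs (Set.projIcc 0 1 (zero_le_one' ℝ) t)
    rw [← jp_pth_proj, ← jp_pth_proj] at h
    exact mul_pos (F.tau_pos s hs) h
  have hjac : ∀ t, |F.τ s * det2 (vfc (rotA μ (F.a s)) (pth (F.Z s) t)) (pth (F.Y s) t)| =
      F.jac s t := fun t => abs_of_pos (hjpos t)
  simp only [hjac] at key
  have cV : Continuous fun t => vfc (rotA μ (F.a s)) (pth (F.Z s) t) :=
    (continuous_vfc_AS _).comp hpc
  have cJ : Continuous fun t => F.jac s t := by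
    have h1 := continuous_fst.comp cV
    have h2 := continuous_snd.comp cV
    have h3 := continuous_fst.comp hpyc
    have h4 := continuous_snd.comp hpyc
    exact continuous_const.mul ((h1.mul h4).sub (h2.mul h3))
  have ctr : Continuous fun t => jtr (rotA μ (F.a s)) (pth (F.Z s) t) := by
    have h1 := (jp_pex_continuous (rotA μ (F.a s)).1).comp hpc
    have h2 := (jp_pey_continuous (rotA μ (F.a s)).2).comp hpc
    exact h1.add h2
  have hcont : ContinuousOn (fun t => F.jac s t *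
      |β t + b t * jtr (rotA μ (F.a s)) (pth (F.Z s) t)|) (Set.Icc 0 1) :=
    cJ.continuousOn.mul (hβ.add (hb.mul ctr.continuousOn)).abs
  rw [intervalIntegral.integral_of_le zero_le_one, integral_Ioc_eq_integral_Ioo] at key
  refine (ENNReal.ofReal_le_ofReal key).trans ?_
  rw [ofReal_integral_eq_lintegral_ofReal]
  · apply setLIntegral_mono' measurableSet_Ioo
    intro t ht
    rw [ENNReal.ofReal_mul (hjpos t).le]
    exact mul_le_mul_right (hG t ht) _
  · exact (hcont.integrableOn_Icc).mono_set Ioo_subset_Icc_self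
  · exact Eventually.of_forall fun t => mul_nonneg (hjpos t).le (abs_nonneg _)

/-- the closed orbits of `v` contained in `Ω` -/
def orbSet (v : ℝ × ℝ → ℝ × ℝ) (Ω : Set (ℝ × ℝ)) : Set (Set (ℝ × ℝ)) :=
  {C | IsClosedOrbit v C ∧ C ⊆ Ω}

theorem orbitSum_one (v : ℝ × ℝ → ℝ × ℝ) (Ω : Set (ℝ × ℝ)) (α : ℝ) :
    orbitSum (fun _ => 1) v Ω α = ((orbSet (turn α v) Ω).encard : ℝ≥0∞) := by
  rw [orbitSum, ← ENNReal.tsum_set_one]
  rfl

/-- If the speed of the angle of each family is controlled by the majorant `G`, the averaged number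
of the closed orbits in `Ω` is at most the integral of `G` over `Ω`. -/
theorem count_le_of (μ : Pr D) {Ω : Set (ℝ × ℝ)} (hΩ : IsOpen Ω) {G : ℝ × ℝ → ℝ≥0∞}
    (hG : Measurable G)
    (h : ∀ F : Fam μ Ω, ∀ s ∈ F.J, ENNReal.ofReal |F.a' s| ≤
      ∫⁻ t in Set.Ioo (0 : ℝ) 1, ENNReal.ofReal (F.jac s t) * G (pth (F.Z s) t)) :
    AEMeasurable (fun α => ((orbSet (turn α (vfc μ)) Ω).encard : ℝ≥0∞))
      (volume.restrict (Set.Ioo 0 Real.pi)) ∧
    ∫⁻ α in Set.Ioo 0 Real.pi, ((orbSet (turn α (vfc μ)) Ω).encard : ℝ≥0∞) ≤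
      ∫⁻ z in Ω, G z := by
  have hrw : (fun α => ((orbSet (turn α (vfc μ)) Ω).encard : ℝ≥0∞)) =
      orbitSum (fun _ => 1) (vfc μ) Ω := by
    funext α
    exact (orbitSum_one _ _ _).symm
  rw [hrw]
  refine ⟨orbitSum_aemeasurable μ hΩ measurable_const, ?_⟩
  obtain ⟨T, hT, hTU⟩ := TopologicalSpace.isOpen_iUnion_countable
    (fun G : Fam μ Ω => G.img G.J) (fun G => G.isOpen_img G.isOpen_J subset_rfl)
  rcases T.eq_empty_or_nonempty with hemp | hne
  · have h0 : ∀ α ∈ Set.Ioo 0 Real.pi, orbitSum (fun _ => 1) (vfc μ) Ω α = 0 := by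
      intro α hα
      have : IsEmpty {C : Set (ℝ × ℝ) // IsClosedOrbit (turn α (vfc μ)) C ∧ C ⊆ Ω} := by
        refine ⟨fun ⟨C, hC, hCΩ⟩ => ?_⟩
        have hC' : IsClosedOrbit (vfc (rotA μ α)) C := by rw [vfc_rotA]; exact hC
        obtain ⟨G, s0, hs0, hGa, hGC⟩ := exists_fam μ hΩ hα hC' hCΩ
        have h1 : at' (G.Z s0) half ∈ ⋃ G : Fam μ Ω, G.img G.J :=
          mem_iUnion.2 ⟨G, G.mid_mem hs0⟩
        rw [← hTU, hemp] at h1
        simp at h1
      rw [orbitSum, tsum_empty]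
    rw [setLIntegral_congr_fun measurableSet_Ioo h0]
    simp
  · obtain ⟨F, hFr⟩ := hT.exists_eq_range hne
    have hF : ∀ G : Fam μ Ω, G.img G.J ⊆ ⋃ k, (F k).img (F k).J := by
      intro G z hz
      have h1 : z ∈ ⋃ G : Fam μ Ω, G.img G.J := mem_iUnion.2 ⟨G, hz⟩
      rw [← hTU, hFr] at h1
      simpa using h1
    have hone := fun k => one_dim (F k).isOpen_J (measurableSet_newPar F k) (newPar_subset F k)
      (F k).deriv_a (F k).cont_a' (L := fun _ => 1) measurable_const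
    calc ∫⁻ α in Set.Ioo 0 Real.pi, orbitSum (fun _ => 1) (vfc μ) Ω α
        = ∫⁻ α in Set.Ioo 0 Real.pi, ∑' k, ∑' s : {s : ℝ // s ∈ newPar F k ∧
          (F k).a s = α}, (1 : ℝ≥0∞) :=
          setLIntegral_congr_fun measurableSet_Ioo fun α hα =>
            orbitSum_eq (fun _ => 1) F hΩ hF hα
      _ ≤ ∫⁻ α, ∑' k, ∑' s : {s : ℝ // s ∈ newPar F k ∧ (F k).a s = α}, (1 : ℝ≥0∞) :=
          setLIntegral_le_lintegral _ _
      _ = ∑' k, ∫⁻ α, ∑' s : {s : ℝ // s ∈ newPar F k ∧ (F k).a s = α}, (1 : ℝ≥0∞) :=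
          lintegral_tsum fun k => (hone k).1
      _ = ∑' k, ∫⁻ s in newPar F k, ENNReal.ofReal |(F k).a' s| * 1 :=
          tsum_congr fun k => (hone k).2
      _ ≤ ∑' k, ∫⁻ z in (F k).img (newPar F k), G z := by
          apply ENNReal.tsum_le_tsum fun k => ?_
          rw [(F k).lintegral_img (measurableSet_newPar F k) (newPar_subset F k) _ hG]
          refine setLIntegral_mono' (measurableSet_newPar F k) fun s hs => ?_
          rw [mul_one]
          exact h (F k) s (newPar_subset F k hs)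
      _ = ∫⁻ z in ⋃ k, (F k).img (newPar F k), G z :=
          (lintegral_iUnion (fun k => (F k).measurableSet_img (measurableSet_newPar F k)
            (newPar_subset F k)) (disjoint_img F) _).symm
      _ ≤ ∫⁻ z in Ω, G z :=
          lintegral_mono_set (iUnion_subset fun k => (F k).img_subset (newPar_subset F k))

end Pool.Agent.Lib.MP_95e7ec_an
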