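import Mathlib
import Pool.Agent.Lib.MP_95e7ec_an.AvgDefs
import Pool.Agent.Lib.MP_95e7ec_an.SmDefs
import Pool.Agent.Lib.MP_95e7ec_an.NearAlg
import Pool.Agent.Lib.MP_95e7ec_an.WBound
import Pool.Agent.Lib.MP_95e7ec_an.Hull
import Pool.Agent.Lib.MP_95e7ec_an.Scale

/-!
# Closed orbits of the turned fields near a nondegenerate zero
-/

set_option autoImplicit false

open Set Filter Topology MeasureTheory
open scoped ContDiff ENNReal

namespace Pool.Agent.Lib.MP_95e7ec_an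

variable {D : ℕ}

theorem rotA_pe1 (μ : Pr D) (α x y : ℝ) :
    pe (rotA μ α).1 x y = Real.cos α * pe μ.1 x y - Real.sin α * pe μ.2 x y := by
  rw [avb_rotA_fst, avb_pe_add, avb_pe_smul, avb_pe_smul]
  simp only [smul_eq_mul]; ring

theorem rotA_pe2 (μ : Pr D) (α x y : ℝ) :
    pe (rotA μ α).2 x y = Real.sin α * pe μ.1 x y + Real.cos α * pe μ.2 x y := by
  rw [avb_rotA_snd, avb_pe_add, avb_pe_smul, avb_pe_smul]
  simp only [smul_eq_mul]; ring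

theorem rotA_pex1 (μ : Pr D) (α x y : ℝ) :
    pex (rotA μ α).1 x y = Real.cos α * pex μ.1 x y - Real.sin α * pex μ.2 x y := by
  rw [avb_rotA_fst, avb_pex_add, avb_pex_smul, avb_pex_smul]
  simp only [smul_eq_mul]; ring

theorem rotA_pex2 (μ : Pr D) (α x y : ℝ) :
    pex (rotA μ α).2 x y = Real.sin α * pex μ.1 x y + Real.cos α * pex μ.2 x y := by
  rw [avb_rotA_snd, avb_pex_add, avb_pex_smul, avb_pex_smul]
  simp only [smul_eq_mul]; ring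

theorem rotA_pey1 (μ : Pr D) (α x y : ℝ) :
    pey (rotA μ α).1 x y = Real.cos α * pey μ.1 x y - Real.sin α * pey μ.2 x y := by
  rw [avb_rotA_fst, avb_pey_add, avb_pey_smul, avb_pey_smul]
  simp only [smul_eq_mul]; ring

theorem rotA_pey2 (μ : Pr D) (α x y : ℝ) :
    pey (rotA μ α).2 x y = Real.sin α * pey μ.1 x y + Real.cos α * pey μ.2 x y := by
  rw [avb_rotA_snd, avb_pey_add, avb_pey_smul, avb_pey_smul]
  simp only [smul_eq_mul]; ring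

theorem jdet_rotA (μ : Pr D) (α : ℝ) (z : ℝ × ℝ) : jdet (rotA μ α) z = jdet μ z := by
  have h := Real.sin_sq_add_cos_sq α
  unfold jdet
  rw [rotA_pex1, rotA_pex2, rotA_pey1, rotA_pey2]
  linear_combination (pex μ.1 z.1 z.2 * pey μ.2 z.1 z.2 - pey μ.1 z.1 z.2 * pex μ.2 z.1 z.2) * h

theorem fro_rotA (μ : Pr D) (α : ℝ) (z : ℝ × ℝ) : fro (rotA μ α) z = fro μ z := by
  have h := Real.sin_sq_add_cos_sq α
  unfold fro
  rw [rotA_pex1, rotA_pex2, rotA_pey1, rotA_pey2]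
  linear_combination (pex μ.1 z.1 z.2 ^ 2 + pey μ.1 z.1 z.2 ^ 2 + pex μ.2 z.1 z.2 ^ 2 +
    pey μ.2 z.1 z.2 ^ 2) * h

theorem drem_rotA (μ : Pr D) (α : ℝ) (z0 z : ℝ × ℝ) : drem (rotA μ α) z0 z = drem μ z0 z := by
  have h := Real.sin_sq_add_cos_sq α
  unfold drem
  simp only [rotA_pex1, rotA_pex2, rotA_pey1, rotA_pey2]
  linear_combination ((pex μ.1 z.1 z.2 - pex μ.1 z0.1 z0.2) ^ 2 +
    (pey μ.1 z.1 z.2 - pey μ.1 z0.1 z0.2) ^ 2 +
    (pex μ.2 z.1 z.2 - pex μ.2 z0.1 z0.2) ^ 2 + (pey μ.2 z.1 z.2 - pey μ.2 z0.1 z0.2) ^ 2) * h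

theorem rem_rotA (μ : Pr D) (α : ℝ) (z0 z : ℝ × ℝ) :
    rem1 (rotA μ α) z0 z ^ 2 + rem2 (rotA μ α) z0 z ^ 2 = rem1 μ z0 z ^ 2 + rem2 μ z0 z ^ 2 := by
  have h := Real.sin_sq_add_cos_sq α
  have h1 : rem1 (rotA μ α) z0 z = Real.cos α * rem1 μ z0 z - Real.sin α * rem2 μ z0 z := by
    unfold rem1 rem2 vfc
    simp only [rotA_pe1, rotA_pex1, rotA_pey1]
    ring
  have h2 : rem2 (rotA μ α) z0 z = Real.sin α * rem1 μ z0 z + Real.cos α * rem2 μ z0 z := by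
    unfold rem1 rem2 vfc
    simp only [rotA_pe2, rotA_pex2, rotA_pey2]
    ring
  rw [h1, h2]
  linear_combination (rem1 μ z0 z ^ 2 + rem2 μ z0 z ^ 2) * h

/-- The local situation: `z0` is a nondegenerate zero, `Ω` is a small convex set. -/
structure LData (μ : Pr D) (Ω : Set (ℝ × ℝ)) (z0 : ℝ × ℝ) (M : ℝ) : Prop where
  zero : vfc μ z0 = 0
  one_le : 1 ≤ M
  fro_le : fro μ z0 ≤ M ^ 2
  det_ne : jdet μ z0 ≠ 0
  rem_le : ∀ z ∈ Ω, rem1 μ z0 z ^ 2 + rem2 μ z0 z ^ 2 ≤ 4 * M ^ 2 * nm (z - z0) ^ 4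
  drem_le : ∀ z ∈ Ω, drem μ z0 z ≤ 4 * M ^ 2 * nm (z - z0) ^ 2
  small : ∀ z ∈ Ω, 16 * M ^ 4 * nm (z - z0) < jdet μ z0 ^ 2
  conv : Convex ℝ Ω

variable {μ : Pr D} {Ω : Set (ℝ × ℝ)} {z0 : ℝ × ℝ} {M : ℝ}

theorem LData.rotA' (h : LData μ Ω z0 M) (α : ℝ) : LData (rotA μ α) Ω z0 M where
  zero := by
    rw [vfc_rotA, turn_eq_zero]
    exact h.zero
  one_le := h.one_le
  fro_le := by rw [fro_rotA]; exact h.fro_le
  det_ne := by rw [jdet_rotA]; exact h.det_ne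
  rem_le := fun z hz => by rw [rem_rotA]; exact h.rem_le z hz
  drem_le := fun z hz => by rw [drem_rotA]; exact h.drem_le z hz
  small := fun z hz => by rw [jdet_rotA]; exact h.small z hz
  conv := h.conv

theorem nm_nonneg' (u : ℝ × ℝ) : 0 ≤ nm u := Real.sqrt_nonneg _

theorem LData.uniq (h : LData μ Ω z0 M) {z : ℝ × ℝ} (hz : z ∈ Ω) (h0 : vfc μ z = 0) : z = z0 := by
  by_contra hne
  have hρ : 0 < nm (z - z0) := nm_pos (sub_ne_zero.2 hne)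
  have hsq := nm_sq (z - z0)
  simp only [Prod.fst_sub, Prod.snd_sub] at hsq
  set ρ := nm (z - z0) with hρd
  have h1 := h.rem_le z hz
  have h2 := h.small z hz
  have hfro := h.fro_le
  have hM := h.one_le
  rw [← hρd] at h1 h2
  unfold rem1 rem2 at h1
  rw [h0, h.zero] at h1
  simp only [Prod.fst_zero, Prod.snd_zero] at h1
  unfold fro at hfro
  unfold jdet at h2
  set p := pex μ.1 z0.1 z0.2
  set q := pey μ.1 z0.1 z0.2
  set r := pex μ.2 z0.1 z0.2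
  set s := pey μ.2 z0.1 z0.2
  set x := z.1 - z0.1
  set y := z.2 - z0.2
  have hfro' : p ^ 2 + q ^ 2 + r ^ 2 + s ^ 2 ≤ M ^ 2 := by linarith
  have hdet := na_det_le p q r s M hfro'
  set Δ := p * s - q * r with hΔ
  have h2' : 16 * M ^ 4 * ρ < Δ ^ 2 := h2
  -- `Δ² ρ² ≤ M² |A w|²`
  have h3 : Δ ^ 2 * ρ ^ 2 ≤ M ^ 2 * ((p * x + q * y) ^ 2 + (r * x + s * y) ^ 2) := by
    have e1 : Δ * x = s * (p * x + q * y) + -q * (r * x + s * y) := by rw [hΔ]; ring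
    have e2 : Δ * y = -r * (p * x + q * y) + p * (r * x + s * y) := by rw [hΔ]; ring
    have c1 := na_cs s (-q) (p * x + q * y) (r * x + s * y)
    have c2 := na_cs (-r) p (p * x + q * y) (r * x + s * y)
    rw [← e1] at c1
    rw [← e2] at c2
    have c3 : Δ ^ 2 * ρ ^ 2 ≤ (p ^ 2 + q ^ 2 + r ^ 2 + s ^ 2) *
        ((p * x + q * y) ^ 2 + (r * x + s * y) ^ 2) := by
      rw [hsq]; nlinarith
    exact c3.trans (mul_le_mul_of_nonneg_right hfro' (by positivity))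
  have h4 : (p * x + q * y) ^ 2 + (r * x + s * y) ^ 2 ≤ 4 * M ^ 2 * ρ ^ 4 := by
    nlinarith
  have h5 : Δ ^ 2 * ρ ^ 2 ≤ (4 * M ^ 4 * ρ ^ 2) * ρ ^ 2 := by
    calc Δ ^ 2 * ρ ^ 2 ≤ _ := h3
      _ ≤ M ^ 2 * (4 * M ^ 2 * ρ ^ 4) := mul_le_mul_of_nonneg_left h4 (by positivity)
      _ = _ := by ring
  have h6 : Δ ^ 2 ≤ 4 * M ^ 4 * ρ ^ 2 := le_of_mul_le_mul_right h5 (by positivity)
  have h7 : Δ ^ 2 ≤ M ^ 4 / 4 := by
    rw [abs_le] at hdet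
    nlinarith
  have hM4 : 0 < M ^ 4 := by positivity
  have h8 : ρ < 1 / 64 := by
    have : M ^ 4 * (16 * ρ) < M ^ 4 * (1 / 4) := by linarith
    have := lt_of_mul_lt_mul_left this hM4.le
    linarith
  have h9 : M ^ 4 * (16 * ρ) < M ^ 4 * (4 * ρ ^ 2) := by linarith
  have := lt_of_mul_lt_mul_left h9 hM4.le
  nlinarith

/-- the components of the field in terms of the linear part and the remainder -/
theorem vfc_eq_lin (h : vfc μ z0 = 0) (z : ℝ × ℝ) :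
    (vfc μ z).1 = pex μ.1 z0.1 z0.2 * (z.1 - z0.1) + pey μ.1 z0.1 z0.2 * (z.2 - z0.2) +
      rem1 μ z0 z ∧
    (vfc μ z).2 = pex μ.2 z0.1 z0.2 * (z.1 - z0.1) + pey μ.2 z0.1 z0.2 * (z.2 - z0.2) +
      rem2 μ z0 z := by
  unfold rem1 rem2
  rw [h]
  simp only [Prod.fst_zero, Prod.snd_zero]
  constructor <;> ring

theorem pth_hasDerivAt {τ : ℝ} {x : ℝ × ℝ} {z : A × A} (hz : Sol μ τ x z) {t : ℝ}
    (ht : t ∈ Set.Ioo (0 : ℝ) 1) :
    HasDerivAt (fun t => (pth z t).1) (τ * (vfc μ (pth z t)).1) t ∧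
    HasDerivAt (fun t => (pth z t).2) (τ * (vfc μ (pth z t)).2) t := by
  have h1 := jp_hasDerivAt' hz.1 ht
  have h2 := jp_hasDerivAt' hz.2 ht
  rw [jp_pe_ext] at h1 h2
  exact ⟨h1, h2⟩

end Pool.Agent.Lib.MP_95e7ec_an
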