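import Mathlib
import Pool.Agent.Lib.MP_95e7ec_an.NearZero

/-!
# The speed of the angle of a family of closed orbits near a nondegenerate zero
-/

set_option autoImplicit false

open Set Filter Topology MeasureTheory
open scoped ContDiff ENNReal

namespace Pool.Agent.Lib.MP_95e7ec_an

variable {D : ℕ} {μ : Pr D} {Ω : Set (ℝ × ℝ)} {z0 : ℝ × ℝ} {M : ℝ}

theorem Fam.pth_mem (F : Fam μ Ω) {s : ℝ} (hs : s ∈ F.J) (t : ℝ) : pth (F.Z s) t ∈ Ω := by
  rw [jp_pth_proj]
  exact F.sub s hs _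

theorem Fam.vfc_ne (F : Fam μ Ω) {s : ℝ} (hs : s ∈ F.J) (t : ℝ) :
    vfc (rotA μ (F.a s)) (pth (F.Z s) t) ≠ 0 := by
  intro h0
  have h := F.jac_pos s hs (Set.projIcc 0 1 (zero_le_one' ℝ) t)
  rw [← jp_pth_proj, h0] at h
  simp [det2] at h

theorem Fam.pth_one (F : Fam μ Ω) {s : ℝ} (hs : s ∈ F.J) :
    pth (F.Z s) 1 = pth (F.Z s) 0 := by
  have a1 : pth (F.Z s) 1 = at' (F.Z s) 1 := jp_pth_coe (F.Z s) 1
  have a2 : pth (F.Z s) 0 = at' (F.Z s) 0 := jp_pth_coe (F.Z s) 0
  rw [a1, a2, F.closed s hs]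

/-- the orbits of a family in a small convex set around `z0` have `z0` in the convex hull, hence the
distance to `z0` is at most half of the length -/
theorem LData.nm_le (h : LData μ Ω z0 M) (F : Fam μ Ω) {s : ℝ} (hs : s ∈ F.J) (t : ℝ) :
    nm (pth (F.Z s) t - z0) ≤ F.len s / 2 := by
  have h' := h.rotA' (F.a s)
  have hC := F.isClosedOrbit hs
  have hsub : F.orb s ⊆ Ω := by
    rintro z ⟨u, rfl⟩
    exact F.sub s hs u
  obtain ⟨z', hz', h0⟩ := exists_zero_in_hull (vfc_contDiff (rotA μ (F.a s))) hC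
  have hz'Ω : z' ∈ Ω := convexHull_min hsub h.conv hz'
  have hz'' : z' = z0 := h'.uniq hz'Ω h0
  rw [hz''] at hz'
  have hlen0 : 0 ≤ F.len s := by
    unfold Fam.len
    exact intervalIntegral.integral_nonneg zero_le_one fun t _ =>
      mul_nonneg (F.tau_pos s hs).le (nm_nonneg' _)
  apply nm_le_of_mem_hull _ (by linarith) hz'
  intro q hq
  have h1 := two_nm_le_orbitLength (v := vfc (rotA μ (F.a s)))
    (continuous_vfc_AS (rotA μ (F.a s))) (C := F.orb s) (p := pth (F.Z s) t) (q := q)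
    (by rw [jp_pth_proj]; exact ⟨_, rfl⟩) hq
  rw [F.orbitLength_eq hs, ENNReal.ofReal_le_ofReal_iff hlen0] at h1
  linarith

/-- the speed of the angle -/
theorem LData.speed (h : LData μ Ω z0 M) (F : Fam μ Ω) {s : ℝ} (hs : s ∈ F.J) :
    ENNReal.ofReal |F.a' s| ≤ ∫⁻ t in Set.Ioo (0 : ℝ) 1, ENNReal.ofReal (F.jac s t) *
      ENNReal.ofReal (54 * M ^ 4 / jdet μ z0 ^ 2 * (1 / nm (pth (F.Z s) t - z0))) := by
  have h' := h.rotA' (F.a s)
  have hM := h.one_le
  have hMp : 0 < M := by linarith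
  have hτ := F.tau_pos s hs
  have hdet : jdet μ z0 = jdet (rotA μ (F.a s)) z0 := (jdet_rotA _ _ _).symm
  -- the path
  set Z : ℝ → ℝ × ℝ := pth (F.Z s) with hZ
  set μ' := rotA μ (F.a s) with hμ'
  have hZΩ : ∀ t, Z t ∈ Ω := F.pth_mem hs
  have hZc : Continuous Z := jp_pth_continuous _
  have hvne : ∀ t, vfc μ' (Z t) ≠ 0 := F.vfc_ne hs
  set x : ℝ → ℝ := fun t => (Z t).1 - z0.1 with hx
  set y : ℝ → ℝ := fun t => (Z t).2 - z0.2 with hy
  set ρ : ℝ → ℝ := fun t => nm (Z t - z0) with hρ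
  have hρ2 : ∀ t, ρ t ^ 2 = x t ^ 2 + y t ^ 2 := fun t => nm_sq _
  have hρpos : ∀ t, 0 < ρ t := by
    intro t
    apply nm_pos
    rw [sub_ne_zero]
    intro heq
    apply hvne t
    rw [heq]
    exact h'.zero
  have hxc : Continuous x := (continuous_fst.comp hZc).sub continuous_const
  have hyc : Continuous y := (continuous_snd.comp hZc).sub continuous_const
  -- the linear part
  set p := pex μ'.1 z0.1 z0.2 with hp
  set q := pey μ'.1 z0.1 z0.2 with hq
  set r := pex μ'.2 z0.1 z0.2 with hr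
  set w := pey μ'.2 z0.1 z0.2 with hw
  have hfro : p ^ 2 + q ^ 2 + r ^ 2 + w ^ 2 ≤ M ^ 2 := h'.fro_le
  set Δ := p * w - q * r with hΔ
  have hΔ' : jdet μ' z0 = Δ := rfl
  have hΔne : Δ ≠ 0 := h'.det_ne
  set e1 : ℝ → ℝ := fun t => rem1 μ' z0 (Z t) with he1
  set e2 : ℝ → ℝ := fun t => rem2 μ' z0 (Z t) with he2
  have hX1 : ∀ t, (vfc μ' (Z t)).1 = p * x t + q * y t + e1 t := fun t =>
    (vfc_eq_lin h'.zero (Z t)).1
  have hX2 : ∀ t, (vfc μ' (Z t)).2 = r * x t + w * y t + e2 t := fun t =>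
    (vfc_eq_lin h'.zero (Z t)).2
  have he : ∀ t, e1 t ^ 2 + e2 t ^ 2 ≤ 4 * M ^ 2 * ρ t ^ 4 := fun t => h'.rem_le _ (hZΩ t)
  have he' : ∀ t, e1 t ^ 2 + e2 t ^ 2 ≤ 4 * M ^ 2 * (x t ^ 2 + y t ^ 2) ^ 2 := by
    intro t
    have : (x t ^ 2 + y t ^ 2) ^ 2 = ρ t ^ 4 := by rw [← hρ2]; ring
    rw [this]
    exact he t
  have hsm : ∀ t, 16 * M ^ 4 * ρ t < Δ ^ 2 := fun t => h'.small _ (hZΩ t)
  have hsm' : ∀ t, 256 * M ^ 8 * (x t ^ 2 + y t ^ 2) < Δ ^ 4 := by
    intro t
    rw [← hρ2]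
    have h1 : (16 * M ^ 4 * ρ t) ^ 2 < (Δ ^ 2) ^ 2 :=
      pow_lt_pow_left₀ (hsm t) (by have := hρpos t; positivity) two_ne_zero
    calc 256 * M ^ 8 * ρ t ^ 2 = (16 * M ^ 4 * ρ t) ^ 2 := by ring
      _ < (Δ ^ 2) ^ 2 := h1
      _ = Δ ^ 4 := by ring
  have hW : ∀ t, 0 < x t ^ 2 + y t ^ 2 := by
    intro t
    rw [← hρ2]
    have := hρpos t
    positivity
  have hdx : ∀ t ∈ Set.Ioo (0 : ℝ) 1, HasDerivAt x (F.τ s * (p * x t + q * y t + e1 t)) t := by
    intro t ht
    have := (pth_hasDerivAt (F.sol s hs) ht).1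
    rw [← hμ', ← hZ, hX1] at this
    exact this.sub_const _
  have hdy : ∀ t ∈ Set.Ioo (0 : ℝ) 1, HasDerivAt y (F.τ s * (r * x t + w * y t + e2 t)) t := by
    intro t ht
    have := (pth_hasDerivAt (F.sol s hs) ht).2
    rw [← hμ', ← hZ, hX2] at this
    exact this.sub_const _
  have hZ1 : Z 1 = Z 0 := F.pth_one hs
  have hx1 : x 1 = x 0 := by simp only [hx, hZ1]
  have hy1 : y 1 = y 0 := by simp only [hy, hZ1]
  -- saddles have no closed orbits
  have hΔpos : 0 < Δ := by
    by_contra hcon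
    have hneg : Δ < 0 := lt_of_le_of_ne (not_lt.1 hcon) hΔne
    obtain ⟨c, hc, hc0⟩ := exists_hasDerivAt_eq_zero
      (f := fun t => (p - w) / 2 * (x t ^ 2 - y t ^ 2) + (q + r) * (x t * y t))
      (f' := fun t => F.τ s * (((p - w) * x t + (q + r) * y t) * (p * x t + q * y t + e1 t) +
        ((q + r) * x t - (p - w) * y t) * (r * x t + w * y t + e2 t)))
      zero_lt_one (Continuous.continuousOn (by fun_prop))
      (by simp only [hx1, hy1]) (by
        intro t ht
        have d1 := hdx t ht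
        have d2 := hdy t ht
        have d := (((d1.pow 2).sub (d2.pow 2)).const_mul ((p - w) / 2)).add
          ((d1.mul d2).const_mul (q + r))
        refine d.congr_deriv ?_
        simp only [Nat.cast_ofNat, Nat.add_one_sub_one, pow_one]
        ring)
    have := na_saddle hM hfro hneg (hW c) (he' c) (hsm' c)
    rcases mul_eq_zero.1 hc0 with h0 | h0
    · exact hτ.ne' h0
    · exact this.ne' h0
  -- the trace is small
  have htr : (p + w) ^ 2 ≤ 2 * Δ := by
    by_contra hcon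
    push Not at hcon
    obtain ⟨c, hc, hc0⟩ := exists_hasDerivAt_eq_zero
      (f := fun t => (Δ * (x t ^ 2 + y t ^ 2) + (w * x t - q * y t) ^ 2 +
        (-(r * x t) + p * y t) ^ 2) / 2)
      (f' := fun t => F.τ s * ((Δ * x t + w * (w * x t - q * y t) - r * (-(r * x t) + p * y t)) *
        (p * x t + q * y t + e1 t) +
        (Δ * y t - q * (w * x t - q * y t) + p * (-(r * x t) + p * y t)) *
        (r * x t + w * y t + e2 t)))
      zero_lt_one (Continuous.continuousOn (by fun_prop))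
      (by simp only [hx1, hy1]) (by
        intro t ht
        have d1 := hdx t ht
        have d2 := hdy t ht
        have d := (((((d1.pow 2).add (d2.pow 2)).const_mul Δ).add
          (((d1.const_mul w).sub (d2.const_mul q)).pow 2)).add
          ((((d1.const_mul r).neg).add (d2.const_mul p)).pow 2)).div_const 2
        refine d.congr_deriv ?_
        simp only [Nat.cast_ofNat, Nat.add_one_sub_one, pow_one, Pi.sub_apply, Pi.add_apply,
          Pi.neg_apply]
        ring)
    have := na_node hM hfro hΔpos hcon.le (hW c) (he' c) (hsm' c)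
    rcases mul_eq_zero.1 hc0 with h0 | h0
    · exact hτ.ne' h0
    · exact this h0
  -- the weight
  set Q : ℝ → ℝ := fun t => naQ p q r w (x t) (y t) with hQ
  have hQpos : ∀ t, 0 < Q t := by
    intro t
    have := naQ_lower (x := x t) (y := y t) htr
    have h1 := hW t
    have h2 : 0 < (p * w - q * r) / 2 * (x t ^ 2 + y t ^ 2) := by
      rw [← hΔ]; positivity
    exact lt_of_lt_of_le h2 this
  have hQc : Continuous Q := by
    simp only [hQ]
    unfold naQ
    fun_prop
  set b : ℝ → ℝ := fun t => 2 * M / Q t with hb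
  set β : ℝ → ℝ := fun t => -(2 * M * (naQx p q r w (x t) (y t) * (vfc μ' (Z t)).1 +
    naQy p q r w (x t) (y t) * (vfc μ' (Z t)).2) / Q t ^ 2) with hβ
  have hVc : Continuous fun t => vfc μ' (Z t) := (continuous_vfc_AS μ').comp hZc
  have hV1c : Continuous fun t => (vfc μ' (Z t)).1 := continuous_fst.comp hVc
  have hV2c : Continuous fun t => (vfc μ' (Z t)).2 := continuous_snd.comp hVc
  have hbc : Continuous b := continuous_const.div hQc fun t => (hQpos t).ne'
  have hβc : Continuous β := by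
    have c1 : Continuous fun t => naQx p q r w (x t) (y t) := by unfold naQx; fun_prop
    have c2 : Continuous fun t => naQy p q r w (x t) (y t) := by unfold naQy; fun_prop
    exact ((continuous_const.mul ((c1.mul hV1c).add (c2.mul hV2c))).div (hQc.pow 2)
      fun t => (pow_pos (hQpos t) 2).ne').neg
  have hdQ : ∀ t ∈ Set.Ioo (0 : ℝ) 1, HasDerivAt Q (F.τ s * (naQx p q r w (x t) (y t) *
      (vfc μ' (Z t)).1 + naQy p q r w (x t) (y t) * (vfc μ' (Z t)).2)) t := by
    intro t ht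
    have d1 := hdx t ht
    have d2 := hdy t ht
    rw [← hX1] at d1
    rw [← hX2] at d2
    have d := ((((d1.pow 2).const_mul r).add ((d1.mul d2).const_mul (w - p))).sub
      ((d2.pow 2).const_mul q)).const_mul (r - q)
    refine d.congr_deriv ?_
    unfold naQx naQy
    simp only [Nat.cast_ofNat, Nat.add_one_sub_one, pow_one]
    ring
  have hlenpos : 0 < F.len s := by
    have := h.nm_le F hs 0
    have h1 := hρpos 0
    simp only [hρ] at h1
    linarith
  have hlen : F.len s = ∫ t in (0 : ℝ)..1, F.τ s * nm (vfc μ' (Z t)) := by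
    rw [Fam.len]
    simp only [hμ', vfc_rotA, nm_turn]
    rfl
  have hNc : Continuous fun t => nm (vfc μ' (Z t)) := continuous_nm.comp hVc
  refine F.speed_le hs (b := b) (β := β) hbc.continuousOn hβc.continuousOn ?_ ?_ ?_
    (G := fun z => ENNReal.ofReal (54 * M ^ 4 / jdet μ z0 ^ 2 * (1 / nm (z - z0)))) ?_
  · -- derivative of the weight
    intro t ht
    have d := (hasDerivAt_const t (2 * M)).div (hdQ t ht) (hQpos t).ne'
    refine d.congr_deriv ?_
    have := (hQpos t).ne'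
    simp only [hβ]
    field_simp
    ring
  · simp only [hb, hQ, hx1, hy1]
  · -- lower bound
    have hpt : ∀ t ∈ Set.Icc (0 : ℝ) 1, F.τ s * nm (vfc μ' (Z t)) / F.len s ≤
        F.τ s * (b t * nm (vfc μ' (Z t)) ^ 2) := by
      intro t _
      have h1 : Q t ≤ 4 * M * ρ t * nm (vfc μ' (Z t)) := by
        apply naQ_upper (e1 := e1 t) (e2 := e2 t) hM hfro hΔpos htr (hρpos t) (hρ2 t) (he t)
          (hsm t) (nm_nonneg' _)
        rw [nm_sq, hX1, hX2]
      have h2 : ρ t ≤ F.len s / 2 := h.nm_le F hs t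
      have hN : 0 < nm (vfc μ' (Z t)) := nm_pos (hvne t)
      have h3 : 1 / F.len s ≤ b t * nm (vfc μ' (Z t)) := by
        have h4 : b t * nm (vfc μ' (Z t)) = 2 * M * nm (vfc μ' (Z t)) / Q t := by
          simp only [hb]; ring
        rw [h4, div_le_div_iff₀ hlenpos (hQpos t)]
        have h5 : ρ t * nm (vfc μ' (Z t)) ≤ F.len s / 2 * nm (vfc μ' (Z t)) :=
          mul_le_mul_of_nonneg_right h2 hN.le
        have h6 : 4 * M * (ρ t * nm (vfc μ' (Z t))) ≤ 4 * M * (F.len s / 2 * nm (vfc μ' (Z t))) :=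
          mul_le_mul_of_nonneg_left h5 (by positivity)
        nlinarith
      calc F.τ s * nm (vfc μ' (Z t)) / F.len s
          = F.τ s * ((1 / F.len s) * nm (vfc μ' (Z t))) := by ring
        _ ≤ F.τ s * ((b t * nm (vfc μ' (Z t))) * nm (vfc μ' (Z t))) := by
            apply mul_le_mul_of_nonneg_left _ hτ.le
            exact mul_le_mul_of_nonneg_right h3 hN.le
        _ = F.τ s * (b t * nm (vfc μ' (Z t)) ^ 2) := by ring
    have hint : ∫ t in (0 : ℝ)..1, F.τ s * nm (vfc μ' (Z t)) / F.len s = 1 := by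
      rw [intervalIntegral.integral_div, ← hlen]
      exact div_self hlenpos.ne'
    refine le_trans (le_of_eq hint.symm) ?_
    apply intervalIntegral.integral_mono_on zero_le_one
    · exact ((continuous_const.mul hNc).div_const _).intervalIntegrable _ _
    · exact (continuous_const.mul (hbc.mul (hNc.pow 2))).intervalIntegrable _ _
    · exact hpt
  · -- the majorant
    intro t _
    apply ENNReal.ofReal_le_ofReal
    rw [hdet, hΔ']
    have hdv : (jtr μ' (Z t) - (p + w)) ^ 2 ≤ 8 * M ^ 2 * ρ t ^ 2 := by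
      have h1 := h'.drem_le _ (hZΩ t)
      unfold drem at h1
      unfold jtr
      have h2 : (pex μ'.1 (Z t).1 (Z t).2 + pey μ'.2 (Z t).1 (Z t).2 - (p + w)) ^ 2 ≤
          2 * ((pex μ'.1 (Z t).1 (Z t).2 - p) ^ 2 + (pey μ'.2 (Z t).1 (Z t).2 - w) ^ 2) := by
        nlinarith [sq_nonneg ((pex μ'.1 (Z t).1 (Z t).2 - p) - (pey μ'.2 (Z t).1 (Z t).2 - w))]
      have h3 := sq_nonneg (pey μ'.1 (Z t).1 (Z t).2 - q)
      have h4 := sq_nonneg (pex μ'.2 (Z t).1 (Z t).2 - r)
      simp only [hρ]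
      linarith
    have := na_div (dv := jtr μ' (Z t)) hM hfro hΔpos htr (hρpos t) (hρ2 t) (he t) hdv
    simp only [hβ, hb, hX1, hX2]
    exact this

end Pool.Agent.Lib.MP_95e7ec_an
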