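import Mathlib
import Pool.Agent.Lib.MP_95e7ec_an.NearSpeed
import Pool.Agent.Lib.MP_95e7ec_an.InvDist
import Pool.Agent.Lib.MP_95e7ec_an.ScaleMain

/-!
# The averaged number of closed orbits near a nondegenerate zero, and at most one scale away
-/

set_option autoImplicit false

open Set Filter Topology MeasureTheory
open scoped ContDiff ENNReal

namespace Pool.Agent.Lib.MP_95e7ec_an

variable {D : ℕ}

/-- the averaged number of closed orbits in a small convex set around a nondegenerate zero -/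
theorem near_count {μ : Pr D} {Ω : Set (ℝ × ℝ)} {z0 : ℝ × ℝ} {M : ℝ} (h : LData μ Ω z0 M)
    (hΩ : IsOpen Ω) (hsub : Ω ⊆ disc z0 (jdet μ z0 ^ 2 / (16 * M ^ 4))) :
    ∫⁻ α in Set.Ioo 0 Real.pi, ((orbSet (turn α (vfc μ)) Ω).encard : ℝ≥0∞) ≤
      ENNReal.ofReal (7 * Real.pi) := by
  have hM := h.one_le
  have hMp : 0 < M := by linarith
  have hpi := Real.pi_pos
  have hΔ : 0 < jdet μ z0 ^ 2 := by
    have := h.det_ne
    positivity
  set r := jdet μ z0 ^ 2 / (16 * M ^ 4) with hr
  have hrpos : 0 < r := by positivity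
  set k := 54 * M ^ 4 / jdet μ z0 ^ 2 with hk
  have hkpos : 0 < k := by positivity
  have hmeas : Measurable fun z : ℝ × ℝ => ENNReal.ofReal (k * (1 / nm (z - z0))) := by
    have : Measurable fun z : ℝ × ℝ => nm (z - z0) :=
      (continuous_nm.comp (continuous_id.sub continuous_const)).measurable
    exact ((measurable_const.div this).const_mul k).ennreal_ofReal
  refine (count_le_of μ hΩ hmeas fun F s hs => h.speed F hs).2.trans ?_
  calc ∫⁻ z in Ω, ENNReal.ofReal (k * (1 / nm (z - z0)))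
      ≤ ∫⁻ z in disc z0 r, ENNReal.ofReal (k * (1 / nm (z - z0))) := lintegral_mono_set hsub
    _ = ∫⁻ z in disc z0 r, ENNReal.ofReal k * ENNReal.ofReal (1 / nm (z - z0)) := by
        apply lintegral_congr
        intro z
        rw [ENNReal.ofReal_mul hkpos.le]
    _ = ENNReal.ofReal k * ∫⁻ z in disc z0 r, ENNReal.ofReal (1 / nm (z - z0)) :=
        lintegral_const_mul' _ _ ENNReal.ofReal_ne_top
    _ ≤ ENNReal.ofReal k * ENNReal.ofReal (2 * Real.pi * r) :=
        mul_le_mul_right (lintegral_inv_nm z0 hrpos.le) _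
    _ = ENNReal.ofReal (k * (2 * Real.pi * r)) := (ENNReal.ofReal_mul hkpos.le).symm
    _ ≤ ENNReal.ofReal (7 * Real.pi) := by
        apply ENNReal.ofReal_le_ofReal
        have : k * (2 * Real.pi * r) = 27 / 4 * Real.pi := by
          have hne := h.det_ne
          rw [hk, hr]
          field_simp
          ring
        rw [this]
        nlinarith

theorem orbSet_aemeasurable {n : ℕ} (μ : Pr n) {Ω : Set (ℝ × ℝ)} (hΩ : IsOpen Ω) :
    AEMeasurable (fun α => ((orbSet (turn α (vfc μ)) Ω).encard : ℝ≥0∞))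
      (volume.restrict (Set.Ioo 0 Real.pi)) := by
  have hrw : (fun α => ((orbSet (turn α (vfc μ)) Ω).encard : ℝ≥0∞)) =
      orbitSum (fun _ => 1) (vfc μ) Ω := by
    funext α
    exact (orbitSum_one _ _ _).symm
  rw [hrw]
  exact orbitSum_aemeasurable μ hΩ measurable_const

theorem convex_disc (z0 : ℝ × ℝ) (ρ : ℝ) : Convex ℝ (disc z0 ρ) := by
  intro x hx y hy a b ha hb hab
  simp only [disc, Set.mem_ofPred_eq, Prod.fst_add, Prod.snd_add, Prod.smul_fst, Prod.smul_snd,
    smul_eq_mul] at hx hy ⊢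
  have hb' : b = 1 - a := by linarith
  subst hb'
  have e1 : a * x.1 + (1 - a) * y.1 - z0.1 = a * (x.1 - z0.1) + (1 - a) * (y.1 - z0.1) := by ring
  have e2 : a * x.2 + (1 - a) * y.2 - z0.2 = a * (x.2 - z0.2) + (1 - a) * (y.2 - z0.2) := by ring
  rw [e1, e2]
  have key : (a * (x.1 - z0.1) + (1 - a) * (y.1 - z0.1)) ^ 2 +
      (a * (x.2 - z0.2) + (1 - a) * (y.2 - z0.2)) ^ 2 ≤
      a * ((x.1 - z0.1) ^ 2 + (x.2 - z0.2) ^ 2) +
      (1 - a) * ((y.1 - z0.1) ^ 2 + (y.2 - z0.2) ^ 2) := by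
    nlinarith [mul_nonneg (mul_nonneg ha hb) (add_nonneg
      (sq_nonneg ((x.1 - z0.1) - (y.1 - z0.1))) (sq_nonneg ((x.2 - z0.2) - (y.2 - z0.2))))]
  refine lt_of_le_of_lt key ?_
  rcases eq_or_lt_of_le ha with h0 | h0
  · rw [← h0]
    simpa using hy
  · have h1 := mul_lt_mul_of_pos_left hx h0
    have h2 := mul_le_mul_of_nonneg_left hy.le hb
    nlinarith

theorem nm_lt_of_mem_disc {z0 z : ℝ × ℝ} {ρ : ℝ} (hρ : 0 < ρ) (h : z ∈ disc z0 ρ) :
    nm (z - z0) < ρ := by
  have h1 := nm_sq (z - z0)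
  simp only [Prod.fst_sub, Prod.snd_sub] at h1
  simp only [disc, Set.mem_ofPred_eq] at h
  exact lt_of_pow_lt_pow_left₀ 2 hρ.le (by rw [h1]; exact h)

/-- The closed orbits contained in the disc `disc z0 ρ`, for various discs, which have the zero `z0`
in the convex hull: a cover by a small disc and by the sets of one scale of lengths. -/
theorem hull_cover {v : ℝ × ℝ → ℝ × ℝ} (hv : Continuous v) {C : Set (ℝ × ℝ)}
    (hC : IsClosedOrbit v C) {z0 : ℝ × ℝ} (hz0 : z0 ∈ convexHull ℝ C) {r : ℝ} (hr : 0 < r)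
    {K : ℕ} (hK : 1 ≤ 2 ^ (K + 1) * (2 * r)) (hL : orbitLength v C ≤ 1) :
    C ⊆ disc z0 r ∨ ∃ k ∈ Finset.range (K + 1), C ∈ lenSet v (disc z0 (2 * (2 ^ k * (2 * r))))
      (ENNReal.ofReal (2 ^ k * (2 * r))) (ENNReal.ofReal (2 * (2 ^ k * (2 * r)))) := by
  rcases lt_or_ge (orbitLength v C) (ENNReal.ofReal (2 * r)) with h | h
  · left
    have hfin : orbitLength v C ≠ ⊤ := ne_top_of_lt h
    set b := (orbitLength v C).toReal with hb
    have hb2 : b < 2 * r := by
      rw [hb]
      exact (ENNReal.lt_ofReal_iff_toReal_lt hfin).1 h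
    exact subset_disc_of_hull hv (b := b) ENNReal.toReal_nonneg (by linarith)
      (by rw [hb, ENNReal.ofReal_toReal hfin]) hz0
  · right
    have hL2 : orbitLength v C ≤ ENNReal.ofReal (2 ^ (K + 1) * (2 * r)) := by
      refine hL.trans ?_
      rw [← ENNReal.ofReal_one]
      exact ENNReal.ofReal_le_ofReal hK
    have key : ∀ m : ℕ, orbitLength v C ≤ ENNReal.ofReal (2 ^ (m + 1) * (2 * r)) →
        ∃ k ∈ Finset.range (m + 1), ENNReal.ofReal (2 ^ k * (2 * r)) ≤ orbitLength v C ∧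
          orbitLength v C ≤ ENNReal.ofReal (2 * (2 ^ k * (2 * r))) := by
      intro m
      induction m with
      | zero =>
        intro h1
        refine ⟨0, by simp, by simpa using h, ?_⟩
        refine h1.trans (ENNReal.ofReal_le_ofReal (le_of_eq ?_))
        ring
      | succ m ih =>
        intro h1
        rcases le_total (orbitLength v C) (ENNReal.ofReal (2 ^ (m + 1) * (2 * r))) with h2 | h2
        · obtain ⟨k, hk, hk2⟩ := ih h2
          refine ⟨k, ?_, hk2⟩
          rw [Finset.mem_range] at hk ⊢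
          omega
        · refine ⟨m + 1, by simp, h2, ?_⟩
          refine h1.trans (ENNReal.ofReal_le_ofReal (le_of_eq ?_))
          ring
    obtain ⟨k, hk, hk1, hk2⟩ := key K hL2
    refine ⟨k, hk, ⟨hC, ?_⟩, hk1, hk2⟩
    have hpos : 0 < 2 ^ k * (2 * r) := by positivity
    exact subset_disc_of_hull hv (b := 2 * (2 ^ k * (2 * r))) (by positivity) (by linarith) hk2 hz0

end Pool.Agent.Lib.MP_95e7ec_an
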