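import Mathlib
import Pool.Agent.Lib.MP_95e7ec_an.SmDefs
import Pool.Agent.Lib.MP_95e7ec_an.AvgBasic
import Pool.Agent.Lib.MP_95e7ec_an.Arr
import Pool.Agent.Lib.MP_95e7ec_an.Zeros

/-!
# Adding a constant to a planar polynomial field; the Jacobian determinant
-/

set_option autoImplicit false

open Set Filter Topology MeasureTheory
open scoped ContDiff ENNReal

namespace Pool.Agent.Lib.MP_95e7ec_an

/-- the constant coefficient array -/
noncomputable def cstA (n : ℕ) (c : ℝ) : Co n := fun a b => if (a : ℕ) = 0 ∧ (b : ℕ) = 0 then c else 0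

theorem arr_add_C (n : ℕ) (P : MvPolynomial (Fin 2) ℝ) (c : ℝ) :
    arr n (P + MvPolynomial.C c) = arr n P + cstA n c := by
  classical
  funext a b
  simp only [arr, cstA, Pi.add_apply, MvPolynomial.coeff_add, MvPolynomial.coeff_C]
  congr 1
  have : (0 = Finsupp.single (0 : Fin 2) (a : ℕ) + Finsupp.single 1 (b : ℕ)) ↔
      ((a : ℕ) = 0 ∧ (b : ℕ) = 0) := by
    constructor
    · intro h
      have h0 := DFunLike.congr_fun h 0
      have h1 := DFunLike.congr_fun h 1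
      simp at h0 h1
      exact ⟨by rw [← h0], by rw [← h1]⟩
    · rintro ⟨h0, h1⟩
      rw [h0, h1]
      simp
  simp only [this]

theorem pex_cstA (n : ℕ) (c x y : ℝ) : pex (cstA n c) x y = 0 := by
  unfold pex cstA
  apply Finset.sum_eq_zero
  intro a _
  apply Finset.sum_eq_zero
  intro b _
  split_ifs with h
  · rw [h.1]
    simp
  · simp

theorem pey_cstA (n : ℕ) (c x y : ℝ) : pey (cstA n c) x y = 0 := by
  unfold pey cstA
  apply Finset.sum_eq_zero
  intro a _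
  apply Finset.sum_eq_zero
  intro b _
  split_ifs with h
  · rw [h.2]
    simp
  · simp

theorem pex_arr_add_C (n : ℕ) (P : MvPolynomial (Fin 2) ℝ) (c x y : ℝ) :
    pex (arr n (P + MvPolynomial.C c)) x y = pex (arr n P) x y := by
  rw [arr_add_C, avb_pex_add, pex_cstA, add_zero]

theorem pey_arr_add_C (n : ℕ) (P : MvPolynomial (Fin 2) ℝ) (c x y : ℝ) :
    pey (arr n (P + MvPolynomial.C c)) x y = pey (arr n P) x y := by
  rw [arr_add_C, avb_pey_add, pey_cstA, add_zero]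

/-- the field `X + c` -/
theorem vf_add_C (P Q : MvPolynomial (Fin 2) ℝ) (c z : ℝ × ℝ) :
    vf (P + MvPolynomial.C c.1) (Q + MvPolynomial.C c.2) z = vf P Q z + c := by
  unfold vf
  simp only [map_add, MvPolynomial.eval_C]
  rfl

theorem totalDegree_add_C {n : ℕ} {P : MvPolynomial (Fin 2) ℝ} (hP : P.totalDegree ≤ n) (c : ℝ) :
    (P + MvPolynomial.C c).totalDegree ≤ n := by
  refine (MvPolynomial.totalDegree_add _ _).trans ?_
  rw [MvPolynomial.totalDegree_C]
  simpa using hP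

theorem hasFDerivAt_pe {n : ℕ} (c : Co n) (z : ℝ × ℝ) :
    HasFDerivAt (fun z : ℝ × ℝ => pe c z.1 z.2)
      (pex c z.1 z.2 • ContinuousLinearMap.fst ℝ ℝ ℝ +
        pey c z.1 z.2 • ContinuousLinearMap.snd ℝ ℝ ℝ) z := by
  have h : HasFDerivAt (fun z : ℝ × ℝ => pe c z.1 z.2)
      (∑ a : Fin (n + 1), ∑ b : Fin (n + 1), c a b •
        ((z.1 ^ (a : ℕ)) • (((b : ℕ) * z.2 ^ ((b : ℕ) - 1)) • ContinuousLinearMap.snd ℝ ℝ ℝ) +
        (z.2 ^ (b : ℕ)) • (((a : ℕ) * z.1 ^ ((a : ℕ) - 1)) • ContinuousLinearMap.fst ℝ ℝ ℝ))) z := by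
    unfold pe
    refine HasFDerivAt.fun_sum fun a _ => HasFDerivAt.fun_sum fun b _ => ?_
    have h1 : HasFDerivAt (fun z : ℝ × ℝ => z.1 ^ (a : ℕ))
        (((a : ℕ) * z.1 ^ ((a : ℕ) - 1)) • ContinuousLinearMap.fst ℝ ℝ ℝ) z :=
      (hasDerivAt_pow (a : ℕ) z.1).comp_hasFDerivAt z hasFDerivAt_fst
    have h2 : HasFDerivAt (fun z : ℝ × ℝ => z.2 ^ (b : ℕ))
        (((b : ℕ) * z.2 ^ ((b : ℕ) - 1)) • ContinuousLinearMap.snd ℝ ℝ ℝ) z :=
      (hasDerivAt_pow (b : ℕ) z.2).comp_hasFDerivAt z hasFDerivAt_snd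
    exact (h1.mul h2).const_smul (c a b)
  refine h.congr_fderiv ?_
  ext
  · simp only [FunLike.coe_sum, Finset.sum_apply, FunLike.coe_smul,
      Pi.smul_apply, _root_.add_apply, ContinuousLinearMap.coe_comp,
      Function.comp_apply, ContinuousLinearMap.inl_apply, ContinuousLinearMap.coe_fst',
      ContinuousLinearMap.coe_snd', smul_eq_mul, mul_one, mul_zero, zero_add, add_zero, pex]
    refine Finset.sum_congr rfl fun a _ => Finset.sum_congr rfl fun b _ => ?_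
    ring
  · simp only [FunLike.coe_sum, Finset.sum_apply, FunLike.coe_smul,
      Pi.smul_apply, _root_.add_apply, ContinuousLinearMap.coe_comp,
      Function.comp_apply, ContinuousLinearMap.inr_apply, ContinuousLinearMap.coe_fst',
      ContinuousLinearMap.coe_snd', smul_eq_mul, mul_one, mul_zero, zero_add, add_zero, pey]

theorem abs_det_fderiv_neg_vfc {n : ℕ} (μ : Pr n) (z : ℝ × ℝ) :
    |(fderiv ℝ (fun z => -vfc μ z) z).det| = |jdet μ z| := by
  have h : HasFDerivAt (fun z => -vfc μ z)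
      (-((pex μ.1 z.1 z.2 • ContinuousLinearMap.fst ℝ ℝ ℝ +
        pey μ.1 z.1 z.2 • ContinuousLinearMap.snd ℝ ℝ ℝ).prod
        (pex μ.2 z.1 z.2 • ContinuousLinearMap.fst ℝ ℝ ℝ +
        pey μ.2 z.1 z.2 • ContinuousLinearMap.snd ℝ ℝ ℝ))) z :=
    ((hasFDerivAt_pe μ.1 z).prodMk (hasFDerivAt_pe μ.2 z)).neg
  rw [h.fderiv, ContinuousLinearMap.det, ← LinearMap.det_toMatrix (Module.Basis.finTwoProd ℝ),
    Matrix.det_fin_two]
  simp [LinearMap.toMatrix_apply, jdet]

end Pool.Agent.Lib.MP_95e7ec_an
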