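import Mathlib
import Pool.Agent.Lib.MP_95e7ec_an.NearCount
import Pool.Agent.Lib.MP_95e7ec_an.SmoothArr
import Pool.Agent.Lib.MP_95e7ec_an.Area2
import Pool.Agent.Lib.MP_95e7ec_an.CoefBounds
import Pool.Agent.Lib.MP_95e7ec_an.ScaleMain

/-!
# The smoothed bound for the number of all the closed orbits in the unit disc
-/

set_option autoImplicit false

open Set Filter Topology MeasureTheory
open scoped ContDiff ENNReal

namespace Pool.Agent.Lib.MP_95e7ec_an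

theorem logb_two_le {x : ℝ} (hx : 0 < x) : Real.logb 2 x ≤ x := by
  have h2 : 0 < Real.log 2 := Real.log_pos (by norm_num)
  rw [Real.logb, div_le_iff₀ h2]
  have h3 : (1 : ℝ) / 2 < Real.log 2 := by
    have := Real.log_two_gt_d9
    linarith
  have h4 : Real.log 2 < 1 := by
    have := Real.log_two_lt_d9
    linarith
  have h5 : Real.log x = Real.log (x / 2) + Real.log 2 := by
    rw [Real.log_div hx.ne' (by norm_num)]
    ring
  have h6 := Real.log_le_sub_one_of_pos (show 0 < x / 2 by positivity)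
  nlinarith

/-- the sum of the bounds of one zero -/
theorem one_zero_bound {n : ℕ} {M δ Δ : ℝ} (hM : 1 ≤ M) (hδ : 0 < δ) (hΔ : Δ ≠ 0) :
    7 * Real.pi + 8 * Real.pi * n * (1 + Real.logb 2 (8 * M ^ 4 / Δ ^ 2)) ≤
      7 * Real.pi + 8 * Real.pi * n * (1 + Real.logb 2 (8 * M ^ 4 / δ ^ 2)) +
        16 * Real.pi * n * δ / |Δ| := by
  have hpi := Real.pi_pos
  have hMp : 0 < M := by linarith
  have hΔp : 0 < |Δ| := abs_pos.2 hΔ
  have h1 : 8 * M ^ 4 / Δ ^ 2 = 8 * M ^ 4 / δ ^ 2 * (δ / |Δ|) ^ 2 := by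
    rw [div_pow, sq_abs]
    field_simp
  have h2 : Real.logb 2 (8 * M ^ 4 / Δ ^ 2) =
      Real.logb 2 (8 * M ^ 4 / δ ^ 2) + 2 * Real.logb 2 (δ / |Δ|) := by
    rw [h1, Real.logb_mul (by positivity) (by positivity), Real.logb_pow]
    norm_num
  have h3 : Real.logb 2 (δ / |Δ|) ≤ δ / |Δ| := logb_two_le (by positivity)
  rw [h2]
  have h4 : 0 ≤ 16 * Real.pi * n := by positivity
  have h5 := mul_le_mul_of_nonneg_left h3 h4
  have h6 : 16 * Real.pi * n * δ / |Δ| = 16 * Real.pi * n * (δ / |Δ|) := by ring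
  rw [h6]
  nlinarith

/-- The averaged number of the closed orbits of a field all of whose zeros in the unit disc are
nondegenerate. -/
theorem count_good {n : ℕ} (P Q : MvPolynomial (Fin 2) ℝ) (hP : P.totalDegree ≤ n)
    (hQ : Q.totalDegree ≤ n) (hPQ : P ≠ 0 ∨ Q ≠ 0) {M : ℝ} (hM : 1 ≤ M)
    (hb : ∀ z0 ∈ disc 0 1, fro (arr n P, arr n Q) z0 ≤ M ^ 2 ∧ ∀ z ∈ disc 0 1,
      rem1 (arr n P, arr n Q) z0 z ^ 2 + rem2 (arr n P, arr n Q) z0 z ^ 2 ≤
        4 * M ^ 2 * nm (z - z0) ^ 4 ∧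
      drem (arr n P, arr n Q) z0 z ≤ 4 * M ^ 2 * nm (z - z0) ^ 2)
    {δ : ℝ} (hδ : 0 < δ) (hδM : δ ^ 2 ≤ 8 * M ^ 4)
    (hnd : ∀ z ∈ disc 0 1, vf P Q z = 0 → jdet (arr n P, arr n Q) z ≠ 0) :
    ∫⁻ α in Set.Ioo 0 Real.pi, ((orbSet (turn α (vf P Q)) (disc 0 1)).encard : ℝ≥0∞) ≤
      ENNReal.ofReal (4 * Real.pi * n + n ^ 2 * (7 * Real.pi + 8 * Real.pi * n *
        (1 + Real.logb 2 (8 * M ^ 4 / δ ^ 2)))) +
      ∑' z : {z : ℝ × ℝ // z ∈ disc 0 1 ∧ vf P Q z = 0},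
        ENNReal.ofReal (16 * Real.pi * n * δ) / ENNReal.ofReal |jdet (arr n P, arr n Q) z| := by
  classical
  have hpi := Real.pi_pos
  have hMp : 0 < M := by linarith
  set μ : Pr n := (arr n P, arr n Q) with hμ
  have hvf : vf P Q = vfc μ := vf_eq_vfc hP hQ
  obtain ⟨Z, hZ, hZ0, hhull⟩ := exists_hull_points P Q hP hQ hPQ
  set Zc : Finset (ℝ × ℝ) := Z.filter (· ∈ disc 0 1) with hZc
  have hZcard : Zc.card ≤ n ^ 2 := (Finset.card_filter_le _ _).trans hZ
  have hZcD : ∀ z ∈ Zc, z ∈ disc 0 1 := fun z hz => (Finset.mem_filter.1 hz).2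
  have hZc0 : ∀ z ∈ Zc, vf P Q z = 0 := fun z hz => hZ0 z (Finset.mem_filter.1 hz).1
  have hZcΔ : ∀ z ∈ Zc, jdet μ z ≠ 0 := fun z hz => hnd z (hZcD z hz) (hZc0 z hz)
  set r : ℝ × ℝ → ℝ := fun z => jdet μ z ^ 2 / (16 * M ^ 4) with hr
  set K : ℝ × ℝ → ℕ := fun z => ⌊Real.logb 2 (1 / (2 * r z))⌋₊ with hK
  have hrpos : ∀ z ∈ Zc, 0 < r z := fun z hz => by
    have := hZcΔ z hz
    simp only [hr]
    positivity
  have hr1 : ∀ z ∈ Zc, 2 * r z ≤ 1 := by
    intro z hz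
    have h1 := (hb z (hZcD z hz)).1
    have h2 := na_det_le (pex μ.1 z.1 z.2) (pey μ.1 z.1 z.2) (pex μ.2 z.1 z.2) (pey μ.2 z.1 z.2) M h1
    rw [abs_le] at h2
    have h3 : jdet μ z ^ 2 ≤ M ^ 4 / 4 := by
      unfold jdet
      nlinarith
    simp only [hr]
    rw [← mul_div_assoc, div_le_one (by positivity)]
    have : 0 < M ^ 4 := by positivity
    linarith
  have hlog0 : ∀ z ∈ Zc, 0 ≤ Real.logb 2 (1 / (2 * r z)) := by
    intro z hz
    apply Real.logb_nonneg (by norm_num)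
    rw [le_div_iff₀ (by have := hrpos z hz; positivity)]
    linarith [hr1 z hz]
  have hK1 : ∀ z ∈ Zc, 1 ≤ 2 ^ (K z + 1) * (2 * r z) := by
    intro z hz
    have hpos := hrpos z hz
    have h1 : Real.logb 2 (1 / (2 * r z)) < K z + 1 := Nat.lt_floor_add_one _
    have h2 : 1 / (2 * r z) < 2 ^ (((K z + 1 : ℕ)) : ℝ) := by
      rw [← Real.logb_lt_iff_lt_rpow (by norm_num) (by positivity)]
      push_cast
      exact h1
    rw [Real.rpow_natCast, div_lt_iff₀ (by positivity)] at h2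
    exact h2.le
  have hK2 : ∀ z ∈ Zc, ((K z + 1 : ℕ) : ℝ) ≤ 1 + Real.logb 2 (8 * M ^ 4 / jdet μ z ^ 2) := by
    intro z hz
    have h1 : (K z : ℝ) ≤ Real.logb 2 (1 / (2 * r z)) := Nat.floor_le (hlog0 z hz)
    have h2 : 1 / (2 * r z) = 8 * M ^ 4 / jdet μ z ^ 2 := by
      have := hZcΔ z hz
      simp only [hr]
      field_simp
      ring
    rw [h2] at h1
    push_cast
    linarith
  -- the sets
  set S0 : ℝ → Set (Set (ℝ × ℝ)) := fun α =>
    lenSet (turn α (vf P Q)) (disc 0 1) (ENNReal.ofReal 1) ⊤ with hS0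
  set S1 : ℝ × ℝ → ℝ → Set (Set (ℝ × ℝ)) := fun z α =>
    orbSet (turn α (vf P Q)) (disc 0 1 ∩ disc z (r z)) with hS1
  set S2 : ℝ × ℝ → ℕ → ℝ → Set (Set (ℝ × ℝ)) := fun z k α =>
    lenSet (turn α (vf P Q)) (disc z (2 * (2 ^ k * (2 * r z)))) (ENNReal.ofReal (2 ^ k * (2 * r z)))
      (ENNReal.ofReal (2 * (2 ^ k * (2 * r z)))) with hS2
  have hm0 : AEMeasurable (fun α => ((S0 α).encard : ℝ≥0∞))
      (volume.restrict (Set.Ioo 0 Real.pi)) := by
    simp only [hS0]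
    rw [hvf]
    exact lenSet_aemeasurable μ (isOpen_disc 0 1) _ _
  have hm1 : ∀ z, AEMeasurable (fun α => ((S1 z α).encard : ℝ≥0∞))
      (volume.restrict (Set.Ioo 0 Real.pi)) := by
    intro z
    simp only [hS1]
    rw [hvf]
    exact orbSet_aemeasurable μ ((isOpen_disc 0 1).inter (isOpen_disc z (r z)))
  have hm2 : ∀ z k, AEMeasurable (fun α => ((S2 z k α).encard : ℝ≥0∞))
      (volume.restrict (Set.Ioo 0 Real.pi)) := by
    intro z k
    simp only [hS2]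
    rw [hvf]
    exact lenSet_aemeasurable μ (isOpen_disc _ _) _ _
  have hm3 : ∀ z, AEMeasurable (fun α => ((S1 z α).encard : ℝ≥0∞) +
      ∑ k ∈ Finset.range (K z + 1), ((S2 z k α).encard : ℝ≥0∞))
      (volume.restrict (Set.Ioo 0 Real.pi)) := fun z =>
    (hm1 z).add (Finset.aemeasurable_fun_sum _ fun k _ => hm2 z k)
  -- the cover
  have hcover : ∀ α, ((orbSet (turn α (vf P Q)) (disc 0 1)).encard : ℝ≥0∞) ≤
      ((S0 α).encard : ℝ≥0∞) + ∑ z ∈ Zc, (((S1 z α).encard : ℝ≥0∞) +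
        ∑ k ∈ Finset.range (K z + 1), ((S2 z k α).encard : ℝ≥0∞)) := by
    intro α
    have hsub : orbSet (turn α (vf P Q)) (disc 0 1) ⊆
        S0 α ∪ ⋃ z ∈ Zc, (S1 z α ∪ ⋃ k ∈ Finset.range (K z + 1), S2 z k α) := by
      rintro C ⟨hC, hCD⟩
      rcases le_total 1 (orbitLength (turn α (vf P Q)) C) with h1 | h1
      · left
        refine ⟨⟨hC, hCD⟩, ?_, le_top⟩
        rw [ENNReal.ofReal_one]
        exact h1
      · right
        obtain ⟨z, hzZ, hz⟩ := hhull α C hC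
        have hzD : z ∈ disc 0 1 := convexHull_min hCD (convex_disc 0 1) hz
        have hzc : z ∈ Zc := Finset.mem_filter.2 ⟨hzZ, hzD⟩
        refine mem_iUnion₂.2 ⟨z, hzc, ?_⟩
        rcases hull_cover (contDiff_turn (contDiff_vf P Q (k := 0)) α).continuous hC hz
          (hrpos z hzc) (hK1 z hzc) h1 with h2 | ⟨k, hk, h2⟩
        · left
          exact ⟨hC, subset_inter hCD h2⟩
        · right
          exact mem_iUnion₂.2 ⟨k, hk, h2⟩
    calc ((orbSet (turn α (vf P Q)) (disc 0 1)).encard : ℝ≥0∞)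
        ≤ (((S0 α).encard + (⋃ z ∈ Zc, (S1 z α ∪ ⋃ k ∈ Finset.range (K z + 1),
            S2 z k α)).encard : ℕ∞) : ℝ≥0∞) :=
          ENat.toENNReal_le.2 ((Set.encard_le_encard hsub).trans (Set.encard_union_le _ _))
      _ = ((S0 α).encard : ℝ≥0∞) + ((⋃ z ∈ Zc, (S1 z α ∪ ⋃ k ∈ Finset.range (K z + 1),
            S2 z k α)).encard : ℝ≥0∞) := ENat.toENNReal_add _ _
      _ ≤ ((S0 α).encard : ℝ≥0∞) + ∑ z ∈ Zc, ((S1 z α ∪ ⋃ k ∈ Finset.range (K z + 1),
            S2 z k α).encard : ℝ≥0∞) :=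
          add_le_add le_rfl (encard_le_sum_of_subset _ _ _ subset_rfl)
      _ ≤ _ := by
          refine add_le_add le_rfl (Finset.sum_le_sum fun z _ => ?_)
          calc ((S1 z α ∪ ⋃ k ∈ Finset.range (K z + 1), S2 z k α).encard : ℝ≥0∞)
              ≤ (((S1 z α).encard + (⋃ k ∈ Finset.range (K z + 1), S2 z k α).encard : ℕ∞) :
                ℝ≥0∞) := ENat.toENNReal_le.2 (Set.encard_union_le _ _)
            _ = ((S1 z α).encard : ℝ≥0∞) +
                ((⋃ k ∈ Finset.range (K z + 1), S2 z k α).encard : ℝ≥0∞) :=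
                ENat.toENNReal_add _ _
            _ ≤ _ := add_le_add le_rfl (encard_le_sum_of_subset _ _ _ subset_rfl)
  -- the bounds of the integrals
  have hb0 : ∫⁻ α in Set.Ioo 0 Real.pi, ((S0 α).encard : ℝ≥0∞) ≤
      ENNReal.ofReal (4 * Real.pi * n) := by
    simp only [hS0]
    rw [hvf]
    refine (local_count μ 0 zero_le_one one_pos ⊤).trans (ENNReal.ofReal_le_ofReal (le_of_eq ?_))
    ring
  have hb1 : ∀ z ∈ Zc, ∫⁻ α in Set.Ioo 0 Real.pi, ((S1 z α).encard : ℝ≥0∞) ≤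
      ENNReal.ofReal (7 * Real.pi) := by
    intro z hz
    simp only [hS1]
    rw [hvf]
    refine near_count (M := M) (z0 := z) ?_ ((isOpen_disc 0 1).inter (isOpen_disc z (r z)))
      inter_subset_right
    have hzD := hZcD z hz
    refine ⟨?_, hM, (hb z hzD).1, hZcΔ z hz, fun w hw => ((hb z hzD).2 w hw.1).1,
      fun w hw => ((hb z hzD).2 w hw.1).2, fun w hw => ?_,
      (convex_disc 0 1).inter (convex_disc z (r z))⟩
    · rw [← hvf]
      exact hZc0 z hz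
    · have h1 := nm_lt_of_mem_disc (hrpos z hz) hw.2
      simp only [hr] at h1
      rw [lt_div_iff₀ (by positivity)] at h1
      linarith
  have hb2 : ∀ z ∈ Zc, ∀ k, ∫⁻ α in Set.Ioo 0 Real.pi, ((S2 z k α).encard : ℝ≥0∞) ≤
      ENNReal.ofReal (8 * Real.pi * n) := by
    intro z hz k
    simp only [hS2]
    rw [hvf]
    have hpos : 0 < 2 ^ k * (2 * r z) := by
      have := hrpos z hz
      positivity
    refine (local_count μ z (by positivity) hpos _).trans (ENNReal.ofReal_le_ofReal (le_of_eq ?_))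
    generalize 2 ^ k * (2 * r z) = x at hpos ⊢
    field_simp
    ring
  have hb3 : ∀ z ∈ Zc, ∫⁻ α in Set.Ioo 0 Real.pi, (((S1 z α).encard : ℝ≥0∞) +
      ∑ k ∈ Finset.range (K z + 1), ((S2 z k α).encard : ℝ≥0∞)) ≤
      ENNReal.ofReal (7 * Real.pi + 8 * Real.pi * n * (1 + Real.logb 2 (8 * M ^ 4 / δ ^ 2))) +
        ENNReal.ofReal (16 * Real.pi * n * δ) / ENNReal.ofReal |jdet μ z| := by
    intro z hz
    have hΔp : 0 < |jdet μ z| := abs_pos.2 (hZcΔ z hz)
    have hlogδ : 0 ≤ Real.logb 2 (8 * M ^ 4 / δ ^ 2) := by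
      apply Real.logb_nonneg (by norm_num)
      rw [le_div_iff₀ (by positivity)]
      linarith
    calc ∫⁻ α in Set.Ioo 0 Real.pi, (((S1 z α).encard : ℝ≥0∞) +
          ∑ k ∈ Finset.range (K z + 1), ((S2 z k α).encard : ℝ≥0∞))
        = (∫⁻ α in Set.Ioo 0 Real.pi, ((S1 z α).encard : ℝ≥0∞)) +
          ∑ k ∈ Finset.range (K z + 1), ∫⁻ α in Set.Ioo 0 Real.pi, ((S2 z k α).encard : ℝ≥0∞) := by
          rw [lintegral_add_left' (hm1 z), lintegral_finsetSum' _ fun k _ => hm2 z k]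
      _ ≤ ENNReal.ofReal (7 * Real.pi) +
          ∑ k ∈ Finset.range (K z + 1), ENNReal.ofReal (8 * Real.pi * n) :=
          add_le_add (hb1 z hz) (Finset.sum_le_sum fun k _ => hb2 z hz k)
      _ = ENNReal.ofReal (7 * Real.pi + ((K z + 1 : ℕ) : ℝ) * (8 * Real.pi * n)) := by
          rw [Finset.sum_const, Finset.card_range, nsmul_eq_mul,
            ← ENNReal.ofReal_natCast (K z + 1), ← ENNReal.ofReal_mul (by positivity),
            ← ENNReal.ofReal_add (by positivity) (by positivity)]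
      _ ≤ ENNReal.ofReal (7 * Real.pi + 8 * Real.pi * n *
            (1 + Real.logb 2 (8 * M ^ 4 / jdet μ z ^ 2))) := by
          apply ENNReal.ofReal_le_ofReal
          have h1 := mul_le_mul_of_nonneg_left (hK2 z hz)
            (show 0 ≤ 8 * Real.pi * n by positivity)
          linarith
      _ ≤ ENNReal.ofReal (7 * Real.pi + 8 * Real.pi * n * (1 + Real.logb 2 (8 * M ^ 4 / δ ^ 2)) +
            16 * Real.pi * n * δ / |jdet μ z|) :=
          ENNReal.ofReal_le_ofReal (one_zero_bound hM hδ (hZcΔ z hz))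
      _ = _ := by
          rw [ENNReal.ofReal_add (by positivity) (by positivity), ENNReal.ofReal_div_of_pos hΔp]
  have htsum : ∑ z ∈ Zc, ENNReal.ofReal (16 * Real.pi * n * δ) / ENNReal.ofReal |jdet μ z| ≤
      ∑' z : {z : ℝ × ℝ // z ∈ disc 0 1 ∧ vf P Q z = 0},
        ENNReal.ofReal (16 * Real.pi * n * δ) / ENNReal.ofReal |jdet μ z| := by
    have h1 : ∑' z : {z : ℝ × ℝ // z ∈ disc 0 1 ∧ vf P Q z = 0},
        ENNReal.ofReal (16 * Real.pi * n * δ) / ENNReal.ofReal |jdet μ z| =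
        ∑' z : ℝ × ℝ, {z : ℝ × ℝ | z ∈ disc 0 1 ∧ vf P Q z = 0}.indicator
          (fun z => ENNReal.ofReal (16 * Real.pi * n * δ) / ENNReal.ofReal |jdet μ z|) z :=
      tsum_subtype {z : ℝ × ℝ | z ∈ disc 0 1 ∧ vf P Q z = 0}
        (fun z => ENNReal.ofReal (16 * Real.pi * n * δ) / ENNReal.ofReal |jdet μ z|)
    rw [h1]
    refine le_trans (le_of_eq ?_) (ENNReal.sum_le_tsum Zc)
    refine Finset.sum_congr rfl fun z hz => ?_
    rw [Set.indicator_of_mem (show z ∈ {z : ℝ × ℝ | z ∈ disc 0 1 ∧ vf P Q z = 0} from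
      ⟨hZcD z hz, hZc0 z hz⟩)]
  have hlogδ : 0 ≤ Real.logb 2 (8 * M ^ 4 / δ ^ 2) := by
    apply Real.logb_nonneg (by norm_num)
    rw [le_div_iff₀ (by positivity)]
    linarith
  set B : ℝ := 7 * Real.pi + 8 * Real.pi * n * (1 + Real.logb 2 (8 * M ^ 4 / δ ^ 2)) with hB
  have hB0 : 0 ≤ B := by positivity
  calc ∫⁻ α in Set.Ioo 0 Real.pi, ((orbSet (turn α (vf P Q)) (disc 0 1)).encard : ℝ≥0∞)
      ≤ ∫⁻ α in Set.Ioo 0 Real.pi, (((S0 α).encard : ℝ≥0∞) + ∑ z ∈ Zc,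
          (((S1 z α).encard : ℝ≥0∞) +
            ∑ k ∈ Finset.range (K z + 1), ((S2 z k α).encard : ℝ≥0∞))) :=
        lintegral_mono fun α => hcover α
    _ = (∫⁻ α in Set.Ioo 0 Real.pi, ((S0 α).encard : ℝ≥0∞)) + ∑ z ∈ Zc,
          ∫⁻ α in Set.Ioo 0 Real.pi, (((S1 z α).encard : ℝ≥0∞) +
            ∑ k ∈ Finset.range (K z + 1), ((S2 z k α).encard : ℝ≥0∞)) := by
        rw [lintegral_add_left' hm0, lintegral_finsetSum' _ fun z _ => hm3 z]
    _ ≤ ENNReal.ofReal (4 * Real.pi * n) + ∑ z ∈ Zc, (ENNReal.ofReal B +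
          ENNReal.ofReal (16 * Real.pi * n * δ) / ENNReal.ofReal |jdet μ z|) :=
        add_le_add hb0 (Finset.sum_le_sum fun z hz => hb3 z hz)
    _ = ENNReal.ofReal (4 * Real.pi * n) + (Zc.card * ENNReal.ofReal B) +
          ∑ z ∈ Zc, ENNReal.ofReal (16 * Real.pi * n * δ) / ENNReal.ofReal |jdet μ z| := by
        rw [Finset.sum_add_distrib, Finset.sum_const, nsmul_eq_mul, add_assoc]
    _ ≤ ENNReal.ofReal (4 * Real.pi * n) + (ENNReal.ofReal (n ^ 2) * ENNReal.ofReal B) +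
          ∑' z : {z : ℝ × ℝ // z ∈ disc 0 1 ∧ vf P Q z = 0},
            ENNReal.ofReal (16 * Real.pi * n * δ) / ENNReal.ofReal |jdet μ z| := by
        refine add_le_add (add_le_add le_rfl ?_) htsum
        gcongr
        rw [← ENNReal.ofReal_natCast Zc.card]
        apply ENNReal.ofReal_le_ofReal
        exact_mod_cast hZcard
    _ = _ := by
        rw [← ENNReal.ofReal_mul (by positivity), ← ENNReal.ofReal_add (by positivity)
          (by positivity)]

end Pool.Agent.Lib.MP_95e7ec_an
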