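import Mathlib
import Pool.Agent.Lib.MP_95e7ec_an.SmoothMain

/-!
# The smoothed bound: integration over the constant term
-/

set_option autoImplicit false

open Set Filter Topology MeasureTheory
open scoped ContDiff ENNReal

namespace Pool.Agent.Lib.MP_95e7ec_an

theorem pex_zero_arr (n : ℕ) (x y : ℝ) : pex (arr n 0) x y = 0 := by
  unfold pex arr
  simp

/-- the smoothed bound with a general constant `M` for the derivatives -/
theorem smooth_bound {n : ℕ} (hn : 1 ≤ n) (P Q : MvPolynomial (Fin 2) ℝ) (hP : P.totalDegree ≤ n)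
    (hQ : Q.totalDegree ≤ n) {M : ℝ} (hM : 1 ≤ M)
    (hb : ∀ z0 ∈ disc 0 1, fro (arr n P, arr n Q) z0 ≤ M ^ 2 ∧ ∀ z ∈ disc 0 1,
      rem1 (arr n P, arr n Q) z0 z ^ 2 + rem2 (arr n P, arr n Q) z0 z ^ 2 ≤
        4 * M ^ 2 * nm (z - z0) ^ 4 ∧
      drem (arr n P, arr n Q) z0 z ≤ 4 * M ^ 2 * nm (z - z0) ^ 2)
    {δ : ℝ} (hδ : 0 < δ) (hδM : δ ^ 2 ≤ 8 * M ^ 4) :
    ∃ g : ℝ × ℝ → ℝ≥0∞, Measurable g ∧
      (∀ c : ℝ × ℝ, ∫⁻ α in Set.Ioo 0 Real.pi, ((orbSet (turn α (vf (P + MvPolynomial.C c.1)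
        (Q + MvPolynomial.C c.2))) (disc 0 1)).encard : ℝ≥0∞) ≤
        ENNReal.ofReal (4 * Real.pi * n + n ^ 2 * (7 * Real.pi + 8 * Real.pi * n *
        (1 + Real.logb 2 (8 * M ^ 4 / δ ^ 2)))) + g c) ∧
      ∫⁻ c, g c ≤ ENNReal.ofReal (64 * Real.pi * n * δ) := by
  classical
  have hpi := Real.pi_pos
  have hn1 : (1 : ℝ) ≤ n := by exact_mod_cast hn
  set μ : Pr n := (arr n P, arr n Q) with hμ
  set ψ : ℝ × ℝ → ℝ≥0∞ := fun z =>
    ENNReal.ofReal (16 * Real.pi * n * δ) / ENNReal.ofReal |jdet μ z| with hψ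
  have hjm : Measurable fun z => |jdet μ z| := by
    have h1 := (avb_continuous_pex μ.1)
    have h2 := (avb_continuous_pex μ.2)
    have h3 := (avb_continuous_pey μ.1)
    have h4 := (avb_continuous_pey μ.2)
    exact (continuous_abs.comp ((h1.mul h4).sub (h3.mul h2))).measurable
  have hψm : Measurable ψ := measurable_const.div hjm.ennreal_ofReal
  obtain ⟨g, hg, hgb, hgi⟩ := area_two (isOpen_disc 0 1).measurableSet
    (f := fun z => -vfc μ z) (vfc_contDiff μ).neg hψm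
  have hvf : vf P Q = vfc μ := vf_eq_vfc hP hQ
  refine ⟨g, hg, fun c => ?_, ?_⟩
  · -- the inner bound
    set P' := P + MvPolynomial.C c.1 with hP'
    set Q' := Q + MvPolynomial.C c.2 with hQ'
    set μ' : Pr n := (arr n P', arr n Q') with hμ'
    have hdP : P'.totalDegree ≤ n := totalDegree_add_C hP _
    have hdQ : Q'.totalDegree ≤ n := totalDegree_add_C hQ _
    have hvf' : vf P' Q' = vfc μ' := vf_eq_vfc hdP hdQ
    have hv : ∀ z, vfc μ' z = vfc μ z + c := by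
      intro z
      rw [← hvf', ← hvf]
      exact vf_add_C P Q c z
    have hx1 : ∀ x y, pex μ'.1 x y = pex μ.1 x y := fun x y => pex_arr_add_C n P c.1 x y
    have hx2 : ∀ x y, pex μ'.2 x y = pex μ.2 x y := fun x y => pex_arr_add_C n Q c.2 x y
    have hy1 : ∀ x y, pey μ'.1 x y = pey μ.1 x y := fun x y => pey_arr_add_C n P c.1 x y
    have hy2 : ∀ x y, pey μ'.2 x y = pey μ.2 x y := fun x y => pey_arr_add_C n Q c.2 x y
    have hj : ∀ z, jdet μ' z = jdet μ z := by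
      intro z; unfold jdet; rw [hx1, hx2, hy1, hy2]
    have hf : ∀ z, fro μ' z = fro μ z := by
      intro z; unfold fro; rw [hx1, hx2, hy1, hy2]
    have hd : ∀ z0 z, drem μ' z0 z = drem μ z0 z := by
      intro z0 z; unfold drem; simp only [hx1, hx2, hy1, hy2]
    have hr1 : ∀ z0 z, rem1 μ' z0 z = rem1 μ z0 z := by
      intro z0 z
      unfold rem1
      rw [hv, hv, hx1, hy1]
      simp only [Prod.fst_add]
      ring
    have hr2 : ∀ z0 z, rem2 μ' z0 z = rem2 μ z0 z := by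
      intro z0 z
      unfold rem2
      rw [hv, hv, hx2, hy2]
      simp only [Prod.snd_add]
      ring
    have hset : ∀ z, (vf P' Q' z = 0 ↔ -vfc μ z = c) := by
      intro z
      rw [hvf', hv]
      constructor
      · intro h
        rw [neg_eq_iff_eq_neg]
        exact eq_neg_of_add_eq_zero_left h
      · intro h
        rw [← h]
        simp
    by_cases hgood : ∀ z ∈ disc 0 1, vf P' Q' z = 0 → jdet μ' z ≠ 0
    · have hPQ : P' ≠ 0 ∨ Q' ≠ 0 := by
        by_contra hcon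
        push Not at hcon
        have h0 : (0 : ℝ × ℝ) ∈ disc 0 1 := by simp [disc]
        apply hgood 0 h0
        · rw [hcon.1, hcon.2]
          simp [vf]
        · unfold jdet
          have e1 : pex μ'.1 (0 : ℝ × ℝ).1 (0 : ℝ × ℝ).2 = 0 := by
            simp only [hμ']
            rw [hcon.1]
            exact pex_zero_arr n _ _
          have e2 : pex μ'.2 (0 : ℝ × ℝ).1 (0 : ℝ × ℝ).2 = 0 := by
            simp only [hμ']
            rw [hcon.2]
            exact pex_zero_arr n _ _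
          rw [e1, e2]
          ring
      have h1 := count_good P' Q' hdP hdQ hPQ hM (by
        intro z0 hz0
        rw [← hμ', hf]
        refine ⟨(hb z0 hz0).1, fun z hz => ?_⟩
        rw [hr1, hr2, hd]
        exact (hb z0 hz0).2 z hz) hδ hδM hgood
      refine h1.trans (add_le_add le_rfl ?_)
      refine le_trans (le_of_eq ?_) (hgb c)
      have hsets : {z : ℝ × ℝ | z ∈ disc 0 1 ∧ vf P' Q' z = 0} =
          {z : ℝ × ℝ | z ∈ disc 0 1 ∧ -vfc μ z = c} := by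
        ext z
        simp only [Set.mem_ofPred_eq, hset]
      have e1 : ∑' z : {z : ℝ × ℝ // z ∈ disc 0 1 ∧ vf P' Q' z = 0},
          ENNReal.ofReal (16 * Real.pi * n * δ) / ENNReal.ofReal |jdet (arr n P', arr n Q') z| =
          ∑' z : ℝ × ℝ, {z : ℝ × ℝ | z ∈ disc 0 1 ∧ vf P' Q' z = 0}.indicator ψ z := by
        rw [← tsum_subtype]
        apply tsum_congr
        intro z
        simp only [hψ]
        rw [← hμ', hj]
      have e2 : ∑' z : {z : ℝ × ℝ // z ∈ disc 0 1 ∧ -vfc μ z = c}, ψ z =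
          ∑' z : ℝ × ℝ, {z : ℝ × ℝ | z ∈ disc 0 1 ∧ -vfc μ z = c}.indicator ψ z :=
        tsum_subtype {z : ℝ × ℝ | z ∈ disc 0 1 ∧ -vfc μ z = c} ψ
      rw [e1, e2, hsets]
    · -- a degenerate zero: the majorant is infinite
      push Not at hgood
      obtain ⟨z, hz, hz0, hzj⟩ := hgood
      have h1 : ψ z = ⊤ := by
        simp only [hψ]
        rw [← hj, hzj, abs_zero, ENNReal.ofReal_zero, ENNReal.div_zero]
        exact (ENNReal.ofReal_pos.2 (by positivity)).ne'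
      have h2 : (⊤ : ℝ≥0∞) ≤ g c := by
        rw [← h1]
        exact (ENNReal.le_tsum (f := fun z : {z : ℝ × ℝ // z ∈ disc 0 1 ∧ -vfc μ z = c} => ψ z)
          ⟨z, hz, (hset z).1 hz0⟩).trans (hgb c)
      rw [top_le_iff] at h2
      rw [h2]
      simp
  · -- the outer integral
    refine hgi.trans ?_
    calc ∫⁻ z in disc 0 1, ENNReal.ofReal |(fderiv ℝ (fun z => -vfc μ z) z).det| * ψ z
        ≤ ∫⁻ z in disc 0 1, ENNReal.ofReal (16 * Real.pi * n * δ) := by
          apply lintegral_mono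
          intro z
          simp only [hψ]
          rw [abs_det_fderiv_neg_vfc]
          exact ENNReal.mul_div_le
      _ ≤ ∫⁻ z in Set.Ioo (-1 : ℝ) 1 ×ˢ Set.Ioo (-1 : ℝ) 1,
            ENNReal.ofReal (16 * Real.pi * n * δ) := by
          apply lintegral_mono_set
          have := disc_subset_square (0 : ℝ × ℝ) zero_le_one
          simpa using this
      _ = ENNReal.ofReal (16 * Real.pi * n * δ) * (ENNReal.ofReal 2 * ENNReal.ofReal 2) := by
          rw [setLIntegral_const, Measure.volume_eq_prod, Measure.prod_prod, Real.volume_Ioo]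
          norm_num
      _ = ENNReal.ofReal (64 * Real.pi * n * δ) := by
          rw [← ENNReal.ofReal_mul (by norm_num), ← ENNReal.ofReal_mul (by positivity)]
          congr 1
          ring

/-- The smoothed bound. -/
theorem smoothed {n : ℕ} (hn : 1 ≤ n) (P Q : MvPolynomial (Fin 2) ℝ) (hP : P.totalDegree ≤ n)
    (hQ : Q.totalDegree ≤ n) {H : ℝ} (hH : 1 ≤ H)
    (hcP : ∀ m, |P.coeff m| ≤ H) (hcQ : ∀ m, |Q.coeff m| ≤ H) {ρ : ℝ} (hρ : 0 < ρ) (hρ1 : ρ ≤ 1) :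
    ∃ G : ℝ × ℝ → ℝ≥0∞, Measurable G ∧
      (∀ c : ℝ × ℝ, ∫⁻ α in Set.Ioo 0 Real.pi, ((orbSet (turn α (vf (P + MvPolynomial.C c.1)
        (Q + MvPolynomial.C c.2))) (disc 0 1)).encard : ℝ≥0∞) ≤ G c) ∧
      ∫⁻ c in Set.Ioo (-ρ) ρ ×ˢ Set.Ioo (-ρ) ρ, G c ≤ ENNReal.ofReal (4 * ρ ^ 2 * (Real.pi *
        (n ^ 3 * (155 + 128 * Real.logb 2 n + 32 * Real.logb 2 (H / ρ))))) := by
  have hpi := Real.pi_pos
  have hn1 : (1 : ℝ) ≤ n := by exact_mod_cast hn
  have hn0 : (0 : ℝ) < n := by linarith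
  have hHp : 0 < H := by linarith
  have hn4 : (1 : ℝ) ≤ n ^ 4 := one_le_pow₀ hn1
  set M : ℝ := 8 * H * n ^ 4 with hM
  have hM8 : 8 ≤ M := by
    rw [hM]
    nlinarith
  have hM1 : 1 ≤ M := by linarith
  have hδ : 0 < ρ ^ 2 := by positivity
  have hδ1 : ρ ^ 2 ≤ 1 := pow_le_one₀ hρ.le hρ1
  have hM4 : 1 ≤ M ^ 4 := one_le_pow₀ hM1
  have hδM : (ρ ^ 2) ^ 2 ≤ 8 * M ^ 4 := by nlinarith
  obtain ⟨g, hg, hgb, hgi⟩ := smooth_bound hn P Q hP hQ hM1 (fun z0 hz0 =>
    coef_bounds hn P Q hH hcP hcQ hz0) hδ hδM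
  set A : ℝ := 4 * Real.pi * n + n ^ 2 * (7 * Real.pi + 8 * Real.pi * n *
        (1 + Real.logb 2 (8 * M ^ 4 / (ρ ^ 2) ^ 2))) with hA
  have hlogn : 0 ≤ Real.logb 2 n := Real.logb_nonneg (by norm_num) hn1
  have hlogH : 0 ≤ Real.logb 2 (H / ρ) := by
    apply Real.logb_nonneg (by norm_num)
    rw [le_div_iff₀ hρ]
    linarith
  have hlog : Real.logb 2 (8 * M ^ 4 / (ρ ^ 2) ^ 2) =
      15 + 16 * Real.logb 2 n + 4 * Real.logb 2 (H / ρ) := by
    have e1 : 8 * M ^ 4 / (ρ ^ 2) ^ 2 = 2 ^ 15 * (n : ℝ) ^ 16 * (H / ρ) ^ 4 := by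
      rw [hM]
      field_simp
      ring
    rw [e1, Real.logb_mul (by positivity) (by positivity),
      Real.logb_mul (by positivity) (by positivity), Real.logb_pow, Real.logb_pow, Real.logb_pow,
      Real.logb_self_eq_one (by norm_num)]
    norm_num
  have hA0 : 0 ≤ A := by
    rw [hA, hlog]
    positivity
  have hfin : 4 * ρ ^ 2 * A + 64 * Real.pi * n * ρ ^ 2 ≤ 4 * ρ ^ 2 * (Real.pi *
        (n ^ 3 * (155 + 128 * Real.logb 2 n + 32 * Real.logb 2 (H / ρ)))) := by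
    have e2 : 4 * ρ ^ 2 * A + 64 * Real.pi * n * ρ ^ 2 = 4 * ρ ^ 2 * (Real.pi * (20 * n + 7 * n ^ 2 +
        8 * n ^ 3 * (16 + 16 * Real.logb 2 n + 4 * Real.logb 2 (H / ρ)))) := by
      rw [hA, hlog]
      ring
    rw [e2]
    apply mul_le_mul_of_nonneg_left _ (by positivity)
    apply mul_le_mul_of_nonneg_left _ hpi.le
    have h1 : (n : ℝ) ≤ n ^ 3 := by nlinarith [sq_nonneg ((n : ℝ) - 1), mul_self_nonneg (n : ℝ)]
    have h2 : (n : ℝ) ^ 2 ≤ n ^ 3 := by nlinarith [sq_nonneg (n : ℝ)]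
    nlinarith
  refine ⟨fun c => ENNReal.ofReal A + g c, measurable_const.add hg, hgb, ?_⟩
  calc ∫⁻ c in Set.Ioo (-ρ) ρ ×ˢ Set.Ioo (-ρ) ρ, (ENNReal.ofReal A + g c)
      = (∫⁻ c in Set.Ioo (-ρ) ρ ×ˢ Set.Ioo (-ρ) ρ, ENNReal.ofReal A) +
        ∫⁻ c in Set.Ioo (-ρ) ρ ×ˢ Set.Ioo (-ρ) ρ, g c := lintegral_add_left measurable_const _
    _ ≤ ENNReal.ofReal (4 * ρ ^ 2 * A) + ENNReal.ofReal (64 * Real.pi * n * ρ ^ 2) := by
        refine add_le_add (le_of_eq ?_) ((setLIntegral_le_lintegral _ _).trans hgi)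
        rw [setLIntegral_const, Measure.volume_eq_prod, Measure.prod_prod, Real.volume_Ioo,
          ← ENNReal.ofReal_mul (by linarith), ← ENNReal.ofReal_mul hA0]
        congr 1
        ring
    _ = ENNReal.ofReal (4 * ρ ^ 2 * A + 64 * Real.pi * n * ρ ^ 2) :=
        (ENNReal.ofReal_add (by positivity) (by positivity)).symm
    _ ≤ _ := ENNReal.ofReal_le_ofReal hfin

end Pool.Agent.Lib.MP_95e7ec_an
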